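import Pool.Agent.Work.MP_29d410_ag.FL3

/-!
# An arc with constant coefficients on a variety with finite stabiliser is algebraic

Plan.  `loc_sh`: a form over `Big k` vanishing at the shifted point.  Work in `Big (Big k)`:
`Big k` and the fraction field of `map ιB (sh (k⟦ε⟧))` are linearly disjoint over `k`: for `f i`
independent over `k`, a relation `∑ C (c i) * sh (f i) = 0` with `c i ∈ k⟦η⟧` becomes
`∑ C (c i) * map C (f i) = 0` by `exists_unsh`, so `c i = 0`; then `LD.acl`, `genLD`, `loc_map`.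
`arc_alg`: `E = Big Ω`, `F = K ⊔ serF κ` (perfect, `root_sup`), `Z = loc ω` over `Ω`, `0 ∈ Z`.
`Stab Z` is finite: its identity component is `ext S₀`, `S₀` over `K'` (`rig`); for `σ ∈ S₀`,
`σ ∈ Z ⊆ ext X' - x`, so `σ + X' ⊆ X'` (`vadd_loc_subset`).  Let `ω₁ = map ιB ω` over `E`, and over
`E⟦ε⟧`: `ω₂ = map (map cB) ω`, `ω₃ = map (map ιB ∘ sh) ω`, `w = ω₃ - C ω₁ ∈ K1 (ε)`.  For
`τ ∈ Aut (E / F)`, `map τ` fixes `ω₂` and `w`: `c ω₂ = e (map cB y)`, and `w` is the image under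
`map ιB` of a point over `Ω⟦η⟧⟦ε⟧` with parameters `e (y')`, `y' = sh y - C y` in the group of points
of `H`, whose coefficients come from `κ₁⟦η⟧`, `κ₁ = κ ⊔` the finite field of the coefficients of `H`
(use `FGL.Pts.map` from the points over `κ⟦η⟧⟦ε⟧`; the coefficients of `H.F` are algebraic over the prime
field, so lie in `κ`); `eq_of_c`.  So `τ` preserves `loc ω₂ = ext Z` (`loc_ps`) and
`loc w = ext Z - ω₁` (`loc_sh`, `loc_vadd`) by `map_mem_loc`; `τ ω₁ - ω₁ ∈ Stab (ext Z)`, a finite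
group of order `n`; `rat_of_fixed`.
-/

open PowerSeries

namespace MLF

universe u

open PG

theorem Arc_indep {k : Type u} [Field k] {n : ℕ} (c : Fin n → Big k) (g : Fin n → PowerSeries k)
    (hc : ∀ b : Fin n → k, ∑ i, c i * cB k (b i) = 0 → ∀ i, b i = 0)
    (H : ∑ i, C (c i) * map (ιB k) (sh k (g i)) = 0) (i : Fin n) : g i = 0 := by
  ext m
  refine hc (fun i => coeff m (g i)) ?_ i
  rw [← Module.forall_dual_apply_eq_zero_iff (FractionRing (PowerSeries k))]
  intro θ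
  obtain ⟨b, hb⟩ := IsLocalization.exist_integer_multiples_of_finite
    (nonZeroDivisors (PowerSeries k)) fun i => θ (c i)
  choose a ha using hb
  have hθ : ∀ (z : Big k) (f : PowerSeries k), θ (z * ιB k f) = f • θ z := fun z f => by
    rw [ιB, IsScalarTower.algebraMap_apply (PowerSeries k) (FractionRing (PowerSeries k)), mul_comm,
      ← Algebra.smul_def, map_smul, algebraMap_smul]
  have key : ∀ u : Fin n → PowerSeries k, θ (∑ i, c i * ιB k (u i)) = 0 ↔ ∑ i, a i * u i = 0 := by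
    intro u
    have h1 : (b : PowerSeries k) • θ (∑ i, c i * ιB k (u i)) =
        algebraMap _ (FractionRing (PowerSeries k)) (∑ i, a i * u i) := by
      rw [map_sum, map_sum, Finset.smul_sum]
      refine Finset.sum_congr rfl fun i _ => ?_
      rw [hθ, smul_comm, ← ha, Algebra.smul_def, map_mul, mul_comm]
    rw [← map_eq_zero_iff _
      (IsFractionRing.injective (PowerSeries k) (FractionRing (PowerSeries k))), ← h1, smul_eq_zero, or_iff_right (nonZeroDivisors.coe_ne_zero b)]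
  obtain ⟨U, hU, hU'⟩ := exists_unsh k
  have h1 : ∑ i, C (a i) * sh k (g i) = 0 := by
    refine PowerSeries.ext fun m => ?_
    have h2 := congrArg (coeff m) H
    simp only [map_sum, coeff_C_mul, coeff_map, map_zero] at h2 ⊢
    exact (key _).1 (by rw [h2, map_zero])
  have h2 := congrArg (fun f => coeff m (U f)) h1
  simp only [map_sum, map_mul, hU, hU', coeff_C_mul, coeff_map, map_zero] at h2
  exact (key _).2 h2

theorem Arc_map_C {R S : Type u} [CommRing R] [CommRing S] (g : R →+* S) :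
    (PowerSeries.map g).comp C = C.comp g := RingHom.ext fun c => map_C g c

theorem Arc_sh_C (k : Type u) [Field k] :
    ((PowerSeries.map (ιB k)).comp (sh k)).comp C = C.comp (cB k) :=
  RingHom.ext fun c => by
    simp only [RingHom.comp_apply, sh_C, map_C, cB]

theorem PG.loc_sh {A : PG.{u}} {k : Type u} [Field k] [IsAlgClosed k] {s : A.Str k}
    {sR : A.Str (PowerSeries k)} (hR : A.push C s = sR) {sB : A.Str (Big k)}
    (hB : A.push (cB k) s = sB) {t : A.Str (PowerSeries (Big k))}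
    (ht : A.push ((PowerSeries.map (ιB k)).comp (sh k)) sR = t) (ω : A.Pt sR) :
    loc C sB (A.map _ ht ω) = ext (cB k) sB (loc C s ω) := by
  have e := Arc_sh_C k
  have h' : A.push C sB = t := by
    rw [← hB, ← ht, ← hR, A.ax.push_comp, A.ax.push_comp, e]
  have hi : Function.Injective ((PowerSeries.map (ιB k)).comp (sh k)) := by
    refine (injective_iff_map_eq_zero _).2 fun f hf => ιB_inj k ?_
    have h1 := congrArg (coeff 0) hf
    rwa [RingHom.comp_apply, coeff_map, coeff_zero_eq_constantCoeff_apply, constantCoeff_sh,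
      map_zero, ← map_zero (ιB k)] at h1
  rw [← loc_map hi ht ω, e]
  obtain ⟨v, hv⟩ := A.ax.exists_rep ω
  refine (loc_subset_ext_loc (cB k) _ hB h' _).antisymm
    (Geo2_gen (cB k) _ sB (rep_map _ ht hv) fun n c f hc H i => ?_)
  simp only [← e, ← MvPolynomial.eval₂_comp_left] at H ⊢
  rw [Arc_indep c _ hc H i, map_zero]

section aux

variable {A : SPG.{u}} {K S E : Type u} [CommRing K] [CommRing S] [IsLocalRing S] [CommRing E]
  [IsLocalRing E]

theorem Arc_mx_le : mx S ≤ IsLocalRing.maximalIdeal (PowerSeries S) :=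
  (Ideal.span_singleton_le_iff_mem _).2 fun h => by
    have h1 := h.map (constantCoeff (R := S))
    rw [constantCoeff_X] at h1
    exact not_isUnit_zero h1

omit [IsLocalRing S] in
theorem Arc_mem_mx {f : PowerSeries S} : f ∈ mx S ↔ constantCoeff f = 0 :=
  Ideal.mem_span_singleton.trans X_dvd_iff

theorem Arc_cong_map {sR : A.Str (PowerSeries S)} {x : A.Pt sR} (hx : Cong (mx S) x (0 : A.Pt sR))
    (g : S →+* E) {t : A.Str (PowerSeries E)} (h : A.push (map g) sR = t) :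
    Cong (mx E) (A.map (map g) h x) (0 : A.Pt t) := by
  have h1 := hx.map (PowerSeries.map g) h h (𝔞' := mx E) fun z hz => Arc_mem_mx.2 (by
    rw [← coeff_zero_eq_constantCoeff_apply, coeff_map, coeff_zero_eq_constantCoeff_apply,
      Arc_mem_mx.1 hz, map_zero])
  rwa [map_zero] at h1

omit [IsLocalRing S] [IsLocalRing E] in
theorem Arc_map {ρ : Type} {y : ρ → PowerSeries S} (hy : Arc y) (g : S →+* E) :
    Arc (map g ∘ y) := fun l => by
  rw [Function.comp_apply, ← coeff_zero_eq_constantCoeff_apply, coeff_map,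
    coeff_zero_eq_constantCoeff_apply, hy l, map_zero]

/-- Two changes of coefficients which agree on the data of a point agree on the point. -/
theorem Arc_map_eq {ρ : Type} [Finite ρ] {sR : A.Str (PowerSeries S)} {x : A.Pt sR}
    (hx : Cong (mx S) x (0 : A.Pt sR)) {φ : K →+* S} {y : ρ → PowerSeries S} (hy : Arc y)
    {e : A.τ → MvPowerSeries ρ K} (hc : ∀ a, A.c x a = ev (C.comp φ) y (e a)) {g g' : S →+* E}
    (hφ : ∀ c, g (φ c) = g' (φ c)) (hg : ∀ l n, g (coeff n (y l)) = g' (coeff n (y l)))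
    {t : A.Str (PowerSeries E)} (h : A.push (map g) sR = t) (h' : A.push (map g') sR = t) :
    A.map (map g) h x = A.map (map g') h' x := by
  have h1 := (Arc_cong_map hx g h).mono Arc_mx_le
  have h2 := (Arc_cong_map hx g' h').mono Arc_mx_le
  refine SPG.eq_of_c h1 h2 ?_
  rw [SPG.c_map _ h (hx.mono Arc_mx_le) h1, SPG.c_map _ h' (hx.mono Arc_mx_le) h2]
  funext a
  have e1 : (PowerSeries.map g).comp (C.comp φ) = (PowerSeries.map g').comp (C.comp φ) :=
    RingHom.ext fun c => by simp only [RingHom.comp_apply, map_C, hφ]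
  have e2 : PowerSeries.map g ∘ y = PowerSeries.map g' ∘ y := funext fun l => PowerSeries.ext fun n => by
    simp only [Function.comp_apply, coeff_map, hg]
  rw [Function.comp_apply, Function.comp_apply, hc,
    (TN.of_cc₁ hy).map_ev _ (TN.of_cc₁ (Arc_map hy g)),
    (TN.of_cc₁ hy).map_ev _ (TN.of_cc₁ (Arc_map hy g')), e1, e2]

end aux

theorem Arc_mem_of_pow {p : ℕ} [Fact p.Prime] {Ω : Type u} [Field Ω] (κ : Subfield Ω)
    [IsAlgClosed κ] {z : Ω} {n : ℕ} (hn : 0 < n) (h : z ^ p ^ n = z) : z ∈ κ := by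
  rw [← acl_eq (E := κ), mem_acl]
  refine ⟨Polynomial.X ^ p ^ n - Polynomial.X, FiniteField.X_pow_card_pow_sub_X_ne_zero κ hn.ne'
    (Fact.out : p.Prime).one_lt, ?_⟩
  rw [map_sub, map_pow, Polynomial.aeval_X, h, sub_self]

/-- The parameters of the difference of the shifted point and the point. -/
theorem Arc_shift (A : SPG.{u}) {p : ℕ} [Fact p.Prime] {K Ω : Type u} [Field K] [CharP K p]
    [Field Ω] [IsAlgClosed Ω] {f : K →+* Ω} {s : A.Str K} (d : DMD p (SPG.fgl s))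
    {κ : Subfield Ω} [IsAlgClosed κ] {y : d.ρ → PowerSeries Ω} (hy : Arc y)
    (hκ : ∀ l n, coeff n (y l) ∈ κ) {sR : A.Str (PowerSeries Ω)} (hR : A.push (C.comp f) s = sR)
    {ω : A.Pt sR} (h0 : Cong (mx Ω) ω (0 : A.Pt sR)) (hc : ∀ a, A.c ω a = ev (C.comp f) y (d.e a))
    {t : A.Str (PowerSeries (PowerSeries Ω))} (h₁ : A.push C sR = t) (h₃ : A.push (sh Ω) sR = t) :
    ∃ y' : d.ρ → PowerSeries (PowerSeries Ω), Arc y' ∧ (∀ l n m, coeff m (coeff n (y' l)) ∈ κ) ∧
      ∀ a, A.c (A.map _ h₃ ω - A.map C h₁ ω) a = ev (C.comp (C.comp f)) y' (d.e a) := by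
  have : CharP Ω p := charP_of_injective_ringHom f.injective p
  let 𝔞 : Ideal (PowerSeries (PowerSeries Ω)) := (mx Ω).comap constantCoeff
  have : IsAdicComplete 𝔞 (PowerSeries (PowerSeries Ω)) := complete_comap (mx Ω)
  have h𝔞 : 𝔞 ≠ ⊤ := Ideal.comap_ne_top _ fun h =>
    (IsLocalRing.maximalIdeal.isMaximal _).ne_top (top_le_iff.1 (h ▸ Arc_mx_le))
  have hm := IsLocalRing.le_maximalIdeal h𝔞
  let φ : K →+* PowerSeries (PowerSeries Ω) := C.comp (C.comp f)
  have hφ : A.push φ s = t := push_trans hR h₁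
  have key : ∀ (ψ : PowerSeries Ω →+* PowerSeries (PowerSeries Ω)) (h : A.push ψ sR = t),
      (∀ z, constantCoeff (ψ z) = z) → ψ.comp (C.comp f) = φ →
      ∃ (x : K1 𝔞 t) (Y : d.H.Pts φ 𝔞), x.1 = A.map ψ h ω ∧ Y.v = ψ ∘ y ∧
        SPG.cH φ hφ h𝔞 x = d.he.act φ 𝔞 Y := by
    intro ψ h h1 h2
    have h3 : ∀ z ∈ mx Ω, ψ z ∈ 𝔞 := fun z hz => Ideal.mem_comap.2 ((h1 z).symm ▸ hz)
    have h4 := h0.map ψ h h h3
    rw [map_zero] at h4
    have h5 : ∀ l, (ψ ∘ y) l ∈ 𝔞 := fun l => h3 _ (Arc_mem_mx.2 (hy l))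
    refine ⟨⟨_, h4⟩, ⟨ψ ∘ y, h5⟩, rfl, rfl, FGL.Pts.ext (funext fun a => ?_)⟩
    rw [SPG.cH_v, IsHom.act_v, SPG.c_map ψ h (h0.mono Arc_mx_le) (h4.mono hm), Function.comp_apply,
      hc, (TN.of_cc₁ hy).map_ev ψ (Adm.tn h5), h2]
  obtain ⟨x₁, Y₁, e₁, e₁', k₁⟩ := key C h₁ constantCoeff_C rfl
  obtain ⟨x₃, Y₃, e₃, e₃', k₃⟩ := key (sh Ω) h₃ constantCoeff_sh
    (RingHom.ext fun c => sh_C (f c))
  refine ⟨(Y₃ - Y₁).v, fun l => Arc_mem_mx.1 ((FGL.Pts.sub_mem_iff Y₃ Y₁ _).2 (fun l => ?_) l),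
    fun l n m => ?_, fun a => ?_⟩
  · rw [e₁', e₃', Arc_mem_mx, map_sub, Function.comp_apply, Function.comp_apply, constantCoeff_sh,
      constantCoeff_C, sub_self]
  · obtain ⟨N, hN, hF⟩ := d.coeff_fix p
    have h1 : ∀ σ : Ω ≃+* Ω, (∀ c ∈ κ, σ c = c) →
        σ (coeff m (coeff n ((Y₃ - Y₁).v l))) = coeff m (coeff n ((Y₃ - Y₁).v l)) := by
      intro σ hσ
      have h2 : ∀ l, PowerSeries.map (σ : Ω →+* Ω) (y l) = y l := fun l => PowerSeries.ext fun n => by
        rw [coeff_map]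
        exact hσ _ (hκ l n)
      let Ψ : d.H.Pts φ 𝔞 →+ d.H.Pts φ 𝔞 := FGL.Pts.map (PowerSeries.map (PowerSeries.map (σ : Ω →+* Ω)))
        (fun l α => by
          simp only [φ, RingHom.comp_apply, map_C]
          congr 2
          exact hσ _ (Arc_mem_of_pow κ hN (by rw [← map_pow, hF])))
        fun z hz => Ideal.mem_comap.2 (Arc_mem_mx.2 (by
          rw [← coeff_zero_eq_constantCoeff_apply, ← coeff_zero_eq_constantCoeff_apply, coeff_map,
            coeff_map, coeff_zero_eq_constantCoeff_apply, coeff_zero_eq_constantCoeff_apply,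
            Arc_mem_mx.1 (Ideal.mem_comap.1 hz), map_zero]))
      have h3 : Ψ Y₁ = Y₁ := FGL.Pts.ext (funext fun l => by
        change PowerSeries.map (PowerSeries.map (σ : Ω →+* Ω)) (Y₁.v l) = Y₁.v l
        rw [e₁', Function.comp_apply, map_C, h2])
      have h4 : Ψ Y₃ = Y₃ := FGL.Pts.ext (funext fun l => by
        change PowerSeries.map (PowerSeries.map (σ : Ω →+* Ω)) (Y₃.v l) = Y₃.v l
        rw [e₃', Function.comp_apply, map_sh, h2])
      have h5 : Ψ (Y₃ - Y₁) = Y₃ - Y₁ := by rw [map_sub, h3, h4]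
      have h6 : PowerSeries.map (PowerSeries.map (σ : Ω →+* Ω)) ((Y₃ - Y₁).v l) = (Y₃ - Y₁).v l :=
        congrFun (congrArg FGL.Pts.v h5) l
      have h7 := congrArg (fun z => coeff m (coeff n z)) h6
      simp only [coeff_map] at h7
      exact h7
    obtain ⟨M, hM⟩ := fixed_pow_mem p h1
    exact (Big1_pow_mem (pow_pos (Fact.out : p.Prime).pos M)).1 hM
  · have h1 : SPG.cH φ hφ h𝔞 (x₃ - x₁) = d.he.act φ 𝔞 (Y₃ - Y₁) := by
      rw [map_sub, map_sub, k₁, k₃]
    rw [← e₁, ← e₃]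
    exact congrFun (congrArg FGL.Pts.v h1) a

/-- The locus of an arc on a variety with finite stabiliser has finite stabiliser. -/
theorem Arc_stab (A : SPG.{u}) {K' Ω : Type u} [Field K'] [IsAlgClosed K'] [Field Ω]
    [IsAlgClosed Ω] {j : K' →+* Ω} {s' : A.Str K'} {sΩ : A.Str Ω} (hΩ : A.push j s' = sΩ)
    (ht : A.TorsFin s') {x : A.Pt sΩ} (hS : (Stab (loc j s' x) : Set (A.Pt s')).Finite)
    {sR : A.Str (PowerSeries Ω)} (hR : A.push C sΩ = sR) {ω : A.Pt sR}
    (h0 : Cong (mx Ω) ω (0 : A.Pt sR))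
    (hX : A.map C hR x + ω ∈ ext ((C : Ω →+* _).comp j) sR (loc j s' x)) :
    (Stab (loc C sΩ ω) : Set (A.Pt sΩ)).Finite := by
  have e : (constantCoeff (R := Ω)).comp C = RingHom.id Ω := constantCoeff_comp_C
  have h1 : A.push constantCoeff sR = sΩ := by rw [← hR, A.ax.push_comp, e, A.ax.push_id]
  have h2 : A.map constantCoeff h1 ω = 0 := by
    have h2 := h0.map constantCoeff h1 h1 (𝔞' := ⊥) fun z hz => Arc_mem_mx.1 hz
    rwa [map_zero, cong_bot] at h2
  have h3 : (0 : A.Pt sΩ) ∈ loc C sΩ ω := fun g n hg hω => by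
    have h3 := van_map_Geo1 constantCoeff h1 hg hω
    rwa [e, h2] at h3
  rw [← ext_ext j C hΩ] at hX
  have h4 := vadd_loc_subset hR (cl_ext j sΩ _) hX
  obtain ⟨G₀, hG⟩ := exists_idc (cl_stab (cl_loc (s := sΩ) C ω))
  obtain ⟨S, -, rfl⟩ := A.rig ht hΩ hG.var
  refine hG.finite ((Geo5_fin hΩ).2 (hS.subset fun σ hσ => mem_stab_of_subset (cl_loc j x) ?_))
  refine vadd_loc_subset hΩ (cl_loc j x) (h4 ⟨A.map j hΩ σ, ?_, add_comm _ _⟩)
  have h5 := (hG.le (map_mem_ext j hΩ hσ) 0).1 h3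
  rwa [add_zero] at h5

open scoped Pointwise in
theorem SPG.arc_alg (A : SPG.{u}) {p : ℕ} [Fact p.Prime] {K K' Ω : Type u} [Field K] [CharP K p]
    [IsAlgClosed K] [Field K'] [IsAlgClosed K'] [Field Ω] [IsAlgClosed Ω] {i : K →+* K'}
    {j : K' →+* Ω} {s : A.Str K} {s' : A.Str K'} {sΩ : A.Str Ω} (h' : A.push i s = s')
    (hΩ : A.push j s' = sΩ) (ht : A.TorsFin s) (d : DMD p (SPG.fgl s)) {x : A.Pt sΩ}
    (hS : (Stab (loc j s' x) : Set (A.Pt s')).Finite) {κ : Subfield Ω} [IsAlgClosed κ]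
    {y : d.ρ → PowerSeries Ω} (hy : Arc y) (hκ : ∀ l n, coeff n (y l) ∈ κ)
    {sR : A.Str (PowerSeries Ω)} (hR : A.push C sΩ = sR) {ω : A.Pt sR}
    (h0 : Cong (mx Ω) ω (0 : A.Pt sR))
    (hc : ∀ a, A.c ω a = ev ((C : Ω →+* _).comp (j.comp i)) y (d.e a))
    (hX : A.map C hR x + ω ∈ ext ((C : Ω →+* _).comp j) sR (loc j s' x)) {sB : A.Str (Big Ω)}
    (hB : A.push (ιB Ω) sR = sB) : ∃ n, n ≠ 0 ∧
      Rat (((cB Ω).comp (j.comp i)).fieldRange ⊔ serF κ) (n • A.map (ιB Ω) hB ω) := by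
  have : CharP Ω p := charP_of_injective_ringHom (j.comp i).injective p
  have hf : A.push (j.comp i) s = sΩ := push_trans h' hΩ
  have hE : A.push (cB Ω) sΩ = sB := push_trans hR hB
  have hfin := (stab_ext_finite hE (cl_loc (s := sΩ) (C : Ω →+* _) ω)).2
    (Arc_stab A hΩ (ht.ext h') hS hR h0 hX)
  have : Finite (Stab (ext (cB Ω) sB (loc C sΩ ω))) := hfin.to_subtype
  refine ⟨Nat.card (Stab (ext (cB Ω) sB (loc C sΩ ω))), Nat.card_pos.ne', ?_⟩
  -- the structures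
  have a₃ : A.push (sh Ω) sR = A.push C sR := by
    rw [← hR, A.ax.push_comp, A.ax.push_comp]
    exact congrArg (A.push · sΩ) (RingHom.ext sh_C)
  have b₁ : A.push (PowerSeries.map (ιB Ω)) (A.push C sR) = A.push C sB := by
    rw [← hB, A.ax.push_comp, A.ax.push_comp, Arc_map_C]
  have b₂ : A.push (PowerSeries.map (cB Ω)) sR = A.push C sB := by
    rw [← hE, ← hR, A.ax.push_comp, A.ax.push_comp, Arc_map_C]
  obtain ⟨y', hy', hκ', hc'⟩ := Arc_shift A d hy hκ (push_trans hf hR) h0 hc rfl a₃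
  have hw : Cong (mx (PowerSeries Ω)) (A.map _ a₃ ω - A.map C rfl ω) (0 : A.Pt (A.push C sR)) := by
    obtain ⟨v, hv⟩ := A.ax.exists_rep ω
    refine cong_iff_sub.1 (cong_map_map a₃ rfl hv fun a => Arc_mem_mx.2 ?_)
    rw [map_sub, constantCoeff_sh, constantCoeff_C, sub_self]
  have l₂ := loc_ps (cB Ω) hE hR b₂ ω
  have l₃ : loc C sB (A.map _ b₁ (A.map _ a₃ ω - A.map C rfl ω)) =
      (-A.map (ιB Ω) hB ω) +ᵥ ext (cB Ω) sB (loc C sΩ ω) := by
    rw [← loc_sh hR hE (push_trans a₃ b₁) ω, ← loc_vadd (j := (C : Big Ω →+* _)) (s := sB) rfl,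
      map_sub, map_map, map_map, map_neg, map_map, neg_add_eq_sub]
    congr 2
    exact map_congr (Arc_map_C _) _ _ _
  obtain ⟨m, hm⟩ := rat_of_fixed p (x := Nat.card (Stab (ext (cB Ω) sB (loc C sΩ ω))) •
    A.map (ιB Ω) hB ω) (def_range _ s (push_trans hf hE)
      (F := ((cB Ω).comp (j.comp i)).fieldRange ⊔ serF κ) le_sup_left) fun τ hτ h => by
    have h1 : ∀ c, τ (cB Ω (j (i c))) = cB Ω (j (i c)) := fun c =>
      hτ _ ((le_sup_left : _ ≤ _ ⊔ serF κ) ⟨c, rfl⟩)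
    have h2 : ∀ z ∈ serF κ, τ z = z := fun z hz =>
      hτ _ ((le_sup_right : _ ≤ ((cB Ω).comp (j.comp i)).fieldRange ⊔ serF κ) hz)
    have c₀ : A.push (PowerSeries.map (τ : Big Ω →+* Big Ω)) (A.push C sB) = A.push C sB := by
      conv_rhs => rw [← h]
      rw [A.ax.push_comp, A.ax.push_comp, Arc_map_C]
    have fix : ∀ {S : Type u} [CommRing S] [IsLocalRing S] {t : A.Str (PowerSeries S)}
        {z : A.Pt t} (g : S →+* Big Ω) (b : A.push (PowerSeries.map g) t = A.push C sB) (φ : K →+* S)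
        (u : d.ρ → PowerSeries S), Cong (mx S) z (0 : A.Pt t) → Arc u →
        (∀ a, A.c z a = ev (C.comp φ) u (d.e a)) → (∀ c, τ (g (φ c)) = g (φ c)) →
        (∀ l n, g (coeff n (u l)) ∈ serF κ) → ∀ x,
        A.map (τ : Big Ω →+* Big Ω) h x ∈ loc C sB (A.map _ b z) ↔ x ∈ loc C sB (A.map _ b z) := by
      intro S _ _ t z g b φ u k₁ k₂ k₃ k₄ k₅ x
      have e : (PowerSeries.map (τ : Big Ω →+* Big Ω)).comp (PowerSeries.map g) = PowerSeries.map ((τ : Big Ω →+* Big Ω).comp g) :=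
        (map_comp _ _).symm
      refine map_mem_loc τ (PowerSeries.map (τ : Big Ω →+* Big Ω)) (map_C _) (map_injective _ τ.injective) h
        c₀ ?_
      rw [map_map, map_congr e _ (e ▸ push_trans b c₀)]
      exact Arc_map_eq k₁ k₂ k₃ k₄ (fun l n => h2 _ (k₅ l n)) _ _
    have f₂ := fix (cB Ω) b₂ _ y h0 hy hc h1 fun l n => map_cB_le_serF κ ⟨_, hκ l n, rfl⟩
    have f₃ := fix (ιB Ω) b₁ _ y' hw hy' hc' h1 fun l n => ιB_mem_serF (hκ' l n)
    rw [l₂] at f₂
    simp only [l₃, Geo5_vadd, sub_neg_eq_add] at f₃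
    have h3 : A.map (τ : Big Ω →+* Big Ω) h (A.map (ιB Ω) hB ω) - A.map (ιB Ω) hB ω ∈
        Stab (ext (cB Ω) sB (loc C sΩ ω)) := fun z => by
      obtain ⟨u, hu⟩ := map_surj (φ := (τ : Big Ω →+* Big Ω)) τ.bijective h
        (z - A.map (ιB Ω) hB ω)
      rw [eq_sub_iff_add_eq] at hu
      rw [← hu, f₃, ← f₂, map_add, add_comm, sub_add_add_cancel]
    have h4 := congrArg Subtype.val (card_nsmul_eq_zero' (x := (⟨_, h3⟩ : Stab _)))
    rw [map_nsmul, ← sub_eq_zero, ← nsmul_sub]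
    exact h4
  rwa [root_sup] at hm

end MLF
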