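import Pool.Agent.Work.MP_29d410_ag.DM7A

-- merged part: Pool.Agent.Work.MP_29d410_ag.DM3
section
-- merged part: Pool.Agent.Work.MP_29d410_ag.DM1
section
/-!
# Invariant derivations; homomorphisms with zero differential; p-normality

Plan.
* chain rule `der_ev`: a derivation `∂` of `S⟦Y⟧` (over `S`) maps `𝔪 ^ (N+1)` into `𝔪 ^ N`, so the
  chain rule for polynomials (`MvPolynomial` induction) passes to series by truncation.
* `invDer G j f := ∑ i, A i j * pderiv i f`, where `A i j (X)` is the coefficient of `Y j` in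
  `F i (X, Y)`, i.e. `ev C (Sum.elim X 0) (pderiv (inr j) (F i))`; `A (0) = 1`.  By the chain rule
  `invDer G j f` is the coefficient of `Y j` in `f (F (X, Y))`.
* `pderiv_eq_zero`: for a homomorphism `h` with zero linear part, the coefficient of `Y j` in
  `h (F (X, Y)) = H (h X, h Y)` is zero (`H (U, V) - U - V ∈ (U)(V)` and `h Y ∈ (Y) ^ 2`); the
  matrix `A` is invertible (its determinant has constant term one).
* `exists_expand`: all derivatives `pderiv` vanish, so `coeff d f = 0` unless `p ∣ d i` for all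
  `i` (the image of an integer prime to `p` is a unit when `(p : S) = 0`).
-/

open MvPowerSeries

namespace MLF

universe u

variable {S : Type u} [CommRing S] {τ τ' : Type} [Finite τ] [Finite τ']

theorem DM1_dense {M : Type*} [AddCommGroup M] (Φ : MvPowerSeries τ S →+ M) (N : ℕ)
    (h1 : ∀ f ∈ mX τ S ^ N, Φ f = 0) (h2 : ∀ g : MvPolynomial τ S, Φ g = 0)
    (f : MvPowerSeries τ S) : Φ f = 0 := by
  have h3 : f - (truncTotal N f : MvPolynomial τ S) ∈ mX τ S ^ N :=
    mem_mX_pow.2 fun d hd => by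
      rw [map_sub, MvPolynomial.coeff_coe, coeff_truncTotal _ hd, sub_self]
  have h4 := h1 _ h3
  rwa [map_sub, h2, sub_zero] at h4

theorem DM1_der_pow {A : Type*} [CommRing A] [Algebra S A] (D : Derivation S A A) (I : Ideal A)
    (N : ℕ) : ∀ f ∈ I ^ (N + 1), D f ∈ I ^ N := by
  induction N with
  | zero => intro f _; simp
  | succ N ih =>
    intro f hf
    rw [pow_succ] at hf
    refine Submodule.mul_induction_on hf (fun a ha b hb => ?_) fun a b ha hb => ?_
    · rw [Derivation.leibniz, smul_eq_mul, smul_eq_mul]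
      refine add_mem (Ideal.mul_mem_right _ _ ha) ?_
      rw [pow_succ']
      exact Ideal.mul_mem_mul hb (ih a ha)
    · rw [map_add]
      exact add_mem ha hb

theorem der_ev [Fintype τ] (D : Derivation S (MvPowerSeries τ' S) (MvPowerSeries τ' S))
    {w : τ → MvPowerSeries τ' S} (hw : ∀ i, constantCoeff (w i) = 0) (h : MvPowerSeries τ S) :
    D (ev C w h) = ∑ j, ev C w (pderiv S j h) * D (w j) := by
  have htn : TN w := TN.of_cc hw
  have hle : Ideal.span (Set.range w) ≤ mX τ' S :=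
    Ideal.span_le.2 (by rintro _ ⟨i, rfl⟩; exact mem_mX.2 (hw i))
  have hmul : ∀ f g : MvPowerSeries τ S,
      D (ev C w f) = ∑ j, ev C w (pderiv S j f) * D (w j) →
      D (ev C w g) = ∑ j, ev C w (pderiv S j g) * D (w j) →
      D (ev C w (f * g)) = ∑ j, ev C w (pderiv S j (f * g)) * D (w j) := by
    intro f g hf hg
    rw [map_mul, Derivation.leibniz, hf, hg, Finset.smul_sum, Finset.smul_sum,
      ← Finset.sum_add_distrib]
    refine Finset.sum_congr rfl fun j _ => ?_
    simp only [Derivation.leibniz, smul_eq_mul, map_add, map_mul]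
    ring
  have hpoly : ∀ g : MvPolynomial τ S,
      D (ev C w (g : MvPowerSeries τ S)) =
        ∑ j, ev C w (pderiv S j (g : MvPowerSeries τ S)) * D (w j) := by
    intro g
    induction g using MvPolynomial.induction_on with
    | C a =>
      rw [MvPolynomial.coe_C, htn.ev_C, c_eq_algebraMap, D.map_algebraMap]
      simp [← c_eq_algebraMap]
    | add f g hf hg =>
      simp only [MvPolynomial.coe_add, map_add, hf, hg, add_mul, Finset.sum_add_distrib]
    | mul_X f i hf =>
      rw [MvPolynomial.coe_mul, MvPolynomial.coe_X]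
      refine hmul _ _ hf ?_
      rw [htn.ev_X, Finset.sum_eq_single i]
      · rw [pderiv_X_self, map_one, one_mul]
      · intro j _ e
        rw [pderiv_X_of_ne e.symm, map_zero, zero_mul]
      · simp
  ext d
  let Φ : MvPowerSeries τ S →+ S := AddMonoidHom.mk'
    (fun f => coeff d (D (ev C w f)) - coeff d (∑ j, ev C w (pderiv S j f) * D (w j)))
    fun f g => by
      simp only [map_add, add_mul, Finset.sum_add_distrib]
      ring
  refine sub_eq_zero.1 (DM1_dense Φ (d.degree + 1 + 1) (fun f hf => ?_) (fun g => ?_) h)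
  · have h1 := DM1_der_pow D _ _ _ (Ideal.pow_right_mono hle _ (htn.ev_mem_pow C hf))
    have h2 : ∑ j, ev C w (pderiv S j f) * D (w j) ∈ mX τ' S ^ (d.degree + 1) :=
      Ideal.sum_mem _ fun j _ => Ideal.mul_mem_right _ _
        (Ideal.pow_right_mono hle _ (htn.ev_mem_pow C (DM1_der_pow (pderiv S j) _ _ _ hf)))
    exact sub_eq_zero.2 ((mem_mX_pow.1 h1 d (Nat.lt_succ_self _)).trans
      (mem_mX_pow.1 h2 d (Nat.lt_succ_self _)).symm)
  · exact sub_eq_zero.2 (congrArg _ (hpoly g))

/-- Setting the second group of variables to zero. -/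
noncomputable def DM1K : MvPowerSeries (τ ⊕ τ) S →+* MvPowerSeries τ S :=
  (killCompl (R := S) (Function.Embedding.inl : τ ↪ τ ⊕ τ)).toRingHom

omit [Finite τ] in
theorem DM1K_C : (DM1K : MvPowerSeries (τ ⊕ τ) S →+* _).comp C = C :=
  RingHom.ext fun c => killCompl_C c

theorem DM1_tn : TN (Sum.elim X 0 : τ ⊕ τ → MvPowerSeries τ S) :=
  TN.of_cc (by rintro (k | k); exacts [constantCoeff_X k, map_zero _])

theorem DM1K_eq : (DM1K : MvPowerSeries (τ ⊕ τ) S →+* _) = ev C (Sum.elim X 0) := by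
  refine DM1_tn.eq_ev ⟨fun c => killCompl_C c, ?_⟩
  rintro (k | k)
  · exact killCompl_X (e := (Function.Embedding.inl : τ ↪ τ ⊕ τ)) k
  · exact killCompl_X_eq_zero (by simp)

omit [Finite τ] in
theorem DM1_coeff (g : MvPowerSeries (τ ⊕ τ) S) (d : τ →₀ ℕ) (j : τ) :
    coeff (d.sumElim (Finsupp.single j 1)) g = coeff d (DM1K (pderiv S (Sum.inr j) g)) := by
  have h1 : Finsupp.embDomain (Function.Embedding.inl : τ ↪ τ ⊕ τ) d = d.sumElim 0 := by
    ext (k | k)
    · exact Finsupp.embDomain_apply_self (Function.Embedding.inl : τ ↪ τ ⊕ τ) d k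
    · exact Finsupp.embDomain_of_notMem_range _ _ _ (by simp)
  have h2 : d.sumElim 0 + Finsupp.single (Sum.inr j) 1 = d.sumElim (Finsupp.single j 1) := by
    rw [← Finsupp.sumElim_zero_single, ← Finsupp.sumElim_add, add_zero, zero_add]
  change _ = coeff d (killCompl _ _)
  rw [coeff_killCompl, coeff_pderiv, h1, h2, Finsupp.sumElim_inr]
  simp

/-- Invariant derivations. -/
theorem FGL.exists_invDer (G : FGL S τ) :
    ∃ D : τ → Derivation S (MvPowerSeries τ S) (MvPowerSeries τ S),
      (∀ j f d, coeff d (D j f) =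
        coeff (d.sumElim (Finsupp.single j 1)) (ev C G.F f : MvPowerSeries (τ ⊕ τ) S)) ∧
      (∀ j i, constantCoeff (D j (X i)) = coeff (Finsupp.single j 1) (X i : MvPowerSeries τ S)) ∧
      ∀ f, (∀ j, D j f = 0) → ∀ i, pderiv S i f = 0 := by
  classical
  have := Fintype.ofFinite τ
  let A : Matrix τ τ (MvPowerSeries τ S) := fun i j => DM1K (pderiv S (Sum.inr j) (G.F i))
  have hD : ∀ j f, (∑ i, A i j • pderiv S i) f = ∑ i, pderiv S i f * A i j := by
    intro j f
    rw [← Derivation.coeFnAddMonoidHom_apply, map_sum, Finset.sum_apply]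
    refine Finset.sum_congr rfl fun i _ => ?_
    rw [Derivation.coeFnAddMonoidHom_apply, Derivation.smul_apply, smul_eq_mul, mul_comm]
  have htn : TN G.F := TN.of_cc G.F0
  have hK : ∀ f : MvPowerSeries τ S, DM1K (ev C G.F f) = f := by
    intro f
    have h1 : (DM1K : MvPowerSeries (τ ⊕ τ) S →+* _) ∘ G.F = X := by
      funext i
      rw [Function.comp_apply, DM1K_eq]
      exact G.zero i
    have h2 : TN (X : τ → MvPowerSeries τ S) := TN.of_cc fun i => constantCoeff_X i
    rw [htn.map_ev DM1K (h1 ▸ h2), h1, DM1K_C,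
      ← h2.eq_ev (θ := RingHom.id _) ⟨fun _ => rfl, fun _ => rfl⟩]
    rfl
  have hA : ∀ i j, constantCoeff (A i j) = coeff (Finsupp.single j 1) (X i : MvPowerSeries τ S) := by
    intro i j
    have h1 : TN (Sum.elim (X ∘ Sum.inl) (X ∘ Sum.inr) : τ ⊕ τ → MvPowerSeries (τ ⊕ τ) S) :=
      TN.of_cc (by rintro (k | k) <;> exact constantCoeff_X _)
    have h2 := G.add_sub_mem (φ := C) h1 i
    have h3 : G.add C (X ∘ Sum.inl) (X ∘ Sum.inr) i = G.F i := by
      unfold FGL.add
      rw [← h1.eq_ev (θ := RingHom.id _) ⟨fun _ => rfl, by rintro (k | k) <;> rfl⟩]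
      rfl
    have h4 : G.F i - X (Sum.inl i) - X (Sum.inr i) ∈ mX (τ ⊕ τ) S ^ 2 := by
      rw [h3] at h2
      rw [pow_two]
      refine Ideal.mul_mono ?_ ?_ h2 <;>
        exact Ideal.span_mono (Set.range_comp_subset_range _ _)
    have h5 := mem_mX_pow.1 h4 (Finsupp.single (Sum.inr j) 1) (by simp)
    rw [← coeff_zero_eq_constantCoeff_apply, ← DM1_coeff, Finsupp.sumElim_zero_single]
    rw [map_sub, map_sub, coeff_index_single_X, coeff_index_single_X,
      if_neg Sum.inr_ne_inl, sub_zero, sub_eq_zero] at h5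
    rw [h5, coeff_index_single_X]
    exact if_congr Sum.inr_injective.eq_iff rfl rfl
  refine ⟨fun j => ∑ i, A i j • pderiv S i, fun j f d => ?_, fun j i => ?_, fun f hf i => ?_⟩
  · rw [hD, DM1_coeff, der_ev _ G.F0, map_sum DM1K]
    refine congrArg _ (Finset.sum_congr rfl fun i _ => ?_)
    rw [_root_.map_mul, hK]
  · rw [hD, Finset.sum_eq_single i]
    · rw [pderiv_X_self, one_mul, hA]
    · intro k _ e
      rw [pderiv_X_of_ne e.symm, zero_mul]
    · simp
  · have h1 : (constantCoeff : MvPowerSeries τ S →+* S).mapMatrix A = 1 := by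
      refine Matrix.ext fun i j => ?_
      rw [RingHom.mapMatrix_apply, Matrix.map_apply, hA, coeff_index_single_X, Matrix.one_apply]
      exact if_congr eq_comm rfl rfl
    have h2 : IsUnit A.det := by
      rw [isUnit_iff_constantCoeff, RingHom.map_det, h1, Matrix.det_one]
      exact isUnit_one
    have h3 : Matrix.vecMul (fun i => pderiv S i f) A = 0 := by
      funext j
      have := hf j
      rw [hD] at this
      exact this
    have h4 := congrArg (fun v => Matrix.vecMul v A⁻¹) h3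
    simp only [Matrix.vecMul_vecMul, Matrix.mul_nonsing_inv A h2, Matrix.vecMul_one,
      Matrix.zero_vecMul] at h4
    exact congrFun h4 i

theorem IsHom.pderiv_eq_zero {G : FGL S τ} {H : FGL S τ'} {h : τ' → MvPowerSeries τ S}
    (hh : IsHom G H h) (h2 : ∀ i, h i ∈ mX τ S ^ 2) (i : τ') (j : τ) : pderiv S j (h i) = 0 := by
  have := Fintype.ofFinite τ
  obtain ⟨D, hD, -, hD'⟩ := G.exists_invDer
  refine hD' (h i) (fun l => ?_) j
  have cl : ∀ k, constantCoeff ((X ∘ Sum.inl : τ → MvPowerSeries (τ ⊕ τ) S) k) = 0 :=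
    fun k => constantCoeff_X _
  have cr : ∀ k, constantCoeff ((X ∘ Sum.inr : τ → MvPowerSeries (τ ⊕ τ) S) k) = 0 :=
    fun k => constantCoeff_X _
  have hr : ∀ f : MvPowerSeries τ S, DM1K (ev C (X ∘ Sum.inr) f) = C (constantCoeff f) := by
    intro f
    have h1 : (DM1K : MvPowerSeries (τ ⊕ τ) S →+* _) ∘ (X ∘ Sum.inr) = 0 := by
      funext k
      rw [Function.comp_apply, DM1K_eq, Function.comp_apply, DM1_tn.ev_X]
      rfl
    rw [(TN.of_cc cr).map_ev DM1K (h1 ▸ TN.of_cc fun _ => map_zero _), h1, DM1K_C, ev_zero]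
  have hU : DM1K (pderiv S (Sum.inr l) (ev C (X ∘ Sum.inl) (h i))) = 0 := by
    rw [der_ev _ cl, Finset.sum_eq_zero, map_zero]
    intro k _
    rw [Function.comp_apply, pderiv_X_of_ne Sum.inl_ne_inr, mul_zero]
  have hV : ∀ v ∈ Ideal.span (Set.range fun k => (ev C (X ∘ Sum.inr) (h k) :
      MvPowerSeries (τ ⊕ τ) S)), DM1K v = 0 ∧ DM1K (pderiv S (Sum.inr l) v) = 0 := by
    intro v hv
    induction hv using Submodule.span_induction with
    | mem v hv =>
      obtain ⟨k, rfl⟩ := hv
      refine ⟨by rw [hr, hh.cc, map_zero], ?_⟩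
      rw [der_ev _ cr, map_sum]
      refine Finset.sum_eq_zero fun m _ => ?_
      have h1 := DM1_der_pow (pderiv S m) _ 1 _ (h2 k)
      rw [pow_one] at h1
      rw [map_mul, hr, mem_mX.1 h1, map_zero, zero_mul]
    | zero => simp
    | add a b _ _ ha hb => simp [ha.1, ha.2, hb.1, hb.2]
    | smul a b _ hb => simp [hb.1, hb.2]
  have htn : TN (Sum.elim (fun k => ev C (X ∘ Sum.inl) (h k)) (fun k => ev C (X ∘ Sum.inr) (h k)) :
      τ' ⊕ τ' → MvPowerSeries (τ ⊕ τ) S) := by
    refine TN.of_cc ?_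
    rintro (k | k)
    · exact mem_mX.1 ((TN.of_cc cl).ev_mem C (hh.cc k) fun m => mem_mX.2 (cl m))
    · exact mem_mX.1 ((TN.of_cc cr).ev_mem C (hh.cc k) fun m => mem_mX.2 (cr m))
  have h3 := (hV _ (Ideal.mul_le_right (H.add_sub_mem (φ := C) htn i))).2
  have h4 := (hV _ (Ideal.subset_span ⟨i, rfl⟩)).2
  rw [map_sub, map_sub, map_sub, map_sub, hU, h4, sub_zero, sub_zero, ← hh.hom] at h3
  ext d
  rw [hD, DM1_coeff, h3]

/-- Coordinatewise multiples of an exponent. -/
noncomputable def DM1q (q : τ → ℕ) (d : τ →₀ ℕ) : τ →₀ ℕ :=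
  Finsupp.onFinset d.support (fun i => q i * d i) fun i h => by
    simpa using fun e => h (by simp [e])

omit [Finite τ] in
theorem DM1q_apply (q : τ → ℕ) (d : τ →₀ ℕ) (i : τ) : DM1q q d i = q i * d i := rfl

omit [Finite τ] in
theorem DM1_cc_q (q : τ → ℕ) (hq : ∀ i, 0 < q i) (i : τ) :
    constantCoeff (X i ^ q i : MvPowerSeries τ S) = 0 := by
  rw [map_pow, constantCoeff_X, zero_pow (hq i).ne']

theorem DM1_ev_monomial (q : τ → ℕ) (hq : ∀ i, 0 < q i) (d : τ →₀ ℕ) (a : S) :
    (ev C (fun i => X i ^ q i) (monomial d a) : MvPowerSeries τ S) = monomial (DM1q q d) a := by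
  classical
  rw [← MvPolynomial.coe_monomial, (TN.of_cc (DM1_cc_q q hq)).ev_coe, MvPolynomial.eval₂_monomial,
    Finsupp.prod]
  simp only [← pow_mul]
  simp only [X_pow_eq]
  rw [prod_monomial, ← monomial_zero_eq_C_apply, monomial_mul_monomial, zero_add,
    Finset.prod_const_one, mul_one]
  congr 2
  ext i
  rw [DM1q_apply, Finsupp.finsetSum_apply]
  simp only [Finsupp.single_apply, Finset.sum_ite_eq', Finsupp.mem_support_iff]
  split_ifs with h
  · rfl
  · rw [not_not.1 h, mul_zero]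

theorem DM1_ev_q_mem (q : τ → ℕ) (hq : ∀ i, 0 < q i) {N : ℕ} {f : MvPowerSeries τ S}
    (hf : f ∈ mX τ S ^ N) : ev C (fun i => X i ^ q i) f ∈ mX τ S ^ N :=
  Ideal.pow_right_mono (Ideal.span_le.2 (by rintro _ ⟨i, rfl⟩; exact mem_mX.2 (DM1_cc_q q hq i))) _
    ((TN.of_cc (DM1_cc_q q hq)).ev_mem_pow C hf)

theorem DM1_coeff_q (q : τ → ℕ) (hq : ∀ i, 0 < q i) (g : MvPowerSeries τ S) (d : τ →₀ ℕ) :
    coeff (DM1q q d) (ev C (fun i => X i ^ q i) g : MvPowerSeries τ S) = coeff d g := by
  classical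
  let Φ : MvPowerSeries τ S →+ S := AddMonoidHom.mk'
    (fun f => coeff (DM1q q d) (ev C (fun i => X i ^ q i) f : MvPowerSeries τ S) - coeff d f)
    fun f g => by
      simp only [map_add]
      ring
  refine sub_eq_zero.1 (DM1_dense Φ ((DM1q q d).degree + d.degree + 1) (fun f hf => ?_)
    (fun g => ?_) g)
  · exact sub_eq_zero.2 ((mem_mX_pow.1 (DM1_ev_q_mem q hq hf) _ (by omega)).trans
      (mem_mX_pow.1 hf _ (by omega)).symm)
  · induction g using MvPolynomial.induction_on' with
    | monomial e a =>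
      refine sub_eq_zero.2 ?_
      rw [MvPolynomial.coe_monomial, DM1_ev_monomial q hq, coeff_monomial, coeff_monomial]
      refine if_congr ⟨fun h => ?_, fun h => by rw [h]⟩ rfl rfl
      ext i
      exact Nat.eq_of_mul_eq_mul_left (hq i) (DFunLike.congr_fun h i)
    | add a b ha hb => rw [MvPolynomial.coe_add, map_add, ha, hb, add_zero]

theorem DM1_coeff_q' (q : τ → ℕ) (hq : ∀ i, 0 < q i) (g : MvPowerSeries τ S)
    {d : τ →₀ ℕ} {i : τ} (h : ¬ q i ∣ d i) :
    coeff d (ev C (fun i => X i ^ q i) g : MvPowerSeries τ S) = 0 := by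
  classical
  let Φ : MvPowerSeries τ S →+ S := AddMonoidHom.mk'
    (fun f => coeff d (ev C (fun i => X i ^ q i) f : MvPowerSeries τ S))
    fun f g => by simp only [map_add]
  refine DM1_dense Φ (d.degree + 1) (fun f hf => ?_) (fun g => ?_) g
  · exact mem_mX_pow.1 (DM1_ev_q_mem q hq hf) _ (by omega)
  · induction g using MvPolynomial.induction_on' with
    | monomial e a =>
      change coeff d (ev C (fun i => X i ^ q i) _ : MvPowerSeries τ S) = 0
      rw [MvPolynomial.coe_monomial, DM1_ev_monomial q hq, coeff_monomial, if_neg]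
      rintro rfl
      exact h (Dvd.intro _ rfl)
    | add a b ha hb => rw [MvPolynomial.coe_add, map_add, ha, hb, add_zero]

theorem exists_expand (p : ℕ) [Fact p.Prime] (hp : (p : S) = 0) {f : MvPowerSeries τ S}
    (h : ∀ j, pderiv S j f = 0) :
    ∃ g : MvPowerSeries τ S, f = ev C (fun i => X i ^ p) g := by
  have hp0 : 0 < p := (Fact.out : p.Prime).pos
  refine ⟨fun e => coeff (DM1q (fun _ => p) e) f, ?_⟩
  ext d
  by_cases hd : ∀ i, p ∣ d i
  · have e : d = DM1q (fun _ => p) (d.mapRange (· / p) (Nat.zero_div p)) := by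
      ext i
      rw [DM1q_apply, Finsupp.mapRange_apply, Nat.mul_div_cancel' (hd i)]
    rw [e, DM1_coeff_q _ fun _ => hp0]
    rfl
  · obtain ⟨i, hi⟩ := not_forall.1 hd
    rw [DM1_coeff_q' (fun _ => p) (fun _ => hp0) _ hi]
    have h0 : d i ≠ 0 := fun e => hi (e ▸ dvd_zero p)
    have h1 : Finsupp.single i 1 ≤ d := Finsupp.single_le_iff.2 (Nat.one_le_iff_ne_zero.2 h0)
    have h2 := congrArg (coeff (d - Finsupp.single i 1)) (h i)
    rw [coeff_pderiv, tsub_add_cancel_of_le h1, map_zero, ← Nat.cast_succ, Finsupp.tsub_apply,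
      Finsupp.single_eq_same, Nat.succ_eq_add_one,
      Nat.sub_add_cancel (Nat.one_le_iff_ne_zero.2 h0)] at h2
    have h3 : IsCoprime (p : S) (d i : S) :=
      (((Fact.out : p.Prime).coprime_iff_not_dvd).2 hi).cast
    rw [hp, isCoprime_zero_left] at h3
    exact h3.mul_left_eq_zero.1 h2

theorem coeff_ev_pow (q : τ → ℕ) (hq : ∀ i, 0 < q i) (g : MvPowerSeries τ S) (d : τ →₀ ℕ) :
    coeff (Finsupp.onFinset d.support (fun i => q i * d i) fun i h => by
      simpa using fun e => h (by simp [e])) (ev C (fun i => X i ^ q i) g : MvPowerSeries τ S) =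
      coeff d g := DM1_coeff_q q hq g d

theorem coeff_ev_pow_of_not_dvd (q : τ → ℕ) (hq : ∀ i, 0 < q i) (g : MvPowerSeries τ S)
    {d : τ →₀ ℕ} {i : τ} (h : ¬ q i ∣ d i) :
    coeff d (ev C (fun i => X i ^ q i) g : MvPowerSeries τ S) = 0 := DM1_coeff_q' q hq g h

theorem ev_pow_inj (q : τ → ℕ) (hq : ∀ i, 0 < q i) :
    Function.Injective (ev C (fun i => X i ^ q i) : MvPowerSeries τ S →+* MvPowerSeries τ S) := by
  intro f g e
  ext d
  rw [← DM1_coeff_q q hq f d, ← DM1_coeff_q q hq g d, e]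

end MLF
end

-- merged part: Pool.Agent.Work.MP_29d410_ag.DM1b
section
/-!
# Invariant derivations; homomorphisms with zero differential; p-normality

Plan.
* chain rule `der_ev`: a derivation `∂` of `S⟦Y⟧` (over `S`) maps `𝔪 ^ (N+1)` into `𝔪 ^ N`, so the
  chain rule for polynomials (`MvPolynomial` induction) passes to series by truncation.
* `invDer G j f := ∑ i, A i j * pderiv i f`, where `A i j (X)` is the coefficient of `Y j` in
  `F i (X, Y)`, i.e. `ev C (Sum.elim X 0) (pderiv (inr j) (F i))`; `A (0) = 1`.  By the chain rule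
  `invDer G j f` is the coefficient of `Y j` in `f (F (X, Y))`.
* `pderiv_eq_zero`: for a homomorphism `h` with zero linear part, the coefficient of `Y j` in
  `h (F (X, Y)) = H (h X, h Y)` is zero (`H (U, V) - U - V ∈ (U)(V)` and `h Y ∈ (Y) ^ 2`); the
  matrix `A` is invertible (its determinant has constant term one).
* `exists_expand`: all derivatives `pderiv` vanish, so `coeff d f = 0` unless `p ∣ d i` for all
  `i` (the image of an integer prime to `p` is a unit when `(p : S) = 0`).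
-/

open MvPowerSeries

namespace MLF

universe u

variable {S : Type u} [CommRing S] {τ τ' : Type} [Finite τ] [Finite τ']

theorem DM1b_tn_pow {q : ℕ} (hq : q ≠ 0) : TN fun i : τ => (X i : MvPowerSeries τ S) ^ q :=
  TN.of_cc fun i => by simp [hq]

theorem DM1b_cc_ev {w : τ → MvPowerSeries τ' S} (hw : ∀ i, constantCoeff (w i) = 0)
    (g : MvPowerSeries τ S) : constantCoeff (ev C w g) = constantCoeff g := by
  have h0 : (constantCoeff ∘ w : τ → S) = 0 := funext hw
  have hz : TN (constantCoeff ∘ w : τ → S) := TN.of_nil fun i => by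
    rw [h0]; exact IsNilpotent.zero
  rw [(TN.of_cc hw).map_ev constantCoeff hz, h0, ev_zero]
  simp

omit [Finite τ'] in
theorem DM1b_cmp_X (h : τ' → MvPowerSeries τ S) : cmp h X = h := by
  funext i
  have := ev_C_X (RingHom.id S) (h i)
  rw [RingHom.comp_id, map_id] at this
  exact this

theorem DM1b_pow_mem {T : Type u} [CommRing T] {p : ℕ} (hp : p.Prime) (h0 : (p : T) = 0)
    {α : Type} (w : α → T) {z : T} (hz : z ∈ Ideal.span (Set.range w)) :
    z ^ p ∈ Ideal.span (Set.range fun j => w j ^ p) := by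
  induction hz using Submodule.span_induction with
  | mem x hx =>
    obtain ⟨j, rfl⟩ := hx
    exact Ideal.subset_span ⟨j, rfl⟩
  | zero => rw [zero_pow hp.ne_zero]; exact Ideal.zero_mem _
  | add x y _ _ hx hy =>
    obtain ⟨r, hr⟩ := exists_add_pow_prime_eq hp x y
    rw [hr, h0, zero_mul, zero_mul, zero_mul, add_zero]
    exact Ideal.add_mem _ hx hy
  | smul a x _ hx =>
    rw [smul_eq_mul, mul_pow]
    exact Ideal.mul_mem_left _ _ hx

/-- A homomorphism with zero linear part is a series in the `p`-th powers of the variables. -/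
theorem DM1b_expand (p : ℕ) [Fact p.Prime] (hp : (p : S) = 0) {G : FGL S τ} {H : FGL S τ'}
    {h : τ' → MvPowerSeries τ S} (hh : IsHom G H h) (h2 : ∀ i, h i ∈ mX τ S ^ 2) :
    ∃ V : τ' → MvPowerSeries τ S, (∀ i, constantCoeff (V i) = 0) ∧
      h = cmp V fun i => X i ^ p := by
  have hp0 : p ≠ 0 := (Fact.out : p.Prime).ne_zero
  choose V hV using fun i => exists_expand p hp (hh.pderiv_eq_zero h2 i)
  refine ⟨V, fun i => ?_, funext hV⟩
  have := hh.cc i
  rwa [hV i, DM1b_cc_ev fun j => by simp [hp0]] at this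

/-- The `p ^ n`-th power of a series. -/
theorem pow_eq_ev (p : ℕ) [ExpChar S p] (n : ℕ) (g : MvPowerSeries τ S) :
    g ^ p ^ n = ev C (fun i => X i ^ p ^ n) (map (iterateFrobenius S p n) g) := by
  have hp : p ^ n ≠ 0 := (expChar_pow_pos S p n).ne'
  have : ExpChar (MvPowerSeries τ S) p := expChar_of_injective_ringHom (C_injective (R := S)) p
  have htn := DM1b_tn_pow (S := S) (τ := τ) hp
  rw [htn.ev_map, ← htn.eq_ev (θ := iterateFrobenius (MvPowerSeries τ S) p n)
    ⟨fun c => by simp [iterateFrobenius_def], fun i => iterateFrobenius_def ..⟩,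
    iterateFrobenius_def]

/-- Multiplication by `p` is a series in the `p`-th powers of the variables. -/
theorem FGL.mul_p (G : FGL S τ) (p : ℕ) [Fact p.Prime] (hp : (p : S) = 0) :
    ∃ V : τ → MvPowerSeries τ S, (∀ i, constantCoeff (V i) = 0) ∧
      G.mul p = cmp V fun i => X i ^ p := by
  refine DM1b_expand p hp (IsHom.mul G p) fun i => ?_
  have h1 := G.mul_sub_mem p i
  have h2 : (p : MvPowerSeries τ S) = 0 := by
    rw [← map_natCast (C : S →+* MvPowerSeries τ S), hp, map_zero]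
  rwa [h2, zero_mul, sub_zero] at h1

/-- Multiplication by `p ^ k` raises the coordinates to the power `p ^ k`. -/
theorem FGL.Pts.nsmul_mem {T : Type u} [CommRing T] {G : FGL S τ} {φ : S →+* T} {𝔞 : Ideal T}
    [Adm 𝔞] (p : ℕ) [Fact p.Prime] (hp : (p : S) = 0) (k : ℕ) (x : G.Pts φ 𝔞) (i : τ) :
    (p ^ k • x).v i ∈ Ideal.span (Set.range fun j => x.v j ^ p ^ k) := by
  have hpp : p.Prime := Fact.out
  have hT : (p : T) = 0 := by rw [← map_natCast φ, hp, map_zero]
  obtain ⟨V, hV0, hV⟩ := G.mul_p p hp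
  have step : ∀ (y : G.Pts φ 𝔞) (i : τ),
      (p • y).v i ∈ Ideal.span (Set.range fun j => y.v j ^ p) := by
    intro y i
    have e : (fun j => ev φ y.v ((X j : MvPowerSeries τ S) ^ p)) = fun j => y.v j ^ p := by
      funext j; rw [map_pow, y.tn.ev_X]
    rw [FGL.Pts.nsmul_v, hV, ev_cmp (fun j => by simp [hpp.ne_zero]) φ y.tn, e]
    have htn : TN fun j => y.v j ^ p :=
      Adm.tn (𝔞 := 𝔞) fun j => Ideal.pow_mem_of_mem _ (y.mem j) _ hpp.pos
    exact htn.ev_mem φ (hV0 i) fun j => Ideal.subset_span ⟨j, rfl⟩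
  induction k generalizing i with
  | zero =>
    rw [pow_zero, one_nsmul]
    exact Ideal.subset_span ⟨i, pow_one _⟩
  | succ k ih =>
    rw [pow_succ', mul_nsmul']
    refine (Ideal.span_le.2 ?_ : _ ≤ _) (step (p ^ k • x) i)
    rintro _ ⟨j, rfl⟩
    have := DM1b_pow_mem hpp hT _ (ih j)
    simpa only [← pow_mul, mul_comm, SetLike.mem_coe] using this

/-- A homomorphism vanishing to order `p ^ n` factors through the `n`-th power of Frobenius. -/
theorem IsHom.factor_frob {K : Type u} [Field K] (p : ℕ) [Fact p.Prime] [CharP K p]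
    {G : FGL K τ} {H : FGL K τ'} {h : τ' → MvPowerSeries τ K} (hh : IsHom G H h) (n : ℕ)
    (h2 : ∀ i, h i ∈ mX τ K ^ (p ^ n)) :
    ∃ h' : τ' → MvPowerSeries τ K, IsHom (G.map (iterateFrobenius K p n)) H h' ∧
      h = cmp h' fun i => X i ^ p ^ n := by
  have hpp : p.Prime := Fact.out
  induction n with
  | zero =>
    refine ⟨h, ?_, ?_⟩
    · rwa [iterateFrobenius_zero, FGL.map_id]
    · simp only [pow_zero, pow_one]
      exact (DM1b_cmp_X h).symm
  | succ n ih =>
    have hlt : p ^ n < p ^ (n + 1) := Nat.pow_lt_pow_right hpp.one_lt (Nat.lt_succ_self n)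
    have hq : 0 < p ^ n := pow_pos hpp.pos n
    obtain ⟨h', hh', e⟩ := ih fun i => Ideal.pow_le_pow_right hlt.le (h2 i)
    have h2' : ∀ i, h' i ∈ mX τ K ^ 2 := by
      intro i
      refine mem_mX_pow.2 fun d hd => ?_
      rw [← coeff_ev_pow (fun _ => p ^ n) (fun _ => hq) (h' i) d]
      have hi := mem_mX_pow.1 (h2 i)
      rw [e] at hi
      refine hi _ (lt_of_le_of_lt ?_ hlt)
      have hdeg : (Finsupp.onFinset d.support (fun i => p ^ n * d i) fun i h => by
          simpa using fun e => h (by simp [e])) = p ^ n • d := by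
        ext j; simp
      rw [hdeg, map_nsmul, smul_eq_mul]
      exact mul_le_of_le_one_right' (by omega)
    obtain ⟨V, hV0, hV⟩ := DM1b_expand p (CharP.cast_eq_zero K p) hh' h2'
    refine ⟨V, ?_, ?_⟩
    · have hf := IsHom.frob (G.map (iterateFrobenius K p n)) p 1
      rw [FGL.map_map, ← iterateFrobenius_add, add_comm 1 n] at hf
      simp only [pow_one] at hf
      refine hf.of_cmp (ev_pow_inj (fun _ => p) fun _ => hpp.pos) ?_
      rwa [← hV]
    · rw [e, hV, cmp_assoc (fun j => by simp [hpp.ne_zero]) fun j => by simp [hpp.ne_zero]]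
      congr 1
      funext j
      rw [cmp, map_pow, (DM1b_tn_pow hq.ne').ev_X, ← pow_mul, pow_succ]

/-- p-normality of power series rings over a perfect field: `a ^ p = b ^ p * c` forces all
derivatives of `c` to vanish, so `c` is a `p`-th power. -/
theorem dvd_of_pow_dvd {K : Type u} [Field K] (p : ℕ) [Fact p.Prime] [CharP K p] [PerfectField K]
    {a b : MvPowerSeries τ K} (n : ℕ) (h : b ^ p ^ n ∣ a ^ p ^ n) : b ∣ a := by
  have hpp : p.Prime := Fact.out
  have : CharP (MvPowerSeries τ K) p := charP_of_injective_ringHom (C_injective (R := K)) p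
  have one : ∀ a b : MvPowerSeries τ K, b ^ p ∣ a ^ p → b ∣ a := by
    rintro a b ⟨c, hc⟩
    by_cases hb : b = 0
    · rw [hb, zero_pow hpp.ne_zero, zero_mul] at hc
      rw [eq_zero_of_pow_eq_zero hc]
      exact dvd_zero b
    have hz : ∀ (j : τ) (f : MvPowerSeries τ K), pderiv K j (f ^ p) = 0 := by
      intro j f
      rw [Derivation.leibniz_pow, nsmul_eq_mul, CharP.cast_eq_zero, zero_mul]
    have hc' : ∀ j, pderiv K j c = 0 := by
      intro j
      have h1 := hz j a
      rw [hc, Derivation.leibniz, hz j b, smul_zero, add_zero, smul_eq_mul] at h1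
      exact (mul_eq_zero.1 h1).resolve_left (pow_ne_zero p hb)
    obtain ⟨g, hg⟩ := exists_expand p (CharP.cast_eq_zero K p) hc'
    set g' : MvPowerSeries τ K := map (frobeniusEquiv K p).symm.toRingHom g with hg'
    have e1 : map (iterateFrobenius K p 1) g' = g := by
      ext d
      rw [hg', coeff_map, coeff_map, iterateFrobenius_one]
      exact (frobeniusEquiv K p).apply_symm_apply _
    have e2 := pow_eq_ev p 1 g'
    rw [e1] at e2
    simp only [pow_one] at e2
    rw [← hg] at e2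
    refine ⟨g', frobenius_inj _ p ?_⟩
    rw [frobenius_def, frobenius_def, mul_pow, e2, hc]
  induction n with
  | zero => simpa using h
  | succ n ih =>
    refine ih (one _ _ ?_)
    rwa [← pow_mul, ← pow_mul, ← pow_succ]

/-- Points with values in a domain have no torsion (finite height): a prime to `p` integer acts
on the ideal `I` generated by the coordinates as a unit modulo `I ^ 2` (Nakayama or Krull: `I` lies
in a complete ideal). -/
theorem FGL.Pts.torsion_free {K T : Type u} [Field K] [CommRing T] [IsDomain T] (p : ℕ)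
    [Fact p.Prime] [CharP K p] {G : FGL K τ} (hG : G.FH p) {φ : K →+* T} {𝔞 : Ideal T} [Adm 𝔞]
    {n : ℕ} (hn : n ≠ 0) {x : G.Pts φ 𝔞} (hx : n • x = 0) : x = 0 := by
  have hpp : p.Prime := Fact.out
  have hP : ∀ y : G.Pts φ 𝔞, p • y = 0 → y = 0 := by
    intro y hy
    obtain ⟨N, hN⟩ := hG
    refine FGL.Pts.ext (funext fun i => ?_)
    have h1 : Ideal.span (Set.range (G.mul p)) ≤ RingHom.ker (ev φ y.v) := by
      refine Ideal.span_le.2 ?_
      rintro _ ⟨j, rfl⟩
      have := FGL.Pts.nsmul_v p y j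
      rw [hy] at this
      exact this.symm
    have h2 := h1 (hN i)
    rw [RingHom.mem_ker, map_pow, y.tn.ev_X] at h2
    exact eq_zero_of_pow_eq_zero h2
  have hM : ∀ m : ℕ, ¬ p ∣ m → m • x = 0 → x = 0 := by
    intro m hm hmx
    have hK : (m : K) ≠ 0 := fun h => hm ((CharP.cast_eq_zero_iff K p m).1 h)
    have hu : IsUnit (m : T) := by
      rw [← map_natCast φ]; exact (Ne.isUnit hK).map φ
    set I := Ideal.span (Set.range x.v) with hI
    have hle : I ≤ I • I := by
      refine Ideal.span_le.2 ?_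
      rintro _ ⟨i, rfl⟩
      have h1 := x.tn.ev_mem_pow φ (G.mul_sub_mem m i)
      rw [map_sub, _root_.map_mul, map_natCast, x.tn.ev_X, ← FGL.Pts.nsmul_v, hmx] at h1
      rw [FGL.Pts.zero_v, Pi.zero_apply, zero_sub, neg_mem_iff, Ideal.unit_mul_mem_iff_mem _ hu,
        pow_two] at h1
      exact h1
    obtain ⟨𝔟, h𝔟, hx𝔟⟩ := x.tn
    have hj : I ≤ Ideal.jacobson ⊥ := by
      refine le_trans (Ideal.span_le.2 ?_) (IsAdicComplete.le_jacobson_bot 𝔟)
      rintro _ ⟨i, rfl⟩
      exact hx𝔟 i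
    have hbot := Submodule.eq_bot_of_le_smul_of_le_jacobson_bot I I
      (Submodule.fg_span (Set.finite_range _)) hle hj
    refine FGL.Pts.ext (funext fun i => ?_)
    have : x.v i ∈ I := Ideal.subset_span ⟨i, rfl⟩
    rw [hbot] at this
    exact this
  induction n using Nat.strong_induction_on with
  | h n ih =>
    by_cases hpn : p ∣ n
    · obtain ⟨m, rfl⟩ := hpn
      have hm : m ≠ 0 := fun h => hn (by rw [h, mul_zero])
      refine ih m ?_ hm (hP _ ?_)
      · exact lt_mul_of_one_lt_left (Nat.pos_of_ne_zero hm) hpp.one_lt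
      · rwa [mul_nsmul'] at hx
    · exact hM n hpn hx

end MLF
end

-- merged part: Pool.Agent.Work.MP_29d410_ag.DM2
section
/-!
# The image of a homomorphism of formal groups over a perfect field is a formal group

`f : G → H` a homomorphism, `θ = ev C f : K⟦Z'⟧ → K⟦Z⟧`, `I = ker θ` (prime).
Plan.
1. Let `W ⊆ K ^ τ'` be the space of linear parts of the elements of `I`; choose a subset
   `ρ ⊆ τ'` such that the classes of the `Z' j`, `j ∈ ρ`, form a basis of `K ^ τ' / W`, and
   for `j ∈ ρ` the dual functionals `ξ j : τ' → K` (killing `W`, `ξ j j' = δ` on `ρ`).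
   `w = f ∘ val`.
2. Every `Z' i` lies in `span (Z' j, j ∈ ρ) + I + 𝔪 ^ 2`; hence by successive approximation (or
   `ev_surj` applied to the family of the `Z' j`, `j ∈ ρ`, and generators of `I`; the ring is
   Noetherian) there are `r i ∈ K⟦ρ⟧` with `Z' i - r i (Z'|ρ) ∈ I`, i.e. `f = cmp r w`.  Take
   `r j = X j` for `j ∈ ρ`.
3. The invariant derivation `∂ j = ∑ i, ξ j i • D i` of `H` maps `I` to `I`: for `h ∈ I` put
   `u = h (F_H (f Z, Y)) ∈ K⟦Z, Y⟧`; substituting `Y = f Z₂` gives `h (f (F_G (Z, Z₂))) = 0`, so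
   each coefficient of `u` with respect to `Z` (a series in `Y`) lies in `I`, hence its linear part
   is killed by `ξ j`; and `θ (∂ j h)` has as coefficients exactly these values.
4. `J = ker (ev C w)` is stable under all derivatives (chain rule `der_ev`; the matrix
   `θ (∂ j (Z' j'))` is the identity at the origin, so invertible), prime, so zero
   (`eq_bot_of_pderiv`).
5. Put `F' j = F_H j (r X, r Y)`, `N' j = N_H j (r X)`.  All laws and the homomorphism
   properties follow from injectivity of `ev C w` in one, two, three sets of variables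
   (`ev_inj_sum`).
-/

open MvPowerSeries

namespace MLF

universe u

variable {K : Type u} [Field K] (p : ℕ) [Fact p.Prime] [CharP K p] [PerfectField K]
  {τ τ' : Type} [Finite τ] [Finite τ']

omit [PerfectField K] [Finite τ] in
theorem DM2_coeff_pow (n : ℕ) (g : MvPowerSeries τ K) (d : τ →₀ ℕ) :
    coeff (p ^ n • d) (g ^ p ^ n) = coeff d g ^ p ^ n := by
  have hp : p ≠ 0 := (Fact.out : p.Prime).ne_zero
  rw [← map_iterateFrobenius_expand p hp g n, coeff_map, coeff_expand_smul, iterateFrobenius_def]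

omit [PerfectField K] [Finite τ] in
theorem DM2_coeff_pow_not (n : ℕ) (g : MvPowerSeries τ K) {d : τ →₀ ℕ} {i : τ}
    (h : ¬ p ^ n ∣ d i) : coeff d (g ^ p ^ n) = 0 := by
  have hp : p ≠ 0 := (Fact.out : p.Prime).ne_zero
  rw [← map_iterateFrobenius_expand p hp g n, coeff_map, coeff_expand_of_not_dvd _ _ _ h, map_zero]

omit [PerfectField K] [Finite τ] in
theorem DM2_mk (c : (τ →₀ ℕ) → K) : ∃ u : MvPowerSeries τ K, ∀ m, coeff m u = c m :=
  ⟨c, fun _ => rfl⟩

theorem DM2_root (n : ℕ) (c : K) : ∃ r : K, r ^ p ^ n = c :=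
  ⟨(iterateFrobeniusEquiv K p n).symm c, by
    rw [← iterateFrobeniusEquiv_def, RingEquiv.apply_symm_apply]⟩

/-- Every series is `∑ (α < p), X ^ α * (h α) ^ p`; more generally with `p ^ n`. -/
theorem exists_pow_decomp [Fintype τ] [DecidableEq τ] (n : ℕ) (h : MvPowerSeries τ K) :
    ∃ g : (τ → Fin (p ^ n)) → MvPowerSeries τ K,
      h = ∑ α, (∏ i, X i ^ (α i : ℕ)) * g α ^ p ^ n ∧
      ∀ α (d : τ →₀ ℕ), coeff d (g α) ^ p ^ n =
        coeff (Finsupp.equivFunOnFinite.symm fun i => p ^ n * d i + α i) h := by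
  have hq : 0 < p ^ n := pow_pos (Fact.out : p.Prime).pos n
  choose r hr using DM2_root (K := K) p n
  obtain ⟨g, hg⟩ : ∃ g : (τ → Fin (p ^ n)) → MvPowerSeries τ K, ∀ α (d : τ →₀ ℕ),
      coeff d (g α) ^ p ^ n =
        coeff (Finsupp.equivFunOnFinite.symm fun i => p ^ n * d i + α i) h :=
    ⟨fun α d => r (coeff (Finsupp.equivFunOnFinite.symm fun i => p ^ n * d i + α i) h),
      fun α d => hr _⟩
  refine ⟨g, ?_, hg⟩
  ext e
  have hm : ∀ α : τ → Fin (p ^ n), (∏ i, X i ^ (α i : ℕ) : MvPowerSeries τ K) =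
      monomial (Finsupp.equivFunOnFinite.symm fun i => (α i : ℕ)) 1 := by
    intro α
    rw [monomial_eq', map_one, one_mul, Finsupp.prod_fintype _ _ (by simp)]
    rfl
  rw [map_sum, Finset.sum_eq_single (fun i => ⟨e i % p ^ n, Nat.mod_lt _ hq⟩)]
  · have le : (Finsupp.equivFunOnFinite.symm fun i => e i % p ^ n) ≤ e := fun i => Nat.mod_le _ _
    rw [hm, coeff_monomial_mul, if_pos le, one_mul]
    have : e - (Finsupp.equivFunOnFinite.symm fun i => e i % p ^ n) =
        p ^ n • Finsupp.equivFunOnFinite.symm fun i => e i / p ^ n := by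
      ext i
      have := Nat.div_add_mod (e i) (p ^ n)
      simp only [Finsupp.coe_tsub, Pi.sub_apply, Finsupp.equivFunOnFinite_symm_apply_apply,
        Finsupp.smul_apply, smul_eq_mul]
      omega
    rw [this, DM2_coeff_pow, hg]
    congr 2
    ext i
    exact (Nat.div_add_mod (e i) (p ^ n)).symm
  · intro α _ hα
    rw [hm, coeff_monomial_mul]
    split_ifs with le
    · obtain ⟨i, hi⟩ := Function.ne_iff.1 hα
      rw [DM2_coeff_pow_not p n _ (i := i), mul_zero]
      rintro ⟨c, hc⟩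
      have l : (α i : ℕ) ≤ e i := le i
      have hc' : e i - α i = p ^ n * c := hc
      refine hi (Fin.ext ?_)
      change (α i : ℕ) = e i % p ^ n
      rw [show e i = α i + p ^ n * c by omega, Nat.add_mul_mod_self_left,
        Nat.mod_eq_of_lt (α i).2]
    · rfl
  · exact fun k => (k (Finset.mem_univ _)).elim

omit [PerfectField K] [Finite τ] in
theorem DM2_euler (i : τ) (f : MvPowerSeries τ K) (e : τ →₀ ℕ) :
    coeff e (X i * pderiv K i f) = coeff e f * (e i : K) := by
  rw [X, coeff_monomial_mul]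
  split_ifs with le
  · obtain ⟨m, rfl⟩ := le_iff_exists_add.1 le
    rw [add_tsub_cancel_left, one_mul, coeff_pderiv, add_comm m, Finsupp.add_apply,
      Finsupp.single_eq_same, Nat.cast_add, Nat.cast_one, add_comm (1 : K)]
  · rw [Finsupp.single_le_iff, not_le, Nat.lt_one_iff] at le
    rw [le, Nat.cast_zero, mul_zero]

include p in
/-- A radical ideal, different from the unit ideal and stable under derivatives, is
zero.  Take `h ≠ 0` of minimal order in `J`; each `(g α) ^ p` lies in `J` (apply the commuting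
operators `X i * ∂ i`, which act on the `α`-th summand by the scalar `α i`, and separate the
eigenspaces; then differentiate `α` times), so `g α ∈ J`, of smaller order. -/
theorem eq_bot_of_pderiv {J : Ideal (MvPowerSeries τ K)} (hr : J.IsRadical) (hJ : J ≠ ⊤)
    (h : ∀ i, ∀ f ∈ J, pderiv K i f ∈ J) : J = ⊥ := by
  classical
  have hr' := hr
  clear hr
  have hp := (Fact.out : p.Prime)
  have h1 : ∀ i (k : ℕ), ∀ f ∈ J, ∃ f' ∈ J, ∀ e, coeff e f' = coeff e f * (e i : K) ^ k := by
    intro i k f hf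
    induction k with
    | zero => exact ⟨f, hf, fun e => by rw [pow_zero, mul_one]⟩
    | succ k ih =>
      obtain ⟨g, hg, a⟩ := ih
      exact ⟨X i * pderiv K i g, J.mul_mem_left _ (h i g hg), fun e => by
        rw [DM2_euler, a, pow_succ, mul_assoc]⟩
  have h2 : ∀ i, ∀ f ∈ J, ∃ f' ∈ J, ∀ e, coeff e f' = if p ∣ e i then coeff e f else 0 := by
    intro i f hf
    obtain ⟨g, hg, a⟩ := h1 i (p - 1) f hf
    refine ⟨f - g, J.sub_mem hf hg, fun e => ?_⟩
    rw [map_sub, a]
    split_ifs with d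
    · rw [(CharP.cast_eq_zero_iff K p _).2 d, zero_pow (by have := hp.two_le; omega), mul_zero,
        sub_zero]
    · have n0 : (e i : K) ≠ 0 := fun k => d ((CharP.cast_eq_zero_iff K p _).1 k)
      have e1 : (e i : K) ^ (p - 1) * (e i : K) = 1 * (e i : K) := by
        rw [← pow_succ, Nat.sub_add_cancel hp.one_le, one_mul, ← frobenius_def, map_natCast]
      rw [mul_right_cancel₀ n0 e1, mul_one, sub_self]
  have h3 : ∀ s : Finset τ, ∀ f ∈ J, ∃ f' ∈ J, ∀ e : τ →₀ ℕ,
      coeff e f' = if ∀ i ∈ s, p ∣ e i then coeff e f else 0 := by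
    intro s f hf
    induction s using Finset.induction_on with
    | empty => exact ⟨f, hf, fun e => by simp⟩
    | insert i s _ ih =>
      obtain ⟨g, hg, a⟩ := ih
      obtain ⟨g', hg', b⟩ := h2 i g hg
      refine ⟨g', hg', fun e => ?_⟩
      rw [b, a]
      by_cases c : p ∣ e i <;> simp [c]
  have key : ∀ N : ℕ, ∀ d : τ →₀ ℕ, d.degree = N → ∀ f ∈ J, coeff d f = 0 := by
    intro N
    induction N using Nat.strong_induction_on with
    | _ N ih =>
    intro d hd f hf
    by_contra hne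
    by_cases d0 : d = 0
    · subst d0
      exact hJ (J.eq_top_of_isUnit_mem hf (isUnit_iff_constantCoeff.2 (Ne.isUnit hne)))
    have := Fintype.ofFinite τ
    by_cases c : ∀ i, p ∣ d i
    · choose r hr using DM2_root (K := K) p 1
      obtain ⟨g, hg, a⟩ := h3 Finset.univ f hf
      obtain ⟨u, hu⟩ : ∃ u : MvPowerSeries τ K, ∀ m : τ →₀ ℕ,
          coeff m u = r (coeff ((p ^ 1 : ℕ) • m) f) :=
        DM2_mk fun m : τ →₀ ℕ => r (coeff ((p ^ 1 : ℕ) • m) f)
      have dv : ∀ e : τ →₀ ℕ, (∀ i, p ∣ e i) → ∃ m : τ →₀ ℕ, e = (p ^ 1 : ℕ) • m := fun e b =>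
        ⟨e.mapRange (· / p) (Nat.zero_div p), by ext i; simp [Nat.mul_div_cancel' (b i)]⟩
      have e1 : u ^ p ^ 1 = g := by
        ext e
        rw [a]
        split_ifs with b
        · obtain ⟨m, rfl⟩ := dv e fun i => b i (Finset.mem_univ i)
          rw [DM2_coeff_pow, hu, hr]
        · push Not at b
          obtain ⟨i, -, b⟩ := b
          exact DM2_coeff_pow_not p 1 u (i := i) (by rwa [pow_one])
      obtain ⟨m, rfl⟩ := dv d c
      have m0 : m.degree ≠ 0 := fun k => d0 (by rw [(Finsupp.degree_eq_zero_iff m).1 k, smul_zero])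
      have lt : m.degree < N := by
        rw [← hd, map_nsmul, pow_one, smul_eq_mul]
        exact (Nat.lt_mul_iff_one_lt_left (Nat.pos_of_ne_zero m0)).2 hp.one_lt
      have := ih _ lt m rfl u (hr' ⟨p ^ 1, e1 ▸ hg⟩)
      rw [← hr (coeff _ f), ← hu, this, zero_pow (pow_ne_zero _ hp.ne_zero)] at hne
      exact hne rfl
    · push Not at c
      obtain ⟨i, c⟩ := c
      have n0 : (d i : K) ≠ 0 := fun k => c ((CharP.cast_eq_zero_iff K p _).1 k)
      have le : Finsupp.single i 1 ≤ d := by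
        rw [Finsupp.single_le_iff]
        exact Nat.pos_of_ne_zero fun k => c (k ▸ dvd_zero p)
      obtain ⟨m, rfl⟩ := le_iff_exists_add.1 le
      have := ih m.degree (by rw [← hd, map_add, Finsupp.degree_single]; omega) m rfl _ (h i f hf)
      rw [coeff_pderiv, add_comm m, mul_eq_zero] at this
      refine this.elim hne fun k => n0 ?_
      rw [Finsupp.add_apply, Finsupp.single_eq_same, Nat.cast_add, Nat.cast_one, add_comm, k]
  exact (Submodule.eq_bot_iff J).2 fun f hf => MvPowerSeries.ext fun d => key _ d rfl f hf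

end MLF
end

-- merged part: Pool.Agent.Work.MP_29d410_ag.DM2bA
section
/-! Series in two sets of variables as iterated series; auxiliary facts on substitution. -/

open MvPowerSeries

namespace MLF

namespace DM2b

universe u

variable {S : Type u} [CommRing S] {σ σ' τ τ' : Type}

theorem sumElim_inj {a a' : σ →₀ ℕ} {b b' : σ' →₀ ℕ} :
    a.sumElim b = a'.sumElim b' ↔ a = a' ∧ b = b' := by
  refine ⟨fun h => ⟨?_, ?_⟩, fun h => by rw [h.1, h.2]⟩
  · ext i
    exact DFunLike.congr_fun h (Sum.inl i)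
  · ext i
    exact DFunLike.congr_fun h (Sum.inr i)

/-- The coefficients of a series in two sets of variables with respect to the first set. -/
def sl (u : MvPowerSeries (σ ⊕ σ') S) : MvPowerSeries σ (MvPowerSeries σ' S) :=
  fun d e => u (d.sumElim e)

theorem coeff_sl (u : MvPowerSeries (σ ⊕ σ') S) (d : σ →₀ ℕ) (e : σ' →₀ ℕ) :
    coeff e (coeff d (sl u)) = coeff (d.sumElim e) u := rfl

theorem sl_mul (u v : MvPowerSeries (σ ⊕ σ') S) : sl (u * v) = sl u * sl v := by
  classical
  ext d e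
  rw [coeff_sl, coeff_mul, coeff_mul, map_sum, ← Finsupp.image_sumElim_product_antidiagonal,
    Finset.sum_image, Finset.sum_product]
  · refine Finset.sum_congr rfl fun x _ => ?_
    rw [coeff_mul]
    rfl
  · rintro ⟨⟨a, b⟩, c, d⟩ - ⟨⟨a', b'⟩, c', d'⟩ - h
    simp only [Prod.mk.injEq, sumElim_inj] at h ⊢
    tauto

/-- Series in two sets of variables are iterated series. -/
noncomputable def Φ (σ σ' : Type) (S : Type u) [CommRing S] :
    MvPowerSeries (σ ⊕ σ') S ≃+* MvPowerSeries σ (MvPowerSeries σ' S) where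
  toFun := sl
  invFun v := fun n => v (n.comapDomain Sum.inl Sum.inl_injective.injOn)
    (n.comapDomain Sum.inr Sum.inr_injective.injOn)
  left_inv u := by
    funext n
    exact congrArg u (Finsupp.comapDomain_sumElim_comapDomain n)
  right_inv v := by
    funext d e
    change v _ _ = v d e
    rw [Finsupp.comapDomain_inl_sumElim, Finsupp.comapDomain_inr_sumElim]
  map_mul' := sl_mul
  map_add' _ _ := rfl

theorem coeff_Φ (u : MvPowerSeries (σ ⊕ σ') S) (d : σ →₀ ℕ) (e : σ' →₀ ℕ) :
    coeff e (coeff d (Φ σ σ' S u)) = coeff (d.sumElim e) u := rfl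

theorem Φ_monomial (a : σ →₀ ℕ) (b : σ' →₀ ℕ) (c : S) :
    Φ σ σ' S (monomial (a.sumElim b) c) = monomial a (monomial b c) := by
  classical
  ext d e
  rw [coeff_Φ, coeff_monomial, coeff_monomial]
  simp only [sumElim_inj]
  by_cases h : d = a
  · simp [h, coeff_monomial]
  · simp [h]

theorem Φ_C (c : S) : Φ σ σ' S (C c) = C (C c) := by
  have := Φ_monomial (σ := σ) (σ' := σ') 0 0 c
  rwa [Finsupp.sumElim_zero_zero] at this

theorem Φ_inl (i : σ) : Φ σ σ' S (X (.inl i)) = X i := by
  have := Φ_monomial (σ' := σ') (Finsupp.single i 1) 0 (1 : S)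
  rwa [Finsupp.sumElim_single_zero] at this

theorem Φ_inr (i : σ') : Φ σ σ' S (X (.inr i)) = C (X i) := by
  have := Φ_monomial (σ := σ) 0 (Finsupp.single i 1) (1 : S)
  rwa [Finsupp.sumElim_zero_single] at this

variable [Finite σ] [Finite σ'] [Finite τ] [Finite τ']

omit [Finite σ] [Finite τ] [Finite τ'] in
theorem cc_elim {x : τ → MvPowerSeries σ S} {y : τ' → MvPowerSeries σ S}
    (hx : ∀ i, constantCoeff (x i) = 0) (hy : ∀ i, constantCoeff (y i) = 0) (i : τ ⊕ τ') :
    constantCoeff (Sum.elim x y i) = 0 := by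
  cases i
  exacts [hx _, hy _]

omit [Finite σ] in
theorem cc_X {α : Type} (e : α → σ) (i : α) :
    constantCoeff ((X ∘ e) i : MvPowerSeries σ S) = 0 := constantCoeff_X _

omit [Finite σ] in
theorem cc_zero {α : Type} (i : α) : constantCoeff ((0 : α → MvPowerSeries σ S) i) = 0 :=
  map_zero _

theorem comp_C {x : τ → MvPowerSeries σ S} (hx : ∀ i, constantCoeff (x i) = 0) :
    (ev C x : MvPowerSeries τ S →+* _).comp C = C :=
  RingHom.ext fun c => (TN.of_cc hx).ev_C C c

theorem cc_ev {x : τ → MvPowerSeries σ S} (hx : ∀ i, constantCoeff (x i) = 0)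
    (g : MvPowerSeries τ S) : constantCoeff (ev C x g) = constantCoeff g := by
  have e : (constantCoeff : MvPowerSeries σ S →+* S) ∘ x = 0 := funext hx
  rw [(TN.of_cc hx).map_ev constantCoeff (by rw [e]; exact TN.of_nil fun _ => IsNilpotent.zero),
    e, ev_zero]
  simp

theorem cc_cmp {α : Type} {x : τ → MvPowerSeries σ S} (hx : ∀ i, constantCoeff (x i) = 0)
    {g : α → MvPowerSeries τ S} (hg : ∀ i, constantCoeff (g i) = 0) (i : α) :
    constantCoeff (cmp g x i) = 0 := (cc_ev hx _).trans (hg i)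

theorem ev_ev {x : τ → MvPowerSeries σ S} (hx : ∀ i, constantCoeff (x i) = 0)
    {f : τ' → MvPowerSeries τ S} (hf : ∀ i, constantCoeff (f i) = 0) (g : MvPowerSeries τ' S) :
    ev C x (ev C f g) = ev C (cmp f x) g := by
  rw [(TN.of_cc hf).map_ev (ev C x) (TN.of_cc (cc_cmp hx hf)), comp_C hx]
  rfl

theorem ev_id (g : MvPowerSeries τ S) : ev C X g = g := by
  rw [← (TN.of_cc constantCoeff_X).eq_ev (φ := C) (θ := RingHom.id _) ⟨fun _ => rfl, fun _ => rfl⟩]
  rfl

theorem cmp_id {α : Type} (g : α → MvPowerSeries τ S) : cmp g X = g := funext fun _ => ev_id _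

theorem cmp_X {α : Type} {x : τ → MvPowerSeries σ S} (hx : ∀ i, constantCoeff (x i) = 0)
    (e : α → τ) : cmp (X ∘ e) x = x ∘ e := funext fun _ => (TN.of_cc hx).ev_X C _

omit [Finite σ] in
theorem cmp_zero {α : Type} {g : α → MvPowerSeries τ S} (hg : ∀ i, constantCoeff (g i) = 0) :
    cmp g (0 : τ → MvPowerSeries σ S) = 0 := funext fun i => by
  change ev C 0 (g i) = 0
  rw [ev_zero, hg, map_zero]

omit [Finite σ] [Finite τ] in
theorem zero_cmp {α : Type} (x : τ → MvPowerSeries σ S) :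
    cmp (0 : α → MvPowerSeries τ S) x = 0 := funext fun _ => map_zero _

theorem cmp_cmp {α : Type} (h : α → MvPowerSeries τ' S) {g : τ' → MvPowerSeries τ S}
    (hg : ∀ i, constantCoeff (g i) = 0) {x : τ → MvPowerSeries σ S}
    (hx : ∀ i, constantCoeff (x i) = 0) : cmp (cmp h g) x = cmp h (cmp g x) :=
  funext fun _ => ev_ev hx hg _

omit [Finite σ] [Finite τ] in
theorem elim_cmp {α β : Type} (g : α → MvPowerSeries τ S) (g' : β → MvPowerSeries τ S)
    (x : τ → MvPowerSeries σ S) : cmp (Sum.elim g g') x = Sum.elim (cmp g x) (cmp g' x) := by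
  funext i
  cases i <;> rfl

theorem cmp_inl {α : Type} (g : α → MvPowerSeries τ S) {x : τ → MvPowerSeries σ S}
    {y : τ' → MvPowerSeries σ S} (hx : ∀ i, constantCoeff (x i) = 0)
    (hy : ∀ i, constantCoeff (y i) = 0) : cmp (cmp g (X ∘ Sum.inl)) (Sum.elim x y) = cmp g x := by
  rw [cmp_cmp _ (cc_X _) (cc_elim hx hy), cmp_X (cc_elim hx hy)]
  rfl

theorem cmp_inr {α : Type} (g : α → MvPowerSeries τ' S) {x : τ → MvPowerSeries σ S}
    {y : τ' → MvPowerSeries σ S} (hx : ∀ i, constantCoeff (x i) = 0)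
    (hy : ∀ i, constantCoeff (y i) = 0) : cmp (cmp g (X ∘ Sum.inr)) (Sum.elim x y) = cmp g y := by
  rw [cmp_cmp _ (cc_X _) (cc_elim hx hy), cmp_X (cc_elim hx hy)]
  rfl

omit [Finite σ] [Finite τ] in
theorem add_eq (G : FGL S τ) (x y : τ → MvPowerSeries σ S) :
    G.add C x y = cmp G.F (Sum.elim x y) := rfl

theorem add_cmp (G : FGL S τ) {x y : τ → MvPowerSeries σ S} (hx : ∀ i, constantCoeff (x i) = 0)
    (hy : ∀ i, constantCoeff (y i) = 0) {z : σ → MvPowerSeries σ' S}
    (hz : ∀ i, constantCoeff (z i) = 0) :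
    cmp (G.add C x y) z = G.add C (cmp x z) (cmp y z) := by
  rw [add_eq, add_eq, cmp_cmp _ (cc_elim hx hy) hz, elim_cmp]

theorem cc_add (G : FGL S τ) {x y : τ → MvPowerSeries σ S} (hx : ∀ i, constantCoeff (x i) = 0)
    (hy : ∀ i, constantCoeff (y i) = 0) (i : τ) : constantCoeff (G.add C x y i) = 0 :=
  cc_cmp (cc_elim hx hy) G.F0 i

/-- A vector without constant terms as a point. -/
def pt (G : FGL S τ) {x : τ → MvPowerSeries σ S} (hx : ∀ i, constantCoeff (x i) = 0) :
    G.Pts C (mX σ S) := ⟨x, fun i => mem_mX.2 (hx i)⟩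

theorem add_zero' (G : FGL S τ) {x : τ → MvPowerSeries σ S} (hx : ∀ i, constantCoeff (x i) = 0) :
    G.add C x 0 = x := congrArg FGL.Pts.v (add_zero (pt G hx))

theorem zero_add' (G : FGL S τ) {x : τ → MvPowerSeries σ S} (hx : ∀ i, constantCoeff (x i) = 0) :
    G.add C 0 x = x := congrArg FGL.Pts.v (zero_add (pt G hx))

theorem add_comm' (G : FGL S τ) {x y : τ → MvPowerSeries σ S} (hx : ∀ i, constantCoeff (x i) = 0)
    (hy : ∀ i, constantCoeff (y i) = 0) : G.add C x y = G.add C y x :=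
  congrArg FGL.Pts.v (add_comm (pt G hx) (pt G hy))

theorem add_assoc' (G : FGL S τ) {x y z : τ → MvPowerSeries σ S}
    (hx : ∀ i, constantCoeff (x i) = 0) (hy : ∀ i, constantCoeff (y i) = 0)
    (hz : ∀ i, constantCoeff (z i) = 0) :
    G.add C (G.add C x y) z = G.add C x (G.add C y z) :=
  congrArg FGL.Pts.v (add_assoc (pt G hx) (pt G hy) (pt G hz))

theorem neg_add' (G : FGL S τ) {x : τ → MvPowerSeries σ S} (hx : ∀ i, constantCoeff (x i) = 0) :
    G.add C (cmp G.N x) x = 0 := congrArg FGL.Pts.v (neg_add_cancel (pt G hx))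

theorem hom_add {G : FGL S τ} {H : FGL S τ'} {f : τ' → MvPowerSeries τ S} (hf : IsHom G H f)
    {x y : τ → MvPowerSeries σ S} (hx : ∀ i, constantCoeff (x i) = 0)
    (hy : ∀ i, constantCoeff (y i) = 0) :
    cmp f (G.add C x y) = H.add C (cmp f x) (cmp f y) :=
  funext fun i => hf.ev_add (TN.of_cc (cc_elim hx hy)) i

theorem hom_neg {G : FGL S τ} {H : FGL S τ'} {f : τ' → MvPowerSeries τ S} (hf : IsHom G H f) :
    cmp f G.N = cmp H.N f := by
  have h := congrArg FGL.Pts.v (map_neg (hf.act C (mX τ S)) G.univ)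
  have h' : cmp f (cmp G.N X) = cmp H.N (cmp f X) := h
  rwa [cmp_id, cmp_id] at h'

theorem ev_inl_zero (u : MvPowerSeries (σ ⊕ σ') S) :
    ev C (Sum.elim X 0 : σ ⊕ σ' → MvPowerSeries σ S) u = map constantCoeff (Φ σ σ' S u) := by
  rw [← (TN.of_cc (cc_elim constantCoeff_X cc_zero)).eq_ev (φ := C)
    (θ := (map constantCoeff).comp (Φ σ σ' S).toRingHom) ⟨fun c => ?_, fun i => ?_⟩]
  · rfl
  · simp [Φ_C]
  · cases i <;> simp [Φ_inl, Φ_inr]

theorem ev_zero_inr (u : MvPowerSeries (σ ⊕ σ') S) :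
    ev C (Sum.elim 0 X : σ ⊕ σ' → MvPowerSeries σ' S) u = constantCoeff (Φ σ σ' S u) := by
  rw [← (TN.of_cc (cc_elim cc_zero constantCoeff_X)).eq_ev (φ := C)
    (θ := constantCoeff.comp (Φ σ σ' S).toRingHom) ⟨fun c => ?_, fun i => ?_⟩]
  · rfl
  · simp [Φ_C]
  · cases i <;> simp [Φ_inl, Φ_inr]

theorem Φ_ev_inr (g : MvPowerSeries σ' S) : Φ σ σ' S (ev C (X ∘ Sum.inr) g) = C g := by
  rw [← (TN.of_cc (cc_X Sum.inr)).eq_ev (φ := C)
    (θ := (Φ σ σ' S).symm.toRingHom.comp C) ⟨fun c => ?_, fun i => ?_⟩]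
  · simp
  · simp [← Φ_C]
  · simp [← Φ_inr]

/-- Substitution in the second set of variables acts on the coefficients. -/
theorem Φ_ev {f : τ' → MvPowerSeries τ S} (hf : ∀ i, constantCoeff (f i) = 0)
    (u : MvPowerSeries (σ ⊕ τ') S) :
    Φ σ τ S (ev C (Sum.elim (X ∘ Sum.inl) (cmp f (X ∘ Sum.inr))) u)
      = map (ev C f) (Φ σ τ' S u) := by
  rw [← (TN.of_cc (cc_elim (cc_X Sum.inl) (cc_cmp (cc_X Sum.inr) hf))).eq_ev (φ := C)
    (θ := (Φ σ τ S).symm.toRingHom.comp ((map (ev C f)).comp (Φ σ τ' S).toRingHom))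
    ⟨fun c => ?_, fun i => ?_⟩]
  · simp
  · simp [Φ_C, (TN.of_cc hf).ev_C, RingEquiv.symm_apply_eq]
  · cases i
    · simp [Φ_inl, RingEquiv.symm_apply_eq]
    · simp [Φ_inr, (TN.of_cc hf).ev_X, RingEquiv.symm_apply_eq, cmp, Φ_ev_inr]

theorem coeff_der (u : MvPowerSeries (σ ⊕ σ') S) (i : σ') (d : σ →₀ ℕ) :
    coeff d (ev C (Sum.elim X 0 : σ ⊕ σ' → MvPowerSeries σ S) (pderiv S (.inr i) u))
      = coeff (Finsupp.single i 1) (coeff d (Φ σ σ' S u)) := by
  rw [ev_inl_zero, coeff_map, ← coeff_zero_eq_constantCoeff_apply, coeff_Φ, coeff_Φ, coeff_pderiv,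
    ← Finsupp.sumElim_zero_single, ← Finsupp.sumElim_add, add_zero, zero_add]
  simp [Finsupp.sumElim_inr]

theorem lin_mem [Fintype τ] {h : MvPowerSeries τ S} (h0 : constantCoeff h = 0) :
    h - ∑ i, coeff (Finsupp.single i 1) h • X i ∈ mX τ S ^ 2 := by
  classical
  rw [mem_mX_pow]
  intro d hd
  rw [map_sub, map_sum]
  rcases (by omega : d.degree = 0 ∨ d.degree = 1) with h1 | h1
  · rw [Finsupp.degree_eq_zero_iff] at h1
    subst h1
    simp [h0]
  · obtain ⟨j, rfl⟩ : d ∈ Set.range fun a : τ => Finsupp.single a 1 := by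
      rw [Finsupp.range_single_one]
      exact h1
    simp [coeff_index_single_X]

end DM2b

end MLF
end

-- merged part: Pool.Agent.Work.MP_29d410_ag.DM2b
section
/-!
# The image of a homomorphism of formal groups over a perfect field is a formal group

`f : G → H` a homomorphism, `θ = ev C f : K⟦Z'⟧ → K⟦Z⟧`, `I = ker θ` (prime).
Plan.
1. Let `W ⊆ K ^ τ'` be the space of linear parts of the elements of `I`; choose a subset
   `ρ ⊆ τ'` such that the classes of the `Z' j`, `j ∈ ρ`, form a basis of `K ^ τ' / W`, and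
   for `j ∈ ρ` the dual functionals `ξ j : τ' → K` (killing `W`, `ξ j j' = δ` on `ρ`).
   `w = f ∘ val`.
2. Every `Z' i` lies in `span (Z' j, j ∈ ρ) + I + 𝔪 ^ 2`; hence by successive approximation (or
   `ev_surj` applied to the family of the `Z' j`, `j ∈ ρ`, and generators of `I`; the ring is
   Noetherian) there are `r i ∈ K⟦ρ⟧` with `Z' i - r i (Z'|ρ) ∈ I`, i.e. `f = cmp r w`.  Take
   `r j = X j` for `j ∈ ρ`.
3. The invariant derivation `∂ j = ∑ i, ξ j i • D i` of `H` maps `I` to `I`: for `h ∈ I` put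
   `u = h (F_H (f Z, Y)) ∈ K⟦Z, Y⟧`; substituting `Y = f Z₂` gives `h (f (F_G (Z, Z₂))) = 0`, so
   each coefficient of `u` with respect to `Z` (a series in `Y`) lies in `I`, hence its linear part
   is killed by `ξ j`; and `θ (∂ j h)` has as coefficients exactly these values.
4. `J = ker (ev C w)` is stable under all derivatives (chain rule `der_ev`; the matrix
   `θ (∂ j (Z' j'))` is the identity at the origin, so invertible), prime, so zero
   (`eq_bot_of_pderiv`).
5. Put `F' j = F_H j (r X, r Y)`, `N' j = N_H j (r X)`.  All laws and the homomorphism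
   properties follow from injectivity of `ev C w` in one, two, three sets of variables
   (`ev_inj_sum`).
-/

open MvPowerSeries

namespace MLF

universe u

variable {K : Type u} [Field K] (p : ℕ) [Fact p.Prime] [CharP K p] [PerfectField K]
  {τ τ' : Type} [Finite τ] [Finite τ']

namespace DM2b

omit [PerfectField K] in
/-- Steps 1 and 2: coordinates on the image and the dual tangent vectors. -/
theorem exists_coord [Fintype τ'] {f : τ' → MvPowerSeries τ K}
    (hf : ∀ i, constantCoeff (f i) = 0) :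
    ∃ (ρ : Set τ') (ξ : τ' → ρ →₀ K) (r : τ' → MvPowerSeries ρ K),
      (∀ j : ρ, ξ j = Finsupp.single j 1) ∧
      (∀ h : MvPowerSeries τ' K, ev C f h = 0 →
        ∑ i, coeff (Finsupp.single i 1) h • ξ i = 0) ∧
      cmp r (fun j : ρ => f j) = f := by
  let M : Submodule K (MvPowerSeries τ' K) :=
    (RingHom.ker (ev C f : MvPowerSeries τ' K →+* _) ⊔ mX τ' K ^ 2).restrictScalars K
  let v : τ' → MvPowerSeries τ' K ⧸ M := fun i => M.mkQ (X i)
  obtain ⟨ρ, -, -, hspan, hli⟩ :=
    exists_linearIndepOn_extension (linearIndepOn_empty K v) (Set.empty_subset Set.univ)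
  obtain ⟨g, hg⟩ := LinearMap.exists_extend (LinearIndependent.repr hli)
  have hx : ∀ i, ∃ a, ev C f a = 0 ∧
      X i - a ∈ Ideal.span (Set.range fun j : ρ => (X j : MvPowerSeries τ' K)) ⊔ mX τ' K ^ 2 := by
    intro i
    have h1 : v i ∈ Submodule.span K (M.mkQ '' (X '' ρ)) := by
      rw [Set.image_image]
      exact hspan ⟨i, Set.mem_univ _, rfl⟩
    rw [← Submodule.map_span] at h1
    obtain ⟨y, hy, hy'⟩ := h1
    have h2 : X i - y ∈ M := (Submodule.Quotient.eq M).1 hy'.symm
    obtain ⟨a, ha, b, hb, hab⟩ := Submodule.mem_sup.1 h2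
    refine ⟨a, ha, ?_⟩
    have e : X i - a = y + b := by linear_combination -hab
    rw [e]
    refine Submodule.add_mem_sup ?_ hb
    refine (Submodule.span_le.2 ?_ : _ ≤ (Ideal.span (Set.range fun j : ρ =>
      (X j : MvPowerSeries τ' K))).restrictScalars K) hy
    rintro _ ⟨j, hj, rfl⟩
    exact Ideal.subset_span ⟨⟨j, hj⟩, rfl⟩
  choose a ha ha' using hx
  have ha0 : ∀ i, constantCoeff (a i) = 0 := fun i => by rw [← cc_ev hf, ha, map_zero]
  have hc : ∀ i, constantCoeff (Sum.elim (X ∘ Subtype.val) a i : MvPowerSeries τ' K) = 0 :=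
    cc_elim (τ := ρ) (cc_X _) ha0
  have hs := ev_surj hc fun j => by
    have e : (X j : MvPowerSeries τ' K) = (X j - a j) + a j := by ring
    have hle : Ideal.span (Set.range fun j : ρ => (X j : MvPowerSeries τ' K))
        ≤ Ideal.span (Set.range (Sum.elim (X ∘ (Subtype.val : ρ → τ')) a)) := by
      refine Ideal.span_mono ?_
      rintro _ ⟨k, rfl⟩
      exact ⟨.inl k, rfl⟩
    rw [e]
    exact add_mem (sup_le_sup_right hle _ (ha' j))
      (Ideal.mem_sup_left (Ideal.subset_span ⟨.inr j, rfl⟩))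
  choose u hu using fun i => hs (X i)
  refine ⟨ρ, fun i => g (v i), cmp u (Sum.elim X 0), fun j => ?_, fun h hh => ?_, ?_⟩
  · have h1 := LinearMap.congr_fun hg ⟨v j, Submodule.subset_span ⟨j, rfl⟩⟩
    exact h1.trans (LinearIndependent.repr_eq_single _ j _ rfl)
  · have h0 : constantCoeff h = 0 := by rw [← cc_ev hf, hh, map_zero]
    have h1 : ∑ i, coeff (Finsupp.single i 1) h • X i ∈ M := by
      have e : ∑ i, coeff (Finsupp.single i 1) h • (X i : MvPowerSeries τ' K)
        = h - (h - ∑ i, coeff (Finsupp.single i 1) h • X i) := by ring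
      rw [e]
      exact sub_mem (Ideal.mem_sup_left hh) (Ideal.mem_sup_right (lin_mem h0))
    have h2 := congrArg g ((Submodule.Quotient.mk_eq_zero M).2 h1)
    rw [← Submodule.mkQ_apply, map_sum, map_sum, map_zero] at h2
    simpa only [map_smul] using h2
  · have hw : ∀ j : ρ, constantCoeff (f j) = 0 := fun j => hf j
    have e1 : cmp a f = 0 := funext ha
    rw [cmp_cmp _ (cc_elim constantCoeff_X cc_zero) hw, elim_cmp, zero_cmp]
    funext i
    have h1 := congrArg (ev C f) (hu i)
    rw [ev_ev hf hc, elim_cmp, cmp_X hf, e1, (TN.of_cc hf).ev_X] at h1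
    rw [← h1, show cmp X (fun j : ρ => f j) = fun j : ρ => f j from cmp_X (e := id) hw]
    rfl

include p in
/-- Steps 3 and 4: the coordinates are independent. -/
theorem inj_coord [Fintype τ'] {G : FGL K τ} {H : FGL K τ'} {f : τ' → MvPowerSeries τ K}
    (hf : IsHom G H f) {ρ : Set τ'} {ξ : τ' → ρ →₀ K} (h1 : ∀ j : ρ, ξ j = Finsupp.single j 1)
    (h2 : ∀ h : MvPowerSeries τ' K, ev C f h = 0 →
      ∑ i, coeff (Finsupp.single i 1) h • ξ i = 0) :
    Function.Injective (ev C (fun j : ρ => f j) : MvPowerSeries ρ K →+* _) := by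
  classical
  have := Fintype.ofFinite ρ
  have hw : ∀ j : ρ, constantCoeff (f j) = 0 := fun j => hf.cc j
  have hl : ∀ i, constantCoeff (cmp f (X ∘ Sum.inl) i : MvPowerSeries (τ ⊕ τ') K) = 0 :=
    cc_cmp (cc_X _) hf.cc
  let P : τ' → MvPowerSeries (τ ⊕ τ') K := H.add C (cmp f (X ∘ Sum.inl)) (X ∘ Sum.inr)
  have hP : ∀ i, constantCoeff (P i) = 0 := cc_add H hl (cc_X _)
  have h0 : ∀ i, constantCoeff ((Sum.elim X 0 : τ ⊕ τ' → MvPowerSeries τ K) i) = 0 :=
    cc_elim constantCoeff_X cc_zero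
  have h0' : ∀ i, constantCoeff ((Sum.elim 0 X : τ ⊕ τ' → MvPowerSeries τ' K) i) = 0 :=
    cc_elim cc_zero constantCoeff_X
  have hr : ∀ i, constantCoeff (cmp f (X ∘ Sum.inr) i : MvPowerSeries (τ ⊕ τ) K) = 0 :=
    cc_cmp (cc_X _) hf.cc
  have P0 : cmp P (Sum.elim X 0) = f := by
    rw [add_cmp H hl (cc_X _) h0, cmp_inl _ constantCoeff_X cc_zero, cmp_id, cmp_X h0]
    exact add_zero' H hf.cc
  have P1 : cmp P (Sum.elim 0 X) = X := by
    rw [add_cmp H hl (cc_X _) h0', cmp_inl _ cc_zero constantCoeff_X, cmp_zero hf.cc, cmp_X h0']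
    exact zero_add' H constantCoeff_X
  have P2 : cmp P (Sum.elim (X ∘ Sum.inl) (cmp f (X ∘ Sum.inr))) = cmp f G.F := by
    rw [add_cmp H hl (cc_X _) (cc_elim (cc_X _) hr), cmp_inl _ (cc_X _) hr,
      cmp_X (cc_elim (cc_X _) hr)]
    exact funext fun i => (hf.hom i).symm
  let B : τ' → τ' → MvPowerSeries τ K := fun k i =>
    ev C (Sum.elim X 0) (pderiv K (.inr i) (P k))
  have hB : ∀ k i, constantCoeff (B k i) = if i = k then 1 else 0 := fun k i => by
    rw [← coeff_zero_eq_constantCoeff_apply, coeff_der, coeff_zero_eq_constantCoeff_apply,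
      ← ev_zero_inr, show ev C (Sum.elim 0 X) (P k) = X k from congrFun P1 k,
      coeff_index_single_X]
  let M : Matrix ρ ρ (MvPowerSeries τ K) := fun k j => ∑ i, ξ i j • B k i
  have hM : M.det ≠ 0 := by
    intro hd
    have e : (constantCoeff : MvPowerSeries τ K →+* K).mapMatrix M = 1 := by
      ext k j
      change constantCoeff (∑ i, ξ i j • B k i) = _
      simp only [map_sum, smul_eq_C_mul, map_mul,
        constantCoeff_C, hB, mul_ite, mul_one, mul_zero, Finset.sum_ite_eq', Finset.mem_univ,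
        if_true, h1, Finsupp.single_apply, Matrix.one_apply]
    have := (constantCoeff : MvPowerSeries τ K →+* K).map_det M
    rw [hd, e, map_zero, Matrix.det_one] at this
    exact zero_ne_one this
  have : IsDomain (MvPowerSeries τ K) := NoZeroDivisors.to_isDomain _
  rw [RingHom.injective_iff_ker_eq_bot]
  refine eq_bot_of_pderiv p (RingHom.ker_isPrime _).isRadical (RingHom.ker_isPrime _).ne_top
    fun j g hg => ?_
  have hPw : ∀ j : ρ, constantCoeff (P j) = 0 := fun j => hP j
  have key : ∀ d, ev C f (coeff d (Φ τ τ' K (ev C (fun j : ρ => P j) g))) = 0 := fun d => by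
    rw [← coeff_map, ← Φ_ev hf.cc, ev_ev (cc_elim (cc_X _) hr) hPw,
      show cmp (fun j : ρ => P j) (Sum.elim (X ∘ Sum.inl) (cmp f (X ∘ Sum.inr)))
        = cmp (fun j : ρ => f j) G.F from funext fun j => congrFun P2 j, ← ev_ev G.F0 hw,
      RingHom.mem_ker.1 hg, map_zero, map_zero, map_zero]
  have der : ∀ i, ev C (Sum.elim X 0) (pderiv K (.inr i) (ev C (fun j : ρ => P j) g))
      = ∑ k : ρ, ev C (fun j : ρ => f j) (pderiv K k g) * B k i := fun i => by
    rw [der_ev _ hPw, map_sum]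
    refine Finset.sum_congr rfl fun k _ => ?_
    rw [map_mul, ev_ev h0 hPw, show cmp (fun j : ρ => P j) (Sum.elim X 0) = fun j : ρ => f j from
      funext fun j => congrFun P0 j]
  have hv : Matrix.vecMul (fun k : ρ => ev C (fun j : ρ => f j) (pderiv K k g)) M = 0 := by
    funext j
    have e : Matrix.vecMul (fun k : ρ => ev C (fun j : ρ => f j) (pderiv K k g)) M j
        = ∑ i, ξ i j • ev C (Sum.elim X 0) (pderiv K (.inr i) (ev C (fun j : ρ => P j) g)) := by
      simp only [Matrix.vecMul, dotProduct, M, der, Finset.mul_sum, Finset.smul_sum,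
        mul_smul_comm]
      exact Finset.sum_comm
    rw [e]
    ext d
    have h3 := DFunLike.congr_fun (h2 _ (key d)) j
    rw [Finsupp.finsetSum_apply] at h3
    rw [map_sum, Pi.zero_apply, coeff_zero, ← h3.trans (Finsupp.zero_apply)]
    refine Finset.sum_congr rfl fun i _ => ?_
    rw [map_smul, coeff_der, Finsupp.smul_apply, smul_eq_mul, smul_eq_mul, mul_comm]
  exact congrFun (Matrix.eq_zero_of_vecMul_eq_zero hM hv) j

omit [PerfectField K] in
/-- Step 5: the group law on the image. -/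
theorem exists_law {G : FGL K τ} {H : FGL K τ'} {f : τ' → MvPowerSeries τ K}
    (hf : IsHom G H f) {ρ : Set τ'} {r : τ' → MvPowerSeries ρ K}
    (hr : cmp r (fun j : ρ => f j) = f)
    (hi : Function.Injective (ev C (fun j : ρ => f j) : MvPowerSeries ρ K →+* _)) :
    ∃ G' : FGL K ρ, IsHom G G' fun j : ρ => f j := by
  set w : ρ → MvPowerSeries τ K := fun j => f j with hwd
  have hw : ∀ j, constantCoeff (w j) = 0 := fun j => hf.cc j
  have hr0 : ∀ i, constantCoeff (r i) = 0 := fun i => by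
    rw [← cc_ev hw, show ev C w (r i) = f i from congrFun hr i, hf.cc]
  have hl : ∀ i, constantCoeff (cmp r (X ∘ Sum.inl) i : MvPowerSeries (ρ ⊕ ρ) K) = 0 :=
    cc_cmp (cc_X _) hr0
  have hl' : ∀ i, constantCoeff (cmp r (X ∘ Sum.inr) i : MvPowerSeries (ρ ⊕ ρ) K) = 0 :=
    cc_cmp (cc_X _) hr0
  let F : ρ → MvPowerSeries (ρ ⊕ ρ) K := fun j =>
    H.add C (cmp r (X ∘ Sum.inl)) (cmp r (X ∘ Sum.inr)) j
  let N : ρ → MvPowerSeries ρ K := fun j => cmp H.N r j
  have hF : ∀ j, constantCoeff (F j) = 0 := fun j => cc_add H hl hl' j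
  have hN : ∀ j, constantCoeff (N j) = 0 := fun j => cc_cmp hr0 H.N0 j
  have key : ∀ {σ : Type} [Finite σ] {x y : τ → MvPowerSeries σ K},
      (∀ i, constantCoeff (x i) = 0) → (∀ i, constantCoeff (y i) = 0) →
      cmp F (Sum.elim (cmp w x) (cmp w y)) = cmp w (G.add C x y) := by
    intro σ _ x y hx hy
    have e := add_cmp H hl hl' (cc_elim (cc_cmp hx hw) (cc_cmp hy hw))
    rw [cmp_inl _ (cc_cmp hx hw) (cc_cmp hy hw), cmp_inr _ (cc_cmp hx hw) (cc_cmp hy hw),
      ← cmp_cmp _ hw hx, ← cmp_cmp _ hw hy, hr, ← hom_add hf hx hy] at e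
    exact funext fun j => congrFun e j
  have hNw : cmp N w = cmp w G.N := by
    have e := cmp_cmp H.N hr0 hw
    rw [hr, ← hom_neg hf] at e
    exact funext fun j => congrFun e j
  have i2 := ev_inj_sum hw hw hi hi
  have hW : ∀ i, constantCoeff (Sum.elim (cmp w (X ∘ Sum.inl)) (cmp w (X ∘ Sum.inr)) i :
      MvPowerSeries (τ ⊕ τ) K) = 0 := cc_elim (cc_cmp (cc_X _) hw) (cc_cmp (cc_X _) hw)
  have i3 := ev_inj_sum hw hW hi i2
  refine ⟨⟨F, N, hF, hN, fun i => hi ?_, fun i => i2 ?_, fun i => i3 ?_, fun i => hi ?_⟩,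
    hw, fun i => ?_⟩
  · have e := key (x := X) (y := 0) constantCoeff_X cc_zero
    rw [cmp_id, cmp_zero hw, add_zero' G constantCoeff_X, cmp_id] at e
    rw [ev_ev hw (cc_elim constantCoeff_X cc_zero), elim_cmp, zero_cmp, (TN.of_cc hw).ev_X,
      show cmp X w = w from cmp_X (e := id) hw]
    exact congrFun e i
  · have e := key (σ := τ ⊕ τ) (x := X ∘ Sum.inr) (y := X ∘ Sum.inl) (cc_X _) (cc_X _)
    rw [add_comm' G (cc_X _) (cc_X _), ← key (cc_X _) (cc_X _)] at e
    refine (ev_ev hW (cc_elim (cc_X _) (cc_X _)) _).trans ?_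
    rw [elim_cmp, cmp_X hW, cmp_X hW]
    exact congrFun e i
  · let x : τ → MvPowerSeries (τ ⊕ τ ⊕ τ) K := X ∘ Sum.inl
    let y : τ → MvPowerSeries (τ ⊕ τ ⊕ τ) K := X ∘ Sum.inr ∘ Sum.inl
    let z : τ → MvPowerSeries (τ ⊕ τ ⊕ τ) K := X ∘ Sum.inr ∘ Sum.inr
    have hx : ∀ i, constantCoeff (x i) = 0 := cc_X _
    have hy : ∀ i, constantCoeff (y i) = 0 := cc_X _
    have hz : ∀ i, constantCoeff (z i) = 0 := cc_X _
    have e3 : (Sum.elim (fun i => ev C (X ∘ Sum.inl) (w i)) fun i => ev C (X ∘ Sum.inr)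
        (Sum.elim (cmp w (X ∘ Sum.inl)) (cmp w (X ∘ Sum.inr)) i))
        = Sum.elim (cmp w x) (Sum.elim (cmp w y) (cmp w z)) := by
      have e := elim_cmp (cmp w (X ∘ Sum.inl)) (cmp w (X ∘ Sum.inr))
        (X ∘ Sum.inr : τ ⊕ τ → MvPowerSeries (τ ⊕ τ ⊕ τ) K)
      rw [cmp_cmp _ (cc_X _) (cc_X _), cmp_cmp _ (cc_X _) (cc_X _), cmp_X (cc_X _),
        cmp_X (cc_X _)] at e
      exact congrArg (Sum.elim (cmp w x)) e
    have hW3 : ∀ i, constantCoeff (Sum.elim (cmp w x) (Sum.elim (cmp w y) (cmp w z)) i) = 0 :=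
      cc_elim (cc_cmp hx hw) (cc_elim (cc_cmp hy hw) (cc_cmp hz hw))
    have a1 : ∀ i, constantCoeff (cmp F (Sum.elim (X ∘ Sum.inl) (X ∘ Sum.inr ∘ Sum.inl)) i :
        MvPowerSeries (ρ ⊕ ρ ⊕ ρ) K) = 0 := cc_cmp (cc_elim (cc_X _) (cc_X _)) hF
    have a2 : ∀ i, constantCoeff (cmp F (Sum.elim (X ∘ Sum.inr ∘ Sum.inl)
        (X ∘ Sum.inr ∘ Sum.inr)) i : MvPowerSeries (ρ ⊕ ρ ⊕ ρ) K) = 0 :=
      cc_cmp (cc_elim (cc_X _) (cc_X _)) hF
    rw [e3]
    refine (ev_ev hW3 (cc_elim a1 (cc_X _)) _).trans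
      (Eq.trans ?_ (ev_ev hW3 (cc_elim (cc_X _) a2) _).symm)
    rw [elim_cmp, elim_cmp, cmp_cmp _ (cc_elim (cc_X _) (cc_X _)) hW3,
      cmp_cmp _ (cc_elim (cc_X _) (cc_X _)) hW3, elim_cmp, elim_cmp, cmp_X hW3, cmp_X hW3,
      cmp_X hW3]
    change cmp F (Sum.elim (cmp F (Sum.elim (cmp w x) (cmp w y))) (cmp w z)) i
      = cmp F (Sum.elim (cmp w x) (cmp F (Sum.elim (cmp w y) (cmp w z)))) i
    rw [key hx hy, key hy hz, key (cc_add G hx hy) hz, key hx (cc_add G hy hz),
      add_assoc' G hx hy hz]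
  · have e := key (x := G.N) (y := X) G.N0 constantCoeff_X
    have e' := neg_add' G (x := X) constantCoeff_X
    rw [cmp_id] at e'
    rw [cmp_id, e', cmp_zero hw] at e
    rw [ev_ev hw (cc_elim hN constantCoeff_X), elim_cmp, hNw, map_zero,
      show cmp X w = w from cmp_X (e := id) hw]
    exact congrFun e i
  · have e := key (σ := τ ⊕ τ) (x := X ∘ Sum.inl) (y := X ∘ Sum.inr) (cc_X _) (cc_X _)
    rw [add_eq, Sum.elim_comp_inl_inr, cmp_id] at e
    exact (congrFun e i).symm

end DM2b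

include p in
theorem IsHom.image {G : FGL K τ} {H : FGL K τ'} {f : τ' → MvPowerSeries τ K}
    (hf : IsHom G H f) : ∃ (ρ : Set τ') (G' : FGL K ρ) (r : τ' → MvPowerSeries ρ K),
      IsHom G G' (fun j : ρ => f j) ∧ IsHom G' H r ∧ cmp r (fun j : ρ => f j) = f ∧
      Function.Injective (ev C (fun j : ρ => f j) : MvPowerSeries ρ K →+* _) := by
  have := Fintype.ofFinite τ'
  obtain ⟨ρ, ξ, r, h1, h2, h3⟩ := DM2b.exists_coord hf.cc
  have hi := DM2b.inj_coord p hf h1 h2
  obtain ⟨G', hG'⟩ := DM2b.exists_law hf h3 hi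
  exact ⟨ρ, G', r, hG', hG'.of_cmp hi (by rw [h3]; exact hf), h3, hi⟩

end MLF
end

-- merged part: Pool.Agent.Work.MP_29d410_ag.DM3
section
/-!
# Degrees; a power of Frobenius factors through an isogeny

Plan.
* `finite_of_primary`: if `𝔪 ^ N ⊆ (f)` then `K⟦Z⟧` is generated by the monomials of degree `< N`
  over the image of `ev C f` (successive approximation: write `h = poly + ∑ f i * h i`, iterate;
  the resulting coefficients are Cauchy in `K⟦Z'⟧`).
* `card_eq`: `𝕄 = Frac K⟦Z⟧` has degree `p ^ card τ` over `𝕄 ^ p` (`exists_pow_decomp`, clear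
  denominators by `p`-th powers; independence by comparing coefficients); this degree is
  invariant under finite extensions.
* `frob_factor`: let `𝕄' ≤ 𝕄` be the fraction field of the image of `ev C f`, finite index.  The
  chain `𝕄 k = 𝕄' ⊔ 𝕄 ^ (p ^ k)` decreases, so `𝕄 (k+1) = 𝕄 k` for some `k`.  Apply
  `IsHom.image` to `(f, X ^ p ^ k) : G → H × G^(p^k)` (`FGL.prod_aux`): `G → G' → H`, and the
  fraction field of the image of `K⟦G'⟧` is `𝕄 k` (`exists_pow_decomp` shows that the image ring is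
  generated by the `f i` over `K⟦Z ^ p ^ k⟧`).  If the linear parts of the components `r i` of
  `G' → H` did not span, a nonzero invariant derivation of `G'` would kill all `r i` (as in
  `IsHom.pderiv_eq_zero`), hence `𝕄'` and `(𝕄 k) ^ p`, hence `𝕄 (k+1) = 𝕄 k`: absurd.  So
  `ev C r` is onto (`ev_surj`) and `X i ^ p ^ k` lies in the image of `ev C f`.
* `mul_inj`: apply `IsHom.image` to `[p]`; `card_eq` gives `ρ = univ`.
-/

open MvPowerSeries

namespace MLF

universe u

variable {K : Type u} [Field K] (p : ℕ) [Fact p.Prime] [CharP K p] [PerfectField K]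
  {τ τ' : Type} [Finite τ] [Finite τ']

section DM3aux

theorem DM3_mem_pi {R : Type u} [CommRing R] {ι : Type} [Finite ι] (I : Ideal R) (x : ι → R) :
    x ∈ (I • ⊤ : Submodule R (ι → R)) ↔ ∀ i, x i ∈ I := by
  classical
  have := Fintype.ofFinite ι
  constructor
  · intro hx i
    refine Submodule.smul_induction_on hx (fun r hr y _ => ?_) fun y z hy hz => ?_
    · exact I.mul_mem_right _ hr
    · exact I.add_mem hy hz
  · intro hx
    rw [pi_eq_sum_univ' x]
    exact Submodule.sum_mem _ fun i _ => Submodule.smul_mem_smul (hx i) Submodule.mem_top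

theorem DM3_prec_pi {R : Type u} [CommRing R] {ι : Type} [Finite ι] (I : Ideal R)
    [IsPrecomplete I R] : IsPrecomplete I (ι → R) := by
  refine ⟨fun f hf => ?_⟩
  have h : ∀ i, ∃ L : R, ∀ n, f n i ≡ L [SMOD (I ^ n • ⊤ : Submodule R R)] := fun i =>
    IsPrecomplete.prec' (fun n => f n i) fun {m n} hmn => by
      have := hf hmn
      rw [SModEq.sub_mem, DM3_mem_pi] at this
      rw [SModEq.sub_mem, smul_eq_mul, Ideal.mul_top]
      exact this i
  choose L hL using h
  refine ⟨L, fun n => ?_⟩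
  rw [SModEq.sub_mem, DM3_mem_pi]
  intro i
  have := hL i n
  rwa [SModEq.sub_mem, smul_eq_mul, Ideal.mul_top] at this

/-- Topological Nakayama lemma. -/
theorem DM3_finite {R M : Type u} [CommRing R] [AddCommGroup M] [Module R M] (I : Ideal R)
    [IsPrecomplete I R] [IsHausdorff I M] {ι : Type} [Fintype ι] (v : ι → M)
    (h : ∀ m : M, ∃ c : ι → R, m - ∑ i, c i • v i ∈ (I • ⊤ : Submodule R M)) :
    Module.Finite R M := by
  have := DM3_prec_pi (ι := ι) I
  refine Module.Finite.of_surjective (Fintype.linearCombination R v)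
    (surjective_of_mkQ_comp_surjective (I := I) fun y => ?_)
  obtain ⟨m, rfl⟩ := Submodule.mkQ_surjective _ y
  obtain ⟨c, hc⟩ := h m
  refine ⟨c, ?_⟩
  rw [LinearMap.comp_apply, Submodule.mkQ_apply, Submodule.mkQ_apply, eq_comm,
    Submodule.Quotient.eq, Fintype.linearCombination_apply]
  exact hc

end DM3aux

omit [PerfectField K] in
theorem finite_of_primary {f : τ' → MvPowerSeries τ K} (hf : ∀ i, constantCoeff (f i) = 0) {N : ℕ}
    (h : ∀ i, X i ^ N ∈ Ideal.span (Set.range f)) :
    (ev C f : MvPowerSeries τ' K →+* MvPowerSeries τ K).Finite := by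
  classical
  have htn : TN f := TN.of_cc hf
  let := (ev C f : MvPowerSeries τ' K →+* MvPowerSeries τ K).toAlgebra
  have halg : algebraMap (MvPowerSeries τ' K) (MvPowerSeries τ K) = ev C f := rfl
  have hmap : (mX τ' K).map (algebraMap (MvPowerSeries τ' K) (MvPowerSeries τ K)) =
      Ideal.span (Set.range f) := by
    rw [Ideal.map_span, ← Set.range_comp, halg]
    congr 2
    funext i
    exact htn.ev_X C i
  have hle : Ideal.span (Set.range f) ≤ mX τ K := by
    rw [Ideal.span_le, Set.range_subset_iff]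
    exact fun i => mem_mX.2 (hf i)
  have : IsHausdorff (mX τ' K) (MvPowerSeries τ K) :=
    IsHausdorff.of_map (S := MvPowerSeries τ K) (J := mX τ K) (hmap.le.trans hle)
  obtain ⟨n, hn⟩ : ∃ n, mX τ K ^ n ≤ Ideal.span (Set.range f) := by
    refine Ideal.exists_pow_le_of_le_radical_of_fg ?_ (Submodule.fg_span (Set.finite_range _))
    rw [Ideal.span_le, Set.range_subset_iff]
    exact fun i => ⟨N, h i⟩
  have hfin := Finsupp.finite_of_degree_lt (σ := τ) n
  refine DM3_finite (mX τ' K) (ι := hfin.toFinset)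
    (fun d => (monomial d.1 1 : MvPowerSeries τ K)) fun m => ⟨fun d => C (coeff d.1 m), ?_⟩
  rw [Ideal.smul_top_eq_map, Submodule.restrictScalars_mem, hmap]
  refine hn (mem_mX_pow.2 fun d hd => ?_)
  have e : ∀ d' : hfin.toFinset, (C (coeff d'.1 m) : MvPowerSeries τ' K) •
      (monomial d'.1 1 : MvPowerSeries τ K) = monomial d'.1 (coeff d'.1 m) := fun d' => by
    rw [Algebra.smul_def, halg, htn.ev_C, ← monomial_zero_eq_C_apply, monomial_mul_monomial,
      zero_add, mul_one]
  simp only [e]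
  rw [map_sub, map_sum, Finset.sum_eq_single ⟨d, hfin.mem_toFinset.2 hd⟩, coeff_monomial_same,
    sub_self]
  · intro b _ hb
    exact coeff_monomial_ne (fun e => hb (Subtype.ext e.symm)) _
  · exact fun h => absurd (Finset.mem_univ _) h

section DM3frob
variable [Fintype τ] [DecidableEq τ]

omit [PerfectField K] [DecidableEq τ] [Fact p.Prime] [CharP K p] in
theorem DM3_prod_X (α : τ → Fin p) :
    (∏ i, X i ^ (α i : ℕ) : MvPowerSeries τ K) =
      monomial (Finsupp.equivFunOnFinite.symm fun i => (α i : ℕ)) 1 := by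
  classical
  simp only [X_pow_eq]
  rw [prod_monomial, Finset.prod_const_one]
  congr 2
  ext j
  simp [Finsupp.finsetSum_apply, Finsupp.single_apply]

omit [PerfectField K] in
/-- The monomials with exponents below `p` are independent over the `p`-th powers. -/
theorem DM3_indep {g : (τ → Fin p) → MvPowerSeries τ K}
    (h : ∑ α, (∏ i, X i ^ (α i : ℕ)) * g α ^ p = 0) (α : τ → Fin p) : g α = 0 := by
  have hp : p ≠ 0 := (Fact.out : p.Prime).ne_zero
  ext d
  have h1 := congrArg (coeff ((Finsupp.equivFunOnFinite.symm fun i => (α i : ℕ)) + p • d)) h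
  rw [map_sum, Finset.sum_eq_single α, DM3_prod_X, coeff_add_monomial_mul, one_mul,
    ← map_frobenius_expand p hp, coeff_map, coeff_expand_smul, map_zero] at h1
  · simpa [frobenius_def, hp] using h1
  · intro β _ hβ
    rw [DM3_prod_X, coeff_monomial_mul]
    split_ifs with hle
    · obtain ⟨i, hi⟩ := Function.ne_iff.1 hβ
      rw [← map_frobenius_expand p hp, coeff_map, coeff_expand_of_not_dvd p hp _ (i := i),
        map_zero, mul_zero]
      intro hd
      have h2 := hle i
      simp only [Finsupp.coe_tsub, Pi.sub_apply, Finsupp.coe_add, Pi.add_apply,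
        Finsupp.equivFunOnFinite_symm_apply_apply, Finsupp.coe_smul, Pi.smul_apply,
        smul_eq_mul] at hd h2
      have h3 : (β i : ℕ) ≡ α i + p * d i [MOD p] := (Nat.modEq_iff_dvd' h2).2 hd
      rw [Nat.ModEq, Nat.add_mul_mod_self_left, Nat.mod_eq_of_lt (β i).2,
        Nat.mod_eq_of_lt (α i).2] at h3
      exact hi (Fin.ext h3)
    · rfl
  · exact fun h => absurd (Finset.mem_univ _) h

theorem DM3_decomp (h : MvPowerSeries τ K) : ∃ g : (τ → Fin p) → MvPowerSeries τ K,
    h = ∑ α, (∏ i, X i ^ (α i : ℕ)) * g α ^ p := by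
  have := exists_pow_decomp p 1 h
  generalize hq : p ^ 1 = q at this
  rw [pow_one] at hq
  subst hq
  exact this.imp fun g hg => hg.1

end DM3frob

theorem relfinrank_frob (M : Type u) [Field M] [Algebra (MvPowerSeries τ K) M]
    [IsFractionRing (MvPowerSeries τ K) M] [CharP M p] :
    (frobenius M p).fieldRange.relfinrank ⊤ = p ^ Nat.card τ := by
  classical
  have := Fintype.ofFinite τ
  have hp : p ≠ 0 := (Fact.out : p.Prime).ne_zero
  have hinj := IsFractionRing.injective (MvPowerSeries τ K) M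
  let v : (τ → Fin p) → M := fun α =>
    algebraMap (MvPowerSeries τ K) M (∏ i, X i ^ (α i : ℕ))
  have hli : LinearIndependent (frobenius M p).fieldRange v := by
    rw [Fintype.linearIndependent_iff]
    intro c hc α
    choose a ha using fun α => (c α).2
    obtain ⟨b, hb⟩ := IsLocalization.exist_integer_multiples_of_finite
      (nonZeroDivisors (MvPowerSeries τ K)) a
    choose g hg using hb
    have hg' : ∀ α, algebraMap (MvPowerSeries τ K) M (g α) =
        algebraMap (MvPowerSeries τ K) M b * a α := fun α => by rw [hg, Algebra.smul_def]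
    have h0 : ∑ α : τ → Fin p, (∏ i, X i ^ (α i : ℕ)) * g α ^ p = 0 := by
      apply hinj
      rw [map_sum, map_zero, ← mul_zero (algebraMap (MvPowerSeries τ K) M b ^ p), ← hc,
        Finset.mul_sum]
      refine Finset.sum_congr rfl fun β _ => ?_
      rw [map_mul, map_pow _ (g β), hg', mul_pow, Subfield.smul_def, smul_eq_mul, ← ha,
        frobenius_def]
      simp only [v]
      ring
    have h1 := hg' α
    rw [DM3_indep p h0 α, map_zero, eq_comm, mul_eq_zero] at h1
    have hb0 : algebraMap (MvPowerSeries τ K) M b ≠ 0 :=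
      IsFractionRing.to_map_ne_zero_of_mem_nonZeroDivisors b.2
    apply Subtype.ext
    rw [← ha, h1.resolve_left hb0, map_zero]
    rfl
  have hsp : ⊤ ≤ Submodule.span (frobenius M p).fieldRange (Set.range v) := by
    intro z _
    obtain ⟨a, b, hb, rfl⟩ := IsFractionRing.div_surjective (A := MvPowerSeries τ K) z
    have hb0 : algebraMap (MvPowerSeries τ K) M b ≠ 0 :=
      IsFractionRing.to_map_ne_zero_of_mem_nonZeroDivisors hb
    obtain ⟨g, hg⟩ := DM3_decomp p (a * b ^ (p - 1))
    rw [Submodule.mem_span_range_iff_exists_fun]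
    refine ⟨fun α => ⟨frobenius M p (algebraMap _ M (g α) / algebraMap _ M b), _, rfl⟩, ?_⟩
    have h1 := congrArg (algebraMap (MvPowerSeries τ K) M) hg
    rw [map_mul, map_pow, map_sum] at h1
    have h2 : algebraMap (MvPowerSeries τ K) M b ^ p =
        algebraMap (MvPowerSeries τ K) M b ^ (p - 1) * algebraMap (MvPowerSeries τ K) M b := by
      rw [← pow_succ, Nat.sub_add_cancel (Nat.pos_of_ne_zero hp)]
    rw [← mul_div_mul_left _ _ (pow_ne_zero (p - 1) hb0), ← h2, mul_comm, h1, Finset.sum_div]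
    refine Finset.sum_congr rfl fun β _ => ?_
    change (algebraMap _ M (g β) / algebraMap _ M b) ^ p * v β = _
    rw [map_mul, map_pow _ (g β), div_pow]
    simp only [v]
    ring
  rw [Subfield.relfinrank_top_right, Module.finrank_eq_card_basis (Module.Basis.mk hli hsp),
    Fintype.card_fun, Fintype.card_fin, Nat.card_eq_fintype_card]

/-- The degree over the `p`-th powers is invariant under finite extensions. -/
theorem DM3_frob_eq {M M' : Type u} [Field M] [Field M'] [CharP M p] [CharP M' p] [Algebra M' M]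
    [Module.Finite M' M] :
    (frobenius M' p).fieldRange.relfinrank ⊤ = (frobenius M p).fieldRange.relfinrank ⊤ := by
  set ψ := algebraMap M' M
  have hm : ψ.fieldRange.relfinrank ⊤ ≠ 0 := by
    rw [Subfield.relfinrank_top_right, ← Algebra.finrank_eq_of_equiv_equiv
      ψ.rangeRestrictFieldEquiv (RingEquiv.refl M) (by ext; simp; rfl)]
    exact Module.finrank_pos.ne'
  have e : (frobenius M' p).fieldRange.map ψ = ψ.fieldRange.map (frobenius M p) := by
    rw [RingHom.map_fieldRange, RingHom.map_fieldRange]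
    congr 1
    ext x
    simp [frobenius_def]
  have h1 : (ψ.fieldRange.map (frobenius M p)).relfinrank ψ.fieldRange =
      (frobenius M' p).fieldRange.relfinrank ⊤ := by
    rw [← e, RingHom.fieldRange_eq_map ψ, Subfield.relfinrank_map_map]
  have h2 : (ψ.fieldRange.map (frobenius M p)).relfinrank (frobenius M p).fieldRange =
      ψ.fieldRange.relfinrank ⊤ := by
    rw [RingHom.fieldRange_eq_map (frobenius M p), Subfield.relfinrank_map_map]
  have l1 : ψ.fieldRange.map (frobenius M p) ≤ ψ.fieldRange := by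
    rintro _ ⟨x, hx, rfl⟩
    exact pow_mem hx p
  have l2 : ψ.fieldRange.map (frobenius M p) ≤ (frobenius M p).fieldRange := by
    rintro _ ⟨x, _, rfl⟩
    exact ⟨x, rfl⟩
  have h3 := Subfield.relfinrank_mul_relfinrank l1 (le_top : ψ.fieldRange ≤ ⊤)
  have h4 := Subfield.relfinrank_mul_relfinrank l2 (le_top : (frobenius M p).fieldRange ≤ ⊤)
  rw [h1] at h3
  rw [h2, ← h3, mul_comm] at h4
  exact (mul_right_cancel₀ hm h4).symm

attribute [local instance] FractionRing.liftAlgebra in
include p in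
theorem card_eq {θ : MvPowerSeries τ' K →+* MvPowerSeries τ K} (hi : Function.Injective θ)
    (hf : θ.Finite) : Nat.card τ' = Nat.card τ := by
  let := θ.toAlgebra
  have : Module.Finite (MvPowerSeries τ' K) (MvPowerSeries τ K) := hf
  have : FaithfulSMul (MvPowerSeries τ' K) (MvPowerSeries τ K) :=
    (faithfulSMul_iff_algebraMap_injective _ _).2 hi
  have c1 : CharP (FractionRing (MvPowerSeries τ K)) p :=
    charP_of_injective_ringHom (f := (algebraMap (MvPowerSeries τ K) _).comp C)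
      (RingHom.injective _) p
  have c2 : CharP (FractionRing (MvPowerSeries τ' K)) p :=
    charP_of_injective_ringHom (f := (algebraMap (MvPowerSeries τ' K) _).comp C)
      (RingHom.injective _) p
  have : Module.IsTorsionFree (MvPowerSeries τ' K) (MvPowerSeries τ K) := inferInstance
  have : IsDomain (MvPowerSeries τ' K) := NoZeroDivisors.to_isDomain _
  have : IsDomain (MvPowerSeries τ K) := NoZeroDivisors.to_isDomain _
  have : FiniteDimensional (FractionRing (MvPowerSeries τ' K))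
    (FractionRing (MvPowerSeries τ K)) := inferInstance
  have h := DM3_frob_eq p (M := FractionRing (MvPowerSeries τ K))
    (M' := FractionRing (MvPowerSeries τ' K))
  rw [relfinrank_frob (K := K) (τ := τ) p (FractionRing (MvPowerSeries τ K)),
    relfinrank_frob (K := K) (τ := τ') p (FractionRing (MvPowerSeries τ' K))] at h
  exact Nat.pow_right_injective (Fact.out : p.Prime).two_le h

end MLF
end
end

-- merged part: Pool.Agent.Work.MP_29d410_ag.DM3b
section
-- merged part: Pool.Agent.Work.MP_29d410_ag.DM3b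
section
/-!
# Degrees; a power of Frobenius factors through an isogeny

Plan.
* `finite_of_primary`: if `𝔪 ^ N ⊆ (f)` then `K⟦Z⟧` is generated by the monomials of degree `< N`
  over the image of `ev C f` (successive approximation: write `h = poly + ∑ f i * h i`, iterate;
  the resulting coefficients are Cauchy in `K⟦Z'⟧`).
* `card_eq`: `𝕄 = Frac K⟦Z⟧` has degree `p ^ card τ` over `𝕄 ^ p` (`exists_pow_decomp`, clear
  denominators by `p`-th powers; independence by comparing coefficients); this degree is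
  invariant under finite extensions.
* `frob_factor`: let `𝕄' ≤ 𝕄` be the fraction field of the image of `ev C f`, finite index.  The
  chain `𝕄 k = 𝕄' ⊔ 𝕄 ^ (p ^ k)` decreases, so `𝕄 (k+1) = 𝕄 k` for some `k`.  Apply
  `IsHom.image` to `(f, X ^ p ^ k) : G → H × G^(p^k)` (`FGL.prod_aux`): `G → G' → H`, and the
  fraction field of the image of `K⟦G'⟧` is `𝕄 k` (`exists_pow_decomp` shows that the image ring is
  generated by the `f i` over `K⟦Z ^ p ^ k⟧`).  If the linear parts of the components `r i` of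
  `G' → H` did not span, a nonzero invariant derivation of `G'` would kill all `r i` (as in
  `IsHom.pderiv_eq_zero`), hence `𝕄'` and `(𝕄 k) ^ p`, hence `𝕄 (k+1) = 𝕄 k`: absurd.  So
  `ev C r` is onto (`ev_surj`) and `X i ^ p ^ k` lies in the image of `ev C f`.
* `mul_inj`: apply `IsHom.image` to `[p]`; `card_eq` gives `ρ = univ`.
-/

open MvPowerSeries

namespace MLF

universe u

variable {K : Type u} [Field K] (p : ℕ) [Fact p.Prime] [CharP K p] [PerfectField K]
  {τ τ' : Type} [Finite τ] [Finite τ']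

set_option linter.unusedSectionVars false

section Aux

variable {σ σ' σ'' : Type} [Finite σ] [Finite σ'] [Finite σ'']

theorem DM3b_ev_ev {x : σ → MvPowerSeries σ' K} (hx : ∀ i, constantCoeff (x i) = 0)
    {y : σ'' → MvPowerSeries σ K} (hy : ∀ i, constantCoeff (y i) = 0) (h : MvPowerSeries σ'' K) :
    ev C x (ev C y h) = ev C (fun j => ev C x (y j)) h :=
  ev_cmp (g := fun _ : Unit => h) hy C (TN.of_cc hx) ()

theorem DM3b_cc_ev {x : σ → MvPowerSeries σ' K} (hx : ∀ i, constantCoeff (x i) = 0)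
    (h : MvPowerSeries σ K) : constantCoeff (ev C x h) = constantCoeff h := by
  have e : (constantCoeff ∘ x : σ → K) = 0 := funext hx
  have h0 : TN (constantCoeff ∘ x : σ → K) := TN.of_nil fun i => by rw [e]; exact IsNilpotent.zero
  rw [(TN.of_cc hx).map_ev constantCoeff h0, e, ev_zero]
  simp

theorem DM3b_ev_X (h : MvPowerSeries σ K) : ev C (X : σ → MvPowerSeries σ K) h = h := by
  have := ev_C_X (RingHom.id K) h
  simpa using this

theorem DM3b_ev_rename {x : σ → MvPowerSeries σ' K} (hx : ∀ i, constantCoeff (x i) = 0)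
    (e : σ'' → σ) (h : MvPowerSeries σ'' K) :
    ev C x (ev C (X ∘ e) h) = ev C (x ∘ e) h := by
  rw [DM3b_ev_ev hx fun i => by simp]
  congr 2
  funext j
  exact (TN.of_cc hx).ev_X C _

theorem DM3b_exists_der (ξ : σ → K) :
    ∃ D : Derivation K (MvPowerSeries σ K) (MvPowerSeries σ K), ∀ j, D (X j) = C (ξ j) := by
  classical
  have := Fintype.ofFinite σ
  refine ⟨∑ l, ξ l • pderiv K l, fun j => ?_⟩
  have h1 := congrFun (map_sum (Derivation.coeFnAddMonoidHom (R := K) (A := MvPowerSeries σ K)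
    (M := MvPowerSeries σ K)) (fun l => ξ l • pderiv K l) Finset.univ) (X j)
  simp only [Derivation.coeFnAddMonoidHom_apply, Finset.sum_apply, Derivation.smul_apply] at h1
  rw [h1, Finset.sum_eq_single j]
  · simp [smul_eq_C_mul]
  · intro l _ hl
    rw [pderiv_X_of_ne hl.symm, smul_zero]
  · simp

theorem DM3b_cc_pderiv (j : σ) (g : MvPowerSeries σ K) :
    constantCoeff (pderiv K j g) = coeff (Finsupp.single j 1) g := by
  rw [← coeff_zero_eq_constantCoeff_apply, coeff_pderiv]
  simp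

/-- If the powers of the variables are values of a substitution, so are the powers of all
series. -/
theorem DM3b_pow_mem {f : σ' → MvPowerSeries σ K} (hf : ∀ i, constantCoeff (f i) = 0) {b : ℕ}
    (h : ∀ i, X i ^ p ^ b ∈ (ev C f : MvPowerSeries σ' K →+* _).range) (g : MvPowerSeries σ K) :
    g ^ p ^ b ∈ (ev C f : MvPowerSeries σ' K →+* _).range := by
  choose Ξ hΞ using h
  have hp : p ^ b ≠ 0 := pow_ne_zero _ (Fact.out : p.Prime).ne_zero
  have h0 : ∀ i, constantCoeff (Ξ i) = 0 := fun i => by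
    rw [← DM3b_cc_ev hf, hΞ, map_pow, constantCoeff_X, zero_pow hp]
  refine ⟨ev C Ξ (map (iterateFrobenius K p b) g), ?_⟩
  rw [DM3b_ev_ev hf h0, pow_eq_ev p b g]
  congr 2
  exact funext hΞ

theorem DM3b_surj_or {f : σ' → MvPowerSeries σ K} (hf : ∀ i, constantCoeff (f i) = 0)
    [Fintype σ] : Function.Surjective (ev C f : MvPowerSeries σ' K →+* _) ∨
      ∃ ξ : σ → K, ξ ≠ 0 ∧ ∀ i, ∑ j, coeff (Finsupp.single j 1) (f i) * ξ j = 0 := by
  classical
  have := Fintype.ofFinite σ'
  let lin : σ' → σ → K := fun i j => coeff (Finsupp.single j 1) (f i)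
  rcases (le_top (a := Submodule.span K (Set.range lin))).eq_or_lt with h | h
  · refine Or.inl (ev_surj hf fun j => ?_)
    have h1 : (Pi.single j 1 : σ → K) ∈ Submodule.span K (Set.range lin) := h ▸ Submodule.mem_top
    obtain ⟨c, hc⟩ := (Submodule.mem_span_range_iff_exists_fun K).1 h1
    have e : (X j : MvPowerSeries σ K) = ∑ i, C (c i) * f i + (X j - ∑ i, C (c i) * f i) := by ring
    rw [e]
    refine Submodule.add_mem_sup (Ideal.sum_mem _ fun i _ =>
      Ideal.mul_mem_left _ _ (Ideal.subset_span ⟨i, rfl⟩)) (mem_mX_pow.2 fun d hd => ?_)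
    simp only [map_sub, map_sum, coeff_C_mul]
    rcases Nat.lt_succ_iff_lt_or_eq.1 hd with hd | hd
    · have : d = 0 := (Finsupp.degree_eq_zero_iff d).1 (by omega)
      subst this
      simp [hf]
    · obtain ⟨l, rfl⟩ : ∃ l, d = Finsupp.single l 1 := by
        have : d ∈ {d : σ →₀ ℕ | d.degree = 1} := hd
        rw [← Finsupp.range_single_one] at this
        obtain ⟨l, hl⟩ := this
        exact ⟨l, hl.symm⟩
      have h2 := congrFun hc l
      simp only [Finset.sum_apply, Pi.smul_apply, smul_eq_mul, lin] at h2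
      rw [h2, coeff_X, Pi.single_apply]
      simp [Finsupp.single_left_inj]
  · obtain ⟨φ, hφ, hle⟩ := Submodule.exists_le_ker_of_lt_top _ h
    refine Or.inr ⟨fun j => φ (fun l => if j = l then 1 else 0), fun h0 => hφ ?_, fun i => ?_⟩
    · refine LinearMap.ext fun v => ?_
      rw [LinearMap.pi_apply_eq_sum_univ]
      refine Finset.sum_eq_zero fun j _ => ?_
      rw [congrFun h0 j]
      simp
    · have h1 : φ (lin i) = 0 := hle (Submodule.subset_span ⟨i, rfl⟩)
      rw [LinearMap.pi_apply_eq_sum_univ] at h1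
      simpa using h1

/-- An invariant derivation which kills the components of a homomorphism. -/
theorem DM3b_exists_inv {G : FGL K σ} {H : FGL K σ'} {f : σ' → MvPowerSeries σ K}
    (hf : IsHom G H f) [Fintype σ] (ξ : σ → K)
    (hξ : ∀ i, ∑ j, coeff (Finsupp.single j 1) (f i) * ξ j = 0) :
    ∃ D : MvPowerSeries σ K →+ MvPowerSeries σ K, (∀ a b, D (a * b) = a * D b + b * D a) ∧
      (∀ i, D (f i) = 0) ∧ (∀ a, D (a ^ p) = 0) ∧ (∀ j, constantCoeff (D (X j)) = ξ j) ∧
      ∀ (ρ : Type) [Finite ρ] (w : ρ → MvPowerSeries σ K), (∀ j, constantCoeff (w j) = 0) →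
        (∀ j, D (w j) = 0) → ∀ h, D (ev C w h) = 0 := by
  classical
  have := Fintype.ofFinite σ'
  obtain ⟨Δ, hΔ⟩ := DM3b_exists_der (K := K) (Sum.elim 0 ξ : σ ⊕ σ → K)
  have hπ0 : ∀ i, constantCoeff ((Sum.elim X 0 : σ ⊕ σ → MvPowerSeries σ K) i) = 0 := by
    rintro (i | i) <;> simp
  let π : MvPowerSeries (σ ⊕ σ) K →+* MvPowerSeries σ K := ev C (Sum.elim X 0)
  let μ : MvPowerSeries σ K →+* MvPowerSeries (σ ⊕ σ) K := ev C G.F
  have hπμ : ∀ a, π (μ a) = a := fun a => by
    simp only [π, μ]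
    rw [DM3b_ev_ev hπ0 G.F0, funext G.zero, DM3b_ev_X]
  have hπC : ∀ c, π (C c) = C c := fun c => (TN.of_cc hπ0).ev_C C c
  have key : ∀ (ρ : Type) [Finite ρ] (w : ρ → MvPowerSeries (σ ⊕ σ) K),
      (∀ j, constantCoeff (w j) = 0) → (∀ j, π (Δ (w j)) = 0) → ∀ h, π (Δ (ev C w h)) = 0 := by
    intro ρ _ w hw hw' h
    have := Fintype.ofFinite ρ
    rw [der_ev Δ hw, map_sum]
    exact Finset.sum_eq_zero fun j _ => by rw [map_mul, hw', mul_zero]
  refine ⟨π.toAddMonoidHom.comp ((Δ : _ →ₗ[K] _).toAddMonoidHom.comp μ.toAddMonoidHom),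
    fun a b => ?_, fun i => ?_, fun a => ?_, fun j => ?_, fun ρ _ w hw hw' h => ?_⟩
  · change π (Δ (μ (a * b))) = a * π (Δ (μ b)) + b * π (Δ (μ a))
    rw [map_mul, Derivation.leibniz, map_add, smul_eq_mul, smul_eq_mul, map_mul, map_mul, hπμ, hπμ]
  · change π (Δ (ev C G.F (f i))) = 0
    rw [hf.hom i, FGL.add]
    refine key _ _ ?_ ?_ _
    · rintro (l | l)
      · exact (DM3b_cc_ev (fun i => by simp) _).trans (hf.cc l)
      · exact (DM3b_cc_ev (fun i => by simp) _).trans (hf.cc l)
    · rintro (l | l)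
      · exact key _ _ (fun i => by simp) (fun j => by simp [hΔ]) _
      · change π (Δ (ev C (X ∘ Sum.inr) (f l))) = 0
        rw [der_ev Δ fun i => by simp, map_sum]
        have e : ∀ j, π (ev C (X ∘ Sum.inr) (pderiv K j (f l)) * Δ ((X ∘ Sum.inr) j)) =
            C (coeff (Finsupp.single j 1) (f l) * ξ j) := fun j => by
          rw [map_mul, Function.comp_apply, hΔ, hπC, map_mul, ← DM3b_cc_pderiv]
          simp only [π]
          rw [DM3b_ev_rename hπ0, Sum.elim_comp_inr, ev_zero, Sum.elim_inr]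
        rw [Finset.sum_congr rfl fun j _ => e j, ← map_sum, hξ, map_zero]
  · change π (Δ (μ (a ^ p))) = 0
    have hp : (p : MvPowerSeries (σ ⊕ σ) K) = 0 := by
      rw [← map_natCast C, CharP.cast_eq_zero, map_zero]
    rw [map_pow, Derivation.leibniz_pow, nsmul_eq_mul, hp, zero_mul, map_zero]
  · change constantCoeff (π (Δ (ev C G.F (X j)))) = ξ j
    obtain ⟨Δ', hΔ'⟩ := DM3b_exists_der (K := K) ξ
    have hπ' : ∀ i, constantCoeff ((Sum.elim 0 X : σ ⊕ σ → MvPowerSeries σ K) i) = 0 := by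
      rintro (i | i) <;> simp
    have h1 : ev C (Sum.elim 0 X : σ ⊕ σ → MvPowerSeries σ K) (G.F j) = X j :=
      congrFun (congrArg FGL.Pts.v (zero_add G.univ)) j
    have h2 := congrArg (fun g => constantCoeff (Δ' g)) h1
    simp only [der_ev Δ' hπ', hΔ', map_sum, map_mul, DM3b_cc_ev hπ', constantCoeff_C] at h2
    rw [(TN.of_cc G.F0).ev_X, DM3b_cc_ev hπ0, ← DM3b_ev_X (G.F j), der_ev Δ fun i => by simp,
      ← h2]
    simp only [map_sum, map_mul, DM3b_ev_X]
    refine Finset.sum_congr rfl ?_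
    rintro (l | l) _ <;> simp [hΔ, hΔ']
  · change π (Δ (ev C G.F (ev C w h))) = 0
    rw [DM3b_ev_ev G.F0 hw]
    exact key _ _ (fun j => (DM3b_cc_ev G.F0 _).trans (hw j)) hw' h

theorem DM3b_prod {G : FGL K σ} {H : FGL K σ'} {H' : FGL K σ''} {P : FGL K (σ' ⊕ σ'')}
    (h1 : ∀ i, P.F (.inl i) = ev C (X ∘ Sum.map Sum.inl Sum.inl) (H.F i))
    (h2 : ∀ i, P.F (.inr i) = ev C (X ∘ Sum.map Sum.inr Sum.inr) (H'.F i))
    {g : σ' ⊕ σ'' → MvPowerSeries σ K} :
    IsHom G P g ↔ IsHom G H (g ∘ Sum.inl) ∧ IsHom G H' (g ∘ Sum.inr) := by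
  have aux : (∀ i, constantCoeff (g i) = 0) → ∀ i, constantCoeff
      (Sum.elim (fun j => ev C (X ∘ Sum.inl) (g j)) (fun j => ev C (X ∘ Sum.inr) (g j)) i :
        MvPowerSeries (σ ⊕ σ) K) = 0 := by
    rintro hg (l | l)
    · exact (DM3b_cc_ev (fun i => by simp) _).trans (hg l)
    · exact (DM3b_cc_ev (fun i => by simp) _).trans (hg l)
  constructor
  · intro h
    refine ⟨⟨fun i => h.cc _, fun i => ?_⟩, ⟨fun i => h.cc _, fun i => ?_⟩⟩
    · rw [Function.comp_apply, h.hom, FGL.add, FGL.add, h1, DM3b_ev_rename (aux h.cc)]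
      congr 2
      funext l
      rcases l with l | l <;> rfl
    · rw [Function.comp_apply, h.hom, FGL.add, FGL.add, h2, DM3b_ev_rename (aux h.cc)]
      congr 2
      funext l
      rcases l with l | l <;> rfl
  · rintro ⟨h, h'⟩
    have hg : ∀ i, constantCoeff (g i) = 0 := by
      rintro (i | i)
      · exact h.cc i
      · exact h'.cc i
    refine ⟨hg, ?_⟩
    rintro (i | i)
    · refine (h.hom i).trans ?_
      rw [FGL.add, FGL.add, h1, DM3b_ev_rename (aux hg)]
      congr 2
      funext l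
      rcases l with l | l <;> rfl
    · refine (h'.hom i).trans ?_
      rw [FGL.add, FGL.add, h2, DM3b_ev_rename (aux hg)]
      congr 2
      funext l
      rcases l with l | l <;> rfl

/-- Any `n + 1` elements of the target are linearly dependent over the range. -/
def DM3bRk {A B : Type u} [CommRing A] [CommRing B] (θ : A →+* B) (n : ℕ) : Prop :=
  ∀ v : Fin (n + 1) → B, ∃ a : Fin (n + 1) → A, (∃ i, θ (a i) ≠ 0) ∧ ∑ i, θ (a i) * v i = 0

theorem DM3b_rk_of_finite {A B : Type u} [CommRing A] [CommRing B] [Nontrivial B] {θ : A →+* B}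
    (h : θ.Finite) : ∃ n, DM3bRk θ n := by
  have h1 : (θ.range.subtype.comp θ.rangeRestrict).Finite := h
  have h2 : Module.Finite θ.range B := h1.of_comp_finite
  refine ⟨Module.finrank θ.range B, fun v => ?_⟩
  have h3 : ¬ LinearIndependent θ.range v := fun h3 => by
    simpa using h3.fintype_card_le_finrank
  obtain ⟨c, hc, i, hi⟩ := Fintype.not_linearIndependent_iff.1 h3
  choose a ha using fun i => (c i).2
  refine ⟨a, ⟨i, fun h0 => hi (Subtype.ext ((ha i).symm.trans h0))⟩, ?_⟩
  simp only [ha]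
  exact hc

theorem DM3b_main {H : FGL K τ'} (n : ℕ) : ∀ (σ : Type) [Finite σ] (G : FGL K σ)
    (f : τ' → MvPowerSeries σ K), IsHom G H f →
    DM3bRk (ev C f : MvPowerSeries τ' K →+* _) n →
    ∃ b : ℕ, ∀ i, X i ^ p ^ b ∈ (ev C f : MvPowerSeries τ' K →+* _).range := by
  induction n with
  | zero =>
    intro σ _ G f _ h
    obtain ⟨a, ⟨i, hi⟩, ha⟩ := h fun _ => 1
    obtain rfl : i = 0 := Subsingleton.elim (α := Fin 1) _ _
    exact (hi (by simpa using ha)).elim
  | succ n ih =>
    intro σ _ G f hf h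
    have := Fintype.ofFinite σ
    rcases DM3b_surj_or hf.cc with hs | ⟨ξ, hξ0, hξ⟩
    · exact ⟨0, fun i => hs _⟩
    obtain ⟨D, hmul, hDf, hDp, hDX, hDev⟩ := DM3b_exists_inv p hf ξ hξ
    obtain ⟨P, hP1, hP2⟩ := FGL.prod_aux H (G.map (iterateFrobenius K p 1))
    have hg : IsHom G P (Sum.elim f fun i => X i ^ p ^ 1) :=
      (DM3b_prod hP1 hP2).2 ⟨hf, IsHom.frob G p 1⟩
    obtain ⟨ρ, G', r, hw, hr, hrw, hinj⟩ := hg.image p
    set w : ρ → MvPowerSeries σ K := fun j => Sum.elim f (fun i => X i ^ p ^ 1) j with hwdef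
    have hr1 : IsHom G' H (r ∘ Sum.inl) := ((DM3b_prod hP1 hP2).1 hr).1
    have hcomp : ∀ a, ev C w (ev C (r ∘ Sum.inl) a) = ev C f a := fun a => by
      rw [DM3b_ev_ev hw.cc hr1.cc]
      congr 2
      funext j
      exact congrFun hrw (.inl j)
    have hDw : ∀ a, D (ev C w a) = 0 := by
      refine hDev ρ w hw.cc ?_
      rintro ⟨i | i, hi⟩
      · exact hDf i
      · change D (X i ^ p ^ 1) = 0
        rw [pow_one, hDp]
    obtain ⟨j, hj⟩ := Function.ne_iff.1 hξ0
    have hj' : D (X j) ≠ 0 := fun h0 => hj (by rw [← hDX, h0]; simp)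
    obtain ⟨b, hb⟩ := ih ρ G' (r ∘ Sum.inl) hr1 fun v => by
      obtain ⟨a, ⟨i, hi⟩, ha⟩ := h (Fin.cons (X j) fun l => ev C w (v l))
      rw [Fin.sum_univ_succ] at ha
      simp only [Fin.cons_zero, Fin.cons_succ, ← hcomp, ← map_mul, ← map_sum] at ha
      have h1 := congrArg D ha
      rw [map_add, hDw, hmul, hDw, mul_zero, add_zero, add_zero, map_zero] at h1
      have h2 := (mul_eq_zero.1 h1).resolve_right hj'
      rw [h2, zero_mul, zero_add] at ha
      refine ⟨fun l => a l.succ, ?_, hinj (ha.trans (map_zero _).symm)⟩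
      rw [← hcomp] at hi
      rcases Fin.eq_zero_or_eq_succ i with rfl | ⟨l, rfl⟩
      · exact (hi h2).elim
      · exact ⟨l, fun h0 => hi (by rw [h0, map_zero])⟩
    refine ⟨b + 1, fun i => ?_⟩
    obtain ⟨a, ha⟩ := DM3b_pow_mem p hr1.cc hb (r (.inr i))
    refine ⟨a, ?_⟩
    have h1 : ev C w (r (.inr i)) = X i ^ p ^ 1 := congrFun hrw (.inr i)
    rw [← hcomp, ha, map_pow, h1, ← pow_mul, ← pow_add, add_comm]

end Aux

theorem IsHom.frob_factor {G : FGL K τ} {H : FGL K τ'} {f : τ' → MvPowerSeries τ K}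
    (hf : IsHom G H f) {N : ℕ} (h : ∀ i, X i ^ N ∈ Ideal.span (Set.range f)) :
    ∃ (b : ℕ) (Ξ : τ → MvPowerSeries τ' K), cmp Ξ f = fun i => X i ^ p ^ b := by
  obtain ⟨n, hn⟩ := DM3b_rk_of_finite (finite_of_primary hf.cc h)
  obtain ⟨b, hb⟩ := DM3b_main p n τ G f hf hn
  choose Ξ hΞ using hb
  exact ⟨b, Ξ, funext hΞ⟩

theorem DM3b_mul_succ (G : FGL K τ) (n : ℕ) (a : MvPowerSeries τ K) :
    ev C (G.mul (p ^ (n + 1))) a = ev C (G.mul p) (ev C (G.mul (p ^ n)) a) := by
  rw [pow_succ, G.mul_mul, DM3b_ev_ev (G.mul0 p) (G.mul0 _)]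
  rfl

theorem DM3b_mul_zero (G : FGL K τ) (a : MvPowerSeries τ K) : ev C (G.mul (p ^ 0)) a = a := by
  have : G.mul (p ^ 0) = X := by rw [pow_zero, FGL.mul, one_smul]; rfl
  rw [this, DM3b_ev_X]

theorem FGL.FH.mul_inj {G : FGL K τ} (hG : G.FH p) (n : ℕ) :
    Function.Injective (ev C (G.mul (p ^ n)) : MvPowerSeries τ K →+* _) := by
  have h1 : Function.Injective (ev C (G.mul p) : MvPowerSeries τ K →+* _) := by
    obtain ⟨N, hN⟩ := hG
    obtain ⟨ρ, G', r, hw, hr, hrw, hinj⟩ := (IsHom.mul G p).image p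
    have hle : Ideal.span (Set.range (G.mul p)) ≤
        Ideal.span (Set.range fun j : ρ => G.mul p j) := by
      rw [Ideal.span_le]
      rintro _ ⟨i, rfl⟩
      rw [← congrFun hrw i]
      exact (TN.of_cc hw.cc).ev_mem C (hr.cc i) fun j => Ideal.subset_span ⟨j, rfl⟩
    have hc := card_eq p hinj (finite_of_primary hw.cc fun i => hle (hN i))
    have hρ : ρ = Set.univ := (Set.eq_univ_iff_ncard ρ).2 hc
    subst hρ
    intro a b hab
    let e : τ → (Set.univ : Set τ) := fun i => ⟨i, trivial⟩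
    have h2 : ∀ a, ev C (G.mul p) a =
        ev C (fun j : (Set.univ : Set τ) => G.mul p j) (ev C (X ∘ e) a) := fun a => by
      rw [DM3b_ev_rename hw.cc]
      rfl
    rw [h2, h2] at hab
    have h3 := congrArg (ev C (X ∘ Subtype.val : ↥(Set.univ : Set τ) → MvPowerSeries τ K))
      (hinj hab)
    rw [DM3b_ev_rename fun i => by simp, DM3b_ev_rename fun i => by simp] at h3
    exact (DM3b_ev_X a).symm.trans (h3.trans (DM3b_ev_X b))
  induction n with
  | zero =>
    intro a b hab
    rwa [DM3b_mul_zero, DM3b_mul_zero] at hab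
  | succ n ih =>
    intro a b hab
    rw [DM3b_mul_succ, DM3b_mul_succ] at hab
    exact ih (h1 hab)

/-- `F ^ (b n) = Ξ ∘ [p ^ n]`. -/
theorem FGL.FH.frob_eq {G : FGL K τ} (hG : G.FH p) : ∃ b : ℕ, ∀ n m, b * n ≤ m →
    ∃ Ξ : τ → MvPowerSeries τ K, IsHom G (G.map (iterateFrobenius K p m)) Ξ ∧
      cmp Ξ (G.mul (p ^ n)) = fun i => X i ^ p ^ m := by
  obtain ⟨N, hN⟩ := id hG
  obtain ⟨b, Ξ, hΞ⟩ := (IsHom.mul G p).frob_factor p hN
  have h1 := DM3b_pow_mem p (G.mul0 p) (b := b) fun i => ⟨Ξ i, congrFun hΞ i⟩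
  have h2 : ∀ n (g : MvPowerSeries τ K), ∃ a, ev C (G.mul (p ^ n)) a = g ^ p ^ (b * n) := by
    intro n
    induction n with
    | zero => exact fun g => ⟨g, by rw [DM3b_mul_zero]; simp⟩
    | succ n ih =>
      intro g
      obtain ⟨a, ha⟩ := h1 g
      obtain ⟨a', ha'⟩ := ih a
      refine ⟨a', ?_⟩
      rw [DM3b_mul_succ, ha', map_pow, ha, ← pow_mul, ← pow_add, mul_add, mul_one, add_comm]
  refine ⟨b, fun n m hm => ?_⟩
  choose Ξ' hΞ' using fun i => h2 n (X i ^ p ^ (m - b * n))
  have h3 : cmp Ξ' (G.mul (p ^ n)) = fun i => X i ^ p ^ m := by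
    funext i
    rw [cmp, hΞ', ← pow_mul, ← pow_add, Nat.sub_add_cancel hm]
  exact ⟨Ξ', (IsHom.mul G _).of_cmp (hG.mul_inj p n) (h3 ▸ IsHom.frob G p m), h3⟩

end MLF
end

-- merged part: Pool.Agent.Work.MP_29d410_ag.DM5A
section
/-! # Auxiliary facts for the realisation of the first slope -/

open MvPowerSeries

namespace MLF

universe u

/-- An injective endomorphism whose image contains a power of Frobenius extends to an automorphism
of the perfect closure of the fraction field. -/
theorem DM5_setup {A : Type u} [CommRing A] [IsDomain A] (p : ℕ) [Fact p.Prime] [CharP A p]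
    (θ : A →+* A) (hθ : Function.Injective θ) {b : ℕ} (hb : ∀ a, ∃ y, a ^ p ^ b = θ y) {g : ℕ}
    (hdeg : ∀ (M : Type u) [Field M] [Algebra A M] [IsFractionRing A M] [CharP M p],
      (frobenius M p).fieldRange.relfinrank ⊤ = p ^ g) :
    ∃ (𝕂 : Type u) (_ : Field 𝕂) (_ : CharP 𝕂 p) (_ : PerfectRing 𝕂 p) (ι : A →+* 𝕂)
      (P : 𝕂 ≃+* 𝕂), Function.Injective ι ∧ (∀ a, P (ι a) = ι (θ a)) ∧
      ((Subfield.closure (Set.range ι)).map (frobenius 𝕂 p)).relfinrank
        (Subfield.closure (Set.range ι)) = p ^ g := by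
  let M := FractionRing A
  have : CharP M p := charP_of_injective_ringHom (IsFractionRing.injective A M) p
  let 𝕂 := PerfectClosure M p
  let j : M →+* 𝕂 := PerfectClosure.of M p
  let ι : A →+* 𝕂 := j.comp (algebraMap A M)
  have hι : Function.Injective ι := j.injective.comp (IsFractionRing.injective A M)
  have hι' : Function.Injective (ι.comp θ) := hι.comp hθ
  let P₀ : M →+* 𝕂 := IsFractionRing.lift hι'
  let P : 𝕂 →+* 𝕂 := PerfectClosure.lift M p 𝕂 P₀
  have hPj : ∀ m, P (j m) = P₀ m := fun m =>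
    DFunLike.congr_fun ((PerfectClosure.lift M p 𝕂).left_inv P₀) m
  have hP : ∀ a, P (ι a) = ι (θ a) := fun a =>
    (hPj _).trans (IsFractionRing.lift_algebraMap hι' a)
  have hs : Function.Surjective P := by
    intro x
    obtain ⟨n, m, hm⟩ := IsPRadical.pow_mem j p x
    obtain ⟨a, a', -, rfl⟩ := IsFractionRing.div_surjective A m
    obtain ⟨y, hy⟩ := hb a
    obtain ⟨y', hy'⟩ := hb a'
    obtain ⟨z, hz⟩ := (iterateFrobeniusEquiv 𝕂 p (n + b)).surjective (ι y / ι y')
    refine ⟨z, (iterateFrobeniusEquiv 𝕂 p (n + b)).injective ?_⟩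
    rw [iterateFrobeniusEquiv_def] at hz
    rw [iterateFrobeniusEquiv_def, iterateFrobeniusEquiv_def, ← map_pow, hz, map_div₀, hP, hP,
      ← hy, ← hy', pow_add, pow_mul, ← hm, map_div₀, div_pow, map_pow, map_pow]
    rfl
  have hM : Subfield.closure (Set.range ι) = (⊤ : Subfield M).map j := by
    refine le_antisymm (Subfield.closure_le.2 ?_) ?_
    · rintro _ ⟨a, rfl⟩
      exact ⟨_, trivial, rfl⟩
    · rintro _ ⟨m, -, rfl⟩
      obtain ⟨a, a', -, rfl⟩ := IsFractionRing.div_surjective A m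
      rw [map_div₀]
      exact div_mem (Subfield.subset_closure ⟨a, rfl⟩) (Subfield.subset_closure ⟨a', rfl⟩)
  refine ⟨𝕂, inferInstance, inferInstance, inferInstance, ι,
    RingEquiv.ofBijective P ⟨P.injective, hs⟩, hι, hP, ?_⟩
  have e : ((⊤ : Subfield M).map j).map (frobenius 𝕂 p) = (frobenius M p).fieldRange.map j := by
    rw [RingHom.fieldRange_eq_map, Subfield.map_map, Subfield.map_map]
    congr 1
    ext m
    simp [frobenius_def]
  rw [hM, e, Subfield.relfinrank_map_map]
  exact hdeg M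

theorem DM5_mem_closure {B 𝕂 : Type u} [CommRing B] [Field 𝕂] (κ : B →+* 𝕂) {z : 𝕂}
    (hz : z ∈ Subfield.closure (Set.range κ)) : ∃ a b, z = κ a / κ b := by
  obtain ⟨y, hy, y', hy', rfl⟩ := Subfield.mem_closure_iff.1 hz
  rw [← RingHom.coe_range, Subring.closure_eq] at hy hy'
  obtain ⟨a, rfl⟩ := hy
  obtain ⟨b, rfl⟩ := hy'
  exact ⟨a, b, rfl⟩

theorem DM5_pow_pow {𝕂 : Type u} [Field 𝕂] {p r s : ℕ} {P u : 𝕂 ≃+* 𝕂}
    (h : ∀ z, (P ^ s) (u z) = z ^ p ^ r) (n : ℕ) (z : 𝕂) :
    (P ^ (s * n)) ((u ^ n) z) = z ^ p ^ (r * n) := by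
  have h1 : Commute (P ^ s) u := by
    refine RingEquiv.ext fun z => (P ^ s).injective ?_
    change (P ^ s) ((P ^ s) (u z)) = (P ^ s) (u ((P ^ s) z))
    rw [h, h, map_pow]
  rw [pow_mul, ← RingAut.mul_apply, ← h1.mul_pow]
  induction n with
  | zero => simp
  | succ n ih =>
    rw [pow_succ', RingAut.mul_apply, ih, RingAut.mul_apply, h, ← pow_mul, ← pow_add, mul_add,
      mul_one]

section Series

variable {S : Type u} [CommRing S] {τ τ' τ'' : Type} [Finite τ] [Finite τ'] [Finite τ'']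

theorem DM5_ev_cmp {g : τ'' → MvPowerSeries τ' S} {f : τ' → MvPowerSeries τ S}
    (hg : ∀ i, constantCoeff (g i) = 0) (hf : ∀ i, constantCoeff (f i) = 0)
    (h : MvPowerSeries τ'' S) : ev C (cmp g f) h = ev C f (ev C g h) :=
  (congrFun (cmp_assoc (h := fun _ : Unit => h) hg hf) ()).symm

theorem DM5_ev_X (h : MvPowerSeries τ S) : ev C (X : τ → MvPowerSeries τ S) h = h := by
  have := ev_C_X (RingHom.id S) h
  rwa [RingHom.comp_id, MvPowerSeries.map_id] at this

theorem DM5_cc {f : τ' → MvPowerSeries τ S} (hf : ∀ i, constantCoeff (f i) = 0)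
    (h : MvPowerSeries τ' S) : constantCoeff (ev C f h) = constantCoeff h := by
  have h1 := (TN.of_cc hf).ev_mem C (f := h - C (constantCoeff h)) (by simp) (𝔠 := mX τ S)
    fun i => mem_mX.2 (hf i)
  rw [mem_mX, map_sub, (TN.of_cc hf).ev_C, map_sub, constantCoeff_C, sub_eq_zero] at h1
  exact h1

theorem DM5_mul_one (G : FGL S τ) : G.mul 1 = X := by
  unfold FGL.mul
  rw [one_smul]
  rfl

theorem DM5_ev_mul (G : FGL S τ) (m n : ℕ) (h : MvPowerSeries τ S) :
    ev C (G.mul (m * n)) h = ev C (G.mul n) (ev C (G.mul m) h) := by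
  rw [G.mul_mul, DM5_ev_cmp (G.mul0 m) (G.mul0 n)]

theorem DM5_pi {ι : Type} [Finite ι] {G : FGL S τ} {H : ι → FGL S τ'}
    {f : ι → τ' → MvPowerSeries τ S} (hf : ∀ n, IsHom G (H n) (f n)) :
    ∃ P : FGL S (ι × τ'), IsHom G P fun j => f j.1 j.2 := by
  obtain ⟨P, hP⟩ := FGL.pi_aux H
  refine ⟨P, fun j => (hf j.1).cc j.2, fun j => ?_⟩
  obtain ⟨n, i⟩ := j
  have hc : ∀ j : (ι × τ') ⊕ (ι × τ'), constantCoeff (Sum.elim
      (fun j : ι × τ' => (ev C (X ∘ Sum.inl) (f j.1 j.2) : MvPowerSeries (τ ⊕ τ) S))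
      (fun j : ι × τ' => ev C (X ∘ Sum.inr) (f j.1 j.2)) j) = 0 := by
    rintro (j | j)
    · exact (DM5_cc (fun _ => by simp) _).trans ((hf j.1).cc j.2)
    · exact (DM5_cc (fun _ => by simp) _).trans ((hf j.1).cc j.2)
  refine ((hf n).hom i).trans ?_
  unfold FGL.add
  rw [hP, ← DM5_ev_cmp (fun _ => by simp) hc]
  congr 2
  funext j
  rcases j with j | j
  · exact ((TN.of_cc hc).ev_X C (.inl (n, j))).symm
  · exact ((TN.of_cc hc).ev_X C (.inr (n, j))).symm

end Series

variable {K : Type u} [Field K] (p : ℕ) [Fact p.Prime] [CharP K p] [PerfectField K]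
  {τ : Type} [Finite τ]

theorem DM5_root (n : ℕ) (g : MvPowerSeries τ K) :
    ∃ y : MvPowerSeries τ K, ev C (fun i => X i ^ p ^ n) g = y ^ p ^ n := by
  refine ⟨map (iterateFrobeniusEquiv K p n).symm g, ?_⟩
  rw [pow_eq_ev]
  congr 1
  ext d
  simp only [coeff_map]
  exact ((iterateFrobeniusEquiv K p n).apply_symm_apply _).symm

theorem DM5_mul_pow (G : FGL K τ) (n : ℕ) (a : MvPowerSeries τ K) :
    ∃ y, ev C (G.mul (p ^ n)) a = y ^ p ^ n := by
  have h1 : ∀ a : MvPowerSeries τ K, ∃ y, ev C (G.mul p) a = y ^ p := by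
    intro a
    obtain ⟨V, hV, e⟩ := G.mul_p p (CharP.cast_eq_zero K p)
    have := DM5_root p 1 (ev C V a)
    rw [pow_one] at this
    rw [e, DM5_ev_cmp hV (fun i => by simp [(Fact.out : p.Prime).ne_zero])]
    exact this
  induction n with
  | zero => exact ⟨a, by rw [pow_zero, DM5_mul_one, DM5_ev_X, pow_one]⟩
  | succ n ih =>
    obtain ⟨y, hy⟩ := ih
    obtain ⟨y', hy'⟩ := h1 y
    exact ⟨y', by rw [pow_succ, DM5_ev_mul, hy, map_pow, hy', ← pow_mul, mul_comm]⟩

omit [PerfectField K] in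
theorem DM5_pow_eq {G : FGL K τ} {n m : ℕ} {Ξ : τ → MvPowerSeries τ K}
    (hc : ∀ i, constantCoeff (Ξ i) = 0) (h : cmp Ξ (G.mul (p ^ n)) = fun i => X i ^ p ^ m)
    (a : MvPowerSeries τ K) :
    a ^ p ^ m = ev C (G.mul (p ^ n)) (ev C Ξ (map (iterateFrobenius K p m) a)) := by
  rw [← DM5_ev_cmp hc (G.mul0 _), h, pow_eq_ev]

/-- A fraction with a `p`-power in the ring lies in the ring. -/
theorem DM5_norm {𝕂 : Type u} [Field 𝕂] {κ : MvPowerSeries τ K →+* 𝕂}
    (hκ : Function.Injective κ) {z : 𝕂} (hz : z ∈ Subfield.closure (Set.range κ)) {k : ℕ}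
    {e : MvPowerSeries τ K} (he : z ^ p ^ k = κ e) : ∃ y, κ y = z := by
  obtain ⟨a, b, rfl⟩ := DM5_mem_closure κ hz
  by_cases hb : κ b = 0
  · exact ⟨0, by simp [hb]⟩
  obtain ⟨y, hy⟩ := dvd_of_pow_dvd p (a := a) (b := b) k ⟨e, hκ (by
    rw [map_mul, ← he, div_pow, map_pow, map_pow, mul_div_cancel₀ _ (pow_ne_zero _ hb)])⟩
  exact ⟨y, by rw [hy, map_mul, mul_div_cancel_left₀ _ hb]⟩

/-- A subfield containing the images of the variables and of the `p ^ n`-th powers contains the
image. -/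
theorem DM5_le {𝕂 : Type u} [Field 𝕂] (κ : MvPowerSeries τ K →+* 𝕂) (L : Subfield 𝕂) (n : ℕ)
    (h1 : ∀ i, κ (X i) ∈ L) (h2 : ∀ g, κ g ^ p ^ n ∈ L) :
    Subfield.closure (Set.range κ) ≤ L := by
  classical
  have := Fintype.ofFinite τ
  refine Subfield.closure_le.2 ?_
  rintro _ ⟨a, rfl⟩
  obtain ⟨g, hg, -⟩ := exists_pow_decomp p n a
  rw [hg, map_sum]
  refine sum_mem fun α _ => ?_
  rw [map_mul, map_prod, map_pow]
  exact mul_mem (prod_mem fun i _ => by rw [map_pow]; exact pow_mem (h1 i) _) (h2 _)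

end MLF
end
end

-- merged part: Pool.Agent.Work.MP_29d410_ag.DM6
section
/-!
# Theorem of Lang and Fitting decomposition for semilinear maps

Plan.  `lang_surj`: `f - 1` is onto.  On the nilpotent Fitting part it is bijective; on the
bijective part use a basis of fixed vectors (for `v ≠ 0` with a minimal relation
`∑ a i • f ^ i v = 0`, solving `f x = x` in the span of the `f ^ i v` amounts to a separable
additive polynomial equation; or: the fixed points of `x ↦ A x^(q)`, `A` invertible).  Any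
proof is fine; induction on the dimension through an `f`-stable line and the quotient is the
shortest: a nonzero fixed vector exists, pass to the quotient, `x ^ q - x = c` is solvable.
`fitting`: decompose `V = 𝔪 / 𝔪 ^ 2`; lift the fixed basis to fixed series `u i` by successive
approximation (`lang_surj` on `𝔪 ^ n / 𝔪 ^ (n+1)`), lift a basis of the nilpotent part to series
`w j` whose class in every `𝔪 / 𝔪 ^ n` lies in the nilpotent Fitting part (Fitting decomposition
is compatible with the surjections `𝔪 / 𝔪 ^ (n+1) → 𝔪 / 𝔪 ^ n`).  Bijectivity: `ev_surj`, and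
injectivity because a surjective endomorphism of a Noetherian ring is injective (reindex).
-/

open MvPowerSeries

namespace MLF

universe u

variable {K : Type u} [Field K] [IsAlgClosed K] (p : ℕ) [Fact p.Prime] [CharP K p]

section aux

open Polynomial

/-- The polynomials computing the coordinates of a solution of `f x - x = e • v`. -/
noncomputable def DM6_P {K : Type u} [Field K] (q : ℕ) (a : ℕ → K) (e : K) : ℕ → K[X]
  | 0 => Polynomial.C (a 0) * Polynomial.X ^ q - Polynomial.C e
  | i + 1 => DM6_P q a e i ^ q + Polynomial.C (a (i + 1)) * Polynomial.X ^ q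

omit [IsAlgClosed K] in
theorem DM6_der {r : ℕ} (hr : 0 < r) (a : ℕ → K) (e : K) (i : ℕ) :
    derivative (DM6_P (p ^ r) a e i) = 0 := by
  have h : ((p ^ r : ℕ) : K) = 0 := by
    rw [Nat.cast_pow, CharP.cast_eq_zero K p, zero_pow hr.ne']
  cases i <;> simp only [DM6_P, derivative_sub, derivative_add, derivative_C_mul, derivative_pow,
    h, derivative_C, map_zero, zero_mul, mul_zero, sub_zero, add_zero]

omit [IsAlgClosed K] in
theorem DM6_core {V : Type u} [AddCommGroup V] [Module K V] {q : ℕ} (f : V →+ V)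
    (hf : ∀ (c : K) v, f (c • v) = c ^ q • f v) (v : V) (a : ℕ → K) (e t : K) (k : ℕ) :
    f (∑ i ∈ Finset.range (k + 1), (DM6_P q a e i).eval t • f^[i] v) -
        ∑ i ∈ Finset.range (k + 1), (DM6_P q a e i).eval t • f^[i] v =
      e • v + (DM6_P q a e k).eval t ^ q • f^[k + 1] v -
        t ^ q • ∑ i ∈ Finset.range (k + 1), a i • f^[i] v := by
  induction k with
  | zero =>
    simp only [zero_add, Finset.sum_range_one, hf, Function.iterate_zero, id,
      Function.iterate_one]
    have : (DM6_P q a e 0).eval t = a 0 * t ^ q - e := by simp [DM6_P]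
    rw [this]
    module
  | succ k ih =>
    rw [Finset.sum_range_succ _ (k + 1), Finset.sum_range_succ _ (k + 1), map_add,
      add_sub_add_comm, ih, hf, Function.iterate_succ_apply' f (k + 1)]
    have : (DM6_P q a e (k + 1)).eval t = (DM6_P q a e k).eval t ^ q + a (k + 1) * t ^ q := by
      simp [DM6_P]
    generalize (DM6_P q a e (k + 1)).eval t ^ q = c
    rw [this]
    module

omit [IsAlgClosed K] in
theorem DM6_rel {V : Type u} [AddCommGroup V] [Module K V] [FiniteDimensional K V] (u : ℕ → V) :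
    ∃ (n : ℕ) (a : ℕ → K), ∑ i ∈ Finset.range (n + 1), a i • u i = u (n + 1) := by
  obtain ⟨n, hn⟩ := monotone_stabilizes_iff_noetherian.2 (inferInstance : IsNoetherian K V)
    ⟨fun n => Submodule.span K (u '' (Finset.range (n + 1) : Finset ℕ)), fun m n h =>
      Submodule.span_mono (Set.image_mono
        (Finset.coe_subset.2 (Finset.range_mono (Nat.succ_le_succ h))))⟩
  refine ⟨n, (Submodule.mem_span_image_finset_iff_exists_fun' K).1 ?_⟩
  have : Submodule.span K (u '' (Finset.range (n + 1) : Finset ℕ)) =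
    Submodule.span K (u '' (Finset.range (n + 1 + 1) : Finset ℕ)) := hn (n + 1) n.le_succ
  rw [this]
  exact Submodule.subset_span ⟨n + 1, by simp, rfl⟩

omit [IsAlgClosed K] in
theorem DM6_iter_mem {V : Type u} [AddCommGroup V] [Module K V] {f : V →+ V} {W : Submodule K V}
    (hW : ∀ w ∈ W, f w ∈ W) {v : V} (hv : v ∈ W) (i : ℕ) : f^[i] v ∈ W := by
  induction i with
  | zero => exact hv
  | succ i ih => rw [Function.iterate_succ_apply']; exact hW _ ih

theorem DM6_surj {V : Type u} [AddCommGroup V] [Module K V] [FiniteDimensional K V] {r : ℕ}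
    (hr : 0 < r) (f : V →+ V) (hf : ∀ (c : K) v, f (c • v) = c ^ p ^ r • f v)
    {W : Submodule K V} (hW : ∀ w ∈ W, f w ∈ W) {v : V} (hv : v ∈ W) :
    ∃ x ∈ W, f x - x = v := by
  obtain ⟨n, a, ha⟩ := DM6_rel (K := K) fun i => f^[i] v
  obtain ⟨t, ht⟩ := IsAlgClosed.exists_root (DM6_P (p ^ r) a 1 n - Polynomial.X) fun h => by
    have := congrArg derivative (eq_C_of_degree_eq_zero h)
    rw [derivative_sub, DM6_der p hr] at this
    simp at this
  have ht' : (DM6_P (p ^ r) a 1 n).eval t = t := by simpa [sub_eq_zero] using ht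
  refine ⟨_, W.sum_mem fun i _ => W.smul_mem _ (DM6_iter_mem hW hv i),
    (DM6_core f hf v a 1 t n).trans ?_⟩
  rw [ht', ha, one_smul, add_sub_cancel_right]

theorem DM6_dich (P : K[X]) (h0 : P.eval 0 = 0) (h1 : derivative P = 0) :
    P = 0 ∨ ∃ t, t ≠ 0 ∧ P.eval t = t := by
  obtain ⟨Q, rfl⟩ : Polynomial.X ∣ P := X_dvd_iff.2 (by rwa [Polynomial.coeff_zero_eq_eval_zero])
  rw [derivative_mul, derivative_X, one_mul] at h1
  by_cases h : (Q - 1).degree = 0
  · have := congrArg derivative (eq_C_of_degree_eq_zero h)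
    rw [derivative_sub, derivative_one, derivative_C, sub_zero] at this
    rw [this, mul_zero, add_zero] at h1
    exact .inl (by rw [h1, mul_zero])
  · obtain ⟨t, ht⟩ := IsAlgClosed.exists_root _ h
    have ht' : Q.eval t = 1 := by simpa [sub_eq_zero] using ht
    refine .inr ⟨t, ?_, by simp [ht']⟩
    rintro rfl
    have := congrArg (Polynomial.eval 0) h1
    simp [ht'] at this

theorem DM6_zero {r : ℕ} (hr : 0 < r) (a : ℕ → K) (n : ℕ) (h : DM6_P (p ^ r) a 0 n = 0) :
    ∀ i ∈ Finset.range (n + 1), a i = 0 := by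
  have hq : 0 < p ^ r := pow_pos (Fact.out : p.Prime).pos r
  induction n with
  | zero => simpa [DM6_P] using h
  | succ n ih =>
    obtain ⟨b, hb⟩ := IsAlgClosed.exists_pow_nat_eq (a (n + 1)) hq
    have e : (DM6_P (p ^ r) a 0 n + Polynomial.C b * Polynomial.X) ^ p ^ r = 0 := by
      rw [add_pow_char_pow, mul_pow, ← Polynomial.C_pow, hb]
      exact h
    have e' := pow_eq_zero_iff hq.ne' |>.1 e
    have d := congrArg derivative e'
    rw [derivative_add, DM6_der p hr] at d
    have b0 : b = 0 := by simpa using d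
    rw [b0, map_zero, zero_mul, add_zero] at e'
    rw [b0, zero_pow hq.ne'] at hb
    intro i hi
    rcases Nat.lt_succ_iff_lt_or_eq.1 (Finset.mem_range.1 hi) with c | rfl
    exacts [ih e' i (Finset.mem_range.2 c), hb.symm]

theorem DM6_nil {V : Type u} [AddCommGroup V] [Module K V] [FiniteDimensional K V] {r : ℕ}
    (hr : 0 < r) (f : V →+ V) (hf : ∀ (c : K) v, f (c • v) = c ^ p ^ r • f v)
    {W : Submodule K V} (hW : ∀ x, f x - x ∈ W → x ∈ W) (v : V) : ∃ N, f^[N] v ∈ W := by
  have hq : 0 < p ^ r := pow_pos (Fact.out : p.Prime).pos r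
  have key : ∀ n, (∃ a : ℕ → K, f^[n] v - ∑ i ∈ Finset.range n, a i • f^[i] v ∈ W) →
      ∃ N, f^[N] v ∈ W := by
    intro n
    induction n with
    | zero => exact fun ⟨a, h⟩ => ⟨0, by simpa using h⟩
    | succ n ih =>
      rintro ⟨a, h⟩
      have h0 : ∀ i, (DM6_P (p ^ r) a 0 i).eval 0 = 0 := fun i => by
        induction i with
        | zero => simp [DM6_P, zero_pow hq.ne']
        | succ i ih => simp [DM6_P, zero_pow hq.ne', ih]
      rcases DM6_dich _ (h0 n) (DM6_der p hr a 0 n) with c | ⟨t, t0, ht⟩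
      · rw [Finset.sum_eq_zero fun i hi => by rw [DM6_zero p hr a n c i hi, zero_smul],
          sub_zero] at h
        exact ⟨_, h⟩
      · have := hW _ (by
          rw [DM6_core f hf v a 0 t n, ht, zero_smul, zero_add, ← smul_sub]
          exact W.smul_mem _ h)
        rw [Finset.sum_range_succ, ht] at this
        refine ih ⟨fun i => -(t⁻¹ * (DM6_P (p ^ r) a 0 i).eval t), ?_⟩
        convert W.smul_mem t⁻¹ this using 1
        simp only [neg_smul, Finset.sum_neg_distrib, sub_neg_eq_add, smul_add, Finset.smul_sum,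
          smul_smul, inv_mul_cancel₀ t0, one_smul]
        exact add_comm _ _
  obtain ⟨n, a, ha⟩ := DM6_rel (K := K) fun i => f^[i] v
  exact key (n + 1) ⟨a, by rw [ha, sub_self]; exact W.zero_mem⟩

omit [IsAlgClosed K] in
theorem DM6_iter_smul {V : Type u} [AddCommGroup V] [Module K V] {q : ℕ} (f : V →+ V)
    (hf : ∀ (c : K) v, f (c • v) = c ^ q • f v) (N : ℕ) (c : K) (v : V) :
    f^[N] (c • v) = c ^ q ^ N • f^[N] v := by
  induction N with
  | zero => simp
  | succ N ih => rw [Function.iterate_succ_apply', Function.iterate_succ_apply', ih, hf,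
      ← pow_mul, pow_succ]

omit [IsAlgClosed K] in
theorem DM6_iter_sum {V : Type u} [AddCommGroup V] [Module K V] {q : ℕ} (f : V →+ V)
    (hf : ∀ (c : K) v, f (c • v) = c ^ q • f v) {m : ℕ} {b : Fin m → V} (hb : ∀ i, f (b i) = b i)
    (N : ℕ) (c : Fin m → K) : f^[N] (∑ i, c i • b i) = ∑ i, c i ^ q ^ N • b i := by
  induction N with
  | zero => simp
  | succ N ih =>
    rw [Function.iterate_succ_apply', ih, map_sum]
    exact Finset.sum_congr rfl fun i _ => by rw [hf, hb, ← pow_mul, pow_succ]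

end aux

theorem lang_surj {V : Type u} [AddCommGroup V] [Module K V] [FiniteDimensional K V] {r : ℕ}
    (hr : 0 < r) (f : V →+ V) (hf : ∀ (c : K) v, f (c • v) = c ^ p ^ r • f v) (v : V) :
    ∃ x, f x - x = v :=
  let ⟨x, _, h⟩ := DM6_surj p hr f hf (W := ⊤) (fun _ _ => trivial) (v := v) trivial
  ⟨x, h⟩

theorem lang_fitting {V : Type u} [AddCommGroup V] [Module K V] [FiniteDimensional K V] {r : ℕ}
    (hr : 0 < r) (f : V →+ V) (hf : ∀ (c : K) v, f (c • v) = c ^ p ^ r • f v) :
    ∃ (m n : ℕ) (b : Module.Basis (Fin m ⊕ Fin n) K V), (∀ i, f (b (.inl i)) = b (.inl i)) ∧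
      ∃ N, ∀ j, f^[N] (b (.inr j)) = 0 := by
  have hq : 0 < p ^ r := pow_pos (Fact.out : p.Prime).pos r
  obtain ⟨b, hb, sp, li⟩ := Submodule.exists_fun_fin_finrank_span_eq K {v | f v = v}
  generalize Module.finrank K (Submodule.span K {v | f v = v}) = m at b
  have mem : ∀ x, x ∈ Submodule.span K (Set.range b) ↔ ∃ c : Fin m → K, ∑ i, c i • b i = x :=
    fun x => Submodule.mem_span_range_iff_exists_fun K
  have st : ∀ w ∈ Submodule.span K (Set.range b), f w ∈ Submodule.span K (Set.range b) := by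
    intro w hw
    obtain ⟨c, rfl⟩ := (mem w).1 hw
    exact (mem _).2 ⟨_, (DM6_iter_sum f hf hb 1 c).symm⟩
  have cl : ∀ x, f x - x ∈ Submodule.span K (Set.range b) → x ∈ Submodule.span K (Set.range b) := by
    intro x hx
    obtain ⟨y, hy, e⟩ := DM6_surj p hr f hf st hx
    have : x - y ∈ Submodule.span K (Set.range b) := by
      rw [sp]
      refine Submodule.subset_span (show f (x - y) = x - y from ?_)
      rw [map_sub, sub_eq_sub_iff_sub_eq_sub, e]
    simpa using Submodule.add_mem _ this hy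
  have z : ∀ {x N N'}, N ≤ N' → f^[N] x = 0 → f^[N'] x = 0 := fun {x N N'} h e => by
    obtain ⟨k, rfl⟩ := Nat.exists_eq_add_of_le' h
    rw [Function.iterate_add_apply, e, iterate_map_zero]
  let U : Submodule K V :=
    { carrier := {x | ∃ N, f^[N] x = 0}
      zero_mem' := ⟨0, rfl⟩
      add_mem' := fun {x y} ⟨N, h⟩ ⟨N', h'⟩ => ⟨max N N', by
        rw [iterate_map_add, z (le_max_left _ _) h, z (le_max_right _ _) h', add_zero]⟩
      smul_mem' := fun c x ⟨N, h⟩ => ⟨N, by rw [DM6_iter_smul f hf, h, smul_zero]⟩ }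
  have cp : IsCompl (Submodule.span K (Set.range b)) U := by
    refine ⟨Submodule.disjoint_def.2 fun x hx ⟨N, h⟩ => ?_,
      Submodule.codisjoint_iff_exists_add_eq.2 fun v => ?_⟩
    · obtain ⟨c, rfl⟩ := (mem x).1 hx
      rw [DM6_iter_sum f hf hb] at h
      exact Finset.sum_eq_zero fun i _ => by
        rw [eq_zero_of_pow_eq_zero (Fintype.linearIndependent_iff.1 li _ h i), zero_smul]
    · obtain ⟨N, h⟩ := DM6_nil p hr f hf cl v
      obtain ⟨c, e⟩ := (mem _).1 h
      choose d hd using fun i => IsAlgClosed.exists_pow_nat_eq (c i) (pow_pos hq N)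
      refine ⟨∑ i, d i • b i, v - ∑ i, d i • b i, (mem _).2 ⟨d, rfl⟩, ⟨N, ?_⟩, by simp⟩
      rw [iterate_map_sub, DM6_iter_sum f hf hb, ← e]
      simp only [hd, sub_self]
  refine ⟨m, Module.finrank K U, ((Module.Basis.span li).prod (Module.finBasis K U)).map
    (Submodule.prodEquivOfIsCompl _ _ cp), fun i => ?_, ?_⟩
  · simp [show ∀ i, f (b i) = b i from hb]
  · choose N hN using fun j => (Module.finBasis K U j).2
    refine ⟨Finset.univ.sup N, fun j => ?_⟩
    simpa using z (Finset.le_sup (Finset.mem_univ j)) (hN j)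

/-- An `𝔽_p`-linearly independent family of fixed vectors is linearly independent. -/
theorem lang_card {V : Type u} [AddCommGroup V] [Module K V] [FiniteDimensional K V]
    (f : V →+ V) (hf : ∀ (c : K) v, f (c • v) = c ^ p • f v) :
    {v | f v = v}.Finite ∧ {v | f v = v}.ncard ≤ p ^ Module.finrank K V := by
  classical
  have hp : 1 < p := (Fact.out : p.Prime).one_lt
  obtain ⟨b, hb, sp, li⟩ := Submodule.exists_fun_fin_finrank_span_eq K {v | f v = v}
  have hm := Submodule.finrank_le (Submodule.span K {v | f v = v})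
  generalize Module.finrank K (Submodule.span K {v | f v = v}) = m at b hm
  let R : Finset K := (Polynomial.X ^ p - Polynomial.X : Polynomial K).roots.toFinset
  have hR : R.card ≤ p := (Multiset.toFinset_card_le _).trans
    ((Polynomial.card_roots' _).trans (FiniteField.X_pow_card_sub_X_natDegree_eq K hp).le)
  have sub : {v | f v = v} ⊆
      ((Fintype.piFinset fun _ : Fin m => R).image fun c => ∑ i, c i • b i : Finset V) := by
    intro v hv
    obtain ⟨c, rfl⟩ := (Submodule.mem_span_range_iff_exists_fun K).1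
      (sp ▸ Submodule.subset_span hv : v ∈ Submodule.span K (Set.range b))
    refine Finset.mem_coe.2 (Finset.mem_image_of_mem _ (Fintype.mem_piFinset.2 fun i => ?_))
    have e := (DM6_iter_sum f hf hb 1 c).symm.trans hv
    rw [← sub_eq_zero, ← Finset.sum_sub_distrib] at e
    simp only [← sub_smul, pow_one] at e
    have := Fintype.linearIndependent_iff.1 li _ e i
    exact Multiset.mem_toFinset.2
      ((Polynomial.mem_roots (FiniteField.X_pow_card_sub_X_ne_zero K hp)).2 (by simpa using this))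
  refine ⟨(Finset.finite_toSet _).subset sub, (Set.ncard_le_ncard sub (Finset.finite_toSet _)).trans ?_⟩
  rw [Set.ncard_coe_finset]
  refine Finset.card_image_le.trans ?_
  rw [Fintype.card_piFinset_const]
  exact (Nat.pow_le_pow_left hR m).trans (Nat.pow_le_pow_right (by omega) hm)

end MLF
end
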