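import Pool.Agent.Work.MP_29d410_ag.NBA
import Pool.Agent.Work.MP_29d410_ag.DM6

/-!
# The standard derivation on `Big k`; embeddings in `Big k`

Plan.  `exists_std`: `M` is the separable closure of `k((t))`.  `k⟦t⟧ = ∑ (k⟦t⟧) ^ p * t ^ i`, so
`k((t))` has p-basis `t`, and `M = M ^ p k((t))` for a separable algebraic extension.  A constant
`z` lies in all `M ^ (p ^ n)` (`mem_cst_iff_pow`); let `E = k((t))(z) = k((s))` (`puiseux`); an
element of `M` whose `p ^ n`-th power lies in `E` lies in `E` (separable and purely inseparable);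
replacing `z` by `z⁻¹` assume `z ∈ k⟦s⟧` (a valuation ring); a series which is a `p ^ n`-th power for
all `n` is constant.
`exists_emb_curve`: send a transcendental element to `t`, extend by `IsAlgClosed.lift`.
`exists_emb`: `R = C[F]` is integral over a polynomial ring `C[z₁, ..., z_d]`
(`exists_finite_inj_algHom_of_fg`); `C⟦t⟧` is uncountable while the algebraic closure of a countable
subring is countable, so there are `d` algebraically independent series; extend to `K₁`, which is
algebraic over `C(z)`; integral elements go to integral elements.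
-/

open PowerSeries

namespace MLF

universe u

section std
variable {p : ℕ} [Fact p.Prime]

/-- Separable and purely inseparable. -/
theorem Big2_sep_insep {K Ω : Type u} [Field K] [Field Ω] [Algebra K Ω] [CharP Ω p]
    {N : Subfield Ω} (hN : ∀ a, algebraMap K Ω a ∈ N) {z : Ω} (hz : IsSeparable K z) {n : ℕ}
    (h : z ^ p ^ n ∈ N) : z ∈ N := by
  let N' : IntermediateField K Ω := N.toIntermediateField hN
  have : CharP N' p := (algebraMap N' Ω).charP (algebraMap N' Ω).injective p
  have h1 : z ∈ separableClosure N' Ω ⊓ perfectClosure N' Ω :=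
    ⟨mem_separableClosure_iff.2 (hz.tower_top N'),
      (mem_perfectClosure_iff_pow_mem p).2 ⟨n, ⟨_, h⟩, rfl⟩⟩
  rw [separableClosure_inf_perfectClosure, IntermediateField.mem_bot] at h1
  obtain ⟨y, rfl⟩ := h1
  exact y.2

theorem Big2_frac {k : Type u} [Field k] {N : Subfield (Big k)} (h : ∀ f, ιB k f ∈ N)
    (a : FractionRing (PowerSeries k)) : algebraMap _ (Big k) a ∈ N := by
  obtain ⟨f, g, -, rfl⟩ := IsFractionRing.div_surjective (A := PowerSeries k) a
  rw [map_div₀, ← IsScalarTower.algebraMap_apply, ← IsScalarTower.algebraMap_apply]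
  exact N.div_mem (h f) (h g)

theorem Big2_adj_form {Ω : Type u} [Field Ω] [CharP Ω p] (M : Subfield Ω) {t : Ω} (ht : t ∈ M)
    {z : Ω} (hz : z ∈ adj (M.map (frobenius Ω p)) {t}) :
    ∃ c : Fin p → Ω, (∀ i, c i ∈ M) ∧ z = ∑ i, c i ^ p * t ^ (i : ℕ) := by
  have hp := (Fact.out : p.Prime)
  set F := M.map (frobenius Ω p) with hF
  let a : F := ⟨t ^ p, t, ht, rfl⟩
  have hm : (Polynomial.X ^ p - Polynomial.C a).Monic := Polynomial.monic_X_pow_sub_C a hp.ne_zero
  have h0 : Polynomial.aeval t (Polynomial.X ^ p - Polynomial.C a) = 0 := by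
    rw [map_sub, map_pow, Polynomial.aeval_X, Polynomial.aeval_C]
    exact sub_self _
  have hint : IsIntegral F t := ⟨_, hm, h0⟩
  rw [← LD2_adj_eq] at hz
  have hz' : z ∈ (IntermediateField.adjoin F {t}).toSubalgebra := hz
  rw [IntermediateField.adjoin_simple_toSubalgebra_of_isAlgebraic hint.isAlgebraic,
    Algebra.adjoin_singleton_eq_range_aeval] at hz'
  obtain ⟨q, rfl⟩ := hz'
  have hd : (q %ₘ (Polynomial.X ^ p - Polynomial.C a)).natDegree < p := by
    have h1 : Polynomial.X ^ p - Polynomial.C a ≠ 1 := by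
      intro h
      have := congrArg Polynomial.natDegree h
      rw [Polynomial.natDegree_X_pow_sub_C, Polynomial.natDegree_one] at this
      exact hp.ne_zero this
    simpa [Polynomial.natDegree_X_pow_sub_C] using Polynomial.natDegree_modByMonic_lt q hm h1
  have h2 : ∀ i : Fin p, ∃ c ∈ M, c ^ p =
      (((q %ₘ (Polynomial.X ^ p - Polynomial.C a)).coeff i : F) : Ω) := fun i =>
    ((q %ₘ (Polynomial.X ^ p - Polynomial.C a)).coeff i).2
  choose c hc hc' using h2
  refine ⟨c, hc, ?_⟩
  have h3 : Polynomial.aeval t q = Polynomial.aeval t (q %ₘ (Polynomial.X ^ p - Polynomial.C a)) :=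
    (Polynomial.aeval_modByMonic_eq_self_of_root h0).symm
  refine Eq.trans h3 ?_
  rw [Polynomial.aeval_eq_sum_range' hd, Finset.sum_range]
  refine Finset.sum_congr rfl fun i _ => ?_
  rw [hc', Algebra.smul_def]
  rfl

theorem Big2_const {k : Type u} [Field k] [CharP k p] {f : PowerSeries k}
    (h : ∀ n, ∃ g : PowerSeries k, g ^ p ^ n = f) : f = C (constantCoeff f) := by
  ext d
  rcases Nat.eq_zero_or_pos d with rfl | hd
  · simp
  · obtain ⟨g, rfl⟩ := h d
    rw [coeff_C, if_neg hd.ne']
    have h1 : ¬ p ^ d ∣ (Finsupp.single () d : Unit →₀ ℕ) () := by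
      rw [Finsupp.single_eq_same]
      exact Nat.not_dvd_of_pos_of_lt hd (Nat.lt_pow_self (Fact.out : p.Prime).one_lt)
    exact DM2_coeff_pow_not p d g h1

theorem Big2_decomp {k : Type u} [Field k] [IsAlgClosed k] [CharP k p] (f : PowerSeries k) :
    ∃ (ι : Type) (_ : Fintype ι) (e : ι → ℕ) (g : ι → PowerSeries k),
      f = ∑ α, X ^ e α * g α ^ p := by
  classical
  obtain ⟨g, hg, -⟩ := exists_pow_decomp p 1 (τ := Unit) f
  refine ⟨Unit → Fin (p ^ 1), inferInstance, fun α => α (), g, hg.trans ?_⟩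
  refine Finset.sum_congr rfl fun α _ => ?_
  rw [Fintype.prod_unique]
  exact congrArg₂ (· * ·) rfl (congrArg (g α ^ ·) (pow_one p))

theorem Big2_cst {k : Type u} [Field k] [IsAlgClosed k] [CharP k p] {z : Big k}
    (h : ∀ n, ∃ w, IsSeparable (FractionRing (PowerSeries k)) w ∧ w ^ p ^ n = z)
    (h' : ∀ n, ∃ w, IsSeparable (FractionRing (PowerSeries k)) w ∧ w ^ p ^ n = z⁻¹) :
    z ∈ (cB k).fieldRange := by
  have hp := (Fact.out : p.Prime)
  let K₀ : Subfield (Big k) := Subfield.closure (Set.range (ιB k))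
  let E : Subfield (Big k) := adj K₀ {z}
  have hK : ∀ f, ιB k f ∈ K₀ := fun f => Subfield.subset_closure ⟨f, rfl⟩
  have hE : ∀ f, ιB k f ∈ E := fun f => le_adj K₀ _ (hK f)
  let i : PowerSeries k →+* E := (ιB k).codRestrict E hE
  have hi : Function.Injective i := fun a b hab => ιB_inj k (congrArg Subtype.val hab)
  have halg : z ∈ acl K₀ := by
    rw [mem_acl]
    let N' : IntermediateField (FractionRing (PowerSeries k)) (Big k) :=
      K₀.toIntermediateField (Big2_frac hK)
    exact (Algebra.IsAlgebraic.isAlgebraic (R := FractionRing (PowerSeries k)) z).tower_top N'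
  have hfin : (Subfield.closure (Set.range i)).relfinrank ⊤ ≠ 0 := by
    rw [← Subfield.relfinrank_map_map _ _ E.subtype, RingHom.map_field_closure, ← Set.range_comp,
      ← RingHom.fieldRange_eq_map, Subfield.fieldRange_subtype]
    exact relfinrank_adj (Set.finite_singleton z) (Set.singleton_subset_iff.2 halg)
  obtain ⟨η, -, hη, hC, -, -, -, hfr, hint⟩ := puiseux i hi hfin
  have key : ∀ y : E, y ∈ η.range →
      (∀ n, ∃ w, IsSeparable (FractionRing (PowerSeries k)) w ∧ w ^ p ^ n = (y : Big k)) →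
      (y : Big k) ∈ (cB k).fieldRange := by
    rintro _ ⟨f, rfl⟩ hy
    have h1 : f = C (constantCoeff f) := by
      refine Big2_const (p := p) fun n => ?_
      obtain ⟨w, hw, hw'⟩ := hy n
      have hwE : w ∈ E := Big2_sep_insep (K := FractionRing (PowerSeries k)) (Ω := Big k) (p := p)
        (N := E) (Big2_frac (k := k) hE) hw (hw' ▸ (η f).2)
      have e : (⟨w, hwE⟩ : E) ^ p ^ n = η f := Subtype.ext hw'
      have h2 : i.IsIntegralElem (⟨w, hwE⟩ : E) := by
        let _ := i.toAlgebra
        have h3 : IsIntegral (PowerSeries k) ((⟨w, hwE⟩ : E) ^ p ^ n) := by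
          rw [e]; exact (hint _).2 ⟨f, rfl⟩
        exact h3.of_pow (pow_pos hp.pos n)
      obtain ⟨g, hg⟩ := (hint _).1 h2
      exact ⟨g, hη (by rw [map_pow, hg, e])⟩
    rw [h1, hC]
    exact ⟨_, rfl⟩
  have hzE : z ∈ E := subset_adj K₀ _ rfl
  obtain ⟨a, b, hb, hab⟩ := hfr ⟨z, hzE⟩
  have hb' : η b ≠ 0 := (map_ne_zero_iff η hη).2 hb
  rcases ValuationRing.dvd_total a b with ⟨c, rfl⟩ | ⟨c, rfl⟩
  · have ha' : η a ≠ 0 := fun h0 => hb' (by rw [map_mul, h0, zero_mul])
    have h1 : (⟨z, hzE⟩ : E) * η c = 1 := by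
      apply mul_left_cancel₀ ha'
      rw [mul_one, mul_left_comm, ← map_mul, hab]
    have h2 := key (⟨z, hzE⟩ : E)⁻¹ ⟨c, eq_inv_of_mul_eq_one_right h1⟩ h'
    exact inv_inv z ▸ (cB k).fieldRange.inv_mem h2
  · refine key ⟨z, hzE⟩ ⟨c, ?_⟩ h
    apply mul_right_cancel₀ hb'
    rw [hab, map_mul, mul_comm]

end std

theorem exists_std (p : ℕ) [Fact p.Prime] (k : Type u) [Field k] [IsAlgClosed k] [CharP k p] :
    ∃ 𝒮 : Sett p (Big k), 𝒮.cst = (cB k).fieldRange ∧ ∀ f, ιB k f ∈ 𝒮.M := by
  classical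
  have hp := (Fact.out : p.Prime)
  let K := FractionRing (PowerSeries k)
  let M : Subfield (Big k) := (separableClosure K (Big k)).toSubfield
  have hM : ∀ z, z ∈ M ↔ IsSeparable K z := fun z => mem_separableClosure_iff
  have hι : ∀ f, ιB k f ∈ M := fun f => by
    have : ιB k f = algebraMap K (Big k) (algebraMap _ K f) := IsScalarTower.algebraMap_apply _ _ _ f
    rw [this]
    exact (separableClosure K (Big k)).algebraMap_mem _
  have pb : ∀ z ∈ M, ∃ c : Fin p → Big k, (∀ i, c i ∈ M) ∧
      z = ∑ i, c i ^ p * ιB k X ^ (i : ℕ) := by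
    intro z hz
    refine Big2_adj_form M (hι X) ?_
    refine Big2_sep_insep (K := K) (Ω := Big k) (p := p) (n := 1) (Big2_frac (k := k) fun f => ?_)
      ((hM z).1 hz) ?_
    · obtain ⟨ι, _, e, g, rfl⟩ := Big2_decomp (p := p) f
      rw [map_sum]
      refine Subfield.sum_mem _ fun α _ => ?_
      rw [map_mul, map_pow, map_pow]
      have h1 : ιB k X ∈ adj (M.map (frobenius (Big k) p)) {ιB k X} :=
        subset_adj _ _ (Set.mem_singleton _)
      have h2 : ιB k (g α) ^ p ∈ adj (M.map (frobenius (Big k) p)) {ιB k X} :=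
        le_adj _ _ ⟨ιB k (g α), hι _, frobenius_def ..⟩
      exact Subfield.mul_mem _ (Subfield.pow_mem _ h1 _) h2
    · rw [pow_one]
      exact le_adj _ _ ⟨z, hz, frobenius_def ..⟩
  have np : ¬ ∃ w ∈ M, w ^ p = ιB k X := by
    rintro ⟨w, hw, h⟩
    have h1 : w ∈ (algebraMap K (Big k)).fieldRange :=
      Big2_sep_insep (K := K) (Ω := Big k) (p := p) (n := 1) (N := (algebraMap K (Big k)).fieldRange)
        (fun a => RingHom.mem_fieldRange_self _ a) ((hM w).1 hw)
        (RingHom.mem_fieldRange.2 ⟨algebraMap _ K (X : PowerSeries k), by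
          rw [pow_one, h]; exact (IsScalarTower.algebraMap_apply _ _ _ _).symm⟩)
    obtain ⟨a, rfl⟩ := h1
    have h2 : a ^ p = algebraMap (PowerSeries k) K X := by
      apply (algebraMap K (Big k)).injective
      rw [map_pow, h]
      exact IsScalarTower.algebraMap_apply _ _ _ _
    obtain ⟨f, rfl⟩ := IsIntegrallyClosed.exists_algebraMap_eq_of_isIntegral_pow
      (R := PowerSeries k) hp.pos (h2 ▸ isIntegral_algebraMap)
    rw [← map_pow] at h2
    have h3 := IsFractionRing.injective (PowerSeries k) K h2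
    exact not_irreducible_pow hp.ne_one (h3 ▸ X_irreducible)
  have ins : ∀ z : Big k, ∃ m, z ^ p ^ m ∈ M := by
    intro z
    have : CharP (separableClosure K (Big k)) p :=
      (algebraMap _ (Big k)).charP Subtype.val_injective p
    obtain ⟨m, y, hy⟩ := IsPurelyInseparable.pow_mem (separableClosure K (Big k)) p z
    exact ⟨m, hy ▸ y.2⟩
  let 𝒮 : Sett p (Big k) := ⟨M, ιB k X, hι X, pb, np, ins⟩
  refine ⟨𝒮, le_antisymm (fun z hz => ?_) ?_, hι⟩
  · exact Big2_cst (p := p) (𝒮.mem_cst_iff_pow.1 hz) (𝒮.mem_cst_iff_pow.1 (𝒮.cst.inv_mem hz))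
  · rintro _ ⟨a, rfl⟩
    refine 𝒮.mem_cst_iff_pow.2 fun n => ?_
    obtain ⟨b, rfl⟩ := IsAlgClosed.exists_pow_nat_eq a (pow_pos hp.pos n)
    exact ⟨cB k b, hι _, (map_pow _ _ _).symm⟩

/-- Extension of embeddings to algebraic extensions. -/
theorem Big2_lift {P K L : Type u} [CommRing P] [IsDomain P] [Field K] [Field L] [IsAlgClosed L]
    (i : P →+* K) (hi : Function.Injective i) (j : P →+* L) (hj : Function.Injective j)
    (h : acl (Subfield.closure (Set.range i)) = ⊤) : ∃ φ : K →+* L, φ.comp i = j := by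
  let i' : FractionRing P →+* K := IsFractionRing.lift hi
  let j' : FractionRing P →+* L := IsFractionRing.lift hj
  let _ := i'.toAlgebra
  let _ := j'.toAlgebra
  have h1 : Subfield.closure (Set.range i) ≤ i'.fieldRange := by
    rw [Subfield.closure_le]
    rintro _ ⟨a, rfl⟩
    exact ⟨algebraMap _ _ a, IsFractionRing.lift_algebraMap hi a⟩
  have : Algebra.IsAlgebraic (FractionRing P) K := ⟨fun z => by
    have h2 : z ∈ acl i'.fieldRange := acl_mono h1 (h ▸ Subfield.mem_top z)
    exact (isAlgebraic_ringHom_iff_of_comp_eq i'.rangeRestrictFieldEquiv (RingHom.id K)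
      Function.injective_id rfl).1 (mem_acl.1 h2)⟩
  let φ : K →ₐ[FractionRing P] L := IsAlgClosed.lift
  refine ⟨φ, RingHom.ext fun a => ?_⟩
  have e1 : i a = algebraMap (FractionRing P) K (algebraMap P _ a) :=
    (IsFractionRing.lift_algebraMap hi a).symm
  rw [RingHom.comp_apply, e1]
  exact (φ.commutes _).trans (IsFractionRing.lift_algebraMap hj a)

theorem Big2_coe_inj (k : Type u) [Field k] :
    Function.Injective (Polynomial.eval₂RingHom (cB k) (ιB k X)) := by
  have : Polynomial.eval₂RingHom (cB k) (ιB k X) =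
      (ιB k).comp Polynomial.coeToPowerSeries.ringHom := by
    refine Polynomial.ringHom_ext (fun a => ?_) ?_
    · simp [cB]
    · simp
  rw [this]
  exact (ιB_inj k).comp (Polynomial.coe_injective k)

theorem exists_emb_curve {k E : Type u} [Field k] [IsAlgClosed k] [Field E] (j : k →+* E)
    (h : rk j.fieldRange (Set.univ : Set E) ≤ 1) : ∃ ψ : E →+* Big k, ψ.comp j = cB k := by
  by_cases h0 : (Set.univ : Set E) ⊆ acl j.fieldRange
  · refine Big2_lift j j.injective (cB k) (cB k).injective (eq_top_iff.2 fun z _ => ?_)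
    refine acl_mono ?_ (h0 (Set.mem_univ z))
    rintro _ ⟨a, rfl⟩
    exact Subfield.subset_closure ⟨a, rfl⟩
  · obtain ⟨x, -, hx⟩ := Set.not_subset.1 h0
    have hi : Function.Injective (Polynomial.eval₂RingHom j x) := by
      let _ := j.toAlgebra
      have h1 : Transcendental k x := fun h1 => hx (mem_acl.2
        ((isAlgebraic_ringHom_iff_of_comp_eq j.rangeRestrictFieldEquiv (RingHom.id E)
          Function.injective_id rfl).2 h1))
      exact transcendental_iff_injective.1 h1
    have h1 : rk (adj j.fieldRange {x}) (Set.univ : Set E) = 0 := by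
      have h2 := rk_union (E := j.fieldRange) (s := {x}) (t := Set.univ)
      rw [Set.union_univ] at h2
      have h3 : rk j.fieldRange {x} ≠ 0 := fun h3 => hx (rk_eq_zero.1 h3 rfl)
      by_contra h4
      have h5 : (1 : ℕ∞) + 1 ≤ 1 :=
        (add_le_add (Order.one_le_iff_ne_zero.2 h3) (Order.one_le_iff_ne_zero.2 h4)).trans
          (h2.symm.le.trans h)
      exact absurd h5 (by decide)
    obtain ⟨ψ, hψ⟩ := Big2_lift _ hi _ (Big2_coe_inj k) (eq_top_iff.2 fun z _ => by
      refine acl_mono (adj_le.2 ⟨?_, ?_⟩) (rk_eq_zero.1 h1 (Set.mem_univ z))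
      · rintro _ ⟨a, rfl⟩
        exact Subfield.subset_closure ⟨Polynomial.C a, by simp⟩
      · rintro _ rfl
        exact Subfield.subset_closure ⟨Polynomial.X, by simp⟩)
    refine ⟨ψ, RingHom.ext fun a => ?_⟩
    simpa using RingHom.congr_fun hψ (Polynomial.C a)

theorem Big2_indep (C : Type u) [Field C] [Countable C] (d : ℕ) :
    ∃ y : Fin d → PowerSeries C, AlgebraicIndependent C y := by
  classical
  obtain ⟨s, hs⟩ := exists_isTranscendenceBasis C (PowerSeries C)
  have hinf : Infinite s := by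
    by_contra hfin
    rw [not_infinite_iff_finite] at hfin
    have := hs.isAlgebraic
    have h1 := Algebra.IsAlgebraic.cardinalMk_le_max
      (Algebra.adjoin C (Set.range ((↑) : s → PowerSeries C))) (PowerSeries C)
    have h2 := Algebra.cardinalMk_adjoin_le C (Set.range ((↑) : s → PowerSeries C))
    have h3 : Cardinal.mk (PowerSeries C) ≤ Cardinal.aleph0 :=
      h1.trans (max_le (h2.trans (sup_le (sup_le Cardinal.mk_le_aleph0 Cardinal.mk_le_aleph0)
        le_rfl)) le_rfl)
    have h4 : Countable (PowerSeries C) := Cardinal.mk_le_aleph0_iff.1 h3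
    have h5 : Function.Injective fun S : Set ℕ =>
        (PowerSeries.mk fun n => if n ∈ S then 1 else 0 : PowerSeries C) := by
      intro S T hST
      ext n
      have := congrArg (coeff n) hST
      simp only [coeff_mk] at this
      by_cases h : n ∈ S <;> by_cases h' : n ∈ T <;> simp_all
    have h6 : Countable (Set ℕ) := h5.countable
    obtain ⟨f, hf⟩ := exists_surjective_nat (Set ℕ)
    exact Function.cantor_surjective f hf
  exact ⟨_, hs.1.comp (fun i : Fin d => Infinite.natEmbedding s i)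
    ((Infinite.natEmbedding s).injective.comp Fin.val_injective)⟩

theorem exists_emb {C K : Type u} [Field C] [IsAlgClosed C] [Countable C] [Field K] (c : C →+* K)
    (F : Finset K) (hK : acl (adj c.fieldRange (F : Set K)) = ⊤) :
    ∃ φ : K →+* Big C, φ.comp c = cB C ∧ ∀ z ∈ F, φ z ∈ VB C := by
  let _ := c.toAlgebra
  let R := Algebra.adjoin C (F : Set K)
  have : Algebra.FiniteType C R := (Subalgebra.fg_iff_finiteType R).1 ⟨F, rfl⟩
  obtain ⟨d, g, hg, hint⟩ := exists_integral_inj_algHom_of_fg C R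
  obtain ⟨y, hy⟩ := Big2_indep C d
  let i : MvPolynomial (Fin d) C →+* K := (R.val : R →+* K).comp g
  have hi : Function.Injective i := Subtype.val_injective.comp hg
  let a : MvPolynomial (Fin d) C →+* PowerSeries C := (MvPolynomial.aeval y).toRingHom
  have hiC : ∀ x, i (MvPolynomial.C x) = c x := fun x => congrArg Subtype.val (g.commutes x)
  have hF : ∀ z ∈ F, i.IsIntegralElem z := fun z hz =>
    (hint ⟨z, Algebra.subset_adjoin hz⟩).map (R.val : R →+* K)
  obtain ⟨φ, hφ⟩ := Big2_lift i hi ((ιB C).comp a) ((ιB_inj C).comp hy) (by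
    rw [eq_top_iff, ← hK]
    refine LD2_acl_le (adj_le.2 ⟨?_, fun z hz => ?_⟩)
    · rintro _ ⟨x, rfl⟩
      exact le_acl _ (Subfield.subset_closure ⟨_, hiC x⟩)
    · let E := Subfield.closure (Set.range i)
      let i' : MvPolynomial (Fin d) C →+* E :=
        i.codRestrict E fun x => Subfield.subset_closure ⟨x, rfl⟩
      have h1 : (E.subtype.comp i').IsIntegralElem z := hF z hz
      have h2 : IsIntegral E z := h1.of_comp
      exact mem_acl.2 h2.isAlgebraic)
  refine ⟨φ, RingHom.ext fun x => ?_, fun z hz => ?_⟩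
  · rw [RingHom.comp_apply, ← hiC]
    refine (RingHom.congr_fun hφ _).trans ?_
    exact congrArg (ιB C) ((MvPolynomial.aeval y).commutes x)
  · have h1 := (hF z hz).map φ
    rw [hφ] at h1
    exact (mem_VB C).2 h1.of_comp

/-- The algebraic closure of the prime field. -/
theorem acl_bot_alg (p : ℕ) [Fact p.Prime] {K : Type u} [Field K] [CharP K p]
    (z : acl (⊥ : Subfield K)) : ∃ n, 0 < n ∧ z ^ p ^ n = z := by
  let _ := Subfield.fintypeBot K p
  let L := IntermediateField.adjoin (⊥ : Subfield K) {(z : K)}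
  have : FiniteDimensional (⊥ : Subfield K) L :=
    IntermediateField.adjoin.finiteDimensional (mem_acl.1 z.2).isIntegral
  have : Finite L := Module.finite_of_finite (⊥ : Subfield K)
  let _ := Fintype.ofFinite L
  have : CharP L p := (algebraMap L K).charP (algebraMap L K).injective p
  obtain ⟨n, -, hn⟩ := FiniteField.card L p
  have h := FiniteField.pow_card (⟨z, IntermediateField.mem_adjoin_simple_self _ _⟩ : L)
  rw [hn] at h
  have h' : (z : K) ^ p ^ (n : ℕ) = z := congrArg (fun x : L => (x : K)) h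
  exact ⟨n, n.2, Subtype.ext h'⟩

theorem countable_of_alg (p : ℕ) [Fact p.Prime] {C : Type u} [Field C] [CharP C p]
    (h : ∀ z : C, ∃ n, 0 < n ∧ z ^ p ^ n = z) : Countable C := by
  have hp := (Fact.out : p.Prime)
  rw [← Set.countable_univ_iff]
  refine (Set.countable_iUnion fun n : ℕ => (Polynomial.finite_setOfPred_isRoot
    (FiniteField.X_pow_card_pow_sub_X_ne_zero C n.succ_ne_zero hp.one_lt)).countable).mono ?_
  intro z _
  obtain ⟨n, hn, hz⟩ := h z
  obtain ⟨m, rfl⟩ := Nat.exists_eq_succ_of_ne_zero hn.ne'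
  exact Set.mem_iUnion.2 ⟨m, by simp [hz]⟩

/-- A finite set is fixed by a power of Frobenius. -/
theorem exists_frob_fix (p : ℕ) [Fact p.Prime] {C : Type u} [Field C] [CharP C p]
    (h : ∀ z : C, ∃ n, 0 < n ∧ z ^ p ^ n = z) (F : Finset C) :
    ∃ n, 0 < n ∧ ∀ z ∈ F, ∀ m, z ^ p ^ (n * m) = z := by
  choose n hn hz using h
  have key : ∀ z m, z ^ p ^ (n z * m) = z := by
    intro z m
    induction m with
    | zero => simp
    | succ m ih => rw [Nat.mul_succ, pow_add, pow_mul, ih, hz]
  refine ⟨∏ z ∈ F, n z, Finset.prod_pos fun z _ => hn z, fun z hzF m => ?_⟩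
  obtain ⟨c, hc⟩ := Finset.dvd_prod_of_mem n hzF
  rw [hc, mul_assoc]
  exact key z _

end MLF
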