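import Pool.Agent.Work.MP_29d410_ag.FL3
import Pool.Agent.Work.MP_29d410_ag.Arc

-- merged part: Pool.Agent.Work.MP_29d410_ag.CaseU1
section
/-!
# Finiteness of the twisted jets

Plan.  `push_D_eq`: for `z ∈ 𝒮.M`, `z = w ^ p ^ m` with `w` in the level `m`, so
`D₀ z - C z = (D₀ w - C w) ^ p ^ m`.
`uf`: let `O = Perf p K`, `T = O / eP 0` (local, its maximal ideal is nil, so admissible by
`Adm.of_nil` with the zero ideal).  The structures pushed along `mk ∘ DO` and `mk ∘ iP` agree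
(`DO_sub_mem`), `J x = e' (c (map (mk ∘ DO) x - map (mk ∘ iP) x))` is an additive map from `A(K)` to the
points of `d.H` over `T` (`cH`, `IsHom.act`), which kills the points rational over `𝒮.M`.
Let `a = d.a l`, `π` the projection on the block `a` (`DMD.proj`), `p ^ j > r`.  By
`SmallQ.finite_tors` the set `Σ` of the elements of `π J Λ` killed by `p ^ (R (j + a))` is finite.
For `x` of level `m ≥ j` let `n = (m - j) / a`, `m' = m - a n ∈ [j, j + a)`.  If `f` lifts the component `l` of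
the jet over `K⟦ε⟧ / ε ^ p ^ m`, then `(J x) l = mk (ιP m f)` (`DO_lev`, `c_map`, `TN.map_ev` for the map
`K⟦ε⟧ / ε ^ p ^ m → T` induced by `ιP m`); `π (p ^ (R n) • J x) ∈ Σ` has component
`mk (ιP m' (map frob ^ (a n) f))` (`ιP_pow`), which determines `coeff r f ^ p ^ (a n)`
(`ιP_mem_span`), and `w ≡ f` modulo `ε ^ P`.  The finitely many `m < j` are treated with `n = 0`.
-/

open PowerSeries

namespace MLF

universe u

open PG Sett

variable {p : ℕ} [Fact p.Prime] {K : Type u} [Field K] [CharP K p] [IsAlgClosed K]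

instance quot_mx_local (K : Type u) [Field K] (P : ℕ) :
    IsLocalRing (PowerSeries K ⧸ mx K ^ (P + 1)) := by
  have h : mx K ^ (P + 1) ≠ ⊤ := fun h => by
    have h1 : (1 : PowerSeries K) ∈ mx K ^ (P + 1) := h ▸ Submodule.mem_top
    simpa using mem_mx_pow.1 h1 0 (Nat.succ_pos _)
  have : Nontrivial (PowerSeries K ⧸ mx K ^ (P + 1)) := Ideal.Quotient.nontrivial_iff.2 h
  exact IsLocalRing.of_surjective' (Ideal.Quotient.mk _) Ideal.Quotient.mk_surjective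

/-- The inclusion in a level. -/
noncomputable def Sett.toLev (𝒮 : Sett p K) (m : ℕ) : 𝒮.M →+* (𝒮.lev m).M :=
  Subfield.inclusion (by
    rw [𝒮.lev_M]; intro z hz; exact (mem_root p).2 (𝒮.M.pow_mem hz _))

theorem Sett.push_D_eq (𝒮 : Sett p K) {m P : ℕ} (hP : P ≤ p ^ m) :
    ((Ideal.Quotient.mk (mx K ^ P)).comp (𝒮.lev m).D₀).comp (𝒮.toLev m) =
      ((Ideal.Quotient.mk (mx K ^ P)).comp C).comp 𝒮.M.subtype := by
  refine RingHom.ext fun z => ?_
  have hp : 0 < p ^ m := pow_pos (Fact.out : p.Prime).pos _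
  obtain ⟨w, hw⟩ := IsAlgClosed.exists_pow_nat_eq (z : K) hp
  have hwm : w ∈ (𝒮.lev m).M := by
    rw [𝒮.lev_M, mem_root, hw]
    exact z.2
  have e : 𝒮.toLev m z = (⟨w, hwm⟩ : (𝒮.lev m).M) ^ p ^ m := Subtype.ext hw.symm
  have := Set1_charP (p := p) K
  simp only [RingHom.comp_apply, Subfield.coe_subtype]
  rw [Ideal.Quotient.eq, e, ← hw, map_pow, map_pow, ← sub_pow_char_pow]
  refine Ideal.pow_le_pow_right hP (Ideal.pow_mem_pow (Set1_mx ?_) _)
  rw [cc_D₀, constantCoeff_C]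

theorem CaseU1_nil (K : Type u) [Field K] (P : ℕ) {z : PowerSeries K ⧸ mx K ^ (P + 1)}
    (hz : z ∈ IsLocalRing.maximalIdeal _) : z ^ (P + 1) = 0 := by
  obtain ⟨f, rfl⟩ := Ideal.Quotient.mk_surjective z
  have : IsLocalHom (Ideal.Quotient.mk (mx K ^ (P + 1))) :=
    IsLocalHom.of_surjective _ Ideal.Quotient.mk_surjective
  have h : f ∈ IsLocalRing.maximalIdeal (PowerSeries K) := by
    rw [← IsLocalRing.maximalIdeal_comap (Ideal.Quotient.mk (mx K ^ (P + 1)))]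
    exact hz
  rw [maximalIdeal_eq_span_X] at h
  rw [← map_pow, Ideal.Quotient.eq_zero_iff_mem]
  exact Ideal.pow_mem_pow h _

theorem CaseU1_mem (K : Type u) [Field K] (P : ℕ) {f : PowerSeries K} (hf : f ∈ mx K) :
    Ideal.Quotient.mk (mx K ^ (P + 1)) f ∈ IsLocalRing.maximalIdeal _ := by
  refine nilradical_le_prime _ (mem_nilradical.2 ⟨P + 1, ?_⟩)
  rw [← map_pow, Ideal.Quotient.eq_zero_iff_mem]
  exact Ideal.pow_mem_pow hf _

variable (p K) in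
/-- The perfection of the power series ring modulo `ε`. -/
abbrev CaseU1T : Type u := Perf p K ⧸ Ideal.span {eP p K 0}

theorem CaseU1_ne : Ideal.span {eP p K 0} ≠ ⊤ := by
  refine ne_top_of_le_ne_top (IsLocalRing.maximalIdeal.isMaximal (Perf p K)).ne_top ?_
  rw [Ideal.span_singleton_le_iff_mem, ← ker_resP, RingHom.mem_ker, eP, resP_ιP, constantCoeff_X]

instance CaseU1_local : IsLocalRing (CaseU1T p K) :=
  have : Nontrivial (CaseU1T p K) := Ideal.Quotient.nontrivial_iff.2 CaseU1_ne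
  IsLocalRing.of_surjective' (Ideal.Quotient.mk _) Ideal.Quotient.mk_surjective

theorem CaseU1_nil' {z : CaseU1T p K} (hz : z ∈ IsLocalRing.maximalIdeal _) : IsNilpotent z := by
  obtain ⟨f, rfl⟩ := Ideal.Quotient.mk_surjective z
  have : IsLocalHom (Ideal.Quotient.mk (Ideal.span {eP p K 0})) :=
    IsLocalHom.of_surjective _ Ideal.Quotient.mk_surjective
  have h : f ∈ IsLocalRing.maximalIdeal (Perf p K) := by
    rw [← IsLocalRing.maximalIdeal_comap (Ideal.Quotient.mk (Ideal.span {eP p K 0}))]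
    exact hz
  rw [← ker_resP] at h
  obtain ⟨n, hn⟩ := pow_mem_of_resP h 0
  exact ⟨n, by rw [← map_pow, Ideal.Quotient.eq_zero_iff_mem]; exact hn⟩

theorem CaseU1_mem' {f : Perf p K} (hf : resP p K f = 0) :
    Ideal.Quotient.mk (Ideal.span {eP p K 0}) f ∈ IsLocalRing.maximalIdeal (CaseU1T p K) := by
  obtain ⟨n, hn⟩ := pow_mem_of_resP hf 0
  exact nilradical_le_prime _
    (mem_nilradical.2 ⟨n, by rw [← map_pow, Ideal.Quotient.eq_zero_iff_mem]; exact hn⟩)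

instance CaseU1_adm : Adm (IsLocalRing.maximalIdeal (CaseU1T p K)) :=
  Adm.of_nil (𝔠 := ⊥) bot_le fun _ hz => CaseU1_nil' hz

theorem CaseU1_ev_map (A : SPG.{u}) {S T T' : Type u} [CommRing S] [CommRing T] [IsLocalRing T]
    [CommRing T'] [IsLocalRing T'] (θ : T →+* T')
    (hnil : ∀ z ∈ IsLocalRing.maximalIdeal T, IsNilpotent z) {t : A.Str T} {t' : A.Str T'}
    (h : A.push θ t = t') {y : A.Pt t} (hy : Cong (IsLocalRing.maximalIdeal T) y (0 : A.Pt t))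
    (φ : S →+* T) (g : MvPowerSeries A.τ S) :
    θ (ev φ (A.c y) g) = ev (θ.comp φ) (A.c (A.map θ h y)) g := by
  have n : ∀ i, IsNilpotent (A.c y i) := fun i =>
    hnil _ (SPG.c_mem (IsLocalRing.maximalIdeal.isMaximal T).ne_top hy i)
  rw [SPG.c_map θ h hy (SPG.Chart_cong_map θ h
    (fun z hz => nilradical_le_prime _ ((hnil z hz).map θ)) hy)]
  exact (TN.of_nil n).map_ev θ (TN.of_nil fun i => (n i).map θ) φ g

theorem CaseU1_nsmul {τ : Type} [Finite τ] {G : FGL K τ} (d : DMD p G) {T : Type u} [CommRing T]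
    {φ : K →+* T} {𝔞 : Ideal T} [Adm 𝔞] (z : d.H.Pts φ 𝔞) (n : ℕ) (l : d.ρ) :
    (p ^ (d.R * n) • z).v l = z.v l ^ p ^ (d.a l * n) := by
  induction n with
  | zero => simp
  | succ n ih =>
    rw [mul_add, mul_one, pow_add, mul_comm, mul_smul, FGL.Pts.nsmul_v, d.mulH, map_pow,
      (FGL.Pts.tn _).ev_X, ih, ← pow_mul, ← pow_add, mul_add, mul_one]

theorem CaseU1_val (m' r : ℕ) (hr : r < p ^ m') (z : CaseU1T p K) :
    {c : K | ∃ g, z = Ideal.Quotient.mk _ (ιP p K m' g) ∧ c = coeff r g ^ p ^ m'}.Subsingleton := by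
  rintro _ ⟨g, e, rfl⟩ _ ⟨g', e', rfl⟩
  rw [e, Ideal.Quotient.eq, ← map_sub] at e'
  have h := (ιP_mem_span (p := p) (m := 0) (n := m') (N := 1) (g - g')).1
    (by rwa [pow_one, zero_add])
  have := mem_mx_pow.1 h r (by rwa [one_mul])
  rw [map_sub, sub_eq_zero] at this
  rw [this]

theorem CaseU1_jet (A : SPG.{u}) {𝒮 : Sett p K} {sL : A.Str 𝒮.M} {s : A.Str K}
    (hL : A.push 𝒮.M.subtype sL = s) {tT : A.Str (CaseU1T p K)}
    (g₁ : A.push ((Ideal.Quotient.mk _).comp 𝒮.DO) s = tT)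
    (g₂ : A.push ((Ideal.Quotient.mk _).comp (iP p K)) s = tT) {m P : ℕ} (hP : P + 1 ≤ p ^ m)
    {sm : A.Str (𝒮.lev m).M} (hs : A.push (𝒮.toLev m) sL = sm)
    (hm : A.push (𝒮.lev m).M.subtype sm = s) {t : A.Str (PowerSeries K ⧸ mx K ^ (P + 1))}
    (h₁ : A.push ((Ideal.Quotient.mk _).comp (𝒮.lev m).D₀) sm = t)
    (h₂ : A.push ((Ideal.Quotient.mk _).comp C) s = t) (x : A.Pt sm) (g : MvPowerSeries A.τ K)
    (hg : MvPowerSeries.constantCoeff g = 0) : ∃ f : PowerSeries K,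
      ev ((Ideal.Quotient.mk _).comp (iP p K))
        (A.c (A.map _ g₁ (A.map _ hm x) - A.map _ g₂ (A.map _ hm x))) g =
          Ideal.Quotient.mk _ (ιP p K m f) ∧
      Ideal.Quotient.mk (Ideal.span {eP p K 0}) (ιP p K m f) ^ p ^ m = 0 ∧
      ev ((Ideal.Quotient.mk _).comp C) (A.c (A.map _ h₁ x - A.map _ h₂ (A.map _ hm x))) g =
        Ideal.Quotient.mk _ f := by
  obtain ⟨Q, hQ⟩ : ∃ Q, p ^ m = Q + 1 :=
    ⟨p ^ m - 1, (Nat.sub_add_cancel (pow_pos (Fact.out : p.Prime).pos _)).symm⟩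
  have k₁ : A.push ((Ideal.Quotient.mk (mx K ^ (Q + 1))).comp (𝒮.lev m).D₀) sm =
      A.push ((Ideal.Quotient.mk (mx K ^ (Q + 1))).comp C) s := by
    rw [← hs, ← hL, A.ax.push_comp, A.ax.push_comp, 𝒮.push_D_eq hQ.ge]
  have hnil : ∀ z ∈ IsLocalRing.maximalIdeal (PowerSeries K ⧸ mx K ^ (Q + 1)), IsNilpotent z :=
    fun z hz => ⟨_, CaseU1_nil K Q hz⟩
  have hy : Cong (IsLocalRing.maximalIdeal _) (A.map _ k₁ x - A.map _ rfl (A.map _ hm x))
      (0 : A.Pt (A.push ((Ideal.Quotient.mk (mx K ^ (Q + 1))).comp C) s)) := by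
    obtain ⟨v, hv⟩ := A.ax.exists_rep x
    rw [← cong_iff_sub, map_map]
    refine cong_map_map _ _ hv fun i => ?_
    simp only [RingHom.comp_apply, Subfield.coe_subtype]
    rw [← map_sub]
    exact CaseU1_mem K Q (Set1_mx (by rw [cc_D₀, constantCoeff_C]))
  obtain ⟨f, hf⟩ := Ideal.Quotient.mk_surjective (ev ((Ideal.Quotient.mk (mx K ^ (Q + 1))).comp C)
    (A.c (A.map _ k₁ x - A.map _ rfl (A.map _ hm x))) g)
  have hθ : ∀ a ∈ mx K ^ (Q + 1),
      (Ideal.Quotient.mk (Ideal.span {eP p K 0})).comp (ιP p K m) a = 0 := fun a ha => by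
    rw [RingHom.comp_apply, Ideal.Quotient.eq_zero_iff_mem]
    have := (ιP_mem_span (p := p) (m := 0) (n := m) (N := 1) a).2 (by rwa [one_mul, hQ])
    rwa [pow_one, zero_add] at this
  have hρ : mx K ^ (Q + 1) ≤ mx K ^ (P + 1) := Ideal.pow_le_pow_right (hQ ▸ hP)
  have θ₁ : (Ideal.Quotient.lift _ _ hθ).comp ((Ideal.Quotient.mk _).comp (𝒮.lev m).D₀) =
      ((Ideal.Quotient.mk _).comp 𝒮.DO).comp (𝒮.lev m).M.subtype := RingHom.ext fun z => by
    simp only [RingHom.comp_apply, Subfield.coe_subtype, Ideal.Quotient.lift_mk, 𝒮.DO_lev]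
  have θ₂ : (Ideal.Quotient.lift _ _ hθ).comp ((Ideal.Quotient.mk _).comp C) =
      (Ideal.Quotient.mk _).comp (iP p K) := RingHom.ext fun z => by
    simp only [RingHom.comp_apply, Ideal.Quotient.lift_mk, ιP_C]
  have θ₃ : A.push (Ideal.Quotient.lift _ _ hθ) (A.push ((Ideal.Quotient.mk _).comp C) s) = tT := by
    rw [A.ax.push_comp, θ₂, g₂]
  have ρ₃ : A.push (Ideal.Quotient.factor hρ) (A.push ((Ideal.Quotient.mk _).comp C) s) = t := by
    rw [A.ax.push_comp, ← h₂]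
    rfl
  refine ⟨f, ?_, ?_, ?_⟩
  · have := CaseU1_ev_map A _ hnil θ₃ hy ((Ideal.Quotient.mk _).comp C) g
    rw [← hf, map_sub, map_map, map_map, map_congr θ₁ _ (push_trans hm g₁),
      map_congr θ₂ _ g₂, θ₂, ← map_map hm g₁] at this
    exact this.symm
  · have h0 : Ideal.Quotient.mk (mx K ^ (Q + 1)) f ^ (Q + 1) = 0 := by
      refine CaseU1_nil K Q ?_
      have c := SPG.c_mem (IsLocalRing.maximalIdeal.isMaximal _).ne_top hy
      rw [hf]
      exact (TN.of_nil fun i => hnil _ (c i)).ev_mem _ hg c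
    have := congrArg (Ideal.Quotient.lift _ _ hθ) h0
    rw [map_pow, map_zero] at this
    rwa [hQ]
  · have := CaseU1_ev_map A _ hnil ρ₃ hy ((Ideal.Quotient.mk _).comp C) g
    rw [← hf, map_sub, map_map, map_map] at this
    exact this.symm

theorem SPG.uf (A : SPG.{u}) {𝒮 : Sett p K} {sL : A.Str 𝒮.M} {s : A.Str K}
    (hL : A.push 𝒮.M.subtype sL = s) (d : DMD p (SPG.fgl s)) {Λ₀ Λ : AddSubgroup (A.Pt s)}
    (h₀ : ∀ z ∈ Λ₀, Rat 𝒮.M z) (hΛ : SmallQ p Λ₀ Λ) (l : d.ρ) (r : ℕ) :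
    ∃ F : Set K, F.Finite ∧ ∀ (m P : ℕ), r ≤ P → P + 1 ≤ p ^ m → ∀ (sm : A.Str (𝒮.lev m).M)
      (_ : A.push (𝒮.toLev m) sL = sm) (hm : A.push (𝒮.lev m).M.subtype sm = s)
      (t : A.Str (PowerSeries K ⧸ mx K ^ (P + 1)))
      (h₁ : A.push ((Ideal.Quotient.mk _).comp (𝒮.lev m).D₀) sm = t)
      (h₂ : A.push ((Ideal.Quotient.mk _).comp C) s = t) (x : A.Pt sm), A.map _ hm x ∈ Λ →
      ∀ w : PowerSeries K, Ideal.Quotient.mk _ w = ev ((Ideal.Quotient.mk _).comp C)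
        (A.c (A.map _ h₁ x - A.map _ h₂ (A.map _ hm x))) (d.e' l) →
      coeff r w ^ p ^ m ∈ F := by
  classical
  have hp := (Fact.out : p.Prime)
  have e₀ : ∀ z ∈ 𝒮.M, (Ideal.Quotient.mk (Ideal.span {eP p K 0})).comp 𝒮.DO z =
      (Ideal.Quotient.mk (Ideal.span {eP p K 0})).comp (iP p K) z := fun z hz =>
    Ideal.Quotient.eq.2 (𝒮.DO_sub_mem (m := 0) (by rwa [mem_root, pow_zero, pow_one]))
  have g₁ : A.push ((Ideal.Quotient.mk (Ideal.span {eP p K 0})).comp 𝒮.DO) s =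
      A.push ((Ideal.Quotient.mk (Ideal.span {eP p K 0})).comp (iP p K)) s := by
    rw [← hL, A.ax.push_comp, A.ax.push_comp]
    congr 1
    exact RingHom.ext fun z => e₀ z z.2
  have hδ : ∀ x : A.Pt s, (A.map _ g₁ - A.map _ rfl : A.Pt s →+ _) x ∈
      K1 (IsLocalRing.maximalIdeal (CaseU1T p K))
        (A.push ((Ideal.Quotient.mk (Ideal.span {eP p K 0})).comp (iP p K)) s) := fun x => by
    obtain ⟨v, hv⟩ := A.ax.exists_rep x
    rw [mem_K1, AddMonoidHom.sub_apply, ← cong_iff_sub]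
    refine cong_map_map _ _ hv fun i => ?_
    rw [RingHom.comp_apply, RingHom.comp_apply, ← map_sub]
    exact CaseU1_mem' (by rw [map_sub, resP_DO, resP_iP, sub_self])
  let J := (((d.proj p {d.a l}).act _ _).comp ((d.he'.act _ _).comp
    (SPG.cH _ rfl (IsLocalRing.maximalIdeal.isMaximal _).ne_top))).comp
      (AddMonoidHom.codRestrict _ _ hδ)
  have hJ : ∀ x l', (J x).v l' = if d.a l' = d.a l then ev ((Ideal.Quotient.mk _).comp (iP p K))
      (A.c (A.map _ g₁ x - A.map _ rfl x)) (d.e' l') else 0 := fun x l' => by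
    simp only [J, AddMonoidHom.comp_apply, IsHom.act_v, Set.mem_singleton_iff]
    split_ifs
    · rw [(FGL.Pts.tn _).ev_X]
      rfl
    · exact map_zero _
  have hJ₀ : ∀ z ∈ Λ₀, J z = 0 := fun z hz => by
    obtain ⟨v, hv, hv'⟩ := rat_iff.1 (h₀ z hz)
    have : AddMonoidHom.codRestrict _ _ hδ z = 0 :=
      Subtype.ext (sub_eq_zero.2 (map_congr' _ _ hv fun i => e₀ _ (hv' i)))
    simp only [J, AddMonoidHom.comp_apply, this, map_zero]
  have ha := d.a_pos p l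
  refine ⟨⋃ σ ∈ {w | (∃ x ∈ Λ, J x = w) ∧ p ^ (d.R * (r + d.a l)) • w = 0},
    ⋃ m' ∈ {m' | m' < r + d.a l ∧ r < p ^ m'},
      {c : K | ∃ g, σ.v l = Ideal.Quotient.mk _ (ιP p K m' g) ∧ c = coeff r g ^ p ^ m'},
    (hΛ.finite_tors J hJ₀ _).biUnion fun σ _ => ((Set.finite_lt_nat _).subset
      fun _ h => h.1).biUnion fun m' h => (CaseU1_val m' r h.2 _).finite, ?_⟩
  intro m P hr hP sm hs hm t h₁ h₂ x hx w hw
  obtain ⟨n, m', rfl, b₁, b₂⟩ : ∃ n m', m = m' + d.a l * n ∧ m' < r + d.a l ∧ r < p ^ m' := by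
    by_cases c : r ≤ m
    · refine ⟨(m - r) / d.a l, r + (m - r) % d.a l, ?_, ?_, ?_⟩
      · rw [add_assoc, Nat.mod_add_div, Nat.add_sub_cancel' c]
      · exact Nat.add_lt_add_left (Nat.mod_lt _ ha) _
      · exact (Nat.lt_pow_self hp.one_lt).trans_le
          (Nat.pow_le_pow_right hp.pos (Nat.le_add_right _ _))
    · exact ⟨0, m, by simp, by omega, by omega⟩
  have H := fun l' => CaseU1_jet A hL g₁ rfl hP hs hm h₁ h₂ x (d.e' l') (d.he'.cc l')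
  simp only [Set.mem_iUnion, Set.mem_setOf_eq, exists_prop]
  refine ⟨p ^ (d.R * n) • J (A.map _ hm x), ⟨⟨_, Λ.nsmul_mem hx _, map_nsmul _ _ _⟩, ?_⟩,
    m', ⟨b₁, b₂⟩, ?_⟩
  · refine FGL.Pts.ext (funext fun l' => ?_)
    rw [CaseU1_nsmul, CaseU1_nsmul, hJ, ← pow_mul, ← pow_add]
    split_ifs with c
    · obtain ⟨f, f₁, f₂, -⟩ := H l'
      rw [f₁, c]
      refine pow_eq_zero_of_le (Nat.pow_le_pow_right hp.pos ?_) f₂
      have := Nat.le_mul_of_pos_left (r + d.a l) ha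
      omega
    · exact zero_pow (pow_pos hp.pos _).ne'
  · obtain ⟨f, f₁, -, f₃⟩ := H l
    refine ⟨map (iterateFrobenius K p (d.a l * n)) f, ?_, ?_⟩
    · rw [CaseU1_nsmul, hJ, if_pos rfl, f₁, ← map_pow, ιP_pow]
    · rw [f₃, Ideal.Quotient.eq] at hw
      have := mem_mx_pow.1 hw r (Nat.lt_succ_of_le hr)
      rw [map_sub, sub_eq_zero] at this
      rw [this, coeff_map, iterateFrobenius_def, ← pow_mul, ← pow_add, add_comm]

end MLF
end

-- merged part: Pool.Agent.Work.MP_29d410_ag.CaseU2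
section
/-!
# Unbounded level: the ultraproduct and the derivative of the generic point

Plan.  Choose `m₀` such that `s` is defined over, and `Λ₀` rational over, `root p m₀ 𝒮.M`; put
`𝒮₁ = 𝒮.lev m₀`.  `m x` is the least `m` with `Rat (root p m 𝒮₁.M) x`.  `𝒰` from `exists_ultra`; as
the points of level `≤ n` are not dense, `m → ∞` along `𝒰` (`subset_cl_of_gpt`).  `usett`.  The germ of
the identity is rational over `e 𝒯.M`, comes from `x_M` over `𝒯.M`; `x` is not rational over the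
`p`-th powers of `𝒯.M` (else `x i` has level `m i - 1` almost everywhere), so not over `𝒯.cst`
(`mem_cst_iff_pow`).  As `d K ⊆ cst`, `D₀ ∘ d = C ∘ d`; `ω' = map D₀ x_M - map C x ∈ K1 (ε)` over `E⟦ε⟧`,
`y = e' (c ω')`.  Claim: the coefficients of `y l` lie in `ι K`.  Modulo `ε ^ (P + 1)`, the image of
`ω'` under `map e` is the image under `exists_gtrunc` of the germ of the points
`ξ i = map (mk ∘ D₀) (x i) - map (mk ∘ C) (x i)` (compare coordinate vectors; put `ξ i = 0` when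
`p ^ m i ≤ P`); `c_gpt`, `c_map`; an evaluation `ev` at nilpotent arguments is a polynomial
(`TN.ev_mem_pow`, `ev_sub_mem'`, `TN.ev_coe`), so commutes with germs.  So `e (coeff r (y l))` is the germ
of `coeff r (w i)`, and by `uf` `coeff r (w i) ^ p ^ m i` is almost everywhere a fixed `z ∈ F`.
Then `ω = p ^ (R c) • ω'` has `c ω = e (y)` (`c_nsmul`, `ee'`), and `x₁ + ω = D x₁ ∈ ext X₁` for
`x₁ = p ^ (R c) • x`; `arc_alg` with `i = id`, `TorsFin.stab_nsmul`.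
-/

open PowerSeries Filter

namespace MLF

universe u

open PG Sett

theorem CaseU2_ev {I : Type u} (𝒰 : Ultrafilter I) {S T : Type u} [CommRing S] [CommRing T]
    {τ : Type} [Finite τ] (φ : S →+* T) (x : I → τ → T) {N : ℕ} (h : ∀ i a, x i a ^ N = 0)
    (f : MvPowerSeries τ S) :
    ev ((gc 𝒰 T).comp φ) (fun a => gm 𝒰 fun i => x i a) f = gm 𝒰 fun i => ev φ (x i) f := by
  have hx : TN (fun a i => x i a : τ → I → T) :=
    TN.of_nil fun a => ⟨N, funext fun i => h i a⟩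
  have h1 := hx.map_ev (GermH 𝒰) (TN.of_nil fun a =>
    IsNilpotent.map (⟨N, funext fun i => h i a⟩ : IsNilpotent (fun i => x i a : I → T)) _)
    ((Pi.constRingHom I T).comp φ) f
  have h2 : ∀ i, ev ((Pi.constRingHom I T).comp φ) (fun a i => x i a : τ → I → T) f i =
      ev φ (x i) f := fun i =>
    hx.map_ev (Pi.evalRingHom (fun _ => T) i) (TN.of_nil fun a => ⟨N, h i a⟩)
      ((Pi.constRingHom I T).comp φ) f
  rw [← funext h2]
  exact h1.symm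

theorem CaseU2_C {I : Type u} (𝒰 : Ultrafilter I) {T : Type u} [CommRing T] (f : I → T) :
    GermPS 𝒰 (fun i => C (f i)) = C (gm 𝒰 f) := by
  ext n
  rw [GermPS_coeff]
  simp only [coeff_C]
  split_ifs
  · rfl
  · rfl

theorem CaseU2_nil {K : Type u} [Field K] {P : ℕ} {z : PowerSeries K ⧸ mx K ^ (P + 1)}
    (hz : z ∈ (mx K).map (Ideal.Quotient.mk (mx K ^ (P + 1)))) : z ^ (P + 1) = 0 := by
  obtain ⟨f, hf, rfl⟩ := (Ideal.mem_map_iff_of_surjective _ Ideal.Quotient.mk_surjective).1 hz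
  rw [← map_pow, Ideal.Quotient.eq_zero_iff_mem]
  exact Ideal.pow_mem_pow hf _

theorem CaseU2_max {T : Type u} [CommRing T] [IsLocalRing T] {z : T} (hz : IsNilpotent z) :
    z ∈ IsLocalRing.maximalIdeal T := fun hu => by
  obtain ⟨n, hn⟩ := hz
  exact not_isUnit_zero (hn ▸ hu.pow n)

theorem CaseU2_ne {K : Type u} [Field K] (P : ℕ) :
    (mx K).map (Ideal.Quotient.mk (mx K ^ (P + 1))) ≠ ⊤ := fun h => by
  have h1 := CaseU2_nil (P := P) (z := 1) (h ▸ Submodule.mem_top)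
  rw [one_pow] at h1
  exact one_ne_zero h1

/-- The jet of the germ is the germ of the jets. -/
theorem CaseU2_jet (A : SPG.{u}) {I : Type u} (𝒰 : Ultrafilter I) {K E : Type u} [Field K]
    [Field E] {e : E →+* UP 𝒰 K} {d : K →+* E} (hed : e.comp d = gc 𝒰 K) {s : A.Str K}
    {sR : A.Str (PowerSeries E)} (hR : A.push ((C : E →+* _).comp d) s = sR) (P : ℕ)
    {t : A.Str (PowerSeries K ⧸ mx K ^ (P + 1))}
    (ht : A.push ((Ideal.Quotient.mk _).comp C) s = t) {a b : A.Pt sR} {η ζ : I → A.Pt t}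
    {va vb : A.σ → PowerSeries E} {ua ub : I → A.σ → PowerSeries K} (ha : A.Rep a va)
    (hb : A.Rep b vb) (hη : ∀ᶠ i in (𝒰 : Filter I), A.Rep (η i) (Ideal.Quotient.mk _ ∘ ua i))
    (hζ : ∀ᶠ i in (𝒰 : Filter I), A.Rep (ζ i) (Ideal.Quotient.mk _ ∘ ub i))
    (ea : ∀ k, map e (va k) = GermPS 𝒰 fun i => ua i k)
    (eb : ∀ k, map e (vb k) = GermPS 𝒰 fun i => ub i k)
    (h0 : Cong (mx E) (a - b) (0 : A.Pt sR))
    (h1 : ∀ i, Cong ((mx K).map (Ideal.Quotient.mk _)) (η i - ζ i) (0 : A.Pt t))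
    (f : MvPowerSeries A.τ K) {w : I → PowerSeries K}
    (hw : ∀ i, Ideal.Quotient.mk _ (w i) =
      ev ((Ideal.Quotient.mk _).comp C) (A.c (η i - ζ i)) f) :
    e (coeff P (ev ((C : E →+* _).comp d) (A.c (a - b)) f)) = gm 𝒰 fun i => coeff P (w i) := by
  obtain ⟨θ, hθ'⟩ := exists_gtrunc 𝒰 K (P + 1)
  have hθ : ∀ g : I → PowerSeries K, θ (gm 𝒰 fun i => Ideal.Quotient.mk _ (g i)) =
      Ideal.Quotient.mk _ (GermPS 𝒰 g) := hθ'
  let ψ : PowerSeries E →+* PowerSeries (UP 𝒰 K) ⧸ mx (UP 𝒰 K) ^ (P + 1) :=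
    (Ideal.Quotient.mk _).comp (map e)
  have hcomp : ψ.comp ((C : E →+* _).comp d) =
      θ.comp ((gc 𝒰 _).comp ((Ideal.Quotient.mk (mx K ^ (P + 1))).comp C)) := by
    refine RingHom.ext fun z => ?_
    have e1 : e (d z) = gm 𝒰 fun _ => z := RingHom.congr_fun hed z
    have e2 := hθ fun _ => C z
    rw [CaseU2_C, ← e1, ← map_C] at e2
    exact e2.symm
  have hψ : A.push ψ sR = A.push θ (A.push (gc 𝒰 _) t) := by
    rw [← hR, ← ht, A.ax.push_comp, A.ax.push_comp, A.ax.push_comp, hcomp]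
    rfl
  have hpt : ∀ {a : A.Pt sR} {η : I → A.Pt t} {va : A.σ → PowerSeries E}
      {ua : I → A.σ → PowerSeries K}, A.Rep a va →
      (∀ᶠ i in (𝒰 : Filter I), A.Rep (η i) (Ideal.Quotient.mk _ ∘ ua i)) →
      (∀ k, map e (va k) = GermPS 𝒰 fun i => ua i k) →
      A.map ψ hψ a = A.map θ rfl (gpt 𝒰 η) := by
    intro a η va ua ha hη ea
    refine map_eq_of_rep ψ hψ ha ?_
    have h2 := rep_map θ rfl (rep_gpt 𝒰 hη)
    have e3 : (θ ∘ fun k => gm 𝒰 fun i => (Ideal.Quotient.mk _ ∘ ua i) k) = ψ ∘ va := by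
      funext k
      exact (hθ fun i => ua i k).trans (congrArg _ (ea k).symm)
    rwa [e3] at h2
  have hsub : A.map ψ hψ (a - b) = A.map θ rfl (gpt 𝒰 fun i => η i - ζ i) := by
    rw [map_sub, hpt ha hη ea, hpt hb hζ eb, ← map_sub]
    exact congrArg _ ((GermPt 𝒰).map_sub η ζ).symm
  have hnil : ∀ i k, A.c (η i - ζ i) k ^ (P + 1) = 0 := fun i k =>
    CaseU2_nil (SPG.c_mem (CaseU2_ne P) (h1 i) k)
  have hψm : ∀ z ∈ mx E, IsNilpotent (ψ z) := fun z hz =>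
    ⟨P + 1, by
      rw [← map_pow]
      exact Ideal.Quotient.eq_zero_iff_mem.2 (FL3_map_mem e _ _ (Ideal.pow_mem_pow hz _))⟩
  have c0 : Cong (IsLocalRing.maximalIdeal _) (A.map ψ hψ (a - b))
      (0 : A.Pt (A.push θ (A.push (gc 𝒰 _) t))) :=
    SPG.Chart_cong_map ψ hψ (fun z hz => CaseU2_max (hψm z hz)) h0
  have c1 : ∀ᶠ i in (𝒰 : Filter I), Cong (IsLocalRing.maximalIdeal _) (η i - ζ i) (0 : A.Pt t) :=
    Eventually.of_forall fun i => FL3_max (CaseU2_ne P) (h1 i)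
  have c2 : Cong (IsLocalRing.maximalIdeal _) (gpt 𝒰 fun i => η i - ζ i)
      (0 : A.Pt (A.push (gc 𝒰 _) t)) := by
    have := (gpt_cong 𝒰 (y := fun _ => (0 : A.Pt t))).2 c1
    rwa [gpt_const, map_zero] at this
  have e1 := SPG.c_map ψ hψ (FL3_max FL3_mx_ne h0) c0
  have e2 := SPG.c_map θ rfl c2 (hsub ▸ c0)
  have e3 : A.c (gpt 𝒰 fun i => η i - ζ i) = fun k => gm 𝒰 fun i => A.c (η i - ζ i) k :=
    funext fun k => SPG.c_gpt 𝒰 c1 k
  have e4 : ψ ∘ A.c (a - b) = θ ∘ fun k => gm 𝒰 fun i => A.c (η i - ζ i) k := by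
    rw [← e1, hsub, e2, e3]
  have hm : ∀ k, A.c (a - b) k ∈ mx E := SPG.c_mem FL3_mx_ne h0
  have t1 : TN (A.c (a - b)) := TN.of_cc₁ fun k => FL3_mx.1 (hm k)
  have t2 : TN (ψ ∘ A.c (a - b)) := TN.of_nil fun k => hψm _ (hm k)
  have t3 : TN fun k => gm 𝒰 fun i => A.c (η i - ζ i) k := TN.of_nil fun k =>
    ⟨P + 1, by
      rw [← Germ_pow]
      exact (Germ_zero 𝒰).2 (Eventually.of_forall fun i => hnil i k)⟩
  have e5 := t1.map_ev ψ t2 ((C : E →+* _).comp d) f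
  have e6 := t3.map_ev θ (e4 ▸ t2)
    ((gc 𝒰 _).comp ((Ideal.Quotient.mk (mx K ^ (P + 1))).comp C)) f
  rw [CaseU2_ev 𝒰 _ _ hnil, ← funext hw, hθ, ← e4, ← hcomp, ← e5] at e6
  have e7 := mem_mx_pow.1 (Ideal.Quotient.eq.1 e6) P (Nat.lt_succ_self P)
  rw [map_sub, GermPS_coeff, coeff_map, sub_eq_zero] at e7
  exact e7.symm

variable {p : ℕ} [Fact p.Prime] {K : Type u} [Field K] [CharP K p] [IsAlgClosed K]

/-- The coefficients of the jet of the generic point come from the twisted copy of `K`. -/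
theorem CaseU2_coeff (A : SPG.{u}) {𝒮 : Sett p K} {sL : A.Str 𝒮.M} {s : A.Str K}
    (hL : A.push 𝒮.M.subtype sL = s) (dd : DMD p (SPG.fgl s)) {Λ₀ Λ : AddSubgroup (A.Pt s)}
    (h₀ : ∀ z ∈ Λ₀, Rat 𝒮.M z) (hΛ : SmallQ p Λ₀ Λ) {𝒰 : Ultrafilter (A.Pt s)}
    (hU : (Λ : Set (A.Pt s)) ∈ 𝒰) {m : A.Pt s → ℕ}
    (hm : ∀ n, ∀ᶠ i in (𝒰 : Filter (A.Pt s)), n ≤ m i) {E : Type u} [Field E]
    {e : E →+* UP 𝒰 K} {d ι : K →+* E} (hed : e.comp d = gc 𝒰 K)
    (hι : ∀ z, e (ι z) = gm 𝒰 fun i => (iterateFrobeniusEquiv K p (m i)).symm z)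
    (hs : ∀ i, A.push (𝒮.lev (m i)).M.subtype (A.push (𝒮.toLev (m i)) sL) = s)
    {xm : ∀ i, A.Pt (A.push (𝒮.toLev (m i)) sL)} (hx : ∀ i, A.map _ (hs i) (xm i) = i)
    {u : ∀ i, A.σ → (𝒮.lev (m i)).M} (hu : ∀ i, A.Rep (xm i) (u i))
    {sR : A.Str (PowerSeries E)} (hR : A.push ((C : E →+* _).comp d) s = sR) {a b : A.Pt sR}
    {va vb : A.σ → PowerSeries E} (ha : A.Rep a va) (hb : A.Rep b vb)
    (ea : ∀ k, map e (va k) = GermPS 𝒰 fun i => (𝒮.lev (m i)).D₀ (u i k))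
    (eb : ∀ k, map e (vb k) = GermPS 𝒰 fun i => C (u i k : K))
    (h0 : Cong (mx E) (a - b) (0 : A.Pt sR)) (l : dd.ρ) (r : ℕ) :
    coeff r (ev ((C : E →+* _).comp d) (A.c (a - b)) (dd.e' l)) ∈ ι.fieldRange := by
  classical
  obtain ⟨F, hF, hf⟩ := A.uf hL dd h₀ hΛ l r
  have h₁ : ∀ i, r + 1 ≤ p ^ m i →
      A.push ((Ideal.Quotient.mk (mx K ^ (r + 1))).comp (𝒮.lev (m i)).D₀)
        (A.push (𝒮.toLev (m i)) sL) = A.push ((Ideal.Quotient.mk _).comp C) s := fun i hi => by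
    rw [A.ax.push_comp, 𝒮.push_D_eq hi, ← hL, A.ax.push_comp]
  let ζ : A.Pt s → A.Pt (A.push ((Ideal.Quotient.mk (mx K ^ (r + 1))).comp C) s) :=
    fun i => A.map _ rfl i
  let η : A.Pt s → A.Pt (A.push ((Ideal.Quotient.mk (mx K ^ (r + 1))).comp C) s) :=
    fun i => if h : r + 1 ≤ p ^ m i then A.map _ (h₁ i h) (xm i) else ζ i
  have hη : ∀ i (h : r + 1 ≤ p ^ m i), η i = A.map _ (h₁ i h) (xm i) := fun i h => dif_pos h
  have hζ : ∀ i, ζ i = A.map _ rfl (A.map _ (hs i) (xm i)) := fun i => by rw [hx]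
  have hbig : ∀ᶠ i in (𝒰 : Filter (A.Pt s)), r + 1 ≤ p ^ m i :=
    (hm (r + 1)).mono fun i hi => hi.trans (Nat.lt_pow_self (Fact.out : p.Prime).one_lt).le
  have hc : ∀ i, Cong ((mx K).map (Ideal.Quotient.mk _)) (η i - ζ i)
      (0 : A.Pt (A.push ((Ideal.Quotient.mk (mx K ^ (r + 1))).comp C) s)) := fun i => by
    rw [← cong_iff_sub]
    by_cases h : r + 1 ≤ p ^ m i
    · rw [hη i h, hζ i, PG.map_map]
      refine cong_map_map _ _ (hu i) fun k => ?_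
      change Ideal.Quotient.mk _ _ - Ideal.Quotient.mk _ _ ∈ _
      rw [← map_sub]
      refine Ideal.mem_map_of_mem _ (Set1_mx ?_)
      rw [cc_D₀]
      rfl
    · rw [show η i = ζ i from dif_neg h]
      exact Cong.refl _ _
  choose w hw using fun i => Ideal.Quotient.mk_surjective
    (ev ((Ideal.Quotient.mk (mx K ^ (r + 1))).comp C) (A.c (η i - ζ i)) (dd.e' l))
  have key := CaseU2_jet A 𝒰 hed hR r rfl ha hb (η := η) (ζ := ζ)
    (hbig.mono fun i h => by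
      rw [hη i h]
      exact rep_map _ _ (hu i))
    (Eventually.of_forall fun i => by
      rw [hζ i]
      exact rep_map _ _ (rep_map _ _ (hu i))) ea eb h0 hc (dd.e' l) hw
  have hz : ∀ᶠ i in (𝒰 : Filter (A.Pt s)), ∃ z ∈ F, coeff r (w i) ^ p ^ m i = z := by
    filter_upwards [hbig, hU] with i h hi
    refine ⟨_, hf (m i) r le_rfl h _ rfl (hs i) _ (h₁ i h) rfl (xm i) (by rwa [hx]) (w i) ?_, rfl⟩
    rw [hw, hη i h, hζ i]
  obtain ⟨z, -, hz⟩ := (Ultrafilter.eventually_exists_mem_iff hF).1 hz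
  refine ⟨z, e.injective ?_⟩
  rw [key, hι]
  refine (Germ_eq 𝒰).2 (hz.mono fun i hi => ?_)
  rw [RingEquiv.symm_apply_eq, iterateFrobeniusEquiv_apply, iterateFrobenius_def, hi]

theorem CaseU2_main (A : SPG.{u}) {𝒮 : Sett p K} {sL : A.Str 𝒮.M} {s : A.Str K}
    (hL : A.push 𝒮.M.subtype sL = s) (ht : A.TorsFin s) {Λ₀ Λ : AddSubgroup (A.Pt s)}
    (h₀ : ∀ z ∈ Λ₀, Rat 𝒮.M z) (hΛ : SmallQ p Λ₀ Λ) {X : Set (A.Pt s)} (hX : Var X)
    (hd : X ⊆ cl ((Λ : Set (A.Pt s)) ∩ X))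
    (hn : ∀ m, ¬ X ⊆ cl ({x | x ∈ Λ ∧ Rat (root p m 𝒮.M) x} ∩ X))
    (hS : (Stab X : Set (A.Pt s)).Finite) :
    ∃ (𝒰 : Ultrafilter (A.Pt s)) (m : A.Pt s → ℕ) (E : Type u) (_ : Field E)
      (_ : CharP E p) (_ : IsAlgClosed E) (𝒯 : Sett p E) (e : E →+* UP 𝒰 K) (d ι : K →+* E)
      (x : A.Pt (A.push d s)) (he : A.push e (A.push d s) = A.push (gc 𝒰 K) s)
      (hD : A.push 𝒯.DB (A.push d s) = A.push (cB E) (A.push d s)) (N : ℕ),
      e.comp d = gc 𝒰 K ∧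
      (∀ z, e (ι z) = gm 𝒰 fun i => (iterateFrobeniusEquiv K p (m i)).symm z) ∧
      Mor 𝒮 𝒯 ι ∧ (∀ z, d z ∈ 𝒯.cst) ∧ (Λ : Set (A.Pt s)) ∈ 𝒰 ∧
      A.map e he x = gpt 𝒰 id ∧ loc d s x = X ∧ ¬ Rat 𝒯.cst x ∧ N ≠ 0 ∧
      Rat (((cB E).comp d).fieldRange ⊔ serF ι.fieldRange)
        (N • (A.map 𝒯.DB hD x - A.map (cB E) rfl x)) := by
  classical
  have hex : ∀ i : A.Pt s, ∃ n, Rat (root p n 𝒮.M) i := fun i => by
    obtain ⟨n, hn⟩ := 𝒮.exists_root (rat_finite i).toFinset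
    exact ⟨n, fun z hz => hn (by simpa using hz)⟩
  let m : A.Pt s → ℕ := fun i => Nat.find (hex i)
  have hm1 : ∀ i, Rat (root p (m i) 𝒮.M) i := fun i => Nat.find_spec (hex i)
  have hm2 : ∀ i n, n < m i → ¬ Rat (root p n 𝒮.M) i := fun i n h => Nat.find_min (hex i) h
  clear_value m
  obtain ⟨𝒰, hU, hloc⟩ := exists_ultra hX hd
  have hUΛ : (Λ : Set (A.Pt s)) ∈ 𝒰 := mem_of_superset hU Set.inter_subset_left
  have hm : ∀ n, ∀ᶠ i in (𝒰 : Filter (A.Pt s)), n ≤ m i := fun n => by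
    by_contra hc
    have h1 := subset_cl_of_gpt 𝒰 (x := id) (S := {x | x ∈ Λ ∧ Rat (root p n 𝒮.M) x}) (by
      filter_upwards [Ultrafilter.eventually_not.2 hc, hUΛ] with i hi hi'
      exact ⟨hi', (hm1 i).mono (root_mono p (not_le.1 hi).le le_rfl)⟩)
    rw [hloc] at h1
    exact hn n h1
  obtain ⟨E, _, _, _, 𝒯, e, d, ι, hed, hι, hM, hMor, hD₀, hcst⟩ := usett 𝒰 𝒮 m
  replace hcst := hcst hm
  have hs : ∀ i, A.push (𝒮.lev (m i)).M.subtype (A.push (𝒮.toLev (m i)) sL) = s := fun i => by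
    rw [A.ax.push_comp, ← hL]
    rfl
  choose xm hx using fun i => (rat_subtype_iff (hs i)).1 (by
    rw [lev_M]
    exact hm1 i)
  choose u hu using fun i => A.ax.exists_rep (xm i)
  have hv : ∀ i : A.Pt s, A.Rep i fun k => (u i k : K) := fun i => by
    have := rep_map _ (hs i) (hu i)
    rwa [hx] at this
  have hV := rep_gpt 𝒰 (x := id) (Eventually.of_forall hv)
  have hz : ∀ k, ∃ z : 𝒯.M, e z = gm 𝒰 fun i => (u i k : K) := fun k => by
    obtain ⟨z, hz, ez⟩ := (hM _).2 ⟨fun i => (u i k : K), fun i => by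
      rw [← lev_M]
      exact (u i k).2, rfl⟩
    exact ⟨⟨z, hz⟩, ez⟩
  choose z hz using hz
  let dM : K →+* 𝒯.M := d.codRestrict 𝒯.M fun c => 𝒯.cst_le (hcst c)
  have hdM : 𝒯.M.subtype.comp dM = d := RingHom.ext fun _ => rfl
  have hMs : A.push 𝒯.M.subtype (A.push dM s) = A.push d s := by rw [A.ax.push_comp, hdM]
  have he : A.push e (A.push d s) = A.push (gc 𝒰 K) s := by rw [A.ax.push_comp, hed]
  have hzV : (e.comp 𝒯.M.subtype) ∘ z = fun k => gm 𝒰 fun i => (u i k : K) := funext hz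
  have huni : Uni z := by
    obtain ⟨k, hk⟩ := A.ax.rep_uni hV
    refine ⟨k, isUnit_iff_ne_zero.2 fun h => hk.ne_zero ?_⟩
    refine (hz k).symm.trans ?_
    rw [h]
    exact map_zero e
  obtain ⟨xM, hxM, exM⟩ := exists_map_eq (e.comp 𝒯.M.subtype).injective (push_trans hMs he)
    huni (by
      rw [hzV]
      exact hV)
  have hxe : A.map e he (A.map _ hMs xM) = gpt 𝒰 id := by rw [PG.map_map, exM]
  have hxr := rep_map _ hMs hxM
  have hlocx : loc d s (A.map _ hMs xM) = X := by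
    rw [← loc_map e.injective he, hxe, hed, hloc]
  have hdef : A.Def 𝒯.cst (A.push d s) := def_range d s rfl (by
    rintro _ ⟨c, rfl⟩
    exact hcst c)
  have hD : A.push 𝒯.DB (A.push d s) = A.push (cB E) (A.push d s) :=
    hdef.push_eq fun c hc => 𝒯.mem_cst_iff_DB.1 hc
  have hnr : ¬ Rat 𝒯.cst (A.map _ hMs xM) := fun hr => by
    have h1 : ∀ k : A.σ × A.σ, ∀ᶠ i in (𝒰 : Filter (A.Pt s)),
        (u i k.1 : K) / u i k.2 ∈ root p (m i - 1) 𝒮.M := fun k => by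
      have h2 : (z k.1 : E) / z k.2 ∈ 𝒯.cst := hr (by
        rw [PB_rat_eq hxr]
        exact ⟨k, rfl⟩)
      obtain ⟨w, hw, ew⟩ := 𝒯.mem_cst_iff_pow.1 h2 1
      obtain ⟨f, hf, ef⟩ := (hM _).1 ⟨w, hw, rfl⟩
      have h3 : gm 𝒰 (fun i => f i ^ p ^ 1) = gm 𝒰 fun i => (u i k.1 : K) / u i k.2 := by
        rw [Germ_pow, ef, ← map_pow, ew, map_div₀, hz, hz]
        rfl
      filter_upwards [(Germ_eq 𝒰).1 h3, hm 1] with i hi hi'
      rw [← hi, mem_root, ← pow_mul, ← pow_add, Nat.add_sub_cancel' hi']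
      exact hf i
    obtain ⟨i, hi, hi'⟩ := ((eventually_all.2 h1).and (hm 1)).exists
    refine hm2 i (m i - 1) (by omega) ?_
    rw [PG.Rat, PB_rat_eq (hv i)]
    rintro _ ⟨k, rfl⟩
    exact hi k
  have hDd : 𝒯.D₀.comp dM = (C : E →+* _).comp d :=
    RingHom.ext fun c => (𝒯.mem_cst_iff_D₀ (z := dM c)).1 (hcst c)
  have hR : A.push ((C : E →+* _).comp d) s = A.push C (A.push d s) := by rw [A.ax.push_comp]
  have hDM : A.push 𝒯.D₀ (A.push dM s) = A.push C (A.push d s) := by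
    rw [A.ax.push_comp, hDd, hR]
  have h0 : Cong (mx E) (A.map _ hDM xM - A.map C rfl (A.map _ hMs xM))
      (0 : A.Pt (A.push C (A.push d s))) := by
    rw [← cong_iff_sub, PG.map_map]
    refine cong_map_map _ _ hxM fun k => Set1_mx ?_
    rw [cc_D₀]
    rfl
  obtain ⟨dd⟩ := dm p (SPG.fh p ht)
  have hκ := CaseU2_coeff A hL dd h₀ hΛ hUΛ hm hed hι hs hx hu hR (rep_map _ hDM hxM)
    (rep_map C rfl hxr)
    (fun k => by
      ext n
      rw [GermPS_coeff, coeff_map]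
      exact hD₀ (z k) (fun i => u i k) (hz k) n)
    (fun k => by
      rw [CaseU2_C, ← hz]
      exact map_C e _) h0
  have hmem := SPG.c_mem FL3_mx_ne h0
  have htn : TN (A.c (A.map _ hDM xM - A.map C rfl (A.map _ hMs xM))) :=
    TN.of_cc₁ fun k => FL3_mx.1 (hmem k)
  have hp : p ^ (dd.R * dd.c) ≠ 0 := pow_ne_zero _ (Fact.out : p.Prime).ne_zero
  have hB : A.push (ιB E) (A.push C (A.push d s)) = A.push (cB E) (A.push d s) :=
    A.ax.push_comp _ _ _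
  obtain ⟨n, hn0, hrat⟩ := A.arc_alg (i := RingHom.id K) (j := d) (A.ax.push_id s) rfl ht dd
    (x := p ^ (dd.R * dd.c) • A.map _ hMs xM)
    (by
      rw [loc_nsmul rfl, hlocx]
      exact ht.stab_nsmul hp hX hS)
    (κ := ι.fieldRange)
    (fun l => FL3_mx.1 (htn.ev_mem ((C : E →+* _).comp d) (dd.he'.cc l) hmem)) hκ rfl
    ((K1 (mx E) _).nsmul_mem h0 (p ^ (dd.R * dd.c)))
    (fun a => by
      rw [SPG.c_nsmul _ hR FL3_mx_ne h0, ← dd.ee', ev_cmp dd.he'.cc _ htn]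
      rfl)
    (by
      rw [map_nsmul, ← nsmul_add, add_sub_cancel, ← map_nsmul, ← map_nsmul, ← hDd]
      have h1 := loc_map (s := s) (j := dM) 𝒯.M.subtype.injective hMs (p ^ (dd.R * dd.c) • xM)
      rw [hdM] at h1
      rw [h1]
      exact mem_ext_map _ hDM (mem_ext_loc rfl _))
    hB
  refine ⟨𝒰, m, E, inferInstance, inferInstance, inferInstance, 𝒯, e, d, ι, A.map _ hMs xM, he,
    hD, n * p ^ (dd.R * dd.c), hed, hι, hMor, hcst, hUΛ, hxe, hlocx, hnr,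
    mul_ne_zero hn0 hp, ?_⟩
  have e1 : A.map (ιB E) hB (A.map _ hDM xM) = A.map 𝒯.DB hD (A.map _ hMs xM) := by
    rw [PG.map_map, PG.map_map]
    exact map_congr (RingHom.ext fun c => (𝒯.DB_M c).symm) _ _ _
  have e2 : A.map (ιB E) hB (A.map C rfl (A.map _ hMs xM)) =
      A.map (cB E) rfl (A.map _ hMs xM) := PG.map_map _ _ _
  rw [map_nsmul, map_sub, e1, e2, ← mul_nsmul'] at hrat
  exact hrat

theorem SPG.caseU_jet (A : SPG.{u}) {𝒮 : Sett p K} {s : A.Str K} (ht : A.TorsFin s)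
    {Λ : AddSubgroup (A.Pt s)} (hΛ : Hyp 𝒮 ⊤ Λ) {X : Set (A.Pt s)} (hX : Var X)
    (hd : X ⊆ cl ((Λ : Set (A.Pt s)) ∩ X))
    (hn : ∀ m, ¬ X ⊆ cl ({x | x ∈ Λ ∧ Rat (root p m 𝒮.M) x} ∩ X))
    (hS : (Stab X : Set (A.Pt s)).Finite) :
    ∃ (𝒰 : Ultrafilter (A.Pt s)) (m₀ : ℕ) (m : A.Pt s → ℕ) (E : Type u) (_ : Field E)
      (_ : CharP E p) (_ : IsAlgClosed E) (𝒯 : Sett p E) (e : E →+* UP 𝒰 K) (d ι : K →+* E)
      (x : A.Pt (A.push d s)) (he : A.push e (A.push d s) = A.push (gc 𝒰 K) s)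
      (hD : A.push 𝒯.DB (A.push d s) = A.push (cB E) (A.push d s)) (N : ℕ),
      e.comp d = gc 𝒰 K ∧
      (∀ z, e (ι z) = gm 𝒰 fun i => (iterateFrobeniusEquiv K p (m i)).symm z) ∧
      Mor (𝒮.lev m₀) 𝒯 ι ∧ (∀ z, d z ∈ 𝒯.cst) ∧ (Λ : Set (A.Pt s)) ∈ 𝒰 ∧
      A.map e he x = gpt 𝒰 id ∧ loc d s x = X ∧ ¬ Rat 𝒯.cst x ∧ N ≠ 0 ∧
      Rat (((cB E).comp d).fieldRange ⊔ serF ι.fieldRange)
        (N • (A.map 𝒯.DB hD x - A.map (cB E) rfl x)) := by
  obtain ⟨-, m₁, Λ₀, -, h₀, hq, -⟩ := hΛ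
  obtain ⟨m₂, h₂⟩ := Hyp_def 𝒮 s
  have h₃ := h₂ (max m₁ m₂) (le_max_right _ _)
  rw [← lev_M] at h₃
  obtain ⟨sL, hL⟩ := h₃
  obtain ⟨𝒰, h⟩ := CaseU2_main A hL ht (fun z hz => by
    rw [lev_M]
    exact (h₀ z hz).mono (root_mono p (le_max_left _ _) le_rfl)) hq hX hd (fun m => by
    rw [lev_M, root_root]
    exact hn _) hS
  exact ⟨𝒰, max m₁ m₂, h⟩

end MLF
end
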