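import Mathlib

-- merged part: Pool.Agent.Work.MP_29d410_ag.Ev
section
/-!
# Evaluation of power series in adically complete rings

`ev φ x` is the ring homomorphism `S⟦X⟧ → T` which is `φ` on constants and sends `X i` to `x i`.
It exists and is unique as soon as the `x i` lie in an ideal for which `T` is complete (`TN x`).

Plan.  `mem_pow`: a series without terms of degree `< N` is in `(X)^N`: group the monomials
according to a chosen monomial of degree `N` dividing them (finitely many), or use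
`MvPowerSeries.toAdicCompletionAlgEquiv` and `AdicCompletion.pow_smul_top_eq_ker_eval`.
`hom_ext`: `f - truncTotal N f` is in `(X)^N`, so the difference of the two values lies in every
`𝔟 ^ N`.  Existence: `IsAdicComplete.liftRingHom` with the maps
`MvPowerSeries.truncTotalAlgHom` followed by `eval₂` into `T ⧸ 𝔟 ^ n`.
All the other statements follow from uniqueness.
-/

open MvPowerSeries

namespace MLF

universe u

variable {S S' T T' : Type u} [CommRing S] [CommRing S'] [CommRing T] [CommRing T']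
  {τ τ' : Type} [Finite τ] [Finite τ']

/-- `θ` is an evaluation homomorphism. -/
def IsEv (φ : S →+* T) (x : τ → T) (θ : MvPowerSeries τ S →+* T) : Prop :=
  (∀ c, θ (C c) = φ c) ∧ ∀ i, θ (X i) = x i

open Classical in
/-- Evaluation of power series. -/
noncomputable def ev (φ : S →+* T) (x : τ → T) : MvPowerSeries τ S →+* T :=
  if h : ∃ θ, IsEv φ x θ then h.choose else φ.comp constantCoeff

/-- The entries of `x` lie in an ideal for which the ring is complete. -/
def TN {α : Type*} (x : α → T) : Prop := ∃ 𝔟 : Ideal T, IsAdicComplete 𝔟 T ∧ ∀ i, x i ∈ 𝔟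

/-- Every finite subset of `𝔞` lies in a smaller ideal for which the ring is complete. -/
class Adm (𝔞 : Ideal T) : Prop where
  ex : ∀ F : Finset T, (F : Set T) ⊆ 𝔞 → ∃ 𝔟 ≤ 𝔞, IsAdicComplete 𝔟 T ∧ (F : Set T) ⊆ 𝔟

/-- The ideal of the origin. -/
noncomputable abbrev mX (τ : Type) (S : Type u) [CommRing S] : Ideal (MvPowerSeries τ S) :=
  Ideal.span (Set.range X)

/-- The ideal of the origin, one variable. -/
noncomputable abbrev mx (S : Type u) [CommRing S] : Ideal (PowerSeries S) := Ideal.span {PowerSeries.X}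

omit [Finite τ] in
theorem Ev_map_pow {θ : MvPowerSeries τ S →+* T} {𝔟 : Ideal T} (hx : ∀ i, θ (X i) ∈ 𝔟) {N : ℕ}
    {f : MvPowerSeries τ S} (hf : f ∈ mX τ S ^ N) : θ f ∈ 𝔟 ^ N := by
  have h1 : (mX τ S).map θ ≤ 𝔟 := by
    rw [Ideal.map_span, Ideal.span_le]
    rintro _ ⟨_, ⟨i, rfl⟩, rfl⟩
    exact hx i
  have h2 := Ideal.mem_map_of_mem θ hf
  rw [Ideal.map_pow] at h2
  exact Ideal.pow_right_mono h1 N h2

omit [Finite τ] in
theorem Ev_map_pow' {θ : MvPolynomial τ S →+* T} {𝔟 : Ideal T}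
    (hx : ∀ i, θ (MvPolynomial.X i) ∈ 𝔟) {N : ℕ}
    {f : MvPolynomial τ S} (hf : f ∈ MvPolynomial.idealOfVars τ S ^ N) : θ f ∈ 𝔟 ^ N := by
  have h1 : (MvPolynomial.idealOfVars τ S).map θ ≤ 𝔟 := by
    rw [Ideal.map_span, Ideal.span_le]
    rintro _ ⟨_, ⟨i, rfl⟩, rfl⟩
    exact hx i
  have h2 := Ideal.mem_map_of_mem θ hf
  rw [Ideal.map_pow] at h2
  exact Ideal.pow_right_mono h1 N h2

theorem Ev_trunc_coe (N : ℕ) (g : MvPolynomial τ S) :
    truncTotalAlgHom τ S N (g : MvPowerSeries τ S) = Ideal.Quotient.mk _ g :=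
  (truncTotalAlgHom τ S N).commutes g

theorem mem_mX_pow {f : MvPowerSeries τ S} {N : ℕ} :
    f ∈ mX τ S ^ N ↔ ∀ d : τ →₀ ℕ, d.degree < N → coeff d f = 0 := by
  classical
  constructor
  · intro hf d hd
    have h1 := Ev_map_pow (θ := (truncTotalAlgHom τ S N).toRingHom)
      (𝔟 := (MvPolynomial.idealOfVars τ S).map (Ideal.Quotient.mk _)) (fun i => by
        have := Ev_trunc_coe (S := S) N (MvPolynomial.X i)
        rw [MvPolynomial.coe_X] at this
        change truncTotalAlgHom τ S N (X i) ∈ _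
        rw [this]
        exact Ideal.mem_map_of_mem _ (Ideal.subset_span ⟨i, rfl⟩)) hf
    rw [← Ideal.map_pow, Ideal.map_quotient_self, Ideal.mem_bot] at h1
    have h2 : truncTotal N f ∈ MvPolynomial.idealOfVars τ S ^ N :=
      Ideal.Quotient.eq_zero_iff_mem.1 h1
    rw [← coeff_truncTotal f hd]
    exact (MvPolynomial.mem_pow_idealOfVars_iff' N _).1 h2 d hd
  · intro hf
    have h0 := fun (d : τ →₀ ℕ) (hd : N ≤ d.degree) => Finsupp.exists_le_degree_eq d N hd
    choose! e he1 he2 using h0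
    let g : (τ →₀ ℕ) → MvPowerSeries τ S := fun a u => if e (u + a) = a then coeff (u + a) f else 0
    have hg : ∀ a u, coeff u (g a) = if e (u + a) = a then coeff (u + a) f else 0 := fun _ _ => rfl
    have h1 : f = ∑ a ∈ (Finsupp.finite_of_degree_eq (σ := τ) N).toFinset,
        monomial a (1 : S) * g a := by
      ext d
      rw [map_sum]
      simp only [coeff_monomial_mul, one_mul, hg]
      by_cases hd : d.degree < N
      · rw [hf d hd]
        refine (Finset.sum_eq_zero fun a ha => if_neg fun h => ?_).symm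
        have h2 : a.degree = N := by simpa using ha
        have h3 := Finsupp.degree_mono h
        omega
      · have hd' := not_lt.1 hd
        rw [Finset.sum_eq_single (e d)]
        · rw [if_pos (he1 d hd'), tsub_add_cancel_of_le (he1 d hd'), if_pos rfl]
        · intro a _ ha
          split_ifs with h1 h2
          · rw [tsub_add_cancel_of_le h1] at h2
            exact absurd h2.symm ha
          · rfl
          · rfl
        · intro h
          exact absurd (by simpa using he2 d hd') h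
    rw [h1]
    refine sum_mem fun a ha => Ideal.mul_mem_right _ _ ?_
    have h2 : a.degree = N := by simpa using ha
    have h3 : MvPolynomial.monomial a (1 : S) ∈ MvPolynomial.idealOfVars τ S ^ N := by
      refine (MvPolynomial.mem_pow_idealOfVars_iff' N _).2 fun x hx => ?_
      rw [MvPolynomial.coeff_monomial, if_neg]
      rintro rfl
      omega
    have h4 := Ev_map_pow' (θ := MvPolynomial.coeToMvPowerSeries.ringHom) (𝔟 := mX τ S)
      (fun i => by
        rw [MvPolynomial.coeToMvPowerSeries.ringHom_apply, MvPolynomial.coe_X]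
        exact Ideal.subset_span ⟨i, rfl⟩) h3
    rwa [MvPolynomial.coeToMvPowerSeries.ringHom_apply, MvPolynomial.coe_monomial] at h4

theorem mem_mX {f : MvPowerSeries τ S} : f ∈ mX τ S ↔ constantCoeff f = 0 := by
  rw [← pow_one (mX τ S), mem_mX_pow]
  constructor
  · intro h
    simpa using h 0 (by simp)
  · intro h d hd
    have : d = 0 := (Finsupp.degree_eq_zero_iff d).1 (by omega)
    simpa [this] using h

theorem mem_mx_pow {f : PowerSeries S} {N : ℕ} :
    f ∈ mx S ^ N ↔ ∀ d < N, PowerSeries.coeff d f = 0 := by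
  rw [Ideal.span_singleton_pow, Ideal.mem_span_singleton, PowerSeries.X_pow_dvd_iff]

omit [Finite τ] in
theorem Ev_coe {φ : S →+* T} {x : τ → T} {θ : MvPowerSeries τ S →+* T} (h : IsEv φ x θ)
    (g : MvPolynomial τ S) : θ (g : MvPowerSeries τ S) = MvPolynomial.eval₂ φ x g := by
  have : θ.comp MvPolynomial.coeToMvPowerSeries.ringHom = MvPolynomial.eval₂Hom φ x :=
    MvPolynomial.ringHom_ext (fun c => by simp [h.1]) (fun i => by simp [h.2])
  exact RingHom.congr_fun this g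

theorem hom_ext {𝔟 : Ideal T} [IsHausdorff 𝔟 T] {θ θ' : MvPowerSeries τ S →+* T}
    (hC : ∀ c, θ (C c) = θ' (C c)) (hX : ∀ i, θ (X i) = θ' (X i)) (hx : ∀ i, θ (X i) ∈ 𝔟) :
    θ = θ' := by
  ext f
  refine (IsHausdorff.eq_iff_smodEq (I := 𝔟)).2 fun N => ?_
  rw [SModEq.sub_mem, smul_eq_mul, Ideal.mul_top]
  have h1 : f - (truncTotal N f : MvPolynomial τ S) ∈ mX τ S ^ N :=
    mem_mX_pow.2 fun d hd => by
      rw [map_sub, MvPolynomial.coeff_coe, coeff_truncTotal f hd, sub_self]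
  have h2 := Ev_map_pow hx h1
  have h3 := Ev_map_pow (θ := θ') (fun i => hX i ▸ hx i) h1
  have h4 : IsEv (θ'.comp C) (fun i => θ' (X i)) θ := ⟨hC, hX⟩
  have h5 : IsEv (θ'.comp C) (fun i => θ' (X i)) θ' := ⟨fun _ => rfl, fun _ => rfl⟩
  rw [map_sub, Ev_coe h4] at h2
  rw [map_sub, Ev_coe h5] at h3
  simpa using sub_mem h2 h3

theorem TN.isEv {x : τ → T} (hx : TN x) (φ : S →+* T) : IsEv φ x (ev φ x) := by
  obtain ⟨𝔟, hc, hx⟩ := hx
  have hex : ∃ θ, IsEv φ x θ := by
    have hk : ∀ n, ∀ a ∈ MvPolynomial.idealOfVars τ S ^ n,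
        (Ideal.Quotient.mk (𝔟 ^ n)).comp (MvPolynomial.eval₂Hom φ x) a = 0 := fun n a ha =>
      Ideal.Quotient.eq_zero_iff_mem.2 (Ev_map_pow' (fun i => by simpa using hx i) ha)
    let F : (n : ℕ) → MvPowerSeries τ S →+* T ⧸ 𝔟 ^ n := fun n =>
      (Ideal.Quotient.lift _ _ (hk n)).comp (truncTotalAlgHom τ S n).toRingHom
    have hF : ∀ n f, F n f = Ideal.Quotient.mk (𝔟 ^ n)
        (MvPolynomial.eval₂Hom φ x (truncTotal n f)) := fun _ _ => rfl
    have hcomp : ∀ {m n : ℕ} (hle : m ≤ n), (Ideal.Quotient.factorPow 𝔟 hle).comp (F n) = F m := by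
      intro m n hle
      ext f
      rw [RingHom.comp_apply, hF, hF]
      change Ideal.Quotient.mk (𝔟 ^ m) _ = _
      rw [Ideal.Quotient.mk_eq_mk_iff_sub_mem, ← map_sub]
      exact Ev_map_pow' (fun i => by simpa using hx i)
        (truncTotal_sub_truncTotal_mem_pow_idealOfVars hle le_rfl f)
    have key : ∀ g : MvPolynomial τ S, IsAdicComplete.liftRingHom 𝔟 F hcomp
        (g : MvPowerSeries τ S) = MvPolynomial.eval₂Hom φ x g := by
      intro g
      refine (IsHausdorff.eq_iff_smodEq (I := 𝔟)).2 fun N => ?_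
      rw [SModEq.sub_mem, smul_eq_mul, Ideal.mul_top, ← Ideal.Quotient.mk_eq_mk_iff_sub_mem,
        IsAdicComplete.mk_liftRingHom]
      change Ideal.Quotient.lift _ _ (hk N) (truncTotalAlgHom τ S N (g : MvPowerSeries τ S)) = _
      rw [Ev_trunc_coe]
      rfl
    refine ⟨IsAdicComplete.liftRingHom 𝔟 F hcomp, fun c => ?_, fun i => ?_⟩
    · simpa using key (MvPolynomial.C c)
    · simpa using key (MvPolynomial.X i)
  rw [ev, dif_pos hex]
  exact hex.choose_spec

theorem TN.ev_C {x : τ → T} (hx : TN x) (φ : S →+* T) (c : S) : ev φ x (C c) = φ c :=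
  (hx.isEv φ).1 c

theorem TN.ev_X {x : τ → T} (hx : TN x) (φ : S →+* T) (i : τ) : ev φ x (X i) = x i :=
  (hx.isEv φ).2 i

theorem TN.eq_ev {x : τ → T} (hx : TN x) {φ : S →+* T} {θ : MvPowerSeries τ S →+* T}
    (h : IsEv φ x θ) : θ = ev φ x := by
  have h' := hx.isEv φ
  obtain ⟨𝔟, hc, hx⟩ := hx
  exact hom_ext (𝔟 := 𝔟) (fun c => (h.1 c).trans (h'.1 c).symm)
    (fun i => (h.2 i).trans (h'.2 i).symm) fun i => h.2 i ▸ hx i

theorem TN.ev_coe {x : τ → T} (hx : TN x) (φ : S →+* T) (g : MvPolynomial τ S) :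
    ev φ x (g : MvPowerSeries τ S) = MvPolynomial.eval₂ φ x g :=
  Ev_coe (hx.isEv φ) g

theorem TN.map_ev {x : τ → T} (hx : TN x) (ψ : T →+* T') (hx' : TN (ψ ∘ x)) (φ : S →+* T)
    (f : MvPowerSeries τ S) : ψ (ev φ x f) = ev (ψ.comp φ) (ψ ∘ x) f :=
  RingHom.congr_fun (hx'.eq_ev (θ := ψ.comp (ev φ x))
    ⟨fun c => by simp [hx.ev_C], fun i => by simp [hx.ev_X]⟩) f

theorem TN.ev_map {x : τ → T} (hx : TN x) (φ : S' →+* T) (ψ : S →+* S') (f : MvPowerSeries τ S) :
    ev φ x (map ψ f) = ev (φ.comp ψ) x f :=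
  RingHom.congr_fun (hx.eq_ev (θ := (ev φ x).comp (map ψ))
    ⟨fun c => by simp [hx.ev_C], fun i => by simp [hx.ev_X]⟩) f

/-- The value lies in the `N`-th power of the ideal generated by the arguments. -/
theorem TN.ev_mem_pow {x : τ → T} (hx : TN x) (φ : S →+* T) {f : MvPowerSeries τ S} {N : ℕ}
    (hf : f ∈ mX τ S ^ N) : ev φ x f ∈ Ideal.span (Set.range x) ^ N :=
  Ev_map_pow (fun i => by rw [hx.ev_X]; exact Ideal.subset_span ⟨i, rfl⟩) hf

theorem TN.ev_mem {x : τ → T} (hx : TN x) (φ : S →+* T) {f : MvPowerSeries τ S}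
    (hf : constantCoeff f = 0) {𝔠 : Ideal T} (h : ∀ i, x i ∈ 𝔠) : ev φ x f ∈ 𝔠 := by
  have := Ev_map_pow (θ := ev φ x) (𝔟 := 𝔠) (N := 1) (f := f)
    (fun i => by rw [hx.ev_X]; exact h i) (by rw [pow_one]; exact mem_mX.2 hf)
  rwa [pow_one] at this

end MLF
end

-- merged part: Pool.Agent.Work.MP_29d410_ag.Ev2
section
/-!
# Evaluation of power series in adically complete rings

`ev φ x` is the ring homomorphism `S⟦X⟧ → T` which is `φ` on constants and sends `X i` to `x i`.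
It exists and is unique as soon as the `x i` lie in an ideal for which `T` is complete (`TN x`).

Plan.  `mem_pow`: a series without terms of degree `< N` is in `(X)^N`: group the monomials
according to a chosen monomial of degree `N` dividing them (finitely many), or use
`MvPowerSeries.toAdicCompletionAlgEquiv` and `AdicCompletion.pow_smul_top_eq_ker_eval`.
`hom_ext`: `f - truncTotal N f` is in `(X)^N`, so the difference of the two values lies in every
`𝔟 ^ N`.  Existence: `IsAdicComplete.liftRingHom` with the maps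
`MvPowerSeries.truncTotalAlgHom` followed by `eval₂` into `T ⧸ 𝔟 ^ n`.
All the other statements follow from uniqueness.
-/

open MvPowerSeries

namespace MLF

universe u

variable {S S' T T' : Type u} [CommRing S] [CommRing S'] [CommRing T] [CommRing T']
  {τ τ' : Type} [Finite τ] [Finite τ']

theorem Ev2_smod {I : Ideal T} {n : ℕ} {a b : T} :
    a ≡ b [SMOD (I ^ n • ⊤ : Submodule T T)] ↔ a - b ∈ I ^ n := by
  rw [SModEq.sub_mem, Ideal.smul_eq_mul, Ideal.mul_top]

theorem Ev2_haus (I : Ideal T) [IsAdicComplete I T] {a : T} (h : ∀ n, a ∈ I ^ n) : a = 0 :=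
  IsHausdorff.haus' (I := I) a fun n => Ev2_smod.2 (by simpa using h n)

theorem Ev2_prec (I : Ideal T) [IsAdicComplete I T] (f : ℕ → T)
    (h : ∀ m n, m ≤ n → f m - f n ∈ I ^ m) : ∃ L, ∀ n, f n - L ∈ I ^ n := by
  obtain ⟨L, hL⟩ := IsPrecomplete.prec' (I := I) f fun {m n} e => Ev2_smod.2 (h m n e)
  exact ⟨L, fun n => Ev2_smod.1 (hL n)⟩

theorem Ev2_complete {I : Ideal T} (h₁ : ∀ a : T, (∀ n, a ∈ I ^ n) → a = 0)
    (h₂ : ∀ f : ℕ → T, (∀ m n, m ≤ n → f m - f n ∈ I ^ m) → ∃ L, ∀ n, f n - L ∈ I ^ n) :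
    IsAdicComplete I T where
  haus' a h := h₁ a fun n => by simpa using Ev2_smod.1 (h n)
  prec' f h := by
    obtain ⟨L, hL⟩ := h₂ f fun m n e => Ev2_smod.1 (h e)
    exact ⟨L, fun n => Ev2_smod.2 (hL n)⟩

theorem Ev2_cofinal {𝔠 𝔟 : Ideal T} [IsAdicComplete 𝔠 T] (h : 𝔠 ≤ 𝔟) {k : ℕ}
    (hk : 𝔟 ^ (k + 1) ≤ 𝔠) : IsAdicComplete 𝔟 T := by
  have e : ∀ n, 𝔟 ^ ((k + 1) * n) ≤ 𝔠 ^ n := fun n => by
    rw [pow_mul]; exact Ideal.pow_right_mono hk n
  refine Ev2_complete (fun a ha => Ev2_haus 𝔠 fun n => e n (ha _)) fun f hf => ?_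
  obtain ⟨L, hL⟩ := Ev2_prec 𝔠 (fun n => f ((k + 1) * n)) fun m n c =>
    e m (hf _ _ (Nat.mul_le_mul_left _ c))
  refine ⟨L, fun n => ?_⟩
  have := Ideal.add_mem _ (hf n ((k + 1) * n) (Nat.le_mul_of_pos_left _ (Nat.succ_pos k)))
    (Ideal.pow_right_mono h n (hL n))
  rwa [sub_add_sub_cancel] at this

theorem Ev2_trunc (f : MvPowerSeries τ S) (N : ℕ) :
    f - (truncTotal N f : MvPolynomial τ S) ∈ mX τ S ^ N := by
  rw [mem_mX_pow]
  intro d hd
  rw [map_sub, MvPolynomial.coeff_coe, coeff_truncTotal _ hd, sub_self]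

theorem Ev2_ev_trunc {x : τ → T} (h : TN x) (φ : S →+* T) (f : MvPowerSeries τ S) (N : ℕ) :
    ev φ x f - MvPolynomial.eval₂ φ x (truncTotal N f) ∈ Ideal.span (Set.range x) ^ N := by
  rw [← h.ev_coe, ← map_sub]
  exact h.ev_mem_pow φ (Ev2_trunc f N)

theorem Ev2_eval_sub {x y : τ → T} (φ : S →+* T) (p : MvPolynomial τ S) {𝔠 : Ideal T}
    (hc : ∀ i, x i - y i ∈ 𝔠) : MvPolynomial.eval₂ φ x p - MvPolynomial.eval₂ φ y p ∈ 𝔠 := by
  rw [← Ideal.Quotient.eq, MvPolynomial.eval₂_comp_left, MvPolynomial.eval₂_comp_left]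
  congr 1
  funext i
  exact Ideal.Quotient.eq.2 (hc i)

theorem Ev2_mem_span {α : Type} (e : τ' → α) {g : MvPowerSeries α S}
    (h : ∀ d : α →₀ ℕ, (∀ i, d (e i) = 0) → coeff d g = 0) :
    g ∈ Ideal.span (Set.range fun i => (X (e i) : MvPowerSeries α S)) := by
  classical
  have _ := Fintype.ofFinite τ'
  obtain ⟨c, hc⟩ : ∃ c : (α →₀ ℕ) → Option τ', ∀ d, (c d = none → ∀ i, d (e i) = 0) ∧
      ∀ i, c d = some i → d (e i) ≠ 0 := by
    refine ⟨fun d => if h : ∃ i, d (e i) ≠ 0 then some h.choose else none, fun d => ?_⟩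
    by_cases a : ∃ i, d (e i) ≠ 0
    · simp only [dif_pos a]
      refine ⟨fun b => (by cases b), fun i b => ?_⟩
      rw [← Option.some.inj b]
      exact a.choose_spec
    · simp only [dif_neg a]
      refine ⟨fun _ i => ?_, fun i b => (by cases b)⟩
      by_contra b
      exact a ⟨i, b⟩
  obtain ⟨G, hG⟩ : ∃ G : τ' → MvPowerSeries α S,
      ∀ i d, coeff d (G i) = if c d = some i then coeff d g else 0 :=
    ⟨fun i d => if c d = some i then coeff d g else 0, fun _ _ => rfl⟩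
  have e1 : g = ∑ i, G i := by
    ext d
    rw [map_sum]
    simp only [hG]
    cases a : c d with
    | none => simpa using h d ((hc d).1 a)
    | some j => simp
  rw [e1]
  refine Ideal.sum_mem _ fun i _ => ?_
  obtain ⟨q, hq⟩ : (X (e i) : MvPowerSeries α S) ∣ G i := by
    rw [X_dvd_iff]
    intro d hd
    rw [hG, if_neg fun a => (hc d).2 i a hd]
  rw [hq]
  exact Ideal.mul_mem_right _ _ (Ideal.subset_span ⟨i, rfl⟩)

theorem Ev2_coeff_span {α : Type} (e : τ' → α) {g : MvPowerSeries α S}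
    (h : g ∈ Ideal.span (Set.range fun i => (X (e i) : MvPowerSeries α S))) (d : α →₀ ℕ)
    (hd : ∀ i, d (e i) = 0) : coeff d g = 0 := by
  have _ := Fintype.ofFinite τ'
  obtain ⟨c, rfl⟩ := Ideal.mem_span_range_iff_exists_fun.1 h
  rw [map_sum]
  exact Finset.sum_eq_zero fun i _ => X_dvd_iff.1 (dvd_mul_left _ _) d (hd i)

theorem Ev2_tn_cc {x : τ → MvPowerSeries τ' S} (h : ∀ i, constantCoeff (x i) = 0) : TN x :=
  ⟨mX τ' S, inferInstance, fun i => mem_mX.2 (h i)⟩

theorem Ev2_univ (f : MvPowerSeries τ S) :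
    ev C (fun i => (X (Sum.inl i) + X (Sum.inr i) : MvPowerSeries (τ ⊕ τ) S)) f
      - ev C (fun i => (X (Sum.inl i) : MvPowerSeries (τ ⊕ τ) S)) f
      ∈ Ideal.span (Set.range fun i => (X (Sum.inr i) : MvPowerSeries (τ ⊕ τ) S)) := by
  refine Ev2_mem_span Sum.inr fun d hd => ?_
  have key : ∀ a : τ → MvPowerSeries (τ ⊕ τ) S, (∀ i, constantCoeff (a i) = 0) →
      coeff d (ev C a f) = coeff d (MvPolynomial.eval₂ C a (truncTotal (d.degree + 1) f)) := by
    intro a ha
    have h1 : Ideal.span (Set.range a) ≤ mX (τ ⊕ τ) S := by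
      rw [Ideal.span_le]
      rintro _ ⟨i, rfl⟩
      exact mem_mX.2 (ha i)
    have h2 := mem_mX_pow.1 (Ideal.pow_right_mono h1 _
      (Ev2_ev_trunc (Ev2_tn_cc ha) C f (d.degree + 1))) d (Nat.lt_succ_self _)
    rwa [map_sub, sub_eq_zero] at h2
  rw [map_sub, key _ (by simp), key _ (by simp), ← map_sub]
  refine Ev2_coeff_span Sum.inr (Ev2_eval_sub _ _ fun i => ?_) d hd
  rw [add_sub_cancel_left]
  exact Ideal.subset_span ⟨i, rfl⟩

/-- Congruent arguments give congruent values: in `S⟦X, Y⟧` the series `f(X) - f(Y)` lies in the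
ideal generated by the `X i - Y i` (substitute `Y = X - W`). -/
theorem ev_sub_mem {x y : τ → T} (h : TN (Sum.elim x y)) (φ : S →+* T) (f : MvPowerSeries τ S)
    {𝔠 : Ideal T} (hc : ∀ i, x i - y i ∈ 𝔠) : ev φ x f - ev φ y f ∈ 𝔠 := by
  obtain ⟨𝔟, h𝔟, hb⟩ := h
  have hx : TN x := ⟨𝔟, h𝔟, fun i => hb (Sum.inl i)⟩
  have hy : TN y := ⟨𝔟, h𝔟, fun i => hb (Sum.inr i)⟩
  have hz : TN (Sum.elim y fun i => x i - y i) := by
    refine ⟨𝔟, h𝔟, fun i => ?_⟩
    rcases i with i | i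
    · exact hb (Sum.inr i)
    · exact 𝔟.sub_mem (hb (Sum.inl i)) (hb (Sum.inr i))
  obtain ⟨ψ, h1, h2, h3⟩ : ∃ ψ : MvPowerSeries (τ ⊕ τ) S →+* T, ψ.comp C = φ ∧
      (∀ i, ψ (X (Sum.inl i)) = y i) ∧ ∀ i, ψ (X (Sum.inr i)) = x i - y i :=
    ⟨ev φ (Sum.elim y fun i => x i - y i), RingHom.ext (hz.ev_C φ), fun i => hz.ev_X φ _,
      fun i => hz.ev_X φ _⟩
  have key : ∀ (a : τ → MvPowerSeries (τ ⊕ τ) S) (w : τ → T), (∀ i, constantCoeff (a i) = 0) →
      TN w → (∀ i, ψ (a i) = w i) → ev φ w f = ψ (ev C a f) := by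
    intro a w ha hw e
    obtain rfl : ψ ∘ a = w := funext e
    rw [(Ev2_tn_cc ha).map_ev ψ hw, h1]
  rw [key (fun i => X (Sum.inl i) + X (Sum.inr i)) x (by simp) hx
      (fun i => by rw [map_add, h2, h3, add_sub_cancel]),
    key (fun i => X (Sum.inl i)) y (by simp) hy h2, ← map_sub]
  have : Ideal.span (Set.range fun i => (X (Sum.inr i) : MvPowerSeries (τ ⊕ τ) S))
      ≤ 𝔠.comap ψ := by
    rw [Ideal.span_le]
    rintro _ ⟨i, rfl⟩
    change ψ (X (Sum.inr i)) ∈ 𝔠
    rw [h3]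
    exact hc i
  exact this (Ev2_univ f)

/-- If the two structure maps agree modulo `𝔠` on the coefficients, the values agree modulo
`𝔠 ⊔ (x) ^ N` for every `N`. -/
theorem ev_sub_mem' {x : τ → T} (h : TN x) (φ φ' : S →+* T) (f : MvPowerSeries τ S)
    {𝔠 : Ideal T} (N : ℕ) (hc : ∀ d : τ →₀ ℕ, d.degree < N → φ (coeff d f) - φ' (coeff d f) ∈ 𝔠) :
    ev φ x f - ev φ' x f ∈ 𝔠 ⊔ Ideal.span (Set.range x) ^ N := by
  have h1 := Ev2_ev_trunc h φ f N
  have h2 := Ev2_ev_trunc h φ' f N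
  have h3 : MvPolynomial.eval₂ φ x (truncTotal N f) - MvPolynomial.eval₂ φ' x (truncTotal N f)
      ∈ 𝔠 := by
    rw [MvPolynomial.eval₂_eq, MvPolynomial.eval₂_eq, ← Finset.sum_sub_distrib]
    refine Ideal.sum_mem _ fun d _ => ?_
    rw [← sub_mul]
    refine Ideal.mul_mem_right _ _ ?_
    by_cases a : d.degree < N
    · rw [coeff_truncTotal _ a]; exact hc d a
    · rw [coeff_truncTotal_eq_zero _ (not_lt.1 a)]; simp
  have h4 := Ideal.add_mem _ (Ideal.mem_sup_left (T := Ideal.span (Set.range x) ^ N) h3)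
    (Ideal.mem_sup_right (Ideal.sub_mem _ h1 h2))
  have e : ∀ a b c d : T, c - d + (a - c - (b - d)) = a - b := fun a b c d => by ring
  rwa [e] at h4

theorem ev_congr {x : τ → T} (h : TN x) {φ φ' : S →+* T} {f : MvPowerSeries τ S}
    (hc : ∀ d : τ →₀ ℕ, φ (coeff d f) = φ' (coeff d f)) : ev φ x f = ev φ' x f := by
  obtain ⟨𝔟, h𝔟, hb⟩ := id h
  have h1 : Ideal.span (Set.range x) ≤ 𝔟 := by
    rw [Ideal.span_le]
    rintro _ ⟨i, rfl⟩
    exact hb i
  rw [← sub_eq_zero]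
  refine Ev2_haus 𝔟 fun n => Ideal.pow_right_mono h1 n ?_
  have := ev_sub_mem' h φ φ' f (𝔠 := ⊥) n fun d _ => by rw [hc, sub_self]; exact Ideal.zero_mem _
  rwa [bot_sup_eq] at this

theorem ev_zero (φ : S →+* T) (f : MvPowerSeries τ S) :
    ev φ (0 : τ → T) f = φ (constantCoeff f) := by
  have h : TN (0 : τ → T) := ⟨⊥, inferInstance, fun _ => Ideal.zero_mem _⟩
  rw [← h.eq_ev (θ := φ.comp constantCoeff) ⟨fun c => by simp, fun i => by simp⟩]
  rfl

theorem ev_C_X (φ : S →+* S') (f : MvPowerSeries τ S) :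
    ev (C.comp φ) (X : τ → MvPowerSeries τ S') f = map φ f := by
  have h : TN (X : τ → MvPowerSeries τ S') := Ev2_tn_cc fun i => by simp
  rw [← h.eq_ev (θ := map φ) ⟨fun c => by simp, fun i => by simp⟩]

theorem TN.of_cc {x : τ → MvPowerSeries τ' S} (h : ∀ i, constantCoeff (x i) = 0) : TN x :=
  Ev2_tn_cc h

theorem TN.of_cc₁ {x : τ → PowerSeries S} (h : ∀ i, PowerSeries.constantCoeff (x i) = 0) :
    TN x :=
  ⟨mx S, inferInstance, fun i => Ideal.mem_span_singleton.2 (PowerSeries.X_dvd_iff.2 (h i))⟩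

theorem Ev2_nil {𝔞 : Ideal T} (h : IsNilpotent 𝔞) : IsAdicComplete 𝔞 T := by
  obtain ⟨k, hk⟩ := h
  refine Ev2_cofinal (𝔠 := ⊥) bot_le (k := k) ?_
  rw [pow_succ, hk, zero_mul]
  exact le_rfl

theorem TN.of_nil {x : τ → T} (h : ∀ i, IsNilpotent (x i)) : TN x := by
  refine ⟨Ideal.span (Set.range x), Ev2_nil ?_, fun i => Ideal.subset_span ⟨i, rfl⟩⟩
  rw [Ideal.FG.isNilpotent_iff_le_nilradical (Submodule.fg_span (Set.finite_range x)),
    Ideal.span_le]
  rintro _ ⟨i, rfl⟩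
  exact h i

theorem Adm.tn {𝔞 : Ideal T} [Adm 𝔞] {x : τ → T} (h : ∀ i, x i ∈ 𝔞) : TN x := by
  obtain ⟨𝔟, -, a, b⟩ := Adm.ex (𝔞 := 𝔞) (Set.finite_range x).toFinset (by
    rw [Set.Finite.coe_toFinset]
    rintro _ ⟨i, rfl⟩
    exact h i)
  exact ⟨𝔟, a, fun i => b (by simp)⟩

instance Adm.of_complete (𝔞 : Ideal T) [IsAdicComplete 𝔞 T] : Adm 𝔞 :=
  ⟨fun _ h => ⟨𝔞, le_rfl, inferInstance, h⟩⟩

/-- If `T` is `𝔠`-complete and every element of `𝔞 ≥ 𝔠` is nilpotent modulo `𝔠`. -/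
theorem Adm.of_nil {𝔠 𝔞 : Ideal T} [IsAdicComplete 𝔠 T] (h : 𝔠 ≤ 𝔞)
    (hn : ∀ z ∈ 𝔞, ∃ n, z ^ n ∈ 𝔠) : Adm 𝔞 := by
  refine ⟨fun F hF => ⟨𝔠 ⊔ Ideal.span F, sup_le h (Ideal.span_le.2 hF), ?_,
    fun z hz => Ideal.mem_sup_right (Ideal.subset_span hz)⟩⟩
  obtain ⟨k, hk⟩ := Ideal.exists_pow_le_of_le_radical_of_fg (I := Ideal.span (F : Set T)) (J := 𝔠)
    (Ideal.span_le.2 fun z hz => hn z (hF hz)) ⟨F, rfl⟩
  refine Ev2_cofinal le_sup_left (k := k) ?_
  rw [add_comm]
  refine Ideal.sup_pow_add_le_pow_sup_pow.trans (sup_le ?_ hk)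
  rw [pow_one]

theorem complete_of_nil {𝔞 : Ideal T} (h : IsNilpotent 𝔞) : IsAdicComplete 𝔞 T := Ev2_nil h

theorem Ev2_mem_comap_pow (𝔠 : Ideal T) (n : ℕ) (f : PowerSeries T) :
    f ∈ 𝔠.comap (PowerSeries.constantCoeff (R := T)) ^ n ↔
      ∀ i, PowerSeries.coeff i f ∈ 𝔠 ^ (n - i) := by
  constructor
  · induction n generalizing f with
    | zero => intro _ i; simp
    | succ n ih =>
      intro hf
      rw [pow_succ'] at hf
      refine Submodule.mul_induction_on hf (fun a ha b hb i => ?_) fun a b ha hb i => ?_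
      · rw [PowerSeries.coeff_mul]
        refine Ideal.sum_mem _ fun p hp => ?_
        have hp' : p.1 + p.2 = i := by simpa using hp
        by_cases c : p.1 = 0
        · have h1 : PowerSeries.coeff p.1 a ∈ 𝔠 := by
            rw [c, PowerSeries.coeff_zero_eq_constantCoeff]; exact ha
          have h2 := Ideal.mul_mem_mul h1 (ih b hb p.2)
          rw [← pow_succ'] at h2
          exact Ideal.pow_le_pow_right (by omega) h2
        · exact Ideal.mul_mem_left _ _ (Ideal.pow_le_pow_right (by omega) (ih b hb p.2))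
      · rw [map_add]
        exact Ideal.add_mem _ (ha i) (hb i)
  · intro h
    have hX : (PowerSeries.X : PowerSeries T) ∈ 𝔠.comap (PowerSeries.constantCoeff (R := T)) := by
      simp
    have hC : 𝔠.map (PowerSeries.C (R := T)) ≤ 𝔠.comap (PowerSeries.constantCoeff (R := T)) := by
      rw [Ideal.map_le_iff_le_comap]
      intro a ha
      simpa using ha
    induction n generalizing f with
    | zero => simp
    | succ n ih =>
      rw [PowerSeries.eq_X_mul_shift_add_const f]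
      refine Ideal.add_mem _ ?_ ?_
      · rw [pow_succ']
        refine Ideal.mul_mem_mul hX (ih _ fun i => ?_)
        simpa using h (i + 1)
      · refine Ideal.pow_right_mono hC _ ?_
        rw [← Ideal.map_pow]
        exact Ideal.mem_map_of_mem _ (by simpa using h 0)

/-- Power series over a complete ring. -/
theorem complete_comap (𝔠 : Ideal T) [IsAdicComplete 𝔠 T] :
    IsAdicComplete (𝔠.comap (PowerSeries.constantCoeff (R := T))) (PowerSeries T) := by
  refine Ev2_complete (fun a ha => ?_) fun f hf => ?_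
  · ext i
    refine Ev2_haus 𝔠 fun n => ?_
    simpa using (Ev2_mem_comap_pow 𝔠 _ _).1 (ha (n + i)) i
  · choose L hL using fun i => Ev2_prec 𝔠 (fun n => PowerSeries.coeff i (f (n + i))) fun m n c => by
      simpa using (Ev2_mem_comap_pow 𝔠 _ _).1 (hf (m + i) (n + i) (by omega)) i
    refine ⟨PowerSeries.mk L, fun n => (Ev2_mem_comap_pow 𝔠 _ _).2 fun i => ?_⟩
    by_cases c : i ≤ n
    · have := hL i (n - i)
      rw [Nat.sub_add_cancel c] at this
      simpa using this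
    · rw [Nat.sub_eq_zero_of_le (by omega)]
      simp

end MLF
end
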