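import Pool.Agent.Work.MP_29d410_ag.Con2
import Pool.Agent.Work.MP_29d410_ag.Ev2

-- merged part: Pool.Agent.Work.MP_29d410_ag.LD2b
section
-- merged part: Pool.Agent.Work.MP_29d410_ag.LD1b
section
/-!
# Linear disjointness: elementary properties

`LD k E₁ E₂` can be compared with `IntermediateField.LinearDisjoint` (take `k` as base field,
`Subfield.extendScalars`), or handled directly: it says that `E₁ ⊗[k] E₂ → Ω` is injective.
`LD.hom`: the subring generated by `E₁` and `E₂` is the image of the tensor product.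
`LD.acl`: `acl E₁ ⊗ acl E₂` is a domain (`tensor_domain`), integral over `E₁ ⊗ E₂`; the kernel of
its map to `Ω` is a prime lying over zero.
`tensor_domain`: for finitely generated subalgebras `R₁ ⊆ T₁`; if `(∑ a i ⊗ b i)(∑ a' j ⊗ b' j) = 0`
with `b`, `b'` independent, then for each maximal ideal of `R₁` (residue field `k` by the
Nullstellensatz) all `a i` or all `a' j` vanish; so every product `a i * a' j` is in the Jacobson
radical of `R₁`, which is zero.
-/

namespace MLF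

universe u

variable {Ω Ω' : Type u} [Field Ω] [Field Ω'] {k E E₁ E₂ F : Subfield Ω}

theorem LD1b_ind {n : ℕ} {a : Fin n → Ω} : Ind k (RingHom.id Ω) a ↔ LinearIndependent k a := by
  rw [Fintype.linearIndependent_iff]
  constructor
  · intro h g hg i
    exact Subtype.ext (h (fun i => g i) (fun i => (g i).2) hg i)
  · intro h b hb hs i
    exact congrArg Subtype.val (h (fun i => ⟨b i, hb i⟩) hs i)

theorem LD1b_li (h : LD k E₁ E₂) {ι : Type*} {a : ι → Ω} (ha : ∀ i, a i ∈ E₁)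
    (hi : LinearIndependent k a) : LinearIndependent E₂ a := by
  rw [linearIndependent_iff_finset_linearIndependent] at hi ⊢
  intro s
  rw [← linearIndependent_equiv s.equivFin.symm]
  exact LD1b_ind.1 (h _ _ (fun i => ha _)
    (LD1b_ind.2 ((linearIndependent_equiv s.equivFin.symm).2 (hi s))))

theorem LD1b_of_le {A B : Type*} [Ring A] [Ring B] [Module A Ω] [Module B Ω] (f : A → B)
    (hf : ∀ a (x : Ω), f a • x = a • x) (hf0 : ∀ a, f a = 0 → a = 0) {ι : Type*} {a : ι → Ω}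
    (h : LinearIndependent B a) : LinearIndependent A a := by
  rw [linearIndependent_iff'] at h ⊢
  intro s g hg i hi
  exact hf0 _ (h s (fun i => f (g i)) (by simpa [hf] using hg) i hi)

/-- A subring containing `k`, as a subalgebra. -/
def LD1b_alg (k : Subfield Ω) (R : Subring Ω) (h : k.toSubring ≤ R) : Subalgebra k Ω :=
  { R with algebraMap_mem' := fun c => h c.2 }

theorem LD1b_disj (h : LD k E₁ E₂) {R₁ R₂ : Subring Ω} (hR₁ : R₁ ≤ E₁.toSubring)
    (hR₂ : R₂ ≤ E₂.toSubring) (hk₁ : k.toSubring ≤ R₁) (hk₂ : k.toSubring ≤ R₂) :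
    (LD1b_alg k R₁ hk₁).LinearDisjoint (LD1b_alg k R₂ hk₂) := by
  let b := Module.Basis.ofVectorSpace k (LD1b_alg k R₁ hk₁)
  refine Subalgebra.LinearDisjoint.of_basis_left _ _ b ?_
  refine LD1b_of_le (A := LD1b_alg k R₂ hk₂) (B := E₂) (fun c => ⟨c.1, hR₂ c.2⟩)
    (fun _ _ => rfl) (fun c hc => Subtype.ext (congrArg (fun z : E₂ => z.1) hc))
    (LD1b_li h (fun i => hR₁ (b i).2) ?_)
  exact b.linearIndependent.map' (LD1b_alg k R₁ hk₁).val.toLinearMap
    (LinearMap.ker_eq_bot.2 Subtype.val_injective)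

theorem LD.symm (h : LD k E₁ E₂) (h₁ : k ≤ E₁) (h₂ : k ≤ E₂) : LD k E₂ E₁ := by
  intro n a ha hi
  have H := LD1b_disj h (R₁ := E₁.toSubring) (R₂ := E₂.toSubring) le_rfl le_rfl h₁ h₂
  have H' := H.linearIndependent_right_of_flat (b := fun i => ⟨a i, ha i⟩)
    (LinearIndependent.of_comp (LD1b_alg k E₂.toSubring h₂).val.toLinearMap (LD1b_ind.1 hi))
  exact LD1b_ind.2 (LD1b_of_le (B := LD1b_alg k E₁.toSubring h₁) (fun c => ⟨c.1, c.2⟩)
    (fun _ _ => rfl) (fun c hc => Subtype.ext (congrArg Subtype.val hc)) H')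

theorem LD.mono {E₁' E₂' : Subfield Ω} (h : LD k E₁ E₂) (h₁ : E₁' ≤ E₁) (h₂ : E₂' ≤ E₂) :
    LD k E₁' E₂' :=
  fun n a ha hi b hb => h n a (fun i => h₁ (ha i)) hi b fun i => h₂ (hb i)

theorem LD.inf (h : LD k E₁ E₂) (h₁ : k ≤ E₁) (h₂ : k ≤ E₂) : E₁ ⊓ E₂ = k := by
  refine le_antisymm (fun z hz => ?_) (le_inf h₁ h₂)
  by_contra hk
  have hi : Ind k (RingHom.id Ω) ![1, z] := by
    intro b hb hs
    simp only [Fin.sum_univ_two, RingHom.id_apply, Matrix.cons_val_zero, Matrix.cons_val_one,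
      mul_one] at hs
    have h1 : b 1 = 0 := by
      by_contra h1
      refine hk ?_
      have : z = -b 0 / b 1 := by rw [eq_div_iff h1]; linear_combination hs
      rw [this]
      exact k.div_mem (k.neg_mem (hb 0)) (hb 1)
    rw [h1, zero_mul, add_zero] at hs
    exact Fin.forall_fin_two.2 ⟨hs, h1⟩
  have := h 2 ![1, z] (Fin.forall_fin_two.2 ⟨E₁.one_mem, hz.1⟩) hi ![z, -1]
    (Fin.forall_fin_two.2 ⟨hz.2, E₂.neg_mem E₂.one_mem⟩) (by simp) 1
  simp at this

theorem LD1b_ind_map (ψ : Ω →+* Ω') {n : ℕ} {a : Fin n → Ω} :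
    Ind (k.map ψ) (RingHom.id Ω') (fun i => ψ (a i)) ↔ Ind k (RingHom.id Ω) a := by
  constructor
  · intro h b hb hs i
    refine ψ.injective ((h (fun i => ψ (b i)) (fun i => ⟨b i, hb i, rfl⟩) ?_ i).trans
      (map_zero ψ).symm)
    simpa using congrArg ψ hs
  · intro h b hb hs i
    choose c hc hc' using hb
    rw [← hc' i, h c hc (ψ.injective ?_) i, map_zero]
    simpa [hc'] using hs

theorem ld_map_iff (ψ : Ω →+* Ω') : LD (k.map ψ) (E₁.map ψ) (E₂.map ψ) ↔ LD k E₁ E₂ := by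
  constructor
  · intro h n a ha hi
    exact (LD1b_ind_map ψ).1 (h n _ (fun i => ⟨a i, ha i, rfl⟩) ((LD1b_ind_map ψ).2 hi))
  · intro h n a ha hi
    choose c hc hc' using ha
    obtain rfl : a = fun i => ψ (c i) := funext fun i => (hc' i).symm
    exact (LD1b_ind_map ψ).2 (h n c hc ((LD1b_ind_map ψ).1 hi))

theorem ld_self (h : k ≤ E) : LD k k E :=
  LD.symm (E₁ := E) (fun _ _ _ hi => hi) h le_rfl

/-- Clearing denominators. -/
theorem LD1b_denom {s : Set Ω} {n : ℕ} {b : Fin n → Ω} (hb : ∀ i, b i ∈ Subfield.closure s) :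
    ∃ d : Ω, d ≠ 0 ∧ ∀ i, d * b i ∈ Subring.closure s := by
  have : ∀ i, ∃ d ∈ Subring.closure s, d ≠ 0 ∧ d * b i ∈ Subring.closure s := fun i => by
    obtain ⟨y, hy, z, hz, e⟩ := Subfield.mem_closure_iff.1 (hb i)
    by_cases h0 : z = 0
    · exact ⟨1, one_mem _, one_ne_zero, by rw [← e, h0, div_zero, mul_zero]; exact zero_mem _⟩
    · exact ⟨z, hz, h0, by rwa [← e, mul_div_cancel₀ _ h0]⟩
  choose d hd hd0 hdb using this
  refine ⟨∏ i, d i, Finset.prod_ne_zero_iff.2 fun i _ => hd0 i, fun i => ?_⟩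
  rw [← Finset.prod_erase_mul _ _ (Finset.mem_univ i), mul_assoc]
  exact mul_mem (prod_mem fun j _ => hd j) (hdb i)

theorem LD1b_span {x : Ω} (hx : x ∈ Subring.closure ((F : Set Ω) ∪ E₂)) :
    x ∈ Submodule.span F (E₂ : Set Ω) := by
  have one : (1 : Ω) ∈ Submodule.span F (E₂ : Set Ω) := Submodule.subset_span E₂.one_mem
  induction hx using Subring.closure_induction with
  | mem x hx =>
    rcases hx with hx | hx
    · simpa [Subfield.smul_def] using Submodule.smul_mem _ (⟨x, hx⟩ : F) one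
    · exact Submodule.subset_span hx
  | zero => exact zero_mem _
  | one => exact one
  | add _ _ _ _ h h' => exact add_mem h h'
  | neg _ _ h => exact neg_mem h
  | mul _ _ _ _ h h' =>
    have := Submodule.mul_mem_mul h h'
    rw [Submodule.span_mul_span] at this
    refine Submodule.span_mono ?_ this
    rintro _ ⟨x, hx, y, hy, rfl⟩
    exact E₂.mul_mem hx hy

/-- Tower property, first half. -/
theorem LD.tower (h : LD k E₁ E₂) (h₁ : k ≤ F) (hF : F ≤ E₁) (h₂ : k ≤ E₂) :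
    LD F E₁ (F ⊔ E₂) := by
  classical
  intro n a ha hi b hb hs
  obtain ⟨t, ht, hsp, hli⟩ := exists_linearIndependent k (E₂ : Set Ω)
  have hli' : LinearIndependent E₁ (Subtype.val : t → Ω) :=
    LD1b_li (h.symm (h₁.trans hF) h₂) (fun i => ht i.2) hli
  have hle : Submodule.span F (E₂ : Set Ω) ≤ Submodule.span F (Set.range (Subtype.val : t → Ω)) := by
    rw [Subtype.range_coe, Submodule.span_le]
    intro y hy
    have hy' : y ∈ Submodule.span k t := hsp ▸ Submodule.subset_span hy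
    clear hy
    induction hy' using Submodule.span_induction with
    | mem x hx => exact Submodule.subset_span hx
    | zero => exact zero_mem _
    | add _ _ _ _ h h' => exact add_mem h h'
    | smul c _ _ h => exact Submodule.smul_mem _ (⟨c.1, h₁ c.2⟩ : F) h
  have hb' : ∀ i, b i ∈ Subfield.closure ((F : Set Ω) ∪ E₂) := fun i => by
    rw [Subfield.closure_union, Subfield.closure_eq, Subfield.closure_eq]; exact hb i
  obtain ⟨d, hd, hdb⟩ := LD1b_denom hb'
  choose c hc using fun i => Finsupp.mem_span_range_iff_exists_finsupp.1 (hle (LD1b_span (hdb i)))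
  let s := Finset.univ.biUnion fun i => (c i).support
  have hc' : ∀ i, d * b i = ∑ j ∈ s, (c i j : Ω) * j := fun i => by
    rw [← hc i]
    exact Finsupp.sum_of_support_subset _
      (Finset.subset_biUnion_of_mem (fun i => (c i).support) (Finset.mem_univ i))
      (fun (j : t) (a : F) => a • (j : Ω)) fun _ _ => zero_smul _ _
  have key := linearIndependent_iff'.1 hli' s
    (fun j => ⟨∑ i, (c i j : Ω) * a i, sum_mem fun i _ => mul_mem (hF (c i j).2) (ha i)⟩) (by
      have : ∑ j ∈ s, (∑ i, (c i j : Ω) * a i) * j = d * ∑ i, b i * a i := by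
        simp only [Finset.sum_mul, Finset.mul_sum, ← mul_assoc, hc']
        rw [Finset.sum_comm]
        exact Finset.sum_congr rfl fun i _ => Finset.sum_congr rfl fun j _ => by ring
      exact this.trans (by rw [show ∑ i, b i * a i = 0 from hs, mul_zero]))
  intro i
  refine (mul_eq_zero.1 ((hc' i).trans (Finset.sum_eq_zero fun j hj => ?_))).resolve_left hd
  rw [hi (fun i => c i j) (fun i => (c i j).2) (congrArg Subtype.val (key j hj)) i, zero_mul]

/-- Tower property, second half. -/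
theorem LD.trans {G : Subfield Ω} (h : LD k E₂ F) (h' : LD F G E₁) (h₂ : E₂ ≤ G) :
    LD k E₂ E₁ :=
  fun n a ha hi => h' n a (fun i => h₂ (ha i)) (h n a ha hi)

theorem LD.hom {T : Type u} [CommRing T] (h : LD k E₁ E₂) (h₁ : k ≤ E₁) (h₂ : k ≤ E₂)
    {R₁ R₂ : Subring Ω} (hR₁ : R₁ ≤ E₁.toSubring) (hR₂ : R₂ ≤ E₂.toSubring)
    (hk₁ : k.toSubring ≤ R₁) (hk₂ : k.toSubring ≤ R₂) (θ₁ : R₁ →+* T) (θ₂ : R₂ →+* T)
    (hθ : ∀ c (hc : c ∈ k), θ₁ ⟨c, hk₁ hc⟩ = θ₂ ⟨c, hk₂ hc⟩) :
    ∃ θ : (R₁ ⊔ R₂ : Subring Ω) →+* T, (∀ z : R₁, θ ⟨z, le_sup_left (a := R₁) z.2⟩ = θ₁ z) ∧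
      ∀ z : R₂, θ ⟨z, le_sup_right (b := R₂) z.2⟩ = θ₂ z := by
  have H := LD1b_disj h hR₁ hR₂ hk₁ hk₂
  let _ : Algebra k T := (θ₁.comp (Subring.inclusion hk₁)).toAlgebra
  let A₁ := LD1b_alg k R₁ hk₁
  let A₂ := LD1b_alg k R₂ hk₂
  let φ₁ : A₁ →ₐ[k] T := { θ₁ with commutes' := fun c => rfl }
  let φ₂ : A₂ →ₐ[k] T := { θ₂ with commutes' := fun c => (hθ c.1 c.2).symm }
  have hle : R₁ ⊔ R₂ ≤ (A₁ ⊔ A₂).toSubring :=
    sup_le (fun z hz => Algebra.mem_sup_left (S := A₁) hz) fun z hz => Algebra.mem_sup_right (T := A₂) hz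
  let φ : (A₁ ⊔ A₂ : Subalgebra k Ω) →ₐ[k] T :=
    (Algebra.TensorProduct.lift φ₁ φ₂ fun _ _ => Commute.all _ _).comp H.mulMap.symm.toAlgHom
  have hφ : ∀ (x : A₁) (y : A₂) (z : (A₁ ⊔ A₂ : Subalgebra k Ω)), z.1 = x.1 * y.1 →
      φ z = φ₁ x * φ₂ y := fun x y z hz => by
    obtain rfl : z = H.mulMap (x ⊗ₜ y) := Subtype.ext hz
    simp [φ]
  refine ⟨φ.toRingHom.comp (Subring.inclusion hle), fun z => ?_, fun z => ?_⟩
  · exact (hφ z 1 _ (mul_one _).symm).trans (by rw [map_one, mul_one]; rfl)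
  · exact (hφ 1 z _ (one_mul _).symm).trans (by rw [map_one, one_mul]; rfl)

end MLF
end

-- merged part: Pool.Agent.Work.MP_29d410_ag.LD1c
section
/-!
# Linear disjointness: elementary properties

`LD k E₁ E₂` can be compared with `IntermediateField.LinearDisjoint` (take `k` as base field,
`Subfield.extendScalars`), or handled directly: it says that `E₁ ⊗[k] E₂ → Ω` is injective.
`LD.hom`: the subring generated by `E₁` and `E₂` is the image of the tensor product.
`LD.acl`: `acl E₁ ⊗ acl E₂` is a domain (`tensor_domain`), integral over `E₁ ⊗ E₂`; the kernel of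
its map to `Ω` is a prime lying over zero.
`tensor_domain`: for finitely generated subalgebras `R₁ ⊆ T₁`; if `(∑ a i ⊗ b i)(∑ a' j ⊗ b' j) = 0`
with `b`, `b'` independent, then for each maximal ideal of `R₁` (residue field `k` by the
Nullstellensatz) all `a i` or all `a' j` vanish; so every product `a i * a' j` is in the Jacobson
radical of `R₁`, which is zero.
-/

set_option linter.style.haveILetI false

namespace MLF

universe u

variable {Ω Ω' : Type u} [Field Ω] [Field Ω'] {k E E₁ E₂ F : Subfield Ω}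

open TensorProduct in
theorem LD1c_point (k R : Type u) [Field k] [IsAlgClosed k] [CommRing R] [Nontrivial R]
    [Algebra k R] [Algebra.FiniteType k R] : Nonempty (R →ₐ[k] k) := by
  obtain ⟨m, hm⟩ := Ideal.exists_maximal R
  letI := Ideal.Quotient.field m
  have : Module.Finite k (R ⧸ m) := finite_of_finite_type_of_isJacobsonRing k (R ⧸ m)
  exact ⟨(IsAlgClosed.lift : (R ⧸ m) →ₐ[k] k).comp (Ideal.Quotient.mkₐ k m)⟩

open TensorProduct in
theorem tensor_domain (k T₁ T₂ : Type u) [Field k] [IsAlgClosed k] [Field T₁] [Field T₂]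
    [Algebra k T₁] [Algebra k T₂] : IsDomain (TensorProduct k T₁ T₂) := by
  classical
  have hnt : Nontrivial (T₁ ⊗[k] T₂) :=
    Algebra.TensorProduct.nontrivial_of_algebraMap_injective_of_isDomain k T₁ T₂
      (RingHom.injective _) (RingHom.injective _)
  have : NoZeroDivisors (T₁ ⊗[k] T₂) := by
    refine ⟨fun {x y} hxy => ?_⟩
    by_contra hn
    obtain ⟨hx, hy⟩ := not_or.1 hn
    let b := Module.Free.chooseBasis k T₂
    let B := Algebra.TensorProduct.basis T₁ b
    obtain ⟨i, hi⟩ : ∃ i, B.repr x i ≠ 0 := by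
      by_contra h
      push Not at h
      exact hx (B.repr.injective (by ext i; simp [h i]))
    obtain ⟨j, hj⟩ : ∃ i, B.repr y i ≠ 0 := by
      by_contra h
      push Not at h
      exact hy (B.repr.injective (by ext i; simp [h i]))
    let s : Finset T₁ := (B.repr x).support.image (B.repr x) ∪
      (B.repr y).support.image (B.repr y) ∪ {(B.repr x i)⁻¹, (B.repr y j)⁻¹}
    let R := Algebra.adjoin k (s : Set T₁)
    have : Algebra.FiniteType k R :=
      (Subalgebra.fg_iff_finiteType R).1 (Subalgebra.fg_adjoin_finset s)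
    obtain ⟨φ⟩ := LD1c_point k R
    have hm : ∀ z : T₁ ⊗[k] T₂, (B.repr z).support.image (B.repr z) ⊆ s →
        ∀ l, B.repr z l ∈ R := by
      intro z hz l
      by_cases h : B.repr z l = 0
      · rw [h]
        exact R.zero_mem
      · exact Algebra.subset_adjoin (hz (Finset.mem_image_of_mem _ (Finsupp.mem_support_iff.2 h)))
    have key : ∀ z : T₁ ⊗[k] T₂, (∀ l, B.repr z l ∈ R) → ∀ l, B.repr z l ≠ 0 →
        (B.repr z l)⁻¹ ∈ R → ∃ z' : R ⊗[k] T₂,
        Algebra.TensorProduct.map R.val (AlgHom.id k T₂) z' = z ∧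
        Algebra.TensorProduct.productMap ((Algebra.ofId k T₂).comp φ) (AlgHom.id k T₂) z' ≠ 0 := by
      intro z hz l hl hl'
      refine ⟨∑ t ∈ (B.repr z).support, (⟨B.repr z t, hz t⟩ : R) ⊗ₜ b t, ?_, fun h => ?_⟩
      · rw [map_sum]
        conv_rhs => rw [← B.linearCombination_repr z, Finsupp.linearCombination_apply, Finsupp.sum]
        refine Finset.sum_congr rfl fun t _ => ?_
        rw [Algebra.TensorProduct.basis_repr_symm_apply']
        rfl
      · rw [map_sum] at h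
        have h1 := linearIndependent_iff'.1 b.linearIndependent (B.repr z).support
          (fun t => φ ⟨B.repr z t, hz t⟩) (by
            rw [← h]
            refine Finset.sum_congr rfl fun t _ => ?_
            rw [Algebra.smul_def]
            rfl) l (Finsupp.mem_support_iff.2 hl)
        have h2 : (⟨B.repr z l, hz l⟩ : R) * ⟨_, hl'⟩ = 1 := Subtype.ext (mul_inv_cancel₀ hl)
        have h3 := congrArg φ h2
        rw [map_mul, map_one] at h3
        rw [h1, zero_mul] at h3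
        exact zero_ne_one h3
    obtain ⟨x', hx1, hx2⟩ := key x (hm x (Finset.subset_union_left.trans Finset.subset_union_left))
      i hi (Algebra.subset_adjoin (by simp [s]))
    obtain ⟨y', hy1, hy2⟩ := key y (hm y (Finset.subset_union_right.trans Finset.subset_union_left))
      j hj (Algebra.subset_adjoin (by simp [s]))
    have hinj : Function.Injective (Algebra.TensorProduct.map R.val (AlgHom.id k T₂)) :=
      TensorProduct.map_injective_of_flat_flat R.val.toLinearMap (LinearMap.id (R := k) (M := T₂))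
        Subtype.val_injective Function.injective_id
    have h0 : x' * y' = 0 := hinj (by rw [map_mul, hx1, hy1, hxy, map_zero])
    exact mul_ne_zero hx2 hy2 (by rw [← map_mul, h0, map_zero])
  exact NoZeroDivisors.to_isDomain _

open TensorProduct in
/-- Linear disjointness of the images means injectivity of the product map. -/
theorem LD1c_iff {k T₁ T₂ : Type u} [Field k] [Field T₁] [Field T₂] [Algebra k T₁] [Algebra k T₂]
    [Algebra k Ω] (j₁ : T₁ →ₐ[k] Ω) (j₂ : T₂ →ₐ[k] Ω) :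
    LD (algebraMap k Ω).fieldRange (j₁ : T₁ →+* Ω).fieldRange (j₂ : T₂ →+* Ω).fieldRange ↔
      Function.Injective (Algebra.TensorProduct.productMap j₂ j₁) := by
  classical
  constructor
  · intro h
    rw [injective_iff_map_eq_zero]
    intro x hx
    let a := Module.Free.chooseBasis k T₁
    let B := Algebra.TensorProduct.basis T₂ a
    let s := (B.repr x).support
    let e := s.equivFin.symm
    have h1 := h s.card (fun t => j₁ (a (e t))) (fun t => ⟨_, rfl⟩) (by
      intro c hc h0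
      choose c' hc' using hc
      have h2 := Fintype.linearIndependent_iff.1
        (a.linearIndependent.comp (fun t => (e t : _)) (Subtype.val_injective.comp e.injective)) c'
        (j₁.toRingHom.injective (by
          rw [map_sum, map_zero, ← h0]
          refine Finset.sum_congr rfl fun t _ => ?_
          rw [← hc' t]
          simp [Algebra.smul_def]))
      intro t
      rw [← hc' t, h2 t, map_zero]) (fun t => j₂ (B.repr x (e t))) (fun t => ⟨_, rfl⟩) (by
      rw [← hx]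
      conv_rhs => rw [← B.linearCombination_repr x, Finsupp.linearCombination_apply, Finsupp.sum,
        map_sum, ← Finset.sum_coe_sort, ← e.sum_comp]
      refine Finset.sum_congr rfl fun t _ => ?_
      rw [Algebra.TensorProduct.basis_repr_symm_apply']
      rfl)
    apply B.repr.injective
    ext t
    by_contra ht
    have ht' : t ∈ s := Finsupp.mem_support_iff.2 (by simpa using ht)
    have h2 := h1 (e.symm ⟨t, ht'⟩)
    simp only [Equiv.apply_symm_apply] at h2
    exact ht (by simpa using h2)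
  · intro h n a ha hI c hc h0
    choose a' ha' using ha
    choose c' hc' using hc
    have h1 : LinearIndependent k a' := Fintype.linearIndependent_iff.2 fun g hg t => by
      have h2 := hI (fun t => algebraMap k Ω (g t)) (fun t => ⟨_, rfl⟩) (by
        have h3 := congrArg j₁ hg
        rw [map_sum, map_zero] at h3
        rw [← h3]
        refine Finset.sum_congr rfl fun t _ => ?_
        rw [← ha' t]
        simp [Algebra.smul_def]) t
      simpa using h2
    have h2 := Fintype.linearIndependent_iff.1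
      (Module.Flat.linearIndependent_one_tmul (S := T₂) h1) c' (h (by
        rw [map_sum, map_zero, ← h0]
        refine Finset.sum_congr rfl fun t _ => ?_
        rw [← ha' t, ← hc' t]
        simp [TensorProduct.smul_tmul']))
    intro t
    rw [← hc' t, h2 t, map_zero]

open TensorProduct in
theorem LD1c_int {k S₁ S₂ T₁ T₂ : Type u} [Field k] [IsAlgClosed k] [Field S₁] [Field S₂]
    [Field T₁] [Field T₂] [Algebra k S₁] [Algebra k S₂] [Algebra k T₁] [Algebra k T₂]
    [Algebra k Ω] (f₁ : S₁ →ₐ[k] T₁) (f₂ : S₂ →ₐ[k] T₂) (h₁ : (f₁ : S₁ →+* T₁).IsIntegral)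
    (h₂ : (f₂ : S₂ →+* T₂).IsIntegral) (j₁ : T₁ →ₐ[k] Ω) (j₂ : T₂ →ₐ[k] Ω)
    (h : Function.Injective (Algebra.TensorProduct.productMap (j₂.comp f₂) (j₁.comp f₁))) :
    Function.Injective (Algebra.TensorProduct.productMap j₂ j₁) := by
  have := tensor_domain k T₂ T₁
  have := tensor_domain k S₂ S₁
  let g : S₂ ⊗[k] S₁ →+* T₂ ⊗[k] T₁ := (Algebra.TensorProduct.map f₂ f₁).toRingHom
  letI := g.toAlgebra
  have hint : Algebra.IsIntegral (S₂ ⊗[k] S₁) (T₂ ⊗[k] T₁) := ⟨fun x => by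
    induction x using TensorProduct.induction_on with
    | zero => exact isIntegral_zero
    | add x y hx hy => exact hx.add hy
    | tmul x y =>
      letI := (f₁ : S₁ →+* T₁).toAlgebra
      letI := (f₂ : S₂ →+* T₂).toAlgebra
      have a1 : IsIntegral (S₂ ⊗[k] S₁) (x ⊗ₜ[k] (1 : T₁)) :=
        IsIntegral.map_of_comp_eq (R := S₂) (S := T₂) (Algebra.TensorProduct.includeLeftRingHom)
          (Algebra.TensorProduct.includeLeftRingHom) (by
            ext z
            exact congrArg (f₂ z ⊗ₜ[k] ·) (map_one f₁)) (h₂ x)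
      have a2 : IsIntegral (S₂ ⊗[k] S₁) ((1 : T₂) ⊗ₜ[k] y) :=
        IsIntegral.map_of_comp_eq (R := S₁) (S := T₁)
          (Algebra.TensorProduct.includeRight (R := k) (A := S₂)).toRingHom
          (Algebra.TensorProduct.includeRight (R := k) (A := T₂)).toRingHom (by
            ext z
            exact congrArg (· ⊗ₜ[k] f₁ z) (map_one f₂)) (h₁ y)
      simpa using a1.mul a2⟩
  rw [RingHom.injective_iff_ker_eq_bot]
  refine Ideal.eq_bot_of_comap_eq_bot (R := S₂ ⊗[k] S₁) (eq_bot_iff.2 fun x hx => ?_)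
  have h3 : (Algebra.TensorProduct.productMap j₂ j₁).comp (Algebra.TensorProduct.map f₂ f₁) =
      Algebra.TensorProduct.productMap (j₂.comp f₂) (j₁.comp f₁) := by
    ext <;> simp
  exact h (by rw [← h3, map_zero]; exact hx)

/-- The inclusion of subfields as an algebra map over a smaller subfield. -/
def LD1c_incl {E E' : Subfield Ω} (h : k ≤ E) (h' : E ≤ E') :
    letI := (Subfield.inclusion h).toAlgebra
    letI := (Subfield.inclusion (h.trans h')).toAlgebra
    E →ₐ[k] E' :=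
  letI := (Subfield.inclusion h).toAlgebra
  letI := (Subfield.inclusion (h.trans h')).toAlgebra
  ⟨Subfield.inclusion h', fun _ => rfl⟩

/-- The inclusion of a subfield as an algebra map over a smaller subfield. -/
def LD1c_val {E : Subfield Ω} (h : k ≤ E) :
    letI := (Subfield.inclusion h).toAlgebra
    E →ₐ[k] Ω :=
  letI := (Subfield.inclusion h).toAlgebra
  ⟨E.subtype, fun _ => rfl⟩

theorem LD1c_iff' (h₁ : k ≤ E₁) (h₂ : k ≤ E₂) :
    letI := (Subfield.inclusion h₁).toAlgebra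
    letI := (Subfield.inclusion h₂).toAlgebra
    LD k E₁ E₂ ↔
      Function.Injective (Algebra.TensorProduct.productMap (LD1c_val h₂) (LD1c_val h₁)) := by
  letI := (Subfield.inclusion h₁).toAlgebra
  letI := (Subfield.inclusion h₂).toAlgebra
  rw [← LD1c_iff]
  have e0 : (algebraMap k Ω).fieldRange = k := Subfield.fieldRange_subtype k
  have e1 : ((LD1c_val h₁ : E₁ →ₐ[k] Ω) : E₁ →+* Ω).fieldRange = E₁ :=
    Subfield.fieldRange_subtype E₁
  have e2 : ((LD1c_val h₂ : E₂ →ₐ[k] Ω) : E₂ →+* Ω).fieldRange = E₂ :=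
    Subfield.fieldRange_subtype E₂
  rw [e0, e1, e2]

theorem LD1c_aclInt (E : Subfield Ω) : (Subfield.inclusion (le_acl E)).IsIntegral := by
  intro z
  obtain ⟨p, hp, hz⟩ := (mem_acl.1 z.2).isIntegral
  refine ⟨p, hp, (acl E).subtype.injective ?_⟩
  rw [Polynomial.hom_eval₂, map_zero]
  exact hz

theorem LD.acl [IsAlgClosed k] (h : LD k E₁ E₂) (h₁ : k ≤ E₁) (h₂ : k ≤ E₂) :
    LD k (acl E₁) (acl E₂) := by
  letI := (Subfield.inclusion h₁).toAlgebra
  letI := (Subfield.inclusion h₂).toAlgebra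
  letI := (Subfield.inclusion (h₁.trans (le_acl E₁))).toAlgebra
  letI := (Subfield.inclusion (h₂.trans (le_acl E₂))).toAlgebra
  rw [LD1c_iff' (h₁.trans (le_acl E₁)) (h₂.trans (le_acl E₂))]
  exact LD1c_int (LD1c_incl h₁ (le_acl E₁)) (LD1c_incl h₂ (le_acl E₂)) (LD1c_aclInt E₁)
    (LD1c_aclInt E₂) _ _ ((LD1c_iff' h₁ h₂).1 h)

open TensorProduct in
/-- Free amalgam. -/
theorem exists_amalg {k T₁ T₂ : Type u} [Field k] [IsAlgClosed k] [Field T₁] [Field T₂]
    (i₁ : k →+* T₁) (i₂ : k →+* T₂) :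
    ∃ (T : Type u) (_ : Field T) (_ : IsAlgClosed T) (j₁ : T₁ →+* T) (j₂ : T₂ →+* T),
      j₁.comp i₁ = j₂.comp i₂ ∧ LD (j₁.comp i₁).fieldRange j₁.fieldRange j₂.fieldRange := by
  letI := i₁.toAlgebra
  letI := i₂.toAlgebra
  have := tensor_domain k T₂ T₁
  let T := AlgebraicClosure (FractionRing (T₂ ⊗[k] T₁))
  let g : T₂ ⊗[k] T₁ →+* T := (algebraMap (FractionRing (T₂ ⊗[k] T₁)) T).comp (algebraMap _ _)
  have hg : Function.Injective g :=
    (algebraMap (FractionRing (T₂ ⊗[k] T₁)) T).injective.comp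
      (IsFractionRing.injective (T₂ ⊗[k] T₁) (FractionRing (T₂ ⊗[k] T₁)))
  letI : Algebra k T := (g.comp (algebraMap k _)).toAlgebra
  let g' : T₂ ⊗[k] T₁ →ₐ[k] T := ⟨g, fun _ => rfl⟩
  let j₁ : T₁ →ₐ[k] T := g'.comp Algebra.TensorProduct.includeRight
  let j₂ : T₂ →ₐ[k] T := g'.comp Algebra.TensorProduct.includeLeft
  have e : Algebra.TensorProduct.productMap j₂ j₁ = g' := by
    ext <;> simp [j₁, j₂, ← map_mul]
  have e1 : (j₁ : T₁ →+* T).comp i₁ = algebraMap k T := j₁.comp_algebraMap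
  have e2 : (j₂ : T₂ →+* T).comp i₂ = algebraMap k T := j₂.comp_algebraMap
  refine ⟨T, inferInstance, inferInstance, j₁, j₂, e1.trans e2.symm, ?_⟩
  rw [e1, LD1c_iff, e]
  exact hg

theorem LD1c_ext [IsAlgClosed Ω'] (σ : F →+* Ω') :
    ∃ θ : MLF.acl F →+* Ω', ∀ z : F, θ ⟨z, le_acl F z.2⟩ = σ z := by
  letI := σ.toAlgebra
  haveI : Module.IsTorsionFree F (algebraicClosure F Ω) := DivisionSemiring.to_moduleIsTorsionFree
  haveI : Module.IsTorsionFree F Ω' := DivisionSemiring.to_moduleIsTorsionFree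
  let θ : algebraicClosure F Ω →ₐ[F] Ω' := IsAlgClosed.lift
  exact ⟨θ.toRingHom, fun z => θ.commutes z⟩

open TensorProduct in
/-- Embeddings of two linearly disjoint fields with linearly disjoint images glue. -/
theorem LD.emb [IsAlgClosed Ω'] (h : LD k E₁ E₂) (h₁ : k ≤ E₁) (h₂ : k ≤ E₂) (θ₁ : E₁ →+* Ω')
    (θ₂ : E₂ →+* Ω') (hθ : ∀ c (hc : c ∈ k), θ₁ ⟨c, h₁ hc⟩ = θ₂ ⟨c, h₂ hc⟩)
    (h' : LD (θ₁.comp (Subfield.inclusion h₁)).fieldRange θ₁.fieldRange θ₂.fieldRange) :
    ∃ θ : MLF.acl (E₁ ⊔ E₂) →+* Ω',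
      (∀ z : E₁, θ ⟨z, le_acl _ (le_sup_left (a := E₁) z.2)⟩ = θ₁ z) ∧
      ∀ z : E₂, θ ⟨z, le_acl _ (le_sup_right (b := E₂) z.2)⟩ = θ₂ z := by
  letI := (Subfield.inclusion h₁).toAlgebra
  letI := (Subfield.inclusion h₂).toAlgebra
  letI : Algebra k Ω' := (θ₁.comp (Subfield.inclusion h₁)).toAlgebra
  let j₁ : E₁ →ₐ[k] Ω' := ⟨θ₁, fun _ => rfl⟩
  let j₂ : E₂ →ₐ[k] Ω' := ⟨θ₂, fun c => (hθ c c.2).symm⟩
  have hμ := (LD1c_iff' h₁ h₂).1 h
  have hμ' := (LD1c_iff j₁ j₂).1 h'
  set μ := Algebra.TensorProduct.productMap (LD1c_val h₂) (LD1c_val h₁) with hμd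
  set μ' := Algebra.TensorProduct.productMap j₂ j₁ with hμd'
  have : IsDomain (E₂ ⊗[k] E₁) := hμ.isDomain μ.toRingHom
  letI : DivisionRing (FractionRing (E₂ ⊗[k] E₁)) := (FractionRing.field _).toDivisionRing
  let ι : FractionRing (E₂ ⊗[k] E₁) →+* Ω := IsFractionRing.lift (g := μ.toRingHom) hμ
  let ι' : FractionRing (E₂ ⊗[k] E₁) →+* Ω' := IsFractionRing.lift (g := μ'.toRingHom) hμ'
  have hι : ∀ x, ι (algebraMap _ _ x) = μ x := fun x => IsFractionRing.lift_algebraMap hμ x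
  have hι' : ∀ x, ι' (algebraMap _ _ x) = μ' x := fun x => IsFractionRing.lift_algebraMap hμ' x
  have a1 : ∀ z : E₁, μ (1 ⊗ₜ z) = z := fun z => by
    rw [hμd, Algebra.TensorProduct.productMap_apply_tmul, map_one, one_mul]
    rfl
  have a2 : ∀ z : E₂, μ (z ⊗ₜ 1) = z := fun z => by
    rw [hμd, Algebra.TensorProduct.productMap_apply_tmul, map_one, mul_one]
    rfl
  have hle : E₁ ⊔ E₂ ≤ ι.fieldRange :=
    sup_le (fun z hz => ⟨_, (hι _).trans (a1 ⟨z, hz⟩)⟩) fun z hz => ⟨_, (hι _).trans (a2 ⟨z, hz⟩)⟩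
  obtain ⟨θ, hθ'⟩ := LD1c_ext (ι'.comp ι.rangeRestrictFieldEquiv.symm.toRingHom)
  have key : ∀ x (z : Ω) (hz : z ∈ MLF.acl ι.fieldRange), μ x = z → θ ⟨z, hz⟩ = μ' x := by
    intro x z hz hx
    have b1 := hθ' (ι.rangeRestrictFieldEquiv (algebraMap _ _ x))
    have b2 : (ι.rangeRestrictFieldEquiv (algebraMap _ _ x) : Ω) = z := (hι x).trans hx
    rw [← hι']
    simpa [b2] using b1
  refine ⟨θ.comp (Subfield.inclusion (acl_mono hle)), fun z => ?_, fun z => ?_⟩
  · refine (key _ _ _ (a1 z)).trans ?_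
    rw [hμd', Algebra.TensorProduct.productMap_apply_tmul, map_one, one_mul]
    rfl
  · refine (key _ _ _ (a2 z)).trans ?_
    rw [hμd', Algebra.TensorProduct.productMap_apply_tmul, map_one, mul_one]
    rfl

/-- An independent family of copies of a field. -/
theorem exists_indepFam {k T : Type u} [Field k] [IsAlgClosed k] [Field T] (i : k →+* T) (m : ℕ) :
    ∃ (T' : Type u) (_ : Field T') (_ : IsAlgClosed T') (j : k →+* T') (ψ : Fin m → (T →+* T')),
      (∀ l, (ψ l).comp i = j) ∧ IndepFam j.fieldRange ψ := by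
  induction m with
  | zero => exact ⟨k, inferInstance, inferInstance, RingHom.id k, Fin.elim0, fun l => l.elim0,
      fun l => l.elim0⟩
  | succ m ih =>
    obtain ⟨T', _, _, j, ψ, hψ, hI⟩ := ih
    obtain ⟨T'', _, _, j₁, j₂, hj, hL⟩ := exists_amalg i j
    have hk₁ : (j₁.comp i).fieldRange ≤ j₁.fieldRange := by
      rintro _ ⟨c, rfl⟩
      exact ⟨_, rfl⟩
    have hk₂ : (j₁.comp i).fieldRange ≤ j₂.fieldRange := by
      rw [hj]
      rintro _ ⟨c, rfl⟩
      exact ⟨_, rfl⟩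
    have hA : ∀ l, (j₂.comp (ψ l)).fieldRange ≤ j₂.fieldRange := by
      rintro l _ ⟨c, rfl⟩
      exact ⟨_, rfl⟩
    refine ⟨T'', inferInstance, inferInstance, j₁.comp i,
      Fin.cons j₁ fun l => j₂.comp (ψ l), fun l => ?_, fun l => ?_⟩
    · refine Fin.cases rfl (fun l => ?_) l
      rw [Fin.cons_succ, RingHom.comp_assoc, hψ, hj]
    · refine Fin.cases ?_ (fun l => ?_) l
      · refine hL.mono le_rfl (sup_le hk₂ (iSup_le ?_))
        rintro ⟨l', hl'⟩
        obtain ⟨l', rfl⟩ := Fin.exists_succ_eq.2 hl'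
        exact hA l'
      · have b1 := (ld_map_iff j₂).2 (hI l)
        rw [RingHom.map_fieldRange, RingHom.map_fieldRange, ← hj] at b1
        set B := (j.fieldRange ⊔ ⨆ i' : {i' // i' ≠ l}, (ψ i').fieldRange).map j₂ with hB
        have b2 : (j₁.comp i).fieldRange ≤ B := by
          rw [hj, ← RingHom.map_fieldRange]
          exact (Subfield.gc_map_comap j₂).monotone_l le_sup_left
        have b3 : B ≤ j₂.fieldRange := by
          rintro _ ⟨c, -, rfl⟩
          exact ⟨_, rfl⟩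
        have b4 := b1.trans ((hL.symm hk₁ hk₂).tower b2 b3 hk₁) (hA l)
        refine b4.mono le_rfl (sup_le (b2.trans le_sup_left) (iSup_le ?_))
        rintro ⟨l', hl'⟩
        revert hl'
        refine Fin.cases (fun _ => le_sup_right) (fun l' hl' => le_sup_left.trans' ?_) l'
        have b5 : l' ≠ l := fun h => hl' (by rw [h])
        show (j₂.comp (ψ l')).fieldRange ≤ B
        rw [← RingHom.map_fieldRange]
        exact (Subfield.gc_map_comap j₂).monotone_l (le_sup_right.trans'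
          (le_iSup (fun i' : {i' // i' ≠ l} => (ψ i').fieldRange) ⟨l', b5⟩))

end MLF
end

-- merged part: Pool.Agent.Work.MP_29d410_ag.LD2
section
/-!
# Rank, places, automorphisms, Gauss valuations

Models for the rank lemmas: `Pool/Agent/Work/MP_ffcd14_ag/Cyc/Rk.lean`, `KR.lean`, `FP.lean`.
`exists_place`: localise `R` at the kernel of `r`, dominate by a valuation subring `W`
(`LocalSubring.exists_le_valuationSubring`); its residue field may be transcendental over the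
fraction field `k₀` of `r R`.  To avoid this choose (Zorn) a maximal pair (subring, homomorphism
to `Ω'`): it is local, and if `x, x⁻¹ ∉ W` the usual minimal degree argument applies: either
`𝔪 W[x]` or `𝔪 W[x⁻¹]` is proper, and a maximal ideal above it has residue field algebraic over
the residue field of `W`, or `x` is transcendental and can be sent to `0`.
`fixed_pow_mem`: an element fixed by all automorphisms over `E` is purely inseparable over `E`:
use a transcendence basis and `IsAlgClosed.equivOfTranscendenceBasis` or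
`IsAlgClosure.equivOfEquiv`.
`exists_comm`: transcendence basis `z` of `Ω` over `E`; `W₁ = {f z / g z}` with `f, g` over `W₀`
and `g` primitive is a valuation ring of `E (z)` with the same values; dominate it; in an algebraic
relation two terms have the same value.
-/

namespace MLF

universe u

variable {Ω Ω' : Type u} [Field Ω] [Field Ω'] {k E E₁ E₂ F : Subfield Ω} {s t : Set Ω}

theorem LD2_adj_eq (E : Subfield Ω) (s : Set Ω) :
    (IntermediateField.adjoin E s).toSubfield = adj E s := by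
  rw [IntermediateField.adjoin_toSubfield, adj]
  congr 2
  exact Subtype.range_coe

theorem LD2_closure (E : Subfield Ω) (s : Set Ω) :
    (AlgebraicIndependent.matroid E Ω).closure s = acl (adj E s) := by
  ext z
  rw [AlgebraicIndependent.matroid_closure_eq, SetLike.mem_coe, SetLike.mem_coe, mem_acl,
    ← LD2_adj_eq]
  exact (IntermediateField.isAlgebraic_adjoin_iff (F := E) (s := s) (x := z)).symm

theorem LD2_adj_mono (h : E ≤ F) (h' : s ⊆ t) : adj E s ≤ adj F t :=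
  adj_le.2 ⟨h.trans (le_adj F t), h'.trans (subset_adj F t)⟩

theorem LD2_adj_empty (E : Subfield Ω) : adj E ∅ = E :=
  le_antisymm (adj_le.2 ⟨le_rfl, Set.empty_subset _⟩) (le_adj E ∅)

theorem LD2_adj_adj (E : Subfield Ω) (s t : Set Ω) : adj (adj E s) t = adj E (s ∪ t) :=
  le_antisymm (adj_le.2 ⟨LD2_adj_mono le_rfl Set.subset_union_left,
      Set.subset_union_right.trans (subset_adj E _)⟩)
    (adj_le.2 ⟨(le_adj E s).trans (le_adj _ t), Set.union_subset
      (fun _ h => le_adj (adj E s) t (subset_adj E s h)) (subset_adj _ t)⟩)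

theorem LD2_acl_le (h : E ≤ acl F) : acl E ≤ acl F := (acl_mono h).trans (acl_acl F).le

theorem LD2_indep_anti (h : E ≤ F) (hs : (AlgebraicIndependent.matroid F Ω).Indep s) :
    (AlgebraicIndependent.matroid E Ω).Indep s := by
  rw [Matroid.indep_iff_forall_notMem_closure_sdiff'] at hs ⊢
  refine ⟨hs.1, fun e he c => hs.2 e he ?_⟩
  rw [LD2_closure] at c ⊢
  exact acl_mono (LD2_adj_mono h le_rfl) c

theorem rk_mono (h : s ⊆ t) : rk E s ≤ rk E t := Matroid.eRk_mono _ h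
theorem rk_anti (h : E ≤ F) : rk F s ≤ rk E s := by
  obtain ⟨I, hI⟩ := (AlgebraicIndependent.matroid F Ω).exists_isBasis s (Set.subset_univ _)
  rw [rk, hI.eRk_eq_encard]
  exact (LD2_indep_anti h hI.indep).encard_le_eRk_of_subset hI.subset
theorem rk_le_of_acl (h : t ⊆ acl (adj E s)) : rk E t ≤ rk E s := by
  rw [rk, rk, ← Matroid.eRk_closure_eq _ s, LD2_closure]
  exact Matroid.eRk_mono _ h
theorem rk_ne_top (h : s.Finite) : rk E s ≠ ⊤ :=
  ne_top_of_le_ne_top h.encard_lt_top.ne (Matroid.eRk_le_encard _ s)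
theorem rk_eq_zero : rk E s = 0 ↔ s ⊆ acl E := by
  rw [rk, Matroid.eRk_eq_zero_iff (Set.subset_univ _), ← Matroid.closure_empty, LD2_closure,
    LD2_adj_empty]
theorem rk_map (ψ : Ω →+* Ω') : rk (E.map ψ) (ψ '' s) = rk E s := by
  have : (AlgebraicIndependent.matroid (E.map ψ) Ω').comap ψ = AlgebraicIndependent.matroid E Ω :=
    Matroid.ext_closure fun X => by
      rw [Matroid.comap_closure_eq, LD2_closure, LD2_closure, ← map_adj]
      ext z
      exact mem_acl_map ψ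
  rw [rk, rk, ← Matroid.eRk_comap, this]
theorem rk_acl : rk (acl E) s = rk E s := by
  have : AlgebraicIndependent.matroid (acl E) Ω = AlgebraicIndependent.matroid E Ω :=
    Matroid.ext_closure fun X => by
      rw [LD2_closure, LD2_closure]
      congr 1
      exact le_antisymm (LD2_acl_le (adj_le.2 ⟨acl_mono (le_adj E X),
        fun _ h => le_acl _ (subset_adj E X h)⟩)) (acl_mono (LD2_adj_mono (le_acl E) le_rfl))
  rw [rk, rk, this]
theorem rk_union : rk E (s ∪ t) = rk E s + rk (adj E s) t := by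
  obtain ⟨I, hI⟩ := (AlgebraicIndependent.matroid E Ω).exists_isBasis s (Set.subset_univ _)
  obtain ⟨K, hK, hIK⟩ := hI.indep.subset_isBasis_of_subset
    (hI.subset.trans (Set.subset_union_left (t := t))) (Set.subset_univ _)
  have cl : ∀ X, (AlgebraicIndependent.matroid (adj E s) Ω).closure X =
      (AlgebraicIndependent.matroid E Ω).closure (I ∪ X) := fun X => by
    rw [Matroid.closure_union_congr_left hI.closure_eq_closure, LD2_closure, LD2_closure,
      LD2_adj_adj]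
  have ind : (AlgebraicIndependent.matroid (adj E s) Ω).Indep (K \ I) := by
    refine Matroid.indep_iff_forall_notMem_closure_sdiff'.2 ⟨Set.subset_univ _, fun e he c => ?_⟩
    rw [cl] at c
    refine hK.indep.notMem_closure_sdiff_of_mem he.1 (Matroid.closure_subset_closure _ ?_ c)
    rintro x (hx | hx)
    · exact ⟨hIK hx, fun o => he.2 (Set.mem_singleton_iff.1 o ▸ hx)⟩
    · exact ⟨hx.1.1, hx.2⟩
  have sub : K \ I ⊆ t := fun x hx => (hK.subset hx.1).resolve_left fun o => by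
    have := hI.inter_eq_of_subset_indep hIK hK.indep
    exact hx.2 (this ▸ ⟨hx.1, o⟩)
  have bas : (AlgebraicIndependent.matroid (adj E s) Ω).IsBasis (K \ I) t :=
    ind.isBasis_of_subset_of_subset_closure sub (by
      rw [cl, Set.union_sdiff_cancel hIK]
      exact Set.subset_union_right.trans hK.subset_closure)
  rw [rk, rk, rk, hI.eRk_eq_encard, hK.eRk_eq_encard, bas.eRk_eq_encard, add_comm,
    Set.encard_sdiff_add_encard_of_subset hIK]
theorem rk_singleton_le (z : Ω) : rk E {z} ≤ 1 := Matroid.eRk_singleton_le _ z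
theorem rk_adj : rk E (adj E s : Set Ω) = rk E s :=
  le_antisymm (rk_le_of_acl (le_acl _)) (rk_mono (subset_adj E s))
theorem rk_acl_adj : rk E (acl (adj E s) : Set Ω) = rk E s :=
  le_antisymm (rk_le_of_acl subset_rfl) (rk_mono fun _ h => le_acl _ (subset_adj E s h))

/-- Exchange. -/
theorem acl_exchange {z : Ω} (h : s ⊆ acl (adj E {z})) (h' : ¬ s ⊆ acl E) :
    z ∈ acl (adj E s) := by
  obtain ⟨y, hy, hy'⟩ := Set.not_subset.1 h'
  have := (Matroid.closure_exchange (M := AlgebraicIndependent.matroid E Ω) (e := y) (f := z)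
    (X := ∅) ⟨by rw [LD2_closure, insert_empty_eq]; exact h hy,
      by rwa [LD2_closure, LD2_adj_empty]⟩).1
  rw [LD2_closure, insert_empty_eq] at this
  exact acl_mono (LD2_adj_mono le_rfl (Set.singleton_subset_iff.2 hy)) this

theorem LD2_ind_iff {n : ℕ} {a : Fin n → Ω} : Ind k (RingHom.id Ω) a ↔ LinearIndependent k a := by
  rw [Fintype.linearIndependent_iff]
  exact ⟨fun h g e i => Subtype.ext (h (fun i => g i) (fun i => (g i).2) e i),
    fun h b hb e i => congrArg Subtype.val (h (fun i => ⟨b i, hb i⟩) e i)⟩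

theorem LD2_li (h : LD k E₁ E₂) {ι : Type u} {a : ι → Ω} (ha : ∀ i, a i ∈ E₁)
    (hl : LinearIndependent k a) : LinearIndependent E₂ a := by
  refine linearIndependent_iff_finset_linearIndependent.2 fun T => ?_
  have := h _ (fun i => a (T.equivFin.symm i)) (fun i => ha _)
    (LD2_ind_iff.2 (hl.comp _ (Subtype.val_injective.comp T.equivFin.symm.injective)))
  exact (linearIndependent_equiv T.equivFin.symm).1 (LD2_ind_iff.1 this)

theorem LD2_mon (K : Subfield Ω) {ι : Type u} (x : ι → Ω) :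
    AlgebraicIndependent K x ↔ LinearIndependent K fun d : ι →₀ ℕ => d.prod fun i n => x i ^ n := by
  have e : (fun d : ι →₀ ℕ => d.prod fun i n => x i ^ n) =
      (MvPolynomial.aeval x : MvPolynomial ι K →ₐ[K] Ω).toLinearMap ∘
        MvPolynomial.basisMonomials ι K := by
    funext d
    simp [MvPolynomial.aeval_monomial]
  rw [e, algebraicIndependent_iff_injective_aeval]
  exact ⟨fun h => (MvPolynomial.basisMonomials ι K).linearIndependent.map' _
    (LinearMap.ker_eq_bot.2 h), fun h => LinearMap.injective_of_linearIndependent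
      (MvPolynomial.basisMonomials ι K).span_eq h⟩

theorem LD.rk_eq (h : LD k E₁ E₂) (h₁ : k ≤ E₁) (h₂ : k ≤ E₂) (hs : s ⊆ E₂) :
    rk E₁ s = rk k s := by
  refine le_antisymm (rk_anti h₁) ?_
  obtain ⟨I, hI⟩ := (AlgebraicIndependent.matroid k Ω).exists_isBasis s (Set.subset_univ _)
  have ind : (AlgebraicIndependent.matroid E₁ Ω).Indep I :=
    (LD2_mon E₁ fun i : I => (i : Ω)).2 (LD2_li (h.symm h₁ h₂)
      (fun d => prod_mem fun i _ => pow_mem (hs (hI.subset i.2)) _)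
      ((LD2_mon k fun i : I => (i : Ω)).1 hI.indep))
  rw [rk, hI.eRk_eq_encard]
  exact ind.encard_le_eRk_of_subset hI.subset

open MvPolynomial in
theorem LD2_ld_adj (h₁ : k ≤ E₁) (hs : (AlgebraicIndependent.matroid E₁ Ω).Indep s) :
    LD k E₁ (adj k s) := by
  classical
  intro n a ha hk b hb e
  have hx : AlgebraicIndependent E₁ fun i : s => (i : Ω) := hs
  have fr : ∀ i, ∃ p q : MvPolynomial s k, aeval Subtype.val q ≠ 0 ∧
      b i * aeval Subtype.val q = aeval Subtype.val p := fun i => by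
    have := hb i
    rw [← LD2_adj_eq] at this
    obtain ⟨p, q, hpq⟩ := (IntermediateField.mem_adjoin_iff k (b i)).1 this
    by_cases c : aeval Subtype.val q = 0
    · exact ⟨0, 1, by simp, by simp [hpq, c]⟩
    · exact ⟨p, q, c, by rw [hpq, div_mul_cancel₀ _ c]⟩
  choose p q hq hp using fr
  have hQ : aeval Subtype.val (∏ j, q j) ≠ 0 := by
    rw [map_prod]
    exact Finset.prod_ne_zero_iff.2 fun j _ => hq j
  have hr : ∀ i, aeval Subtype.val (p i * ∏ j ∈ Finset.univ.erase i, q j) =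
      b i * aeval Subtype.val (∏ j, q j) := fun i => by
    rw [← Finset.mul_prod_erase _ _ (Finset.mem_univ i), map_mul, map_mul, ← hp, mul_assoc]
  generalize aeval Subtype.val (∏ j, q j) = Q at hQ hr
  generalize hr' : (fun i => p i * ∏ j ∈ Finset.univ.erase i, q j) = r
  replace hr : ∀ i, aeval Subtype.val (r i) = b i * Q := fun i => by rw [← hr', hr]
  have z : ∑ i, map (Subfield.inclusion h₁) (r i) * C (⟨a i, ha i⟩ : E₁) = 0 := by
    refine hx.eq_zero_of_aeval_eq_zero _ ?_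
    have : ∀ i, aeval (fun i : s => (i : Ω)) (map (Subfield.inclusion h₁) (r i)) = b i * Q :=
      fun i => by
        rw [← hr, aeval_def, eval₂_map, aeval_def]
        rfl
    simp only [map_sum, map_mul, this, aeval_C]
    have e' : ∑ i, b i * a i = 0 := e
    calc _ = (∑ i, b i * a i) * Q := by
          rw [Finset.sum_mul]
          exact Finset.sum_congr rfl fun i _ => mul_right_comm _ _ _
      _ = 0 := by rw [e', zero_mul]
  intro i
  have r0 : r i = 0 := MvPolynomial.ext _ _ fun d => Subtype.ext (hk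
    (fun i => ((coeff d (r i) : k) : Ω)) (fun i => (coeff d (r i)).2) (by
      have := congrArg (fun P => ((coeff d P : E₁) : Ω)) z
      simp only [coeff_sum, mul_comm _ (C _), coeff_C_mul, coeff_map, coeff_zero] at this
      push_cast at this
      simp only [mul_comm (a _)] at this
      exact this) i)
  have := hr i
  rw [r0, map_zero] at this
  exact (mul_eq_zero.1 this.symm).resolve_right hQ

/-- Free implies linearly disjoint over an algebraically closed field. -/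
theorem ld_of_rk [IsAlgClosed k] (h₁ : k ≤ E₁) (hs : rk k s ≠ ⊤) (h : rk k s ≤ rk E₁ s) :
    LD k E₁ (acl (adj k s)) := by
  obtain ⟨I, hI⟩ := (AlgebraicIndependent.matroid E₁ Ω).exists_isBasis s (Set.subset_univ _)
  have ind := LD2_indep_anti h₁ hI.indep
  have fin : I.Finite := Set.encard_ne_top_iff.1
    (ne_top_of_le_ne_top hs (ind.encard_le_eRk_of_subset hI.subset))
  have bas := ind.isBasis_of_eRk_ge fin hI.subset
    (by rw [ind.eRk_eq_encard, ← hI.eRk_eq_encard]; exact h) (Set.subset_univ _)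
  have e := bas.closure_eq_closure
  rw [LD2_closure, LD2_closure] at e
  exact ((LD2_ld_adj h₁ hI.indep).acl h₁ (le_adj k I)).mono (le_acl E₁) e.ge

/-- An algebraically closed field of finite positive rank has a subfield of rank one less. -/
theorem exists_corank [IsAlgClosed Ω] (hk : k ≤ E) [IsAlgClosed E] {d : ℕ}
    (h : rk k (E : Set Ω) = d + 1) : ∃ F : Subfield Ω, IsAlgClosed F ∧ k ≤ F ∧ F ≤ E ∧
      rk k (F : Set Ω) = d ∧ rk F (E : Set Ω) ≤ 1 := by
  obtain ⟨I, hI⟩ := (AlgebraicIndependent.matroid k Ω).exists_isBasis E (Set.subset_univ _)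
  rw [rk, hI.eRk_eq_encard] at h
  obtain ⟨e, he⟩ : I.Nonempty := Set.encard_ne_zero.1 (by rw [h]; simp)
  refine ⟨acl (adj k (I \ {e})), inferInstance, (le_adj k _).trans (le_acl _),
    (acl_mono (adj_le.2 ⟨hk, Set.sdiff_subset.trans hI.subset⟩)).trans acl_eq.le, ?_, ?_⟩
  · rw [rk_acl_adj, rk, (hI.indep.subset Set.sdiff_subset).eRk_eq_encard]
    have := Set.encard_sdiff_singleton_add_one he
    rw [h] at this
    exact WithTop.add_right_cancel ENat.one_ne_top this
  · rw [rk_acl]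
    refine (rk_le_of_acl ?_).trans (rk_singleton_le e)
    rw [LD2_adj_adj, Set.sdiff_union_of_subset (Set.singleton_subset_iff.2 he), ← LD2_closure]
    exact hI.subset_closure

/-- Every element of a compositum only involves finitely many elements of the factors. -/
theorem mem_sup_finite {z : Ω} (h₁ : k ≤ E₁) (h₂ : k ≤ E₂) (hz : z ∈ E₁ ⊔ E₂) :
    ∃ s t : Finset Ω, (s : Set Ω) ⊆ E₁ ∧ (t : Set Ω) ⊆ E₂ ∧
      z ∈ adj k (s : Set Ω) ⊔ adj k (t : Set Ω) := by
  classical
  have two : ∀ x y : Ω, (∃ s t : Finset Ω, (s : Set Ω) ⊆ E₁ ∧ (t : Set Ω) ⊆ E₂ ∧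
      x ∈ adj k (s : Set Ω) ⊔ adj k (t : Set Ω)) → (∃ s t : Finset Ω, (s : Set Ω) ⊆ E₁ ∧
      (t : Set Ω) ⊆ E₂ ∧ y ∈ adj k (s : Set Ω) ⊔ adj k (t : Set Ω)) → ∃ s t : Finset Ω,
      (s : Set Ω) ⊆ E₁ ∧ (t : Set Ω) ⊆ E₂ ∧ x ∈ adj k (s : Set Ω) ⊔ adj k (t : Set Ω) ∧
        y ∈ adj k (s : Set Ω) ⊔ adj k (t : Set Ω) := by
    rintro x y ⟨s, t, a, b, c⟩ ⟨s', t', a', b', c'⟩
    refine ⟨s ∪ s', t ∪ t', ?_, ?_, ?_, ?_⟩ <;> simp only [Finset.coe_union]
    · exact Set.union_subset a a'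
    · exact Set.union_subset b b'
    · exact sup_le_sup (LD2_adj_mono le_rfl Set.subset_union_left)
        (LD2_adj_mono le_rfl Set.subset_union_left) c
    · exact sup_le_sup (LD2_adj_mono le_rfl Set.subset_union_right)
        (LD2_adj_mono le_rfl Set.subset_union_right) c'
  rw [← E₁.closure_eq, ← E₂.closure_eq, ← Subfield.closure_union] at hz
  induction hz using Subfield.closure_induction with
  | mem x hx =>
    rcases hx with hx | hx
    · exact ⟨{x}, ∅, by simpa using hx, by simp,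
        le_sup_left (a := adj k _) (subset_adj k _ (by simp))⟩
    · exact ⟨∅, {x}, by simp, by simpa using hx,
        le_sup_right (b := adj k _) (subset_adj k _ (by simp))⟩
  | one => exact ⟨∅, ∅, by simp, by simp, one_mem _⟩
  | add x y _ _ hx hy =>
    obtain ⟨s, t, a, b, c, d⟩ := two x y hx hy
    exact ⟨s, t, a, b, add_mem c d⟩
  | neg x _ hx =>
    obtain ⟨s, t, a, b, c⟩ := hx
    exact ⟨s, t, a, b, neg_mem c⟩
  | inv x _ hx =>
    obtain ⟨s, t, a, b, c⟩ := hx
    exact ⟨s, t, a, b, inv_mem c⟩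
  | mul x y _ _ hx hy =>
    obtain ⟨s, t, a, b, c, d⟩ := two x y hx hy
    exact ⟨s, t, a, b, mul_mem c d⟩

/-- A field generated by finitely many algebraic elements has finite degree. -/
theorem relfinrank_adj (hs : s.Finite) (h : s ⊆ acl E) : E.relfinrank (adj E s) ≠ 0 := by
  have := hs.to_subtype
  have fd : FiniteDimensional E (IntermediateField.adjoin E s) :=
    IntermediateField.finiteDimensional_adjoin fun x hx => (mem_acl.1 (h hx)).isIntegral
  have e : Subfield.extendScalars (le_adj E s) = IntermediateField.adjoin E s :=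
    IntermediateField.toSubfield_injective (LD2_adj_eq E s).symm
  rw [Subfield.relfinrank_eq_finrank_of_le (le_adj E s), e]
  exact Module.finrank_pos.ne'

end MLF
end

-- merged part: Pool.Agent.Work.MP_29d410_ag.LD2b
section
/-!
# Rank, places, automorphisms, Gauss valuations

Models for the rank lemmas: `Pool/Agent/Work/MP_ffcd14_ag/Cyc/Rk.lean`, `KR.lean`, `FP.lean`.
`exists_place`: localise `R` at the kernel of `r`, dominate by a valuation subring `W`
(`LocalSubring.exists_le_valuationSubring`); its residue field may be transcendental over the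
fraction field `k₀` of `r R`.  To avoid this choose (Zorn) a maximal pair (subring, homomorphism
to `Ω'`): it is local, and if `x, x⁻¹ ∉ W` the usual minimal degree argument applies: either
`𝔪 W[x]` or `𝔪 W[x⁻¹]` is proper, and a maximal ideal above it has residue field algebraic over
the residue field of `W`, or `x` is transcendental and can be sent to `0`.
`fixed_pow_mem`: an element fixed by all automorphisms over `E` is purely inseparable over `E`:
use a transcendence basis and `IsAlgClosed.equivOfTranscendenceBasis` or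
`IsAlgClosure.equivOfEquiv`.
`exists_comm`: transcendence basis `z` of `Ω` over `E`; `W₁ = {f z / g z}` with `f, g` over `W₀`
and `g` primitive is a valuation ring of `E (z)` with the same values; dominate it; in an algebraic
relation two terms have the same value.
-/

namespace MLF

universe u

variable {Ω Ω' : Type u} [Field Ω] [Field Ω'] {k E E₁ E₂ F : Subfield Ω} {s t : Set Ω}

open Polynomial in
theorem root_field_LD2b {K L M : Type*} [Field K] [Field L] [Field M] [IsAlgClosed M]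
    (f : K →+* L) (g : K →+* M) (x : L) :
    ∃ y : M, ∀ p : K[X], p.eval₂ f x = 0 → p.eval₂ g y = 0 := by
  let _ := f.toAlgebra
  by_cases hx : IsAlgebraic K x
  · have hi : IsIntegral K x := hx.isIntegral
    obtain ⟨y, hy⟩ := IsAlgClosed.exists_eval₂_eq_zero g (minpoly K x)
      (minpoly.degree_pos hi).ne'
    refine ⟨y, fun p hp => ?_⟩
    obtain ⟨q, rfl⟩ := minpoly.dvd K x (p := p) (by rw [aeval_def]; exact hp)
    rw [eval₂_mul, hy, zero_mul]
  · refine ⟨0, fun p hp => ?_⟩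
    by_cases h0 : p = 0
    · rw [h0, eval₂_zero]
    · exact absurd ⟨p, h0, by rw [aeval_def]; exact hp⟩ hx

open Polynomial in
theorem root_ring_LD2b {A L M : Type*} [CommRing A] [Field L] [Field M] [IsAlgClosed M]
    (f : A →+* L) (g : A →+* M) (hm : (RingHom.ker g).IsMaximal) (h : ∀ a, g a = 0 → f a = 0)
    (x : L) : ∃ y : M, ∀ p : A[X], p.eval₂ f x = 0 → p.eval₂ g y = 0 := by
  let _ : Field (A ⧸ RingHom.ker g) := Ideal.Quotient.field _
  let f' : A ⧸ RingHom.ker g →+* L := Ideal.Quotient.lift _ f fun a ha => h a ha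
  let g' : A ⧸ RingHom.ker g →+* M := Ideal.Quotient.lift _ g fun a ha => ha
  obtain ⟨y, hy⟩ := root_field_LD2b f' g' x
  refine ⟨y, fun p hp => ?_⟩
  have := hy (p.map (Ideal.Quotient.mk _)) (by rw [eval₂_map]; exact hp)
  rwa [eval₂_map] at this

/-- A subring of the product that is a graph. -/
def Graph_LD2b (G : Subring (Ω × Ω')) : Prop := ∀ y : Ω', ((0 : Ω), y) ∈ G → y = 0

theorem Graph_LD2b.uniq {G : Subring (Ω × Ω')} (hG : Graph_LD2b G) {x : Ω} {y y' : Ω'}
    (h : (x, y) ∈ G) (h' : (x, y') ∈ G) : y = y' := by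
  have := G.sub_mem h h'
  rw [Prod.mk_sub_mk, sub_self] at this
  exact sub_eq_zero.1 (hG _ this)

theorem exists_max_LD2b (G₀ : Subring (Ω × Ω')) (h₀ : Graph_LD2b G₀) :
    ∃ G : Subring (Ω × Ω'), G₀ ≤ G ∧ Graph_LD2b G ∧
      ∀ G' : Subring (Ω × Ω'), Graph_LD2b G' → G ≤ G' → G' ≤ G := by
  obtain ⟨G, hG, hm⟩ := zorn_le_nonempty₀ {G : Subring (Ω × Ω') | Graph_LD2b G} (by
    intro c hc hch y hy
    have hne : c.Nonempty := ⟨y, hy⟩
    refine ⟨sSup c, ?_, fun z hz => le_sSup hz⟩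
    intro z hz
    obtain ⟨G, hG, hz⟩ := (Subring.mem_sSup_of_directedOn hne hch.directedOn).1 hz
    exact hc hG z hz) G₀ h₀
  exact ⟨G, hG, hm.1, fun G' hG' hle => hm.2 hG' hle⟩

/-- The homomorphism attached to a graph. -/
theorem exists_hom_LD2b {G : Subring (Ω × Ω')} (hG : Graph_LD2b G) :
    ∃ ρ : G.map (RingHom.fst Ω Ω') →+* Ω', ∀ w : G.map (RingHom.fst Ω Ω'), ((w : Ω), ρ w) ∈ G := by
  have key : ∀ w : G.map (RingHom.fst Ω Ω'), ∃ y : Ω', ((w : Ω), y) ∈ G := by
    rintro ⟨_, ⟨z, hz, rfl⟩⟩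
    exact ⟨z.2, hz⟩
  choose ρ hρ using key
  refine ⟨⟨⟨⟨ρ, ?_⟩, ?_⟩, ?_, ?_⟩, hρ⟩
  · exact hG.uniq (hρ 1) G.one_mem
  · intro a b
    exact hG.uniq (hρ (a * b)) (G.mul_mem (hρ a) (hρ b))
  · exact hG.uniq (hρ 0) G.zero_mem
  · intro a b
    exact hG.uniq (hρ (a + b)) (G.add_mem (hρ a) (hρ b))

theorem inv_mem_LD2b {G : Subring (Ω × Ω')} (hG : Graph_LD2b G)
    (hm : ∀ G' : Subring (Ω × Ω'), Graph_LD2b G' → G ≤ G' → G' ≤ G) {w : Ω} {c : Ω'}
    (hw : (w, c) ∈ G) (hc : c ≠ 0) : (w⁻¹, c⁻¹) ∈ G := by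
  have hw0 : w ≠ 0 := by
    rintro rfl
    exact hc (hG _ hw)
  let G' : Subring (Ω × Ω') :=
    { carrier := {z | ∃ n : ℕ, z * (w, c) ^ n ∈ G}
      mul_mem' := by
        rintro a b ⟨n, hn⟩ ⟨m, hm⟩
        refine ⟨n + m, ?_⟩
        have := G.mul_mem hn hm
        rwa [mul_mul_mul_comm, ← pow_add] at this
      one_mem' := ⟨0, by simp⟩
      add_mem' := by
        rintro a b ⟨n, hn⟩ ⟨m, hm⟩
        refine ⟨n + m, ?_⟩
        have := G.add_mem (G.mul_mem hn (G.pow_mem hw m)) (G.mul_mem hm (G.pow_mem hw n))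
        convert this using 1
        ring
      zero_mem' := ⟨0, by simp⟩
      neg_mem' := by
        rintro a ⟨n, hn⟩
        exact ⟨n, by rw [neg_mul]; exact G.neg_mem hn⟩ }
  have hG' : Graph_LD2b G' := by
    rintro y ⟨n, hn⟩
    rw [Prod.pow_mk, Prod.mk_mul_mk, zero_mul] at hn
    exact (mul_eq_zero.1 (hG _ hn)).resolve_right (pow_ne_zero _ hc)
  refine hm G' hG' (fun z hz => ⟨0, by simpa using hz⟩) ⟨1, ?_⟩
  rw [pow_one, Prod.mk_mul_mk, inv_mul_cancel₀ hw0, inv_mul_cancel₀ hc]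
  exact G.one_mem

open Polynomial in
/-- Extension of places. -/
theorem exists_place [IsAlgClosed Ω'] (R : Subring Ω) (r : R →+* Ω') :
    ∃ (W : ValuationSubring Ω) (h : R ≤ W.toSubring) (r' : W →+* Ω'),
      (∀ z : R, r' ⟨z, h z.2⟩ = r z) ∧ ∀ z : W, r' z = 0 ↔ W.valuation (z : Ω) < 1 := by
  obtain ⟨G, hG₀, hG, hm⟩ := exists_max_LD2b (R.subtype.prod r).range (by
    rintro y ⟨z, hz⟩
    have h1 : (z : Ω) = 0 := congrArg Prod.fst hz
    have h2 : r z = y := congrArg Prod.snd hz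
    rw [← h2, show z = 0 from Subtype.ext h1, map_zero])
  let A := G.map (RingHom.fst Ω Ω')
  obtain ⟨ρ, hρ⟩ : ∃ ρ : A →+* Ω', ∀ w : A, ((w : Ω), ρ w) ∈ G := exists_hom_LD2b hG
  have hinv : ∀ w : A, ρ w ≠ 0 → (w : Ω) ≠ 0 ∧ (w : Ω)⁻¹ ∈ A := by
    intro w hw
    refine ⟨fun h => hw ?_, ⟨_, inv_mem_LD2b hG hm (hρ w) hw, rfl⟩⟩
    rw [show w = 0 from Subtype.ext h, map_zero]
  have hmax : (RingHom.ker ρ).IsMaximal := by
    rw [Ideal.isMaximal_iff]
    refine ⟨by simp, fun J x hJ hx hxJ => ?_⟩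
    obtain ⟨h1, h2⟩ := hinv x hx
    have : (⟨(x : Ω)⁻¹, h2⟩ : A) * x = 1 := Subtype.ext (inv_mul_cancel₀ h1)
    rw [← this]
    exact J.mul_mem_left _ hxJ
  obtain ⟨B, hAB, hB⟩ := Ideal.image_subset_nonunits_valuationSubring (RingHom.ker ρ) hmax.ne_top
  have hlt : ∀ w : A, ρ w = 0 → B.valuation (w : Ω) < 1 := fun w hw =>
    (B.mem_nonunits_iff).1 (hB ⟨w, hw, rfl⟩)
  let ι : A →+* B := Subring.inclusion hAB
  have hBA : ∀ x : B, (x : Ω) ∈ A := by
    intro x
    obtain ⟨y, hy⟩ := root_ring_LD2b ((IsLocalRing.residue B).comp ι) ρ hmax (fun a ha => by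
      rw [RingHom.comp_apply, IsLocalRing.residue_eq_zero_iff, B.valuation_lt_one_iff]
      exact hlt a ha) (IsLocalRing.residue B x)
    let Φ : A[X] →+* Ω × Ω' := (eval₂RingHom A.subtype (x : Ω)).prod (eval₂RingHom ρ y)
    have hG' : Graph_LD2b Φ.range := by
      rintro z ⟨p, hp⟩
      have h1 : p.eval₂ A.subtype (x : Ω) = 0 := congrArg Prod.fst hp
      have h2 : p.eval₂ ρ y = z := congrArg Prod.snd hp
      rw [← h2]
      apply hy
      have h3 : p.eval₂ ι x = 0 := by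
        apply Subtype.ext
        have := hom_eval₂ p ι B.subtype x
        exact this.trans h1
      rw [← hom_eval₂, h3, map_zero]
    have hle : G ≤ Φ.range := by
      intro z hz
      let w : A := ⟨z.1, z, hz, rfl⟩
      refine ⟨C w, ?_⟩
      have h4 : ρ w = z.2 := hG.uniq (hρ w) hz
      ext
      · simp [Φ, w]
      · simp [Φ, h4]
    have := hm _ hG' hle (⟨X, rfl⟩ : Φ X ∈ Φ.range)
    exact ⟨_, this, by simp [Φ]⟩
  have hRA : R ≤ A := fun z hz => ⟨_, hG₀ ⟨⟨z, hz⟩, rfl⟩, rfl⟩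
  let κ : B →+* A := B.subtype.codRestrict A hBA
  refine ⟨B, hRA.trans hAB, ρ.comp κ, fun z => ?_, fun z => ⟨fun h => hlt (κ z) h, fun h => ?_⟩⟩
  · exact hG.uniq (hρ _) (hG₀ ⟨z, rfl⟩)
  · by_contra hne
    obtain ⟨h1, h2⟩ := hinv (κ z) hne
    have h3 : B.valuation ((z : Ω)⁻¹) ≤ 1 := (B.valuation_le_one_iff _).2 (hAB h2)
    have h4 : B.valuation (z : Ω) ≠ 0 := by
      rw [Valuation.ne_zero_iff]; exact h1
    rw [map_inv₀, inv_le_one₀ (zero_lt_iff.2 h4)] at h3
    exact absurd h (not_lt.2 h3)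

theorem point_field_LD2b {k L : Type*} [Field k] [IsAlgClosed k] [Field L] [Algebra k L]
    [Algebra.FiniteType k L] : Nonempty (L →ₐ[k] k) := by
  have _ : Module.Finite k L := finite_of_finite_type_of_isJacobsonRing k L
  exact ⟨IsAlgClosed.lift⟩

theorem point_ring_LD2b {k A : Type*} [Field k] [IsAlgClosed k] [CommRing A] [Nontrivial A]
    [Algebra k A] [Algebra.FiniteType k A] : Nonempty (A →ₐ[k] k) := by
  obtain ⟨m, hm⟩ := Ideal.exists_maximal A
  let _ : Field (A ⧸ m) := Ideal.Quotient.field m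
  obtain ⟨φ⟩ := point_field_LD2b (k := k) (L := A ⧸ m)
  exact ⟨φ.comp (Ideal.Quotient.mkₐ k m)⟩

/-- Nullstellensatz: a finitely generated algebra has a rational point. -/
theorem exists_point {k : Type u} [Field k] [IsAlgClosed k] (j : k →+* Ω) (s : Finset Ω) :
    ∃ r : Subring.closure (Set.range j ∪ s) →+* k,
      ∀ c, r ⟨j c, Subring.subset_closure (Or.inl ⟨c, rfl⟩)⟩ = c := by
  let _ := j.toAlgebra
  let A := Algebra.adjoin k (s : Set Ω)
  have _ : Algebra.FiniteType k A :=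
    (Subalgebra.fg_iff_finiteType A).1 (Subalgebra.fg_adjoin_finset s)
  obtain ⟨φ⟩ := point_ring_LD2b (k := k) (A := A)
  have hle : ∀ z : Subring.closure (Set.range j ∪ s), (z : Ω) ∈ A.toSubring := by
    intro z
    rw [Algebra.adjoin_eq_ring_closure]
    exact z.2
  let κ : Subring.closure (Set.range j ∪ s) →+* A :=
    (Subring.subtype _).codRestrict A.toSubring hle
  exact ⟨φ.toRingHom.comp κ, fun c => φ.commutes c⟩

open MvPolynomial in
theorem algInd_LD2b (W : ValuationSubring Ω) (r : W →+* Ω')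
    {E' : Subfield Ω'} (hE' : ∀ z : W, (z : Ω) ∈ E → r z ∈ E') {ι : Type*} (x : ι → W)
    (hx : AlgebraicIndependent E' fun i => r (x i)) :
    AlgebraicIndependent E fun i => (x i : Ω) := by
  classical
  rw [algebraicIndependent_iff] at hx ⊢
  intro p hp
  by_contra hp0
  obtain ⟨m₀, hm₀, hmax⟩ := p.support.exists_max_image
    (fun m => W.valuation ((coeff m p : E) : Ω)) (support_nonempty.2 hp0)
  set c : E := coeff m₀ p with hc
  have hc0 : (c : Ω) ≠ 0 := fun h => mem_support_iff.1 hm₀ (Subtype.ext h)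
  have hW : ∀ m, ((coeff m p : E) : Ω) / c ∈ W := by
    intro m
    by_cases hm : m ∈ p.support
    · rw [← W.valuation_le_one_iff, map_div₀,
        div_le_one₀ (zero_lt_iff.2 ((Valuation.ne_zero_iff _).2 hc0))]
      exact hmax m hm
    · rw [notMem_support_iff.1 hm]
      simp
  let d : (ι →₀ ℕ) → W := fun m => ⟨_, hW m⟩
  have hd : ∀ m, r (d m) ∈ E' := fun m => hE' _ (E.div_mem (coeff m p).2 c.2)
  let q : MvPolynomial ι E' := ∑ m ∈ p.support, monomial m ⟨r (d m), hd m⟩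
  have hq : aeval (fun i => r (x i)) q = 0 := by
    have h1 : (∑ m ∈ p.support, d m * m.prod fun i e => x i ^ e) = 0 := by
      apply Subtype.ext
      rw [aeval_def, eval₂_eq] at hp
      have h2 : ((∑ m ∈ p.support, d m * m.prod fun i e => x i ^ e : W) : Ω) =
          (∑ m ∈ p.support, algebraMap E Ω (coeff m p) * ∏ i ∈ m.support, (x i : Ω) ^ m i) / c := by
        rw [Finset.sum_div]
        change W.subtype _ = _
        rw [map_sum]
        refine Finset.sum_congr rfl fun m _ => ?_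
        rw [map_mul, Finsupp.prod, map_prod]
        simp only [map_pow, ValuationSubring.coe_subtype]
        change ((coeff m p : E) : Ω) / c * _ = ((coeff m p : E) : Ω) * _ / c
        ring
      rw [h2, hp, zero_div]
      rfl
    have h3 := congrArg r h1
    rw [map_sum, map_zero] at h3
    rw [← h3, map_sum]
    refine Finset.sum_congr rfl fun m _ => ?_
    rw [aeval_monomial, map_mul, Finsupp.prod, Finsupp.prod, map_prod]
    simp only [map_pow]
    rfl
  have h4 := congrArg (coeff m₀) (hx q hq)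
  rw [coeff_sum, Finset.sum_eq_single m₀ (fun m _ hm => by rw [coeff_monomial, if_neg hm])
    (fun h => absurd hm₀ h), coeff_monomial, if_pos rfl, coeff_zero] at h4
  have h5 : d m₀ = 1 := Subtype.ext (div_self hc0)
  have h6 : r (d m₀) = 0 := congrArg Subtype.val h4
  rw [h5, map_one] at h6
  exact one_ne_zero h6

/-- Residue degree of transcendence. -/
theorem rk_residue (W : ValuationSubring Ω) (r : W →+* Ω')
    {E' : Subfield Ω'} (hE' : ∀ z : W, (z : Ω) ∈ E → r z ∈ E')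
    (h0 : ∀ z : W, r z = 0 ↔ W.valuation (z : Ω) < 1) (t : Set W) :
    rk E' (r '' t) ≤ rk E (Subtype.val '' t) := by
  obtain ⟨I, hI⟩ := (AlgebraicIndependent.matroid E' Ω').exists_isBasis' (r '' t)
  have key : ∀ y : I, ∃ w : W, w ∈ t ∧ r w = y := fun y => hI.subset y.2
  choose σ hσt hσ using key
  have h1 : AlgebraicIndependent E' fun y : I => r (σ y) := by
    simp only [hσ]
    exact AlgebraicIndependent.matroid_indep_iff.1 hI.indep
  have h2 := algInd_LD2b (E := E) W r hE' σ h1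
  have h3 : (AlgebraicIndependent.matroid E Ω).Indep (Set.range fun y : I => (σ y : Ω)) :=
    AlgebraicIndependent.matroid_indep_iff.2 h2.to_subtype_range
  have h4 := h3.encard_le_eRk_of_subset (X := Subtype.val '' t) (by
    rintro _ ⟨y, rfl⟩
    exact ⟨σ y, hσt y, rfl⟩)
  unfold rk
  rw [← hI.encard_eq_eRk]
  refine le_trans (le_of_eq ?_) h4
  rw [← Set.image_univ, h2.injective.injOn.encard_image, Set.encard_univ, ENat.card_coe_set_eq]

end MLF
end
end

-- merged part: Pool.Agent.Work.MP_29d410_ag.DM7A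
section
-- merged part: Pool.Agent.Work.MP_29d410_ag.Ev3
section
/-!
# Evaluation of power series in adically complete rings

`ev φ x` is the ring homomorphism `S⟦X⟧ → T` which is `φ` on constants and sends `X i` to `x i`.
It exists and is unique as soon as the `x i` lie in an ideal for which `T` is complete (`TN x`).

Plan.  `mem_pow`: a series without terms of degree `< N` is in `(X)^N`: group the monomials
according to a chosen monomial of degree `N` dividing them (finitely many), or use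
`MvPowerSeries.toAdicCompletionAlgEquiv` and `AdicCompletion.pow_smul_top_eq_ker_eval`.
`hom_ext`: `f - truncTotal N f` is in `(X)^N`, so the difference of the two values lies in every
`𝔟 ^ N`.  Existence: `IsAdicComplete.liftRingHom` with the maps
`MvPowerSeries.truncTotalAlgHom` followed by `eval₂` into `T ⧸ 𝔟 ^ n`.
All the other statements follow from uniqueness.
-/

open MvPowerSeries

namespace MLF

universe u

variable {S S' T T' : Type u} [CommRing S] [CommRing S'] [CommRing T] [CommRing T']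
  {τ τ' : Type} [Finite τ] [Finite τ']

theorem Ev3_approx {x : τ → T} (hx : TN x) (φ : S →+* T) (h : MvPowerSeries τ S) (N : ℕ) :
    ev φ x h - ∑ d ∈ (Finsupp.finite_of_degree_lt (σ := τ) N).toFinset,
      φ (coeff d h) * d.prod (fun l n => x l ^ n) ∈ Ideal.span (Set.range x) ^ N := by
  have h1 : h - (truncTotal N h : MvPolynomial τ S) ∈ mX τ S ^ N := mem_mX_pow.2 fun d hd => by
    rw [map_sub, MvPolynomial.coeff_coe, coeff_truncTotal _ hd, sub_self]
  have h2 := hx.ev_mem_pow φ h1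
  rw [map_sub, hx.ev_coe, truncTotal, truncFinset_apply, MvPolynomial.eval₂_sum] at h2
  simpa only [MvPolynomial.eval₂_monomial] using h2

theorem Ev3_coeff {y : τ → PowerSeries S} (hy : ∀ l, PowerSeries.constantCoeff (y l) = 0)
    (h : MvPowerSeries τ S) (n : ℕ) :
    PowerSeries.coeff n (ev PowerSeries.C y h) =
      ∑ d ∈ (Finsupp.finite_of_degree_lt (σ := τ) (n + 1)).toFinset,
        coeff d h * PowerSeries.coeff n (d.prod fun l m => y l ^ m) := by
  have h1 : Ideal.span (Set.range y) ≤ mx S := by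
    rw [Ideal.span_le]
    rintro _ ⟨l, rfl⟩
    exact Ideal.mem_span_singleton.2 (PowerSeries.X_dvd_iff.2 (hy l))
  have h2 := mem_mx_pow.1 (Ideal.pow_right_mono h1 _
    (Ev3_approx (TN.of_cc₁ hy) PowerSeries.C h (n + 1))) n n.lt_succ_self
  rw [map_sub, sub_eq_zero, map_sum] at h2
  simpa only [PowerSeries.coeff_C_mul] using h2

/-- A coefficientwise additive map commutes with evaluation at series over the small ring. -/
theorem coeff_ev_linear {κ Ω : Type u} [CommRing κ] [CommRing Ω] (i : κ →+* Ω) (θ : Ω →+ κ)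
    (hθ : ∀ c z, θ (i c * z) = c * θ z) {y : τ → PowerSeries κ}
    (hy : ∀ l, PowerSeries.constantCoeff (y l) = 0) (h : MvPowerSeries τ Ω) (n : ℕ) :
    θ (PowerSeries.coeff n (ev PowerSeries.C (fun l => (y l).map i) h)) =
      PowerSeries.coeff n (ev PowerSeries.C y (fun d => θ (coeff d h) : MvPowerSeries τ κ)) := by
  refine Eq.trans ?_ (Ev3_coeff hy _ n).symm
  rw [Ev3_coeff (fun l => by
    rw [← PowerSeries.coeff_zero_eq_constantCoeff_apply, PowerSeries.coeff_map,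
      PowerSeries.coeff_zero_eq_constantCoeff_apply, hy, map_zero]), map_sum]
  refine Finset.sum_congr rfl fun d _ => ?_
  have : (d.prod fun l m => (y l).map i ^ m) = (d.prod fun l m => y l ^ m).map i := by
    simp only [Finsupp.prod, map_prod, map_pow]
  rw [this, PowerSeries.coeff_map, mul_comm, hθ, mul_comm]
  rfl

/-- Series in two groups of variables as iterated series. -/
noncomputable def Ev3_fun {σ σ₁ σ₂ : Type} (E : (σ →₀ ℕ) ≃+ (σ₁ →₀ ℕ) × (σ₂ →₀ ℕ))
    (p : MvPowerSeries σ S) : MvPowerSeries σ₂ (MvPowerSeries σ₁ S) :=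
  fun e d => coeff (E.symm (d, e)) p

theorem Ev3_coeff_fun {σ σ₁ σ₂ : Type} (E : (σ →₀ ℕ) ≃+ (σ₁ →₀ ℕ) × (σ₂ →₀ ℕ))
    (p : MvPowerSeries σ S) (e : σ₂ →₀ ℕ) (d : σ₁ →₀ ℕ) :
    coeff d (coeff e (Ev3_fun E p)) = coeff (E.symm (d, e)) p := rfl

theorem Ev3_fun_mul {σ σ₁ σ₂ : Type} (E : (σ →₀ ℕ) ≃+ (σ₁ →₀ ℕ) × (σ₂ →₀ ℕ))
    (p q : MvPowerSeries σ S) : Ev3_fun E (p * q) = Ev3_fun E p * Ev3_fun E q := by
  classical
  refine MvPowerSeries.ext fun e => MvPowerSeries.ext fun d => ?_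
  simp only [Ev3_coeff_fun, coeff_mul, map_sum]
  rw [← Finset.sum_product']
  refine Finset.sum_nbij' (fun u => (((E u.1).2, (E u.2).2), ((E u.1).1, (E u.2).1)))
    (fun v => (E.symm (v.2.1, v.1.1), E.symm (v.2.2, v.1.2))) ?_ ?_ ?_ ?_ ?_
  · intro u hu
    have h := congrArg E (Finset.HasAntidiagonal.mem_antidiagonal.1 hu)
    rw [map_add, E.apply_symm_apply] at h
    exact Finset.mem_product.2 ⟨Finset.HasAntidiagonal.mem_antidiagonal.2 (congrArg Prod.snd h),
      Finset.HasAntidiagonal.mem_antidiagonal.2 (congrArg Prod.fst h)⟩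
  · intro v hv
    obtain ⟨h1, h2⟩ := Finset.mem_product.1 hv
    rw [Finset.HasAntidiagonal.mem_antidiagonal] at h1 h2 ⊢
    rw [← map_add, Prod.mk_add_mk, h1, h2]
  · intro u _
    simp
  · intro v _
    simp
  · intro u _
    simp

/-- The ring isomorphism with iterated series. -/
noncomputable def Ev3_curry {σ σ₁ σ₂ : Type} (E : (σ →₀ ℕ) ≃+ (σ₁ →₀ ℕ) × (σ₂ →₀ ℕ))
    (S : Type u) [CommRing S] : MvPowerSeries σ S ≃+* MvPowerSeries σ₂ (MvPowerSeries σ₁ S) where
  toFun := Ev3_fun E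
  invFun q := fun x => coeff (E x).1 (coeff (E x).2 q)
  left_inv p := funext fun x => congrArg p (E.symm_apply_apply x)
  right_inv q := funext fun e => funext fun d => by
    change q (E (E.symm (d, e))).2 (E (E.symm (d, e))).1 = q e d
    rw [E.apply_symm_apply]
  map_add' _ _ := rfl
  map_mul' := Ev3_fun_mul E

theorem Ev3_curry_monomial {σ σ₁ σ₂ : Type} (E : (σ →₀ ℕ) ≃+ (σ₁ →₀ ℕ) × (σ₂ →₀ ℕ)) (x : σ →₀ ℕ)
    (r : S) : Ev3_curry E S (monomial x r) = monomial (E x).2 (monomial (E x).1 r) := by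
  classical
  ext e d
  change coeff (E.symm (d, e)) (monomial x r) = _
  rw [coeff_monomial, coeff_monomial]
  by_cases h1 : e = (E x).2
  · rw [if_pos h1, coeff_monomial]
    by_cases h2 : d = (E x).1
    · rw [if_pos h2, if_pos (by rw [h1, h2, E.symm_apply_apply])]
    · rw [if_neg h2, if_neg fun h => h2 (by rw [← h, E.apply_symm_apply])]
  · rw [if_neg h1, if_neg fun h => h1 (by rw [← h, E.apply_symm_apply]), map_zero]

theorem Ev3_step {σ σ' σ₁ σ₁' σ₂ : Type} [Finite σ'] [Finite σ₁] [Finite σ₁']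
    (E : (σ →₀ ℕ) ≃+ (σ₁ →₀ ℕ) × (σ₂ →₀ ℕ)) (E' : (σ' →₀ ℕ) ≃+ (σ₁' →₀ ℕ) × (σ₂ →₀ ℕ))
    {a : σ₁ → σ} {b : σ₂ → σ} {a' : σ₁' → σ'} {b' : σ₂ → σ'}
    (ha : ∀ i, E (Finsupp.single (a i) 1) = (Finsupp.single i 1, 0))
    (hb : ∀ j, E (Finsupp.single (b j) 1) = (0, Finsupp.single j 1))
    (ha' : ∀ i, E' (Finsupp.single (a' i) 1) = (Finsupp.single i 1, 0))
    (hb' : ∀ j, E' (Finsupp.single (b' j) 1) = (0, Finsupp.single j 1))
    {f : σ₁ → MvPowerSeries σ₁' S} (hf : ∀ i, constantCoeff (f i) = 0)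
    (h : Function.Injective (ev C f : MvPowerSeries σ₁ S →+* _)) :
    ∃ Ψ : MvPowerSeries σ S →+* MvPowerSeries σ' S, Function.Injective Ψ ∧ (∀ c, Ψ (C c) = C c) ∧
      (∀ i, Ψ (X (a i)) = ev C (X ∘ a') (f i)) ∧ ∀ j, Ψ (X (b j)) = X (b' j) := by
  have hC : ∀ c, Ev3_curry E S (C c) = C (C c) := fun c => by
    simpa using Ev3_curry_monomial E 0 c
  have hC' : ∀ c, Ev3_curry E' S (C c) = C (C c) := fun c => by
    simpa using Ev3_curry_monomial E' 0 c
  have h1 : ∀ i, Ev3_curry E S (X (a i)) = C (X i) := fun i => by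
    rw [X_def, Ev3_curry_monomial, ha]; rfl
  have h1' : ∀ i, Ev3_curry E' S (X (a' i)) = C (X i) := fun i => by
    rw [X_def, Ev3_curry_monomial, ha']; rfl
  have h2 : ∀ j, Ev3_curry E S (X (b j)) = X j := fun j => by
    rw [X_def, Ev3_curry_monomial, hb]; rfl
  have h2' : ∀ j, Ev3_curry E' S (X (b' j)) = X j := fun j => by
    rw [X_def, Ev3_curry_monomial, hb']; rfl
  have h3 : (Ev3_curry E' S).symm.toRingHom.comp C = ev C (X ∘ a') :=
    (TN.of_cc fun i => constantCoeff_X _).eq_ev ⟨fun c => (RingEquiv.symm_apply_eq _).2 (hC' c).symm,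
      fun i => (RingEquiv.symm_apply_eq _).2 (h1' i).symm⟩
  refine ⟨(Ev3_curry E' S).symm.toRingHom.comp ((map (ev C f)).comp (Ev3_curry E S).toRingHom),
    fun p q e => (Ev3_curry E S).injective (MvPowerSeries.ext fun d => h ?_),
    fun c => ?_, fun i => ?_, fun j => ?_⟩
  · exact congrArg (coeff d) ((Ev3_curry E' S).symm.injective e)
  · change (Ev3_curry E' S).symm (map (ev C f) (Ev3_curry E S (C c))) = _
    rw [hC, map_C, (TN.of_cc hf).ev_C, RingEquiv.symm_apply_eq, hC']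
  · change (Ev3_curry E' S).symm (map (ev C f) (Ev3_curry E S (X (a i)))) = _
    rw [h1, map_C, (TN.of_cc hf).ev_X, ← h3]
    rfl
  · change (Ev3_curry E' S).symm (map (ev C f) (Ev3_curry E S (X (b j)))) = _
    rw [h2, map_X, RingEquiv.symm_apply_eq, h2']

theorem Ev3_inl {σ₁ σ₂ : Type} (i : σ₁) :
    Finsupp.sumFinsuppAddEquivProdFinsupp (Finsupp.single (Sum.inl i : σ₁ ⊕ σ₂) 1) =
      (Finsupp.single i 1, 0) := by
  classical
  ext j <;> simp [Finsupp.single_apply]

theorem Ev3_inr {σ₁ σ₂ : Type} (i : σ₂) :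
    Finsupp.sumFinsuppAddEquivProdFinsupp (Finsupp.single (Sum.inr i : σ₁ ⊕ σ₂) 1) =
      (0, Finsupp.single i 1) := by
  classical
  ext j <;> simp [Finsupp.single_apply]

/-- Two-variable version of an injective substitution stays injective. -/
theorem ev_inj_sum {K : Type u} [Field K] {τ₁ τ₂ τ₁' τ₂' : Type} [Finite τ₁] [Finite τ₂]
    [Finite τ₁'] [Finite τ₂'] {f : τ₁ → MvPowerSeries τ₁' K} {g : τ₂ → MvPowerSeries τ₂' K}
    (hf : ∀ i, constantCoeff (f i) = 0) (hg : ∀ i, constantCoeff (g i) = 0)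
    (h₁ : Function.Injective (ev C f : MvPowerSeries τ₁ K →+* _))
    (h₂ : Function.Injective (ev C g : MvPowerSeries τ₂ K →+* _)) :
    Function.Injective (ev C (Sum.elim (fun i => ev C (X ∘ Sum.inl) (f i))
      (fun i => ev C (X ∘ Sum.inr) (g i))) :
        MvPowerSeries (τ₁ ⊕ τ₂) K →+* MvPowerSeries (τ₁' ⊕ τ₂') K) := by
  obtain ⟨Ψ, a1, a2, a3, a4⟩ := Ev3_step Finsupp.sumFinsuppAddEquivProdFinsupp
    Finsupp.sumFinsuppAddEquivProdFinsupp (σ₂ := τ₂) Ev3_inl Ev3_inr Ev3_inl Ev3_inr hf h₁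
  obtain ⟨Φ, b1, b2, b3, b4⟩ := Ev3_step
    (Finsupp.sumFinsuppAddEquivProdFinsupp.trans AddEquiv.prodComm)
    (Finsupp.sumFinsuppAddEquivProdFinsupp.trans AddEquiv.prodComm) (σ₂ := τ₁')
    (fun i => congrArg Prod.swap (Ev3_inr i)) (fun i => congrArg Prod.swap (Ev3_inl i))
    (fun i => congrArg Prod.swap (Ev3_inr i)) (fun i => congrArg Prod.swap (Ev3_inl i)) hg h₂
  have t1 : TN (X ∘ Sum.inl : τ₁' → MvPowerSeries (τ₁' ⊕ τ₂') K) :=
    TN.of_cc fun i => constantCoeff_X _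
  have t2 : TN (X ∘ Sum.inr : τ₂' → MvPowerSeries (τ₁' ⊕ τ₂') K) :=
    TN.of_cc fun i => constantCoeff_X _
  have t3 : TN (X ∘ Sum.inl : τ₁' → MvPowerSeries (τ₁' ⊕ τ₂) K) :=
    TN.of_cc fun i => constantCoeff_X _
  have e : Φ.comp (ev C (X ∘ Sum.inl)) = ev C (X ∘ Sum.inl) := t1.eq_ev
    ⟨fun c => (congrArg Φ (t3.ev_C C c)).trans (b2 c),
      fun i => (congrArg Φ (t3.ev_X C i)).trans (b4 i)⟩
  rw [← TN.eq_ev (θ := Φ.comp Ψ) (TN.of_cc ?_) ⟨fun c => (congrArg Φ (a2 c)).trans (b2 c), ?_⟩]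
  · exact b1.comp a1
  · rintro (i | i)
    · exact mem_mX.1 (t1.ev_mem C (hf i) fun _ => mem_mX.2 (constantCoeff_X _))
    · exact mem_mX.1 (t2.ev_mem C (hg i) fun _ => mem_mX.2 (constantCoeff_X _))
  · rintro (i | i)
    · exact (congrArg Φ (a3 i)).trans (RingHom.congr_fun e (f i))
    · exact (congrArg Φ (a4 i)).trans (b3 i)

/-- A substitution which is onto modulo the square of the ideal of the origin is onto. -/
theorem ev_surj {f : τ → MvPowerSeries τ' S} (hf : ∀ i, constantCoeff (f i) = 0)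
    (h : ∀ j, X j ∈ Ideal.span (Set.range f) ⊔ mX τ' S ^ 2) :
    Function.Surjective (ev C f : MvPowerSeries τ S →+* _) := by
  have t := TN.of_cc hf
  have h1 : (mX τ S).map (ev C f) = mX τ' S := by
    have e : ev C f '' Set.range X = Set.range f := by
      rw [← Set.range_comp]
      exact congrArg Set.range (funext (t.ev_X C))
    rw [Ideal.map_span, e]
    refine le_antisymm (Ideal.span_le.2 ?_) (Submodule.le_of_le_smul_of_le_jacobson_bot
      (Submodule.fg_span (Set.finite_range _)) (IsAdicComplete.le_jacobson_bot (mX τ' S)) ?_)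
    · rintro _ ⟨i, rfl⟩
      exact mem_mX.2 (hf i)
    · rw [smul_eq_mul, ← pow_two]
      refine Ideal.span_le.2 ?_
      rintro _ ⟨j, rfl⟩
      exact h j
  have : IsHausdorff ((mX τ S).map (ev C f)) (MvPowerSeries τ' S) := by
    rw [h1]
    infer_instance
  refine surjective_of_mk_map_comp_surjective (I := mX τ S) (f := ev C f) fun z => ?_
  obtain ⟨z, rfl⟩ := Ideal.Quotient.mk_surjective z
  refine ⟨C (constantCoeff z), Ideal.Quotient.eq.2 ?_⟩
  rw [h1, t.ev_C, mem_mX]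
  simp

end MLF
end

-- merged part: Pool.Agent.Work.MP_29d410_ag.FG
section
/-!
# Commutative formal group laws in finitely many variables, their points and homomorphisms

Plan.  Every identity between points follows from the universal identity (a field of the
structure, an identity in a power series ring) by applying `TN.map_ev` to the evaluation
homomorphism `ev φ (Sum.elim x y)`; `Adm.tn` gives the needed `TN` facts.
-/

open MvPowerSeries

namespace MLF

universe u

variable {S S' T T' : Type u} [CommRing S] [CommRing S'] [CommRing T] [CommRing T']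
  {τ τ' τ'' : Type} [Finite τ] [Finite τ'] [Finite τ'']

/-- A commutative formal group law with its inversion. -/
structure FGL (S : Type u) [CommRing S] (τ : Type) where
  F : τ → MvPowerSeries (τ ⊕ τ) S
  N : τ → MvPowerSeries τ S
  F0 : ∀ i, constantCoeff (F i) = 0
  N0 : ∀ i, constantCoeff (N i) = 0
  zero : ∀ i, ev C (Sum.elim X 0 : τ ⊕ τ → MvPowerSeries τ S) (F i) = X i
  comm : ∀ i, ev C (Sum.elim (X ∘ Sum.inr) (X ∘ Sum.inl) : τ ⊕ τ → MvPowerSeries (τ ⊕ τ) S)
    (F i) = F i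
  assoc : ∀ i, ev C (Sum.elim
      (fun j => ev C (Sum.elim (X ∘ Sum.inl) (X ∘ Sum.inr ∘ Sum.inl)) (F j))
      (X ∘ Sum.inr ∘ Sum.inr) : τ ⊕ τ → MvPowerSeries (τ ⊕ τ ⊕ τ) S) (F i) =
    ev C (Sum.elim (X ∘ Sum.inl)
      (fun j => ev C (Sum.elim (X ∘ Sum.inr ∘ Sum.inl) (X ∘ Sum.inr ∘ Sum.inr)) (F j)) :
        τ ⊕ τ → MvPowerSeries (τ ⊕ τ ⊕ τ) S) (F i)
  neg : ∀ i, ev C (Sum.elim N X : τ ⊕ τ → MvPowerSeries τ S) (F i) = 0

theorem FG_ev_ev {x : τ' → T} (hx : TN x) (φ : S →+* T) {u : τ → MvPowerSeries τ' S}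
    (hu : ∀ i, constantCoeff (u i) = 0) (f : MvPowerSeries τ S) :
    ev φ x (ev C u f) = ev φ (fun i => ev φ x (u i)) f := by
  have h' : TN (ev φ x ∘ u) := by
    obtain ⟨𝔟, h1, h2⟩ := id hx
    exact ⟨𝔟, h1, fun i => hx.ev_mem φ (hu i) h2⟩
  have e : (ev φ x).comp C = φ := RingHom.ext fun c => hx.ev_C φ c
  rw [(TN.of_cc hu).map_ev (ev φ x) h' C f, e]
  rfl

omit [Finite τ] [Finite τ'] in
theorem FG_tn_of {x : τ → T} {y : τ' → T} (hx : TN x) (h : ∀ i, y i = 0 ∨ ∃ j, y i = x j) :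
    TN y := by
  obtain ⟨𝔟, h1, h2⟩ := hx
  refine ⟨𝔟, h1, fun i => ?_⟩
  rcases h i with e | ⟨j, e⟩ <;> rw [e]
  exacts [𝔟.zero_mem, h2 j]

theorem FG_ev_cc {u : τ → MvPowerSeries τ' S} (hu : ∀ i, constantCoeff (u i) = 0)
    {f : MvPowerSeries τ S} (hf : constantCoeff f = 0) : constantCoeff (ev C u f) = 0 :=
  mem_mX.1 ((TN.of_cc hu).ev_mem C hf fun i => mem_mX.2 (hu i))

namespace FGL

/-- Addition of vectors. -/
noncomputable def add (G : FGL S τ) (φ : S →+* T) (x y : τ → T) : τ → T :=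
  fun i => ev φ (Sum.elim x y) (G.F i)

/-- Points with coordinates in `𝔞`, for the structure map `φ`. -/
@[ext] structure Pts (G : FGL S τ) (φ : S →+* T) (𝔞 : Ideal T) where
  v : τ → T
  mem : ∀ i, v i ∈ 𝔞

variable {G : FGL S τ} {φ : S →+* T} {𝔞 : Ideal T}

omit [Finite τ] in
theorem FG_elim_mem {x y : τ → T} (hx : ∀ i, x i ∈ 𝔞) (hy : ∀ i, y i ∈ 𝔞) :
    ∀ i, Sum.elim x y i ∈ 𝔞 := by
  rintro (i | i)
  exacts [hx i, hy i]

theorem FG_add_zero {x : τ → T} (hx : TN x) (i : τ) : G.add φ x 0 i = x i := by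
  have h := congrArg (ev φ x) (G.zero i)
  rw [FG_ev_ev hx φ (by rintro (j | j) <;> simp), hx.ev_X] at h
  rw [← h, add]
  congr 2
  funext j
  rcases j with j | j <;> simp [hx.ev_X]

theorem FG_add_comm {x y : τ → T} (h : TN (Sum.elim x y)) (i : τ) :
    G.add φ x y i = G.add φ y x i := by
  have h1 := congrArg (ev φ (Sum.elim x y)) (G.comm i)
  rw [FG_ev_ev h φ (by rintro (j | j) <;> simp)] at h1
  rw [add, ← h1, add]
  congr 2
  funext j
  rcases j with j | j <;> simp [h.ev_X]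

theorem FG_zero_add {x : τ → T} (hx : TN x) (i : τ) : G.add φ 0 x i = x i := by
  rw [FG_add_comm (FG_tn_of hx (by rintro (j | j) <;> simp)), FG_add_zero hx]

theorem add_mem [Adm 𝔞] {x y : τ → T} (hx : ∀ i, x i ∈ 𝔞) (hy : ∀ i, y i ∈ 𝔞) (i : τ) :
    G.add φ x y i ∈ 𝔞 :=
  (Adm.tn (FG_elim_mem hx hy)).ev_mem φ (G.F0 i) (FG_elim_mem hx hy)

theorem neg_mem [Adm 𝔞] {x : τ → T} (hx : ∀ i, x i ∈ 𝔞) (i : τ) : ev φ x (G.N i) ∈ 𝔞 :=
  (Adm.tn hx).ev_mem φ (G.N0 i) hx

noncomputable instance [Adm 𝔞] : Add (G.Pts φ 𝔞) := ⟨fun x y => ⟨G.add φ x.v y.v, add_mem x.mem y.mem⟩⟩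
instance : Zero (G.Pts φ 𝔞) := ⟨⟨0, fun _ => 𝔞.zero_mem⟩⟩
noncomputable instance [Adm 𝔞] : Neg (G.Pts φ 𝔞) := ⟨fun x => ⟨fun i => ev φ x.v (G.N i), neg_mem x.mem⟩⟩

theorem Pts.add_assoc' [Adm 𝔞] (x y z : G.Pts φ 𝔞) : x + y + z = x + (y + z) := by
  have hw : TN (Sum.elim x.v (Sum.elim y.v z.v)) := Adm.tn (𝔞 := 𝔞) (by
    rintro (j | j | j)
    exacts [x.mem j, y.mem j, z.mem j])
  refine Pts.ext (funext fun i => ?_)
  have h := congrArg (ev φ (Sum.elim x.v (Sum.elim y.v z.v))) (G.assoc i)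
  rw [FG_ev_ev hw φ, FG_ev_ev hw φ] at h
  · change ev φ (Sum.elim (G.add φ x.v y.v) z.v) (G.F i) =
      ev φ (Sum.elim x.v (G.add φ y.v z.v)) (G.F i)
    convert h using 3
    · funext j
      rcases j with j | j
      · simp only [Sum.elim_inl]
        rw [FG_ev_ev hw φ (by rintro (j | j) <;> simp), add]
        congr 2
        funext k
        rcases k with k | k <;> simp [hw.ev_X]
      · simp [hw.ev_X]
    · funext j
      rcases j with j | j
      · simp [hw.ev_X]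
      · simp only [Sum.elim_inr]
        rw [FG_ev_ev hw φ (by rintro (j | j) <;> simp), add]
        congr 2
        funext k
        rcases k with k | k <;> simp [hw.ev_X]
  · rintro (j | j)
    · simp
    · exact FG_ev_cc (by rintro (j | j) <;> simp) (G.F0 j)
  · rintro (j | j)
    · exact FG_ev_cc (by rintro (j | j) <;> simp) (G.F0 j)
    · simp

theorem Pts.add_comm' [Adm 𝔞] (x y : G.Pts φ 𝔞) : x + y = y + x :=
  Pts.ext (funext fun i => FG_add_comm (Adm.tn (FG_elim_mem x.mem y.mem)) i)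

theorem Pts.add_zero' [Adm 𝔞] (x : G.Pts φ 𝔞) : x + 0 = x :=
  Pts.ext (funext fun i => FG_add_zero (Adm.tn x.mem) i)

theorem Pts.neg_add' [Adm 𝔞] (x : G.Pts φ 𝔞) : -x + x = 0 := by
  have hx : TN x.v := Adm.tn x.mem
  refine Pts.ext (funext fun i => ?_)
  have h := congrArg (ev φ x.v) (G.neg i)
  rw [FG_ev_ev hx φ (by rintro (j | j) <;> simp [G.N0]), map_zero] at h
  change ev φ (Sum.elim (fun i => ev φ x.v (G.N i)) x.v) (G.F i) = 0
  convert h using 3
  funext j
  rcases j with j | j <;> simp [hx.ev_X]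

noncomputable instance [Adm 𝔞] : AddCommGroup (G.Pts φ 𝔞) where
  add_assoc := Pts.add_assoc'
  zero_add x := (Pts.add_comm' 0 x).trans (Pts.add_zero' x)
  add_zero := Pts.add_zero'
  neg_add_cancel := Pts.neg_add'
  add_comm := Pts.add_comm'
  nsmul := nsmulRec
  zsmul := zsmulRec

@[simp] theorem Pts.add_v [Adm 𝔞] (x y : G.Pts φ 𝔞) : (x + y).v = G.add φ x.v y.v := rfl
omit [Finite τ] in
@[simp] theorem Pts.zero_v : (0 : G.Pts φ 𝔞).v = 0 := rfl
theorem Pts.tn [Adm 𝔞] (x : G.Pts φ 𝔞) : TN x.v := Adm.tn x.mem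

theorem map_add {x y : τ → T} (h : TN (Sum.elim x y)) (ψ : T →+* T')
    (h' : TN (ψ ∘ Sum.elim x y)) :
    ψ ∘ G.add φ x y = G.add (ψ.comp φ) (ψ ∘ x) (ψ ∘ y) := by
  funext i
  have := h.map_ev ψ h' φ (G.F i)
  rwa [Sum.comp_elim] at this

theorem Pts.map_aux [Adm 𝔞] (ψ : T →+* T') {φ' : S →+* T'} {𝔞' : Ideal T'} [Adm 𝔞']
    (h : ∀ i d, ψ (φ (coeff d (G.F i))) = φ' (coeff d (G.F i))) (h𝔞 : ∀ z ∈ 𝔞, ψ z ∈ 𝔞')
    (x y : G.Pts φ 𝔞) : ψ ∘ (x + y).v = G.add φ' (ψ ∘ x.v) (ψ ∘ y.v) := by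
  have h1 := FG_elim_mem x.mem y.mem
  have h2 : TN (ψ ∘ Sum.elim x.v y.v) := Adm.tn (𝔞 := 𝔞') fun i => h𝔞 _ (h1 i)
  rw [Pts.add_v, map_add (Adm.tn h1) ψ h2]
  rw [Sum.comp_elim] at h2
  funext i
  exact ev_congr h2 (h i)

/-- Functoriality of points; only the coefficients of the group law have to be compatible. -/
noncomputable def Pts.map [Adm 𝔞] (ψ : T →+* T') {φ' : S →+* T'} {𝔞' : Ideal T'} [Adm 𝔞']
    (h : ∀ i d, ψ (φ (coeff d (G.F i))) = φ' (coeff d (G.F i))) (h𝔞 : ∀ z ∈ 𝔞, ψ z ∈ 𝔞') :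
    G.Pts φ 𝔞 →+ G.Pts φ' 𝔞' :=
  AddMonoidHom.mk' (fun x => ⟨ψ ∘ x.v, fun i => h𝔞 _ (x.mem i)⟩)
    fun x y => Pts.ext (Pts.map_aux ψ h h𝔞 x y)

/-- The sum is the ordinary sum modulo products. -/
theorem add_sub_mem {x y : τ → T} (h : TN (Sum.elim x y)) (i : τ) :
    G.add φ x y i - x i - y i ∈ Ideal.span (Set.range x) * Ideal.span (Set.range y) := by
  have hy : TN y := FG_tn_of h fun j => .inr ⟨.inr j, rfl⟩
  have h0 : TN (Sum.elim (0 : τ → T) y) := FG_tn_of hy (by rintro (j | j) <;> simp)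
  have h2 : TN (Sum.elim (Sum.elim x y) (Sum.elim (0 : τ → T) y)) := FG_tn_of h (by
    rintro (j | j | j)
    exacts [.inr ⟨j, rfl⟩, .inl rfl, .inr ⟨.inr j, rfl⟩])
  have key : ∀ D ∈ Ideal.span (Set.range (X ∘ Sum.inr : τ → MvPowerSeries (τ ⊕ τ) S)),
      ev φ (Sum.elim x y) D - ev φ (Sum.elim 0 y) D ∈
        Ideal.span (Set.range x) * Ideal.span (Set.range y) ∧
      ev φ (Sum.elim 0 y) D ∈ Ideal.span (Set.range y) := by
    intro D hD
    induction hD using Submodule.span_induction with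
    | mem D hD =>
      obtain ⟨j, rfl⟩ := hD
      simp only [Function.comp, h.ev_X, h0.ev_X, Sum.elim_inr, sub_self]
      exact ⟨Ideal.zero_mem _, Ideal.subset_span ⟨j, rfl⟩⟩
    | zero => simp
    | add D E _ _ hD hE =>
      rw [_root_.map_add, _root_.map_add, add_sub_add_comm]
      exact ⟨Ideal.add_mem _ hD.1 hE.1, Ideal.add_mem _ hD.2 hE.2⟩
    | smul r D _ hD =>
      have hr : ev φ (Sum.elim x y) r - ev φ (Sum.elim 0 y) r ∈ Ideal.span (Set.range x) :=
        ev_sub_mem h2 φ r (by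
          rintro (j | j)
          · simpa using Ideal.subset_span (Set.mem_range_self j)
          · simp)
      rw [smul_eq_mul, map_mul, map_mul]
      refine ⟨?_, Ideal.mul_mem_left _ _ hD.2⟩
      have := Ideal.add_mem _ (Ideal.mul_mem_left _ (ev φ (Sum.elim x y) r) hD.1)
        (Ideal.mul_mem_mul hr hD.2)
      convert this using 1
      ring
  have hX : TN (X : τ ⊕ τ → MvPowerSeries (τ ⊕ τ) S) := TN.of_cc fun j => by simp
  have hX1 : TN (X ∘ Sum.inl : τ → MvPowerSeries (τ ⊕ τ) S) := TN.of_cc fun j => by simp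
  have hX2 : TN (Sum.elim (X ∘ Sum.inl) 0 : τ ⊕ τ → MvPowerSeries (τ ⊕ τ) S) :=
    TN.of_cc (by rintro (j | j) <;> simp)
  have hid : RingHom.id _ = ev C (X : τ ⊕ τ → MvPowerSeries (τ ⊕ τ) S) :=
    hX.eq_ev ⟨fun _ => rfl, fun _ => rfl⟩
  have hD := ev_sub_mem (x := (X : τ ⊕ τ → MvPowerSeries (τ ⊕ τ) S))
    (y := Sum.elim (X ∘ Sum.inl) 0) (TN.of_cc (by rintro (j | j | j) <;> simp)) C
    (G.F i - X (.inl i) - X (.inr i))
    (𝔠 := Ideal.span (Set.range (X ∘ Sum.inr : τ → MvPowerSeries (τ ⊕ τ) S))) (by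
      rintro (j | j)
      · simp
      · rw [Sum.elim_inr, Pi.zero_apply, sub_zero]
        exact Ideal.subset_span ⟨j, rfl⟩)
  have e1 : ev C (Sum.elim (X ∘ Sum.inl) 0 : τ ⊕ τ → MvPowerSeries (τ ⊕ τ) S)
      (G.F i - X (.inl i) - X (.inr i)) = 0 := by
    have := FG_add_zero (G := G) (φ := C) hX1 i
    rw [add] at this
    rw [map_sub, map_sub, this, hX2.ev_X, hX2.ev_X]
    simp
  rw [e1, sub_zero, ← hid, RingHom.id_apply] at hD
  have h3 := (key _ hD).1
  have e2 := FG_zero_add (G := G) (φ := φ) hy i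
  rw [add] at e2
  simp only [map_sub, h.ev_X, h0.ev_X, e2, Sum.elim_inl, Sum.elim_inr, Pi.zero_apply, sub_zero,
    sub_self] at h3
  exact h3

/-- Two points are congruent modulo `𝔠` iff their difference has coordinates in `𝔠`. -/
theorem Pts.sub_mem_iff [Adm 𝔞] (x y : G.Pts φ 𝔞) (𝔠 : Ideal T) :
    (∀ i, (x - y).v i ∈ 𝔠) ↔ ∀ i, x.v i - y.v i ∈ 𝔠 := by
  have key : ∀ a b c : G.Pts φ 𝔞, (∀ i, a.v i - b.v i ∈ 𝔠) →
      ∀ i, (a + c).v i - (b + c).v i ∈ 𝔠 := fun a b c h i =>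
    ev_sub_mem (Adm.tn (𝔞 := 𝔞) (by
      rintro ((j | j) | j | j)
      exacts [a.mem j, c.mem j, b.mem j, c.mem j])) φ (G.F i) (by
      rintro (j | j)
      · exact h j
      · simp)
  constructor
  · intro h
    simpa only [sub_add_cancel, zero_add] using key (x - y) 0 y (by simpa using h)
  · intro h
    simpa only [← sub_eq_add_neg, sub_self, Pts.zero_v, Pi.zero_apply, sub_zero]
      using key x y (-y) h

/-- The universal point. -/
noncomputable def univ (G : FGL S τ) : G.Pts (C : S →+* MvPowerSeries τ S) (mX τ S) :=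
  ⟨X, fun i => Ideal.subset_span ⟨i, rfl⟩⟩

/-- Multiplication by `n`. -/
noncomputable def mul (G : FGL S τ) (n : ℕ) : τ → MvPowerSeries τ S := (n • G.univ).v

theorem mul0 (G : FGL S τ) (n : ℕ) (i : τ) : constantCoeff (G.mul n i) = 0 :=
  mem_mX.1 ((n • G.univ).mem i)

theorem Pts.nsmul_v [Adm 𝔞] (n : ℕ) (x : G.Pts φ 𝔞) (i : τ) :
    (n • x).v i = ev φ x.v (G.mul n i) := by
  have hx := x.tn
  have h := map_nsmul (Pts.map (G := G) (φ := C) (𝔞 := mX τ S) (ev φ x.v) (φ' := φ) (𝔞' := 𝔞)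
    (fun _ _ => hx.ev_C φ _) fun z hz => hx.ev_mem φ (mem_mX.1 hz) x.mem) n G.univ
  have e : Pts.map (G := G) (φ := C) (𝔞 := mX τ S) (ev φ x.v) (φ' := φ) (𝔞' := 𝔞)
      (fun _ _ => hx.ev_C φ _) (fun z hz => hx.ev_mem φ (mem_mX.1 hz) x.mem) G.univ = x :=
    Pts.ext (funext fun j => hx.ev_X φ j)
  rw [e] at h
  rw [← h]
  rfl

theorem mul_sub_mem (G : FGL S τ) (n : ℕ) (i : τ) : G.mul n i - (n : MvPowerSeries τ S) * X i ∈ mX τ S ^ 2 := by
  induction n with
  | zero => simp [mul]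
  | succ n ih =>
    have h := add_sub_mem (G := G) (φ := (C : S →+* MvPowerSeries τ S)) (x := G.mul n) (y := X)
      (TN.of_cc (by rintro (j | j) <;> simp [G.mul0])) i
    have h1 : Ideal.span (Set.range (G.mul n)) ≤ mX τ S :=
      Ideal.span_le.2 (Set.range_subset_iff.2 fun j => mem_mX.2 (G.mul0 n j))
    have e : G.mul (n + 1) i = G.add C (G.mul n) X i := by
      rw [mul, succ_nsmul]
      rfl
    have := Ideal.add_mem _ (pow_two (mX τ S) ▸ Ideal.mul_mono_left h1 h) ih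
    rw [e]
    convert this using 1
    push_cast
    ring

end FGL

end MLF
end

-- merged part: Pool.Agent.Work.MP_29d410_ag.FG2
section
/-!
# Commutative formal group laws in finitely many variables, their points and homomorphisms

Plan.  Every identity between points follows from the universal identity (a field of the
structure, an identity in a power series ring) by applying `TN.map_ev` to the evaluation
homomorphism `ev φ (Sum.elim x y)`; `Adm.tn` gives the needed `TN` facts.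
-/

open MvPowerSeries

namespace MLF

universe u

variable {S S' T T' : Type u} [CommRing S] [CommRing S'] [CommRing T] [CommRing T']
  {τ τ' τ'' : Type} [Finite τ] [Finite τ'] [Finite τ'']

theorem FG2_cc {g : τ' → MvPowerSeries τ S} (hg : ∀ j, constantCoeff (g j) = 0)
    {f : MvPowerSeries τ' S} (hf : constantCoeff f = 0) : constantCoeff (ev C g f) = 0 :=
  mem_mX.1 ((TN.of_cc hg).ev_mem C hf fun j => mem_mX.2 (hg j))

theorem FG2_ev_ev {x : τ → T} (hx : TN x) (φ : S →+* T) {g : τ' → MvPowerSeries τ S}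
    (hg : ∀ j, constantCoeff (g j) = 0) (f : MvPowerSeries τ' S) :
    ev φ x (ev C g f) = ev φ (fun j => ev φ x (g j)) f := by
  have h : TN (ev φ x ∘ g) :=
    let ⟨𝔟, a, b⟩ := hx; ⟨𝔟, a, fun j => hx.ev_mem φ (hg j) b⟩
  rw [(TN.of_cc hg).map_ev (ev φ x) h, show (ev φ x).comp C = φ from RingHom.ext (hx.ev_C φ)]
  rfl

theorem FG2_map_ev (ψ : S →+* S') {g : τ' → MvPowerSeries τ S}
    (hg : ∀ j, constantCoeff (g j) = 0) {g' : τ' → MvPowerSeries τ S'}
    (e : ∀ j, g' j = map ψ (g j)) (f : MvPowerSeries τ' S) :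
    ev C g' (map ψ f) = map ψ (ev C g f) := by
  obtain rfl : g' = map ψ ∘ g := funext e
  have h : TN (map ψ ∘ g) := TN.of_cc fun j => by simp [hg j]
  rw [(TN.of_cc hg).map_ev (map ψ) h, h.ev_map]
  congr 2
  ext1 c
  simp

namespace FGL

theorem map_aux (G : FGL S τ) (ψ : S →+* S') : ∃ G' : FGL S' τ,
    (∀ i, G'.F i = MvPowerSeries.map ψ (G.F i)) ∧ ∀ i, G'.N i = MvPowerSeries.map ψ (G.N i) := by
  refine ⟨⟨fun i => MvPowerSeries.map ψ (G.F i), fun i => MvPowerSeries.map ψ (G.N i),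
    fun i => by simp [G.F0], fun i => by simp [G.N0], fun i => ?_, fun i => ?_, fun i => ?_,
    fun i => ?_⟩, fun _ => rfl, fun _ => rfl⟩
  · rw [FG2_map_ev ψ (g := Sum.elim X 0) (by rintro (j | j) <;> simp)
      (by rintro (j | j) <;> simp), G.zero, map_X]
  · rw [FG2_map_ev ψ (g := Sum.elim (X ∘ Sum.inr) (X ∘ Sum.inl)) (by rintro (j | j) <;> simp)
      (by rintro (j | j) <;> simp), G.comm]
  · have c₁ : ∀ j, constantCoeff ((Sum.elim (X ∘ Sum.inl) (X ∘ Sum.inr ∘ Sum.inl) :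
        τ ⊕ τ → MvPowerSeries (τ ⊕ τ ⊕ τ) S) j) = 0 := by rintro (j | j) <;> simp
    have c₂ : ∀ j, constantCoeff ((Sum.elim (X ∘ Sum.inr ∘ Sum.inl) (X ∘ Sum.inr ∘ Sum.inr) :
        τ ⊕ τ → MvPowerSeries (τ ⊕ τ ⊕ τ) S) j) = 0 := by rintro (j | j) <;> simp
    refine (FG2_map_ev ψ ?_ ?_ _).trans ((congrArg (MvPowerSeries.map ψ) (G.assoc i)).trans
      (FG2_map_ev ψ ?_ ?_ _).symm)
    · rintro (j | j)
      exacts [FG2_cc c₁ (G.F0 j), by simp]
    · rintro (j | j)
      exacts [FG2_map_ev ψ c₁ (by rintro (j | j) <;> simp) _, by simp]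
    · rintro (j | j)
      exacts [by simp, FG2_cc c₂ (G.F0 j)]
    · rintro (j | j)
      exacts [by simp, FG2_map_ev ψ c₂ (by rintro (j | j) <;> simp) _]
  · rw [FG2_map_ev ψ (g := Sum.elim G.N X) (by rintro (j | j) <;> simp [G.N0])
      (by rintro (j | j) <;> simp), G.neg, map_zero]

/-- Extension of scalars. -/
noncomputable def map (G : FGL S τ) (ψ : S →+* S') : FGL S' τ := (G.map_aux ψ).choose

theorem map_F (G : FGL S τ) (ψ : S →+* S') (i : τ) :
    (G.map ψ).F i = MvPowerSeries.map ψ (G.F i) := (G.map_aux ψ).choose_spec.1 i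

theorem map_add_eq (G : FGL S τ) (ψ : S →+* S') (φ : S' →+* T) {x y : τ → T}
    (h : TN (Sum.elim x y)) : (G.map ψ).add φ x y = G.add (φ.comp ψ) x y :=
  funext fun i => by rw [add, map_F, h.ev_map]; rfl

theorem FG2_mul_succ (G : FGL S τ) (n : ℕ) (i : τ) :
    G.mul (n + 1) i = ev C (Sum.elim (G.mul n) X) (G.F i) := by
  rw [mul, succ_nsmul]; rfl

theorem map_mul (G : FGL S τ) (ψ : S →+* S') (n : ℕ) (i : τ) :
    (G.map ψ).mul n i = MvPowerSeries.map ψ (G.mul n i) := by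
  induction n generalizing i with
  | zero => simp [mul]
  | succ n ih =>
    rw [FG2_mul_succ, FG2_mul_succ, map_F]
    exact FG2_map_ev ψ (by rintro (j | j) <;> simp [mul0]) (by rintro (j | j) <;> simp [ih]) _

/-- The group law determines the structure. -/
theorem ext' {G G' : FGL S τ} (h : G.F = G'.F) : G = G' := by
  have e : (⟨G'.N, fun i => mem_mX.2 (G'.N0 i)⟩ : G.Pts C (mX τ S)) = -G.univ :=
    eq_neg_of_add_eq_zero_left (Pts.ext (funext fun i => by
      have := G'.neg i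
      rwa [← h] at this))
  have e' : G.N = G'.N := funext fun i => by
    have a : G'.N i = ev C X (G.N i) := congrFun (congrArg Pts.v e) i
    have b := ev_C_X (RingHom.id S) (G.N i)
    rw [RingHom.comp_id, MvPowerSeries.map_id] at b
    rw [a, b]; rfl
  cases G; cases G'
  cases h; cases e'
  rfl

theorem map_map (G : FGL S τ) (ψ : S →+* S') (ψ' : S' →+* T) :
    (G.map ψ).map ψ' = G.map (ψ'.comp ψ) :=
  ext' (funext fun i => by rw [map_F, map_F, map_F, MvPowerSeries.map_comp]; rfl)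

theorem map_id (G : FGL S τ) : G.map (RingHom.id S) = G :=
  ext' (funext fun i => by rw [map_F, MvPowerSeries.map_id]; rfl)

/-- A family of series each of which comes from a formal group law on a block of variables. -/
theorem FG2_glue (F : τ → MvPowerSeries (τ ⊕ τ) S) (N : τ → MvPowerSeries τ S)
    (h : ∀ j, ∃ (ρ : Type) (_ : Finite ρ) (G : FGL S ρ) (e : ρ → τ) (i : ρ), j = e i ∧
      (∀ i, F (e i) = ev C (X ∘ Sum.map e e) (G.F i)) ∧ ∀ i, N (e i) = ev C (X ∘ e) (G.N i)) :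
    ∃ P : FGL S τ, P.F = F := by
  have F0 : ∀ j, constantCoeff (F j) = 0 := fun j => by
    obtain ⟨ρ, _, G, e, i, rfl, a, -⟩ := h j
    rw [a]; exact FG2_cc (by simp) (G.F0 i)
  have N0 : ∀ j, constantCoeff (N j) = 0 := fun j => by
    obtain ⟨ρ, _, G, e, i, rfl, -, a⟩ := h j
    rw [a]; exact FG2_cc (by simp) (G.N0 i)
  have key : ∀ {ρ σ : Type} [Finite ρ] [Finite σ] {G : FGL S ρ} {e : ρ → τ},
      (∀ i, F (e i) = ev C (X ∘ Sum.map e e) (G.F i)) → ∀ (x y : τ → MvPowerSeries σ S),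
      (∀ j, constantCoeff (x j) = 0) → (∀ j, constantCoeff (y j) = 0) →
      (fun j => ev C (Sum.elim x y) (F j)) ∘ e = G.add C (x ∘ e) (y ∘ e) := by
    intro ρ σ _ _ G e a x y hx hy
    have t : TN (Sum.elim x y) := TN.of_cc (by rintro (j | j) <;> simp [hx, hy])
    funext i
    rw [Function.comp_apply, a, FG2_ev_ev t C (by simp), add]
    congr 2
    funext j
    rw [Function.comp_apply, t.ev_X]
    cases j <;> rfl
  have m : ∀ {ρ σ : Type} [Finite σ] (e : ρ → σ) i, (X ∘ e : ρ → MvPowerSeries σ S) i ∈ mX σ S :=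
    fun e i => mem_mX.2 (by simp)
  refine ⟨⟨F, N, F0, N0, fun j => ?_, fun j => ?_, fun j => ?_, fun j => ?_⟩, rfl⟩ <;>
    obtain ⟨ρ, _, G, e, i, rfl, a, b⟩ := h j
  · exact (congrFun (key a X 0 (by simp) (by simp)) i).trans
      (congrFun (congrArg Pts.v (Pts.add_zero' (⟨X ∘ e, m e⟩ : G.Pts C _))) i)
  · refine (congrFun (key a _ _ (by simp) (by simp)) i).trans
      ((congrFun (congrArg Pts.v (Pts.add_comm' (⟨X ∘ Sum.inr ∘ e, m _⟩ : G.Pts C _)
        ⟨X ∘ Sum.inl ∘ e, m _⟩)) i).trans ?_)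
    rw [a, Pts.add_v, add]
    congr 2
    funext j
    cases j <;> rfl
  · refine (congrFun (key a _ _ (fun j => FG2_cc (by rintro (j | j) <;> simp) (F0 j)) (by simp))
      i).trans (Eq.trans ?_ (congrFun (key a _ _ (by simp)
        fun j => FG2_cc (by rintro (j | j) <;> simp) (F0 j)) i).symm)
    rw [key a _ _ (by simp) (by simp), key a _ _ (by simp) (by simp)]
    exact congrFun (congrArg Pts.v (Pts.add_assoc' (⟨X ∘ Sum.inl ∘ e, m _⟩ : G.Pts C _)
      ⟨X ∘ Sum.inr ∘ Sum.inl ∘ e, m _⟩ ⟨X ∘ Sum.inr ∘ Sum.inr ∘ e, m _⟩)) i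
  · refine (congrFun (key a _ _ N0 (by simp)) i).trans ?_
    rw [show N ∘ e = fun i => ev C (X ∘ e) (G.N i) from funext b]
    exact congrFun (congrArg Pts.v (Pts.neg_add' (⟨X ∘ e, m e⟩ : G.Pts C _))) i

theorem prod_aux (G : FGL S τ) (H : FGL S τ') : ∃ P : FGL S (τ ⊕ τ'),
    (∀ i, P.F (.inl i) = ev C (X ∘ Sum.map Sum.inl Sum.inl) (G.F i)) ∧
    ∀ i, P.F (.inr i) = ev C (X ∘ Sum.map Sum.inr Sum.inr) (H.F i) := by
  obtain ⟨P, h⟩ := FG2_glue (τ := τ ⊕ τ')
    (Sum.elim (fun i => ev C (X ∘ Sum.map Sum.inl Sum.inl) (G.F i))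
      fun i => ev C (X ∘ Sum.map Sum.inr Sum.inr) (H.F i))
    (Sum.elim (fun i => ev C (X ∘ Sum.inl) (G.N i)) fun i => ev C (X ∘ Sum.inr) (H.N i)) (by
      rintro (j | j)
      exacts [⟨τ, inferInstance, G, Sum.inl, j, rfl, fun _ => rfl, fun _ => rfl⟩,
        ⟨τ', inferInstance, H, Sum.inr, j, rfl, fun _ => rfl, fun _ => rfl⟩])
  exact ⟨P, fun i => by rw [h]; rfl, fun i => by rw [h]; rfl⟩

theorem pi_aux {ι : Type} [Finite ι] (G : ι → FGL S τ) : ∃ P : FGL S (ι × τ),
    ∀ n i, P.F (n, i) = ev C (X ∘ Sum.map (Prod.mk n) (Prod.mk n)) ((G n).F i) := by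
  obtain ⟨P, h⟩ := FG2_glue (τ := ι × τ)
    (fun j => ev C (X ∘ Sum.map (Prod.mk j.1) (Prod.mk j.1)) ((G j.1).F j.2))
    (fun j => ev C (X ∘ Prod.mk j.1) ((G j.1).N j.2)) fun j =>
      ⟨τ, inferInstance, G j.1, Prod.mk j.1, j.2, rfl, fun _ => rfl, fun _ => rfl⟩
  exact ⟨P, fun n i => by rw [h]⟩

/-- Finite height. -/
def FH (G : FGL S τ) (p : ℕ) : Prop :=
  ∃ N : ℕ, ∀ i, X i ^ N ∈ Ideal.span (Set.range (G.mul p))

end FGL

end MLF
end

-- merged part: Pool.Agent.Work.MP_29d410_ag.FG3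
section
/-!
# Commutative formal group laws in finitely many variables, their points and homomorphisms

Plan.  Every identity between points follows from the universal identity (a field of the
structure, an identity in a power series ring) by applying `TN.map_ev` to the evaluation
homomorphism `ev φ (Sum.elim x y)`; `Adm.tn` gives the needed `TN` facts.
-/

open MvPowerSeries

namespace MLF

universe u

variable {S S' T T' : Type u} [CommRing S] [CommRing S'] [CommRing T] [CommRing T']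
  {τ τ' τ'' : Type} [Finite τ] [Finite τ'] [Finite τ'']

/-- `f` is a homomorphism from `G` to `H`. -/
structure IsHom (G : FGL S τ) (H : FGL S τ') (f : τ' → MvPowerSeries τ S) : Prop where
  cc : ∀ i, constantCoeff (f i) = 0
  hom : ∀ i, ev C G.F (f i) =
    H.add C (fun j => ev C (X ∘ Sum.inl) (f j)) (fun j => ev C (X ∘ Sum.inr) (f j)) i

/-- Composition: `cmp g f` is `g ∘ f`. -/
noncomputable def cmp (g : τ'' → MvPowerSeries τ' S) (f : τ' → MvPowerSeries τ S) :
    τ'' → MvPowerSeries τ S := fun i => ev C f (g i)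

omit [Finite τ'] in
theorem FG3_tn {f : τ' → MvPowerSeries τ S} (hf : ∀ i, constantCoeff (f i) = 0) (φ : S →+* T)
    {x : τ → T} (hx : TN x) : TN fun j => ev φ x (f j) := by
  obtain ⟨𝔟, h1, h2⟩ := id hx
  exact ⟨𝔟, h1, fun j => hx.ev_mem φ (hf j) h2⟩

theorem FG3_comp_C (φ : S →+* T) {x : τ → T} (hx : TN x) : (ev φ x).comp C = φ :=
  RingHom.ext fun c => hx.ev_C φ c

theorem FG3_ev_ev {f : τ' → MvPowerSeries τ S} (hf : ∀ i, constantCoeff (f i) = 0) (φ : S →+* T)
    {x : τ → T} (hx : TN x) (g : MvPowerSeries τ' S) :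
    ev φ x (ev C f g) = ev φ (fun j => ev φ x (f j)) g := by
  rw [(TN.of_cc hf).map_ev (ev φ x) (FG3_tn hf φ hx), FG3_comp_C φ hx]
  rfl

theorem FG3_ev_add (H : FGL S τ') {a b : τ' → MvPowerSeries τ S}
    (ha : ∀ i, constantCoeff (a i) = 0) (hb : ∀ i, constantCoeff (b i) = 0) (φ : S →+* T)
    {x : τ → T} (hx : TN x) (i : τ') :
    ev φ x (H.add C a b i) = H.add φ (fun j => ev φ x (a j)) (fun j => ev φ x (b j)) i := by
  rw [FGL.add, FG3_ev_ev (Sum.rec ha hb) φ hx, FGL.add]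
  congr 2
  funext j
  cases j <;> rfl

theorem FG3_ev_X (g : MvPowerSeries τ S) : ev C X g = g := by
  simpa using ev_C_X (RingHom.id S) g

theorem FG3_cc {f : τ' → MvPowerSeries τ S} (hf : ∀ i, constantCoeff (f i) = 0)
    (g : MvPowerSeries τ' S) : constantCoeff (ev C f g) = constantCoeff g := by
  have e : constantCoeff ∘ f = 0 := funext hf
  rw [(TN.of_cc hf).map_ev constantCoeff (e ▸ TN.of_nil fun _ => IsNilpotent.zero), e, ev_zero]
  simp

omit [Finite τ] [Finite τ'] in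
theorem FG3_X (e : τ' → τ) (i : τ') : constantCoeff ((X ∘ e : τ' → MvPowerSeries τ S) i) = 0 :=
  constantCoeff_X _

theorem FG3_ren {x : τ → T} (hx : TN x) (φ : S →+* T) (e : τ' → τ) (g : MvPowerSeries τ' S) :
    ev φ x (ev C (X ∘ e) g) = ev φ (x ∘ e) g := by
  rw [FG3_ev_ev (FG3_X e) φ hx]
  congr 2
  exact funext fun j => hx.ev_X φ (e j)

/-- The action of a family of series on points. -/
noncomputable def FG3_pt {G : FGL S τ} (H : FGL S τ') {f : τ' → MvPowerSeries τ S}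
    (hf : ∀ i, constantCoeff (f i) = 0) {φ : S →+* T} {𝔞 : Ideal T} [Adm 𝔞] (x : G.Pts φ 𝔞) :
    H.Pts φ 𝔞 := ⟨fun i => ev φ x.v (f i), fun i => x.tn.ev_mem φ (hf i) x.mem⟩

theorem FG3_isHom {G : FGL S τ} {H : FGL S τ'} {f : τ' → MvPowerSeries τ S}
    (hf : ∀ i, constantCoeff (f i) = 0)
    (h : ∀ x y : G.Pts C (mX (τ ⊕ τ) S), FG3_pt H hf (x + y) = FG3_pt H hf x + FG3_pt H hf y) :
    IsHom G H f := by
  refine ⟨hf, fun i => ?_⟩
  have := congrFun (congrArg FGL.Pts.v (h ⟨X ∘ Sum.inl, fun _ => Ideal.subset_span ⟨_, rfl⟩⟩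
    ⟨X ∘ Sum.inr, fun _ => Ideal.subset_span ⟨_, rfl⟩⟩)) i
  have e : G.add C (X ∘ Sum.inl) (X ∘ Sum.inr) = G.F := funext fun j => by
    rw [FGL.add, Sum.elim_comp_inl_inr, FG3_ev_X]
  rw [← e]
  exact this

theorem FG3_isHom' {G : FGL S τ} {H : FGL S τ'} {f : τ' → MvPowerSeries τ S}
    (hf : ∀ i, constantCoeff (f i) = 0) (A : G.Pts C (mX (τ ⊕ τ) S) →+ H.Pts C (mX (τ ⊕ τ) S))
    (h : ∀ x i, ev C x.v (f i) = (A x).v i) : IsHom G H f := by
  have e : ∀ x, FG3_pt H hf x = A x := fun x => FGL.Pts.ext (funext (h x))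
  exact FG3_isHom hf fun x y => by rw [e, e, e, map_add]

namespace IsHom

variable {G : FGL S τ} {H : FGL S τ'} {H' : FGL S τ''} {f : τ' → MvPowerSeries τ S}
  {g : τ'' → MvPowerSeries τ' S} {φ : S →+* T} {𝔞 : Ideal T}

theorem ev_add (hf : IsHom G H f) {x y : τ → T} (h : TN (Sum.elim x y)) (i : τ') :
    ev φ (G.add φ x y) (f i) =
      H.add φ (fun j => ev φ x (f j)) (fun j => ev φ y (f j)) i := by
  have := congrArg (ev φ (Sum.elim x y)) (hf.hom i)
  rw [FG3_ev_ev G.F0 φ h, FG3_ev_add H (fun j => (FG3_cc (FG3_X _) _).trans (hf.cc j))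
    (fun j => (FG3_cc (FG3_X _) _).trans (hf.cc j)) φ h] at this
  simp only [FG3_ren h, Sum.elim_comp_inl, Sum.elim_comp_inr] at this
  exact this

/-- The action on points. -/
noncomputable def act (hf : IsHom G H f) (φ : S →+* T) (𝔞 : Ideal T) [Adm 𝔞] :
    G.Pts φ 𝔞 →+ H.Pts φ 𝔞 :=
  AddMonoidHom.mk' (fun x => ⟨fun i => ev φ x.v (f i), fun i => x.tn.ev_mem φ (hf.cc i) x.mem⟩)
    fun x y => FGL.Pts.ext (funext (hf.ev_add (Adm.tn (𝔞 := 𝔞) (Sum.rec x.mem y.mem))))

@[simp] theorem act_v (hf : IsHom G H f) [Adm 𝔞] (x : G.Pts φ 𝔞) (i : τ') :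
    (hf.act φ 𝔞 x).v i = ev φ x.v (f i) := rfl

theorem id (G : FGL S τ) : IsHom G G X :=
  FG3_isHom' (fun _ => constantCoeff_X _) (AddMonoidHom.id _) fun x i => x.tn.ev_X _ i

theorem mul (G : FGL S τ) (n : ℕ) : IsHom G G (G.mul n) :=
  FG3_isHom' (G.mul0 n) (nsmulAddMonoidHom n) fun x i => (x.nsmul_v n i).symm

theorem comp (hg : IsHom H H' g) (hf : IsHom G H f) : IsHom G H' (cmp g f) :=
  FG3_isHom' (fun i => (FG3_cc hf.cc _).trans (hg.cc i)) ((hg.act _ _).comp (hf.act _ _))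
    fun x _ => FG3_ev_ev hf.cc _ x.tn _

theorem add {f' : τ' → MvPowerSeries τ S} (hf : IsHom G H f) (hf' : IsHom G H f') :
    IsHom G H (H.add C f f') :=
  FG3_isHom' (fun i => (FG3_cc (Sum.rec hf.cc hf'.cc) _).trans (H.F0 i)) (hf.act _ _ + hf'.act _ _)
    fun x i => FG3_ev_add H hf.cc hf'.cc _ x.tn i

theorem neg (hf : IsHom G H f) : IsHom G H (cmp H.N f) :=
  FG3_isHom' (fun i => (FG3_cc hf.cc _).trans (H.N0 i)) (-hf.act _ _)
    fun x _ => FG3_ev_ev hf.cc _ x.tn _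

theorem map (hf : IsHom G H f) (ψ : S →+* S') :
    IsHom (G.map ψ) (H.map ψ) fun i => MvPowerSeries.map ψ (f i) := by
  have cc : ∀ i, constantCoeff (MvPowerSeries.map ψ (f i)) = 0 := fun i => by
    rw [constantCoeff_map, hf.cc, map_zero]
  refine FG3_isHom cc fun x y => FGL.Pts.ext (funext fun i => ?_)
  have h : TN (Sum.elim x.v y.v) := Adm.tn (Sum.rec x.mem y.mem)
  have h' : TN (Sum.elim (FG3_pt (H.map ψ) cc x).v (FG3_pt (H.map ψ) cc y).v) :=
    Adm.tn (Sum.rec (FG3_pt (H.map ψ) cc x).mem (FG3_pt (H.map ψ) cc y).mem)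
  rw [FGL.Pts.add_v, H.map_add_eq ψ C h']
  simp only [FG3_pt]
  rw [(x + y).tn.ev_map, FGL.Pts.add_v, G.map_add_eq ψ C h, hf.ev_add h]
  simp only [x.tn.ev_map, y.tn.ev_map]

theorem cmp_mul (hf : IsHom G H f) (n : ℕ) : cmp f (G.mul n) = cmp (H.mul n) f := by
  funext i
  have h := congrFun (congrArg FGL.Pts.v (map_nsmul (hf.act C (mX τ S)) n G.univ)) i
  have e : (hf.act C (mX τ S) G.univ).v = f := funext fun j => FG3_ev_X _
  rw [FGL.Pts.nsmul_v, e] at h
  exact h

/-- The Frobenius homomorphism. -/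
theorem frob (G : FGL S τ) (p : ℕ) [ExpChar S p] (n : ℕ) :
    IsHom G (G.map (iterateFrobenius S p n)) fun i => X i ^ p ^ n := by
  have cc : ∀ i, constantCoeff ((X i : MvPowerSeries τ S) ^ p ^ n) = 0 := fun i => by
    rw [map_pow, constantCoeff_X, zero_pow (expChar_pow_pos S p n).ne']
  have : ExpChar (MvPowerSeries (τ ⊕ τ) S) p := expChar_of_injective_ringHom C_injective p
  have e : ∀ x : G.Pts C (mX (τ ⊕ τ) S), (FG3_pt (G.map (iterateFrobenius S p n)) cc x).v =
      iterateFrobenius _ p n ∘ x.v := fun x => funext fun i => by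
    simp only [FG3_pt, map_pow, x.tn.ev_X, Function.comp, iterateFrobenius_def]
  refine FG3_isHom cc fun x y => FGL.Pts.ext ?_
  have h : TN (Sum.elim x.v y.v) := Adm.tn (Sum.rec x.mem y.mem)
  have h' : TN (Sum.elim (FG3_pt _ cc x).v (FG3_pt _ cc y).v) :=
    Adm.tn (Sum.rec (FG3_pt (G.map (iterateFrobenius S p n)) cc x).mem
      (FG3_pt (G.map (iterateFrobenius S p n)) cc y).mem)
  rw [FGL.Pts.add_v, G.map_add_eq _ C h', e, e, e, FGL.Pts.add_v,
    FGL.map_add h _ (by rwa [Sum.comp_elim, ← e, ← e])]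
  congr 1
  exact RingHom.ext fun c => by simp [iterateFrobenius_def]

end IsHom

theorem ev_cmp {g : τ'' → MvPowerSeries τ' S} {f : τ' → MvPowerSeries τ S}
    (hf : ∀ i, constantCoeff (f i) = 0) (φ : S →+* T) {x : τ → T} (hx : TN x) (i : τ'') :
    ev φ x (cmp g f i) = ev φ (fun j => ev φ x (f j)) (g i) := FG3_ev_ev hf φ hx _

theorem cmp_assoc {τ₃ : Type} {h : τ₃ → MvPowerSeries τ'' S} {g : τ'' → MvPowerSeries τ' S}
    {f : τ' → MvPowerSeries τ S} (hg : ∀ i, constantCoeff (g i) = 0)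
    (hf : ∀ i, constantCoeff (f i) = 0) : cmp (cmp h g) f = cmp h (cmp g f) :=
  funext fun _ => FG3_ev_ev hg C (TN.of_cc hf) _

theorem FGL.mul_mul (G : FGL S τ) (m n : ℕ) : G.mul (m * n) = cmp (G.mul m) (G.mul n) := by
  funext i
  rw [FGL.mul, mul_nsmul', FGL.Pts.nsmul_v]
  rfl

/-- Division: if `f` is a homomorphism which is injective on functions and `ξ ∘ f` is a
homomorphism, so is `ξ` (use `ev_inj_sum`). -/
theorem IsHom.of_cmp {K : Type u} [Field K] {G : FGL K τ} {H : FGL K τ'} {H' : FGL K τ''}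
    {f : τ' → MvPowerSeries τ K} {ξ : τ'' → MvPowerSeries τ' K} (hf : IsHom G H f)
    (hi : Function.Injective (ev C f : MvPowerSeries τ' K →+* _))
    (h : IsHom G H' (cmp ξ f)) : IsHom H H' ξ := by
  have cc : ∀ i, constantCoeff (ξ i) = 0 := fun i => (FG3_cc hf.cc _).symm.trans (h.cc i)
  refine ⟨cc, fun i => ev_inj_sum hf.cc hf.cc hi hi ?_⟩
  have t : TN (Sum.elim (fun i => ev C (X ∘ Sum.inl) (f i)) fun i => ev C (X ∘ Sum.inr) (f i) :
      τ' ⊕ τ' → MvPowerSeries (τ ⊕ τ) K) :=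
    TN.of_cc (Sum.rec (fun j => (FG3_cc (FG3_X _) _).trans (hf.cc j))
      fun j => (FG3_cc (FG3_X _) _).trans (hf.cc j))
  have k := h.hom i
  rw [ev_cmp hf.cc C (TN.of_cc G.F0), funext hf.hom] at k
  rw [FG3_ev_ev H.F0 C t, FG3_ev_add H' (fun j => (FG3_cc (FG3_X _) _).trans (cc j))
    (fun j => (FG3_cc (FG3_X _) _).trans (cc j)) C t]
  simp only [ev_cmp hf.cc C (TN.of_cc (FG3_X _))] at k
  simp only [FG3_ren t, Sum.elim_comp_inl, Sum.elim_comp_inr]
  exact k

/-- The Dieudonne-Manin data: `G` is isogenous to `H`, on which `[p ^ R]` is a diagonal power of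
Frobenius. -/
structure DMD {K : Type u} [CommRing K] (p : ℕ) (G : FGL K τ) where
  ρ : Type
  [fin : Finite ρ]
  H : FGL K ρ
  R : ℕ
  c : ℕ
  a : ρ → ℕ
  e : τ → MvPowerSeries ρ K
  e' : ρ → MvPowerSeries τ K
  R_pos : 0 < R
  mulH : ∀ l, H.mul (p ^ R) l = X l ^ p ^ a l
  he : IsHom H G e
  he' : IsHom G H e'
  ee' : cmp e e' = G.mul (p ^ (R * c))
  e'e : cmp e' e = H.mul (p ^ (R * c))

attribute [instance] DMD.fin

end MLF
end

-- merged part: Pool.Agent.Work.MP_29d410_ag.LD2c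
section
/-!
# Rank, places, automorphisms, Gauss valuations

Models for the rank lemmas: `Pool/Agent/Work/MP_ffcd14_ag/Cyc/Rk.lean`, `KR.lean`, `FP.lean`.
`exists_place`: localise `R` at the kernel of `r`, dominate by a valuation subring `W`
(`LocalSubring.exists_le_valuationSubring`); its residue field may be transcendental over the
fraction field `k₀` of `r R`.  To avoid this choose (Zorn) a maximal pair (subring, homomorphism
to `Ω'`): it is local, and if `x, x⁻¹ ∉ W` the usual minimal degree argument applies: either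
`𝔪 W[x]` or `𝔪 W[x⁻¹]` is proper, and a maximal ideal above it has residue field algebraic over
the residue field of `W`, or `x` is transcendental and can be sent to `0`.
`fixed_pow_mem`: an element fixed by all automorphisms over `E` is purely inseparable over `E`:
use a transcendence basis and `IsAlgClosed.equivOfTranscendenceBasis` or
`IsAlgClosure.equivOfEquiv`.
`exists_comm`: transcendence basis `z` of `Ω` over `E`; `W₁ = {f z / g z}` with `f, g` over `W₀`
and `g` primitive is a valuation ring of `E (z)` with the same values; dominate it; in an algebraic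
relation two terms have the same value.
-/

namespace MLF

universe u

variable {Ω Ω' : Type u} [Field Ω] [Field Ω'] {k E E₁ E₂ F : Subfield Ω} {s t : Set Ω}

/-- Automorphisms of the polynomial ring on a transcendence basis extend. -/
theorem LD2c_ext_aut [IsAlgClosed Ω] {A ι : Type u} [Field A] [Algebra A Ω] {v : ι → Ω}
    (hv : IsTranscendenceBasis A v) (φ : MvPolynomial ι A ≃+* MvPolynomial ι A) :
    ∃ τ : Ω ≃+* Ω, ∀ f, τ (MvPolynomial.aeval v f) = MvPolynomial.aeval v (φ f) := by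
  have := IsAlgClosed.isAlgClosure_of_transcendence_basis v hv
  let e := hv.1.aevalEquiv.toRingEquiv
  refine ⟨IsAlgClosure.equivOfEquiv Ω Ω (e.symm.trans (φ.trans e)), fun f => ?_⟩
  have h1 : ∀ g, MvPolynomial.aeval v g = algebraMap _ Ω (e g) := fun g =>
    (hv.1.algebraMap_aevalEquiv g).symm
  rw [h1, h1, IsAlgClosure.equivOfEquiv_algebraMap]
  simp

/-- The shift of all the variables. -/
noncomputable def LD2c_shift (ι A : Type u) [Field A] : MvPolynomial ι A ≃ₐ[A] MvPolynomial ι A :=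
  AlgEquiv.ofAlgHom (MvPolynomial.aeval fun i => MvPolynomial.X i + 1)
    (MvPolynomial.aeval fun i => MvPolynomial.X i - 1) (by ext; simp) (by ext; simp)

theorem LD2c_algebraic [IsAlgClosed Ω] {z : Ω}
    (h : ∀ τ : Ω ≃+* Ω, (∀ c ∈ E, τ c = c) → τ z = z) : IsAlgebraic E z := by
  by_contra hz
  have h1 : AlgebraicIndepOn E id ({z} : Set Ω) :=
    algebraicIndependent_unique_type_iff.2 hz
  obtain ⟨B, hB, hv⟩ := exists_isTranscendenceBasis_superset h1
  obtain ⟨τ, hτ⟩ := LD2c_ext_aut hv (LD2c_shift B E).toRingEquiv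
  have h2 := h τ fun c hc => by
    have := hτ (MvPolynomial.C ⟨c, hc⟩)
    have h4 : τ (algebraMap E Ω ⟨c, hc⟩) = algebraMap E Ω ⟨c, hc⟩ := by
      simpa [LD2c_shift] using this
    exact h4
  have h3 := hτ (MvPolynomial.X ⟨z, hB rfl⟩)
  simp [LD2c_shift, h2] at h3

theorem fixed_pow_mem [IsAlgClosed Ω] (p : ℕ) [ExpChar Ω p] {z : Ω}
    (h : ∀ τ : Ω ≃+* Ω, (∀ c ∈ E, τ c = c) → τ z = z) : ∃ m, z ^ p ^ m ∈ E := by
  classical
  have hz := LD2c_algebraic h
  let A := algebraicClosure E Ω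
  obtain ⟨B, hv⟩ := exists_isTranscendenceBasis A Ω
  have hroot : ∀ w : Ω, Polynomial.aeval w (minpoly E z) = 0 → w = z := by
    intro w hw
    have hw' : IsAlgebraic E w := ⟨_, minpoly.ne_zero hz.isIntegral, hw⟩
    let z' : A := ⟨z, mem_algebraicClosure_iff.2 hz⟩
    let w' : A := ⟨w, mem_algebraicClosure_iff.2 hw'⟩
    have e1 : minpoly E z' = minpoly E z := IntermediateField.minpoly_eq z'
    have e2 : Polynomial.aeval w' (minpoly E z') = 0 := by
      apply Subtype.ext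
      rw [e1]
      exact (Polynomial.aeval_algebraMap_apply Ω w' (minpoly E z)).symm.trans hw
    obtain ⟨σ, hσ⟩ := minpoly.exists_algEquiv_of_root' (Algebra.IsAlgebraic.isAlgebraic z') e2
    obtain ⟨τ, hτ⟩ := LD2c_ext_aut hv (MvPolynomial.mapEquiv B σ.toRingEquiv)
    have h1 : ∀ a : A, τ a = σ a := fun a => by
      have := hτ (MvPolynomial.C a)
      simpa using this
    have h2 := h τ fun c hc => by
      have := h1 (algebraMap E A ⟨c, hc⟩)
      rw [σ.commutes] at this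
      exact this
    have h3 := h1 z'
    rw [hσ] at h3
    exact h3.symm.trans h2
  have : ExpChar E p := RingHom.expChar E.subtype E.subtype.injective p
  have h1 : (minpoly E z).natSepDegree = 1 := by
    rw [Polynomial.natSepDegree_eq_of_isAlgClosed Ω, Finset.card_eq_one]
    refine ⟨z, Finset.eq_singleton_iff_unique_mem.2 ⟨?_, fun w hw => ?_⟩⟩
    · rw [Multiset.mem_toFinset, Polynomial.mem_aroots]
      exact ⟨minpoly.ne_zero hz.isIntegral, minpoly.aeval E z⟩
    · rw [Multiset.mem_toFinset, Polynomial.mem_aroots] at hw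
      exact hroot w hw.2
  obtain ⟨m, c, hc⟩ := (minpoly.natSepDegree_eq_one_iff_pow_mem p).1 h1
  exact ⟨m, hc ▸ c.2⟩

theorem LD2c_isEquiv (j : Ω →+* Ω') (W : ValuationSubring Ω') :
    (W.comap j).valuation.IsEquiv (W.valuation.comap j) := by
  apply Valuation.isEquiv_of_val_le_one
  intro x
  rw [ValuationSubring.valuation_le_one_iff, Valuation.comap_apply,
    ValuationSubring.valuation_le_one_iff, ValuationSubring.mem_comap]

theorem LD2c_pow_iff (j : Ω →+* Ω') (W : ValuationSubring Ω') (z t : Ω) (n : ℕ) (m : ℤ) :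
    (W.comap j).valuation z ^ n = (W.comap j).valuation t ^ m ↔
      W.valuation (j z) ^ n = W.valuation (j t) ^ m := by
  have := (LD2c_isEquiv j W).eq_iff (r := z ^ n) (s := t ^ m)
  simpa only [map_pow, map_zpow₀, Valuation.comap_apply] using this

/-- In a vanishing sum two terms have the same value. -/
theorem LD2c_two {Γ ι : Type*} [LinearOrderedCommGroupWithZero Γ] (v : Valuation Ω Γ)
    (s : Finset ι) (hs : s.Nonempty) (f : ι → Ω) (hf : ∀ i ∈ s, f i ≠ 0)
    (h : ∑ i ∈ s, f i = 0) : ∃ i ∈ s, ∃ k ∈ s, i ≠ k ∧ v (f i) = v (f k) := by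
  classical
  by_contra hne
  push Not at hne
  obtain ⟨i, hi, hmax⟩ := s.exists_max_image (fun i => v (f i)) hs
  have h1 := v.map_sum_eq_of_lt hi fun k hk => by
    obtain ⟨hk1, hk2⟩ := Finset.mem_sdiff.1 hk
    exact lt_of_le_of_ne (hmax k hk1) (hne k hk1 i hi (by simpa using hk2))
  rw [h, map_zero] at h1
  exact hf i hi (v.zero_iff.1 h1.symm)

/-- The Gauss extension, up to an algebraic extension. -/
theorem LD2c_gauss {ι : Type u} [Algebra Ω Ω'] {v : ι → Ω'} (hv : AlgebraicIndependent Ω v)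
    (W₀ : ValuationSubring Ω) :
    ∃ W : ValuationSubring Ω', W.comap (algebraMap Ω Ω') = W₀ ∧ ∀ f : MvPolynomial ι Ω, f ≠ 0 →
      ∃ a : Ω, a ≠ 0 ∧ W.valuation (MvPolynomial.aeval v f) = W.valuation (algebraMap Ω Ω' a) := by
  classical
  let φ : MvPolynomial ι W₀ →+* Ω' :=
    (MvPolynomial.aeval v).toRingHom.comp (MvPolynomial.map W₀.subtype)
  have hφ : Function.Injective φ :=
    fun _ _ hxy => MvPolynomial.map_injective W₀.subtype Subtype.val_injective
      (algebraicIndependent_iff_injective_aeval.1 hv hxy)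
  let r : MvPolynomial ι W₀ →+* MvPolynomial ι (IsLocalRing.ResidueField W₀) :=
    MvPolynomial.map (IsLocalRing.residue W₀)
  let P : Ideal (MvPolynomial ι W₀) := RingHom.ker r
  have : P.IsPrime := RingHom.ker_isPrime r
  have hu : ∀ y : P.primeCompl, IsUnit (φ y) := fun y =>
    IsUnit.mk0 _ fun h => y.2 (by
      have : (y : MvPolynomial ι W₀) = 0 := hφ (h.trans (map_zero φ).symm)
      rw [this]
      exact P.zero_mem)
  obtain ⟨W, hW, hloc⟩ := IsLocalRing.exists_factor_valuationRing (R := Localization.AtPrime P)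
    (K := Ω') (IsLocalization.lift (S := Localization.AtPrime P) hu)
  have hmem : ∀ g, φ g ∈ W := fun g => by
    have := hW (algebraMap _ (Localization.AtPrime P) g)
    rwa [IsLocalization.lift_eq] at this
  have hval : ∀ g, W.valuation (φ g) = 1 ↔ g ∉ P := fun g => by
    have h1 := isUnit_map_iff ((IsLocalization.lift (S := Localization.AtPrime P) hu).codRestrict
      W.toSubring hW) (algebraMap _ (Localization.AtPrime P) g)
    rw [IsLocalization.AtPrime.isUnit_to_map_iff _ P] at h1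
    have h2 := W.valuation_eq_one_iff ⟨φ g, hmem g⟩
    have h3 : ((IsLocalization.lift (S := Localization.AtPrime P) hu).codRestrict
        W.toSubring hW) (algebraMap _ (Localization.AtPrime P) g) = ⟨φ g, hmem g⟩ :=
      Subtype.ext (IsLocalization.lift_eq hu g)
    rw [h3] at h1
    exact h2.symm.trans h1
  have hC : ∀ a : W₀, φ (MvPolynomial.C a) = algebraMap Ω Ω' a := fun a => by simp [φ]
  refine ⟨W, ?_, fun f hf => ?_⟩
  · ext a
    rw [ValuationSubring.mem_comap]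
    refine ⟨fun ha => ?_, fun ha => hC ⟨a, ha⟩ ▸ hmem _⟩
    by_contra hn
    have ha0 : a ≠ 0 := fun h => hn (h ▸ W₀.zero_mem)
    have hi : a⁻¹ ∈ W₀ := (W₀.mem_or_inv_mem a).resolve_left hn
    have h1 : MvPolynomial.C (⟨a⁻¹, hi⟩ : W₀) ∈ P := by
      simp only [P, r, RingHom.mem_ker, MvPolynomial.map_C, MvPolynomial.C_eq_zero,
        IsLocalRing.residue_eq_zero_iff, ValuationSubring.valuation_lt_one_iff]
      exact W₀.mem_nonunits_iff.1 (W₀.inv_mem_nonunits_iff.2 (Or.inr hn))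
    have h2 : W.valuation (φ (MvPolynomial.C (⟨a⁻¹, hi⟩ : W₀))) ≠ 1 := fun h => (hval _).1 h h1
    have h3 := (W.valuation_le_one_iff _).2 (hmem (MvPolynomial.C (⟨a⁻¹, hi⟩ : W₀)))
    rw [hC] at h2 h3
    have h4 := W.mem_nonunits_iff.2 (lt_of_le_of_ne h3 h2)
    rw [map_inv₀, W.inv_mem_nonunits_iff] at h4
    rcases h4 with h4 | h4
    · exact ha0 ((map_eq_zero _).1 h4)
    · exact h4 ha
  · obtain ⟨d, hd, hmax⟩ := f.support.exists_max_image (fun d => W₀.valuation (f.coeff d))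
      (MvPolynomial.support_nonempty.2 hf)
    have ha : f.coeff d ≠ 0 := MvPolynomial.mem_support_iff.1 hd
    have hv0 : 0 < W₀.valuation (f.coeff d) := zero_lt_iff.2 ((Valuation.ne_zero_iff _).2 ha)
    have h1 : ∀ d', (MvPolynomial.C (f.coeff d)⁻¹ * f).coeff d' ∈ W₀ := fun d' => by
      rw [← W₀.valuation_le_one_iff, MvPolynomial.coeff_C_mul, map_mul, map_inv₀,
        inv_mul_le_one₀ hv0]
      by_cases hd' : d' ∈ f.support
      · exact hmax d' hd'
      · rw [MvPolynomial.notMem_support_iff.1 hd', map_zero]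
        exact zero_le
    obtain ⟨g, hg⟩ : MvPolynomial.C (f.coeff d)⁻¹ * f ∈
        Set.range (MvPolynomial.map (σ := ι) W₀.subtype) := by
      rw [MvPolynomial.mem_range_map_iff_coeffs_subset]
      intro c hc
      obtain ⟨d', -, rfl⟩ := MvPolynomial.mem_coeffs_iff.1 hc
      exact ⟨⟨_, h1 d'⟩, rfl⟩
    have h2 : g.coeff d = 1 := by
      have := congrArg (MvPolynomial.coeff d) hg
      rw [MvPolynomial.coeff_map, MvPolynomial.coeff_C_mul, inv_mul_cancel₀ ha] at this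
      exact Subtype.ext this
    have h3 : g ∉ P := fun h => by
      have := congrArg (MvPolynomial.coeff d) (RingHom.mem_ker.1 h)
      simp [r, MvPolynomial.coeff_map, h2] at this
    have h4 := (hval g).2 h3
    have h5 : MvPolynomial.aeval v f = algebraMap Ω Ω' (f.coeff d) * φ g := by
      have : φ g = MvPolynomial.aeval v (MvPolynomial.C (f.coeff d)⁻¹ * f) := by
        rw [← hg]
        rfl
      rw [this, map_mul, MvPolynomial.aeval_C, ← mul_assoc, ← map_mul, mul_inv_cancel₀ ha, map_one,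
        one_mul]
    exact ⟨_, ha, by rw [h5, map_mul, h4, mul_one]⟩

/-- Extension of a commensurable valuation to an arbitrary extension field. -/
theorem exists_comm (j : Ω →+* Ω') (W₀ : ValuationSubring Ω) {t : Ω} (h : Comm W₀ t ⊤) :
    ∃ W : ValuationSubring Ω', W.comap j = W₀ ∧ Comm W (j t) ⊤ := by
  let _ := j.toAlgebra
  obtain ⟨B, hv⟩ := exists_isTranscendenceBasis Ω Ω'
  obtain ⟨W, hW, hG⟩ := LD2c_gauss hv.1 W₀
  change W.comap j = W₀ at hW
  subst hW
  refine ⟨W, rfl, (map_ne_zero j).2 h.1, (LD2c_isEquiv j W).lt_one_iff_lt_one.1 h.2.1, ?_⟩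
  intro z _ hz
  have key : ∃ (n : ℕ) (a : Ω), 0 < n ∧ a ≠ 0 ∧ W.valuation z ^ n = W.valuation (j a) := by
    obtain ⟨q, hq0, hq⟩ := hv.isAlgebraic.isAlgebraic z
    have hc : ∀ i ∈ q.support, ∃ a : Ω, a ≠ 0 ∧
        W.valuation (algebraMap _ Ω' (q.coeff i)) = W.valuation (j a) := by
      intro i hi
      obtain ⟨f, hf⟩ := hv.1.aevalEquiv.surjective (q.coeff i)
      have hf0 : f ≠ 0 := fun h0 => Polynomial.mem_support_iff.1 hi (by rw [← hf, h0, map_zero])
      rw [← hf, hv.1.algebraMap_aevalEquiv]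
      exact hG f hf0
    rw [Polynomial.aeval_def, Polynomial.eval₂_eq_sum, Polynomial.sum_def] at hq
    have hzv : W.valuation z ≠ 0 := (Valuation.ne_zero_iff _).2 hz
    have aux : ∀ i ∈ q.support, ∀ k ∈ q.support, i < k →
        W.valuation (algebraMap _ Ω' (q.coeff i) * z ^ i) =
          W.valuation (algebraMap _ Ω' (q.coeff k) * z ^ k) →
        ∃ (n : ℕ) (a : Ω), 0 < n ∧ a ≠ 0 ∧ W.valuation z ^ n = W.valuation (j a) := by
      intro i hi k hk hik he
      obtain ⟨a, ha, ha'⟩ := hc i hi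
      obtain ⟨b, hb, hb'⟩ := hc k hk
      obtain ⟨n, rfl⟩ := Nat.exists_eq_add_of_lt hik
      have hbv : W.valuation (j b) ≠ 0 := (Valuation.ne_zero_iff _).2 ((map_ne_zero j).2 hb)
      refine ⟨n + 1, a / b, n.succ_pos, div_ne_zero ha hb, ?_⟩
      rw [map_mul, map_mul, ha', hb', map_pow, map_pow, add_assoc, pow_add, ← mul_assoc,
        mul_right_comm] at he
      rw [map_div₀, map_div₀, eq_div_iff hbv, mul_comm]
      exact (mul_right_cancel₀ (pow_ne_zero _ hzv) he).symm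
    obtain ⟨i, hi, k, hk, hik, he⟩ := LD2c_two W.valuation q.support
      (Polynomial.support_nonempty.2 hq0) _ (fun i hi => mul_ne_zero (fun h0 =>
        Polynomial.mem_support_iff.1 hi (Subtype.ext h0)) (pow_ne_zero _ hz)) hq
    rcases lt_or_gt_of_ne hik with hlt | hlt
    · exact aux i hi k hk hlt he
    · exact aux k hk i hi hlt he.symm
  obtain ⟨n, a, hn, ha, he⟩ := key
  obtain ⟨n', m, hn', he'⟩ := h.2.2 a trivial ha
  refine ⟨n * n', m, Nat.mul_pos hn hn', ?_⟩
  rw [pow_mul, he]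
  exact (LD2c_pow_iff j W a t n' m).1 he'

theorem Comm.comap (j : Ω →+* Ω') {W : ValuationSubring Ω'} {t : Ω} (h : Comm W (j t) ⊤) :
    Comm (W.comap j) t ⊤ := by
  refine ⟨(map_ne_zero j).1 h.1, (LD2c_isEquiv j W).lt_one_iff_lt_one.2 h.2.1, fun z _ hz => ?_⟩
  obtain ⟨n, m, hn, he⟩ := h.2.2 (j z) trivial ((map_ne_zero j).2 hz)
  exact ⟨n, m, hn, (LD2c_pow_iff j W z t n m).2 he⟩

end MLF
end

-- merged part: Pool.Agent.Work.MP_29d410_ag.PB
section
/-!
# Basic properties of points: functoriality, congruences, rationality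

Plan.  Everything is proved on coordinate vectors: `exists_rep_one` gives a vector with one
coordinate equal to `1`; two vectors of one point differ by a unit (`rep_uniq`).
-/

open MvPolynomial

namespace MLF

universe u

namespace PG

variable {A B : PG.{u}} {T T' T'' : Type u} [CommRing T] [IsLocalRing T] [CommRing T']
  [IsLocalRing T'] [CommRing T''] [IsLocalRing T''] {k k' : Type u} [Field k] [Field k']

omit [IsLocalRing T] [IsLocalRing T'] [IsLocalRing T''] in
theorem push_trans {φ : T →+* T'} {ψ : T' →+* T''} {s : A.Str T} {s' : A.Str T'} {s'' : A.Str T''}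
    (h : A.push φ s = s') (h' : A.push ψ s' = s'') : A.push (ψ.comp φ) s = s'' := by
  rw [← A.ax.push_comp, h, h']

omit [IsLocalRing T] [IsLocalRing T'] in
theorem prod_push {φ : T →+* T'} {s : A.Str T} {s' : A.Str T'} {t : B.Str T} {t' : B.Str T'}
    (h : A.push φ s = s') (h' : B.push φ t = t') : (A.prod B).push φ (s, t) = (s', t') :=
  Prod.ext h h'

omit [IsLocalRing T] [IsLocalRing T'] in
/-- The structure only depends on finitely many elements. -/
theorem push_congr (s : A.Str T) : ∃ F : Finset T, ∀ {T' : Type u} [CommRing T'] (φ φ' : T →+* T'),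
    (∀ z ∈ F, φ z = φ' z) → A.push φ s = A.push φ' s := by
  obtain ⟨F, hF⟩ := A.ax.fg s
  refine ⟨F, fun φ φ' e => ?_⟩
  obtain ⟨s', rfl⟩ := hF (φ.eqLocus φ') fun z hz => e z hz
  rw [A.ax.push_comp, A.ax.push_comp]
  congr 1
  exact RingHom.ext fun z => z.2

theorem PB_norm {s : A.Str T} {x : A.Pt s} {v : A.σ → T} (hv : A.Rep x v) {i : A.σ}
    (hi : IsUnit (v i)) : ∃ w, A.Rep x w ∧ w i = 1 := by
  obtain ⟨c, hc⟩ := hi
  exact ⟨(↑c⁻¹ : T) • v, A.ax.rep_smul hv c⁻¹.isUnit, by simp [← hc]⟩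

theorem exists_rep_one {s : A.Str T} (x : A.Pt s) : ∃ v i, A.Rep x v ∧ v i = 1 := by
  obtain ⟨v, hv⟩ := A.ax.exists_rep x
  obtain ⟨i, hi⟩ := A.ax.rep_uni hv
  obtain ⟨w, hw, h⟩ := PB_norm hv hi
  exact ⟨w, i, hw, h⟩

theorem PB_eq_of_prop {s : A.Str T} {x y : A.Pt s} {v w : A.σ → T} (hv : A.Rep x v)
    (hw : A.Rep y w) {c : T} (h : ∀ j, w j = c * v j) : x = y := by
  obtain ⟨j, hj⟩ := A.ax.rep_uni hw
  rw [h j] at hj
  have h1 := A.ax.rep_smul hv (isUnit_of_mul_isUnit_left hj)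
  have h2 : c • v = w := funext fun j => (h j).symm
  rw [h2] at h1
  exact A.ax.rep_inj h1 hw

theorem rep_map (φ : T →+* T') {s : A.Str T} {s' : A.Str T'} (h : A.push φ s = s') {x : A.Pt s}
    {v : A.σ → T} (hv : A.Rep x v) : A.Rep (A.map φ h x) (φ ∘ v) := A.ax.rep_map φ h hv

theorem map_eq_of_rep (φ : T →+* T') {s : A.Str T} {s' : A.Str T'} (h : A.push φ s = s')
    {x : A.Pt s} {y : A.Pt s'} {v : A.σ → T} (hv : A.Rep x v) (hy : A.Rep y (φ ∘ v)) :
    A.map φ h x = y := A.ax.rep_inj (rep_map φ h hv) hy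

theorem map_id' {φ : T →+* T} (e : ∀ z, φ z = z) {s : A.Str T} (h : A.push φ s = s) (x : A.Pt s) :
    A.map φ h x = x := by
  obtain ⟨v, hv⟩ := A.ax.exists_rep x
  refine map_eq_of_rep φ h hv ?_
  have : φ ∘ v = v := funext fun i => e _
  rwa [this]

theorem map_map {φ : T →+* T'} {ψ : T' →+* T''} {s : A.Str T} {s' : A.Str T'} {s'' : A.Str T''}
    (h : A.push φ s = s') (h' : A.push ψ s' = s'') (x : A.Pt s) :
    A.map ψ h' (A.map φ h x) = A.map (ψ.comp φ) (push_trans h h') x := by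
  obtain ⟨v, hv⟩ := A.ax.exists_rep x
  exact map_eq_of_rep ψ h' (rep_map φ h hv) (rep_map (ψ.comp φ) _ hv)

theorem map_congr {φ φ' : T →+* T'} (e : φ = φ') {s : A.Str T} {s' : A.Str T'}
    (h : A.push φ s = s') (h' : A.push φ' s = s') (x : A.Pt s) : A.map φ h x = A.map φ' h' x := by
  subst e; rfl

/-- Two homomorphisms which agree on a coordinate vector. -/
theorem map_congr' {φ φ' : T →+* T'} {s : A.Str T} {s' : A.Str T'} (h : A.push φ s = s')
    (h' : A.push φ' s = s') {x : A.Pt s} {v : A.σ → T} (hv : A.Rep x v)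
    (e : ∀ i, φ (v i) = φ' (v i)) : A.map φ h x = A.map φ' h' x := by
  refine map_eq_of_rep φ h hv ?_
  have : φ ∘ v = φ' ∘ v := funext e
  rw [this]
  exact rep_map φ' h' hv

theorem map_inj {φ : T →+* T'} (hφ : Function.Injective φ) {s : A.Str T} {s' : A.Str T'}
    (h : A.push φ s = s') : Function.Injective (A.map φ h) := by
  intro x y e
  obtain ⟨v, i, hv, hi⟩ := exists_rep_one x
  obtain ⟨w, hw⟩ := A.ax.exists_rep y
  have h1 := rep_map φ h hv
  rw [e] at h1
  obtain ⟨c, -, hc⟩ := A.ax.rep_uniq h1 (rep_map φ h hw)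
  have h2 : φ (w i) = c := by simpa [hi] using congrFun hc i
  refine PB_eq_of_prop hv hw (c := w i) fun j => hφ ?_
  rw [map_mul, h2]
  exact congrFun hc j

theorem PB_exists_map_eq {φ : T →+* T'} (hφ : Function.Injective φ) {s : A.Str T} {s' : A.Str T'}
    (h : A.push φ s = s') {y : A.Pt s'} {v : A.σ → T} (hv : Uni v) (hy : A.Rep y (φ ∘ v)) :
    ∃ x, A.Rep x v ∧ A.map φ h x = y := by
  obtain ⟨x, hx⟩ := (A.ax.rep_iff s v).2 ⟨hv, fun i => hφ (by
    have h1 := ((A.ax.rep_iff s' _).1 ⟨y, hy⟩).2 i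
    rw [← h, A.ax.eqn_push, eval_map] at h1
    rw [map_zero, ← h1]
    exact eval₂_comp_left φ (RingHom.id T) v _)⟩
  exact ⟨x, hx, map_eq_of_rep φ h hx hy⟩

theorem map_surj {φ : T →+* T'} (hφ : Function.Bijective φ) {s : A.Str T} {s' : A.Str T'}
    (h : A.push φ s = s') : Function.Surjective (A.map φ h) := by
  intro y
  obtain ⟨w, i, hw, hi⟩ := exists_rep_one y
  choose v hv using fun j => hφ.2 (w j)
  have e : φ ∘ v = w := funext hv
  have h1 : v i = 1 := hφ.1 (by rw [hv, hi, map_one])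
  obtain ⟨x, -, hx⟩ := PB_exists_map_eq hφ.1 h (y := y) (v := v) ⟨i, h1 ▸ isUnit_one⟩ (e ▸ hw)
  exact ⟨x, hx⟩

/-- A unimodular vector whose image is a coordinate vector. -/
theorem exists_map_eq {φ : T →+* T'} (hφ : Function.Injective φ) {s : A.Str T} {s' : A.Str T'}
    (h : A.push φ s = s') {y : A.Pt s'} {v : A.σ → T} (hv : Uni v) (hy : A.Rep y (φ ∘ v)) :
    ∃ x, A.Rep x v ∧ A.map φ h x = y := PB_exists_map_eq hφ h hv hy

theorem van_iff {k : Type u} [CommRing k] {j : k →+* T} {g : MvPolynomial A.σ k} {d : ℕ}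
    (hg : g.IsHomogeneous d) {s : A.Str T} {x : A.Pt s} {v : A.σ → T} (hv : A.Rep x v) :
    van j g x ↔ eval₂ j v g = 0 := by
  refine ⟨fun h => h v hv, fun h w hw => ?_⟩
  obtain ⟨c, -, rfl⟩ := A.ax.rep_uniq hv hw
  rw [← eval_map] at h ⊢
  rw [Prod_hom (hg.map j), h, mul_zero]

section cong

variable {𝔞 : Ideal T} {s s' s'' : A.Str T}

theorem PB_cong_rep {x : A.Pt s} {y : A.Pt s'} (h : Cong 𝔞 x y) {v : A.σ → T}
    (hv : A.Rep x v) : ∃ w, A.Rep y w ∧ ∀ i, v i - w i ∈ 𝔞 := by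
  obtain ⟨v₀, w, hv₀, hw, e⟩ := h
  obtain ⟨c, hc, rfl⟩ := A.ax.rep_uniq hv₀ hv
  refine ⟨c • w, A.ax.rep_smul hw hc, fun i => ?_⟩
  simp only [Pi.smul_apply, smul_eq_mul, ← mul_sub]
  exact 𝔞.mul_mem_left _ (e i)

theorem PB_cong_top (x : A.Pt s) (y : A.Pt s') : Cong ⊤ x y := by
  obtain ⟨v, hv⟩ := A.ax.exists_rep x
  obtain ⟨w, hw⟩ := A.ax.exists_rep y
  exact ⟨v, w, hv, hw, fun _ => trivial⟩

theorem Cong.refl (𝔞 : Ideal T) (x : A.Pt s) : Cong 𝔞 x x := by
  obtain ⟨v, hv⟩ := A.ax.exists_rep x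
  exact ⟨v, v, hv, hv, fun i => by simp⟩
theorem Cong.symm {x : A.Pt s} {y : A.Pt s'} (h : Cong 𝔞 x y) : Cong 𝔞 y x := by
  obtain ⟨v, w, hv, hw, e⟩ := h
  exact ⟨w, v, hw, hv, fun i => by simpa using 𝔞.neg_mem (e i)⟩
theorem Cong.trans {x : A.Pt s} {y : A.Pt s'} {z : A.Pt s''} (h : Cong 𝔞 x y) (h' : Cong 𝔞 y z) :
    Cong 𝔞 x z := by
  obtain ⟨v, w, hv, hw, e⟩ := h
  obtain ⟨w', hw', e'⟩ := PB_cong_rep h' hw
  exact ⟨v, w', hv, hw', fun i => by simpa using 𝔞.add_mem (e i) (e' i)⟩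
theorem Cong.mono {𝔟 : Ideal T} {x : A.Pt s} {y : A.Pt s'} (h : Cong 𝔞 x y) (h' : 𝔞 ≤ 𝔟) :
    Cong 𝔟 x y := by
  obtain ⟨v, w, hv, hw, e⟩ := h
  exact ⟨v, w, hv, hw, fun i => h' (e i)⟩
theorem Cong.exists_rep {x : A.Pt s} {y : A.Pt s'} (h : Cong 𝔞 x y) {v : A.σ → T}
    (hv : A.Rep x v) : ∃ w, A.Rep y w ∧ ∀ i, v i - w i ∈ 𝔞 := PB_cong_rep h hv
theorem cong_bot {x y : A.Pt s} : Cong ⊥ x y ↔ x = y := by
  refine ⟨?_, fun h => h ▸ Cong.refl _ _⟩
  rintro ⟨v, w, hv, hw, e⟩
  have : v = w := funext fun i => sub_eq_zero.1 (Ideal.mem_bot.1 (e i))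
  exact A.ax.rep_inj hv (this ▸ hw)

theorem Cong.map {x : A.Pt s} {y : A.Pt s'} (hxy : Cong 𝔞 x y) (φ : T →+* T') {t t' : A.Str T'}
    (h : A.push φ s = t) (h' : A.push φ s' = t') {𝔞' : Ideal T'} (h𝔞 : ∀ z ∈ 𝔞, φ z ∈ 𝔞') :
    Cong 𝔞' (A.map φ h x) (A.map φ h' y) := by
  obtain ⟨v, w, hv, hw, e⟩ := hxy
  refine ⟨_, _, rep_map φ h hv, rep_map φ h' hw, fun i => ?_⟩
  simpa using h𝔞 _ (e i)

theorem Cong.of_map {x : A.Pt s} {y : A.Pt s'} (φ : T →+* T') [IsLocalHom φ] {t t' : A.Str T'}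
    (h : A.push φ s = t) (h' : A.push φ s' = t') {𝔞' : Ideal T'}
    (hxy : Cong 𝔞' (A.map φ h x) (A.map φ h' y)) : Cong (𝔞'.comap φ) x y := by
  by_cases ht : 𝔞' = ⊤
  · rw [ht, Ideal.comap_top]
    exact PB_cong_top x y
  obtain ⟨v, i, hv, hi⟩ := exists_rep_one x
  obtain ⟨w₀, hw₀⟩ := A.ax.exists_rep y
  obtain ⟨w', hw', e⟩ := PB_cong_rep hxy (rep_map φ h hv)
  have h1 : IsUnit (w' i) := Prod_unit ht (by simp [hi]) (e i)
  have h2 : IsUnit (w₀ i) := by
    obtain ⟨c, -, rfl⟩ := A.ax.rep_uniq (rep_map φ h' hw₀) hw'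
    exact isUnit_of_map_unit φ _ (isUnit_of_mul_isUnit_right h1)
  obtain ⟨w, hw, hwi⟩ := PB_norm hw₀ h2
  obtain ⟨c, -, rfl⟩ := A.ax.rep_uniq (rep_map φ h' hw) hw'
  refine ⟨v, w, hv, hw, fun j => ?_⟩
  have h3 : 1 - c ∈ 𝔞' := by simpa [hi, hwi] using e i
  have h4 : φ (v j) - c * φ (w j) ∈ 𝔞' := e j
  have h5 : φ (v j - w j) = (φ (v j) - c * φ (w j)) - φ (w j) * (1 - c) := by
    rw [map_sub]; ring
  rw [Ideal.mem_comap, h5]
  exact 𝔞'.sub_mem h4 (𝔞'.mul_mem_left _ h3)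

theorem cong_ker_iff {x : A.Pt s} {y : A.Pt s'} (π : T →+* T') [IsLocalHom π] {t : A.Str T'}
    (h : A.push π s = t) (h' : A.push π s' = t) :
    Cong (RingHom.ker π) x y ↔ A.map π h x = A.map π h' y :=
  ⟨fun e => cong_bot.1 (e.map π h h' fun _ hz => hz), fun e => Cong.of_map π h h' (cong_bot.2 e)⟩

/-- The images under two homomorphisms which are congruent on a coordinate vector. -/
theorem cong_map_map {φ φ' : T →+* T'} {t t' : A.Str T'} (h : A.push φ s = t)
    (h' : A.push φ' s = t') {x : A.Pt s} {v : A.σ → T} (hv : A.Rep x v) {𝔞' : Ideal T'}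
    (e : ∀ i, φ (v i) - φ' (v i) ∈ 𝔞') : Cong 𝔞' (A.map φ h x) (A.map φ' h' x) :=
  ⟨_, _, rep_map φ h hv, rep_map φ' h' hv, e⟩

theorem PB_quot (hs : A.push (Ideal.Quotient.mk 𝔞) s = A.push (Ideal.Quotient.mk 𝔞) s') :
    ∃ (G : Type u) (_ : AddCommGroup G) (f : A.Pt s →+ G) (g : A.Pt s' →+ G),
      ∀ x y, Cong 𝔞 x y ↔ f x = g y := by
  by_cases ht : 𝔞 = ⊤
  · exact ⟨PUnit, inferInstance, 0, 0, fun x y => ⟨fun _ => rfl, fun _ => ht ▸ PB_cong_top x y⟩⟩
  have : Nontrivial (T ⧸ 𝔞) := Ideal.Quotient.nontrivial_iff.2 ht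
  have : IsLocalRing (T ⧸ 𝔞) :=
    IsLocalRing.of_surjective' (Ideal.Quotient.mk 𝔞) Ideal.Quotient.mk_surjective
  have : IsLocalHom (Ideal.Quotient.mk 𝔞) :=
    IsLocalHom.of_surjective _ Ideal.Quotient.mk_surjective
  refine ⟨_, inferInstance, A.map _ hs, A.map _ rfl, fun x y => ?_⟩
  rw [← cong_ker_iff, Ideal.mk_ker]

/-- Congruences can be added when the structures are congruent. -/
theorem Cong.add (hs : A.push (Ideal.Quotient.mk 𝔞) s = A.push (Ideal.Quotient.mk 𝔞) s')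
    {x x' : A.Pt s} {y y' : A.Pt s'} (h : Cong 𝔞 x y) (h' : Cong 𝔞 x' y') :
    Cong 𝔞 (x + x') (y + y') := by
  obtain ⟨G, _, f, g, e⟩ := PB_quot hs
  rw [e] at h h' ⊢
  rw [map_add, map_add, h, h']
theorem Cong.neg (hs : A.push (Ideal.Quotient.mk 𝔞) s = A.push (Ideal.Quotient.mk 𝔞) s')
    {x : A.Pt s} {y : A.Pt s'} (h : Cong 𝔞 x y) : Cong 𝔞 (-x) (-y) := by
  obtain ⟨G, _, f, g, e⟩ := PB_quot hs
  rw [e] at h ⊢
  rw [map_neg, map_neg, h]
theorem cong_zero (hs : A.push (Ideal.Quotient.mk 𝔞) s = A.push (Ideal.Quotient.mk 𝔞) s') :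
    Cong 𝔞 (0 : A.Pt s) (0 : A.Pt s') := by
  obtain ⟨G, _, f, g, e⟩ := PB_quot hs
  rw [e, map_zero, map_zero]
theorem cong_iff_sub {x y : A.Pt s} : Cong 𝔞 x y ↔ Cong 𝔞 (x - y) (0 : A.Pt s) := by
  constructor
  · intro h
    simpa [sub_eq_add_neg] using Cong.add rfl h (Cong.refl 𝔞 (-y))
  · intro h
    simpa using Cong.add rfl h (Cong.refl 𝔞 y)

theorem eq_of_cong_pow [IsHausdorff 𝔞 T] {x y : A.Pt s} (h : ∀ n, Cong (𝔞 ^ n) x y) : x = y := by
  obtain ⟨v, i, hv, hi⟩ := exists_rep_one x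
  obtain ⟨w, hw⟩ := A.ax.exists_rep y
  refine PB_eq_of_prop hv hw (c := w i) fun j => sub_eq_zero.1 ?_
  refine IsHausdorff.haus (I := 𝔞) inferInstance _ fun n => ?_
  rw [SModEq.zero, smul_eq_mul, Ideal.mul_top]
  obtain ⟨w', hw', e⟩ := PB_cong_rep (h n) hv
  obtain ⟨c, hc, rfl⟩ := A.ax.rep_uniq hw hw'
  rw [← Ideal.unit_mul_mem_iff_mem _ hc]
  have h1 : 1 - c * w i ∈ 𝔞 ^ n := by simpa [hi] using e i
  have h2 : v j - c * w j ∈ 𝔞 ^ n := e j
  have h3 : c * (w j - w i * v j) = v j * (1 - c * w i) - (v j - c * w j) := by ring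
  rw [h3]
  exact Ideal.sub_mem _ (Ideal.mul_mem_left _ _ h1) h2

/-- The points congruent to the origin. -/
def K1 (𝔞 : Ideal T) (s : A.Str T) : AddSubgroup (A.Pt s) where
  carrier := {x | Cong 𝔞 x (0 : A.Pt s)}
  zero_mem' := Cong.refl _ _
  add_mem' hx hy := by simpa using Cong.add rfl hx hy
  neg_mem' hx := by simpa using Cong.neg rfl hx

theorem mem_K1 {x : A.Pt s} : x ∈ K1 𝔞 s ↔ Cong 𝔞 x (0 : A.Pt s) := Iff.rfl

end cong

section rat

variable {E E' : Subfield k} {s : A.Str k}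

theorem PB_rat_eq {x : A.Pt s} {v : A.σ → k} (hv : A.Rep x v) :
    rat x = Set.range fun i : A.σ × A.σ => v i.1 / v i.2 := by
  ext z
  constructor
  · rintro ⟨w, i, i', hw, rfl⟩
    obtain ⟨c, hc, rfl⟩ := A.ax.rep_uniq hv hw
    exact ⟨(i, i'), (mul_div_mul_left _ _ hc.ne_zero).symm⟩
  · rintro ⟨i, rfl⟩
    exact ⟨v, i.1, i.2, hv, rfl⟩

theorem PB_mem_rat {x : A.Pt s} {v : A.σ → k} {i : A.σ} (hv : A.Rep x v) (hi : v i = 1)
    (j : A.σ) : v j ∈ rat x := ⟨v, j, i, hv, by rw [hi, div_one]⟩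

theorem PB_rat_of {x : A.Pt s} {v : A.σ → k} (hv : A.Rep x v) (h : ∀ i, v i ∈ E) : Rat E x := by
  intro z hz
  rw [PB_rat_eq hv] at hz
  obtain ⟨i, rfl⟩ := hz
  exact E.div_mem (h _) (h _)

theorem rat_finite (x : A.Pt s) : (rat x).Finite := by
  obtain ⟨v, hv⟩ := A.ax.exists_rep x
  rw [PB_rat_eq hv]
  exact Set.finite_range _
theorem rat_iff {x : A.Pt s} : Rat E x ↔ ∃ v, A.Rep x v ∧ ∀ i, v i ∈ E := by
  refine ⟨fun h => ?_, fun ⟨v, hv, h⟩ => PB_rat_of hv h⟩
  obtain ⟨v, i, hv, hi⟩ := exists_rep_one x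
  exact ⟨v, hv, fun j => h (PB_mem_rat hv hi j)⟩
theorem rat_iff_of_rep {x : A.Pt s} {v : A.σ → k} {i : A.σ} (hv : A.Rep x v) (hi : v i = 1) :
    Rat E x ↔ ∀ i, v i ∈ E :=
  ⟨fun h j => h (PB_mem_rat hv hi j), PB_rat_of hv⟩
theorem Rat.mono {x : A.Pt s} (h : Rat E x) (h' : E ≤ E') : Rat E' x := fun _ hz => h' (h hz)
theorem rat_top (x : A.Pt s) : Rat ⊤ x := fun _ _ => trivial
theorem rat_adj (E : Subfield k) (x : A.Pt s) : Rat (adj E (rat x)) x := subset_adj E _
theorem rat_inf {x : A.Pt s} : Rat (E ⊓ E') x ↔ Rat E x ∧ Rat E' x :=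
  ⟨fun h => ⟨h.mono inf_le_left, h.mono inf_le_right⟩, fun h _ hz => ⟨h.1 hz, h.2 hz⟩⟩
theorem rat_map (j : k →+* k') {s' : A.Str k'} (h : A.push j s = s') (x : A.Pt s) :
    rat (A.map j h x) = j '' rat x := by
  obtain ⟨v, hv⟩ := A.ax.exists_rep x
  rw [PB_rat_eq hv, PB_rat_eq (rep_map j h hv), ← Set.range_comp]
  congr 1
  funext i
  simp
theorem rat_map_iff (j : k →+* k') {s' : A.Str k'} (h : A.push j s = s') {x : A.Pt s}
    {F : Subfield k'} : Rat F (A.map j h x) ↔ Rat (F.comap j) x := by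
  unfold Rat
  rw [rat_map, Set.image_subset_iff]
  rfl
theorem Rat.map (j : k →+* k') {s' : A.Str k'} (h : A.push j s = s') {x : A.Pt s} (hx : Rat E x) :
    Rat (E.map j) (A.map j h x) :=
  (rat_map_iff j h).2 fun z hz => ⟨z, hx hz, rfl⟩
theorem rat_range_iff (j : k →+* k') {s' : A.Str k'} (h : A.push j s = s') {y : A.Pt s'} :
    Rat j.fieldRange y ↔ ∃ x, A.map j h x = y := by
  constructor
  · intro hy
    obtain ⟨w, i, hw, hi⟩ := exists_rep_one y
    choose v hv using fun a => RingHom.mem_fieldRange.1 ((rat_iff_of_rep hw hi).1 hy a)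
    have e : j ∘ v = w := funext hv
    have h1 : v i = 1 := j.injective (by rw [hv, hi, map_one])
    obtain ⟨x, -, hx⟩ :=
      exists_map_eq j.injective h (y := y) (v := v) ⟨i, h1 ▸ isUnit_one⟩ (e ▸ hw)
    exact ⟨x, hx⟩
  · rintro ⟨x, rfl⟩
    exact (rat_map_iff j h).2 fun z _ => ⟨z, rfl⟩
theorem rat_subtype_iff {s₀ : A.Str E} (h : A.push E.subtype s₀ = s) {y : A.Pt s} :
    Rat E y ↔ ∃ x, A.map E.subtype h x = y := by
  rw [← rat_range_iff, Subfield.fieldRange_subtype]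
/-- A point is fixed by two embeddings iff its ratios are. -/
theorem map_eq_map_iff {j j' : k →+* T} {s' : A.Str T} (h : A.push j s = s')
    (h' : A.push j' s = s') {x : A.Pt s} :
    A.map j h x = A.map j' h' x ↔ ∀ z ∈ rat x, j z = j' z := by
  obtain ⟨v, i, hv, hi⟩ := exists_rep_one x
  refine ⟨fun e z hz => ?_, fun e => map_congr' h h' hv fun a => e _ (PB_mem_rat hv hi a)⟩
  have h1 := rep_map j h hv
  rw [e] at h1
  obtain ⟨c, -, hc⟩ := A.ax.rep_uniq (rep_map j' h' hv) h1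
  have h2 : c = 1 := by simpa [hi] using (congrFun hc i).symm
  have h3 : ∀ a, j (v a) = j' (v a) := fun a => by simpa [h2] using congrFun hc a
  rw [PB_rat_eq hv] at hz
  obtain ⟨a, rfl⟩ := hz
  simp only [div_eq_mul_inv, map_mul, h3, eq_on_inv₀ j j' (h3 a.2)]
theorem adj_rat_prod {t : B.Str k} (E : Subfield k) (x : A.Pt s) (y : B.Pt t) :
    adj E (rat (A := A.prod B) (s := (s, t)) (x, y)) = adj E (rat x ∪ rat y) := by
  refine le_antisymm (adj_le.2 ⟨le_adj _ _, ?_⟩) (adj_le.2 ⟨le_adj _ _, ?_⟩)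
  · exact (prod_rat (A := A) (B := B) (s := (s, t)) _ (x, y)).2
      ⟨fun z hz => subset_adj E _ (Or.inl hz), fun z hz => subset_adj E _ (Or.inr hz)⟩
  · have := (prod_rat (A := A) (B := B) (s := (s, t)) _ (x, y)).1 (rat_adj E _)
    exact Set.union_subset this.1 this.2

theorem Def.mono (h : A.Def E s) (h' : E ≤ E') : A.Def E' s := by
  obtain ⟨s', rfl⟩ := h
  exact ⟨A.push (Subfield.inclusion h') s', A.ax.push_comp _ _ _⟩
theorem def_range (j : k →+* k') (s : A.Str k) {s' : A.Str k'} (h : A.push j s = s')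
    {F : Subfield k'} (hF : j.fieldRange ≤ F) : A.Def F s' :=
  ⟨A.push (j.codRestrict F fun z => hF ⟨z, rfl⟩) s, (A.ax.push_comp _ _ _).trans h⟩
theorem Def.map (h : A.Def E s) (j : k →+* k') {s' : A.Str k'} (h' : A.push j s = s') :
    A.Def (E.map j) s' := by
  obtain ⟨s₀, h₀⟩ := h
  refine def_range (j.comp E.subtype) s₀ (push_trans h₀ h') ?_
  rintro _ ⟨z, rfl⟩
  exact ⟨z, z.2, rfl⟩
theorem exists_def (s : A.Str k) : ∃ F : Finset k, ∀ E : Subfield k, (F : Set k) ⊆ E → A.Def E s := by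
  obtain ⟨F, hF⟩ := A.ax.fg s
  refine ⟨F, fun E hE => ?_⟩
  obtain ⟨s', rfl⟩ := hF E.toSubring hE
  exact ⟨A.push (E.toSubring.subtype.codRestrict E fun z => z.2) s', A.ax.push_comp _ _ _⟩
/-- Homomorphisms which agree on a field of definition give the same structure. -/
theorem Def.push_eq {T : Type u} [CommRing T] (h : A.Def E s) {φ φ' : k →+* T}
    (e : ∀ z ∈ E, φ z = φ' z) : A.push φ s = A.push φ' s := by
  obtain ⟨s', rfl⟩ := h
  rw [A.ax.push_comp, A.ax.push_comp]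
  congr 1
  exact RingHom.ext fun z => e z z.2

theorem Rat.add (h : A.Def E s) {x y : A.Pt s} (hx : Rat E x) (hy : Rat E y) : Rat E (x + y) := by
  obtain ⟨s', h⟩ := h
  obtain ⟨x', rfl⟩ := (rat_subtype_iff h).1 hx
  obtain ⟨y', rfl⟩ := (rat_subtype_iff h).1 hy
  exact (rat_subtype_iff h).2 ⟨x' + y', map_add _ _ _⟩
theorem Rat.neg (h : A.Def E s) {x : A.Pt s} (hx : Rat E x) : Rat E (-x) := by
  obtain ⟨s', h⟩ := h
  obtain ⟨x', rfl⟩ := (rat_subtype_iff h).1 hx
  exact (rat_subtype_iff h).2 ⟨-x', map_neg _ _⟩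
theorem Rat.zero (h : A.Def E s) : Rat E (0 : A.Pt s) := by
  obtain ⟨s', h⟩ := h
  exact (rat_subtype_iff h).2 ⟨0, map_zero _⟩

/-- The subgroup of rational points. -/
def RatS (h : A.Def E s) : AddSubgroup (A.Pt s) where
  carrier := {x | Rat E x}
  zero_mem' := Rat.zero h
  add_mem' := Rat.add h
  neg_mem' := Rat.neg h

theorem mem_RatS (h : A.Def E s) {x : A.Pt s} : x ∈ RatS h ↔ Rat E x := Iff.rfl

/-- A point fixed by all automorphisms over a perfect subfield is rational over it. -/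
theorem rat_of_fixed [IsAlgClosed k] (p : ℕ) [ExpChar k p] {x : A.Pt s} (hs : A.Def E s)
    (h : ∀ (τ : k ≃+* k) (_ : ∀ c ∈ E, τ c = c) (h : A.push (τ : k →+* k) s = s),
      A.map (τ : k →+* k) h x = x) : ∃ m, Rat (root p m E) x := by
  have h1 : ∀ z ∈ rat x, ∃ m, z ∈ root p m E := fun z hz => fixed_pow_mem p fun τ hτ => by
    have h2 : A.push (τ : k →+* k) s = s :=
      (hs.push_eq (φ' := RingHom.id k) hτ).trans (A.ax.push_id s)
    exact (map_eq_map_iff h2 (A.ax.push_id s)).1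
      ((h τ hτ h2).trans (map_id' (fun _ => rfl) _ x).symm) z hz
  choose! m hm using h1
  obtain ⟨M, hM⟩ := ((rat_finite x).image m).bddAbove
  exact ⟨M, fun z hz => root_mono p (hM ⟨z, hz, rfl⟩) le_rfl (hm z hz)⟩

end rat

end PG

end MLF
end

-- merged part: Pool.Agent.Work.MP_29d410_ag.Geo2A
section
/-!
# Algebraic lemmas for places, conjugation and extension of the ground field
-/

open MvPolynomial

namespace MLF

universe u

section poly

variable {σ : Type} {k k' : Type u}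

/-- Homogenisation with respect to a coordinate which equals one. -/
theorem Geo2A_homog [CommRing k] (f : MvPolynomial σ k) (i : σ) :
    ∃ (g : MvPolynomial σ k) (d : ℕ), g.IsHomogeneous d ∧
      ∀ {R : Type u} [CommRing R] (j : k →+* R) (v : σ → R), v i = 1 →
        eval₂ j v g = eval₂ j v f := by
  refine ⟨∑ n ∈ Finset.range (f.totalDegree + 1),
    X i ^ (f.totalDegree - n) * homogeneousComponent n f, f.totalDegree, ?_, ?_⟩
  · refine IsHomogeneous.sum _ _ _ fun n hn => ?_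
    have h := (isHomogeneous_X_pow (R := k) i (f.totalDegree - n)).mul
      (homogeneousComponent_isHomogeneous n f)
    rwa [Nat.sub_add_cancel (Nat.lt_succ_iff.1 (Finset.mem_range.1 hn))] at h
  · intro R _ j v hv
    conv_rhs => rw [← sum_homogeneousComponent f]
    simp only [eval₂_sum, eval₂_mul, eval₂_pow, eval₂_X, hv, one_pow, one_mul]

/-- A polynomial over an extension field is a combination of polynomials over the ground field
with independent coefficients. -/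
theorem Geo2A_decomp [Field k] [Field k'] (j : k →+* k') (g : MvPolynomial σ k') :
    ∃ (n : ℕ) (c : Fin n → k') (f : Fin n → MvPolynomial σ k),
      (∀ b : Fin n → k, ∑ i, c i * j (b i) = 0 → ∀ i, b i = 0) ∧
      g = ∑ i, C (c i) * map j (f i) ∧ ∀ i d, g.IsHomogeneous d → (f i).IsHomogeneous d := by
  classical
  let := j.toAlgebra
  let V := Submodule.span k (g.coeffs : Set k')
  have : Module.Finite k V := Module.Finite.span_of_finite k g.coeffs.finite_toSet
  let B := Module.finBasis k V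
  have hm : ∀ d, coeff d g ∈ V := fun d => by
    by_cases h : coeff d g = 0
    · rw [h]; exact V.zero_mem
    · exact Submodule.subset_span (coeff_mem_coeffs d h)
  have hc : ∀ i d, coeff d (∑ e ∈ g.support, monomial e (B.repr ⟨coeff e g, hm e⟩ i)) =
      B.repr ⟨coeff d g, hm d⟩ i := by
    intro i d
    simp only [coeff_sum, coeff_monomial, Finset.sum_ite_eq']
    split_ifs with h
    · rfl
    · have : (⟨coeff d g, hm d⟩ : V) = 0 := Subtype.ext (notMem_support_iff.1 h)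
      rw [this, map_zero]
      rfl
  refine ⟨_, fun i => (B i : k'),
    fun i => ∑ e ∈ g.support, monomial e (B.repr ⟨coeff e g, hm e⟩ i), ?_, ?_, ?_⟩
  · intro b hb
    refine Fintype.linearIndependent_iff.1 B.linearIndependent b (Subtype.ext ?_)
    rw [Submodule.coe_sum, Submodule.coe_zero, ← hb]
    refine Finset.sum_congr rfl fun i _ => ?_
    rw [Submodule.coe_smul, Algebra.smul_def, mul_comm]
    rfl
  · ext d
    have h := congrArg Subtype.val (B.sum_repr ⟨coeff d g, hm d⟩)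
    rw [Submodule.coe_sum] at h
    rw [coeff_sum]
    refine h.symm.trans (Finset.sum_congr rfl fun i _ => ?_)
    rw [coeff_C_mul, coeff_map, hc, Submodule.coe_smul, Algebra.smul_def, mul_comm]
    rfl
  · intro i d hd e he
    refine hd fun h => he ?_
    have : (⟨coeff e g, hm e⟩ : V) = 0 := Subtype.ext h
    rw [hc, this, map_zero]
    rfl

theorem Geo2A_congr [CommRing k] {R : Type u} [CommRing R] {φ φ' : k →+* R} (v : σ → R)
    {g : MvPolynomial σ k} (h : ∀ c ∈ g.coeffs, φ c = φ' c) : eval₂ φ v g = eval₂ φ' v g := by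
  rw [eval₂_eq, eval₂_eq]
  refine Finset.sum_congr rfl fun d hd => ?_
  rw [h _ (coeff_mem_coeffs d (mem_support_iff.1 hd))]

end poly

section fields

variable {σ : Type} {k T T' : Type u} [Field k] [Field T] [Field T']

/-- Two vectors with the same relations generate isomorphic rings. -/
theorem Geo2A_common [Finite σ] (j : k →+* T) (j' : k →+* T') (v : σ → T) (v' : σ → T')
    (h : ∀ f, eval₂ j v f = 0 ↔ eval₂ j' v' f = 0) :
    ∃ (Q : Type u) (_ : CommRing Q) (_ : IsDomain Q) (_ : Algebra k Q)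
      (_ : Algebra.FiniteType k Q) (a : Q →+* T) (b : Q →+* T') (w : σ → Q),
      Function.Injective a ∧ Function.Injective b ∧ a.comp (algebraMap k Q) = j ∧
      b.comp (algebraMap k Q) = j' ∧ a ∘ w = v ∧ b ∘ w = v' := by
  have hk : RingHom.ker (eval₂Hom j' v') = RingHom.ker (eval₂Hom j v) := by
    ext f
    exact (h f).symm
  have := RingHom.ker_isPrime (eval₂Hom j v)
  refine ⟨MvPolynomial σ k ⧸ RingHom.ker (eval₂Hom j v), inferInstance, inferInstance,
    inferInstance, inferInstance, RingHom.kerLift (eval₂Hom j v),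
    Ideal.Quotient.lift _ (eval₂Hom j' v') fun f hf => (h f).1 hf,
    fun i => Ideal.Quotient.mk _ (X i), RingHom.kerLift_injective _,
    (Ideal.injective_lift_iff _).2 hk, ?_, ?_, ?_, ?_⟩
  · ext c
    exact (RingHom.kerLift_mk _ (C c)).trans (eval₂Hom_C _ _ _)
  · ext c
    exact eval₂Hom_C j' v' c
  · funext i
    exact (RingHom.kerLift_mk _ (X i)).trans (eval₂Hom_X' _ _ _)
  · funext i
    exact eval₂Hom_X' j' v' i

/-- Two vectors with the same relations generate isomorphic fields. -/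
theorem Geo2A_common' [Finite σ] (j : k →+* T) (j' : k →+* T') (v : σ → T) (v' : σ → T')
    (h : ∀ f, eval₂ j v f = 0 ↔ eval₂ j' v' f = 0) :
    ∃ (K : Type u) (_ : Field K) (i : k →+* K) (a : K →+* T) (b : K →+* T') (w : σ → K),
      a.comp i = j ∧ b.comp i = j' ∧ a ∘ w = v ∧ b ∘ w = v' := by
  obtain ⟨Q, _, _, _, _, a, b, w, ha, hb, h1, h2, h3, h4⟩ := Geo2A_common j j' v v' h
  refine ⟨FractionRing Q, inferInstance, (algebraMap Q _).comp (algebraMap k Q),
    IsFractionRing.lift ha, IsFractionRing.lift hb, algebraMap Q _ ∘ w, ?_, ?_, ?_, ?_⟩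
  · ext c
    rw [← h1]
    exact IsFractionRing.lift_algebraMap ha _
  · ext c
    rw [← h2]
    exact IsFractionRing.lift_algebraMap hb _
  · funext i
    rw [← h3]
    exact IsFractionRing.lift_algebraMap ha _
  · funext i
    rw [← h4]
    exact IsFractionRing.lift_algebraMap hb _

/-- Two extensions of a field embed into a common one. -/
theorem Geo2A_amalg (a : k →+* T) (b : k →+* T') :
    ∃ (E : Type u) (_ : Field E) (_ : IsAlgClosed E) (ψ : T →+* E) (ψ' : T' →+* E),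
      ψ.comp a = ψ'.comp b := by
  let := a.toAlgebra
  let := b.toAlgebra
  obtain ⟨m, hm⟩ := Ideal.exists_maximal (TensorProduct k T T')
  let := Ideal.Quotient.field m
  let π : TensorProduct k T T' →+* AlgebraicClosure (TensorProduct k T T' ⧸ m) :=
    (algebraMap _ _).comp (Ideal.Quotient.mk m)
  refine ⟨AlgebraicClosure (TensorProduct k T T' ⧸ m), inferInstance, inferInstance,
    π.comp Algebra.TensorProduct.includeLeftRingHom,
    π.comp (Algebra.TensorProduct.includeRight (R := k) (A := T) (B := T')).toRingHom, ?_⟩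
  exact congrArg π.comp
    (Algebra.TensorProduct.includeLeftRingHom_comp_algebraMap (R := k) (A := T) (B := T'))

/-- An embedding extends to an algebraic extension. -/
theorem Geo2A_emb [IsAlgClosed T'] (a : k →+* T) (b : k →+* T') (h : acl a.fieldRange = ⊤) :
    ∃ ψ : T →+* T', ψ.comp a = b := by
  obtain ⟨θ, hθ⟩ := LD1c_ext (F := a.fieldRange)
    (b.comp (a.rangeRestrictFieldEquiv.symm : a.fieldRange →+* k))
  refine ⟨θ.comp ((RingHom.id T).codRestrict (acl a.fieldRange) fun z => h ▸ trivial), ?_⟩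
  ext c
  have := hθ (a.rangeRestrictFieldEquiv c)
  simp only [RingHom.coe_comp, RingHom.coe_coe, Function.comp_apply,
    RingEquiv.symm_apply_apply] at this
  exact this

theorem Geo2A_iso {Q L L' : Type u} [CommRing Q] [Field L] [Field L'] [IsAlgClosed L]
    [IsAlgClosed L'] [Algebra Q L] [Algebra Q L'] [FaithfulSMul Q L] [FaithfulSMul Q L']
    (h : Algebra.trdeg Q L = Algebra.trdeg Q L') :
    ∃ τ : L ≃+* L', ∀ c, τ (algebraMap Q L c) = algebraMap Q L' c := by
  have := RingHom.domain_nontrivial (algebraMap Q L)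
  obtain ⟨ι, v, hv⟩ := exists_isTranscendenceBasis' Q L
  obtain ⟨κ, w, hw⟩ := exists_isTranscendenceBasis' Q L'
  obtain ⟨ε⟩ : Nonempty (ι ≃ κ) := by
    rw [← Cardinal.eq, hv.cardinalMk_eq_trdeg, hw.cardinalMk_eq_trdeg, h]
  have := IsAlgClosed.isAlgClosure_of_transcendence_basis v hv
  have := IsAlgClosed.isAlgClosure_of_transcendence_basis w hw
  let e := hv.1.aevalEquiv.symm.trans ((renameEquiv Q ε).trans hw.1.aevalEquiv)
  refine ⟨IsAlgClosure.equivOfEquiv L L' e.toRingEquiv, fun c => ?_⟩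
  rw [IsScalarTower.algebraMap_apply Q (Algebra.adjoin Q (Set.range v)) L,
    IsAlgClosure.equivOfEquiv_algebraMap,
    IsScalarTower.algebraMap_apply Q (Algebra.adjoin Q (Set.range w)) L']
  exact congrArg _ (e.commutes c)

/-- Two embeddings of a finitely generated domain are conjugate. -/
theorem Geo2A_aut {Q : Type u} [CommRing Q] [IsDomain Q] [Algebra k Q] [Algebra.FiniteType k Q]
    [IsAlgClosed T] (a b : Q →+* T) (ha : Function.Injective a) (hb : Function.Injective b)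
    (h : a.comp (algebraMap k Q) = b.comp (algebraMap k Q)) :
    ∃ τ : T ≃+* T, ∀ c, τ (a c) = b c := by
  let : Algebra k T := (a.comp (algebraMap k Q)).toAlgebra
  have key : ∀ φ : Q →+* T, Function.Injective φ →
      a.comp (algebraMap k Q) = φ.comp (algebraMap k Q) →
      Algebra.trdeg k Q + @Algebra.trdeg Q T _ _ φ.toAlgebra = Algebra.trdeg k T := by
    intro φ hφ e
    let := φ.toAlgebra
    have : IsScalarTower k Q T := IsScalarTower.of_algebraMap_eq' e
    have : FaithfulSMul Q T := (faithfulSMul_iff_algebraMap_injective _ _).2 hφ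
    exact trdeg_add_eq k Q
  have h1 := Cardinal.eq_of_add_eq_add_left ((key a ha rfl).trans (key b hb h).symm)
    trdeg_lt_aleph0_of_finiteType
  exact @Geo2A_iso Q T T _ _ _ _ _ a.toAlgebra b.toAlgebra
    ((@faithfulSMul_iff_algebraMap_injective _ _ _ _ a.toAlgebra).2 ha)
    ((@faithfulSMul_iff_algebraMap_injective _ _ _ _ b.toAlgebra).2 hb) h1

/-- A specialisation of vectors extends to a place. -/
theorem Geo2A_place [IsAlgClosed T'] (j : k →+* T) (j' : k →+* T') (v : σ → T) (v' : σ → T')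
    (h : ∀ f, eval₂ j v f = 0 → eval₂ j' v' f = 0) :
    ∃ (W : ValuationSubring T) (r : W →+* T'), (∀ c, ∃ hm : j c ∈ W, r ⟨_, hm⟩ = j' c) ∧
      (∀ i, ∃ hm : v i ∈ W, r ⟨_, hm⟩ = v' i) ∧
      ∀ z : W, r z = 0 ↔ W.valuation (z : T) < 1 := by
  let α := eval₂Hom j v
  let ρ : α.range →+* T' := α.rangeRestrict.liftOfSurjective α.rangeRestrict_surjective
    ⟨eval₂Hom j' v', fun f hf => h f (congrArg Subtype.val hf)⟩
  have hρ : ∀ f, ρ (α.rangeRestrict f) = eval₂Hom j' v' f := fun f =>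
    RingHom.liftOfSurjective_comp_apply _ _ _ f
  obtain ⟨W, hW, r, h1, h2⟩ := exists_place α.range ρ
  have key : ∀ f, ∃ hm : α f ∈ W, r ⟨_, hm⟩ = eval₂Hom j' v' f := fun f =>
    ⟨hW (α.rangeRestrict f).2, (h1 (α.rangeRestrict f)).trans (hρ f)⟩
  refine ⟨W, r, fun c => ?_, fun i => ?_, h2⟩
  · have := key (C c)
    simpa only [α, eval₂Hom_C] using this
  · have := key (X i)
    simpa only [α, eval₂Hom_X'] using this

/-- Gluing homomorphisms along an independent family. -/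
theorem Geo2A_joint {k' : Type u} [Field k'] {i : k →+* T} {j : k →+* T'} {j' : k →+* k'} {m : ℕ}
    {ψ : Fin m → (T →+* T')} (hψ : ∀ l, (ψ l).comp i = j) (h : IndepFam j.fieldRange ψ)
    (W : Fin m → Subring T) (r : ∀ l, W l →+* k')
    (hr : ∀ l c, ∃ hm : i c ∈ W l, r l ⟨_, hm⟩ = j' c) (S : Finset (Fin m)) :
    ∃ (R : Subring T') (θ : R →+* k'),
      (∀ E : Subfield T', j.fieldRange ≤ E → (∀ l ∈ S, (ψ l).fieldRange ≤ E) →
        R ≤ E.toSubring) ∧ (∀ c, ∃ hm : j c ∈ R, θ ⟨_, hm⟩ = j' c) ∧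
      ∀ l ∈ S, ∀ z : W l, ∃ hm : ψ l z ∈ R, θ ⟨_, hm⟩ = r l z := by
  induction S using Finset.induction_on with
  | empty =>
    refine ⟨j.fieldRange.toSubring, j'.comp (j.rangeRestrictFieldEquiv.symm : j.fieldRange →+* k),
      fun E hE _ => hE, fun c => ⟨⟨c, rfl⟩, ?_⟩, fun l hl => absurd hl (Finset.notMem_empty l)⟩
    exact congrArg j' (j.rangeRestrictFieldEquiv.symm_apply_apply c)
  | insert l S hl ih =>
    obtain ⟨R, θ, h1, h2, h3⟩ := ih
    have hj : ∀ c, ψ l (i c) = j c := fun c => RingHom.congr_fun (hψ l) c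
    have hk₁ : j.fieldRange ≤ (ψ l).fieldRange := by
      rintro _ ⟨c, rfl⟩
      exact ⟨i c, hj c⟩
    have hR₁ : (W l).map (ψ l) ≤ (ψ l).fieldRange.toSubring := by
      rintro _ ⟨z, -, rfl⟩
      exact ⟨z, rfl⟩
    have hR₂ := h1 (j.fieldRange ⊔ ⨆ i' : {i' // i' ≠ l}, (ψ i').fieldRange) le_sup_left
      fun l' hl' => le_sup_of_le_right
        (le_iSup (fun i' : {i' // i' ≠ l} => (ψ i').fieldRange) ⟨l', fun e => hl (e ▸ hl')⟩)
    have hc₁ : j.fieldRange.toSubring ≤ (W l).map (ψ l) := by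
      rintro _ ⟨c, rfl⟩
      exact ⟨i c, (hr l c).1, hj c⟩
    have hc₂ : j.fieldRange.toSubring ≤ R := by
      rintro _ ⟨c, rfl⟩
      exact (h2 c).1
    let ε := (W l).equivMapOfInjective (ψ l) (ψ l).injective
    let θ₁ : (W l).map (ψ l) →+* k' := (r l).comp (ε.symm : (W l).map (ψ l) →+* W l)
    have hε : ∀ z : W l, θ₁ ⟨ψ l z, ⟨z, z.2, rfl⟩⟩ = r l z :=
      fun z => congrArg (r l) (ε.symm_apply_apply z)
    obtain ⟨θ', e1, e2⟩ := (h l).hom hk₁ le_sup_left hR₁ hR₂ hc₁ hc₂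
      θ₁ θ (by
        rintro _ ⟨c, rfl⟩
        obtain ⟨hm, e⟩ := hr l c
        have := hε ⟨i c, hm⟩
        simp only [hj] at this
        exact this.trans (e.trans (h2 c).2.symm))
    refine ⟨_, θ', fun E hE hS => sup_le (hR₁.trans (hS l (Finset.mem_insert_self _ _)))
      (h1 E hE fun l' hl' => hS l' (Finset.mem_insert_of_mem hl')), fun c => ?_, fun l' hl' z => ?_⟩
    · obtain ⟨hm, e⟩ := h2 c
      exact ⟨_, (e2 ⟨_, hm⟩).trans e⟩
    · rcases Finset.mem_insert.1 hl' with rfl | hl'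
      · exact ⟨_, (e1 ⟨_, ⟨z, z.2, rfl⟩⟩).trans (hε z)⟩
      · obtain ⟨hm, e⟩ := h3 l' hl' z
        exact ⟨_, (e2 ⟨_, hm⟩).trans e⟩

end fields

end MLF
end

-- merged part: Pool.Agent.Work.MP_29d410_ag.Perf
section
/-!
# The perfection of the ring of power series; the shift

Plan.  `ιP m f` is the `p ^ m`-th root of `ιB (map frob ^ m f)` in the algebraically closed field
`Big Ω`.  Homomorphisms out of `Perf` are obtained from `PerfectRing.lift` (`IsPRadical (ιP 0) p`),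
or directly with `exists_ιP`.
-/

open PowerSeries

namespace MLF

universe u

theorem ιB_inj (k : Type u) [Field k] : Function.Injective (ιB k) := by
  rw [ιB, IsScalarTower.algebraMap_eq (PowerSeries k) (FractionRing (PowerSeries k)) (Big k),
    RingHom.coe_comp]
  exact (algebraMap (FractionRing (PowerSeries k)) (Big k)).injective.comp
    (IsFractionRing.injective _ _)

instance Big.charP (k : Type u) [Field k] (p : ℕ) [CharP k p] : CharP (Big k) p :=
  charP_of_injective_ringHom (cB k).injective p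

/-- The shift `f (ε) ↦ f (η + ε)`; `η` is the inner variable. -/
noncomputable def sh (R : Type u) [CommRing R] : PowerSeries R →+* PowerSeries (PowerSeries R) :=
  ev (τ := Unit) ((C : PowerSeries R →+* _).comp C) fun _ => C X + X

section sh
variable {R R' : Type u} [CommRing R] [CommRing R']
/-- The ideal generated by the two variables. -/
noncomputable abbrev Perf_m2 (R : Type u) [CommRing R] : Ideal (PowerSeries (PowerSeries R)) :=
  (mx R).comap (constantCoeff (R := PowerSeries R))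
instance Perf_m2_complete : IsAdicComplete (Perf_m2 R) (PowerSeries (PowerSeries R)) :=
  complete_comap _
theorem Perf_X_mem : (X : PowerSeries (PowerSeries R)) ∈ Perf_m2 R := by
  simp [Ideal.mem_comap]
theorem Perf_CX_mem : (C X : PowerSeries (PowerSeries R)) ∈ Perf_m2 R := by
  simp [Ideal.mem_comap]
theorem Perf_tn {x : PowerSeries (PowerSeries R)} (h : x ∈ Perf_m2 R) : TN fun _ : Unit => x :=
  ⟨Perf_m2 R, inferInstance, fun _ => h⟩
theorem Perf_ext {𝔟 : Ideal R'} [IsHausdorff 𝔟 R'] {θ θ' : PowerSeries R →+* R'}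
    (hC : ∀ c, θ (C c) = θ' (C c)) (hX : θ X = θ' X) (hx : θ X ∈ 𝔟) : θ = θ' :=
  hom_ext (τ := Unit) (𝔟 := 𝔟) hC (fun _ => hX) fun _ => hx
theorem sh_C (c : R) : sh R (C c) = C (C c) :=
  (Perf_tn (add_mem Perf_CX_mem Perf_X_mem)).ev_C _ c
theorem sh_X : sh R X = C X + X :=
  (Perf_tn (add_mem Perf_CX_mem Perf_X_mem)).ev_X _ ()
theorem constantCoeff_sh (f : PowerSeries R) : constantCoeff (sh R f) = f :=
  RingHom.congr_fun (Perf_ext (𝔟 := mx R) (θ := (constantCoeff (R := PowerSeries R)).comp (sh R))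
    (θ' := RingHom.id _) (fun c => by simp [sh_C]) (by simp [sh_X]) (by simp [sh_X])) f
theorem map_sh (j : R →+* R') (f : PowerSeries R) :
    map (map j) (sh R f) = sh R' (map j f) :=
  RingHom.congr_fun (Perf_ext (𝔟 := Perf_m2 R') (θ := (map (map j)).comp (sh R))
    (θ' := (sh R').comp (map j)) (fun c => by simp [sh_C]) (by simp [sh_X])
    (by simp [sh_X])) f
/-- Homomorphisms of power series rings are determined by the constants and the variable. -/
theorem ps_hom_ext {𝔟 : Ideal R'} [IsHausdorff 𝔟 R'] {θ θ' : PowerSeries R →+* R'}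
    (hC : ∀ c, θ (C c) = θ' (C c)) (hX : θ X = θ' X) (hx : θ X ∈ 𝔟) : θ = θ' :=
  Perf_ext hC hX hx
/-- The substitution `ε ↦ ε - η` undoes the shift. -/
theorem exists_unsh (R : Type u) [CommRing R] :
    ∃ θ : PowerSeries (PowerSeries R) ≃+* PowerSeries (PowerSeries R),
      (∀ f, θ (C f) = C f) ∧ ∀ f, θ (sh R f) = map C f := by
  have t1 := Perf_tn (R := R) (sub_mem Perf_X_mem Perf_CX_mem)
  have t2 := Perf_tn (R := R) (add_mem Perf_X_mem Perf_CX_mem)
  let a : PowerSeries (PowerSeries R) →+* PowerSeries (PowerSeries R) :=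
    ev (τ := Unit) C fun _ => X - C X
  let b : PowerSeries (PowerSeries R) →+* PowerSeries (PowerSeries R) :=
    ev (τ := Unit) C fun _ => X + C X
  have aC : ∀ f, a (C f) = C f := fun f => t1.ev_C _ f
  have bC : ∀ f, b (C f) = C f := fun f => t2.ev_C _ f
  have aX : a X = X - C X := t1.ev_X _ ()
  have bX : b X = X + C X := t2.ev_X _ ()
  refine ⟨RingEquiv.ofRingHom a b
    (Perf_ext (𝔟 := Perf_m2 R) (fun c => by simp [aC, bC]) (by simp [aX, bX, aC])
      (by simp [aX, bX, aC]))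
    (Perf_ext (𝔟 := Perf_m2 R) (fun c => by simp [aC, bC]) (by simp [aX, bX, bC])
      (by simp [aX, bX, bC])), aC, fun f => ?_⟩
  exact RingHom.congr_fun (Perf_ext (𝔟 := Perf_m2 R) (θ := a.comp (sh R)) (θ' := map C)
    (fun c => by simp [sh_C, aC]) (by simp [sh_X, aC, aX])
    (by simp [sh_X, aC, aX])) f
end sh

variable (p : ℕ) [Fact p.Prime] (Ω : Type u) [Field Ω] [CharP Ω p]

omit [Fact p.Prime] [CharP Ω p] in
theorem Perf_both {a b : Big Ω} (ha : ∃ m, a ^ p ^ m ∈ (ιB Ω).range)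
    (hb : ∃ m, b ^ p ^ m ∈ (ιB Ω).range) :
    ∃ m, a ^ p ^ m ∈ (ιB Ω).range ∧ b ^ p ^ m ∈ (ιB Ω).range := by
  obtain ⟨m, hm⟩ := ha
  obtain ⟨n, hn⟩ := hb
  refine ⟨m + n, ?_, ?_⟩
  · rw [pow_add, pow_mul]
    exact pow_mem hm _
  · rw [add_comm, pow_add, pow_mul]
    exact pow_mem hn _

theorem perf_add {a b : Big Ω} (ha : ∃ m, a ^ p ^ m ∈ (ιB Ω).range)
    (hb : ∃ m, b ^ p ^ m ∈ (ιB Ω).range) : ∃ m, (a + b) ^ p ^ m ∈ (ιB Ω).range := by
  obtain ⟨m, h1, h2⟩ := Perf_both p Ω ha hb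
  exact ⟨m, by rw [add_pow_char_pow]; exact add_mem h1 h2⟩
theorem perf_mul {a b : Big Ω} (ha : ∃ m, a ^ p ^ m ∈ (ιB Ω).range)
    (hb : ∃ m, b ^ p ^ m ∈ (ιB Ω).range) : ∃ m, (a * b) ^ p ^ m ∈ (ιB Ω).range := by
  obtain ⟨m, h1, h2⟩ := Perf_both p Ω ha hb
  exact ⟨m, by rw [mul_pow]; exact mul_mem h1 h2⟩
theorem perf_neg {a : Big Ω} (ha : ∃ m, a ^ p ^ m ∈ (ιB Ω).range) :
    ∃ m, (-a) ^ p ^ m ∈ (ιB Ω).range := by
  obtain ⟨m, h⟩ := ha
  exact ⟨m, by rw [neg_pow]; exact mul_mem (pow_mem (neg_mem (one_mem _)) _) h⟩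

/-- The perfection of `Ω⟦ε⟧`. -/
def Perf : Subring (Big Ω) where
  carrier := {z | ∃ m, z ^ p ^ m ∈ (ιB Ω).range}
  zero_mem' := ⟨0, by simp⟩
  one_mem' := ⟨0, by simp⟩
  add_mem' := perf_add p Ω
  mul_mem' := perf_mul p Ω
  neg_mem' := perf_neg p Ω

/-- The inclusion of the power series. -/
noncomputable def Perf_i0 : PowerSeries Ω →+* Perf p Ω :=
  (ιB Ω).codRestrict (Perf p Ω) fun f => ⟨0, f, by simp⟩

theorem Perf_pow (z : Perf p Ω) : ∃ m f, z ^ p ^ m = Perf_i0 p Ω f := by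
  obtain ⟨m, f, h⟩ := z.2
  exact ⟨m, f, Subtype.ext h.symm⟩

instance Perf.charP : CharP (Perf p Ω) p := CharP.subring' (Big Ω) p (Perf p Ω)
instance Perf.perfect : PerfectRing (Perf p Ω) p := by
  refine PerfectRing.ofSurjective _ p fun z => ?_
  obtain ⟨w, hw⟩ := (bijective_frobenius (Big Ω) p).2 (z : Big Ω)
  obtain ⟨m, hm⟩ := z.2
  rw [frobenius_def] at hw
  refine ⟨⟨w, m + 1, ?_⟩, Subtype.ext hw⟩
  rwa [pow_succ', pow_mul, hw]
instance Perf.local : IsLocalRing (Perf p Ω) := by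
  refine IsLocalRing.of_isUnit_or_isUnit_one_sub_self fun z => ?_
  obtain ⟨m, f, h⟩ := Perf_pow p Ω z
  have hp : p ^ m ≠ 0 := pow_ne_zero _ (Fact.out : p.Prime).ne_zero
  refine (IsLocalRing.isUnit_or_isUnit_one_sub_self f).imp (fun u => ?_) fun u => ?_
  · rw [← isUnit_pow_iff hp, h]
    exact u.map _
  · rw [← isUnit_pow_iff hp, sub_pow_char_pow, one_pow, h, ← map_one (Perf_i0 p Ω), ← map_sub]
    exact u.map _

theorem exists_ιP_aux (m : ℕ) : ∃ ι : PowerSeries Ω →+* Perf p Ω,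
    ∀ f, ((ι f : Big Ω)) ^ p ^ m = ιB Ω (map (iterateFrobenius Ω p m) f) := by
  refine ⟨((iterateFrobeniusEquiv (Perf p Ω) p m).symm : Perf p Ω →+* Perf p Ω).comp
    ((Perf_i0 p Ω).comp (map (iterateFrobenius Ω p m))), fun f => ?_⟩
  have := (iterateFrobeniusEquiv (Perf p Ω) p m).apply_symm_apply
    (Perf_i0 p Ω (map (iterateFrobenius Ω p m) f))
  rw [iterateFrobeniusEquiv_def] at this
  exact congrArg Subtype.val this

/-- The substitution `ε ↦ ε ^ (1 / p ^ m)`. -/
noncomputable def ιP (m : ℕ) : PowerSeries Ω →+* Perf p Ω := (exists_ιP_aux p Ω m).choose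

/-- The constants. -/
noncomputable def iP : Ω →+* Perf p Ω := (ιP p Ω 0).comp C

/-- The root `ε ^ (1 / p ^ m)`. -/
noncomputable def eP (m : ℕ) : Perf p Ω := ιP p Ω m X

variable {p Ω} {Ω' : Type u} [Field Ω'] [CharP Ω' p]

theorem ιP_spec (m : ℕ) (f : PowerSeries Ω) :
    ((ιP p Ω m f : Big Ω)) ^ p ^ m = ιB Ω (map (iterateFrobenius Ω p m) f) :=
  (exists_ιP_aux p Ω m).choose_spec f
theorem Perf_root (m : ℕ) {z w : Perf p Ω} (h : (z : Big Ω) ^ p ^ m = (w : Big Ω) ^ p ^ m) :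
    z = w :=
  Subtype.ext ((iterateFrobenius (Big Ω) p m).injective h)
theorem Perf_frob (m n : ℕ) (f : PowerSeries Ω) : map (iterateFrobenius Ω p (m + n)) f =
    map (iterateFrobenius Ω p m) (map (iterateFrobenius Ω p n) f) := by
  rw [iterateFrobenius_add, map_comp, RingHom.comp_apply]
omit [CharP Ω p] in
theorem Perf_ne (n : ℕ) : p ^ n ≠ 0 := pow_ne_zero _ (Fact.out : p.Prime).ne_zero
theorem Perf_expand (n : ℕ) (f : PowerSeries Ω) :
    map (iterateFrobenius Ω p n) (expand (p ^ n) (Perf_ne n) f) = f ^ p ^ n :=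
  MvPowerSeries.map_iterateFrobenius_expand p (Fact.out : p.Prime).ne_zero f n
theorem coe_ιP_zero (f : PowerSeries Ω) : (ιP p Ω 0 f : Big Ω) = ιB Ω f := by
  simpa using ιP_spec (p := p) 0 f
theorem coe_iP (c : Ω) : (iP p Ω c : Big Ω) = cB Ω c := coe_ιP_zero (C c)
theorem subtype_iP : (Perf p Ω).subtype.comp (iP p Ω) = cB Ω := RingHom.ext coe_iP
theorem ιP_C (m : ℕ) (c : Ω) : ιP p Ω m (C c) = iP p Ω c := by
  refine Perf_root m ?_
  rw [ιP_spec, coe_iP, map_C, iterateFrobenius_def, ← map_pow]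
  rfl
theorem ιP_inj (m : ℕ) : Function.Injective (ιP p Ω m) := fun f g h => by
  have h1 := ιP_spec (p := p) m f
  rw [h, ιP_spec] at h1
  exact (map_injective _ (iterateFrobenius Ω p m).injective (ιB_inj Ω h1)).symm
theorem Perf_up (m n : ℕ) (f : PowerSeries Ω) :
    ιP p Ω (m + n) (expand (p ^ n) (Perf_ne n) f) = ιP p Ω m f := by
  refine Perf_root (m + n) ?_
  rw [ιP_spec, Perf_frob, Perf_expand, map_pow, map_pow, pow_add, pow_mul, ιP_spec]
theorem Perf_i0_eq (f : PowerSeries Ω) : Perf_i0 p Ω f = ιP p Ω 0 f :=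
  Subtype.ext (coe_ιP_zero f).symm
theorem ιP_pow (m n : ℕ) (f : PowerSeries Ω) :
    ιP p Ω (m + n) f ^ p ^ n = ιP p Ω m (map (iterateFrobenius Ω p n) f) := by
  refine Perf_root m ?_
  rw [ιP_spec, ← Perf_frob, ← ιP_spec, Subring.coe_pow, ← pow_mul, ← pow_add, add_comm n m]
theorem eP_pow (m n : ℕ) : eP p Ω (m + n) ^ p ^ n = eP p Ω m := by
  rw [eP, ιP_pow, map_X, eP]
theorem ιP_le {m m' : ℕ} (h : m ≤ m') (f : PowerSeries Ω) : ∃ g, ιP p Ω m' g = ιP p Ω m f ∧
    ∀ n, ∃ n', coeff n g = coeff n' f ∨ coeff n g = 0 := by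
  obtain ⟨k, rfl⟩ := Nat.exists_eq_add_of_le h
  refine ⟨_, Perf_up m k f, fun n => ⟨n / p ^ k, ?_⟩⟩
  rw [coeff_expand]
  split_ifs
  · exact Or.inl rfl
  · exact Or.inr rfl
theorem ιP_mem_span {m n N : ℕ} (f : PowerSeries Ω) :
    ιP p Ω (m + n) f ∈ Ideal.span {eP p Ω m ^ N} ↔ f ∈ mx Ω ^ (N * p ^ n) := by
  have e : eP p Ω m ^ N = ιP p Ω (m + n) (X ^ (N * p ^ n)) := by
    rw [← eP_pow m n, ← pow_mul, mul_comm, map_pow, eP]
  rw [e, Ideal.span_singleton_pow, Ideal.mem_span_singleton, Ideal.mem_span_singleton]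
  refine ⟨fun ⟨z, hz⟩ => ?_, fun h => map_dvd _ h⟩
  obtain ⟨k, g, hg⟩ := Perf_pow p Ω z
  obtain ⟨g', hg', -⟩ := ιP_le (p := p) (Nat.zero_le (m + n)) g
  have h1 := congrArg (· ^ p ^ k) hz
  simp only [mul_pow] at h1
  rw [hg, Perf_i0_eq, ← hg', ← map_pow, ← map_pow, ← map_mul] at h1
  exact (IsIntegrallyClosed.pow_dvd_pow_iff (Perf_ne k)).1 ⟨g', ιP_inj _ h1⟩
instance Perf.hausdorff (m : ℕ) : IsHausdorff (Ideal.span {eP p Ω m}) (Perf p Ω) := by
  refine ⟨fun z hz => ?_⟩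
  obtain ⟨k, g, hg⟩ := Perf_pow p Ω z
  obtain ⟨g', hg', -⟩ := ιP_le (p := p) (Nat.zero_le (m + 0)) g
  rw [Perf_i0_eq, ← hg'] at hg
  have h0 : g' = 0 := by
    ext d
    have h1 := Ev2_smod.1 (hz (d + 1))
    rw [sub_zero, Ideal.span_singleton_pow] at h1
    have h2 := Ideal.pow_mem_of_mem _ h1 (p ^ k) (Nat.pos_of_ne_zero (Perf_ne k))
    rw [hg, ιP_mem_span, mem_mx_pow] at h2
    exact h2 d (by simp)
  rw [h0, map_zero] at hg
  exact pow_eq_zero_iff (Perf_ne k) |>.1 hg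
instance ιP_local (m : ℕ) : IsLocalHom (ιP p Ω m) := by
  refine ⟨fun f hf => ?_⟩
  obtain ⟨z, hz⟩ := hf.exists_right_inv
  obtain ⟨k, g, hg⟩ := Perf_pow p Ω z
  obtain ⟨g', hg', -⟩ := ιP_le (p := p) (Nat.zero_le m) g
  have h1 := congrArg (· ^ p ^ k) hz
  simp only [mul_pow, one_pow] at h1
  rw [hg, Perf_i0_eq, ← hg', ← map_pow, ← map_mul, ← map_one (ιP p Ω m)] at h1
  exact (isUnit_pow_iff (Perf_ne k)).1 (IsUnit.of_mul_eq_one _ (ιP_inj _ h1))

variable [IsAlgClosed Ω]

theorem exists_ιP (z : Perf p Ω) : ∃ m f, ιP p Ω m f = z := by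
  obtain ⟨m, g, h⟩ := z.2
  refine ⟨m, map ((iterateFrobeniusEquiv Ω p m).symm : Ω →+* Ω) g, Perf_root m ?_⟩
  rw [ιP_spec, ← h]
  congr 1
  ext n
  simp only [coeff_map, RingHom.coe_coe]
  exact (iterateFrobeniusEquiv Ω p m).apply_symm_apply _

theorem Perf_two (z w : Perf p Ω) : ∃ m f g, ιP p Ω m f = z ∧ ιP p Ω m g = w := by
  obtain ⟨m, f, rfl⟩ := exists_ιP z
  obtain ⟨n, g, rfl⟩ := exists_ιP w
  obtain ⟨f', h1, -⟩ := ιP_le (p := p) (le_max_left m n) f
  obtain ⟨g', h2, -⟩ := ιP_le (p := p) (le_max_right m n) g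
  exact ⟨_, f', g', h1, h2⟩

omit [IsAlgClosed Ω] in
theorem Perf_cmp {m n : ℕ} {f g : PowerSeries Ω} (h : ιP p Ω m f = ιP p Ω n g) :
    expand (p ^ n) (Perf_ne n) f = expand (p ^ m) (Perf_ne m) g := by
  refine ιP_inj (p := p) (m + n) ?_
  rw [Perf_up, h, add_comm, Perf_up]

theorem Perf_lift {T : Type*} [CommRing T] (θ : ℕ → PowerSeries Ω →+* T)
    (h : ∀ m n f, θ (m + n) (expand (p ^ n) (Perf_ne n) f) = θ m f) :
    ∃ r : Perf p Ω →+* T, ∀ m f, r (ιP p Ω m f) = θ m f := by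
  choose a b hab using exists_ιP (p := p) (Ω := Ω)
  have key : ∀ m f, θ (a (ιP p Ω m f)) (b (ιP p Ω m f)) = θ m f := fun m f => by
    rw [← h _ m, Perf_cmp (hab (ιP p Ω m f)), add_comm, h]
  refine ⟨⟨⟨⟨fun z => θ (a z) (b z), ?_⟩, fun z w => ?_⟩, ?_, fun z w => ?_⟩, key⟩
  · rw [← map_one (ιP p Ω 0), key, map_one]
  · obtain ⟨m, f, g, rfl, rfl⟩ := Perf_two z w
    simp only [← map_mul, key]
  · simp only
    rw [← map_zero (ιP p Ω 0), key, map_zero]
  · obtain ⟨m, f, g, rfl, rfl⟩ := Perf_two z w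
    simp only [← map_add, key]

theorem exists_resP : ∃ r : Perf p Ω →+* Ω, ∀ m f, r (ιP p Ω m f) = constantCoeff f :=
  Perf_lift (fun _ => constantCoeff) fun _ _ f => constantCoeff_expand _ _ f

variable (p Ω) in
/-- The residue map. -/
noncomputable def resP : Perf p Ω →+* Ω := exists_resP.choose

theorem resP_ιP (m : ℕ) (f : PowerSeries Ω) : resP p Ω (ιP p Ω m f) = constantCoeff f :=
  exists_resP.choose_spec m f
theorem resP_iP (c : Ω) : resP p Ω (iP p Ω c) = c := by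
  rw [← ιP_C 0, resP_ιP, constantCoeff_C]
theorem ker_resP : RingHom.ker (resP p Ω) = IsLocalRing.maximalIdeal (Perf p Ω) := by
  ext z
  obtain ⟨m, f, rfl⟩ := exists_ιP z
  rw [RingHom.mem_ker, resP_ιP, IsLocalRing.mem_maximalIdeal, mem_nonunits_iff, isUnit_map_iff,
    isUnit_iff_constantCoeff, isUnit_iff_ne_zero, not_not]
theorem pow_mem_of_resP {z : Perf p Ω} (h : resP p Ω z = 0) (m : ℕ) :
    ∃ n, z ^ n ∈ Ideal.span {eP p Ω m} := by
  obtain ⟨k, f, rfl⟩ := exists_ιP z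
  obtain ⟨g, hg, -⟩ := ιP_le (p := p) (Nat.le_add_left k m) f
  rw [← hg] at h ⊢
  rw [resP_ιP] at h
  refine ⟨p ^ k, ?_⟩
  rw [← pow_one (eP p Ω m), ← map_pow, ιP_mem_span, one_mul]
  exact Ideal.pow_mem_pow (Ideal.mem_span_singleton.2 (X_dvd_iff.2 h)) _

theorem exists_perfMap (j : Ω →+* Ω') : ∃ θ : Perf p Ω →+* Perf p Ω',
    ∀ m f, θ (ιP p Ω m f) = ιP p Ω' m (map j f) :=
  Perf_lift (fun m => (ιP p Ω' m).comp (map j)) fun m n f => by
    rw [RingHom.comp_apply, RingHom.comp_apply, map_expand, Perf_up]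

variable (p) in
/-- Functoriality. -/
noncomputable def Perf.map (j : Ω →+* Ω') : Perf p Ω →+* Perf p Ω' := (exists_perfMap j).choose

theorem Perf.map_ιP (j : Ω →+* Ω') (m : ℕ) (f : PowerSeries Ω) :
    Perf.map p j (ιP p Ω m f) = ιP p Ω' m (PowerSeries.map j f) := (exists_perfMap j).choose_spec m f
theorem Perf.map_iP (j : Ω →+* Ω') (c : Ω) : Perf.map p j (iP p Ω c) = iP p Ω' (j c) := by
  rw [← ιP_C 0, Perf.map_ιP, map_C, ιP_C]
theorem Perf.map_eP (j : Ω →+* Ω') (m : ℕ) : Perf.map p j (eP p Ω m) = eP p Ω' m := by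
  rw [eP, Perf.map_ιP, map_X, eP]
theorem Perf.map_inj (j : Ω →+* Ω') : Function.Injective (Perf.map p j) := fun z w h => by
  obtain ⟨m, f, g, rfl, rfl⟩ := Perf_two z w
  rw [Perf.map_ιP, Perf.map_ιP] at h
  rw [map_injective j j.injective (ιP_inj m h)]
theorem Perf.map_map [IsAlgClosed Ω'] {Ω'' : Type u} [Field Ω''] [CharP Ω'' p] (j : Ω →+* Ω')
    (j' : Ω' →+* Ω'') (z : Perf p Ω) :
    Perf.map p j' (Perf.map p j z) = Perf.map p (j'.comp j) z := by
  obtain ⟨m, f, rfl⟩ := exists_ιP z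
  rw [Perf.map_ιP, Perf.map_ιP, Perf.map_ιP, map_comp, RingHom.comp_apply]
theorem Perf.resP_map [IsAlgClosed Ω'] (j : Ω →+* Ω') (z : Perf p Ω) :
    resP p Ω' (Perf.map p j z) = j (resP p Ω z) := by
  obtain ⟨m, f, rfl⟩ := exists_ιP z
  rw [Perf.map_ιP, resP_ιP, resP_ιP, ← coeff_zero_eq_constantCoeff_apply, coeff_map,
    coeff_zero_eq_constantCoeff_apply]
theorem Perf.ιP_mem_range (j : Ω →+* Ω') {m : ℕ} {f : PowerSeries Ω'} :
    ιP p Ω' m f ∈ (Perf.map p j).range ↔ ∀ n, coeff n f ∈ j.fieldRange := by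
  constructor
  · rintro ⟨z, hz⟩ n
    obtain ⟨k, g, rfl⟩ := exists_ιP z
    rw [Perf.map_ιP] at hz
    have h1 := congrArg (coeff (p ^ k * n)) (Perf_cmp hz)
    rw [coeff_expand_mul, ← map_expand, coeff_map] at h1
    exact ⟨_, h1⟩
  · intro h
    choose c hc using h
    refine ⟨ιP p Ω m (mk c), ?_⟩
    rw [Perf.map_ιP]
    congr 1
    ext n
    rw [coeff_map, coeff_mk, hc]
/-- An element fixed by all automorphisms over `F` has its coefficients in `F`. -/
theorem Perf.mem_range_of_fixed (F : Subfield Ω) [IsAlgClosed F] {z : Perf p Ω}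
    (h : ∀ τ : Ω ≃+* Ω, (∀ c ∈ F, τ c = c) → Perf.map p (τ : Ω →+* Ω) z = z) :
    z ∈ (Perf.map p F.subtype).range := by
  obtain ⟨m, f, rfl⟩ := exists_ιP z
  refine (Perf.ιP_mem_range _).2 fun n => ?_
  obtain ⟨k, hk⟩ := fixed_pow_mem (E := F) p (z := coeff n f) fun τ hτ => by
    have h1 := h τ hτ
    rw [Perf.map_ιP] at h1
    have h2 := congrArg (coeff n) (ιP_inj m h1)
    rwa [coeff_map] at h2
  obtain ⟨r, hr⟩ := IsAlgClosed.exists_pow_nat_eq (⟨_, hk⟩ : F)
    (Nat.pos_of_ne_zero (Perf_ne (p := p) k))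
  exact ⟨r, (iterateFrobenius Ω p k).injective (congrArg Subtype.val hr)⟩

end MLF
end

-- merged part: Pool.Agent.Work.MP_29d410_ag.DM7A
section
/-!
# Calculus of vectors of power series without constant term; retracts of formal group laws
-/

open MvPowerSeries

namespace MLF

universe u

variable {S : Type u} [CommRing S] {τ τ' τ'' σ : Type} [Finite τ] [Finite τ'] [Finite τ'']
  [Finite σ]

/-- Vectors of series without constant term. -/
def DM7cc (x : τ → MvPowerSeries σ S) : Prop := ∀ i, constantCoeff (x i) = 0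

namespace DM7cc

omit [Finite τ] [Finite σ] in
theorem X' (f : τ → σ) : DM7cc (X ∘ f : τ → MvPowerSeries σ S) := fun _ => constantCoeff_X _

omit [Finite τ] in
theorem X : DM7cc (X : τ → MvPowerSeries τ S) := fun _ => constantCoeff_X _

omit [Finite τ] [Finite σ] in
theorem zero : DM7cc (0 : τ → MvPowerSeries σ S) := fun _ => map_zero _

omit [Finite τ] [Finite τ'] [Finite σ] in
theorem elim {x : τ → MvPowerSeries σ S} {y : τ' → MvPowerSeries σ S} (hx : DM7cc x)
    (hy : DM7cc y) : DM7cc (Sum.elim x y) := Sum.rec hx hy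

variable {x y z : τ → MvPowerSeries σ S}

theorem tn (hx : DM7cc x) : TN x := TN.of_cc hx

theorem ev0 {S' : Type u} [CommRing S'] (hx : DM7cc x) (φ : S' →+* MvPowerSeries σ S)
    {f : MvPowerSeries τ S'} (hf : constantCoeff f = 0) : constantCoeff (ev φ x f) = 0 :=
  mem_mX.1 (hx.tn.ev_mem φ hf fun i => mem_mX.2 (hx i))

theorem ev_pow {S' : Type u} [CommRing S'] (hx : DM7cc x) (φ : S' →+* MvPowerSeries σ S)
    {f : MvPowerSeries τ S'} {N : ℕ} (hf : f ∈ mX τ S' ^ N) : ev φ x f ∈ mX σ S ^ N :=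
  Ideal.pow_right_mono (Ideal.span_le.2 (Set.range_subset_iff.2 fun i => mem_mX.2 (hx i))) N
    (hx.tn.ev_mem_pow φ hf)

omit [Finite τ'] in
theorem cmp {f : τ' → MvPowerSeries τ S} (hf : DM7cc f) (hx : DM7cc x) : DM7cc (cmp f x) :=
  fun i => hx.ev0 C (hf i)

theorem add (G : FGL S τ) (hx : DM7cc x) (hy : DM7cc y) : DM7cc (G.add C x y) :=
  fun i => (hx.elim hy).ev0 C (G.F0 i)

theorem comp_C (hx : DM7cc x) : (ev C x).comp C = (C : S →+* MvPowerSeries σ S) :=
  RingHom.ext (hx.tn.ev_C C)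

theorem X_cmp (hx : DM7cc x) : MLF.cmp MvPowerSeries.X x = x := funext (hx.tn.ev_X C)

omit [Finite τ'] in
theorem X_cmp' (hx : DM7cc x) (f : τ' → τ) : MLF.cmp (MvPowerSeries.X ∘ f) x = x ∘ f :=
  funext fun i => hx.tn.ev_X C (f i)

omit [Finite τ'] [Finite σ] in
theorem cmp_zero {f : τ' → MvPowerSeries τ S} (hf : DM7cc f) :
    MLF.cmp f (0 : τ → MvPowerSeries σ S) = 0 := funext fun i => by
  rw [MLF.cmp, ev_zero, hf i, map_zero, Pi.zero_apply]

theorem add_cmp (G : FGL S τ) (hx : DM7cc x) (hy : DM7cc y) {w : σ → MvPowerSeries τ' S}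
    (hw : DM7cc w) : MLF.cmp (G.add C x y) w = G.add C (MLF.cmp x w) (MLF.cmp y w) := by
  have h := FGL.map_add (G := G) (φ := C) (hx.elim hy).tn (ev C w)
    (DM7cc.tn ((hx.elim hy).cmp hw))
  rwa [hw.comp_C] at h

/-- The point with given coordinates. -/
def pt (G : FGL S τ) (hx : DM7cc x) : G.Pts C (mX σ S) := ⟨x, fun i => mem_mX.2 (hx i)⟩

theorem add_assoc (G : FGL S τ) (hx : DM7cc x) (hy : DM7cc y) (hz : DM7cc z) :
    G.add C (G.add C x y) z = G.add C x (G.add C y z) :=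
  congrArg FGL.Pts.v (_root_.add_assoc (hx.pt G) (hy.pt G) (hz.pt G))

theorem add_comm (G : FGL S τ) (hx : DM7cc x) (hy : DM7cc y) : G.add C x y = G.add C y x :=
  congrArg FGL.Pts.v (_root_.add_comm (hx.pt G) (hy.pt G))

theorem add_zero (G : FGL S τ) (hx : DM7cc x) : G.add C x 0 = x :=
  congrArg FGL.Pts.v (_root_.add_zero (hx.pt G))

theorem neg_add (G : FGL S τ) (hx : DM7cc x) : G.add C (MLF.cmp G.N x) x = 0 :=
  congrArg FGL.Pts.v (neg_add_cancel (hx.pt G))

theorem add_neg (G : FGL S τ) (hx : DM7cc x) : G.add C x (MLF.cmp G.N x) = 0 :=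
  congrArg FGL.Pts.v (add_neg_cancel (hx.pt G))

theorem add_add_neg (G : FGL S τ) (hx : DM7cc x) (hy : DM7cc y) :
    G.add C x (G.add C y (MLF.cmp G.N x)) = y :=
  congrArg FGL.Pts.v (add_add_neg_cancel'_right (hx.pt G) (hy.pt G))

end DM7cc

theorem DM7_ev_X (h : MvPowerSeries τ S) : ev C (X : τ → MvPowerSeries τ S) h = h := by
  simpa using ev_C_X (RingHom.id S) h

omit [Finite τ'] in
theorem DM7_cmp_X (f : τ' → MvPowerSeries τ S) : cmp f X = f := funext fun i => DM7_ev_X (f i)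

theorem DM7_add_X (G : FGL S τ) : G.add C (X ∘ Sum.inl) (X ∘ Sum.inr) = G.F := funext fun i => by
  rw [FGL.add, Sum.elim_comp_inl_inr, DM7_ev_X]

theorem IsHom.DM7_add {G : FGL S τ} {H : FGL S τ'} {f : τ' → MvPowerSeries τ S} (hf : IsHom G H f)
    {x y : τ → MvPowerSeries σ S} (hx : DM7cc x) (hy : DM7cc y) :
    cmp f (G.add C x y) = H.add C (cmp f x) (cmp f y) := funext (hf.ev_add (hx.elim hy).tn)

omit [Finite τ'] in
theorem DM7_isHom {G : FGL S τ} {H : FGL S τ'} {f : τ' → MvPowerSeries τ S} (hf : DM7cc f)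
    (h : ∀ x y : τ → MvPowerSeries (τ ⊕ τ) S, DM7cc x → DM7cc y →
      cmp f (G.add C x y) = H.add C (cmp f x) (cmp f y)) : IsHom G H f :=
  ⟨hf, fun i => by
    have := congrFun (h _ _ (.X' Sum.inl) (.X' Sum.inr)) i
    rwa [DM7_add_X] at this⟩

theorem IsHom.DM7_neg {G : FGL S τ} {H : FGL S τ'} {f : τ' → MvPowerSeries τ S} (hf : IsHom G H f)
    {x : τ → MvPowerSeries σ S} (hx : DM7cc x) : cmp f (cmp G.N x) = cmp H.N (cmp f x) :=
  congrArg FGL.Pts.v (map_neg (hf.act C (mX σ S)) (hx.pt G))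

/-- A retraction which is compatible with the addition induces a group law. -/
theorem DM7_retract (G : FGL S τ) {π : τ' → MvPowerSeries τ S} {ι : τ → MvPowerSeries τ' S}
    (hπ : DM7cc π) (hι : DM7cc ι) (h1 : cmp π ι = X)
    (h2 : ∀ {σ : Type} [Finite σ] (x y : τ → MvPowerSeries σ S), DM7cc x → DM7cc y →
      cmp π (G.add C x y) = cmp π (G.add C (cmp ι (cmp π x)) (cmp ι (cmp π y)))) :
    ∃ H : FGL S τ', IsHom G H π := by
  set F := cmp π (G.add C (cmp ι (X ∘ Sum.inl)) (cmp ι (X ∘ Sum.inr))) with hF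
  have a1 : DM7cc (cmp ι (X ∘ Sum.inl : τ' → MvPowerSeries (τ' ⊕ τ') S)) := hι.cmp (.X' _)
  have a2 : DM7cc (cmp ι (X ∘ Sum.inr : τ' → MvPowerSeries (τ' ⊕ τ') S)) := hι.cmp (.X' _)
  have key : ∀ {σ : Type} [Finite σ] (x y : τ' → MvPowerSeries σ S), DM7cc x → DM7cc y →
      cmp F (Sum.elim x y) = cmp π (G.add C (cmp ι x) (cmp ι y)) := fun x y hx hy => by
    have e := hx.elim hy
    rw [hF, cmp_assoc (a1.add G a2) e, a1.add_cmp G a2 e, cmp_assoc (DM7cc.X' _) e,
      cmp_assoc (DM7cc.X' _) e, e.X_cmp', e.X_cmp']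
    rfl
  have pi : ∀ {σ : Type} [Finite σ] (x : τ' → MvPowerSeries σ S), DM7cc x →
      cmp π (cmp ι x) = x := fun x hx => by rw [← cmp_assoc hι hx, h1, hx.X_cmp]
  have F0 : DM7cc F := hπ.cmp (a1.add G a2)
  have hN : DM7cc (cmp G.N ι) := DM7cc.cmp G.N0 hι
  refine ⟨⟨F, cmp π (cmp G.N ι), F0, hπ.cmp hN, fun i => ?_, fun i => ?_, fun i => ?_,
    fun i => ?_⟩, DM7_isHom hπ fun x y hx hy => ?_⟩
  · refine (congrFun (key _ _ .X .zero) i).trans ?_
    rw [hι.cmp_zero, DM7_cmp_X, hι.add_zero, h1]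
  · refine (congrFun (key _ _ (.X' _) (.X' _)) i).trans ?_
    rw [a2.add_comm G a1]
  · have b : ∀ f : τ' → τ' ⊕ τ' ⊕ τ', DM7cc (cmp ι (X ∘ f : τ' → MvPowerSeries _ S)) :=
      fun f => hι.cmp (.X' f)
    refine (congrFun (key (cmp F (Sum.elim _ _)) _ (F0.cmp ((DM7cc.X' _).elim (.X' _)))
      (.X' _)) i).trans (Eq.trans ?_ (congrFun (key _ (cmp F (Sum.elim _ _)) (.X' _)
      (F0.cmp ((DM7cc.X' _).elim (.X' _)))) i).symm)
    rw [key _ _ (.X' _) (.X' _), key _ _ (.X' _) (.X' _)]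
    have l := h2 _ _ ((b Sum.inl).add G (b (Sum.inr ∘ Sum.inl))) (b (Sum.inr ∘ Sum.inr))
    have r := h2 _ _ (b Sum.inl) ((b (Sum.inr ∘ Sum.inl)).add G (b (Sum.inr ∘ Sum.inr)))
    rw [pi _ (.X' _)] at l r
    rw [← l, ← r, (b _).add_assoc G (b _) (b _)]
  · refine (congrFun (key _ _ (hπ.cmp hN) .X) i).trans ?_
    have l := h2 _ _ hN hι
    rw [h1, hι.neg_add, hπ.cmp_zero] at l
    rw [← l, Pi.zero_apply]
  · exact (h2 x y hx hy).trans (key _ _ (hπ.cmp hx) (hπ.cmp hy)).symm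

/-- A section of a homomorphism whose image is closed under addition is a homomorphism. -/
theorem DM7_section {G : FGL S τ} {H : FGL S τ'} {π : τ' → MvPowerSeries τ S}
    {ι : τ → MvPowerSeries τ' S} (hπ : IsHom G H π) (hι : DM7cc ι) (h1 : cmp π ι = X)
    (h2 : ∀ x y : τ' → MvPowerSeries (τ' ⊕ τ') S, DM7cc x → DM7cc y →
      cmp ι (cmp π (G.add C (cmp ι x) (cmp ι y))) = G.add C (cmp ι x) (cmp ι y)) :
    IsHom H G ι := DM7_isHom hι fun x y hx hy => by
  rw [← h2 x y hx hy, hπ.DM7_add (hι.cmp hx) (hι.cmp hy), ← cmp_assoc hι hx, ← cmp_assoc hι hy,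
    h1, hx.X_cmp, hy.X_cmp]

end MLF
end
end
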