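import Pool.Agent.Work.MP_29d410_ag.Geo1
import Pool.Agent.Work.MP_29d410_ag.DM7A

-- merged part: Pool.Agent.Work.MP_29d410_ag.Geo2
section
/-!
# Places and extension of the ground field

Plan.  `place_ex`: let `v`, `v'` be coordinate vectors of `y`, `y'` with `v' i = 1`; then
`v i ≠ 0`, normalise `v i = 1`.  The map `k[v] → T'`, `v ↦ v'`, is well defined (homogenise a
relation with the variable `i`; `y' ∈ ext (loc y)` and `idl (loc y)` consists of the forms vanishing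
at `y`); extend by `exists_place`.  `conj`: if the loci agree this map is an isomorphism
`k[v₁] → k[v₂]`, it extends to the relative algebraic closures; amalgamate (`exists_amalg`).
`ext_ext`: `ext j X` is the closure of the image of `X`: write a form over `k'` as a combination
of forms over `k` with coefficients independent over `k`.
`genLD`: the same decomposition, with linear disjointness.
-/

open MvPolynomial

namespace MLF

universe u

namespace PG

variable {A B : PG.{u}} {k k' T T' : Type u} [Field k] [Field k'] [Field T] [Field T']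
  {s : A.Str k} {X Y : Set (A.Pt s)}

section aux

variable {R R' : Type u} [CommRing R] [IsLocalRing R] [CommRing R'] [IsLocalRing R']

theorem Geo2_van_map {k₀ k₁ : Type u} [CommRing k₀] [CommRing k₁] (j : k₀ →+* k₁) (j' : k₁ →+* R)
    (g : MvPolynomial A.σ k₀) {t : A.Str R} (y : A.Pt t) :
    van j' (MvPolynomial.map j g) y ↔ van (j'.comp j) g y := by
  simp only [van, eval₂_map]

theorem Geo2_van_pt {k₀ : Type u} [CommRing k₀] (j : k₀ →+* R) {φ : R →+* R'}
    (hφ : Function.Injective φ) {g : MvPolynomial A.σ k₀} {d : ℕ} (hg : g.IsHomogeneous d)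
    {t : A.Str R} {t' : A.Str R'} (h : A.push φ t = t') (y : A.Pt t) :
    van (φ.comp j) g (A.map φ h y) ↔ van j g y := by
  obtain ⟨v, hv⟩ := A.ax.exists_rep y
  rw [van_iff hg hv, van_iff hg (rep_map φ h hv), ← eval₂_comp_left, map_eq_zero_iff φ hφ]

theorem Geo2_red_van {W : ValuationSubring k} {r : W →+* R}
    {t : A.Str R} {x : A.Pt s} {y : A.Pt t} (h : Red W r x y) {k₀ : Type u} [CommRing k₀]
    (i : k₀ →+* W) {g : MvPolynomial A.σ k₀} {d : ℕ} (hg : g.IsHomogeneous d)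
    (hx : van (W.subtype.comp i) g x) : van (r.comp i) g y := by
  obtain ⟨v, hv, -, hy⟩ := h
  have h1 : eval₂ (W.subtype.comp i) (W.subtype ∘ v) g = 0 := hx _ hv
  rw [← eval₂_comp_left, map_eq_zero_iff _ W.subtype_injective] at h1
  rw [van_iff hg hy, ← eval₂_comp_left, h1, map_zero]

theorem Geo2_mem_idl {j : k →+* R} {t : A.Str R} {y : A.Pt t} {g : MvPolynomial A.σ k} {d : ℕ}
    (hg : g.IsHomogeneous d) (h : van j g y) : g ∈ idl (loc j s y) :=
  ⟨⟨d, hg⟩, fun _ hx => hx g d hg h⟩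

/-- Normalised coordinate vectors of a point and of a specialisation. -/
theorem Geo2_rel {j : k →+* T} {j' : k →+* T'} {s₁ : A.Str T} {s₂ : A.Str T'} {y : A.Pt s₁}
    {y' : A.Pt s₂} (hy : y' ∈ ext j' s₂ (loc j s y)) :
    ∃ v v' i, A.Rep y v ∧ A.Rep y' v' ∧ v i = 1 ∧ v' i = 1 := by
  obtain ⟨v', i, hv', hi⟩ := exists_rep_one y'
  obtain ⟨v, hv⟩ := A.ax.exists_rep y
  have h0 : v i ≠ 0 := by
    intro h
    have hX := isHomogeneous_X k i
    have := hy _ (Geo2_mem_idl hX ((van_iff hX hv).2 (by rw [eval₂_X, h]))) v' hv'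
    rw [eval₂_X, hi] at this
    exact one_ne_zero this
  exact ⟨(v i)⁻¹ • v, v', i, A.ax.rep_smul hv (inv_ne_zero h0).isUnit, hv',
    inv_mul_cancel₀ h0, hi⟩

theorem Geo2_rel' {j : k →+* T} {j' : k →+* T'} {s₁ : A.Str T} {s₂ : A.Str T'} {y : A.Pt s₁}
    {y' : A.Pt s₂} (hy : y' ∈ ext j' s₂ (loc j s y)) {v : A.σ → T} {v' : A.σ → T'} {i : A.σ}
    (hv : A.Rep y v) (hv' : A.Rep y' v') (hi : v i = 1) (hi' : v' i = 1) (f : MvPolynomial A.σ k)
    (hf : eval₂ j v f = 0) : eval₂ j' v' f = 0 := by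
  obtain ⟨g, d, hg, e⟩ := Geo2A_homog f i
  rw [← e j' v' hi']
  exact hy g (Geo2_mem_idl hg ((van_iff hg hv).2 ((e j v hi).trans hf))) v' hv'

/-- Points with the same locus have coordinate vectors with the same relations. -/
theorem Geo2_same [IsAlgClosed k] {j : k →+* T} {j' : k →+* T'} {s₁ : A.Str T} {s₂ : A.Str T'}
    (h : A.push j s = s₁) (h' : A.push j' s = s₂) {y : A.Pt s₁} {y' : A.Pt s₂}
    (hy : loc j s y = loc j' s y') :
    ∃ v v', A.Rep y v ∧ A.Rep y' v' ∧ (∃ i, v i = 1) ∧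
      ∀ f, eval₂ j v f = 0 ↔ eval₂ j' v' f = 0 := by
  have h1 : y' ∈ ext j' s₂ (loc j s y) := hy ▸ mem_ext_loc h' y'
  have h2 : y ∈ ext j s₁ (loc j' s y') := hy ▸ mem_ext_loc h y
  obtain ⟨v, v', i, hv, hv', hi, hi'⟩ := Geo2_rel h1
  exact ⟨v, v', hv, hv', ⟨i, hi⟩, fun f => ⟨Geo2_rel' h1 hv hv' hi hi' f,
    Geo2_rel' h2 hv' hv hi' hi f⟩⟩

omit [IsLocalRing R] in
theorem Geo2_eval (j : k →+* k') (j' : k' →+* R) (v : A.σ → R) {n : ℕ} (c : Fin n → k')
    (f : Fin n → MvPolynomial A.σ k) :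
    eval₂ j' v (∑ i, C (c i) * MvPolynomial.map j (f i)) =
      ∑ i, j' (c i) * eval₂ (j'.comp j) v (f i) := by
  simp only [eval₂_sum, eval₂_mul, eval₂_C, eval₂_map]

/-- A form over the bigger field which vanishes on the image of `X`. -/
theorem Geo2_idl (j : k →+* k') (j' : k' →+* R) {s' : A.Str k'} (h : A.push j s = s')
    {s'' : A.Str R} {y : A.Pt s''} (hy : y ∈ ext (j'.comp j) s'' X) :
    y ∈ ext j' s'' (A.map j h '' X) := by
  rintro g ⟨⟨d, hd⟩, hg⟩ w hw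
  obtain ⟨n, c, f, hc, rfl, hf⟩ := Geo2A_decomp j g
  rw [Geo2_eval]
  refine Finset.sum_eq_zero fun i _ => ?_
  rw [hy (f i) ⟨⟨d, hf i d hd⟩, fun x hx v hv => ?_⟩ w hw, mul_zero]
  have h1 := hg _ ⟨x, hx, rfl⟩ _ (rep_map j h hv)
  rw [Geo2_eval] at h1
  refine hc (fun i => eval₂ (RingHom.id k) v (f i)) ?_ i
  rw [← h1]
  refine Finset.sum_congr rfl fun i _ => ?_
  rw [eval₂_comp_left]
  rfl

/-- A criterion for a point to stay generic. -/
theorem Geo2_gen (j : k →+* k') (j' : k' →+* R) (s' : A.Str k') {s'' : A.Str R} {y : A.Pt s''}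
    {v : A.σ → R} (hv : A.Rep y v)
    (H : ∀ (n : ℕ) (c : Fin n → k') (f : Fin n → MvPolynomial A.σ k),
      (∀ b : Fin n → k, ∑ i, c i * j (b i) = 0 → ∀ i, b i = 0) →
      ∑ i, j' (c i) * eval₂ (j'.comp j) v (f i) = 0 → ∀ i, eval₂ (j'.comp j) v (f i) = 0) :
    ext j s' (loc (j'.comp j) s y) ⊆ loc j' s' y := by
  intro x hx g d hd hg w hw
  obtain ⟨n, c, f, hc, rfl, hf⟩ := Geo2A_decomp j g
  have h1 := hg v hv
  rw [Geo2_eval] at h1 ⊢
  refine Finset.sum_eq_zero fun i _ => ?_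
  have h2 := hx (f i) (Geo2_mem_idl (hf i d hd) ((van_iff (hf i d hd) hv).2 (H n c f hc h1 i))) w hw
  rw [RingHom.id_comp, h2, mul_zero]

/-- Finitely many forms suffice. -/
theorem Geo2_span {G : Set (MvPolynomial A.σ k)} (hG : idl X ⊆ Ideal.span G) {j : k →+* R}
    {t : A.Str R} {y : A.Pt t} (h : ∀ g ∈ G, van j g y) : y ∈ ext j t X := by
  intro f hf v hv
  have : Ideal.span G ≤ RingHom.ker (eval₂Hom j v) := Ideal.span_le.2 fun g hg => h g hg v hv
  exact this (hG hf)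

end aux

theorem red_mem_ext {j : k →+* T} {j' : k →+* T'} (P : Place j j') {s₁ : A.Str T} {s₂ : A.Str T'}
    {y : A.Pt s₁} {y' : A.Pt s₂} (h : Red P.W P.r y y') (hy : y ∈ ext j s₁ X) :
    y' ∈ ext j' s₂ X := by
  intro g hg
  obtain ⟨d, hd⟩ := hg.1
  have e : P.r.comp P.jW = j' := RingHom.ext P.r_j
  rw [← e]
  exact Geo2_red_van h P.jW hd (hy g hg)

/-- Reduction of a closed set along a valuation of the ground field: reduce the equations. -/
theorem Red.van {W : ValuationSubring k} {R : Type u} [CommRing R] [IsLocalRing R] {r : W →+* R}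
    {t : A.Str R} {x : A.Pt s} {y : A.Pt t} (h : Red W r x y) {k₀ : Type u} [CommRing k₀]
    (i : k₀ →+* W) {g : MvPolynomial A.σ k₀} {d : ℕ} (hg : g.IsHomogeneous d)
    (hx : van (W.subtype.comp i) g x) : van (r.comp i) g y :=
  Geo2_red_van h i hg hx

theorem place_ex [IsAlgClosed k] [IsAlgClosed T'] {j : k →+* T} {j' : k →+* T'} {s₁ : A.Str T}
    {s₂ : A.Str T'} (h : A.push j s = s₁) (h' : A.push j' s = s₂) {y : A.Pt s₁} {y' : A.Pt s₂}
    (hy : y' ∈ ext j' s₂ (loc j s y)) : ∃ P : Place j j', P.red h h' y = y' ∧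
      ∀ z : P.W, P.r z = 0 ↔ P.W.valuation (z : T) < 1 := by
  obtain ⟨v, v', i, hv, hv', hi, hi'⟩ := Geo2_rel hy
  obtain ⟨W, r, h1, h2, h3⟩ := Geo2A_place j j' v v' (Geo2_rel' hy hv hv' hi hi')
  refine ⟨⟨W, fun c => (h1 c).1, r, fun c => (h1 c).2⟩, ?_, h3⟩
  rw [Place.red_eq_iff]
  refine ⟨fun l => ⟨v l, (h2 l).1⟩, hv, ⟨i, ?_⟩, ?_⟩
  · exact IsUnit.of_mul_eq_one 1 (Subtype.ext ((mul_one _).trans hi))
  · convert hv' using 1
    exact funext fun l => (h2 l).2

theorem mem_loc_iff [IsAlgClosed k] {j : k →+* T} {s₁ : A.Str T} (h : A.push j s = s₁)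
    {y : A.Pt s₁} {x : A.Pt s} : x ∈ loc j s y ↔
      ∃ P : Place j (RingHom.id k), P.red h (A.ax.push_id s) y = x := by
  constructor
  · intro hx
    obtain ⟨P, hP, -⟩ := place_ex h (A.ax.push_id s) (subset_cl _ hx)
    exact ⟨P, hP⟩
  · rintro ⟨P, hP⟩
    exact cl_loc j y (red_mem_ext P ((P.red_eq_iff _ _).1 hP) (mem_ext_loc h y))

theorem mem_ext_iff [IsAlgClosed k] {j : k →+* T} {s₁ : A.Str T} (h : A.push j s = s₁) (hX : Cl X)
    {y : A.Pt s₁} : y ∈ ext j s₁ X ↔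
      ∀ P : Place j (RingHom.id k), P.red h (A.ax.push_id s) y ∈ X := by
  refine ⟨fun hy P => hX (red_mem_ext P ((P.red_eq_iff _ _).1 rfl) hy), fun H => ?_⟩
  rw [← loc_subset_iff h hX]
  intro x hx
  obtain ⟨P, rfl⟩ := (mem_loc_iff h).1 hx
  exact H P

/-- Points with the same locus are conjugate. -/
theorem conj [IsAlgClosed k] {j : k →+* T} {j' : k →+* T'} {s₁ : A.Str T} {s₂ : A.Str T'}
    (h : A.push j s = s₁) (h' : A.push j' s = s₂) {y : A.Pt s₁} {y' : A.Pt s₂}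
    (hy : loc j s y = loc j' s y') : ∃ (E : Type u) (_ : Field E) (_ : IsAlgClosed E)
      (ψ : T →+* E) (ψ' : T' →+* E) (t : A.Str E) (e : A.push ψ s₁ = t) (e' : A.push ψ' s₂ = t),
      ψ.comp j = ψ'.comp j' ∧ A.map ψ e y = A.map ψ' e' y' := by
  obtain ⟨v, v', hv, hv', -, H⟩ := Geo2_same h h' hy
  obtain ⟨K, _, i, a, b, w, rfl, rfl, rfl, rfl⟩ := Geo2A_common' j j' v v' H
  obtain ⟨E, _, _, ψ, ψ', e⟩ := Geo2A_amalg a b
  have e1 : ψ.comp (a.comp i) = ψ'.comp (b.comp i) := by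
    rw [← RingHom.comp_assoc, e, RingHom.comp_assoc]
  have e2 : A.push ψ' s₂ = A.push ψ s₁ := by
    rw [← h, ← h', A.ax.push_comp, A.ax.push_comp, e1]
  refine ⟨E, inferInstance, inferInstance, ψ, ψ', _, rfl, e2, e1, map_eq_of_rep ψ rfl hv ?_⟩
  convert rep_map ψ' e2 hv' using 1
  exact funext fun l => RingHom.congr_fun e (w l)

/-- Conjugation by an embedding of the algebraic closure of the field of the point. -/
theorem conj_emb [IsAlgClosed k] [IsAlgClosed T'] {j : k →+* T} {j' : k →+* T'} {s₁ : A.Str T}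
    {s₂ : A.Str T'} (h : A.push j s = s₁) (h' : A.push j' s = s₂) {y : A.Pt s₁} {y' : A.Pt s₂}
    (hy : loc j s y = loc j' s y') (hT : acl (adj j.fieldRange (rat y)) = ⊤) :
    ∃ (ψ : T →+* T') (e : A.push ψ s₁ = s₂), ψ.comp j = j' ∧ A.map ψ e y = y' := by
  obtain ⟨v, v', hv, hv', -, H⟩ := Geo2_same h h' hy
  obtain ⟨K, _, i, a, b, w, rfl, rfl, rfl, rfl⟩ := Geo2A_common' j j' v v' H
  have h1 : adj (a.comp i).fieldRange (rat y) ≤ a.fieldRange :=
    adj_le.2 ⟨by rintro _ ⟨c, rfl⟩; exact ⟨i c, rfl⟩, rat_iff.2 ⟨_, hv, fun l => ⟨w l, rfl⟩⟩⟩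
  obtain ⟨ψ, rfl⟩ := Geo2A_emb a b (top_le_iff.1 (hT ▸ acl_mono h1))
  exact ⟨ψ, by rw [← h, ← h', A.ax.push_comp, RingHom.comp_assoc], rfl, map_eq_of_rep ψ _ hv hv'⟩

/-- Conjugation by an automorphism. -/
theorem conj_aut [IsAlgClosed k] [IsAlgClosed T] {j : k →+* T} {s₁ : A.Str T}
    (h : A.push j s = s₁) {y y' : A.Pt s₁} (hy : loc j s y = loc j s y') :
    ∃ (τ : T ≃+* T) (e : A.push (τ : T →+* T) s₁ = s₁), (∀ c, τ (j c) = j c) ∧
      A.map (τ : T →+* T) e y = y' := by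
  obtain ⟨v, v', hv, hv', -, H⟩ := Geo2_same h h hy
  obtain ⟨Q, _, _, _, _, a, b, w, ha, hb, h1, h2, rfl, rfl⟩ := Geo2A_common j j v v' H
  obtain ⟨τ, hτ⟩ := Geo2A_aut a b ha hb (h1.trans h2.symm)
  have e : ∀ c, τ (j c) = j c := fun c => by
    conv_lhs => rw [← h1]
    conv_rhs => rw [← h2]
    exact hτ _
  have e1 : (τ : T →+* T).comp j = j := RingHom.ext e
  refine ⟨τ, by rw [← h, A.ax.push_comp, e1], e, map_eq_of_rep _ _ hv ?_⟩
  convert hv' using 1
  exact funext fun l => hτ (w l)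

theorem cl_image_map (j : k →+* k') {s' : A.Str k'} (h : A.push j s = s') (X : Set (A.Pt s)) :
    cl (A.map j h '' X) = ext j s' X :=
  (cl_min (by rintro _ ⟨x, hx, rfl⟩; exact map_mem_ext j h hx) (cl_ext j s' X)).antisymm
    fun _ hy => Geo2_idl j (RingHom.id k') h hy

theorem ext_ext {R : Type u} [CommRing R] [IsLocalRing R] (j : k →+* k') (j' : k' →+* R)
    {s' : A.Str k'} (h : A.push j s = s') (s'' : A.Str R) (X : Set (A.Pt s)) :
    ext j' s'' (ext j s' X) = ext (j'.comp j) s'' X := by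
  refine Set.Subset.antisymm (fun y hy g hg => ?_) fun y hy => ?_
  · obtain ⟨d, hd⟩ := hg.1
    exact (Geo2_van_map j j' g y).1 (hy _ ⟨⟨d, hd.map j⟩, fun x hx =>
      (Geo2_van_map j (RingHom.id k') g x).2 (hx g hg)⟩)
  · rw [← cl_image_map j h, ext_cl]
    exact Geo2_idl j j' h hy

theorem ext_of_bij {j : k →+* k'} (hj : Function.Surjective j) {s' : A.Str k'}
    (h : A.push j s = s') (hX : Cl X) : ext j s' X = A.map j h '' X := by
  refine Set.Subset.antisymm (fun y hy => ?_) (by rintro _ ⟨x, hx, rfl⟩; exact map_mem_ext j h hx)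
  obtain ⟨x, rfl⟩ := map_surj ⟨j.injective, hj⟩ h y
  exact ⟨x, (map_mem_ext_iff j h hX).1 hy, rfl⟩

theorem ext_subset_ext_iff (j : k →+* k') {s' : A.Str k'} (h : A.push j s = s') (hY : Cl Y) :
    ext j s' X ⊆ ext j s' Y ↔ X ⊆ Y :=
  ⟨fun H _ hx => (map_mem_ext_iff j h hY).1 (H (map_mem_ext j h hx)), ext_mono j s'⟩

theorem loc_subset_ext_loc [IsAlgClosed k] {R : Type u} [CommRing R] [IsLocalRing R] [IsDomain R]
    (j : k →+* k') (j' : k' →+* R) {s' : A.Str k'} {s'' : A.Str R} (h : A.push j s = s')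
    (h' : A.push j' s' = s'') (y : A.Pt s'') : loc j' s' y ⊆ ext j s' (loc (j'.comp j) s y) := by
  intro x hx g hg
  obtain ⟨d, hd⟩ := hg.1
  exact (Geo2_van_map j (RingHom.id k') g x).1 (hx _ d (hd.map j)
    ((Geo2_van_map j j' g y).2 (mem_ext_loc (push_trans h h') y g hg)))

theorem genLD [IsAlgClosed k] (j : k →+* k') (j' : k' →+* T) {s' : A.Str k'} {s'' : A.Str T}
    (h : A.push j s = s') (h' : A.push j' s' = s'') {y : A.Pt s''} {F : Subfield T}
    (hF : (j'.comp j).fieldRange ≤ F) (hy : Rat F y)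
    (hLD : LD (j'.comp j).fieldRange j'.fieldRange F) :
    loc j' s' y = ext j s' (loc (j'.comp j) s y) := by
  obtain ⟨v, hv, hvF⟩ := rat_iff.1 hy
  refine (loc_subset_ext_loc j j' h h' y).antisymm (Geo2_gen j j' s' hv fun n c f hc H => ?_)
  refine hLD n (fun i => j' (c i)) (fun i => ⟨c i, rfl⟩) (fun b hb e i => ?_) _
    (fun i => eval₂_mem (fun _ _ => hF ⟨_, rfl⟩) hvF) ?_
  · choose b' hb' using hb
    have : ∑ i, c i * j (b' i) = 0 := by
      apply j'.injective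
      rw [map_sum, map_zero, ← e]
      refine Finset.sum_congr rfl fun i _ => ?_
      rw [← hb', map_mul, mul_comm]
      rfl
    rw [← hb', hc b' this i, map_zero]
  · rw [← H]
    exact Finset.sum_congr rfl fun i _ => mul_comm _ _

/-- A power series point stays generic after extending the coefficients. -/
theorem loc_ps [IsAlgClosed k] (j : k →+* k') {s' : A.Str k'} (h : A.push j s = s')
    {t : A.Str (PowerSeries k)} (ht : A.push PowerSeries.C s = t) {t' : A.Str (PowerSeries k')}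
    (ht' : A.push (PowerSeries.map j) t = t') (y : A.Pt t) :
    loc PowerSeries.C s' (A.map (PowerSeries.map j) ht' y) =
      ext j s' (loc PowerSeries.C s y) := by
  have e : (PowerSeries.map j).comp PowerSeries.C = PowerSeries.C.comp j :=
    RingHom.ext fun c => PowerSeries.map_C j c
  have h' : A.push PowerSeries.C s' = t' := by
    rw [← h, ← ht', ← ht, A.ax.push_comp, A.ax.push_comp, e]
  rw [← loc_map (PowerSeries.map_injective j j.injective) ht' y, e]
  obtain ⟨v, hv⟩ := A.ax.exists_rep y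
  refine (loc_subset_ext_loc j _ h h' _).antisymm
    (Geo2_gen j _ s' (rep_map _ ht' hv) fun n c f hc H i => ?_)
  simp only [← e, ← eval₂_comp_left] at H ⊢
  ext m
  have := congrArg (PowerSeries.coeff m) H
  simp only [map_sum, PowerSeries.coeff_C_mul, PowerSeries.coeff_map, map_zero] at this
  rw [PowerSeries.coeff_map, hc _ this i, map_zero, map_zero]

/-- A generic point over a bigger field, free from it. -/
theorem Var.exists_gen' [IsAlgClosed k] (hX : Var X) (j : k →+* k') :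
    ∃ (E : Type u) (_ : Field E) (_ : IsAlgClosed E) (i : k' →+* E)
      (y : A.Pt (A.push (i.comp j) s)), loc (i.comp j) s y = X ∧
      LD (i.comp j).fieldRange i.fieldRange (acl (adj (i.comp j).fieldRange (rat y))) := by
  obtain ⟨T, _, _, j₀, y₀, hy, -⟩ := hX.exists_gen
  obtain ⟨E, _, _, i, j₂, e, hLD⟩ := exists_amalg j j₀
  have e1 : A.push j₂ (A.push j₀ s) = A.push (i.comp j) s := by rw [A.ax.push_comp, e]
  refine ⟨E, inferInstance, inferInstance, i, A.map j₂ e1 y₀, ?_, hLD.mono le_rfl ?_⟩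
  · rw [← hy, ← loc_map j₂.injective e1 y₀]
    exact congrArg (fun φ => loc φ s (A.map j₂ e1 y₀)) e
  · refine (acl_mono (adj_le.2 ⟨?_, ?_⟩)).trans acl_eq.le
    · rintro _ ⟨c, rfl⟩
      exact ⟨j₀ c, (RingHom.congr_fun e c).symm⟩
    · rw [rat_map]
      rintro _ ⟨z, -, rfl⟩
      exact ⟨z, rfl⟩

theorem var_ext [IsAlgClosed k] [IsAlgClosed k'] (hX : Var X) (j : k →+* k') {s' : A.Str k'}
    (h : A.push j s = s') : Var (ext j s' X) := by
  obtain ⟨E, _, _, i, y, hy, hLD⟩ := hX.exists_gen' j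
  have h' : A.push i s' = A.push (i.comp j) s := by rw [← h, A.ax.push_comp]
  rw [← hy, ← genLD j i h h' ((le_adj _ _).trans (le_acl _)) ((rat_adj _ y).mono (le_acl _)) hLD]
  exact var_loc h' y

theorem var_of_ext [IsAlgClosed k] (hX : Cl X) (j : k →+* k') {s' : A.Str k'}
    (h : A.push j s = s') (hv : Var (ext j s' X)) : Var X := by
  refine ⟨hX, Set.nonempty_iff_ne_empty.2 ?_, fun Y Z hY hZ H => ?_⟩
  · rintro rfl
    exact hv.2.1.ne_empty ext_empty
  · rw [← ext_subset_ext_iff j h hY, ← ext_subset_ext_iff j h hZ]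
    refine hv.2.2 _ _ (cl_ext j s' Y) (cl_ext j s' Z) ?_
    rw [← ext_union]
    exact ext_mono j s' H

/-- A closed set is defined over every subfield containing finitely many coefficients. -/
theorem Cl.exists_def (hX : Cl X) : ∃ F : Finset k, ∀ {k₀ : Type u} [Field k₀] [IsAlgClosed k₀]
    (i : k₀ →+* k) (s₀ : A.Str k₀) (h : A.push i s₀ = s), (F : Set k) ⊆ Set.range i →
    ext i s (A.map i h ⁻¹' X) = X ∧ Cl (A.map i h ⁻¹' X) := by
  classical
  obtain ⟨G, hG, h1, h2⟩ := exists_finite_idl X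
  refine ⟨hG.toFinset.biUnion coeffs, fun {k₀} _ _ i s₀ h hF => ?_⟩
  have key : ∀ g ∈ G, ∃ (g₀ : MvPolynomial A.σ k₀) (d : ℕ), g₀.IsHomogeneous d ∧
      MvPolynomial.map i g₀ = g := by
    intro g hg
    obtain ⟨g₀, rfl⟩ := mem_range_map_iff_coeffs_subset.2 fun c hc =>
      hF (Finset.mem_biUnion.2 ⟨g, hG.mem_toFinset.2 hg, hc⟩)
    obtain ⟨d, hd⟩ := (h1 hg).1
    exact ⟨g₀, d, hd.of_map i.injective, rfl⟩
  have a1 : ext i s (A.map i h ⁻¹' X) ⊆ X := by
    refine fun y hy => hX (Geo2_span h2 fun g hg => ?_)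
    obtain ⟨g₀, d, hd, rfl⟩ := key g hg
    exact (Geo2_van_map i _ g₀ y).2 (hy g₀ ⟨⟨d, hd⟩, fun x hx =>
      (Geo2_van_pt (RingHom.id k₀) i.injective hd h x).1
        ((Geo2_van_map i _ g₀ _).1 ((h1 hg).2 _ hx))⟩)
  have a2 : Cl (A.map i h ⁻¹' X) := fun x hx =>
    a1 (ext_cl i s (A.map i h ⁻¹' X) ▸ map_mem_ext (X := cl (A.map i h ⁻¹' X)) i h hx)
  refine ⟨a1.antisymm fun y hy => (loc_subset_iff h a2).1 fun x hx => ?_, a2⟩
  refine hX (Geo2_span h2 fun g hg => ?_)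
  obtain ⟨g₀, d, hd, rfl⟩ := key g hg
  exact (Geo2_van_map i _ g₀ _).2 ((Geo2_van_pt (RingHom.id k₀) i.injective hd h x).2
    (hx g₀ d hd ((Geo2_van_map i _ g₀ y).1 ((h1 hg).2 y hy))))

/-- Endomorphisms of an extension fixing finitely many coefficients preserve a closed set. -/
theorem exists_fix (X : Set (A.Pt s)) : ∃ F : Finset k, ∀ {R R' : Type u} [CommRing R]
    [IsLocalRing R] [CommRing R'] [IsLocalRing R'] (j : k →+* R) (j' : k →+* R') (τ : R →+* R')
    (s₁ : A.Str R) (s₂ : A.Str R') (e : A.push τ s₁ = s₂), (∀ c ∈ F, τ (j c) = j' c) →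
    ∀ y ∈ ext j s₁ X, A.map τ e y ∈ ext j' s₂ X := by
  classical
  obtain ⟨G, hG, h1, h2⟩ := exists_finite_idl X
  refine ⟨hG.toFinset.biUnion coeffs, fun j j' τ s₁ s₂ e hF y hy => Geo2_span h2 ?_⟩
  intro g hg v hv
  rw [← mem_ext_map τ e hy g (h1 hg) v hv]
  exact Geo2A_congr v fun c hc =>
    (hF c (Finset.mem_biUnion.2 ⟨g, hG.mem_toFinset.2 hg, hc⟩)).symm

/-- Joint places for an independent family. -/
theorem joint_place [IsAlgClosed k] [IsAlgClosed k'] {i : k →+* T} {j : k →+* T'} {j' : k →+* k'}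
    {m : ℕ} {ψ : Fin m → (T →+* T')} (hψ : ∀ l, (ψ l).comp i = j) (h : IndepFam j.fieldRange ψ)
    (P : Fin m → Place i j') (hP : ∀ l, ∀ z : (P l).W, (P l).r z = 0 ↔ (P l).W.valuation (z : T) < 1) :
    ∃ Q : Place j j', ∀ l (z : (P l).W), ∃ hm : ψ l z ∈ Q.W, Q.r ⟨_, hm⟩ = (P l).r z := by
  obtain ⟨R, θ, -, h2, h3⟩ := Geo2A_joint hψ h (fun l => (P l).W.toSubring) (fun l => (P l).r)
    (fun l c => ⟨(P l).mem c, (P l).r_j c⟩) Finset.univ
  obtain ⟨W, hW, r, h4, -⟩ := exists_place R θ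
  refine ⟨⟨W, fun c => hW (h2 c).1, r, fun c => (h4 ⟨_, (h2 c).1⟩).trans (h2 c).2⟩, fun l z => ?_⟩
  obtain ⟨hm, e⟩ := h3 l (Finset.mem_univ l) z
  exact ⟨hW hm, (h4 ⟨_, hm⟩).trans e⟩

theorem Red.of_map {W : ValuationSubring T} {W' : ValuationSubring T'} {R : Type u} [CommRing R]
    [IsLocalRing R] {r : W →+* R} {r' : W' →+* R} (ψ : T →+* T')
    (hψ : ∀ z : W, ∃ hm : ψ z ∈ W', r' ⟨_, hm⟩ = r z) {s₁ : A.Str T} {s₂ : A.Str T'}
    (e : A.push ψ s₁ = s₂) {t : A.Str R} {x : A.Pt s₁} {y : A.Pt t} (h : Red W r x y) :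
    Red W' r' (A.map ψ e x) y := by
  obtain ⟨v, hv, ⟨i, hi⟩, hy⟩ := h
  refine ⟨fun l => ⟨ψ (v l), (hψ _).1⟩, rep_map ψ e hv, ⟨i, ?_⟩, ?_⟩
  · obtain ⟨c, hc⟩ := hi.exists_right_inv
    refine IsUnit.of_mul_eq_one ⟨ψ c, (hψ c).1⟩ (Subtype.ext ?_)
    have := congrArg (fun z : W => ψ z) hc
    simpa using this
  · convert hy using 1
    exact funext fun l => (hψ (v l)).2

end PG

end MLF
end

-- merged part: Pool.Agent.Work.MP_29d410_ag.Geo3
section
/-!
# Natural maps; images, preimages, sums and products of varieties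

A natural map is a family of maps on points over all extension fields which commutes with places.
Plan.  If `X = loc ξ` then `f X = loc (f ξ)` (`mem_loc_iff`), and `ext (f X) = f (ext X)` over an
algebraically closed field by `place_ex`.  The preimage of a closed set under the second
projection is closed (rename the forms along `b ↦ (a, b)`); for a general `f` and a variety `X`,
`X ∩ f ⁻¹ Y` is the image under the first projection of the intersection of the graph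
(the image of `X` under `pair id f`) with `snd ⁻¹ Y`; decompose closed sets in varieties.
`ext_preimage`: `mem_ext_iff`.  Statements for points over a local domain `R` follow by passing
to the fraction field (`mem_ext_map_iff`).
-/

open MvPolynomial Pointwise

namespace MLF

universe u

/-- Natural maps. -/
structure NM (A B : PG.{u}) {k : Type u} [Field k] (s : A.Str k) (t : B.Str k) where
  f : ∀ {T : Type u} [Field T] (j : k →+* T) {s' : A.Str T} {t' : B.Str T},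
    A.push j s = s' → B.push j t = t' → A.Pt s' → B.Pt t'
  red : ∀ {T T' : Type u} [Field T] [Field T'] {j : k →+* T} {j' : k →+* T'} (P : Place j j')
    {s₁ : A.Str T} {s₂ : A.Str T'} {t₁ : B.Str T} {t₂ : B.Str T'} (h₁ : A.push j s = s₁)
    (h₂ : A.push j' s = s₂) (e₁ : B.push j t = t₁) (e₂ : B.push j' t = t₂) (x : A.Pt s₁),
    P.red e₁ e₂ (f j h₁ e₁ x) = f j' h₂ e₂ (P.red h₁ h₂ x)

namespace NM

variable {A B C : PG.{u}} {k T : Type u} [Field k] [Field T] {s : A.Str k} {t : B.Str k}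
  {r : C.Str k}

/-- The map on points over the ground field. -/
def f₀ (φ : NM A B s t) : A.Pt s → B.Pt t := φ.f (RingHom.id k) (A.ax.push_id s) (B.ax.push_id t)

/-- The identity. -/
def id (s : A.Str k) : NM A A s s where
  f _ _ _ h h' x := (h.symm.trans h') ▸ x
  red := by intros; subst_vars; rfl

@[simp] theorem id_f {j : k →+* T} {s' : A.Str T} (h h' : A.push j s = s') (x : A.Pt s') :
    (id s).f j h h' x = x := rfl

/-- Composition. -/
def comp (ψ : NM B C t r) (φ : NM A B s t) : NM A C s r where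
  f j _ _ h h' x := ψ.f j rfl h' (φ.f j h rfl x)
  red P _ _ _ _ h₁ h₂ e₁ e₂ x := by rw [ψ.red P rfl rfl, φ.red P h₁ h₂]

theorem comp_f (ψ : NM B C t r) (φ : NM A B s t) {j : k →+* T} {s' : A.Str T} {t' : B.Str T}
    {r' : C.Str T} (h : A.push j s = s') (e : B.push j t = t') (h' : C.push j r = r')
    (x : A.Pt s') : (ψ.comp φ).f j h h' x = ψ.f j e h' (φ.f j h e x) := by subst e; rfl

/-- A constant map. -/
noncomputable def const (s : A.Str k) (b : B.Pt t) : NM A B s t where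
  f j _ _ _ h' _ := B.map j h' b
  red P _ _ _ _ _ _ e₁ e₂ _ := P.red_map e₁ e₂ b

/-- Sum. -/
def add (φ ψ : NM A B s t) : NM A B s t where
  f j _ _ h h' x := φ.f j h h' x + ψ.f j h h' x
  red P _ _ _ _ h₁ h₂ e₁ e₂ x := by rw [map_add, φ.red P h₁ h₂, ψ.red P h₁ h₂]

/-- Opposite. -/
def neg (φ : NM A B s t) : NM A B s t where
  f j _ _ h h' x := -φ.f j h h' x
  red P _ _ _ _ h₁ h₂ e₁ e₂ x := by rw [map_neg, φ.red P h₁ h₂]

/-- Multiples. -/
def nsmul (n : ℕ) (φ : NM A B s t) : NM A B s t where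
  f j _ _ h h' x := n • φ.f j h h' x
  red P _ _ _ _ h₁ h₂ e₁ e₂ x := by rw [map_nsmul, φ.red P h₁ h₂]

/-- First projection. -/
noncomputable def fst (s : A.Str k) (t : B.Str k) : NM (A.prod B) A (s, t) s where
  f _ _ _ h h' x := ((congrArg Prod.fst h).symm.trans h') ▸ x.1
  red := by
    intro _ _ _ _ _ _ P s₁ s₂ _ _ h₁ h₂ e₁ e₂ x
    subst_vars
    exact (congrArg Prod.fst (P.red_prod rfl rfl x)).symm

@[simp] theorem fst_f {j : k →+* T} {s' : A.Str T} {t' : B.Str T}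
    (h : (A.prod B).push j (s, t) = (s', t')) (h' : A.push j s = s') (x : (A.prod B).Pt (s', t')) :
    (fst s t).f j h h' x = x.1 := rfl

/-- Second projection. -/
noncomputable def snd (s : A.Str k) (t : B.Str k) : NM (A.prod B) B (s, t) t where
  f _ _ _ h h' x := ((congrArg Prod.snd h).symm.trans h') ▸ x.2
  red := by
    intro _ _ _ _ _ _ P s₁ s₂ _ _ h₁ h₂ e₁ e₂ x
    subst_vars
    exact (congrArg Prod.snd (P.red_prod rfl rfl x)).symm

@[simp] theorem snd_f {j : k →+* T} {s' : A.Str T} {t' : B.Str T}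
    (h : (A.prod B).push j (s, t) = (s', t')) (h' : B.push j t = t') (x : (A.prod B).Pt (s', t')) :
    (snd s t).f j h h' x = x.2 := rfl

/-- Pairing. -/
noncomputable def pair (φ : NM A B s t) (ψ : NM A C s r) : NM A (B.prod C) s (t, r) where
  f j _ _ h h' x := (φ.f j h (congrArg Prod.fst h') x, ψ.f j h (congrArg Prod.snd h') x)
  red := by
    intro _ _ _ _ _ _ P _ _ t₁ t₂ h₁ h₂ e₁ e₂ x
    refine (P.red_prod (s₁ := t₁.1) (t₁ := t₁.2) (s₂ := t₂.1) (t₂ := t₂.2) e₁ e₂ _).trans ?_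
    exact Prod.ext (φ.red P h₁ h₂ _ _ x) (ψ.red P h₁ h₂ _ _ x)

theorem geo3_frob_push (p : ℕ) [ExpChar k p] [ExpChar T p] (n : ℕ) {s' : A.Str k}
    (hs : A.push (iterateFrobenius k p n) s = s') {j : k →+* T} {t t' : A.Str T}
    (h : A.push j s = t) (h' : A.push j s' = t') : A.push (iterateFrobenius T p n) t = t' := by
  rw [← h, ← h', ← hs, A.ax.push_comp, A.ax.push_comp]
  congr 1
  ext c
  simp [iterateFrobenius_def]

theorem geo3_frob_red (p : ℕ) {T' : Type u} [Field T'] [ExpChar T p] [ExpChar T' p] (n : ℕ)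
    {W : ValuationSubring T} {ρ : W →+* T'} {s₁ t₁ : A.Str T} {s₂ t₂ : A.Str T'}
    (e₁ : A.push (iterateFrobenius T p n) s₁ = t₁) (e₂ : A.push (iterateFrobenius T' p n) s₂ = t₂)
    {x : A.Pt s₁} {y : A.Pt s₂} (h : PG.Red W ρ x y) :
    PG.Red W ρ (A.map (iterateFrobenius T p n) e₁ x) (A.map (iterateFrobenius T' p n) e₂ y) := by
  obtain ⟨v, h1, ⟨i, hi⟩, h3⟩ := h
  refine ⟨fun i => v i ^ p ^ n, ?_, ⟨i, hi.pow _⟩, ?_⟩
  · convert PG.rep_map _ e₁ h1 using 1
    funext i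
    simp [iterateFrobenius_def]
  · convert PG.rep_map _ e₂ h3 using 1
    funext i
    simp [iterateFrobenius_def]

theorem frob_aux (p : ℕ) [Fact p.Prime] [CharP k p] (n : ℕ) {s' : A.Str k}
    (hs : A.push (iterateFrobenius k p n) s = s') : ∃ φ : NM A A s s',
      ∀ {T : Type u} [Field T] [CharP T p] (j : k →+* T) {t t' : A.Str T} (h : A.push j s = t)
        (h' : A.push j s' = t') (e : A.push (iterateFrobenius T p n) t = t') (x : A.Pt t),
        φ.f j h h' x = A.map (iterateFrobenius T p n) e x := by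
  have hc : ∀ {T : Type u} [Field T] (_ : k →+* T), ExpChar T p := fun j =>
    expChar_of_injective_ringHom j.injective p
  refine ⟨⟨fun {T} _ j _ _ h h' x => haveI := hc j
    A.map (iterateFrobenius T p n) (geo3_frob_push p n hs h h') x, ?_⟩, fun j _ _ h h' e x => rfl⟩
  intro T T' _ _ j j' P s₁ s₂ t₁ t₂ h₁ h₂ e₁ e₂ x
  have := hc j
  have := hc j'
  exact (P.red_eq_iff e₁ e₂).2 (geo3_frob_red p n _ _ ((P.red_eq_iff h₁ h₂).1 rfl))

theorem map_f (φ : NM A B s t) {T' : Type u} [Field T'] {j : k →+* T} {j' : k →+* T'}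
    (ψ : T →+* T') (hψ : ψ.comp j = j') {s₁ : A.Str T} {s₂ : A.Str T'} {t₁ : B.Str T}
    {t₂ : B.Str T'} (h₁ : A.push j s = s₁) (h₂ : A.push j' s = s₂) (e₁ : B.push j t = t₁)
    (e₂ : B.push j' t = t₂) (h : A.push ψ s₁ = s₂) (e : B.push ψ t₁ = t₂) (x : A.Pt s₁) :
    B.map ψ e (φ.f j h₁ e₁ x) = φ.f j' h₂ e₂ (A.map ψ h x) := by
  have hc : ∀ c, ψ (j c) = j' c := fun c => by rw [← hψ]; rfl
  rw [← Place.red_ofHom ψ hc e₁ e₂ e, ← Place.red_ofHom ψ hc h₁ h₂ h, φ.red]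

theorem rat (φ : NM A B s t) {j : k →+* T} {s' : A.Str T} {t' : B.Str T} (h : A.push j s = s')
    (e : B.push j t = t') {E : Subfield T} (hE : j.fieldRange ≤ E) {x : A.Pt s'}
    (hx : PG.Rat E x) : PG.Rat E (φ.f j h e x) := by
  let j₀ : k →+* E := j.codRestrict E fun c => hE ⟨c, rfl⟩
  have hj : E.subtype.comp j₀ = j := RingHom.ext fun _ => rfl
  have h1 : A.push E.subtype (A.push j₀ s) = s' := by rw [A.ax.push_comp, hj, h]
  have e1 : B.push E.subtype (B.push j₀ t) = t' := by rw [B.ax.push_comp, hj, e]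
  obtain ⟨x₀, rfl⟩ := (PG.rat_subtype_iff h1).1 hx
  exact (PG.rat_subtype_iff e1).2 ⟨_, φ.map_f E.subtype hj rfl h rfl e h1 e1 x₀⟩

theorem geo3_cl_snd {Y : Set (B.Pt t)} (hY : PG.Cl Y) :
    PG.Cl (A := A.prod B) (s := (s, t)) {z | z.2 ∈ Y} := by
  intro z hz
  refine hY fun g hg => ?_
  obtain ⟨⟨d, hd⟩, hg⟩ := hg
  obtain ⟨v, hv⟩ := A.ax.exists_rep z.1
  obtain ⟨w, hw⟩ := B.ax.exists_rep z.2
  obtain ⟨a, ha⟩ := A.ax.rep_uni hv
  have h1 := hz (rename (fun b => (a, b)) g) ⟨⟨d, hd.rename_isHomogeneous⟩, ?_⟩ _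
    ⟨v, w, hv, hw, rfl⟩
  · rw [eval₂_rename, Prod_right] at h1
    exact (PG.van_iff hd (B.ax.rep_smul hw ha)).2 h1
  · rintro y hy _ ⟨v', w', -, hw', rfl⟩
    have h2 := hg _ hy _ hw'
    rw [eval₂_rename, Prod_right]
    rw [eval₂_id] at h2 ⊢
    rw [Prod_hom hd, h2, mul_zero]

variable [IsAlgClosed k] (φ : NM A B s t) {X : Set (A.Pt s)} {Y : Set (B.Pt t)} {j : k →+* T}
  {s' : A.Str T} {t' : B.Str T}

theorem loc_f (h : A.push j s = s') (e : B.push j t = t') (y : A.Pt s') :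
    PG.loc j t (φ.f j h e y) = φ.f₀ '' PG.loc j s y := by
  ext x
  rw [PG.mem_loc_iff e]
  constructor
  · rintro ⟨P, rfl⟩
    exact ⟨_, (PG.mem_loc_iff h).2 ⟨P, rfl⟩, (φ.red P h _ e _ y).symm⟩
  · rintro ⟨x, hx, rfl⟩
    obtain ⟨P, rfl⟩ := (PG.mem_loc_iff h).1 hx
    exact ⟨P, φ.red P h _ e _ y⟩

theorem var_image (hX : PG.Var X) : PG.Var (φ.f₀ '' X) := by
  obtain ⟨T, _, _, j, y, rfl, -⟩ := hX.exists_gen
  rw [← φ.loc_f rfl rfl]
  exact PG.var_loc rfl _

theorem cl_image (hX : PG.Cl X) : PG.Cl (φ.f₀ '' X) := by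
  obtain ⟨S, hS, hV, rfl⟩ := hX.exists_comp
  rw [Set.sUnion_eq_biUnion, Set.image_iUnion₂]
  exact PG.cl_biUnion hS fun Z hZ => (φ.var_image (hV Z hZ)).1

theorem cl_preimage (hY : PG.Cl Y) : PG.Cl (φ.f₀ ⁻¹' Y) := by
  have h1 := (fst s t).cl_image
    ((((id s).pair φ).cl_image PG.cl_univ).inter (geo3_cl_snd (s := s) hY))
  convert h1 using 1
  ext x
  constructor
  · intro hx
    exact ⟨(x, φ.f₀ x), ⟨⟨x, trivial, rfl⟩, hx⟩, rfl⟩
  · rintro ⟨_, ⟨⟨x, -, rfl⟩, hx⟩, rfl⟩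
    exact hx

theorem image_cl (X : Set (A.Pt s)) : φ.f₀ '' PG.cl X = PG.cl (φ.f₀ '' X) := by
  refine Set.Subset.antisymm ?_
    (PG.cl_min (Set.image_mono (PG.subset_cl X)) (φ.cl_image (PG.cl_cl X)))
  rw [Set.image_subset_iff]
  exact PG.cl_min (Set.image_subset_iff.1 (PG.subset_cl _)) (φ.cl_preimage (PG.cl_cl _))

theorem mem_ext (h : A.push j s = s') (e : B.push j t = t') {y : A.Pt s'}
    (hy : y ∈ PG.ext j s' X) : φ.f j h e y ∈ PG.ext j t' (φ.f₀ '' X) := by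
  rw [← PG.ext_cl] at hy ⊢
  rw [← PG.loc_subset_iff e (PG.cl_cl _), φ.loc_f h e, ← φ.image_cl]
  exact Set.image_mono (PG.loc_subset (PG.cl_cl X) hy)

theorem ext_image [IsAlgClosed T] (h : A.push j s = s') (e : B.push j t = t') (X : Set (A.Pt s)) :
    PG.ext j t' (φ.f₀ '' X) = φ.f j h e '' PG.ext j s' X := by
  refine Set.Subset.antisymm (fun z hz => ?_) ?_
  · obtain ⟨S, hS, hV, hX⟩ := (PG.cl_cl X).exists_comp
    rw [← PG.ext_cl, ← φ.image_cl, hX, Set.sUnion_eq_biUnion, Set.image_iUnion₂,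
      PG.ext_biUnion hS] at hz
    obtain ⟨Z, hZ, hz⟩ := Set.mem_iUnion₂.1 hz
    obtain ⟨T₁, _, _, j₁, y, hy, hy'⟩ := (hV Z hZ).exists_gen
    rw [← hy, ← φ.loc_f rfl rfl] at hz
    obtain ⟨P, rfl, -⟩ := PG.place_ex rfl e hz
    refine ⟨P.red rfl h y, ?_, (φ.red P rfl h rfl e y).symm⟩
    rw [← PG.ext_cl]
    refine PG.ext_mono j s' ?_ (PG.red_mem_ext P ((P.red_eq_iff rfl h).1 rfl) hy')
    rw [hX]
    exact Set.subset_sUnion_of_mem hZ
  · rintro _ ⟨y, hy, rfl⟩
    exact φ.mem_ext h e hy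

theorem ext_preimage (h : A.push j s = s') (e : B.push j t = t') (hY : PG.Cl Y) :
    PG.ext j s' (φ.f₀ ⁻¹' Y) = φ.f j h e ⁻¹' PG.ext j t' Y := by
  ext y
  rw [← PG.loc_subset_iff h (φ.cl_preimage hY), Set.mem_preimage, ← PG.loc_subset_iff e hY,
    φ.loc_f h e, Set.image_subset_iff]

end NM

end MLF
end

-- merged part: Pool.Agent.Work.MP_29d410_ag.Geo3b
section
/-!
# Sums, multiples, products of closed sets; extension of subgroups

Plan.  Corollaries of the statements on natural maps (`NM`).  Products: a form on the Segre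
product restricted to `{x} × B` is a form on `B`.  `ext_prod`, inclusion from right to left:
reduce by places (`mem_ext_iff`).  `var_prod`: the locus of a pair of free generic points
(`Var.exists_gen'`, `genLD`, `loc_prod`).  Statements for points over a local domain `R` follow
by passing to the fraction field (`mem_ext_map_iff`, `ext` along the composite).
`loc_prod`: a form on the product vanishing at `(ξ, η)` gives, after substituting the
coordinates of `η`, a form over `F` vanishing at `ξ`, hence at the image of each `x ∈ loc ξ`; then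
substitute the coordinates of `x`.
-/

open MvPolynomial Pointwise

namespace MLF

universe u

namespace PG

variable {A B : PG.{u}} {k T R : Type u} [Field k] [Field T] [CommRing R] [IsLocalRing R]
  [IsDomain R] [IsAlgClosed k] {s : A.Str k} {t : B.Str k} {X X' : Set (A.Pt s)} {Y : Set (B.Pt t)}

/-- The product of two sets as a subset of the points of the product. -/
def sprod {R : Type u} [CommRing R] [IsLocalRing R] {s : A.Str R} {t : B.Str R} (X : Set (A.Pt s))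
    (Y : Set (B.Pt t)) : Set ((A.prod B).Pt (s, t)) := {z | z.1 ∈ X ∧ z.2 ∈ Y}

/-- The relation `y' = φ y` for points with values in a local domain. -/
def Geo3bRel (φ : NM A B s t) (j : k →+* R) {s' : A.Str R} {t' : B.Str R} (h : A.push j s = s')
    (e : B.push j t = t') (y : A.Pt s') (y' : B.Pt t') : Prop :=
  B.map (algebraMap R (FractionRing R)) rfl y' =
    φ.f ((algebraMap R (FractionRing R)).comp j) (push_trans h rfl) (push_trans e rfl)
      (A.map (algebraMap R (FractionRing R)) rfl y)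

section Geo3bRel

variable {φ : NM A B s t} {j : k →+* R} {s' : A.Str R} {t' : B.Str R} {h : A.push j s = s'}
  {e : B.push j t = t'} {y : A.Pt s'} {y' : B.Pt t'}

theorem Geo3bRel.mem (r : Geo3bRel φ j h e y y') (hy : y ∈ ext j s' X) :
    y' ∈ ext j t' (φ.f₀ '' X) := by
  rw [← mem_ext_map_iff (IsFractionRing.injective R (FractionRing R)) rfl, r]
  exact φ.mem_ext _ _ (mem_ext_map _ rfl hy)

theorem Geo3bRel.pre (r : Geo3bRel φ j h e y y') (hY : Cl Y) :
    y ∈ ext j s' (φ.f₀ ⁻¹' Y) ↔ y' ∈ ext j t' Y := by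
  rw [← mem_ext_map_iff (IsFractionRing.injective R (FractionRing R)) rfl,
    ← mem_ext_map_iff (X := Y) (IsFractionRing.injective R (FractionRing R)) rfl, r,
    φ.ext_preimage (push_trans h rfl) (push_trans e rfl) hY]
  rfl

theorem Geo3bRel.loc (r : Geo3bRel φ j h e y y') : loc j t y' = φ.f₀ '' loc j s y := by
  rw [← loc_map (IsFractionRing.injective R (FractionRing R)) rfl,
    ← loc_map (IsFractionRing.injective R (FractionRing R)) rfl y, r, φ.loc_f]

end Geo3bRel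

/-- Substitution of multiples of variables in a form. -/
theorem Geo3b_sub {σ τ : Type} {k₀ k₁ : Type u} [CommRing k₀] [CommRing k₁] (i : k₀ →+* k₁)
    (c : σ → k₁) (a : σ → τ) {g : MvPolynomial σ k₀} {d : ℕ} (hg : g.IsHomogeneous d) :
    ∃ g₁ : MvPolynomial τ k₁, g₁.IsHomogeneous d ∧ ∀ {S : Type u} [CommRing S] (j : k₁ →+* S)
      (v : τ → S), eval₂ j v g₁ = eval₂ (j.comp i) (fun p => j (c p) * v (a p)) g := by
  refine ⟨eval₂ (C.comp i) (fun p => C (c p) * MvPolynomial.X (a p)) g, ?_, fun j v => ?_⟩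
  · have := hg.eval₂ (C.comp i) (fun p => C (c p) * MvPolynomial.X (a p)) (n := 1)
      (fun r => isHomogeneous_C _ _)
      (fun p => by simpa using (isHomogeneous_C τ (c p)).mul (isHomogeneous_X k₁ (a p)))
    simpa using this
  · have := hom_eval₂ g (C.comp i) (eval₂Hom j v) fun p => C (c p) * MvPolynomial.X (a p)
    rw [coe_eval₂Hom] at this
    rw [this]
    congr 1
    · ext x
      simp
    · funext p
      simp

omit [IsAlgClosed k] in
theorem Geo3b_vadd_f (a : A.Pt s) : ((NM.const s a).add (NM.id s)).f₀ = fun x => a +ᵥ x := by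
  funext x
  change A.map (RingHom.id k) _ a + x = a + x
  rw [map_id' (fun _ => rfl)]

omit [IsAlgClosed k] in
theorem Geo3b_add_f (X X' : Set (A.Pt s)) :
    ((NM.fst s s).add (NM.snd s s)).f₀ '' sprod X X' = X + X' := by
  ext z
  constructor
  · rintro ⟨w, hw, rfl⟩
    exact ⟨w.1, hw.1, w.2, hw.2, rfl⟩
  · rintro ⟨a, ha, b, hb, rfl⟩
    exact ⟨(a, b), ⟨ha, hb⟩, rfl⟩

omit [IsAlgClosed k] in
theorem Geo3b_neg_f (X : Set (A.Pt s)) : (NM.id s).neg.f₀ '' X = -X :=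
  Set.image_neg_eq_neg

theorem Cl.sprod (h : Cl X) (h' : Cl Y) : Cl (sprod X Y) :=
  ((NM.fst s t).cl_preimage h).inter ((NM.snd s t).cl_preimage h')
theorem ext_sprod {j : k →+* R} {s' : A.Str R} {t' : B.Str R} (h : A.push j s = s')
    (e : B.push j t = t') (hX : Cl X) (hY : Cl Y) :
    ext (A := A.prod B) j (s', t') (sprod X Y) = sprod (ext j s' X) (ext j t' Y) := by
  have h1 := ext_inter (A := A.prod B) (prod_push h e) ((NM.fst s t).cl_preimage hX)
    ((NM.snd s t).cl_preimage hY)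
  refine Eq.trans h1 ?_
  ext z
  exact and_congr (Geo3bRel.pre (φ := NM.fst s t) (h := prod_push h e) (e := h) rfl hX)
    (Geo3bRel.pre (φ := NM.snd s t) (h := prod_push h e) (e := e) rfl hY)
theorem loc_prod {k' : Type u} [Field k'] {i : k →+* k'} {j : k' →+* T} {s₁ : A.Str k'}
    {s' : A.Str T} {t₁ : B.Str k'} {t' : B.Str T} (h₁ : A.push i s = s₁) (h : A.push j s₁ = s')
    (e₁ : B.push i t = t₁) (e : B.push j t₁ = t') (ξ : A.Pt s') (η : B.Pt t₁)
    (hξ : loc j s₁ ξ = ext i s₁ (loc (j.comp i) s ξ)) :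
    loc (A := A.prod B) (j.comp i) (s, t) (s' := (s', t')) (ξ, B.map j e η) =
      sprod (loc (j.comp i) s ξ) (loc i t η) := by
  have p1 := push_trans h₁ h
  have p2 := push_trans e₁ e
  apply Set.Subset.antisymm
  · intro z hz
    constructor
    · have := (NM.fst s t).loc_f (prod_push p1 p2) p1 (ξ, B.map j e η)
      rw [NM.fst_f] at this
      rw [this]
      exact ⟨z, hz, rfl⟩
    · have := (NM.snd s t).loc_f (prod_push p1 p2) p2 (ξ, B.map j e η)
      rw [NM.snd_f, loc_map j.injective] at this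
      rw [this]
      exact ⟨z, hz, rfl⟩
  · rintro ⟨x, y⟩ ⟨hx, hy⟩ g d hg hv
    obtain ⟨w, hw⟩ := B.ax.exists_rep η
    obtain ⟨v, hv'⟩ := A.ax.exists_rep ξ
    obtain ⟨u, hu⟩ := A.ax.exists_rep x
    obtain ⟨w₀, hw₀⟩ := B.ax.exists_rep y
    obtain ⟨g₁, hg₁, E₁⟩ := Geo3b_sub i (fun p : A.σ × B.σ => w p.2) Prod.fst hg
    obtain ⟨g₂, hg₂, E₂⟩ := Geo3b_sub (RingHom.id k) (fun p : A.σ × B.σ => u p.1) Prod.snd hg
    have a1 : van j g₁ ξ := by
      rw [van_iff hg₁ hv', E₁]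
      exact hv _ ⟨v, _, hv', rep_map j e hw, funext fun p => mul_comm _ _⟩
    have a2 : A.map i h₁ x ∈ loc j s₁ ξ := by
      rw [hξ]
      exact map_mem_ext i h₁ hx
    have a3 := a2 g₁ d hg₁ a1 _ (rep_map i h₁ hu)
    have a4 : van i g₂ η := by
      rw [van_iff hg₂ hw, E₂, ← a3, E₁]
      congr 1
      funext p
      exact mul_comm _ _
    have a5 := hy g₂ d hg₂ a4 _ hw₀
    rw [E₂] at a5
    exact (van_iff (A := A.prod B) (s := (s, t)) (x := (x, y)) hg ⟨u, w₀, hu, hw₀, rfl⟩).2 a5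
/-- The locus of a pair of points rational over linearly disjoint fields. -/
theorem loc_prod_ld {j : k →+* T} {s' : A.Str T} {t' : B.Str T} (h : A.push j s = s')
    (e : B.push j t = t') {E F : Subfield T} (hE : j.fieldRange ≤ E) (hF : j.fieldRange ≤ F)
    (hLD : LD j.fieldRange E F) {ξ : A.Pt s'} {η : B.Pt t'} (hξ : Rat E ξ) (hη : Rat F η) :
    loc (A := A.prod B) j (s, t) (s' := (s', t')) (ξ, η) = sprod (loc j s ξ) (loc j t η) := by
  let i : k →+* F := j.codRestrict F.toSubring fun c => hF ⟨c, rfl⟩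
  have hj : F.subtype.comp i = j := rfl
  have h2 : A.push F.subtype (A.push i s) = s' := by rw [A.ax.push_comp, hj, h]
  have e2 : B.push F.subtype (B.push i t) = t' := by rw [B.ax.push_comp, hj, e]
  obtain ⟨η₀, rfl⟩ := (rat_subtype_iff e2).1 hη
  have hL : LD (F.subtype.comp i).fieldRange F.subtype.fieldRange E := by
    rw [Subfield.fieldRange_subtype]
    exact hLD.symm hE hF
  have := loc_prod rfl h2 rfl e2 ξ η₀ (genLD i F.subtype rfl h2 hE hξ hL)
  rw [← loc_map F.subtype.injective e2 η₀] at this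
  exact this
theorem Var.sprod (h : Var X) (h' : Var Y) : Var (sprod X Y) := by
  obtain ⟨k', _, _, i, η, hη, -⟩ := h'.exists_gen
  obtain ⟨E, _, _, j, ξ, hξ, hL⟩ := h.exists_gen' i
  have h2 : A.push j (A.push i s) = A.push (j.comp i) s := A.ax.push_comp _ _ _
  have := loc_prod rfl h2 rfl rfl ξ η (genLD i j rfl h2 ((le_adj _ _).trans (le_acl _))
    ((rat_adj _ ξ).mono (le_acl _)) hL)
  rw [hξ, hη] at this
  rw [← this]
  exact var_loc (prod_push rfl (B.ax.push_comp _ _ _).symm) _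

theorem Cl.fst {Z : Set ((A.prod B).Pt (s, t))} (h : Cl Z) : Cl (Prod.fst '' Z : Set (A.Pt s)) :=
  (NM.fst s t).cl_image h
theorem Cl.snd {Z : Set ((A.prod B).Pt (s, t))} (h : Cl Z) : Cl (Prod.snd '' Z : Set (B.Pt t)) :=
  (NM.snd s t).cl_image h
theorem Var.fst {Z : Set ((A.prod B).Pt (s, t))} (h : Var Z) : Var (Prod.fst '' Z : Set (A.Pt s)) :=
  (NM.fst s t).var_image h
theorem Var.snd {Z : Set ((A.prod B).Pt (s, t))} (h : Var Z) : Var (Prod.snd '' Z : Set (B.Pt t)) :=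
  (NM.snd s t).var_image h
theorem ext_fst [IsAlgClosed T] {j : k →+* T} {s' : A.Str T} {t' : B.Str T} (h : A.push j s = s')
    (e : B.push j t = t') (Z : Set ((A.prod B).Pt (s, t))) :
    ext j s' (Prod.fst '' Z : Set (A.Pt s)) = Prod.fst '' ext (A := A.prod B) j (s', t') Z :=
  (NM.fst s t).ext_image (prod_push h e) h Z
theorem ext_snd [IsAlgClosed T] {j : k →+* T} {s' : A.Str T} {t' : B.Str T} (h : A.push j s = s')
    (e : B.push j t = t') (Z : Set ((A.prod B).Pt (s, t))) :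
    ext j t' (Prod.snd '' Z : Set (B.Pt t)) = Prod.snd '' ext (A := A.prod B) j (s', t') Z :=
  (NM.snd s t).ext_image (prod_push h e) e Z
theorem fst_mem_ext {j : k →+* R} {s' : A.Str R} {t' : B.Str R} (h : A.push j s = s')
    (e : B.push j t = t') {Z : Set ((A.prod B).Pt (s, t))} {z : (A.prod B).Pt (s', t')}
    (hz : z ∈ ext (A := A.prod B) j (s', t') Z) : z.1 ∈ ext j s' (Prod.fst '' Z : Set (A.Pt s)) :=
  Geo3bRel.mem (φ := NM.fst s t) (h := prod_push h e) (e := h) rfl hz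
theorem snd_mem_ext {j : k →+* R} {s' : A.Str R} {t' : B.Str R} (h : A.push j s = s')
    (e : B.push j t = t') {Z : Set ((A.prod B).Pt (s, t))} {z : (A.prod B).Pt (s', t')}
    (hz : z ∈ ext (A := A.prod B) j (s', t') Z) : z.2 ∈ ext j t' (Prod.snd '' Z : Set (B.Pt t)) :=
  Geo3bRel.mem (φ := NM.snd s t) (h := prod_push h e) (e := e) rfl hz
theorem loc_fst {j : k →+* T} {s' : A.Str T} {t' : B.Str T} (h : A.push j s = s')
    (e : B.push j t = t') (z : (A.prod B).Pt (s', t')) :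
    loc j s z.1 = Prod.fst '' loc (A := A.prod B) j (s, t) z :=
  (NM.fst s t).loc_f (prod_push h e) h z
theorem loc_snd {j : k →+* T} {s' : A.Str T} {t' : B.Str T} (h : A.push j s = s')
    (e : B.push j t = t') (z : (A.prod B).Pt (s', t')) :
    loc j t z.2 = Prod.snd '' loc (A := A.prod B) j (s, t) z :=
  (NM.snd s t).loc_f (prod_push h e) e z
theorem Cl.swap {Z : Set ((A.prod B).Pt (s, t))} (h : Cl Z) :
    Cl {z : (B.prod A).Pt (t, s) | ((z.2, z.1) : (A.prod B).Pt (s, t)) ∈ Z} :=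
  ((NM.snd t s).pair (NM.fst t s)).cl_preimage h
theorem Var.swap {Z : Set ((A.prod B).Pt (s, t))} (h : Var Z) :
    Var {z : (B.prod A).Pt (t, s) | ((z.2, z.1) : (A.prod B).Pt (s, t)) ∈ Z} := by
  have := ((NM.snd s t).pair (NM.fst s t)).var_image h
  convert this using 1
  ext z
  constructor
  · intro hz
    exact ⟨_, hz, rfl⟩
  · rintro ⟨w, hw, rfl⟩
    exact hw
theorem ext_swap {j : k →+* R} {s' : A.Str R} {t' : B.Str R} (h : A.push j s = s')
    (e : B.push j t = t') {Z : Set ((A.prod B).Pt (s, t))} (hZ : Cl Z) (z : (B.prod A).Pt (t', s')) :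
    z ∈ ext (A := B.prod A) j (t', s')
      {z : (B.prod A).Pt (t, s) | ((z.2, z.1) : (A.prod B).Pt (s, t)) ∈ Z} ↔
      ((z.2, z.1) : (A.prod B).Pt (s', t')) ∈ ext (A := A.prod B) j (s', t') Z :=
  Geo3bRel.pre (φ := (NM.snd t s).pair (NM.fst t s)) (h := prod_push e h) (e := prod_push h e)
    rfl hZ

theorem Cl.add (h : Cl X) (h' : Cl X') : Cl (X + X') :=
  Geo3b_add_f X X' ▸ NM.cl_image _ (h.sprod h')
theorem Var.add (h : Var X) (h' : Var X') : Var (X + X') :=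
  Geo3b_add_f X X' ▸ NM.var_image _ (h.sprod h')
theorem Cl.neg (h : Cl X) : Cl (-X) := Geo3b_neg_f X ▸ NM.cl_image _ h
theorem Var.neg (h : Var X) : Var (-X) := Geo3b_neg_f X ▸ NM.var_image _ h
theorem Cl.vadd (h : Cl X) (a : A.Pt s) : Cl (a +ᵥ X) := by
  have := ((NM.const s a).add (NM.id s)).cl_image h
  rwa [Geo3b_vadd_f] at this
theorem Var.vadd (h : Var X) (a : A.Pt s) : Var (a +ᵥ X) := by
  have := ((NM.const s a).add (NM.id s)).var_image h
  rwa [Geo3b_vadd_f] at this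
theorem Cl.nsmul (h : Cl X) (n : ℕ) : Cl ((n • ·) '' X) :=
  ((NM.id s).nsmul n).cl_image h
theorem Var.nsmul (h : Var X) (n : ℕ) : Var ((n • ·) '' X) :=
  ((NM.id s).nsmul n).var_image h
theorem Cl.nsmul_pre (h : Cl X) (n : ℕ) : Cl ((n • ·) ⁻¹' X) :=
  ((NM.id s).nsmul n).cl_preimage h
theorem cl_vadd (a : A.Pt s) (X : Set (A.Pt s)) : cl (a +ᵥ X) = a +ᵥ cl X := by
  have := ((NM.const s a).add (NM.id s)).image_cl X
  rw [Geo3b_vadd_f] at this
  exact this.symm

theorem Geo3b_cl_add (X X' : Set (A.Pt s)) : cl X + cl X' ⊆ cl (X + X') := by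
  have h1 : ∀ a ∈ X, ∀ b ∈ cl X', a + b ∈ cl (X + X') := by
    intro a ha b hb
    have : a + b ∈ a +ᵥ cl X' := ⟨b, hb, rfl⟩
    rw [← cl_vadd] at this
    refine cl_mono ?_ this
    rintro _ ⟨c, hc, rfl⟩
    exact ⟨a, ha, c, hc, rfl⟩
  rintro _ ⟨a, ha, b, hb, rfl⟩
  have : b + a ∈ b +ᵥ cl X := ⟨a, ha, rfl⟩
  rw [← cl_vadd, add_comm b a] at this
  refine cl_min (cl_min ?_ (cl_cl _)) (cl_cl _) (subset_cl _ this)
  rintro _ ⟨c, hc, rfl⟩
  have := h1 c hc b hb
  rwa [add_comm c b] at this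

section ext

variable {j : k →+* R} {s' : A.Str R} (h : A.push j s = s')
include h

theorem add_mem_ext {x y : A.Pt s'} (hx : x ∈ ext j s' X) (hy : y ∈ ext j s' X') :
    x + y ∈ ext j s' (X + X') := by
  have h1 : ((x, y) : (A.prod A).Pt (s', s')) ∈
      ext (A := A.prod A) j (s', s') (sprod (cl X) (cl X')) := by
    rw [ext_sprod h h (cl_cl X) (cl_cl X'), ext_cl, ext_cl]
    exact ⟨hx, hy⟩
  have h2 := Geo3bRel.mem (φ := (NM.fst s s).add (NM.snd s s)) (h := prod_push h h) (e := h)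
    (y := (x, y)) (y' := x + y) (map_add (A.map (algebraMap R (FractionRing R)) rfl) x y) h1
  rw [Geo3b_add_f] at h2
  rw [← ext_cl]
  exact ext_mono j s' (Geo3b_cl_add X X') h2

omit [IsAlgClosed k] in
theorem Geo3b_rel_neg (y : A.Pt s') : Geo3bRel (NM.id s).neg j h h y (-y) := map_neg _ y

omit [IsAlgClosed k] in
theorem Geo3b_rel_nsmul (n : ℕ) (y : A.Pt s') : Geo3bRel ((NM.id s).nsmul n) j h h y (n • y) :=
  map_nsmul _ n y

omit [IsAlgClosed k] in
theorem Geo3b_rel_vadd (a : A.Pt s) (y : A.Pt s') :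
    Geo3bRel ((NM.const s a).add (NM.id s)) j h h y (A.map j h a + y) := by
  unfold Geo3bRel
  rw [map_add, map_map]
  rfl

theorem Geo3b_neg_mem {y : A.Pt s'} (hy : y ∈ ext j s' X) : -y ∈ ext j s' (-X) :=
  Geo3b_neg_f X ▸ (Geo3b_rel_neg h y).mem hy

theorem Geo3b_vadd_mem (a : A.Pt s) {y : A.Pt s'} (hy : y ∈ ext j s' X) :
    A.map j h a + y ∈ ext j s' (a +ᵥ X) := by
  have := (Geo3b_rel_vadd h a y).mem hy
  rwa [Geo3b_vadd_f] at this

theorem ext_neg (X : Set (A.Pt s)) : ext j s' (-X) = -ext j s' X := by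
  ext y
  constructor
  · intro hy
    have := Geo3b_neg_mem h hy
    rwa [neg_neg] at this
  · intro hy
    have := Geo3b_neg_mem h (Set.mem_neg.1 hy)
    rwa [neg_neg] at this
theorem ext_vadd (a : A.Pt s) (X : Set (A.Pt s)) :
    ext j s' (a +ᵥ X) = A.map j h a +ᵥ ext j s' X := by
  ext y
  constructor
  · intro hy
    have := Geo3b_vadd_mem h (-a) hy
    rw [neg_vadd_vadd] at this
    refine ⟨_, this, ?_⟩
    simp
  · rintro ⟨z, hz, rfl⟩
    exact Geo3b_vadd_mem h a hz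
theorem nsmul_mem_ext (n : ℕ) {x : A.Pt s'} (hx : x ∈ ext j s' X) :
    n • x ∈ ext j s' ((n • ·) '' X) :=
  (Geo3b_rel_nsmul h n x).mem hx
theorem ext_nsmul_pre (hX : Cl X) (n : ℕ) :
    ext j s' ((n • ·) ⁻¹' X) = (n • ·) ⁻¹' ext j s' X :=
  Set.ext fun y => (Geo3b_rel_nsmul h n y).pre hX
theorem loc_vadd (a : A.Pt s) (y : A.Pt s') : loc j s (A.map j h a + y) = a +ᵥ loc j s y := by
  have := (Geo3b_rel_vadd h a y).loc
  rwa [Geo3b_vadd_f] at this
theorem loc_neg (y : A.Pt s') : loc j s (-y) = -loc j s y :=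
  (Geo3b_rel_neg h y).loc.trans (Geo3b_neg_f _)
theorem loc_nsmul (n : ℕ) (y : A.Pt s') : loc j s (n • y) = (n • ·) '' loc j s y :=
  (Geo3b_rel_nsmul h n y).loc
/-- If a translate of a generic point stays in `X`, the translation preserves `X`. -/
theorem vadd_loc_subset (hX : Cl X) {a : A.Pt s} {y : A.Pt s'}
    (hy : A.map j h a + y ∈ ext j s' X) : a +ᵥ loc j s y ⊆ X := by
  rw [← loc_vadd h]
  exact loc_subset hX hy

/-- The extension of a subgroup. -/
def extS (G : AddSubgroup (A.Pt s)) : AddSubgroup (A.Pt s') where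
  carrier := ext j s' (G : Set (A.Pt s))
  zero_mem' := by simpa using map_mem_ext j h G.zero_mem
  add_mem' hx hy := ext_mono j s' (by rintro _ ⟨a, ha, b, hb, rfl⟩; exact G.add_mem ha hb)
    (add_mem_ext h hx hy)
  neg_mem' {x} hx := by
    have := ext_neg h (G : Set (A.Pt s))
    rw [show -(G : Set (A.Pt s)) = G from by ext; simp] at this
    rw [this]; simpa using hx

theorem mem_extS {G : AddSubgroup (A.Pt s)} {y : A.Pt s'} :
    y ∈ extS h G ↔ y ∈ ext j s' (G : Set (A.Pt s)) := Iff.rfl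

theorem coe_extS (G : AddSubgroup (A.Pt s)) :
    (extS h G : Set (A.Pt s')) = ext j s' (G : Set (A.Pt s)) := rfl

end ext

theorem ext_add [IsAlgClosed T] {j : k →+* T} {s' : A.Str T} (h : A.push j s = s')
    (X X' : Set (A.Pt s)) : ext j s' (X + X') = ext j s' X + ext j s' X' := by
  apply Set.Subset.antisymm
  · intro y hy
    have h1 : y ∈ ext j s' (cl X + cl X') :=
      ext_mono j s' (Set.add_subset_add (subset_cl X) (subset_cl X')) hy
    rw [← Geo3b_add_f, NM.ext_image _ (prod_push h h) h, ext_sprod h h (cl_cl X) (cl_cl X'),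
      ext_cl, ext_cl] at h1
    obtain ⟨w, hw, rfl⟩ := h1
    exact ⟨w.1, hw.1, w.2, hw.2, rfl⟩
  · rintro _ ⟨a, ha, b, hb, rfl⟩
    exact add_mem_ext h ha hb
theorem ext_nsmul [IsAlgClosed T] {j : k →+* T} {s' : A.Str T} (h : A.push j s = s') (n : ℕ)
    (X : Set (A.Pt s)) : ext j s' ((n • ·) '' X) = (n • ·) '' ext j s' X :=
  ((NM.id s).nsmul n).ext_image h h X
theorem loc_add_ld {j : k →+* T} {s' : A.Str T} (h : A.push j s = s') {E F : Subfield T}
    (hE : j.fieldRange ≤ E) (hF : j.fieldRange ≤ F) (hLD : LD j.fieldRange E F) {ξ η : A.Pt s'}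
    (hξ : Rat E ξ) (hη : Rat F η) : loc j s (ξ + η) = loc j s ξ + loc j s η := by
  have := ((NM.fst s s).add (NM.snd s s)).loc_f (prod_push h h) h (ξ, η)
  rw [loc_prod_ld h h hE hF hLD hξ hη, Geo3b_add_f] at this
  exact this

end PG

end MLF
end

-- merged part: Pool.Agent.Work.MP_29d410_ag.Geo4A
section
/-!
# Auxiliary field theory for the dimension theory
-/

open MvPolynomial

namespace MLF

universe u

variable {Ω Ω' : Type u} [Field Ω] [Field Ω']

/-- A nonzero element with residue zero is transcendental over a lifted independent family. -/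
theorem Geo4A_not_alg (W : ValuationSubring Ω) (r : W →+* Ω') {E : Subfield Ω} {E' : Subfield Ω'}
    (hW : ∀ z ∈ E, z ∈ W) (hE' : ∀ z : W, (z : Ω) ∈ E → r z ∈ E') {ι : Type*} (x : ι → W)
    (hx : AlgebraicIndependent E' fun i => r (x i)) (a : W) (ha : (a : Ω) ≠ 0) (hra : r a = 0) :
    (a : Ω) ∉ acl (adj E (Set.range fun i => (x i : Ω))) := by
  intro h
  rw [← SetLike.mem_coe, ← LD2_closure, AlgebraicIndependent.matroid_closure_eq] at h
  have h1 : IsAlgebraic (Algebra.adjoin E (Set.range fun i => (x i : Ω))) (a : Ω) := h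
  obtain ⟨t, ht, c, hc0, hc⟩ := h1.exists_nonzero_eq_adjoin_mul (mem_nonZeroDivisors_of_ne_zero ha)
  let ρ : E →+* W := E.subtype.codRestrict W.toSubring fun z => hW z z.2
  let ρ' : E →+* E' := (r.comp ρ).codRestrict E' fun z => hE' _ z.2
  have hev : ∀ p : MvPolynomial ι E, aeval (fun i => (x i : Ω)) p = ((eval₂ ρ x p : W) : Ω) := by
    intro p
    change _ = W.subtype _
    rw [eval₂_comp_left, aeval_def]
    rfl
  have hRW : ∀ z ∈ Algebra.adjoin E (Set.range fun i => (x i : Ω)), z ∈ W := by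
    intro z hz
    rw [Algebra.adjoin_range_eq_range_aeval] at hz
    obtain ⟨p, rfl⟩ := hz
    change aeval _ p ∈ W
    rw [hev]
    exact (eval₂ ρ x p).2
  have htW : t ∈ W := by
    refine Algebra.adjoin_induction (fun z hz => ?_) (fun z => hRW _ z.2)
      (fun _ _ _ _ => W.add_mem _ _) (fun _ _ _ _ => W.mul_mem _ _) ht
    rw [Set.mem_singleton_iff.1 hz]
    exact a.2
  obtain ⟨c, hcm⟩ := c
  have hcm' := hcm
  rw [Algebra.adjoin_range_eq_range_aeval] at hcm'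
  obtain ⟨p, rfl⟩ := hcm'
  have e : a * ⟨t, htW⟩ = eval₂ ρ x p := Subtype.ext (hc.trans (hev p))
  have e2 : aeval (fun i => r (x i)) (map ρ' p) = 0 := by
    have e3 := congrArg r e
    rw [map_mul, hra, zero_mul, eval₂_comp_left] at e3
    rw [aeval_def, eval₂_map]
    exact e3.symm
  have e4 : p = 0 := map_injective ρ' ρ'.injective
    ((algebraicIndependent_iff.1 hx _ e2).trans (map_zero _).symm)
  apply hc0
  subst e4
  exact Subtype.ext (map_zero _)

/-- A place which preserves the rank is injective on the generated field. -/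
theorem Geo4A_inj (W : ValuationSubring Ω) (r : W →+* Ω') {E : Subfield Ω} {E' : Subfield Ω'}
    (hW : ∀ z ∈ E, z ∈ W) (hE' : ∀ z : W, (z : Ω) ∈ E → r z ∈ E') (t : Set W) (ht : t.Finite)
    (h : rk E (Subtype.val '' t) ≤ rk E' (r '' t)) (a : W)
    (ha : (a : Ω) ∈ adj E (Subtype.val '' t)) (hra : r a = 0) : (a : Ω) = 0 := by
  by_contra ha0
  obtain ⟨I, hI⟩ := (AlgebraicIndependent.matroid E' Ω').exists_isBasis' (r '' t)
  have key : ∀ y : I, ∃ w : W, w ∈ t ∧ r w = y := fun y => hI.subset y.2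
  choose σ hσt hσ using key
  have h1 : AlgebraicIndependent E' fun y : I => r (σ y) := by
    simp only [hσ]
    exact AlgebraicIndependent.matroid_indep_iff.1 hI.indep
  have h2 := algInd_LD2b (E := E) W r hE' σ h1
  have h3 : (AlgebraicIndependent.matroid E Ω).Indep (Set.range fun y : I => (σ y : Ω)) :=
    AlgebraicIndependent.matroid_indep_iff.2 h2.to_subtype_range
  have h4 := Geo4A_not_alg W r hW hE' σ h1 a ha0 hra
  set J := Set.range fun y : I => (σ y : Ω) with hJ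
  have haJ : (a : Ω) ∉ J := fun m => h4 (le_acl _ (subset_adj E J m))
  have h5 : (AlgebraicIndependent.matroid E Ω).Indep (insert (a : Ω) J) := by
    rw [h3.insert_indep_iff_of_notMem haJ, LD2_closure]
    exact ⟨Set.mem_univ _, h4⟩
  have h6 : rk E (insert (a : Ω) J) ≤ rk E (Subtype.val '' t) := by
    refine rk_le_of_acl (Set.insert_subset (le_acl _ ha) ?_)
    rintro _ ⟨y, rfl⟩
    exact le_acl _ (subset_adj E _ ⟨σ y, hσt y, rfl⟩)
  have h7 : J.encard = rk E' (r '' t) := by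
    unfold rk
    rw [← hI.encard_eq_eRk, hJ, ← Set.image_univ, h2.injective.injOn.encard_image,
      Set.encard_univ, ENat.card_coe_set_eq]
  have h8 : rk E (insert (a : Ω) J) = rk E' (r '' t) + 1 := by
    rw [rk, h5.eRk_eq_encard, Set.encard_insert_of_notMem haJ, h7]
  have h9 : rk E' (r '' t) + 1 ≤ rk E' (r '' t) := h8 ▸ h6.trans h
  exact absurd ((ENat.add_one_le_iff (rk_ne_top (ht.image _))).1 h9) (lt_irrefl _)

theorem Geo4A_mem_range {k : Type u} [Field k] [IsAlgClosed k] (j : k →+* Ω) {z : Ω}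
    {p : Polynomial k} (hp : p ≠ 0) (h : p.eval₂ j z = 0) : z ∈ j.fieldRange := by
  letI := j.toAlgebra
  have h1 : IsAlgebraic k z := ⟨p, hp, h⟩
  exact minpoly.mem_range_of_degree_eq_one k z
    (IsAlgClosed.degree_eq_one_of_irreducible k (minpoly.irreducible h1.isIntegral))

/-- A homomorphism of a subring extends to a place. -/
theorem Geo4A_place {k S : Type u} [Field k] [CommRing S] [IsAlgClosed Ω'] {j : k →+* Ω}
    {j' : k →+* Ω'} (i : k →+* S) (φ : S →+* Ω) (hφ : Function.Injective φ) (ψ : S →+* Ω')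
    (hj : ∀ c, φ (i c) = j c) (hj' : ∀ c, ψ (i c) = j' c) :
    ∃ P : Place j j', ∀ a, ∃ h : φ a ∈ P.W, P.r ⟨φ a, h⟩ = ψ a := by
  let e : S ≃+* φ.range := RingEquiv.ofBijective φ.rangeRestrict
    ⟨fun a b h => hφ (congrArg Subtype.val h), φ.rangeRestrict_surjective⟩
  obtain ⟨W, h, r, hr, -⟩ := exists_place φ.range (ψ.comp e.symm.toRingHom)
  have key : ∀ a, ∃ h : φ a ∈ W, r ⟨φ a, h⟩ = ψ a := fun a =>
    ⟨h ⟨a, rfl⟩, (hr (e a)).trans (by simp)⟩
  refine ⟨⟨W, fun c => hj c ▸ (key (i c)).1, r, fun c => ?_⟩, key⟩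
  refine Eq.trans ?_ ((key (i c)).2.trans (hj' c))
  congr 1
  exact Subtype.ext (hj c).symm

/-- A place with values in the ground field killing a given transcendental element. -/
theorem Geo4A_place_zero {k : Type u} [Field k] [IsAlgClosed k] (j : k →+* Ω) {z : Ω}
    (hz : z ∉ j.fieldRange) :
    ∃ P : Place j (RingHom.id k), ∃ h : z ∈ P.W, P.r ⟨z, h⟩ = 0 := by
  have hinj : Function.Injective (Polynomial.eval₂RingHom j z) := by
    rw [injective_iff_map_eq_zero]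
    intro p hp
    by_contra h0
    exact hz (Geo4A_mem_range j h0 hp)
  obtain ⟨P, hP⟩ := Geo4A_place (j := j) (j' := RingHom.id k) Polynomial.C _ hinj
    (Polynomial.evalRingHom 0) (fun c => by simp) (fun c => by simp)
  obtain ⟨h1, h2⟩ := hP Polynomial.X
  have e : Polynomial.eval₂RingHom j z Polynomial.X = z := by simp
  refine ⟨P, e ▸ h1, ?_⟩
  rw [show (Polynomial.evalRingHom (0 : k)) Polynomial.X = 0 by simp] at h2
  rw [← h2]
  congr 1
  exact Subtype.ext e.symm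

/-- A specialisation of a vector to a vector of rank one. -/
theorem Geo4A_curve {k : Type u} [Field k] [IsAlgClosed k] [IsAlgClosed Ω] (j : k →+* Ω)
    {σ : Type} [Finite σ] (v : σ → Ω) (hv : ∃ i, v i ∉ j.fieldRange) :
    ∃ (P : Place j j) (w : σ → P.W), (∀ i, (w i : Ω) = v i) ∧
      rk j.fieldRange (Set.range fun i => P.r (w i)) = 1 := by
  letI := j.toAlgebra
  set R := Algebra.adjoin k (Set.range v) with hR
  haveI : Algebra.FiniteType k R :=
    (Subalgebra.fg_iff_finiteType R).1 (Subalgebra.fg_def.2 ⟨_, Set.finite_range v, rfl⟩)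
  obtain ⟨n, g, hg, hi⟩ := exists_integral_inj_algHom_of_fg k R
  let φ : MvPolynomial (Fin n) k →+* Ω := (R.val.comp g : MvPolynomial (Fin n) k →ₐ[k] Ω)
  have hφ : Function.Injective φ := Subtype.val_injective.comp hg
  have hφC : ∀ c, φ (C c) = j c := fun c => (R.val.comp g).commutes c
  have hint : ∀ i, φ.IsIntegralElem (v i) := fun i => by
    obtain ⟨p, hp, h0⟩ := hi ⟨v i, Algebra.subset_adjoin ⟨i, rfl⟩⟩
    refine ⟨p, hp, ?_⟩
    have := congrArg (R.val : R →+* Ω) h0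
    rw [Polynomial.hom_eval₂, map_zero] at this
    exact this
  rcases Nat.eq_zero_or_pos n with rfl | hn
  · exfalso
    obtain ⟨i, hi'⟩ := hv
    obtain ⟨p, hp, h0⟩ := hint i
    refine hi' (Geo4A_mem_range j (p := p.map (constantCoeff)) (hp.map _).ne_zero ?_)
    rw [Polynomial.eval₂_map, ← h0]
    congr 1
    exact ringHom_ext (fun c => by simp [hφC]) fun l => l.elim0
  set z := φ (X ⟨0, hn⟩) with hz
  have hzK : z ∉ j.fieldRange := by
    rintro ⟨c, hc⟩
    have h1 : (C c : MvPolynomial (Fin n) k) = X ⟨0, hn⟩ := hφ ((hφC c).trans hc)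
    have h2 := congrArg (eval fun _ => c + 1) h1
    simp at h2
  obtain ⟨P, hP⟩ := Geo4A_place (j := j) (j' := j) C φ hφ (eval₂Hom j fun _ => z) hφC
    (fun c => by simp)
  let φW : MvPolynomial (Fin n) k →+* P.W := φ.codRestrict P.W.toSubring fun a => (hP a).1
  have hφW : P.r.comp φW = eval₂Hom j fun _ => z := RingHom.ext fun a => (hP a).2
  have hvW : ∀ i, v i ∈ P.W := fun i => by
    obtain ⟨p, hp, h0⟩ := hint i
    have h1 : IsIntegral P.W (v i) := ⟨p.map φW, hp.map _, by rw [Polynomial.eval₂_map]; exact h0⟩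
    obtain ⟨y, hy⟩ := IsIntegrallyClosed.isIntegral_iff.1 h1
    exact hy ▸ y.2
  refine ⟨P, fun i => ⟨v i, hvW i⟩, fun _ => rfl, le_antisymm ?_ ?_⟩
  · refine (rk_le_of_acl (s := {z}) ?_).trans (rk_singleton_le z)
    rintro _ ⟨i, rfl⟩
    obtain ⟨p, hp, h0⟩ := hint i
    have hm : ∀ a, eval₂Hom j (fun _ : Fin n => z) a ∈ adj j.fieldRange {z} := fun a => by
      induction a using MvPolynomial.induction_on with
      | C c => rw [eval₂Hom_C]; exact le_adj _ _ ⟨c, rfl⟩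
      | add p q hp hq => rw [map_add]; exact add_mem hp hq
      | mul_X p l hp => rw [map_mul, eval₂Hom_X']; exact mul_mem hp (subset_adj _ _ rfl)
    let ψ : MvPolynomial (Fin n) k →+* adj j.fieldRange {z} :=
      (eval₂Hom j fun _ => z).codRestrict _ hm
    refine mem_acl.2 (IsIntegral.isAlgebraic ⟨p.map ψ, hp.map _, ?_⟩)
    have h1 : Polynomial.eval₂ φW ⟨v i, hvW i⟩ p = 0 := by
      apply Subtype.ext
      change P.W.subtype _ = _
      rw [Polynomial.hom_eval₂]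
      exact h0
    have h2 := congrArg P.r h1
    rw [Polynomial.hom_eval₂, map_zero, hφW] at h2
    rw [Polynomial.eval₂_map]
    exact h2
  · rw [ENat.one_le_iff_ne_zero, Ne, rk_eq_zero, acl_eq]
    intro hs
    have key : ∀ a ∈ R, ∃ h : a ∈ P.W, P.r ⟨a, h⟩ ∈ j.fieldRange := by
      intro a ha
      refine Algebra.adjoin_induction ?_ (fun c => ⟨P.mem c, c, (P.r_j c).symm⟩) ?_ ?_ ha
      · rintro _ ⟨i, rfl⟩
        exact ⟨hvW i, hs ⟨i, rfl⟩⟩
      · rintro a b - - ⟨h1, h2⟩ ⟨h3, h4⟩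
        refine ⟨P.W.add_mem _ _ h1 h3, ?_⟩
        have := add_mem h2 h4
        rwa [← map_add] at this
      · rintro a b - - ⟨h1, h2⟩ ⟨h3, h4⟩
        refine ⟨P.W.mul_mem _ _ h1 h3, ?_⟩
        have := mul_mem h2 h4
        rwa [← map_mul] at this
    obtain ⟨h1, h2⟩ := key z (g (X ⟨0, hn⟩)).2
    obtain ⟨h3, h4⟩ := hP (X ⟨0, hn⟩)
    rw [eval₂Hom_X'] at h4
    exact hzK (h4 ▸ h2)

/-- A linear form whose image does not vanish at finitely many nonzero vectors. -/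
theorem Geo4A_linear {W F : Type u} [CommRing W] [Field F] (r : W →+* F)
    (hr : (Set.range r).Infinite) {σ : Type} [Fintype σ] {V : Set (σ → F)} (hV : V.Finite)
    (h0 : ∀ w ∈ V, w ≠ 0) : ∃ g : MvPolynomial σ W, g.IsHomogeneous 1 ∧
      ∀ w ∈ V, eval₂ r w g ≠ 0 := by
  classical
  let e : σ → ℕ := fun i => Fintype.equivFin σ i
  have he : Function.Injective e := Fin.val_injective.comp (Fintype.equivFin σ).injective
  let p : (σ → F) → Polynomial F := fun w => ∑ i, Polynomial.monomial (e i) (w i)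
  have hp : ∀ w ∈ V, p w ≠ 0 := by
    intro w hw h
    apply h0 w hw
    funext i
    have := congrArg (fun q => Polynomial.coeff q (e i)) h
    simpa [p, Polynomial.finset_sum_coeff, Polynomial.coeff_monomial, he.eq_iff] using this
  have hf : (⋃ w ∈ V, {a | (p w).IsRoot a}).Finite :=
    hV.biUnion fun w hw => Polynomial.finite_setOf_isRoot (hp w hw)
  obtain ⟨_, ⟨a, rfl⟩, ha⟩ := hr.exists_notMem_finite hf
  refine ⟨∑ i, C (a ^ e i) * X i, IsHomogeneous.sum _ _ _ fun i _ => isHomogeneous_C_mul_X _ _,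
    fun w hw h => ha (Set.mem_biUnion hw ?_)⟩
  change Polynomial.eval (r a) (p w) = 0
  rw [← h, eval₂_sum, Polynomial.eval_finset_sum]
  refine Finset.sum_congr rfl fun i _ => ?_
  simp [mul_comm]

end MLF
end

-- merged part: Pool.Agent.Work.MP_29d410_ag.Geo4
section
/-!
# Dimension; a projective variety missing a hyperplane is a point

Plan.  `dim_loc`: by `conj` all generic points have the same rank.  `dim_mono`, `eq_of_dim`:
for `Y ⊆ X` with generic points `η`, `ξ` there is a place with `ξ ↦ η` (`place_ex`), so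
`rk η ≤ rk ξ` (`Red.rk_le`); if the ranks agree the specialisation `k[v] → k[v']` is injective
(Models: `Pool/Agent/Work/MP_ffcd14_ag/Cyc/Dim.lean`, `KR.lean`: lift a transcendence basis `z'` of
`k[v']` to `z`; a nonzero element `a` of the kernel satisfies a polynomial over `k[z]` with
nonzero constant term, which is then killed).
`hyp`: let `ξ` be generic with coordinate vector `v`, `h v ≠ 0`.  If some `u = v i / h v` (taking
`h` linear after all, or `v i ^ d / h v`) were transcendental over `k`, the map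
`k[u⁻¹] → k`, `u⁻¹ ↦ 0`, extends to a place; the reduction of `ξ` is a zero of `h` in `X`.
So all `v i ^ d / h v` lie in `k`, and the ratios are algebraic.
`exists_curve`: let `ξ` be generic; choose a subfield `F` of corank one in `acl k(ξ)`
(`exists_corank`) ... or use Noether normalisation: `k[v]` is integral over `k[z₁, ..., z_d]`, map
`z i ↦ c i * y` in `k(y)` and extend to a place; some ratio `v i` must stay transcendental since
`z₁ ∈ k[v]`.
-/

open MvPolynomial Pointwise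

namespace MLF

universe u

namespace PG

variable {A B : PG.{u}} {k T : Type u} [Field k] [Field T] [IsAlgClosed k] {s : A.Str k}
  {t : B.Str k} {X Y : Set (A.Pt s)}

omit [IsAlgClosed k] in
theorem Geo4_rk_map {j : k →+* T} {E : Type u} [Field E] (ψ : T →+* E) {s' : A.Str T}
    {s'' : A.Str E} (e : A.push ψ s' = s'') (y : A.Pt s') :
    rk (ψ.comp j).fieldRange (rat (A.map ψ e y)) = rk j.fieldRange (rat y) := by
  rw [rat_map, ← RingHom.map_fieldRange, rk_map]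

omit [IsAlgClosed k] in
theorem Geo4_rk_rep (E : Subfield k) {x : A.Pt s} {v : A.σ → k} {i : A.σ} (hv : A.Rep x v)
    (hi : v i = 1) : rk E (rat x) = rk E (Set.range v) := by
  refine le_antisymm (rk_le_of_acl ?_) (rk_mono ?_)
  · have : Rat (adj E (Set.range v)) x := rat_iff.2 ⟨v, hv, fun l => subset_adj _ _ ⟨l, rfl⟩⟩
    exact fun z hz => le_acl _ (this hz)
  · rintro _ ⟨l, rfl⟩
    exact ⟨v, l, i, hv, by rw [hi, div_one]⟩

theorem Geo4_rk_eq {T' : Type u} [Field T'] {j : k →+* T} {j' : k →+* T'} {s₁ : A.Str T}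
    {s₂ : A.Str T'} (h : A.push j s = s₁) (h' : A.push j' s = s₂) {y : A.Pt s₁} {y' : A.Pt s₂}
    (hy : loc j s y = loc j' s y') : rk j.fieldRange (rat y) = rk j'.fieldRange (rat y') := by
  obtain ⟨E, _, _, ψ, ψ', t, e, e', h1, h2⟩ := conj h h' hy
  rw [← Geo4_rk_map ψ e, ← Geo4_rk_map ψ' e', h1, h2]

theorem dim_loc {j : k →+* T} {s' : A.Str T} (h : A.push j s = s') (y : A.Pt s') :
    (dim (loc j s y) : ℕ∞) = rk j.fieldRange (rat y) := by
  subst h
  obtain ⟨n, hn⟩ := ENat.ne_top_iff_exists.1 (rk_ne_top (E := j.fieldRange) (rat_finite y))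
  have e : {n : ℕ | ∃ (T : Type u) (_ : Field T) (j' : k →+* T) (y' : A.Pt (A.push j' s)),
      loc j' s y' = loc j s y ∧ rk j'.fieldRange (rat y') = n} = {n} := by
    ext m
    constructor
    · rintro ⟨T', _, j', y', h1, h2⟩
      have := Geo4_rk_eq rfl rfl h1
      rw [h2, ← hn] at this
      exact_mod_cast this
    · rintro rfl
      exact ⟨T, inferInstance, j, y, rfl, hn.symm⟩
  rw [dim, e, csInf_singleton, hn]

omit [IsAlgClosed k] in
theorem Geo4_place_range {T' : Type u} [Field T'] {j : k →+* T} {j' : k →+* T'} (P : Place j j')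
    (z : P.W) (hz : (z : T) ∈ j.fieldRange) : P.r z ∈ j'.fieldRange := by
  obtain ⟨c, hc⟩ := hz
  refine ⟨c, (P.r_j c).symm.trans ?_⟩
  congr 1
  exact Subtype.ext hc

theorem Geo4_spec {T' : Type u} [Field T'] {j : k →+* T} {j' : k →+* T'} {s₁ : A.Str T}
    {s₂ : A.Str T'} (h : A.push j s = s₁) (h' : A.push j' s = s₂) {y : A.Pt s₁} {y' : A.Pt s₂}
    (hy : y' ∈ ext j' s₂ (loc j s y)) : rk j'.fieldRange (rat y') ≤ rk j.fieldRange (rat y) ∧
      (rk j.fieldRange (rat y) ≤ rk j'.fieldRange (rat y') → loc j' s y' = loc j s y) := by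
  let ψ := algebraMap T' (AlgebraicClosure T')
  rw [← Geo4_rk_map ψ rfl y', ← loc_map ψ.injective rfl y']
  have hy2 := mem_ext_map ψ rfl hy
  have h2 := push_trans h' (rfl : A.push ψ s₂ = _)
  generalize A.map ψ rfl y' = y₂ at hy2 ⊢
  obtain ⟨P, hP, h0⟩ := place_ex h h2 hy2
  have hR := (P.red_eq_iff h h2).1 hP
  refine ⟨hR.rk_le (Geo4_place_range P) h0, fun hr => ?_⟩
  refine (loc_subset (cl_loc j y) hy2).antisymm fun x hx g d hg hgy => hx g d hg ?_
  obtain ⟨v, hv, ⟨i, hi⟩, hv'⟩ := hR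
  obtain ⟨c, hc⟩ := hi.exists_left_inv
  have hcu : IsUnit c := IsUnit.of_mul_eq_one _ hc
  have hw : A.Rep y fun l => ((c * v l : P.W) : T) :=
    A.ax.rep_smul hv (hcu.map P.W.subtype)
  have hw' : A.Rep y₂ fun l => P.r (c * v l) := by
    have := A.ax.rep_smul hv' (hcu.map P.r)
    rwa [show P.r c • (P.r ∘ v) = fun l => P.r (c * v l) from funext fun l => by simp] at this
  rw [Geo4_rk_rep (i := i) _ hw (by rw [hc]; rfl),
    Geo4_rk_rep (i := i) _ hw' (by rw [hc, map_one])] at hr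
  set w : A.σ → P.W := fun l => c * v l with hwd
  have e1 : ((eval₂ P.jW w g : P.W) : T) = eval₂ j (fun l => (w l : T)) g := by
    change P.W.subtype _ = _
    rw [eval₂_comp_left]
    rfl
  have e2 : P.r (eval₂ P.jW w g) = eval₂ (ψ.comp j') (fun l => P.r (w l)) g := by
    rw [eval₂_comp_left]
    congr 1
    exact RingHom.ext P.r_j
  rw [van_iff hg hw, ← e1]
  refine Geo4A_inj P.W P.r (E := j.fieldRange) (by rintro _ ⟨c, rfl⟩; exact P.mem c)
    (Geo4_place_range P) (Set.range w) (Set.finite_range w) ?_ _ ?_ ?_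
  · rw [← Set.range_comp, ← Set.range_comp]
    exact hr
  · rw [e1]
    clear e1 e2 hg hgy
    induction g using MvPolynomial.induction_on with
    | C a => rw [eval₂_C]; exact le_adj _ _ ⟨a, rfl⟩
    | add p q hp hq => rw [eval₂_add]; exact add_mem hp hq
    | mul_X p l hp =>
      rw [eval₂_mul, eval₂_X]; exact mul_mem hp (subset_adj _ _ ⟨_, ⟨l, rfl⟩, rfl⟩)
  · rw [e2]
    exact hgy _ hw'

theorem rk_le_dim {j : k →+* T} {s' : A.Str T} (h : A.push j s = s') (hX : Var X) {y : A.Pt s'}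
    (hy : y ∈ ext j s' X) : rk j.fieldRange (rat y) ≤ dim X := by
  obtain ⟨T₀, _, _, j₀, ξ, rfl, -⟩ := hX.exists_gen
  rw [dim_loc rfl]
  exact (Geo4_spec rfl h hy).1
theorem dim_mono (hX : Var X) (hY : Var Y) (h : Y ⊆ X) : dim Y ≤ dim X := by
  obtain ⟨T₀, _, _, j₀, η, rfl, hη⟩ := hY.exists_gen
  have := rk_le_dim rfl hX (ext_mono _ _ h hη)
  rw [← dim_loc rfl] at this
  exact_mod_cast this
theorem loc_eq_of_rk {j : k →+* T} {s' : A.Str T} (h : A.push j s = s') (hX : Var X) {y : A.Pt s'}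
    (hy : y ∈ ext j s' X) (hd : (dim X : ℕ∞) ≤ rk j.fieldRange (rat y)) : loc j s y = X := by
  obtain ⟨T₀, _, _, j₀, ξ, rfl, -⟩ := hX.exists_gen
  rw [dim_loc rfl] at hd
  exact (Geo4_spec rfl h hy).2 hd
theorem eq_of_dim (hX : Var X) (hY : Var Y) (h : Y ⊆ X) (hd : dim X ≤ dim Y) : Y = X := by
  obtain ⟨T₀, _, _, j₀, η, rfl, hη⟩ := hY.exists_gen
  refine loc_eq_of_rk rfl hX (ext_mono _ _ h hη) ?_
  rw [← dim_loc rfl]
  exact_mod_cast hd
/-- A point is rational over the (algebraically closed) ground field iff its locus is finite. -/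
theorem rat_of_mem_finite {j : k →+* T} {s' : A.Str T} (h : A.push j s = s') (hX : X.Finite)
    {y : A.Pt s'} (hy : y ∈ ext j s' X) : Rat j.fieldRange y := by
  rw [ext_finite h hX] at hy
  obtain ⟨x, -, hx⟩ := hy
  exact (rat_range_iff j h).2 ⟨x, hx⟩
theorem dim_loc_eq_zero {j : k →+* T} {s' : A.Str T} (h : A.push j s = s') {y : A.Pt s'} :
    dim (loc j s y) = 0 ↔ Rat j.fieldRange y := by
  rw [← Nat.cast_inj (R := ℕ∞), dim_loc h, Nat.cast_zero, rk_eq_zero, acl_eq]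
  rfl
theorem dim_eq_zero (hX : Var X) : dim X = 0 ↔ ∃ x, X = {x} := by
  obtain ⟨T₀, _, _, j₀, ξ, rfl, hξ⟩ := hX.exists_gen
  rw [dim_loc_eq_zero rfl]
  constructor
  · intro h
    obtain ⟨x, rfl⟩ := (rat_range_iff j₀ rfl).1 h
    exact ⟨x, loc_map_self j₀ rfl x⟩
  · rintro ⟨x, hx⟩
    exact rat_of_mem_finite rfl (hx ▸ Set.finite_singleton x) hξ
theorem dim_ext [IsAlgClosed T] (hX : Var X) (j : k →+* T) {s' : A.Str T} (h : A.push j s = s') :
    dim (ext j s' X) = dim X := by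
  obtain ⟨E, _, _, i, y, rfl, hLD⟩ := hX.exists_gen' j
  have h' : A.push i s' = A.push (i.comp j) s := by rw [← h, A.ax.push_comp]
  have h1 : (i.comp j).fieldRange ≤ acl (adj (i.comp j).fieldRange (rat y)) :=
    (le_adj _ _).trans (le_acl _)
  have h2 : Rat (acl (adj (i.comp j).fieldRange (rat y))) y := (rat_adj _ y).mono (le_acl _)
  rw [← genLD j i h h' h1 h2 hLD, ← Nat.cast_inj (R := ℕ∞), dim_loc h', dim_loc rfl]
  exact hLD.rk_eq (by rintro _ ⟨c, rfl⟩; exact ⟨j c, rfl⟩) h1 h2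
theorem dim_image_le (φ : NM A B s t) (hX : Var X) : dim (φ.f₀ '' X) ≤ dim X := by
  obtain ⟨T₀, _, _, j₀, ξ, rfl, -⟩ := hX.exists_gen
  rw [← φ.loc_f rfl rfl, ← Nat.cast_le (α := ℕ∞), dim_loc rfl, dim_loc rfl]
  exact rk_le_of_acl fun z hz => le_acl _ (φ.rat rfl rfl (le_adj _ _) (rat_adj _ ξ) hz)
theorem Geo4_vadd_le (hX : Var X) (a : A.Pt s) : dim (a +ᵥ X) ≤ dim X := by
  obtain ⟨T₀, _, _, j₀, ξ, rfl, -⟩ := hX.exists_gen
  rw [← loc_vadd rfl, ← Nat.cast_le (α := ℕ∞), dim_loc rfl, dim_loc rfl]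
  refine rk_le_of_acl fun z hz => le_acl _ ?_
  exact Rat.add (def_range j₀ s rfl (le_adj _ _))
    (((rat_range_iff j₀ rfl).2 ⟨a, rfl⟩).mono (le_adj _ _)) (rat_adj _ ξ) hz
theorem dim_vadd (hX : Var X) (a : A.Pt s) : dim (a +ᵥ X) = dim X := by
  refine (Geo4_vadd_le hX a).antisymm ?_
  have := Geo4_vadd_le (hX.vadd a) (-a)
  rwa [neg_vadd_vadd] at this
theorem dim_sprod {Z : Set (B.Pt t)} (hX : Var X) (hZ : Var Z) :
    dim (sprod X Z) = dim X + dim Z := by
  obtain ⟨T₁, _, _, i₁, ξ, rfl, -⟩ := hX.exists_gen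
  obtain ⟨T₂, _, _, i₂, η, rfl, -⟩ := hZ.exists_gen
  obtain ⟨E, _, _, j₁, j₂, e, hLD⟩ := exists_amalg i₁ i₂
  have h₁ : A.push (j₁.comp i₁) s = A.push j₁ (A.push i₁ s) := (A.ax.push_comp _ _ _).symm
  have h₂ : B.push (j₁.comp i₁) t = B.push j₂ (B.push i₂ t) := by rw [e, B.ax.push_comp]
  have l₁ : (j₁.comp i₁).fieldRange ≤ j₁.fieldRange := by rintro _ ⟨c, rfl⟩; exact ⟨i₁ c, rfl⟩
  have l₂ : (j₁.comp i₁).fieldRange ≤ j₂.fieldRange := by
    rw [e]; rintro _ ⟨c, rfl⟩; exact ⟨i₂ c, rfl⟩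
  have r₁ : Rat j₁.fieldRange (A.map j₁ rfl ξ) := (rat_range_iff j₁ rfl).2 ⟨ξ, rfl⟩
  have r₂ : Rat j₂.fieldRange (B.map j₂ rfl η) := (rat_range_iff j₂ rfl).2 ⟨η, rfl⟩
  have e₂ : loc (j₁.comp i₁) t (B.map j₂ rfl η) = loc i₂ t η := by
    rw [e]; exact loc_map j₂.injective rfl η
  rw [← loc_map j₁.injective rfl ξ, ← e₂, ← loc_prod_ld h₁ h₂ l₁ l₂ hLD r₁ r₂,
    ← Nat.cast_inj (R := ℕ∞), Nat.cast_add, dim_loc (A := A.prod B) (prod_push h₁ h₂), dim_loc h₁,
    dim_loc h₂, ← rk_adj, adj_rat_prod, rk_adj, rk_union]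
  congr 1
  exact (hLD.mono (adj_le.2 ⟨l₁, r₁⟩) le_rfl).rk_eq (le_adj _ _) l₂ r₂
/-- If the rank does not drop, the locus is the extension of the locus. -/
theorem loc_eq_ext_of_rk {k' : Type u} [Field k'] [IsAlgClosed k'] (i : k →+* k') (j : k' →+* T)
    {s₁ : A.Str k'} {s' : A.Str T} (h₁ : A.push i s = s₁) (h : A.push j s₁ = s') {y : A.Pt s'}
    (hr : rk (j.comp i).fieldRange (rat y) ≤ rk j.fieldRange (rat y)) :
    loc j s₁ y = ext i s₁ (loc (j.comp i) s y) :=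
  genLD i j h₁ h ((le_adj _ (rat y)).trans (le_acl _)) ((rat_adj _ y).mono (le_acl _))
    (ld_of_rk (by rintro _ ⟨c, rfl⟩; exact ⟨i c, rfl⟩) (rk_ne_top (rat_finite y)) hr)

theorem hyp (hX : Var X) {g : MvPolynomial A.σ k} {d : ℕ} (hd : 0 < d) (hg : g.IsHomogeneous d)
    (h : ∀ x ∈ X, ¬ van (RingHom.id k) g x) : ∃ x, X = {x} := by
  rw [← dim_eq_zero hX]
  obtain ⟨T₀, _, _, j, ξ, rfl, hξ⟩ := hX.exists_gen
  rw [dim_loc_eq_zero rfl]
  obtain ⟨v, i₀, hv, hi₀⟩ := exists_rep_one ξ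
  have hg0 : eval₂ j v g ≠ 0 := fun h0 => by
    obtain ⟨x, hx⟩ := hX.2.1
    exact h x hx (hx g d hg ((van_iff hg hv).2 h0))
  have key : ∀ i, v i ≠ 0 → eval₂ j v g / v i ^ d ∈ j.fieldRange := by
    intro i hi
    by_contra hn
    obtain ⟨P, hW, h0⟩ := Geo4A_place_zero j hn
    have hx := (mem_loc_iff rfl).2 ⟨P, (rfl : P.red rfl (A.ax.push_id s) ξ = _)⟩
    obtain ⟨w, hw, -, hw'⟩ := (P.red_eq_iff rfl (A.ax.push_id s) (x := ξ)).1 rfl
    refine h _ hx ((van_iff hg hw').2 ?_)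
    obtain ⟨c, -, hc⟩ := A.ax.rep_uniq hv hw
    have e1 : eval₂ P.jW w g = ⟨_, hW⟩ * w i ^ d := by
      apply Subtype.ext
      change P.W.subtype _ = eval₂ j v g / v i ^ d * (w i : T₀) ^ d
      have e2 : (w i : T₀) = c * v i := congrFun hc i
      rw [eval₂_comp_left, e2, mul_pow, mul_left_comm, div_mul_cancel₀ _ (pow_ne_zero d hi)]
      change eval₂ j (fun l => (w l : T₀)) g = _
      rw [hc, ← eval_map, ← eval_map, Prod_hom (hg.map j)]
    have e3 := congrArg P.r e1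
    rw [map_mul, h0, zero_mul, eval₂_comp_left] at e3
    rw [← e3]
    congr 1
    exact (RingHom.ext P.r_j).symm
  refine (rat_iff_of_rep hv hi₀).2 fun i => ?_
  by_cases hi : v i = 0
  · rw [hi]; exact zero_mem _
  obtain ⟨a, ha⟩ := key i hi
  obtain ⟨b, hb⟩ := key i₀ (by rw [hi₀]; exact one_ne_zero)
  refine Geo4A_mem_range j (Polynomial.X_pow_sub_C_ne_zero hd (b / a)) ?_
  rw [Polynomial.eval₂_sub, Polynomial.eval₂_X_pow, Polynomial.eval₂_C, map_div₀, ha, hb, hi₀,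
    one_pow, div_one, div_div_cancel₀ hg0, sub_self]

theorem Geo4_finite (hX : Cl X) {g : MvPolynomial A.σ k} {d : ℕ} (hd : 0 < d)
    (hg : g.IsHomogeneous d) (h : ∀ x ∈ X, ¬ van (RingHom.id k) g x) : X.Finite := by
  by_contra hi
  obtain ⟨Y, hY, hv, hYi⟩ := hX.exists_var_infinite hi
  obtain ⟨x, rfl⟩ := hyp hv hd hg fun x hx => h x (hY hx)
  exact hYi (Set.finite_singleton x)

/-- A closed set with finitely many reductions is finite: take a linear form over `W` whose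
reduction does not vanish at the finitely many points. -/
theorem finite_of_red {W : ValuationSubring k} {F : Type u} [Field F] (r : W →+* F)
    (hr : (Set.range r).Infinite) {t : A.Str F} (hX : Cl X) {S : Set (A.Pt t)} (hS : S.Finite)
    (h : ∀ x ∈ X, ∃ y ∈ S, Red W r x y) : X.Finite := by
  choose w hw using fun y : A.Pt t => A.ax.exists_rep y
  obtain ⟨g, hg, hg0⟩ := Geo4A_linear r hr (hS.image w) (by
    rintro _ ⟨y, -, rfl⟩ h0
    obtain ⟨i, hi⟩ := A.ax.rep_uni (hw y)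
    exact hi.ne_zero (congrFun h0 i))
  refine Geo4_finite hX one_pos (hg.map W.subtype) fun x hx hv => ?_
  obtain ⟨y, hy, hR⟩ := h x hx
  refine hg0 _ ⟨y, hy, rfl⟩ (hR.van (RingHom.id W) hg (fun v hv' => ?_) _ (hw y))
  have := hv v hv'
  rwa [eval₂_map] at this

theorem finite_of_congW {W : ValuationSubring k} {s' : A.Str k} (hX : Cl X) {y : A.Pt s'}
    (h : ∀ x ∈ X, CongW W x y) : X.Finite := by
  obtain ⟨w₀, hw₀⟩ := A.ax.exists_rep y
  obtain ⟨i₁, -⟩ := A.ax.rep_uni hw₀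
  obtain ⟨i₀, -, hi₀⟩ := Finset.univ.exists_max_image (fun i => W.valuation (w₀ i))
    ⟨i₁, Finset.mem_univ _⟩
  refine Geo4_finite hX one_pos (isHomogeneous_X k i₀) fun x hx hv => ?_
  obtain ⟨v, w, h1, h2, ⟨i, hi⟩, h3⟩ := h x hx
  obtain ⟨c, -, hc⟩ := A.ax.rep_uniq hw₀ h2
  have e : ∀ l, (w l : k) = c * w₀ l := congrFun hc
  have e0 : (v i₀ : k) = 0 := by simpa using hv _ h1
  have e1 : W.valuation (v i : k) = 1 := (W.valuation_eq_one_iff _).1 hi
  have e2 : W.valuation (w i₀ : k) < 1 := by simpa [e0] using h3 i₀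
  have e3 : W.valuation (w i : k) < 1 := by
    refine lt_of_le_of_lt ?_ e2
    rw [e, e, map_mul, map_mul]
    exact mul_le_mul_right (hi₀ i (Finset.mem_univ _)) _
  have e4 := W.valuation.map_add_lt (h3 i) e3
  rw [sub_add_cancel, e1] at e4
  exact lt_irrefl _ e4

/-- A map with finite fibres preserves the dimension. -/
theorem dim_image_eq (φ : NM A B s t) (hX : Var X)
    (hf : ∀ y, (X ∩ φ.f₀ ⁻¹' {y}).Finite) : dim (φ.f₀ '' X) = dim X := by
  refine (dim_image_le φ hX).antisymm ?_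
  obtain ⟨T₀, _, _, j, ξ, rfl, hξ⟩ := hX.exists_gen
  rw [← φ.loc_f rfl rfl, ← Nat.cast_le (α := ℕ∞), dim_loc rfl, dim_loc rfl]
  set η := φ.f j rfl rfl ξ with hη
  set F := acl (adj j.fieldRange (rat η)) with hF
  let i : k →+* F := j.codRestrict F fun c => le_acl _ (le_adj _ _ ⟨c, rfl⟩)
  have h₁ : A.push F.subtype (A.push i s) = A.push j s := A.ax.push_comp _ _ _
  have e₁ : B.push F.subtype (B.push i t) = B.push j t := B.ax.push_comp _ _ _
  obtain ⟨η₀, hη₀⟩ := (rat_subtype_iff e₁).1 ((rat_adj j.fieldRange η).mono (le_acl _))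
  obtain ⟨P, -⟩ := exists_place_self i
  have hZ : (loc F.subtype (A.push i s) ξ).Finite := by
    refine finite_of_red P.r (Set.infinite_of_injective_forall_mem (f := fun c : k => c)
      (fun _ _ e => e) fun c => ⟨_, P.r_j c⟩) (cl_loc _ _) (hf (P.red rfl (B.ax.push_id t) η₀))
      fun x hx => ⟨P.red rfl (A.ax.push_id s) x, ⟨?_, ?_⟩, (P.red_eq_iff _ _).1 rfl⟩
    · exact (mem_ext_iff rfl (cl_loc j ξ)).1 (loc_subset_ext_loc i F.subtype rfl h₁ ξ hx) P
    · obtain ⟨Q, hQ⟩ := (mem_loc_iff h₁).1 hx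
      have h2 := φ.red (Q.restrict i) (push_trans rfl h₁) (push_trans rfl (A.ax.push_id _))
        (push_trans rfl e₁) (push_trans rfl (B.ax.push_id _)) ξ
      rw [Q.red_restrict i rfl h₁ (A.ax.push_id _), Q.red_restrict i rfl e₁ (B.ax.push_id _), hQ]
        at h2
      have h3 : φ.f i rfl rfl x = η₀ := by
        refine h2.symm.trans ?_
        change Q.red e₁ (B.ax.push_id _) η = η₀
        rw [← hη₀, Q.red_map]
        exact map_id' (fun _ => rfl) _ _
      change φ.f₀ _ = _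
      rw [← h3]
      exact (φ.red P rfl _ rfl _ x).symm
  have hr := rat_of_mem_finite h₁ hZ (mem_ext_loc h₁ ξ)
  rw [Subfield.fieldRange_subtype] at hr
  exact rk_le_of_acl hr

/-- An infinite variety contains a point of transcendence degree one. -/
theorem Var.exists_curve (hX : Var X) (hi : X.Infinite) : ∃ (T : Type u) (_ : Field T)
    (_ : IsAlgClosed T) (j : k →+* T) (y : A.Pt (A.push j s)), y ∈ ext j _ X ∧
      rk j.fieldRange (rat y) = 1 := by
  obtain ⟨T₀, _, _, j, ξ, rfl, hξ⟩ := hX.exists_gen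
  obtain ⟨v, i₀, hv, hi₀⟩ := exists_rep_one ξ
  obtain ⟨P, w, hw, hr⟩ := Geo4A_curve j v (by
    by_contra hn
    push Not at hn
    obtain ⟨x, hx⟩ := (dim_eq_zero hX).1
      ((dim_loc_eq_zero rfl).2 ((rat_iff_of_rep hv hi₀).2 hn))
    exact hi (hx ▸ Set.finite_singleton x))
  have hw1 : w i₀ = 1 := Subtype.ext ((hw i₀).trans hi₀)
  have hv' : A.Rep ξ (P.W.subtype ∘ w) := by
    rw [show P.W.subtype ∘ w = v from funext hw]; exact hv
  have hu : Uni w := ⟨i₀, hw1 ▸ isUnit_one⟩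
  obtain ⟨x, hx, -⟩ := exists_map_eq P.W.subtype_injective (P.push₁ rfl) hu hv'
  have hy := rep_map P.r (P.push₂ rfl) hx
  refine ⟨T₀, inferInstance, inferInstance, j, A.map P.r (P.push₂ rfl) x,
    red_mem_ext P ⟨w, hv', hu, hy⟩ hξ, ?_⟩
  rw [Geo4_rk_rep (i := i₀) _ hy (by simp [hw1])]
  exact hr

end PG

end MLF
end

-- merged part: Pool.Agent.Work.MP_29d410_ag.Geo5
section
/-!
# Stabilisers, identity components, generated subgroups, torsion

Plan.  `mem_stab_of_subset`: the chain `n b + X` of closed sets is stationary (`wf_cl`).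
`cl_stab`: the stabiliser is the intersection of the `X - x`, `x ∈ X`.
`ext_stab`: `b + ext X ⊆ ext X` implies the same for all reductions of `b`; conversely if
`b ∈ ext (Stab X)` then `b ∈ ext (X - x)` for `x ∈ X`, and `ext X` is the closure of the image
of `X`.  `exists_idc`: sum of the components through `0`... simplest: take a variety `G₀ ⊆ G`
containing `0` of maximal dimension; `G₀ - G₀` is a variety in `G` containing `G₀`, so equal;
for every component `Y ∋ y`, `Y - y + G₀ ⊇ G₀` is a variety so `Y ⊆ y + G₀`.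
`exists_gen_sub`: `Z n = (Z - Z) + ... + (Z - Z)` is an increasing chain of varieties, of bounded
dimension, so stationary; its generic point is `∑ (ψ i ξ - ψ i' ξ)` for an independent family
(`joint_place`, or `loc_add_ld` and induction).
-/

set_option linter.unusedSectionVars false

open MvPolynomial Pointwise

namespace MLF

universe u

namespace PG

variable {A B : PG.{u}} {k T : Type u} [Field k] [Field T] [IsAlgClosed k] {s : A.Str k}
  {t : B.Str k} {X Y : Set (A.Pt s)}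

theorem Geo5_mem {G : Type u} [AddCommGroup G] {X : Set G} {b : G} :
    b ∈ Stab X ↔ ∀ x, x ∈ X ↔ b + x ∈ X := Iff.rfl

theorem Geo5_vadd {G : Type u} [AddCommGroup G] {X : Set G} {a x : G} :
    x ∈ a +ᵥ X ↔ x - a ∈ X := by
  rw [Set.mem_vadd_set_iff_neg_vadd_mem, vadd_eq_add, neg_add_eq_sub]

theorem mem_stab {G : Type u} [AddCommGroup G] {X : Set G} {b : G} :
    b ∈ Stab X ↔ b +ᵥ X = X := by
  rw [Geo5_mem]
  constructor
  · intro h
    ext y
    rw [Geo5_vadd, h, add_sub_cancel]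
  · intro h x
    conv_rhs => rw [← h, Geo5_vadd, add_sub_cancel_left]

theorem stab_vadd {G : Type u} [AddCommGroup G] (X : Set G) (a : G) :
    Stab (a +ᵥ X) = Stab X := by
  ext b
  rw [mem_stab, mem_stab, vadd_comm, vadd_left_cancel_iff]

theorem mem_stab_of_subset (hX : Cl X) {b : A.Pt s} (h : b +ᵥ X ⊆ X) : b ∈ Stab X := by
  obtain ⟨_, ⟨n, rfl⟩, hn⟩ := (wf_cl s).has_min
    (Set.range fun n : ℕ => (⟨(n • b) +ᵥ X, hX.vadd _⟩ : {X : Set (A.Pt s) // Cl X}))
    (Set.range_nonempty _)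
  have h1 : ((n + 1) • b) +ᵥ X ⊆ (n • b) +ᵥ X := by
    rw [succ_nsmul, add_vadd]
    exact Set.vadd_set_mono h
  have h2 : ((n + 1) • b) +ᵥ X = (n • b) +ᵥ X := by
    by_contra hne
    exact hn _ ⟨n + 1, rfl⟩ (ssubset_of_subset_of_ne h1 hne)
  rw [succ_nsmul, add_vadd, vadd_left_cancel_iff] at h2
  exact mem_stab.2 h2

theorem Geo5_stab (hX : Cl X) {b : A.Pt s} (h : ∀ x ∈ X, b + x ∈ X) : b ∈ Stab X :=
  mem_stab_of_subset hX (by rintro _ ⟨x, hx, rfl⟩; exact h x hx)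

theorem cl_stab (hX : Cl X) : Cl (Stab X : Set (A.Pt s)) := by
  have e : (Stab X : Set (A.Pt s)) = ⋂ x : X, (-(x : A.Pt s)) +ᵥ X := by
    ext b
    simp only [Set.mem_iInter, Geo5_vadd, sub_neg_eq_add, SetLike.mem_coe]
    exact ⟨fun h x => (h x).1 x.2, fun h => Geo5_stab hX fun x hx => h ⟨x, hx⟩⟩
  rw [e]
  exact cl_iInter fun x => hX.vadd _

theorem ext_stab [IsAlgClosed T] {j : k →+* T} {s' : A.Str T} (h : A.push j s = s') (hX : Cl X) :
    Stab (ext j s' X) = extS h (Stab X) := by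
  ext b
  rw [mem_extS]
  constructor
  · intro hb
    refine (mem_ext_iff h (cl_stab hX)).2 fun P => Geo5_stab hX fun x hx => ?_
    have h1 := (mem_ext_iff h hX).1 ((hb _).1 (map_mem_ext j h hx)) P
    rwa [map_add, P.red_map, map_id' (fun _ => rfl)] at h1
  · intro hb
    refine Geo5_stab (cl_ext j s' X) fun y hy => ext_mono j s' ?_ (add_mem_ext h hb hy)
    rintro _ ⟨a, ha, x, hx, rfl⟩
    exact (ha x).1 hx

theorem Geo5_fin {j : k →+* T} {s' : A.Str T} (h : A.push j s = s') :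
    (ext j s' X).Finite ↔ X.Finite := by
  constructor
  · intro hf
    exact (hf.preimage (map_inj j.injective h).injOn).subset fun x hx => map_mem_ext j h hx
  · intro hf
    rw [ext_finite h hf]
    exact hf.image _

theorem stab_ext_finite [IsAlgClosed T] {j : k →+* T} {s' : A.Str T} (h : A.push j s = s')
    (hX : Cl X) : (Stab (ext j s' X) : Set (A.Pt s')).Finite ↔ (Stab X : Set (A.Pt s)).Finite := by
  rw [ext_stab h hX, coe_extS, Geo5_fin h]

/-- `G₀` is the identity component of `G`. -/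
structure IdC (G₀ G : AddSubgroup (A.Pt s)) : Prop where
  le : G₀ ≤ G
  var : Var (G₀ : Set (A.Pt s))
  fin : ∃ F : Set (A.Pt s), F.Finite ∧ ∀ x ∈ G, ∃ a ∈ F, x - a ∈ G₀

omit [IsAlgClosed k] in
/-- A variety inside a finite union of varieties lies in one of them. -/
theorem Geo5_comp {S : Set (Set (A.Pt s))} (hS : S.Finite) (hv : ∀ Y ∈ S, Var Y) (hX : Var X)
    (h : X ⊆ ⋃₀ S) : ∃ Y ∈ S, X ⊆ Y :=
  hX.2.subset_of_finite hS (Y := id) (fun Y hY => (hv Y hY).1) (by rwa [Set.sUnion_eq_biUnion] at h)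

theorem exists_idc {G : AddSubgroup (A.Pt s)} (hG : Cl (G : Set (A.Pt s))) : ∃ G₀, IdC G₀ G := by
  obtain ⟨S, hS, hv, e⟩ := hG.exists_comp
  have hsub : ∀ Y ∈ S, Y ⊆ G := fun Y hY => e ▸ Set.subset_sUnion_of_mem hY
  obtain ⟨Y₀, ⟨hY₀, h0⟩, hm⟩ := (hS.subset (Set.sep_subset S fun Y => (0 : A.Pt s) ∈ Y)).exists_maximal
    (by
      obtain ⟨Y, hY, h0⟩ : (0 : A.Pt s) ∈ ⋃₀ S := e ▸ G.zero_mem
      exact ⟨Y, hY, h0⟩)
  have key : ∀ Z : Set (A.Pt s), Var Z → Z ⊆ G → (0 : A.Pt s) ∈ Z → Z ⊆ Y₀ := by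
    intro Z hZ hZG hZ0
    obtain ⟨Y, hY, hZY⟩ := Geo5_comp hS hv (hZ.add (hv _ hY₀)) (e ▸ by
      rintro _ ⟨a, ha, b, hb, rfl⟩
      exact G.add_mem (hZG ha) (hsub _ hY₀ hb))
    have h1 : Y₀ ⊆ Y := fun y hy => hZY ⟨0, hZ0, y, hy, zero_add y⟩
    exact fun z hz => hm ⟨hY, h1 h0⟩ h1 (hZY ⟨z, hz, 0, h0, add_zero z⟩)
  refine ⟨{ carrier := Y₀, zero_mem' := h0, add_mem' := fun {a b} ha hb => ?_
            neg_mem' := fun {a} ha => ?_ }, hsub _ hY₀, hv _ hY₀, ?_⟩
  · refine key _ ((hv _ hY₀).add (hv _ hY₀)) ?_ ⟨0, h0, 0, h0, add_zero _⟩ ⟨a, ha, b, hb, rfl⟩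
    rintro _ ⟨a, ha, b, hb, rfl⟩
    exact G.add_mem (hsub _ hY₀ ha) (hsub _ hY₀ hb)
  · refine key _ (hv _ hY₀).neg (fun x hx => ?_) (by simpa using h0) (by simpa using ha)
    exact neg_mem_iff.1 (hsub _ hY₀ hx)
  · choose! y hy using fun Y (hY : Y ∈ S) => (hv Y hY).2.1
    refine ⟨y '' S, hS.image _, fun x hx => ?_⟩
    obtain ⟨Y, hY, hxY⟩ : x ∈ ⋃₀ S := e ▸ hx
    refine ⟨y Y, ⟨Y, hY, rfl⟩, key _ ((hv _ hY).vadd (-y Y)) (fun z hz => ?_) ?_ ?_⟩
    · rw [Geo5_vadd, sub_neg_eq_add] at hz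
      exact (G.add_mem_cancel_right (hsub _ hY (hy Y hY))).1 (hsub _ hY hz)
    · rw [Geo5_vadd, sub_neg_eq_add, zero_add]
      exact hy Y hY
    · rwa [Geo5_vadd, sub_neg_eq_add, sub_add_cancel]

omit [IsAlgClosed k] in
theorem IdC.Geo5_cover {G₀ G : AddSubgroup (A.Pt s)} (h : IdC G₀ G) : ∃ F : Set (A.Pt s),
    F.Finite ∧ (G : Set (A.Pt s)) ⊆ ⋃ a ∈ F, a +ᵥ (G₀ : Set (A.Pt s)) := by
  obtain ⟨F, hF, h⟩ := h.fin
  refine ⟨F, hF, fun x hx => ?_⟩
  obtain ⟨a, ha, hx⟩ := h x hx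
  exact Set.mem_biUnion ha (Geo5_vadd.2 hx)

theorem IdC.le_of_var {G₀ G : AddSubgroup (A.Pt s)} (h : IdC G₀ G) (hY : Var Y)
    (h0 : (0 : A.Pt s) ∈ Y) (hG : Y ⊆ G) : Y ⊆ G₀ := by
  obtain ⟨F, hF, hc⟩ := h.Geo5_cover
  obtain ⟨a, -, ha⟩ := hY.2.subset_of_finite hF (fun a _ => h.var.1.vadd a) (hG.trans hc)
  intro y hy
  have h1 := G₀.sub_mem (Geo5_vadd.1 (ha hy)) (Geo5_vadd.1 (ha h0))
  rwa [sub_sub_sub_cancel_right, sub_zero] at h1

theorem IdC.uniq {G₀ G₁ G : AddSubgroup (A.Pt s)} (h : IdC G₀ G) (h' : IdC G₁ G) : G₀ = G₁ :=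
  le_antisymm (h'.le_of_var h.var G₀.zero_mem h.le) (h.le_of_var h'.var G₁.zero_mem h'.le)

theorem IdC.ext [IsAlgClosed T] {G₀ G : AddSubgroup (A.Pt s)} (hG : IdC G₀ G) {j : k →+* T}
    {s' : A.Str T} (h : A.push j s = s') : IdC (extS h G₀) (extS h G) := by
  obtain ⟨F, hF, hc⟩ := hG.Geo5_cover
  refine ⟨ext_mono j s' hG.le, var_ext hG.var j h, A.map j h '' F, hF.image _, fun x hx => ?_⟩
  have h1 := ext_mono j s' hc hx
  rw [ext_biUnion hF] at h1
  obtain ⟨a, ha, h1⟩ := Set.mem_iUnion₂.1 h1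
  rw [ext_vadd h, Geo5_vadd] at h1
  exact ⟨_, ⟨a, ha, rfl⟩, h1⟩

theorem IdC.finite {G₀ G : AddSubgroup (A.Pt s)} (h : IdC G₀ G)
    (hf : (G₀ : Set (A.Pt s)).Finite) : (G : Set (A.Pt s)).Finite := by
  obtain ⟨F, hF, hc⟩ := h.Geo5_cover
  exact (hF.biUnion fun a _ => hf.vadd_set).subset hc

theorem IdC.nsmul_mem {G₀ G : AddSubgroup (A.Pt s)} (h : IdC G₀ G) :
    ∃ n, n ≠ 0 ∧ ∀ x ∈ G, n • x ∈ G₀ := by
  obtain ⟨F, hF, hc⟩ := h.fin
  have hf : (G.map (QuotientAddGroup.mk' G₀) : Set (A.Pt s ⧸ G₀)).Finite := by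
    refine (hF.image (QuotientAddGroup.mk' G₀)).subset ?_
    rintro _ ⟨x, hx, rfl⟩
    obtain ⟨a, ha, hx⟩ := hc x hx
    exact ⟨a, ha, (QuotientAddGroup.eq_iff_sub_mem.2 hx).symm⟩
  have : Finite (G.map (QuotientAddGroup.mk' G₀)) := hf
  refine ⟨Nat.card (G.map (QuotientAddGroup.mk' G₀)), Nat.card_pos.ne', fun x hx => ?_⟩
  have h1 := congrArg Subtype.val
    (card_nsmul_eq_zero' (x := (⟨_, x, hx, rfl⟩ : G.map (QuotientAddGroup.mk' G₀))))
  rw [← QuotientAddGroup.eq_zero_iff]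
  exact h1

theorem Var.eq_bot {G : AddSubgroup (A.Pt s)} (h : Var (G : Set (A.Pt s)))
    (hf : (G : Set (A.Pt s)).Finite) : G = ⊥ := by
  obtain ⟨x, hx⟩ := h.2.eq_singleton hf
  have h0 : (0 : A.Pt s) ∈ ({x} : Set (A.Pt s)) := hx ▸ G.zero_mem
  refine (AddSubgroup.eq_bot_iff_forall G).2 fun y hy => ?_
  have h1 : y ∈ ({x} : Set (A.Pt s)) := hx ▸ hy
  exact h1.trans h0.symm

theorem Geo5_sup {M : Type u} [AddCommGroup M] (G G' : AddSubgroup M) :
    ((G ⊔ G' : AddSubgroup M) : Set M) = (G : Set M) + (G' : Set M) := by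
  ext x
  rw [SetLike.mem_coe, AddSubgroup.mem_sup]
  rfl

theorem Var.sup {G G' : AddSubgroup (A.Pt s)} (h : Var (G : Set (A.Pt s)))
    (h' : Var (G' : Set (A.Pt s))) : Var ((G ⊔ G' : AddSubgroup (A.Pt s)) : Set (A.Pt s)) := by
  rw [Geo5_sup]
  exact h.add h'

theorem extS_sup [IsAlgClosed T] {j : k →+* T} {s' : A.Str T} (h : A.push j s = s')
    (G G' : AddSubgroup (A.Pt s)) : extS h (G ⊔ G') = extS h G ⊔ extS h G' := by
  apply SetLike.coe_injective
  rw [coe_extS, Geo5_sup, Geo5_sup, ext_add h, coe_extS, coe_extS]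

theorem extS_extS {k' : Type u} [Field k'] [IsAlgClosed k'] {i : k →+* k'} {j : k' →+* T}
    {s₁ : A.Str k'} {s' : A.Str T} (h₁ : A.push i s = s₁) (h : A.push j s₁ = s')
    (G : AddSubgroup (A.Pt s)) : extS h (extS h₁ G) = extS (push_trans h₁ h) G := by
  apply SetLike.coe_injective
  rw [coe_extS, coe_extS, coe_extS, ext_ext i j h₁]

/-- A closed set whose extension is a subgroup is a subgroup. -/
theorem exists_sub_of_ext {j : k →+* T} {s' : A.Str T} (h : A.push j s = s') (hX : Cl X)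
    {G : AddSubgroup (A.Pt s')} (hG : ext j s' X = G) :
    ∃ G₀ : AddSubgroup (A.Pt s), (G₀ : Set (A.Pt s)) = X ∧ extS h G₀ = G := by
  have e : (G.comap (A.map j h) : Set (A.Pt s)) = X := by
    ext x
    rw [← map_mem_ext_iff j h hX, hG]
    rfl
  refine ⟨G.comap (A.map j h), e, SetLike.coe_injective ?_⟩
  rw [coe_extS, e, hG]

/-- A variety stable under `x - y + z` is a coset. -/
theorem coset_of_gen {j : k →+* T} {s' : A.Str T} (h : A.push j s = s') (hX : Var X)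
    {x y z : A.Pt s'}
    (hg : loc (A := A.prod (A.prod A)) j (s, s, s) (s' := (s', s', s')) (x, y, z) =
      sprod X (sprod X X)) (hs : x - y + z ∈ ext j s' X) :
    ∃ G : AddSubgroup (A.Pt s), Var (G : Set (A.Pt s)) ∧ ∀ a ∈ X, X = a +ᵥ (G : Set (A.Pt s)) := by
  have key : ∀ a ∈ X, ∀ b ∈ X, ∀ c ∈ X, a - b + c ∈ X := by
    let φ : NM (A.prod (A.prod A)) A (s, s, s) s :=
      ((NM.fst s _).add ((NM.fst s s).comp (NM.snd s _)).neg).add ((NM.snd s s).comp (NM.snd s _))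
    have h1 := φ.loc_f (j := j) (s' := (s', s', s')) (prod_push h (prod_push h h)) h (x, y, z)
    have h2 : φ.f j (s' := (s', s', s')) (prod_push h (prod_push h h)) h (x, y, z) = x - y + z := by
      subst h
      exact congrArg (· + z) (sub_eq_add_neg x y).symm
    rw [h2, hg] at h1
    intro a ha b hb c hc
    refine loc_subset hX.1 hs (h1 ▸ ⟨(a, b, c), ⟨ha, hb, hc⟩, ?_⟩)
    change (NM.fst (B := A.prod A) s (s, s)).f₀ (a, b, c) +
      -((NM.fst s s).comp (NM.snd (B := A.prod A) s (s, s))).f₀ (a, b, c) +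
      ((NM.snd s s).comp (NM.snd (B := A.prod A) s (s, s))).f₀ (a, b, c) = _
    rw [NM.f₀, NM.f₀, NM.f₀, NM.comp_f _ _ _ ((A.prod A).ax.push_id _),
      NM.comp_f _ _ _ ((A.prod A).ax.push_id _), sub_eq_add_neg]
    rfl
  obtain ⟨a₀, h₀⟩ := hX.2.1
  refine ⟨{ carrier := (-a₀) +ᵥ X, zero_mem' := ?_, add_mem' := fun {a b} ha hb => ?_
            neg_mem' := fun {a} ha => ?_ }, hX.vadd _, fun a ha => ?_⟩
  · rw [Geo5_vadd, sub_neg_eq_add] at ha hb ⊢
    convert key _ ha _ h₀ _ hb using 1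
    abel
  · rwa [Geo5_vadd, sub_neg_eq_add, zero_add]
  · rw [Geo5_vadd, sub_neg_eq_add] at ha ⊢
    convert key _ h₀ _ ha _ h₀ using 1
    abel
  · ext b
    change _ ↔ b ∈ a +ᵥ (-a₀) +ᵥ X
    rw [Geo5_vadd, Geo5_vadd, sub_neg_eq_add]
    refine ⟨fun hb => key _ hb _ ha _ h₀, fun hb => ?_⟩
    convert key _ hb _ h₀ _ ha using 1
    abel

/-- The dimension of varieties is bounded. -/
theorem Geo5_bdd (s : A.Str k) : ∃ d, ∀ X : Set (A.Pt s), Var X → dim X ≤ d := by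
  obtain ⟨S, hS, hv, e⟩ := (cl_univ (s := s)).exists_comp
  obtain ⟨d, hd⟩ := (hS.image dim).bddAbove
  refine ⟨d, fun X hX => ?_⟩
  obtain ⟨Y, hY, h⟩ := Geo5_comp hS hv hX (e ▸ Set.subset_univ X)
  exact (dim_mono (hv Y hY) hX h).trans (hd ⟨Y, hY, rfl⟩)

/-- The locus of a sum of independent points. -/
theorem Geo5_sum {E : Type u} [Field E] {i : k →+* E} {ι : Type} {ψ : ι → (T →+* E)}
    {t : A.Str E} (ht : A.push i s = t) (hle : ∀ l, i.fieldRange ≤ (ψ l).fieldRange)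
    (hψ : IndepFam i.fieldRange ψ) (p : ι → A.Pt t) (hp : ∀ l, Rat (ψ l).fieldRange (p l))
    (S : Finset ι) : loc i s (∑ l ∈ S, p l) = ∑ l ∈ S, loc i s (p l) := by
  classical
  induction S using Finset.induction_on with
  | empty =>
    rw [Finset.sum_empty, Finset.sum_empty, ← (A.map i ht).map_zero, loc_map_self]
    rfl
  | insert a S ha ih =>
    rw [Finset.sum_insert ha, Finset.sum_insert ha, ← ih]
    refine loc_add_ld ht (hle a) le_sup_left (hψ a) (hp a) ?_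
    refine (mem_RatS (def_range i s ht le_sup_left)).1 (AddSubgroup.sum_mem _ fun l hl => ?_)
    refine (hp l).mono (le_sup_of_le_right ?_)
    exact le_iSup (fun l' : {l' // l' ≠ a} => (ψ l').fieldRange) ⟨l, fun e => ha (e ▸ hl)⟩

/-- The subgroup generated by the differences of points of the locus of `ξ`. -/
theorem exists_gen_sub {j : k →+* T} {s' : A.Str T} (h : A.push j s = s') (ξ : A.Pt s') :
    ∃ (G : AddSubgroup (A.Pt s)) (n : ℕ), Var (G : Set (A.Pt s)) ∧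
      (∀ x ∈ loc j s ξ, ∀ y ∈ loc j s ξ, x - y ∈ G) ∧
      (∀ G' : AddSubgroup (A.Pt s), (∀ x ∈ loc j s ξ, ∀ y ∈ loc j s ξ, x - y ∈ G') → G ≤ G') ∧
      ∀ (E : Type u) [Field E] (i : k →+* E) (ψ : Fin (n + n) → (T →+* E)) (t : A.Str E)
        (e : ∀ l, A.push (ψ l) s' = t), (∀ l, (ψ l).comp j = i) → IndepFam i.fieldRange ψ →
        loc i s (∑ l : Fin n, (A.map (ψ (Fin.castAdd n l)) (e _) ξ -
          A.map (ψ (Fin.natAdd n l)) (e _) ξ)) = G := by
  set Z := loc j s ξ with hZ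
  have vZ : Var Z := var_loc h ξ
  set D := Z + -Z with hD
  have vD : Var D := vZ.add vZ.neg
  have mD : ∀ x ∈ Z, ∀ y ∈ Z, x - y ∈ D := fun x hx y hy =>
    ⟨x, hx, -y, by simpa using hy, (sub_eq_add_neg x y).symm⟩
  have D0 : (0 : A.Pt s) ∈ D := by
    obtain ⟨x, hx⟩ := vZ.2.1
    exact sub_self x ▸ mD x hx x hx
  let W : ℕ → Set (A.Pt s) := fun n => ∑ _l : Fin n, D
  have W0 : W 0 = {0} := rfl
  have Ws : ∀ n, W (n + 1) = W n + D := fun n => Fin.sum_univ_castSucc _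
  have Wa : ∀ m n, W (m + n) = W m + W n := fun m n => Fin.sum_univ_add _
  have vW : ∀ n, Var (W n) := fun n => by
    induction n with
    | zero => exact var_singleton _
    | succ n ih => exact Ws n ▸ ih.add vD
  have z0 : ∀ n, (0 : A.Pt s) ∈ W n := fun n => by
    induction n with
    | zero => rfl
    | succ n ih => exact Ws n ▸ ⟨0, ih, 0, D0, add_zero _⟩
  have nW : ∀ n, -W n = W n := fun n => by
    induction n with
    | zero => rw [W0, Set.neg_singleton, neg_zero]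
    | succ n ih => rw [Ws, neg_add, ih, hD, neg_add, neg_neg, add_comm (-Z)]
  obtain ⟨d, hd⟩ := Geo5_bdd s
  obtain ⟨_, ⟨n, rfl⟩, hn⟩ := (Set.finite_le_nat d).subset
    (t := Set.range fun n => dim (W n)) (by rintro _ ⟨n, rfl⟩; exact hd _ (vW n))
    |>.exists_maximal (Set.range_nonempty _)
  have st : ∀ m, W (n + m) = W n := fun m => by
    have h1 : W n ⊆ W (n + m) := fun x hx => Wa n m ▸ ⟨x, hx, 0, z0 m, add_zero x⟩
    exact (eq_of_dim (vW _) (vW _) h1 (hn ⟨_, rfl⟩ (dim_mono (vW _) (vW _) h1))).symm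
  refine ⟨{ carrier := W n, zero_mem' := z0 n, add_mem' := fun {a b} ha hb => ?_
            neg_mem' := fun {a} ha => ?_ }, n + 1, vW n, fun x hx y hy => ?_, fun G' hG' => ?_, ?_⟩
  · rw [← st n, Wa]
    exact ⟨a, ha, b, hb, rfl⟩
  · rw [← nW]
    simpa using ha
  · change x - y ∈ W n
    rw [← st 1, Ws]
    exact ⟨0, z0 n, _, mD x hx y hy, zero_add _⟩
  · change W n ⊆ G'
    clear hn st
    induction n with
    | zero => rintro _ rfl; exact G'.zero_mem
    | succ n ih =>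
      rw [Ws]
      rintro _ ⟨a, ha, _, ⟨x, hx, y, hy, rfl⟩, rfl⟩
      exact G'.add_mem (ih ha) (by simpa using hG' x hx (-y) hy)
  · intro E _ i ψ t e hψ hi
    let η : Fin (n + 1 + (n + 1)) → A.Pt s' := Fin.addCases (fun _ => ξ) fun _ => -ξ
    have ht : A.push i s = t := hψ 0 ▸ push_trans h (e 0)
    have h1 := Geo5_sum ht (fun l => by rintro _ ⟨c, rfl⟩; exact ⟨j c, by rw [← hψ l]; rfl⟩) hi
      (fun l => A.map (ψ l) (e l) (η l)) (fun l => (rat_range_iff _ _).2 ⟨_, rfl⟩) Finset.univ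
    have h2 : ∀ l y, loc i s (A.map (ψ l) (e l) y) = loc j s y := fun l y => by
      rw [← hψ l, loc_map (ψ l).injective]
    rw [Fin.sum_univ_add (a := n + 1), Fin.sum_univ_add (a := n + 1)] at h1
    simp only [h2, η, Fin.addCases_left, Fin.addCases_right, loc_neg h] at h1
    change _ = W n
    rw [← st 1]
    simp only [sub_eq_add_neg, Finset.sum_add_distrib, W, hD]
    simpa only [map_neg] using h1

section tors

omit [IsAlgClosed k] in
theorem TorsFin.Geo5_fib (hs : A.TorsFin s) {n : ℕ} (hn : n ≠ 0) (x : A.Pt s) :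
    ((n • ·) ⁻¹' {x} : Set (A.Pt s)).Finite := by
  rcases Set.eq_empty_or_nonempty ((n • ·) ⁻¹' {x} : Set (A.Pt s)) with e | ⟨y, hy⟩
  · rw [e]
    exact Set.finite_empty
  · refine ((hs n hn).image (y + ·)).subset fun z hz => ⟨z - y, ?_, add_sub_cancel _ _⟩
    have h1 : n • y = x := hy
    have h2 : n • z = x := hz
    change n • (z - y) = 0
    rw [nsmul_sub, h1, h2, sub_self]

theorem TorsFin.Geo5_range (hs : A.TorsFin s) {R : Type u} [CommRing R] [IsLocalRing R] [IsDomain R]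
    {j : k →+* R} {s' : A.Str R} (h : A.push j s = s') {n : ℕ} (hn : n ≠ 0) {x : A.Pt s}
    {y : A.Pt s'} (hy : n • y = A.map j h x) : ∃ z, n • z = x ∧ A.map j h z = y := by
  have h1 := ext_nsmul_pre h (cl_singleton x) n
  rw [ext_finite h (hs.Geo5_fib hn x), ext_finite h (Set.finite_singleton x),
    Set.image_singleton] at h1
  have h2 : y ∈ ((n • ·) ⁻¹' {A.map j h x} : Set (A.Pt s')) := hy
  rwa [← h1] at h2

theorem TorsFin.ext (hs : A.TorsFin s) {j : k →+* T} {s' : A.Str T} (h : A.push j s = s') :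
    A.TorsFin s' := fun n hn =>
  ((hs n hn).image (A.map j h)).subset fun _ hy =>
    hs.Geo5_range h hn (hy.trans (A.map j h).map_zero.symm)

omit [IsAlgClosed k] in
theorem TorsFin.of_ext {j : k →+* T} {s' : A.Str T} (h : A.push j s = s') (hs : A.TorsFin s') :
    A.TorsFin s := fun n hn =>
  ((hs n hn).preimage (map_inj j.injective h).injOn).subset fun x (hx : n • x = 0) => by
    change n • A.map j h x = 0
    rw [← map_nsmul, hx, map_zero]

theorem TorsFin.rat (hs : A.TorsFin s) {j : k →+* T} {s' : A.Str T} (h : A.push j s = s') {n : ℕ}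
    (hn : n ≠ 0) {y : A.Pt s'} (hy : Rat j.fieldRange (n • y)) : Rat j.fieldRange y := by
  obtain ⟨x, hx⟩ := (rat_range_iff j h).1 hy
  obtain ⟨z, -, hz⟩ := hs.Geo5_range h hn hx.symm
  exact (rat_range_iff j h).2 ⟨z, hz⟩

theorem TorsFin.rat' (hs : A.TorsFin s) {E : Subfield k} [IsAlgClosed E] (hE : A.Def E s) {n : ℕ}
    (hn : n ≠ 0) {y : A.Pt s} (hy : Rat E (n • y)) : Rat E y := by
  obtain ⟨s₀, h⟩ := hE
  obtain ⟨x, hx⟩ := (rat_subtype_iff h).1 hy
  obtain ⟨z, -, hz⟩ := (TorsFin.of_ext h hs).Geo5_range h hn hx.symm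
  exact (rat_subtype_iff h).2 ⟨z, hz⟩

theorem TorsFin.dim_nsmul (hs : A.TorsFin s) {n : ℕ} (hn : n ≠ 0) (hX : Var X) :
    dim ((n • ·) '' X) = dim X :=
  dim_image_eq ((NM.id s).nsmul n) hX fun y => (hs.Geo5_fib hn y).subset Set.inter_subset_right

/-- Divisibility. -/
theorem TorsFin.div (hs : A.TorsFin s) {G : AddSubgroup (A.Pt s)} (hG : Var (G : Set (A.Pt s)))
    {n : ℕ} (hn : n ≠ 0) {x : A.Pt s} (hx : x ∈ G) : ∃ y ∈ G, n • y = x := by
  have h := eq_of_dim hG (hG.nsmul n) (by rintro _ ⟨y, hy, rfl⟩; exact G.nsmul_mem hy n)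
    (hs.dim_nsmul hn hG).ge
  have h1 : x ∈ (n • ·) '' (G : Set (A.Pt s)) := h.symm ▸ hx
  exact h1

theorem TorsFin.stab_nsmul (hs : A.TorsFin s) {n : ℕ} (hn : n ≠ 0) (hX : Var X)
    (hf : (Stab X : Set (A.Pt s)).Finite) : (Stab ((n • ·) '' X) : Set (A.Pt s)).Finite := by
  obtain ⟨H, hH⟩ := exists_idc (cl_stab (hX.nsmul n).1)
  have v := hH.var.add hX
  have h1 : H + X ⊆ X := by
    refine (eq_of_dim v hX (fun x hx => ⟨0, H.zero_mem, x, hx, zero_add x⟩) ?_).ge
    rw [← hs.dim_nsmul hn v, ← hs.dim_nsmul hn hX]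
    refine dim_mono (hX.nsmul n) (v.nsmul n) ?_
    rintro _ ⟨_, ⟨b, hb, x, hx, rfl⟩, rfl⟩
    have h2 := (hH.le (H.nsmul_mem hb n) _).1 ⟨x, hx, rfl⟩
    rwa [← nsmul_add] at h2
  exact hH.finite (hf.subset fun b hb => Geo5_stab hX.1 fun x hx => h1 ⟨b, hb, x, hx, rfl⟩)

/-- Varieties with the same multiple differ by a torsion point. -/
theorem TorsFin.eq_vadd (hs : A.TorsFin s) {n : ℕ} (hn : n ≠ 0) (hX : Var X) (hY : Var Y)
    (h : (n • ·) '' X = (n • ·) '' Y) : ∃ τ : A.Pt s, n • τ = 0 ∧ X = τ +ᵥ Y := by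
  obtain ⟨τ, hτ, h1⟩ := hX.2.subset_of_finite (hs n hn) (fun τ _ => hY.1.vadd τ) (fun x hx => by
    obtain ⟨y, hy, e⟩ : n • x ∈ (n • ·) '' Y := h ▸ ⟨x, hx, rfl⟩
    refine Set.mem_biUnion (x := x - y) ?_ (Geo5_vadd.2 (by rwa [sub_sub_cancel]))
    change n • (x - y) = 0
    rw [nsmul_sub, sub_eq_zero]
    exact e.symm)
  refine ⟨τ, hτ, eq_of_dim (hY.vadd τ) hX h1 ?_⟩
  rw [dim_vadd hY, ← hs.dim_nsmul hn hY, ← h, hs.dim_nsmul hn hX]

/-- Division of a subvariety of a subgroup. -/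
theorem TorsFin.exists_div (hs : A.TorsFin s) {G : AddSubgroup (A.Pt s)}
    (hG : Var (G : Set (A.Pt s))) {n : ℕ} (hn : n ≠ 0) (hX : Var X) (hXG : X ⊆ G) :
    ∃ Y : Set (A.Pt s), Var Y ∧ Y ⊆ G ∧ (n • ·) '' Y = X := by
  obtain ⟨S, hS, hv, e⟩ := (hG.1.inter (hX.1.nsmul_pre n)).exists_comp
  have hsub : ∀ Y ∈ S, Y ⊆ G ∩ (n • ·) ⁻¹' X := fun Y hY => e ▸ Set.subset_sUnion_of_mem hY
  obtain ⟨Y, hY, h1⟩ := hX.2.subset_of_finite hS (fun Y hY => (hv Y hY).1.nsmul n) (fun x hx => by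
    obtain ⟨y, hy, rfl⟩ := hs.div hG hn (hXG hx)
    obtain ⟨Y, hY, hyY⟩ : y ∈ ⋃₀ S := e ▸ ⟨hy, hx⟩
    exact Set.mem_biUnion hY ⟨y, hyY, rfl⟩)
  refine ⟨Y, hv Y hY, (hsub Y hY).trans Set.inter_subset_left, Set.Subset.antisymm ?_ h1⟩
  rintro _ ⟨y, hy, rfl⟩
  exact (hsub Y hY hy).2

/-- Power series points congruent to the origin have no torsion. -/
theorem TorsFin.ps (hs : A.TorsFin s) {t : A.Str (PowerSeries k)} (h : A.push PowerSeries.C s = t)
    {n : ℕ} (hn : n ≠ 0) {ω : A.Pt t} (h0 : Cong (mx k) ω (0 : A.Pt t)) (hω : n • ω = 0) :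
    ω = 0 := by
  obtain ⟨x, -, rfl⟩ := hs.Geo5_range h hn (hω.trans (A.map _ h).map_zero.symm)
  have e : A.push PowerSeries.constantCoeff t = s := by
    rw [← h, A.ax.push_comp, PowerSeries.constantCoeff_comp_C, A.ax.push_id]
  have h1 := cong_bot.1 (h0.map PowerSeries.constantCoeff e e (𝔞' := ⊥) fun z hz =>
    PowerSeries.X_dvd_iff.1 (Ideal.mem_span_singleton.1 hz))
  rw [map_map, map_id' (fun z => PowerSeries.constantCoeff_C z), map_zero] at h1
  rw [h1, map_zero]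

end tors

end PG

end MLF
end
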