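import Pool.Agent.Work.MP_29d410_ag.Con2
import Pool.Agent.Work.MP_29d410_ag.DM7A
import Pool.Agent.Work.MP_29d410_ag.Geo5

-- merged part: Pool.Agent.Work.MP_29d410_ag.Dict
section
-- merged part: Pool.Agent.Work.MP_29d410_ag.Con3A
section
/-!
# The group functor of polynomial data: the group laws
-/

open MvPolynomial

namespace MLF

namespace Con3

universe u

variable {R T T' : Type u} [CommRing R] [CommRing T] [CommRing T'] {σ : Type}

theorem ev_smul {g : MvPolynomial σ R} {d : ℕ} (h : g.IsHomogeneous d) (φ : R →+* T) (c : T)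
    (v : σ → T) : eval₂ φ (c • v) g = c ^ d * eval₂ φ v g := by
  rw [← eval_map, ← eval_map]
  exact Prod_hom (h.map φ) c v

theorem bihom_map {τ : Type} {g : MvPolynomial (σ ⊕ τ) R} {d : ℕ × ℕ} (h : Bihom g d)
    (φ : R →+* T) : Bihom (map φ g) d := fun m hm => h fun e => hm (by rw [coeff_map, e, map_zero])

theorem ev_cong (φ : R →+* T) (g : MvPolynomial σ R) {v w : σ → T} {𝔞 : Ideal T}
    (h : ∀ i, v i - w i ∈ 𝔞) : eval₂ φ v g - eval₂ φ w g ∈ 𝔞 := by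
  rw [← Ideal.Quotient.eq, eval₂_comp_left, eval₂_comp_left]
  congr 1
  funext i
  exact Ideal.Quotient.eq.2 (h i)

theorem unit_of {b : T}
    (h : ∀ (T' : Type u) [CommRing T'] (ψ : T →+* T'), ψ b = 0 → (1 : T') = 0) : IsUnit b := by
  have h1 := h _ (Ideal.Quotient.mk (Ideal.span {b}))
    (Ideal.Quotient.eq_zero_iff_mem.2 (Ideal.mem_span_singleton_self b))
  rw [← map_one (Ideal.Quotient.mk (Ideal.span {b})), Ideal.Quotient.eq_zero_iff_mem,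
    ← Ideal.eq_top_iff_one, Ideal.span_singleton_eq_top] at h1
  exact h1

theorem unit_cong [IsLocalRing T] {a b : T} (hb : IsUnit b)
    (h : a - b ∈ IsLocalRing.maximalIdeal T) : IsUnit a := by
  by_contra ha
  have := Ideal.sub_mem _ ((IsLocalRing.mem_maximalIdeal a).2 ha) h
  rw [sub_sub_cancel] at this
  exact (IsLocalRing.mem_maximalIdeal b).1 this hb

theorem uni_smul {v : σ → T} {c : T} (hv : Uni v) (hc : IsUnit c) : Uni (c • v) :=
  hv.imp fun _ h => hc.mul h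

theorem uni_of_smul {v : σ → T} {c : T} (hv : Uni (c • v)) : Uni v :=
  hv.imp fun _ h => isUnit_of_mul_isUnit_right h

theorem uni_map {v : σ → T} (hv : Uni v) (ψ : T →+* T') : Uni (ψ ∘ v) :=
  hv.imp fun _ h => h.map ψ

theorem of_crs {v w : σ → T} (hv : Uni v) (hw : Uni w) (h : Crs v w) :
    ∃ c : T, IsUnit c ∧ w = c • v := by
  obtain ⟨a, ha⟩ := hv
  obtain ⟨b, hb⟩ := hw
  obtain ⟨x, hx⟩ := ha.exists_right_inv
  have h1 : IsUnit (w a) := isUnit_of_mul_isUnit_right (h a b ▸ ha.mul hb)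
  refine ⟨w a * x, h1.mul (IsUnit.of_mul_eq_one_right _ hx), funext fun i => ?_⟩
  rw [Pi.smul_apply, smul_eq_mul]
  linear_combination x * h a i - w i * hx

variable {𝒢 : GData R σ} {φ : R →+* T}

theorem map_add (ψ : T →+* T') (j : 𝒢.κ) (v w : σ → T) :
    ψ ∘ 𝒢.add φ j v w = 𝒢.add (ψ.comp φ) j (ψ ∘ v) (ψ ∘ w) := by
  funext i
  rw [Function.comp_apply, GData.add, eval₂_comp_left, Sum.comp_elim]
  rfl

theorem map_neg (ψ : T →+* T') (j : 𝒢.μ) (v : σ → T) :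
    ψ ∘ 𝒢.neg φ j v = 𝒢.neg (ψ.comp φ) j (ψ ∘ v) :=
  funext fun _ => eval₂_comp_left _ _ _ _

theorem z_map {v : σ → T} (h : 𝒢.Z φ v) (ψ : T →+* T') : 𝒢.Z (ψ.comp φ) (ψ ∘ v) := fun i => by
  rw [← eval₂_comp_left, h i, map_zero]

theorem z_smul {v : σ → T} (h : 𝒢.Z φ v) (c : T) : 𝒢.Z φ (c • v) := fun i => by
  rw [ev_smul (𝒢.eqn_hom i), h i, mul_zero]

theorem add_smul (j : 𝒢.κ) (c c' : T) (v w : σ → T) : 𝒢.add φ j (c • v) (c' • w) =
    (c ^ (𝒢.degΦ j).1 * c' ^ (𝒢.degΦ j).2) • 𝒢.add φ j v w := by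
  funext i
  rw [Pi.smul_apply, GData.add, GData.add, ← eval_map, ← eval_map]
  exact Prod_bihom (bihom_map (𝒢.Φ_hom j i) φ) c c' v w

theorem neg_smul (j : 𝒢.μ) (c : T) (v : σ → T) :
    𝒢.neg φ j (c • v) = c ^ 𝒢.degN j • 𝒢.neg φ j v :=
  funext fun i => ev_smul (𝒢.N_hom j i) φ c v

variable (𝒢 φ) in
/-- Proportionality of unimodular solutions. -/
def rel : Setoid {v : σ → T // Uni v ∧ 𝒢.Z φ v} where
  r v w := ∃ c : T, IsUnit c ∧ w.1 = c • v.1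
  iseqv :=
    { refl := fun v => ⟨1, isUnit_one, (one_smul _ _).symm⟩
      symm := by
        rintro v w ⟨c, hc, e⟩
        obtain ⟨x, hx⟩ := hc.exists_left_inv
        exact ⟨x, IsUnit.of_mul_eq_one _ hx, by rw [e, smul_smul, hx, one_smul]⟩
      trans := by
        rintro v w z ⟨c, hc, e⟩ ⟨c', hc', e'⟩
        exact ⟨c' * c, hc'.mul hc, by rw [e', e, smul_smul]⟩ }

variable (𝒢 φ) in
/-- The points. -/
def Pt : Type u := Quotient (rel 𝒢 φ)

/-- The coordinates of a point. -/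
def Rep (x : Pt 𝒢 φ) (v : σ → T) : Prop := ∃ h, x = Quotient.mk (rel 𝒢 φ) ⟨v, h⟩

variable {x y : Pt 𝒢 φ} {v w : σ → T}

theorem Rep.uni (h : Rep x v) : Uni v := h.1.1

theorem Rep.z (h : Rep x v) : 𝒢.Z φ v := h.1.2

theorem exists_rep (x : Pt 𝒢 φ) : ∃ v, Rep x v := by
  obtain ⟨v, rfl⟩ := Quotient.exists_rep x
  exact ⟨v.1, v.2, rfl⟩

theorem exists_pt (h : Uni v) (h' : 𝒢.Z φ v) : ∃ x : Pt 𝒢 φ, Rep x v := ⟨_, ⟨h, h'⟩, rfl⟩

theorem Rep.smul (h : Rep x v) {c : T} (hc : IsUnit c) : Rep x (c • v) :=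
  ⟨⟨uni_smul h.uni hc, z_smul h.z c⟩, h.2.trans (Quotient.sound ⟨c, hc, rfl⟩)⟩

theorem Rep.uniq (h : Rep x v) (h' : Rep x w) : ∃ c : T, IsUnit c ∧ w = c • v :=
  Quotient.exact (h.2.symm.trans h'.2)

theorem Rep.inj (h : Rep x v) (h' : Rep y v) : x = y := h.2.trans h'.2.symm

theorem Rep.crs (h : Rep x v) (hw : Uni w) (e : Crs v w) : Rep x w := by
  obtain ⟨c, hc, rfl⟩ := of_crs h.uni hw e
  exact h.smul hc

theorem Rep.eq (h : Rep x v) (h' : Rep y w) (e : Crs v w) : x = y := (h.crs h'.uni e).inj h'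

/-- Functoriality. -/
def mapF (ψ : T →+* T') {φ' : R →+* T'} (h : ψ.comp φ = φ') : Pt 𝒢 φ → Pt 𝒢 φ' :=
  Quotient.map (sa := rel 𝒢 φ) (sb := rel 𝒢 φ')
    (fun v => ⟨ψ ∘ v.1, uni_map v.2.1 ψ, h ▸ z_map v.2.2 ψ⟩) (by
      rintro v w ⟨c, hc, e⟩
      exact ⟨ψ c, hc.map ψ, funext fun i => by simp [e]⟩)

theorem Rep.map (h : Rep x v) (ψ : T →+* T') {φ' : R →+* T'} (e : ψ.comp φ = φ') :
    Rep (mapF ψ e x) (ψ ∘ v) := by
  obtain ⟨h, rfl⟩ := h
  exact ⟨_, rfl⟩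

variable [IsLocalRing T] (hL : ∀ (T : Type u) [CommRing T] (φ : R →+* T), 𝒢.Laws φ)
include hL

theorem add_cover (hx : Rep x v) (hy : Rep y w) : ∃ j, Uni (𝒢.add φ j v w) := by
  by_contra hn
  obtain ⟨a, ha⟩ := uni_map hx.uni (IsLocalRing.residue T)
  obtain ⟨b, hb⟩ := uni_map hy.uni (IsLocalRing.residue T)
  obtain ⟨a', ha⟩ := ha.exists_right_inv
  obtain ⟨b', hb⟩ := hb.exists_right_inv
  refine one_ne_zero ((hL _ _).add_cover _ _ a b a' b' (z_map hx.z _) (z_map hy.z _) ha hb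
    fun j i => ?_)
  rw [← map_add]
  exact (IsLocalRing.residue_eq_zero_iff _).2 fun h => hn ⟨j, i, h⟩

theorem neg_cover (hx : Rep x v) : ∃ j, Uni (𝒢.neg φ j v) := by
  by_contra hn
  obtain ⟨a, ha⟩ := uni_map hx.uni (IsLocalRing.residue T)
  obtain ⟨a', ha⟩ := ha.exists_right_inv
  refine one_ne_zero ((hL _ _).neg_cover _ a a' (z_map hx.z _) ha fun j i => ?_)
  rw [← map_neg]
  exact (IsLocalRing.residue_eq_zero_iff _).2 fun h => hn ⟨j, i, h⟩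

theorem exists_add (x y : Pt 𝒢 φ) : ∃ z : Pt 𝒢 φ, ∀ v w j, Rep x v → Rep y w →
    Uni (𝒢.add φ j v w) → Rep z (𝒢.add φ j v w) := by
  obtain ⟨v, hv⟩ := exists_rep x
  obtain ⟨w, hw⟩ := exists_rep y
  obtain ⟨j, hj⟩ := add_cover hL hv hw
  obtain ⟨z, hz⟩ := exists_pt hj ((hL _ φ).z_add j v w hv.z hw.z)
  refine ⟨z, fun v' w' j' hv' hw' hj' => ?_⟩
  obtain ⟨c, hc, rfl⟩ := hv.uniq hv'
  obtain ⟨c', hc', rfl⟩ := hw.uniq hw'
  rw [add_smul] at hj' ⊢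
  exact (hz.crs (uni_of_smul hj') ((hL _ φ).add_add j j' v w hv.z hw.z)).smul
    ((hc.pow _).mul (hc'.pow _))

theorem exists_neg (x : Pt 𝒢 φ) : ∃ z : Pt 𝒢 φ, ∀ v j, Rep x v →
    Uni (𝒢.neg φ j v) → Rep z (𝒢.neg φ j v) := by
  obtain ⟨v, hv⟩ := exists_rep x
  obtain ⟨j, hj⟩ := neg_cover hL hv
  obtain ⟨z, hz⟩ := exists_pt hj ((hL _ φ).z_neg j v hv.z)
  refine ⟨z, fun v' j' hv' hj' => ?_⟩
  obtain ⟨c, hc, rfl⟩ := hv.uniq hv'
  rw [neg_smul] at hj' ⊢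
  exact (hz.crs (uni_of_smul hj') ((hL _ φ).neg_neg j j' v hv.z)).smul (hc.pow _)

variable (φ) in
theorem exists_grp : ∃ G : AddCommGroup (Pt 𝒢 φ), Rep (G.zero) (φ ∘ 𝒢.o) ∧
    (∀ x y v w j, Rep x v → Rep y w → Uni (𝒢.add φ j v w) → Rep (G.add x y) (𝒢.add φ j v w)) ∧
    ∀ x v j, Rep x v → Uni (𝒢.neg φ j v) → Rep (G.neg x) (𝒢.neg φ j v) := by
  choose a ha using exists_add (φ := φ) hL
  choose n hn using exists_neg (φ := φ) hL
  obtain ⟨o, ho⟩ := exists_pt (v := φ ∘ 𝒢.o) ⟨𝒢.i₀, by simp [𝒢.o_i₀]⟩ (hL _ φ).z_o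
  have comm : ∀ x y, a x y = a y x := fun x y => by
    obtain ⟨v, hv⟩ := exists_rep x
    obtain ⟨w, hw⟩ := exists_rep y
    obtain ⟨j, hj⟩ := add_cover hL hv hw
    obtain ⟨j', hj'⟩ := add_cover hL hw hv
    exact (ha _ _ _ _ _ hv hw hj).eq (ha _ _ _ _ _ hw hv hj') ((hL _ φ).add_comm j j' v w hv.z hw.z)
  have assoc : ∀ x y z, a (a x y) z = a x (a y z) := fun x y z => by
    obtain ⟨v, hv⟩ := exists_rep x
    obtain ⟨w, hw⟩ := exists_rep y
    obtain ⟨t, ht⟩ := exists_rep z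
    obtain ⟨j₁, h₁⟩ := add_cover hL hv hw
    obtain ⟨j₃, h₃⟩ := add_cover hL hw ht
    have r₁ := ha _ _ _ _ _ hv hw h₁
    have r₃ := ha _ _ _ _ _ hw ht h₃
    obtain ⟨j₂, h₂⟩ := add_cover hL r₁ ht
    obtain ⟨j₄, h₄⟩ := add_cover hL hv r₃
    exact (ha _ _ _ _ _ r₁ ht h₂).eq (ha _ _ _ _ _ hv r₃ h₄)
      ((hL _ φ).add_assoc j₁ j₂ j₃ j₄ v w t hv.z hw.z ht.z)
  have zero : ∀ x, a o x = x := fun x => by
    obtain ⟨v, hv⟩ := exists_rep x
    obtain ⟨j, hj⟩ := add_cover hL hv ho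
    rw [comm]
    exact (ha _ _ _ _ _ hv ho hj).eq hv ((hL _ φ).add_o j v hv.z)
  have neg : ∀ x, a (n x) x = o := fun x => by
    obtain ⟨v, hv⟩ := exists_rep x
    obtain ⟨j', hj'⟩ := neg_cover hL hv
    have r := hn _ _ _ hv hj'
    obtain ⟨j, hj⟩ := add_cover hL r hv
    exact (ha _ _ _ _ _ r hv hj).eq ho ((hL _ φ).neg_add j j' v hv.z)
  let : Add (Pt 𝒢 φ) := ⟨a⟩
  let : Zero (Pt 𝒢 φ) := ⟨o⟩
  let : Neg (Pt 𝒢 φ) := ⟨n⟩
  exact ⟨{ AddGroup.ofLeftAxioms assoc zero neg with add_comm := comm }, ho, ha, hn⟩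

omit [IsLocalRing T]

/-- The data of the group functor. -/
noncomputable def pg₀ [Fintype σ] : PG₀.{u} where
  Str T _ := R →+* T
  push ψ φ := ψ.comp φ
  σ := σ
  Pt φ := Pt 𝒢 φ
  grp φ := (exists_grp φ hL).choose
  Rep := Rep
  mapF ψ _ _ h := mapF ψ h
  ι := 𝒢.ι
  eqn φ i := map φ (𝒢.eqn i)
  κ := 𝒢.κ
  Φ φ j i := map φ (𝒢.Φ j i)
  μ := 𝒢.μ
  N φ j i := map φ (𝒢.N j i)

omit hL in
theorem add_eq (j : 𝒢.κ) (v w : σ → T) :
    (fun i => eval (Sum.elim v w) (map φ (𝒢.Φ j i))) = 𝒢.add φ j v w :=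
  funext fun _ => eval_map _ _ _

omit hL in
theorem neg_eq (j : 𝒢.μ) (v : σ → T) : (fun i => eval v (map φ (𝒢.N j i))) = 𝒢.neg φ j v :=
  funext fun _ => eval_map _ _ _

theorem ax [Fintype σ] (hR : ∃ F : Finset R, Subring.closure (F : Set R) = ⊤) : (pg₀ hL).Ax where
  push_id _ := rfl
  push_comp _ _ _ := rfl
  push_inj _ h _ _ e := (RingHom.cancel_left h).1 e
  fg := fun {T} _ (φ : R →+* T) => by
    classical
    obtain ⟨F, hF⟩ := hR
    refine ⟨F.image φ, fun S hS => ⟨φ.codRestrict S fun r => ?_, rfl⟩⟩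
    have : Subring.closure (F : Set R) ≤ S.comap φ :=
      Subring.closure_le.2 fun z hz => hS (Finset.mem_coe.2 (Finset.mem_image_of_mem φ hz))
    exact this (hF ▸ Subring.mem_top r)
  rep_uni h := Rep.uni h
  exists_rep x := exists_rep x
  rep_smul h hc := Rep.smul h hc
  rep_uniq h h' := Rep.uniq h h'
  rep_inj h h' := Rep.inj h h'
  rep_iff := fun {T} _ _ (φ : R →+* T) v =>
    ⟨fun ⟨_, h⟩ => ⟨Rep.uni h, fun i => (eval_map _ _ _).trans (Rep.z h i)⟩,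
      fun h => exists_pt h.1 fun i => (eval_map _ _ _).symm.trans (h.2 i)⟩
  rep_map ψ _ _ e _ _ h := Rep.map h ψ e
  map_add := fun {T T'} _ _ _ _ ψ (φ : R →+* T) (φ' : R →+* T') e x y => by
    obtain ⟨v, hv⟩ := exists_rep x
    obtain ⟨w, hw⟩ := exists_rep y
    obtain ⟨j, hj⟩ := add_cover hL hv hw
    have h1 := ((exists_grp φ hL).choose_spec.2.1 _ _ _ _ j hv hw hj).map ψ e
    have h2 := uni_map hj ψ
    have e' : ψ.comp φ = φ' := e
    rw [map_add, e'] at h1 h2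
    exact h1.inj ((exists_grp φ' hL).choose_spec.2.1 _ _ _ _ j (hv.map ψ e) (hw.map ψ e) h2)
  eqn_push _ _ _ := (map_map _ _ _).symm
  eqn_hom i := ⟨_, fun φ => (𝒢.eqn_hom i).map φ⟩
  Φ_push _ _ _ _ := (map_map _ _ _).symm
  Φ_hom j := ⟨_, fun φ i => bihom_map (𝒢.Φ_hom j i) φ⟩
  Φ_cover := fun {T} _ _ (φ : R →+* T) _ _ v w h h' =>
    (add_cover hL h h').imp fun j hj => by
      rw [← add_eq] at hj
      exact hj
  Φ_rep := fun {T} _ _ (φ : R →+* T) x y v w j h h' hj => by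
    have := (exists_grp φ hL).choose_spec.2.1 _ _ _ _ j h h' (add_eq (φ := φ) j v w ▸ hj)
    rw [← add_eq] at this
    exact this
  N_push _ _ _ _ := (map_map _ _ _).symm
  N_hom j := ⟨_, fun φ i => (𝒢.N_hom j i).map φ⟩
  N_cover := fun {T} _ _ (φ : R →+* T) _ v h => (neg_cover hL h).imp fun j hj => by
    rw [← neg_eq] at hj
    exact hj
  N_rep := fun {T} _ _ (φ : R →+* T) x v j h hj => by
    have := (exists_grp φ hL).choose_spec.2.2 _ _ j h (neg_eq (φ := φ) j v ▸ hj)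
    rw [← neg_eq] at this
    exact this

end Con3

end MLF
end

-- merged part: Pool.Agent.Work.MP_29d410_ag.Con3B
section
/-!
# The group functor of polynomial data: parameters of the points of the etale chart
-/

open MvPolynomial IsLocalRing

namespace MLF

namespace Con3

universe u

variable {R T T' : Type u} [CommRing R] [CommRing T] [CommRing T'] {σ : Type}

theorem hom_sub {τ : Type} {g : MvPolynomial (σ ⊕ τ) R} {d : ℕ × ℕ} (h : Bihom g d)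
    (φ : R →+* T) (p : τ → T) :
    (eval₂ (C.comp φ) (Sum.elim X (C ∘ p)) g : MvPolynomial σ T).IsHomogeneous d.1 := by
  rw [eval₂_eq]
  refine IsHomogeneous.sum _ _ _ fun m hm => ?_
  have e : d.1 = ∑ i ∈ m.support, Sum.elim (fun _ => 1) (fun _ => 0) i * m i := by
    rw [← h (mem_support_iff.1 hm), Finsupp.weight_apply, Finsupp.sum, Prod.fst_sum]
    refine Finset.sum_congr rfl fun i _ => ?_
    cases i <;> simp
  rw [e]
  refine (IsHomogeneous.prod _ _ _ fun i _ => IsHomogeneous.pow ?_ _).C_mul _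
  cases i
  exacts [isHomogeneous_X _ _, isHomogeneous_C _ _]

variable {𝒢 : GData R σ} {ℋ : HData R σ} {φ : R →+* T}

theorem pe_map (ψ : T →+* T') (u : ℋ.τ → T) (θ : T) (g : Polynomial (MvPolynomial ℋ.τ R)) :
    ψ (ℋ.pe φ u θ g) = ℋ.pe (ψ.comp φ) (ψ ∘ u) (ψ θ) g := by
  simp only [HData.pe, Polynomial.coe_eval₂RingHom, Polynomial.hom_eval₂, comp_eval₂Hom]
  rfl

theorem pt_map (ψ : T →+* T') (u : ℋ.τ → T) (θ : T) :
    ψ ∘ ℋ.pt φ u θ = ℋ.pt (ψ.comp φ) (ψ ∘ u) (ψ θ) := funext fun _ => pe_map ψ u θ _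

theorem pe_cong {u u' : ℋ.τ → T} {θ θ' : T} {𝔞 : Ideal T} (hu : ∀ i, u i - u' i ∈ 𝔞)
    (hθ : θ - θ' ∈ 𝔞) (g : Polynomial (MvPolynomial ℋ.τ R)) :
    ℋ.pe φ u θ g - ℋ.pe φ u' θ' g ∈ 𝔞 := by
  rw [← Ideal.Quotient.eq, pe_map, pe_map, Ideal.Quotient.eq.2 hθ]
  congr 2
  exact funext fun i => Ideal.Quotient.eq.2 (hu i)

theorem pe_eq (u : ℋ.τ → T) (θ : T) (g : Polynomial (MvPolynomial ℋ.τ R)) :
    ℋ.pe φ u θ g = (g.map (eval₂Hom φ u)).eval θ := (Polynomial.eval_map _ _).symm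

theorem hensel {𝔞 : Ideal T} [IsAdicComplete 𝔞 T] {u : ℋ.τ → T} {θ₁ : T}
    (h : ℋ.pe φ u θ₁ ℋ.f ∈ 𝔞) (h' : IsUnit (ℋ.pe φ u θ₁ ℋ.f.derivative)) :
    ∃ θ, ℋ.pe φ u θ ℋ.f = 0 ∧ θ - θ₁ ∈ 𝔞 := by
  rw [pe_eq] at h h'
  obtain ⟨θ, h1, h2⟩ := HenselianRing.is_henselian (I := 𝔞) _ (ℋ.monic.map (eval₂Hom φ u)) θ₁ h
    (by rw [Polynomial.derivative_map]; exact h'.map _)
  exact ⟨θ, (pe_eq _ _ _).trans h1, h2⟩

theorem root_cong [IsLocalRing T] {𝔞 : Ideal T} {u u' : ℋ.τ → T} {θ θ' : T}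
    (h : ℋ.pe φ u θ ℋ.f = 0) (h' : ℋ.pe φ u' θ' ℋ.f = 0) (hu : ∀ i, u i - u' i ∈ 𝔞)
    (hθ : θ' - θ ∈ maximalIdeal T) (hd : IsUnit (ℋ.pe φ u θ ℋ.f.derivative)) : θ - θ' ∈ 𝔞 := by
  have h1 := pe_cong (φ := φ) hu (show θ' - θ' ∈ 𝔞 by simp) ℋ.f
  obtain ⟨k, hk⟩ := Polynomial.binomExpansion (ℋ.f.map (eval₂Hom φ u)) θ (θ' - θ)
  rw [add_sub_cancel, Polynomial.derivative_map, ← pe_eq, ← pe_eq, ← pe_eq, h] at hk
  rw [h', sub_zero, hk] at h1
  have h2 : IsUnit (ℋ.pe φ u θ ℋ.f.derivative + k * (θ' - θ)) :=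
    unit_cong hd (by rw [add_sub_cancel_left]; exact Ideal.mul_mem_left _ _ hθ)
  rw [← Ideal.neg_mem_iff, ← Ideal.unit_mul_mem_iff_mem _ h2]
  convert h1 using 1
  ring

variable (ℋ) in
/-- `u`, `θ` are the parameters of the point `x`. -/
structure Par (x : Pt 𝒢 φ) (u : ℋ.τ → T) (θ : T) : Prop where
  f : ℋ.pe φ u θ ℋ.f = 0
  B : IsUnit (eval₂ φ (ℋ.pt φ u θ) ℋ.B)
  rep : Rep x (ℋ.pt φ u θ)

variable (ℋ) in
/-- The parameters `u` of a point. -/
noncomputable def cu (x : Pt 𝒢 φ) (i : ℋ.τ) : T :=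
  eval₂ φ (exists_rep x).choose (ℋ.U i) * Ring.inverse (eval₂ φ (exists_rep x).choose ℋ.B)

variable {x y : Pt 𝒢 φ} {v w : σ → T} {u u' : ℋ.τ → T} {θ θ' : T}

theorem Par.map (h : Par ℋ x u θ) (ψ : T →+* T') {φ' : R →+* T'} (e : ψ.comp φ = φ') :
    Par ℋ (mapF ψ e x) (ψ ∘ u) (ψ θ) := by
  have h1 := h.rep.map ψ e
  subst e
  refine ⟨by rw [← pe_map, h.f, map_zero], ?_, pt_map ψ u θ ▸ h1⟩
  rw [← pt_map, ← eval₂_comp_left]
  exact h.B.map ψ

variable (hH : ∀ (T : Type u) [CommRing T] (φ : R →+* T), ℋ.Laws φ 𝒢)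
include hH

theorem der_unit {b : T} (hv : 𝒢.Z φ v) (hb : eval₂ φ v ℋ.B * b = 1) :
    IsUnit (ℋ.pe φ (fun i => eval₂ φ v (ℋ.U i) * b) (eval₂ φ v ℋ.Θ * b) ℋ.f.derivative) := by
  refine unit_of fun T' _ ψ h => (hH _ _).der _ (ψ b) (z_map hv ψ) ?_ ?_
  · rw [← eval₂_comp_left, ← map_mul, hb, map_one]
  · rw [pe_map] at h
    simp only [← eval₂_comp_left, ← map_mul]
    exact h

theorem uni_unit {b : T} (hv : 𝒢.Z φ v) (hb : eval₂ φ v ℋ.B * b = 1) :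
    IsUnit (ℋ.pt φ (fun i => eval₂ φ v (ℋ.U i) * b) (eval₂ φ v ℋ.Θ * b) ℋ.a₀) := by
  refine unit_of fun T' _ ψ h => (hH _ _).uni _ (ψ b) (z_map hv ψ) ?_ ?_
  · rw [← eval₂_comp_left, ← map_mul, hb, map_one]
  · rw [HData.pt, pe_map] at h
    simp only [← eval₂_comp_left, ← map_mul]
    exact h

theorem pt_par (hf : ℋ.pe φ u θ ℋ.f = 0) {b : T} (hb : eval₂ φ (ℋ.pt φ u θ) ℋ.B * b = 1) :
    (fun i => eval₂ φ (ℋ.pt φ u θ) (ℋ.U i) * b) = u ∧ eval₂ φ (ℋ.pt φ u θ) ℋ.Θ * b = θ :=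
  ⟨funext fun i => by rw [(hH _ φ).U_pt u θ i hf, mul_assoc, hb, mul_one],
    by rw [(hH _ φ).Θ_pt u θ hf, mul_assoc, hb, mul_one]⟩

theorem exists_of_root (hf : ℋ.pe φ u θ ℋ.f = 0) (hB : IsUnit (eval₂ φ (ℋ.pt φ u θ) ℋ.B)) :
    ∃ x : Pt 𝒢 φ, Par ℋ x u θ := by
  obtain ⟨b, hb⟩ := hB.exists_right_inv
  have hz := (hH _ φ).z_pt u θ hf
  have h1 := uni_unit hH hz hb
  rw [(pt_par hH hf hb).1, (pt_par hH hf hb).2] at h1
  exact (exists_pt ⟨_, h1⟩ hz).imp fun x hx => ⟨hf, hB, hx⟩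

theorem Par.der (h : Par ℋ x u θ) : IsUnit (ℋ.pe φ u θ ℋ.f.derivative) := by
  obtain ⟨b, hb⟩ := h.B.exists_right_inv
  have h1 := der_unit hH h.rep.z hb
  rwa [(pt_par hH h.f hb).1, (pt_par hH h.f hb).2] at h1

theorem exists_par (hv : Rep x v) (hB : IsUnit (eval₂ φ v ℋ.B)) : ∃ u θ, Par ℋ x u θ := by
  obtain ⟨b, hb⟩ := hB.exists_right_inv
  have h1 := hv.crs ⟨_, uni_unit hH hv.z hb⟩ ((hH _ φ).crs v b hv.z hb)
  refine ⟨_, _, (hH _ φ).f_eq v b hv.z hb, ?_, h1⟩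
  obtain ⟨c, hc, e⟩ := hv.uniq h1
  rw [e, ev_smul ℋ.B_hom]
  exact (hc.pow _).mul hB

theorem Par.of_rep (h : Par ℋ x u θ) (hv : Rep x v) : IsUnit (eval₂ φ v ℋ.B) ∧
    (∀ i, eval₂ φ v (ℋ.U i) = u i * eval₂ φ v ℋ.B) ∧ eval₂ φ v ℋ.Θ = θ * eval₂ φ v ℋ.B := by
  obtain ⟨c, hc, rfl⟩ := h.rep.uniq hv
  refine ⟨?_, fun i => ?_, ?_⟩
  · rw [ev_smul ℋ.B_hom]
    exact (hc.pow _).mul h.B
  · rw [ev_smul ℋ.B_hom, ev_smul (ℋ.U_hom i), (hH _ φ).U_pt u θ i h.f, mul_left_comm]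
  · rw [ev_smul ℋ.B_hom, ev_smul ℋ.Θ_hom, (hH _ φ).Θ_pt u θ h.f, mul_left_comm]

theorem Par.cu_eq (h : Par ℋ x u θ) : cu ℋ x = u := by
  obtain ⟨h1, h2, -⟩ := h.of_rep hH (exists_rep x).choose_spec
  funext i
  rw [cu, h2, mul_assoc, Ring.mul_inverse_cancel _ h1, mul_one]

theorem Par.cong (h : Par ℋ x u θ) (h' : Par ℋ y u' θ') (hv : Rep x v) (hw : Rep y w)
    {𝔞 : Ideal T} (e : ∀ i, v i - w i ∈ 𝔞) : θ - θ' ∈ 𝔞 := by
  obtain ⟨h1, -, h2⟩ := h.of_rep hH hv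
  obtain ⟨-, -, h3⟩ := h'.of_rep hH hw
  have h4 := Ideal.sub_mem _ (ev_cong φ ℋ.Θ e) (Ideal.mul_mem_left _ θ' (ev_cong φ ℋ.B e))
  rw [← Ideal.unit_mul_mem_iff_mem _ h1]
  convert h4 using 1
  rw [h2, h3]
  ring

variable (φ) in
theorem exists_base : ∃ x : Pt 𝒢 φ, Par ℋ x (φ ∘ ℋ.u₀) (φ ℋ.θ₀) := by
  refine exists_of_root hH (hH _ φ).f₀ (unit_of fun T' _ ψ h => (hH _ (ψ.comp φ)).B₀ ?_)
  rw [eval₂_comp_left, pt_map] at h
  exact h

/-- Deformation of a point of the chart. -/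
theorem Par.lift [IsLocalRing T] [Nontrivial T'] (π : T →+* T') [IsLocalHom π] {𝔞 : Ideal T}
    [IsAdicComplete 𝔞 T] (h𝔞 : ∀ z ∈ 𝔞, π z = 0) {x : Pt 𝒢 (π.comp φ)}
    (h : Par ℋ x (π ∘ u) (π θ)) (hf : ℋ.pe φ u θ ℋ.f ∈ 𝔞) :
    ∃ (y : Pt 𝒢 φ) (θ' : T), Par ℋ y u θ' ∧ θ' - θ ∈ 𝔞 := by
  have h1 := h.der hH
  rw [← pe_map] at h1
  obtain ⟨θ', h2, h3⟩ := hensel hf (IsUnit.of_map π _ h1)
  have h4 := h.B
  rw [← sub_eq_zero.1 ((map_sub π _ _).symm.trans (h𝔞 _ h3)), ← pt_map, ← eval₂_comp_left] at h4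
  obtain ⟨y, hy⟩ := exists_of_root hH h2 (IsUnit.of_map π _ h4)
  exact ⟨y, θ', hy, h3⟩

end Con3

end MLF
end

-- merged part: Pool.Agent.Work.MP_29d410_ag.Con3
section
/-!
# The group functor of polynomial data

Plan.  `Str T = (R →+* T)`, `push` is composition, `Pt φ` the quotient of the unimodular vectors
satisfying the equations by the units.  In a local ring two unimodular vectors `v`, `w` with `Crs v w`
are proportional by a unit; the cover laws, applied to the residue field, give a unimodular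
formula.  `fg`: `R` is generated by a finite set.
Chart: `a₀` is the point with vector `pt (φ u₀) (φ θ₀)` (unimodular: apply `uni` in the quotient by
its coordinate `a₀`, using `B₀`, `U_pt`, `Θ_pt`), `c x = U (v) / B (v) - u₀` for a vector `v` of
`x + a₀` (when `B (v)` is a unit).  `formula`: fix `j` with `add j o a₀` unimodular over `T₀` and
substitute `add j X a₀` in `U - u₀ B` and `B`.  `c_inj`: two roots of `f` modulo `𝔞`, congruent modulo
the maximal ideal, with `f'` a unit, are congruent modulo `𝔞`.  `c_surj`: Hensel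
(`IsAdicComplete.henselianRing`).  `GL`: points with `B` a unit lift (lift `u`, then `θ` by Hensel).
For `x` over `F` there is `y` over `k` with `B (y) ≠ 0`, `B (x + y) ≠ 0`: over an algebraic closure of `F`
both conditions define proper closed subsets of a variety (`var_ext`, `ext_univ`, `Cl.vadd`) in
which the points over `k` are dense (`cl_image_map`).
-/

open MvPolynomial

namespace MLF

universe u

/-- Points lift along complete thickenings of local rings over `k`. -/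
def PG.LiftsL (A : PG.{u}) {k : Type u} [Field k] (s : A.Str k) : Prop :=
  ∀ (T F : Type u) [CommRing T] [IsLocalRing T] [CommRing F] [IsLocalRing F] (π : T →+* F)
    (j : k →+* F) (t : A.Str T) (h : A.push π t = A.push j s), Function.Surjective π →
    IsAdicComplete (RingHom.ker π) T → Function.Surjective (A.map π h)

theorem PG.LiftsL.lifts {A : PG.{u}} {k : Type u} [Field k] {s : A.Str k} (h : A.LiftsL s) :
    A.Lifts s := fun T F _ _ _ => h T F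

/-- Points lift along complete thickenings whenever the group is irreducible. -/
def SPG.GL (A : SPG.{u}) : Prop :=
  ∀ (k : Type u) [Field k] [IsAlgClosed k] (s : A.Str k), PG.Var (Set.univ : Set (A.Pt s)) →
    A.LiftsL s

namespace Con3

open IsLocalRing Pointwise

variable {R T T' : Type u} [CommRing R] [CommRing T] [IsLocalRing T] [CommRing T'] [IsLocalRing T']
  {σ : Type} [Fintype σ] {𝒢 : GData R σ} {ℋ : HData R σ}
  (hR : ∃ F : Finset R, Subring.closure (F : Set R) = ⊤)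
  (hL : ∀ (T : Type u) [CommRing T] (φ : R →+* T), 𝒢.Laws φ)
  (hH : ∀ (T : Type u) [CommRing T] (φ : R →+* T), ℋ.Laws φ 𝒢)

/-- The group functor. -/
noncomputable def pg : PG.{u} := ⟨pg₀ hL, ax hL hR⟩

/-- The base point of the chart. -/
noncomputable def base (φ : R →+* T) : (pg hR hL).Pt (T := T) φ := (exists_base φ hH).choose

theorem base_par (φ : R →+* T) : Par ℋ (base hR hL hH φ) (φ ∘ ℋ.u₀) (φ ℋ.θ₀) :=
  (exists_base φ hH).choose_spec

/-- The local parameters at the origin. -/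
noncomputable def ch {φ : R →+* T} (x : (pg hR hL).Pt (T := T) φ) (i : ℋ.τ) : T :=
  cu ℋ (𝒢 := 𝒢) (φ := φ) (x + base hR hL hH φ) i - φ (ℋ.u₀ i)

variable {φ : R →+* T}

theorem rep_zero (φ : R →+* T) : Rep (𝒢 := 𝒢) (φ := φ) (0 : (pg hR hL).Pt (T := T) φ) (φ ∘ 𝒢.o) :=
  (exists_grp φ hL).choose_spec.1

theorem rep_add {x y : (pg hR hL).Pt (T := T) φ} {v w : σ → T} (hv : Rep (𝒢 := 𝒢) (φ := φ) x v)
    (hw : Rep (𝒢 := 𝒢) (φ := φ) y w) {j : 𝒢.κ} (hj : Uni (𝒢.add φ j v w)) :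
    Rep (𝒢 := 𝒢) (φ := φ) (x + y : (pg hR hL).Pt (T := T) φ) (𝒢.add φ j v w) :=
  (exists_grp φ hL).choose_spec.2.1 _ _ _ _ j hv hw hj

theorem near {x : (pg hR hL).Pt (T := T) φ}
    (h : PG.Cong (maximalIdeal T) x (0 : (pg hR hL).Pt (T := T) φ)) :
    ∃ u θ, Par ℋ (𝒢 := 𝒢) (φ := φ) (x + base hR hL hH φ : (pg hR hL).Pt (T := T) φ) u θ ∧
      θ - φ ℋ.θ₀ ∈ maximalIdeal T := by
  have h1 := PG.Cong.add rfl h (PG.Cong.refl _ (base hR hL hH φ))
  rw [zero_add] at h1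
  obtain ⟨v, w, hv, hw, e⟩ := h1
  have hb := base_par hR hL hH φ
  obtain ⟨u, θ, h2⟩ := exists_par hH hv (unit_cong (hb.of_rep hH hw).1 (ev_cong φ ℋ.B e))
  exact ⟨u, θ, h2, h2.cong hH hb hv hw e⟩

theorem ch_eq {x : (pg hR hL).Pt (T := T) φ} {u : ℋ.τ → T} {θ : T}
    (h : Par ℋ (𝒢 := 𝒢) (φ := φ) (x + base hR hL hH φ : (pg hR hL).Pt (T := T) φ) u θ) (i : ℋ.τ) :
    ch hR hL hH x i = u i - φ (ℋ.u₀ i) := by
  rw [ch, h.cu_eq hH]

theorem formula (φ : R →+* T) : ∃ (Cn : ℋ.τ → MvPolynomial σ T) (Cd : MvPolynomial σ T) (d : ℕ),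
    (∀ i, (Cn i).IsHomogeneous d) ∧ Cd.IsHomogeneous d ∧
    ∀ {T' : Type u} [CommRing T'] [IsLocalRing T'] (ψ : T →+* T') (φ' : R →+* T'),
      ψ.comp φ = φ' → ∀ (x : (pg hR hL).Pt (T := T') φ') (v : σ → T'),
      Rep (𝒢 := 𝒢) (φ := φ') x v →
      PG.Cong (maximalIdeal T') x (0 : (pg hR hL).Pt (T := T') φ') →
      IsUnit (eval₂ ψ v Cd) ∧ ∀ i, ch hR hL hH x i * eval₂ ψ v Cd = eval₂ ψ v (Cn i) := by
  obtain ⟨j, hj⟩ := add_cover hL (rep_zero hR hL φ) (base_par hR hL hH φ).rep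
  let S : σ → MvPolynomial σ T := 𝒢.add (C.comp φ) j X (C ∘ ℋ.pt φ (φ ∘ ℋ.u₀) (φ ℋ.θ₀))
  have hS : ∀ a, (S a).IsHomogeneous (𝒢.degΦ j).1 := fun a => hom_sub (𝒢.Φ_hom j a) φ _
  have hB := ℋ.B_hom.eval₂ (C.comp φ) S (fun r => isHomogeneous_C _ _) hS
  refine ⟨fun i => eval₂ (C.comp φ) S (ℋ.U i) - C (φ (ℋ.u₀ i)) * eval₂ (C.comp φ) S ℋ.B,
    eval₂ (C.comp φ) S ℋ.B, _, fun i =>
      ((ℋ.U_hom i).eval₂ (C.comp φ) S (fun r => isHomogeneous_C _ _) hS).sub (hB.C_mul _), hB, ?_⟩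
  intro T' _ _ ψ φ' e x v hv hx
  subst e
  have e1 : ((eval₂Hom ψ v).comp (C.comp φ)) = ψ.comp φ := RingHom.ext fun r => eval₂_C _ _ _
  have e2 : eval₂Hom ψ v ∘ S = 𝒢.add (ψ.comp φ) j v
      (ℋ.pt (ψ.comp φ) (ψ.comp φ ∘ ℋ.u₀) (ψ.comp φ ℋ.θ₀)) := by
    rw [map_add, e1]
    congr 1
    · exact funext fun a => eval₂_X _ _ _
    · exact (_root_.funext fun a => eval₂_C _ _ _).trans (pt_map ψ _ _)
  have e3 : ∀ g, eval₂ ψ v (eval₂ (C.comp φ) S g) = eval₂ (ψ.comp φ) (eval₂Hom ψ v ∘ S) g :=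
    fun g => (eval₂_comp_left (eval₂Hom ψ v) _ _ g).trans (by rw [e1])
  have h1 : Uni (eval₂Hom ψ v ∘ S) := by
    obtain ⟨w, hw, e⟩ := hx.exists_rep hv
    obtain ⟨c, hc, rfl⟩ := (rep_zero hR hL _).uniq hw
    have h2 := uni_map hj ψ
    rw [map_add, pt_map] at h2
    have h3 := uni_smul h2 ((hc.pow (𝒢.degΦ j).1).mul (isUnit_one.pow (𝒢.degΦ j).2))
    rw [← add_smul, one_smul] at h3
    rw [e2]
    refine h3.imp fun a ha => unit_cong ha (ev_cong _ _ ?_)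
    rintro (b | b)
    · exact e b
    · rw [Sum.elim_inr, Sum.elim_inr]
      exact (Ideal.Quotient.eq).1 rfl
  have h2 := rep_add hR hL hv (base_par hR hL hH _).rep (e2 ▸ h1)
  obtain ⟨u, θ, h3, -⟩ := near hR hL hH hx
  obtain ⟨h4, h5, -⟩ := h3.of_rep hH h2
  refine ⟨by rwa [e3, e2], fun i => ?_⟩
  rw [ch_eq hR hL hH h3, eval₂_sub, eval₂_mul, eval₂_C, e3, e3, e2, h5, sub_mul]
  rfl

theorem ch_zero (φ : R →+* T) : ch hR hL hH (0 : (pg hR hL).Pt (T := T) φ) = 0 := by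
  funext i
  rw [ch_eq hR hL hH ((zero_add (base hR hL hH φ)).symm ▸ base_par hR hL hH φ)]
  exact sub_self _

theorem ch_inj (𝔞 : Ideal T) (x y : (pg hR hL).Pt (T := T) φ)
    (hx : PG.Cong (maximalIdeal T) x (0 : (pg hR hL).Pt (T := T) φ))
    (hy : PG.Cong (maximalIdeal T) y (0 : (pg hR hL).Pt (T := T) φ))
    (h : ∀ i, ch hR hL hH x i - ch hR hL hH y i ∈ 𝔞) : PG.Cong 𝔞 x y := by
  obtain ⟨u, θ, h1, h2⟩ := near hR hL hH hx
  obtain ⟨u', θ', h3, h4⟩ := near hR hL hH hy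
  have hu : ∀ i, u i - u' i ∈ 𝔞 := fun i => by
    have := h i
    rwa [ch_eq hR hL hH h1, ch_eq hR hL hH h3, sub_sub_sub_cancel_right] at this
  have hθ := root_cong h1.f h3.f hu (by simpa using Ideal.sub_mem _ h4 h2) (h1.der hH)
  have h5 : PG.Cong 𝔞 (x + base hR hL hH φ) (y + base hR hL hH φ) :=
    ⟨_, _, h1.rep, h3.rep, fun a => pe_cong hu hθ _⟩
  rwa [PG.cong_iff_sub, add_sub_add_right_eq_sub, ← PG.cong_iff_sub] at h5

theorem ch_surj (φ : R →+* T) (𝔞 : Ideal T) (h𝔞 : IsAdicComplete 𝔞 T) (z : ℋ.τ → T)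
    (hz : ∀ i, z i ∈ 𝔞) : ∃ x : (pg hR hL).Pt (T := T) φ,
      PG.Cong 𝔞 x (0 : (pg hR hL).Pt (T := T) φ) ∧ ch hR hL hH x = z := by
  have h1 : ∀ z ∈ 𝔞, residue T z = 0 := fun z hz => (residue_eq_zero_iff _).2
    (jacobson_eq_maximalIdeal (⊥ : Ideal T) bot_ne_top ▸ IsAdicComplete.le_jacobson_bot 𝔞 hz)
  have hb := base_par hR hL hH φ
  have hu : ∀ i, (φ ∘ ℋ.u₀ + z) i - (φ ∘ ℋ.u₀) i ∈ 𝔞 := fun i => by simpa using hz i
  have h2 := hb.map (residue T) rfl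
  rw [show residue T ∘ φ ∘ ℋ.u₀ = residue T ∘ (φ ∘ ℋ.u₀ + z) from
    funext fun i => by simp [h1 _ (hz i)]] at h2
  have h3 := pe_cong (φ := φ) hu (show φ ℋ.θ₀ - φ ℋ.θ₀ ∈ 𝔞 by simp) ℋ.f
  rw [hb.f, sub_zero] at h3
  obtain ⟨y, θ, h4, h5⟩ : ∃ (y : (pg hR hL).Pt (T := T) φ) (θ : T), _ :=
    h2.lift hH (residue T) h1 h3
  refine ⟨y - base hR hL hH φ, PG.cong_iff_sub.1 ⟨_, _, h4.rep, hb.rep, fun a => pe_cong hu h5 _⟩,
    funext fun i => ?_⟩
  rw [ch_eq hR hL hH ((sub_add_cancel y (base hR hL hH φ)).symm ▸ h4)]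
  simp

/-- The smooth group functor. -/
noncomputable def spg : SPG.{u} where
  toPG := pg hR hL
  τ := ℋ.τ
  c x := ch hR hL hH x
  ch :=
    { formula := fun φ => formula hR hL hH φ
      c_zero := fun φ => ch_zero hR hL hH φ
      c_inj := fun 𝔞 x y => ch_inj hR hL hH 𝔞 x y
      c_surj := fun φ => ch_surj hR hL hH φ }

include hH

theorem lift_par {F : Type u} [CommRing F] [IsLocalRing F] (π : T →+* F) (hπ : Function.Surjective π)
    (hc : IsAdicComplete (RingHom.ker π) T) {φ' : R →+* F} (e : π.comp φ = φ')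
    {x : (pg hR hL).Pt (T := F) φ'} {v : σ → F} (hv : Rep (𝒢 := 𝒢) (φ := φ') x v)
    (hB : IsUnit (eval₂ φ' v ℋ.B)) : x ∈ ((pg hR hL).map π (s := φ) (s' := φ') e).range := by
  subst e
  have := IsLocalHom.of_surjective π hπ
  obtain ⟨u, θ, h⟩ := exists_par hH hv hB
  obtain ⟨u, rfl⟩ := hπ.comp_left u
  obtain ⟨θ, rfl⟩ := hπ θ
  obtain ⟨y, θ', h1, h2⟩ := Par.lift hH π (𝔞 := RingHom.ker π) (fun _ h => h) h
    (by rw [RingHom.mem_ker, pe_map]; exact h.f)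
  have h3 := (h1.map π rfl).rep
  rw [sub_eq_zero.1 ((map_sub π _ _).symm.trans h2)] at h3
  exact ⟨y, h3.inj h.rep⟩

theorem dense {k F : Type u} [Field k] [IsAlgClosed k] [CommRing F] [IsLocalRing F] (s : R →+* k)
    (hs : PG.Var (Set.univ : Set ((pg hR hL).Pt (T := k) s))) (j : k →+* F)
    (x : (pg hR hL).Pt (T := F) (j.comp s)) : ∃ y : (pg hR hL).Pt (T := F) (j.comp s),
      (∀ v, Rep (𝒢 := 𝒢) (φ := j.comp s) y v → IsUnit (eval₂ (j.comp s) v ℋ.B)) ∧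
      ∀ v, Rep (𝒢 := 𝒢) (φ := j.comp s) (y + x : (pg hR hL).Pt (T := F) (j.comp s)) v →
        IsUnit (eval₂ (j.comp s) v ℋ.B) := by
  let E := AlgebraicClosure (IsLocalRing.ResidueField F)
  let i : F →+* E := (algebraMap (IsLocalRing.ResidueField F) E).comp (IsLocalRing.residue F)
  let t := i.comp (j.comp s)
  let Z : Set ((pg hR hL).Pt (T := E) t) :=
    {y | PG.van (A := pg hR hL) (RingHom.id _) (map t ℋ.B) y}
  have hZ : PG.Cl Z := PG.cl_van (A := pg hR hL) (ℋ.B_hom.map t)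
  have mZ : ∀ {y : (pg hR hL).Pt (T := E) t} {v : σ → E},
      Rep (𝒢 := 𝒢) (φ := t) y v → (y ∈ Z ↔ eval₂ t v ℋ.B = 0) := fun {y v} hv => by
    rw [← eval_map]
    exact PG.van_iff (A := pg hR hL) (ℋ.B_hom.map t) hv
  have hb : base hR hL hH t ∉ Z := fun h =>
    (base_par hR hL hH t).B.ne_zero ((mZ (base_par hR hL hH t).rep).1 h)
  have key : ∀ y : (pg hR hL).Pt (T := F) (j.comp s),
      (pg hR hL).map i (s := j.comp s) (s' := t) rfl y ∉ Z →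
      ∀ v, Rep (𝒢 := 𝒢) (φ := j.comp s) y v → IsUnit (eval₂ (j.comp s) v ℋ.B) := fun y hy v hv =>
    by_contra fun h => hy ((mZ (hv.map i rfl)).2 (by
      rw [← eval₂_comp_left]
      change algebraMap _ E (IsLocalRing.residue F _) = 0
      rw [(IsLocalRing.residue_eq_zero_iff _).2 h, map_zero]))
  have hv := PG.var_ext hs (i.comp j) (s' := t) rfl
  have hd := PG.cl_image_map (A := pg hR hL) (i.comp j) (s := s) (s' := t) rfl Set.univ
  rw [PG.ext_univ (A := pg hR hL) (j := i.comp j) (s := s) (s' := t) rfl] at hv hd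
  by_contra hn
  have h1 : Set.univ ⊆ Z ∪ ((-(pg hR hL).map i (s := j.comp s) (s' := t) rfl x) +ᵥ Z) := by
    rw [← hd]
    refine PG.cl_min ?_ (hZ.union (hZ.vadd _))
    rintro _ ⟨y, -, rfl⟩
    by_contra hy
    rw [Set.mem_union, not_or, PG.Geo5_vadd, sub_neg_eq_add,
      ← PG.map_map (A := pg hR hL) (s := s) (s' := j.comp s) (s'' := t) rfl rfl,
      ← AddMonoidHom.map_add] at hy
    exact hn ⟨_, key _ hy.1, key _ hy.2⟩
  rcases hv.2.2 _ _ hZ (hZ.vadd _) h1 with h | h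
  · exact hb (h trivial)
  · have := h (Set.mem_univ (base hR hL hH t - (pg hR hL).map i (s := j.comp s) (s' := t) rfl x))
    rw [PG.Geo5_vadd, sub_neg_eq_add, sub_add_cancel] at this
    exact hb this

theorem gl : (spg hR hL hH).GL := by
  intro k _ _ (s : R →+* k) hs T F _ _ _ _ π j φ e hπ hc (x : (pg hR hL).Pt (T := F) (j.comp s))
  obtain ⟨y, h1, h2⟩ := dense hR hL hH s hs j x
  obtain ⟨v, hv⟩ := exists_rep y
  obtain ⟨w, hw⟩ := exists_rep (y + x)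
  have := AddSubgroup.sub_mem _
    (lift_par hR hL hH π hπ hc (φ' := j.comp s) e (x := y + x) hw (h2 w hw))
    (lift_par hR hL hH π hπ hc (φ' := j.comp s) e (x := y) hv (h1 v hv))
  rwa [add_sub_cancel_left] at this

end Con3

theorem exists_spg {R : Type u} [CommRing R] (hR : ∃ F : Finset R, Subring.closure (F : Set R) = ⊤)
    {σ : Type} [Fintype σ] (𝒢 : GData R σ) (ℋ : HData R σ)
    (h : ∀ (T : Type u) [CommRing T] (φ : R →+* T), 𝒢.Laws φ ∧ ℋ.Laws φ 𝒢) :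
    ∃ (A : SPG.{u}) (ε : σ ≃ A.σ), A.GL ∧ ∀ (T : Type u) [CommRing T] [IsLocalRing T]
      (φ : R →+* T), ∃ s : A.Str T,
        (∀ v : σ → T, (∃ x : A.Pt s, A.Rep x (v ∘ ε.symm)) ↔ Uni v ∧ 𝒢.Z φ v) ∧
        ∀ (x y : A.Pt s) (v w : σ → T), A.Rep x (v ∘ ε.symm) → A.Rep y (w ∘ ε.symm) →
          ∃ j, A.Rep (x + y) (𝒢.add φ j v w ∘ ε.symm) := by
  have hL := fun (T : Type u) [CommRing T] (φ : R →+* T) => (h T φ).1
  have hH := fun (T : Type u) [CommRing T] (φ : R →+* T) => (h T φ).2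
  refine ⟨Con3.spg hR hL hH, Equiv.refl σ, Con3.gl hR hL hH, fun T _ _ φ => ⟨φ, fun v =>
    ⟨fun ⟨_, hx⟩ => ⟨Con3.Rep.uni hx, Con3.Rep.z hx⟩, fun hv => Con3.exists_pt hv.1 hv.2⟩,
    fun x y v w hv hw => ?_⟩⟩
  exact (Con3.add_cover hL hv hw).imp fun j hj => Con3.rep_add hR hL hv hw hj

end MLF
end

-- merged part: Pool.Agent.Work.MP_29d410_ag.Con2bA
section
/-!
# Spreading out: implications between polynomial equations

A condition on tuples over variable rings is algebraic if it is given by finitely many polynomial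
equations.  An implication between algebraic conditions which holds over all `k`-algebras holds
over all algebras over a sufficiently large finitely generated subring of `k`.
-/

open MvPolynomial

namespace MLF

universe u

section Gen

variable {R : Type u} [CommRing R] {V W : Type}

/-- A polynomial expression. -/
def Con2bPol (e : ∀ (T : Type u) [CommRing T], (R →+* T) → (V → T) → T) : Prop :=
  ∃ p : MvPolynomial V R, ∀ (T : Type u) [CommRing T] (φ : R →+* T) (x : V → T),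
    e T φ x = eval₂ φ x p

/-- A vector of polynomial expressions. -/
def Con2bVec (e : ∀ (T : Type u) [CommRing T], (R →+* T) → (V → T) → W → T) : Prop :=
  ∀ a, Con2bPol fun T _ φ x => e T φ x a

/-- A condition given by finitely many polynomial equations. -/
def Con2bAlg (H : ∀ (T : Type u) [CommRing T], (R →+* T) → (V → T) → Prop) : Prop :=
  ∃ s : Set (MvPolynomial V R), s.Finite ∧
    ∀ (T : Type u) [CommRing T] (φ : R →+* T) (x : V → T), H T φ x ↔ ∀ p ∈ s, eval₂ φ x p = 0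

/-- An implication between algebraic conditions. -/
def Con2bHorn (H : ∀ (T : Type u) [CommRing T], (R →+* T) → (V → T) → Prop) : Prop :=
  ∃ s t : Set (MvPolynomial V R), s.Finite ∧ t.Finite ∧
    ∀ (T : Type u) [CommRing T] (φ : R →+* T) (x : V → T),
      H T φ x ↔ ((∀ p ∈ s, eval₂ φ x p = 0) → ∀ p ∈ t, eval₂ φ x p = 0)

theorem Con2bPol.var (i : V) : Con2bPol (R := R) fun _ _ _ x => x i :=
  ⟨X i, fun _ _ _ _ => by simp⟩

theorem Con2bPol.const (r : R) : Con2bPol (V := V) fun _ _ φ _ => φ r :=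
  ⟨C r, fun _ _ _ _ => by simp⟩

theorem Con2bPol.one : Con2bPol (R := R) (V := V) fun _ _ _ _ => 1 :=
  ⟨1, fun _ _ _ _ => by simp⟩

theorem Con2bPol.zero : Con2bPol (R := R) (V := V) fun _ _ _ _ => 0 :=
  ⟨0, fun _ _ _ _ => by simp⟩

theorem Con2bPol.mul {a b : ∀ (T : Type u) [CommRing T], (R →+* T) → (V → T) → T}
    (ha : Con2bPol a) (hb : Con2bPol b) : Con2bPol fun T _ φ x => a T φ x * b T φ x := by
  obtain ⟨p, hp⟩ := ha
  obtain ⟨q, hq⟩ := hb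
  exact ⟨p * q, fun T _ φ x => by rw [eval₂_mul, ← hp, ← hq]⟩

theorem Con2bPol.add {a b : ∀ (T : Type u) [CommRing T], (R →+* T) → (V → T) → T}
    (ha : Con2bPol a) (hb : Con2bPol b) : Con2bPol fun T _ φ x => a T φ x + b T φ x := by
  obtain ⟨p, hp⟩ := ha
  obtain ⟨q, hq⟩ := hb
  exact ⟨p + q, fun T _ φ x => by rw [eval₂_add, ← hp, ← hq]⟩

theorem Con2bPol.ev {e : ∀ (T : Type u) [CommRing T], (R →+* T) → (V → T) → W → T}
    (he : Con2bVec e) (q : MvPolynomial W R) :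
    Con2bPol fun T _ φ x => eval₂ φ (e T φ x) q := by
  choose p hp using he
  refine ⟨eval₂ C p q, fun T _ φ x => ?_⟩
  have h1 := eval₂_comp_left (eval₂Hom φ x) C p q
  rw [coe_eval₂Hom, eval₂Hom_comp_C] at h1
  rw [h1]
  exact congrArg (fun y => eval₂ φ y q) (funext fun a => hp a T φ x)

theorem Con2bPol.pev {e : ∀ (T : Type u) [CommRing T], (R →+* T) → (V → T) → W → T}
    {a : ∀ (T : Type u) [CommRing T], (R →+* T) → (V → T) → T}
    (he : Con2bVec e) (ha : Con2bPol a) (q : Polynomial (MvPolynomial W R)) :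
    Con2bPol fun T _ φ x => Polynomial.eval₂RingHom (eval₂Hom φ (e T φ x)) (a T φ x) q := by
  induction q using Polynomial.induction_on with
  | C c => simpa using Con2bPol.ev he c
  | add p q hp hq => simpa using hp.add hq
  | monomial n c h =>
    have := h.mul ha
    simpa [pow_succ, mul_assoc] using this

theorem Con2bVec.elim {W' : Type} {e : ∀ (T : Type u) [CommRing T], (R →+* T) → (V → T) → W → T}
    {e' : ∀ (T : Type u) [CommRing T], (R →+* T) → (V → T) → W' → T}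
    (he : Con2bVec e) (he' : Con2bVec e') :
    Con2bVec fun T _ φ x => Sum.elim (e T φ x) (e' T φ x) := by
  rintro (a | a)
  · exact he a
  · exact he' a

theorem Con2bVec.const (r : W → R) : Con2bVec (V := V) fun _ _ φ _ => φ ∘ r :=
  fun a => Con2bPol.const (r a)

theorem Con2bAlg.eq {a b : ∀ (T : Type u) [CommRing T], (R →+* T) → (V → T) → T}
    (ha : Con2bPol a) (hb : Con2bPol b) : Con2bAlg fun T _ φ x => a T φ x = b T φ x := by
  obtain ⟨p, hp⟩ := ha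
  obtain ⟨q, hq⟩ := hb
  refine ⟨{p - q}, Set.finite_singleton _, fun T _ φ x => ?_⟩
  simp only [Set.mem_singleton_iff, forall_eq, eval₂_sub, ← hp, ← hq, sub_eq_zero]

theorem Con2bAlg.all {J : Type} [Finite J]
    {H : J → ∀ (T : Type u) [CommRing T], (R →+* T) → (V → T) → Prop}
    (h : ∀ j, Con2bAlg (H j)) : Con2bAlg fun T _ φ x => ∀ j, H j T φ x := by
  choose s hs hH using h
  refine ⟨⋃ j, s j, Set.finite_iUnion hs, fun T _ φ x => ?_⟩
  simp only [hH, Set.mem_iUnion]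
  exact ⟨fun h p ⟨j, hj⟩ => h j p hj, fun h j p hj => h p ⟨j, hj⟩⟩

theorem Con2bHorn.of {H : ∀ (T : Type u) [CommRing T], (R →+* T) → (V → T) → Prop}
    (h : Con2bAlg H) : Con2bHorn H := by
  obtain ⟨t, ht, hH⟩ := h
  exact ⟨∅, t, Set.finite_empty, ht, fun T _ φ x => by simp [hH]⟩

theorem Con2bHorn.imp {H H' : ∀ (T : Type u) [CommRing T], (R →+* T) → (V → T) → Prop}
    (h : Con2bAlg H) (h' : Con2bHorn H') : Con2bHorn fun T _ φ x => H T φ x → H' T φ x := by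
  obtain ⟨r, hr, hH⟩ := h
  obtain ⟨s, t, hs, ht, hH'⟩ := h'
  refine ⟨r ∪ s, t, hr.union hs, ht, fun T _ φ x => ?_⟩
  simp only [hH, hH', Set.mem_union]
  exact ⟨fun h h1 => h (fun p hp => h1 p (Or.inl hp)) fun p hp => h1 p (Or.inr hp),
    fun h h1 h2 => h fun p hp => hp.elim (h1 p) (h2 p)⟩

variable {k : Type u} [Field k]

/-- The condition spreads out. -/
def Con2bSp (ι : R →+* k) (H : ∀ (T : Type u) [CommRing T], (R →+* T) → (V → T) → Prop) : Prop :=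
  (∀ (T : Type u) [CommRing T] (φ : k →+* T) (x : V → T), H T (φ.comp ι) x) →
    ∃ F : Set k, F.Finite ∧ ∀ S : Subring k, F ⊆ S → ∀ ι' : R →+* S, S.subtype.comp ι' = ι →
      ∀ (T : Type u) [CommRing T] (φ : S →+* T) (x : V → T), H T (φ.comp ι') x

theorem Con2bSp.and {ι : R →+* k} {H H' : ∀ (T : Type u) [CommRing T], (R →+* T) → (V → T) → Prop}
    (h : Con2bSp ι H) (h' : Con2bSp ι H') : Con2bSp ι fun T _ φ x => H T φ x ∧ H' T φ x := by
  intro h0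
  obtain ⟨F, hF, h1⟩ := h fun T _ φ x => (h0 T φ x).1
  obtain ⟨F', hF', h2⟩ := h' fun T _ φ x => (h0 T φ x).2
  exact ⟨F ∪ F', hF.union hF', fun S hS ι' hι T _ φ x =>
    ⟨h1 S (Set.subset_union_left.trans hS) ι' hι T φ x,
      h2 S (Set.subset_union_right.trans hS) ι' hι T φ x⟩⟩

theorem Con2bSp.all {ι : R →+* k} {J : Type} [Finite J]
    {H : J → ∀ (T : Type u) [CommRing T], (R →+* T) → (V → T) → Prop}
    (h : ∀ j, Con2bSp ι (H j)) : Con2bSp ι fun T _ φ x => ∀ j, H j T φ x := by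
  intro h0
  choose F hF h1 using fun j => h j fun T _ φ x => h0 T φ x j
  exact ⟨⋃ j, F j, Set.finite_iUnion hF, fun S hS ι' hι T _ φ x j =>
    h1 j S ((Set.subset_iUnion F j).trans hS) ι' hι T φ x⟩

/-- Polynomials with coefficients in a subring lift. -/
theorem Con2b_lift {S : Subring k} {p : MvPolynomial V k} (h : (p.coeffs : Set k) ⊆ S) :
    ∃ q : MvPolynomial V S, MvPolynomial.map S.subtype q = p := by
  have : p ∈ Set.range (MvPolynomial.map (σ := V) S.subtype) := by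
    rw [mem_range_map_iff_coeffs_subset]
    intro c hc
    exact ⟨⟨c, h hc⟩, rfl⟩
  exact this

theorem Con2bSp.one {ι : R →+* k} {s : Set (MvPolynomial V R)} (hs : s.Finite)
    (q : MvPolynomial V R) :
    Con2bSp ι fun _ _ φ x => (∀ p ∈ s, eval₂ φ x p = 0) → eval₂ φ x q = 0 := by
  classical
  intro h0
  have := hs.to_subtype
  have := Fintype.ofFinite s
  let I : Ideal (MvPolynomial V k) := Ideal.span (Set.range fun p : s => MvPolynomial.map ι p.1)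
  have e : ∀ p : MvPolynomial V R, eval₂ (((Ideal.Quotient.mk I).comp C).comp ι)
      (fun i => Ideal.Quotient.mk I (X i)) p = Ideal.Quotient.mk I (MvPolynomial.map ι p) := by
    intro p
    rw [← eval₂_map]
    have h1 := eval₂_comp_left (Ideal.Quotient.mk I) C X (MvPolynomial.map ι p)
    rw [eval₂_eta] at h1
    exact h1.symm
  have h1 := h0 (MvPolynomial V k ⧸ I) ((Ideal.Quotient.mk I).comp C)
    (fun i => Ideal.Quotient.mk I (X i)) fun p hp => by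
      rw [e, Ideal.Quotient.eq_zero_iff_mem]
      exact Ideal.subset_span ⟨⟨p, hp⟩, rfl⟩
  rw [e, Ideal.Quotient.eq_zero_iff_mem, Ideal.mem_span_range_iff_exists_fun] at h1
  obtain ⟨c, hc⟩ := h1
  refine ⟨⋃ p, ((c p).coeffs : Set k), Set.finite_iUnion fun p => Finset.finite_toSet _,
    fun S hS ι' hι T _ φ x hx => ?_⟩
  choose d hd using fun p : s =>
    Con2b_lift (S := S) (p := c p) ((Set.subset_iUnion (fun p => ((c p).coeffs : Set k)) p).trans hS)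
  have h2 : ∑ p : s, d p * MvPolynomial.map ι' p.1 = MvPolynomial.map ι' q := by
    apply MvPolynomial.map_injective S.subtype S.subtype_injective
    simp only [map_sum, map_mul, hd, map_map, hι]
    exact hc
  rw [← eval₂_map, ← h2, eval₂_sum]
  refine Finset.sum_eq_zero fun p _ => ?_
  rw [eval₂_mul, eval₂_map, hx p.1 p.2, mul_zero]

theorem Con2bSp.horn {ι : R →+* k} {H : ∀ (T : Type u) [CommRing T], (R →+* T) → (V → T) → Prop}
    (h : Con2bHorn H) : Con2bSp ι H := by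
  obtain ⟨s, t, hs, ht, hH⟩ := h
  intro h0
  have := ht.to_subtype
  choose F hF h1 using fun q : t => Con2bSp.one (ι := ι) hs q.1
    fun T _ φ x hx => (hH T _ x).1 (h0 T φ x) hx q.1 q.2
  exact ⟨⋃ q, F q, Set.finite_iUnion hF, fun S hS ι' hι T _ φ x => (hH T _ x).2 fun hx q hq =>
    h1 ⟨q, hq⟩ S ((Set.subset_iUnion F ⟨q, hq⟩).trans hS) ι' hι T φ x hx⟩

end Gen

end MLF
end

-- merged part: Pool.Agent.Work.MP_29d410_ag.Con2b
section
/-!
# Spreading out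

Lift the data to the subring `R₀` generated by their coefficients.  Each law
is a finite family of implications (finitely many polynomial equations imply one); it holds over
all `k`-algebras iff a polynomial lies in an ideal of `k[variables]`; adjoin the coefficients of the
cofactors.
-/

open MvPolynomial

namespace MLF

universe u

section Map

variable {R S T : Type u} [CommRing R] [CommRing S] [CommRing T] {σ : Type}

theorem Con2b_Z (𝒢 : GData R σ) (ψ : R →+* S) (φ : S →+* T) :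
    (𝒢.map ψ).Z φ = 𝒢.Z (φ.comp ψ) := by
  funext v
  simp only [GData.Z, GData.map, eval₂_map]

theorem Con2b_add (𝒢 : GData R σ) (ψ : R →+* S) (φ : S →+* T) :
    (𝒢.map ψ).add φ = 𝒢.add (φ.comp ψ) := by
  funext j v w i
  simp only [GData.add, GData.map, eval₂_map]

theorem Con2b_neg (𝒢 : GData R σ) (ψ : R →+* S) (φ : S →+* T) :
    (𝒢.map ψ).neg φ = 𝒢.neg (φ.comp ψ) := by
  funext j v i
  simp only [GData.neg, GData.map, eval₂_map]

theorem Con2b_o (𝒢 : GData R σ) (ψ : R →+* S) (φ : S →+* T) :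
    φ ∘ (𝒢.map ψ).o = (φ.comp ψ) ∘ 𝒢.o := rfl

theorem Con2b_GLaws (𝒢 : GData R σ) (ψ : R →+* S) (φ : S →+* T) :
    (𝒢.map ψ).Laws φ ↔ 𝒢.Laws (φ.comp ψ) := by
  constructor
  · rintro ⟨h1, h2, h3, h4, h5, h6, h7, h8, h9, h10, h11⟩
    rw [Con2b_Z] at h1 h2 h3 h4 h5 h6 h7 h8 h9 h10 h11
    rw [Con2b_add] at h1 h2 h3 h4 h5 h7 h11
    rw [Con2b_neg] at h8 h9 h10 h11
    exact ⟨h1, h2, h3, h4, h5, h6, h7, h8, h9, h10, h11⟩
  · rintro ⟨h1, h2, h3, h4, h5, h6, h7, h8, h9, h10, h11⟩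
    rw [← Con2b_Z] at h1 h2 h3 h4 h5 h6 h7 h8 h9 h10 h11
    rw [← Con2b_add] at h1 h2 h3 h4 h5 h7 h11
    rw [← Con2b_neg] at h8 h9 h10 h11
    exact ⟨h1, h2, h3, h4, h5, h6, h7, h8, h9, h10, h11⟩

theorem Con2b_pe (ℋ : HData R σ) (ψ : R →+* S) (φ : S →+* T) (u : ℋ.τ → T) (θ : T)
    (q : Polynomial (MvPolynomial ℋ.τ R)) :
    (ℋ.map ψ).pe φ u θ (q.map (MvPolynomial.map ψ)) = ℋ.pe (φ.comp ψ) u θ q := by
  have e : (eval₂Hom φ u).comp (MvPolynomial.map ψ) = eval₂Hom (φ.comp ψ) u := by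
    ext <;> simp
  change Polynomial.eval₂ (eval₂Hom φ u) θ (q.map (MvPolynomial.map ψ)) =
    Polynomial.eval₂ (eval₂Hom (φ.comp ψ) u) θ q
  rw [Polynomial.eval₂_map, e]

theorem Con2b_pt (ℋ : HData R σ) (ψ : R →+* S) (φ : S →+* T) :
    (ℋ.map ψ).pt φ = ℋ.pt (φ.comp ψ) := by
  funext u θ a
  exact Con2b_pe ℋ ψ φ u θ _

theorem Con2b_HLaws (𝒢 : GData R σ) (ℋ : HData R σ) (ψ : R →+* S) (φ : S →+* T) :
    (ℋ.map ψ).Laws φ (𝒢.map ψ) ↔ ℋ.Laws (φ.comp ψ) 𝒢 := by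
  have eB : ∀ v, eval₂ φ v (ℋ.map ψ).B = eval₂ (φ.comp ψ) v ℋ.B := fun v => eval₂_map _ _ _ _
  have eΘ : ∀ v, eval₂ φ v (ℋ.map ψ).Θ = eval₂ (φ.comp ψ) v ℋ.Θ := fun v => eval₂_map _ _ _ _
  have eU : ∀ v i, eval₂ φ v ((ℋ.map ψ).U i) = eval₂ (φ.comp ψ) v (ℋ.U i) :=
    fun v i => eval₂_map _ _ _ _
  have ef : ∀ u θ, (ℋ.map ψ).pe φ u θ (ℋ.map ψ).f = ℋ.pe (φ.comp ψ) u θ ℋ.f :=
    fun u θ => Con2b_pe ℋ ψ φ u θ _
  have ed : ∀ u θ, (ℋ.map ψ).pe φ u θ (ℋ.map ψ).f.derivative =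
      ℋ.pe (φ.comp ψ) u θ ℋ.f.derivative := fun u θ =>
    (congrArg _ (Polynomial.derivative_map ℋ.f (MvPolynomial.map ψ))).trans
      (Con2b_pe ℋ ψ φ u θ _)
  constructor
  · rintro ⟨h1, h2, h3, h4, h5, h6, h7, h8, h9⟩
    simp only [eB, eΘ, eU, ef, ed, Con2b_Z, Con2b_pt] at h1 h2 h3 h4 h5 h6 h7 h8 h9
    exact ⟨h1, h2, h3, h4, h5, h6, h7, h8, h9⟩
  · rintro ⟨h1, h2, h3, h4, h5, h6, h7, h8, h9⟩
    constructor <;> simp only [eB, eΘ, eU, ef, ed, Con2b_Z, Con2b_pt] <;> assumption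

theorem Con2b_map_map (𝒢 : GData R σ) (ψ : R →+* S) (φ : S →+* T) :
    (𝒢.map ψ).map φ = 𝒢.map (φ.comp ψ) := by
  simp only [GData.map, map_map]
  rfl

end Map

variable {k : Type u} [Field k] {σ : Type} [Finite σ]

theorem Con2b_liftG (𝒢 : GData k σ) : ∃ F : Set k, F.Finite ∧ ∀ S : Subring k, F ⊆ S →
    ∃ 𝒢' : GData S σ, 𝒢'.map S.subtype = 𝒢 := by
  refine ⟨(⋃ i, ((𝒢.eqn i).coeffs : Set k)) ∪ (⋃ j, ⋃ i, ((𝒢.Φ j i).coeffs : Set k)) ∪
    (⋃ j, ⋃ i, ((𝒢.N j i).coeffs : Set k)) ∪ Set.range 𝒢.o, ?_, fun S hS => ?_⟩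
  · refine ((Set.Finite.union ?_ ?_).union ?_).union (Set.finite_range _)
    · exact Set.finite_iUnion fun _ => Finset.finite_toSet _
    · exact Set.finite_iUnion fun _ => Set.finite_iUnion fun _ => Finset.finite_toSet _
    · exact Set.finite_iUnion fun _ => Set.finite_iUnion fun _ => Finset.finite_toSet _
  simp only [Set.union_subset_iff, Set.iUnion_subset_iff] at hS
  obtain ⟨⟨⟨h1, h2⟩, h3⟩, h4⟩ := hS
  choose e he using fun i => Con2b_lift (h1 i)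
  choose Φ hΦ using fun j i => Con2b_lift (h2 j i)
  choose N hN using fun j i => Con2b_lift (h3 j i)
  refine ⟨{
    ι := 𝒢.ι
    eqn := e
    deg := 𝒢.deg
    eqn_hom := fun i => IsHomogeneous.of_map S.subtype_injective (by rw [he]; exact 𝒢.eqn_hom i)
    κ := 𝒢.κ
    Φ := Φ
    degΦ := 𝒢.degΦ
    Φ_hom := fun j i m hm => 𝒢.Φ_hom j i fun h => hm (by
      rw [← hΦ, coeff_map] at h
      exact S.subtype_injective (h.trans (map_zero _).symm))
    μ := 𝒢.μ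
    N := N
    degN := 𝒢.degN
    N_hom := fun j i => IsHomogeneous.of_map S.subtype_injective (by rw [hN]; exact 𝒢.N_hom j i)
    o := fun a => ⟨𝒢.o a, h4 ⟨a, rfl⟩⟩
    i₀ := 𝒢.i₀
    o_i₀ := Subtype.ext 𝒢.o_i₀ }, ?_⟩
  simp only [GData.map, he, hΦ, hN]
  rfl

theorem Con2b_liftP {τ : Type} (q : Polynomial (MvPolynomial τ k)) :
    ∃ F : Set k, F.Finite ∧ ∀ S : Subring k, F ⊆ S →
      q ∈ Polynomial.lifts (MvPolynomial.map (σ := τ) S.subtype) := by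
  refine ⟨⋃ n ∈ q.support, ((q.coeff n).coeffs : Set k),
    Set.Finite.biUnion (Finset.finite_toSet _) fun _ _ => Finset.finite_toSet _, fun S hS => ?_⟩
  rw [Polynomial.lifts_iff_coeff_lifts]
  intro n
  by_cases hn : n ∈ q.support
  · exact Con2b_lift ((Set.subset_biUnion_of_mem (u := fun n => ((q.coeff n).coeffs : Set k))
      (Finset.mem_coe.2 hn)).trans hS)
  · rw [Polynomial.notMem_support_iff.1 hn]
    exact ⟨0, map_zero _⟩

theorem Con2b_liftH (ℋ : HData k σ) : ∃ F : Set k, F.Finite ∧ ∀ S : Subring k, F ⊆ S →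
    ∃ ℋ' : HData S σ, ℋ'.map S.subtype = ℋ := by
  obtain ⟨F₁, hF₁, l₁⟩ := Con2b_liftP ℋ.f
  choose F₂ hF₂ l₂ using fun a => Con2b_liftP (ℋ.P a)
  refine ⟨(⋃ i, ((ℋ.U i).coeffs : Set k)) ∪ (ℋ.Θ.coeffs : Set k) ∪ (ℋ.B.coeffs : Set k) ∪ F₁ ∪
    (⋃ a, F₂ a) ∪ Set.range ℋ.u₀ ∪ {ℋ.θ₀}, ?_, fun S hS => ?_⟩
  · exact ((((((Set.finite_iUnion fun _ => Finset.finite_toSet _).union
      (Finset.finite_toSet _)).union (Finset.finite_toSet _)).union hF₁).union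
      (Set.finite_iUnion hF₂)).union (Set.finite_range _)).union (Set.finite_singleton _)
  simp only [Set.union_subset_iff, Set.iUnion_subset_iff, Set.singleton_subset_iff] at hS
  obtain ⟨⟨⟨⟨⟨⟨h1, h2⟩, h3⟩, h4⟩, h5⟩, h6⟩, h7⟩ := hS
  choose U hU using fun i => Con2b_lift (h1 i)
  obtain ⟨Θ, hΘ⟩ := Con2b_lift h2
  obtain ⟨B, hB⟩ := Con2b_lift h3
  obtain ⟨f, hf, -, hm⟩ := Polynomial.lifts_and_degree_eq_and_monic (l₁ S h4) ℋ.monic
  choose P hP using fun a => (Polynomial.mem_lifts _).1 (l₂ a S (h5 a))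
  refine ⟨{
    τ := ℋ.τ
    U := U
    Θ := Θ
    B := B
    d := ℋ.d
    U_hom := fun i => IsHomogeneous.of_map S.subtype_injective (by rw [hU]; exact ℋ.U_hom i)
    Θ_hom := IsHomogeneous.of_map S.subtype_injective (by rw [hΘ]; exact ℋ.Θ_hom)
    B_hom := IsHomogeneous.of_map S.subtype_injective (by rw [hB]; exact ℋ.B_hom)
    f := f
    monic := hm
    P := P
    a₀ := ℋ.a₀
    u₀ := fun i => ⟨ℋ.u₀ i, h6 ⟨i, rfl⟩⟩
    θ₀ := ⟨ℋ.θ₀, h7⟩ }, ?_⟩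
  simp only [HData.map, hU, hΘ, hB, hf, hP]
  rfl

section Big

variable {R : Type u} [CommRing R] {V : Type}

/-- All laws at one tuple. -/
def Con2bBig (𝒢 : GData R σ) (ℋ : HData R σ) {T : Type u} [CommRing T] (φ : R →+* T)
    (v w z : σ → T) (u : ℋ.τ → T) (x y : T) : Prop :=
  (∀ j, 𝒢.Z φ v → 𝒢.Z φ w → 𝒢.Z φ (𝒢.add φ j v w)) ∧
  (∀ j j', 𝒢.Z φ v → 𝒢.Z φ w → Crs (𝒢.add φ j v w) (𝒢.add φ j' w v)) ∧
  (∀ j j', 𝒢.Z φ v → 𝒢.Z φ w → Crs (𝒢.add φ j v w) (𝒢.add φ j' v w)) ∧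
  (∀ a b, 𝒢.Z φ v → 𝒢.Z φ w → v a * x = 1 → w b * y = 1 →
    (∀ j i, 𝒢.add φ j v w i = 0) → (1 : T) = 0) ∧
  (∀ j₁ j₂ j₃ j₄, 𝒢.Z φ v → 𝒢.Z φ w → 𝒢.Z φ z →
    Crs (𝒢.add φ j₂ (𝒢.add φ j₁ v w) z) (𝒢.add φ j₄ v (𝒢.add φ j₃ w z))) ∧
  𝒢.Z φ (φ ∘ 𝒢.o) ∧
  (∀ j, 𝒢.Z φ v → Crs (𝒢.add φ j v (φ ∘ 𝒢.o)) v) ∧
  (∀ j, 𝒢.Z φ v → 𝒢.Z φ (𝒢.neg φ j v)) ∧
  (∀ j j', 𝒢.Z φ v → Crs (𝒢.neg φ j v) (𝒢.neg φ j' v)) ∧
  (∀ a, 𝒢.Z φ v → v a * x = 1 → (∀ j i, 𝒢.neg φ j v i = 0) → (1 : T) = 0) ∧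
  (∀ j j', 𝒢.Z φ v → Crs (𝒢.add φ j (𝒢.neg φ j' v) v) (φ ∘ 𝒢.o)) ∧
  (𝒢.Z φ v → eval₂ φ v ℋ.B * x = 1 →
    ℋ.pe φ (fun i => eval₂ φ v (ℋ.U i) * x) (eval₂ φ v ℋ.Θ * x) ℋ.f = 0) ∧
  (𝒢.Z φ v → eval₂ φ v ℋ.B * x = 1 →
    Crs v (ℋ.pt φ (fun i => eval₂ φ v (ℋ.U i) * x) (eval₂ φ v ℋ.Θ * x))) ∧
  (𝒢.Z φ v → eval₂ φ v ℋ.B * x = 1 →
    ℋ.pe φ (fun i => eval₂ φ v (ℋ.U i) * x) (eval₂ φ v ℋ.Θ * x) ℋ.f.derivative = 0 →
      (1 : T) = 0) ∧
  (𝒢.Z φ v → eval₂ φ v ℋ.B * x = 1 →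
    ℋ.pt φ (fun i => eval₂ φ v (ℋ.U i) * x) (eval₂ φ v ℋ.Θ * x) ℋ.a₀ = 0 → (1 : T) = 0) ∧
  (ℋ.pe φ u x ℋ.f = 0 → 𝒢.Z φ (ℋ.pt φ u x)) ∧
  (∀ i, ℋ.pe φ u x ℋ.f = 0 →
    eval₂ φ (ℋ.pt φ u x) (ℋ.U i) = u i * eval₂ φ (ℋ.pt φ u x) ℋ.B) ∧
  (ℋ.pe φ u x ℋ.f = 0 → eval₂ φ (ℋ.pt φ u x) ℋ.Θ = x * eval₂ φ (ℋ.pt φ u x) ℋ.B) ∧
  ℋ.pe φ (φ ∘ ℋ.u₀) (φ ℋ.θ₀) ℋ.f = 0 ∧
  (eval₂ φ (ℋ.pt φ (φ ∘ ℋ.u₀) (φ ℋ.θ₀)) ℋ.B = 0 → (1 : T) = 0)

omit [Finite σ] in
theorem Con2bBig.of {𝒢 : GData R σ} {ℋ : HData R σ} {T : Type u} [CommRing T] {φ : R →+* T}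
    (g : 𝒢.Laws φ) (h : ℋ.Laws φ 𝒢) (v w z : σ → T) (u : ℋ.τ → T) (x y : T) :
    Con2bBig 𝒢 ℋ φ v w z u x y :=
  ⟨fun j => g.z_add j v w, fun j j' => g.add_comm j j' v w, fun j j' => g.add_add j j' v w,
    fun a b => g.add_cover v w a b x y, fun j₁ j₂ j₃ j₄ => g.add_assoc j₁ j₂ j₃ j₄ v w z, g.z_o,
    fun j => g.add_o j v, fun j => g.z_neg j v, fun j j' => g.neg_neg j j' v,
    fun a => g.neg_cover v a x, fun j j' => g.neg_add j j' v, h.f_eq v x, h.crs v x, h.der v x,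
    h.uni v x, h.z_pt u x, fun i => h.U_pt u x i, h.Θ_pt u x, h.f₀, h.B₀⟩

omit [Finite σ] in
theorem Con2bBig.laws {𝒢 : GData R σ} {ℋ : HData R σ} {T : Type u} [CommRing T] {φ : R →+* T}
    (h : ∀ (v w z : σ → T) (u : ℋ.τ → T) (x y : T), Con2bBig 𝒢 ℋ φ v w z u x y) :
    𝒢.Laws φ ∧ ℋ.Laws φ 𝒢 := by
  simp only [Con2bBig, forall_and] at h
  obtain ⟨h1, h2, h3, h4, h5, h6, h7, h8, h9, h10, h11, k1, k2, k3, k4, k5, k6, k7, k8, k9⟩ := h
  exact ⟨⟨fun j v w => h1 v w 0 0 0 0 j, fun j j' v w => h2 v w 0 0 0 0 j j',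
    fun j j' v w => h3 v w 0 0 0 0 j j', fun v w a b x y => h4 v w 0 0 x y a b,
    fun j₁ j₂ j₃ j₄ v w z => h5 v w z 0 0 0 j₁ j₂ j₃ j₄, h6 0 0 0 0 0 0,
    fun j v => h7 v 0 0 0 0 0 j, fun j v => h8 v 0 0 0 0 0 j, fun j j' v => h9 v 0 0 0 0 0 j j',
    fun v a x => h10 v 0 0 0 x 0 a, fun j j' v => h11 v 0 0 0 0 0 j j'⟩,
    ⟨fun v x => k1 v 0 0 0 x 0, fun v x => k2 v 0 0 0 x 0, fun v x => k3 v 0 0 0 x 0,
    fun v x => k4 v 0 0 0 x 0, fun u x => k5 0 0 0 u x 0, fun u x i => k6 0 0 0 u x 0 i,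
    fun u x => k7 0 0 0 u x 0, k8 0 0 0 0 0 0, k9 0 0 0 0 0 0⟩⟩

omit [Finite σ] in
theorem Con2bVec.add {v w : ∀ (T : Type u) [CommRing T], (R →+* T) → (V → T) → σ → T}
    (𝒢 : GData R σ) (j : 𝒢.κ) (hv : Con2bVec v) (hw : Con2bVec w) :
    Con2bVec fun T _ φ x => 𝒢.add φ j (v T φ x) (w T φ x) :=
  fun a => Con2bPol.ev (hv.elim hw) (𝒢.Φ j a)

omit [Finite σ] in
theorem Con2bVec.neg {v : ∀ (T : Type u) [CommRing T], (R →+* T) → (V → T) → σ → T}
    (𝒢 : GData R σ) (j : 𝒢.μ) (hv : Con2bVec v) :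
    Con2bVec fun T _ φ x => 𝒢.neg φ j (v T φ x) :=
  fun a => Con2bPol.ev hv (𝒢.N j a)

omit [Finite σ] in
theorem Con2bPol.pe (ℋ : HData R σ)
    {u : ∀ (T : Type u) [CommRing T], (R →+* T) → (V → T) → ℋ.τ → T}
    {a : ∀ (T : Type u) [CommRing T], (R →+* T) → (V → T) → T} (hu : Con2bVec u) (ha : Con2bPol a)
    (q : Polynomial (MvPolynomial ℋ.τ R)) :
    Con2bPol fun T _ φ x => ℋ.pe φ (u T φ x) (a T φ x) q :=
  Con2bPol.pev hu ha q

omit [Finite σ] in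
theorem Con2bVec.pt (ℋ : HData R σ)
    {u : ∀ (T : Type u) [CommRing T], (R →+* T) → (V → T) → ℋ.τ → T}
    {a : ∀ (T : Type u) [CommRing T], (R →+* T) → (V → T) → T} (hu : Con2bVec u)
    (ha : Con2bPol a) : Con2bVec fun T _ φ x => ℋ.pt φ (u T φ x) (a T φ x) :=
  fun b => Con2bPol.pe ℋ hu ha (ℋ.P b)

omit [Finite σ] in
theorem Con2bAlg.Z {v : ∀ (T : Type u) [CommRing T], (R →+* T) → (V → T) → σ → T}
    (𝒢 : GData R σ) (hv : Con2bVec v) : Con2bAlg fun T _ φ x => 𝒢.Z φ (v T φ x) :=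
  Con2bAlg.all fun i => Con2bAlg.eq (Con2bPol.ev hv (𝒢.eqn i)) Con2bPol.zero

theorem Con2bAlg.crs {v w : ∀ (T : Type u) [CommRing T], (R →+* T) → (V → T) → σ → T}
    (hv : Con2bVec v) (hw : Con2bVec w) : Con2bAlg fun T _ φ x => Crs (v T φ x) (w T φ x) :=
  Con2bAlg.all fun a => Con2bAlg.all fun b =>
    Con2bAlg.eq ((hv a).mul (hw b)) ((hv b).mul (hw a))

theorem Con2bBig.sp (ι : R →+* k) (𝒢 : GData R σ) (ℋ : HData R σ)
    {v w z : ∀ (T : Type u) [CommRing T], (R →+* T) → (V → T) → σ → T}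
    {u : ∀ (T : Type u) [CommRing T], (R →+* T) → (V → T) → ℋ.τ → T}
    {x y : ∀ (T : Type u) [CommRing T], (R →+* T) → (V → T) → T}
    (hv : Con2bVec v) (hw : Con2bVec w) (hz : Con2bVec z) (hu : Con2bVec u) (hx : Con2bPol x)
    (hy : Con2bPol y) :
    Con2bSp ι fun T _ φ t =>
      Con2bBig 𝒢 ℋ φ (v T φ t) (w T φ t) (z T φ t) (u T φ t) (x T φ t) (y T φ t) := by
  have zv := Con2bAlg.Z 𝒢 hv
  have zw := Con2bAlg.Z 𝒢 hw
  have zz := Con2bAlg.Z 𝒢 hz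
  have ho := Con2bVec.const (V := V) 𝒢.o
  have h10 : Con2bHorn (R := R) (V := V) fun T _ _ _ => (1 : T) = 0 :=
    .of (.eq .one .zero)
  have hB := Con2bAlg.eq ((Con2bPol.ev hv ℋ.B).mul hx) .one
  have hU : Con2bVec fun T _ φ t i => eval₂ φ (v T φ t) (ℋ.U i) * x T φ t :=
    fun i => (Con2bPol.ev hv (ℋ.U i)).mul hx
  have hΘ := (Con2bPol.ev hv ℋ.Θ).mul hx
  have hf := Con2bAlg.eq (Con2bPol.pe ℋ hu hx ℋ.f) .zero
  have hp := Con2bVec.pt ℋ hu hx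
  have hu₀ := Con2bVec.const (V := V) ℋ.u₀
  have hθ₀ := Con2bPol.const (V := V) ℋ.θ₀
  refine .and (.all fun j => .horn (.imp zv (.imp zw (.of (.Z 𝒢 (.add 𝒢 j hv hw)))))) ?_
  refine .and (.all fun j => .all fun j' => .horn
    (.imp zv (.imp zw (.of (.crs (.add 𝒢 j hv hw) (.add 𝒢 j' hw hv)))))) ?_
  refine .and (.all fun j => .all fun j' => .horn
    (.imp zv (.imp zw (.of (.crs (.add 𝒢 j hv hw) (.add 𝒢 j' hv hw)))))) ?_
  refine .and (.all fun a => .all fun b => .horn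
    (.imp zv (.imp zw (.imp (.eq ((hv a).mul hx) .one) (.imp (.eq ((hw b).mul hy) .one)
      (.imp (.all fun j => .all fun i => .eq (Con2bVec.add 𝒢 j hv hw i) .zero) h10)))))) ?_
  refine .and (.all fun j₁ => .all fun j₂ => .all fun j₃ => .all fun j₄ => .horn
    (.imp zv (.imp zw (.imp zz (.of (.crs (.add 𝒢 j₂ (.add 𝒢 j₁ hv hw) hz)
      (.add 𝒢 j₄ hv (.add 𝒢 j₃ hw hz)))))))) ?_
  refine .and (.horn (.of (.Z 𝒢 ho))) ?_
  refine .and (.all fun j => .horn (.imp zv (.of (.crs (.add 𝒢 j hv ho) hv)))) ?_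
  refine .and (.all fun j => .horn (.imp zv (.of (.Z 𝒢 (.neg 𝒢 j hv))))) ?_
  refine .and (.all fun j => .all fun j' => .horn
    (.imp zv (.of (.crs (.neg 𝒢 j hv) (.neg 𝒢 j' hv))))) ?_
  refine .and (.all fun a => .horn (.imp zv (.imp (.eq ((hv a).mul hx) .one)
    (.imp (.all fun j => .all fun i => .eq (Con2bVec.neg 𝒢 j hv i) .zero) h10)))) ?_
  refine .and (.all fun j => .all fun j' => .horn
    (.imp zv (.of (.crs (.add 𝒢 j (.neg 𝒢 j' hv) hv) ho)))) ?_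
  refine .and (.horn (.imp zv (.imp hB (.of (.eq (.pe ℋ hU hΘ ℋ.f) .zero))))) ?_
  refine .and (.horn (.imp zv (.imp hB (.of (.crs hv (.pt ℋ hU hΘ)))))) ?_
  refine .and (.horn (.imp zv (.imp hB (.imp (.eq (.pe ℋ hU hΘ ℋ.f.derivative) .zero) h10)))) ?_
  refine .and (.horn (.imp zv (.imp hB (.imp (.eq (Con2bVec.pt ℋ hU hΘ ℋ.a₀) .zero) h10)))) ?_
  refine .and (.horn (.imp hf (.of (.Z 𝒢 hp)))) ?_
  refine .and (.all fun i => .horn
    (.imp hf (.of (.eq (.ev hp (ℋ.U i)) ((hu i).mul (.ev hp ℋ.B)))))) ?_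
  refine .and (.horn (.imp hf (.of (.eq (.ev hp ℋ.Θ) (hx.mul (.ev hp ℋ.B)))))) ?_
  refine .and (.horn (.of (.eq (.pe ℋ hu₀ hθ₀ ℋ.f) .zero))) ?_
  exact .horn (.imp (.eq (.ev (.pt ℋ hu₀ hθ₀) ℋ.B) .zero) h10)

theorem Con2b_sp (ι : R →+* k) (𝒢 : GData R σ) (ℋ : HData R σ)
    (h : ∀ (T : Type u) [CommRing T] (φ : k →+* T), 𝒢.Laws (φ.comp ι) ∧ ℋ.Laws (φ.comp ι) 𝒢) :
    ∃ F : Set k, F.Finite ∧ ∀ S : Subring k, F ⊆ S → ∀ ι' : R →+* S, S.subtype.comp ι' = ι →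
      ∀ (T : Type u) [CommRing T] (φ : S →+* T), 𝒢.Laws (φ.comp ι') ∧ ℋ.Laws (φ.comp ι') 𝒢 := by
  obtain ⟨F, hF, l⟩ := Con2bBig.sp (V := σ ⊕ σ ⊕ σ ⊕ ℋ.τ ⊕ Unit ⊕ Unit) ι 𝒢 ℋ
    (v := fun _ _ _ t a => t (.inl a)) (w := fun _ _ _ t a => t (.inr (.inl a)))
    (z := fun _ _ _ t a => t (.inr (.inr (.inl a))))
    (u := fun _ _ _ t a => t (.inr (.inr (.inr (.inl a)))))
    (x := fun _ _ _ t => t (.inr (.inr (.inr (.inr (.inl ()))))))
    (y := fun _ _ _ t => t (.inr (.inr (.inr (.inr (.inr ()))))))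
    (fun _ => .var _) (fun _ => .var _) (fun _ => .var _) (fun _ => .var _) (.var _) (.var _)
    fun T _ φ t => Con2bBig.of (h T φ).1 (h T φ).2 _ _ _ _ _ _
  exact ⟨F, hF, fun S hS ι' hι T _ φ => Con2bBig.laws fun v w z u x y => l S hS ι' hι T φ
    (Sum.elim v (Sum.elim w (Sum.elim z (Sum.elim u (Sum.elim (fun _ => x) fun _ => y)))))⟩

end Big

theorem Con2b_incl {S S' : Subring k} (h : S ≤ S') :
    S'.subtype.comp (Subring.inclusion h) = S.subtype := RingHom.ext fun _ => rfl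

theorem spread (𝒢 : GData k σ) (ℋ : HData k σ)
    (h : ∀ (T : Type u) [CommRing T] (φ : k →+* T), 𝒢.Laws φ ∧ ℋ.Laws φ 𝒢) :
    ∃ (F : Finset k) (𝒢' : GData (Subring.closure (F : Set k)) σ)
      (ℋ' : HData (Subring.closure (F : Set k)) σ), 𝒢'.map (Subring.subtype _) = 𝒢 ∧
      ∀ (T : Type u) [CommRing T] (φ : Subring.closure (F : Set k) →+* T),
        𝒢'.Laws φ ∧ ℋ'.Laws φ 𝒢' := by
  obtain ⟨F₁, hF₁, l₁⟩ := Con2b_liftG 𝒢
  obtain ⟨F₂, hF₂, l₂⟩ := Con2b_liftH ℋ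
  obtain ⟨𝒢₀, hG⟩ := l₁ (Subring.closure (F₁ ∪ F₂))
    (Set.subset_union_left.trans Subring.subset_closure)
  obtain ⟨ℋ₀, hH⟩ := l₂ (Subring.closure (F₁ ∪ F₂))
    (Set.subset_union_right.trans Subring.subset_closure)
  obtain ⟨F₃, hF₃, l₃⟩ := Con2b_sp (Subring.closure (F₁ ∪ F₂)).subtype 𝒢₀ ℋ₀ fun T _ φ => by
    rw [← Con2b_GLaws, ← Con2b_HLaws, hG, hH]
    exact h T φ
  have hF := (hF₁.union hF₂).union hF₃
  have hle : Subring.closure (F₁ ∪ F₂) ≤ Subring.closure (hF.toFinset : Set k) :=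
    Subring.closure_mono (by rw [hF.coe_toFinset]; exact Set.subset_union_left)
  have h3 : F₃ ⊆ Subring.closure (hF.toFinset : Set k) :=
    Set.Subset.trans (by rw [hF.coe_toFinset]; exact Set.subset_union_right)
      Subring.subset_closure
  have hc := Con2b_incl hle
  refine ⟨hF.toFinset, 𝒢₀.map (Subring.inclusion hle), ℋ₀.map (Subring.inclusion hle), ?_,
    fun T _ φ => ?_⟩
  · rw [Con2b_map_map, hc, hG]
  · rw [Con2b_GLaws, Con2b_HLaws]
    exact l₃ _ h3 (Subring.inclusion hle) hc T φ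

end MLF
end

-- merged part: Pool.Agent.Work.MP_29d410_ag.Dict
section
/-!
# Dictionary between abelian varieties and points of group functors

Plan.  Rename the variables of forms along `ε`; `PP.closed_iff`, `isClosed_induced_iff`, `zar`
(`e` is a homeomorphism).  `exists_av`: the points are the classes of the coordinate vectors; the set
is closed since it is defined by the equations (`rep_iff`, `eqn_hom`); near `(x, y)` take `j` from
`Φ_cover`, `G` a component of `Φ j` which does not vanish, `F = Φ j`.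
`exists_link`: `exists_gdata`, `exists_hdata`, `spread`, `exists_spg`.
-/

open MvPolynomial

namespace MLF

universe u

open PG

variable {k k' : Type u} [Field k] [Field k'] {n m : ℕ} {G G' : PG.{u}}

theorem Dict_uni {σ : Type} {v : σ → k} : Uni v ↔ v ≠ 0 := by
  constructor
  · rintro ⟨i, hi⟩ rfl
    exact hi.ne_zero rfl
  · intro h
    obtain ⟨i, hi⟩ := Function.ne_iff.1 h
    exact ⟨i, Ne.isUnit hi⟩

theorem Dict_ne {x : PP k n} {v : Fin (n + 1) → k} (h : x.Is v) : v ≠ 0 := h.1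

theorem Dict_comp {σ τ : Type} {R : Type u} (ε : σ ≃ τ) (v : σ → R) : (v ∘ ε.symm) ∘ ε = v := by
  funext i
  simp

theorem Dict_comp' {σ τ : Type} {R : Type u} (ε : σ ≃ τ) (v : τ → R) : (v ∘ ε) ∘ ε.symm = v := by
  funext i
  simp

section General

variable {ε : Fin (n + 1) ≃ G.σ} {s : G.Str k}

theorem Dict_rep_iff {p : G.Pt s} {x : PP k n} (h : G.Rep p (x.crd ∘ ε.symm))
    {v : Fin (n + 1) → k} : G.Rep p (v ∘ ε.symm) ↔ x.Is v := by
  constructor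
  · intro hv
    obtain ⟨c, hc, e⟩ := G.ax.rep_uniq h hv
    have : v = c • x.crd := by
      rw [← Dict_comp ε v, e]
      funext i
      simp
    rw [this]
    exact (PP.is_crd x).smul hc.ne_zero
  · intro hv
    obtain ⟨c, hc, rfl⟩ := (PP.is_crd x).exists_smul hv
    exact G.ax.rep_smul h hc.isUnit

/-- A coordinate vector of a point of the functor gives a point of projective space. -/
theorem Dict_exists_pp (ε : Fin (n + 1) ≃ G.σ) (p : G.Pt s) :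
    ∃ x : PP k n, G.Rep p (x.crd ∘ ε.symm) := by
  obtain ⟨u, hu⟩ := G.ax.exists_rep p
  have h0 : u ∘ ε ≠ 0 := by
    intro h
    apply Dict_uni.1 (G.ax.rep_uni hu)
    rw [← Dict_comp' ε u, h]
    rfl
  obtain ⟨x, hx⟩ := PP.exists_is h0
  obtain ⟨c, hc, e⟩ := hx.exists_smul (PP.is_crd x)
  refine ⟨x, ?_⟩
  have : x.crd ∘ ε.symm = c • u := by
    rw [e]
    funext i
    simp
  rw [this]
  exact G.ax.rep_smul hu hc.isUnit

theorem Dict_van {k₀ : Type u} [Field k₀] (j : k₀ →+* k) {p : G.Pt s} {x : PP k n}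
    (h : G.Rep p (x.crd ∘ ε.symm)) {g : MvPolynomial G.σ k₀} {d : ℕ} (hg : g.IsHomogeneous d) :
    van j g p ↔ eval₂ j x.crd (rename ε.symm g) = 0 := by
  rw [van_iff hg h, eval₂_rename]

theorem Dict_mem_bc {P : Set (PP k n)} {e : P → G.Pt s} (h : ∀ x, G.Rep (e x) (x.1.crd ∘ ε.symm))
    {s' : G.Str k'} (j : k →+* k') (X : Set P) {y : PP k' n} {p : G.Pt s'}
    (hp : G.Rep p (y.crd ∘ ε.symm)) : y ∈ bc j (Subtype.val '' X) ↔ p ∈ ext j s' (e '' X) := by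
  constructor
  · rintro hy g ⟨⟨d, hd⟩, hg⟩
    rw [Dict_van j hp hd]
    refine hy _ d hd.rename_isHomogeneous ?_
    rintro _ ⟨x, hx, rfl⟩
    exact (Dict_van (RingHom.id k) (h x) hd).1 (hg _ ⟨x, hx, rfl⟩)
  · intro hy g d hd hg
    have e1 : rename ε.symm (rename ε g) = g := by
      rw [rename_rename]
      simp
    have hd' : (rename ε g).IsHomogeneous d := hd.rename_isHomogeneous
    rw [← e1, ← Dict_van j hp hd']
    refine hy _ ⟨⟨d, hd'⟩, ?_⟩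
    rintro _ ⟨x, hx, rfl⟩
    rw [Dict_van (RingHom.id k) (h x) hd', e1]
    exact hg _ ⟨x, hx, rfl⟩

theorem Dict_closed_iff {P : Set (PP k n)} (hP : IsClosed P) {e : P ≃ G.Pt s}
    (h : ∀ x, G.Rep (e x) (x.1.crd ∘ ε.symm)) {X : Set P} : IsClosed X ↔ Cl (e '' X) := by
  rw [hP.isClosedEmbedding_subtypeVal.isClosed_iff_image_isClosed, PP.closed_iff]
  constructor
  · intro hX p hp
    obtain ⟨y, rfl⟩ := e.surjective p
    obtain ⟨x, hx, e1⟩ := hX y.1 ((Dict_mem_bc h (RingHom.id k) X (h y)).2 hp)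
    exact ⟨x, hx, congrArg e (Subtype.ext e1)⟩
  · intro hX y hy
    have hyP : y ∈ P := PP.closed_iff.1 hP y fun g d hd hg => hy g d hd (by
      rintro _ ⟨x, -, rfl⟩
      exact hg _ x.2)
    obtain ⟨x, hx, e1⟩ := hX ((Dict_mem_bc h (RingHom.id k) X (h ⟨y, hyP⟩)).1 hy)
    exact ⟨x, hx, congrArg Subtype.val (e.injective e1)⟩

theorem Dict_homeo {P : Set (PP k n)} (hP : IsClosed P) {e : P ≃ G.Pt s}
    (h : ∀ x, G.Rep (e x) (x.1.crd ∘ ε.symm)) :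
    ∃ f : @Homeomorph P (G.Pt s) _ (zar s), ∀ x, f x = e x := by
  let _ := zar s
  refine ⟨⟨e, ?_, ?_⟩, fun _ => rfl⟩
  · refine continuous_iff_isClosed.2 fun Y hY => (Dict_closed_iff hP h).2 ?_
    change Cl (e '' (e ⁻¹' Y))
    rw [Set.image_preimage_eq _ e.surjective]
    exact isClosed_zar.1 hY
  · refine continuous_iff_isClosed.2 fun X hX => isClosed_zar.2 ?_
    change Cl (e.symm ⁻¹' X)
    rw [← e.image_eq_preimage_symm]
    exact (Dict_closed_iff hP h).1 hX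

theorem Dict_irr_iff {P : Set (PP k n)} (hP : IsClosed P) {e : P ≃ G.Pt s}
    (h : ∀ x, G.Rep (e x) (x.1.crd ∘ ε.symm)) {X : Set P} : IsIrreducible X ↔ Irr (e '' X) := by
  let _ := zar s
  obtain ⟨f, hf⟩ := Dict_homeo hP h
  have e1 : (e : P → G.Pt s) = f := funext fun x => (hf x).symm
  rw [← irr_zar, e1]
  constructor
  · intro hX
    exact hX.image f f.continuous.continuousOn
  · intro hX
    have := hX.image f.symm f.symm.continuous.continuousOn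
    rwa [← Set.image_comp, f.symm_comp_self, Set.image_id] at this

theorem Dict_image_closure {P : Set (PP k n)} (hP : IsClosed P) {e : P ≃ G.Pt s}
    (h : ∀ x, G.Rep (e x) (x.1.crd ∘ ε.symm)) (X : Set P) : e '' closure X = cl (e '' X) := by
  let _ := zar s
  obtain ⟨f, hf⟩ := Dict_homeo hP h
  have e1 : (e : P → G.Pt s) = f := funext fun x => (hf x).symm
  rw [← closure_zar, e1, f.image_closure]

/-- The equations in terms of projective space. -/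
theorem Dict_eqn_iff (ε : Fin (n + 1) ≃ G.σ) (s : G.Str k) (y : PP k n) :
    (∃ p : G.Pt s, G.Rep p (y.crd ∘ ε.symm)) ↔
      ∀ i, eval y.crd (rename ε.symm (G.eqn s i)) = 0 := by
  rw [G.ax.rep_iff]
  simp only [eval_rename]
  refine and_iff_right (Dict_uni.2 fun h => Dict_ne (PP.is_crd y) ?_)
  rw [← Dict_comp ε y.crd, h]
  rfl

end General

/-- `e` identifies the points of `A` with the points of `G` for the structure `s`. -/
def Link (A : AV k n) (ε : Fin (n + 1) ≃ G.σ) {s : G.Str k} (e : A.pts ≃+ G.Pt s) : Prop :=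
  ∀ x, G.Rep (e x) (x.1.crd ∘ ε.symm)

namespace Link

variable {A : AV k n} {ε : Fin (n + 1) ≃ G.σ} {s : G.Str k} {e : A.pts ≃+ G.Pt s}

theorem rep_iff (h : Link A ε e) {x : A.pts} {v : Fin (n + 1) → k} :
    G.Rep (e x) (v ∘ ε.symm) ↔ x.1.Is v := Dict_rep_iff (h x)

theorem closed_iff (h : Link A ε e) {X : Set A.pts} : IsClosed X ↔ Cl (e '' X) :=
  Dict_closed_iff A.closed (e := e.toEquiv) h

theorem irr_iff (h : Link A ε e) {X : Set A.pts} : IsIrreducible X ↔ Irr (e '' X) :=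
  Dict_irr_iff A.closed (e := e.toEquiv) h

theorem subvar_iff (h : Link A ε e) {X : Set A.pts} : IsSubvar X ↔ Var (e '' X) :=
  and_congr h.closed_iff h.irr_iff

theorem image_closure (h : Link A ε e) (X : Set A.pts) : e '' closure X = cl (e '' X) :=
  Dict_image_closure A.closed (e := e.toEquiv) h X

theorem var_univ (h : Link A ε e) : Var (Set.univ : Set (G.Pt s)) := by
  have := Subtype.irreducibleSpace A.irred
  rw [← Set.image_univ_of_surjective e.surjective]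
  exact h.subvar_iff.1 ⟨isClosed_univ, IrreducibleSpace.isIrreducible_univ _⟩

theorem mem_bc (h : Link A ε e) {A' : AV k' n} {s' : G.Str k'} {e' : A'.pts ≃+ G.Pt s'}
    (h' : Link A' ε e') (j : k →+* k') (X : Set A.pts) (y : A'.pts) :
    y.1 ∈ bc j (Subtype.val '' X) ↔ e' y ∈ ext j s' (e '' X) :=
  Dict_mem_bc (e := e) h j X (h' y)

theorem isBC [IsAlgClosed k] (h : Link A ε e) {A' : AV k' n} {s' : G.Str k'}
    {e' : A'.pts ≃+ G.Pt s'} (h' : Link A' ε e') {j : k →+* k'} (hs : G.push j s = s') :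
    IsBC j A A' := by
  refine ⟨Set.Subset.antisymm (fun y hy => ?_) fun y hy => ?_,
    e'.symm.toAddMonoidHom.comp ((G.map j hs).comp e.toAddMonoidHom), fun x => ?_⟩
  · have := (h.mem_bc h' j Set.univ ⟨y, hy⟩).2 (by
      rw [Set.image_univ_of_surjective e.surjective, ext_univ hs]
      trivial)
    rwa [Subtype.coe_image_univ] at this
  · obtain ⟨p, hp⟩ := (Dict_eqn_iff ε s' y).2 fun i => by
      obtain ⟨d, hd⟩ := G.ax.eqn_hom i
      have := hy (rename ε.symm (G.eqn s i)) d (hd s).rename_isHomogeneous fun x hx =>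
        (Dict_eqn_iff ε s x).1 ⟨_, h ⟨x, hx⟩⟩ i
      rw [← hs, G.ax.eqn_push, ← map_rename, eval_map]
      exact this
    obtain ⟨z, rfl⟩ := e'.surjective p
    rw [← (h'.rep_iff.1 hp).eq (PP.is_crd y)]
    exact z.2
  · rw [← h'.rep_iff]
    change G.Rep (e' (e'.symm (G.map j hs (e x)))) _
    rw [e'.apply_symm_apply]
    exact PG.rep_map j hs (h x)

theorem reg (h : Link A ε e) {B : AV k m} {ε' : Fin (m + 1) ≃ G'.σ} {t : G'.Str k}
    {e' : B.pts ≃+ G'.Pt t} (h' : Link B ε' e') {D : AddSubgroup A.pts} {ψ : G.Pt s → G'.Pt t}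
    (hψ : RegOn (e '' D) ψ) : Reg (fun a : D => a.1.1) fun a => (e'.symm (ψ (e a.1))).1 := by
  intro a
  obtain ⟨w, d, hw, hu, hr⟩ := hψ (e a.1) ⟨a.1, a.2, rfl⟩
  obtain ⟨i₀, hi₀⟩ := hu _ (h a.1)
  refine ⟨rename ε.symm (w i₀), fun i => rename ε.symm (w (ε' i)), d, d,
    (hw i₀).rename_isHomogeneous, fun i => (hw _).rename_isHomogeneous, ?_, fun y hy => ?_⟩
  · rw [eval_rename]
    exact hi₀.ne_zero
  · rw [eval_rename] at hy
    have := hr (e y.1) ⟨y.1, y.2, rfl⟩ _ (h y.1) ⟨i₀, Ne.isUnit hy⟩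
    rw [← h'.rep_iff, e'.apply_symm_apply]
    convert this using 1
    funext i
    simp [eval_rename]

end Link

theorem PG.exists_av {s : G.Str k} (hv : Var (Set.univ : Set (G.Pt s))) (ε : Fin (n + 1) ≃ G.σ) :
    ∃ (A : AV k n) (e : A.pts ≃+ G.Pt s), Link A ε e := by
  let P : Set (PP k n) := {x | ∃ p : G.Pt s, G.Rep p (x.crd ∘ ε.symm)}
  let f : P → G.Pt s := fun x => x.2.choose
  have hf : ∀ x, G.Rep (f x) (x.1.crd ∘ ε.symm) := fun x => x.2.choose_spec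
  have hbij : Function.Bijective f := by
    constructor
    · intro x y e1
      exact Subtype.ext (((Dict_rep_iff (hf x)).1 (e1 ▸ hf y)).eq (PP.is_crd y.1))
    · intro p
      obtain ⟨x, hx⟩ := Dict_exists_pp ε p
      exact ⟨⟨x, p, hx⟩, G.ax.rep_inj (hf _) hx⟩
  let e : P ≃ G.Pt s := Equiv.ofBijective f hbij
  have he : ∀ x, G.Rep (e x) (x.1.crd ∘ ε.symm) := hf
  have hP : IsClosed P := PP.closed_iff.2 fun y hy => (Dict_eqn_iff ε s y).2 fun i => by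
    obtain ⟨d, hd⟩ := G.ax.eqn_hom i
    exact hy _ d (hd s).rename_isHomogeneous fun x hx => (Dict_eqn_iff ε s x).1 hx i
  have hI : IsIrreducible P := by
    have h1 : IsIrreducible (Set.univ : Set P) := (Dict_irr_iff hP he).2 (by
      rw [Set.image_univ_of_surjective e.surjective]
      exact hv.2)
    have := h1.image Subtype.val continuous_subtype_val.continuousOn
    rwa [Subtype.coe_image_univ] at this
  let _ : AddCommGroup P := e.addCommGroup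
  let e' : P ≃+ G.Pt s := e.addEquiv
  have he' : ∀ x, G.Rep (e' x) (x.1.crd ∘ ε.symm) := hf
  have hadd : Reg₂ (fun x : P => x.1) fun x y => (x + y).1 := by
    intro x y
    obtain ⟨j, i₀, hi₀⟩ := G.ax.Φ_cover (he' x) (he' y)
    obtain ⟨d, hd⟩ := G.ax.Φ_hom j
    refine ⟨rename (Sum.map ε.symm ε.symm) (G.Φ s j i₀),
      fun i => rename (Sum.map ε.symm ε.symm) (G.Φ s j (ε i)), d, d,
      Prod_bihom_rename (hd s _) _ _, fun i => Prod_bihom_rename (hd s _) _ _, ?_,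
      fun x' y' hxy => ?_⟩
    · rw [PP.ev₂, eval_rename, Sum.elim_comp_map]
      exact hi₀.ne_zero
    · rw [PP.ev₂, eval_rename, Sum.elim_comp_map] at hxy
      have := G.ax.Φ_rep j (he' x') (he' y') ⟨i₀, Ne.isUnit hxy⟩
      rw [← Dict_rep_iff (he' (x' + y')), map_add]
      convert this using 1
      funext i
      simp [PP.ev₂, eval_rename, Sum.elim_comp_map]
  have hneg : Reg (fun x : P => x.1) fun x => (-x).1 := by
    intro x
    obtain ⟨j, i₀, hi₀⟩ := G.ax.N_cover (he' x)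
    obtain ⟨d, hd⟩ := G.ax.N_hom j
    refine ⟨rename ε.symm (G.N s j i₀), fun i => rename ε.symm (G.N s j (ε i)), d, d,
      (hd s _).rename_isHomogeneous, fun i => (hd s _).rename_isHomogeneous, ?_,
      fun x' hx => ?_⟩
    · rw [eval_rename]
      exact hi₀.ne_zero
    · rw [eval_rename] at hx
      have := G.ax.N_rep j (he' x') ⟨i₀, Ne.isUnit hx⟩
      rw [← Dict_rep_iff (he' (-x')), map_neg]
      convert this using 1
      funext i
      simp [eval_rename]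
  exact ⟨⟨P, hP, hI, hadd, hneg⟩, e', he'⟩

theorem PG.exists_eps (s : G.Str k) : ∃ n, Nonempty (Fin (n + 1) ≃ G.σ) := by
  obtain ⟨v, hv⟩ := G.ax.exists_rep (0 : G.Pt s)
  obtain ⟨i, -⟩ := G.ax.rep_uni hv
  have : Nonempty G.σ := ⟨i⟩
  obtain ⟨n, hn⟩ := Nat.exists_eq_succ_of_ne_zero (Fintype.card_ne_zero (α := G.σ))
  exact ⟨n, ⟨(Fintype.equivFinOfCardEq hn).symm⟩⟩

theorem AV.exists_link [IsAlgClosed k] (A : AV k n) : ∃ (G : SPG.{u}) (ε : Fin (n + 1) ≃ G.σ)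
    (s : G.Str k) (e : A.pts ≃+ G.Pt s), G.GL ∧ Link A ε e := by
  obtain ⟨𝒢, hL, hp, hZ, hA⟩ := A.exists_gdata
  obtain ⟨ℋ, hH⟩ := 𝒢.exists_hdata (hL k (RingHom.id k)).z_o hp
  obtain ⟨F, 𝒢', ℋ', rfl, hL'⟩ := spread 𝒢 ℋ fun T _ φ => ⟨hL T φ, hH T φ⟩
  have hR : ∃ F' : Finset (Subring.closure (F : Set k)),
      Subring.closure (F' : Set (Subring.closure (F : Set k))) = ⊤ := by
    have hfin : ((Subtype.val ⁻¹' (F : Set k)) : Set (Subring.closure (F : Set k))).Finite :=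
      F.finite_toSet.preimage Subtype.val_injective.injOn
    refine ⟨hfin.toFinset, ?_⟩
    rw [hfin.coe_toFinset]
    refine eq_top_iff.2 fun ⟨x, hx⟩ _ => ?_
    induction hx using Subring.closure_induction with
    | mem x hx => exact Subring.subset_closure hx
    | zero => exact zero_mem _
    | one => exact one_mem _
    | add x y hx hy ihx ihy => exact add_mem (ihx trivial) (ihy trivial)
    | neg x hx ih => exact neg_mem (ih trivial)
    | mul x y hx hy ihx ihy => exact mul_mem (ihx trivial) (ihy trivial)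
  obtain ⟨G, ε, hGL, hG⟩ := exists_spg hR 𝒢' ℋ' hL'
  obtain ⟨s, hs, hsa⟩ := hG k (Subring.subtype _)
  have eZ : ∀ v, (𝒢'.map (Subring.subtype _)).Z (RingHom.id k) v ↔ 𝒢'.Z (Subring.subtype _) v := by
    intro v
    refine forall_congr' fun i => ?_
    change eval₂ (RingHom.id k) v (MvPolynomial.map _ (𝒢'.eqn i)) = 0 ↔ _
    rw [eval₂_map, RingHom.id_comp]
  have eA : ∀ j v w, (𝒢'.map (Subring.subtype _)).add (RingHom.id k) j v w =
      𝒢'.add (Subring.subtype _) j v w := by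
    intro j v w
    funext i
    change eval₂ (RingHom.id k) _ (MvPolynomial.map _ (𝒢'.Φ j i)) = _
    rw [eval₂_map, RingHom.id_comp]
    rfl
  have hex : ∀ x : A.pts, ∃ p : G.Pt s, G.Rep p (x.1.crd ∘ ε.symm) := fun x =>
    (hs _).2 ⟨Dict_uni.2 (Dict_ne (PP.is_crd _)),
      (eZ _).1 ((hZ _ (Dict_ne (PP.is_crd _))).2 ⟨x, PP.is_crd _⟩)⟩
  choose f hf using hex
  have hbij : Function.Bijective f := by
    constructor
    · intro x y e1
      exact Subtype.ext (((Dict_rep_iff (hf x)).1 (e1 ▸ hf y)).eq (PP.is_crd y.1))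
    · intro p
      obtain ⟨x, hx⟩ := Dict_exists_pp ε p
      obtain ⟨y, hy⟩ := (hZ _ (Dict_ne (PP.is_crd x))).1 ((eZ _).2 ((hs _).1 ⟨p, hx⟩).2)
      exact ⟨y, G.ax.rep_inj ((Dict_rep_iff (hf y)).2 hy) hx⟩
  have hadd : ∀ x y, f (x + y) = f x + f y := by
    intro x y
    obtain ⟨j, hj⟩ := hsa _ _ _ _ (hf x) (hf y)
    have h0 : 𝒢'.add (Subring.subtype _) j x.1.crd y.1.crd ≠ 0 := by
      intro h
      apply Dict_uni.1 (G.ax.rep_uni hj)
      rw [h]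
      rfl
    have := hA x y _ _ j (PP.is_crd _) (PP.is_crd _) (by rwa [eA])
    rw [eA] at this
    exact G.ax.rep_inj ((Dict_rep_iff (hf (x + y))).2 this) hj
  exact ⟨G, ε, s, AddEquiv.mk' (Equiv.ofBijective f hbij) hadd, hGL, hf⟩

end MLF
end
end

-- merged part: Pool.Agent.Work.MP_29d410_ag.Geo6
section
/-!
# Quasi-homomorphisms (closed irreducible graphs)

Plan.  `QH.ext`: the fibre `Γ ⊓ (0 × B)` is the point `0`; use `ext_inter`, `ext_sprod`,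
`ext_finite`.  `QH.rat`: if `(a, b)` is on the graph and `τ` fixes the coefficients and `a`, then
`(a, τ b)` is on the graph, so `τ b = b`; `rat_of_fixed` in an algebraic closure.
`QH.level` (uniform exponent): compactness.  If there were a counterexample for every `(F, m)`,
the ultraproduct of the counterexamples along an ultrafilter refining `atTop` on `Finset k × ℕ`
would contradict `QH.rat`.
-/

open MvPolynomial Pointwise

namespace MLF

universe u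

namespace PG

variable {A B C : PG.{u}} {k T : Type u} [Field k] [Field T] [IsAlgClosed k] {s : A.Str k}
  {t : B.Str k} {r : C.Str k}

/-- The graph of a quasi-homomorphism from a subgroup of `A` to `B`. -/
structure QH (Γ : AddSubgroup ((A.prod B).Pt (s, t))) : Prop where
  var : Var (A := A.prod B) (s := (s, t)) Γ
  inj : ∀ y : B.Pt t, ((0, y) : (A.prod B).Pt (s, t)) ∈ Γ → y = 0

/-- The extension of a graph. -/
noncomputable abbrev extG {j : k →+* T} {s' : A.Str T} {t' : B.Str T} (h : A.push j s = s') (e : B.push j t = t')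
    (Γ : AddSubgroup ((A.prod B).Pt (s, t))) : AddSubgroup ((A.prod B).Pt (s', t')) :=
  extS (A := A.prod B) (prod_push h e) Γ

/-- The domain. -/
def dom {T : Type u} [Field T] {s : A.Str T} {t : B.Str T}
    (Γ : AddSubgroup ((A.prod B).Pt (s, t))) : AddSubgroup (A.Pt s) :=
  Γ.map (AddMonoidHom.fst (A.Pt s) (B.Pt t))

/-- The range. -/
def ran {T : Type u} [Field T] {s : A.Str T} {t : B.Str T}
    (Γ : AddSubgroup ((A.prod B).Pt (s, t))) : AddSubgroup (B.Pt t) :=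
  Γ.map (AddMonoidHom.snd (A.Pt s) (B.Pt t))

/-- The kernel. -/
def ker {T : Type u} [Field T] {s : A.Str T} {t : B.Str T}
    (Γ : AddSubgroup ((A.prod B).Pt (s, t))) : AddSubgroup (A.Pt s) :=
  Γ.comap (AddMonoidHom.inl (A.Pt s) (B.Pt t))

/-- The transposed graph. -/
def swap {T : Type u} [Field T] {s : A.Str T} {t : B.Str T}
    (Γ : AddSubgroup ((A.prod B).Pt (s, t))) : AddSubgroup ((B.prod A).Pt (t, s)) :=
  Γ.comap (AddEquiv.prodComm : B.Pt t × A.Pt s ≃+ A.Pt s × B.Pt t).toAddMonoidHom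

/-- The image of a set under a graph. -/
def img {T : Type u} [Field T] {s : A.Str T} {t : B.Str T}
    (Γ : AddSubgroup ((A.prod B).Pt (s, t))) (X : Set (A.Pt s)) : Set (B.Pt t) :=
  {y | ∃ x ∈ X, ((x, y) : (A.prod B).Pt (s, t)) ∈ Γ}

/-- The image of a subgroup under a graph. -/
def imgS {T : Type u} [Field T] {s : A.Str T} {t : B.Str T}
    (Γ : AddSubgroup ((A.prod B).Pt (s, t))) (G : AddSubgroup (A.Pt s)) : AddSubgroup (B.Pt t) :=
  (Γ ⊓ G.comap (AddMonoidHom.fst (A.Pt s) (B.Pt t))).map (AddMonoidHom.snd (A.Pt s) (B.Pt t))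

section defs
variable {T : Type u} [Field T] {s : A.Str T} {t : B.Str T}
  {Γ : AddSubgroup ((A.prod B).Pt (s, t))}
theorem mem_dom {x : A.Pt s} : x ∈ dom Γ ↔ ∃ y, ((x, y) : (A.prod B).Pt (s, t)) ∈ Γ := by
  constructor
  · rintro ⟨z, hz, rfl⟩
    exact ⟨z.2, hz⟩
  · rintro ⟨y, hy⟩
    exact ⟨(x, y), hy, rfl⟩
theorem mem_ran {y : B.Pt t} : y ∈ ran Γ ↔ ∃ x, ((x, y) : (A.prod B).Pt (s, t)) ∈ Γ := by
  constructor
  · rintro ⟨z, hz, rfl⟩
    exact ⟨z.1, hz⟩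
  · rintro ⟨x, hx⟩
    exact ⟨(x, y), hx, rfl⟩
theorem mem_ker {x : A.Pt s} : x ∈ ker Γ ↔ ((x, 0) : (A.prod B).Pt (s, t)) ∈ Γ := Iff.rfl
theorem mem_swap {x : A.Pt s} {y : B.Pt t} :
    ((y, x) : (B.prod A).Pt (t, s)) ∈ swap Γ ↔ ((x, y) : (A.prod B).Pt (s, t)) ∈ Γ := Iff.rfl
theorem coe_imgS (G : AddSubgroup (A.Pt s)) : (imgS Γ G : Set (B.Pt t)) = img Γ G := by
  ext y
  constructor
  · rintro ⟨z, ⟨hz, hz'⟩, rfl⟩
    exact ⟨z.1, hz', hz⟩
  · rintro ⟨x, hx, hxy⟩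
    exact ⟨(x, y), ⟨hxy, hx⟩, rfl⟩
theorem uniq_of_inj (h : ∀ y : B.Pt t, ((0, y) : (A.prod B).Pt (s, t)) ∈ Γ → y = 0) {x : A.Pt s}
    {y y' : B.Pt t} (hy : ((x, y) : (A.prod B).Pt (s, t)) ∈ Γ)
    (hy' : ((x, y') : (A.prod B).Pt (s, t)) ∈ Γ) : y = y' := by
  have h1 := Γ.sub_mem hy hy'
  have e : ((x, y) : (A.prod B).Pt (s, t)) - (x, y') = (0, y - y') :=
    Prod.ext (sub_self x) rfl
  rw [e] at h1
  exact sub_eq_zero.1 (h _ h1)
theorem Geo6_coe_dom : (dom Γ : Set (A.Pt s)) =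
    Prod.fst '' (Γ : Set ((A.prod B).Pt (s, t))) := rfl
theorem Geo6_coe_ran : (ran Γ : Set (B.Pt t)) =
    Prod.snd '' (Γ : Set ((A.prod B).Pt (s, t))) := rfl
theorem Geo6_img (X : Set (A.Pt s)) : img Γ X =
    Prod.snd '' ((Γ : Set ((A.prod B).Pt (s, t))) ∩ sprod X Set.univ) := by
  ext y
  constructor
  · rintro ⟨x, hx, hxy⟩
    exact ⟨(x, y), ⟨hxy, hx, trivial⟩, rfl⟩
  · rintro ⟨z, ⟨hz, hz', -⟩, rfl⟩
    exact ⟨z.1, hz', hz⟩
end defs

variable {Γ : AddSubgroup ((A.prod B).Pt (s, t))} {j : k →+* T} {s' : A.Str T} {t' : B.Str T}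

theorem QH.Geo6_inj (hΓ : QH Γ) {R : Type u} [CommRing R] [IsLocalRing R] [IsDomain R]
    {j : k →+* R} {s' : A.Str R} {t' : B.Str R} (h : A.push j s = s') (e : B.push j t = t')
    (y : B.Pt t')
    (hy : ((0, y) : (A.prod B).Pt (s', t')) ∈ ext (A := A.prod B) (s := (s, t)) j (s', t') Γ) :
    y = 0 := by
  have e1 : (Γ : Set ((A.prod B).Pt (s, t))) ∩ sprod {0} Set.univ = {0} := by
    ext z
    constructor
    · rintro ⟨hz, hz', -⟩
      have h1 : z.1 = 0 := hz'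
      have h2 : z = (0, z.2) := Prod.ext h1 rfl
      have h3 : z.2 = 0 := hΓ.inj _ (h2 ▸ hz)
      exact Prod.ext h1 h3
    · rintro rfl
      exact ⟨Γ.zero_mem, rfl, trivial⟩
  have h0 : (0 : A.Pt s') ∈ ext j s' ({0} : Set (A.Pt s)) := by
    simpa using map_mem_ext j h (X := {0}) (x := 0) rfl
  have h2 : ((0, y) : (A.prod B).Pt (s', t')) ∈ ext (A := A.prod B) (s := (s, t)) j (s', t')
      ((Γ : Set ((A.prod B).Pt (s, t))) ∩ sprod {0} Set.univ) := by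
    rw [ext_inter (A := A.prod B) (prod_push h e) hΓ.var.1 ((cl_singleton _).sprod cl_univ),
      ext_sprod h e (cl_singleton _) cl_univ, ext_univ e]
    exact ⟨hy, h0, trivial⟩
  rw [e1, ext_finite (A := A.prod B) (prod_push h e) (Set.finite_singleton _),
    Set.image_singleton, map_zero] at h2
  exact congrArg Prod.snd h2

theorem QH.ext_inj (hΓ : QH Γ) (h : A.push j s = s') (e : B.push j t = t') (y : B.Pt t')
    (hy : ((0, y) : (A.prod B).Pt (s', t')) ∈ extG h e Γ) : y = 0 := hΓ.Geo6_inj h e y hy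
/-- The same for points over a local domain. -/
theorem QH.ext_uniq (hΓ : QH Γ) {R : Type u} [CommRing R] [IsLocalRing R] [IsDomain R]
    {j : k →+* R} {s' : A.Str R} {t' : B.Str R} (h : A.push j s = s') (e : B.push j t = t')
    {x : A.Pt s'} {y y' : B.Pt t'}
    (hy : ((x, y) : (A.prod B).Pt (s', t')) ∈ ext (A := A.prod B) (s := (s, t)) j (s', t') Γ)
    (hy' : ((x, y') : (A.prod B).Pt (s', t')) ∈ ext (A := A.prod B) (s := (s, t)) j (s', t') Γ) :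
    y = y' := by
  have h1 := (extS (A := A.prod B) (prod_push h e) Γ).sub_mem hy hy'
  have e1 : ((x, y) : (A.prod B).Pt (s', t')) - (x, y') = (0, y - y') :=
    Prod.ext (sub_self x) rfl
  rw [e1] at h1
  exact sub_eq_zero.1 (hΓ.Geo6_inj h e _ h1)
theorem QH.ext [IsAlgClosed T] (hΓ : QH Γ) (h : A.push j s = s') (e : B.push j t = t') :
    QH (extG h e Γ) :=
  ⟨var_ext (A := A.prod B) hΓ.var j (prod_push h e), hΓ.ext_inj h e⟩
theorem QH.of_ext (hc : Cl (A := A.prod B) (s := (s, t)) Γ) [IsAlgClosed T] (h : A.push j s = s')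
    (e : B.push j t = t') (hΓ : QH (extG h e Γ)) : QH Γ := by
  refine ⟨var_of_ext (A := A.prod B) hc j (prod_push h e) hΓ.var, fun y hy => ?_⟩
  have h1 := map_mem_ext (A := A.prod B) j (prod_push h e) hy
  rw [prod_map, map_zero] at h1
  have h2 : B.map j e y = 0 := hΓ.inj _ h1
  exact map_inj j.injective e (h2.trans (map_zero _).symm)
theorem dom_ext [IsAlgClosed T] (h : A.push j s = s') (e : B.push j t = t') :
    dom (extG h e Γ) = extS h (dom Γ) :=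
  SetLike.coe_injective (ext_fst h e (Γ : Set ((A.prod B).Pt (s, t)))).symm
theorem ran_ext [IsAlgClosed T] (h : A.push j s = s') (e : B.push j t = t') :
    ran (extG h e Γ) = extS e (ran Γ) :=
  SetLike.coe_injective (ext_snd h e (Γ : Set ((A.prod B).Pt (s, t)))).symm
omit [IsAlgClosed k] in
theorem Geo6_ker : (ker Γ : Set (A.Pt s)) =
    ((NM.id s).pair (NM.const s (0 : B.Pt t))).f₀ ⁻¹' (Γ : Set ((A.prod B).Pt (s, t))) := by
  ext x
  change _ ↔ ((x, B.map _ (B.ax.push_id t) 0) : (A.prod B).Pt (s, t)) ∈ Γ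
  rw [map_zero]
  rfl
theorem ker_ext (hc : Cl (A := A.prod B) (s := (s, t)) Γ) (h : A.push j s = s')
    (e : B.push j t = t') : ker (extG h e Γ) = extS h (ker Γ) := by
  ext x
  rw [mem_extS, Geo6_ker, NM.ext_preimage _ h (prod_push h e) hc]
  change _ ↔ ((x, B.map j e 0) : (A.prod B).Pt (s', t')) ∈ extG h e Γ
  rw [map_zero]
  rfl
theorem swap_ext (hc : Cl (A := A.prod B) (s := (s, t)) Γ) (h : A.push j s = s')
    (e : B.push j t = t') : swap (extG h e Γ) = extG e h (swap Γ) := by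
  ext z
  exact (ext_swap h e hc z).symm
theorem img_ext [IsAlgClosed T] (hc : Cl (A := A.prod B) (s := (s, t)) Γ) (h : A.push j s = s')
    (e : B.push j t = t') {X : Set (A.Pt s)} (hX : Cl X) :
    img (extG h e Γ) (ext j s' X) = ext j t' (img Γ X) := by
  rw [Geo6_img, Geo6_img, ext_snd h e,
    ext_inter (A := A.prod B) (prod_push h e) hc (hX.sprod cl_univ), ext_sprod h e hX cl_univ,
    ext_univ e]
  rfl
theorem var_dom (h : Var (A := A.prod B) (s := (s, t)) Γ) : Var (dom Γ : Set (A.Pt s)) := h.fst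
theorem var_ran (h : Var (A := A.prod B) (s := (s, t)) Γ) : Var (ran Γ : Set (B.Pt t)) := h.snd
theorem cl_ker (h : Cl (A := A.prod B) (s := (s, t)) Γ) : Cl (ker Γ : Set (A.Pt s)) := by
  rw [Geo6_ker]
  exact NM.cl_preimage _ h
theorem var_swap (h : Var (A := A.prod B) (s := (s, t)) Γ) :
    Var (A := B.prod A) (s := (t, s)) (swap Γ) := h.swap
theorem cl_img (h : Cl (A := A.prod B) (s := (s, t)) Γ) {X : Set (A.Pt s)} (hX : Cl X) :
    Cl (img Γ X) := by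
  rw [Geo6_img]
  exact (h.inter (hX.sprod cl_univ)).snd
theorem cl_img_swap (h : Cl (A := A.prod B) (s := (s, t)) Γ) {Y : Set (B.Pt t)} (hY : Cl Y) :
    Cl (img (swap Γ) Y) := cl_img (Γ := swap Γ) h.swap hY

theorem QH.Geo6_loc (hΓ : QH Γ) (h : A.push j s = s') (e : B.push j t = t') {x : A.Pt s'}
    {y : B.Pt t'} (hxy : ((x, y) : (A.prod B).Pt (s', t')) ∈ extG h e Γ) :
    loc (A := A.prod B) j (s, t) (s' := (s', t')) (x, y) = {z | z ∈ Γ ∧ z.1 ∈ loc j s x} := by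
  have h1 : loc (A := A.prod B) j (s, t) (s' := (s', t')) (x, y) ⊆ Γ :=
    loc_subset (A := A.prod B) hΓ.var.1 hxy
  have h2 := loc_fst h e ((x, y) : (A.prod B).Pt (s', t'))
  ext z
  constructor
  · intro hz
    exact ⟨h1 hz, h2 ▸ ⟨z, hz, rfl⟩⟩
  · rintro ⟨hz, hz'⟩
    rw [h2] at hz'
    obtain ⟨z', hz', e'⟩ := hz'
    have h3 : ((z.1, z'.2) : (A.prod B).Pt (s, t)) = z' := Prod.ext e'.symm rfl
    have h6 : ((z.1, z'.2) : (A.prod B).Pt (s, t)) ∈ Γ := by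
      rw [h3]
      exact h1 hz'
    have h4 : z'.2 = z.2 := uniq_of_inj hΓ.inj h6 hz
    have h5 : z = z' := Prod.ext e'.symm h4.symm
    exact h5 ▸ hz'

theorem QH.loc (hΓ : QH Γ) (h : A.push j s = s') (e : B.push j t = t') {x : A.Pt s'} {y : B.Pt t'}
    (hxy : ((x, y) : (A.prod B).Pt (s', t')) ∈ extG h e Γ) : loc j t y = img Γ (loc j s x) := by
  have h2 := loc_snd h e ((x, y) : (A.prod B).Pt (s', t'))
  rw [hΓ.Geo6_loc h e hxy] at h2
  rw [h2]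
  ext b
  constructor
  · rintro ⟨z, ⟨hz, hz'⟩, rfl⟩
    exact ⟨z.1, hz', hz⟩
  · rintro ⟨a, ha, hab⟩
    exact ⟨(a, b), ⟨hab, ha⟩, rfl⟩
/-- The graph over a variety in the domain is a variety. -/
theorem QH.var_graph (hΓ : QH Γ) {X : Set (A.Pt s)} (hX : Var X) (hd : X ⊆ dom Γ) :
    Var (A := A.prod B) (s := (s, t)) {z | z ∈ Γ ∧ z.1 ∈ X} := by
  obtain ⟨T, _, _, j, x, hl, hx⟩ := hX.exists_gen
  have h1 : x ∈ dom (extG (j := j) rfl rfl Γ) := by
    rw [dom_ext, mem_extS]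
    exact ext_mono j _ hd hx
  obtain ⟨y, hy⟩ := mem_dom.1 h1
  rw [← hl, ← hΓ.Geo6_loc rfl rfl hy]
  exact var_loc (A := A.prod B) (prod_push rfl rfl) _
omit [IsAlgClosed k] in
theorem Geo6_graph_snd (X : Set (A.Pt s)) :
    img Γ X = (NM.snd s t).f₀ '' {z | z ∈ Γ ∧ z.1 ∈ X} := by
  ext b
  constructor
  · rintro ⟨a, ha, hab⟩
    exact ⟨(a, b), ⟨hab, ha⟩, rfl⟩
  · rintro ⟨z, ⟨hz, hz'⟩, rfl⟩
    exact ⟨z.1, hz', hz⟩
omit [IsAlgClosed k] in
theorem Geo6_graph_fst {X : Set (A.Pt s)} (hd : X ⊆ dom Γ) :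
    X = (NM.fst s t).f₀ '' {z | z ∈ Γ ∧ z.1 ∈ X} := by
  ext a
  constructor
  · intro ha
    obtain ⟨b, hb⟩ := mem_dom.1 (hd ha)
    exact ⟨(a, b), ⟨hb, ha⟩, rfl⟩
  · rintro ⟨z, ⟨-, hz'⟩, rfl⟩
    exact hz'
theorem QH.Geo6_dim (hΓ : QH Γ) {X : Set (A.Pt s)} (hX : Var X) (hd : X ⊆ dom Γ) :
    dim X = dim (A := A.prod B) (s := (s, t)) {z | z ∈ Γ ∧ z.1 ∈ X} := by
  rw [← dim_image_eq (NM.fst s t) (hΓ.var_graph hX hd), ← Geo6_graph_fst hd]
  intro a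
  refine Set.Subsingleton.finite ?_
  rintro z ⟨⟨hz, -⟩, e⟩ z' ⟨⟨hz', -⟩, e'⟩
  have h1 : z.1 = a := e
  have h2 : z'.1 = a := e'
  have h3 : ((z.1, z'.2) : (A.prod B).Pt (s, t)) = z' := Prod.ext (h1.trans h2.symm) rfl
  exact Prod.ext (h1.trans h2.symm) (uniq_of_inj hΓ.inj hz (h3 ▸ hz'))
theorem QH.var_img (hΓ : QH Γ) {X : Set (A.Pt s)} (hX : Var X) (hd : X ⊆ dom Γ) :
    Var (img Γ X) := by
  rw [Geo6_graph_snd]
  exact NM.var_image _ (hΓ.var_graph hX hd)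
theorem QH.dim_img_le (hΓ : QH Γ) {X : Set (A.Pt s)} (hX : Var X) (hd : X ⊆ dom Γ) :
    dim (img Γ X) ≤ dim X := by
  rw [Geo6_graph_snd, hΓ.Geo6_dim hX hd]
  exact dim_image_le _ (hΓ.var_graph hX hd)
theorem QH.dim_img_eq (hΓ : QH Γ) (hk : (ker Γ : Set (A.Pt s)).Finite) {X : Set (A.Pt s)}
    (hX : Var X) (hd : X ⊆ dom Γ) : dim (img Γ X) = dim X := by
  rw [Geo6_graph_snd, hΓ.Geo6_dim hX hd]
  refine dim_image_eq _ (hΓ.var_graph hX hd) fun b => ?_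
  rcases Set.eq_empty_or_nonempty ({z : (A.prod B).Pt (s, t) | z ∈ Γ ∧ z.1 ∈ X} ∩
    (NM.snd s t).f₀ ⁻¹' {b}) with h0 | ⟨z₀, ⟨h₀, -⟩, e₀⟩
  · rw [h0]
    exact Set.finite_empty
  refine (hk.image fun a => ((a + z₀.1, b) : (A.prod B).Pt (s, t))).subset ?_
  rintro z ⟨⟨hz, -⟩, e⟩
  have h1 : z.2 = b := e
  have h2 : z₀.2 = b := e₀
  refine ⟨z.1 - z₀.1, ?_, Prod.ext (sub_add_cancel _ _) h1.symm⟩
  have h3 : z - z₀ = (z.1 - z₀.1, 0) := Prod.ext rfl (sub_eq_zero.2 (h1.trans h2.symm))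
  have h4 := Γ.sub_mem hz h₀
  rw [h3] at h4
  exact h4
theorem QH.img_cl (hΓ : QH Γ) {X : Set (A.Pt s)} (hd : X ⊆ dom Γ) :
    img Γ (cl X) = cl (img Γ X) := by
  refine Set.Subset.antisymm ?_ (cl_min ?_ (cl_img hΓ.var.1 (cl_cl X)))
  · have h1 : cl X ⊆ img (swap Γ) (cl (img Γ X)) := by
      refine cl_min (fun a ha => ?_) (cl_img_swap hΓ.var.1 (cl_cl _))
      obtain ⟨b, hb⟩ := mem_dom.1 (hd ha)
      exact ⟨b, subset_cl _ ⟨a, ha, hb⟩, hb⟩
    rintro b ⟨a, ha, hab⟩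
    obtain ⟨b', hb', hab'⟩ := h1 ha
    rw [uniq_of_inj hΓ.inj hab hab']
    exact hb'
  · rintro b ⟨a, ha, hab⟩
    exact ⟨a, subset_cl _ ha, hab⟩

theorem QH.rat (hΓ : QH Γ) (p : ℕ) [ExpChar T p] (h : A.push j s = s') (e : B.push j t = t')
    {E : Subfield T} (hE : j.fieldRange ≤ E) {x : A.Pt s'} {y : B.Pt t'}
    (hxy : ((x, y) : (A.prod B).Pt (s', t')) ∈ extG h e Γ) (hx : Rat E x) :
    ∃ m, Rat (root p m E) y := by
  let Ω := AlgebraicClosure T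
  let ι : T →+* Ω := algebraMap T Ω
  have : ExpChar Ω p := expChar_of_injective_ringHom ι.injective p
  have h' : A.push (ι.comp j) s = A.push ι s' := push_trans h rfl
  have e' : B.push (ι.comp j) t = B.push ι t' := push_trans e rfl
  have hE' : (ι.comp j).fieldRange ≤ E.map ι := by
    rintro _ ⟨c, rfl⟩
    exact ⟨j c, hE ⟨c, rfl⟩, rfl⟩
  have h1 : ((A.map ι rfl x, B.map ι rfl y) : (A.prod B).Pt (A.push ι s', B.push ι t')) ∈
      PG.ext (A := A.prod B) (s := (s, t)) (ι.comp j) (A.push ι s', B.push ι t') Γ :=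
    mem_ext_map (A := A.prod B) (s' := (s', t')) ι (prod_push rfl rfl) hxy
  obtain ⟨m, hm⟩ := rat_of_fixed (E := E.map ι) p (x := B.map ι rfl y)
    (def_range _ t e' hE') fun τ hτ eτ => by
      have c : (τ : Ω →+* Ω).comp (ι.comp j) = ι.comp j :=
        RingHom.ext fun c => hτ _ (hE' ⟨c, rfl⟩)
      have hτ' : A.push (τ : Ω →+* Ω) (A.push ι s') = A.push ι s' := by
        rw [← h', A.ax.push_comp, c]
      have h2 := mem_ext_map (A := A.prod B) (τ : Ω →+* Ω) (prod_push hτ' eτ) h1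
      rw [c, prod_map] at h2
      have h3 : A.map (τ : Ω →+* Ω) hτ' (A.map ι rfl x) = A.map ι rfl x := by
        rw [(map_eq_map_iff hτ' (A.ax.push_id _)).2 fun z hz => hτ z (hx.map ι rfl hz)]
        exact map_id' (fun _ => rfl) _ _
      refine hΓ.ext_uniq h' e' ?_ h1
      rw [← h3]
      exact h2
  refine ⟨m, ((rat_map_iff ι rfl).1 hm).mono fun z hz => ?_⟩
  obtain ⟨c, hc, ec⟩ : ι z ^ p ^ m ∈ E.map ι := hz
  rw [← map_pow] at ec
  change z ^ p ^ m ∈ E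
  rw [← ι.injective ec]
  exact hc

theorem QH.rat_acl (hΓ : QH Γ) (h : A.push j s = s') (e : B.push j t = t')
    {E : Subfield T} [IsAlgClosed E] (hE : j.fieldRange ≤ E) {x : A.Pt s'} {y : B.Pt t'}
    (hxy : ((x, y) : (A.prod B).Pt (s', t')) ∈ extG h e Γ) (hx : Rat E x) : Rat E y := by
  obtain ⟨m, hm⟩ := hΓ.rat (ringExpChar T) h e hE hxy hx
  refine hm.mono fun z hz => ?_
  obtain ⟨w, hw⟩ := IsAlgClosed.exists_pow_nat_eq (⟨_, hz⟩ : E)
    (pow_pos (expChar_pos T (ringExpChar T)) m)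
  have h1 : iterateFrobenius T (ringExpChar T) m w = iterateFrobenius T (ringExpChar T) m z :=
    congrArg Subtype.val hw
  rw [← (iterateFrobenius T (ringExpChar T) m).injective h1]
  exact w.2

section ultra

variable {I : Type u} (U : Ultrafilter I) (K : I → Type u) [∀ i, Field (K i)]

/-- The ideal of the families which vanish almost everywhere. -/
def Geo6I : Ideal (∀ i, K i) where
  carrier := {f | ∀ᶠ i in U, f i = 0}
  add_mem' {f g} hf hg := by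
    filter_upwards [hf, hg] with i h h'
    rw [Pi.add_apply, h, h', add_zero]
  zero_mem' := Filter.Eventually.of_forall fun _ => rfl
  smul_mem' c f hf := by
    filter_upwards [hf] with i h
    rw [smul_eq_mul, Pi.mul_apply, h, mul_zero]

variable {U K}

theorem Geo6_mk_eq {f g : ∀ i, K i} :
    Ideal.Quotient.mk (Geo6I U K) f = Ideal.Quotient.mk (Geo6I U K) g ↔ ∀ᶠ i in U, f i = g i := by
  rw [Ideal.Quotient.eq]
  change (∀ᶠ i in U, f i - g i = 0) ↔ _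
  simp only [sub_eq_zero]

theorem Geo6_mul_inv {f : ∀ i, K i} (hf : f ∉ Geo6I U K) :
    Ideal.Quotient.mk (Geo6I U K) f * Ideal.Quotient.mk (Geo6I U K) (fun i => (f i)⁻¹) = 1 := by
  rw [← map_mul, ← map_one (Ideal.Quotient.mk (Geo6I U K)), Geo6_mk_eq]
  have : ∀ᶠ i in U, ¬ f i = 0 := Ultrafilter.eventually_not.2 hf
  filter_upwards [this] with i h
  exact mul_inv_cancel₀ h

theorem Geo6_max : (Geo6I U K).IsMaximal := by
  refine Ideal.Quotient.maximal_of_isField _ ⟨⟨0, 1, fun h => ?_⟩, mul_comm, fun {a} ha => ?_⟩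
  · rw [← map_zero (Ideal.Quotient.mk (Geo6I U K)), ← map_one (Ideal.Quotient.mk (Geo6I U K)),
      Geo6_mk_eq] at h
    obtain ⟨i, hi⟩ := h.exists
    exact zero_ne_one hi
  · obtain ⟨f, rfl⟩ := Ideal.Quotient.mk_surjective a
    exact ⟨_, Geo6_mul_inv fun h => ha (Ideal.Quotient.eq_zero_iff_mem.2 h)⟩

variable (U K)

/-- The ultraproduct of a family of fields. -/
def Geo6K : Type u := (∀ i, K i) ⧸ Geo6I U K

noncomputable instance : Field (Geo6K U K) := @Ideal.Quotient.field _ _ (Geo6I U K) Geo6_max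

/-- The projection to the ultraproduct. -/
noncomputable def Geo6π : (∀ i, K i) →+* Geo6K U K := Ideal.Quotient.mk (Geo6I U K)

variable {U K}

theorem Geo6π_eq {f g : ∀ i, K i} : Geo6π U K f = Geo6π U K g ↔ ∀ᶠ i in U, f i = g i := Geo6_mk_eq

theorem Geo6π_inv (f : ∀ i, K i) : Geo6π U K (fun i => (f i)⁻¹) = (Geo6π U K f)⁻¹ := by
  by_cases hf : f ∈ Geo6I U K
  · have h1 : Geo6π U K f = 0 := Ideal.Quotient.eq_zero_iff_mem.2 hf
    rw [h1, inv_zero, ← map_zero (Geo6π U K), Geo6π_eq]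
    filter_upwards [hf] with i h
    rw [h, inv_zero, Pi.zero_apply]
  · exact eq_inv_of_mul_eq_one_right (Geo6_mul_inv hf)

variable (U) in
/-- The ultraproduct of subfields. -/
def Geo6E (E : ∀ i, Subfield (K i)) : Subfield (Geo6K U K) where
  carrier := {z | ∃ f, Geo6π U K f = z ∧ ∀ᶠ i in U, f i ∈ E i}
  mul_mem' := by
    rintro _ _ ⟨f, rfl, hf⟩ ⟨g, rfl, hg⟩
    refine ⟨f * g, map_mul _ _ _, ?_⟩
    filter_upwards [hf, hg] with i h h' using mul_mem h h'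
  one_mem' := ⟨1, map_one _, Filter.Eventually.of_forall fun i => one_mem _⟩
  add_mem' := by
    rintro _ _ ⟨f, rfl, hf⟩ ⟨g, rfl, hg⟩
    refine ⟨f + g, map_add _ _ _, ?_⟩
    filter_upwards [hf, hg] with i h h' using add_mem h h'
  zero_mem' := ⟨0, map_zero _, Filter.Eventually.of_forall fun i => zero_mem _⟩
  neg_mem' := by
    rintro _ ⟨f, rfl, hf⟩
    refine ⟨-f, map_neg _ _, ?_⟩
    filter_upwards [hf] with i h using neg_mem h
  inv_mem' := by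
    rintro _ ⟨f, rfl, hf⟩
    refine ⟨_, Geo6π_inv f, ?_⟩
    filter_upwards [hf] with i h using inv_mem h

theorem Geo6E_mem {E : ∀ i, Subfield (K i)} {f : ∀ i, K i} :
    Geo6π U K f ∈ Geo6E U E ↔ ∀ᶠ i in U, f i ∈ E i := by
  refine ⟨?_, fun h => ⟨f, rfl, h⟩⟩
  rintro ⟨g, e, hg⟩
  filter_upwards [hg, Geo6π_eq.1 e] with i h h'
  rwa [← h']

omit [IsAlgClosed k] in
theorem Geo6_eval (j : ∀ i, k →+* K i) {σ : Type} (v : ∀ i, σ → K i) (g : MvPolynomial σ k)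
    (h : ∀ i, eval₂ (j i) (v i) g = 0) :
    eval₂ ((Geo6π U K).comp (RingHom.pi j)) (fun a => Geo6π U K fun i => v i a) g = 0 := by
  have h1 : eval₂ (RingHom.pi j) (fun a i => v i a) g = 0 := by
    funext i
    exact (eval₂_comp_left (Pi.evalRingHom K i) (RingHom.pi j) (fun a i => v i a) g).trans (h i)
  have h2 := eval₂_comp_left (Geo6π U K) (RingHom.pi j) (fun a i => v i a) g
  rw [h1, map_zero] at h2
  exact h2.symm

omit [IsAlgClosed k] in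
/-- The ultraproduct of a family of points. -/
theorem Geo6_point (j : ∀ i, k →+* K i) (s' : ∀ i, A.Str (K i)) (h : ∀ i, A.push (j i) s = s' i)
    (x : ∀ i, A.Pt (s' i)) : ∃ (v : ∀ i, A.σ → K i) (a : ∀ _ : I, A.σ) (a₀ : A.σ)
      (X : A.Pt (A.push ((Geo6π U K).comp (RingHom.pi j)) s)), (∀ i, A.Rep (x i) (v i)) ∧
      (∀ i, v i (a i) = 1) ∧ (Geo6π U K fun i => v i a₀) = 1 ∧
      A.Rep X fun a => Geo6π U K fun i => v i a := by
  choose v a hv ha using fun i => exists_rep_one (x i)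
  obtain ⟨a₀, h₀⟩ : ∃ a₀, ∀ᶠ i in U, a i = a₀ :=
    Ultrafilter.eventually_exists_iff.1 (Filter.Eventually.of_forall fun i => ⟨a i, rfl⟩)
  have h1 : (Geo6π U K fun i => v i a₀) = 1 := by
    rw [← map_one (Geo6π U K), Geo6π_eq]
    filter_upwards [h₀] with i hi
    rw [← hi, ha, Pi.one_apply]
  obtain ⟨X, hX⟩ := (A.ax.rep_iff (A.push ((Geo6π U K).comp (RingHom.pi j)) s)
    fun a => Geo6π U K fun i => v i a).2 ⟨⟨a₀, (congrArg IsUnit h1).mpr isUnit_one⟩, fun l => by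
      rw [A.ax.eqn_push, eval_map]
      refine Geo6_eval j v _ fun i => ?_
      rw [← eval_map, ← A.ax.eqn_push, h]
      exact ((A.ax.rep_iff _ _).1 ⟨_, hv i⟩).2 l⟩
  exact ⟨v, a, a₀, X, hv, ha, h1, hX⟩

end ultra

/-- Bounded level. -/
theorem QH.level (hΓ : QH Γ) (p : ℕ) [Fact p.Prime] [CharP k p] : ∃ (F : Finset k) (m : ℕ),
    ∀ (T : Type u) [Field T] [CharP T p] (j : k →+* T) (s' : A.Str T) (t' : B.Str T)
      (h : A.push j s = s') (e : B.push j t = t') (E : Subfield T), (∀ c ∈ F, j c ∈ E) →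
      ∀ (x : A.Pt s') (y : B.Pt t'), ((x, y) : (A.prod B).Pt (s', t')) ∈ extG h e Γ → Rat E x →
        Rat (root p m E) y := by
  classical
  by_contra H
  have H' : ∀ i : Finset k × ℕ, ∃ (T : Type u) (_ : Field T) (_ : CharP T p) (j : k →+* T)
      (s' : A.Str T) (t' : B.Str T) (h : A.push j s = s') (e : B.push j t = t') (E : Subfield T),
      (∀ c ∈ i.1, j c ∈ E) ∧ ∃ (x : A.Pt s') (y : B.Pt t'),
        ((x, y) : (A.prod B).Pt (s', t')) ∈ extG h e Γ ∧ Rat E x ∧ ¬ Rat (root p i.2 E) y := by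
    intro i
    by_contra H'
    refine H ⟨i.1, i.2, fun T _ _ j s' t' h e E hE x y hxy hx => ?_⟩
    by_contra hy
    exact H' ⟨T, _, inferInstance, j, s', t', h, e, E, hE, x, y, hxy, hx, hy⟩
  choose K _ _ j s' t' h e E hE x y hxy hx hy using H'
  let U : Ultrafilter (Finset k × ℕ) := Ultrafilter.of Filter.atTop
  have hU : (U : Filter (Finset k × ℕ)) ≤ Filter.atTop := Ultrafilter.of_le _
  obtain ⟨v, a, a₀, X, hv, ha, ha₀, hX⟩ := Geo6_point (U := U) j s' h x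
  obtain ⟨w, b, b₀, Y, hw, hb, hb₀, hY⟩ := Geo6_point (U := U) j t' e y
  have : CharP (Geo6K U K) p :=
    charP_of_injective_ringHom ((Geo6π U K).comp (RingHom.pi j)).injective p
  have hXY : ((X, Y) : (A.prod B).Pt (_, _)) ∈ extG rfl rfl Γ := by
    intro g hg
    obtain ⟨d, hd⟩ := hg.1
    have h1 := Geo6_eval (U := U) j (fun i (c : A.σ × B.σ) => v i c.1 * w i c.2) g fun i =>
      hxy i g hg _ ⟨_, _, hv i, hw i, rfl⟩
    refine (van_iff (A := A.prod B) hd ⟨_, _, hX, hY, funext fun c => ?_⟩).2 h1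
    exact map_mul (Geo6π U K) (fun i => v i c.1) fun i => w i c.2
  obtain ⟨m, hm⟩ := hΓ.rat p rfl rfl (E := Geo6E U E) (by
    rintro _ ⟨c, rfl⟩
    refine Geo6E_mem.2 ?_
    filter_upwards [hU (Filter.eventually_ge_atTop (({c}, 0) : Finset k × ℕ))] with i hi
    exact hE i c (hi.1 (Finset.mem_singleton_self c))) hXY
    ((rat_iff_of_rep hX ha₀).2 fun c => Geo6E_mem.2 (Filter.Eventually.of_forall fun i =>
      (rat_iff_of_rep (hv i) (ha i)).1 (hx i) c))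
  have h1 : ∀ c, ∀ᶠ i in U, w i c ^ p ^ m ∈ E i := fun c => by
    have h2 : (Geo6π U K fun i => w i c) ^ p ^ m ∈ Geo6E U E := (rat_iff_of_rep hY hb₀).1 hm c
    rw [← map_pow] at h2
    exact Geo6E_mem.1 h2
  obtain ⟨i, hi, hi'⟩ := ((Filter.eventually_all.2 h1).and
    (hU (Filter.eventually_ge_atTop ((∅, m) : Finset k × ℕ)))).exists
  refine hy i ((rat_iff_of_rep (hw i) (hb i)).2 fun c => ?_)
  obtain ⟨n, hn⟩ := Nat.exists_eq_add_of_le hi'.2
  change w i c ^ p ^ i.2 ∈ E i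
  rw [hn, pow_add, pow_mul]
  exact pow_mem (hi c) _

end PG

end MLF
end
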