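import Pool.Agent.Work.MP_29d410_ag.DM7A

-- merged part: Pool.Agent.Work.MP_29d410_ag.PB2
section
/-!
# Reduction of points along valuation rings and places

Plan.  `map W.subtype` is bijective on points: divide a coordinate vector by a coordinate of
largest absolute value.  `gauss`: an element of `E₁ ⊔ E₂` is a quotient of two sums
`∑ a i * b i` with `a i ∈ E₁` independent over `k`, `b i ∈ E₂`; dividing by a `b i` of largest
absolute value one gets an element of `W` whose residue `∑ θ (a i) * r (b i / b i₀)` is not zero.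
-/

open MvPolynomial

namespace MLF

universe u

/-- The structure map into the valuation ring of a place. -/
def Place.jW {k T T' : Type u} [Field k] [Field T] [Field T'] {j : k →+* T} {j' : k →+* T'}
    (P : Place j j') : k →+* P.W := j.codRestrict P.W.toSubring P.mem

/-- An embedding is a place. -/
def Place.ofHom {k T T' : Type u} [Field k] [Field T] [Field T'] {j : k →+* T} {j' : k →+* T'}
    (ψ : T →+* T') (h : ∀ c, ψ (j c) = j' c) : Place j j' where
  W := ⊤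
  mem _ := trivial
  r := ψ.comp (⊤ : ValuationSubring T).subtype
  r_j := h

/-- A nonzero element of the ring generated by `E₁` and `E₂` has, after division by an element of
`E₂`, a nonzero residue. -/
theorem PB2_key {Ω Ω' : Type u} [Field Ω] [Field Ω'] {k E₁ E₂ : Subfield Ω} (h₁ : k ≤ E₁)
    (h₂ : k ≤ E₂) (W : ValuationSubring Ω) (r : W →+* Ω') (θ : E₁ →+* Ω')
    (hW : ∀ z ∈ E₁, z ∈ W) (hθ : ∀ z : E₁, r ⟨z, hW z z.2⟩ = θ z) {E₂' : Subfield Ω'}
    (hE : ∀ z : W, (z : Ω) ∈ E₂ → r z ∈ E₂')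
    (hLD : LD (θ.comp (Subfield.inclusion h₁)).fieldRange θ.fieldRange E₂') {y : Ω}
    (hy : y ∈ Subring.closure ((E₂ : Set Ω) ∪ E₁)) (h0 : y ≠ 0) :
    ∃ (b : Ω) (w : W), b ∈ E₂ ∧ b ≠ 0 ∧ y = b * w ∧ r w ≠ 0 ∧ r w ∈ θ.fieldRange ⊔ E₂' := by
  classical
  obtain ⟨B, hB, hs, hi⟩ := exists_linearIndependent k (E₁ : Set Ω)
  have h3 : y ∈ Submodule.span E₂ B := by
    refine Submodule.span_le.2 (fun x hx => ?_) (LD1b_span hy)
    have h4 : x ∈ Submodule.span k B := hs ▸ Submodule.subset_span hx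
    clear hx
    induction h4 using Submodule.span_induction with
    | mem x hx => exact Submodule.subset_span hx
    | zero => exact zero_mem _
    | add _ _ _ _ h h' => exact add_mem h h'
    | smul c x _ h => exact Submodule.smul_mem _ (⟨c, h₂ c.2⟩ : E₂) h
  obtain ⟨f, t, ht, -, e⟩ := Submodule.mem_span_iff_exists_finset_subset.1 h3
  have hne : t.Nonempty := by
    rw [Finset.nonempty_iff_ne_empty]
    rintro rfl
    exact h0 (by simpa using e.symm)
  obtain ⟨a₀, ha₀, hm⟩ := t.exists_max_image (fun a => W.valuation (f a : Ω)) hne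
  have hb : (f a₀ : Ω) ≠ 0 := by
    intro hb
    refine h0 (e ▸ Finset.sum_eq_zero fun a ha => ?_)
    have h5 := hm a ha
    rw [hb, map_zero, le_zero_iff, map_eq_zero] at h5
    rw [Subfield.smul_def, h5, zero_smul]
  have hq : ∀ a : t, (f a : Ω) / f a₀ ∈ W := fun a => by
    rw [← W.valuation_le_one_iff, map_div₀]
    exact div_le_one_of_le₀ (hm a a.2) zero_le
  let α : t → E₁ := fun a => ⟨a, hB (ht a.2)⟩
  let q : t → W := fun a => ⟨_, hq a⟩
  have hq' : ∀ a, r (q a) ∈ E₂' := fun a => hE _ (div_mem (f a).2 (f a₀).2)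
  have er : r (∑ a, q a * ⟨α a, hW _ (α a).2⟩) = ∑ a, r (q a) * θ (α a) := by
    simp only [map_sum, map_mul, hθ]
  refine ⟨f a₀, ∑ a, q a * ⟨α a, hW _ (α a).2⟩, (f a₀).2, hb, ?_, ?_, ?_⟩
  · rw [← e, ← Finset.sum_coe_sort t, AddSubmonoidClass.coe_finsetSum, Finset.mul_sum]
    refine Finset.sum_congr rfl fun a _ => ?_
    simp only [q, α, Subfield.smul_def, smul_eq_mul, MulMemClass.coe_mul]
    field_simp
  · rw [er]
    intro h6
    have h7 : LinearIndependent (θ.comp (Subfield.inclusion h₁)).fieldRange fun a => θ (α a) := by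
      rw [Fintype.linearIndependent_iff]
      intro g hg a
      choose c hc using fun a => RingHom.mem_fieldRange.1 (g a).2
      have h8 : θ (∑ a, Subfield.inclusion h₁ (c a) * α a) = 0 := by
        rw [← hg, map_sum]
        exact Finset.sum_congr rfl fun a _ => by rw [map_mul, Subfield.smul_def, ← hc]; rfl
      have h9 := congrArg Subtype.val ((map_eq_zero θ).1 h8)
      rw [AddSubmonoidClass.coe_finsetSum] at h9
      have h10 := Fintype.linearIndependent_iff.1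
        (hi.comp (fun a : t => (⟨a, ht a.2⟩ : B)) fun a a' h =>
          Subtype.ext (congrArg (fun z : B => (z : Ω)) h)) c h9 a
      exact Subtype.ext (by rw [← hc, h10, map_zero]; rfl)
    have h11 := Fintype.linearIndependent_iff.1
      (LD1b_li hLD (fun a => RingHom.mem_fieldRange_self θ (α a)) h7)
      (fun a => ⟨r (q a), hq' a⟩) h6 ⟨a₀, ha₀⟩
    have h12 : q ⟨a₀, ha₀⟩ = 1 := Subtype.ext (div_self hb)
    have h13 : r (q ⟨a₀, ha₀⟩) = 0 := congrArg Subtype.val h11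
    rw [h12, map_one] at h13
    exact one_ne_zero h13
  · rw [er]
    exact sum_mem fun a _ => mul_mem (le_sup_right (b := E₂') (hq' a))
      (le_sup_left (a := θ.fieldRange) (RingHom.mem_fieldRange_self θ _))

/-- Residues of a compositum. -/
theorem gauss {Ω Ω' : Type u} [Field Ω] [Field Ω'] {k E₁ E₂ : Subfield Ω} (h₁ : k ≤ E₁)
    (h₂ : k ≤ E₂) (W : ValuationSubring Ω) (r : W →+* Ω') (θ : E₁ →+* Ω')
    (hW : ∀ z ∈ E₁, z ∈ W) (hθ : ∀ z : E₁, r ⟨z, hW z z.2⟩ = θ z) {E₂' : Subfield Ω'}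
    (hE : ∀ z : W, (z : Ω) ∈ E₂ → r z ∈ E₂')
    (hLD : LD (θ.comp (Subfield.inclusion h₁)).fieldRange θ.fieldRange E₂') (z : W)
    (hz : (z : Ω) ∈ E₁ ⊔ E₂) : r z ∈ θ.fieldRange ⊔ E₂' := by
  rw [sup_comm, ← E₁.closure_eq, ← E₂.closure_eq, ← Subfield.closure_union] at hz
  obtain ⟨x, hx, y, hy, e⟩ := Subfield.mem_closure_iff.1 hz
  by_cases h0 : (z : Ω) = 0
  · rw [show z = 0 from Subtype.ext h0, map_zero]
    exact zero_mem _
  have hx0 : x ≠ 0 := fun h => h0 (by rw [← e, h, zero_div])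
  have hy0 : y ≠ 0 := fun h => h0 (by rw [← e, h, div_zero])
  obtain ⟨b, v, hb, b0, rfl, v0, hv⟩ := PB2_key h₁ h₂ W r θ hW hθ hE hLD hx hx0
  obtain ⟨c, w, hc, c0, rfl, w0, hw⟩ := PB2_key h₁ h₂ W r θ hW hθ hE hLD hy hy0
  have w1 : (w : Ω) ≠ 0 := right_ne_zero_of_mul hy0
  rcases W.mem_or_inv_mem (b / c) with h | h
  · have e1 : z * w = ⟨_, h⟩ * v := Subtype.ext (by
      simp only [MulMemClass.coe_mul, ← e]; field_simp)
    have e2 := congrArg r e1
    rw [map_mul, map_mul, ← eq_div_iff w0] at e2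
    rw [e2]
    exact div_mem (mul_mem (le_sup_right (b := E₂') (hE _ (div_mem hb hc))) hv) hw
  · have e1 : z * (w * ⟨_, h⟩) = v := Subtype.ext (by
      simp only [MulMemClass.coe_mul, ← e]; field_simp)
    have e2 := congrArg r e1
    rw [map_mul] at e2
    have e3 := right_ne_zero_of_mul (e2 ▸ v0)
    rw [← eq_div_iff e3, map_mul] at e2
    rw [e2]
    exact div_mem hv (mul_mem hw (le_sup_right (b := E₂') (hE _ (inv_mem (div_mem hb hc)))))

/-- Gluing an embedding and a homomorphism of linearly disjoint fields to a place. -/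
theorem LD.place {Ω Ω' : Type u} [Field Ω] [Field Ω'] [IsAlgClosed Ω'] {k E₁ E₂ : Subfield Ω}
    (h : LD k E₁ E₂) (h₁ : k ≤ E₁) (h₂ : k ≤ E₂) (θ : E₁ →+* Ω') (W₂ : ValuationSubring E₂)
    (r₂ : W₂ →+* Ω') (h0 : ∀ z : W₂, r₂ z = 0 ↔ W₂.valuation (z : E₂) < 1)
    (hk : ∀ c (hc : c ∈ k), ∃ hm : (⟨c, h₂ hc⟩ : E₂) ∈ W₂, r₂ ⟨_, hm⟩ = θ ⟨c, h₁ hc⟩) :
    ∃ (W : ValuationSubring Ω) (r : W →+* Ω'), (∀ z : W, r z = 0 ↔ W.valuation (z : Ω) < 1) ∧
      (∀ z : E₁, ∃ hm : (z : Ω) ∈ W, r ⟨z, hm⟩ = θ z) ∧ W.comap E₂.subtype = W₂ ∧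
      ∀ (z : W₂) (hm : ((z : E₂) : Ω) ∈ W), r ⟨_, hm⟩ = r₂ z := by
  let R₂ : Subring Ω := W₂.toSubring.map E₂.subtype
  let e : W₂.toSubring ≃+* R₂ := W₂.toSubring.equivMapOfInjective E₂.subtype Subtype.val_injective
  have hk₂ : k.toSubring ≤ R₂ := fun c hc => ⟨⟨c, h₂ hc⟩, (hk c hc).1, rfl⟩
  have he : ∀ z : W₂, e.symm ⟨((z : E₂) : Ω), z, z.2, rfl⟩ = z := fun z =>
    e.symm_apply_eq.2 (Subtype.ext rfl)
  obtain ⟨φ, φ₁, φ₂⟩ := LD.hom h h₁ h₂ (R₁ := E₁.toSubring) (R₂ := R₂) le_rfl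
    (by rintro _ ⟨z, -, rfl⟩; exact z.2) h₁ hk₂ θ (r₂.comp e.symm.toRingHom) fun c hc => by
      obtain ⟨hm, e1⟩ := hk c hc
      exact e1.symm.trans (congrArg r₂ (he ⟨_, hm⟩).symm)
  obtain ⟨W, hW, r, r1, r0⟩ := exists_place _ φ
  have m2 : ∀ z : W₂, ((z : E₂) : Ω) ∈ W := fun z =>
    hW (le_sup_right (b := R₂) ⟨z, z.2, rfl⟩)
  have r2 : ∀ z : W₂, r ⟨_, m2 z⟩ = r₂ z := fun z =>
    (r1 ⟨_, le_sup_right (b := R₂) ⟨z, z.2, rfl⟩⟩).trans
      ((φ₂ ⟨_, z, z.2, rfl⟩).trans (congrArg r₂ (he z)))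
  refine ⟨W, r, r0, fun z => ⟨hW (le_sup_left (a := E₁.toSubring) z.2),
    (r1 ⟨_, le_sup_left (a := E₁.toSubring) z.2⟩).trans (φ₁ z)⟩, ?_, fun z _ => r2 z⟩
  ext z
  refine ⟨fun hz => ?_, fun hz => m2 ⟨z, hz⟩⟩
  by_contra hn
  have z0 : z ≠ 0 := fun h => hn (h ▸ zero_mem _)
  have hi := (W₂.mem_or_inv_mem z).resolve_left hn
  have h3 : r₂ ⟨_, hi⟩ = 0 := by
    rw [h0, map_inv₀]
    exact inv_lt_one_of_one_lt₀ (lt_of_not_ge fun h => hn ((W₂.valuation_le_one_iff _).1 h))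
  have h4 : (⟨z, hz⟩ : W) * ⟨_, m2 ⟨_, hi⟩⟩ = 1 :=
    Subtype.ext (congrArg (fun z : E₂ => (z : Ω)) (mul_inv_cancel₀ z0))
  have h5 := congrArg r h4
  rw [map_mul, r2, h3, mul_zero, map_one] at h5
  exact zero_ne_one h5

/-- A place of an extension with values in the algebraically closed ground field. -/
theorem exists_place_self {k T : Type u} [Field k] [IsAlgClosed k] [Field T] (j : k →+* T) :
    ∃ P : Place j (RingHom.id k), ∀ z : P.W, P.r z = 0 ↔ P.W.valuation (z : T) < 1 := by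
  let e : k ≃+* j.range := RingEquiv.ofBijective j.rangeRestrict
    ⟨fun a b h => j.injective (congrArg Subtype.val h), j.rangeRestrict_surjective⟩
  obtain ⟨W, hW, r, r1, r0⟩ := exists_place j.range e.symm.toRingHom
  exact ⟨⟨W, fun c => hW ⟨c, rfl⟩, r, fun c => (r1 ⟨_, c, rfl⟩).trans (e.symm_apply_apply c)⟩, r0⟩

namespace PG

variable {A B : PG.{u}} {T : Type u} [CommRing T] [IsLocalRing T]
  {k k' k'' : Type u} [Field k] [Field k'] [Field k'']

theorem PB2_lift (W : ValuationSubring k) {s : A.Str k} (x : A.Pt s) :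
    ∃ v : A.σ → W, A.Rep x (fun i => (v i : k)) ∧ Uni v := by
  obtain ⟨v, hv⟩ := A.ax.exists_rep x
  obtain ⟨i, hi⟩ := A.ax.rep_uni hv
  obtain ⟨a, -, hm⟩ := Finset.univ.exists_max_image (fun a => W.valuation (v a))
    ⟨i, Finset.mem_univ i⟩
  have ha : v a ≠ 0 := by
    intro ha
    have h1 := hm i (Finset.mem_univ i)
    rw [ha, map_zero, le_zero_iff, map_eq_zero] at h1
    exact hi.ne_zero h1
  have hq : ∀ l, (v a)⁻¹ * v l ∈ W := fun l => by
    rw [← W.valuation_le_one_iff, inv_mul_eq_div, map_div₀]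
    exact div_le_one_of_le₀ (hm l (Finset.mem_univ l)) zero_le
  refine ⟨fun l => ⟨_, hq l⟩, A.ax.rep_smul hv (inv_ne_zero ha).isUnit, a, ?_⟩
  have e : (⟨_, hq a⟩ : W) = 1 := Subtype.ext (inv_mul_cancel₀ ha)
  show IsUnit (⟨_, hq a⟩ : W)
  exact e ▸ isUnit_one

theorem PB2_smul {W : ValuationSubring k} {s : A.Str k} {x : A.Pt s} {v : A.σ → W} {c : W}
    (hv : A.Rep x fun i => (v i : k)) (hc : IsUnit c) : A.Rep x fun i => ((c • v) i : k) :=
  A.ax.rep_smul hv (hc.map W.subtype)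

theorem PB2_uni {R : Type u} [CommRing R] {σ : Type} {v : σ → R} {c : R} (hv : Uni v)
    (hc : IsUnit c) : Uni (c • v) := hv.imp fun _ h => hc.mul h

omit [IsLocalRing T] in
theorem PB2_uni_map {R : Type u} [CommRing R] {σ : Type} {v : σ → R} (hv : Uni v) (φ : R →+* T) :
    Uni (φ ∘ v) := hv.imp fun _ h => h.map φ

theorem PB2_scal' {W : ValuationSubring k} {σ : Type} {v w : σ → W} {c : k} (hv : Uni v)
    (hw : Uni w) (e : ∀ i, (w i : k) = c * v i) : ∃ c' : W, IsUnit c' ∧ w = c' • v := by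
  obtain ⟨i, hi⟩ := hv
  obtain ⟨b, hb⟩ := hi.exists_right_inv
  have hb' : (v i : k) * b = 1 := congrArg Subtype.val hb
  have e1 : w = (w i * b) • v := funext fun l => Subtype.ext (by
    simp only [Pi.smul_apply, smul_eq_mul, MulMemClass.coe_mul, e]
    linear_combination (-c * v l) * hb')
  obtain ⟨l, hl⟩ := hw
  rw [e1] at hl
  exact ⟨_, isUnit_of_mul_isUnit_left hl, e1⟩

theorem PB2_scal {W : ValuationSubring k} {s : A.Str k} {x : A.Pt s} {v w : A.σ → W}
    (hv : A.Rep x fun i => (v i : k)) (hw : A.Rep x fun i => (w i : k)) (uv : Uni v) (uw : Uni w) :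
    ∃ c : W, IsUnit c ∧ w = c • v := by
  obtain ⟨c, -, e⟩ := A.ax.rep_uniq hv hw
  exact PB2_scal' uv uw (congrFun e)

theorem PB2_rep_smul {R : Type u} [CommRing R] (r : R →+* T) {s : A.Str T} {y : A.Pt s}
    {v : A.σ → R} {c : R} (h : A.Rep y (r ∘ v)) (hc : IsUnit c) : A.Rep y (r ∘ (c • v)) := by
  convert A.ax.rep_smul h (hc.map r) using 1
  exact funext fun i => map_mul r _ _

theorem PB2_red_rep {W : ValuationSubring k} {r : W →+* T} {s : A.Str k} {s' : A.Str T}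
    {x : A.Pt s} {y : A.Pt s'} (h : Red W r x y) {v : A.σ → W} (hv : A.Rep x fun i => (v i : k))
    (uv : Uni v) : A.Rep y (r ∘ v) := by
  obtain ⟨w, hw, uw, hy⟩ := h
  obtain ⟨c, hc, rfl⟩ := PB2_scal hw hv uw uv
  exact PB2_rep_smul r hy hc

theorem PB2_red_one {W : ValuationSubring k} {r : W →+* T} {s : A.Str k} {s' : A.Str T}
    {x : A.Pt s} {y : A.Pt s'} (h : Red W r x y) :
    ∃ (v : A.σ → W) (i : A.σ), A.Rep x (fun i => (v i : k)) ∧ v i = 1 ∧ A.Rep y (r ∘ v) := by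
  obtain ⟨w, hw, ⟨i, hi⟩, hy⟩ := h
  obtain ⟨b, hb⟩ := hi.exists_left_inv
  have ub : IsUnit b := IsUnit.of_mul_eq_one _ hb
  exact ⟨b • w, i, PB2_smul hw ub, hb, PB2_rep_smul r hy ub⟩

theorem map_val_bij (W : ValuationSubring k) {sW : A.Str W} {s : A.Str k}
    (h : A.push W.subtype sW = s) : Function.Bijective (A.map W.subtype h) := by
  refine ⟨map_inj Subtype.val_injective h, fun y => ?_⟩
  obtain ⟨v, hv, uv⟩ := PB2_lift W y
  obtain ⟨x, -, hx⟩ := exists_map_eq (φ := W.subtype) Subtype.val_injective h uv hv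
  exact ⟨x, hx⟩

/-- Reduction along a homomorphism of a valuation ring. -/
noncomputable def redW (W : ValuationSubring k) (r : W →+* T) {sW : A.Str W} {s : A.Str k}
    {s' : A.Str T} (h : A.push W.subtype sW = s) (h' : A.push r sW = s') : A.Pt s →+ A.Pt s' :=
  (A.map r h').comp (AddEquiv.ofBijective _ (map_val_bij W h)).symm.toAddMonoidHom

theorem redW_map (W : ValuationSubring k) (r : W →+* T) {sW : A.Str W} {s : A.Str k}
    {s' : A.Str T} (h : A.push W.subtype sW = s) (h' : A.push r sW = s') (x : A.Pt sW) :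
    redW W r h h' (A.map W.subtype h x) = A.map r h' x :=
  congrArg (A.map r h') ((AddEquiv.ofBijective _ (map_val_bij W h)).symm_apply_apply x)

theorem redW_eq_iff (W : ValuationSubring k) (r : W →+* T) {sW : A.Str W} {s : A.Str k}
    {s' : A.Str T} (h : A.push W.subtype sW = s) (h' : A.push r sW = s') {x : A.Pt s}
    {y : A.Pt s'} : redW W r h h' x = y ↔ Red W r x y := by
  obtain ⟨x, rfl⟩ := (map_val_bij W h).2 x
  obtain ⟨v, hv⟩ := A.ax.exists_rep x
  rw [redW_map]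
  constructor
  · rintro rfl
    exact ⟨v, rep_map W.subtype h hv, A.ax.rep_uni hv, rep_map r h' hv⟩
  · exact fun H => map_eq_of_rep r h' hv
      (PB2_red_rep H (rep_map W.subtype h hv) (A.ax.rep_uni hv))

theorem Red.uniq {W : ValuationSubring k} {r : W →+* T} {s s₁ : A.Str k} {s' : A.Str T}
    {x : A.Pt s} {x₁ : A.Pt s₁} {y y' : A.Pt s'} {v : A.σ → k} (hx : A.Rep x v) (hx₁ : A.Rep x₁ v)
    (h : Red W r x y) (h' : Red W r x₁ y') : y = y' := by
  obtain ⟨w, hw, uw, hy⟩ := h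
  obtain ⟨c, hc, e⟩ := A.ax.rep_uniq hx hw
  exact A.ax.rep_inj hy (PB2_red_rep h' (e ▸ A.ax.rep_smul hx₁ hc) uw)

theorem Red.ratl {W : ValuationSubring k} {r : W →+* k'} {s : A.Str k} {s' : A.Str k'}
    {x : A.Pt s} {y : A.Pt s'} (h : Red W r x y) {E : Subfield k} {E' : Subfield k'}
    (hE : ∀ z : W, (z : k) ∈ E → r z ∈ E') (hx : Rat E x) : Rat E' y := by
  obtain ⟨v, i, hv, hi, hy⟩ := PB2_red_one h
  exact rat_iff.2 ⟨_, hy, fun l => hE _ ((rat_iff_of_rep hv (congrArg Subtype.val hi)).1 hx l)⟩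

theorem Red.rk_le {W : ValuationSubring k} {r : W →+* k'} {s : A.Str k} {s' : A.Str k'}
    {x : A.Pt s} {y : A.Pt s'} (h : Red W r x y) {E : Subfield k} {E' : Subfield k'}
    (hE : ∀ z : W, (z : k) ∈ E → r z ∈ E') (h0 : ∀ z : W, r z = 0 ↔ W.valuation (z : k) < 1) :
    rk E' (rat y) ≤ rk E (rat x) := by
  obtain ⟨v, i, hv, hi, hy⟩ := PB2_red_one h
  have h1 : Rat (adj E' (r '' Set.range v)) y :=
    rat_iff.2 ⟨_, hy, fun l => subset_adj _ _ ⟨_, ⟨l, rfl⟩, rfl⟩⟩
  refine ((rk_mono h1).trans_eq rk_adj).trans ((rk_residue W r hE h0 _).trans (rk_mono ?_))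
  rintro _ ⟨_, ⟨l, rfl⟩, rfl⟩
  exact ⟨_, l, i, hv, by simp [hi]⟩

/-- A point whose ratios are preserved by the place. -/
theorem red_of_rat {W : ValuationSubring k} {r : W →+* T} {s : A.Str k} {s' : A.Str T}
    {E : Type u} [Field E] (i : E →+* k) (i' : E →+* T)
    (hi : ∀ z, ∃ h : i z ∈ W, r ⟨i z, h⟩ = i' z) {s₀ : A.Str E} (h : A.push i s₀ = s)
    (h' : A.push i' s₀ = s') (x : A.Pt s₀) : Red W r (A.map i h x) (A.map i' h' x) := by
  obtain ⟨v, hv⟩ := A.ax.exists_rep x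
  let ρ : E →+* W := i.codRestrict W.toSubring fun z => (hi z).1
  refine ⟨ρ ∘ v, rep_map i h hv, PB2_uni_map (A.ax.rep_uni hv) ρ, ?_⟩
  convert rep_map i' h' hv using 1
  exact funext fun l => (hi (v l)).2

theorem PB2_mem {W : ValuationSubring k} {a b : W} :
    W.valuation ((a : k) - b) < 1 ↔ a - b ∈ IsLocalRing.maximalIdeal W :=
  (W.valuation_lt_one_iff (a - b)).symm

theorem PB2_uni_cong {W : ValuationSubring k} {σ : Type} {v w : σ → W} (uv : Uni v)
    (h : ∀ i, W.valuation ((v i : k) - w i) < 1) : Uni w :=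
  uv.imp fun i hi => prod2_unit (IsLocalRing.maximalIdeal.isMaximal W).ne_top hi (PB2_mem.1 (h i))

theorem congW_iff {W : ValuationSubring k} {r : W →+* k'}
    (h0 : ∀ z : W, r z = 0 ↔ W.valuation (z : k) < 1) {s s' : A.Str k} {t : A.Str k'}
    {x : A.Pt s} {y : A.Pt s'} {z : A.Pt t} (hx : Red W r x z) : CongW W x y ↔ Red W r y z := by
  have h1 : ∀ a b : W, W.valuation ((a : k) - b) < 1 ↔ r a = r b := fun a b => by
    rw [← sub_eq_zero, ← map_sub, h0]; rfl
  constructor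
  · rintro ⟨v, w, hv, hw, uv, e⟩
    refine ⟨w, hw, PB2_uni_cong uv e, ?_⟩
    convert PB2_red_rep hx hv uv using 1
    exact funext fun i => ((h1 _ _).1 (e i)).symm
  · rintro ⟨w, hw, -, hz⟩
    obtain ⟨v, i, hv, hi, hz'⟩ := PB2_red_one hx
    obtain ⟨c, hc, e⟩ := A.ax.rep_uniq hz' hz
    have e1 : r (w i) = c := by simpa [hi] using congrFun e i
    have ui : IsUnit (w i) := by
      by_contra hn
      exact hc.ne_zero (e1 ▸ (h0 _).2 ((W.valuation_lt_one_iff _).1 hn))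
    refine ⟨w i • v, w, PB2_smul hv ui, hw, PB2_uni ⟨i, hi ▸ isUnit_one⟩ ui,
      fun l => (h1 _ _).2 ?_⟩
    rw [Pi.smul_apply, smul_eq_mul, map_mul, e1]
    exact (congrFun e l).symm

theorem CongW.refl (W : ValuationSubring k) {s : A.Str k} (x : A.Pt s) : CongW W x x := by
  obtain ⟨v, hv, uv⟩ := PB2_lift W x
  exact ⟨v, v, hv, hv, uv, fun i => by simp⟩

theorem CongW.symm {W : ValuationSubring k} {s s' : A.Str k} {x : A.Pt s} {y : A.Pt s'}
    (h : CongW W x y) : CongW W y x := by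
  obtain ⟨v, w, hv, hw, uv, e⟩ := h
  exact ⟨w, v, hw, hv, PB2_uni_cong uv e, fun i => by rw [Valuation.map_sub_swap]; exact e i⟩

theorem CongW.trans {W : ValuationSubring k} {s s' s'' : A.Str k} {x : A.Pt s} {y : A.Pt s'}
    {z : A.Pt s''} (h : CongW W x y) (h' : CongW W y z) : CongW W x z := by
  obtain ⟨v, w, hv, hw, uv, e⟩ := h
  obtain ⟨w', u, hw', hu, uw', e'⟩ := h'
  obtain ⟨c, hc, rfl⟩ := PB2_scal hw hw' (PB2_uni_cong uv e) uw'
  refine ⟨c • v, u, PB2_smul hv hc, hu, PB2_uni uv hc, fun i => PB2_mem.2 ?_⟩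
  have e1 : (c • v) i - u i = c * (v i - w i) + ((c • w) i - u i) := by
    simp only [Pi.smul_apply, smul_eq_mul]; ring
  rw [e1]
  exact add_mem (Ideal.mul_mem_left _ _ (PB2_mem.1 (e i))) (PB2_mem.1 (e' i))

theorem PB2_cong {W : ValuationSubring k} {t t' : A.Str W} {s s' : A.Str k}
    (h : A.push W.subtype t = s) (h' : A.push W.subtype t' = s') {a : A.Pt t} {b : A.Pt t'} :
    CongW W (A.map W.subtype h a) (A.map W.subtype h' b) ↔
      Cong (IsLocalRing.maximalIdeal W) a b := by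
  constructor
  · rintro ⟨v, w, hv, hw, uv, e⟩
    obtain ⟨a', ha, e1⟩ := exists_map_eq (φ := W.subtype) Subtype.val_injective h uv hv
    obtain ⟨b', hb, e2⟩ := exists_map_eq (φ := W.subtype) Subtype.val_injective h'
      (PB2_uni_cong uv e) hw
    rw [(map_val_bij W h).1 e1] at ha
    rw [(map_val_bij W h').1 e2] at hb
    exact ⟨v, w, ha, hb, fun i => PB2_mem.1 (e i)⟩
  · rintro ⟨v, w, hv, hw, e⟩
    exact ⟨v, w, rep_map W.subtype h hv, rep_map W.subtype h' hw, A.ax.rep_uni hv,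
      fun i => PB2_mem.2 (e i)⟩

theorem CongW.add {W : ValuationSubring k} {s s' : A.Str k} (hs : StrW W s s') {x x' : A.Pt s}
    {y y' : A.Pt s'} (h : CongW W x y) (h' : CongW W x' y') : CongW W (x + x') (y + y') := by
  obtain ⟨t, t', e, e', hs⟩ := hs
  obtain ⟨x, rfl⟩ := (map_val_bij W e).2 x
  obtain ⟨x', rfl⟩ := (map_val_bij W e).2 x'
  obtain ⟨y, rfl⟩ := (map_val_bij W e').2 y
  obtain ⟨y', rfl⟩ := (map_val_bij W e').2 y'
  rw [← map_add, ← map_add]
  rw [PB2_cong] at h h' ⊢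
  exact Cong.add hs h h'

theorem CongW.neg {W : ValuationSubring k} {s s' : A.Str k} (hs : StrW W s s') {x : A.Pt s}
    {y : A.Pt s'} (h : CongW W x y) : CongW W (-x) (-y) := by
  obtain ⟨t, t', e, e', hs⟩ := hs
  obtain ⟨x, rfl⟩ := (map_val_bij W e).2 x
  obtain ⟨y, rfl⟩ := (map_val_bij W e').2 y
  rw [← map_neg, ← map_neg]
  rw [PB2_cong] at h ⊢
  exact Cong.neg hs h

theorem congW_zero {W : ValuationSubring k} {s s' : A.Str k} (hs : StrW W s s') :
    CongW W (0 : A.Pt s) (0 : A.Pt s') := by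
  obtain ⟨t, t', e, e', hs⟩ := hs
  rw [← map_zero (A.map W.subtype e), ← map_zero (A.map W.subtype e'), PB2_cong]
  exact cong_zero hs

/-- The map of valuation rings. -/
def PB2_ρ (j : k →+* k') (W : ValuationSubring k') : W.comap j →+* W :=
  (j.comp (W.comap j).subtype).codRestrict W.toSubring fun z => z.2

theorem PB2_lt (j : k →+* k') (W : ValuationSubring k') (z : k) :
    (W.comap j).valuation z < 1 ↔ W.valuation (j z) < 1 :=
  (LD2c_isEquiv j W).lt_one_iff_lt_one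

instance PB2_loc (j : k →+* k') (W : ValuationSubring k') : IsLocalHom (PB2_ρ j W) where
  map_nonunit a h := by
    by_contra hn
    exact (W.valuation_lt_one_iff (PB2_ρ j W a)).2
      ((PB2_lt j W a).1 (((W.comap j).valuation_lt_one_iff a).1 hn)) h

theorem PB2_desc (j : k →+* k') (W : ValuationSubring k') {s : A.Str k} {t : A.Str k'}
    (h : A.push j s = t) {x : A.Pt s} {v : A.σ → W} {i : A.σ}
    (hv : A.Rep (A.map j h x) fun l => (v l : k')) (hi : v i = 1) :
    ∃ v₁ : A.σ → W.comap j, A.Rep x (fun l => (v₁ l : k)) ∧ ∀ l, j (v₁ l) = v l := by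
  obtain ⟨w, hw⟩ := A.ax.exists_rep x
  obtain ⟨c, -, e⟩ := A.ax.rep_uniq (rep_map j h hw) hv
  have e0 : ∀ l, (v l : k') = c * j (w l) := congrFun e
  have e1 : c * j (w i) = 1 := by rw [← e0, hi]; rfl
  have w0 : w i ≠ 0 := fun h0 => by rw [h0, map_zero, mul_zero] at e1; exact zero_ne_one e1
  have e2 : ∀ l, j ((w i)⁻¹ * w l) = v l := fun l => by
    rw [map_mul, map_inv₀, e0, eq_inv_of_mul_eq_one_left e1]
  exact ⟨fun l => ⟨(w i)⁻¹ * w l, by rw [ValuationSubring.mem_comap, e2]; exact (v l).2⟩,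
    A.ax.rep_smul hw (inv_ne_zero w0).isUnit, e2⟩

theorem congW_map_iff (j : k →+* k') (W : ValuationSubring k') {s s' : A.Str k} {t t' : A.Str k'}
    (h : A.push j s = t) (h' : A.push j s' = t') {x : A.Pt s} {y : A.Pt s'} :
    CongW W (A.map j h x) (A.map j h' y) ↔ CongW (W.comap j) x y := by
  constructor
  · rintro ⟨v, w, hv, hw, ⟨i, hi⟩, e⟩
    have hi' : IsUnit (w i) :=
      prod2_unit (IsLocalRing.maximalIdeal.isMaximal W).ne_top hi (PB2_mem.1 (e i))
    obtain ⟨b, hb⟩ := hi.exists_left_inv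
    obtain ⟨c, hc⟩ := hi'.exists_left_inv
    obtain ⟨v₁, h1, e1⟩ := PB2_desc j W h (i := i) (PB2_smul hv (IsUnit.of_mul_eq_one _ hb)) hb
    obtain ⟨w₁, h2, e2⟩ := PB2_desc j W h' (i := i) (PB2_smul hw (IsUnit.of_mul_eq_one _ hc)) hc
    refine ⟨v₁, w₁, h1, h2, ⟨i, ?_⟩, fun l => ?_⟩
    · have e3 : v₁ i = 1 := Subtype.ext (j.injective ((e1 i).trans
        ((congrArg Subtype.val hb).trans (map_one j).symm)))
      exact e3 ▸ isUnit_one
    · rw [PB2_lt, map_sub, e1, e2, PB2_mem]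
      have e3 : (b • v) l - (c • w) l = b * (v l - w l) - b * c * w l * (v i - w i) := by
        simp only [Pi.smul_apply, smul_eq_mul]
        linear_combination (c * w l) * hb - (b * w l) * hc
      rw [e3]
      exact sub_mem (Ideal.mul_mem_left _ _ (PB2_mem.1 (e l)))
        (Ideal.mul_mem_left _ _ (PB2_mem.1 (e i)))
  · rintro ⟨v, w, hv, hw, uv, e⟩
    refine ⟨PB2_ρ j W ∘ v, PB2_ρ j W ∘ w, rep_map j h hv, rep_map j h' hw, PB2_uni_map uv _,
      fun i => ?_⟩
    have := (PB2_lt j W _).1 (e i)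
    rwa [map_sub] at this

theorem StrW.map (j : k →+* k') (W : ValuationSubring k') {s s' : A.Str k} {t t' : A.Str k'}
    (h : A.push j s = t) (h' : A.push j s' = t') (hs : StrW (W.comap j) s s') :
    StrW W t t' := by
  obtain ⟨a, a', e, e', hs⟩ := hs
  have e1 : W.subtype.comp (PB2_ρ j W) = j.comp (W.comap j).subtype := rfl
  refine ⟨A.push (PB2_ρ j W) a, A.push (PB2_ρ j W) a', ?_, ?_, ?_⟩
  · rw [A.ax.push_comp, e1, ← A.ax.push_comp, e, h]
  · rw [A.ax.push_comp, e1, ← A.ax.push_comp, e', h']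
  · rw [A.ax.push_comp, A.ax.push_comp, ← IsLocalRing.ResidueField.map_comp_residue,
      ← A.ax.push_comp, ← A.ax.push_comp, hs]

end PG

namespace Place

variable {A B : PG.{u}} {k T T' : Type u} [Field k] [Field T] [Field T'] {j : k →+* T}
  {j' : k →+* T'} (P : Place j j') {s : A.Str k} {s₁ : A.Str T} {s₂ : A.Str T'}

theorem push₁ (h : A.push j s = s₁) : A.push P.W.subtype (A.push P.jW s) = s₁ :=
  (A.ax.push_comp _ _ s).trans h

theorem push₂ (h : A.push j' s = s₂) : A.push P.r (A.push P.jW s) = s₂ := by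
  rw [A.ax.push_comp, show P.r.comp P.jW = j' from RingHom.ext P.r_j, h]

/-- Reduction along a place. -/
noncomputable def red (h : A.push j s = s₁) (h' : A.push j' s = s₂) : A.Pt s₁ →+ A.Pt s₂ :=
  PG.redW P.W P.r (P.push₁ h) (P.push₂ h')

theorem red_eq_iff (h : A.push j s = s₁) (h' : A.push j' s = s₂) {x : A.Pt s₁} {y : A.Pt s₂} :
    P.red h h' x = y ↔ PG.Red P.W P.r x y := PG.redW_eq_iff _ _ _ _

theorem red_map (h : A.push j s = s₁) (h' : A.push j' s = s₂) (x : A.Pt s) :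
    P.red h h' (A.map j h x) = A.map j' h' x :=
  (P.red_eq_iff h h').2 (PG.red_of_rat j j' (fun c => ⟨P.mem c, P.r_j c⟩) h h' x)

theorem red_prod {t : B.Str k} {t₁ : B.Str T} {t₂ : B.Str T'}
    (h : (A.prod B).push j (s, t) = (s₁, t₁)) (h' : (A.prod B).push j' (s, t) = (s₂, t₂))
    (z : (A.prod B).Pt (s₁, t₁)) :
    P.red (A := A.prod B) h h' z = (P.red (congrArg Prod.fst h) (congrArg Prod.fst h') z.1,
      P.red (congrArg Prod.snd h) (congrArg Prod.snd h') z.2) :=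
  (P.red_eq_iff (A := A.prod B) h h').2 ((PG.prod_red _ _ _ _).2
    ⟨(P.red_eq_iff _ _).1 rfl, (P.red_eq_iff _ _).1 rfl⟩)

theorem red_ofHom (ψ : T →+* T') (e : ∀ c, ψ (j c) = j' c) (h : A.push j s = s₁)
    (h' : A.push j' s = s₂) (h'' : A.push ψ s₁ = s₂) (x : A.Pt s₁) :
    (ofHom ψ e).red h h' x = A.map ψ h'' x := by
  have := PG.red_of_rat (W := (ofHom ψ e).W) (r := (ofHom ψ e).r) (RingHom.id T) ψ
    (fun z => ⟨trivial, rfl⟩) (A.ax.push_id s₁) h'' x
  rw [PG.map_id' (fun _ => rfl)] at this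
  exact ((ofHom ψ e).red_eq_iff h h').2 this

/-- A place over `k` is a place over every subfield. -/
def restrict {k₀ : Type u} [Field k₀] (i : k₀ →+* k) : Place (j.comp i) (j'.comp i) where
  W := P.W
  mem c := P.mem (i c)
  r := P.r
  r_j c := P.r_j (i c)

theorem red_restrict {k₀ : Type u} [Field k₀] (i : k₀ →+* k) {s₀ : A.Str k₀}
    (h₀ : A.push i s₀ = s) (h : A.push j s = s₁) (h' : A.push j' s = s₂) (x : A.Pt s₁) :
    (P.restrict i).red (PG.push_trans h₀ h) (PG.push_trans h₀ h') x = P.red h h' x :=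
  ((P.restrict i).red_eq_iff _ _).2 ((P.red_eq_iff h h').1 rfl)

end Place

end MLF
end

-- merged part: Pool.Agent.Work.MP_29d410_ag.Geo1
section
/-!
# The Zariski topology on the points over a field; loci

Plan.  `cl X = ext id s X`.  The closed sets are those of a topology (`zar`): a product of forms is
a form, and if `x ∉ Y`, `x ∉ Z` take forms `g`, `h` with `g x ≠ 0`, `h x ≠ 0`.  The topology is
Noetherian since `X ↦ span (idl X)` is strictly antitone on closed sets (a form in the span of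
`idl X` vanishes on `X`); use `TopologicalSpace.NoetherianSpace`.
Models: `Pool/Agent/Work/MP_ffcd14_ag/Cyc/Noeth.lean`, `Gen.lean`.
`mem_ext_loc` (`k` algebraically closed, `T` a local domain): let `g` be a form with `g y ≠ 0`,
`v` a coordinate vector of `y`; a `k`-point of `k[v, 1 / g v, 1 / v i]` (`exists_point` in the
fraction field of `T`) gives a point of the locus with `g ≠ 0`.
`exists_gen`: the span `𝔭` of `idl X` is a homogeneous prime, take the fraction field of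
`k[X] / 𝔭`.
-/

open MvPolynomial

namespace MLF

universe u

namespace PG

variable {A B : PG.{u}} {T T' : Type u} [CommRing T] [IsLocalRing T] [CommRing T'] [IsLocalRing T']
  {k : Type u} [Field k] {s : A.Str k} {X Y Z : Set (A.Pt s)}

/-- Zariski closure. -/
def cl (X : Set (A.Pt s)) : Set (A.Pt s) := ext (RingHom.id k) s X

theorem van_comp_Geo1 {k k' : Type u} [CommRing k] [CommRing k'] (i : k →+* k') (j : k' →+* T)
    (g : MvPolynomial A.σ k) {s' : A.Str T} (y : A.Pt s') :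
    van j (MvPolynomial.map i g) y ↔ van (j.comp i) g y :=
  forall₂_congr fun v _ => by rw [eval₂_map]

theorem van_id_map_Geo1 {k : Type u} [CommRing k] (j : k →+* T) (g : MvPolynomial A.σ k)
    {s' : A.Str T} (y : A.Pt s') : van (RingHom.id T) (MvPolynomial.map j g) y ↔ van j g y :=
  van_comp_Geo1 j (RingHom.id T) g y

theorem van_map_Geo1 {k : Type u} [CommRing k] {j : k →+* T} (φ : T →+* T') {s' : A.Str T}
    {s'' : A.Str T'} (h : A.push φ s' = s'') {g : MvPolynomial A.σ k} {d : ℕ}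
    (hg : g.IsHomogeneous d) {y : A.Pt s'} (hy : van j g y) :
    van (φ.comp j) g (A.map φ h y) := by
  obtain ⟨v, hv⟩ := A.ax.exists_rep y
  rw [van_iff hg (rep_map φ h hv), ← eval₂_comp_left, hy v hv, map_zero]

theorem van_map_iff_Geo1 {k : Type u} [CommRing k] {j : k →+* T} {φ : T →+* T'}
    (hφ : Function.Injective φ) {s' : A.Str T} {s'' : A.Str T'} (h : A.push φ s' = s'')
    {g : MvPolynomial A.σ k} {d : ℕ} (hg : g.IsHomogeneous d) {y : A.Pt s'} :
    van (φ.comp j) g (A.map φ h y) ↔ van j g y := by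
  obtain ⟨v, hv⟩ := A.ax.exists_rep y
  rw [van_iff hg (rep_map φ h hv), ← eval₂_comp_left, map_eq_zero_iff _ hφ, van_iff hg hv]

theorem ext_empty_Geo1 (j : k →+* T) (s' : A.Str T) : ext j s' (∅ : Set (A.Pt s)) = ∅ := by
  refine Set.eq_empty_of_forall_notMem fun y hy => ?_
  obtain ⟨v, hv⟩ := A.ax.exists_rep y
  have := hy 1 ⟨⟨0, isHomogeneous_one _ _⟩, fun _ hx => hx.elim⟩ v hv
  simp at this

theorem ext_union_Geo1 [IsDomain T] {j : k →+* T} {s' : A.Str T} :
    ext j s' (X ∪ Y) ⊆ ext j s' X ∪ ext j s' Y := by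
  intro y hy
  by_contra h0
  simp only [ext, Set.mem_union, Set.mem_ofPred_eq, not_or, not_forall] at h0
  obtain ⟨⟨g, hg, h1⟩, ⟨g', hg', h2⟩⟩ := h0
  obtain ⟨d, hd⟩ := hg.1
  obtain ⟨d', hd'⟩ := hg'.1
  obtain ⟨v, hv⟩ := A.ax.exists_rep y
  rw [van_iff hd hv] at h1
  rw [van_iff hd' hv] at h2
  have h3 := hy (g * g') ⟨⟨_, hd.mul hd'⟩, fun x hx w hw => by
    rw [eval₂_mul]
    rcases hx with hx | hx
    · rw [hg.2 x hx w hw, zero_mul]
    · rw [hg'.2 x hx w hw, mul_zero]⟩ v hv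
  rw [eval₂_mul] at h3
  exact mul_ne_zero h1 h2 h3

theorem ext_singleton_Geo1 {j : k →+* T} {s' : A.Str T} {x : A.Pt s} {y z : A.Pt s'}
    {v : A.σ → k} {i : A.σ} (hv : A.Rep x v) (hi : v i = 1) (hz : A.Rep z (j ∘ v))
    (hy : y ∈ ext j s' ({x} : Set (A.Pt s))) : y = z := by
  obtain ⟨w, hw⟩ := A.ax.exists_rep y
  have h1 : ∀ a, w a = w i * j (v a) := by
    intro a
    have hh : (MvPolynomial.X a - C (v a) * MvPolynomial.X i : MvPolynomial A.σ k).IsHomogeneous 1 :=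
      (isHomogeneous_X k a).sub ((isHomogeneous_X k i).C_mul (v a))
    have := hy _ ⟨⟨1, hh⟩, fun x' hx' => by
      rw [Set.mem_singleton_iff.1 hx', van_iff hh hv]
      simp [hi]⟩ w hw
    simp only [eval₂_sub, eval₂_mul, eval₂_C, eval₂_X] at this
    rw [sub_eq_zero.1 this, mul_comm]
  obtain ⟨a, ha⟩ := A.ax.rep_uni hw
  rw [h1 a] at ha
  have h2 := A.ax.rep_smul hz (isUnit_of_mul_isUnit_left ha)
  have h3 : w i • (j ∘ v) = w := funext fun a => (h1 a).symm
  rw [h3] at h2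
  exact A.ax.rep_inj hw h2

theorem van_of_span_Geo1 {g : MvPolynomial A.σ k} (hg : g ∈ Ideal.span (idl X)) {x : A.Pt s}
    (hx : x ∈ X) : van (RingHom.id k) g x := by
  intro v hv
  have : Ideal.span (idl X) ≤ RingHom.ker (eval₂Hom (RingHom.id k) v) :=
    Ideal.span_le.2 fun f hf => hf.2 x hx v hv
  exact this hg

theorem subset_cl (X : Set (A.Pt s)) : X ⊆ cl X := fun x hx _ hg => hg.2 x hx

theorem cl_cl (X : Set (A.Pt s)) : Cl (cl X) := fun _ hy g hg => hy g ⟨hg.1, fun _ hx => hx g hg⟩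

theorem cl_min (h : X ⊆ Y) (hY : Cl Y) : cl X ⊆ Y := fun _ hy => hY fun g hg => hy g ⟨hg.1, fun x hx => hg.2 x (h hx)⟩

theorem Cl.cl_eq (h : Cl X) : cl X = X := Set.Subset.antisymm h (subset_cl X)

theorem cl_mono (h : X ⊆ Y) : cl X ⊆ cl Y := cl_min (h.trans (subset_cl Y)) (cl_cl Y)

theorem idl_cl (X : Set (A.Pt s)) : idl (cl X) = idl X :=
  Set.ext fun g => ⟨fun hg => ⟨hg.1, fun x hx => hg.2 x (subset_cl X hx)⟩,
    fun hg => ⟨hg.1, fun _ hx => hx g hg⟩⟩

theorem ext_cl (j : k →+* T) (s' : A.Str T) (X : Set (A.Pt s)) : ext j s' (cl X) = ext j s' X := by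
  rw [ext, ext, idl_cl]

theorem ext_mono (j : k →+* T) (s' : A.Str T) (h : X ⊆ Y) : ext j s' X ⊆ ext j s' Y :=
  fun _ hy g hg => hy g ⟨hg.1, fun x hx => hg.2 x (h hx)⟩

theorem cl_univ : Cl (Set.univ : Set (A.Pt s)) := Set.subset_univ _

theorem cl_empty : Cl (∅ : Set (A.Pt s)) := (ext_empty_Geo1 _ _).subset

theorem Cl.inter (h : Cl X) (h' : Cl Y) : Cl (X ∩ Y) :=
  fun _ hy => ⟨h (ext_mono _ _ Set.inter_subset_left hy), h' (ext_mono _ _ Set.inter_subset_right hy)⟩

theorem Cl.union (h : Cl X) (h' : Cl Y) : Cl (X ∪ Y) :=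
  fun _ hy => (ext_union_Geo1 hy).imp (fun hz => h hz) fun hz => h' hz

theorem cl_iInter {ι : Sort*} {X : ι → Set (A.Pt s)} (h : ∀ i, Cl (X i)) : Cl (⋂ i, X i) :=
  fun _ hy => Set.mem_iInter.2 fun i => h i (ext_mono _ _ (Set.iInter_subset X i) hy)

theorem cl_biUnion {ι : Type*} {I : Set ι} (hI : I.Finite) {X : ι → Set (A.Pt s)}
    (h : ∀ i ∈ I, Cl (X i)) : Cl (⋃ i ∈ I, X i) := by
  induction I, hI using Set.Finite.induction_on with
  | empty => simpa using cl_empty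
  | insert _ _ ih =>
    rw [Set.biUnion_insert]
    exact (h _ (Set.mem_insert _ _)).union (ih fun i hi => h i (Set.mem_insert_of_mem _ hi))

theorem cl_singleton (x : A.Pt s) : Cl ({x} : Set (A.Pt s)) := by
  intro y hy
  obtain ⟨v, i, hv, hi⟩ := exists_rep_one x
  exact ext_singleton_Geo1 (j := RingHom.id k) hv hi hv hy

theorem cl_of_finite (h : X.Finite) : Cl X := by
  rw [← Set.biUnion_of_singleton X]
  exact cl_biUnion h fun x _ => cl_singleton x

theorem cl_van {g : MvPolynomial A.σ k} {d : ℕ} (hg : g.IsHomogeneous d) :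
    Cl {x : A.Pt s | van (RingHom.id k) g x} := fun _ hy => hy g ⟨⟨d, hg⟩, fun _ hx => hx⟩

theorem cl_loc (j : k →+* T) {s' : A.Str T} (y : A.Pt s') : Cl (loc j s y) :=
  fun _ hz g d hg hy => hz g ⟨⟨d, hg⟩, fun _ hx => hx g d hg hy⟩

theorem cl_ext {k' : Type u} [Field k'] (j : k →+* k') (s' : A.Str k') (X : Set (A.Pt s)) :
    Cl (ext j s' X) := by
  intro y hy g hg
  obtain ⟨d, hd⟩ := hg.1
  exact (van_id_map_Geo1 j g y).1
    (hy _ ⟨⟨d, hd.map j⟩, fun x hx => (van_id_map_Geo1 j g x).2 (hx g hg)⟩)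

/-- The Zariski topology. -/
@[reducible] def zar (s : A.Str k) : TopologicalSpace (A.Pt s) :=
  .ofClosed {X | Cl X} cl_empty
    (fun S hS => by rw [Set.sInter_eq_iInter]; exact cl_iInter fun i => hS i.2)
    fun _ h _ h' => Cl.union h h'

theorem isClosed_zar : @IsClosed _ (zar s) X ↔ Cl X := by
  let _ := zar s
  rw [← isOpen_compl_iff]
  change Cl Xᶜᶜ ↔ _
  rw [compl_compl]

theorem closure_zar : @closure _ (zar s) X = cl X := by
  let _ := zar s
  exact Set.Subset.antisymm (closure_minimal (subset_cl X) (isClosed_zar.2 (cl_cl X)))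
    (cl_min subset_closure (isClosed_zar.1 isClosed_closure))

theorem irr_zar : @IsIrreducible _ (zar s) X ↔ Irr X := by
  let _ := zar s
  refine and_congr Iff.rfl ?_
  rw [isPreirreducible_iff_isClosed_union_isClosed]
  simp only [isClosed_zar]

theorem noeth_zar (s : A.Str k) : @TopologicalSpace.NoetherianSpace _ (zar s) := by
  let _ := zar s
  have h : StrictAnti fun C : TopologicalSpace.Closeds (A.Pt s) =>
      Ideal.span (idl (C : Set (A.Pt s))) := by
    intro C D hCD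
    refine lt_of_le_of_ne (Ideal.span_mono fun f hf => ⟨hf.1, fun x hx => hf.2 x (hCD.le hx)⟩)
      fun h => hCD.not_ge ?_
    intro x hx
    refine isClosed_zar.1 C.isClosed fun g hg => van_of_span_Geo1 ?_ hx
    have h' : Ideal.span (idl (D : Set (A.Pt s))) = Ideal.span (idl (C : Set (A.Pt s))) := h
    rw [h']
    exact Ideal.subset_span hg
  exact ((TopologicalSpace.noetherianSpace_TFAE (A.Pt s)).out 1 0).mp h.wellFoundedLT

theorem wf_cl (s : A.Str k) : WellFounded fun X Y : {X : Set (A.Pt s) // Cl X} => X.1 ⊂ Y.1 := by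
  let _ := zar s
  have := noeth_zar s
  have hw : WellFoundedLT (TopologicalSpace.Closeds (A.Pt s)) := inferInstance
  exact Subrelation.wf (fun h => h) (InvImage.wf
    (fun C : {X : Set (A.Pt s) // Cl X} =>
      (⟨C.1, isClosed_zar.2 C.2⟩ : TopologicalSpace.Closeds (A.Pt s))) hw.wf)

/-- Finitely many forms define a closed set. -/
theorem exists_finite_idl (X : Set (A.Pt s)) : ∃ G : Set (MvPolynomial A.σ k), G.Finite ∧
    G ⊆ idl X ∧ idl X ⊆ Ideal.span G := by
  obtain ⟨t, ht, hsp⟩ := (Submodule.fg_span_iff_fg_span_finset_subset (R := MvPolynomial A.σ k)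
    (idl X)).mp (IsNoetherian.noetherian (Ideal.span (idl X)))
  refine ⟨t, t.finite_toSet, ht, fun g hg => ?_⟩
  have h1 : g ∈ Submodule.span (MvPolynomial A.σ k) (idl X) := Submodule.subset_span hg
  rw [hsp] at h1
  exact h1

theorem Cl.exists_comp (h : Cl X) : ∃ S : Set (Set (A.Pt s)), S.Finite ∧ (∀ Y ∈ S, Var Y) ∧
    X = ⋃₀ S := by
  let _ := zar s
  have := noeth_zar s
  obtain ⟨S, hS, hc, hi, e⟩ :=
    TopologicalSpace.NoetherianSpace.exists_finite_set_isClosed_irreducible (isClosed_zar.2 h)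
  exact ⟨S, hS, fun Y hY => ⟨isClosed_zar.1 (hc Y hY), irr_zar.1 (hi Y hY)⟩, e⟩

theorem Irr.cl (h : Irr X) : Var (cl X) :=
  ⟨cl_cl X, h.1.mono (subset_cl X), fun Y Z hY hZ hs =>
    (h.2 Y Z hY hZ ((subset_cl X).trans hs)).imp (fun e => cl_min e hY) fun e => cl_min e hZ⟩

theorem var_singleton (x : A.Pt s) : Var ({x} : Set (A.Pt s)) :=
  ⟨cl_singleton x, Set.singleton_nonempty x, fun _ _ _ _ hs =>
    (hs rfl).imp Set.singleton_subset_iff.2 Set.singleton_subset_iff.2⟩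

theorem Irr.subset_of_finite (h : Irr X) {ι : Type*} {I : Set ι} (hI : I.Finite)
    {Y : ι → Set (A.Pt s)} (hY : ∀ i ∈ I, Cl (Y i)) (hX : X ⊆ ⋃ i ∈ I, Y i) :
    ∃ i ∈ I, X ⊆ Y i := by
  induction I, hI using Set.Finite.induction_on with
  | empty =>
    obtain ⟨x, hx⟩ := h.1
    simpa using hX hx
  | @insert a I _ hI ih =>
    rw [Set.biUnion_insert] at hX
    have hY' : ∀ i ∈ I, Cl (Y i) := fun i hi => hY i (Set.mem_insert_of_mem _ hi)
    rcases h.2 _ _ (hY a (Set.mem_insert _ _)) (cl_biUnion hI hY') hX with e | e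
    · exact ⟨a, Set.mem_insert _ _, e⟩
    · obtain ⟨i, hi, e'⟩ := ih hY' e
      exact ⟨i, Set.mem_insert_of_mem _ hi, e'⟩

theorem Irr.eq_singleton (h : Irr X) (hf : X.Finite) : ∃ x, X = {x} := by
  obtain ⟨x, hx, e⟩ := h.subset_of_finite hf (Y := fun x => {x}) (fun x _ => cl_singleton x)
    (Set.biUnion_of_singleton X).symm.subset
  exact ⟨x, Set.Subset.antisymm e (Set.singleton_subset_iff.2 hx)⟩

/-- An infinite closed set contains an infinite variety. -/
theorem Cl.exists_var_infinite (h : Cl X) (hi : X.Infinite) : ∃ Y ⊆ X, Var Y ∧ Y.Infinite := by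
  obtain ⟨S, hS, hv, rfl⟩ := h.exists_comp
  by_contra h0
  refine hi (hS.sUnion fun Y hY => ?_)
  by_contra h1
  exact h0 ⟨Y, Set.subset_sUnion_of_mem hY, hv Y hY, h1⟩

theorem map_mem_ext (j : k →+* T) {s' : A.Str T} (h : A.push j s = s') {x : A.Pt s} (hx : x ∈ X) :
    A.map j h x ∈ ext j s' X := by
  intro g hg
  obtain ⟨d, hd⟩ := hg.1
  exact van_map_Geo1 j h hd (hg.2 x hx)

theorem map_mem_ext_iff (j : k →+* T) {s' : A.Str T} (h : A.push j s = s') (hX : Cl X)
    {x : A.Pt s} : A.map j h x ∈ ext j s' X ↔ x ∈ X := by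
  refine ⟨fun hx => hX fun g hg => ?_, map_mem_ext j h⟩
  obtain ⟨d, hd⟩ := hg.1
  exact (van_map_iff_Geo1 (j := RingHom.id k) j.injective h hd).1 (hx g hg)

theorem mem_ext_map {j : k →+* T} (φ : T →+* T') {s' : A.Str T} {s'' : A.Str T'}
    (h : A.push φ s' = s'') {y : A.Pt s'} (hy : y ∈ ext j s' X) :
    A.map φ h y ∈ ext (φ.comp j) s'' X := by
  intro g hg
  obtain ⟨d, hd⟩ := hg.1
  exact van_map_Geo1 φ h hd (hy g hg)

theorem mem_ext_map_iff {j : k →+* T} {φ : T →+* T'} (hφ : Function.Injective φ) {s' : A.Str T}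
    {s'' : A.Str T'} (h : A.push φ s' = s'') {y : A.Pt s'} :
    A.map φ h y ∈ ext (φ.comp j) s'' X ↔ y ∈ ext j s' X := by
  refine ⟨fun hy g hg => ?_, mem_ext_map φ h⟩
  obtain ⟨d, hd⟩ := hg.1
  exact (van_map_iff_Geo1 hφ h hd).1 (hy g hg)

theorem loc_map {j : k →+* T} {φ : T →+* T'} (hφ : Function.Injective φ) {s' : A.Str T}
    {s'' : A.Str T'} (h : A.push φ s' = s'') (y : A.Pt s') :
    loc (φ.comp j) s (A.map φ h y) = loc j s y := by
  ext x
  exact forall₃_congr fun g d hg => by rw [van_map_iff_Geo1 hφ h hg]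

theorem loc_map_subset {j : k →+* T} (φ : T →+* T') {s' : A.Str T} {s'' : A.Str T'}
    (h : A.push φ s' = s'') (y : A.Pt s') : loc (φ.comp j) s (A.map φ h y) ⊆ loc j s y :=
  fun _ hx g d hg hy => hx g d hg (van_map_Geo1 φ h hg hy)

theorem loc_map_self (j : k →+* T) {s' : A.Str T} (h : A.push j s = s') (x : A.Pt s) :
    loc j s (A.map j h x) = {x} := by
  refine (loc_map (j := RingHom.id k) j.injective h x).trans ?_
  refine Set.Subset.antisymm (fun y hy => cl_singleton x fun g hg => ?_) ?_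
  · obtain ⟨d, hd⟩ := hg.1
    exact hy g d hd (hg.2 x rfl)
  · rintro _ rfl g d _ hg
    exact hg

theorem loc_subset {j : k →+* T} {s' : A.Str T} {y : A.Pt s'} (hX : Cl X) (hy : y ∈ ext j s' X) :
    loc j s y ⊆ X := by
  intro x hx
  refine hX fun g hg => ?_
  obtain ⟨d, hd⟩ := hg.1
  exact hx g d hd (hy g hg)

/-- An automorphism which extends to `T` and fixes the point preserves its locus. -/
theorem map_mem_loc {j : k →+* T} {s' : A.Str T} {y : A.Pt s'} (τ : k ≃+* k) (τ' : T →+* T)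
    (e : ∀ c, τ' (j c) = j (τ c)) (hτ' : Function.Injective τ') (h : A.push (τ : k →+* k) s = s)
    (h' : A.push τ' s' = s') (hy : A.map τ' h' y = y) {x : A.Pt s} :
    A.map (τ : k →+* k) h x ∈ loc j s y ↔ x ∈ loc j s y := by
  have e' : τ'.comp j = j.comp (τ : k →+* k) := RingHom.ext e
  have k1 : ∀ (g : MvPolynomial A.σ k) (d : ℕ), g.IsHomogeneous d →
      (van j (MvPolynomial.map (τ : k →+* k) g) y ↔ van j g y) := by
    intro g d hg
    rw [van_comp_Geo1, ← e', ← van_map_iff_Geo1 (j := j) hτ' h' hg, hy]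
  have k2 : ∀ (g : MvPolynomial A.σ k) (d : ℕ), g.IsHomogeneous d →
      (van (RingHom.id k) (MvPolynomial.map (τ : k →+* k) g) (A.map (τ : k →+* k) h x) ↔
        van (RingHom.id k) g x) := by
    intro g d hg
    rw [van_comp_Geo1]
    exact van_map_iff_Geo1 (j := RingHom.id k) (φ := (τ : k →+* k)) τ.injective h hg
  refine ⟨fun hx g d hg hv => (k2 g d hg).1 (hx _ d (hg.map _) ((k1 g d hg).2 hv)),
    fun hx g d hg hv => ?_⟩
  have e2 : MvPolynomial.map (τ : k →+* k) (MvPolynomial.map (τ.symm : k →+* k) g) = g := by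
    rw [MvPolynomial.map_map]
    have : (τ : k →+* k).comp (τ.symm : k →+* k) = RingHom.id k := RingHom.ext τ.apply_symm_apply
    rw [this, MvPolynomial.map_id]
  have hg' := hg.map (τ.symm : k →+* k)
  rw [← e2] at hv ⊢
  exact (k2 _ d hg').2 (hx _ d hg' ((k1 _ d hg').1 hv))

section algClosed

variable [IsAlgClosed k] [IsDomain T] {j : k →+* T} {s' : A.Str T}

theorem mem_ext_loc (h : A.push j s = s') (y : A.Pt s') : y ∈ ext j s' (loc j s y) := by
  intro g hg
  obtain ⟨d, hd⟩ := hg.1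
  obtain ⟨v, i, hv, hi⟩ := exists_rep_one y
  rw [van_iff hd hv]
  by_contra h0
  let p : Ideal (MvPolynomial A.σ k) := RingHom.ker (eval₂Hom j v)
  have : p.IsPrime := RingHom.ker_isPrime _
  have h1 : g ∉ vanishingIdeal k (zeroLocus k p) := by
    rw [IsPrime.vanishingIdeal_zeroLocus]
    exact h0
  rw [mem_vanishingIdeal_iff] at h1
  push Not at h1
  obtain ⟨w, hw, hwg⟩ := h1
  have hw' : ∀ f : MvPolynomial A.σ k, eval₂ j v f = 0 → eval w f = 0 := fun f hf => hw f hf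
  have hwi : w i = 1 := by
    have := hw' (MvPolynomial.X i - 1) (by simp [hi])
    simpa [sub_eq_zero] using this
  obtain ⟨x, hx⟩ := (A.ax.rep_iff s w).2 ⟨⟨i, by simp [hwi]⟩, fun a => hw' _ (by
    have := ((A.ax.rep_iff s' v).1 ⟨y, hv⟩).2 a
    rwa [← h, A.ax.eqn_push, eval_map] at this)⟩
  have hxl : x ∈ loc j s y := fun f e hf hfy => (van_iff hf hx).2 (hw' f (hfy v hv))
  exact hwg (hg.2 x hxl w hx)

theorem loc_subset_iff (h : A.push j s = s') {y : A.Pt s'} (hX : Cl X) :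
    loc j s y ⊆ X ↔ y ∈ ext j s' X :=
  ⟨fun e => ext_mono j s' e (mem_ext_loc h y), loc_subset hX⟩

theorem var_loc (h : A.push j s = s') (y : A.Pt s') : Var (loc j s y) := by
  refine ⟨cl_loc j y, ?_, fun Y Z hY hZ e => ?_⟩
  · rw [Set.nonempty_iff_ne_empty]
    intro e
    have := mem_ext_loc h y
    rw [e, ext_empty_Geo1] at this
    exact this
  · exact (ext_union_Geo1 ((loc_subset_iff h (hY.union hZ)).1 e)).imp (loc_subset hY) (loc_subset hZ)

theorem ext_univ (h : A.push j s = s') : ext j s' (Set.univ : Set (A.Pt s)) = Set.univ :=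
  Set.eq_univ_of_forall fun y => ext_mono j s' (Set.subset_univ _) (mem_ext_loc h y)

set_option linter.unusedSectionVars false in
theorem ext_empty : ext j s' (∅ : Set (A.Pt s)) = ∅ := ext_empty_Geo1 j s'

set_option linter.unusedSectionVars false in
theorem ext_union : ext j s' (X ∪ Y) = ext j s' X ∪ ext j s' Y :=
  Set.Subset.antisymm ext_union_Geo1 (Set.union_subset (ext_mono j s' Set.subset_union_left)
    (ext_mono j s' Set.subset_union_right))

theorem ext_biUnion {ι : Type*} {I : Set ι} (hI : I.Finite) {X : ι → Set (A.Pt s)} :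
    ext j s' (⋃ i ∈ I, X i) = ⋃ i ∈ I, ext j s' (X i) := by
  induction I, hI using Set.Finite.induction_on with
  | empty => simpa using ext_empty
  | insert _ _ ih => rw [Set.biUnion_insert, Set.biUnion_insert, ext_union, ih]

theorem ext_inter (h : A.push j s = s') (hX : Cl X) (hY : Cl Y) :
    ext j s' (X ∩ Y) = ext j s' X ∩ ext j s' Y :=
  Set.Subset.antisymm (Set.subset_inter (ext_mono j s' Set.inter_subset_left)
    (ext_mono j s' Set.inter_subset_right)) fun _ hy => (loc_subset_iff h (hX.inter hY)).1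
      (Set.subset_inter (loc_subset hX hy.1) (loc_subset hY hy.2))

theorem ext_finite (h : A.push j s = s') (hX : X.Finite) : ext j s' X = A.map j h '' X := by
  refine Set.Subset.antisymm (fun y hy => ?_) ?_
  · rw [← Set.biUnion_of_singleton X, ext_biUnion hX] at hy
    obtain ⟨x, hx, hy⟩ := Set.mem_iUnion₂.1 hy
    obtain ⟨v, i, hv, hi⟩ := exists_rep_one x
    exact ⟨x, hx, (ext_singleton_Geo1 hv hi (rep_map j h hv) hy).symm⟩
  · rintro _ ⟨x, hx, rfl⟩
    exact map_mem_ext j h hx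

theorem ext_van (h : A.push j s = s') {g : MvPolynomial A.σ k} {d : ℕ} (hg : g.IsHomogeneous d) :
    ext j s' {x : A.Pt s | van (RingHom.id k) g x} = {y | van j g y} :=
  Set.Subset.antisymm (fun _ hy => hy g ⟨⟨d, hg⟩, fun _ hx => hx⟩) fun _ hy =>
    (loc_subset_iff h (cl_van hg)).1 fun _ hx => hx g d hg hy

end algClosed

attribute [local instance] MvPolynomial.gradedAlgebra in
theorem prime_idl_Geo1 (hX : Irr X) : (Ideal.span (idl X)).IsPrime := by
  have hh : (Ideal.span (idl X)).IsHomogeneous (homogeneousSubmodule A.σ k) :=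
    Ideal.homogeneous_span _ _ fun g hg => hg.1
  refine hh.isPrime_of_homogeneous_mem_or_mem ?_ ?_
  · rw [Ideal.ne_top_iff_one]
    intro h1
    obtain ⟨x, hx⟩ := hX.1
    obtain ⟨v, hv⟩ := A.ax.exists_rep x
    simpa using van_of_span_Geo1 h1 hx v hv
  · rintro f g ⟨d, hd⟩ ⟨d', hd'⟩ hfg
    have hf : f.IsHomogeneous d := hd
    have hg : g.IsHomogeneous d' := hd'
    refine (hX.2 _ _ (cl_van hf) (cl_van hg) fun x hx => ?_).imp
      (fun e => Ideal.subset_span ⟨⟨d, hf⟩, e⟩) fun e => Ideal.subset_span ⟨⟨d', hg⟩, e⟩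
    obtain ⟨v, hv⟩ := A.ax.exists_rep x
    have := van_of_span_Geo1 hfg hx v hv
    rw [eval₂_mul, mul_eq_zero] at this
    exact this.imp (van_iff hf hv).2 (van_iff hg hv).2

/-- Generic points. -/
theorem Var.exists_gen (hX : Var X) : ∃ (T : Type u) (_ : Field T) (_ : IsAlgClosed T)
    (j : k →+* T) (y : A.Pt (A.push j s)), loc j s y = X ∧ y ∈ ext j _ X := by
  have := prime_idl_Geo1 hX.2
  let p := Ideal.span (idl X)
  let Q := MvPolynomial A.σ k ⧸ p
  let L := AlgebraicClosure (FractionRing Q)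
  let φ : MvPolynomial A.σ k →+* L :=
    (algebraMap (FractionRing Q) L).comp ((algebraMap Q (FractionRing Q)).comp (Ideal.Quotient.mk p))
  have hφ : ∀ f, φ f = 0 ↔ f ∈ p := fun f => by
    simp only [φ, RingHom.comp_apply]
    rw [map_eq_zero, map_eq_zero_iff _ (IsFractionRing.injective Q _),
      Ideal.Quotient.eq_zero_iff_mem]
  let j : k →+* L := φ.comp C
  let v : A.σ → L := fun i => φ (MvPolynomial.X i)
  have hev : ∀ f, eval₂ j v f = φ f := fun f => by
    have : eval₂Hom j v = φ := MvPolynomial.ringHom_ext (fun c => by simp [j]) fun i => by simp [v]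
    exact RingHom.congr_fun this f
  obtain ⟨x₀, hx₀⟩ := hX.2.1
  obtain ⟨v₀, i₀, hv₀, hi₀⟩ := exists_rep_one x₀
  have hu : Uni v := by
    refine ⟨i₀, isUnit_iff_ne_zero.2 fun h0 => ?_⟩
    have := van_of_span_Geo1 ((hφ _).1 h0) hx₀ v₀ hv₀
    simp [hi₀] at this
  obtain ⟨y, hy⟩ := (A.ax.rep_iff (A.push j s) v).2 ⟨hu, fun a => by
    rw [A.ax.eqn_push, eval_map, hev, hφ]
    obtain ⟨d, hd⟩ := A.ax.eqn_hom a
    exact Ideal.subset_span ⟨⟨d, hd s⟩, fun x _ w hw => ((A.ax.rep_iff s w).1 ⟨x, hw⟩).2 a⟩⟩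
  have hye : y ∈ ext j _ X := by
    intro g hg
    obtain ⟨d, hd⟩ := hg.1
    rw [van_iff hd hy, hev, hφ]
    exact Ideal.subset_span hg
  refine ⟨L, inferInstance, inferInstance, j, y,
    Set.Subset.antisymm (loc_subset hX.1 hye) fun x hx g d hg hgy => ?_, hye⟩
  rw [van_iff hg hy, hev, hφ] at hgy
  exact van_of_span_Geo1 hgy hx

end PG

end MLF
end
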