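import Pool.Agent.Work.MP_29d410_ag.DM7A
import Pool.Agent.Work.MP_29d410_ag.DM6
import Pool.Agent.Work.MP_29d410_ag.Geo6
import Pool.Agent.Work.MP_29d410_ag.Big2
import Pool.Agent.Work.MP_29d410_ag.Geo1

-- merged part: Pool.Agent.Work.MP_29d410_ag.Tor1A
section
/-!
# Valuation rings of function fields of one variable; Artin-Schreier generators
-/

open Polynomial

namespace MLF

universe u

variable {C K : Type u} [Field C] [Field K] [Algebra C K]

/-- The elements lying in all valuation rings containing `C` and `x`. -/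
def Tor1_S (C : Type u) [Field C] [Algebra C K] (x : K) : Subalgebra C K where
  carrier := {z | ∀ W : ValuationSubring K, (∀ a : C, algebraMap C K a ∈ W) → x ∈ W → z ∈ W}
  mul_mem' ha hb W h hx := W.mul_mem _ _ (ha W h hx) (hb W h hx)
  add_mem' ha hb W h hx := W.add_mem _ _ (ha W h hx) (hb W h hx)
  algebraMap_mem' a _ h _ := h a

/-- Every element is algebraic over `C[x]`. -/
def Tor1_Alg (C : Type u) [Field C] [Algebra C K] (x : K) : Prop :=
  ∀ z : K, ∃ P : C[X][X], P ≠ 0 ∧ P.eval₂ (aeval x : C[X] →ₐ[C] K).toRingHom z = 0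

theorem Tor1_self (x : K) : x ∈ Tor1_S C x := fun _ _ h => h

theorem Tor1_aeval (x : K) (f : C[X]) : aeval x f ∈ Tor1_S C x := by
  have : Algebra.adjoin C {x} ≤ Tor1_S C x :=
    Algebra.adjoin_le (Set.singleton_subset_iff.2 (Tor1_self x))
  exact this (aeval_mem_adjoin_singleton C x)

theorem Tor1_mul_nu {W : ValuationSubring K} {a b : K} (ha : a ∈ W) (hb : b ∈ W.nonunits) :
    a * b ∈ W.nonunits := by
  rw [ValuationSubring.mem_nonunits_iff, map_mul]
  exact mul_lt_one_of_nonneg_of_lt_one_right ((W.valuation_le_one_iff a).2 ha) zero_le hb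

theorem Tor1_monic (W : ValuationSubring K) {d : ℕ} {b : ℕ → K} (hb : ∀ i < d, b i ∈ W) {w : K}
    (h : ∑ i ∈ Finset.range d, b i * w ^ i + w ^ d = 0) : w ∈ W := by
  by_contra hw
  have h1 : 1 < W.valuation w := not_le.1 fun h => hw ((W.valuation_le_one_iff w).1 h)
  have h2 : W.valuation (∑ i ∈ Finset.range d, b i * w ^ i) < W.valuation w ^ d := by
    refine W.valuation.map_sum_lt (pow_ne_zero _ (zero_lt_one.trans h1).ne') fun i hi => ?_
    rw [map_mul, map_pow]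
    exact (mul_le_of_le_one_left' ((W.valuation_le_one_iff _).2
      (hb i (Finset.mem_range.1 hi)))).trans_lt (pow_lt_pow_right₀ h1 (Finset.mem_range.1 hi))
  rw [eq_neg_of_add_eq_zero_left h, Valuation.map_neg, map_pow] at h2
  exact lt_irrefl _ h2

theorem Tor1_sum {A : Type u} [CommRing A] (φ : A →+* K) {z : K} {P : A[X]} (hP : P.Monic)
    (h : P.eval₂ φ z = 0) :
    ∑ i ∈ Finset.range P.natDegree, φ (P.coeff i) * z ^ i + z ^ P.natDegree = 0 := by
  rwa [eval₂_eq_sum_range, Finset.sum_range_succ, hP.coeff_natDegree, map_one, one_mul] at h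

theorem Tor1_int_iff {A : Type u} [CommRing A] (φ : A →+* K) {z : K} :
    φ.IsIntegralElem z ↔ ∀ W : ValuationSubring K, (∀ a, φ a ∈ W) → z ∈ W := by
  refine ⟨fun ⟨P, hP, h⟩ W hW => Tor1_monic W (fun i _ => hW _) (Tor1_sum φ hP h), fun h => ?_⟩
  have h1 : z ∈ (integralClosure (Subring.closure (Set.range φ)) K).toSubring := by
    rw [← iInf_valuationSubring_superset, Subring.mem_iInf]
    exact fun V => h V.1 fun a => V.2 ⟨a, rfl⟩
  let ψ : A →+* Subring.closure (Set.range φ) :=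
    φ.codRestrict _ fun a => Subring.subset_closure ⟨a, rfl⟩
  have hψ : Function.Surjective ψ := by
    rintro ⟨y, hy⟩
    obtain ⟨a, rfl⟩ : y ∈ φ.range := Subring.closure_le.2 (fun _ h => h) hy
    exact ⟨a, rfl⟩
  let _ := φ.toAlgebra
  let _ := ψ.toAlgebra
  have : IsScalarTower A (Subring.closure (Set.range φ)) K := IsScalarTower.of_algebraMap_eq' rfl
  have : Algebra.IsIntegral A (Subring.closure (Set.range φ)) :=
    Algebra.isIntegral_of_surjective hψ
  exact isIntegral_trans z h1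

theorem Tor1_mem_iff {x z : K} :
    z ∈ Tor1_S C x ↔ (aeval x : C[X] →ₐ[C] K).toRingHom.IsIntegralElem z := by
  rw [Tor1_int_iff]
  refine ⟨fun h W hW => h W (fun a => ?_) ?_, fun h W h1 h2 => h W fun f => Tor1_aeval x f W h1 h2⟩
  · simpa using hW (Polynomial.C a)
  · simpa using hW X

theorem Tor1_const [IsAlgClosed C] {x z : K} (h : z ∈ Tor1_S C x) (h' : z ∈ Tor1_S C x⁻¹) :
    z ∈ (algebraMap C K).range := by
  have hz : IsIntegral C z := (Tor1_int_iff (algebraMap C K)).2 fun W hW =>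
    (W.mem_or_inv_mem x).elim (h W hW) (h' W hW)
  exact minpoly.mem_range_of_degree_eq_one C z
    (IsAlgClosed.degree_eq_one_of_irreducible C (minpoly.irreducible hz))

theorem Tor1_scale {x z : K} (hx : x ≠ 0) (h : z ∈ Tor1_S C x) :
    ∃ N : ℕ, ∀ n ≥ N, x⁻¹ ^ n * z ∈ Tor1_S C x⁻¹ := by
  obtain ⟨P, hP, e⟩ := Tor1_mem_iff.1 h
  refine ⟨(Finset.range P.natDegree).sup fun i => (P.coeff i).natDegree, fun n hn W h1 h2 => ?_⟩
  refine Tor1_monic W (d := P.natDegree)
    (b := fun i => aeval x (P.coeff i) * x⁻¹ ^ (n * (P.natDegree - i))) (fun i hi => ?_) ?_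
  · have h3 : (P.coeff i).natDegree ≤ n * (P.natDegree - i) :=
      ((Finset.le_sup (f := fun i => (P.coeff i).natDegree) (Finset.mem_range.2 hi)).trans hn).trans
        (Nat.le_mul_of_pos_right _ (by omega))
    rw [aeval_eq_sum_range, Finset.sum_mul]
    refine sum_mem fun l hl => ?_
    obtain ⟨m, hm⟩ := Nat.exists_eq_add_of_le ((Nat.lt_succ_iff.1 (Finset.mem_range.1 hl)).trans h3)
    rw [hm, pow_add, Algebra.smul_def, mul_assoc, ← mul_assoc (x ^ l), ← mul_pow,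
      mul_inv_cancel₀ hx, one_pow, one_mul]
    exact W.mul_mem _ _ (h1 _) (pow_mem h2 _)
  · have h4 := congrArg (fun t => x⁻¹ ^ (n * P.natDegree) * t) (Tor1_sum _ hP e)
    simp only [mul_zero, mul_add, Finset.mul_sum] at h4
    rw [← h4, mul_pow, ← pow_mul]
    congr 1
    refine Finset.sum_congr rfl fun i hi => ?_
    obtain ⟨m, hm⟩ := Nat.exists_eq_add_of_le (Finset.mem_range.1 hi).le
    rw [hm, Nat.add_sub_cancel_left]
    change _ = _ * (aeval x (P.coeff i) * _)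
    ring

theorem Tor1_unit {W : ValuationSubring K} (h : ∀ a : C, algebraMap C K a ∈ W) {a : C}
    (ha : algebraMap C K a ∈ W.nonunits) : a = 0 := by
  rcases W.mem_nonunits_iff_or.1 ha with h0 | h0
  · exact (map_eq_zero _).1 h0
  · exact absurd (map_inv₀ (algebraMap C K) a ▸ h a⁻¹) h0

theorem Tor1_res [IsAlgClosed C] {W : ValuationSubring K} (h : ∀ a : C, algebraMap C K a ∈ W)
    {z : K} {g : C[X]} (hg : g ≠ 0) (hz : aeval z g ∈ W.nonunits) :
    ∃ μ : C, z - algebraMap C K μ ∈ W.nonunits := by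
  induction hd : g.natDegree using Nat.strong_induction_on generalizing g with
  | _ d ih =>
    by_cases h0 : g.degree = 0
    · rw [eq_C_of_degree_eq_zero h0, aeval_C] at hz
      rw [eq_C_of_degree_eq_zero h0, Tor1_unit h hz, map_zero] at hg
      exact absurd rfl hg
    · obtain ⟨μ, hμ⟩ := IsAlgClosed.exists_root g h0
      obtain ⟨g', rfl⟩ := dvd_iff_isRoot.2 hμ
      by_cases h1 : z - algebraMap C K μ ∈ W.nonunits
      · exact ⟨μ, h1⟩
      have hg' : g' ≠ 0 := right_ne_zero_of_mul hg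
      refine ih g'.natDegree ?_ hg' ?_ rfl
      · rw [← hd, natDegree_mul (X_sub_C_ne_zero μ) hg', natDegree_X_sub_C]
        omega
      · rw [ValuationSubring.mem_nonunits_iff] at hz h1 ⊢
        rw [map_mul, map_mul, map_sub, aeval_X, aeval_C] at hz
        exact (le_mul_of_one_le_left' (not_lt.1 h1)).trans_lt hz

theorem Tor1_ev {W : ValuationSubring K} (h : ∀ a : C, algebraMap C K a ∈ W) {x : K} {l : C}
    (hx : x - algebraMap C K l ∈ W.nonunits) :
    x ∈ W ∧ ∀ f : C[X], aeval x f - algebraMap C K (f.eval l) ∈ W.nonunits := by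
  have h1 : x ∈ W := by
    simpa using W.add_mem _ _ (ValuationSubring.nonunits_subset hx) (h l)
  refine ⟨h1, fun f => ?_⟩
  obtain ⟨g, hg⟩ := X_sub_C_dvd_sub_C_eval (p := f) (a := l)
  have := congrArg (aeval x) hg
  rw [map_sub, aeval_C, map_mul, map_sub, aeval_X, aeval_C] at this
  rw [this, mul_comm]
  exact Tor1_mul_nu (Tor1_aeval x g W h h1) hx

theorem Tor1_prim {x : K} (hx : Transcendental C x) (hK : Tor1_Alg C x) (z : K) (l : C) :
    ∃ P : C[X][X], P.eval₂ (aeval x : C[X] →ₐ[C] K).toRingHom z = 0 ∧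
      ∃ k, (P.coeff k).eval l ≠ 0 := by
  obtain ⟨P, hP, e⟩ := hK z
  obtain ⟨n, Q, hQ, rfl⟩ := WfDvdMonoid.max_power_factor' hP
    (x := Polynomial.C (X - Polynomial.C l)) fun h => not_isUnit_X_sub_C l (isUnit_C.1 h)
  refine ⟨Q, ?_, ?_⟩
  · rw [eval₂_mul, eval₂_pow, eval₂_C] at e
    refine (mul_eq_zero.1 e).resolve_left (pow_ne_zero _ fun h => ?_)
    exact hx ⟨_, X_sub_C_ne_zero l, h⟩
  · by_contra h
    push Not at h
    exact hQ (C_dvd_iff_dvd_coeff _ _ |>.2 fun i => dvd_iff_isRoot.2 (h i))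

theorem Tor1_res2 [IsAlgClosed C] {x : K} (hx : Transcendental C x) (hK : Tor1_Alg C x)
    {W : ValuationSubring K} (h : ∀ a : C, algebraMap C K a ∈ W) {l : C}
    (hl : x - algebraMap C K l ∈ W.nonunits) {z : K} (hz : z ∈ W) :
    ∃ μ : C, z - algebraMap C K μ ∈ W.nonunits := by
  obtain ⟨P, e, k, hk⟩ := Tor1_prim hx hK z l
  refine Tor1_res h (g := P.map (evalRingHom l)) (fun h0 => hk ?_) ?_
  · simpa using congrArg (fun Q => coeff Q k) h0
  · rw [aeval_def, eval₂_map, ← neg_mem_iff, ← zero_sub, ← e, eval₂_eq_sum_range,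
      eval₂_eq_sum_range, ← Finset.sum_sub_distrib]
    refine sum_mem fun i _ => ?_
    rw [← sub_mul, mul_comm]
    exact Tor1_mul_nu (pow_mem hz _) ((Tor1_ev h hl).2 _)

/-- Separation of valuation rings by integral elements. -/
theorem Tor1_sep {x : K} (hx : Transcendental C x) (hK : Tor1_Alg C x)
    {W W' : ValuationSubring K} (h : ∀ a : C, algebraMap C K a ∈ W) {l : C}
    (hl : x - algebraMap C K l ∈ W.nonunits) (h' : ∀ a : C, algebraMap C K a ∈ W') (hx' : x ∈ W')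
    {z : K} (hz : z ∈ W) (hz' : z ∉ W') :
    ∃ s ∈ Tor1_S C x, s - 1 ∈ W.nonunits ∧ s ∈ W'.nonunits := by
  classical
  obtain ⟨P, e, hk⟩ := Tor1_prim hx hK z l
  have hle : ∀ k, (P.coeff k).eval l ≠ 0 → k ≤ P.natDegree := fun k hk =>
    le_natDegree_of_ne_zero fun h0 => hk (by rw [h0, eval_zero])
  obtain ⟨k, hk1, hk2⟩ : ∃ k, (P.coeff k).eval l ≠ 0 ∧ ∀ i, k < i → (P.coeff i).eval l = 0 := by
    obtain ⟨k, hk⟩ := hk
    refine ⟨Nat.findGreatest (fun k => (P.coeff k).eval l ≠ 0) P.natDegree,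
      Nat.findGreatest_spec (P := fun k => (P.coeff k).eval l ≠ 0) (hle k hk) hk, fun i hi => ?_⟩
    by_contra h0
    exact Nat.findGreatest_is_greatest hi (hle i h0) h0
  obtain ⟨m, hm⟩ := Nat.exists_eq_add_of_le (hle k hk1)
  rw [eval₂_eq_sum_range, hm, add_assoc, Finset.sum_range_add] at e
  set b : ℕ → K := fun i => (aeval x : C[X] →ₐ[C] K).toRingHom (P.coeff i) with hb
  have hbS : ∀ i, b i ∈ Tor1_S C x := fun i => Tor1_aeval x _
  set s := ∑ j ∈ Finset.range (m + 1), b (k + j) * z ^ j with hs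
  have key : ∀ V : ValuationSubring K, (∀ a : C, algebraMap C K a ∈ V) → x ∈ V → z ∉ V →
      s ∈ V.nonunits := by
    intro V h1 h2 h3
    have hz0 : z ≠ 0 := fun h0 => h3 (h0 ▸ V.zero_mem)
    have hi : z⁻¹ ∈ V.nonunits := V.inv_mem_nonunits_iff.2 (Or.inr h3)
    have e2 : s = -∑ i ∈ Finset.range k, b i * z⁻¹ ^ (k - (i + 1)) * z⁻¹ := by
      refine mul_left_cancel₀ (pow_ne_zero k hz0) ?_
      rw [mul_neg, eq_neg_iff_add_eq_zero, add_comm, ← e, hs, Finset.mul_sum, Finset.mul_sum]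
      congr 1
      · refine Finset.sum_congr rfl fun i hi => ?_
        obtain ⟨j, rfl⟩ := Nat.exists_eq_add_of_lt (Finset.mem_range.1 hi)
        rw [show i + j + 1 - (i + 1) = j by omega, inv_pow]
        change _ = b i * _
        field_simp
        ring
      · exact Finset.sum_congr rfl fun i _ => by ring
    rw [e2]
    exact neg_mem (sum_mem fun i _ => Tor1_mul_nu (V.mul_mem _ _ (hbS i V h1 h2)
      (pow_mem (ValuationSubring.nonunits_subset hi) _)) hi)
  have hsS : s ∈ Tor1_S C x := fun V h1 h2 => by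
    by_cases h3 : z ∈ V
    · exact sum_mem fun j _ => V.mul_mem _ _ (hbS _ V h1 h2) (pow_mem h3 _)
    · exact ValuationSubring.nonunits_subset (key V h1 h2 h3)
  have hc : algebraMap C K ((P.coeff k).eval l) ≠ 0 := (_root_.map_ne_zero _).2 hk1
  refine ⟨algebraMap C K ((P.coeff k).eval l)⁻¹ * s, mul_mem (algebraMap_mem _ _) hsS, ?_,
    Tor1_mul_nu (h' _) (key W' h' hx' hz')⟩
  have e3 : algebraMap C K ((P.coeff k).eval l)⁻¹ * s - 1 = algebraMap C K ((P.coeff k).eval l)⁻¹ *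
      (∑ j ∈ Finset.range m, z ^ (j + 1) * b (k + (j + 1)) +
        (b k - algebraMap C K ((P.coeff k).eval l))) := by
    rw [hs, Finset.sum_range_succ', map_inv₀,
      Finset.sum_congr rfl fun j _ => mul_comm (z ^ (j + 1)) (b (k + (j + 1)))]
    generalize ∑ j ∈ Finset.range m, b (k + (j + 1)) * z ^ (j + 1) = t
    rw [add_zero]
    field_simp
    ring
  rw [e3]
  refine Tor1_mul_nu (h _) (add_mem (sum_mem fun j _ => Tor1_mul_nu (pow_mem hz _) ?_)
    ((Tor1_ev h hl).2 _))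
  have := (Tor1_ev h hl).2 (P.coeff (k + (j + 1)))
  rwa [hk2 _ (by omega), map_zero, sub_zero] at this

theorem Tor1_prod_one {W : ValuationSubring K} {ι : Type u} (t : Finset ι) {f : ι → K}
    (h : ∀ i ∈ t, f i - 1 ∈ W.nonunits) : ∏ i ∈ t, f i - 1 ∈ W.nonunits := by
  classical
  induction t using Finset.induction_on with
  | empty => simp
  | insert a t ha ih =>
    have h1 := h a (Finset.mem_insert_self a t)
    have h2 : f a ∈ W := by
      simpa using W.add_mem _ _ (ValuationSubring.nonunits_subset h1) W.one_mem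
    rw [Finset.prod_insert ha, show f a * ∏ i ∈ t, f i - 1 =
      f a * (∏ i ∈ t, f i - 1) + (f a - 1) by ring]
    exact add_mem (Tor1_mul_nu h2 (ih fun i hi => h i (Finset.mem_insert_of_mem hi))) h1

theorem Tor1_prod_zero {W : ValuationSubring K} {ι : Type u} (t : Finset ι) {f : ι → K}
    (h : ∀ i ∈ t, f i ∈ W) {a : ι} (ha : a ∈ t) (h' : f a ∈ W.nonunits) :
    ∏ i ∈ t, f i ∈ W.nonunits := by
  classical
  rw [← Finset.prod_erase_mul t f ha]
  exact Tor1_mul_nu (prod_mem fun i hi => h i (Finset.mem_of_mem_erase hi)) h'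

theorem Tor1_comap_nu {L : Type u} [Field L] (j : K →+* L) (W : ValuationSubring L) {z : K} :
    z ∈ (W.comap j).nonunits ↔ j z ∈ W.nonunits :=
  (LD2c_isEquiv j W).lt_one_iff_lt_one

section galois

variable {E : Type u} [Field E] [Algebra C E] [Algebra E K] [IsScalarTower C E K]

theorem Tor1_fixC (σ : K ≃ₐ[E] K) (a : C) : σ (algebraMap C K a) = algebraMap C K a := by
  rw [IsScalarTower.algebraMap_apply C E K, σ.commutes]

theorem Tor1_act (σ : K ≃ₐ[E] K) {x z : K} (hx : σ x = x) (hz : z ∈ Tor1_S C x) :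
    σ z ∈ Tor1_S C x := fun W h1 h2 =>
  hz (W.comap (σ : K →+* K)) (fun a => by
    rw [ValuationSubring.mem_comap, RingHom.coe_coe, Tor1_fixC]
    exact h1 a) (by rwa [ValuationSubring.mem_comap, RingHom.coe_coe, hx])

variable {p : ℕ} [Fact p.Prime] [CharP K p]

/-- The character as a function with values in the field. -/
def Tor1_ch (χ : (K ≃ₐ[E] K) →* Multiplicative (ZMod p)) (σ : K ≃ₐ[E] K) : K :=
  ZMod.castHom (dvd_refl p) K (χ σ).toAdd

variable [IsAlgClosed C] [FiniteDimensional E K] {x : K}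
  (χ : (K ≃ₐ[E] K) →* Multiplicative (ZMod p))

theorem Tor1_loc (hx : Transcendental C x) (hK : Tor1_Alg C x) (hx' : ∀ σ : K ≃ₐ[E] K, σ x = x)
    (hχ : ∀ W : ValuationSubring K, (∀ a, algebraMap C K a ∈ W) →
      ∀ σ : K ≃ₐ[E] K, (∀ z ∈ W, W.valuation (σ z - z) < 1) → χ σ = 1)
    {W : ValuationSubring K} (h : ∀ a : C, algebraMap C K a ∈ W) {l : C}
    (hl : x - algebraMap C K l ∈ W.nonunits) :
    ∃ r ∈ Tor1_S C x, ∃ a ∈ Tor1_S C x, (∀ τ : K ≃ₐ[E] K, τ r = r) ∧ r - 1 ∈ W.nonunits ∧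
      ∀ τ : K ≃ₐ[E] K, τ a - a = Tor1_ch χ τ * r := by
  classical
  have hxW := (Tor1_ev h hl).1
  have step : ∀ σ : K ≃ₐ[E] K, χ σ ≠ 1 →
      ∃ s ∈ Tor1_S C x, s - 1 ∈ W.nonunits ∧ σ s ∈ W.nonunits := by
    intro σ hσ
    have h' : ∀ a : C, algebraMap C K a ∈ W.comap (σ : K →+* K) := fun a => by
      rw [ValuationSubring.mem_comap, RingHom.coe_coe, Tor1_fixC]
      exact h a
    have hl' : x - algebraMap C K l ∈ (W.comap (σ : K →+* K)).nonunits := by
      rwa [Tor1_comap_nu, RingHom.coe_coe, map_sub, hx', Tor1_fixC]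
    by_cases hle : W ≤ W.comap (σ : K →+* K)
    · refine absurd (hχ W h σ fun z hz => ?_) hσ
      obtain ⟨μ, hμ⟩ := Tor1_res2 hx hK h' hl' (hle hz)
      have h1 := ValuationSubring.nonunits_le_nonunits.2 hle hμ
      rw [Tor1_comap_nu, RingHom.coe_coe, map_sub, Tor1_fixC] at hμ
      have h2 := sub_mem hμ h1
      rwa [sub_sub_sub_cancel_right] at h2
    · obtain ⟨z, hz, hz'⟩ := SetLike.not_le_iff_exists.1 hle
      obtain ⟨s, h1, h2, h3⟩ := Tor1_sep hx hK h hl h' (Tor1_ev h' hl').1 hz hz'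
      exact ⟨s, h1, h2, (Tor1_comap_nu _ W).1 h3⟩
  choose! s hs using step
  obtain ⟨θ, hθ, hθ1, hθ0⟩ : ∃ θ ∈ Tor1_S C x, θ - 1 ∈ W.nonunits ∧
      ∀ σ : K ≃ₐ[E] K, χ σ ≠ 1 → σ θ ∈ W.nonunits := by
    refine ⟨∏ σ ∈ Finset.univ.filter fun σ => χ σ ≠ 1, s σ,
      prod_mem fun σ hσ => (hs σ (Finset.mem_filter.1 hσ).2).1,
      Tor1_prod_one _ fun σ hσ => (hs σ (Finset.mem_filter.1 hσ).2).2.1, fun σ hσ => ?_⟩
    rw [map_prod]
    exact Tor1_prod_zero _ (fun ρ hρ => Tor1_act σ (hx' σ) (hs ρ (Finset.mem_filter.1 hρ).2).1 W h hxW)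
      (Finset.mem_filter.2 ⟨Finset.mem_univ σ, hσ⟩) (hs σ hσ).2.2
  let η : ZMod p → K := fun j =>
    1 - ∏ σ ∈ Finset.univ.filter fun σ : K ≃ₐ[E] K => (χ σ).toAdd = j, σ (1 - θ)
  have hin : ∀ σ : K ≃ₐ[E] K, σ (1 - θ) ∈ Tor1_S C x := fun σ =>
    Tor1_act σ (hx' σ) (sub_mem (one_mem _) hθ)
  have hηS : ∀ j, η j ∈ Tor1_S C x := fun j => sub_mem (one_mem _) (prod_mem fun σ _ => hin σ)
  have hη : ∀ (τ : K ≃ₐ[E] K) j, τ (η j) = η ((χ τ).toAdd + j) := by
    intro τ j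
    simp only [η, map_sub τ, map_one, map_prod]
    congr 1
    refine Finset.prod_equiv (Equiv.mulLeft τ) (fun σ => ?_) fun σ _ => rfl
    simp
  have hη0 : η 0 - 1 ∈ W.nonunits := by
    simp only [η, sub_sub_cancel_left]
    refine neg_mem (Tor1_prod_zero _ (fun σ _ => hin σ W h hxW) (a := 1) (by simp) ?_)
    rw [AlgEquiv.one_apply, ← neg_sub]
    exact neg_mem hθ1
  have hη1 : ∀ j ≠ 0, η j ∈ W.nonunits := by
    intro j hj
    simp only [η]
    rw [← neg_sub]
    refine neg_mem (Tor1_prod_one _ fun σ hσ => ?_)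
    rw [map_sub, map_one, sub_sub_cancel_left]
    refine neg_mem (hθ0 σ fun h0 => hj ?_)
    rw [← (Finset.mem_filter.1 hσ).2, h0, toAdd_one]
  let ι := ZMod.castHom (dvd_refl p) K
  have hι : ∀ j, ι j ∈ Tor1_S C x := fun j => by
    obtain ⟨n, rfl⟩ := ZMod.natCast_zmod_surjective j
    rw [map_natCast]
    exact natCast_mem _ n
  have hι' : ∀ (τ : K ≃ₐ[E] K) j, τ (ι j) = ι j := fun τ j => by
    obtain ⟨n, rfl⟩ := ZMod.natCast_zmod_surjective j
    rw [map_natCast, map_natCast]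
  refine ⟨∑ j, η j, sum_mem fun j _ => hηS j, -∑ j, ι j * η j,
    neg_mem (sum_mem fun j _ => mul_mem (hι j) (hηS j)), fun τ => ?_, ?_, fun τ => ?_⟩
  · rw [map_sum]
    exact Fintype.sum_equiv (Equiv.addLeft (χ τ).toAdd) _ _ fun j => hη τ j
  · rw [← Finset.sum_erase_add _ _ (Finset.mem_univ 0), add_sub_assoc]
    exact add_mem (sum_mem fun j hj => hη1 j (Finset.ne_of_mem_erase hj)) hη0
  · rw [map_neg, map_sum, neg_sub_neg, Finset.mul_sum,
      ← Equiv.sum_comp (Equiv.addLeft (χ τ).toAdd) fun j => ι j * η j,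
      ← Equiv.sum_comp (Equiv.addLeft (χ τ).toAdd) fun j => Tor1_ch χ τ * η j,
      ← Finset.sum_sub_distrib]
    refine Finset.sum_congr rfl fun j _ => ?_
    rw [map_mul, hι', hη, Equiv.coe_addLeft, map_add, add_mul, add_sub_cancel_right]
    rfl

theorem Tor1_glob (hx : Transcendental C x) (hK : Tor1_Alg C x) (hx' : ∀ σ : K ≃ₐ[E] K, σ x = x)
    (hχ : ∀ W : ValuationSubring K, (∀ a, algebraMap C K a ∈ W) →
      ∀ σ : K ≃ₐ[E] K, (∀ z ∈ W, W.valuation (σ z - z) < 1) → χ σ = 1) :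
    ∃ a ∈ Tor1_S C x, ∀ τ : K ≃ₐ[E] K, τ a - a = Tor1_ch χ τ := by
  let R : Subring K :=
    { carrier := {z | z ∈ Tor1_S C x ∧ ∀ τ : K ≃ₐ[E] K, τ z = z}
      mul_mem' := fun ha hb => ⟨mul_mem ha.1 hb.1, fun τ => by rw [map_mul, ha.2, hb.2]⟩
      add_mem' := fun ha hb => ⟨add_mem ha.1 hb.1, fun τ => by rw [map_add, ha.2, hb.2]⟩
      one_mem' := ⟨one_mem _, fun τ => map_one τ⟩
      zero_mem' := ⟨zero_mem _, fun τ => map_zero τ⟩
      neg_mem' := fun ha => ⟨neg_mem ha.1, fun τ => by rw [map_neg, ha.2]⟩ }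
  let J : Ideal R :=
    { carrier := {r | ∃ a ∈ Tor1_S C x, ∀ τ : K ≃ₐ[E] K, τ a - a = Tor1_ch χ τ * r}
      add_mem' := fun ⟨a, ha, ha'⟩ ⟨b, hb, hb'⟩ => ⟨a + b, add_mem ha hb, fun τ => by
        rw [map_add, add_sub_add_comm, ha', hb', Subring.coe_add, mul_add]⟩
      zero_mem' := ⟨0, zero_mem _, fun τ => by simp⟩
      smul_mem' := fun c r ⟨a, ha, ha'⟩ => ⟨c * a, mul_mem c.2.1 ha, fun τ => by
        rw [map_mul, c.2.2, ← mul_sub, ha', smul_eq_mul, Subring.coe_mul, mul_left_comm]⟩ }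
  by_cases hJ : J = ⊤
  · obtain ⟨a, ha, ha'⟩ := (Ideal.eq_top_iff_one J).1 hJ
    exact ⟨a, ha, fun τ => by rw [ha', Subring.coe_one, mul_one]⟩
  exfalso
  obtain ⟨M, hM, hJM⟩ := J.exists_le_maximal hJ
  obtain ⟨W, hW, hW'⟩ := M.image_subset_nonunits_valuationSubring hM.ne_top
  let φ : C[X] →+* R := (aeval x : C[X] →ₐ[C] K).toRingHom.codRestrict R fun f =>
    ⟨Tor1_aeval x f, fun τ => by
      have := aeval_algHom_apply ((τ : K →ₐ[E] K).restrictScalars C) x f
      rw [AlgHom.coe_restrictScalars', AlgEquiv.coe_toAlgHom, hx'] at this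
      exact this.symm⟩
  have hφ : φ.IsIntegral := fun z => by
    obtain ⟨P, hP, e⟩ := Tor1_mem_iff.1 z.2.1
    refine ⟨P, hP, R.subtype_injective ?_⟩
    rw [hom_eval₂, map_zero]
    exact e
  obtain ⟨f, hf, hf0⟩ := Submodule.exists_mem_ne_zero_of_ne_bot
    (Ring.ne_bot_of_isMaximal_of_not_isField
      (Ideal.isMaximal_comap_of_isIntegral_of_isMaximal' φ hφ M) (Polynomial.not_isField C))
  have h : ∀ a : C, algebraMap C K a ∈ W := fun a =>
    hW (show _ ∈ R from ⟨algebraMap_mem _ a, fun τ => Tor1_fixC τ a⟩)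
  obtain ⟨l, hl⟩ := Tor1_res h hf0 (z := x) (hW' ⟨φ f, hf, rfl⟩)
  obtain ⟨r, hr, a, ha, h1, h2, h3⟩ := Tor1_loc χ hx hK hx' hχ h hl
  have h4 : r ∈ W.nonunits := hW' ⟨⟨r, hr, h1⟩, hJM ⟨a, ha, h3⟩, rfl⟩
  have h5 := sub_mem h4 h2
  rw [sub_sub_cancel, ValuationSubring.mem_nonunits_iff, map_one] at h5
  exact lt_irrefl _ h5

end galois

end MLF
end

-- merged part: Pool.Agent.Work.MP_29d410_ag.Tor1B
section
/-!
# Finiteness of the Frobenius fixed classes in the first cohomology of a curve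
-/

open Polynomial IntermediateField

namespace MLF

universe u

variable {C E : Type u} [Field C] [Field E] [Algebra C E]

theorem Tor1_frac {x : E} (hx : Transcendental C x) :
    letI := (aeval (AdjoinSimple.gen C x) : C[X] →ₐ[C] C⟮x⟯).toRingHom.toAlgebra
    IsFractionRing C[X] C⟮x⟯ := by
  let _ := (aeval (AdjoinSimple.gen C x) : C[X] →ₐ[C] C⟮x⟯).toRingHom.toAlgebra
  have e : ∀ f : C[X], (algebraMap C[X] C⟮x⟯ f : E) = aeval x f := fun f =>
    (aeval_algebraMap_apply E (AdjoinSimple.gen C x) f).symm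
  have : FaithfulSMul C[X] C⟮x⟯ := (faithfulSMul_iff_algebraMap_injective _ _).2 fun f g h =>
    transcendental_iff_injective.1 hx (by rw [← e, ← e, h])
  refine IsFractionRing.of_field _ _ fun z => ?_
  obtain ⟨f, g, h⟩ := (mem_adjoin_simple_iff C (z : E)).1 z.2
  exact ⟨f, g, Subtype.ext (by rw [h, ← e, ← e]; rfl)⟩

theorem Tor1_alg {x : E} (hx : Transcendental C x) [Algebra.IsAlgebraic C⟮x⟯ E] : Tor1_Alg C x := by
  let _ := (aeval (AdjoinSimple.gen C x) : C[X] →ₐ[C] C⟮x⟯).toRingHom.toAlgebra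
  let _ := (aeval x : C[X] →ₐ[C] E).toRingHom.toAlgebra
  have := Tor1_frac hx
  have : IsScalarTower C[X] C⟮x⟯ E := IsScalarTower.of_algebraMap_eq fun f =>
    aeval_algebraMap_apply E (AdjoinSimple.gen C x) f
  exact fun z => (IsFractionRing.isAlgebraic_iff C[X] C⟮x⟯ E).2 (Algebra.IsAlgebraic.isAlgebraic z)

theorem Tor1_alg_inv {x : E} (hx : Transcendental C x) [h : Algebra.IsAlgebraic C⟮x⟯ E] :
    Tor1_Alg C x⁻¹ := by
  have e : C⟮x⟯ = C⟮x⁻¹⟯ := le_antisymm
    (adjoin_simple_le_iff.2 (by simpa using inv_mem (mem_adjoin_simple_self C x⁻¹)))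
    (adjoin_simple_le_iff.2 (inv_mem (mem_adjoin_simple_self C x)))
  rw [e] at h
  exact Tor1_alg fun h => hx (by simpa using h.inv)

theorem Tor1_fin {x : E} (hx : Transcendental C x) [FiniteDimensional C⟮x⟯ E]
    [Algebra.IsSeparable C⟮x⟯ E] :
    ∃ U : Submodule C E, U.FG ∧ ∀ (z : E) (n : ℕ), x ^ n * z ∈ Tor1_S C x →
      z ∈ U ⊔ ((Tor1_S C x).toSubmodule ⊔ (Tor1_S C x⁻¹).toSubmodule) := by
  classical
  let _ := (aeval (AdjoinSimple.gen C x) : C[X] →ₐ[C] C⟮x⟯).toRingHom.toAlgebra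
  let _ := (aeval x : C[X] →ₐ[C] E).toRingHom.toAlgebra
  have := Tor1_frac hx
  have : IsScalarTower C[X] C⟮x⟯ E := IsScalarTower.of_algebraMap_eq fun f =>
    aeval_algebraMap_apply E (AdjoinSimple.gen C x) f
  have hx0 : x ≠ 0 := fun h => hx (h ▸ isAlgebraic_zero)
  obtain ⟨T, hT⟩ : (integralClosure C[X] E).toSubmodule.FG :=
    (Subalgebra.toSubmodule (integralClosure C[X] E)).fg_top.1
      (IsIntegralClosure.finite C[X] C⟮x⟯ E (integralClosure C[X] E)).1
  have hTS : ∀ r ∈ T, r ∈ Tor1_S C x := fun r hr =>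
    Tor1_mem_iff.2 (show r ∈ (integralClosure C[X] E).toSubmodule from
      hT ▸ Submodule.subset_span hr)
  choose! N hN using fun r hr => Tor1_scale hx0 (hTS r hr)
  refine ⟨Submodule.span C ((T ×ˢ Finset.range (T.sup N)).image fun q => x⁻¹ ^ q.2 * q.1 : Finset E),
    Submodule.fg_span (Finset.finite_toSet _), fun z n hz => ?_⟩
  have key : ∀ y ∈ Submodule.span C[X] (T : Set E), ∀ m : ℤ, x ^ m * y ∈
      Submodule.span C ((T ×ˢ Finset.range (T.sup N)).image fun q => x⁻¹ ^ q.2 * q.1 : Finset E) ⊔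
        ((Tor1_S C x).toSubmodule ⊔ (Tor1_S C x⁻¹).toSubmodule) := by
    intro y hy
    induction hy using Submodule.span_induction with
    | mem r hr =>
      intro m
      obtain ⟨k, rfl | rfl⟩ := m.eq_nat_or_neg
      · refine Submodule.mem_sup_right (Submodule.mem_sup_left ?_)
        rw [zpow_natCast]
        exact (Tor1_S C x).mul_mem (pow_mem (Tor1_self x) k) (hTS r hr)
      · rw [zpow_neg, zpow_natCast, ← inv_pow]
        by_cases hk : k < T.sup N
        · exact Submodule.mem_sup_left (Submodule.subset_span (Finset.mem_coe.2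
            (Finset.mem_image.2 ⟨(r, k), Finset.mem_product.2 ⟨hr, Finset.mem_range.2 hk⟩, rfl⟩)))
        · exact Submodule.mem_sup_right (Submodule.mem_sup_right
            (hN r hr k ((Finset.le_sup hr).trans (not_lt.1 hk))))
    | zero => exact fun m => by simp
    | add a b _ _ ha hb => exact fun m => mul_add (x ^ m) a b ▸ add_mem (ha m) (hb m)
    | smul f a _ ha =>
      intro m
      have e : x ^ m * f • a = ∑ i ∈ Finset.range (f.natDegree + 1),
          f.coeff i • (x ^ (m + i) * a) := by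
        change x ^ m * (aeval x f * a) = _
        rw [aeval_eq_sum_range, Finset.sum_mul, Finset.mul_sum]
        refine Finset.sum_congr rfl fun i _ => ?_
        rw [zpow_add₀ hx0, zpow_natCast, Algebra.smul_def, Algebra.smul_def]
        ring
      rw [e]
      exact sum_mem fun i _ => Submodule.smul_mem _ _ (ha _)
  have := key _ (hT.ge (Tor1_mem_iff.1 hz)) (-n)
  rwa [zpow_neg, zpow_natCast, inv_mul_cancel_left₀ (pow_ne_zero n hx0)] at this

theorem Tor1_fix (p : ℕ) [Fact p.Prime] [CharP C p] [IsAlgClosed C] {V : Type u} [AddCommGroup V]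
    [Module C V] (f : V →ₛₗ[frobenius C p] V) {U : Submodule C V} (hU : U.FG) :
    {v | v ∈ U ∧ f v = v}.Finite := by
  let U₀ := Submodule.span C {v | v ∈ U ∧ f v = v}
  have : Module.Finite C U := Module.Finite.iff_fg.2 hU
  have : FiniteDimensional C U₀ :=
    Submodule.finiteDimensional_of_le (S₂ := U) (Submodule.span_le.2 fun v hv => hv.1)
  have h : ∀ v ∈ U₀, f v ∈ U₀ := fun v hv =>
    (Submodule.span_le (p := U₀.comap f)).2 (fun v hv => by
      rw [SetLike.mem_coe, Submodule.mem_comap, hv.2]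
      exact Submodule.subset_span hv) hv
  let f₀ : U₀ →+ U₀ :=
    { toFun := fun v => ⟨f v, h v v.2⟩
      map_zero' := Subtype.ext (map_zero f)
      map_add' := fun a b => Subtype.ext (map_add f _ _) }
  refine ((lang_card p f₀ fun c v => Subtype.ext (map_smulₛₗ f c (v : V))).1.image
    Subtype.val).subset fun v hv => ⟨⟨v, Submodule.subset_span hv⟩, Subtype.ext hv.2, rfl⟩

variable {K : Type u} [Field K] [Algebra C K] [Algebra E K] [IsScalarTower C E K]

theorem Tor1_map_iff {x z : E} :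
    algebraMap E K z ∈ Tor1_S C (algebraMap E K x) ↔ z ∈ Tor1_S C x := by
  refine ⟨fun h V h1 h2 => ?_, fun h W h1 h2 => h (W.comap (algebraMap E K)) (fun a => ?_) h2⟩
  · obtain ⟨W, rfl, -⟩ := LD2c_gauss (Ω' := K) (ι := PEmpty) (v := PEmpty.elim)
      algebraicIndependent_empty_type V
    refine h W (fun a => ?_) h2
    rw [IsScalarTower.algebraMap_apply C E K]
    exact h1 a
  · rw [ValuationSubring.mem_comap, ← IsScalarTower.algebraMap_apply]
    exact h1 a

theorem Tor1_alg_map [Algebra.IsAlgebraic E K] {x : E} (h : Tor1_Alg C x) :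
    Tor1_Alg C (algebraMap E K x) := by
  let _ := (aeval x : C[X] →ₐ[C] E).toRingHom.toAlgebra
  let _ := (aeval (algebraMap E K x) : C[X] →ₐ[C] K).toRingHom.toAlgebra
  have : IsScalarTower C[X] E K := IsScalarTower.of_algebraMap_eq fun f =>
    aeval_algebraMap_apply K x f
  have : Algebra.IsAlgebraic C[X] E := ⟨h⟩
  exact (Algebra.IsAlgebraic.trans C[X] E K).isAlgebraic

theorem Tor1_pow (p : ℕ) [ExpChar E p] [Normal E K] {z : K} (h : ∀ τ : K ≃ₐ[E] K, τ z = z) :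
    ∀ᶠ n in Filter.atTop, z ^ p ^ n ∈ (algebraMap E K).range := by
  classical
  have hz : IsAlgebraic E z := Algebra.IsAlgebraic.isAlgebraic z
  have h1 : (minpoly E z).natSepDegree = 1 := by
    rw [natSepDegree_eq_of_splits _ (Normal.splits inferInstance z), Finset.card_eq_one]
    refine ⟨z, Finset.eq_singleton_iff_unique_mem.2 ⟨?_, fun w hw => ?_⟩⟩
    · rw [Multiset.mem_toFinset, mem_aroots]
      exact ⟨minpoly.ne_zero hz.isIntegral, minpoly.aeval E z⟩
    · rw [Multiset.mem_toFinset, mem_aroots] at hw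
      obtain ⟨σ, hσ⟩ := minpoly.exists_algEquiv_of_root' hz hw.2
      exact hσ.symm.trans (h σ)
  obtain ⟨m, hm⟩ := (minpoly.natSepDegree_eq_one_iff_pow_mem p).1 h1
  refine Filter.eventually_atTop.2 ⟨m, fun n hn => ?_⟩
  obtain ⟨k, rfl⟩ := Nat.exists_eq_add_of_le hn
  rw [pow_add, pow_mul]
  exact pow_mem hm _

/-- The Artin-Schreier data of an unramified character. -/
theorem Tor1_data (p : ℕ) [Fact p.Prime] [CharP E p] [CharP K p] [IsAlgClosed C]
    [FiniteDimensional E K] [Normal E K] {x : E} (hx : Transcendental C x)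
    [Algebra.IsAlgebraic C⟮x⟯ E] (χ : (K ≃ₐ[E] K) →* Multiplicative (ZMod p))
    (hχ : ∀ W : ValuationSubring K, (∀ a, algebraMap C K a ∈ W) →
      ∀ σ : K ≃ₐ[E] K, (∀ z ∈ W, W.valuation (σ z - z) < 1) → χ σ = 1) :
    ∃ (e : E) (a a' : K), a ∈ Tor1_S C (algebraMap E K x) ∧ a' ∈ Tor1_S C (algebraMap E K x⁻¹) ∧
      algebraMap E K e = a - a' ∧ (∀ τ : K ≃ₐ[E] K, τ a - a = Tor1_ch χ τ) ∧
      (∃ n : ℕ, x ^ n * e ∈ Tor1_S C x) ∧
      e ^ p - e ∈ (Tor1_S C x).toSubmodule ⊔ (Tor1_S C x⁻¹).toSubmodule := by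
  have hj := (algebraMap E K).injective
  have hx' : Transcendental C x⁻¹ := fun h => hx (by simpa using h.inv)
  have hx0 : x ≠ 0 := fun h => hx (h ▸ isAlgebraic_zero)
  obtain ⟨a, ha, h⟩ := Tor1_glob χ ((transcendental_algebraMap_iff hj).2 hx)
    (Tor1_alg_map (Tor1_alg hx)) (fun σ => σ.commutes x) hχ
  obtain ⟨a', ha', h'⟩ := Tor1_glob χ ((transcendental_algebraMap_iff hj).2 hx')
    (Tor1_alg_map (Tor1_alg_inv hx)) (fun σ => σ.commutes x⁻¹) hχ
  have hch : ∀ (τ : K ≃ₐ[E] K) (n : ℕ), Tor1_ch χ τ ^ p ^ n = Tor1_ch χ τ := fun τ n => by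
    rw [Tor1_ch, ← map_pow, ZMod.pow_card_pow]
  have hp : ∀ b : K, (∀ τ : K ≃ₐ[E] K, τ b - b = Tor1_ch χ τ) → ∀ (n : ℕ) (τ : K ≃ₐ[E] K),
      τ (b ^ p ^ n) - b ^ p ^ n = Tor1_ch χ τ := fun b hb n τ => by
    rw [map_pow, ← sub_pow_char_pow, hb, hch]
  have hd : ∀ b b' : K, (∀ τ : K ≃ₐ[E] K, τ b - b = Tor1_ch χ τ) →
      (∀ τ : K ≃ₐ[E] K, τ b' - b' = Tor1_ch χ τ) →
      ∀ᶠ n in Filter.atTop, (b - b') ^ p ^ n ∈ (algebraMap E K).range := fun b b' hb hb' =>
    Tor1_pow p fun τ => by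
      rw [map_sub, ← sub_eq_zero, sub_sub_sub_comm, hb, hb', sub_self]
  obtain ⟨n, ⟨e, he⟩, ⟨r, hr⟩, ⟨r', hr'⟩⟩ :=
    ((hd a a' h h').and ((hd _ a (hp a h 1) h).and (hd _ a' (hp a' h' 1) h'))).exists
  rw [sub_pow_char_pow] at he
  refine ⟨e, a ^ p ^ n, a' ^ p ^ n, pow_mem ha _, pow_mem ha' _, he, hp a h n, ?_, ?_⟩
  · obtain ⟨N, hN⟩ := Tor1_scale ((_root_.map_ne_zero _).2 (inv_ne_zero hx0)) (pow_mem ha' (p ^ n))
    refine ⟨N, (Tor1_map_iff (K := K)).1 ?_⟩
    have := hN N le_rfl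
    rw [map_inv₀, inv_inv] at this
    rw [map_mul, map_pow, he, mul_sub]
    exact sub_mem (mul_mem (pow_mem (Tor1_self _) _) (pow_mem ha _)) this
  · have e1 : e ^ p - e = r - r' := hj (by
      rw [map_sub, map_pow, he, map_sub, hr, hr', sub_pow_char, sub_pow_char_pow, sub_pow_char_pow]
      simp only [← pow_mul, pow_one, mul_comm p]
      ring)
    rw [e1]
    refine sub_mem (Submodule.mem_sup_left ((Tor1_map_iff (K := K)).1 ?_))
      (Submodule.mem_sup_right ((Tor1_map_iff (K := K)).1 ?_))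
    · rw [hr]
      exact pow_mem (sub_mem (pow_mem ha _) ha) _
    · rw [hr']
      exact pow_mem (sub_mem (pow_mem ha' _) ha') _

end MLF
end

-- merged part: Pool.Agent.Work.MP_29d410_ag.Geo7
section
/-!
# Translation classes of varieties

Plan.  `tc`: let `ξ` be a generic point of `ext V` in `T ⊇ E` (`Var.exists_gen'` over `κ₁`).  Take a
place of `κ₂` with values in `k` (`exists_place_self`), glue it with the identity of `κ₁` to a place
`P₀` of `E` with values in `κ₁` (`LD.place`), and glue `P₀` with the identity of `acl κ₁(ξ)` to a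
place `P` of `T` with values in `T`.  Put `a = P₀ d`, `V₁ = loc (ξ - a)` over `k`.  The point
`w = ξ - d` lies in `ext W`, has rank at most `dim W = dim V` over `κ₂`, so `ξ - a = P w` has rank at
most `dim V` over `k` (`Red.rk_le`; the residues of `κ₂` lie in `k`); `V - a ⊆ ext V₁` and
dimensions.
`tu`: reduce `d` by a place with values in `κ`: `d₀ + V ⊆ W`, equality by dimension; `d - d₀`
stabilises `ext V`.
`rk_le_of_ker`: pick `z₀` over `acl k(w)` with `(z₀, w)` on the graph (`ran_ext`), then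
`z - z₀ ∈ ext (ker Γ)`, a finite union of translates of `ext S`.
-/

open MvPolynomial Pointwise

namespace MLF

universe u

/-- Gluing an embedding of a subfield with a place of a linearly disjoint extension. -/
theorem Geo7_glue {k T₂ T Ω : Type u} [Field k] [Field T₂] [Field T] [Field Ω] [IsAlgClosed Ω]
    {i₂ : k →+* T₂} {j₂ : T₂ →+* T} {E₁ : Subfield T} (hk : (j₂.comp i₂).fieldRange ≤ E₁)
    (hLD : LD (j₂.comp i₂).fieldRange E₁ j₂.fieldRange) (θ : E₁ →+* Ω) {j' : k →+* Ω}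
    (P : Place i₂ j') (h0 : ∀ z : P.W, P.r z = 0 ↔ P.W.valuation (z : T₂) < 1)
    (hθ : ∀ c, θ ⟨j₂ (i₂ c), hk ⟨c, rfl⟩⟩ = j' c) :
    ∃ (W : ValuationSubring T) (r : W →+* Ω), (∀ z : W, r z = 0 ↔ W.valuation (z : T) < 1) ∧
      (∀ z : E₁, ∃ hm : (z : T) ∈ W, r ⟨z, hm⟩ = θ z) ∧
      (∀ z : P.W, ∃ hm : j₂ z ∈ W, r ⟨_, hm⟩ = P.r z) ∧ ∀ z : T₂, j₂ z ∈ W → z ∈ P.W := by
  let e : T₂ ≃+* j₂.fieldRange := j₂.rangeRestrictFieldEquiv
  let g : j₂.fieldRange →+* T₂ := e.symm.toRingHom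
  have hg : ∀ z : T₂, g ⟨j₂ z, z, rfl⟩ = z := fun z => e.symm_apply_apply z
  let W₂ : ValuationSubring j₂.fieldRange := P.W.comap g
  let ρ : W₂ →+* P.W := (g.comp W₂.subtype).codRestrict P.W.toSubring fun z => z.2
  have h₂ : (j₂.comp i₂).fieldRange ≤ j₂.fieldRange := by
    rintro _ ⟨c, rfl⟩
    exact ⟨i₂ c, rfl⟩
  have hmem : ∀ z : T₂, (⟨j₂ z, z, rfl⟩ : j₂.fieldRange) ∈ W₂ ↔ z ∈ P.W := fun z => by
    change g _ ∈ P.W ↔ _
    rw [hg]
  have hρ : ∀ (z : P.W), ρ ⟨⟨j₂ z, z, rfl⟩, (hmem z).2 z.2⟩ = z := fun z => Subtype.ext (hg z)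
  obtain ⟨W, r, a1, a2, a3, a4⟩ := LD.place hLD hk h₂ θ W₂ (P.r.comp ρ)
    (fun z => (h0 (ρ z)).trans (LD2c_isEquiv g P.W).lt_one_iff_lt_one.symm) (by
      rintro _ ⟨c, rfl⟩
      refine ⟨(hmem _).2 (P.mem c), ?_⟩
      exact ((congrArg P.r (hρ ⟨i₂ c, P.mem c⟩)).trans (P.r_j c)).trans (hθ c).symm)
  have hW : ∀ z : T₂, j₂ z ∈ W ↔ z ∈ P.W := fun z => by
    rw [← hmem, ← a3]
    rfl
  refine ⟨W, r, a1, a2, fun z => ⟨(hW z).2 z.2, ?_⟩, fun z => (hW z).1⟩
  exact (a4 ⟨⟨j₂ z, z, rfl⟩, (hmem z).2 z.2⟩ _).trans (congrArg P.r (hρ z))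

/-- Composition of a place with an embedding of the field of values. -/
def Geo7_post {k T T' T'' : Type u} [Field k] [Field T] [Field T'] [Field T''] {j : k →+* T}
    {j' : k →+* T'} (P : Place j j') (ψ : T' →+* T'') {j'' : k →+* T''}
    (h : ∀ c, ψ (j' c) = j'' c) : Place j j'' where
  W := P.W
  mem := P.mem
  r := ψ.comp P.r
  r_j c := (congrArg ψ (P.r_j c)).trans (h c)

namespace PG

variable {A B : PG.{u}}

theorem Geo7_red_post {T T' T'' : Type u} [Field T] [Field T'] [Field T''] {W : ValuationSubring T}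
    {r : W →+* T'} {s : A.Str T} {s' : A.Str T'} {s'' : A.Str T''} {x : A.Pt s} {y : A.Pt s'}
    (h : Red W r x y) (ψ : T' →+* T'') (e : A.push ψ s' = s'') :
    Red W (ψ.comp r) x (A.map ψ e y) := by
  obtain ⟨v, h1, h2, h3⟩ := h
  exact ⟨v, h1, h2, rep_map ψ e h3⟩

theorem tc {k κ₁ κ₂ E : Type u} [Field k] [Field κ₁] [Field κ₂] [Field E] [IsAlgClosed k]
    [IsAlgClosed κ₁] [IsAlgClosed κ₂] [IsAlgClosed E] {i₁ : k →+* κ₁} {i₂ : k →+* κ₂}
    {j₁ : κ₁ →+* E} {j₂ : κ₂ →+* E} (hij : j₁.comp i₁ = j₂.comp i₂)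
    (hLD : LD (j₁.comp i₁).fieldRange j₁.fieldRange j₂.fieldRange) {s : A.Str k} {s₁ : A.Str κ₁}
    {s₂ : A.Str κ₂} {s' : A.Str E} (h₁ : A.push i₁ s = s₁) (h₂ : A.push i₂ s = s₂)
    (e₁ : A.push j₁ s₁ = s') (e₂ : A.push j₂ s₂ = s') {V : Set (A.Pt s₁)} {W : Set (A.Pt s₂)}
    (hV : Var V) (hW : Var W) {d : A.Pt s'} (hd : ext j₁ s' V = d +ᵥ ext j₂ s' W)
    {D : Set (A.Pt s)} (hD : d ∈ ext (j₁.comp i₁) s' D) :
    ∃ (V₁ : Set (A.Pt s)) (a : A.Pt s₁), Var V₁ ∧ a ∈ ext i₁ s₁ D ∧ V = a +ᵥ ext i₁ s₁ V₁ := by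
  -- the place of `E` with values in `κ₁`
  obtain ⟨P₂, hP₂⟩ := exists_place_self i₂
  have hk : (j₂.comp i₂).fieldRange ≤ j₁.fieldRange := by
    rw [← hij]
    rintro _ ⟨c, rfl⟩
    exact ⟨i₁ c, rfl⟩
  have hθ : ∀ z : κ₁, j₁.rangeRestrictFieldEquiv.symm.toRingHom ⟨j₁ z, z, rfl⟩ = z := fun z =>
    j₁.rangeRestrictFieldEquiv.symm_apply_apply z
  obtain ⟨W₀, r₀, a1, a2, a3, a4⟩ := Geo7_glue hk (hij ▸ hLD)
    j₁.rangeRestrictFieldEquiv.symm.toRingHom (Geo7_post P₂ i₁ (j'' := i₁) fun _ => rfl)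
    (fun z => (map_eq_zero i₁).trans (hP₂ z)) (fun c => by
      have hc : j₂ (i₂ c) = j₁ (i₁ c) := (RingHom.congr_fun hij c).symm
      exact (congrArg _ (Subtype.ext hc)).trans (hθ (i₁ c)))
  let P₀ : Place j₁ (RingHom.id κ₁) :=
    ⟨W₀, fun c => (a2 ⟨j₁ c, c, rfl⟩).1, r₀, fun c => (a2 ⟨j₁ c, c, rfl⟩).2.trans (hθ c)⟩
  obtain ⟨a, ha⟩ : ∃ a, P₀.red e₁ (A.ax.push_id s₁) d = a := ⟨_, rfl⟩
  have ha' : Red W₀ r₀ d a := (P₀.red_eq_iff _ _).1 ha
  have haD : a ∈ ext i₁ s₁ D := red_mem_ext (P₀.restrict i₁) ha' hD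
  -- a generic point, free from `E`
  obtain ⟨T, _, _, i, y, hy, hF⟩ := hV.exists_gen' j₁
  have et : A.push (i.comp j₁) s₁ = A.push (i.comp j₁) s₁ := rfl
  have e' : A.push i s' = A.push (i.comp j₁) s₁ := by rw [← e₁, A.ax.push_comp]
  generalize hFd : acl (adj (i.comp j₁).fieldRange (rat y)) = F at hF
  have hkF : (i.comp j₁).fieldRange ≤ F := hFd ▸ (le_adj _ _).trans (le_acl _)
  have hyF : Rat F y := hFd ▸ (rat_adj _ y).mono (le_acl _)
  have hki : (i.comp j₁).fieldRange ≤ i.fieldRange := by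
    rintro _ ⟨c, rfl⟩
    exact ⟨j₁ c, rfl⟩
  obtain ⟨W₁, r₁, b1, b2, b3, b4⟩ := Geo7_glue hkF (hF.symm hki hkF) F.subtype
    (Geo7_post P₀ (i.comp j₁) (j'' := i.comp j₁) fun _ => rfl)
    (fun z => (map_eq_zero (i.comp j₁)).trans (a1 z)) (fun c => rfl)
  let P : Place (i.comp j₁) (i.comp j₁) :=
    ⟨W₁, fun c => (b2 ⟨_, hkF ⟨c, rfl⟩⟩).1, r₁, fun c => (b2 ⟨_, hkF ⟨c, rfl⟩⟩).2⟩
  have hPy : P.red et et y = y := by
    obtain ⟨s₀, hs₀⟩ := def_range (i.comp j₁) s₁ et hkF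
    obtain ⟨y₀, rfl⟩ := (rat_subtype_iff hs₀).1 hyF
    exact (P.red_eq_iff _ _).2 (red_of_rat F.subtype F.subtype b2 hs₀ hs₀ y₀)
  have hPd : P.red et et (A.map i e' d) = A.map (i.comp j₁) et a :=
    (P.red_eq_iff _ _).2 (Red.of_map i b3 e' (Geo7_red_post ha' (i.comp j₁) et))
  have hw : -A.map i e' d + y ∈ ext (i.comp j₂) _ W := by
    have h3 : y ∈ ext (i.comp j₁) _ V := hy ▸ mem_ext_loc et y
    rw [← ext_ext j₁ i e₁, hd, ext_vadd e', ext_ext j₂ i e₂] at h3
    obtain ⟨w, hw, rfl⟩ := h3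
    simpa using hw
  have hred : Red W₁ r₁ (-A.map i e' d + y) (A.map (i.comp j₁) et (-a) + y) :=
    (P.red_eq_iff et et).1 (by rw [map_add, map_neg, hPy, hPd, map_neg])
  have hrk := hred.rk_le (E := (i.comp j₂).fieldRange) (E' := ((i.comp j₁).comp i₁).fieldRange)
    (by
      rintro ⟨z, hz⟩ ⟨c, rfl⟩
      have hc : j₂ c ∈ W₀ := b4 _ hz
      have hc' : c ∈ P₂.W := a4 _ hc
      refine ⟨P₂.r ⟨c, hc'⟩, ?_⟩
      have h4 := (b3 ⟨j₂ c, hc⟩).2
      have h5 := (a3 ⟨c, hc'⟩).2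
      exact ((congrArg (i.comp j₁) h5).symm).trans h4.symm) b1
  have hdim : dim W = dim V := by
    rw [← dim_ext hW j₂ e₂, ← dim_vadd (var_ext hW j₂ e₂) d, ← hd, dim_ext hV j₁ e₁]
  have hloc : loc (i.comp j₁) s₁ (A.map (i.comp j₁) et (-a) + y) = -a +ᵥ V := by
    rw [loc_vadd et, hy]
  have key := loc_eq_ext_of_rk i₁ (i.comp j₁) h₁ et (y := A.map (i.comp j₁) et (-a) + y) (by
    refine hrk.trans ((rk_le_dim (push_trans e₂ e') hW hw).trans ?_)
    rw [← dim_loc et, hloc, dim_vadd hV, hdim])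
  refine ⟨_, a, var_loc (push_trans h₁ et) (A.map (i.comp j₁) et (-a) + y), haD, ?_⟩
  rw [← key, hloc, vadd_neg_vadd]

theorem tu {κ E : Type u} [Field κ] [Field E] [IsAlgClosed κ] [IsAlgClosed E] {j : κ →+* E}
    {s : A.Str κ} {s' : A.Str E} (e : A.push j s = s') {V W : Set (A.Pt s)} (hV : Var V)
    (hW : Var W) (hS : (Stab V : Set (A.Pt s)).Finite) {d : A.Pt s'}
    (hd : d +ᵥ ext j s' V = ext j s' W) : Rat j.fieldRange d := by
  obtain ⟨P, -⟩ := exists_place_self j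
  have e₀ := A.ax.push_id s
  have hr : ∀ {X : Set (A.Pt s)}, Cl X → ∀ y ∈ ext j s' X, P.red e e₀ y ∈ X := fun hX y hy =>
    hX (red_mem_ext P ((P.red_eq_iff e e₀).1 rfl) hy)
  have hm : ∀ x, P.red e e₀ (A.map j e x) = x := fun x => by
    rw [P.red_map, map_id' fun _ => rfl]
  have hVW : P.red e e₀ d +ᵥ V = W := by
    refine Set.Subset.antisymm ?_ fun w hw => ?_
    · rintro _ ⟨x, hx, rfl⟩
      have h1 : d + A.map j e x ∈ ext j s' W := hd ▸ ⟨_, map_mem_ext j e hx, rfl⟩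
      have h2 := hr hW.1 _ h1
      rwa [map_add, hm] at h2
    · have h1 : A.map j e w ∈ d +ᵥ ext j s' V := hd ▸ map_mem_ext j e hw
      obtain ⟨x, hx, hx'⟩ := h1
      refine ⟨_, hr hV.1 x hx, ?_⟩
      have h2 := congrArg (P.red e e₀) hx'
      rw [hm] at h2
      exact ((map_add _ _ _).symm).trans h2
  have h3 : -A.map j e (P.red e e₀ d) + d ∈ Stab (ext j s' V) := by
    rw [mem_stab, add_vadd, hd, ← hVW, ext_vadd e, neg_vadd_vadd]
  rw [ext_stab e hV.1] at h3
  obtain ⟨x, hx⟩ := (rat_range_iff j e).1 (rat_of_mem_finite e hS h3)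
  exact (rat_range_iff j e).2 ⟨P.red e e₀ d + x, by rw [map_add, hx, add_neg_cancel_left]⟩

theorem rk_le_of_ker {k T : Type u} [Field k] [Field T] [IsAlgClosed k] [IsAlgClosed T]
    {s : A.Str k} {t : B.Str k} {Γ : AddSubgroup ((A.prod B).Pt (s, t))}
    (hΓ : Cl (A := A.prod B) (s := (s, t)) Γ) {S : AddSubgroup (A.Pt s)} (hS : IdC S (ker Γ))
    {j : k →+* T} {s' : A.Str T} {t' : B.Str T} (h : A.push j s = s') (e : B.push j t = t')
    {z : A.Pt s'} {w : B.Pt t'} (hz : ((z, w) : (A.prod B).Pt (s', t')) ∈ extG h e Γ) :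
    rk (adj j.fieldRange (rat w)) (rat z) ≤ dim (S : Set (A.Pt s)) := by
  rw [← rk_acl]
  have hF : IsAlgClosed (acl (adj j.fieldRange (rat w))) := inferInstance
  generalize hFd : acl (adj j.fieldRange (rat w)) = F at hF
  have hkF : j.fieldRange ≤ F := hFd ▸ (le_adj _ _).trans (le_acl _)
  have hwF : Rat F w := hFd ▸ (rat_adj _ w).mono (le_acl _)
  let i : k →+* F := j.codRestrict F fun c => hkF ⟨c, rfl⟩
  have hi : F.subtype.comp i = j := rfl
  have h' : A.push F.subtype (A.push i s) = s' := by rw [A.ax.push_comp, hi, h]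
  have e' : B.push F.subtype (B.push i t) = t' := by rw [B.ax.push_comp, hi, e]
  obtain ⟨w₁, rfl⟩ := (rat_subtype_iff e').1 hwF
  have h1 : B.map F.subtype e' w₁ ∈ ran (extG h e Γ) := mem_ran.2 ⟨z, hz⟩
  rw [ran_ext] at h1
  have h2 : w₁ ∈ extS (rfl : B.push i t = _) (ran Γ) :=
    (mem_ext_map_iff (j := i) F.subtype.injective e').1 h1
  rw [← ran_ext (rfl : A.push i s = _)] at h2
  obtain ⟨z₁, hz₁⟩ := mem_ran.1 h2
  have h3 : ((A.map F.subtype h' z₁, B.map F.subtype e' w₁) : (A.prod B).Pt (s', t')) ∈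
      extG h e Γ := mem_ext_map (A := A.prod B) (j := i) F.subtype (prod_push h' e') hz₁
  have h4 : z - A.map F.subtype h' z₁ ∈ ker (extG h e Γ) := by
    have h5 := (extG h e Γ).sub_mem hz h3
    refine mem_ker.2 ?_
    convert h5 using 1
    exact Prod.ext rfl (sub_self _).symm
  rw [ker_ext hΓ] at h4
  obtain ⟨G, hG, hG'⟩ := hS.fin
  have h6 : (ker Γ : Set (A.Pt s)) ⊆ ⋃ a ∈ G, a +ᵥ (S : Set (A.Pt s)) := fun x hx => by
    obtain ⟨a, ha, ha'⟩ := hG' x hx
    exact Set.mem_biUnion ha ⟨x - a, ha', by simp⟩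
  have h7 := ext_mono j s' h6 h4
  rw [ext_biUnion hG] at h7
  obtain ⟨a, -, ha⟩ := Set.mem_iUnion₂.1 h7
  rw [ext_vadd h] at ha
  obtain ⟨y, hy, hy'⟩ := ha
  have hz' : z = A.map j h a + y + A.map F.subtype h' z₁ := (eq_sub_iff_add_eq.1 hy').symm
  refine le_trans ?_ ((rk_anti hkF).trans (rk_le_dim h hS.var hy))
  refine rk_le_of_acl (Set.Subset.trans ?_ (le_acl _))
  have hdef : A.Def (adj F (rat y)) s' := def_range j s h (hkF.trans (le_adj _ _))
  change Rat (adj F (rat y)) z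
  rw [hz']
  refine Rat.add hdef (Rat.add hdef ?_ (rat_adj F y)) ?_
  · exact ((rat_range_iff j h).2 ⟨a, rfl⟩).mono (hkF.trans (le_adj _ _))
  · exact ((rat_subtype_iff h').2 ⟨z₁, rfl⟩).mono (le_adj _ _)

end PG

end MLF
end

-- merged part: Pool.Agent.Work.MP_29d410_ag.Tor1
section
/-!
# Unramified characters of order `p` of a function field of one variable; orbits

Plan for `unr`.  Choose a separating transcendental element `x`
(`exists_isTranscendenceBasis_and_isSeparable_of_perfectField`; if the rank is zero then `E = C`,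
`E' = C`).  `R`, `R'`, `R''` are the integral closures in `E` of `C[x]`, `C[1/x]`, `C[x, 1/x]`;
`Q = R'' / (R + R')` has finite dimension over `C`: if `r i` generate `R` over `C[x]` then the
`x ^ n * r i`, `n ∈ ℤ`, span `R''`, and `x ^ (-n) * r i ∈ R'` for large `n`.  Replace `E'` by the
separable closure of `E` in `E'` (same group `G`; valuation rings extend uniquely).  Let `S` be the
integral closure of `C[x]` in `E'` (Dedekind), `H = ker χ`.  There is `θ ∈ S` fixed by `H` with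
`∑ σ ∈ G / H, σ θ = 1`: such sums form an ideal of `R`; for a maximal ideal `𝔮` of `S` (residue field
`C`) the localisation is a valuation ring `W`, `σ 𝔮 = 𝔮` implies `σ ∈ H`; take `θ₀ ≡ 1` modulo the
primes `h 𝔮`, `≡ 0` modulo the other conjugates, and `θ = ∏ h ∈ H, h θ₀`.  Put
`a = ∑ χ σ * σ θ`, then `τ a - a = -χ τ`.  Likewise `a'` for `1 / x`.  The class of `a - a' ∈ R''`
in `Q` is fixed by Frobenius, and determines `χ`: if `(a₁ - a₁') - (a₂ - a₂') = r + r'` then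
`a₁ - a₂ - r` is integral over `C[x]` and `C[1/x]`, so lies in `C`.  `lang_card`.
`finite_orbits`: the ideals of relations over `acl F` of the conjugates of `w` are primes minimal
over the extension of the ideal of relations of `w` over `F` (incomparability in the integral
extension `F[X] → (acl F)[X]`); two tuples with the same ideal are conjugate.
-/

namespace MLF

universe u

open IntermediateField in
theorem Tor1_core (p : ℕ) [Fact p.Prime] {C E : Type u} [Field C] [IsAlgClosed C] [CharP C p]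
    [Field E] [Algebra C E] {x : E} (hx : Transcendental C x) [FiniteDimensional C⟮x⟯ E]
    [Algebra.IsSeparable C⟮x⟯ E] :
    ∃ g : ℕ, ∀ (E' : Type u) [Field E'] [Algebra E E'] [FiniteDimensional E E'] [Normal E E']
      (Y : Finset ((E' ≃ₐ[E] E') →* Multiplicative (ZMod p))),
      (∀ χ ∈ Y, ∀ W : ValuationSubring E', (∀ a, algebraMap E E' (algebraMap C E a) ∈ W) →
        ∀ σ : E' ≃ₐ[E] E', (∀ z ∈ W, W.valuation (σ z - z) < 1) → χ σ = 1) → Y.card ≤ g := by
  have : CharP E p := charP_of_injective_algebraMap (algebraMap C E).injective p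
  obtain ⟨U, hU, hU'⟩ := Tor1_fin hx
  let N := (Tor1_S C x).toSubmodule ⊔ (Tor1_S C x⁻¹).toSubmodule
  have hN : N ≤ N.comap (LinearMap.frobenius C E p) := sup_le
    (fun z hz => Submodule.mem_sup_left ((Tor1_S C x).pow_mem hz p))
    (fun z hz => Submodule.mem_sup_right ((Tor1_S C x⁻¹).pow_mem hz p))
  have hfin := Tor1_fix p (N.mapQ N (LinearMap.frobenius C E p) hN) (hU.map N.mkQ)
  refine ⟨hfin.toFinset.card, fun K _ _ _ _ Y hY => ?_⟩
  let _ : Algebra C K := ((algebraMap E K).comp (algebraMap C E)).toAlgebra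
  have : IsScalarTower C E K := IsScalarTower.of_algebraMap_eq' rfl
  have : CharP K p := charP_of_injective_algebraMap (algebraMap E K).injective p
  choose! e a a' ha ha' he hχ hn hF using fun χ hχ => Tor1_data p hx χ (hY χ hχ)
  refine Finset.card_le_card_of_injOn (fun χ => N.mkQ (e χ)) (fun χ h => ?_) fun χ h ψ h' hq => ?_
  · refine Finset.mem_coe.2 (hfin.mem_toFinset.2 ⟨?_, (Submodule.Quotient.eq N).2 (hF χ h)⟩)
    obtain ⟨n, hn⟩ := hn χ h
    obtain ⟨u, hu, v, hv, e⟩ := Submodule.mem_sup.1 (hU' _ n hn)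
    exact ⟨u, hu, (Submodule.Quotient.eq N).2 (by simpa [← e] using hv)⟩
  · obtain ⟨r, hr, r', hr', e1⟩ := Submodule.mem_sup.1 ((Submodule.Quotient.eq N).1 hq)
    have e2 : a χ - a ψ - algebraMap E K r = a' χ - a' ψ + algebraMap E K r' := by
      have := congrArg (algebraMap E K) e1
      rw [map_add, map_sub, he χ h, he ψ h'] at this
      linear_combination -this
    have h1 : a χ - a ψ - algebraMap E K r ∈ Tor1_S C (algebraMap E K x) :=
      sub_mem (sub_mem (ha χ h) (ha ψ h')) (Tor1_map_iff.2 hr)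
    have h2 : a' χ - a' ψ + algebraMap E K r' ∈ Tor1_S C (algebraMap E K x⁻¹) :=
      add_mem (sub_mem (ha' χ h) (ha' ψ h')) (Tor1_map_iff.2 hr')
    rw [← e2, map_inv₀] at h2
    obtain ⟨μ, hμ⟩ := Tor1_const h1 h2
    refine MonoidHom.ext fun τ => Multiplicative.toAdd.injective
      ((ZMod.castHom (dvd_refl p) K).injective ?_)
    have h3 := Tor1_fixC τ μ
    rw [hμ, map_sub, map_sub, τ.commutes] at h3
    change Tor1_ch χ τ = Tor1_ch ψ τ
    rw [← hχ χ h, ← hχ ψ h']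
    linear_combination h3

theorem unr (p : ℕ) [Fact p.Prime] {C E : Type u} [Field C] [IsAlgClosed C] [CharP C p] [Field E]
    (c : C →+* E) (s : Finset E) (hs : adj c.fieldRange (s : Set E) = ⊤)
    (hr : rk c.fieldRange (s : Set E) ≤ 1) :
    ∃ g : ℕ, ∀ (E' : Type u) [Field E'] [Algebra E E'] [FiniteDimensional E E'] [Normal E E']
      (Y : Finset ((E' ≃ₐ[E] E') →* Multiplicative (ZMod p))),
      (∀ χ ∈ Y, ∀ W : ValuationSubring E', (∀ a, algebraMap E E' (c a) ∈ W) →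
        ∀ σ : E' ≃ₐ[E] E', (∀ z ∈ W, W.valuation (σ z - z) < 1) → χ σ = 1) → Y.card ≤ g := by
  let _ := c.toAlgebra
  have : Algebra.EssFiniteType C E := IntermediateField.fg_top_iff.1 ⟨s,
    IntermediateField.toSubfield_injective
      ((IntermediateField.adjoin_toSubfield C (s : Set E)).trans hs)⟩
  obtain ⟨t, ht, hsep⟩ := exists_isTranscendenceBasis_and_isSeparable_of_perfectField C E
  have h1 : (AlgebraicIndependent.matroid c.fieldRange E).Indep (t : Set E) :=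
    ht.1.ringHom_of_comp_eq c.rangeRestrictField (RingHom.id E)
      c.rangeRestrictFieldEquiv.surjective Function.injective_id rfl
  have h2 : (t : Set E).encard ≤ 1 := by
    refine (h1.encard_le_eRk_of_subset (Set.subset_univ _)).trans ?_
    rw [← rk_adj, hs] at hr
    exact hr
  rw [Set.encard_coe_eq_coe_finsetCard, Nat.cast_le_one, Finset.card_le_one_iff_subset_singleton]
    at h2
  obtain ⟨x, hx⟩ := h2
  rcases Finset.subset_singleton_iff.1 hx with rfl | rfl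
  · refine ⟨1, fun K _ _ _ _ Y _ => Finset.card_le_one.2 fun χ _ ψ _ => MonoidHom.ext fun τ => ?_⟩
    let _ : Algebra C K := ((algebraMap E K).comp (algebraMap C E)).toAlgebra
    have : IsScalarTower C E K := IsScalarTower.of_algebraMap_eq' rfl
    have : Algebra.IsAlgebraic C E := ht.isEmpty_iff_isAlgebraic.1 inferInstance
    have : Algebra.IsAlgebraic C K := Algebra.IsAlgebraic.trans C E K
    have e : τ = 1 := AlgEquiv.ext fun z => by
      obtain ⟨a, rfl⟩ := (IsAlgClosed.algebraMap_bijective_of_isIntegral (k := C) (K := K)).2 z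
      exact Tor1_fixC τ a
    rw [e, map_one, map_one]
  · rw [Finset.coe_singleton] at hsep
    have : Algebra.EssFiniteType (IntermediateField.adjoin C {x}) E := .of_comp C _ _
    have : FiniteDimensional (IntermediateField.adjoin C {x}) E :=
      Algebra.finite_of_essFiniteType_of_isAlgebraic
    exact Tor1_core p (ht.1.transcendental ⟨x, Finset.mem_singleton_self x⟩)

theorem Tor1_acl {Ω : Type u} [Field Ω] {F : Subfield Ω} {σ : Ω →+* Ω} (hσ : ∀ c ∈ F, σ c = c)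
    {z : Ω} (hz : z ∈ acl F) : σ z ∈ acl F :=
  mem_acl.2 ((mem_acl.1 hz).ringHom_of_comp_eq (RingHom.id F) σ Function.injective_id
    (RingHom.ext fun c => (hσ c c.2).symm))

open MvPolynomial in
theorem Tor1_ker {Ω : Type u} [Field Ω] {F : Subfield Ω} {ι : Type} (w : ι → Ω) {σ : Ω ≃+* Ω}
    (hσ : ∀ c ∈ F, σ c = c) : ∃ τ : acl F →+* acl F, (∀ c : acl F, (τ c : Ω) = σ c) ∧
      RingHom.ker (eval₂Hom (acl F).subtype fun i => σ (w i)) =
        (RingHom.ker (eval₂Hom (acl F).subtype w)).map (map τ) := by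
  let τ : acl F →+* acl F := ((σ : Ω →+* Ω).comp (acl F).subtype).codRestrict _ fun c =>
    Tor1_acl (σ := (σ : Ω →+* Ω)) hσ c.2
  have hτ : Function.Surjective τ := fun c =>
    ⟨⟨σ.symm c, Tor1_acl (σ := (σ.symm : Ω →+* Ω))
      (fun a ha => σ.symm_apply_eq.2 (hσ a ha).symm) c.2⟩, Subtype.ext (σ.apply_symm_apply c)⟩
  have e : (eval₂Hom (acl F).subtype fun i => σ (w i)).comp (map τ) =
      (σ : Ω →+* Ω).comp (eval₂Hom (acl F).subtype w) := by
    ext <;> simp [τ]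
  refine ⟨τ, fun c => rfl, ?_⟩
  rw [← RingHom.ker_comp_of_injective (eval₂Hom (acl F).subtype w)
    (show Function.Injective (σ : Ω →+* Ω) from σ.injective), ← e, ← RingHom.comap_ker,
    Ideal.map_comap_of_surjective _ (map_surjective τ hτ)]

theorem Tor1_conj {k P Ω : Type u} [Field k] [CommRing P] [Algebra k P] [Algebra.FiniteType k P]
    [Field Ω] [IsAlgClosed Ω] (a b : P →+* Ω) (h : RingHom.ker a = RingHom.ker b)
    (h' : a.comp (algebraMap k P) = b.comp (algebraMap k P)) :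
    ∃ ρ : Ω ≃+* Ω, ∀ f, ρ (a f) = b f := by
  have := RingHom.ker_isPrime a
  obtain ⟨ρ, hρ⟩ := Geo2A_aut (k := k) (Q := P ⧸ RingHom.ker a) (T := Ω) (RingHom.kerLift a)
    (Ideal.Quotient.lift _ b fun f hf => h.le hf) (RingHom.kerLift_injective a)
    (RingHom.lift_injective_of_ker_le_ideal _ _ h.ge) (RingHom.ext fun c => RingHom.congr_fun h' c)
  exact ⟨ρ, fun f => hρ (Ideal.Quotient.mk _ f)⟩

theorem finite_orbits {Ω : Type u} [Field Ω] [IsAlgClosed Ω] (F : Subfield Ω) {ι : Type} [Finite ι]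
    (w : ι → Ω) : ∃ d : ℕ, ∀ Y : Finset (Ω ≃+* Ω), (∀ σ ∈ Y, ∀ c ∈ F, σ c = c) →
      (∀ σ ∈ Y, ∀ σ' ∈ Y, ∀ ρ : Ω ≃+* Ω, (∀ c ∈ acl F, ρ c = c) → (∀ i, ρ (σ (w i)) = σ' (w i)) →
        σ = σ') → Y.card ≤ d := by
  classical
  obtain ⟨T, hT⟩ := IsNoetherian.noetherian (RingHom.ker (MvPolynomial.eval₂Hom (acl F).subtype w))
  let D : Finset (acl F) := T.biUnion MvPolynomial.coeffs
  refine ⟨(Fintype.piFinset fun c : D => ((minpoly F (c : Ω)).aroots Ω).toFinset).card,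
    fun Y h1 h2 => Finset.card_le_card_of_injOn (fun σ (c : D) => σ c) (fun σ hσ => ?_)
      fun σ hσ σ' hσ' e => ?_⟩
  · refine Finset.mem_coe.2 (Fintype.mem_piFinset.2 fun c => ?_)
    rw [Multiset.mem_toFinset, Polynomial.mem_aroots]
    refine ⟨minpoly.ne_zero (mem_acl.1 c.1.2).isIntegral, ?_⟩
    have e : (σ : Ω →+* Ω).comp (algebraMap F Ω) = algebraMap F Ω :=
      RingHom.ext fun a => h1 σ hσ a a.2
    have := Polynomial.hom_eval₂ (minpoly F (c : Ω)) (algebraMap F Ω) (σ : Ω →+* Ω) c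
    rw [e, ← Polynomial.aeval_def, ← Polynomial.aeval_def, minpoly.aeval, map_zero] at this
    exact this.symm
  · obtain ⟨τ, hτ, k⟩ := Tor1_ker w (h1 σ hσ)
    obtain ⟨τ', hτ', k'⟩ := Tor1_ker w (h1 σ' hσ')
    have hk : RingHom.ker (MvPolynomial.eval₂Hom (acl F).subtype fun i => σ (w i)) =
        RingHom.ker (MvPolynomial.eval₂Hom (acl F).subtype fun i => σ' (w i)) := by
      rw [k, k', ← hT, Ideal.submodule_span_eq, Ideal.map_span, Ideal.map_span]
      congr 1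
      refine Set.image_congr fun f hf => MvPolynomial.ext _ _ fun m => ?_
      rw [MvPolynomial.coeff_map, MvPolynomial.coeff_map]
      by_cases hm : f.coeff m = 0
      · rw [hm, map_zero, map_zero]
      · refine Subtype.ext ((hτ _).trans (Eq.trans ?_ (hτ' _).symm))
        exact congrFun e ⟨f.coeff m, Finset.mem_biUnion.2
          ⟨f, hf, MvPolynomial.coeff_mem_coeffs m hm⟩⟩
    obtain ⟨ρ, hρ⟩ := Tor1_conj (k := acl F) _ _ hk (RingHom.ext fun c =>
      (MvPolynomial.eval₂Hom_C _ _ c).trans (MvPolynomial.eval₂Hom_C _ _ c).symm)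
    refine h2 σ hσ σ' hσ' ρ (fun c hc => ?_) fun i => ?_
    · simpa using hρ (MvPolynomial.C ⟨c, hc⟩)
    · simpa using hρ (MvPolynomial.X i)

end MLF
end

-- merged part: Pool.Agent.Work.MP_29d410_ag.Tor2
section
/-!
# The `p`-torsion over the algebraic closure of a finite field is finite

Plan.  Suppose `G = {x | p • x = 0}` (closed) is infinite.  Take a point `y ∈ ext G` of rank one
over `T` (`Cl.exists_var_infinite`, `Var.exists_curve`), `B` and `n` from `exists_gen_sub`; `B ≤ G` is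
infinite, `b = y - y₀ ∈ ext B` for `y₀ ∈ loc y`, `E = C(b)`, `g` from `unr`.  Let `q = p ^ m` fix the
coefficients of the structure and of `B` (`push_congr`, `exists_fix`, `exists_frob_fix`),
`π = map frob ^ m`, `λ = π - 1` (`NM.frob_aux`), `B q = {x ∈ B | π x = x}`, finite.  `λ B = B` by
dimension, so `b = λ z`, `z ∈ ext B`; the solutions are the `z + τ`, `τ ∈ B q`, so `E' = E(z)` is
finite and normal over `E`, `σ ↦ σ z - z` is a homomorphism from its group onto `Γ q ≤ B q`, an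
`𝔽_p`-vector space.  If `σ` acts trivially on the residues of `W` then reducing `σ z = z + τ` gives
`τ = 0`.  So the number of characters of `Γ q`, which is its order, is at most `g`.
Take an independent family `ψ` of `n + n` copies of `T` in `Ω`; `b' = ∑ (ψ b - ψ' b)` is generic in
`B`, so is `z' = ∑ (ψ z - ψ' z)` (`λ z' = b'`).  For `τ ∈ B q` pick `σ τ ∈ Aut (Ω / C)` with
`σ τ z' = z' + τ` (`conj_aut`); it fixes `F = C(b')`.  Let `w` be the family of all ratios of the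
`ψ l b`.  If `ρ` fixes `acl F` (which contains the ratios of `z'`) and `ρ (σ τ w) = σ τ' w`, then
`(σ τ')⁻¹ ρ (σ τ)` fixes all `ψ l E` and moves `z'` by `τ - τ'`, so `τ - τ' ∈ Γ q`.  Hence
`card (B q) ≤ d * g` (`finite_orbits`) for all such `q`, and `B` is the increasing union of the `B q`.
-/

open Pointwise

namespace MLF

universe u

open PG

section aux

theorem Tor2_dual₀ (p : ℕ) [Fact p.Prime] (N : Type u) [AddCommGroup N] [Finite N]
    [Module (ZMod p) N] : ∃ Y : Finset (N →+ ZMod p), Y.card = Nat.card N := by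
  classical
  have h1 : Module.Finite (ZMod p) N := Module.Finite.of_finite
  have e : N ≃ Module.Dual (ZMod p) N := (Module.finBasis (ZMod p) N).toDualEquiv.toEquiv
  have := Fintype.ofFinite N
  refine ⟨Finset.univ.map ⟨fun x => (e x).toAddMonoidHom, fun x y h => e.injective ?_⟩, ?_⟩
  · exact LinearMap.ext fun a => DFunLike.congr_fun h a
  · rw [Finset.card_map, Finset.card_univ, Nat.card_eq_fintype_card]

theorem Tor2_dual (p : ℕ) [Fact p.Prime] {N : Type u} [AddCommGroup N] [Finite N]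
    (hN : ∀ x : N, p • x = 0) : ∃ Y : Finset (N →+ ZMod p), Y.card = Nat.card N :=
  @Tor2_dual₀ p _ N _ _ (AddCommGroup.zmodModule hN)

theorem Tor2_char (p : ℕ) [Fact p.Prime] {G M : Type u} [Group G] [Finite G] [AddCommGroup M]
    (τ : G → M) (hτ : ∀ a b, τ (a * b) = τ a + τ b) (hp : ∀ a, p • τ a = 0) {g : ℕ}
    (h : ∀ Y : Finset (G →* Multiplicative (ZMod p)), (∀ χ ∈ Y, ∀ σ, τ σ = 0 → χ σ = 1) →
      Y.card ≤ g) : ∃ Γ : AddSubgroup M, (∀ σ, τ σ ∈ Γ) ∧ Finite Γ ∧ Nat.card Γ ≤ g := by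
  classical
  let φ : Additive G →+ M := AddMonoidHom.mk' (fun a => τ a.toMul) fun a b => hτ _ _
  have hm : ∀ σ, τ σ ∈ φ.range := fun σ => ⟨Additive.ofMul σ, rfl⟩
  have hfin : Finite φ.range := Finite.of_surjective _ φ.rangeRestrict_surjective
  refine ⟨φ.range, hm, hfin, ?_⟩
  have hΓ : ∀ x : φ.range, p • x = 0 := by
    rintro ⟨_, a, rfl⟩
    exact Subtype.ext (hp _)
  obtain ⟨Y, hY⟩ := Tor2_dual p hΓ
  let Φ : (φ.range →+ ZMod p) → (G →* Multiplicative (ZMod p)) := fun χ =>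
    MonoidHom.mk' (fun σ => Multiplicative.ofAdd (χ ⟨τ σ, hm σ⟩)) fun a b => by
      rw [← ofAdd_add, ← map_add]
      congr 2
      exact Subtype.ext (hτ a b)
  have hΦ : Function.Injective Φ := by
    intro χ χ' e
    ext ⟨_, a, rfl⟩
    exact Multiplicative.ofAdd.injective (DFunLike.congr_fun e a.toMul)
  have h1 := h (Y.map ⟨Φ, hΦ⟩) (by
    intro χ hχ σ h0
    obtain ⟨χ', -, rfl⟩ := Finset.mem_map.1 hχ
    have : (⟨τ σ, hm σ⟩ : φ.range) = 0 := Subtype.ext h0
    change Multiplicative.ofAdd (χ' ⟨τ σ, hm σ⟩) = 1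
    rw [this, map_zero, ofAdd_zero])
  rwa [Finset.card_map, hY] at h1

theorem Tor2_count {M : Type u} [AddCommGroup M] (Γ : AddSubgroup M) [Finite Γ] (S : Finset M)
    {d : ℕ} (h : ∀ R : Finset M, R ⊆ S → (∀ a ∈ R, ∀ b ∈ R, a - b ∈ Γ → a = b) → R.card ≤ d) :
    S.card ≤ Nat.card Γ * d := by
  classical
  let f : M → M ⧸ Γ := QuotientAddGroup.mk
  obtain ⟨R, hR, hinj, himg⟩ := Finset.exists_subset_injOn_image_eq_of_surjOn (f := f) (S : Set M)
    (S.image f) (by
      intro c hc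
      obtain ⟨a, ha, rfl⟩ := Finset.mem_image.1 hc
      exact ⟨a, ha, rfl⟩)
  have h1 : (S.image f).card ≤ d := by
    rw [← himg, Finset.card_image_of_injOn hinj]
    refine h R hR fun a ha b hb hab => hinj ha hb ?_
    exact QuotientAddGroup.eq_iff_sub_mem.2 hab
  refine (Finset.card_le_mul_card_image (f := f) S (Nat.card Γ) ?_).trans
    (Nat.mul_le_mul_left _ h1)
  intro c hc
  obtain ⟨a, -, rfl⟩ := Finset.mem_image.1 hc
  rw [← Nat.card_eq_finsetCard]
  refine Nat.card_le_card_of_injective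
    (fun x : {x // x ∈ S.filter fun y => f y = f a} =>
      (⟨x.1 - a, QuotientAddGroup.eq_iff_sub_mem.1 (Finset.mem_filter.1 x.2).2⟩ : Γ)) ?_
  intro x y e
  exact Subtype.ext (sub_left_injective (congrArg Subtype.val e))

theorem Tor2_normal {E E' Ω : Type u} [Field E] [Field E'] [Field Ω] [Algebra E E'] [Normal E E']
    (a a' : E' →+* Ω) (h : ∀ x : E, a' (algebraMap E E' x) = a (algebraMap E E' x)) :
    ∃ σ : E' ≃ₐ[E] E', ∀ x, a (σ x) = a' x := by
  let _ : Algebra E' Ω := a.toAlgebra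
  let _ : Algebra E Ω := (a.comp (algebraMap E E')).toAlgebra
  have : IsScalarTower E E' Ω := IsScalarTower.of_algebraMap_eq fun _ => rfl
  let φ : E' →ₐ[E] Ω := ⟨a', h⟩
  exact ⟨φ.restrictNormal' E', fun x => φ.restrictNormal_commutes E' x⟩

theorem Tor2_fix {Ω Ω' : Type u} [Field Ω] [Field Ω'] {E : Subfield Ω} {S : Set Ω}
    {f g : Ω →+* Ω'} (h : ∀ c ∈ E, f c = g c) (h' : ∀ c ∈ S, f c = g c) :
    ∀ c ∈ adj E S, f c = g c :=
  RingHom.eqOn_field_closure (s := (E : Set Ω) ∪ S) fun c hc => hc.elim (h c) (h' c)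

end aux

variable {A : PG.{u}} {C : Type u} [Field C] [IsAlgClosed C] {s : A.Str C}

/-- An additive natural map with finite kernel. -/
structure Tor2Good (lam : NM A A s s) : Prop where
  sub : ∀ {T : Type u} [Field T] (j : C →+* T) {t : A.Str T} (h : A.push j s = t) (x y : A.Pt t),
    lam.f j h h (x - y) = lam.f j h h x - lam.f j h h y
  fin : (lam.f₀ ⁻¹' {0}).Finite

section good

variable {lam : NM A A s s} {T : Type u} [Field T] {j : C →+* T} {t : A.Str T}

omit [IsAlgClosed C] in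
theorem Tor2_f_map (lam : NM A A s s) (h : A.push j s = t) (x : A.Pt s) :
    lam.f j h h (A.map j h x) = A.map j h (lam.f₀ x) :=
  (lam.map_f j (RingHom.comp_id j) (A.ax.push_id s) h (A.ax.push_id s) h h h x).symm

/-- The additive map. -/
noncomputable def Tor2Good.hom (H : Tor2Good lam) (h : A.push j s = t) : A.Pt t →+ A.Pt t :=
  AddMonoidHom.ofMapSub (lam.f j h h) (H.sub j h)

omit [IsAlgClosed C] in
theorem Tor2Good.hom_apply (H : Tor2Good lam) (h : A.push j s = t) (x : A.Pt t) :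
    H.hom h x = lam.f j h h x := rfl

theorem Tor2Good.ker (H : Tor2Good lam) (h : A.push j s = t) {w : A.Pt t}
    (hw : lam.f j h h w = 0) : ∃ τ, A.map j h τ = w := by
  have h1 : w ∈ ext j t (lam.f₀ ⁻¹' {0}) := by
    rw [lam.ext_preimage h h (cl_singleton 0), Set.mem_preimage, hw, ← map_zero (A.map j h)]
    exact map_mem_ext j h rfl
  rw [ext_finite h H.fin] at h1
  obtain ⟨τ, -, hτ⟩ := h1
  exact ⟨τ, hτ⟩

theorem Tor2Good.surj (H : Tor2Good lam) {B : AddSubgroup (A.Pt s)} (hB : Var (B : Set (A.Pt s)))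
    (hl : lam.f₀ '' B ⊆ B) : lam.f₀ '' B = B := by
  refine eq_of_dim hB (lam.var_image hB) hl (dim_image_eq lam hB fun y => ?_).ge
  rcases ((B : Set (A.Pt s)) ∩ lam.f₀ ⁻¹' {y}).eq_empty_or_nonempty with h | ⟨x₀, -, hx₀⟩
  · rw [h]
    exact Set.finite_empty
  · refine (H.fin.image (· + x₀)).subset ?_
    rintro x ⟨-, hx⟩
    refine ⟨x - x₀, ?_, sub_add_cancel x x₀⟩
    have h1 : lam.f₀ (x - x₀) = lam.f₀ x - lam.f₀ x₀ := H.sub _ _ x x₀
    have h2 : lam.f₀ x = y := hx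
    have h3 : lam.f₀ x₀ = y := hx₀
    rw [Set.mem_preimage, h1, h2, h3, sub_self]
    rfl

theorem Tor2_solve {B : Set (A.Pt s)} (hl : lam.f₀ '' B = B) (h : A.push j s = t)
    (K : Subfield T) [IsAlgClosed K] (hK : j.fieldRange ≤ K) {b : A.Pt t} (hb : b ∈ ext j t B)
    (hr : Rat K b) : ∃ z ∈ ext j t B, Rat K z ∧ lam.f j h h z = b := by
  let jK : C →+* K := j.codRestrict K fun x => hK ⟨x, rfl⟩
  have ej : K.subtype.comp jK = j := RingHom.ext fun _ => rfl
  have hι : A.push K.subtype (A.push jK s) = t := by rw [A.ax.push_comp, ej, h]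
  obtain ⟨b₀, rfl⟩ := (rat_subtype_iff hι).1 hr
  have h1 : b₀ ∈ ext jK (A.push jK s) B :=
    (mem_ext_map_iff K.subtype.injective hι).1 (by rw [ej]; exact hb)
  rw [← hl, lam.ext_image rfl rfl] at h1
  obtain ⟨z₀, hz₀, rfl⟩ := h1
  refine ⟨A.map K.subtype hι z₀, ?_, (rat_subtype_iff hι).2 ⟨z₀, rfl⟩, ?_⟩
  · have := mem_ext_map K.subtype hι hz₀
    rwa [ej] at this
  · exact (lam.map_f K.subtype ej rfl h rfl h hι hι z₀).symm

omit [IsAlgClosed C] in
/-- Points with the same reduction whose difference is constant are equal. -/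
theorem Tor2_inertia (h : A.push j s = t) (W : ValuationSubring T) (hW : ∀ a, j a ∈ W)
    {x : A.Pt t} {τ : A.Pt s} (hx : CongW W x (x + A.map j h τ)) : τ = 0 := by
  let jW : C →+* W := j.codRestrict W hW
  let j' : C →+* IsLocalRing.ResidueField W := (IsLocalRing.residue W).comp jW
  let P : Place j j' := ⟨W, hW, IsLocalRing.residue W, fun _ => rfl⟩
  have h0 : ∀ z : W, IsLocalRing.residue W z = 0 ↔ W.valuation (z : T) < 1 := fun z => by
    rw [IsLocalRing.residue_eq_zero_iff, W.valuation_lt_one_iff]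
  have h1 : Red W (IsLocalRing.residue W) x (P.red h rfl x) := (P.red_eq_iff h rfl).1 rfl
  have h2 : P.red h rfl (x + A.map j h τ) = P.red h rfl x :=
    (P.red_eq_iff h rfl).2 ((congW_iff h0 h1).1 hx)
  rw [map_add, P.red_map, add_eq_left, ← map_zero (A.map j' rfl)] at h2
  exact map_inj j'.injective rfl h2

theorem Tor2_gal₀ (p : ℕ) [Fact p.Prime] (H : Tor2Good lam) {E E' : Type u} [Field E] [Field E']
    [Algebra E E'] [FiniteDimensional E E'] (c : C →+* E) {j : C →+* E'}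
    (hj : ∀ a, j a = algebraMap E E' (c a)) {t : A.Str E'} (h : A.push j s = t) {g : ℕ}
    (hg : ∀ Y : Finset ((E' ≃ₐ[E] E') →* Multiplicative (ZMod p)),
      (∀ χ ∈ Y, ∀ W : ValuationSubring E', (∀ a, algebraMap E E' (c a) ∈ W) →
        ∀ σ : E' ≃ₐ[E] E', (∀ z ∈ W, W.valuation (σ z - z) < 1) → χ σ = 1) → Y.card ≤ g)
    {z : A.Pt t} (hz : p • z = 0) (hb : ∀ a ∈ rat (lam.f j h h z), a ∈ (algebraMap E E').range) :
    ∃ Γ : AddSubgroup (A.Pt s), Finite Γ ∧ Nat.card Γ ≤ g ∧ ∀ (σ : E' ≃ₐ[E] E')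
      (e : A.push (σ : E' →+* E') t = t), ∃ τ ∈ Γ,
        A.map (σ : E' →+* E') e z = z + A.map j h τ := by
  have hc : ∀ σ : E' ≃ₐ[E] E', (σ : E' →+* E').comp j = j := fun σ =>
    RingHom.ext fun a => by rw [RingHom.comp_apply, hj]; exact σ.commutes _
  have he : ∀ σ : E' ≃ₐ[E] E', A.push (σ : E' →+* E') t = t := fun σ => by
    rw [← h, A.ax.push_comp, hc]
  have hm : ∀ (σ : E' ≃ₐ[E] E') (τ : A.Pt s),
      A.map (σ : E' →+* E') (he σ) (A.map j h τ) = A.map j h τ := fun σ τ => by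
    rw [map_map]
    exact map_congr (hc σ) _ _ τ
  have h1 : ∀ σ : E' ≃ₐ[E] E', ∃ τ, A.map j h τ = A.map (σ : E' →+* E') (he σ) z - z := by
    intro σ
    refine H.ker h ?_
    rw [H.sub, ← lam.map_f (σ : E' →+* E') (hc σ) h h h h (he σ) (he σ), sub_eq_zero]
    refine ((map_eq_map_iff (he σ) (A.ax.push_id t)).2 fun a ha => ?_).trans
      (map_id' (fun _ => rfl) _ _)
    obtain ⟨a', rfl⟩ := hb a ha
    exact σ.commutes a'
  choose τ hτ using h1
  have hinj := map_inj j.injective h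
  obtain ⟨Γ, h2, h3, h4⟩ := Tor2_char p τ (g := g) (fun a b => hinj (by
      have e1 : A.map ((a * b : E' ≃ₐ[E] E') : E' →+* E') (he _) z =
          A.map (a : E' →+* E') (he a) (A.map (b : E' →+* E') (he b) z) := by
        rw [map_map]
        exact map_congr (RingHom.ext fun _ => rfl) _ _ z
      have e2 : A.map (b : E' →+* E') (he b) z = z + A.map j h (τ b) := by
        rw [hτ, add_sub_cancel]
      rw [map_add, hτ (a * b), hτ a, e1, e2, map_add, hm]
      abel))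
    (fun a => hinj (by rw [map_nsmul, hτ, smul_sub, ← map_nsmul, hz, map_zero, map_zero, sub_zero]))
    (fun Y hY => hg Y fun χ hχ W hW σ hσ => hY χ hχ σ (by
      refine Tor2_inertia h W (fun a => by rw [hj]; exact hW a) (x := z) ?_
      rw [hτ, add_sub_cancel]
      obtain ⟨v, hv, uv⟩ := PB2_lift W z
      have hm' : ∀ i, σ (v i) ∈ W := fun i => by
        have := add_mem ((W.valuation_le_one_iff _).1 (hσ _ (v i).2).le) (v i).2
        rwa [sub_add_cancel] at this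
      refine ⟨v, fun i => ⟨σ (v i), hm' i⟩, hv, rep_map (σ : E' →+* E') (he σ) hv, uv, fun i => ?_⟩
      rw [← Valuation.map_neg, neg_sub]
      exact hσ _ (v i).2))
  exact ⟨Γ, h3, h4, fun σ _ => ⟨τ σ, h2 σ, by rw [hτ, add_sub_cancel]⟩⟩

theorem Tor2_gal (p : ℕ) [Fact p.Prime] [CharP C p] [IsAlgClosed T] (h : A.push j s = t)
    (b : A.Pt t) (hb : rk j.fieldRange (rat b) ≤ 1) : ∃ g : ℕ, ∀ lam : NM A A s s, Tor2Good lam →
    ∀ z : A.Pt t, lam.f j h h z = b → p • z = 0 → Rat (acl (adj j.fieldRange (rat b))) z →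
    ∃ Γ : AddSubgroup (A.Pt s), Finite Γ ∧ Nat.card Γ ≤ g ∧ ∀ (Ω : Type u) [Field Ω] (i : C →+* Ω)
      (t' : A.Str Ω) (ht : A.push i s = t') (ψ ψ' : T →+* Ω) (e : A.push ψ t = t')
      (e' : A.push ψ' t = t'), ψ.comp j = i → (∀ c ∈ adj j.fieldRange (rat b), ψ' c = ψ c) →
      ∃ τ ∈ Γ, A.map ψ' e' z = A.map ψ e z + A.map i ht τ := by
  classical
  obtain ⟨E, hE⟩ : ∃ E, E = adj j.fieldRange (rat b) := ⟨_, rfl⟩
  have hjE : j.fieldRange ≤ E := hE ▸ le_adj _ _
  have hbE : rat b ⊆ E := hE ▸ subset_adj _ _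
  let c : C →+* E := j.codRestrict E fun x => hjE ⟨x, rfl⟩
  have ec : E.subtype.comp c = j := RingHom.ext fun _ => rfl
  let S : Finset E := ((rat_finite b).preimage Subtype.val_injective.injOn).toFinset
  have hS : E.subtype '' (S : Set E) = rat b := by
    ext a
    simp only [S, Set.Finite.coe_toFinset]
    constructor
    · rintro ⟨x, hx, rfl⟩
      exact hx
    · intro ha
      exact ⟨⟨a, hbE ha⟩, ha, rfl⟩
  have hcr : c.fieldRange.map E.subtype = j.fieldRange := by rw [RingHom.map_fieldRange, ec]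
  have hs : adj c.fieldRange (S : Set E) = ⊤ := by
    refine eq_top_iff.2 fun x _ => ?_
    have h1 : x.1 ∈ (adj c.fieldRange (S : Set E)).map E.subtype := by
      rw [map_adj, hcr, hS, ← hE]
      exact x.2
    obtain ⟨y, hy, e⟩ := h1
    obtain rfl : y = x := Subtype.ext e
    exact hy
  have hr : rk c.fieldRange (S : Set E) ≤ 1 := by
    rw [← rk_map E.subtype, hcr, hS]
    exact hb
  obtain ⟨g, hg⟩ := unr p c S hs hr
  refine ⟨g, fun lam H z hz hp hrat => ?_⟩
  rw [← hE] at hrat ⊢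
  let f : Polynomial E := ∏ a ∈ (rat_finite z).toFinset, minpoly E a
  have hint : ∀ a ∈ (rat_finite z).toFinset, IsIntegral E a := fun a ha =>
    (mem_acl.1 (hrat ((Set.Finite.mem_toFinset _).1 ha))).isIntegral
  have hf : f ≠ 0 := Finset.prod_ne_zero_iff.2 fun a ha => minpoly.ne_zero (hint a ha)
  let E' : IntermediateField E T := IntermediateField.adjoin E (f.rootSet T)
  have hsp : f.IsSplittingField E E' :=
    IntermediateField.adjoin_rootSet_isSplittingField (IsAlgClosed.splits _)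
  have : FiniteDimensional E E' := Polynomial.IsSplittingField.finiteDimensional E' f
  have : Normal E E' := Normal.of_isSplittingField f
  let ι : E' →+* T := algebraMap E' T
  let j' : C →+* E' := (algebraMap E E').comp c
  have ej : ι.comp j' = j := RingHom.ext fun _ => rfl
  have hι : A.push ι (A.push j' s) = t := by rw [A.ax.push_comp, ej, h]
  have hz' : Rat ι.fieldRange z := by
    intro a ha
    have ha' := (Set.Finite.mem_toFinset (rat_finite z)).2 ha
    have h1 : a ∈ f.rootSet T := by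
      rw [Polynomial.mem_rootSet]
      refine ⟨hf, ?_⟩
      rw [map_prod]
      exact Finset.prod_eq_zero ha' (minpoly.aeval E a)
    exact ⟨⟨a, IntermediateField.subset_adjoin _ _ h1⟩, rfl⟩
  obtain ⟨z', hzz⟩ := (rat_range_iff ι hι).1 hz'
  have hb' : A.map ι hι (lam.f j' rfl rfl z') = b := by
    rw [← hz, ← hzz]
    exact lam.map_f ι ej rfl h rfl h hι hι z'
  obtain ⟨Γ, h1, h2, h3⟩ := Tor2_gal₀ p H c (j := j') (fun _ => rfl) rfl (hg E') (z := z')
    (map_inj ι.injective hι (by rw [map_nsmul, hzz, hp, map_zero])) (fun a ha => by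
      have h4 : ι a ∈ rat b := by
        rw [← hb', rat_map]
        exact ⟨a, ha, rfl⟩
      exact ⟨⟨ι a, hbE h4⟩, Subtype.ext rfl⟩)
  refine ⟨Γ, h1, h2, fun Ω _ i t' ht ψ ψ' e e' hψ hψ' => ?_⟩
  obtain ⟨σ, hσ⟩ := Tor2_normal (E := E) (ψ.comp ι) (ψ'.comp ι) fun x => hψ' x.1 x.2
  have hc : (σ : E' →+* E').comp j' = j' := RingHom.ext fun a => σ.commutes _
  have he : A.push (σ : E' →+* E') (A.push j' s) = A.push j' s := by rw [A.ax.push_comp, hc]
  obtain ⟨τ, hτ, h4⟩ := h3 σ he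
  refine ⟨τ, hτ, ?_⟩
  have h5 : A.map ψ' e' (A.map ι hι z') =
      A.map ψ e (A.map ι hι (A.map (σ : E' →+* E') he z')) := by
    rw [map_map, map_map, map_map]
    exact map_congr (RingHom.ext fun x => (hσ x).symm) _ _ z'
  have h6 : A.map ψ e (A.map ι hι (A.map j' rfl τ)) = A.map i ht τ := by
    rw [map_map, map_map]
    exact map_congr (by rw [← hψ, ← ej]; rfl) _ _ τ
  rw [h4, map_add, map_add, h6, hzz] at h5
  exact h5

end good

omit [IsAlgClosed C] in
/-- The Lang map. -/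
theorem Tor2_lang (p : ℕ) [Fact p.Prime] [CharP C p]
    (halg : ∀ z : C, ∃ n, 0 < n ∧ z ^ p ^ n = z) {B : AddSubgroup (A.Pt s)}
    (hB : Cl (B : Set (A.Pt s))) (S : Finset (A.Pt s)) :
    ∃ lam : NM A A s s, Tor2Good lam ∧ lam.f₀ '' B ⊆ B ∧ ∀ x ∈ S, lam.f₀ x = 0 := by
  classical
  obtain ⟨F₀, h₀⟩ := push_congr s
  obtain ⟨F₁, h₁⟩ := exists_fix (B : Set (A.Pt s))
  obtain ⟨m, hm, hF⟩ := exists_frob_fix p halg
    (F₀ ∪ F₁ ∪ S.biUnion fun x => (rat_finite x).toFinset)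
  have hfix : ∀ z ∈ F₀ ∪ F₁ ∪ S.biUnion fun x => (rat_finite x).toFinset,
      iterateFrobenius C p m z = z := fun z hz => by
    rw [iterateFrobenius_def, ← mul_one m]
    exact hF z hz 1
  have e : A.push (iterateFrobenius C p m) s = s :=
    (h₀ _ (RingHom.id C) fun z hz => hfix z (by simp [hz])).trans (A.ax.push_id s)
  obtain ⟨φ, hφ⟩ := NM.frob_aux p m e
  have hf : ∀ {T : Type u} [Field T] (j : C →+* T) {t : A.Str T} (h : A.push j s = t) (x : A.Pt t),
      (φ.add (NM.id s).neg).f j h h x = φ.f j h h x - x := by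
    intro T _ j t h x
    change φ.f j h h x + -(NM.id s).f j h h x = _
    rw [NM.id_f, sub_eq_add_neg]
  have hf₀ : ∀ x, (φ.add (NM.id s).neg).f₀ x = A.map (iterateFrobenius C p m) e x - x := fun x => by
    rw [NM.f₀, hf, hφ (RingHom.id C) _ _ e]
  have hz : ∀ x : A.Pt s, A.map (iterateFrobenius C p m) e x = x ↔
      ∀ z ∈ rat x, iterateFrobenius C p m z = z := fun x => by
    have h1 := map_eq_map_iff e (A.ax.push_id s) (x := x)
    rwa [map_id' (φ := RingHom.id C) (fun _ => rfl)] at h1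
  refine ⟨φ.add (NM.id s).neg, ⟨?_, ?_⟩, ?_, ?_⟩
  · intro T _ j t h x y
    have : CharP T p := charP_of_injective_ringHom j.injective p
    have e' := NM.geo3_frob_push p m e h h
    rw [hf, hf, hf, hφ j h h e', hφ j h h e', hφ j h h e', map_sub]
    abel
  · have hq : 1 < p ^ m := Nat.one_lt_pow hm.ne' (Fact.out : p.Prime).one_lt
    have hR : {z : C | z ^ p ^ m = z}.Finite := by
      refine ((Polynomial.X ^ p ^ m - Polynomial.X : Polynomial C).roots.toFinset.finite_toSet).subset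
        fun z hz => ?_
      rw [Finset.mem_coe, Multiset.mem_toFinset,
        Polynomial.mem_roots (FiniteField.X_pow_card_sub_X_ne_zero C hq)]
      simpa [sub_eq_zero] using hz
    have hV : (Set.univ.pi fun _ : A.σ => {z : C | z ^ p ^ m = z}).Finite :=
      Set.Finite.pi fun _ => hR
    refine (hV.biUnion (t := fun v => {x : A.Pt s | A.Rep x v}) fun v _ =>
      Set.Subsingleton.finite fun x hx y hy => A.ax.rep_inj hx hy).subset fun x hx => ?_
    obtain ⟨v, i, hv, hi⟩ := exists_rep_one x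
    have h1 : A.map (iterateFrobenius C p m) e x = x := by
      rw [← sub_eq_zero, ← hf₀]
      exact hx
    refine Set.mem_biUnion (x := v) (fun a _ => ?_) hv
    exact (hz x).1 h1 _ (PB_mem_rat hv hi a)
  · rintro _ ⟨x, hx, rfl⟩
    rw [hf₀]
    refine B.sub_mem (hB ?_) hx
    exact h₁ (RingHom.id C) (RingHom.id C) _ s s e (fun c hc => hfix c (by simp [hc])) x
      (subset_cl _ hx)
  · intro x hx
    rw [hf₀, sub_eq_zero, hz]
    intro z hz'
    refine hfix z (Finset.mem_union_right _ (Finset.mem_biUnion.2 ⟨x, hx, ?_⟩))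
    exact (Set.Finite.mem_toFinset _).2 hz'

theorem PG.finite_p_torsion (A : PG.{u}) (p : ℕ) [Fact p.Prime] {C : Type u} [Field C]
    [IsAlgClosed C] [CharP C p] (halg : ∀ z : C, ∃ n, 0 < n ∧ z ^ p ^ n = z) (s : A.Str C) :
    {x : A.Pt s | p • x = 0}.Finite := by
  classical
  by_contra hinf
  have hG : Cl {x : A.Pt s | p • x = 0} := (cl_singleton (0 : A.Pt s)).nsmul_pre p
  have hGe : ∀ {T : Type u} [Field T] {j : C →+* T} {t : A.Str T} (_ : A.push j s = t)
      {y : A.Pt t}, y ∈ ext j t {x : A.Pt s | p • x = 0} ↔ p • y = 0 := by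
    intro T _ j t h y
    have h1 := ext_nsmul_pre h (cl_singleton (0 : A.Pt s)) p
    rw [ext_finite h (Set.finite_singleton _), Set.image_singleton, map_zero] at h1
    exact Set.ext_iff.1 h1 y
  obtain ⟨Y, hY, hYv, hYi⟩ := hG.exists_var_infinite hinf
  obtain ⟨T, _, _, j, y, hy, hrk⟩ := hYv.exists_curve hYi
  obtain ⟨t, h⟩ : ∃ t, A.push j s = t := ⟨_, rfl⟩
  subst h
  have h : A.push j s = A.push j s := rfl
  obtain ⟨y₀, hy₀⟩ := (var_loc h y).2.1
  have hpy : p • y = 0 := (hGe h).1 (ext_mono j _ hY hy)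
  have hpy₀ : p • y₀ = 0 := loc_subset hG ((hGe h).2 hpy) hy₀
  obtain ⟨b, hb⟩ : ∃ b, b = A.map j h (-y₀) + y := ⟨_, rfl⟩
  have hpb : p • b = 0 := by
    rw [hb, smul_add, ← map_nsmul, smul_neg, hpy, hpy₀, neg_zero, map_zero, add_zero]
  have h0 : (0 : A.Pt s) ∈ loc j s b := by
    rw [hb, loc_vadd h]
    exact ⟨y₀, hy₀, neg_add_cancel y₀⟩
  have hconst : ∀ {K : Subfield T}, j.fieldRange ≤ K → ∀ x : A.Pt s, Rat K (A.map j h x) :=
    fun hK x => ((rat_range_iff j h).2 ⟨x, rfl⟩).mono hK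
  have hrb : rk j.fieldRange (rat b) ≤ 1 := by
    have h1 : Rat (adj j.fieldRange (rat y)) b := by
      rw [hb]
      exact Rat.add (def_range j s h (le_adj _ _)) (hconst (le_adj _ _) _) (rat_adj _ y)
    rw [← hrk, ← rk_adj (s := rat y)]
    exact rk_mono h1
  obtain ⟨B, n, hB, hB₁, hB₂, hB₃⟩ := exists_gen_sub h b
  have hbB : loc j s b ⊆ B := fun x hx => by simpa using hB₁ x hx 0 h0
  have hbe : b ∈ ext j _ (B : Set (A.Pt s)) := (loc_subset_iff h hB.1).1 hbB
  have hBp : (B : Set (A.Pt s)) ⊆ {x | p • x = 0} := by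
    have h1 := loc_subset hG ((hGe h).2 hpb)
    refine hB₂ (nsmulAddMonoidHom p).ker fun x hx x' hx' => ?_
    have h2 : p • x = 0 := h1 hx
    have h3 : p • x' = 0 := h1 hx'
    rw [AddMonoidHom.mem_ker, nsmulAddMonoidHom_apply, smul_sub, h2, h3, sub_zero]
  have hBi : (B : Set (A.Pt s)).Infinite := by
    intro hf
    have h1 : Rat j.fieldRange b := rat_of_mem_finite h hf hbe
    have h2 : y = A.map j h y₀ + b := by rw [hb, map_neg, add_neg_cancel_left]
    have h3 : Rat j.fieldRange y := by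
      rw [h2]
      exact Rat.add (def_range j s h le_rfl) (hconst le_rfl _) h1
    rw [rk_eq_zero.2 (fun a ha => le_acl _ (h3 ha))] at hrk
    exact zero_ne_one hrk
  obtain ⟨g, hg⟩ := Tor2_gal p h b hrb
  obtain ⟨Ω, _, _, i, ψ, hψ, hind⟩ := exists_indepFam j (n + n)
  have ht : A.push i s = A.push i s := rfl
  have e : ∀ l, A.push (ψ l) (A.push j s) = A.push i s := fun l => by rw [A.ax.push_comp, hψ]
  let sm : A.Pt (A.push j s) → A.Pt (A.push i s) := fun ξ => ∑ l : Fin n,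
    (A.map (ψ (Fin.castAdd n l)) (e _) ξ - A.map (ψ (Fin.natAdd n l)) (e _) ξ)
  have hb' : loc i s (sm b) = B := hB₃ Ω i ψ _ e hψ hind
  obtain ⟨F, hF⟩ : ∃ F, F = adj i.fieldRange (rat (sm b)) := ⟨_, rfl⟩
  have hiF : i.fieldRange ≤ acl F := (hF ▸ le_adj _ _ : i.fieldRange ≤ F).trans (le_acl F)
  obtain ⟨v, hv⟩ := A.ax.exists_rep b
  obtain ⟨d, hd⟩ := finite_orbits F
    (fun q : Fin (n + n) × (A.σ × A.σ) => ψ q.1 (v q.2.1 / v q.2.2))
  obtain ⟨S, hS, hcard⟩ := hBi.exists_subset_card_eq (g * d + 1)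
  obtain ⟨lam, H, hl, hS0⟩ := Tor2_lang p halg hB.1 S
  have hl' := H.surj hB hl
  obtain ⟨z, hz, hzr, hzb⟩ := Tor2_solve hl' h (acl (adj j.fieldRange (rat b)))
    ((le_adj _ _).trans (le_acl _)) hbe ((rat_adj _ b).mono (le_acl _))
  obtain ⟨Γ, hΓ, hΓg, hΓ'⟩ := hg lam H z hzb ((hGe h).1 (ext_mono j _ hBp hz)) hzr
  have hme : ∀ {ξ : A.Pt (A.push j s)}, ξ ∈ ext j _ (B : Set (A.Pt s)) → sm ξ ∈ extS ht B := by
    intro ξ hξ
    have h1 : ∀ l, A.map (ψ l) (e l) ξ ∈ extS ht B := fun l => by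
      have := mem_ext_map (ψ l) (e l) hξ
      rwa [hψ] at this
    exact sum_mem fun l _ => sub_mem (h1 _) (h1 _)
  have hz' : lam.f i ht ht (sm z) = sm b := by
    rw [← H.hom_apply, map_sum]
    refine Finset.sum_congr rfl fun l _ => ?_
    rw [map_sub, H.hom_apply, H.hom_apply, ← lam.map_f _ (hψ _) h ht h ht (e _) (e _),
      ← lam.map_f _ (hψ _) h ht h ht (e _) (e _), hzb]
  have hloc : loc i s (sm z) = B := by
    refine eq_of_dim hB (var_loc ht _) (loc_subset hB.1 (hme hz)) ?_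
    have h1 := dim_image_le lam (var_loc ht (sm z))
    rwa [← lam.loc_f ht ht, hz', hb'] at h1
  have hzF : Rat (acl F) (sm z) := by
    obtain ⟨z'', -, h1, h2⟩ := Tor2_solve hl' ht (acl F) hiF (hme hbe)
      ((hF ▸ rat_adj _ _ : Rat F (sm b)).mono (le_acl F))
    obtain ⟨τ, hτ⟩ := H.ker ht (w := sm z - z'') (by rw [H.sub, hz', h2, sub_self])
    rw [← sub_add_cancel (sm z) z'', ← hτ]
    exact Rat.add (def_range i s ht hiF) (((rat_range_iff i ht).2 ⟨τ, rfl⟩).mono hiF) h1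
  have hpush : ∀ σ : Ω →+* Ω, (∀ c, σ (i c) = i c) → A.push σ (A.push i s) = A.push i s :=
    fun σ hσ => by rw [A.ax.push_comp, show σ.comp i = i from RingHom.ext hσ]
  have hcst : ∀ (σ : Ω →+* Ω) (hσ : ∀ c, σ (i c) = i c) (τ : A.Pt s),
      A.map σ (hpush σ hσ) (A.map i ht τ) = A.map i ht τ := fun σ hσ τ => by
    rw [map_map]
    exact map_congr (RingHom.ext hσ) _ _ τ
  have hσ : ∀ τ ∈ S, ∃ σ : Ω ≃+* Ω, (∀ c ∈ F, σ c = c) ∧ ∃ hc : ∀ c, σ (i c) = i c,
      A.map (σ : Ω →+* Ω) (hpush _ hc) (sm z) = A.map i ht τ + sm z := by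
    intro τ hτ
    have h1 : loc i s (sm z) = loc i s (A.map i ht τ + sm z) := by
      rw [loc_vadd ht, hloc]
      exact (mem_stab.1 (Geo5_stab hB.1 fun x hx => B.add_mem (hS hτ) hx)).symm
    obtain ⟨σ, e', hc, h2⟩ := conj_aut ht h1
    refine ⟨σ, ?_, hc, h2⟩
    have h3 : A.map (σ : Ω →+* Ω) e' (sm b) = sm b := by
      rw [← hz', lam.map_f _ (RingHom.ext hc) ht ht ht ht e' e', h2, ← H.hom_apply, map_add,
        H.hom_apply, Tor2_f_map, hS0 τ hτ, map_zero, zero_add, H.hom_apply]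
    rw [hF]
    refine Tor2_fix (f := (σ : Ω →+* Ω)) (g := RingHom.id Ω) ?_
      ((map_eq_map_iff e' (A.ax.push_id _)).1 (h3.trans (map_id' (fun _ => rfl) _ _).symm))
    rintro _ ⟨c, rfl⟩
    exact hc c
  have : Nonempty (Ω ≃+* Ω) := ⟨RingEquiv.refl Ω⟩
  choose! σ hσF hσc hσz using hσ
  have key : ∀ τ ∈ S, ∀ τ' ∈ S, ∀ ρ : Ω ≃+* Ω, (∀ c ∈ acl F, ρ c = c) →
      (∀ q : Fin (n + n) × (A.σ × A.σ),
        ρ (σ τ (ψ q.1 (v q.2.1 / v q.2.2))) = σ τ' (ψ q.1 (v q.2.1 / v q.2.2))) → τ - τ' ∈ Γ := by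
    intro τ hτ τ' hτ' ρ hρ hw
    have hρc : ∀ c, (ρ : Ω →+* Ω) (i c) = i c := fun c => hρ _ (hiF ⟨c, rfl⟩)
    have hji : ∀ l c, ψ l (j c) = i c := fun l c => RingHom.congr_fun (hψ l) c
    have h1 : ∀ l, ∃ γ ∈ Γ, A.map (ρ : Ω →+* Ω) (hpush _ hρc)
        (A.map (σ τ : Ω →+* Ω) (hpush _ (hσc τ hτ)) (A.map (ψ l) (e l) z)) =
        A.map (σ τ' : Ω →+* Ω) (hpush _ (hσc τ' hτ')) (A.map (ψ l) (e l) z) + A.map i ht γ := by
      intro l
      rw [map_map, map_map, map_map]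
      refine hΓ' Ω i _ ht _ _ _ _ (RingHom.ext fun c => ?_) (Tor2_fix ?_ ?_)
      · change σ τ' (ψ l (j c)) = i c
        rw [hji, hσc τ' hτ']
      · rintro _ ⟨c, rfl⟩
        change ρ (σ τ (ψ l (j c))) = σ τ' (ψ l (j c))
        rw [hji, hσc τ hτ, hσc τ' hτ']
        exact hρc c
      · rw [PB_rat_eq hv]
        rintro _ ⟨a, rfl⟩
        exact hw (l, a)
    choose γ hγ hγ' using h1
    have h2 : A.map (ρ : Ω →+* Ω) (hpush _ hρc)
        (A.map (σ τ : Ω →+* Ω) (hpush _ (hσc τ hτ)) (sm z)) =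
        A.map (σ τ' : Ω →+* Ω) (hpush _ (hσc τ' hτ')) (sm z) +
          A.map i ht (∑ l : Fin n, (γ (Fin.castAdd n l) - γ (Fin.natAdd n l))) := by
      simp only [sm, map_sum, map_sub, hγ', ← Finset.sum_add_distrib]
      refine Finset.sum_congr rfl fun l _ => ?_
      abel
    have h3 : A.map (ρ : Ω →+* Ω) (hpush _ hρc) (sm z) = sm z :=
      ((map_eq_map_iff _ (A.ax.push_id _)).2 fun a ha => hρ a (hzF ha)).trans
        (map_id' (fun _ => rfl) _ _)
    rw [hσz τ hτ, hσz τ' hτ', map_add, hcst _ hρc, h3, add_right_comm, add_left_inj,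
      ← map_add] at h2
    rw [map_inj i.injective ht h2, add_sub_cancel_left]
    exact sum_mem fun l _ => sub_mem (hγ _) (hγ _)
  have hfin := Tor2_count Γ S (d := d) fun R hR hRΓ => by
    have hinj : Set.InjOn σ R := fun τ hτ τ' hτ' e' =>
      hRΓ τ hτ τ' hτ' (key τ (hR hτ) τ' (hR hτ') (RingEquiv.refl Ω) (fun _ _ => rfl)
        fun q => by rw [e']; rfl)
    rw [← Finset.card_image_of_injOn hinj]
    refine hd _ ?_ ?_
    · intro σ' hσ'
      obtain ⟨τ, hτ, rfl⟩ := Finset.mem_image.1 hσ'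
      exact hσF τ (hR hτ)
    · intro σ₁ h₁ σ₂ h₂ ρ hρ hw
      obtain ⟨τ, hτ, rfl⟩ := Finset.mem_image.1 h₁
      obtain ⟨τ', hτ', rfl⟩ := Finset.mem_image.1 h₂
      rw [hRΓ τ hτ τ' hτ' (key τ (hR hτ) τ' (hR hτ') ρ hρ hw)]
  have := Nat.mul_le_mul_right d hΓg
  omega

end MLF
end

-- merged part: Pool.Agent.Work.MP_29d410_ag.ZHb
section
/-!
# Repartitions of a function field of one variable; finiteness of values

Plan for `h1`.  If the rank is zero then `F = K`.  Otherwise let `x` be transcendental, `F` is finite over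
`K(x)`; `R = Tor1_S K x`, `R' = Tor1_S K x⁻¹` are Dedekind domains with fraction field `F`, and the valuation
rings containing `K` and `x` are the localisations of `R`.  An element of `F` has finitely many poles.  By
the Chinese remainder theorem there are `f`, `f'` with `a W - f ∈ W` whenever `x ∈ W`, `a W - f' ∈ W` whenever
`x⁻¹ ∈ W`.  Then `x ^ n * (f - f') ∈ R` for large `n`, so `f - f' = u + r + r'` with `u` in the space `U` of
`Tor1_fin`.  Take `u l W = 0` if `x ∈ W`, and `- u l` otherwise, for generators `u l` of `U`.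
`fin_vals`: if the set is infinite, every relation `f (v, z) = 0` over `K` gives `f (a, Z) = 0` identically; so
every relation of `(v, z⁻¹)` is satisfied by `(a, 0)`; `Geo2A_place` gives a place with `z ∉ P.W`.
-/

namespace MLF

universe u

/-- A relation over the ground field specialises along a place. -/
theorem ZHb_spec {K T : Type u} [Field K] [Field T] {j : K →+* T} {τ : Type}
    (P : Place j (RingHom.id K)) (w : τ → T) (c : τ → K)
    (hw : ∀ i, ∃ hm : w i ∈ P.W, P.r ⟨_, hm⟩ = c i) (f : MvPolynomial τ K) :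
    ∃ hm : MvPolynomial.eval₂ j w f ∈ P.W, P.r ⟨_, hm⟩ = MvPolynomial.eval c f := by
  induction f using MvPolynomial.induction_on with
  | C a =>
    refine ⟨by simpa using P.mem a, ?_⟩
    have := P.r_j a
    simpa using this
  | add p q hp hq =>
    obtain ⟨hp, ep⟩ := hp
    obtain ⟨hq, eq⟩ := hq
    refine ⟨by rw [MvPolynomial.eval₂_add]; exact add_mem hp hq, ?_⟩
    rw [map_add, ← ep, ← eq, ← map_add]
    congr 1
    ext
    simp [MvPolynomial.eval₂_add]
  | mul_X p i hp =>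
    obtain ⟨hp, ep⟩ := hp
    obtain ⟨hq, eq⟩ := hw i
    refine ⟨by rw [MvPolynomial.eval₂_mul, MvPolynomial.eval₂_X]; exact mul_mem hp hq, ?_⟩
    rw [map_mul, MvPolynomial.eval_X, ← ep, ← eq, ← map_mul]
    congr 1
    ext
    simp [MvPolynomial.eval₂_mul]

/-- An element with nonzero value at a place with values in the ground field is invertible. -/
theorem ZHb_inv {K T : Type u} [Field K] [Field T] {j : K →+* T}
    (P : Place j (RingHom.id K)) (z : T) (hz : z ∈ P.W) (hb : P.r ⟨z, hz⟩ ≠ 0) :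
    ∃ hm : z⁻¹ ∈ P.W, P.r ⟨_, hm⟩ = (P.r ⟨z, hz⟩)⁻¹ := by
  set b := P.r ⟨z, hz⟩ with hbdef
  have hjb : j b ≠ 0 := by simpa using hb
  have hu : IsUnit (⟨j b, P.mem b⟩ : P.W) := by
    refine IsUnit.of_mul_eq_one ⟨j b⁻¹, P.mem _⟩ ?_
    ext
    simp [hjb]
  have hsum : (⟨z, hz⟩ : P.W) + (⟨j b, P.mem b⟩ - ⟨z, hz⟩) = ⟨j b, P.mem b⟩ := by ring
  rw [← hsum] at hu
  have hzu : IsUnit (⟨z, hz⟩ : P.W) := by
    rcases IsLocalRing.isUnit_or_isUnit_of_isUnit_add hu with h | h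
    · exact h
    · exfalso
      have h2 := h.map P.r
      rw [map_sub, P.r_j, ← hbdef] at h2
      simp at h2
  obtain ⟨y, hy⟩ := hzu.exists_right_inv
  have hy' : z * (y : T) = 1 := by
    have := congrArg Subtype.val hy
    simpa using this
  have hyz : (y : T) = z⁻¹ := eq_inv_of_mul_eq_one_right hy'
  refine ⟨hyz ▸ y.2, ?_⟩
  have e : (⟨z⁻¹, hyz ▸ y.2⟩ : P.W) = y := Subtype.ext hyz.symm
  rw [e]
  have h3 := congrArg P.r hy
  rw [map_mul, map_one, ← hbdef] at h3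
  exact eq_inv_of_mul_eq_one_right h3

theorem fin_vals {K T : Type u} [Field K] [IsAlgClosed K] [Field T] (j : K →+* T) {σ : Type}
    [Finite σ] (v : σ → T) (a : σ → K) (z : T)
    (h : ∀ P : Place j (RingHom.id K), (∀ i, ∃ hm : v i ∈ P.W, P.r ⟨_, hm⟩ = a i) → z ∈ P.W) :
    {b : K | ∃ P : Place j (RingHom.id K), (∀ i, ∃ hm : v i ∈ P.W, P.r ⟨_, hm⟩ = a i) ∧
      ∃ hz : z ∈ P.W, P.r ⟨z, hz⟩ = b}.Finite := by
  by_contra hinf
  set S := {b : K | ∃ P : Place j (RingHom.id K), (∀ i, ∃ hm : v i ∈ P.W, P.r ⟨_, hm⟩ = a i) ∧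
      ∃ hz : z ∈ P.W, P.r ⟨z, hz⟩ = b} with hS
  have hinf : S.Infinite := hinf
  have hinf2 : (S \ {0}).Infinite := hinf.sdiff (Set.finite_singleton 0)
  have hz0 : z ≠ 0 := by
    obtain ⟨b, ⟨P, -, hz, hb⟩, hb0⟩ := hinf2.nonempty
    rintro rfl
    apply hb0
    have e : (⟨0, hz⟩ : P.W) = 0 := rfl
    rw [e, map_zero] at hb
    exact hb.symm
  have key : ∀ f : MvPolynomial (Option σ) K,
      MvPolynomial.eval₂ j (fun x => Option.elim x z⁻¹ v) f = 0 →
      MvPolynomial.eval₂ (RingHom.id K) (fun x => Option.elim x 0 a) f = 0 := by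
    intro f hf
    set q : Polynomial K :=
      Polynomial.map (MvPolynomial.eval a) (MvPolynomial.optionEquivLeft K σ f) with hq
    have hroots : ∀ b ∈ S \ {0}, q.IsRoot b⁻¹ := by
      rintro b ⟨⟨P, hv, hz, hb⟩, hb0⟩
      have hb0' : P.r ⟨z, hz⟩ ≠ 0 := by rw [hb]; exact hb0
      obtain ⟨hm, hi⟩ := ZHb_inv P z hz hb0'
      obtain ⟨hm2, e⟩ := ZHb_spec P (fun x => Option.elim x z⁻¹ v) (fun x => Option.elim x b⁻¹ a)
        (by
          rintro (_ | i)
          · exact ⟨hm, by rw [← hb]; exact hi⟩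
          · exact hv i) f
      have e0 : (⟨_, hm2⟩ : P.W) = 0 := Subtype.ext hf
      rw [e0, map_zero, MvPolynomial.optionEquivLeft_elim_eval] at e
      exact e.symm
    have hq0 : q = 0 := by
      apply Polynomial.eq_zero_of_infinite_isRoot
      refine Set.Infinite.mono ?_ (hinf2.image (inv_injective.injOn))
      rintro _ ⟨b, hb, rfl⟩
      exact hroots b hb
    have := MvPolynomial.optionEquivLeft_elim_eval K σ a 0 f
    rw [← hq, hq0, Polynomial.eval_zero] at this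
    exact this
  obtain ⟨W, r, h1, h2, -⟩ := Geo2A_place j (RingHom.id K) _ _ key
  let P : Place j (RingHom.id K) := ⟨W, fun c => (h1 c).1, r, fun c => (h1 c).2⟩
  have hzW : z ∈ W := h P fun i => h2 (some i)
  obtain ⟨hm, e⟩ := h2 none
  have e1 : (⟨z, hzW⟩ : W) * ⟨_, hm⟩ = 1 := by
    ext
    simp [hz0]
  have e2 := congrArg r e1
  rw [map_mul, e, map_one] at e2
  simp at e2

end MLF
end
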