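import Pool.Agent.Work.MP_29d410_ag.NB
import Pool.Agent.Work.MP_29d410_ag.ZHb
import Pool.Agent.Work.MP_29d410_ag.Big2

-- merged part: Pool.Agent.Work.MP_29d410_ag.Lift
section
/-!
# Lifts: subgroups of pairs of points with the same reduction

Plan.  `Lift.qh`: the fibre `{y | (0, y) ∈ H}` is a closed subgroup all of whose points are
congruent to `0`, so finite (`finite_of_congW`), so torsion.  `Lift.diag`: the image of `H` under
`(x, y) ↦ x - y` is a variety (`NM`), finite, contains `0`.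
`dl_curve`: take `ω'` from `SPG.nb`, `ξ = (ω', ω)`, and `H` from `exists_gen_sub`.
(a) Let `g` be any generic point of `H` over `K` in a field `E'` with a valuation ring `W'` above
`VB C` with `Comm W' t ⊤`.  Take an independent family `ψ` (`exists_indepFam`); `g` and
`g₁ = ∑ (ψ l ξ - ψ l' ξ)` have the same locus; in a common overfield (`conj`) extend `W'`
(`exists_comm`); its pull back along each `ψ l` satisfies the hypotheses of `nb` (`Comm.comap`);
add the congruences (`CongW.add`, `StrW.map`, `congW_map_iff`).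
(b) A point `h₀ ∈ H` is the difference of the generic points `h₀ + h` and `h`.
-/

open PowerSeries Pointwise

namespace MLF

universe u

namespace PG

variable {A : PG.{u}} {k : Type u} [Field k] [IsAlgClosed k] {W : ValuationSubring k}
  {sb s : A.Str k}

/-- A closed irreducible subgroup of pairs with the same reduction. -/
structure Lift (W : ValuationSubring k) (H : AddSubgroup ((A.prod A).Pt (sb, s))) : Prop where
  var : Var (A := A.prod A) (s := (sb, s)) H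
  cong : ∀ z ∈ H, CongW W z.1 z.2

theorem dim_bound (s : A.Str k) : ∃ N, ∀ X : Set (A.Pt s), Var X → dim X ≤ N := Geo5_bdd s

omit [IsAlgClosed k] in
/-- The subgroup of all the pairs with the same reduction. -/
def LiftS (hs : StrW W sb s) : AddSubgroup ((A.prod A).Pt (sb, s)) where
  carrier := {z | CongW W z.1 z.2}
  zero_mem' := congW_zero hs
  add_mem' h h' := CongW.add hs h h'
  neg_mem' h := CongW.neg hs h

omit [IsAlgClosed k] in
theorem Lift_tors {G : AddSubgroup (A.Pt s)} (hG : (G : Set (A.Pt s)).Finite) {x : A.Pt s}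
    (hx : x ∈ G) : ∃ n : ℕ, n ≠ 0 ∧ n • x = 0 := by
  have : Finite G := hG
  obtain ⟨n, hn, e⟩ := (isOfFinAddOrder_of_finite (⟨x, hx⟩ : G)).exists_nsmul_eq_zero
  exact ⟨n, hn.ne', congrArg Subtype.val e⟩

theorem exists_max_lift (hs : StrW W sb s) : ∃ H : AddSubgroup ((A.prod A).Pt (sb, s)),
    Lift W H ∧ ∀ H', Lift W H' → H' ≤ H := by
  obtain ⟨d, hd⟩ := dim_bound (A := A.prod A) (sb, s)
  have h0 : Lift W (⊥ : AddSubgroup ((A.prod A).Pt (sb, s))) :=
    ⟨var_singleton (A := A.prod A) 0, fun z hz => (bot_le : ⊥ ≤ LiftS hs) hz⟩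
  obtain ⟨_, ⟨H, hH, rfl⟩, hn⟩ := (Set.finite_le_nat d).subset
    (t := (fun H : AddSubgroup ((A.prod A).Pt (sb, s)) => dim (A := A.prod A) (s := (sb, s)) H) ''
      {H | Lift W H}) (by rintro _ ⟨H, hH, rfl⟩; exact hd _ hH.var)
    |>.exists_maximal ⟨_, ⊥, h0, rfl⟩
  refine ⟨H, hH, fun H' hH' => ?_⟩
  have h1 : Lift W (H ⊔ H') := ⟨hH.var.sup hH'.var, fun z hz =>
    (sup_le (fun z hz => hH.cong z hz) (fun z hz => hH'.cong z hz) : H ⊔ H' ≤ LiftS hs) hz⟩
  have h2 : (H : Set ((A.prod A).Pt (sb, s))) ⊆ (H ⊔ H' : AddSubgroup _) :=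
    fun z hz => (le_sup_left : H ≤ H ⊔ H') hz
  have h3 := eq_of_dim h1.var hH.var h2 (hn ⟨_, h1, rfl⟩ (dim_mono h1.var hH.var h2))
  exact le_sup_right.trans (SetLike.coe_injective h3).ge

theorem Lift.qh {H : AddSubgroup ((A.prod A).Pt (sb, s))} (h : Lift W H)
    (hi : ∀ (n : ℕ) (x : A.Pt s), n ≠ 0 → n • x = 0 → CongW W (0 : A.Pt sb) x → x = 0) :
    QH H := by
  refine ⟨h.var, fun y hy => ?_⟩
  have hf : (ker (swap H) : Set (A.Pt s)).Finite :=
    finite_of_congW (y := (0 : A.Pt sb)) (cl_ker (var_swap h.var).1)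
      fun x hx => (h.cong _ (mem_swap.1 (mem_ker.1 hx))).symm
  obtain ⟨n, hn, e⟩ := Lift_tors hf (mem_ker.2 (mem_swap.2 hy))
  exact hi n y hn e (h.cong _ hy)

theorem Lift.qh_swap {H : AddSubgroup ((A.prod A).Pt (sb, s))} (h : Lift W H)
    (hi : ∀ (n : ℕ) (x : A.Pt sb), n ≠ 0 → n • x = 0 → CongW W x (0 : A.Pt s) → x = 0) :
    QH (swap H) := by
  refine ⟨var_swap h.var, fun y hy => ?_⟩
  have hf : (ker H : Set (A.Pt sb)).Finite :=
    finite_of_congW (y := (0 : A.Pt s)) (cl_ker h.var.1) fun x hx => h.cong _ (mem_ker.1 hx)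
  obtain ⟨n, hn, e⟩ := Lift_tors hf (mem_ker.2 (mem_swap.1 hy))
  exact hi n y hn e (h.cong _ (mem_swap.1 hy))

theorem Lift.diag {H : AddSubgroup ((A.prod A).Pt (s, s))} (h : Lift W H) (hs : StrW W s s)
    {z : (A.prod A).Pt (s, s)} (hz : z ∈ H) : z.1 = z.2 := by
  have hφ : ∀ w : (A.prod A).Pt (s, s),
      ((NM.fst s s).add (NM.snd s s).neg).f₀ w = w.1 + -w.2 := fun w => rfl
  have hv := ((NM.fst s s).add (NM.snd s s).neg).var_image h.var
  have hf := finite_of_congW (W := W) (y := (0 : A.Pt s)) hv.1 (by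
    rintro _ ⟨w, hw, rfl⟩
    rw [hφ, ← add_neg_cancel w.2]
    exact CongW.add hs (h.cong w hw) (CongW.refl W _))
  obtain ⟨x, hx⟩ := hv.2.eq_singleton hf
  have h1 := hx.subset ⟨z, hz, rfl⟩
  have h2 := hx.subset ⟨0, H.zero_mem, rfl⟩
  rw [Set.mem_singleton_iff, hφ] at h1 h2
  rw [← h2] at h1
  exact add_neg_eq_zero.1 (h1.trans (add_neg_cancel (0 : A.Pt s)))

theorem strW_big {C : Type u} [Field C] [IsAlgClosed C] {sV : A.Str (VB C)} {s sb : A.Str (Big C)}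
    {sC : A.Str C} (hs : A.push (VB C).subtype sV = s) (hC : A.push (resB C) sV = sC)
    (hb : A.push (cB C) sC = sb) : StrW (VB C) sb s := by
  refine ⟨A.push (cV C) sC, sV, ?_, hs, ?_⟩
  · rw [A.ax.push_comp, subtype_cV, hb]
  · rw [← hC, A.ax.push_comp, A.ax.push_comp]
    congr 1
    refine RingHom.ext fun z => ?_
    change IsLocalRing.residue _ (cV C (resB C z)) = IsLocalRing.residue _ z
    rw [← sub_eq_zero, ← map_sub, IsLocalRing.residue_eq_zero_iff,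
      ValuationSubring.valuation_lt_one_iff, ← resB_eq_zero, map_sub, resB_cV, sub_self]

/-- Generic points of the subgroup generated by a pair with the same reductions. -/
theorem Lift_gen {E E' : Type u} [Field E] [Field E'] {t : k} (hW : StrW W sb s) {j : k →+* E}
    {s' sb' : A.Str E} (h' : A.push j s = s') (hb' : A.push j sb = sb')
    (ξ : (A.prod A).Pt (sb', s'))
    (hξ : ∀ V : ValuationSubring E, V.comap j = W → Comm V (j t) ⊤ → CongW V ξ.1 ξ.2)
    {H : Set ((A.prod A).Pt (sb, s))} {n : ℕ}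
    (hH : ∀ (F : Type u) [Field F] (i : k →+* F) (ψ : Fin (n + n) → (E →+* F))
      (r : (A.prod A).Str F) (e : ∀ l, (A.prod A).push (ψ l) (sb', s') = r),
      (∀ l, (ψ l).comp j = i) → IndepFam i.fieldRange ψ →
      loc (A := A.prod A) i (sb, s) (∑ l : Fin n, ((A.prod A).map (ψ (Fin.castAdd n l)) (e _) ξ -
        (A.prod A).map (ψ (Fin.natAdd n l)) (e _) ξ)) = H)
    {i : k →+* E'} {s₁ sb₁ : A.Str E'} (h₁ : A.push i s = s₁) (hb₁ : A.push i sb = sb₁)
    {W' : ValuationSubring E'} (hW' : W'.comap i = W) (hc : Comm W' (i t) ⊤)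
    {g : (A.prod A).Pt (sb₁, s₁)} (hg : loc (A := A.prod A) i (sb, s) g = H) :
    CongW W' g.1 g.2 := by
  obtain ⟨F, _, _, j₀, ψ, hψ, hI⟩ := exists_indepFam j (n + n)
  have e : ∀ l, (A.prod A).push (ψ l) (sb', s') = (A.push j₀ sb, A.push j₀ s) := fun l =>
    prod_push (hψ l ▸ push_trans hb' rfl).symm (hψ l ▸ push_trans h' rfl).symm
  obtain ⟨F', _, _, φ, φ', ⟨rb, r⟩, e₁, e₂, hφ, hm⟩ := conj (A := A.prod A) (prod_push hb₁ h₁)
    (prod_push rfl rfl) (hg.trans (hH F j₀ ψ _ e hψ hI).symm)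
  obtain ⟨V, hV, hcV⟩ := exists_comm φ W' hc
  have hVk : V.comap (φ.comp i) = W := by rw [← hW', ← hV, ValuationSubring.comap_comap]
  have hS : StrW V rb r := StrW.map (φ.comp i) V (push_trans hb₁ (congrArg Prod.fst e₁))
    (push_trans h₁ (congrArg Prod.snd e₁)) (hVk ▸ hW)
  have key : ∀ l, (A.prod A).map φ' e₂ ((A.prod A).map (ψ l) (e l) ξ) ∈ LiftS hS := by
    intro l
    have h2 : (φ'.comp (ψ l)).comp j = φ.comp i := by rw [RingHom.comp_assoc, hψ, hφ]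
    rw [map_map, prod_map]
    refine (congW_map_iff (φ'.comp (ψ l)) V _ _).2 (hξ _ ?_ (Comm.comap _ ?_))
    · rw [ValuationSubring.comap_comap, h2, hVk]
    · rw [show (φ'.comp (ψ l)) (j t) = φ (i t) from DFunLike.congr_fun h2 t]
      exact hcV
  have h3 : (A.prod A).map φ e₁ g ∈ LiftS hS := by
    rw [hm, map_sum]
    refine sum_mem fun l _ => ?_
    rw [map_sub]
    exact sub_mem (key _) (key _)
  rw [prod_map] at h3
  exact hV ▸ (congW_map_iff φ V _ _).1 h3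

end PG

open PG in
theorem SPG.dl_curve (A : SPG.{u}) {C E : Type u} [Field C] [IsAlgClosed C] [Field E]
    [IsAlgClosed E] {sV : A.Str (VB C)} {s sb : A.Str (Big C)} {sC : A.Str C}
    (hs : A.push (VB C).subtype sV = s) (hC : A.push (resB C) sV = sC)
    (hb : A.push (cB C) sC = sb) (j : Big C →+* E) {κ : Subfield E}
    (hκ : (j.comp (cB C)).fieldRange ≤ κ) (hr : rk (j.comp (cB C)).fieldRange (κ : Set E) ≤ 1)
    (hLD : LD (j.comp (cB C)).fieldRange j.fieldRange κ) {s' sb' : A.Str E} (h' : A.push j s = s')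
    (hb' : A.push j sb = sb') {ω : A.Pt s'} (hω : Rat (j.fieldRange ⊔ κ) ω) :
    ∃ (ω' : A.Pt sb') (H : AddSubgroup ((A.toPG.prod A.toPG).Pt (sb, s))), Rat κ ω' ∧
      Lift (VB C) H ∧ ∀ z ∈ loc (A := A.toPG.prod A.toPG) j (sb, s) (s' := (sb', s')) (ω', ω),
        ((ω' - A.map j hb' z.1, ω - A.map j h' z.2) : (A.toPG.prod A.toPG).Pt (sb', s')) ∈
          extG hb' h' H := by
  obtain ⟨ω', hω', hnb⟩ := A.nb hs hC j hκ hr hLD h' (push_trans hb hb') hω
  have hW := strW_big hs hC hb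
  obtain ⟨H, n, hv, hsub, -, hH⟩ := exists_gen_sub (A := A.toPG.prod A.toPG) (prod_push hb' h')
    ((ω', ω) : (A.toPG.prod A.toPG).Pt (sb', s'))
  refine ⟨ω', H, hω', ⟨hv, fun z hz => ?_⟩, fun z hz => ?_⟩
  · obtain ⟨T, _, _, i, y, hy, -⟩ := hv.exists_gen
    obtain ⟨V, hV, hcV⟩ := exists_comm i (VB C) (comm_VB C)
    have hS : StrW V (A.push i sb) (A.push i s) := StrW.map i V rfl rfl (hV ▸ hW)
    have h1 : y ∈ LiftS hS := Lift_gen hW h' hb' (ω', ω) hnb hH rfl rfl hV hcV hy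
    have h2 : (A.toPG.prod A.toPG).map i rfl z + y ∈ LiftS hS := by
      refine Lift_gen hW h' hb' (ω', ω) hnb hH rfl rfl hV hcV ?_
      refine (loc_vadd (A := A.toPG.prod A.toPG) rfl z y).trans ?_
      rw [hy]
      ext w
      rw [Geo5_vadd]
      exact ⟨fun h => by simpa using H.add_mem h hz, fun h => H.sub_mem h hz⟩
    have h3 := sub_mem h2 h1
    rw [add_sub_cancel_right, prod_map] at h3
    exact hV ▸ (congW_map_iff i V _ _).1 h3
  · have h1 := mem_ext_loc (A := A.toPG.prod A.toPG) (prod_push hb' h')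
      ((ω', ω) : (A.toPG.prod A.toPG).Pt (sb', s'))
    have h2 := ext_mono j (sb', s') (Y := z +ᵥ (H : Set ((A.toPG.prod A.toPG).Pt (sb, s))))
      (fun x hx => Geo5_vadd.2 (hsub x hx z hz)) h1
    rw [ext_vadd (prod_push hb' h'), Geo5_vadd] at h2
    exact h2

end MLF
end

-- merged part: Pool.Agent.Work.MP_29d410_ag.Split
section
/-!
# Rigidity: a point over a free compositum is a sum

Plan.  `split_curve`: embed `E₁` in `Big k` (`exists_emb_curve`), amalgamate `Big k` and `E₂` over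
`k` (`exists_amalg`), embed `acl (E₁ ⊔ E₂)` by `θ` (`LD.emb`).  Apply `dl_curve` to the constant
structure `sV = push (cV k) s`; by `Lift.diag` (extended: the closed condition `z.1 = z.2` holds
on `extG H`, by places) `θ ω - ω'` is rational over `Big k`.  `ω' = θ β`; `θ (ω - β)` is rational
over `Big k ⊓ acl (θ E₁ ⊔ θ E₂) = θ E₁` (`LD.tower`, `LD.acl`, `LD.inf`).
`split`: reduce to finite ranks (`mem_sup_finite`, `rat_finite`).  Step: let `E₂' ≤ E₂` have corank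
one (`exists_corank`), `F = acl (E₁ ⊔ E₂')`; `F`, `E₂` are disjoint over `E₂'`.  If `ω = α + β` with
`α` over `F`, `β` over `E₂`, take a place of `E` which is the identity on `F` and maps `E₂` to
`E₂'` (`exists_place_self`, `LD.place`); `α = red ω - red β` is rational over `E₁ ⊔ E₂'`
(`gauss`, `Red.ratl`).  First do the induction on the rank of `E₂` when `E₁` has rank `≤ 1`
(using `split_curve` over `E₂'`), then, exchanging the roles, on the rank of `E₁`.
-/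

namespace MLF

universe u

open PG

theorem Split_diag {A : PG.{u}} {k T : Type u} [Field k] [IsAlgClosed k] [Field T] {s : A.Str k}
    {H : AddSubgroup ((A.prod A).Pt (s, s))} (hH : ∀ z ∈ H, z.1 = z.2) {j : k →+* T}
    {s' : A.Str T} (h : A.push j s = s') {x y : A.Pt s'}
    (hz : ((x, y) : (A.prod A).Pt (s', s')) ∈ extG h h H) : x = y := by
  have h1 := ((NM.fst s s).add (NM.snd s s).neg).mem_ext (prod_push h h) h hz
  have h2 : ((NM.fst s s).add (NM.snd s s).neg).f₀ '' (H : Set ((A.prod A).Pt (s, s))) ⊆ {0} := by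
    rintro _ ⟨z, hz, rfl⟩
    exact add_neg_eq_zero.2 (hH z hz)
  have h3 := ext_mono j s' h2 h1
  rw [ext_finite h (Set.finite_singleton _), Set.image_singleton, map_zero] at h3
  exact add_neg_eq_zero.1 h3

theorem Split_big (A : SPG.{u}) {C E : Type u} [Field C] [IsAlgClosed C] [Field E]
    [IsAlgClosed E] (sC : A.Str C) (j : Big C →+* E) {κ : Subfield E}
    (hκ : (j.comp (cB C)).fieldRange ≤ κ) (hr : rk (j.comp (cB C)).fieldRange (κ : Set E) ≤ 1)
    (hLD : LD (j.comp (cB C)).fieldRange j.fieldRange κ) {s' : A.Str E}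
    (h : A.push (j.comp (cB C)) sC = s') {ω : A.Pt s'} (hω : Rat (j.fieldRange ⊔ κ) ω) :
    ∃ ω' : A.Pt s', Rat κ ω' ∧ Rat j.fieldRange (ω - ω') := by
  have hs : A.push (VB C).subtype (A.push (cV C) sC) = A.push (cB C) sC := by
    rw [A.ax.push_comp, subtype_cV]
  have hC : A.push (resB C) (A.push (cV C) sC) = sC := by
    rw [A.ax.push_comp, show (resB C).comp (cV C) = RingHom.id C from RingHom.ext (resB_cV C),
      A.ax.push_id]
  have h' : A.push j (A.push (cB C) sC) = s' := by rw [A.ax.push_comp, h]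
  obtain ⟨ω', H, h1, h2, h3⟩ := A.dl_curve hs hC rfl j hκ hr hLD h' h' hω
  obtain ⟨z, hz⟩ := (var_loc (A := A.toPG.prod A.toPG) (prod_push h' h') (ω', ω)).2.1
  have h4 := Split_diag (fun z hz => h2.diag (strW_big hs hC rfl) hz) h' (h3 z hz)
  refine ⟨ω', h1, (rat_range_iff j h').2 ⟨z.2 - z.1, ?_⟩⟩
  rw [map_sub, eq_add_of_sub_eq h4]
  abel

theorem Split_rk {k E T : Type u} [Field k] [Field E] [Field T] (i : k →+* E) (b : E →+* T) :
    rk (b.comp i).fieldRange (b.fieldRange : Set T) = rk i.fieldRange (Set.univ : Set E) := by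
  rw [← rk_map b, RingHom.map_fieldRange, Set.image_univ, RingHom.coe_fieldRange]

theorem SPG.split_curve (A : SPG.{u}) {k E : Type u} [Field k] [IsAlgClosed k] [Field E]
    [IsAlgClosed E] {j : k →+* E} {s : A.Str k} {s' : A.Str E} (h : A.push j s = s')
    {E₁ E₂ : Subfield E} [IsAlgClosed E₁] [IsAlgClosed E₂] (h₁ : j.fieldRange ≤ E₁)
    (h₂ : j.fieldRange ≤ E₂) (hLD : LD j.fieldRange E₁ E₂)
    (r₁ : rk j.fieldRange (E₁ : Set E) ≤ 1) (r₂ : rk j.fieldRange (E₂ : Set E) ≤ 1)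
    {ω : A.Pt s'} (hω : Rat (E₁ ⊔ E₂) ω) : ∃ α β, Rat E₁ α ∧ Rat E₂ β ∧ ω = α + β := by
  let j₁ : k →+* E₁ := j.codRestrict E₁ fun c => h₁ ⟨c, rfl⟩
  let j₂ : k →+* E₂ := j.codRestrict E₂ fun c => h₂ ⟨c, rfl⟩
  have q₁ : rk j₁.fieldRange (Set.univ : Set E₁) ≤ 1 := by
    rw [← Split_rk j₁ E₁.subtype, Subfield.fieldRange_subtype]
    exact r₁
  have q₂ : rk j₂.fieldRange (Set.univ : Set E₂) ≤ 1 := by
    rw [← Split_rk j₂ E₂.subtype, Subfield.fieldRange_subtype]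
    exact r₂
  obtain ⟨ψ, hψ⟩ := exists_emb_curve j₁ q₁
  obtain ⟨T, _, _, a, b, hab, hl⟩ := exists_amalg (cB k) j₂
  have e₁ : ∀ c, a (ψ (j₁ c)) = a (cB k c) := fun c => congrArg a (RingHom.congr_fun hψ c)
  have e₂ : ∀ c, b (j₂ c) = a (cB k c) := fun c => (RingHom.congr_fun hab c).symm
  have l₁ : (a.comp ψ).fieldRange ≤ a.fieldRange := by
    rintro _ ⟨z, rfl⟩
    exact ⟨ψ z, rfl⟩
  have l₀ : (a.comp (cB k)).fieldRange ≤ (a.comp ψ).fieldRange := by
    rintro _ ⟨c, rfl⟩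
    exact ⟨j₁ c, e₁ c⟩
  have l₂ : (a.comp (cB k)).fieldRange ≤ b.fieldRange := by
    rintro _ ⟨c, rfl⟩
    exact ⟨j₂ c, e₂ c⟩
  have e₀ : ((a.comp ψ).comp (Subfield.inclusion h₁)).fieldRange = (a.comp (cB k)).fieldRange := by
    ext z
    constructor
    · rintro ⟨⟨_, c, rfl⟩, rfl⟩
      exact ⟨c, (e₁ c).symm⟩
    · rintro ⟨c, rfl⟩
      exact ⟨⟨j c, c, rfl⟩, e₁ c⟩
  obtain ⟨θ, t₁, t₂⟩ := hLD.emb h₁ h₂ (a.comp ψ) b
    (by rintro _ ⟨c, rfl⟩; exact (e₁ c).trans (e₂ c).symm) (by rw [e₀]; exact hl.mono l₁ le_rfl)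
  have m₂ : E₂ ≤ acl (E₁ ⊔ E₂) := le_sup_right.trans (le_acl _)
  let i₂ := Subfield.inclusion m₂
  have p₂ : A.push i₂ (A.push j₂ s) = A.push (i₂.comp j₂) s := A.ax.push_comp _ _ _
  have pF : A.push (acl (E₁ ⊔ E₂)).subtype (A.push (i₂.comp j₂) s) = s' := by
    rw [A.ax.push_comp]
    exact h
  have eθ : θ.comp i₂ = b := RingHom.ext t₂
  have pb : A.push b (A.push j₂ s) = A.push (a.comp (cB k)) s := by rw [A.ax.push_comp, hab]
  have pθ : A.push θ (A.push (i₂.comp j₂) s) = A.push (a.comp (cB k)) s := by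
    rw [A.ax.push_comp, ← RingHom.comp_assoc, eθ, hab]
  obtain ⟨ω₀, rfl⟩ := (rat_subtype_iff pF).1 (hω.mono (le_acl _))
  have hT : Rat ((a.comp ψ).fieldRange ⊔ b.fieldRange) (A.map θ pθ ω₀) := by
    rw [rat_map_iff] at hω ⊢
    refine hω.mono fun z hz => ?_
    have h3 : E₁ ⊔ E₂ ≤ (((a.comp ψ).fieldRange ⊔ b.fieldRange).comap θ).map
        (acl (E₁ ⊔ E₂)).subtype := by
      refine sup_le (fun w hw => ⟨⟨w, le_acl _ (le_sup_left (a := E₁) hw)⟩, ?_, rfl⟩)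
        fun w hw => ⟨⟨w, m₂ hw⟩, ?_, rfl⟩
      · exact le_sup_left (b := b.fieldRange) ⟨⟨w, hw⟩, (t₁ ⟨w, hw⟩).symm⟩
      · exact le_sup_right (a := (a.comp ψ).fieldRange) ⟨⟨w, hw⟩, (t₂ ⟨w, hw⟩).symm⟩
    obtain ⟨w, hw, e⟩ := h3 hz
    rwa [← Subtype.ext e]
  obtain ⟨ω', g₁, g₂⟩ := Split_big A s a l₂ (by rw [hab, Split_rk]; exact q₂) hl rfl
    (hT.mono (sup_le_sup_right l₁ _))
  obtain ⟨β, rfl⟩ := (rat_range_iff b pb).1 g₁
  have eβ : A.map θ pθ (A.map i₂ p₂ β) = A.map b pb β := by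
    rw [PG.map_map]
    exact map_congr eθ _ _ β
  have dT : A.Def ((a.comp ψ).fieldRange ⊔ b.fieldRange) (A.push (a.comp (cB k)) s) :=
    def_range _ s rfl (l₂.trans le_sup_right)
  have g₃ : Rat (a.comp ψ).fieldRange (A.map θ pθ (ω₀ - A.map i₂ p₂ β)) := by
    rw [← (hl.tower l₀ l₁ l₂).inf l₁ le_sup_left, rat_inf, map_sub, eβ]
    exact ⟨g₂, (RatS dT).sub_mem hT (g₁.mono le_sup_right)⟩
  refine ⟨A.map _ pF (ω₀ - A.map i₂ p₂ β), A.map _ pF (A.map i₂ p₂ β), ?_, ?_, ?_⟩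
  · rw [rat_map_iff] at g₃ ⊢
    refine g₃.mono ?_
    rintro z ⟨w, hw⟩
    rw [← t₁] at hw
    rw [← θ.injective hw]
    exact w.2
  · rw [PG.map_map]
    exact (rat_subtype_iff _).2 ⟨β, rfl⟩
  · rw [← map_add, sub_add_cancel]

/-- The splitting property for fields of bounded rank. -/
def SplitP {A : PG.{u}} {E : Type u} [Field E] (s : A.Str E) (n m : ℕ∞) : Prop :=
  ∀ k E₁ E₂ : Subfield E, IsAlgClosed k → IsAlgClosed E₁ → IsAlgClosed E₂ → A.Def k s → k ≤ E₁ →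
    k ≤ E₂ → LD k E₁ E₂ → rk k (E₁ : Set E) ≤ n → rk k (E₂ : Set E) ≤ m →
    ∀ ω : A.Pt s, Rat (E₁ ⊔ E₂) ω → ∃ α β, Rat E₁ α ∧ Rat E₂ β ∧ ω = α + β

theorem SplitP.symm {A : PG.{u}} {E : Type u} [Field E] {s : A.Str E} {n m : ℕ∞}
    (h : SplitP s n m) : SplitP s m n := by
  intro k E₁ E₂ a b c d h₁ h₂ hl r₁ r₂ ω hω
  obtain ⟨α, β, p, q, e⟩ := h k E₂ E₁ a c b d h₂ h₁ (hl.symm h₁ h₂) r₂ r₁ ω (by rwa [sup_comm])
  exact ⟨β, α, q, p, by rw [e, add_comm]⟩

theorem SplitP.ind {A : PG.{u}} {E : Type u} [Field E] [IsAlgClosed E] {s : A.Str E} {n : ℕ∞}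
    (h : SplitP s n 1) (d : ℕ) : SplitP s n d := by
  induction d with
  | zero =>
    exact fun k E₁ E₂ a b c d h₁ h₂ hl r₁ r₂ =>
      h k E₁ E₂ a b c d h₁ h₂ hl r₁ (r₂.trans (by simp))
  | succ d ih =>
    intro k E₁ E₂ a b c hd h₁ h₂ hl r₁ r₂ ω hω
    rcases r₂.lt_or_eq with r | r
    · refine ih k E₁ E₂ a b c hd h₁ h₂ hl r₁ ?_ ω hω
      rw [Nat.cast_succ] at r
      exact Order.le_of_lt_add_one r
    obtain ⟨F, f₁, f₂, f₃, f₄, f₅⟩ := exists_corank h₂ (d := d) (by rw [r, Nat.cast_succ])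
    have l₁ : F ≤ acl (F ⊔ E₁) := le_sup_left.trans (le_acl _)
    have l₂ : LD F (acl (F ⊔ E₁)) E₂ :=
      ((((hl.symm h₁ h₂).tower f₂ f₃ h₁).acl f₃ le_sup_left).mono (le_acl _) le_rfl).symm f₃ l₁
    have l₃ : rk F (acl (F ⊔ E₁) : Set E) ≤ n := by
      have e : F ⊔ E₁ = adj F (E₁ : Set E) :=
        le_antisymm (sup_le (le_adj _ _) (subset_adj _ _))
          (adj_le.2 ⟨le_sup_left, le_sup_right (a := F)⟩)
      rw [e, rk_acl_adj]
      exact (rk_anti f₂).trans r₁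
    obtain ⟨α, β, p, q, e⟩ := h F (acl (F ⊔ E₁)) E₂ f₁ inferInstance c (hd.mono f₂) l₁ f₃ l₂ l₃ f₅
      ω (hω.mono (sup_le_sup_right (le_sup_right.trans (le_acl _)) _))
    have l₄ : Rat (E₁ ⊔ F) α := by
      rw [sup_comm, ← (l₂.tower le_sup_left (le_acl _) f₃).inf (le_acl _) le_sup_left, rat_inf]
      refine ⟨p, ?_⟩
      rw [eq_sub_of_add_eq e.symm]
      exact (RatS (hd.mono (h₂.trans le_sup_right))).sub_mem
        (hω.mono (sup_le_sup_right le_sup_right _)) (q.mono le_sup_right)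
    obtain ⟨α', β', p', q', e'⟩ := ih k E₁ F a b f₁ hd h₁ f₂ (hl.mono le_rfl f₃) r₁ f₄.le α l₄
    exact ⟨α', β' + β, p', PG.Rat.add (hd.mono h₂) (q'.mono f₃) q, by rw [e, e', add_assoc]⟩

theorem Split_one (A : SPG.{u}) {E : Type u} [Field E] [IsAlgClosed E] (s : A.Str E) :
    SplitP s 1 1 := by
  rintro k E₁ E₂ a b c ⟨s₀, h⟩ h₁ h₂ hl r₁ r₂ ω hω
  rw [← k.fieldRange_subtype] at h₁ h₂ hl r₁ r₂
  exact A.split_curve h h₁ h₂ hl r₁ r₂ hω

theorem SPG.split (A : SPG.{u}) {k E : Type u} [Field k] [IsAlgClosed k] [Field E]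
    [IsAlgClosed E] {j : k →+* E} {s : A.Str k} {s' : A.Str E} (h : A.push j s = s')
    {E₁ E₂ : Subfield E} [IsAlgClosed E₁] [IsAlgClosed E₂] (h₁ : j.fieldRange ≤ E₁)
    (h₂ : j.fieldRange ≤ E₂) (hLD : LD j.fieldRange E₁ E₂)
    {ω : A.Pt s'} (hω : Rat (E₁ ⊔ E₂) ω) : ∃ α β, Rat E₁ α ∧ Rat E₂ β ∧ ω = α + β := by
  have hf : ∀ z : rat ω, ∃ S T : Finset E, (S : Set E) ⊆ E₁ ∧ (T : Set E) ⊆ E₂ ∧
      (z : E) ∈ adj j.fieldRange (S : Set E) ⊔ adj j.fieldRange (T : Set E) := fun z =>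
    mem_sup_finite h₁ h₂ (hω z.2)
  choose S T a b c using hf
  have := (rat_finite ω).to_subtype
  have key : ∀ {F : Subfield E} [IsAlgClosed F] (U : rat ω → Finset E), j.fieldRange ≤ F →
      (∀ z, (U z : Set E) ⊆ F) → ∃ (G : Subfield E) (d : ℕ), IsAlgClosed G ∧ j.fieldRange ≤ G ∧
        G ≤ F ∧ rk j.fieldRange (G : Set E) ≤ d ∧ ∀ z, adj j.fieldRange (U z : Set E) ≤ G := by
    intro F _ U hF hU
    obtain ⟨d, hd⟩ := ENat.ne_top_iff_exists.1
      (rk_ne_top (E := j.fieldRange) (Set.finite_iUnion fun z => (U z).finite_toSet))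
    refine ⟨acl (adj j.fieldRange (⋃ z, (U z : Set E))), d, inferInstance,
      (le_adj _ _).trans (le_acl _), ?_, by rw [rk_acl_adj, hd], fun z => ?_⟩
    · exact (acl_mono (adj_le.2 ⟨hF, Set.iUnion_subset hU⟩)).trans acl_eq.le
    · exact (LD2_adj_mono le_rfl (Set.subset_iUnion (fun z => (U z : Set E)) z)).trans (le_acl _)
  obtain ⟨G₁, d₁, a₁, a₂, a₃, a₄, a₅⟩ := key S h₁ a
  obtain ⟨G₂, d₂, b₁, b₂, b₃, b₄, b₅⟩ := key T h₂ b
  obtain ⟨α, β, p, q, e⟩ := (((Split_one A s').ind d₁).symm.ind d₂) j.fieldRange G₁ G₂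
    inferInstance a₁ b₁ (def_range j s h le_rfl) a₂ b₂ (hLD.mono a₃ b₃) a₄ b₄ ω
    fun z hz => sup_le_sup (a₅ ⟨z, hz⟩) (b₅ ⟨z, hz⟩) (c ⟨z, hz⟩)
  exact ⟨α, β, p.mono a₃, q.mono b₃, e⟩

end MLF
end

-- merged part: Pool.Agent.Work.MP_29d410_ag.Proj
section
/-!
# Complete reducibility: a projector killing a subgroup

Proof of `exists_proj`.  Let `a₀`, `a₁` be free generic points of `D` over `k` in an algebraically
closed field `E`, `a = a₀ + a₁`, and `Z` a closed set over `k` minimal (`wf_cl`) such that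
`Σ = (a + ext S) ∩ ext Z` is not empty.  `Σ` is finite since it misses a coordinate hyperplane.
`N` is the number of its points, `ω = ∑ Σ`, `Γ₁ = loc (a, ω)`.  An automorphism over `k` which
moves `a` inside `a + ext S` fixes `ω`.  So `ω = α + β` (`split`), and `Γ₁` is the sum of
`loc (a₀, α)` and `loc (a₁, β)`; all three have the same dimension, so `Γ₁` is a coset of its
stabiliser `Γ`.
-/

set_option linter.unusedSectionVars false

open Pointwise

namespace MLF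

universe u

namespace PG

variable {A : PG.{u}} {k T : Type u} [Field k] [IsAlgClosed k] [Field T] {s : A.Str k}

/-- `Γ` is the graph of `u : D → D` with `u S = 0` and `N x - u x ∈ S`. -/
structure IsProj (D S : AddSubgroup (A.Pt s)) (N : ℕ) (Γ : AddSubgroup ((A.prod A).Pt (s, s))) :
    Prop where
  qh : QH Γ
  dom : dom Γ = D
  le : S ≤ D
  var : Var (S : Set (A.Pt s))
  ne : N ≠ 0
  kill : ∀ b ∈ S, ((b, 0) : (A.prod A).Pt (s, s)) ∈ Γ
  sub : ∀ z ∈ Γ, N • z.1 - z.2 ∈ S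

variable {D S : AddSubgroup (A.Pt s)} {N : ℕ} {Γ : AddSubgroup ((A.prod A).Pt (s, s))}

theorem Proj_nm (N : ℕ) : ∃ φ : NM (A.prod A) A (s, s) s, ∀ {T : Type u} [Field T] (j : k →+* T)
    {s' : A.Str T} (e : A.push j s = s') (z : (A.prod A).Pt (s', s')),
    φ.f j (prod_push e e) e z = N • z.1 - z.2 :=
  ⟨((NM.fst s s).nsmul N).add (NM.snd s s).neg, fun j _ e z => by
    subst e
    exact (sub_eq_add_neg _ _).symm⟩

theorem IsProj.ext [IsAlgClosed T] (h : IsProj D S N Γ) {j : k →+* T} {s' : A.Str T}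
    (e : A.push j s = s') : IsProj (extS e D) (extS e S) N (extG e e Γ) := by
  refine ⟨h.qh.ext e e, by rw [dom_ext, h.dom], fun x hx => ext_mono j s' h.le hx,
    var_ext h.var j e, h.ne, fun b hb => ?_, fun z hz => ?_⟩
  · rw [← mem_ker, ker_ext h.qh.var.1]
    exact ext_mono j s' (fun b hb => mem_ker.2 (h.kill b hb)) hb
  · obtain ⟨φ, hφ⟩ := Proj_nm (s := s) N
    rw [← hφ j e z]
    refine ext_mono j s' ?_ (φ.mem_ext (prod_push e e) e hz)
    rintro _ ⟨w, hw, rfl⟩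
    exact Set.mem_of_eq_of_mem (hφ _ (A.ax.push_id s) w) (h.sub w hw)

theorem IsProj.ran_le (h : IsProj D S N Γ) : ran Γ ≤ D := by
  intro y hy
  obtain ⟨x, hx⟩ := mem_ran.1 hy
  have h1 : x ∈ D := h.dom ▸ mem_dom.2 ⟨y, hx⟩
  simpa using D.sub_mem (D.nsmul_mem h1 N) (h.le (h.sub _ hx))

theorem IsProj.idem (h : IsProj D S N Γ) {y : A.Pt s} (hy : y ∈ ran Γ) :
    ((y, N • y) : (A.prod A).Pt (s, s)) ∈ Γ := by
  obtain ⟨x, hx⟩ := mem_ran.1 hy
  convert Γ.sub_mem (Γ.nsmul_mem hx N) (h.kill _ (h.sub _ hx)) using 1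
  exact Prod.ext (sub_sub_cancel _ _).symm (sub_zero _).symm

theorem IsProj.idc (h : IsProj D S N Γ) (hs : A.TorsFin s) : IdC S (ker Γ) := by
  refine ⟨fun b hb => mem_ker.2 (h.kill b hb), h.var, _, hs N h.ne, fun x hx => ?_⟩
  obtain ⟨y, hy, e⟩ := hs.div h.var h.ne (h.sub _ (mem_ker.1 hx))
  refine ⟨x - y, ?_, by rwa [sub_sub_cancel]⟩
  change N • (x - y) = 0
  rw [smul_sub, e, sub_eq_zero]
  exact (sub_zero _).symm

theorem IsProj.Proj_nsmul (h : IsProj D S N Γ) (hs : A.TorsFin s) {X : Set (A.Pt s)}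
    (hD : X ⊆ D) (hS : S ≤ Stab X) : (N • ·) '' X = img Γ X + (S : Set (A.Pt s)) := by
  ext z
  constructor
  · rintro ⟨x, hx, rfl⟩
    obtain ⟨y, hy⟩ := mem_dom.1 (h.dom.symm ▸ hD hx : x ∈ PG.dom Γ)
    exact ⟨y, ⟨x, hx, hy⟩, _, h.sub _ hy, add_sub_cancel _ _⟩
  · rintro ⟨y, ⟨x, hx, hy⟩, b, hb, rfl⟩
    obtain ⟨c, hc, e⟩ := hs.div h.var h.ne (S.sub_mem hb (h.sub _ hy))
    refine ⟨c + x, (hS hc x).1 hx, ?_⟩
    change N • (c + x) = y + b
    rw [smul_add, e]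
    change b - (N • x - y) + N • x = y + b
    abel

theorem IsProj.stab_finite (h : IsProj D S N Γ) (hs : A.TorsFin s) {X : Set (A.Pt s)} (hX : Var X)
    (hD : X ⊆ D) (hS : IdC S (Stab X)) : (Stab (img Γ X) : Set (A.Pt s)).Finite := by
  obtain ⟨n, hn, hn'⟩ := hS.nsmul_mem
  refine (hs (n * N) (mul_ne_zero hn h.ne)).subset fun c hc => ?_
  obtain ⟨x, hx⟩ := hX.2.1
  obtain ⟨y, hy⟩ := mem_dom.1 (h.dom.symm ▸ hD hx : x ∈ PG.dom Γ)
  obtain ⟨x', -, hy'⟩ := (hc y).1 ⟨x, hx, hy⟩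
  have h1 : c ∈ ran Γ := by
    simpa using (ran Γ).sub_mem (mem_ran.2 ⟨_, hy'⟩) (mem_ran.2 ⟨_, hy⟩)
  obtain ⟨c', -, rfl⟩ := hs.div (h.dom ▸ var_dom h.qh.var) h.ne (h.ran_le h1)
  obtain ⟨τ, h2, h3⟩ := hs.eq_vadd h.ne (hX.vadd c') hX (by
    have e : (N • ·) '' (c' +ᵥ X) = (N • c') +ᵥ (N • ·) '' X := by
      simp only [← Set.image_vadd, Set.image_image, vadd_eq_add, smul_add]
    rw [e, h.Proj_nsmul hs hD hS.le, ← vadd_eq_add, ← vadd_assoc, mem_stab.1 hc])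
  have h4 : -τ + c' ∈ Stab X := mem_stab.2 (by rw [add_vadd, h3, neg_vadd_vadd])
  have h5 : n • N • c' ∈ S := by
    have := S.nsmul_mem (hn' _ h4) N
    rwa [smul_comm, smul_add, smul_neg, h2, neg_zero, zero_add] at this
  change (n * N) • N • c' = 0
  rw [mul_smul]
  exact uniq_of_inj h.qh.inj (Γ.nsmul_mem (h.idem h1) n) (h.kill _ h5)

theorem IsProj.nsmul_eq (h : IsProj D S N Γ) (hs : A.TorsFin s) {X : Set (A.Pt s)}
    (hD : X ⊆ D) (hS : S ≤ Stab X) : (N • ·) '' X = img Γ X + (S : Set (A.Pt s)) :=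
  h.Proj_nsmul hs hD hS

/-- If the projection is a point, the variety is a coset. -/
theorem IsProj.coset (h : IsProj D S N Γ) (hs : A.TorsFin s) {X : Set (A.Pt s)} (hX : Var X)
    (hD : X ⊆ D) (hS : S ≤ Stab X) (hf : (img Γ X).Finite) :
    ∃ a : A.Pt s, X = a +ᵥ (S : Set (A.Pt s)) := by
  obtain ⟨y, hy⟩ := (h.qh.var_img hX (h.dom.symm ▸ hD)).2.eq_singleton hf
  obtain ⟨x, hx⟩ := hX.2.1
  have h1 : x +ᵥ (S : Set (A.Pt s)) ⊆ X := by
    rintro _ ⟨b, hb, rfl⟩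
    exact (add_comm b x ▸ (hS hb x).1 hx :)
  obtain ⟨τ, -, h2⟩ := hs.eq_vadd h.ne hX (h.var.vadd x) (by
    refine Set.Subset.antisymm ?_ (Set.image_mono h1)
    rintro _ ⟨x', hx', rfl⟩
    have key : ∀ x ∈ X, N • x - y ∈ S := fun x hx => by
      obtain ⟨y', hy'⟩ := mem_dom.1 (h.dom.symm ▸ hD hx : x ∈ PG.dom Γ)
      have e : y' ∈ img Γ X := ⟨x, hx, hy'⟩
      rw [hy] at e
      exact e ▸ h.sub _ hy'
    obtain ⟨c, hc, e⟩ := hs.div h.var h.ne (S.sub_mem (key _ hx') (key _ hx))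
    refine ⟨x + c, ⟨c, hc, rfl⟩, ?_⟩
    change N • (x + c) = N • x'
    rw [smul_add, e]
    abel)
  exact ⟨τ + x, by rw [add_vadd, ← h2]⟩

/-- The sum of the points of a finite section of the coset `a + S`. -/
theorem Proj_sec [IsAlgClosed T] {j : k →+* T} {s' : A.Str T} (h : A.push j s = s')
    (S : AddSubgroup (A.Pt s)) (a : A.Pt s') : ∃ (N : ℕ) (ω : A.Pt s'), N ≠ 0 ∧
      N • a - ω ∈ extS h S ∧ ∀ (τ : T →+* T) (e : A.push τ s' = s'), τ.comp j = j →
        A.map τ e a - a ∈ extS h S → A.map τ e ω = ω := by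
  classical
  obtain ⟨⟨Z, hZ⟩, ⟨y₀, hy₀⟩, hmin⟩ := (wf_cl s).has_min
    {Z | ((a +ᵥ PG.ext j s' (S : Set (A.Pt s))) ∩ PG.ext j s' Z.1).Nonempty}
    ⟨⟨Set.univ, cl_univ⟩, a, Geo5_vadd.2 (by rw [sub_self]; exact (extS h S).zero_mem),
      by rw [ext_univ h]; trivial⟩
  obtain ⟨x, hx⟩ : Z.Nonempty := Set.nonempty_iff_ne_empty.2 fun e => by
    have : y₀ ∈ PG.ext j s' Z := hy₀.2
    rw [e, ext_empty] at this
    exact this
  obtain ⟨v, i, hv, hi⟩ := exists_rep_one x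
  have hf : ((a +ᵥ PG.ext j s' (S : Set (A.Pt s))) ∩ PG.ext j s' Z).Finite := by
    refine Geo4_finite (((cl_ext j s' _).vadd a).inter (cl_ext j s' _)) one_pos
      (MvPolynomial.isHomogeneous_X T i) fun y hy h0 => ?_
    have hc := cl_van (s := s) (MvPolynomial.isHomogeneous_X k i)
    refine hmin ⟨_, hZ.inter hc⟩ ⟨y, hy.1, ?_⟩ ⟨Set.inter_subset_left, fun h1 => ?_⟩
    · rw [ext_inter h hZ hc, ext_van h (MvPolynomial.isHomogeneous_X k i)]
      exact ⟨hy.2, fun w hw => by simpa using h0 w hw⟩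
    · simpa [hi] using (h1 hx).2 v hv
  have hm : ∀ y, y ∈ hf.toFinset ↔ y - a ∈ extS h S ∧ y ∈ PG.ext j s' Z := fun y => by
    rw [Set.Finite.mem_toFinset, Set.mem_inter_iff, Geo5_vadd, mem_extS]
  refine ⟨hf.toFinset.card, ∑ y ∈ hf.toFinset, y,
    (Finset.card_pos.2 ⟨y₀, hf.mem_toFinset.2 hy₀⟩).ne', ?_, fun τ e hτ ha => ?_⟩
  · rw [← Finset.sum_const, ← Finset.sum_sub_distrib]
    exact sum_mem fun y hy => neg_sub y a ▸ neg_mem ((hm y).1 hy).1
  · have hi := (map_inj τ.injective e).injOn (s := hf.toFinset)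
    have h1 : hf.toFinset.image (A.map τ e) = hf.toFinset := by
      refine Finset.eq_of_subset_of_card_le (Finset.image_subset_iff.2 fun y hy => ?_)
        (Finset.card_image_of_injOn hi).ge
      obtain ⟨h2, h3⟩ := (hm y).1 hy
      have h4 := mem_ext_map τ e h2
      have h5 := mem_ext_map τ e h3
      rw [hτ] at h4 h5
      refine (hm _).2 ⟨?_, h5⟩
      have := (extS h S).add_mem h4 ha
      rwa [map_sub, sub_add_sub_cancel] at this
    rw [map_sum, ← Finset.sum_image (f := fun y => y) hi, h1]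

/-- A sum of two varieties which does not raise the dimension is a coset. -/
theorem Proj_stab {X Y : Set (A.Pt s)} (hX : Var X) (hY : Var Y) (h : dim (X + Y) ≤ dim X)
    {y y' : A.Pt s} (hy : y ∈ Y) (hy' : y' ∈ Y) : y - y' ∈ Stab (X + Y) := by
  have key : ∀ y ∈ Y, y +ᵥ X = X + Y := fun y hy =>
    eq_of_dim (hX.add hY) (hX.vadd y) (by
      rintro _ ⟨x, hx, rfl⟩
      exact ⟨x, hx, y, hy, add_comm x y⟩) (by rwa [dim_vadd hX])
  rw [mem_stab, ← key y' hy', vadd_vadd, sub_add_cancel, key y hy, key y' hy']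

theorem Proj_of_loc [IsAlgClosed T] {j : k →+* T} {s' : A.Str T} (h : A.push j s = s')
    (hS : Var (S : Set (A.Pt s))) (hSD : S ≤ D) {a ω : A.Pt s'} (ha : loc j s a = D) (hN : N ≠ 0)
    (h1 : N • a - ω ∈ extS h S)
    (h2 : ∀ (τ : T →+* T) (e : A.push τ s' = s'), τ.comp j = j →
      A.map τ e a - a ∈ extS h S → A.map τ e ω = ω)
    {Z : Set ((A.prod A).Pt (s, s))}
    (hZ : loc (A := A.prod A) j (s, s) (s' := (s', s')) (a, ω) = Z)
    (h3 : ∀ z ∈ Z, ∀ z' ∈ Z, z - z' ∈ Stab Z) : IsProj D S N (Stab Z) := by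
  have hh := prod_push (A := A) (B := A) h h
  have hv : Var Z := hZ ▸ var_loc hh _
  obtain ⟨z₀, hz₀⟩ := hv.2.1
  have hfst : (D : Set (A.Pt s)) = Prod.fst '' Z := by rw [← ha, ← hZ]; exact loc_fst h h (a, ω)
  have hD : ∀ z ∈ Z, z.1 ∈ D := fun z hz => (hfst.symm ▸ ⟨z, hz, rfl⟩ : z.1 ∈ (D : Set _))
  refine ⟨⟨?_, fun y hy => ?_⟩, ?_, hSD, hS, hN, fun b hb => ?_, fun z hz => ?_⟩
  · convert hv.vadd (-z₀) using 1
    ext z
    rw [Geo5_vadd, sub_neg_eq_add]
    exact ⟨fun hz => (hz z₀).1 hz₀, fun hz => by simpa using h3 _ hz _ hz₀⟩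
  · have e1 := loc_vadd hh (0, y) (a, ω)
    rw [hZ, mem_stab.1 hy, ← hZ] at e1
    obtain ⟨τ, e, hτ, e2⟩ := conj_aut hh e1.symm
    have e3 : A.map (τ : T →+* T) (congrArg Prod.fst e) a = A.map j h 0 + a := congrArg Prod.fst e2
    have e4 : A.map (τ : T →+* T) (congrArg Prod.fst e) ω = A.map j h y + ω := congrArg Prod.snd e2
    rw [h2 _ _ (RingHom.ext hτ) (by rw [e3, map_zero, zero_add, sub_self]; exact zero_mem _),
      eq_comm, add_eq_right] at e4
    exact map_inj j.injective h (by rw [e4, map_zero])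
  · ext x
    rw [mem_dom]
    constructor
    · rintro ⟨y, hy⟩
      simpa using D.sub_mem (hD _ ((hy z₀).1 hz₀)) (hD _ hz₀)
    · intro hx
      obtain ⟨z, hz, e⟩ : x + z₀.1 ∈ Prod.fst '' Z := hfst ▸ D.add_mem hx (hD _ hz₀)
      refine ⟨z.2 - z₀.2, ?_⟩
      convert h3 _ hz _ hz₀ using 1
      exact Prod.ext (eq_sub_of_add_eq e.symm) rfl
  · have e1 : loc j s a = loc j s (A.map j h b + a) := by
      rw [loc_vadd, ha]
      ext x
      rw [Geo5_vadd]
      exact ⟨fun hx => D.sub_mem hx (hSD hb), fun hx => by simpa using D.add_mem hx (hSD hb)⟩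
    obtain ⟨τ, e, hτ, e2⟩ := conj_aut h e1
    have e3 := h2 _ e (RingHom.ext hτ) (by
      rw [e2, add_sub_cancel_right]; exact map_mem_ext j h hb)
    have e4 := loc_map (A := A.prod A) (s := (s, s)) (j := j) (τ : T →+* T).injective
      (prod_push e e) (a, ω)
    have e5 : (A.prod A).map (τ : T →+* T) (prod_push e e) (a, ω) =
        (A.prod A).map j hh (b, 0) + (a, ω) :=
      Prod.ext e2 (e3.trans (by
        change ω = A.map j h 0 + ω
        rw [map_zero, zero_add]))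
    rw [e5, show (τ : T →+* T).comp j = j from RingHom.ext hτ, loc_vadd, hZ] at e4
    exact mem_stab.2 e4
  · obtain ⟨φ, hφ⟩ := Proj_nm (s := s) N
    have e1 := φ.loc_f hh h (a, ω)
    rw [hφ j h, hZ] at e1
    have key : ∀ z ∈ Z, N • z.1 - z.2 ∈ S := fun z hz =>
      loc_subset hS.1 h1 (e1 ▸ ⟨z, hz, hφ _ (A.ax.push_id s) z⟩)
    convert S.sub_mem (key _ ((hz z₀).1 hz₀)) (key _ hz₀) using 1
    change _ = N • (z.1 + z₀.1) - (z.2 + z₀.2) - _
    rw [smul_add]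
    abel

theorem Proj_dim {B : PG.{u}} {t : B.Str k} {j : k →+* T} {s' : A.Str T} {t' : B.Str T}
    (h : A.push j s = s') (e : B.push j t = t') {x : A.Pt s'} {y : B.Pt t'}
    (hy : Rat (acl (adj j.fieldRange (rat x))) y) : dim (loc j t y) ≤ dim (loc j s x) := by
  have := rk_le_of_acl hy
  rw [← dim_loc h, ← dim_loc e] at this
  exact_mod_cast this

end PG

open PG in
theorem SPG.exists_proj (A : SPG.{u}) {k : Type u} [Field k] [IsAlgClosed k] {s : A.Str k}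
    {D S : AddSubgroup (A.Pt s)} (hD : Var (D : Set (A.Pt s))) (hS : Var (S : Set (A.Pt s)))
    (h : S ≤ D) : ∃ N Γ, IsProj D S N Γ := by
  obtain ⟨T, _, _, i₀, y, hy, -⟩ := hD.exists_gen
  obtain ⟨E, _, _, i, a₁, ha₁, hLD⟩ := hD.exists_gen' i₀
  have e₀ : A.push i (A.push i₀ s) = A.push (i.comp i₀) s := A.ax.push_comp _ _ _
  have ha₀ := (loc_map (s := s) (j := i₀) i.injective e₀ y).trans hy
  have r₀ : Rat i.fieldRange (A.toPG.map i e₀ y) := (rat_range_iff i e₀).2 ⟨y, rfl⟩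
  have k₀ : (i.comp i₀).fieldRange ≤ i.fieldRange := by
    rintro _ ⟨c, rfl⟩
    exact ⟨i₀ c, rfl⟩
  generalize A.toPG.map i e₀ y = a₀ at ha₀ r₀
  clear e₀
  generalize i.comp i₀ = j at *
  have kk : ∀ t : Set E, j.fieldRange ≤ acl (adj j.fieldRange t) := fun t =>
    (le_adj _ _).trans (le_acl _)
  have rr : ∀ {B : PG.{u}} {t : B.Str E} (x : B.Pt t), Rat (acl (adj j.fieldRange (rat x))) x :=
    fun x => (rat_adj _ x).mono (le_acl _)
  have ha : loc j s (a₀ + a₁) = D := by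
    rw [loc_add_ld rfl k₀ (kk _) hLD r₀ (rr a₁), ha₀, ha₁, coe_add_coe]
  obtain ⟨N, ω, hN, h1, h2⟩ := Proj_sec (j := j) rfl S (a₀ + a₁)
  obtain ⟨p, _⟩ := ExpChar.exists E
  have hrat : ∀ (F₁ F₂ : Subfield E) [IsAlgClosed F₁] [IsAlgClosed F₂], j.fieldRange ≤ F₁ ⊔ F₂ →
      Rat (F₁ ⊔ F₂) (a₀ + a₁) → Rat (F₁ ⊔ F₂) ω := fun F₁ F₂ _ _ hF hr => by
    obtain ⟨m, hm⟩ := rat_of_fixed p (x := ω) (def_range j s rfl hF) fun τ hτ e =>
      h2 _ e (RingHom.ext fun c => hτ _ (hF ⟨c, rfl⟩)) (by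
        rw [(map_eq_map_iff e (A.ax.push_id _)).2 fun z hz => hτ z (hr hz), map_id' fun _ => rfl,
          sub_self]
        exact zero_mem _)
    rwa [root_sup] at hm
  have k₁ := k₀.trans (le_sup_left (b := acl (adj j.fieldRange (rat a₁))))
  obtain ⟨α, β, hα, hβ, rfl⟩ := A.split rfl k₀ (kk _) hLD (hrat _ _ k₁
    (PG.Rat.add (def_range j s rfl k₁) (r₀.mono le_sup_left) ((rr a₁).mono le_sup_right)))
  have h3 := hrat _ _ ((kk _).trans le_sup_left) ((rr (a₀ + a₁)).mono (le_sup_left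
    (b := acl (adj j.fieldRange (rat (a₀ + a₁))))))
  rw [sup_idem] at h3
  have hh := prod_push (A := A.toPG) (B := A.toPG) (φ := j) (s := s) (t := s) rfl rfl
  have h4 := loc_add_ld hh k₀ (kk _) hLD (ξ := (a₀, α)) (η := (a₁, β))
    ((prod_rat _ _).2 ⟨r₀, hα⟩) ((prod_rat _ _).2 ⟨rr a₁, hβ⟩)
  have h5 := Proj_dim rfl hh (y := (a₀, α) + (a₁, β)) ((prod_rat _ _).2 ⟨rr (a₀ + a₁), h3⟩)
  have h6 := Proj_dim hh rfl ((prod_rat _ _).1 (rr (B := A.toPG.prod A.toPG) (a₀, α))).1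
  have h7 := Proj_dim hh rfl ((prod_rat _ _).1 (rr (B := A.toPG.prod A.toPG) (a₁, β))).1
  rw [h4, ha] at h5
  rw [ha₀] at h6
  rw [ha₁] at h7
  refine ⟨N, _, Proj_of_loc rfl hS h ha hN h1 h2 h4 ?_⟩
  rintro _ ⟨x, hx, y, hy, rfl⟩ _ ⟨x', hx', y', hy', rfl⟩
  have h8 := Proj_stab (var_loc hh _) (var_loc hh _) (h5.trans h6) hy hy'
  have h9 := Proj_stab (var_loc hh _) (var_loc hh _) (by rw [add_comm]; exact h5.trans h7) hx hx'
  rw [add_comm] at h9
  convert add_mem h9 h8 using 1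
  exact add_sub_add_comm _ _ _ _

end MLF
end

-- merged part: Pool.Agent.Work.MP_29d410_ag.Rig
section
/-!
# Closed irreducible subgroups are defined over the ground field; the trace

Plan.  `rig`: `D` the identity component of `⊤` over `k`; `S' ≤ ext D` (`IdC.ext`,
`IdC.le_of_var`); `Γ'` a projector over `k'`.  Let `a` be generic in `D` over `k`, free from `k'`
(`Var.exists_gen'`), `F = acl k(a)`, `(a, y) ∈ ext Γ'`; `y` is rational over `k' ⊔ F`
(`QH.rat`, `root_sup`), `y = α + β` (`split`).  `Γ₁ = loc (a, β)` over `k` satisfies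
`ext Γ₁ = Γ' - (0, α)` (`genLD`; `(a, y)` is generic in `Γ'` by dimension).  `Γ₁` has a point
`(0, α₀)` over `k`, so `α = -α₀` and `Γ' = ext Γ` (`exists_sub_of_ext`).  `S'` is the identity
component of `ker Γ' = ext (ker Γ)` (`IsProj.idc`, `IdC.uniq`).
`dl`: reduce to finite rank of `κ` over `C`, induction (for all `E`, `j`, `κ`).  Rank zero:
`κ = C`.  Step: `κ' ≤ κ` of corank one, as a field `C'`; `θ : Big C → Big C'` from
`exists_bigMap`, structures pushed along `θ` restricted to the valuation rings.  Amalgamate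
`Big C'` and `κ` over `C'` in `E'`, embed `acl (K ⊔ κ)` in `E'` (`LD.emb`; `θ K` and `C'` are
disjoint over `C` by `ldps`, then `LD.trans`).  `dl_curve` over `C'` gives `ω'`, `H'`; by `rig` for
the product `H' = ext H₁`, and `H₁` is a lift (`congW_map_iff`), so `H₁ ≤ H`.  Choose `z` as the
reduction of `(ω', ω)` by a place of `E'` over `Big C'` mapping `κ` to `C'` (`LD.place`): `z.1` is
rational over `C'`, `z.2` over `θ K ⊔ C'` (`gauss`); apply the induction hypothesis to `z.2` in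
`Big C'` and add; pull back to `E` (`mem_ext_map_iff`).
-/

open Pointwise

namespace MLF

universe u

open PG

/-- A graph over the whole identity component is defined over the ground field. -/
theorem SPG.Rig_graph (A : SPG.{u}) {k k' : Type u} [Field k] [IsAlgClosed k] [Field k']
    [IsAlgClosed k'] {s : A.Str k} {j : k →+* k'} {s' : A.Str k'} (h : A.push j s = s')
    {D : AddSubgroup (A.Pt s)} (hD : Var (D : Set (A.Pt s)))
    {Γ' : AddSubgroup ((A.toPG.prod A.toPG).Pt (s', s'))} (hq : QH Γ') (hd : dom Γ' = extS h D) :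
    ∃ Γ : AddSubgroup ((A.toPG.prod A.toPG).Pt (s, s)),
      Cl (A := A.toPG.prod A.toPG) (s := (s, s)) Γ ∧ extG h h Γ = Γ' := by
  obtain ⟨E, _, _, i, a, ha, hLD⟩ := hD.exists_gen' j
  have e : A.push i s' = A.push (i.comp j) s := by
    rw [← h, A.ax.push_comp]
  have hk : (i.comp j).fieldRange ≤ i.fieldRange := by
    rintro _ ⟨c, rfl⟩
    exact ⟨j c, rfl⟩
  have hF : (i.comp j).fieldRange ≤ acl (adj (i.comp j).fieldRange (rat a)) :=
    (le_adj _ _).trans (le_acl _)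
  have haF : Rat (acl (adj (i.comp j).fieldRange (rat a))) a := (rat_adj _ a).mono (le_acl _)
  have ha' : loc i s' a = extS h D := by
    rw [genLD j i h e hF haF hLD, ha]
    rfl
  obtain ⟨y, hy⟩ : ∃ y, ((a, y) : (A.toPG.prod A.toPG).Pt (_, _)) ∈ extG e e Γ' := by
    rw [← mem_dom, dom_ext, hd, mem_extS, ← ha']
    exact mem_ext_loc e a
  obtain ⟨p, hp⟩ := ExpChar.exists E
  obtain ⟨m, hm⟩ := hq.rat p e e (E := i.fieldRange ⊔ acl (adj (i.comp j).fieldRange (rat a)))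
    le_sup_left hy (haF.mono le_sup_right)
  rw [root_sup] at hm
  obtain ⟨α, β, hα, hβ, rfl⟩ := A.split (j := i.comp j) rfl hk hF hLD hm
  obtain ⟨α, rfl⟩ := (rat_range_iff i e).1 hα
  let w : (A.toPG.prod A.toPG).Pt (A.push (i.comp j) s, A.push (i.comp j) s) := (a, β)
  let Γ₁ : Set ((A.toPG.prod A.toPG).Pt (s, s)) := loc (A := A.toPG.prod A.toPG) (i.comp j) (s, s) w
  have h1 : loc (A := A.toPG.prod A.toPG) i (s', s') w =
      ext (A := A.toPG.prod A.toPG) j (s', s') Γ₁ :=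
    genLD j i (prod_push h h) (prod_push e e) hF ((prod_rat _ w).2 ⟨haF, hβ⟩) hLD
  let α₁ : (A.toPG.prod A.toPG).Pt (s', s') := (0, α)
  have h2 : (Γ' : Set ((A.toPG.prod A.toPG).Pt (s', s'))) =
      α₁ +ᵥ ext (A := A.toPG.prod A.toPG) j (s', s') Γ₁ := by
    rw [← h1, ← loc_vadd (prod_push e e)]
    have h3 : (A.toPG.prod A.toPG).map i (prod_push e e) α₁ + w = (a, A.map i e α + β) :=
      Prod.ext (by
        change A.map i e 0 + a = a
        rw [map_zero, zero_add]) rfl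
    rw [h3, hq.Geo6_loc e e hy, ha', ← hd]
    ext z
    exact ⟨fun hz => ⟨hz, mem_dom.2 ⟨z.2, hz⟩⟩, fun hz => hz.1⟩
  obtain ⟨z, hz, hz0⟩ : (0 : A.Pt s) ∈ Prod.fst '' Γ₁ := by
    rw [← loc_fst rfl rfl w]
    change (0 : A.Pt s) ∈ loc (i.comp j) s a
    rw [ha]
    exact D.zero_mem
  have h4 : α₁ = (A.toPG.prod A.toPG).map j (prod_push h h) (-z) := by
    have h5 : α₁ + (A.toPG.prod A.toPG).map j (prod_push h h) z ∈ Γ' := by
      rw [← SetLike.mem_coe, h2]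
      exact ⟨_, map_mem_ext j (prod_push h h) hz, rfl⟩
    have h6 : (α₁ + (A.toPG.prod A.toPG).map j (prod_push h h) z).1 = 0 := by
      change 0 + A.map j h z.1 = 0
      rw [hz0, map_zero, add_zero]
    rw [map_neg, eq_neg_iff_add_eq_zero]
    refine Prod.ext h6 (hq.inj _ ?_)
    rw [← h6]
    exact h5
  rw [h4, ← ext_vadd (prod_push h h)] at h2
  have hc : Cl (-z +ᵥ Γ₁) := (cl_loc _ w).vadd _
  obtain ⟨Γ, hΓ, hΓ'⟩ := exists_sub_of_ext (prod_push h h) hc h2.symm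
  exact ⟨Γ, hΓ ▸ hc, hΓ'⟩

theorem SPG.rig (A : SPG.{u}) {k k' : Type u} [Field k] [IsAlgClosed k] [Field k'] [IsAlgClosed k']
    {s : A.Str k} (hs : A.TorsFin s) {j : k →+* k'} {s' : A.Str k'} (h : A.push j s = s')
    {S' : AddSubgroup (A.Pt s')} (hS : Var (S' : Set (A.Pt s'))) :
    ∃ S : AddSubgroup (A.Pt s), Var (S : Set (A.Pt s)) ∧ extS h S = S' := by
  obtain ⟨D, hD⟩ := exists_idc (G := (⊤ : AddSubgroup (A.Pt s))) cl_univ
  have hD' := hD.ext h
  have hle : S' ≤ extS h D := by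
    refine hD'.le_of_var hS S'.zero_mem fun x _ => ?_
    change x ∈ ext j s' Set.univ
    rw [ext_univ h]
    trivial
  obtain ⟨N, Γ', hΓ'⟩ := A.exists_proj hD'.var hS hle
  obtain ⟨Γ, hc, rfl⟩ := A.Rig_graph h hD.var hΓ'.qh hΓ'.dom
  obtain ⟨S, hS₀⟩ := exists_idc (cl_ker hc)
  have h1 := hΓ'.idc (hs.ext h)
  rw [ker_ext hc] at h1
  exact ⟨S, hS₀.var, (hS₀.ext h).uniq h1⟩

/-- Points over a free compositum `K ⊔ κ` come from `K` and, through `H`, from `κ`. -/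
def PG.DL {A : PG.{u}} {C K : Type u} [Field C] [Field K] [IsAlgClosed K] (c : C →+* K)
    {sb s : A.Str K} (H : AddSubgroup ((A.prod A).Pt (sb, s))) : Prop :=
  ∀ (E : Type u) [Field E] [IsAlgClosed E] (j : K →+* E) (κ : Subfield E) [IsAlgClosed κ]
    (sb' s' : A.Str E) (hb : A.push j sb = sb') (h : A.push j s = s'),
    (j.comp c).fieldRange ≤ κ → LD (j.comp c).fieldRange j.fieldRange κ →
    ∀ ω : A.Pt s', Rat (j.fieldRange ⊔ κ) ω → ∃ (a : A.Pt s) (b : A.Pt sb'), Rat κ b ∧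
      ((b, ω - A.map j h a) : (A.prod A).Pt (sb', s')) ∈ extG hb h H

section RigP

variable {A : PG.{u}} {K E E' : Type u} [Field K] [IsAlgClosed K] [Field E] [Field E']
  {sb s : A.Str K} {H : AddSubgroup ((A.prod A).Pt (sb, s))}

/-- The conclusion of `DL` for one point. -/
def PG.RigP (H : AddSubgroup ((A.prod A).Pt (sb, s))) {j : K →+* E} (κ : Subfield E)
    {sb' s' : A.Str E} (hb : A.push j sb = sb') (h : A.push j s = s') (ω : A.Pt s') : Prop :=
  ∃ (a : A.Pt s) (b : A.Pt sb'), Rat κ b ∧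
    ((b, ω - A.map j h a) : (A.prod A).Pt (sb', s')) ∈ extG hb h H

theorem PG.RigP_iff {j : K →+* E} {j' : K →+* E'} (ψ : E →+* E') (hψ : ψ.comp j = j')
    {κ : Subfield E} {sb' s' : A.Str E} {hb : A.push j sb = sb'} {h : A.push j s = s'}
    {sb'' s'' : A.Str E'} {hb' : A.push j' sb = sb''} {h' : A.push j' s = s''}
    (e : A.push ψ s' = s'') {ω : A.Pt s'} :
    RigP H (κ.map ψ) hb' h' (A.map ψ e ω) ↔ RigP H κ hb h ω := by
  subst hψ
  have eb : A.push ψ sb' = sb'' := by rw [← hb, A.ax.push_comp, hb']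
  have key : ∀ (a : A.Pt s) (b : A.Pt sb'),
      ((A.map ψ eb b, A.map ψ e ω - A.map (ψ.comp j) h' a) : (A.prod A).Pt (sb'', s'')) ∈
        extG hb' h' H ↔ ((b, ω - A.map j h a) : (A.prod A).Pt (sb', s')) ∈ extG hb h H := by
    intro a b
    rw [← map_map h e, ← map_sub]
    exact mem_ext_map_iff (A := A.prod A) (s := (sb, s)) (j := j) ψ.injective (prod_push eb e)
      (y := (b, ω - A.map j h a))
  constructor
  · rintro ⟨a, b, hb₁, hz⟩
    obtain ⟨b, rfl⟩ := (rat_range_iff ψ eb).1 (hb₁.mono (by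
      rintro _ ⟨z, -, rfl⟩
      exact ⟨z, rfl⟩))
    rw [rat_map_iff, Subfield.comap_map] at hb₁
    exact ⟨a, b, hb₁, (key a b).1 hz⟩
  · rintro ⟨a, b, hb₁, hz⟩
    exact ⟨a, _, hb₁.map ψ eb, (key a b).2 hz⟩

end RigP

theorem Rig_map_range {k T T' : Type u} [Field k] [Field T] [Field T'] (j : k →+* T)
    (ψ : T →+* T') : j.fieldRange.map ψ = (ψ.comp j).fieldRange :=
  RingHom.map_fieldRange ψ j

/-- The rank of a subfield, computed inside the subfield and after an embedding. -/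
theorem Rig_rk {E E' : Type u} [Field E] [Field E'] {κ' κ : Subfield E} (h : κ' ≤ κ)
    (ψ : κ →+* E') : rk (ψ.comp (Subfield.inclusion h)).fieldRange (ψ.fieldRange : Set E') =
      rk κ' (κ : Set E) := by
  have a1 := rk_map (E := (Subfield.inclusion h).fieldRange) (s := Set.univ) ψ
  have a2 := rk_map (E := (Subfield.inclusion h).fieldRange) (s := Set.univ) κ.subtype
  rw [Rig_map_range, Set.image_univ] at a1 a2
  have a3 : (κ.subtype.comp (Subfield.inclusion h)).fieldRange = κ' := κ'.fieldRange_subtype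
  rw [a3, Subfield.coe_subtype, Subtype.range_coe] at a2
  exact a1.trans a2.symm

/-- The inductive step, after the amalgamation. -/
theorem SPG.Rig_step (A : SPG.{u}) {C C' κ E : Type u} [Field C] [IsAlgClosed C] [Field C']
    [IsAlgClosed C'] [Field κ] [Field E] [IsAlgClosed E] {sV : A.Str (VB C)}
    {s sb : A.Str (Big C)} {sC : A.Str C} (hs : A.push (VB C).subtype sV = s)
    (hC : A.push (resB C) sV = sC) (hb : A.push (cB C) sC = sb) (ht : A.TorsFin s)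
    (htC : A.TorsFin sC) {H : AddSubgroup ((A.toPG.prod A.toPG).Pt (sb, s))}
    (hmax : ∀ H', Lift (VB C) H' → H' ≤ H) {i : C →+* C'} {θ : Big C →+* Big C'}
    (hθ : θ.comp (cB C) = (cB C').comp i) (hV : (VB C').comap θ = VB C)
    (hr : ∀ (z : VB C) (h : θ z ∈ VB C'), resB C' ⟨θ z, h⟩ = i (resB C z))
    (hLD₀ : LD (θ.comp (cB C)).fieldRange θ.fieldRange (cB C').fieldRange)
    {i₂ : C' →+* κ} {j₁ : Big C' →+* E} {j₂ : κ →+* E} (hj : j₁.comp (cB C') = j₂.comp i₂)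
    (hLD : LD (j₁.comp (cB C')).fieldRange j₁.fieldRange j₂.fieldRange)
    (hrk : rk (j₁.comp (cB C')).fieldRange (j₂.fieldRange : Set E) ≤ 1)
    (ih : ∀ ω : A.Pt (A.push θ s), Rat (θ.fieldRange ⊔ (cB C').fieldRange) ω →
      RigP H (cB C').fieldRange (rfl : A.push θ sb = _) rfl ω)
    {sb' s' : A.Str E} (hb' : A.push (j₁.comp θ) sb = sb') (h' : A.push (j₁.comp θ) s = s')
    {ω : A.Pt s'} (hω : Rat ((j₁.comp θ).fieldRange ⊔ j₂.fieldRange) ω) :
    RigP H j₂.fieldRange hb' h' ω := by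
  have hmem : ∀ z : VB C, θ z ∈ VB C' := fun z => by
    have hz : (z : Big C) ∈ (VB C').comap θ := hV.symm ▸ z.2
    exact hz
  let θV : VB C →+* VB C' := (θ.comp (VB C).subtype).codRestrict (VB C').toSubring hmem
  have e₁ : A.push (VB C').subtype (A.push θV sV) = A.push θ s := by
    rw [← hs, A.ax.push_comp, A.ax.push_comp]
    rfl
  have e₂ : A.push (resB C') (A.push θV sV) = A.push i sC := by
    rw [← hC, A.ax.push_comp, A.ax.push_comp]
    congr 1
    exact RingHom.ext fun z => hr z (hmem z)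
  have e₃ : A.push (cB C') (A.push i sC) = A.push θ sb := by
    rw [← hb, A.ax.push_comp, A.ax.push_comp, hθ]
  have e₄ : A.push j₁ (A.push θ s) = s' := by rw [A.ax.push_comp, h']
  have e₅ : A.push j₁ (A.push θ sb) = sb' := by rw [A.ax.push_comp, hb']
  have hκ : (j₁.comp (cB C')).fieldRange ≤ j₂.fieldRange := by
    rw [hj]
    rintro _ ⟨c, rfl⟩
    exact ⟨i₂ c, rfl⟩
  have hJ : (j₁.comp θ).fieldRange ≤ j₁.fieldRange := by
    rintro _ ⟨c, rfl⟩
    exact ⟨θ c, rfl⟩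
  obtain ⟨ω', H', hω', hH', hz⟩ := A.dl_curve e₁ e₂ e₃ j₁ hκ hrk hLD e₄ e₅
    (hω.mono (sup_le_sup_right hJ _))
  obtain ⟨H₁, hH₁, rfl⟩ := (A.prod A).rig (s := (sb, s)) ((htC.ext hb).prod ht) (j := θ)
    (s' := (A.push θ sb, A.push θ s)) rfl hH'.var
  have hle : H₁ ≤ H := by
    refine hmax _ ⟨hH₁, fun z hz => ?_⟩
    have := hH'.cong _ (map_mem_ext (A := A.toPG.prod A.toPG) θ rfl hz)
    rw [← hV]
    exact (congW_map_iff θ (VB C') rfl rfl).1 this
  obtain ⟨P, hP⟩ := exists_place_self i₂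
  let g : j₁.fieldRange →+* Big C' := j₁.rangeRestrictFieldEquiv.symm.toRingHom
  have hg : ∀ z, g ⟨j₁ z, z, rfl⟩ = z := fun z => j₁.rangeRestrictFieldEquiv.symm_apply_apply z
  have hk : (j₂.comp i₂).fieldRange ≤ j₁.fieldRange := by
    rw [← hj]
    rintro _ ⟨c, rfl⟩
    exact ⟨cB C' c, rfl⟩
  obtain ⟨W, r, -, a2, a3, a4⟩ := Geo7_glue hk (hj ▸ hLD) g
    (Geo7_post P (cB C') (j'' := cB C') fun _ => rfl)
    (fun z => ((map_eq_zero (cB C')).trans (hP z))) fun c => by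
      rw [← hg (cB C' c)]
      congr 2
      exact (RingHom.congr_fun hj c).symm
  let Q : Place j₁ (RingHom.id _) := ⟨W, fun c => (a2 ⟨j₁ c, c, rfl⟩).1, r,
    fun c => (a2 ⟨j₁ c, c, rfl⟩).2.trans (hg c)⟩
  have hres : ∀ z : W, (z : E) ∈ j₂.fieldRange → r z ∈ (cB C').fieldRange := by
    rintro ⟨_, hz⟩ ⟨z, rfl⟩
    obtain ⟨_, h⟩ := a3 ⟨z, a4 z hz⟩
    exact ⟨_, h.symm⟩
  have b1 : Rat (cB C').fieldRange (Q.red e₅ (A.ax.push_id _) ω') :=
    ((Q.red_eq_iff _ _).1 rfl).ratl hres hω'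
  have b2 : Rat (θ.fieldRange ⊔ (cB C').fieldRange) (Q.red e₄ (A.ax.push_id _) ω) := by
    refine ((Q.red_eq_iff _ _).1 rfl).ratl (fun z hz => ?_) hω
    have h₁ : ((j₁.comp θ).comp (cB C)).fieldRange ≤ (j₁.comp θ).fieldRange := by
      rintro _ ⟨c, rfl⟩
      exact ⟨cB C c, rfl⟩
    have h₂ : ((j₁.comp θ).comp (cB C)).fieldRange ≤ j₂.fieldRange := by
      refine le_trans ?_ hκ
      rintro _ ⟨c, rfl⟩
      exact ⟨i c, congrArg j₁ (RingHom.congr_fun hθ c).symm⟩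
    have c1 : (g.comp (Subfield.inclusion hJ)).fieldRange = θ.fieldRange := by
      ext x
      constructor
      · rintro ⟨⟨_, y, rfl⟩, rfl⟩
        exact ⟨y, (hg (θ y)).symm⟩
      · rintro ⟨y, rfl⟩
        exact ⟨⟨_, y, rfl⟩, hg (θ y)⟩
    have c2 : ((g.comp (Subfield.inclusion hJ)).comp (Subfield.inclusion h₁)).fieldRange =
        (θ.comp (cB C)).fieldRange := by
      ext x
      constructor
      · rintro ⟨⟨_, y, rfl⟩, rfl⟩
        exact ⟨y, (hg (θ (cB C y))).symm⟩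
      · rintro ⟨y, rfl⟩
        exact ⟨⟨_, y, rfl⟩, hg (θ (cB C y))⟩
    have := gauss h₁ h₂ W r (g.comp (Subfield.inclusion hJ)) (fun z hz => (a2 ⟨z, hJ hz⟩).1)
      (fun z => (a2 ⟨z, hJ z.2⟩).2) hres (by rw [c1, c2]; exact hLD₀) z hz
    rwa [c1] at this
  have b3 := hz (Q.red e₅ (A.ax.push_id _) ω', Q.red e₄ (A.ax.push_id _) ω)
    ((mem_loc_iff (prod_push e₅ e₄)).2 ⟨Q, Q.red_prod _ _ _⟩)
  obtain ⟨a, b, hb₁, hab⟩ := (RigP_iff j₁ rfl (hb' := hb') (h' := h') e₄).2 (ih _ b2)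
  rw [Rig_map_range] at hb₁
  have hdef : A.Def j₂.fieldRange sb' := def_range _ _ (push_trans e₃ e₅) hκ
  have b4 : Rat j₂.fieldRange (A.map j₁ e₅ (Q.red e₅ (A.ax.push_id _) ω')) := by
    have := b1.map j₁ e₅
    rw [Rig_map_range] at this
    exact this.mono hκ
  refine ⟨a, ω' - A.map j₁ e₅ (Q.red e₅ (A.ax.push_id _) ω') + b, ?_, ?_⟩
  · rw [sub_eq_add_neg]
    exact (hω'.add hdef (b4.neg hdef)).add hdef (hb₁.mono hκ)
  · have b5 : extG e₅ e₄ (extS (A := A.toPG.prod A.toPG) (s := (sb, s)) (j := θ) rfl H₁) ≤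
        extG hb' h' H := by
      rw [extG, extS_extS]
      exact ext_mono _ _ hle
    have := (extG hb' h' H).add_mem (b5 b3) hab
    convert this using 1
    exact Prod.ext rfl (sub_add_sub_cancel _ _ _).symm

theorem SPG.Rig_ind (A : SPG.{u}) {C : Type u} [Field C] [IsAlgClosed C] {sV : A.Str (VB C)}
    {s sb : A.Str (Big C)} {sC : A.Str C} (hs : A.push (VB C).subtype sV = s)
    (hC : A.push (resB C) sV = sC) (hb : A.push (cB C) sC = sb) (ht : A.TorsFin s)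
    (htC : A.TorsFin sC) {H : AddSubgroup ((A.toPG.prod A.toPG).Pt (sb, s))}
    (hmax : ∀ H', Lift (VB C) H' → H' ≤ H) (d : ℕ) :
    ∀ (E : Type u) [Field E] [IsAlgClosed E] (j : Big C →+* E) (κ : Subfield E) [IsAlgClosed κ]
      (sb' s' : A.Str E) (hb' : A.push j sb = sb') (h' : A.push j s = s'),
      (j.comp (cB C)).fieldRange ≤ κ → LD (j.comp (cB C)).fieldRange j.fieldRange κ →
      rk (j.comp (cB C)).fieldRange (κ : Set E) = d →
      ∀ ω : A.Pt s', Rat (j.fieldRange ⊔ κ) ω → RigP H κ hb' h' ω := by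
  induction d with
  | zero =>
    intro E _ _ j κ _ sb' s' hb' h' hκ _ hd ω hω
    have h1 : κ ≤ j.fieldRange := by
      intro z hz
      have h2 := rk_eq_zero.1 hd hz
      rw [acl_eq] at h2
      obtain ⟨c, rfl⟩ := h2
      exact ⟨cB C c, rfl⟩
    obtain ⟨a, rfl⟩ := (rat_range_iff j h').1 (hω.mono (sup_le le_rfl h1))
    refine ⟨a, 0, Rat.zero (def_range _ _ (push_trans hb hb') hκ), ?_⟩
    rw [sub_self]
    exact (extG hb' h' H).zero_mem
  | succ d ih =>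
    intro E _ _ j κ _ sb' s' hb' h' hκ hLD hd ω hω
    obtain ⟨κ', _, hk', hκ', r₁, r₂⟩ := exists_corank hκ hd
    let i : C →+* κ' := (j.comp (cB C)).codRestrict κ' fun c => hk' ⟨c, rfl⟩
    obtain ⟨θ, θ₁, θ₂, θ₃, θ₄⟩ := exists_bigMap i
    have hθ : θ.comp (cB C) = (cB κ').comp i := RingHom.ext fun c => by
      change θ (ιB C (PowerSeries.C c)) = ιB κ' (PowerSeries.C (i c))
      rw [θ₁, PowerSeries.map_C]
    have hθ' : (θ.comp (cB C)).fieldRange ≤ (cB κ').fieldRange := by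
      rw [hθ]
      rintro _ ⟨c, rfl⟩
      exact ⟨i c, rfl⟩
    have hθ'' : (θ.comp (cB C)).fieldRange ≤ θ.fieldRange := by
      rintro _ ⟨c, rfl⟩
      exact ⟨cB C c, rfl⟩
    have hLD₀ : LD (θ.comp (cB C)).fieldRange θ.fieldRange (cB κ').fieldRange := by
      have h1 := ldps (k₀ := i.fieldRange) (K := ⊤) (κ := i.fieldRange) (fun _ _ _ h => h) le_top
        le_rfl
      rw [Rig_map_range, ← θ₄, ← RingHom.fieldRange_eq_map, ← hθ] at h1
      exact h1.symm hθ' hθ''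
    obtain ⟨E', _, _, j₁, j₂, hj, hLD₁⟩ := exists_amalg (cB κ') (Subfield.inclusion hκ')
    have hrk : rk (j₁.comp (cB κ')).fieldRange (j₂.fieldRange : Set E') ≤ 1 := by
      rw [hj, Rig_rk]
      exact r₂
    have hK : (j.comp (cB C)).fieldRange ≤ j.fieldRange := by
      rintro _ ⟨c, rfl⟩
      exact ⟨cB C c, rfl⟩
    let g : j.fieldRange →+* Big C := j.rangeRestrictFieldEquiv.symm.toRingHom
    have hg : ∀ z, g ⟨j z, z, rfl⟩ = z := fun z => j.rangeRestrictFieldEquiv.symm_apply_apply z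
    have c1 : ((j₁.comp θ).comp g).fieldRange = θ.fieldRange.map j₁ := by
      ext x
      constructor
      · rintro ⟨y, rfl⟩
        exact ⟨_, ⟨g y, rfl⟩, rfl⟩
      · rintro ⟨_, ⟨y, rfl⟩, rfl⟩
        exact ⟨⟨_, y, rfl⟩, congrArg (j₁.comp θ) (hg y)⟩
    have c2 : (((j₁.comp θ).comp g).comp (Subfield.inclusion hK)).fieldRange =
        (θ.comp (cB C)).fieldRange.map j₁ := by
      ext x
      constructor
      · rintro ⟨⟨_, y, rfl⟩, rfl⟩
        exact ⟨_, ⟨y, rfl⟩, congrArg (j₁.comp θ) (hg (cB C y)).symm⟩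
      · rintro ⟨_, ⟨y, rfl⟩, rfl⟩
        exact ⟨⟨_, y, rfl⟩, congrArg (j₁.comp θ) (hg (cB C y))⟩
    obtain ⟨Θ, Θ₁, Θ₂⟩ := hLD.emb hK hκ ((j₁.comp θ).comp g) j₂ (by
      rintro _ ⟨c, rfl⟩
      refine (congrArg (j₁.comp θ) (hg (cB C c))).trans ?_
      exact (congrArg j₁ (RingHom.congr_fun hθ c)).trans (RingHom.congr_fun hj (i c))) (by
      rw [c1, c2]
      have h1 := (ld_map_iff j₁).2 hLD₀
      rw [Rig_map_range (cB κ')] at h1
      refine h1.trans hLD₁ ?_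
      rintro _ ⟨z, -, rfl⟩
      exact ⟨z, rfl⟩)
    have hL₁ : j.fieldRange ≤ acl (j.fieldRange ⊔ κ) := le_sup_left.trans (le_acl _)
    have hL₂ : κ ≤ acl (j.fieldRange ⊔ κ) := le_sup_right.trans (le_acl _)
    let jL : Big C →+* acl (j.fieldRange ⊔ κ) := j.codRestrict _ fun z => hL₁ ⟨z, rfl⟩
    have eL : A.push (acl (j.fieldRange ⊔ κ)).subtype (A.push jL s) = s' := by
      rw [A.ax.push_comp]
      exact h'
    obtain ⟨ω, rfl⟩ := (rat_subtype_iff eL).1 (hω.mono (le_acl _))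
    have hΘ : Θ.comp jL = j₁.comp θ := RingHom.ext fun z =>
      (Θ₁ ⟨j z, z, rfl⟩).trans (congrArg (j₁.comp θ) (hg z))
    have d1 : (κ.comap (acl (j.fieldRange ⊔ κ)).subtype).map (acl (j.fieldRange ⊔ κ)).subtype =
        κ := by
      ext x
      constructor
      · rintro ⟨y, hy, rfl⟩
        exact hy
      · exact fun hx => ⟨⟨x, hL₂ hx⟩, hx, rfl⟩
    have d2 : (κ.comap (acl (j.fieldRange ⊔ κ)).subtype).map Θ = j₂.fieldRange := by
      ext x
      constructor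
      · rintro ⟨y, hy, rfl⟩
        exact ⟨⟨y, hy⟩, (Θ₂ ⟨y, hy⟩).symm⟩
      · rintro ⟨y, rfl⟩
        exact ⟨⟨y, hL₂ y.2⟩, y.2, Θ₂ y⟩
    have hω₁ : Rat (jL.fieldRange ⊔ κ.comap (acl (j.fieldRange ⊔ κ)).subtype) ω := by
      rw [← Subfield.comap_map (acl (j.fieldRange ⊔ κ)).subtype (jL.fieldRange ⊔ _),
        ← rat_map_iff _ eL, Subfield.map_sup, d1, Rig_map_range]
      exact hω
    have eΘ : A.push Θ (A.push jL s) = A.push (j₁.comp θ) s := by rw [A.ax.push_comp, hΘ]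
    have f1 := RigP_iff (H := H) (acl (j.fieldRange ⊔ κ)).subtype (j := jL) (j' := j) rfl
      (κ := κ.comap (acl (j.fieldRange ⊔ κ)).subtype) (hb := rfl) (h := rfl) (hb' := hb')
      (h' := h') eL (ω := ω)
    rw [d1] at f1
    rw [f1, ← RigP_iff Θ hΘ (hb' := rfl) (h' := rfl) eΘ, d2]
    refine A.Rig_step hs hC hb ht htC hmax hθ θ₂ θ₃ hLD₀ hj hLD₁ hrk
      (ih _ θ _ _ _ rfl rfl hθ' hLD₀ ?_) rfl rfl ?_
    · rw [hθ, ← Rig_map_range, RingHom.coe_fieldRange, ← Set.image_univ, rk_map, ← r₁,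
        ← rk_map (E := i.fieldRange) κ'.subtype, Rig_map_range, Set.image_univ,
        Subfield.coe_subtype, Subtype.range_coe]
      rfl
    · have := hω₁.map Θ eΘ
      rwa [Subfield.map_sup, d2, Rig_map_range, hΘ] at this

theorem SPG.dl (A : SPG.{u}) {C : Type u} [Field C] [IsAlgClosed C] {sV : A.Str (VB C)}
    {s sb : A.Str (Big C)} {sC : A.Str C} (hs : A.push (VB C).subtype sV = s)
    (hC : A.push (resB C) sV = sC) (hb : A.push (cB C) sC = sb) (ht : A.TorsFin s)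
    (htC : A.TorsFin sC) {H : AddSubgroup ((A.toPG.prod A.toPG).Pt (sb, s))} (hH : Lift (VB C) H)
    (hmax : ∀ H', Lift (VB C) H' → H' ≤ H) : DL (cB C) H := by
  intro E _ _ j κ _ sb' s' hb' h' hκ hLD ω hω
  have hK : (j.comp (cB C)).fieldRange ≤ j.fieldRange := by
    rintro _ ⟨c, rfl⟩
    exact ⟨cB C c, rfl⟩
  choose σ τ hσ hτ hz using fun z : rat ω => mem_sup_finite hK hκ (hω z.2)
  have := (rat_finite ω).to_subtype
  let t : Set E := ⋃ z, (τ z : Set E)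
  have ht₁ : t.Finite := Set.finite_iUnion fun z => (τ z).finite_toSet
  have h₀ : (j.comp (cB C)).fieldRange ≤ acl (adj (j.comp (cB C)).fieldRange t) :=
    (le_adj _ _).trans (le_acl _)
  have h₁ : acl (adj (j.comp (cB C)).fieldRange t) ≤ κ := by
    rw [← acl_eq (E := κ)]
    exact acl_mono (adj_le.2 ⟨hκ, Set.iUnion_subset hτ⟩)
  obtain ⟨d, hd⟩ := ENat.ne_top_iff_exists.1 (rk_ne_top (E := (j.comp (cB C)).fieldRange) ht₁)
  obtain ⟨a, b, hb₁, hab⟩ := A.Rig_ind hs hC hb ht htC hmax d E j _ sb' s' hb' h' h₀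
    (hLD.mono le_rfl h₁) (rk_acl_adj.trans hd.symm) ω fun z hz' =>
      sup_le_sup (adj_le.2 ⟨hK, hσ ⟨z, hz'⟩⟩)
        ((LD2_adj_mono le_rfl (Set.subset_iUnion (fun z => (τ z : Set E)) ⟨z, hz'⟩)).trans
          (le_acl _)) (hz ⟨z, hz'⟩)
  exact ⟨a, b, hb₁.mono h₁, hab⟩

end MLF
end

-- merged part: Pool.Agent.Work.MP_29d410_ag.Tor3
section
/-!
# Finiteness of torsion; the trace package

Plan.  `finite_torsion_of_ne`: let `G₀` be the identity component of the `n`-torsion, `ξ` a generic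
point, `P` a place with `ξ ↦ 0` (`place_ex`); `eq_zero_of_val` gives `ξ = 0`.
`torsFin_big`: `finite_of_red`.  `eq_zero_of_congW`: write `n = p ^ a * m`; the points congruent
to zero form a subgroup.  `exists_trace`: `exists_max_lift`, `Lift.qh`, `Lift.qh_swap` (a torsion
point for `sb` comes from `C`, `TorsFin.rat`, and is its own reduction), `rig`, `dl`.
-/

namespace MLF

universe u

open PG

namespace SPG

variable (A : SPG.{u})

theorem Tor3_val {k : Type u} [Field k] {W : ValuationSubring k} {sW : A.Str W} {s : A.Str k}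
    (h : A.push W.subtype sW = s) {x : A.Pt s} (hx : CongW W (0 : A.Pt s) x) {n : ℕ}
    (hn : IsUnit (n : W)) (h0 : n • x = 0) : x = 0 := by
  obtain ⟨a, rfl⟩ := (map_val_bij W h).2 x
  rw [← map_zero (A.toPG.map W.subtype h), PB2_cong] at hx
  rw [← map_nsmul, ← map_zero (A.toPG.map W.subtype h)] at h0
  rw [eq_zero_of_val hx.symm hn ((map_val_bij W h).1 h0), map_zero]

theorem Tor3_mul {G : Type u} [AddCommGroup G] {a b : ℕ} (ha : {x : G | a • x = 0}.Finite)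
    (hb : {x : G | b • x = 0}.Finite) : {x : G | (a * b) • x = 0}.Finite := by
  refine Set.Finite.of_finite_fibers (b • ·) (ha.subset ?_) ?_
  · rintro _ ⟨x, hx, rfl⟩
    exact (mul_smul a b x).symm.trans hx
  · rintro _ ⟨x, -, rfl⟩
    refine (hb.image (· + x)).subset fun y hy => ⟨y - x, ?_, sub_add_cancel y x⟩
    rw [Set.mem_ofPred_eq, smul_sub, sub_eq_zero]
    exact hy.2

theorem finite_torsion_of_ne {k : Type u} [Field k] [IsAlgClosed k] (s : A.Str k) {n : ℕ}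
    (hn : (n : k) ≠ 0) : {x : A.Pt s | n • x = 0}.Finite := by
  obtain ⟨G₀, hG⟩ := exists_idc (s := s) (G := (nsmulAddMonoidHom (α := A.Pt s) n).ker)
    ((cl_singleton 0).nsmul_pre n)
  obtain ⟨T, _, _, j, y, hy, hy'⟩ := hG.var.exists_gen
  have h0 : n • y = 0 := by
    have h1 : y ∈ ext j _ ((n • ·) ⁻¹' ({0} : Set (A.Pt s))) := ext_mono j _ hG.le hy'
    rwa [ext_nsmul_pre rfl (cl_singleton 0), ext_finite rfl (Set.finite_singleton _),
      Set.image_singleton, map_zero] at h1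
  obtain ⟨P, hP, hP0⟩ := place_ex rfl (A.ax.push_id s) (y := y) (y' := 0)
    (subset_cl _ (hy ▸ G₀.zero_mem))
  have hc : CongW P.W (0 : A.Pt (A.push j s)) y :=
    (congW_iff hP0 ((P.red_eq_iff rfl (A.ax.push_id s)).1 (map_zero _))).2
      ((P.red_eq_iff _ _).1 hP)
  have hu : IsUnit (n : P.W) := map_natCast P.jW n ▸ hn.isUnit.map _
  refine hG.finite ?_
  rw [← hy, Tor3_val A (P.push₁ rfl) hc hu h0, ← map_zero (A.toPG.map j rfl), loc_map_self]
  exact Set.finite_singleton _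

theorem torsFin_alg (p : ℕ) [Fact p.Prime] {C : Type u} [Field C] [IsAlgClosed C] [CharP C p]
    (halg : ∀ z : C, ∃ n, 0 < n ∧ z ^ p ^ n = z) (s : A.Str C) : A.TorsFin s := by
  intro n hn
  obtain ⟨e, m, hm, rfl⟩ := Nat.exists_eq_pow_mul_and_not_dvd hn p (Fact.out : p.Prime).ne_one
  clear hn
  induction e with
  | zero =>
    rw [pow_zero, one_mul]
    exact finite_torsion_of_ne A s ((CharP.cast_eq_zero_iff C p m).not.2 hm)
  | succ e ih =>
    rw [pow_succ', mul_assoc]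
    exact Tor3_mul (A.toPG.finite_p_torsion p halg s) ih

variable {C : Type u} [Field C] [IsAlgClosed C] {sV : A.Str (VB C)} {s sb : A.Str (Big C)}
  {sC : A.Str C}

theorem torsFin_big (hs : A.push (VB C).subtype sV = s) (hC : A.push (resB C) sV = sC)
    (h : A.TorsFin sC) : A.TorsFin s := by
  intro n hn
  refine finite_of_red (resB C) ?_ ((cl_singleton 0).nsmul_pre n) (h n hn) fun x hx =>
    ⟨redW (VB C) (resB C) hs hC x, ?_, (redW_eq_iff _ _ hs hC).1 rfl⟩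
  · rw [Set.range_eq_univ.2 fun a => ⟨_, resB_cV C a⟩]
    exact Set.infinite_univ
  · rw [Set.mem_ofPred_eq, ← map_nsmul, show n • x = 0 from hx, map_zero]

theorem eq_zero_of_congW (p : ℕ) [Fact p.Prime] [CharP C p] (hs : A.push (VB C).subtype sV = s)
    (hp : ∀ x : A.Pt s, p • x = 0 → CongW (VB C) (0 : A.Pt s) x → x = 0) {n : ℕ} {x : A.Pt s}
    (hn : n ≠ 0) (hx : n • x = 0) (h : CongW (VB C) (0 : A.Pt s) x) : x = 0 := by
  obtain ⟨e, m, hm, rfl⟩ := Nat.exists_eq_pow_mul_and_not_dvd hn p (Fact.out : p.Prime).ne_one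
  have hns : ∀ l : ℕ, CongW (VB C) (0 : A.Pt s) (l • x) := by
    intro l
    induction l with
    | zero => exact (zero_smul ℕ x).symm ▸ CongW.refl _ _
    | succ l ih => simpa only [succ_nsmul, add_zero] using ih.add ⟨sV, sV, hs, hs, rfl⟩ h
  have hu : IsUnit (m : VB C) :=
    map_natCast (cV C) m ▸ (Ne.isUnit ((CharP.cast_eq_zero_iff C p m).not.2 hm)).map _
  clear hn
  induction e with
  | zero => exact Tor3_val A hs h hu (by rwa [pow_zero, one_mul] at hx)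
  | succ e ih =>
    rw [pow_succ', mul_assoc, mul_smul] at hx
    exact ih (hp _ hx (hns _))

theorem exists_trace (p : ℕ) [Fact p.Prime] [CharP C p] (hs : A.push (VB C).subtype sV = s)
    (hC : A.push (resB C) sV = sC) (hb : A.push (cB C) sC = sb) (htC : A.TorsFin sC)
    (hp : ∀ x : A.Pt s, p • x = 0 → CongW (VB C) (0 : A.Pt s) x → x = 0) :
    ∃ (H : AddSubgroup ((A.toPG.prod A.toPG).Pt (sb, s))) (A₀ : AddSubgroup (A.Pt sC)),
      QH H ∧ QH (swap H) ∧ Var (A₀ : Set (A.Pt sC)) ∧ dom H = extS hb A₀ ∧ DL (cB C) H := by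
  have hS := strW_big hs hC hb
  obtain ⟨H, hH, hmax⟩ := exists_max_lift hS
  obtain ⟨A₀, hA, e⟩ := A.rig htC hb (var_dom hH.var)
  refine ⟨H, A₀, hH.qh fun n x hn hx h =>
    eq_zero_of_congW A p hs hp hn hx ((congW_zero hS).symm.trans h),
    hH.qh_swap fun n x hn hx h => ?_, hA, e.symm,
    A.dl hs hC hb (torsFin_big A hs hC htC) htC hH hmax⟩
  obtain ⟨z, -, rfl⟩ := htC.Geo5_range hb hn (x := 0) (hx.trans (map_zero _).symm)
  have h4 := ((plB C).red_eq_iff hb (A.ax.push_id sC)).2 ((congW_iff (fun _ => resB_eq_zero C)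
    (((plB C).red_eq_iff hb (A.ax.push_id sC)).1 ((plB C).red_map _ _ z))).1
      (h.trans (congW_zero hS).symm))
  rw [map_zero, map_id' (fun _ => rfl)] at h4
  rw [← h4, map_zero]

end SPG

end MLF
end

-- merged part: Pool.Agent.Work.MP_29d410_ag.Spread1
section
/-!
# Reduction to the field `Big C`

Plan.  `exists_sub`: `K₁ = acl (adj c.fieldRange F)`, `exists_emb`.  `exists_strV`: the subring
`((VB C).comap φ).map i` of `K` contains the finite set of `ax.fg`.  `torsFin_all`: `C = acl ⊥`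
(`acl_bot_alg`, `countable_of_alg`), `torsFin_alg`, `torsFin_big`, `TorsFin.of_ext`, `TorsFin.ext`.
`exists_not_congW`: `F` consists of normalised coordinates of `x`, `y` and the inverse of a nonzero minor.
-/

open Pointwise

namespace MLF

universe u

open PG

variable {C K : Type u} [Field C] [IsAlgClosed C] [Field K] [IsAlgClosed K]

theorem exists_sub [Countable C] (c : C →+* K) (F : Finset K) :
    ∃ (K₁ : Type u) (_ : Field K₁) (_ : IsAlgClosed K₁) (c₁ : C →+* K₁) (i : K₁ →+* K)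
      (φ : K₁ →+* Big C), i.comp c₁ = c ∧ φ.comp c₁ = cB C ∧
      ∀ z ∈ F, ∃ z₁, i z₁ = z ∧ φ z₁ ∈ VB C := by
  classical
  have hc : ∀ a, c a ∈ acl (adj c.fieldRange (F : Set K)) := fun a =>
    le_acl _ (le_adj _ _ ⟨a, rfl⟩)
  have hF : ∀ z ∈ F, z ∈ acl (adj c.fieldRange (F : Set K)) := fun z hz =>
    le_acl _ (subset_adj _ _ hz)
  have e : (acl (adj c.fieldRange (F : Set K))).subtype.comp (c.codRestrict _ hc) = c := rfl
  obtain ⟨φ, h1, h2⟩ := exists_emb (K := acl (adj c.fieldRange (F : Set K))) (c.codRestrict _ hc)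
    (F.subtype (· ∈ acl (adj c.fieldRange (F : Set K)))) (eq_top_iff.2 fun z _ => by
      refine (mem_acl_map (acl (adj c.fieldRange (F : Set K))).subtype).1 ?_
      rw [map_adj, RingHom.map_fieldRange, e]
      refine acl_mono (adj_le.2 ⟨le_adj _ _, fun a ha => subset_adj _ _ ?_⟩) z.2
      exact ⟨⟨a, hF a ha⟩, Finset.mem_coe.2 (Finset.mem_subtype.2 ha), rfl⟩)
  exact ⟨acl (adj c.fieldRange (F : Set K)), inferInstance, inferInstance, _, _, φ, e, h1,
    fun z hz => ⟨⟨z, hF z hz⟩, rfl, h2 _ (Finset.mem_subtype.2 hz)⟩⟩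

theorem PG.exists_strV {G : PG.{u}} {K : Type u} [Field K] (s : G.Str K) : ∃ F : Finset K,
    ∀ (K₁ E : Type u) [Field K₁] [Field E] (i : K₁ →+* K) (φ : K₁ →+* E) (W : ValuationSubring E),
      (∀ z ∈ F, ∃ z₁, i z₁ = z ∧ φ z₁ ∈ W) → ∃ (s₁ : G.Str K₁) (sV : G.Str W),
        G.push i s₁ = s ∧ G.push W.subtype sV = G.push φ s₁ := by
  obtain ⟨F, hF⟩ := G.ax.fg s
  refine ⟨F, fun K₁ E _ _ i φ W h => ?_⟩
  obtain ⟨s', hs'⟩ := hF ((W.toSubring.comap φ).map i) fun z hz => by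
    obtain ⟨z₁, h1, h2⟩ := h z hz
    exact ⟨z₁, h2, h1⟩
  let e := (W.toSubring.comap φ).equivMapOfInjective i i.injective
  let ψ : W.toSubring.comap φ →+* W :=
    (φ.comp (W.toSubring.comap φ).subtype).codRestrict W.toSubring fun z => z.2
  refine ⟨G.push (W.toSubring.comap φ).subtype (G.push e.symm.toRingHom s'),
    G.push ψ (G.push e.symm.toRingHom s'), ?_, ?_⟩
  · rw [G.ax.push_comp, G.ax.push_comp, ← hs']
    congr 1
    ext z
    exact congrArg Subtype.val (e.apply_symm_apply z)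
  · rw [G.ax.push_comp ψ, G.ax.push_comp (W.toSubring.comap φ).subtype]
    rfl

theorem SPG.torsFin_all (G : SPG.{u}) (p : ℕ) [Fact p.Prime] [CharP K p] (s : G.Str K) :
    G.TorsFin s := by
  have := countable_of_alg p (acl_bot_alg p (K := K))
  obtain ⟨F, hF⟩ := PG.exists_strV s
  obtain ⟨K₁, _, _, c₁, i, φ, -, -, h⟩ := exists_sub (acl (⊥ : Subfield K)).subtype F
  obtain ⟨s₁, sV, h1, h2⟩ := hF K₁ _ i φ (VB _) h
  exact (TorsFin.of_ext rfl (G.torsFin_big h2 rfl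
    (G.torsFin_alg p (acl_bot_alg p (K := K)) _))).ext h1

theorem PG.exists_not_congW {G : PG.{u}} {K : Type u} [Field K] {s : G.Str K} {x y : G.Pt s}
    (h : x ≠ y) : ∃ F : Finset K, ∀ (K₁ : Type u) [Field K₁] (i : K₁ →+* K) (s₁ : G.Str K₁)
      (e : G.push i s₁ = s) (W : ValuationSubring K₁), (∀ z ∈ F, ∃ z₁, i z₁ = z ∧ z₁ ∈ W) →
      ∀ x₁ y₁, G.map i e x₁ = x → G.map i e y₁ = y → ¬ CongW W x₁ y₁ := by
  classical
  obtain ⟨v, a₀, hv, hv1⟩ := exists_rep_one x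
  obtain ⟨w, b₀, hw, hw1⟩ := exists_rep_one y
  obtain ⟨a, b, hab⟩ : ∃ a b, v a * w b - v b * w a ≠ 0 := by
    by_contra h0
    push Not at h0
    have h1 : ∀ b, w b = w a₀ * v b := fun b => by
      have := h0 a₀ b
      rw [hv1] at this
      linear_combination this
    have h2 : IsUnit (w a₀) := IsUnit.of_mul_eq_one (v b₀) ((h1 b₀).symm.trans hw1)
    have h3 := G.ax.rep_smul hv h2
    rw [show w a₀ • v = w from funext fun b => (h1 b).symm] at h3
    exact h (G.ax.rep_inj h3 hw)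
  refine ⟨insert (v a * w b - v b * w a)⁻¹ (Finset.univ.image v ∪ Finset.univ.image w),
    fun K₁ _ i s₁ e W hF x₁ y₁ hx hy ⟨v', w', r1, r2, ⟨a₁, u⟩, hc⟩ => ?_⟩
  obtain ⟨n, hn, hnW⟩ := hF _ (Finset.mem_insert_self _ _)
  choose v₁ hv₁ hvW using fun j => hF (v j) (Finset.mem_insert_of_mem
    (Finset.mem_union_left _ (Finset.mem_image_of_mem v (Finset.mem_univ j))))
  choose w₁ hw₁ hwW using fun j => hF (w j) (Finset.mem_insert_of_mem
    (Finset.mem_union_right _ (Finset.mem_image_of_mem w (Finset.mem_univ j))))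
  have key : ∀ {z : G.Pt s} {z₁ : G.Pt s₁} {t : G.σ → K} {j₀ : G.σ} {t₁ : G.σ → K₁}
      {t' : G.σ → W} (htW : ∀ j, t₁ j ∈ W), G.map i e z₁ = z → G.Rep z t → t j₀ = 1 →
      (∀ j, i (t₁ j) = t j) → G.Rep z₁ (fun j => (t' j : K₁)) →
      ∀ j, t' j = t' j₀ * ⟨t₁ j, htW j⟩ := by
    intro z z₁ t j₀ t₁ t' htW hz ht ht1 ht₁ r j
    obtain ⟨c, -, hc⟩ := G.ax.rep_uniq ht (hz ▸ rep_map i e r)
    have h1 : ∀ j, i (t' j) = c * t j := fun j => congrFun hc j
    refine Subtype.ext (i.injective ?_)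
    change i (t' j) = i (t' j₀ * t₁ j)
    rw [map_mul, h1, h1, ht1, mul_one, ht₁]
  have e1 := key hvW hx hv hv1 hv₁ r1
  have e2 := key hwW hy hw hw1 hw₁ r2
  have e3 : ∀ j, IsLocalRing.residue W (v' j) = IsLocalRing.residue W (w' j) := fun j => by
    rw [← sub_eq_zero, ← map_sub, IsLocalRing.residue_eq_zero_iff,
      ValuationSubring.valuation_lt_one_iff]
    exact hc j
  have e4 : ((⟨v₁ a, hvW a⟩ : W) * ⟨w₁ b, hwW b⟩ - ⟨v₁ b, hvW b⟩ * ⟨w₁ a, hwW a⟩) *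
      ⟨n, hnW⟩ = 1 := by
    refine Subtype.ext (i.injective ?_)
    change i ((v₁ a * w₁ b - v₁ b * w₁ a) * n) = i 1
    rw [map_mul, map_sub, map_mul, map_mul, hv₁, hv₁, hw₁, hw₁, hn, map_one, mul_inv_cancel₀ hab]
  have n1 : IsLocalRing.residue W (v' a₁) ≠ 0 := (u.map _).ne_zero
  have n2 : IsLocalRing.residue W (v' a₀) ≠ 0 := fun h0 => n1 (by
    rw [e1 a₁, map_mul, h0, zero_mul])
  have n3 : IsLocalRing.residue W (w' b₀) ≠ 0 := fun h0 => n1 (by
    rw [e3, e2 a₁, map_mul, h0, zero_mul])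
  have e5 : v' a₀ * w' b₀ = (v' a * w' b - v' b * w' a) * ⟨n, hnW⟩ := by
    rw [e1 a, e1 b, e2 a, e2 b]
    linear_combination (-(v' a₀ * w' b₀)) * e4
  have e6 := congrArg (IsLocalRing.residue W) e5
  rw [map_mul, map_mul, map_sub, map_mul, map_mul, e3 a, e3 b,
    mul_comm _ (IsLocalRing.residue W (w' a)), sub_self, zero_mul] at e6
  exact mul_ne_zero n2 n3 e6

end MLF
end
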