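import Pool.Agent.Work.MP_29d410_ag.Con2
import Pool.Agent.Work.MP_29d410_ag.Geo5
import Pool.Agent.Work.MP_29d410_ag.Geo6
import Pool.Agent.Work.MP_29d410_ag.Tor3

-- merged part: Pool.Agent.Work.MP_29d410_ag.Chow2
section
/-!
# The Chow map of a finite subgroup

Plan.  `eq_iff`: `cc_perm`, `cc_uniq`.  `loc`: for each `γ` fix a vector `g γ` of `γ` and `j γ` with
`Φ (j γ) (x, γ)` unimodular; `w = cc (fun γ => Φ (j γ) (X, g γ)) ∘ ε` (`exists_ccForm`, `cc_map`, `cc_eq_zero`).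
`closed`: let `ξ` over `T` be generic in `X`, `U` the Chow vector of the points `ξ + γ`.  For a place `P` of `T`
take unimodular vectors over `P.W` of the points `ξ + γ` (`PB2_lift`); their Chow vector reduces
to a vector of `φ (red ξ)`.  So a form vanishes on `φ '' X` iff it vanishes at `U` (if it does not vanish at
`U`, find a place where it stays nonzero: `exists_point`, `exists_place`; or use the local formulas), and a
point of the closure (`PP.closed_iff`) is a specialisation of `U` along a place (`Geo2A_place`), so is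
`φ (red ξ)`.  Irreducibility: the forms vanishing at `U` have the prime property.
-/

open MvPolynomial

namespace MLF

universe u

theorem Chow2_sub {R : Type u} [CommRing R] {σ τ : Type} {g : MvPolynomial (σ ⊕ τ) R} {d : ℕ × ℕ}
    (h : Bihom g d) (w : τ → R) :
    (eval₂ C (Sum.elim X fun b => C (w b)) g : MvPolynomial σ R).IsHomogeneous d.1 := by
  apply IsHomogeneous.sum
  intro m hm
  rw [← zero_add d.1]
  apply IsHomogeneous.mul (isHomogeneous_C _ _) _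
  have e : d.1 = ∑ i ∈ m.support,
      (Sum.elim (fun _ => ((1, 0) : ℕ × ℕ)) (fun _ => (0, 1)) i).1 * m i := by
    rw [Finsupp.mem_support_iff] at hm
    rw [← h hm, Finsupp.weight_apply, Finsupp.sum, Prod.fst_sum]
    exact Finset.sum_congr rfl fun i _ => by rw [Prod.smul_fst, smul_eq_mul, mul_comm]
  rw [e]
  refine IsHomogeneous.prod _ _ _ fun i _ => IsHomogeneous.pow ?_ _
  cases i with
  | inl a => exact isHomogeneous_X _ _
  | inr b => exact isHomogeneous_C _ _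

theorem Chow2_sub_eval {R : Type u} [CommRing R] {σ τ : Type} (g : MvPolynomial (σ ⊕ τ) R)
    (w : τ → R) (v : σ → R) :
    eval v (eval₂ C (Sum.elim X fun b => C (w b)) g) = eval (Sum.elim v w) g := by
  induction g using MvPolynomial.induction_on with
  | C a => simp
  | add p q hp hq => rw [eval₂_add, map_add, map_add, hp, hq]
  | mul_X p i hp =>
    rw [eval₂_mul, map_mul, map_mul, hp, eval₂_X, eval_X]
    cases i <;> simp

theorem Chow2_hom {R S : Type u} [CommRing R] [CommRing S] {σ : Type} (j : R →+* S)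
    {g : MvPolynomial σ R} {d : ℕ} (h : g.IsHomogeneous d) (c : S) (v : σ → S) :
    eval₂ j (c • v) g = c ^ d * eval₂ j v g := by
  rw [← eval_map, ← eval_map, Prod_hom (h.map j)]

theorem Chow2_crs {K : Type u} [Field K] {σ : Type} {v w : σ → K} (h : Crs v w) (hv : v ≠ 0) :
    ∃ c : K, w = c • v := by
  obtain ⟨a, ha⟩ := Function.ne_iff.1 hv
  refine ⟨w a / v a, funext fun b => ?_⟩
  have ha' : v a ≠ 0 := ha
  rw [Pi.smul_apply, smul_eq_mul, div_mul_eq_mul_div, eq_div_iff ha', mul_comm (w a), ← h a b,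
    mul_comm]

theorem Chow2_is {K : Type u} [Field K] {n : ℕ} {x : PP K n} {v w : Fin (n + 1) → K}
    (h : x.Is v) (hc : Crs v w) (hw : w ≠ 0) : x.Is w := by
  obtain ⟨c, rfl⟩ := Chow2_crs hc h.1
  exact h.smul fun h0 => hw (by rw [h0, zero_smul])

theorem Chow2_eval {K : Type u} [Field K] {n : ℕ} {x : PP K n} {v : Fin (n + 1) → K}
    (h : x.Is v) {g : MvPolynomial (Fin (n + 1)) K} {d : ℕ} (hg : g.IsHomogeneous d) :
    eval x.crd g = 0 ↔ eval v g = 0 := by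
  obtain ⟨c, hc, e⟩ := h.exists_smul x.is_crd
  rw [e, Prod_hom hg, mul_eq_zero, or_iff_right (pow_ne_zero _ hc)]

theorem Chow2_uni {K : Type u} [Field K] {σ : Type} {v : σ → K} : Uni v ↔ v ≠ 0 := by
  rw [Function.ne_iff]
  exact exists_congr fun _ => isUnit_iff_ne_zero

theorem Chow2_comp_ne {K α β : Type*} [Zero K] (e : α ≃ β) {v : β → K} : v ∘ e ≠ 0 ↔ v ≠ 0 := by
  rw [Function.ne_iff, Function.ne_iff]
  exact e.exists_congr fun _ => Iff.rfl

namespace PG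

variable {G : PG.{u}} {k : Type u} [Field k] [IsAlgClosed k] {s : G.Str k} {n : ℕ}

/-- `φ x` is the Chow point of the coset of `x`. -/
def IsChow (Γ : AddSubgroup (G.Pt s)) [Fintype Γ] (ε : Fin (n + 1) ≃ Mon G.σ Γ)
    (φ : G.Pt s → PP k n) : Prop :=
  ∀ (x : G.Pt s) (v : Γ → G.σ → k), (∀ γ : Γ, G.Rep (x + γ.1) (v γ)) → (φ x).Is (cc v ∘ ε)

variable {Γ : AddSubgroup (G.Pt s)} [Fintype Γ] {ε : Fin (n + 1) ≃ Mon G.σ Γ}
  {φ : G.Pt s → PP k n}

theorem Chow2_ne {K : Type u} [Field K] {t : G.Str K} {x : G.Pt t} {v : G.σ → K}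
    (h : G.Rep x v) : v ≠ 0 := Chow2_uni.1 (G.ax.rep_uni h)

theorem Chow2_cc_ne {K : Type u} [Field K] {t : G.Str K} {I : Type u} [Fintype I]
    {x : I → G.Pt t} {v : I → G.σ → K} (h : ∀ i, G.Rep (x i) (v i)) : cc v ≠ 0 := fun h0 => by
  obtain ⟨i, hi⟩ := cc_eq_zero.1 h0
  exact Chow2_ne (h i) hi

theorem Chow2_cc_smul {K : Type u} [Field K] {t : G.Str K} {I : Type u} [Fintype I]
    {x : I → G.Pt t} {v w : I → G.σ → K} (h : ∀ i, G.Rep (x i) (v i))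
    (h' : ∀ i, G.Rep (x i) (w i)) : ∃ c : K, c ≠ 0 ∧ cc w = c • cc v := by
  choose c hc e using fun i => G.ax.rep_uniq (h i) (h' i)
  refine ⟨∏ i, c i, Finset.prod_ne_zero_iff.2 fun i _ => (hc i).ne_zero, ?_⟩
  rw [← cc_smul]
  exact congrArg cc (funext e)

theorem exists_isChow (Γ : AddSubgroup (G.Pt s)) [Fintype Γ] :
    ∃ (n : ℕ) (ε : Fin (n + 1) ≃ Mon G.σ Γ) (φ : G.Pt s → PP k n), IsChow Γ ε φ := by
  choose v hv using fun (x : G.Pt s) (γ : Γ) => G.ax.exists_rep (x + γ.1)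
  have hne : Nonempty (Mon G.σ Γ) := by
    obtain ⟨m, -⟩ := Function.ne_iff.1 (Chow2_cc_ne (hv 0))
    exact ⟨m⟩
  obtain ⟨n, hn⟩ : ∃ n, Nat.card (Mon G.σ Γ) = n + 1 :=
    Nat.exists_eq_succ_of_ne_zero Nat.card_pos.ne'
  let ε : Fin (n + 1) ≃ Mon G.σ Γ := (Finite.equivFinOfCardEq hn).symm
  choose φ hφ using fun x => PP.exists_is ((Chow2_comp_ne ε).2 (Chow2_cc_ne (hv x)))
  refine ⟨n, ε, φ, fun x w hw => ?_⟩
  obtain ⟨c, hc, e⟩ := Chow2_cc_smul (hv x) hw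
  rw [e]
  exact (hφ x).smul hc

theorem IsChow.eq_iff (h : IsChow Γ ε φ) {x y : G.Pt s} : φ x = φ y ↔ x - y ∈ Γ := by
  choose v hv using fun (x : G.Pt s) (γ : Γ) => G.ax.exists_rep (x + γ.1)
  constructor
  · intro e
    obtain ⟨c, -, hc⟩ := (h x _ (hv x)).exists_smul (e ▸ h y _ (hv y))
    have h1 : Crs (cc (v x)) (cc (v y)) := by
      intro a b
      obtain ⟨a, rfl⟩ := ε.surjective a
      obtain ⟨b, rfl⟩ := ε.surjective b
      have ha : cc (v y) (ε a) = c * cc (v x) (ε a) := congrFun hc a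
      have hb : cc (v y) (ε b) = c * cc (v x) (ε b) := congrFun hc b
      rw [ha, hb]; ring
    obtain ⟨γ, hγ⟩ := cc_uniq (fun i => Chow2_ne (hv x i)) (fun i => Chow2_ne (hv y i)) h1 0
    obtain ⟨c', hc'⟩ := Chow2_crs hγ (Chow2_ne (hv x 0))
    have h2 := PB_eq_of_prop (hv x 0) (hv y γ) (c := c') fun a => congrFun hc' a
    rw [ZeroMemClass.coe_zero, add_zero] at h2
    rw [h2, add_sub_cancel_left]
    exact γ.2
  · intro e
    have h1 := h x (fun γ => v y (Equiv.addLeft (⟨x - y, e⟩ : Γ) γ)) fun γ => by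
      have := hv y (Equiv.addLeft (⟨x - y, e⟩ : Γ) γ)
      rwa [Equiv.coe_addLeft, AddSubgroup.coe_add, ← add_assoc, add_sub_cancel] at this
    rw [cc_perm] at h1
    exact h1.eq (h y _ (hv y))

theorem IsChow.loc (h : IsChow Γ ε φ) (x : G.Pt s) :
    ∃ (w : Fin (n + 1) → MvPolynomial G.σ k) (d : ℕ), (∀ i, (w i).IsHomogeneous d) ∧
      (∀ v, G.Rep x v → (fun i => eval v (w i)) ≠ 0) ∧
      ∀ y v, G.Rep y v → (fun i => eval v (w i)) ≠ 0 → (φ y).Is fun i => eval v (w i) := by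
  obtain ⟨v₀, hv₀⟩ := G.ax.exists_rep x
  choose g hg using fun γ : Γ => G.ax.exists_rep γ.1
  choose j hj using fun γ : Γ => G.ax.Φ_cover hv₀ (hg γ)
  choose d hd using fun γ : Γ => G.ax.Φ_hom (j γ)
  obtain ⟨W, hW₁, hW₂⟩ : ∃ W : Γ → G.σ → MvPolynomial G.σ k,
      (∀ γ a, (W γ a).IsHomogeneous (d γ).1) ∧
      ∀ γ a v, eval v (W γ a) = eval (Sum.elim v (g γ)) (G.Φ s (j γ) a) :=
    ⟨fun γ a => eval₂ C (Sum.elim X fun b => C (g γ b)) (G.Φ s (j γ) a),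
      fun γ a => Chow2_sub (hd γ s a) (g γ), fun γ a v => Chow2_sub_eval (G.Φ s (j γ) a) (g γ) v⟩
  have hW : ∀ i, (cc W (ε i)).IsHomogeneous (∑ γ, (d γ).1) := fun i =>
    exists_ccForm W (fun γ => (d γ).1) hW₁ _
  have e : ∀ v : G.σ → k, (fun i => eval v (cc W (ε i))) =
      cc (fun γ a => eval (Sum.elim v (g γ)) (G.Φ s (j γ) a)) ∘ ε := by
    intro v
    have h1 := cc_map (eval v) W
    have h2 : (fun γ => eval v ∘ W γ) = fun γ a => eval (Sum.elim v (g γ)) (G.Φ s (j γ) a) :=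
      _root_.funext fun γ => _root_.funext fun a => hW₂ γ a v
    rw [← h2, h1]
    rfl
  refine ⟨fun i => cc W (ε i), _, hW, fun v hv h0 => ?_, fun y v hv h0 => ?_⟩
  · obtain ⟨c, hc, rfl⟩ := G.ax.rep_uniq hv₀ hv
    refine (Chow2_comp_ne ε).2 (Chow2_cc_ne fun γ => G.ax.Φ_rep (j γ) hv₀ (hg γ) (hj γ)) ?_
    rw [← e]
    funext i
    have h1 : eval (c • v₀) (cc W (ε i)) = 0 := congrFun h0 i
    rwa [Prod_hom (hW i), mul_eq_zero, or_iff_right (pow_ne_zero _ hc.ne_zero)] at h1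
  · rw [e] at h0 ⊢
    refine h y _ fun γ => G.ax.Φ_rep (j γ) hv (hg γ) (Chow2_uni.2 fun h1 => ?_)
    exact (Chow2_comp_ne ε).1 h0 (cc_eq_zero.2 ⟨γ, h1⟩)

section place

variable {T : Type u} [Field T] {j : k →+* T} {ξ : G.Pt (G.push j s)} {u : Γ → G.σ → T}

theorem IsChow.Chow2_ex (h : IsChow Γ ε φ) (hu : ∀ γ : Γ, G.Rep (ξ + G.map j rfl γ.1) (u γ))
    (P : Place j (RingHom.id k)) : ∃ (V : Fin (n + 1) → P.W) (c : T),
      (fun i => (V i : T)) = c • (cc u ∘ ε) ∧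
      (φ (P.red rfl (G.ax.push_id s) ξ)).Is (P.r ∘ V) := by
  choose u' hu' hun using fun γ : Γ => PB2_lift P.W (ξ + G.map j rfl γ.1)
  obtain ⟨c, -, hc⟩ := Chow2_cc_smul hu hu'
  refine ⟨cc u' ∘ ε, c, ?_, ?_⟩
  · have h1 := cc_map P.W.subtype u'
    funext i
    exact (congrFun h1 (ε i)).symm.trans (congrFun hc (ε i))
  · have h1 := h (P.red rfl (G.ax.push_id s) ξ) (fun γ => P.r ∘ u' γ) fun γ => by
      refine PB2_red_rep ((P.red_eq_iff rfl (G.ax.push_id s)).1 ?_) (hu' γ) (hun γ)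
      rw [map_add, P.red_map, map_id' fun _ => rfl]
    rw [cc_map] at h1
    exact h1

theorem IsChow.Chow2_place (h : IsChow Γ ε φ) (hu : ∀ γ : Γ, G.Rep (ξ + G.map j rfl γ.1) (u γ))
    (P : Place j (RingHom.id k)) (U : Fin (n + 1) → P.W) (e : T)
    (hU : ∀ i, (U i : T) = e * cc u (ε i)) (h0 : P.r ∘ U ≠ 0) :
    (φ (P.red rfl (G.ax.push_id s) ξ)).Is (P.r ∘ U) := by
  obtain ⟨V, c, hV, h1⟩ := h.Chow2_ex hu P
  refine Chow2_is h1 (fun a b => ?_) h0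
  have ha : (V a : T) = c * cc u (ε a) := congrFun hV a
  have hb : (V b : T) = c * cc u (ε b) := congrFun hV b
  have h2 : V a * U b = V b * U a := Subtype.ext (by
    rw [MulMemClass.coe_mul, MulMemClass.coe_mul, ha, hb, hU, hU]; ring)
  simp only [Function.comp_apply, ← map_mul, h2]

theorem Chow2_red {σ : Type} (P : Place j (RingHom.id k)) (V : σ → P.W) (g : MvPolynomial σ k) :
    ((eval₂ P.jW V g : P.W) : T) = eval₂ j (fun i => (V i : T)) g ∧
      P.r (eval₂ P.jW V g) = eval (P.r ∘ V) g := by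
  refine ⟨eval₂_comp_left P.W.subtype P.jW V g, ?_⟩
  rw [eval₂_comp_left, show P.r.comp P.jW = RingHom.id k from RingHom.ext P.r_j]
  rfl

theorem IsChow.Chow2_van (h : IsChow Γ ε φ) (hu : ∀ γ : Γ, G.Rep (ξ + G.map j rfl γ.1) (u γ))
    {g : MvPolynomial (Fin (n + 1)) k} {d : ℕ} (hg : g.IsHomogeneous d) :
    (∀ x ∈ PG.loc j s ξ, eval (φ x).crd g = 0) ↔ eval₂ j (cc u ∘ ε) g = 0 := by
  constructor
  · intro H
    by_contra hz
    obtain ⟨i, hi⟩ := Function.ne_iff.1 ((Chow2_comp_ne ε).2 (Chow2_cc_ne hu))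
    have hi' : cc u (ε i) ≠ 0 := hi
    let x : Option (Fin (n + 1)) → T := fun o =>
      o.elim (eval₂ j (cc u ∘ ε) g * cc u (ε i))⁻¹ (cc u ∘ ε)
    obtain ⟨y, hy⟩ := Con1_null j x one_ne_zero
    obtain ⟨W, r, h1, h2, -⟩ := Geo2A_place j (RingHom.id k) x y hy
    let P : Place j (RingHom.id k) := ⟨W, fun c => (h1 c).1, r, fun c => (h1 c).2⟩
    let U : Fin (n + 1) → P.W := fun a => ⟨cc u (ε a), (h2 (some a)).1⟩
    obtain ⟨e1, e2⟩ := Chow2_red P U g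
    have e3 : eval₂ P.jW U g * U i * ⟨x none, (h2 none).1⟩ = 1 := Subtype.ext (by
      rw [MulMemClass.coe_mul, MulMemClass.coe_mul, e1]
      exact mul_inv_cancel₀ (mul_ne_zero hz hi'))
    have e4 := congrArg P.r e3
    rw [map_mul, map_mul, map_one, e2] at e4
    have e5 := left_ne_zero_of_mul_eq_one e4
    have e6 := h.Chow2_place hu P U 1 (fun a => (one_mul _).symm)
      (Function.ne_iff.2 ⟨i, right_ne_zero_of_mul e5⟩)
    exact left_ne_zero_of_mul e5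
      ((Chow2_eval e6 hg).1 (H _ ((mem_loc_iff rfl).2 ⟨P, rfl⟩)))
  · intro H x hx
    obtain ⟨P, rfl⟩ := (mem_loc_iff rfl).1 hx
    obtain ⟨V, c, hV, h1⟩ := h.Chow2_ex hu P
    obtain ⟨e1, e2⟩ := Chow2_red P V g
    rw [hV, Chow2_hom j hg, H, mul_zero] at e1
    rw [Chow2_eval h1 hg, ← e2, show eval₂ P.jW V g = 0 from Subtype.ext e1, map_zero]

end place

theorem IsChow.closed (h : IsChow Γ ε φ) {X : Set (G.Pt s)} (hX : Var X) :
    IsClosed (φ '' X) ∧ IsIrreducible (φ '' X) := by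
  obtain ⟨T, _, _, j, ξ, hξ, -⟩ := hX.exists_gen
  choose u hu using fun γ : Γ => G.ax.exists_rep (ξ + G.map j rfl γ.1)
  have key : ∀ (g : MvPolynomial (Fin (n + 1)) k) (d : ℕ), g.IsHomogeneous d →
      ((∀ z ∈ φ '' X, eval z.crd g = 0) ↔ eval₂ j (cc u ∘ ε) g = 0) := by
    intro g d hg
    rw [← h.Chow2_van hu hg, hξ, Set.forall_mem_image]
  refine ⟨PP.closed_iff.2 fun y hy => ?_, hX.2.1.image φ, ?_⟩
  · obtain ⟨i, hi⟩ := Function.ne_iff.1 y.is_crd.1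
    have hi' : y.crd i ≠ 0 := hi
    have hU : cc u (ε i) ≠ 0 := fun h0 => hi' (by
      have := hy (MvPolynomial.X i) 1 (isHomogeneous_X _ _)
        ((key _ _ (isHomogeneous_X _ _)).2 (by rw [eval₂_X]; exact h0))
      rwa [eval_X] at this)
    have hy' := y.is_crd.smul (inv_ne_zero hi')
    obtain ⟨W, r, h1, h2, -⟩ := Geo2A_place j (RingHom.id k) ((cc u (ε i))⁻¹ • (cc u ∘ ε))
      ((y.crd i)⁻¹ • y.crd) fun f hf => by
        obtain ⟨g, d, hg, e⟩ := Geo2A_homog f i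
        rw [← e j _ (inv_mul_cancel₀ hU), Chow2_hom j hg, mul_eq_zero,
          or_iff_right (pow_ne_zero _ (inv_ne_zero hU))] at hf
        rw [← e _ _ (inv_mul_cancel₀ hi')]
        exact (Chow2_eval hy' hg).1 (hy g d hg ((key g d hg).2 hf))
    let P : Place j (RingHom.id k) := ⟨W, fun c => (h1 c).1, r, fun c => (h1 c).2⟩
    let U : Fin (n + 1) → P.W := fun a => ⟨_, (h2 a).1⟩
    have e : P.r ∘ U = (y.crd i)⁻¹ • y.crd := funext fun a => (h2 a).2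
    have h3 := h.Chow2_place hu P U (cc u (ε i))⁻¹ (fun a => rfl) (e ▸ hy'.1)
    rw [e] at h3
    exact ⟨_, hξ ▸ (mem_loc_iff rfl).2 ⟨P, rfl⟩, h3.eq hy'⟩
  · rintro U V hU hV ⟨a, ha, haU⟩ ⟨b, hb, hbV⟩
    obtain ⟨g, d, hg, k1, k2⟩ := Con1_basis hU a haU
    obtain ⟨g', d', hg', k1', k2'⟩ := Con1_basis hV b hbV
    by_contra hc
    have h1 := (key _ _ (hg.mul hg')).1 fun z hz => by
      by_contra h0
      rw [map_mul] at h0
      exact hc ⟨z, hz, k2 z (left_ne_zero_of_mul h0), k2' z (right_ne_zero_of_mul h0)⟩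
    rw [eval₂_mul, mul_eq_zero] at h1
    rcases h1 with h1 | h1
    · exact k1 ((key _ _ hg).2 h1 a ha)
    · exact k1' ((key _ _ hg').2 h1 b hb)

end PG

end MLF
end

-- merged part: Pool.Agent.Work.MP_29d410_ag.Chow1b
section
/-!
# Descent of formulas to Chow coordinates

Plan for `chow_desc`.  Choose `l₀ l₁ : σ → k` with `⟨v y₀ i, l₀⟩ ≠ 0` for all `i` and such that the ratio
`α y i = ⟨v y i, l₁⟩ / ⟨v y i, l₀⟩` satisfies `α y₀ i ≠ α y₀ i₀` for `i ≠ i₀`.  `L (y) = eval l₀ (chow (v y))` is a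
linear form in `cc (v y)`.  Same for `w` (`β`, `L'`).  Let `Y'` be the set where `L L' ≠ 0` and `𝒫` the algebra of
functions on `Y'` generated by the functions `cc (v y) m / L (y)`, `cc (w y) m / L' (y)`.  The polynomial
`chow (v y) (T l₀ - l₁) / L (y) = ∏ (T - α y i)` has coefficients in `𝒫`, hence the power sums of the `α y i`
lie in `𝒫` (Newton, `MvPolynomial.psum_eq_mul_esymm_sub_sum`), hence also
`∑ i j, Q (α y i, β y j)` for `Q ∈ 𝒫[T, T']`.  The vector `V (T) = (pderiv a (chow (v y)) (T l₀ - l₁) / L (y))_a` has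
entries in `𝒫[T]`, and `V (α y i) = λ • v y i` with `λ = ∏_{i' ≠ i} ⟨v y i', α y i • l₀ - l₁⟩ / L (y)`, nonzero for
`(y₀, i₀)`.  Take `Q r = M (T) M' (T') W r (V (T), V' (T'))` with `M = ∏_{i ≠ i₀} (T - α y₀ i)` over `k`; the
vector of the sums is a sum of multiples of the vectors `W (v y i, w y j)`.  Finally clear denominators:
multiply by `L ^ e L' ^ e` with `e` large and positive to get bihomogeneous forms (which vanish outside `Y'`).
-/

open MvPolynomial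

namespace MLF

universe u

variable {k : Type u} [Field k] {σ ρ : Type} [Fintype σ] {I J Y : Type u} [Fintype I] [Fintype J]

/-- The standard pairing. -/
def chow1b_dot (u l : σ → k) : k := ∑ a, u a * l a

theorem chow1b_eval_chow (v : I → σ → k) (l : σ → k) :
    eval l (chow v) = ∏ i, chow1b_dot (v i) l := by
  simp [chow, chow1b_dot]

theorem chow1b_hom (v : I → σ → k) : (chow v).IsHomogeneous (Fintype.card I) := by
  have h := IsHomogeneous.prod Finset.univ (fun i => ∑ a, (C (v i a) * X a : MvPolynomial σ k))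
    (fun _ => 1) fun i _ => IsHomogeneous.sum _ _ _ fun a _ => isHomogeneous_C_mul_X _ _
  simpa [chow] using h

theorem chow1b_expand [Fintype (Mon σ I)] (v : I → σ → k) :
    chow v = ∑ m : Mon σ I, cc v m • monomial m.1 (1 : k) := by
  classical
  ext m
  rw [coeff_sum]
  simp only [coeff_smul, coeff_monomial, smul_eq_mul]
  by_cases hm : m.degree = Fintype.card I
  · refine ((Fintype.sum_eq_single (α := Mon σ I) ⟨m, hm⟩ fun b hb => ?_).trans ?_).symm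
    · rw [if_neg fun h => hb (Subtype.ext h), mul_zero]
    · rw [if_pos rfl, mul_one]
      rfl
  · rw [(chow1b_hom v).coeff_eq_zero hm]
    refine (Finset.sum_eq_zero fun b _ => ?_).symm
    have hb : b.1 ≠ m := fun h => hm (h ▸ b.2)
    rw [if_neg hb, mul_zero]

theorem chow1b_lin (ℓ : MvPolynomial σ k →ₗ[k] k) :
    ∃ P : MvPolynomial (Mon σ I) k, P.IsHomogeneous 1 ∧
      ∀ v : I → σ → k, eval (cc v) P = ℓ (chow v) := by
  have := Fintype.ofFinite (Mon σ I)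
  refine ⟨∑ m : Mon σ I, C (ℓ (monomial m.1 1)) * X m,
    IsHomogeneous.sum _ _ _ fun a _ => isHomogeneous_C_mul_X _ _, fun v => ?_⟩
  rw [chow1b_expand v, map_sum, map_sum]
  refine Finset.sum_congr rfl fun m _ => ?_
  rw [map_mul, eval_C, eval_X, map_smul, smul_eq_mul, mul_comm]

theorem chow1b_avoid [Infinite k] (u : I → σ → k) (hu : ∀ i, u i ≠ 0) :
    ∃ l : σ → k, ∀ i, chow1b_dot (u i) l ≠ 0 := by
  classical
  have h1 : chow u ≠ 0 := by
    refine Finset.prod_ne_zero_iff.2 fun i _ h => hu i (funext fun a => ?_)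
    have h2 := congrArg (eval (Pi.single a (1 : k))) h
    simpa [Pi.single_apply] using h2
  by_contra hn
  refine h1 (MvPolynomial.funext fun l => ?_)
  rw [chow1b_eval_chow, map_zero]
  by_contra h2
  exact hn ⟨l, fun i => Finset.prod_ne_zero_iff.1 h2 i (Finset.mem_univ i)⟩

/-- The denominator. -/
def chow1b_L (l₀ : σ → k) (v : I → σ → k) : k := ∏ i, chow1b_dot (v i) l₀

theorem chow1b_L_form (l₀ : σ → k) : ∃ P : MvPolynomial (Mon σ I) k, P.IsHomogeneous 1 ∧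
    ∀ v : I → σ → k, eval (cc v) P = chow1b_L l₀ v := by
  obtain ⟨P, h1, h2⟩ := chow1b_lin (I := I) (aeval l₀ : MvPolynomial σ k →ₐ[k] k).toLinearMap
  refine ⟨P, h1, fun v => ?_⟩
  rw [h2, chow1b_L, ← chow1b_eval_chow]
  rfl

/-- A form of degree `e` in the Chow coordinates divided by the `e`-th power of the denominator. -/
def chow1b_Hg (l₀ : σ → k) (e : ℕ) (φ : (I → σ → k) → k) : Prop :=
  ∃ P : MvPolynomial (Mon σ I) k, P.IsHomogeneous e ∧
    ∀ v, chow1b_L l₀ v ≠ 0 → eval (cc v) P = chow1b_L l₀ v ^ e * φ v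

theorem chow1b_Hg_mono {l₀ : σ → k} {e e' : ℕ} {φ : (I → σ → k) → k} (h : chow1b_Hg l₀ e φ)
    (he : e ≤ e') : chow1b_Hg l₀ e' φ := by
  obtain ⟨c, rfl⟩ := Nat.exists_eq_add_of_le he
  obtain ⟨P, h1, h2⟩ := h
  obtain ⟨Q, h3, h4⟩ := chow1b_L_form (I := I) l₀
  refine ⟨P * Q ^ c, by simpa using h1.mul (h3.pow c), fun v hv => ?_⟩
  rw [map_mul, map_pow, h2 v hv, h4]
  ring

/-- The algebra of these functions. -/
def chow1b_P (l₀ : σ → k) : Subalgebra k ((I → σ → k) → k) where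
  carrier := {φ | ∃ e, chow1b_Hg l₀ e φ}
  mul_mem' := by
    rintro φ ψ ⟨e, P, h1, h2⟩ ⟨e', Q, h3, h4⟩
    refine ⟨e + e', P * Q, h1.mul h3, fun v hv => ?_⟩
    rw [map_mul, h2 v hv, h4 v hv, Pi.mul_apply]
    ring
  add_mem' := by
    rintro φ ψ ⟨e, h⟩ ⟨e', h'⟩
    obtain ⟨P, h1, h2⟩ := chow1b_Hg_mono h (Nat.le_add_right e e')
    obtain ⟨Q, h3, h4⟩ := chow1b_Hg_mono h' (Nat.le_add_left e' e)
    refine ⟨e + e', P + Q, h1.add h3, fun v hv => ?_⟩
    rw [map_add, h2 v hv, h4 v hv, Pi.add_apply]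
    ring
  algebraMap_mem' := fun c => ⟨0, C c, isHomogeneous_C _ _, fun v _ => by simp⟩

theorem chow1b_P_congr {l₀ : σ → k} {φ ψ : (I → σ → k) → k} (h : φ ∈ chow1b_P l₀)
    (h' : ∀ v, chow1b_L l₀ v ≠ 0 → ψ v = φ v) : ψ ∈ chow1b_P l₀ := by
  obtain ⟨e, P, h1, h2⟩ := h
  exact ⟨e, P, h1, fun v hv => by rw [h2 v hv, h' v hv]⟩

theorem chow1b_P_lin (l₀ : σ → k) (ℓ : MvPolynomial σ k →ₗ[k] k) :
    (fun v : I → σ → k => ℓ (chow v) / chow1b_L l₀ v) ∈ chow1b_P l₀ := by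
  obtain ⟨P, h1, h2⟩ := chow1b_lin (I := I) ℓ
  refine ⟨1, P, h1, fun v hv => ?_⟩
  rw [h2, pow_one, mul_div_cancel₀ _ hv]

/-- The ratio. -/
def chow1b_r (l₀ l₁ : σ → k) (v : I → σ → k) (i : I) : k :=
  chow1b_dot (v i) l₁ / chow1b_dot (v i) l₀

theorem chow1b_ne {l₀ : σ → k} {v : I → σ → k} (hv : chow1b_L l₀ v ≠ 0) (i : I) :
    chow1b_dot (v i) l₀ ≠ 0 := Finset.prod_ne_zero_iff.1 hv i (Finset.mem_univ i)

theorem chow1b_line (l₀ l₁ : σ → k) {v : I → σ → k} (hv : chow1b_L l₀ v ≠ 0) :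
    aeval (fun a => Polynomial.C (l₀ a) * Polynomial.X + Polynomial.C (l₁ a)) (chow v) =
      Polynomial.C (chow1b_L l₀ v) * ∏ i, (Polynomial.X + Polynomial.C (chow1b_r l₀ l₁ v i)) := by
  rw [chow, chow1b_L, map_prod, map_prod, ← Finset.prod_mul_distrib]
  refine Finset.prod_congr rfl fun i _ => ?_
  rw [mul_add, ← Polynomial.C_mul, chow1b_r, mul_div_cancel₀ _ (chow1b_ne hv i), chow1b_dot,
    chow1b_dot, map_sum, map_sum, map_sum, Finset.sum_mul, ← Finset.sum_add_distrib]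
  refine Finset.sum_congr rfl fun a _ => ?_
  rw [map_mul, aeval_C, aeval_X, Polynomial.algebraMap_apply, Algebra.algebraMap_self_apply,
    Polynomial.C_mul, Polynomial.C_mul]
  ring

theorem chow1b_esymm (l₀ l₁ : σ → k) (j : ℕ) :
    aeval (fun (i : I) (v : I → σ → k) => chow1b_r l₀ l₁ v i) (esymm I k j) ∈ chow1b_P l₀ := by
  by_cases hj : j ≤ Fintype.card I
  · refine chow1b_P_congr (chow1b_P_lin l₀ ((Polynomial.lcoeff k (Fintype.card I - j)).comp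
      (aeval (fun a => Polynomial.C (l₀ a) * Polynomial.X + Polynomial.C (l₁ a)) :
        MvPolynomial σ k →ₐ[k] Polynomial k).toLinearMap)) fun v hv => ?_
    simp only [LinearMap.comp_apply, AlgHom.toLinearMap_apply, Polynomial.lcoeff_apply]
    rw [chow1b_line l₀ l₁ hv, Polynomial.coeff_C_mul, mul_div_cancel_left₀ _ hv,
      Finset.prod_X_add_C_coeff _ _ (by rw [Finset.card_univ]; exact Nat.sub_le _ _),
      Finset.card_univ, Nat.sub_sub_self hj]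
    simp [esymm]
  · rw [esymm, Finset.powersetCard_eq_empty.2 (by simpa using hj), Finset.sum_empty, map_zero]
    exact zero_mem _

theorem chow1b_psum (l₀ l₁ : σ → k) (s : ℕ) :
    aeval (fun (i : I) (v : I → σ → k) => chow1b_r l₀ l₁ v i) (psum I k s) ∈ chow1b_P l₀ := by
  classical
  induction s using Nat.strong_induction_on with
  | _ s ih =>
    rcases Nat.eq_zero_or_pos s with rfl | hs
    · rw [psum_zero, map_natCast]
      exact natCast_mem _ _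
    · rw [psum_eq_mul_esymm_sub_sum I k s hs, map_sub, map_sum]
      refine sub_mem ?_ (sum_mem fun a ha => ?_)
      · rw [map_mul, map_mul, map_pow, map_neg, map_one, map_natCast]
        exact mul_mem (mul_mem (pow_mem (neg_mem (one_mem _)) _) (natCast_mem _ _))
          (chow1b_esymm l₀ l₁ s)
      · rw [map_mul, map_mul, map_pow, map_neg, map_one]
        have h1 := Finset.mem_filter.1 ha
        have h2 : a.1 + a.2 = s := by simpa using h1.1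
        have h3 := h1.2.1
        exact mul_mem (mul_mem (pow_mem (neg_mem (one_mem _)) _) (chow1b_esymm l₀ l₁ _))
          (ih _ (by omega))

/-- Polynomials in the ratio with coefficients in the algebra. -/
def chow1b_Q (l₀ l₁ : σ → k) : Subalgebra k ((I → σ → k) → I → k) :=
  Algebra.adjoin k ({ψ | ∃ φ ∈ chow1b_P l₀, ψ = fun v _ => φ v} ∪ {chow1b_r l₀ l₁})

theorem chow1b_trace {l₀ l₁ : σ → k} {ψ : (I → σ → k) → I → k} (h : ψ ∈ chow1b_Q l₀ l₁) :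
    (fun v => ∑ i, ψ v i) ∈ chow1b_P l₀ := by
  have h1 : ψ ∈ Subalgebra.toSubmodule (chow1b_Q l₀ l₁) := h
  rw [chow1b_Q, Algebra.adjoin_eq_span] at h1
  clear h
  induction h1 using Submodule.span_induction with
  | mem ψ hψ =>
    have h2 : ∃ φ ∈ chow1b_P l₀, ∃ s : ℕ, ψ = fun v i => φ v * chow1b_r l₀ l₁ v i ^ s := by
      induction hψ using Submonoid.closure_induction with
      | mem x hx =>
        rcases hx with ⟨φ, hφ, rfl⟩ | rfl
        · exact ⟨φ, hφ, 0, by simp⟩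
        · exact ⟨1, one_mem _, 1, by simp⟩
      | one => exact ⟨1, one_mem _, 0, by funext v i; simp⟩
      | mul x y _ _ hx hy =>
        obtain ⟨φ, hφ, s, rfl⟩ := hx
        obtain ⟨φ', hφ', s', rfl⟩ := hy
        refine ⟨φ * φ', mul_mem hφ hφ', s + s', ?_⟩
        funext v i
        simp only [Pi.mul_apply]
        ring
    obtain ⟨φ, hφ, s, rfl⟩ := h2
    refine chow1b_P_congr (mul_mem hφ (chow1b_psum l₀ l₁ s)) fun v _ => ?_
    simp [psum, Finset.mul_sum]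
  | zero => exact chow1b_P_congr (zero_mem _) fun v _ => by simp
  | add x y _ _ hx hy =>
    exact chow1b_P_congr (add_mem hx hy) fun v _ => by simp [Finset.sum_add_distrib]
  | smul c x _ hx =>
    exact chow1b_P_congr (Subalgebra.smul_mem _ hx c) fun v _ => by simp [Finset.mul_sum]

theorem chow1b_Q_r (l₀ l₁ : σ → k) : chow1b_r l₀ l₁ ∈ chow1b_Q (I := I) l₀ l₁ :=
  Algebra.subset_adjoin (Or.inr rfl)

theorem chow1b_Q_const (l₀ l₁ : σ → k) (c : k) :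
    (fun _ _ => c) ∈ chow1b_Q (I := I) l₀ l₁ := algebraMap_mem _ c

theorem chow1b_Q_eval (l₀ l₁ : σ → k) (g : MvPolynomial σ k) :
    (fun v i => eval (fun a => l₁ a - chow1b_r l₀ l₁ v i * l₀ a) g) ∈ chow1b_Q (I := I) l₀ l₁ := by
  induction g using MvPolynomial.induction_on with
  | C c => simpa only [eval_C] using chow1b_Q_const l₀ l₁ c
  | add p q hp hq =>
    simp only [map_add]
    exact add_mem hp hq
  | mul_X p a hp =>
    simp only [map_mul, eval_X]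
    exact mul_mem hp (sub_mem (chow1b_Q_const l₀ l₁ (l₁ a))
      (mul_mem (chow1b_Q_r l₀ l₁) (chow1b_Q_const l₀ l₁ (l₀ a))))

/-- The gradient of the Chow form at a root. -/
noncomputable def chow1b_V (l₀ l₁ : σ → k) (a : σ) (v : I → σ → k) (i : I) : k :=
  eval (fun a => l₁ a - chow1b_r l₀ l₁ v i * l₀ a) (pderiv a (chow v)) / chow1b_L l₀ v

theorem chow1b_Q_V (l₀ l₁ : σ → k) (a : σ) : chow1b_V l₀ l₁ a ∈ chow1b_Q (I := I) l₀ l₁ := by
  have := Fintype.ofFinite (Mon σ I)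
  have h1 : chow1b_V (I := I) l₀ l₁ a = ∑ m : Mon σ I, (fun v _ => cc v m / chow1b_L l₀ v) *
      fun v i => eval (fun a => l₁ a - chow1b_r l₀ l₁ v i * l₀ a) (pderiv a (monomial m.1 1)) := by
    funext v i
    rw [chow1b_V, chow1b_expand v, map_sum, map_sum, Finset.sum_div, Finset.sum_apply,
      Finset.sum_apply]
    refine Finset.sum_congr rfl fun m _ => ?_
    rw [Derivation.map_smul, smul_eval, Pi.mul_apply, Pi.mul_apply]
    ring
  rw [h1]
  refine sum_mem fun m _ => mul_mem (Algebra.subset_adjoin (Or.inl ⟨_, ?_, rfl⟩))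
    (chow1b_Q_eval l₀ l₁ _)
  exact chow1b_P_lin l₀ (lcoeff k m.1)

theorem chow1b_V_eq [DecidableEq I] (l₀ l₁ : σ → k) (a : σ) {v : I → σ → k}
    (hv : chow1b_L l₀ v ≠ 0) (i : I) : chow1b_V l₀ l₁ a v i =
      (∏ j ∈ Finset.univ.erase i, (chow1b_dot (v j) l₁ - chow1b_r l₀ l₁ v i * chow1b_dot (v j) l₀)) /
        chow1b_L l₀ v * v i a := by
  classical
  have h1 : ∀ j, eval (fun a => l₁ a - chow1b_r l₀ l₁ v i * l₀ a) (∑ b, C (v j b) * X b) =
      chow1b_dot (v j) l₁ - chow1b_r l₀ l₁ v i * chow1b_dot (v j) l₀ := by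
    intro j
    rw [map_sum, chow1b_dot, chow1b_dot, Finset.mul_sum, ← Finset.sum_sub_distrib]
    refine Finset.sum_congr rfl fun b _ => ?_
    rw [map_mul, eval_C, eval_X]
    ring
  have h2 : pderiv a (∑ b, (C (v i b) * X b : MvPolynomial σ k)) = C (v i a) := by
    simp [pderiv_X, Pi.single_apply]
  rw [chow1b_V, chow, ← Finset.mul_prod_erase _ _ (Finset.mem_univ i), pderiv_mul, map_add, map_mul,
    map_mul, h1, h2, eval_C, map_prod, Finset.prod_congr rfl fun j _ => h1 j, chow1b_r,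
    div_mul_cancel₀ _ (chow1b_ne hv i), sub_self, zero_mul, add_zero]
  ring

/-- One group of variables. -/
theorem chow1b_one [Infinite k] (v₀ : I → σ → k) (i₀ : I) (hv : ∀ i, v₀ i ≠ 0)
    (sv : ∀ i, Crs (v₀ i) (v₀ i₀) → i = i₀) (d : ℕ) :
    ∃ (e : ℕ) (μ : (I → σ → k) → I → k) (P : (σ → ℕ) → MvPolynomial (Mon σ I) k),
      μ v₀ i₀ ≠ 0 ∧ (∀ i, i ≠ i₀ → μ v₀ i = 0) ∧ ∀ m : σ → ℕ, ∑ a, m a = d →
        (P m).IsHomogeneous e ∧ ∀ v, eval (cc v) (P m) = ∑ i, μ v i * ∏ a, v i a ^ m a := by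
  classical
  obtain ⟨l₀, h0⟩ := chow1b_avoid v₀ hv
  have hL : chow1b_L l₀ v₀ ≠ 0 := Finset.prod_ne_zero_iff.2 fun i _ => h0 i
  obtain ⟨l₁, h1⟩ := chow1b_avoid (fun i : {i // i ≠ i₀} =>
      chow1b_dot (v₀ i₀) l₀ • v₀ i.1 - chow1b_dot (v₀ i.1) l₀ • v₀ i₀) (by
    intro i hi
    refine i.2 (sv i.1 fun a b => mul_left_cancel₀ (h0 i₀) ?_)
    have ha := congrFun hi a
    have hb := congrFun hi b
    simp only [Pi.sub_apply, Pi.smul_apply, smul_eq_mul, Pi.zero_apply] at ha hb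
    linear_combination v₀ i₀ b * ha - v₀ i₀ a * hb)
  have hr : ∀ i, i ≠ i₀ → chow1b_r l₀ l₁ v₀ i₀ - chow1b_r l₀ l₁ v₀ i ≠ 0 := by
    intro i hi h
    refine h1 ⟨i, hi⟩ ?_
    rw [chow1b_r, chow1b_r, sub_eq_zero, div_eq_div_iff (h0 i₀) (h0 i)] at h
    have h2 : chow1b_dot (chow1b_dot (v₀ i₀) l₀ • v₀ i - chow1b_dot (v₀ i) l₀ • v₀ i₀) l₁ =
        chow1b_dot (v₀ i₀) l₀ * chow1b_dot (v₀ i) l₁ - chow1b_dot (v₀ i) l₀ * chow1b_dot (v₀ i₀) l₁ := by
      generalize chow1b_dot (v₀ i₀) l₀ = x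
      generalize chow1b_dot (v₀ i) l₀ = y
      simp only [chow1b_dot, Pi.sub_apply, Pi.smul_apply, smul_eq_mul, Finset.mul_sum,
        ← Finset.sum_sub_distrib]
      exact Finset.sum_congr rfl fun a _ => by ring
    rw [h2]
    linear_combination -h
  obtain ⟨M, hM⟩ : ∃ M : (I → σ → k) → I → k, M = ∏ j ∈ Finset.univ.erase i₀,
    (chow1b_r l₀ l₁ - fun _ _ => chow1b_r l₀ l₁ v₀ j) := ⟨_, rfl⟩
  have hMQ : M ∈ chow1b_Q l₀ l₁ :=
    hM ▸ prod_mem fun j _ => sub_mem (chow1b_Q_r l₀ l₁) (chow1b_Q_const l₀ l₁ _)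
  have hMa : ∀ i, M v₀ i = ∏ j ∈ Finset.univ.erase i₀,
      (chow1b_r l₀ l₁ v₀ i - chow1b_r l₀ l₁ v₀ j) := by
    intro i
    rw [hM, Finset.prod_apply, Finset.prod_apply]
    rfl
  have h2 : ∀ m : σ → ℕ, ∃ e, chow1b_Hg l₀ e fun v =>
      ∑ i, (M * ∏ a, chow1b_V l₀ l₁ a ^ m a : (I → σ → k) → I → k) v i := fun m =>
    chow1b_trace (mul_mem hMQ (prod_mem fun a _ => pow_mem (chow1b_Q_V l₀ l₁ a) _))
  choose e he using h2
  obtain ⟨E, hE⟩ := ((Set.finite_Iic (fun _ : σ => d)).image e).bddAbove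
  obtain ⟨Q, hQ1, hQ2⟩ := chow1b_L_form (I := I) l₀
  have h3 : ∀ m : σ → ℕ, ∑ a, m a = d → ∃ P : MvPolynomial (Mon σ I) k, P.IsHomogeneous (1 + E) ∧
      ∀ v, eval (cc v) P = ∑ i, (chow1b_L l₀ v ^ (1 + E) * M v i *
        ((∏ j ∈ Finset.univ.erase i, (chow1b_dot (v j) l₁ -
          chow1b_r l₀ l₁ v i * chow1b_dot (v j) l₀)) / chow1b_L l₀ v) ^ d) * ∏ a, v i a ^ m a := by
    intro m hm
    obtain ⟨P, hP1, hP2⟩ := chow1b_Hg_mono (he m) (hE ⟨m, fun a => hm ▸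
      Finset.single_le_sum (f := m) (fun _ _ => Nat.zero_le _) (Finset.mem_univ a), rfl⟩)
    refine ⟨Q * P, hQ1.mul hP1, fun v => ?_⟩
    rw [map_mul, hQ2]
    by_cases hv : chow1b_L l₀ v = 0
    · simp [hv]
    · rw [hP2 v hv, Finset.mul_sum, Finset.mul_sum]
      refine Finset.sum_congr rfl fun i _ => ?_
      simp only [Pi.mul_apply, Finset.prod_apply, Pi.pow_apply, chow1b_V_eq l₀ l₁ _ hv, mul_pow,
        Finset.prod_mul_distrib, Finset.prod_pow_eq_pow_sum, hm]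
      ring
  choose! P hP using h3
  refine ⟨1 + E, _, P, ?_, fun i hi => ?_, hP⟩
  · refine mul_ne_zero (mul_ne_zero (pow_ne_zero _ hL) ?_) (pow_ne_zero _ (div_ne_zero ?_ hL))
    · rw [hMa]
      exact Finset.prod_ne_zero_iff.2 fun j hj => hr j (Finset.ne_of_mem_erase hj)
    · refine Finset.prod_ne_zero_iff.2 fun j hj h => hr j (Finset.ne_of_mem_erase hj) ?_
      rw [sub_eq_zero] at h ⊢
      rw [chow1b_r.eq_1 l₀ l₁ v₀ j, h, mul_div_cancel_right₀ _ (h0 j)]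
  · rw [hMa, Finset.prod_eq_zero (Finset.mem_erase.2 ⟨hi, Finset.mem_univ i⟩) (sub_self _),
      mul_zero, zero_mul]

theorem chow1b_inl {τ τ' : Type} {P : MvPolynomial τ k} {e : ℕ} (h : P.IsHomogeneous e) :
    Bihom (rename (Sum.inl : τ → τ ⊕ τ') P) (e, 0) := by
  rw [P.as_sum, map_sum]
  refine IsWeightedHomogeneous.sum _ _ _ fun m hm => ?_
  rw [rename_monomial]
  refine isWeightedHomogeneous_monomial _ _ _ ?_
  have h1 : m.degree = e := by
    by_contra hn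
    exact mem_support_iff.1 hm (h.coeff_eq_zero hn)
  rw [Finsupp.weight_apply, Finsupp.sum_mapDomain_index (by simp) (fun _ _ _ => add_smul _ _ _),
    ← h1, Finsupp.degree_apply, Finsupp.sum]
  ext <;> simp [Prod.fst_sum, Prod.snd_sum]

theorem chow1b_inr {τ τ' : Type} {P : MvPolynomial τ' k} {e : ℕ} (h : P.IsHomogeneous e) :
    Bihom (rename (Sum.inr : τ' → τ ⊕ τ') P) (0, e) := by
  rw [P.as_sum, map_sum]
  refine IsWeightedHomogeneous.sum _ _ _ fun m hm => ?_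
  rw [rename_monomial]
  refine isWeightedHomogeneous_monomial _ _ _ ?_
  have h1 : m.degree = e := by
    by_contra hn
    exact mem_support_iff.1 hm (h.coeff_eq_zero hn)
  rw [Finsupp.weight_apply, Finsupp.sum_mapDomain_index (by simp) (fun _ _ _ => add_smul _ _ _),
    ← h1, Finsupp.degree_apply, Finsupp.sum]
  ext <;> simp [Prod.fst_sum, Prod.snd_sum]

theorem chow1b_deg {σ' : Type} [Fintype σ'] {g : MvPolynomial (σ ⊕ σ') k} {d : ℕ × ℕ}
    (h : Bihom g d) {m : σ ⊕ σ' →₀ ℕ} (hm : m ∈ g.support) :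
    ∑ a, m (Sum.inl a) = d.1 ∧ ∑ a, m (Sum.inr a) = d.2 := by
  have h1 := h (mem_support_iff.1 hm)
  rw [Finsupp.weight_apply, Finsupp.sum_fintype _ _ (by simp), Fintype.sum_sum_type] at h1
  rw [← h1]
  simp [Prod.fst_sum, Prod.snd_sum]

theorem chow_desc [Infinite k] {σ' : Type} [Fintype σ'] (v : Y → I → σ → k) (w : Y → J → σ' → k)
    (z : Y → ρ → k) (y₀ : Y) (i₀ : I) (j₀ : J) (hv : ∀ i, v y₀ i ≠ 0) (hw : ∀ j, w y₀ j ≠ 0)
    (sv : ∀ i, Crs (v y₀ i) (v y₀ i₀) → i = i₀) (sw : ∀ j, Crs (w y₀ j) (w y₀ j₀) → j = j₀)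
    (W : ρ → MvPolynomial (σ ⊕ σ') k) (d : ℕ × ℕ) (hW : ∀ r, Bihom (W r) d)
    (h₀ : ∃ r, eval (Sum.elim (v y₀ i₀) (w y₀ j₀)) (W r) ≠ 0)
    (h : ∀ y i j, Crs (fun r => eval (Sum.elim (v y i) (w y j)) (W r)) (z y)) :
    ∃ (F : ρ → MvPolynomial (Mon σ I ⊕ Mon σ' J) k) (d' : ℕ × ℕ), (∀ r, Bihom (F r) d') ∧
      (∃ r, eval (Sum.elim (cc (v y₀)) (cc (w y₀))) (F r) ≠ 0) ∧
      ∀ y, Crs (fun r => eval (Sum.elim (cc (v y)) (cc (w y))) (F r)) (z y) := by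
  obtain ⟨e, μ, P, hμ, hμ0, hP⟩ := chow1b_one (v y₀) i₀ hv sv d.1
  obtain ⟨e', μ', P', hμ', hμ0', hP'⟩ := chow1b_one (w y₀) j₀ hw sw d.2
  have key : ∀ y r, eval (Sum.elim (cc (v y)) (cc (w y))) (∑ m ∈ (W r).support,
      C (coeff m (W r)) * (rename Sum.inl (P fun a => m (Sum.inl a)) *
        rename Sum.inr (P' fun a => m (Sum.inr a)))) =
      ∑ i, ∑ j, μ (v y) i * μ' (w y) j * eval (Sum.elim (v y i) (w y j)) (W r) := by
    intro y r
    simp only [eval_eq' _ (W r), Finset.mul_sum, Fintype.prod_sum_type, Sum.elim_inl, Sum.elim_inr]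
    rw [map_sum, Finset.sum_congr rfl fun i _ => Finset.sum_comm, Finset.sum_comm]
    refine Finset.sum_congr rfl fun m hm => ?_
    obtain ⟨h1, h2⟩ := chow1b_deg (hW r) hm
    rw [map_mul, map_mul, eval_C, eval_rename, eval_rename, Sum.elim_comp_inl, Sum.elim_comp_inr,
      (hP _ h1).2, (hP' _ h2).2, Finset.sum_mul_sum, Finset.mul_sum]
    refine Finset.sum_congr rfl fun i _ => ?_
    rw [Finset.mul_sum]
    exact Finset.sum_congr rfl fun j _ => by ring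
  refine ⟨fun r => ∑ m ∈ (W r).support, C (coeff m (W r)) *
    (rename Sum.inl (P fun a => m (Sum.inl a)) * rename Sum.inr (P' fun a => m (Sum.inr a))),
    (e, e'), fun r => ?_, ?_, fun y a b => ?_⟩
  · refine IsWeightedHomogeneous.sum _ _ _ fun m hm => ?_
    obtain ⟨h1, h2⟩ := chow1b_deg (hW r) hm
    have h3 := (isWeightedHomogeneous_C _ (coeff m (W r))).mul
      (IsWeightedHomogeneous.mul (chow1b_inl (τ' := Mon σ' J) (hP _ h1).1)
        (chow1b_inr (τ := Mon σ I) (hP' _ h2).1))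
    simpa using h3
  · obtain ⟨r, hr⟩ := h₀
    refine ⟨r, ?_⟩
    rw [key, Fintype.sum_eq_single i₀ fun i hi => by simp [hμ0 i hi],
      Fintype.sum_eq_single j₀ fun j hj => by simp [hμ0' j hj]]
    exact mul_ne_zero (mul_ne_zero hμ hμ') hr
  · simp only [key, Finset.sum_mul]
    refine Finset.sum_congr rfl fun i _ => Finset.sum_congr rfl fun j _ => ?_
    have h1 := h y i j a b
    simp only at h1
    rw [mul_assoc, h1, ← mul_assoc]

end MLF
end

-- merged part: Pool.Agent.Work.MP_29d410_ag.Chow3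
section
/-!
# The image of the Chow map is an abelian variety

Plan.  `IsChow.exists_av`: transport the group law of `D ⧸ Γ` (`Γ.addSubgroupOf D`) along the bijection
with `φ '' D` (`eq_iff`).  `add_reg` at `(φ a, φ b)`: apply `chow_desc` with `Y = D × D`, `v (x, y) γ` a vector of
`x + γ`, `w (x, y) γ` a vector of `y + γ`, `z (x, y)` a vector of `φ (x + y)`, `i₀ = j₀ = 0`, and
`W = c * w₀ (Φ j)`, where `w₀` is the local formula for `φ` at `a + b`, `Φ j (a, b)` is unimodular and `c` is one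
of its nonvanishing components; `G` is a component of `F` which does not vanish.  `neg_reg`: the same with
`z (x, y)` a vector of `φ (-x)`, `W = c * w₀ (N j)` in the first set of variables; then substitute the Chow
vector of `0` for the second set of variables.
-/

open MvPolynomial

namespace MLF

universe u

open PG

variable {k : Type u} [Field k] [IsAlgClosed k] {n : ℕ}

theorem Chow3_grp {D P : Type u} [AddCommGroup D] (f : D → P) (hs : Function.Surjective f)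
    (K : AddSubgroup D) (hf : ∀ x y, f x = f y ↔ x - y ∈ K) :
    ∃ _ : AddCommGroup P, ∀ x y, f (x + y) = f x + f y := by
  let g : D ⧸ K → P := fun q => Quotient.liftOn' q f fun x y h =>
    (hf x y).2 (QuotientAddGroup.eq_iff_sub_mem.1 (Quotient.sound' h))
  have hg : Function.Bijective g := by
    refine ⟨fun p q => ?_, fun p => ?_⟩
    · obtain ⟨x, rfl⟩ := QuotientAddGroup.mk_surjective p
      obtain ⟨y, rfl⟩ := QuotientAddGroup.mk_surjective q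
      exact fun h => QuotientAddGroup.eq_iff_sub_mem.2 ((hf x y).1 h)
    · obtain ⟨x, rfl⟩ := hs p
      exact ⟨x, rfl⟩
  let e := Equiv.ofBijective g hg
  have he : ∀ x : D, e.symm (f x) = x := fun x => e.symm_apply_eq.2 rfl
  refine ⟨e.symm.addCommGroup, fun x y => ?_⟩
  change f (x + y) = e (e.symm (f x) + e.symm (f y))
  rw [he, he]
  rfl

theorem Chow3_bind {R σ τ M M' : Type*} [CommRing R] [AddCommMonoid M] [AddCommMonoid M']
    {w : σ → M} {w' : τ → M'} (θ : M →+ M') {g : MvPolynomial σ R} {d : M}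
    (hg : g.IsWeightedHomogeneous w d) {p : σ → MvPolynomial τ R}
    (hp : ∀ i, (p i).IsWeightedHomogeneous w' (θ (w i))) :
    (bind₁ p g).IsWeightedHomogeneous w' (θ d) := by
  rw [g.as_sum, map_sum]
  refine IsWeightedHomogeneous.sum _ _ _ fun m hm => ?_
  rw [bind₁_monomial, ← hg (mem_support_iff.1 hm), Finsupp.weight_apply, Finsupp.sum, map_sum]
  refine (IsWeightedHomogeneous.prod _ _ _ fun i _ => ?_).C_mul _
  rw [map_nsmul]
  exact (hp i).pow _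

theorem Chow3_eval {R σ τ : Type*} [CommRing R] (v : τ → R) (p : σ → MvPolynomial τ R)
    (g : MvPolynomial σ R) : eval v (bind₁ p g) = eval (fun i => eval v (p i)) g :=
  eval₂Hom_bind₁ (RingHom.id R) v p g

omit [IsAlgClosed k] in
theorem Chow3_smul {σ : Type} {v w : σ → k} (hv : v ≠ 0) (hw : w ≠ 0) (h : Crs v w) :
    ∃ c : k, c ≠ 0 ∧ v = c • w := by
  obtain ⟨a, ha⟩ := Function.ne_iff.1 hw
  have ha' : w a ≠ 0 := ha
  have e : v = (v a / w a) • w := funext fun b => by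
    rw [Pi.smul_apply, smul_eq_mul, div_mul_eq_mul_div, h a b, mul_div_cancel_right₀ _ ha']
  exact ⟨_, left_ne_zero_of_smul (e ▸ hv), e⟩

omit [IsAlgClosed k] in
theorem Chow3_is {x : PP k n} {v : Fin (n + 1) → k} (hv : v ≠ 0) (h : Crs v x.crd) : x.Is v := by
  obtain ⟨c, hc, e⟩ := Chow3_smul hv x.is_crd.1 h
  exact e ▸ x.is_crd.smul hc

omit [IsAlgClosed k] in
theorem Chow3_crs {x : PP k n} {v : Fin (n + 1) → k} (c : k) (h : c ≠ 0 → v ≠ 0 → x.Is v) :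
    Crs (fun i => c * v i) x.crd := by
  intro a b
  by_cases hc : c = 0
  · simp [hc]
  by_cases hv : v = 0
  · simp [hv]
  obtain ⟨c', -, rfl⟩ := x.is_crd.exists_smul (h hc hv)
  simp only [Pi.smul_apply, smul_eq_mul]
  ring

omit [IsAlgClosed k] in
theorem Chow3_ne {G : PG.{u}} {s : G.Str k} {x : G.Pt s} {v : G.σ → k} (h : G.Rep x v) : v ≠ 0 := by
  obtain ⟨i, hi⟩ := G.ax.rep_uni h
  exact fun e => hi.ne_zero (congrFun e i)

theorem Chow3_core {G : PG.{u}} {s : G.Str k} {Γ : AddSubgroup (G.Pt s)} [Fintype Γ]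
    {ε : Fin (n + 1) ≃ Mon G.σ Γ} {φ : G.Pt s → PP k n} (h : IsChow Γ ε φ)
    (z : G.Pt s → G.Pt s → PP k n) (hz : ∀ x y (γ γ' : Γ), z (x + γ) (y + γ') = z x y)
    (a b : G.Pt s) (W : Fin (n + 1) → MvPolynomial (G.σ ⊕ G.σ) k) (d : ℕ × ℕ)
    (hW : ∀ r, Bihom (W r) d)
    (h₀ : ∃ v w r, G.Rep a v ∧ G.Rep b w ∧ eval (Sum.elim v w) (W r) ≠ 0)
    (h₁ : ∀ x y v w, G.Rep x v → G.Rep y w →
      Crs (fun r => eval (Sum.elim v w) (W r)) (z x y).crd) :
    ∃ (F : Fin (n + 1) → MvPolynomial (Fin (n + 1) ⊕ Fin (n + 1)) k) (d' : ℕ × ℕ) (r : Fin (n + 1)),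
      (∀ r, Bihom (F r) d') ∧ eval (Sum.elim (φ a).crd (φ b).crd) (F r) ≠ 0 ∧
      ∀ x y, eval (Sum.elim (φ x).crd (φ y).crd) (F r) ≠ 0 →
        (z x y).Is fun i => eval (Sum.elim (φ x).crd (φ y).crd) (F i) := by
  choose ρ hρ using fun x : G.Pt s => G.ax.exists_rep x
  have sep : ∀ (x : G.Pt s) (γ : Γ), Crs (ρ (x + γ)) (ρ (x + (0 : Γ))) → γ = 0 := by
    intro x γ hc
    obtain ⟨c, hc0, e⟩ := Chow3_smul (Chow3_ne (hρ _)) (Chow3_ne (hρ _)) hc
    have h1 := G.ax.rep_smul (hρ (x + (0 : Γ))) hc0.isUnit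
    rw [← e] at h1
    have := G.ax.rep_inj (hρ (x + γ)) h1
    exact Subtype.ext (add_left_cancel this)
  obtain ⟨F, d', hF, ⟨r, hr⟩, hc⟩ := chow_desc (Y := G.Pt s × G.Pt s) (I := Γ) (J := Γ)
    (fun y γ => ρ (y.1 + γ)) (fun y γ => ρ (y.2 + γ)) (fun y => (z y.1 y.2).crd) (a, b) 0 0
    (fun _ => Chow3_ne (hρ _)) (fun _ => Chow3_ne (hρ _)) (sep a) (sep b) W d hW (by
      obtain ⟨v, w, r, hv, hw, hr⟩ := h₀
      obtain ⟨c, hc, e⟩ := G.ax.rep_uniq hv (hρ a)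
      obtain ⟨c', hc', e'⟩ := G.ax.rep_uniq hw (hρ b)
      refine ⟨r, ?_⟩
      simp only [ZeroMemClass.coe_zero, add_zero]
      rw [e, e', Prod_bihom (hW r)]
      exact mul_ne_zero (mul_ne_zero (pow_ne_zero _ hc.ne_zero) (pow_ne_zero _ hc'.ne_zero)) hr)
    (fun y γ γ' => by
      rw [← hz y.1 y.2 γ γ']
      exact h₁ _ _ _ _ (hρ _) (hρ _))
  have key : ∀ x y : G.Pt s, ∃ c : k, c ≠ 0 ∧ ∀ i,
      eval (Sum.elim (φ x).crd (φ y).crd) (rename (Sum.map ε.symm ε.symm) (F i)) =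
        c * eval (Sum.elim (cc fun γ : Γ => ρ (x + γ)) (cc fun γ : Γ => ρ (y + γ))) (F i) := by
    intro x y
    obtain ⟨c, hc, e⟩ := (h x _ fun γ => hρ (x + γ)).exists_smul (φ x).is_crd
    obtain ⟨c', hc', e'⟩ := (h y _ fun γ => hρ (y + γ)).exists_smul (φ y).is_crd
    refine ⟨c ^ d'.1 * c' ^ d'.2, mul_ne_zero (pow_ne_zero _ hc) (pow_ne_zero _ hc'), fun i => ?_⟩
    rw [e, e', Prod_bihom (Prod_bihom_rename (hF i) _ _), eval_rename]
    congr 3
    funext t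
    cases t <;> simp
  refine ⟨fun i => rename (Sum.map ε.symm ε.symm) (F i), d', r,
    fun i => Prod_bihom_rename (hF i) _ _, ?_, fun x y hxy => ?_⟩
  · obtain ⟨c, hc, e⟩ := key a b
    rw [e]
    exact mul_ne_zero hc hr
  · refine Chow3_is (fun e => hxy (congrFun e r)) fun i j => ?_
    obtain ⟨c, -, e⟩ := key x y
    have := hc (x, y) i j
    simp only [e, mul_assoc] at this ⊢
    rw [this]

theorem Chow3_add {G : PG.{u}} {s : G.Str k} {Γ : AddSubgroup (G.Pt s)} [Fintype Γ]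
    {ε : Fin (n + 1) ≃ Mon G.σ Γ} {φ : G.Pt s → PP k n} (h : IsChow Γ ε φ) (a b : G.Pt s) :
    ∃ (F : Fin (n + 1) → MvPolynomial (Fin (n + 1) ⊕ Fin (n + 1)) k) (d' : ℕ × ℕ) (r : Fin (n + 1)),
      (∀ r, Bihom (F r) d') ∧ eval (Sum.elim (φ a).crd (φ b).crd) (F r) ≠ 0 ∧
      ∀ x y, eval (Sum.elim (φ x).crd (φ y).crd) (F r) ≠ 0 →
        (φ (x + y)).Is fun i => eval (Sum.elim (φ x).crd (φ y).crd) (F i) := by
  obtain ⟨w₀, d₀, h1, h2, h3⟩ := h.loc (a + b)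
  obtain ⟨v, hv⟩ := G.ax.exists_rep a
  obtain ⟨w, hw⟩ := G.ax.exists_rep b
  obtain ⟨j, i₁, hi⟩ := G.ax.Φ_cover hv hw
  obtain ⟨d, hd⟩ := G.ax.Φ_hom j
  obtain ⟨r, hr⟩ := Function.ne_iff.1 (h2 _ (G.ax.Φ_rep j hv hw ⟨i₁, hi⟩))
  refine Chow3_core h (fun x y => φ (x + y)) (fun x y γ γ' => h.eq_iff.2 ?_) a b
    (fun r => G.Φ s j i₁ * bind₁ (G.Φ s j) (w₀ r)) (d + (multiplesHom _ d) d₀)
    (fun r => (hd s i₁).mul (Chow3_bind _ (h1 r) fun i => by
      rw [Pi.one_apply, multiplesHom_apply, one_smul]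
      exact hd s i))
    ⟨v, w, r, hv, hw, ?_⟩ fun x y v' w' hx hy => ?_
  · rw [show x + γ + (y + γ') - (x + y) = γ + γ' by abel]
    exact Γ.add_mem γ.2 γ'.2
  · rw [map_mul, Chow3_eval]
    exact mul_ne_zero hi.ne_zero hr
  · simp only [map_mul, Chow3_eval]
    exact Chow3_crs _ fun c1 c2 => h3 _ _ (G.ax.Φ_rep j hx hy ⟨i₁, c1.isUnit⟩) c2

theorem Chow3_neg {G : PG.{u}} {s : G.Str k} {Γ : AddSubgroup (G.Pt s)} [Fintype Γ]
    {ε : Fin (n + 1) ≃ Mon G.σ Γ} {φ : G.Pt s → PP k n} (h : IsChow Γ ε φ) (a : G.Pt s) :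
    ∃ (F : Fin (n + 1) → MvPolynomial (Fin (n + 1)) k) (d' : ℕ) (r : Fin (n + 1)),
      (∀ r, (F r).IsHomogeneous d') ∧ eval (φ a).crd (F r) ≠ 0 ∧
      ∀ x, eval (φ x).crd (F r) ≠ 0 → (φ (-x)).Is fun i => eval (φ x).crd (F i) := by
  obtain ⟨w₀, d₀, h1, h2, h3⟩ := h.loc (-a)
  obtain ⟨v, hv⟩ := G.ax.exists_rep a
  obtain ⟨w, hw⟩ := G.ax.exists_rep (0 : G.Pt s)
  obtain ⟨j, i₁, hi⟩ := G.ax.N_cover hv
  obtain ⟨d, hd⟩ := G.ax.N_hom j
  obtain ⟨r, hr⟩ := Function.ne_iff.1 (h2 _ (G.ax.N_rep j hv ⟨i₁, hi⟩))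
  have hh : ∀ r, (G.N s j i₁ * bind₁ (G.N s j) (w₀ r)).IsHomogeneous (d + (multiplesHom _ d) d₀) :=
    fun r => (hd s i₁).mul (Chow3_bind _ (h1 r) fun i => by
      rw [Pi.one_apply, multiplesHom_apply, one_smul]
      exact hd s i)
  obtain ⟨F, d', r', hF, h4, h5⟩ := Chow3_core h (fun x _ => φ (-x))
    (fun x y γ γ' => h.eq_iff.2 (by
      rw [show -(x + γ) - -x = -γ by abel]
      exact Γ.neg_mem γ.2)) a 0
    (fun r => bind₁ (fun i => X (Sum.inl i)) (G.N s j i₁ * bind₁ (G.N s j) (w₀ r)))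
    (AddMonoidHom.inl ℕ ℕ (d + (multiplesHom _ d) d₀))
    (fun r => Chow3_bind _ (hh r) fun i => isWeightedHomogeneous_X k _ (Sum.inl i))
    ⟨v, w, r, hv, hw, by
      simp only [map_mul, Chow3_eval, eval_X, Sum.elim_inl]
      exact mul_ne_zero hi.ne_zero hr⟩ fun x y v' w' hx hy => by
      simp only [map_mul, Chow3_eval, eval_X, Sum.elim_inl]
      exact Chow3_crs _ fun c1 c2 => h3 _ _ (G.ax.N_rep j hx ⟨i₁, c1.isUnit⟩) c2
  have e : ∀ (u : Fin (n + 1) → k) i, eval u (bind₁ (Sum.elim X fun t => C ((φ 0).crd t)) (F i)) =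
      eval (Sum.elim u (φ 0).crd) (F i) := fun u i => by
    rw [Chow3_eval]
    congr 2
    funext t
    cases t <;> simp
  refine ⟨fun i => bind₁ (Sum.elim X fun t => C ((φ 0).crd t)) (F i), d'.1, r',
    fun i => Chow3_bind (AddMonoidHom.fst ℕ ℕ) (hF i) ?_, by rwa [e], fun x hx => ?_⟩
  · rintro (t | t)
    · exact isWeightedHomogeneous_X k _ t
    · exact isWeightedHomogeneous_C _ _
  · simp only [e] at hx ⊢
    exact h5 x 0 hx

theorem PG.IsChow.exists_av {G : PG.{u}} {s : G.Str k} {Γ : AddSubgroup (G.Pt s)} [Fintype Γ]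
    {ε : Fin (n + 1) ≃ Mon G.σ Γ} {φ : G.Pt s → PP k n} (h : IsChow Γ ε φ)
    {D : AddSubgroup (G.Pt s)} (hD : Var (D : Set (G.Pt s))) (hΓ : Γ ≤ D) :
    ∃ (B : AV k n) (f : D →+ B.pts), Function.Surjective f ∧ ∀ x : D, (f x).1 = φ x := by
  have _ := hΓ
  let f₀ : D → φ '' (D : Set (G.Pt s)) := fun x => ⟨φ x, x, x.2, rfl⟩
  have hs : Function.Surjective f₀ := by
    rintro ⟨_, x, hx, rfl⟩
    exact ⟨⟨x, hx⟩, rfl⟩
  obtain ⟨g, hg⟩ := Chow3_grp f₀ hs (Γ.addSubgroupOf D) fun x y =>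
    Subtype.ext_iff.trans h.eq_iff
  let f : D →+ φ '' (D : Set (G.Pt s)) := AddMonoidHom.mk' f₀ hg
  refine ⟨@AV.mk k _ n (φ '' (D : Set (G.Pt s))) (h.closed hD).1 (h.closed hD).2 g ?_ ?_, f, hs,
    fun _ => rfl⟩
  · intro p q
    obtain ⟨a, rfl⟩ := hs p
    obtain ⟨b, rfl⟩ := hs q
    obtain ⟨F, d, r, h1, h2, h3⟩ := Chow3_add h a.1 b.1
    refine ⟨F r, F, d, d, h1 r, h1, h2, fun p q hpq => ?_⟩
    obtain ⟨x, rfl⟩ := hs p
    obtain ⟨y, rfl⟩ := hs q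
    beta_reduce
    rw [← hg]
    exact h3 x y hpq
  · intro p
    obtain ⟨a, rfl⟩ := hs p
    obtain ⟨F, d, r, h1, h2, h3⟩ := Chow3_neg h a.1
    refine ⟨F r, F, d, d, h1 r, h1, h2, fun p hp => ?_⟩
    obtain ⟨x, rfl⟩ := hs p
    have e : -f₀ x = f₀ (-x) := (f.map_neg x).symm
    beta_reduce
    rw [e]
    exact h3 x hp

end MLF
end

-- merged part: Pool.Agent.Work.MP_29d410_ag.Reg
section
/-!
# Regular maps and their graphs

Plan.  `RegOn.var_graph`: let `ξ` over `T` be generic in `X`.  For two local formulas `w`, `w'` the forms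
`w a * w' b - w b * w' a` and the forms `eqn i (w)` vanish on `X`, so at `ξ`; all local formulas give the same
point `η` at `ξ`, and a place reducing `ξ` to `x` reduces `η` to `ψ x`; so the graph is `loc (ξ, η)`
(`mem_loc_iff`, `Place.red_prod`, `var_loc`).
-/

open MvPolynomial

namespace MLF

universe u

namespace PG

variable {A B : PG.{u}} {k : Type u} [Field k] [IsAlgClosed k] {s : A.Str k} {t : B.Str k}

/-- A local formula for `ψ` on `X`. -/
def RegForm (X : Set (A.Pt s)) (ψ : A.Pt s → B.Pt t) (w : B.σ → MvPolynomial A.σ k) : Prop :=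
  (∃ d, ∀ i, (w i).IsHomogeneous d) ∧
    ∀ y ∈ X, ∀ v, A.Rep y v → (Uni fun i => eval v (w i)) → B.Rep (ψ y) fun i => eval v (w i)

section

variable {X : Set (A.Pt s)} {ψ : A.Pt s → B.Pt t} {w w' : B.σ → MvPolynomial A.σ k}

omit [IsAlgClosed k] in
theorem Reg_crs (h : RegForm X ψ w) (h' : RegForm X ψ w') (a b : B.σ) :
    w a * w' b - w b * w' a ∈ idl X := by
  obtain ⟨⟨d, hd⟩, hw⟩ := h
  obtain ⟨⟨d', hd'⟩, hw'⟩ := h'
  refine ⟨⟨d + d', ((hd a).mul (hd' b)).sub ((hd b).mul (hd' a))⟩, fun y hy v hv => ?_⟩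
  change eval v _ = 0
  rw [map_sub, map_mul, map_mul]
  by_cases h1 : Uni fun i => eval v (w i)
  · by_cases h2 : Uni fun i => eval v (w' i)
    · obtain ⟨c, -, e⟩ := B.ax.rep_uniq (hw y hy v hv h1) (hw' y hy v hv h2)
      have ea := congrFun e a
      have eb := congrFun e b
      simp only [Pi.smul_apply, smul_eq_mul] at ea eb
      rw [ea, eb]
      ring
    · have h3 : ∀ i, eval v (w' i) = 0 := fun i => by
        by_contra h0
        exact h2 ⟨i, Ne.isUnit h0⟩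
      rw [h3, h3]
      ring
  · have h3 : ∀ i, eval v (w i) = 0 := fun i => by
      by_contra h0
      exact h1 ⟨i, Ne.isUnit h0⟩
    rw [h3, h3]
    ring

omit [IsAlgClosed k] in
theorem Reg_eqn (h : RegForm X ψ w) (a : B.σ) (i : B.ι) :
    w a * eval₂ C w (B.eqn t i) ∈ idl X := by
  obtain ⟨⟨d, hd⟩, hw⟩ := h
  obtain ⟨e, he⟩ := B.ax.eqn_hom i
  refine ⟨⟨d + d * e, (hd a).mul ((he t).eval₂ _ _ (fun _ => isHomogeneous_C _ _) hd)⟩,
    fun y hy v hv => ?_⟩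
  rw [eval₂_mul, ← eval₂_assoc]
  by_cases h0 : eval v (w a) = 0
  · exact mul_eq_zero_of_left h0 _
  · exact mul_eq_zero_of_right _
      (((B.ax.rep_iff t _).1 ⟨_, hw y hy v hv ⟨a, Ne.isUnit h0⟩⟩).2 i)

variable {T : Type u} [Field T] {j : k →+* T} {ξ : A.Pt (A.push j s)}

omit [IsAlgClosed k] in
theorem Reg_exists (h : RegForm X ψ w) (hξ : ξ ∈ ext j _ X) {u : A.σ → T} (hu : A.Rep ξ u)
    (hw : Uni fun i => eval₂ j u (w i)) :
    ∃ η : B.Pt (B.push j t), B.Rep η fun i => eval₂ j u (w i) := by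
  refine (B.ax.rep_iff _ _).2 ⟨hw, fun i => ?_⟩
  obtain ⟨a, ha⟩ := hw
  have := hξ _ (Reg_eqn h a i) u hu
  rw [eval₂_mul, ← eval₂_assoc] at this
  rw [B.ax.eqn_push, eval_map]
  exact (mul_eq_zero.1 this).resolve_left ha.ne_zero

omit [IsAlgClosed k] in
theorem Reg_rep (h : RegForm X ψ w) (h' : RegForm X ψ w') (hξ : ξ ∈ ext j _ X) {u u' : A.σ → T}
    (hu : A.Rep ξ u) (hu' : A.Rep ξ u') {η : B.Pt (B.push j t)}
    (hη : B.Rep η fun i => eval₂ j u (w i)) (hw : Uni fun i => eval₂ j u' (w' i)) :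
    B.Rep η fun i => eval₂ j u' (w' i) := by
  obtain ⟨η', hη'⟩ := Reg_exists h' hξ hu' hw
  obtain ⟨c, hc, rfl⟩ := A.ax.rep_uniq hu hu'
  obtain ⟨a, ha⟩ := B.ax.rep_uni hη
  obtain ⟨d', hd'⟩ := h'.1
  have e : η = η' := PB_eq_of_prop hη hη'
    (c := c ^ d' * eval₂ j u (w' a) / eval₂ j u (w a)) fun b => by
      have h1 := hξ _ (Reg_crs h h' a b) u hu
      rw [eval₂_sub, eval₂_mul, eval₂_mul, sub_eq_zero] at h1
      have h2 := Prod_hom ((hd' b).map j) c u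
      rw [eval_map, eval_map] at h2
      have h3 := ha.ne_zero
      rw [h2]
      field_simp
      linear_combination c ^ d' * h1
  rw [e]
  exact hη'

omit [IsAlgClosed k] in
theorem Reg_uni (h : RegForm X ψ w) {x : A.Pt s} (hx : x ∈ loc j s ξ) {v : A.σ → k}
    (hv : A.Rep x v) (hw : Uni fun i => eval v (w i)) {u : A.σ → T} (hu : A.Rep ξ u) :
    Uni fun i => eval₂ j u (w i) := by
  obtain ⟨a, ha⟩ := hw
  obtain ⟨d, hd⟩ := h.1
  refine ⟨a, Ne.isUnit fun h0 => ha.ne_zero ?_⟩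
  exact hx _ d (hd a) ((van_iff (hd a) hu).2 h0) v hv

end

theorem RegOn.var_graph {X : Set (A.Pt s)} {ψ : A.Pt s → B.Pt t} (h : RegOn X ψ) (hX : Var X) :
    Var (A := A.prod B) (s := (s, t)) {z | z.1 ∈ X ∧ z.2 = ψ z.1} := by
  obtain ⟨T, _, _, j, ξ, hloc, hξ⟩ := hX.exists_gen
  have hf : ∀ x ∈ X, ∃ w, RegForm X ψ w ∧ ∀ v, A.Rep x v → Uni fun i => eval v (w i) := by
    intro x hx
    obtain ⟨w, d, h1, h2, h3⟩ := h x hx
    exact ⟨w, ⟨⟨d, h1⟩, h3⟩, h2⟩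
  obtain ⟨x₀, hx₀⟩ := hX.2.1
  obtain ⟨w₀, hw₀, hw₀'⟩ := hf x₀ hx₀
  obtain ⟨v₀, hv₀⟩ := A.ax.exists_rep x₀
  obtain ⟨u₀, hu₀⟩ := A.ax.exists_rep ξ
  obtain ⟨η, hη⟩ := Reg_exists hw₀ hξ hu₀ (Reg_uni hw₀ (hloc ▸ hx₀) hv₀ (hw₀' _ hv₀) hu₀)
  have key : ∀ P : Place j (RingHom.id k), P.red rfl (B.ax.push_id t) η =
      ψ (P.red rfl (A.ax.push_id s) ξ) := by
    intro P
    have hx : P.red rfl (A.ax.push_id s) ξ ∈ loc j s ξ := (mem_loc_iff rfl).2 ⟨P, rfl⟩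
    obtain ⟨v, hv, -, hv'⟩ := (P.red_eq_iff rfl (A.ax.push_id s) (x := ξ)).1 rfl
    obtain ⟨w, hw, hw'⟩ := hf _ (hloc ▸ hx)
    have h1 := hw' _ hv'
    have h2 := hw.2 _ (hloc ▸ hx) _ hv' h1
    have h3 := Reg_rep hw₀ hw hξ hu₀ hv hη (Reg_uni hw hx hv' h1 hv)
    have e1 : ∀ i, P.r (eval₂ P.jW v (w i)) = eval (P.r ∘ v) (w i) := fun i => by
      rw [eval₂_comp_left, show P.r.comp P.jW = RingHom.id k from RingHom.ext P.r_j]
      rfl
    have e2 : ∀ i, ((eval₂ P.jW v (w i) : P.W) : T) = eval₂ j (fun l => (v l : T)) (w i) :=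
      fun i => eval₂_comp_left P.W.subtype P.jW v (w i)
    have hl : IsLocalHom P.r := IsLocalHom.of_surjective P.r fun c => ⟨_, P.r_j c⟩
    refine (P.red_eq_iff _ _).2 ⟨fun i => eval₂ P.jW v (w i), ?_, ?_, ?_⟩
    · simp only [e2]
      exact h3
    · obtain ⟨a, ha⟩ := h1
      refine ⟨a, hl.map_nonunit _ ?_⟩
      rw [e1]
      exact ha
    · have : (P.r ∘ fun i => eval₂ P.jW v (w i)) = fun i => eval (P.r ∘ v) (w i) := funext e1
      rw [this]
      exact h2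
  have hp : (A.prod B).push j (s, t) = (A.push j s, B.push j t) := prod_push rfl rfl
  have e : {z : (A.prod B).Pt (s, t) | z.1 ∈ X ∧ z.2 = ψ z.1} =
      loc (A := A.prod B) j (s, t) (s' := (A.push j s, B.push j t)) (ξ, η) := by
    ext z
    rw [mem_loc_iff (A := A.prod B) hp]
    constructor
    · rintro ⟨h1, h2⟩
      rw [← hloc] at h1
      obtain ⟨P, hP⟩ := (mem_loc_iff rfl).1 h1
      refine ⟨P, ?_⟩
      rw [P.red_prod]
      refine Prod.ext hP ?_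
      rw [h2, ← hP]
      exact key P
    · rintro ⟨P, rfl⟩
      rw [P.red_prod]
      refine ⟨?_, key P⟩
      rw [← hloc]
      exact (mem_loc_iff rfl).2 ⟨P, rfl⟩
  exact e ▸ var_loc (A := A.prod B) hp (ξ, η)

end PG

end MLF
end

-- merged part: Pool.Agent.Work.MP_29d410_ag.Chow4
section
/-!
# Quotients

Plan.  `exists_quot_fin`: `exists_isChow`, `exists_av`, `AV.exists_link`, `IsChow.loc`, `RegOn.var_graph`.
`exists_quot`: `S` the identity component of `Γ`, `π` a projector for `S ≤ D`, `A₁ = ran π`.  Then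
`D = A₁ + S` (`TorsFin.div`), `A₁ ⊓ Γ` is finite (`IsProj.idem`, `IdC.nsmul_mem`), `Γ = S + A₁ ⊓ Γ`.  Take
`Φ₁` for `A₁ ⊓ Γ ≤ A₁` and `Φ = Φ₁ ⊔ S × 0` (`Var.sup`, `Var.sprod`).
-/

open MvPolynomial

namespace MLF

universe u

open PG

variable {k : Type u} [Field k] [IsAlgClosed k]

theorem PG.exists_quot_fin {G : PG.{u}} {s : G.Str k} {D Γ : AddSubgroup (G.Pt s)}
    (hD : Var (D : Set (G.Pt s))) (hΓ : Γ ≤ D) (hf : (Γ : Set (G.Pt s)).Finite) :
    ∃ (B : SPG.{u}) (t : B.Str k) (Φ : AddSubgroup ((G.prod B.toPG).Pt (s, t))),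
      Var (Set.univ : Set (B.Pt t)) ∧ QH Φ ∧ dom Φ = D ∧ ran Φ = ⊤ ∧ ker Φ = Γ := by
  classical
  let _ : Fintype Γ := hf.fintype
  obtain ⟨n, ε, φ, hφ⟩ := exists_isChow Γ
  obtain ⟨B, f, hfs, hf1⟩ := hφ.exists_av hD hΓ
  obtain ⟨G', ε', t, e, -, hL⟩ := B.exists_link
  let ψ : G.Pt s → G'.Pt t := fun x => if h : x ∈ D then e (f ⟨x, h⟩) else 0
  have hψ : ∀ x (h : x ∈ D), ψ x = e (f ⟨x, h⟩) := fun x h => dif_pos h
  let Φ : AddSubgroup ((G.prod G'.toPG).Pt (s, t)) :=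
    (D.subtype.prod (e.toAddMonoidHom.comp f)).range
  have hΦ : ∀ x y, ((x, y) : (G.prod G'.toPG).Pt (s, t)) ∈ Φ ↔ ∃ h : x ∈ D, y = e (f ⟨x, h⟩) := by
    intro x y
    constructor
    · rintro ⟨a, ha⟩
      have h1 : a.1 = x := congrArg Prod.fst ha
      have h2 : e (f a) = y := congrArg Prod.snd ha
      subst h1
      exact ⟨a.2, h2.symm⟩
    · rintro ⟨h, rfl⟩
      exact ⟨⟨x, h⟩, rfl⟩
  have hreg : RegOn (D : Set (G.Pt s)) ψ := by
    intro x _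
    obtain ⟨w, d, hw, hu, hr⟩ := hφ.loc x
    refine ⟨fun i => w (ε'.symm i), d, fun i => hw _, fun v hv => Dict_uni.2 fun h0 => hu v hv ?_,
      fun y hy v hv hU => ?_⟩
    · funext i
      simpa using congrFun h0 (ε' i)
    · have h0 : (fun i => eval v (w i)) ≠ 0 := fun h0 => Dict_uni.1 hU (by
        funext i
        exact congrFun h0 (ε'.symm i))
      have h1 := hr y v hv h0
      rw [← hf1 ⟨y, hy⟩] at h1
      rw [hψ y hy]
      exact hL.rep_iff.2 h1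
  have hset : (Φ : Set ((G.prod G'.toPG).Pt (s, t))) = {z | z.1 ∈ (D : Set (G.Pt s)) ∧ z.2 = ψ z.1} := by
    ext ⟨x, y⟩
    refine (hΦ x y).trans ⟨?_, ?_⟩
    · rintro ⟨h, e1⟩
      exact ⟨h, e1.trans (hψ x h).symm⟩
    · rintro ⟨h, e1⟩
      exact ⟨h, e1.trans (hψ x h)⟩
  refine ⟨G', t, Φ, hL.var_univ, ⟨?_, fun y hy => ?_⟩, ?_, ?_, ?_⟩
  · rw [hset]
    exact hreg.var_graph hD
  · obtain ⟨h, rfl⟩ := (hΦ _ _).1 hy
    have : (⟨0, h⟩ : D) = 0 := rfl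
    rw [this, map_zero, map_zero]
  · ext x
    rw [mem_dom]
    exact ⟨fun ⟨y, hy⟩ => ((hΦ _ _).1 hy).1, fun h => ⟨_, (hΦ _ _).2 ⟨h, rfl⟩⟩⟩
  · refine eq_top_iff.2 fun y _ => ?_
    obtain ⟨b, rfl⟩ := e.surjective y
    obtain ⟨a, rfl⟩ := hfs b
    exact mem_ran.2 ⟨a.1, (hΦ _ _).2 ⟨a.2, rfl⟩⟩
  · have key : ∀ a : D, f a = 0 ↔ a.1 ∈ Γ := fun a => by
      have h0 : (0 : B.pts).1 = φ 0 := by
        rw [← map_zero f]
        exact hf1 0
      rw [← sub_zero a.1, ← hφ.eq_iff, ← hf1 a, ← h0]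
      exact Subtype.ext_iff
    ext x
    rw [mem_ker, hΦ]
    constructor
    · rintro ⟨h, e1⟩
      exact (key ⟨x, h⟩).1 (e.map_eq_zero_iff.1 e1.symm)
    · intro h
      exact ⟨hΓ h, by rw [(key ⟨x, hΓ h⟩).2 h, map_zero]⟩

theorem SPG.exists_quot (G : SPG.{u}) {s : G.Str k} (hs : G.TorsFin s) {D Γ : AddSubgroup (G.Pt s)}
    (hD : Var (D : Set (G.Pt s))) (hΓ : Γ ≤ D) (hc : Cl (Γ : Set (G.Pt s))) :
    ∃ (B : SPG.{u}) (t : B.Str k) (Φ : AddSubgroup ((G.toPG.prod B.toPG).Pt (s, t))),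
      Var (Set.univ : Set (B.Pt t)) ∧ QH Φ ∧ dom Φ = D ∧ ran Φ = ⊤ ∧ ker Φ = Γ := by
  obtain ⟨S, hS⟩ := exists_idc hc
  obtain ⟨N, P, hP⟩ := G.exists_proj hD hS.var (hS.le.trans hΓ)
  have hA : Var (ran P : Set (G.Pt s)) := var_ran hP.qh.var
  have hdec : ∀ x ∈ D, ∃ a ∈ ran P, x - a ∈ S := by
    intro x hx
    obtain ⟨x', hx', rfl⟩ := hs.div hD hP.ne hx
    obtain ⟨y, hy⟩ := mem_dom.1 (hP.dom.symm ▸ hx' : x' ∈ PG.dom P)
    exact ⟨y, mem_ran.2 ⟨_, hy⟩, hP.sub _ hy⟩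
  have hfin : ((ran P ⊓ Γ : AddSubgroup (G.Pt s)) : Set (G.Pt s)).Finite := by
    obtain ⟨n, hn, hn'⟩ := hS.nsmul_mem
    refine (hs (n * N) (mul_ne_zero hn hP.ne)).subset fun y hy => ?_
    change (n * N) • y = 0
    rw [mul_smul]
    exact uniq_of_inj hP.qh.inj (P.nsmul_mem (hP.idem hy.1) n) (hP.kill _ (hn' _ hy.2))
  obtain ⟨B, t, Φ, hB, hq, hd, hr, hk⟩ := PG.exists_quot_fin hA inf_le_left hfin
  let Z : AddSubgroup ((G.toPG.prod B.toPG).Pt (s, t)) := S.prod ⊥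
  have hZ : Var (A := G.toPG.prod B.toPG) (s := (s, t)) Z := hS.var.sprod (var_singleton (0 : B.Pt t))
  have hmem : ∀ x y, ((x, y) : (G.toPG.prod B.toPG).Pt (s, t)) ∈ Φ ⊔ Z ↔
      ∃ a, ((a, y) : (G.toPG.prod B.toPG).Pt (s, t)) ∈ Φ ∧ x - a ∈ S := by
    intro x y
    rw [AddSubgroup.mem_sup]
    constructor
    · rintro ⟨⟨a, y'⟩, ha, ⟨b, c⟩, ⟨hb, hc⟩, e⟩
      have h1 : a + b = x := congrArg Prod.fst e
      have h2 : y' + c = y := congrArg Prod.snd e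
      have h3 : c = 0 := hc
      rw [h3, add_zero] at h2
      subst h1 h2
      exact ⟨a, ha, by rwa [add_sub_cancel_left]⟩
    · rintro ⟨a, ha, hb⟩
      exact ⟨(a, y), ha, (x - a, 0), ⟨hb, rfl⟩, Prod.ext (add_sub_cancel _ _) (add_zero _)⟩
  have hdom : ∀ {a y}, ((a, y) : (G.toPG.prod B.toPG).Pt (s, t)) ∈ Φ → a ∈ ran P := fun {a y} h =>
    hd ▸ mem_dom.2 ⟨y, h⟩
  refine ⟨B, t, Φ ⊔ Z, hB, ⟨Var.sup (A := G.toPG.prod B.toPG) hq.var hZ, fun y hy => ?_⟩, ?_, ?_, ?_⟩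
  · obtain ⟨a, ha, hb⟩ := (hmem _ _).1 hy
    have h1 : a ∈ S := by simpa using hb
    have h2 : a ∈ ker Φ := hk ▸ ⟨hdom ha, hS.le h1⟩
    exact uniq_of_inj hq.inj ha (mem_ker.1 h2)
  · ext x
    rw [mem_dom]
    constructor
    · rintro ⟨y, hy⟩
      obtain ⟨a, ha, hb⟩ := (hmem _ _).1 hy
      simpa using D.add_mem (hP.le hb) (hP.ran_le (hdom ha))
    · intro hx
      obtain ⟨a, ha, hb⟩ := hdec x hx
      obtain ⟨y, hy⟩ := mem_dom.1 (hd.symm ▸ ha : a ∈ dom Φ)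
      exact ⟨y, (hmem _ _).2 ⟨a, hy, hb⟩⟩
  · refine eq_top_iff.2 fun y _ => ?_
    obtain ⟨a, ha⟩ := mem_ran.1 (hr.symm ▸ AddSubgroup.mem_top y : y ∈ ran Φ)
    exact mem_ran.2 ⟨a, (hmem _ _).2 ⟨a, ha, by simp⟩⟩
  · ext x
    rw [mem_ker, hmem]
    constructor
    · rintro ⟨a, ha, hb⟩
      have h2 : a ∈ ran P ⊓ Γ := hk ▸ mem_ker.2 ha
      simpa using Γ.add_mem (hS.le hb) h2.2
    · intro hx
      obtain ⟨a, ha, hb⟩ := hdec x (hΓ hx)
      have h1 : a ∈ Γ := by simpa using Γ.sub_mem hx (hS.le hb)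
      have h2 : a ∈ ker Φ := hk ▸ ⟨ha, h1⟩
      exact ⟨a, mem_ker.1 h2, hb⟩

end MLF
end
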