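import Mathlib

/-!
# Abelian varieties in classical language, and special subvarieties

The base fields are meant to be algebraically closed; a variety is identified with its set of
rational points.
-/

open MvPolynomial

namespace MLF

universe u

/-- Points of projective `n`-space. -/
def PP (k : Type u) [Field k] (n : ℕ) : Type u := Projectivization k (Fin (n + 1) → k)

variable {k k' : Type u} [Field k] [Field k'] {n m : ℕ}

/-- A vector of homogeneous coordinates of a point. -/
noncomputable def PP.crd (x : PP k n) : Fin (n + 1) → k := Projectivization.rep x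

/-- `v` is a vector of homogeneous coordinates of `x`. -/
def PP.Is (x : PP k n) (v : Fin (n + 1) → k) : Prop := ∃ h : v ≠ 0, x = Projectivization.mk k v h

/-- The Zariski topology. -/
instance zariski : TopologicalSpace (PP k n) :=
  .generateFrom {U | ∃ (g : MvPolynomial (Fin (n + 1)) k) (d : ℕ), g.IsHomogeneous d ∧
    U = {x | eval x.crd g ≠ 0}}

/-- Let `e` be the inclusion of a subset `X` of projective space.  A map from `X` to projective
space is regular if near every point it is given by forms of one degree. -/
def Reg {X : Type u} (e : X → PP k n) (φ : X → PP k m) : Prop :=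
  ∀ x : X, ∃ (G : MvPolynomial (Fin (n + 1)) k) (F : Fin (m + 1) → MvPolynomial (Fin (n + 1)) k)
    (d d' : ℕ), G.IsHomogeneous d ∧ (∀ i, (F i).IsHomogeneous d') ∧ eval (e x).crd G ≠ 0 ∧
      ∀ y : X, eval (e y).crd G ≠ 0 → (φ y).Is fun i => eval (e y).crd (F i)

/-- Bihomogeneous of bidegree `d` in two sets of variables. -/
def Bihom {S σ τ : Type*} [CommSemiring S] (g : MvPolynomial (σ ⊕ τ) S) (d : ℕ × ℕ) : Prop :=
  g.IsWeightedHomogeneous (Sum.elim (fun _ => ((1, 0) : ℕ × ℕ)) fun _ => (0, 1)) d

/-- Evaluation of a polynomial in two sets of variables at the coordinates of two points. -/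
noncomputable abbrev PP.ev₂ (x y : PP k n) (g : MvPolynomial (Fin (n + 1) ⊕ Fin (n + 1)) k) : k :=
  eval (Sum.elim x.crd y.crd) g

/-- A map from `X × X` to projective space is regular if near every pair of points it is given by
bihomogeneous forms of one bidegree. -/
def Reg₂ {X : Type u} (e : X → PP k n) (φ : X → X → PP k m) : Prop :=
  ∀ x y : X, ∃ (G : MvPolynomial (Fin (n + 1) ⊕ Fin (n + 1)) k)
    (F : Fin (m + 1) → MvPolynomial (Fin (n + 1) ⊕ Fin (n + 1)) k) (d d' : ℕ × ℕ),
    Bihom G d ∧ (∀ i, Bihom (F i) d') ∧ PP.ev₂ (e x) (e y) G ≠ 0 ∧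
      ∀ x' y' : X, PP.ev₂ (e x') (e y') G ≠ 0 → (φ x' y').Is fun i => PP.ev₂ (e x') (e y') (F i)

/-- An abelian variety: an irreducible closed subset of projective space with a commutative
group law whose addition and inversion are regular. -/
structure AV (k : Type u) [Field k] (n : ℕ) where
  pts : Set (PP k n)
  closed : IsClosed pts
  irred : IsIrreducible pts
  [grp : AddCommGroup pts]
  add_reg : Reg₂ (fun x : pts => x.1) fun x y => (x + y).1
  neg_reg : Reg (fun x : pts => x.1) fun x => (-x).1

attribute [instance] AV.grp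

/-- A subvariety: an irreducible closed subset. -/
def IsSubvar {A : AV k n} (X : Set A.pts) : Prop := IsClosed X ∧ IsIrreducible X

/-- The base change along `j` of a subset of projective space: the common zeros of the forms
(over the small field) which vanish on it. -/
def bc (j : k →+* k') (X : Set (PP k n)) : Set (PP k' n) :=
  {y | ∀ (g : MvPolynomial (Fin (n + 1)) k) (d : ℕ), g.IsHomogeneous d →
    (∀ x ∈ X, eval x.crd g = 0) → eval₂ j y.crd g = 0}

/-- `B` is the base change of `B₀` along `j`: it has the same equations, and its group law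
extends that of `B₀`. -/
def IsBC (j : k →+* k') (B₀ : AV k n) (B : AV k' n) : Prop :=
  B.pts = bc j B₀.pts ∧ ∃ i : B₀.pts →+ B.pts, ∀ x, (i x).1.Is (j ∘ x.1.crd)

/-- Homomorphisms of groups from a subgroup of `A` to `B`. -/
def Hom {A : AV k n} (A' : AddSubgroup A.pts) (B : AV k m) : Type u := A' →+ B.pts

/-- The underlying map. -/
def Hom.app {A : AV k n} {A' : AddSubgroup A.pts} {B : AV k m} (h : Hom A' B) (a : A') : B.pts :=
  (show A' →+ B.pts from h) a

/-- A surjective homomorphism which is a regular map. -/
def Hom.SurjReg {A : AV k n} {A' : AddSubgroup A.pts} {B : AV k m} (h : Hom A' B) : Prop :=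
  Function.Surjective h.app ∧ Reg (fun a : A' => a.1.1) fun a => (h.app a).1

/-- The set `g + h⁻¹ (Y)`. -/
def Hom.pre {A : AV k n} {A' : AddSubgroup A.pts} {B : AV k m} (h : Hom A' B) (g : A.pts)
    (Y : Set (PP k m)) : Set A.pts := {x | ∃ a : A', (h.app a).1 ∈ Y ∧ x = g + a.1}

/-- `X` is special with respect to the field extension `j`: `X = g + h⁻¹(X₀ base-changed)`, where
`h` is a surjective homomorphism from an abelian subvariety `A'` of `A` onto the base change of an
abelian variety `B₀` over the small field and `X₀` is a subvariety of `B₀`. -/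
def IsSpecial (j : k →+* k') (A : AV k' n) (X : Set A.pts) : Prop :=
  ∃ (g : A.pts) (A' : AddSubgroup A.pts) (m : ℕ) (B₀ : AV k m) (B : AV k' m) (h : Hom A' B)
    (X₀ : Set B₀.pts), IsSubvar (A' : Set A.pts) ∧ IsBC j B₀ B ∧ h.SurjReg ∧ IsSubvar X₀ ∧
    X = h.pre g (bc j (Subtype.val '' X₀))

/-- A subgroup of finite rank. -/
def FinRank {G : Type u} [AddCommGroup G] (Λ : AddSubgroup G) : Prop :=
  Module.Finite ℚ (TensorProduct ℤ ℚ Λ)

end MLF
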