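import Mathlib
import Pool.Agent.Work.MP_29d410_ag.Stmt

-- merged part: Pool.Agent.Work.MP_29d410_ag.PG
section
-- merged part: Pool.Agent.Work.MP_29d410_ag.Fld
section
/-!
# Field theory: definitions (linear disjointness, algebraic closure, rank, roots)
-/

namespace MLF

universe u

variable {Ω Ω' : Type u} [Field Ω] [Field Ω']

/-- `a` is linearly independent over the subfield `k`. -/
def Ind (k : Subfield Ω) {R : Type u} [CommRing R] (c : Ω →+* R) {n : ℕ} (a : Fin n → R) : Prop :=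
  ∀ b : Fin n → Ω, (∀ i, b i ∈ k) → ∑ i, c (b i) * a i = 0 → ∀ i, b i = 0

/-- `E₁` and `E₂` are linearly disjoint over `k` (meant: `k ≤ E₁`, `k ≤ E₂`). -/
def LD (k E₁ E₂ : Subfield Ω) : Prop :=
  ∀ (n : ℕ) (a : Fin n → Ω), (∀ i, a i ∈ E₁) → Ind k (RingHom.id Ω) a → Ind E₂ (RingHom.id Ω) a

/-- The relative algebraic closure of a subfield. -/
noncomputable def acl (E : Subfield Ω) : Subfield Ω := (algebraicClosure E Ω).toSubfield

/-- The subfield generated by a subfield and a set. -/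
def adj (E : Subfield Ω) (s : Set Ω) : Subfield Ω := Subfield.closure (E ∪ s)

/-- Transcendence degree over `E` of (the field generated by) a set. -/
noncomputable def rk (E : Subfield Ω) (s : Set Ω) : ℕ∞ := (AlgebraicIndependent.matroid E Ω).eRk s

/-- The `p ^ m`-th roots of the elements of `E`. -/
def root (p : ℕ) [ExpChar Ω p] (m : ℕ) (E : Subfield Ω) : Subfield Ω :=
  E.comap (iterateFrobenius Ω p m)

/-- An independent family of embeddings over the subfield `k`. -/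
def IndepFam (k : Subfield Ω') {ι : Type} (ψ : ι → (Ω →+* Ω')) : Prop :=
  ∀ i, LD k (ψ i).fieldRange (k ⊔ ⨆ i' : {i' // i' ≠ i}, (ψ i').fieldRange)

/-- The valuation ring `W` is commensurable with `t` on the subfield `E`. -/
def Comm (W : ValuationSubring Ω) (t : Ω) (E : Subfield Ω) : Prop :=
  t ≠ 0 ∧ W.valuation t < 1 ∧
    ∀ z ∈ E, z ≠ 0 → ∃ (n : ℕ) (m : ℤ), 0 < n ∧ W.valuation z ^ n = W.valuation t ^ m

/-- The algebraic closure of the field of Laurent series. -/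
abbrev Big (k : Type u) [Field k] : Type u := AlgebraicClosure (FractionRing (PowerSeries k))

/-- The embedding of power series. -/
noncomputable def ιB (k : Type u) [Field k] : PowerSeries k →+* Big k :=
  algebraMap (PowerSeries k) (Big k)

/-- The constants. -/
noncomputable def cB (k : Type u) [Field k] : k →+* Big k := (ιB k).comp PowerSeries.C

/-- The algebraic closure in `Big Ω` of the Laurent series with coefficients in `κ`. -/
noncomputable def serF (κ : Subfield Ω) : Subfield (Big Ω) :=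
  acl (Subfield.closure (Set.range fun f : PowerSeries κ => ιB Ω (f.map κ.subtype)))

end MLF
end

-- merged part: Pool.Agent.Work.MP_29d410_ag.LD1
section
/-!
# Linear disjointness: elementary properties

`LD k E₁ E₂` can be compared with `IntermediateField.LinearDisjoint` (take `k` as base field,
`Subfield.extendScalars`), or handled directly: it says that `E₁ ⊗[k] E₂ → Ω` is injective.
`LD.hom`: the subring generated by `E₁` and `E₂` is the image of the tensor product.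
`LD.acl`: `acl E₁ ⊗ acl E₂` is a domain (`tensor_domain`), integral over `E₁ ⊗ E₂`; the kernel of
its map to `Ω` is a prime lying over zero.
`tensor_domain`: for finitely generated subalgebras `R₁ ⊆ T₁`; if `(∑ a i ⊗ b i)(∑ a' j ⊗ b' j) = 0`
with `b`, `b'` independent, then for each maximal ideal of `R₁` (residue field `k` by the
Nullstellensatz) all `a i` or all `a' j` vanish; so every product `a i * a' j` is in the Jacobson
radical of `R₁`, which is zero.
-/

namespace MLF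

universe u

variable {Ω Ω' : Type u} [Field Ω] [Field Ω'] {k E E₁ E₂ F : Subfield Ω}

theorem mem_acl {z : Ω} : z ∈ acl E ↔ IsAlgebraic E z := mem_algebraicClosure_iff

theorem le_acl (E : Subfield Ω) : E ≤ acl E := fun z hz =>
  mem_acl.2 (isAlgebraic_algebraMap (⟨z, hz⟩ : E))

theorem acl_mono (h : E₁ ≤ E₂) : acl E₁ ≤ acl E₂ := fun _ hz =>
  mem_acl.2 ((mem_acl.1 hz).ringHom_of_comp_eq (Subfield.inclusion h) (RingHom.id Ω)
    (Subfield.inclusion h).injective rfl)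

theorem acl_acl (E : Subfield Ω) : acl (acl E) = acl E := by
  refine le_antisymm (fun z hz => mem_acl.2 ?_) (le_acl _)
  have h : IsAlgebraic (algebraicClosure E Ω) z := mem_acl.1 hz
  exact h.restrictScalars E

instance acl_algClosed [IsAlgClosed Ω] (E : Subfield Ω) : IsAlgClosed (acl E) :=
  IsAlgClosure.isAlgClosed (R := E) (K := algebraicClosure E Ω)

theorem acl_eq [IsAlgClosed E] : acl E = E := by
  refine le_antisymm (fun z hz => ?_) (le_acl _)
  have h : z ∈ algebraicClosure E Ω := hz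
  rw [IntermediateField.eq_bot_of_isAlgClosed_of_isAlgebraic (algebraicClosure E Ω),
    IntermediateField.mem_bot] at h
  obtain ⟨y, rfl⟩ := h
  exact y.2

/-- A subfield is isomorphic to its image. -/
noncomputable def LD1_equiv (ψ : Ω →+* Ω') (E : Subfield Ω) : E ≃+* E.map ψ :=
  E.toSubring.equivMapOfInjective ψ ψ.injective

theorem mem_acl_map (ψ : Ω →+* Ω') {z : Ω} : ψ z ∈ acl (E.map ψ) ↔ z ∈ acl E := by
  rw [mem_acl, mem_acl]
  exact isAlgebraic_ringHom_iff_of_comp_eq (LD1_equiv ψ E) ψ ψ.injective rfl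

theorem map_acl (ψ : Ω →+* Ω') (E : Subfield Ω) : (acl E).map ψ ≤ acl (E.map ψ) := by
  rintro _ ⟨z, hz, rfl⟩
  exact (mem_acl_map ψ).2 hz

theorem algClosed_map (ψ : Ω →+* Ω') (E : Subfield Ω) [IsAlgClosed E] : IsAlgClosed (E.map ψ) :=
  IsAlgClosed.of_ringEquiv E _ (LD1_equiv ψ E)

theorem map_acl_eq [IsAlgClosed Ω] (ψ : Ω →+* Ω') (E : Subfield Ω) :
    (acl E).map ψ = acl (E.map ψ) := by
  have := algClosed_map ψ (acl E)
  refine le_antisymm (map_acl ψ E) ?_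
  rw [← acl_eq (E := (acl E).map ψ)]
  refine acl_mono ?_
  rintro _ ⟨z, hz, rfl⟩
  exact ⟨z, le_acl E hz, rfl⟩

instance fieldRange_algClosed [IsAlgClosed Ω] (ψ : Ω →+* Ω') : IsAlgClosed ψ.fieldRange :=
  IsAlgClosed.of_ringEquiv Ω _ ψ.rangeRestrictFieldEquiv

theorem le_adj (E : Subfield Ω) (s : Set Ω) : E ≤ adj E s := fun _ hz =>
  Subfield.subset_closure (.inl hz)

theorem subset_adj (E : Subfield Ω) (s : Set Ω) : s ⊆ adj E s := fun _ hz =>
  Subfield.subset_closure (.inr hz)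

theorem adj_le {s : Set Ω} : adj E s ≤ F ↔ E ≤ F ∧ s ⊆ F :=
  Subfield.closure_le.trans Set.union_subset_iff

theorem map_adj (ψ : Ω →+* Ω') (E : Subfield Ω) (s : Set Ω) :
    (adj E s).map ψ = adj (E.map ψ) (ψ '' s) := by
  rw [adj, adj, RingHom.map_field_closure, Set.image_union, Subfield.coe_map]

theorem mem_root (p : ℕ) [ExpChar Ω p] {m : ℕ} {z : Ω} : z ∈ root p m E ↔ z ^ p ^ m ∈ E := Iff.rfl

theorem root_mono (p : ℕ) [ExpChar Ω p] {m m' : ℕ} (h : m ≤ m') (h' : E ≤ F) :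
    root p m E ≤ root p m' F := by
  intro z hz
  obtain ⟨d, rfl⟩ := Nat.exists_eq_add_of_le h
  rw [mem_root] at hz ⊢
  rw [pow_add, pow_mul]
  exact pow_mem (h' hz) _

theorem root_root (p : ℕ) [ExpChar Ω p] (m m' : ℕ) :
    root p m (root p m' E) = root p (m + m') E := by
  ext z
  rw [mem_root, mem_root, mem_root, pow_add, pow_mul]

theorem LD1_map_frob (p : ℕ) [ExpChar Ω p] (E : Subfield Ω) [IsAlgClosed E] (m : ℕ) :
    E.map (iterateFrobenius Ω p m) = E := by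
  refine le_antisymm ?_ fun z hz => ?_
  · rintro _ ⟨z, hz, rfl⟩
    exact pow_mem hz _
  · obtain ⟨y, hy⟩ := IsAlgClosed.exists_pow_nat_eq (⟨z, hz⟩ : E) (expChar_pow_pos Ω p m)
    exact ⟨y, y.2, congrArg Subtype.val hy⟩

/-- The compositum of two perfect fields is perfect. -/
theorem root_sup (p : ℕ) [ExpChar Ω p] [IsAlgClosed E₁] [IsAlgClosed E₂] (m : ℕ) :
    root p m (E₁ ⊔ E₂) = E₁ ⊔ E₂ := by
  have h : (E₁ ⊔ E₂).map (iterateFrobenius Ω p m) = E₁ ⊔ E₂ := by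
    rw [Subfield.map_sup, LD1_map_frob, LD1_map_frob]
  conv_lhs => rw [root, ← h]
  exact Subfield.comap_map _ _

end MLF
end

-- merged part: Pool.Agent.Work.MP_29d410_ag.PG
section
/-!
# Projective group functors on local rings: definitions

`Str T` is the type of structure data over `T` (think: ring homomorphisms from a finitely
generated base ring), `Pt s` the group of points for the structure `s` over a local ring, and
`Rep x v` says that `v` is a unimodular vector of homogeneous coordinates of `x`.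
-/

open MvPolynomial

namespace MLF

universe u

/-- The data of a projective group functor. -/
structure PG₀ : Type (u + 1) where
  Str : (T : Type u) → [CommRing T] → Type u
  push : ∀ {T T' : Type u} [CommRing T] [CommRing T'], (T →+* T') → Str T → Str T'
  σ : Type
  [fin : Fintype σ]
  Pt : ∀ {T : Type u} [CommRing T] [IsLocalRing T], Str T → Type u
  grp : ∀ {T : Type u} [CommRing T] [IsLocalRing T] (s : Str T), AddCommGroup (Pt s)
  Rep : ∀ {T : Type u} [CommRing T] [IsLocalRing T] {s : Str T}, Pt s → (σ → T) → Prop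
  mapF : ∀ {T T' : Type u} [CommRing T] [IsLocalRing T] [CommRing T'] [IsLocalRing T']
    (φ : T →+* T') {s : Str T} {s' : Str T'}, push φ s = s' → Pt s → Pt s'
  ι : Type
  [finι : Finite ι]
  eqn : ∀ {T : Type u} [CommRing T], Str T → ι → MvPolynomial σ T
  κ : Type
  [finκ : Finite κ]
  Φ : ∀ {T : Type u} [CommRing T], Str T → κ → σ → MvPolynomial (σ ⊕ σ) T
  μ : Type
  [finμ : Finite μ]
  N : ∀ {T : Type u} [CommRing T], Str T → μ → σ → MvPolynomial σ T

attribute [instance] PG₀.fin PG₀.grp PG₀.finι PG₀.finκ PG₀.finμ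

/-- Some coordinate is a unit. -/
def Uni {T : Type u} [CommRing T] {σ : Type} (v : σ → T) : Prop := ∃ i, IsUnit (v i)

/-- The laws of a projective group functor. -/
structure PG₀.Ax (A : PG₀.{u}) : Prop where
  push_id : ∀ {T : Type u} [CommRing T] (s : A.Str T), A.push (RingHom.id T) s = s
  push_comp : ∀ {T T' T'' : Type u} [CommRing T] [CommRing T'] [CommRing T''] (φ : T →+* T')
    (ψ : T' →+* T'') (s : A.Str T), A.push ψ (A.push φ s) = A.push (ψ.comp φ) s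
  push_inj : ∀ {T T' : Type u} [CommRing T] [CommRing T'] (φ : T →+* T'),
    Function.Injective φ → Function.Injective (A.push φ)
  fg : ∀ {T : Type u} [CommRing T] (s : A.Str T), ∃ F : Finset T, ∀ R : Subring T,
    (F : Set T) ⊆ R → ∃ s' : A.Str R, A.push R.subtype s' = s
  rep_uni : ∀ {T : Type u} [CommRing T] [IsLocalRing T] {s : A.Str T} {x : A.Pt s} {v : A.σ → T},
    A.Rep x v → Uni v
  exists_rep : ∀ {T : Type u} [CommRing T] [IsLocalRing T] {s : A.Str T} (x : A.Pt s),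
    ∃ v, A.Rep x v
  rep_smul : ∀ {T : Type u} [CommRing T] [IsLocalRing T] {s : A.Str T} {x : A.Pt s} {v : A.σ → T}
    {c : T}, A.Rep x v → IsUnit c → A.Rep x (c • v)
  rep_uniq : ∀ {T : Type u} [CommRing T] [IsLocalRing T] {s : A.Str T} {x : A.Pt s}
    {v w : A.σ → T}, A.Rep x v → A.Rep x w → ∃ c : T, IsUnit c ∧ w = c • v
  rep_inj : ∀ {T : Type u} [CommRing T] [IsLocalRing T] {s : A.Str T} {x y : A.Pt s}
    {v : A.σ → T}, A.Rep x v → A.Rep y v → x = y
  rep_iff : ∀ {T : Type u} [CommRing T] [IsLocalRing T] (s : A.Str T) (v : A.σ → T),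
    (∃ x : A.Pt s, A.Rep x v) ↔ Uni v ∧ ∀ i, eval v (A.eqn s i) = 0
  rep_map : ∀ {T T' : Type u} [CommRing T] [IsLocalRing T] [CommRing T'] [IsLocalRing T']
    (φ : T →+* T') {s : A.Str T} {s' : A.Str T'} (h : A.push φ s = s') {x : A.Pt s} {v : A.σ → T},
    A.Rep x v → A.Rep (A.mapF φ h x) (φ ∘ v)
  map_add : ∀ {T T' : Type u} [CommRing T] [IsLocalRing T] [CommRing T'] [IsLocalRing T']
    (φ : T →+* T') {s : A.Str T} {s' : A.Str T'} (h : A.push φ s = s') (x y : A.Pt s),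
    A.mapF φ h (x + y) = A.mapF φ h x + A.mapF φ h y
  eqn_push : ∀ {T T' : Type u} [CommRing T] [CommRing T'] (φ : T →+* T') (s : A.Str T) (i : A.ι),
    A.eqn (A.push φ s) i = map φ (A.eqn s i)
  eqn_hom : ∀ i, ∃ d, ∀ {T : Type u} [CommRing T] (s : A.Str T), (A.eqn s i).IsHomogeneous d
  Φ_push : ∀ {T T' : Type u} [CommRing T] [CommRing T'] (φ : T →+* T') (s : A.Str T) (j : A.κ)
    (i : A.σ), A.Φ (A.push φ s) j i = map φ (A.Φ s j i)
  Φ_hom : ∀ j, ∃ d, ∀ {T : Type u} [CommRing T] (s : A.Str T) (i : A.σ), Bihom (A.Φ s j i) d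
  Φ_cover : ∀ {T : Type u} [CommRing T] [IsLocalRing T] {s : A.Str T} {x y : A.Pt s}
    {v w : A.σ → T}, A.Rep x v → A.Rep y w → ∃ j, Uni fun i => eval (Sum.elim v w) (A.Φ s j i)
  Φ_rep : ∀ {T : Type u} [CommRing T] [IsLocalRing T] {s : A.Str T} {x y : A.Pt s}
    {v w : A.σ → T} (j : A.κ), A.Rep x v → A.Rep y w →
    (Uni fun i => eval (Sum.elim v w) (A.Φ s j i)) →
    A.Rep (x + y) fun i => eval (Sum.elim v w) (A.Φ s j i)
  N_push : ∀ {T T' : Type u} [CommRing T] [CommRing T'] (φ : T →+* T') (s : A.Str T) (j : A.μ)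
    (i : A.σ), A.N (A.push φ s) j i = map φ (A.N s j i)
  N_hom : ∀ j, ∃ d, ∀ {T : Type u} [CommRing T] (s : A.Str T) (i : A.σ),
    (A.N s j i).IsHomogeneous d
  N_cover : ∀ {T : Type u} [CommRing T] [IsLocalRing T] {s : A.Str T} {x : A.Pt s}
    {v : A.σ → T}, A.Rep x v → ∃ j, Uni fun i => eval v (A.N s j i)
  N_rep : ∀ {T : Type u} [CommRing T] [IsLocalRing T] {s : A.Str T} {x : A.Pt s}
    {v : A.σ → T} (j : A.μ), A.Rep x v → (Uni fun i => eval v (A.N s j i)) →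
    A.Rep (-x) fun i => eval v (A.N s j i)

/-- A projective group functor. -/
structure PG : Type (u + 1) extends PG₀.{u} where
  ax : toPG₀.Ax

/-- The product, through the Segre embedding. -/
@[reducible] noncomputable def PG₀.prod (A B : PG₀.{u}) : PG₀.{u} where
  Str T _ := A.Str T × B.Str T
  push φ s := (A.push φ s.1, B.push φ s.2)
  σ := A.σ × B.σ
  Pt s := A.Pt s.1 × B.Pt s.2
  grp _ := inferInstance
  Rep x z := ∃ v w, A.Rep x.1 v ∧ B.Rep x.2 w ∧ z = fun i => v i.1 * w i.2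
  mapF φ _ _ h x := (A.mapF φ (congrArg Prod.fst h) x.1, B.mapF φ (congrArg Prod.snd h) x.2)
  ι := ((A.σ × B.σ) × (A.σ × B.σ)) ⊕ (A.ι × B.σ) ⊕ (A.σ × B.ι)
  eqn s := Sum.elim (fun i => X i.1 * X i.2 - X (i.1.1, i.2.2) * X (i.2.1, i.1.2))
    (Sum.elim (fun i => rename (fun a => (a, i.2)) (A.eqn s.1 i.1))
      fun i => rename (fun b => (i.1, b)) (B.eqn s.2 i.2))
  κ := (A.κ × B.σ × B.σ) × (B.κ × A.σ × A.σ)
  Φ s j i :=
    rename (Sum.map (fun a => (a, j.1.2.1)) fun a => (a, j.1.2.2)) (A.Φ s.1 j.1.1 i.1) *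
      rename (Sum.map (fun b => (j.2.2.1, b)) fun b => (j.2.2.2, b)) (B.Φ s.2 j.2.1 i.2)
  μ := (A.μ × B.σ) × (B.μ × A.σ)
  N s j i := rename (fun a => (a, j.1.2)) (A.N s.1 j.1.1 i.1) *
    rename (fun b => (j.2.2, b)) (B.N s.2 j.2.1 i.2)

namespace PG

variable (A B : PG.{u}) {T T' : Type u} [CommRing T] [IsLocalRing T] [CommRing T'] [IsLocalRing T']
  {k : Type u} [Field k]

/-- Functoriality of points. -/
def map (φ : T →+* T') {s : A.Str T} {s' : A.Str T'} (h : A.push φ s = s') : A.Pt s →+ A.Pt s' :=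
  AddMonoidHom.mk' (A.mapF φ h) (A.ax.map_add φ h)

variable {A B}

/-- Congruence of points modulo an ideal (the structures may differ). -/
def Cong (𝔞 : Ideal T) {s s' : A.Str T} (x : A.Pt s) (y : A.Pt s') : Prop :=
  ∃ v w, A.Rep x v ∧ A.Rep y w ∧ ∀ i, v i - w i ∈ 𝔞

/-- The form `g` (over `k`) vanishes at `x`. -/
def van {k : Type u} [CommRing k] (j : k →+* T) (g : MvPolynomial A.σ k) {s : A.Str T}
    (x : A.Pt s) : Prop := ∀ v, A.Rep x v → eval₂ j v g = 0

/-- The forms vanishing on a set of points. -/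
def idl {s : A.Str k} (X : Set (A.Pt s)) : Set (MvPolynomial A.σ k) :=
  {g | (∃ d, g.IsHomogeneous d) ∧ ∀ x ∈ X, van (RingHom.id k) g x}

/-- The points with values in `T` of (the closure of) `X`. -/
def ext (j : k →+* T) (s' : A.Str T) {s : A.Str k} (X : Set (A.Pt s)) : Set (A.Pt s') :=
  {y | ∀ g ∈ idl X, van j g y}

/-- The locus over `k` of a point with values in `T`. -/
def loc (j : k →+* T) (s : A.Str k) {s' : A.Str T} (y : A.Pt s') : Set (A.Pt s) :=
  {x | ∀ (g : MvPolynomial A.σ k) (d : ℕ), g.IsHomogeneous d → van j g y → van (RingHom.id k) g x}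

/-- Zariski closed. -/
def Cl {s : A.Str k} (X : Set (A.Pt s)) : Prop := ext (RingHom.id k) s X ⊆ X

/-- Irreducible. -/
def Irr {s : A.Str k} (X : Set (A.Pt s)) : Prop :=
  X.Nonempty ∧ ∀ Y Z : Set (A.Pt s), Cl Y → Cl Z → X ⊆ Y ∪ Z → X ⊆ Y ∨ X ⊆ Z

/-- A variety: closed and irreducible. -/
def Var {s : A.Str k} (X : Set (A.Pt s)) : Prop := Cl X ∧ Irr X

/-- The ratios of the coordinates. -/
def rat {s : A.Str k} (x : A.Pt s) : Set k := {z | ∃ v i i', A.Rep x v ∧ z = v i / v i'}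

/-- The point is rational over the subfield `E`. -/
def Rat (E : Subfield k) {s : A.Str k} (x : A.Pt s) : Prop := rat x ⊆ E

/-- The structure is defined over the subfield `E`. -/
def Def (E : Subfield k) (s : A.Str k) : Prop := ∃ s' : A.Str E, A.push E.subtype s' = s

/-- Dimension. -/
noncomputable def dim {s : A.Str k} (X : Set (A.Pt s)) : ℕ :=
  sInf {n : ℕ | ∃ (T : Type u) (_ : Field T) (j : k →+* T) (y : A.Pt (A.push j s)),
    loc j s y = X ∧ rk j.fieldRange (rat y) = n}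

/-- A map which is locally given by forms on the set `X`. -/
def RegOn {s : A.Str k} {t : B.Str k} (X : Set (A.Pt s)) (ψ : A.Pt s → B.Pt t) : Prop :=
  ∀ x ∈ X, ∃ (w : B.σ → MvPolynomial A.σ k) (d : ℕ), (∀ i, (w i).IsHomogeneous d) ∧
    (∀ v, A.Rep x v → Uni fun i => eval v (w i)) ∧
    ∀ y ∈ X, ∀ v, A.Rep y v → (Uni fun i => eval v (w i)) → B.Rep (ψ y) fun i => eval v (w i)

/-- `y` is obtained from `x`, rational over `E`, by applying `δ` to the coordinates. -/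
def Via {E : Subfield k} (δ : E →+* T) {s : A.Str k} {s' : A.Str T} (x : A.Pt s) (y : A.Pt s') :
    Prop := ∃ v : A.σ → E, A.Rep x (fun i => (v i : k)) ∧ A.Rep y (δ ∘ v)

/-- `y` is the reduction of `x` under the homomorphism `r` of the valuation ring `W`. -/
def Red (W : ValuationSubring k) (r : W →+* T) {s : A.Str k} {s' : A.Str T} (x : A.Pt s)
    (y : A.Pt s') : Prop := ∃ v : A.σ → W, A.Rep x (fun i => (v i : k)) ∧ Uni v ∧ A.Rep y (r ∘ v)

/-- Two points (for possibly different structures) have the same reduction at `W`. -/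
def CongW (W : ValuationSubring k) {s s' : A.Str k} (x : A.Pt s) (y : A.Pt s') : Prop :=
  ∃ v w : A.σ → W, A.Rep x (fun i => (v i : k)) ∧ A.Rep y (fun i => (w i : k)) ∧ Uni v ∧
    ∀ i, W.valuation ((v i : k) - w i) < 1

/-- Two structures have good reduction at `W`, with the same reduction. -/
def StrW (W : ValuationSubring k) (s s' : A.Str k) : Prop :=
  ∃ t t' : A.Str W, A.push W.subtype t = s ∧ A.push W.subtype t' = s' ∧
    A.push (IsLocalRing.residue W) t = A.push (IsLocalRing.residue W) t'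

/-- All torsion subgroups are finite. -/
def TorsFin (s : A.Str k) : Prop := ∀ n : ℕ, n ≠ 0 → {x : A.Pt s | n • x = 0}.Finite

/-- The stabiliser. -/
def Stab {G : Type u} [AddCommGroup G] (X : Set G) : AddSubgroup G where
  carrier := {b | ∀ x, x ∈ X ↔ b + x ∈ X}
  zero_mem' := by simp
  add_mem' {a b} ha hb x := by rw [add_assoc, ← ha, ← hb]
  neg_mem' {a} ha x := by rw [ha (-a + x), add_neg_cancel_left]

/-- Points lift along complete thickenings of field valued points over `k`. -/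
def Lifts (s : A.Str k) : Prop :=
  ∀ (T F : Type u) [CommRing T] [IsLocalRing T] [Field F] (π : T →+* F) (j : k →+* F)
    (t : A.Str T) (h : A.push π t = A.push j s), Function.Surjective π →
    IsAdicComplete (RingHom.ker π) T → Function.Surjective (A.map π h)

end PG

/-- A place of `T` over `k` with values in `T'`. -/
structure Place {k T T' : Type u} [Field k] [Field T] [Field T'] (j : k →+* T) (j' : k →+* T') where
  W : ValuationSubring T
  mem : ∀ c, j c ∈ W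
  r : W →+* T'
  r_j : ∀ c, r ⟨j c, mem c⟩ = j' c

/-- The chart laws: `c` is a system of local parameters at the origin. -/
structure PG.ChAx (A : PG.{u}) (τ : Type)
    (c : ∀ {T : Type u} [CommRing T] [IsLocalRing T] {s : A.Str T}, A.Pt s → τ → T) : Prop where
  formula : ∀ {T₀ : Type u} [CommRing T₀] [IsLocalRing T₀] (s₀ : A.Str T₀),
    ∃ (Cn : τ → MvPolynomial A.σ T₀) (Cd : MvPolynomial A.σ T₀) (d : ℕ),
      (∀ i, (Cn i).IsHomogeneous d) ∧ Cd.IsHomogeneous d ∧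
      ∀ {T : Type u} [CommRing T] [IsLocalRing T] (φ : T₀ →+* T) (s : A.Str T),
        A.push φ s₀ = s → ∀ (x : A.Pt s) (v : A.σ → T), A.Rep x v →
        PG.Cong (IsLocalRing.maximalIdeal T) x (0 : A.Pt s) →
        IsUnit (eval₂ φ v Cd) ∧ ∀ i, c x i * eval₂ φ v Cd = eval₂ φ v (Cn i)
  c_zero : ∀ {T : Type u} [CommRing T] [IsLocalRing T] (s : A.Str T), c (0 : A.Pt s) = 0
  c_inj : ∀ {T : Type u} [CommRing T] [IsLocalRing T] {s : A.Str T} (𝔞 : Ideal T) (x y : A.Pt s),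
    PG.Cong (IsLocalRing.maximalIdeal T) x (0 : A.Pt s) →
    PG.Cong (IsLocalRing.maximalIdeal T) y (0 : A.Pt s) → (∀ i, c x i - c y i ∈ 𝔞) →
    PG.Cong 𝔞 x y
  c_surj : ∀ {T : Type u} [CommRing T] [IsLocalRing T] (s : A.Str T) (𝔞 : Ideal T),
    IsAdicComplete 𝔞 T → ∀ z : τ → T, (∀ i, z i ∈ 𝔞) →
    ∃ x : A.Pt s, PG.Cong 𝔞 x (0 : A.Pt s) ∧ c x = z

/-- A smooth projective group functor. -/
structure SPG : Type (u + 1) extends PG.{u} where
  τ : Type
  [finτ : Finite τ]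
  c : ∀ {T : Type u} [CommRing T] [IsLocalRing T] {s : toPG.Str T}, toPG.Pt s → τ → T
  ch : toPG.ChAx τ c

attribute [instance] SPG.finτ

end MLF
end
end

-- merged part: Pool.Agent.Work.MP_29d410_ag.Con2
section
-- merged part: Pool.Agent.Work.MP_29d410_ag.Prod
section
/-!
# Products of projective group functors

Plan.  In a local ring `v i * w j` is a unit iff both factors are.  If `z (a₀, b₀)` is a unit and
the Segre quadrics vanish then `z (a, b) = z (a, b₀) * (z (a₀, b) / z (a₀, b₀))`.  For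
`z = v ⊗ w`, `z (·, b) = w b • v`, so homogeneity (`IsHomogeneous` scaling, or `rep_smul`) relates
the evaluation of the renamed polynomials to the factors.  For the chart formula choose `a₀`, `b₀`
such that the corresponding coordinates of the two origins over `T₀` are units.
-/

open MvPolynomial

namespace MLF

universe u

section Aux

variable {T : Type u} [CommRing T]

theorem Prod_scale {σ M : Type} [AddCommMonoid M] {w : σ → M} {g : MvPolynomial σ T} {d : M}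
    (h : g.IsWeightedHomogeneous w d) (χ : Multiplicative M →* T) (v : σ → T) :
    eval (fun i => χ (Multiplicative.ofAdd (w i)) * v i) g =
      χ (Multiplicative.ofAdd d) * eval v g := by
  rw [eval_eq, eval_eq, Finset.mul_sum]
  refine Finset.sum_congr rfl fun m hm => ?_
  rw [← h (mem_support_iff.1 hm), Finsupp.weight_apply, Finsupp.sum, ofAdd_sum, map_prod]
  simp only [mul_pow, Finset.prod_mul_distrib, ofAdd_nsmul, map_pow]
  ring

theorem Prod_hom {σ : Type} {g : MvPolynomial σ T} {d : ℕ} (h : g.IsHomogeneous d) (c : T)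
    (v : σ → T) : eval (c • v) g = c ^ d * eval v g := by
  have := Prod_scale h (powersHom T c) v
  simp only [Pi.one_apply, powersHom_apply, toAdd_ofAdd, pow_one] at this
  exact this

theorem Prod_bihom {σ τ : Type} {g : MvPolynomial (σ ⊕ τ) T} {d : ℕ × ℕ} (h : Bihom g d)
    (c c' : T) (v : σ → T) (w : τ → T) :
    eval (Sum.elim (c • v) (c' • w)) g = c ^ d.1 * c' ^ d.2 * eval (Sum.elim v w) g := by
  let χ : Multiplicative (ℕ × ℕ) →* T :=
    { toFun := fun e => c ^ e.toAdd.1 * c' ^ e.toAdd.2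
      map_one' := by simp
      map_mul' := fun a b => by
        simp only [toAdd_mul, Prod.fst_add, Prod.snd_add, pow_add]
        ring }
  refine Eq.trans ?_ (Prod_scale h χ (Sum.elim v w))
  congr 2
  funext i
  cases i <;> simp [χ]

theorem Prod_bihom_rename {σ τ σ' τ' : Type} {g : MvPolynomial (σ ⊕ τ) T} {d : ℕ × ℕ}
    (h : Bihom g d) (f : σ → σ') (f' : τ → τ') : Bihom (rename (Sum.map f f') g) d := by
  rw [g.as_sum, map_sum]
  refine IsWeightedHomogeneous.sum _ _ _ fun m hm => ?_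
  rw [rename_monomial]
  refine isWeightedHomogeneous_monomial _ _ _ ?_
  rw [← h (mem_support_iff.1 hm), Finsupp.weight_apply, Finsupp.weight_apply,
    Finsupp.sum_mapDomain_index (by simp) (by simp [add_smul])]
  refine Finsupp.sum_congr fun i _ => ?_
  cases i <;> rfl

theorem Prod_left {α β : Type} (v : α → T) (w : β → T) (b : β) :
    (fun i : α × β => v i.1 * w i.2) ∘ (fun a => (a, b)) = w b • v :=
  funext fun _ => mul_comm _ _

theorem Prod_right {α β : Type} (v : α → T) (w : β → T) (a : α) :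
    (fun i : α × β => v i.1 * w i.2) ∘ (fun b => (a, b)) = v a • w := rfl

theorem Prod_left₂ {α β : Type} (v v' : α → T) (w w' : β → T) (b b' : β) :
    Sum.elim (fun i : α × β => v i.1 * w i.2) (fun i : α × β => v' i.1 * w' i.2) ∘
      Sum.map (fun a => (a, b)) (fun a => (a, b')) = Sum.elim (w b • v) (w' b' • v') :=
  funext fun i => by cases i <;> exact mul_comm _ _

theorem Prod_right₂ {α β : Type} (v v' : α → T) (w w' : β → T) (a a' : α) :
    Sum.elim (fun i : α × β => v i.1 * w i.2) (fun i : α × β => v' i.1 * w' i.2) ∘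
      Sum.map (fun b => (a, b)) (fun b => (a', b)) = Sum.elim (v a • w) (v' a' • w') :=
  funext fun i => by cases i <;> rfl

theorem Prod_unit [IsLocalRing T] {𝔞 : Ideal T} (h𝔞 : 𝔞 ≠ ⊤) {a b : T} (ha : IsUnit a)
    (h : a - b ∈ 𝔞) : IsUnit b := by
  by_contra n
  have h1 : b ∈ IsLocalRing.maximalIdeal T := n
  have h2 := (IsLocalRing.maximalIdeal T).add_mem (IsLocalRing.le_maximalIdeal h𝔞 h) h1
  rw [sub_add_cancel] at h2
  exact h2 ha

variable [IsLocalRing T] {A : PG₀.{u}}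

theorem Prod_Φ (hA : A.Ax) {s : A.Str T} {x y : A.Pt s} {v w : A.σ → T} (j : A.κ) (c c' : T)
    (hv : A.Rep x v) (hw : A.Rep y w)
    (h : Uni fun i => eval (Sum.elim (c • v) (c' • w)) (A.Φ s j i)) :
    A.Rep (x + y) fun i => eval (Sum.elim (c • v) (c' • w)) (A.Φ s j i) := by
  obtain ⟨d, hd⟩ := hA.Φ_hom j
  simp only [Prod_bihom (hd s _)] at h ⊢
  obtain ⟨i, hi⟩ := h
  rw [IsUnit.mul_iff] at hi
  exact hA.rep_smul (hA.Φ_rep j hv hw ⟨i, hi.2⟩) hi.1

theorem Prod_N (hA : A.Ax) {s : A.Str T} {x : A.Pt s} {v : A.σ → T} (j : A.μ) (c : T)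
    (hv : A.Rep x v) (h : Uni fun i => eval (c • v) (A.N s j i)) :
    A.Rep (-x) fun i => eval (c • v) (A.N s j i) := by
  obtain ⟨d, hd⟩ := hA.N_hom j
  simp only [Prod_hom (hd s _)] at h ⊢
  obtain ⟨i, hi⟩ := h
  rw [IsUnit.mul_iff] at hi
  exact hA.rep_smul (hA.N_rep j hv ⟨i, hi.2⟩) hi.1

theorem Prod_eqn (hA : A.Ax) {s : A.Str T} {x : A.Pt s} {v : A.σ → T} (i : A.ι) (c : T)
    (hv : A.Rep x v) : eval (c • v) (A.eqn s i) = 0 := by
  obtain ⟨d, hd⟩ := hA.eqn_hom i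
  rw [Prod_hom (hd s), ((hA.rep_iff s v).1 ⟨x, hv⟩).2 i, mul_zero]

end Aux

theorem PG₀.prod_ax {A B : PG₀.{u}} (hA : A.Ax) (hB : B.Ax) : (A.prod B).Ax where
  push_id s := Prod.ext (hA.push_id s.1) (hB.push_id s.2)
  push_comp φ ψ s := Prod.ext (hA.push_comp φ ψ s.1) (hB.push_comp φ ψ s.2)
  push_inj φ hφ _ _ h := Prod.ext (hA.push_inj φ hφ (congrArg Prod.fst h))
    (hB.push_inj φ hφ (congrArg Prod.snd h))
  fg s := by
    classical
    obtain ⟨F, hF⟩ := hA.fg s.1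
    obtain ⟨G, hG⟩ := hB.fg s.2
    refine ⟨F ∪ G, fun R hR => ?_⟩
    rw [Finset.coe_union, Set.union_subset_iff] at hR
    obtain ⟨a, ha⟩ := hF R hR.1
    obtain ⟨b, hb⟩ := hG R hR.2
    exact ⟨(a, b), Prod.ext ha hb⟩
  rep_uni := by
    rintro T _ _ s x _ ⟨v, w, hv, hw, rfl⟩
    obtain ⟨a, ha⟩ := hA.rep_uni hv
    obtain ⟨b, hb⟩ := hB.rep_uni hw
    exact ⟨(a, b), ha.mul hb⟩
  exists_rep x := by
    obtain ⟨v, hv⟩ := hA.exists_rep x.1
    obtain ⟨w, hw⟩ := hB.exists_rep x.2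
    exact ⟨_, v, w, hv, hw, rfl⟩
  rep_smul := by
    rintro T _ _ s x _ c ⟨v, w, hv, hw, rfl⟩ hc
    exact ⟨c • v, w, hA.rep_smul hv hc, hw, funext fun i => (mul_assoc _ _ _).symm⟩
  rep_uniq := by
    rintro T _ _ s x _ _ ⟨v, w, hv, hw, rfl⟩ ⟨v', w', hv', hw', rfl⟩
    obtain ⟨c, hc, rfl⟩ := hA.rep_uniq hv hv'
    obtain ⟨c', hc', rfl⟩ := hB.rep_uniq hw hw'
    refine ⟨c * c', hc.mul hc', funext fun i => ?_⟩
    simp only [Pi.smul_apply, smul_eq_mul]
    ring
  rep_inj := by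
    rintro T _ _ s x y _ ⟨v, w, hv, hw, rfl⟩ ⟨v', w', hv', hw', e⟩
    obtain ⟨a, ha⟩ := hA.rep_uni hv
    obtain ⟨b, hb⟩ := hB.rep_uni hw
    have h : IsUnit (v' a * w' b) := congrFun e (a, b) ▸ ha.mul hb
    rw [IsUnit.mul_iff] at h
    have e1 : w b • v = w' b • v' := by rw [← Prod_left, e, Prod_left]
    have e2 : v a • w = v' a • w' := by rw [← Prod_right, e, Prod_right]
    exact Prod.ext (hA.rep_inj (hA.rep_smul hv hb) (e1 ▸ hA.rep_smul hv' h.2))
      (hB.rep_inj (hB.rep_smul hw ha) (e2 ▸ hB.rep_smul hw' h.1))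
  rep_iff s z := by
    constructor
    · rintro ⟨x, v, w, hv, hw, rfl⟩
      obtain ⟨a, ha⟩ := hA.rep_uni hv
      obtain ⟨b, hb⟩ := hB.rep_uni hw
      refine ⟨⟨(a, b), ha.mul hb⟩, ?_⟩
      rintro (i | i | i)
      · simp only [Sum.elim_inl, map_sub, map_mul, eval_X]
        ring
      · simp only [Sum.elim_inl, Sum.elim_inr]
        rw [eval_rename, Prod_left]
        exact Prod_eqn hA _ _ hv
      · simp only [Sum.elim_inr]
        rw [eval_rename, Prod_right]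
        exact Prod_eqn hB _ _ hw
    · rintro ⟨⟨⟨a, b⟩, hu⟩, h⟩
      obtain ⟨x, hx⟩ := (hA.rep_iff s.1 (z ∘ fun a => (a, b))).2 ⟨⟨a, hu⟩, fun i => by
        have := h (.inr (.inl (i, b)))
        simp only [Sum.elim_inl, Sum.elim_inr] at this
        rwa [eval_rename] at this⟩
      obtain ⟨y, hy⟩ := (hB.rep_iff s.2 (z ∘ fun b => (a, b))).2 ⟨⟨b, hu⟩, fun i => by
        have := h (.inr (.inr (a, i)))
        simp only [Sum.elim_inr] at this
        rwa [eval_rename] at this⟩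
      obtain ⟨u, hu⟩ := hu
      refine ⟨(x, y), _, _, hx, hB.rep_smul hy u⁻¹.isUnit, funext fun i => ?_⟩
      have := h (.inl (i, (a, b)))
      simp only [Sum.elim_inl, map_sub, map_mul, eval_X] at this
      simp only [Function.comp_apply, Pi.smul_apply, smul_eq_mul]
      rw [mul_left_comm, ← sub_eq_zero.1 this, ← hu, mul_comm (z i), Units.inv_mul_cancel_left]
  rep_map := by
    rintro T T' _ _ _ _ φ s s' h x _ ⟨v, w, hv, hw, rfl⟩
    exact ⟨φ ∘ v, φ ∘ w, hA.rep_map φ _ hv, hB.rep_map φ _ hw, funext fun i => map_mul φ _ _⟩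
  map_add φ _ _ _ x y := Prod.ext (hA.map_add φ _ x.1 y.1) (hB.map_add φ _ x.2 y.2)
  eqn_push φ s := by
    rintro (i | i | i)
    · simp only [Sum.elim_inl, map_sub, map_mul, map_X]
    · simp only [Sum.elim_inl, Sum.elim_inr, map_rename, hA.eqn_push]
    · simp only [Sum.elim_inr, map_rename, hB.eqn_push]
  eqn_hom := by
    rintro (i | i | i)
    · exact ⟨1 + 1, fun s => ((isHomogeneous_X _ _).mul (isHomogeneous_X _ _)).sub
        ((isHomogeneous_X _ _).mul (isHomogeneous_X _ _))⟩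
    · obtain ⟨d, hd⟩ := hA.eqn_hom i.1
      exact ⟨d, fun s => (hd s.1).rename_isHomogeneous⟩
    · obtain ⟨d, hd⟩ := hB.eqn_hom i.2
      exact ⟨d, fun s => (hd s.2).rename_isHomogeneous⟩
  Φ_push φ s j i := by simp only [map_mul, map_rename, hA.Φ_push, hB.Φ_push]
  Φ_hom j := by
    obtain ⟨d, hd⟩ := hA.Φ_hom j.1.1
    obtain ⟨d', hd'⟩ := hB.Φ_hom j.2.1
    exact ⟨d + d', fun s i => IsWeightedHomogeneous.mul (Prod_bihom_rename (hd s.1 i.1) _ _)
      (Prod_bihom_rename (hd' s.2 i.2) _ _)⟩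
  Φ_cover := by
    rintro T _ _ s x y _ _ ⟨v, w, hv, hw, rfl⟩ ⟨v', w', hv', hw', rfl⟩
    obtain ⟨a, ha⟩ := hA.rep_uni hv
    obtain ⟨b, hb⟩ := hB.rep_uni hw
    obtain ⟨a', ha'⟩ := hA.rep_uni hv'
    obtain ⟨b', hb'⟩ := hB.rep_uni hw'
    obtain ⟨j, i, hi⟩ := hA.Φ_cover (hA.rep_smul hv hb) (hA.rep_smul hv' hb')
    obtain ⟨j', i', hi'⟩ := hB.Φ_cover (hB.rep_smul hw ha) (hB.rep_smul hw' ha')
    refine ⟨((j, b, b'), (j', a, a')), (i, i'), ?_⟩
    simp only [map_mul, eval_rename, Prod_left₂, Prod_right₂]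
    exact hi.mul hi'
  Φ_rep := by
    rintro T _ _ s x y _ _ j ⟨v, w, hv, hw, rfl⟩ ⟨v', w', hv', hw', rfl⟩ ⟨i, hi⟩
    simp only [map_mul, eval_rename, Prod_left₂, Prod_right₂] at hi ⊢
    rw [IsUnit.mul_iff] at hi
    exact ⟨_, _, Prod_Φ hA _ _ _ hv hv' ⟨_, hi.1⟩, Prod_Φ hB _ _ _ hw hw' ⟨_, hi.2⟩, rfl⟩
  N_push φ s j i := by simp only [map_mul, map_rename, hA.N_push, hB.N_push]
  N_hom j := by
    obtain ⟨d, hd⟩ := hA.N_hom j.1.1
    obtain ⟨d', hd'⟩ := hB.N_hom j.2.1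
    exact ⟨d + d', fun s i => (hd s.1 i.1).rename_isHomogeneous.mul
      (hd' s.2 i.2).rename_isHomogeneous⟩
  N_cover := by
    rintro T _ _ s x _ ⟨v, w, hv, hw, rfl⟩
    obtain ⟨a, ha⟩ := hA.rep_uni hv
    obtain ⟨b, hb⟩ := hB.rep_uni hw
    obtain ⟨j, i, hi⟩ := hA.N_cover (hA.rep_smul hv hb)
    obtain ⟨j', i', hi'⟩ := hB.N_cover (hB.rep_smul hw ha)
    refine ⟨((j, b), (j', a)), (i, i'), ?_⟩
    simp only [map_mul, eval_rename, Prod_left, Prod_right]
    exact hi.mul hi'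
  N_rep := by
    rintro T _ _ s x _ j ⟨v, w, hv, hw, rfl⟩ ⟨i, hi⟩
    simp only [map_mul, eval_rename, Prod_left, Prod_right] at hi ⊢
    rw [IsUnit.mul_iff] at hi
    exact ⟨_, _, Prod_N hA _ _ hv ⟨_, hi.1⟩, Prod_N hB _ _ hw ⟨_, hi.2⟩, rfl⟩

/-- The product of projective group functors. -/
@[reducible] noncomputable def PG.prod (A B : PG.{u}) : PG.{u} :=
  ⟨A.toPG₀.prod B.toPG₀, PG₀.prod_ax A.ax B.ax⟩

section Cong

variable {A B : PG.{u}} {T : Type u} [CommRing T] [IsLocalRing T]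

theorem Prod_cong_of {𝔞 : Ideal T} {s s' : (A.prod B).Str T} {x : (A.prod B).Pt s}
    {y : (A.prod B).Pt s'} (h : PG.Cong 𝔞 x.1 y.1) (h' : PG.Cong 𝔞 x.2 y.2) : PG.Cong 𝔞 x y := by
  obtain ⟨v, v', hv, hv', e⟩ := h
  obtain ⟨w, w', hw, hw', e'⟩ := h'
  refine ⟨_, _, ⟨v, w, hv, hw, rfl⟩, ⟨v', w', hv', hw', rfl⟩, fun i => ?_⟩
  have : v i.1 * w i.2 - v' i.1 * w' i.2 = w i.2 * (v i.1 - v' i.1) + v' i.1 * (w i.2 - w' i.2) := by
    ring
  rw [this]
  exact 𝔞.add_mem (𝔞.mul_mem_left _ (e _)) (𝔞.mul_mem_left _ (e' _))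

theorem Prod_of_cong {𝔞 : Ideal T} (h𝔞 : 𝔞 ≠ ⊤) {s s' : (A.prod B).Str T} {x : (A.prod B).Pt s}
    {y : (A.prod B).Pt s'} (h : PG.Cong 𝔞 x y) : PG.Cong 𝔞 x.1 y.1 ∧ PG.Cong 𝔞 x.2 y.2 := by
  obtain ⟨_, _, ⟨v, w, hv, hw, rfl⟩, ⟨v', w', hv', hw', rfl⟩, e⟩ := h
  obtain ⟨a, ha⟩ := A.ax.rep_uni hv
  obtain ⟨b, hb⟩ := B.ax.rep_uni hw
  have h := Prod_unit h𝔞 (ha.mul hb) (e (a, b))
  rw [IsUnit.mul_iff] at h
  refine ⟨⟨_, _, A.ax.rep_smul hv hb, A.ax.rep_smul hv' h.2, fun i => ?_⟩,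
    ⟨_, _, B.ax.rep_smul hw ha, B.ax.rep_smul hw' h.1, fun i => e (a, i)⟩⟩
  have : v i * w b - v' i * w' b ∈ 𝔞 := e (i, b)
  rwa [mul_comm (v i), mul_comm (v' i)] at this

theorem Prod_unit_coord {T₀ : Type u} [CommRing T₀] [IsLocalRing T₀] {s₀ : A.Str T₀}
    {v₀ : A.σ → T₀} (h₀ : A.Rep (0 : A.Pt s₀) v₀) {a : A.σ} (ha : IsUnit (v₀ a)) (φ : T₀ →+* T)
    {s : A.Str T} (hs : A.push φ s₀ = s) {x : A.Pt s} {v : A.σ → T} (hv : A.Rep x v)
    (h : PG.Cong (IsLocalRing.maximalIdeal T) x (0 : A.Pt s)) : IsUnit (v a) := by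
  obtain ⟨w, w', hw, hw', e⟩ := h
  have h1 : A.Rep (A.map φ hs 0) (φ ∘ v₀) := A.ax.rep_map φ hs h₀
  rw [map_zero] at h1
  obtain ⟨c, hc, rfl⟩ := A.ax.rep_uniq h1 hw'
  obtain ⟨c', hc', rfl⟩ := A.ax.rep_uniq hw hv
  refine hc'.mul (Prod_unit (IsLocalRing.maximalIdeal.isMaximal T).ne_top (hc.mul (ha.map φ)) ?_)
  have := neg_mem (e a)
  rwa [neg_sub] at this

end Cong

theorem SPG.prod_ch (A B : SPG.{u}) : (A.toPG.prod B.toPG).ChAx (A.τ ⊕ B.τ)
    fun x => Sum.elim (A.c x.1) (B.c x.2) where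
  formula s₀ := by
    obtain ⟨Cn, Cd, d, h1, h2, H⟩ := A.ch.formula s₀.1
    obtain ⟨Cn', Cd', d', h1', h2', H'⟩ := B.ch.formula s₀.2
    obtain ⟨v₀, hv₀⟩ := A.ax.exists_rep (0 : A.Pt s₀.1)
    obtain ⟨w₀, hw₀⟩ := B.ax.exists_rep (0 : B.Pt s₀.2)
    obtain ⟨a, ha⟩ := A.ax.rep_uni hv₀
    obtain ⟨b, hb⟩ := B.ax.rep_uni hw₀
    refine ⟨Sum.elim (fun i => rename (fun a => (a, b)) (Cn i) * rename (fun b => (a, b)) Cd')
      fun i => rename (fun a => (a, b)) Cd * rename (fun b => (a, b)) (Cn' i),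
      rename (fun a => (a, b)) Cd * rename (fun b => (a, b)) Cd', d + d', ?_,
      h2.rename_isHomogeneous.mul h2'.rename_isHomogeneous, ?_⟩
    · rintro (i | i)
      exacts [(h1 i).rename_isHomogeneous.mul h2'.rename_isHomogeneous,
        h2.rename_isHomogeneous.mul (h1' i).rename_isHomogeneous]
    rintro T _ _ φ s hs x _ ⟨v, w, hv, hw, rfl⟩ hx
    obtain ⟨c1, c2⟩ := Prod_of_cong (IsLocalRing.maximalIdeal.isMaximal T).ne_top hx
    have ua := Prod_unit_coord hv₀ ha φ (congrArg Prod.fst hs) hv c1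
    have ub := Prod_unit_coord hw₀ hb φ (congrArg Prod.snd hs) hw c2
    obtain ⟨k1, k2⟩ := H φ s.1 (congrArg Prod.fst hs) x.1 _ (A.ax.rep_smul hv ub) c1
    obtain ⟨l1, l2⟩ := H' φ s.2 (congrArg Prod.snd hs) x.2 _ (B.ax.rep_smul hw ua) c2
    refine ⟨?_, ?_⟩
    · rw [eval₂_mul, eval₂_rename, eval₂_rename, Prod_left, Prod_right]
      exact k1.mul l1
    · rintro (i | i)
      · simp only [Sum.elim_inl, eval₂_mul, eval₂_rename, Prod_left, Prod_right]
        rw [← mul_assoc, k2]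
      · simp only [Sum.elim_inr, eval₂_mul, eval₂_rename, Prod_left, Prod_right]
        rw [mul_left_comm, l2]
  c_zero s := by
    funext i
    cases i with
    | inl i => exact congrFun (A.ch.c_zero s.1) i
    | inr i => exact congrFun (B.ch.c_zero s.2) i
  c_inj 𝔞 x y hx hy h := by
    obtain ⟨c1, c2⟩ := Prod_of_cong (IsLocalRing.maximalIdeal.isMaximal _).ne_top hx
    obtain ⟨d1, d2⟩ := Prod_of_cong (IsLocalRing.maximalIdeal.isMaximal _).ne_top hy
    exact Prod_cong_of (A.ch.c_inj 𝔞 x.1 y.1 c1 d1 fun i => h (.inl i))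
      (B.ch.c_inj 𝔞 x.2 y.2 c2 d2 fun i => h (.inr i))
  c_surj s 𝔞 h z hz := by
    obtain ⟨x, hx, e⟩ := A.ch.c_surj s.1 𝔞 h (z ∘ Sum.inl) fun i => hz _
    obtain ⟨y, hy, e'⟩ := B.ch.c_surj s.2 𝔞 h (z ∘ Sum.inr) fun i => hz _
    refine ⟨(x, y), Prod_cong_of hx hy, funext fun i => ?_⟩
    cases i with
    | inl i => exact congrFun e i
    | inr i => exact congrFun e' i

/-- The product of smooth projective group functors. -/
@[reducible] noncomputable def SPG.prod (A B : SPG.{u}) : SPG.{u} where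
  toPG := A.toPG.prod B.toPG
  τ := A.τ ⊕ B.τ
  c x := Sum.elim (A.c x.1) (B.c x.2)
  ch := A.prod_ch B

end MLF
end

-- merged part: Pool.Agent.Work.MP_29d410_ag.Prod2
section
/-!
# Products of projective group functors

Plan.  In a local ring `v i * w j` is a unit iff both factors are.  If `z (a₀, b₀)` is a unit and
the Segre quadrics vanish then `z (a, b) = z (a, b₀) * (z (a₀, b) / z (a₀, b₀))`.  For
`z = v ⊗ w`, `z (·, b) = w b • v`, so homogeneity (`IsHomogeneous` scaling, or `rep_smul`) relates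
the evaluation of the renamed polynomials to the factors.  For the chart formula choose `a₀`, `b₀`
such that the corresponding coordinates of the two origins over `T₀` are units.
-/

open MvPolynomial

namespace MLF

universe u

namespace PG

variable {A B : PG.{u}} {T T' : Type u} [CommRing T] [IsLocalRing T] [CommRing T'] [IsLocalRing T']
  {k : Type u} [Field k]

theorem prod_map (φ : T →+* T') {s : (A.prod B).Str T} {s' : (A.prod B).Str T'}
    (h : (A.prod B).push φ s = s') (x : (A.prod B).Pt s) :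
    (A.prod B).map φ h x =
      (A.map φ (congrArg Prod.fst h) x.1, B.map φ (congrArg Prod.snd h) x.2) := rfl

theorem prod2_unit {𝔞 : Ideal T} (h𝔞 : 𝔞 ≠ ⊤) {a b : T} (ha : IsUnit a) (h : a - b ∈ 𝔞) :
    IsUnit b := by
  by_contra hb
  have h1 : b ∈ IsLocalRing.maximalIdeal T := hb
  have h2 := Ideal.add_mem _ (IsLocalRing.le_maximalIdeal h𝔞 h) h1
  rw [sub_add_cancel] at h2
  exact h2 ha

theorem prod_cong {𝔞 : Ideal T} (h𝔞 : 𝔞 ≠ ⊤) {s s' : (A.prod B).Str T} (x : (A.prod B).Pt s)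
    (y : (A.prod B).Pt s') : Cong 𝔞 x y ↔ Cong 𝔞 x.1 y.1 ∧ Cong 𝔞 x.2 y.2 := by
  constructor
  · rintro ⟨_, _, ⟨v, w, hv, hw, rfl⟩, ⟨v', w', hv', hw', rfl⟩, h⟩
    obtain ⟨a, ha⟩ := A.ax.rep_uni hv
    obtain ⟨b, hb⟩ := B.ax.rep_uni hw
    have h1 := prod2_unit h𝔞 (ha.mul hb) (h (a, b))
    refine ⟨⟨_, _, A.ax.rep_smul hv hb, A.ax.rep_smul hv' (isUnit_of_mul_isUnit_right h1),
      fun i => ?_⟩, ⟨_, _, B.ax.rep_smul hw ha,
      B.ax.rep_smul hw' (isUnit_of_mul_isUnit_left h1), fun i => h (a, i)⟩⟩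
    simpa only [Pi.smul_apply, smul_eq_mul, mul_comm] using h (i, b)
  · rintro ⟨⟨v, v', hv, hv', h⟩, w, w', hw, hw', h'⟩
    refine ⟨_, _, ⟨v, w, hv, hw, rfl⟩, ⟨v', w', hv', hw', rfl⟩, fun i => ?_⟩
    have e : v i.1 * w i.2 - v' i.1 * w' i.2 =
        v i.1 * (w i.2 - w' i.2) + w' i.2 * (v i.1 - v' i.1) := by ring
    change v i.1 * w i.2 - v' i.1 * w' i.2 ∈ 𝔞
    rw [e]
    exact 𝔞.add_mem (𝔞.mul_mem_left _ (h' _)) (𝔞.mul_mem_left _ (h _))

theorem prod_rat (E : Subfield k) {s : (A.prod B).Str k} (x : (A.prod B).Pt s) :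
    Rat E x ↔ Rat E x.1 ∧ Rat E x.2 := by
  constructor
  · intro h
    constructor
    · rintro _ ⟨v, i, i', hv, rfl⟩
      obtain ⟨w, hw⟩ := B.ax.exists_rep x.2
      obtain ⟨b, hb⟩ := B.ax.rep_uni hw
      refine h ⟨_, (i, b), (i', b), ⟨v, w, hv, hw, rfl⟩, ?_⟩
      exact (mul_div_mul_right _ _ hb.ne_zero).symm
    · rintro _ ⟨w, i, i', hw, rfl⟩
      obtain ⟨v, hv⟩ := A.ax.exists_rep x.1
      obtain ⟨a, ha⟩ := A.ax.rep_uni hv
      refine h ⟨_, (a, i), (a, i'), ⟨v, w, hv, hw, rfl⟩, ?_⟩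
      exact (mul_div_mul_left _ _ ha.ne_zero).symm
  · rintro ⟨h, h'⟩ _ ⟨_, i, i', ⟨v, w, hv, hw, rfl⟩, rfl⟩
    change v i.1 * w i.2 / (v i'.1 * w i'.2) ∈ E
    rw [mul_div_mul_comm]
    exact E.mul_mem (h ⟨v, _, _, hv, rfl⟩) (h' ⟨w, _, _, hw, rfl⟩)

theorem prod_red (W : ValuationSubring k) (r : W →+* T) {s : (A.prod B).Str k}
    {s' : (A.prod B).Str T} (x : (A.prod B).Pt s) (y : (A.prod B).Pt s') :
    Red W r x y ↔ Red W r x.1 y.1 ∧ Red W r x.2 y.2 := by
  constructor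
  · rintro ⟨z, ⟨v, w, hv, hw, e⟩, ⟨⟨a, b⟩, hz⟩, v', w', hv', hw', e'⟩
    have h1 : IsUnit (v a * w b) := by
      have := hz.map W.subtype
      rwa [show W.subtype (z (a, b)) = v a * w b from congrFun e (a, b)] at this
    have h2 : IsUnit (v' a * w' b) := by
      have := hz.map r
      rwa [show r (z (a, b)) = v' a * w' b from congrFun e' (a, b)] at this
    refine ⟨⟨fun i => z (i, b), ?_, ⟨a, hz⟩, ?_⟩, fun i => z (a, i), ?_, ⟨b, hz⟩, ?_⟩
    · convert A.ax.rep_smul hv (isUnit_of_mul_isUnit_right h1) using 1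
      exact funext fun i => (congrFun e (i, b)).trans (mul_comm _ _)
    · convert A.ax.rep_smul hv' (isUnit_of_mul_isUnit_right h2) using 1
      exact funext fun i => (congrFun e' (i, b)).trans (mul_comm _ _)
    · convert B.ax.rep_smul hw (isUnit_of_mul_isUnit_left h1) using 1
      exact funext fun i => congrFun e (a, i)
    · convert B.ax.rep_smul hw' (isUnit_of_mul_isUnit_left h2) using 1
      exact funext fun i => congrFun e' (a, i)
  · rintro ⟨⟨v, hv, ⟨a, ha⟩, hv'⟩, w, hw, ⟨b, hb⟩, hw'⟩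
    exact ⟨fun i => v i.1 * w i.2, ⟨_, _, hv, hw, funext fun i => rfl⟩, ⟨(a, b), ha.mul hb⟩,
      _, _, hv', hw', funext fun i => map_mul r _ _⟩

theorem prod_def (E : Subfield k) {s : A.Str k} {t : B.Str k} :
    (A.prod B).Def E (s, t) ↔ A.Def E s ∧ B.Def E t := by
  constructor
  · rintro ⟨u, h⟩
    exact ⟨⟨u.1, congrArg Prod.fst h⟩, u.2, congrArg Prod.snd h⟩
  · rintro ⟨⟨u, h⟩, u', h'⟩
    exact ⟨(u, u'), Prod.ext h h'⟩

theorem TorsFin.prod {s : A.Str k} {t : B.Str k} (h : A.TorsFin s) (h' : B.TorsFin t) :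
    (A.prod B).TorsFin (s, t) := fun n hn =>
  ((h n hn).prod (h' n hn)).subset fun _ hx => ⟨congrArg Prod.fst hx, congrArg Prod.snd hx⟩

theorem Lifts.prod {s : A.Str k} {t : B.Str k} (h : A.Lifts s) (h' : B.Lifts t) :
    (A.prod B).Lifts (s, t) := by
  intro T F _ _ _ π j u e hπ hc y
  obtain ⟨x, hx⟩ := h T F π j u.1 (congrArg Prod.fst e) hπ hc y.1
  obtain ⟨x', hx'⟩ := h' T F π j u.2 (congrArg Prod.snd e) hπ hc y.2
  exact ⟨(x, x'), Prod.ext hx hx'⟩

end PG

end MLF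
end

-- merged part: Pool.Agent.Work.MP_29d410_ag.Con0
section
/-!
# Polynomial data of a group law and of an etale chart; the laws they satisfy over all rings
-/

open MvPolynomial

namespace MLF

universe u

/-- Equations, addition formulas, inversion formulas, origin. -/
structure GData (R : Type u) [CommRing R] (σ : Type) where
  ι : Type
  [finι : Finite ι]
  eqn : ι → MvPolynomial σ R
  deg : ι → ℕ
  eqn_hom : ∀ i, (eqn i).IsHomogeneous (deg i)
  κ : Type
  [finκ : Finite κ]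
  Φ : κ → σ → MvPolynomial (σ ⊕ σ) R
  degΦ : κ → ℕ × ℕ
  Φ_hom : ∀ j i, Bihom (Φ j i) (degΦ j)
  μ : Type
  [finμ : Finite μ]
  N : μ → σ → MvPolynomial σ R
  degN : μ → ℕ
  N_hom : ∀ j i, (N j i).IsHomogeneous (degN j)
  o : σ → R
  i₀ : σ
  o_i₀ : o i₀ = 1

attribute [instance] GData.finι GData.finκ GData.finμ

/-- A standard etale chart: `u = U / B`, `θ = Θ / B`, `f (u, θ) = 0`, the point is `Π (u, θ)`. -/
structure HData (R : Type u) [CommRing R] (σ : Type) where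
  τ : Type
  [finτ : Finite τ]
  U : τ → MvPolynomial σ R
  Θ : MvPolynomial σ R
  B : MvPolynomial σ R
  d : ℕ
  U_hom : ∀ i, (U i).IsHomogeneous d
  Θ_hom : Θ.IsHomogeneous d
  B_hom : B.IsHomogeneous d
  f : Polynomial (MvPolynomial τ R)
  monic : f.Monic
  P : σ → Polynomial (MvPolynomial τ R)
  a₀ : σ
  u₀ : τ → R
  θ₀ : R

attribute [instance] HData.finτ

variable {R S T : Type u} [CommRing R] [CommRing S] [CommRing T] {σ : Type}

/-- Proportional vectors. -/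
def Crs (v w : σ → T) : Prop := ∀ a b, v a * w b = v b * w a

namespace GData

variable (𝒢 : GData R σ) (φ : R →+* T)

/-- The equations hold. -/
def Z (v : σ → T) : Prop := ∀ i, eval₂ φ v (𝒢.eqn i) = 0

/-- An addition formula. -/
noncomputable def add (j : 𝒢.κ) (v w : σ → T) : σ → T := fun i => eval₂ φ (Sum.elim v w) (𝒢.Φ j i)

/-- An inversion formula. -/
noncomputable def neg (j : 𝒢.μ) (v : σ → T) : σ → T := fun i => eval₂ φ v (𝒢.N j i)

/-- The group laws. -/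
structure Laws : Prop where
  z_add : ∀ j v w, 𝒢.Z φ v → 𝒢.Z φ w → 𝒢.Z φ (𝒢.add φ j v w)
  add_comm : ∀ j j' v w, 𝒢.Z φ v → 𝒢.Z φ w → Crs (𝒢.add φ j v w) (𝒢.add φ j' w v)
  add_add : ∀ j j' v w, 𝒢.Z φ v → 𝒢.Z φ w → Crs (𝒢.add φ j v w) (𝒢.add φ j' v w)
  add_cover : ∀ v w a b x y, 𝒢.Z φ v → 𝒢.Z φ w → v a * x = 1 → w b * y = 1 →
    (∀ j i, 𝒢.add φ j v w i = 0) → (1 : T) = 0
  add_assoc : ∀ j₁ j₂ j₃ j₄ v w z, 𝒢.Z φ v → 𝒢.Z φ w → 𝒢.Z φ z →
    Crs (𝒢.add φ j₂ (𝒢.add φ j₁ v w) z) (𝒢.add φ j₄ v (𝒢.add φ j₃ w z))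
  z_o : 𝒢.Z φ (φ ∘ 𝒢.o)
  add_o : ∀ j v, 𝒢.Z φ v → Crs (𝒢.add φ j v (φ ∘ 𝒢.o)) v
  z_neg : ∀ j v, 𝒢.Z φ v → 𝒢.Z φ (𝒢.neg φ j v)
  neg_neg : ∀ j j' v, 𝒢.Z φ v → Crs (𝒢.neg φ j v) (𝒢.neg φ j' v)
  neg_cover : ∀ v a x, 𝒢.Z φ v → v a * x = 1 → (∀ j i, 𝒢.neg φ j v i = 0) → (1 : T) = 0
  neg_add : ∀ j j' v, 𝒢.Z φ v → Crs (𝒢.add φ j (𝒢.neg φ j' v) v) (φ ∘ 𝒢.o)

/-- Extension of scalars. -/
noncomputable def map (ψ : R →+* S) : GData S σ where
  ι := 𝒢.ι
  eqn i := MvPolynomial.map ψ (𝒢.eqn i)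
  deg := 𝒢.deg
  eqn_hom i := (𝒢.eqn_hom i).map ψ
  κ := 𝒢.κ
  Φ j i := MvPolynomial.map ψ (𝒢.Φ j i)
  degΦ := 𝒢.degΦ
  Φ_hom j i := fun m hm => 𝒢.Φ_hom j i fun h => hm (by rw [coeff_map, h, map_zero])
  μ := 𝒢.μ
  N j i := MvPolynomial.map ψ (𝒢.N j i)
  degN := 𝒢.degN
  N_hom j i := (𝒢.N_hom j i).map ψ
  o := ψ ∘ 𝒢.o
  i₀ := 𝒢.i₀
  o_i₀ := by simp [𝒢.o_i₀]

end GData

namespace HData

variable (ℋ : HData R σ) (φ : R →+* T)

/-- Evaluation of a polynomial in `u` and `θ`. -/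
noncomputable def pe (u : ℋ.τ → T) (θ : T) : Polynomial (MvPolynomial ℋ.τ R) →+* T :=
  Polynomial.eval₂RingHom (eval₂Hom φ u) θ

/-- The point with parameters `u`, `θ`. -/
noncomputable def pt (u : ℋ.τ → T) (θ : T) : σ → T := fun a => ℋ.pe φ u θ (ℋ.P a)

/-- The laws of the chart. -/
structure Laws (𝒢 : GData R σ) : Prop where
  f_eq : ∀ v w, 𝒢.Z φ v → eval₂ φ v ℋ.B * w = 1 →
    ℋ.pe φ (fun i => eval₂ φ v (ℋ.U i) * w) (eval₂ φ v ℋ.Θ * w) ℋ.f = 0
  crs : ∀ v w, 𝒢.Z φ v → eval₂ φ v ℋ.B * w = 1 →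
    Crs v (ℋ.pt φ (fun i => eval₂ φ v (ℋ.U i) * w) (eval₂ φ v ℋ.Θ * w))
  der : ∀ v w, 𝒢.Z φ v → eval₂ φ v ℋ.B * w = 1 →
    ℋ.pe φ (fun i => eval₂ φ v (ℋ.U i) * w) (eval₂ φ v ℋ.Θ * w) ℋ.f.derivative = 0 → (1 : T) = 0
  uni : ∀ v w, 𝒢.Z φ v → eval₂ φ v ℋ.B * w = 1 →
    ℋ.pt φ (fun i => eval₂ φ v (ℋ.U i) * w) (eval₂ φ v ℋ.Θ * w) ℋ.a₀ = 0 → (1 : T) = 0
  z_pt : ∀ u θ, ℋ.pe φ u θ ℋ.f = 0 → 𝒢.Z φ (ℋ.pt φ u θ)
  U_pt : ∀ u θ i, ℋ.pe φ u θ ℋ.f = 0 →
    eval₂ φ (ℋ.pt φ u θ) (ℋ.U i) = u i * eval₂ φ (ℋ.pt φ u θ) ℋ.B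
  Θ_pt : ∀ u θ, ℋ.pe φ u θ ℋ.f = 0 → eval₂ φ (ℋ.pt φ u θ) ℋ.Θ = θ * eval₂ φ (ℋ.pt φ u θ) ℋ.B
  f₀ : ℋ.pe φ (φ ∘ ℋ.u₀) (φ ℋ.θ₀) ℋ.f = 0
  B₀ : eval₂ φ (ℋ.pt φ (φ ∘ ℋ.u₀) (φ ℋ.θ₀)) ℋ.B = 0 → (1 : T) = 0

/-- Extension of scalars. -/
noncomputable def map (ψ : R →+* S) : HData S σ where
  τ := ℋ.τ
  U i := MvPolynomial.map ψ (ℋ.U i)
  Θ := MvPolynomial.map ψ ℋ.Θ
  B := MvPolynomial.map ψ ℋ.B
  d := ℋ.d
  U_hom i := (ℋ.U_hom i).map ψ
  Θ_hom := ℋ.Θ_hom.map ψ
  B_hom := ℋ.B_hom.map ψ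
  f := ℋ.f.map (MvPolynomial.map ψ)
  monic := ℋ.monic.map _
  P a := (ℋ.P a).map (MvPolynomial.map ψ)
  a₀ := ℋ.a₀
  u₀ := ψ ∘ ℋ.u₀
  θ₀ := ψ ℋ.θ₀

end HData

end MLF
end

-- merged part: Pool.Agent.Work.MP_29d410_ag.Chow1
section
/-!
# Chow forms of finite families of points

`chow v` is the product of the linear forms with coefficient vectors `v i`; `cc v` is the vector of
its coefficients.
Plan.  `cc_uniq`: otherwise there is `Ξ` on the hyperplane of `v i` outside the hyperplanes of the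
`w j` (a vector space over an infinite field is not a finite union of proper subspaces); evaluate.
`exists_ccForm`: the coefficients of `chow` over the polynomial ring.
-/

open MvPolynomial

namespace MLF

universe u

/-- Monomials of degree the cardinality of `I`. -/
def Mon (σ : Type) (I : Type u) [Fintype I] : Type := {m : σ →₀ ℕ // m.degree = Fintype.card I}

instance (σ : Type) [Finite σ] (I : Type u) [Fintype I] : Finite (Mon σ I) :=
  ((Finsupp.finite_of_degree_le (σ := σ) (Fintype.card I)).subset fun _ h => le_of_eq h).to_subtype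

variable {R R' k : Type u} [CommRing R] [CommRing R'] [Field k] {σ ρ : Type} [Fintype σ]
  {I J Y : Type u} [Fintype I] [Fintype J]

/-- The Chow form. -/
noncomputable def chow (v : I → σ → R) : MvPolynomial σ R := ∏ i, ∑ a, C (v i a) * X a

/-- The Chow coordinates. -/
noncomputable def cc (v : I → σ → R) : Mon σ I → R := fun m => coeff m.1 (chow v)

/-- The linear form with coefficient vector `u`. -/
noncomputable def Chow1_lin (u : σ → R) : MvPolynomial σ R := ∑ a, C (u a) * X a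

lemma Chow1_chow (v : I → σ → R) : chow v = ∏ i, Chow1_lin (v i) := rfl

lemma Chow1_coeff_lin [DecidableEq σ] (u : σ → R) (m : σ →₀ ℕ) :
    coeff m (Chow1_lin u) = ∑ a, if Finsupp.single a 1 = m then u a else 0 := by
  simp only [Chow1_lin, coeff_sum, coeff_C_mul, coeff_X, mul_ite, mul_one, mul_zero]

lemma Chow1_coeff_single (u : σ → R) (a : σ) : coeff (Finsupp.single a 1) (Chow1_lin u) = u a := by
  classical
  simp [Chow1_coeff_lin, Finsupp.single_left_inj]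

lemma Chow1_lin_eq_zero {u : σ → R} : Chow1_lin u = 0 ↔ u = 0 := by
  constructor
  · intro h
    funext a
    rw [← Chow1_coeff_single u a, h]
    rfl
  · rintro rfl
    simp [Chow1_lin]

lemma Chow1_hom (v : I → σ → R) : (chow v).IsHomogeneous (Fintype.card I) := by
  have h := IsHomogeneous.prod Finset.univ (fun i => Chow1_lin (v i)) (fun _ => 1) fun i _ =>
    IsHomogeneous.sum _ _ _ fun a _ => (isHomogeneous_X R a).C_mul (v i a)
  rwa [Finset.sum_const, smul_eq_mul, mul_one] at h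

lemma Chow1_ext {v w : I → σ → R} {x y : R} (h : ∀ m, x * cc v m = y * cc w m) :
    C x * chow v = C y * chow w := by
  ext m
  rw [coeff_C_mul, coeff_C_mul]
  by_cases hm : m.degree = Fintype.card I
  · exact h ⟨m, hm⟩
  · rw [(Chow1_hom v).coeff_eq_zero hm, (Chow1_hom w).coeff_eq_zero hm, mul_zero, mul_zero]

theorem cc_map (φ : R →+* R') (v : I → σ → R) : cc (fun i => φ ∘ v i) = φ ∘ cc v := by
  funext m
  have h : chow (fun i => φ ∘ v i) = MvPolynomial.map φ (chow v) := by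
    simp [chow, map_prod, map_sum]
  simp only [cc, Function.comp_apply, h, coeff_map]

theorem cc_smul (c : I → R) (v : I → σ → R) : cc (fun i => c i • v i) = (∏ i, c i) • cc v := by
  funext m
  have h : chow (fun i => c i • v i) = C (∏ i, c i) * chow v := by
    simp only [chow, map_prod, ← Finset.prod_mul_distrib, Finset.mul_sum, Pi.smul_apply,
      smul_eq_mul, map_mul, mul_assoc]
  simp only [cc, Pi.smul_apply, h, coeff_C_mul, smul_eq_mul]

theorem cc_perm (e : I ≃ I) (v : I → σ → R) : cc (fun i => v (e i)) = cc v := by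
  funext m
  have h : chow (fun i => v (e i)) = chow v := e.prod_comp fun i => Chow1_lin (v i)
  simp only [cc, h]

theorem cc_eq_zero {v : I → σ → k} : cc v = 0 ↔ ∃ i, v i = 0 := by
  have h1 : chow v = 0 ↔ ∃ i, v i = 0 := by
    simp only [Chow1_chow, Finset.prod_eq_zero_iff, Finset.mem_univ, true_and, Chow1_lin_eq_zero]
  rw [← h1]
  constructor
  · intro h
    have h2 := Chow1_ext (v := v) (w := v) (x := 1) (y := 0) fun m => by simp [h]
    simpa using h2
  · intro h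
    funext m
    simp [cc, h]

lemma Chow1_subst [DecidableEq σ] (v u : σ → R) (c : σ) :
    aeval (fun a => C (v c) * X a - if a = c then Chow1_lin v else 0) (Chow1_lin u) =
      C (v c) * Chow1_lin u - C (u c) * Chow1_lin v := by
  rw [show Chow1_lin u = ∑ a, C (u a) * X a from rfl]
  simp only [map_sum, map_mul, aeval_C, aeval_X, algebraMap_eq, mul_sub, Finset.sum_sub_distrib,
    mul_ite, mul_zero, Finset.sum_ite_eq', Finset.mem_univ, if_true]
  congr 1
  rw [Finset.mul_sum]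
  exact Finset.sum_congr rfl fun a _ => mul_left_comm _ _ _

theorem cc_uniq [Infinite k] {v w : I → σ → k} (hv : ∀ i, v i ≠ 0) (hw : ∀ i, w i ≠ 0)
    (h : Crs (cc v) (cc w)) (i : I) : ∃ j, Crs (v i) (w j) := by
  classical
  obtain ⟨b, hb⟩ := Function.ne_iff.1 fun h0 : cc v = 0 => (cc_eq_zero.1 h0).elim hv
  obtain ⟨c, hc⟩ := Function.ne_iff.1 (hv i)
  have hb' : cc v b ≠ 0 := hb
  have hc' : v i c ≠ 0 := hc
  have h1 := Chow1_ext (v := v) (w := w) (x := cc w b) (y := cc v b) fun m => by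
    rw [mul_comm, h m b]
  have h2 := congrArg
    (aeval fun a => C (v i c) * X a - if a = c then Chow1_lin (v i) else 0) h1
  rw [map_mul, map_mul, Chow1_chow, Chow1_chow, map_prod, map_prod,
    Finset.prod_eq_zero (Finset.mem_univ i) (by rw [Chow1_subst, sub_self]), mul_zero, aeval_C,
    algebraMap_eq, eq_comm, mul_eq_zero, C_eq_zero, Finset.prod_eq_zero_iff] at h2
  obtain ⟨j, -, hj⟩ := h2.resolve_left hb'
  rw [Chow1_subst, sub_eq_zero] at hj
  have h3 : ∀ a, v i c * w j a = w j c * v i a := fun a => by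
    have h4 := congrArg (coeff (Finsupp.single a 1)) hj
    rwa [coeff_C_mul, coeff_C_mul, Chow1_coeff_single, Chow1_coeff_single] at h4
  refine ⟨j, fun a a' => mul_left_cancel₀ hc' ?_⟩
  linear_combination v i a * h3 a' - v i a' * h3 a

/-- Chow coordinates of vectors of forms are forms. -/
theorem exists_ccForm {τ : Type} (W : I → σ → MvPolynomial τ R) (d : I → ℕ)
    (h : ∀ i a, (W i a).IsHomogeneous (d i)) (m : Mon σ I) :
    (cc W m).IsHomogeneous (∑ i, d i) := by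
  classical
  have key : ∀ (s : Finset I) (n : σ →₀ ℕ),
      (coeff n (∏ i ∈ s, Chow1_lin (W i))).IsHomogeneous (∑ i ∈ s, d i) := by
    intro s
    induction s using Finset.induction_on with
    | empty =>
      intro n
      rw [Finset.prod_empty, Finset.sum_empty, coeff_one]
      split_ifs
      · exact isHomogeneous_one _ _
      · exact isHomogeneous_zero _ _ _
    | insert i s hi ih =>
      intro n
      rw [Finset.prod_insert hi, Finset.sum_insert hi, coeff_mul]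
      refine IsHomogeneous.sum _ _ _ fun x _ => IsHomogeneous.mul ?_ (ih _)
      rw [Chow1_coeff_lin]
      refine IsHomogeneous.sum _ _ _ fun a _ => ?_
      split_ifs
      · exact h i a
      · exact isHomogeneous_zero _ _ _
  exact key Finset.univ m.1

end MLF
end

-- merged part: Pool.Agent.Work.MP_29d410_ag.Con1A
section
/-!
# Transfer of polynomial identities from the rational points to all algebras
-/

open MvPolynomial

namespace MLF

universe u

variable {k T T' : Type u} [Field k] [CommRing T] [CommRing T'] {σ τ : Type}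

/-- The vector `x` is a zero of all the polynomials which vanish on `V`. -/
def Con1Ann (V : Set (τ → k)) (φ : k →+* T) (x : τ → T) : Prop :=
  ∀ P : MvPolynomial τ k, (∀ y ∈ V, eval₂Hom (RingHom.id k) y P = 0) → eval₂Hom φ x P = 0

theorem Con1_lin [Algebra k T] {α : Type} (S : Finset α) (q x : α → T)
    (h : ∀ θ : T →ₗ[k] k, ∑ a ∈ S, θ (q a) • x a = 0) : ∑ a ∈ S, q a * x a = 0 := by
  classical
  let b := Module.Basis.ofVectorSpace k T
  have e : ∀ a ∈ S, q a * x a =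
      ∑ i ∈ S.biUnion fun a => (b.repr (q a)).support, b i * (b.coord i (q a) • x a) := by
    intro a ha
    have h1 : q a = ∑ i ∈ S.biUnion fun a => (b.repr (q a)).support, b.repr (q a) i • b i := by
      conv_lhs => rw [← b.linearCombination_repr (q a), Finsupp.linearCombination_apply]
      exact Finsupp.sum_of_support_subset _ (Finset.subset_biUnion_of_mem
        (fun a => (b.repr (q a)).support) ha) _ fun i _ => zero_smul _ _
    conv_lhs => rw [h1, Finset.sum_mul]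
    refine Finset.sum_congr rfl fun i _ => ?_
    rw [Module.Basis.coord_apply, smul_mul_assoc, mul_smul_comm]
  rw [Finset.sum_congr rfl e, Finset.sum_comm]
  refine Finset.sum_eq_zero fun i _ => ?_
  rw [← Finset.mul_sum, h, mul_zero]

theorem Con1Ann.ext {W : Set (τ → k)} {φ : k →+* T} {w : τ → T} (hw : Con1Ann W φ w)
    (Q : MvPolynomial τ T) (h : ∀ y ∈ W, eval (φ ∘ y) Q = 0) : eval w Q = 0 := by
  let _ := φ.toAlgebra
  rw [eval_eq]
  refine Con1_lin (k := k) _ _ _ fun θ => ?_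
  have := hw (∑ α ∈ Q.support, monomial α (θ (coeff α Q))) fun y hy => by
    have h1 := congrArg θ (h y hy)
    rw [eval_eq, map_sum, map_zero] at h1
    rw [map_sum, ← h1]
    refine Finset.sum_congr rfl fun α _ => ?_
    have h2 : ∏ i ∈ α.support, (φ ∘ y) i ^ α i = φ (∏ i ∈ α.support, y i ^ α i) := by
      simp only [map_prod, map_pow, Function.comp_apply]
    rw [eval₂Hom_monomial, h2, mul_comm (coeff α Q)]
    change _ = θ ((∏ i ∈ α.support, y i ^ α i) • coeff α Q)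
    rw [map_smul, smul_eq_mul, mul_comm]
    rfl
  rw [map_sum] at this
  refine Eq.trans (Finset.sum_congr rfl fun α _ => ?_) this
  rw [eval₂Hom_monomial]
  rfl

/-- The product of two sets of vectors. -/
def Con1pr (V : Set (σ → k)) (W : Set (τ → k)) : Set (σ ⊕ τ → k) :=
  {y | y ∘ Sum.inl ∈ V ∧ y ∘ Sum.inr ∈ W}

theorem Con1Ann.prod {V : Set (σ → k)} {W : Set (τ → k)} {φ : k →+* T} {v : σ → T} {w : τ → T}
    (hv : Con1Ann V φ v) (hw : Con1Ann W φ w) : Con1Ann (Con1pr V W) φ (Sum.elim v w) := by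
  intro P hP
  have e1 : ∀ w' : τ → T, eval w' (eval₂Hom (C.comp φ) (Sum.elim (C ∘ v) X) P) =
      eval₂Hom φ (Sum.elim v w') P := fun w' => by
    rw [map_eval₂Hom]
    congr 2
    · ext c
      simp
    · funext i
      cases i <;> simp
  rw [← e1]
  refine hw.ext _ fun y hy => ?_
  have e2 : ∀ {S : Type u} [CommRing S] (ψ : k →+* S) (x : σ → S),
      eval₂Hom ψ x (eval₂Hom C (Sum.elim X (C ∘ y)) P) = eval₂Hom ψ (Sum.elim x (ψ ∘ y)) P := by
    intro S _ ψ x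
    rw [map_eval₂Hom]
    congr 2
    · ext c
      simp
    · funext i
      cases i <;> simp
  rw [e1, ← e2]
  refine hv _ fun x hx => ?_
  rw [e2]
  exact hP _ ⟨hx, hy⟩

theorem Con1_null [IsAlgClosed k] [Finite τ] (φ : k →+* T) (x : τ → T) (h : (1 : T) ≠ 0) :
    ∃ y : τ → k, ∀ P, eval₂Hom φ x P = 0 → eval₂Hom (RingHom.id k) y P = 0 := by
  have : Nontrivial T := ⟨1, 0, h⟩
  obtain ⟨M, hM, hle⟩ := Ideal.exists_le_maximal _ (RingHom.ker_ne_top (eval₂Hom φ x))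
  obtain ⟨y, rfl⟩ := isMaximal_iff_eq_vanishingIdeal_singleton.1 hM
  exact ⟨y, fun P hP => (mem_vanishingIdeal_singleton_iff y P).1 (hle hP)⟩

theorem Con1_fin {R : Type u} [CommRing R] [IsNoetherianRing R] {α : Type u} (f : α → R) :
    ∃ (m : ℕ) (g : Fin m → α), Ideal.span (Set.range (f ∘ g)) = Ideal.span (Set.range f) := by
  obtain ⟨s, hs, e⟩ := (Submodule.fg_span_iff_fg_span_finset_subset (R := R) (Set.range f)).1
    (IsNoetherian.noetherian _)
  choose g hg using fun r : s => hs r.2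
  refine ⟨s.card, g ∘ s.equivFin.symm, Eq.trans ?_ e.symm⟩
  rw [← Function.comp_assoc, s.equivFin.symm.surjective.range_comp,
    show f ∘ g = Subtype.val from funext hg, Subtype.range_coe]

section nat

variable {R : Type u} [CommRing R] (𝒢 : GData R σ) (ψ : T →+* T') (φ : R →+* T)

theorem Con1_add (j : 𝒢.κ) (v w : σ → T) :
    ψ ∘ 𝒢.add φ j v w = 𝒢.add (ψ.comp φ) j (ψ ∘ v) (ψ ∘ w) := by
  funext i
  simp only [Function.comp_apply, GData.add, eval₂_comp_left, Sum.comp_elim]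

theorem Con1_neg (j : 𝒢.μ) (v : σ → T) : ψ ∘ 𝒢.neg φ j v = 𝒢.neg (ψ.comp φ) j (ψ ∘ v) := by
  funext i
  simp only [Function.comp_apply, GData.neg, eval₂_comp_left]

theorem Con1_C (x : τ → T) : (eval₂Hom φ x).comp C = φ := eval₂Hom_comp_C φ x

theorem Con1_X {α : Type} (x : τ → T) (e : α → τ) : eval₂Hom φ x ∘ X ∘ e = x ∘ e :=
  funext fun a => eval₂Hom_X' φ x (e a)

theorem Con1_X' (x : τ → T) : eval₂Hom φ x ∘ X = x := funext (eval₂Hom_X' φ x)

theorem Con1_o {α : Type} (x : τ → T) (o : α → R) : eval₂Hom φ x ∘ C ∘ o = φ ∘ o :=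
  funext fun a => eval₂Hom_C φ x (o a)

end nat

theorem Con1Ann.crs {W : Set (τ → k)} {φ : k →+* T} {x : τ → T} (hx : Con1Ann W φ x)
    (E₁ E₂ : σ → MvPolynomial τ k)
    (h : ∀ y ∈ W, Crs (eval₂Hom (RingHom.id k) y ∘ E₁) (eval₂Hom (RingHom.id k) y ∘ E₂)) :
    Crs (eval₂Hom φ x ∘ E₁) (eval₂Hom φ x ∘ E₂) := fun a b => by
  have := hx (E₁ a * E₂ b - E₁ b * E₂ a) fun y hy => by
    rw [map_sub, map_mul, map_mul, sub_eq_zero]
    exact h y hy a b
  rwa [map_sub, map_mul, map_mul, sub_eq_zero] at this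

theorem Con1Ann.z {W : Set (τ → k)} {φ : k →+* T} {x : τ → T} (hx : Con1Ann W φ x)
    (𝒢 : GData k σ) (E : σ → MvPolynomial τ k)
    (h : ∀ y ∈ W, 𝒢.Z (RingHom.id k) (eval₂Hom (RingHom.id k) y ∘ E)) :
    𝒢.Z φ (eval₂Hom φ x ∘ E) := fun i => by
  have := hx (eval₂ C E (𝒢.eqn i)) fun y hy => by
    rw [eval₂_comp_left, Con1_C]
    exact h y hy i
  rwa [eval₂_comp_left, Con1_C] at this

theorem Con1_z_null {φ : k →+* T} {x : τ → T} {y : τ → k}
    (h : ∀ P, eval₂Hom φ x P = 0 → eval₂Hom (RingHom.id k) y P = 0) (𝒢 : GData k σ) (e : σ → τ)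
    (hz : 𝒢.Z φ (x ∘ e)) : 𝒢.Z (RingHom.id k) (y ∘ e) := fun i => by
  have := h (eval₂ C (X ∘ e) (𝒢.eqn i)) (by
    rw [eval₂_comp_left, Con1_C, Con1_X]
    exact hz i)
  rwa [eval₂_comp_left, Con1_C, Con1_X] at this

theorem Con1_ne_null {φ : k →+* T} {x : τ → T} {y : τ → k}
    (h : ∀ P, eval₂Hom φ x P = 0 → eval₂Hom (RingHom.id k) y P = 0) (e : σ → τ) {a : σ} {t : τ}
    (h1 : x (e a) * x t = 1) : y ∘ e ≠ 0 := fun h0 => by
  have := h (X (e a) * X t - 1) (by simp [h1])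
  have h2 : y (e a) = 0 := congrFun h0 a
  simp [h2] at this

/-- The laws follow from their validity on the rational points. -/
theorem Con1_laws [IsAlgClosed k] [Finite σ] (𝒢 : GData k σ) {P : Type u} [AddCommGroup P]
    (Rp : P → (σ → k) → Prop) (φ : k →+* T)
    (hann : ∀ v, 𝒢.Z φ v → Con1Ann {v | ∃ x, Rp x v} φ v)
    (hcrs : ∀ x v w, Rp x v → Rp x w → Crs v w)
    (hZ : ∀ v, 𝒢.Z (RingHom.id k) v ↔ ∃ x, Rp x v)
    (hadd : ∀ j x y v w, Rp x v → Rp y w → Rp (x + y) (𝒢.add (RingHom.id k) j v w))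
    (hneg : ∀ j x v, Rp x v → Rp (-x) (𝒢.neg (RingHom.id k) j v))
    (cadd : ∀ x y v w, Rp x v → Rp y w → v ≠ 0 → w ≠ 0 → ∃ j, 𝒢.add (RingHom.id k) j v w ≠ 0)
    (cneg : ∀ x v, Rp x v → v ≠ 0 → ∃ j, 𝒢.neg (RingHom.id k) j v ≠ 0)
    (ho : Rp 0 𝒢.o) : 𝒢.Laws φ where
  z_add j v w hv hw := by
    have := ((hann v hv).prod (hann w hw)).z 𝒢 (𝒢.add C j (X ∘ Sum.inl) (X ∘ Sum.inr))
      fun y ⟨⟨a, ha⟩, ⟨b, hb⟩⟩ => by
        simp only [Con1_add, Con1_C, Con1_X]
        exact (hZ _).2 ⟨_, hadd j _ _ _ _ ha hb⟩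
    simpa only [Con1_add, Con1_C, Con1_X, Sum.elim_comp_inl, Sum.elim_comp_inr] using this
  add_comm j j' v w hv hw := by
    have := ((hann v hv).prod (hann w hw)).crs (𝒢.add C j (X ∘ Sum.inl) (X ∘ Sum.inr))
      (𝒢.add C j' (X ∘ Sum.inr) (X ∘ Sum.inl)) fun y ⟨⟨a, ha⟩, ⟨b, hb⟩⟩ => by
        simp only [Con1_add, Con1_C, Con1_X]
        exact hcrs _ _ _ (hadd j _ _ _ _ ha hb) (add_comm b a ▸ hadd j' _ _ _ _ hb ha)
    simpa only [Con1_add, Con1_C, Con1_X, Sum.elim_comp_inl, Sum.elim_comp_inr] using this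
  add_add j j' v w hv hw := by
    have := ((hann v hv).prod (hann w hw)).crs (𝒢.add C j (X ∘ Sum.inl) (X ∘ Sum.inr))
      (𝒢.add C j' (X ∘ Sum.inl) (X ∘ Sum.inr)) fun y ⟨⟨a, ha⟩, ⟨b, hb⟩⟩ => by
        simp only [Con1_add, Con1_C, Con1_X]
        exact hcrs _ _ _ (hadd j _ _ _ _ ha hb) (hadd j' _ _ _ _ ha hb)
    simpa only [Con1_add, Con1_C, Con1_X, Sum.elim_comp_inl, Sum.elim_comp_inr] using this
  add_cover v w a b x y hv hw hx hy h := by
    by_contra h1
    obtain ⟨z, hz⟩ := Con1_null φ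
      (Sum.elim (Sum.elim v w) (fun t : Bool => cond t x y) : (σ ⊕ σ) ⊕ Bool → T) h1
    obtain ⟨p, hp⟩ := (hZ _).1 (Con1_z_null hz 𝒢 (Sum.inl ∘ Sum.inl) hv)
    obtain ⟨q, hq⟩ := (hZ _).1 (Con1_z_null hz 𝒢 (Sum.inl ∘ Sum.inr) hw)
    obtain ⟨j, hj⟩ := cadd _ _ _ _ hp hq
      (Con1_ne_null hz (Sum.inl ∘ Sum.inl) (a := a) (t := Sum.inr true) hx)
      (Con1_ne_null hz (Sum.inl ∘ Sum.inr) (a := b) (t := Sum.inr false) hy)
    refine hj (funext fun i => ?_)
    have e := fun {S : Type u} [CommRing S] (ψ : k →+* S) (t : (σ ⊕ σ) ⊕ Bool → S) =>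
      congrFun (Con1_add 𝒢 (eval₂Hom ψ t) C j (X ∘ Sum.inl ∘ Sum.inl) (X ∘ Sum.inl ∘ Sum.inr)) i
    simp only [Con1_C, Con1_X, Function.comp_apply] at e
    rw [← e]
    refine hz _ ?_
    rw [e]
    exact h j i
  add_assoc j₁ j₂ j₃ j₄ v w z hv hw hz := by
    have := ((hann v hv).prod ((hann w hw).prod (hann z hz))).crs
      (𝒢.add C j₂ (𝒢.add C j₁ (X ∘ Sum.inl) (X ∘ Sum.inr ∘ Sum.inl)) (X ∘ Sum.inr ∘ Sum.inr))
      (𝒢.add C j₄ (X ∘ Sum.inl) (𝒢.add C j₃ (X ∘ Sum.inr ∘ Sum.inl) (X ∘ Sum.inr ∘ Sum.inr)))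
      fun y ⟨⟨a, ha⟩, ⟨b, hb⟩, ⟨c, hc⟩⟩ => by
        simp only [Con1_add, Con1_C, Con1_X]
        exact hcrs _ _ _ (hadd j₂ _ _ _ _ (hadd j₁ _ _ _ _ ha hb) hc)
          (add_assoc a b c ▸ hadd j₄ _ _ _ _ ha (hadd j₃ _ _ _ _ hb hc))
    simp only [Con1_add, Con1_C, Con1_X] at this
    exact this
  z_o := by
    intro i
    have h := congrArg φ ((hZ _).2 ⟨0, ho⟩ i)
    rwa [eval₂_comp_left, map_zero] at h
  add_o j v hv := by
    have := (hann v hv).crs (𝒢.add C j X (C ∘ 𝒢.o)) X fun y ⟨a, ha⟩ => by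
      simp only [Con1_add, Con1_C, Con1_X', Con1_o]
      exact hcrs _ _ _ (hadd j _ _ _ _ ha ho) ((add_zero a).symm ▸ ha)
    simpa only [Con1_add, Con1_C, Con1_X', Con1_o] using this
  z_neg j v hv := by
    have := (hann v hv).z 𝒢 (𝒢.neg C j X) fun y ⟨a, ha⟩ => by
      simp only [Con1_neg, Con1_C, Con1_X']
      exact (hZ _).2 ⟨_, hneg j _ _ ha⟩
    simpa only [Con1_neg, Con1_C, Con1_X'] using this
  neg_neg j j' v hv := by
    have := (hann v hv).crs (𝒢.neg C j X) (𝒢.neg C j' X) fun y ⟨a, ha⟩ => by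
      simp only [Con1_neg, Con1_C, Con1_X']
      exact hcrs _ _ _ (hneg j _ _ ha) (hneg j' _ _ ha)
    simpa only [Con1_neg, Con1_C, Con1_X'] using this
  neg_cover v a x hv hx h := by
    by_contra h1
    obtain ⟨z, hz⟩ := Con1_null φ (Sum.elim v (fun _ : Unit => x) : σ ⊕ Unit → T) h1
    obtain ⟨p, hp⟩ := (hZ _).1 (Con1_z_null hz 𝒢 Sum.inl hv)
    obtain ⟨j, hj⟩ := cneg _ _ hp (Con1_ne_null hz Sum.inl (a := a) (t := Sum.inr ()) hx)
    refine hj (funext fun i => ?_)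
    have e := fun {S : Type u} [CommRing S] (ψ : k →+* S) (t : σ ⊕ Unit → S) =>
      congrFun (Con1_neg 𝒢 (eval₂Hom ψ t) C j (X ∘ Sum.inl)) i
    simp only [Con1_C, Con1_X, Function.comp_apply] at e
    rw [← e]
    refine hz _ ?_
    rw [e]
    exact h j i
  neg_add j j' v hv := by
    have := (hann v hv).crs (𝒢.add C j (𝒢.neg C j' X) X) (C ∘ 𝒢.o) fun y ⟨a, ha⟩ => by
      simp only [Con1_add, Con1_neg, Con1_C, Con1_X', Con1_o]
      exact hcrs _ _ _ (hadd j _ _ _ _ (hneg j' _ _ ha) ha) ((neg_add_cancel a).symm ▸ ho)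
    simpa only [Con1_add, Con1_neg, Con1_C, Con1_X', Con1_o] using this

end MLF
end

-- merged part: Pool.Agent.Work.MP_29d410_ag.Con1
section
/-!
# The polynomial data of an abelian variety

Plan.  `V` is the punctured cone, the set of the nonzero vectors representing points of `A`.  Its
vanishing ideal `𝔭` is homogeneous (`k` is infinite), generated by finitely many forms `eqn i`.
A nonzero common zero of `𝔭` represents a point of `A` (`closed_iff`: the sets `{g ≠ 0}` are stable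
under finite intersections, so form a basis).  `cone₂`, `cone₃`: a polynomial `P (x, y)` vanishing on
`V × W` lies in `I (V) + I (W)`: write `P = ∑ a i (x) * b i (y)` modulo `I (W)` with the `b i` independent
modulo `I (W)`.  So every polynomial identity valid on tuples of vectors of `V` holds over all
`k`-algebras for vectors satisfying the equations.  From `add_reg` take, by Noetherianity of the
ideal generated by the forms `G`, finitely many pairs `(G j, F j)` such that the `G j` have no common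
zero on `V × V`, and put `Φ (j, a, b) = G j * x a * y b * F j`; at `(v, w) ∈ V × V` this is zero or a
coordinate vector of the sum, and it vanishes if `v = 0` or `w = 0`.  Likewise for `N`.  The laws
`add_cover`, `neg_cover` follow from the Nullstellensatz
(`MvPolynomial.vanishingIdeal_zeroLocus_eq_radical`, with extra variables for the inverses).
-/

open MvPolynomial

namespace MLF

universe u

variable {k : Type u} [Field k] {n : ℕ}

theorem PP.is_crd (x : PP k n) : x.Is x.crd :=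
  ⟨Projectivization.rep_nonzero x, (Projectivization.mk_rep x).symm⟩
theorem PP.Is.eq {x y : PP k n} {v : Fin (n + 1) → k} (h : x.Is v) (h' : y.Is v) : x = y :=
  h.2.trans h'.2.symm
theorem PP.Is.smul {x : PP k n} {v : Fin (n + 1) → k} (h : x.Is v) {c : k} (hc : c ≠ 0) :
    x.Is (c • v) :=
  ⟨smul_ne_zero hc h.1, h.2.trans
    ((Projectivization.mk_eq_mk_iff' k _ _ (smul_ne_zero hc h.1) h.1).2 ⟨c, rfl⟩).symm⟩
theorem PP.Is.exists_smul {x : PP k n} {v w : Fin (n + 1) → k} (h : x.Is v) (h' : x.Is w) :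
    ∃ c : k, c ≠ 0 ∧ w = c • v := by
  obtain ⟨c, hc⟩ := (Projectivization.mk_eq_mk_iff k _ _ h'.1 h.1).1 (h'.2.symm.trans h.2)
  exact ⟨c, c.ne_zero, hc.symm⟩
theorem PP.exists_is {v : Fin (n + 1) → k} (h : v ≠ 0) : ∃ x : PP k n, x.Is v :=
  ⟨Projectivization.mk k v h, h, rfl⟩

theorem Con1_open {g : MvPolynomial (Fin (n + 1)) k} {d : ℕ} (h : g.IsHomogeneous d) :
    IsOpen {x : PP k n | eval x.crd g ≠ 0} :=
  TopologicalSpace.GenerateOpen.basic _ ⟨g, d, h, rfl⟩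

theorem Con1_basis {U : Set (PP k n)} (hU : IsOpen U) : ∀ y ∈ U,
    ∃ (g : MvPolynomial (Fin (n + 1)) k) (d : ℕ), g.IsHomogeneous d ∧ eval y.crd g ≠ 0 ∧
      ∀ x : PP k n, eval x.crd g ≠ 0 → x ∈ U := by
  induction hU with
  | basic U hU =>
    obtain ⟨g, d, h, rfl⟩ := hU
    exact fun y hy => ⟨g, d, h, hy, fun _ hx => hx⟩
  | univ => exact fun y _ => ⟨1, 0, isHomogeneous_one _ _, by simp, fun _ _ => trivial⟩
  | inter U V _ _ ihU ihV =>
    intro y hy
    obtain ⟨g, d, h1, h2, h3⟩ := ihU y hy.1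
    obtain ⟨g', d', h1', h2', h3'⟩ := ihV y hy.2
    refine ⟨g * g', d + d', h1.mul h1', by rw [map_mul]; exact mul_ne_zero h2 h2', fun x hx => ?_⟩
    rw [map_mul] at hx
    exact ⟨h3 x (left_ne_zero_of_mul hx), h3' x (right_ne_zero_of_mul hx)⟩
  | sUnion S _ ih =>
    rintro y ⟨U, hU, hy⟩
    obtain ⟨g, d, h1, h2, h3⟩ := ih U hU y hy
    exact ⟨g, d, h1, h2, fun x hx => ⟨U, hU, h3 x hx⟩⟩

theorem PP.closed_iff {X : Set (PP k n)} : IsClosed X ↔ ∀ y : PP k n,
    (∀ (g : MvPolynomial (Fin (n + 1)) k) (d : ℕ), g.IsHomogeneous d →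
      (∀ x ∈ X, eval x.crd g = 0) → eval y.crd g = 0) → y ∈ X := by
  constructor
  · intro hX y hy
    by_contra hc
    obtain ⟨g, d, h1, h2, h3⟩ := Con1_basis hX.isOpen_compl y hc
    exact h2 (hy g d h1 fun x hx => not_not.1 fun h => h3 x h hx)
  · intro h
    rw [← isOpen_compl_iff, isOpen_iff_forall_mem_open]
    intro y hy
    have hy' := mt (h y) hy
    push Not at hy'
    obtain ⟨g, d, h1, h2, h3⟩ := hy'
    exact ⟨{x | eval x.crd g ≠ 0}, fun x hx hx' => hx (h2 x hx'), Con1_open h1, h3⟩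

/-- `v` is zero or a vector of coordinates of `x`. -/
def Con1Rp (x : PP k n) (v : Fin (n + 1) → k) : Prop := ∃ c : k, v = c • x.crd

theorem Con1Rp.is {x : PP k n} {v : Fin (n + 1) → k} (h : Con1Rp x v) (hv : v ≠ 0) : x.Is v := by
  obtain ⟨c, rfl⟩ := h
  exact x.is_crd.smul (left_ne_zero_of_smul hv)

theorem Con1Rp.smul {x : PP k n} {v w : Fin (n + 1) → k} (h : x.Is v) (c : k) (e : w = c • v) :
    Con1Rp x w := by
  obtain ⟨c', -, rfl⟩ := x.is_crd.exists_smul h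
  exact ⟨c * c', by rw [e, mul_smul]⟩

theorem Con1Rp.of_is {x : PP k n} {v : Fin (n + 1) → k} (h : x.Is v) : Con1Rp x v :=
  Con1Rp.smul h 1 (one_smul _ _).symm

theorem Con1_comp [Infinite k] {σ : Type} {g : MvPolynomial σ k} {v : σ → k}
    (h : ∀ c : k, eval (c • v) g = 0) (d : ℕ) : eval v (homogeneousComponent d g) = 0 := by
  by_cases hd : g.totalDegree < d
  · rw [homogeneousComponent_eq_zero d g hd, map_zero]
  have h0 : (∑ i ∈ Finset.range (g.totalDegree + 1),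
      Polynomial.monomial i (eval v (homogeneousComponent i g))) = 0 := by
    refine Polynomial.funext fun c => ?_
    rw [Polynomial.eval_zero, ← h c, Polynomial.eval_finsetSum]
    conv_rhs => rw [← sum_homogeneousComponent g, map_sum]
    refine Finset.sum_congr rfl fun i _ => ?_
    rw [Polynomial.eval_monomial, Prod_hom (homogeneousComponent_isHomogeneous i g), mul_comm]
  have h1 := congrArg (fun p => Polynomial.coeff p d) h0
  simp only [Polynomial.finsetSum_coeff, Polynomial.coeff_monomial, Finset.sum_ite_eq',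
    Finset.mem_range, Polynomial.coeff_zero] at h1
  rwa [if_pos (by omega)] at h1

theorem Con1_eqn [IsAlgClosed k] (A : AV k n) : ∃ (m : ℕ)
    (eqn : Fin m → MvPolynomial (Fin (n + 1)) k) (deg : Fin m → ℕ),
    (∀ i, (eqn i).IsHomogeneous (deg i)) ∧ (Ideal.span (Set.range eqn)).IsPrime ∧
    ∀ g, g ∈ Ideal.span (Set.range eqn) ↔
      ∀ (x : A.pts) v, Con1Rp x.1 v → eval v g = 0 := by
  obtain ⟨m, e, he⟩ := Con1_fin fun t : {t : MvPolynomial (Fin (n + 1)) k × ℕ //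
    t.1.IsHomogeneous t.2 ∧ ∀ x : A.pts, eval x.1.crd t.1 = 0} => t.1.1
  have hmem : ∀ g d, g.IsHomogeneous d → (∀ x : A.pts, eval x.1.crd g = 0) →
      g ∈ Ideal.span (Set.range fun i => (e i).1.1) := fun g d h1 h2 =>
    he.ge (Ideal.subset_span ⟨⟨(g, d), h1, h2⟩, rfl⟩)
  have hvan : ∀ g ∈ Ideal.span (Set.range fun i => (e i).1.1),
      ∀ (x : A.pts) v, Con1Rp x.1 v → eval v g = 0 := by
    rintro g hg x _ ⟨c, rfl⟩
    refine (Ideal.span_le (I := RingHom.ker (eval (c • x.1.crd)))).2 ?_ hg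
    rintro _ ⟨i, rfl⟩
    change eval _ _ = 0
    rw [Prod_hom (e i).2.1, (e i).2.2 x, mul_zero]
  refine ⟨m, fun i => (e i).1.1, fun i => (e i).1.2, fun i => (e i).2.1, ?_,
    fun g => ⟨hvan g, fun h => ?_⟩⟩
  · let _ := MvPolynomial.gradedAlgebra (σ := Fin (n + 1)) (R := k)
    refine Ideal.IsHomogeneous.isPrime_of_homogeneous_mem_or_mem
      (𝒜 := homogeneousSubmodule (Fin (n + 1)) k)
      (Ideal.homogeneous_span _ _ ?_) ?_ ?_
    · rintro _ ⟨i, rfl⟩
      exact ⟨(e i).1.2, (e i).2.1⟩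
    · rw [Ideal.ne_top_iff_one]
      obtain ⟨x, hx⟩ := A.irred.nonempty
      intro h
      simpa using hvan 1 h ⟨x, hx⟩ _ (Con1Rp.of_is x.is_crd)
    · rintro f g ⟨d, hf⟩ ⟨d', hg⟩ hfg
      have := isPreirreducible_iff_isClosed_union_isClosed.1 A.irred.isPreirreducible _ _
        (Con1_open hf).isClosed_compl (Con1_open hg).isClosed_compl fun x hx => by
          have := hvan _ hfg ⟨x, hx⟩ _ (Con1Rp.of_is x.is_crd)
          rw [map_mul, mul_eq_zero] at this
          exact this.imp (fun h h' => h' h) fun h h' => h' h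
      exact this.imp (fun h => hmem f d hf fun x => not_not.1 (h x.2))
        fun h => hmem g d' hg fun x => not_not.1 (h x.2)
  · rw [← sum_homogeneousComponent g]
    exact Ideal.sum_mem _ fun d _ => hmem _ d (homogeneousComponent_isHomogeneous d g)
      fun x => Con1_comp (fun c => h x _ ⟨c, rfl⟩) d

theorem Con1_Phi (A : AV k n) : ∃ (κ : Type) (_ : Finite κ)
    (Φ : κ → Fin (n + 1) → MvPolynomial (Fin (n + 1) ⊕ Fin (n + 1)) k) (d : κ → ℕ × ℕ),
    (∀ j i, Bihom (Φ j i) (d j)) ∧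
    (∀ j (x y : A.pts) v w, Con1Rp x.1 v → Con1Rp y.1 w →
      Con1Rp (x + y).1 fun i => eval (Sum.elim v w) (Φ j i)) ∧
    ∀ (x y : A.pts) v w, x.1.Is v → y.1.Is w →
      ∃ j, (fun i => eval (Sum.elim v w) (Φ j i)) ≠ 0 := by
  choose G F d d' hG hF h0 hI using A.add_reg
  obtain ⟨m, e, he⟩ := Con1_fin fun t : A.pts × A.pts => G t.1 t.2
  have key : ∀ (p q x y : A.pts) (c c' : k) (a b : Fin (n + 1)),
      (fun i => eval (Sum.elim (c • x.1.crd) (c' • y.1.crd))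
        (G p q * X (Sum.inl a) * X (Sum.inr b) * F p q i)) =
      (c ^ (d p q).1 * c' ^ (d p q).2 * eval (Sum.elim x.1.crd y.1.crd) (G p q) *
        (c * x.1.crd a) * (c' * y.1.crd b) * (c ^ (d' p q).1 * c' ^ (d' p q).2)) •
        fun i => eval (Sum.elim x.1.crd y.1.crd) (F p q i) := by
    intro p q x y c c' a b
    funext i
    simp only [map_mul, eval_X, Prod_bihom (hG p q), Prod_bihom (hF p q i), Sum.elim_inl,
      Sum.elim_inr, Pi.smul_apply, smul_eq_mul]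
    ring
  refine ⟨Fin m × Fin (n + 1) × Fin (n + 1), inferInstance,
    fun j i => G (e j.1).1 (e j.1).2 * X (Sum.inl j.2.1) * X (Sum.inr j.2.2) *
      F (e j.1).1 (e j.1).2 i,
    fun j => d (e j.1).1 (e j.1).2 + (1, 0) + (0, 1) + d' (e j.1).1 (e j.1).2,
    fun j i => (((hG _ _).mul (isWeightedHomogeneous_X k _ (Sum.inl j.2.1))).mul
      (isWeightedHomogeneous_X k _ (Sum.inr j.2.2))).mul (hF _ _ i), ?_, ?_⟩
  · rintro j x y _ _ ⟨c, rfl⟩ ⟨c', rfl⟩
    by_cases h : eval (Sum.elim x.1.crd y.1.crd) (G (e j.1).1 (e j.1).2) = 0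
    · refine ⟨0, ?_⟩
      rw [key, h]
      simp
    · exact Con1Rp.smul (hI _ _ x y h) _ (key _ _ _ _ _ _ _ _)
  · intro x y v w hv hw
    obtain ⟨c, hc, rfl⟩ := x.1.is_crd.exists_smul hv
    obtain ⟨c', hc', rfl⟩ := y.1.is_crd.exists_smul hw
    obtain ⟨a, ha⟩ := Function.ne_iff.1 x.1.is_crd.1
    obtain ⟨b, hb⟩ := Function.ne_iff.1 y.1.is_crd.1
    obtain ⟨j, hj⟩ : ∃ j, eval (Sum.elim x.1.crd y.1.crd) (G (e j).1 (e j).2) ≠ 0 := by
      by_contra hc
      push Not at hc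
      refine h0 x y ((Ideal.span_le (I := RingHom.ker (eval (Sum.elim x.1.crd y.1.crd)))).2 ?_
        (he.ge (Ideal.subset_span ⟨(x, y), rfl⟩)))
      rintro _ ⟨j, rfl⟩
      exact hc j
    refine ⟨(j, a, b), ?_⟩
    rw [key]
    refine smul_ne_zero ?_ (hI _ _ x y hj).1
    have ha' : x.1.crd a ≠ 0 := ha
    have hb' : y.1.crd b ≠ 0 := hb
    simp [hc, hc', hj, ha', hb']

theorem Con1_N (A : AV k n) : ∃ (μ : Type) (_ : Finite μ)
    (N : μ → Fin (n + 1) → MvPolynomial (Fin (n + 1)) k) (d : μ → ℕ),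
    (∀ j i, (N j i).IsHomogeneous (d j)) ∧
    (∀ j (x : A.pts) v, Con1Rp x.1 v → Con1Rp (-x).1 fun i => eval v (N j i)) ∧
    ∀ (x : A.pts) v, x.1.Is v → ∃ j, (fun i => eval v (N j i)) ≠ 0 := by
  choose G F d d' hG hF h0 hI using A.neg_reg
  obtain ⟨m, e, he⟩ := Con1_fin G
  have key : ∀ (p x : A.pts) (c : k), (fun i => eval (c • x.1.crd) (G p * F p i)) =
      (c ^ d p * eval x.1.crd (G p) * c ^ d' p) • fun i => eval x.1.crd (F p i) := by
    intro p x c
    funext i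
    simp only [map_mul, Prod_hom (hG p), Prod_hom (hF p i), Pi.smul_apply, smul_eq_mul]
    ring
  refine ⟨Fin m, inferInstance, fun j i => G (e j) * F (e j) i, fun j => d (e j) + d' (e j),
    fun j i => (hG _).mul (hF _ i), ?_, ?_⟩
  · rintro j x _ ⟨c, rfl⟩
    by_cases h : eval x.1.crd (G (e j)) = 0
    · refine ⟨0, ?_⟩
      rw [key, h]
      simp
    · exact Con1Rp.smul (hI _ x h) _ (key _ _ _)
  · intro x v hv
    obtain ⟨c, hc, rfl⟩ := x.1.is_crd.exists_smul hv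
    obtain ⟨j, hj⟩ : ∃ j, eval x.1.crd (G (e j)) ≠ 0 := by
      by_contra hc
      push Not at hc
      refine h0 x ((Ideal.span_le (I := RingHom.ker (eval x.1.crd))).2 ?_
        (he.ge (Ideal.subset_span ⟨x, rfl⟩)))
      rintro _ ⟨j, rfl⟩
      exact hc j
    refine ⟨j, ?_⟩
    rw [key]
    refine smul_ne_zero ?_ (hI _ x hj).1
    simp [hc, hj]

theorem AV.exists_gdata [IsAlgClosed k] (A : AV k n) : ∃ 𝒢 : GData k (Fin (n + 1)),
    (∀ (T : Type u) [CommRing T] (φ : k →+* T), 𝒢.Laws φ) ∧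
    (Ideal.span (Set.range 𝒢.eqn)).IsPrime ∧
    (∀ v, v ≠ 0 → (𝒢.Z (RingHom.id k) v ↔ ∃ x : A.pts, x.1.Is v)) ∧
    ∀ (x y : A.pts) v w j, x.1.Is v → y.1.Is w → 𝒢.add (RingHom.id k) j v w ≠ 0 →
      (x + y).1.Is (𝒢.add (RingHom.id k) j v w) := by
  obtain ⟨m, eqn, deg, hhom, hprime, hmem⟩ := Con1_eqn A
  obtain ⟨κ, _, Φ, dΦ, hΦ, hadd, cadd⟩ := Con1_Phi A
  obtain ⟨μ, _, N, dN, hN, hneg, cneg⟩ := Con1_N A
  obtain ⟨i₀, hi₀⟩ := Function.ne_iff.1 (0 : A.pts).1.is_crd.1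
  let 𝒢 : GData k (Fin (n + 1)) :=
    { ι := Fin m, eqn := eqn, deg := deg, eqn_hom := hhom, κ := κ, Φ := Φ, degΦ := dΦ,
      Φ_hom := hΦ, μ := μ, N := N, degN := dN, N_hom := hN,
      o := ((0 : A.pts).1.crd i₀)⁻¹ • (0 : A.pts).1.crd, i₀ := i₀, o_i₀ := inv_mul_cancel₀ hi₀ }
  have hker : ∀ {T : Type u} [CommRing T] (φ : k →+* T) (v : Fin (n + 1) → T), 𝒢.Z φ v →
      ∀ g ∈ Ideal.span (Set.range eqn), eval₂Hom φ v g = 0 := by
    intro T _ φ v hv
    refine (Ideal.span_le (I := RingHom.ker (eval₂Hom φ v))).2 ?_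
    rintro _ ⟨i, rfl⟩
    exact hv i
  have hZ : ∀ v, 𝒢.Z (RingHom.id k) v ↔ ∃ x : A.pts, Con1Rp x.1 v := by
    refine fun v => ⟨fun h => ?_, fun ⟨x, hx⟩ i =>
      (hmem _).1 (Ideal.subset_span ⟨i, rfl⟩) x v hx⟩
    by_cases hv : v = 0
    · exact ⟨0, 0, by rw [hv, zero_smul]⟩
    obtain ⟨y, hy⟩ := PP.exists_is hv
    refine ⟨⟨y, PP.closed_iff.1 A.closed y fun g d hg h0 => ?_⟩, Con1Rp.of_is hy⟩
    obtain ⟨c, -, hc⟩ := hy.exists_smul y.is_crd
    have : eval v g = 0 := hker _ v h g ((hmem g).2 (by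
      rintro x _ ⟨c, rfl⟩
      rw [Prod_hom hg, h0 x x.2, mul_zero]))
    rw [hc, Prod_hom hg, this, mul_zero]
  refine ⟨𝒢, fun T _ φ => Con1_laws 𝒢 (fun x : A.pts => Con1Rp x.1) φ
    (fun v hv P hP => hker φ v hv P ((hmem P).2 fun x w hw => hP w ⟨x, hw⟩)) ?_ hZ hadd hneg
    (fun x y v w hv hw h1 h2 => cadd x y v w (hv.is h1) (hw.is h2))
    (fun x v hv h1 => cneg x v (hv.is h1)) ⟨_, rfl⟩, hprime, fun v hv => (hZ v).trans
      (exists_congr fun x => ⟨fun h => h.is hv, Con1Rp.of_is⟩), fun x y v w j hv hw h =>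
      (hadd j x y v w (Con1Rp.of_is hv) (Con1Rp.of_is hw)).is h⟩
  rintro x _ _ ⟨c, rfl⟩ ⟨c', rfl⟩ a b
  simp only [Pi.smul_apply, smul_eq_mul]
  ring

end MLF
end

-- merged part: Pool.Agent.Work.MP_29d410_ag.Con2A
section
/-!
# Auxiliary lemmas for the etale chart
-/

open MvPolynomial

namespace MLF

universe u

section Con2Gen

variable {A L : Type u} [CommRing A] [Field L]

/-- Quotients of two elements of the same degree. -/
def Con2Fr (e : A →+* L) (H : A → ℕ → Prop) (z : L) : Prop :=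
  ∃ d r s, H r d ∧ H s d ∧ e s ≠ 0 ∧ e r = z * e s

theorem Con2Fr_adjoin {k : Type u} [Field k] [Algebra k L] (e : A →+* L) (H : A → ℕ → Prop)
    (hmul : ∀ a b m n, H a m → H b n → H (a * b) (m + n))
    (hadd : ∀ a b n, H a n → H b n → H (a + b) n) (S : Set L) (hS : ∀ z ∈ S, Con2Fr e H z)
    (hk : ∀ c : k, Con2Fr e H (algebraMap k L c)) (z : L)
    (hz : z ∈ IntermediateField.adjoin k S) : Con2Fr e H z := by
  induction hz using IntermediateField.adjoin_induction with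
  | mem x hx => exact hS x hx
  | algebraMap c => exact hk c
  | add x y _ _ hx hy =>
    obtain ⟨d₁, r₁, s₁, a₁, b₁, c₁, e₁⟩ := hx
    obtain ⟨d₂, r₂, s₂, a₂, b₂, c₂, e₂⟩ := hy
    refine ⟨d₁ + d₂, r₁ * s₂ + s₁ * r₂, s₁ * s₂, hadd _ _ _ (hmul _ _ _ _ a₁ b₂) (hmul _ _ _ _ b₁ a₂),
      hmul _ _ _ _ b₁ b₂, by rw [map_mul]; exact mul_ne_zero c₁ c₂, ?_⟩
    rw [map_add, map_mul, map_mul, map_mul, e₁, e₂]; ring
  | inv x _ hx =>
    by_cases h0 : x = 0
    · subst h0; rw [inv_zero]; exact hx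
    obtain ⟨d₁, r₁, s₁, a₁, b₁, c₁, e₁⟩ := hx
    refine ⟨d₁, s₁, r₁, b₁, a₁, by rw [e₁]; exact mul_ne_zero h0 c₁, ?_⟩
    rw [e₁, ← mul_assoc, inv_mul_cancel₀ h0, one_mul]
  | mul x y _ _ hx hy =>
    obtain ⟨d₁, r₁, s₁, a₁, b₁, c₁, e₁⟩ := hx
    obtain ⟨d₂, r₂, s₂, a₂, b₂, c₂, e₂⟩ := hy
    refine ⟨d₁ + d₂, r₁ * r₂, s₁ * s₂, hmul _ _ _ _ a₁ a₂,
      hmul _ _ _ _ b₁ b₂, by rw [map_mul]; exact mul_ne_zero c₁ c₂, ?_⟩
    rw [map_mul, map_mul, e₁, e₂]; ring

theorem Con2Fr_common (e : A →+* L) (H : A → ℕ → Prop)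
    (hmul : ∀ a b m n, H a m → H b n → H (a * b) (m + n)) (h1 : H 1 0) (S : Set L)
    (hfin : S.Finite) (hS : ∀ z ∈ S, Con2Fr e H z) :
    ∃ d s, H s d ∧ e s ≠ 0 ∧ ∀ z ∈ S, ∃ r, H r d ∧ e r = z * e s := by
  induction S, hfin using Set.Finite.induction_on with
  | empty => exact ⟨0, 1, h1, by simp, by simp⟩
  | @insert a S _ _ ih =>
    obtain ⟨d₁, s₁, b₁, c₁, h₁⟩ := ih fun z hz => hS z (Set.mem_insert_of_mem _ hz)
    obtain ⟨d₂, r₂, s₂, a₂, b₂, c₂, e₂⟩ := hS a (Set.mem_insert _ _)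
    refine ⟨d₁ + d₂, s₁ * s₂, hmul _ _ _ _ b₁ b₂, by rw [map_mul]; exact mul_ne_zero c₁ c₂, ?_⟩
    rintro z (rfl | hz)
    · refine ⟨s₁ * r₂, hmul _ _ _ _ b₁ a₂, ?_⟩
      rw [map_mul, map_mul, e₂]; ring
    · obtain ⟨r, hr, er⟩ := h₁ z hz
      refine ⟨r * s₂, hmul _ _ _ _ hr b₂, ?_⟩
      rw [map_mul, map_mul, er]; ring

/-- Clearing denominators. -/
theorem Con2_clear (B : A) (F : Polynomial A) :
    ∃ (n : ℕ) (G : A), ∀ (S : Type u) [CommRing S] (g : A →+* S) (w : S), g B * w = 1 →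
      Polynomial.eval₂ g w F = g G * w ^ n := by
  induction F using Polynomial.induction_on' with
  | add p q hp hq =>
    obtain ⟨n₁, G₁, h₁⟩ := hp
    obtain ⟨n₂, G₂, h₂⟩ := hq
    refine ⟨n₁ + n₂, G₁ * B ^ n₂ + G₂ * B ^ n₁, fun S _ g w hw => ?_⟩
    rw [Polynomial.eval₂_add, h₁ S g w hw, h₂ S g w hw]
    have e₁ : (g B * w) ^ n₁ = 1 := by rw [hw, one_pow]
    have e₂ : (g B * w) ^ n₂ = 1 := by rw [hw, one_pow]
    simp only [map_add, map_mul, map_pow]
    rw [mul_pow] at e₁ e₂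
    linear_combination (-(g G₁ * w ^ n₁)) * e₂ + (-(g G₂ * w ^ n₂)) * e₁
  | monomial n a =>
    exact ⟨n, a, fun S _ g w _ => by rw [Polynomial.eval₂_monomial]⟩

theorem Con2_ker (e : A →+* L) (B : A) (hB : e B ≠ 0) {T : Type u} [CommRing T] (g : A →+* T)
    (hg : ∀ G, e G = 0 → g G = 0) (w : T) (hw : g B * w = 1) (F : Polynomial A)
    (hF : Polynomial.eval₂RingHom e (e B)⁻¹ F = 0) : Polynomial.eval₂RingHom g w F = 0 := by
  obtain ⟨n, G, h⟩ := Con2_clear B F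
  rw [Polynomial.coe_eval₂RingHom] at hF ⊢
  rw [h L e _ (mul_inv_cancel₀ hB)] at hF
  rw [h T g w hw, hg G ((mul_eq_zero.1 hF).resolve_right (pow_ne_zero _ (inv_ne_zero hB))), zero_mul]

/-- A point of a finitely generated domain away from a nonzero element. -/
theorem Con2_point {k : Type u} [Field k] [IsAlgClosed k] [Algebra k A] [Algebra.FiniteType k A]
    (e : A →+* L) (F : A) (hF : e F ≠ 0) :
    ∃ χ : A →ₐ[k] k, (∀ G, e G = 0 → χ G = 0) ∧ χ F ≠ 0 := by
  have : IsJacobsonRing A := isJacobsonRing_of_finiteType (A := k)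
  have hp : (RingHom.ker e).IsPrime := RingHom.ker_isPrime e
  have hj : (RingHom.ker e).jacobson = RingHom.ker e :=
    IsJacobsonRing.out inferInstance hp.isRadical
  have hF' : F ∉ (RingHom.ker e).jacobson := by rw [hj]; exact hF
  rw [Ideal.jacobson, Ideal.mem_sInf] at hF'
  push Not at hF'
  obtain ⟨m, ⟨hm1, hm2⟩, hm3⟩ := hF'
  let : Field (A ⧸ m) := Ideal.Quotient.field m
  have : Module.Finite k (A ⧸ m) := finite_of_finite_type_of_isJacobsonRing k (A ⧸ m)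
  have hb : Function.Bijective (algebraMap k (A ⧸ m)) := IsAlgClosed.algebraMap_bijective_of_isIntegral
  let ε : k ≃ₐ[k] (A ⧸ m) := AlgEquiv.ofBijective (Algebra.ofId k (A ⧸ m)) hb
  refine ⟨ε.symm.toAlgHom.comp (Ideal.Quotient.mkₐ k m), fun G hG => ?_, fun h => hm3 ?_⟩
  · have : Ideal.Quotient.mk m G = 0 := Ideal.Quotient.eq_zero_iff_mem.2 (hm1 hG)
    simp [this]
  · have : Ideal.Quotient.mk m F = 0 := by simpa using h
    exact Ideal.Quotient.eq_zero_iff_mem.1 this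

end Con2Gen

section Con2Pe

variable {R T T' : Type u} [CommRing R] [CommRing T] [CommRing T'] {τ σ : Type}

/-- Evaluation of a polynomial in `u` and `θ`. -/
noncomputable def Con2pe (φ : R →+* T) (u : τ → T) (θ : T) : Polynomial (MvPolynomial τ R) →+* T :=
  Polynomial.eval₂RingHom (eval₂Hom φ u) θ

theorem Con2pe_C_C (φ : R →+* T) (u : τ → T) (θ : T) (c : R) :
    Con2pe φ u θ (Polynomial.C (C c)) = φ c := by simp [Con2pe]

theorem Con2pe_C_X (φ : R →+* T) (u : τ → T) (θ : T) (i : τ) :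
    Con2pe φ u θ (Polynomial.C (X i)) = u i := by simp [Con2pe]

theorem Con2pe_X (φ : R →+* T) (u : τ → T) (θ : T) :
    Con2pe φ u θ Polynomial.X = θ := by simp [Con2pe]

theorem Con2pe_eq (ψ : Polynomial (MvPolynomial τ R) →+* T) (φ : R →+* T) (u : τ → T) (θ : T)
    (h1 : ∀ c, ψ (Polynomial.C (C c)) = φ c) (h2 : ∀ i, ψ (Polynomial.C (X i)) = u i)
    (h3 : ψ Polynomial.X = θ) : ψ = Con2pe φ u θ := by
  refine Polynomial.ringHom_ext' (MvPolynomial.ringHom_ext (fun c => ?_) fun i => ?_) ?_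
  · simp only [RingHom.comp_apply, h1, Con2pe_C_C]
  · simp only [RingHom.comp_apply, h2, Con2pe_C_X]
  · rw [h3, Con2pe_X]

theorem Con2pe_nat (ψ : T →+* T') (φ : R →+* T) (u : τ → T) (θ : T) (φ' : R →+* T') (u' : τ → T')
    (θ' : T') (h1 : ∀ c, ψ (φ c) = φ' c) (h2 : ∀ i, ψ (u i) = u' i) (h3 : ψ θ = θ')
    (F : Polynomial (MvPolynomial τ R)) : ψ (Con2pe φ u θ F) = Con2pe φ' u' θ' F := by
  have := Con2pe_eq (ψ.comp (Con2pe φ u θ)) φ' u' θ'
    (fun c => by rw [RingHom.comp_apply, Con2pe_C_C, h1])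
    (fun i => by rw [RingHom.comp_apply, Con2pe_C_X, h2])
    (by rw [RingHom.comp_apply, Con2pe_X, h3])
  rw [← this, RingHom.comp_apply]

theorem Con2_eval_nat (ψ : T →+* T') (φ : R →+* T) (v : σ → T) (φ' : R →+* T') (v' : σ → T')
    (h1 : ∀ c, ψ (φ c) = φ' c) (h2 : ∀ a, ψ (v a) = v' a) (G : MvPolynomial σ R) :
    ψ (eval₂ φ v G) = eval₂ φ' v' G := by
  rw [hom_eval₂]
  congr 1
  · exact RingHom.ext h1
  · exact funext h2

theorem Con2_eval_hom (φ : R →+* T) (v : σ → T) (c : T) {G : MvPolynomial σ R} {d : ℕ}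
    (hG : G.IsHomogeneous d) : eval₂ φ (fun a => c * v a) G = c ^ d * eval₂ φ v G := by
  rw [eval₂_eq, eval₂_eq, Finset.mul_sum]
  refine Finset.sum_congr rfl fun m hm => ?_
  have hd : ∑ i ∈ m.support, m i = d := by
    have := hG (mem_support_iff.1 hm)
    rw [← this, Finsupp.weight_apply, Finsupp.sum]
    simp
  simp only [mul_pow, Finset.prod_mul_distrib, Finset.prod_pow_eq_pow_sum, hd]
  ring

end Con2Pe

theorem Con2_prim (R K E : Type u) [CommRing R] [IsDomain R] [IsIntegrallyClosed R] [Field K]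
    [Algebra R K] [IsFractionRing R K] [Field E] [Algebra K E] [Algebra R E] [IsScalarTower R K E]
    [FiniteDimensional K E] [Algebra.IsSeparable K E] :
    ∃ (θ : E) (f : Polynomial R), f.Monic ∧
      (∀ F, Polynomial.eval₂RingHom (algebraMap R E) θ F = 0 ↔ f ∣ F) ∧
      Polynomial.eval₂RingHom (algebraMap R E) θ f.derivative ≠ 0 ∧
      ∀ z : E, Con2Fr (Polynomial.eval₂RingHom (algebraMap R E) θ) (fun _ _ => True) z := by
  have hinj : Function.Injective (algebraMap R E) := by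
    rw [IsScalarTower.algebraMap_eq R K E]
    exact (algebraMap K E).injective.comp (IsFractionRing.injective R K)
  have : FaithfulSMul R E := (faithfulSMul_iff_algebraMap_injective R E).2 hinj
  obtain ⟨α, hα⟩ := Field.exists_primitive_element K E
  have halg : IsAlgebraic R α :=
    (IsFractionRing.isAlgebraic_iff R K E).2 (Algebra.IsAlgebraic.isAlgebraic α)
  obtain ⟨y, hy, hint⟩ := halg.exists_integral_multiple
  refine ⟨y • α, minpoly R (y • α), minpoly.monic hint, fun F => ?_, ?_, fun z => ?_⟩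
  · exact minpoly.isIntegrallyClosed_dvd_iff hint F
  · have hsep : (minpoly K (y • α)).Separable := Algebra.IsSeparable.isSeparable K (y • α)
    have := hsep.aeval_derivative_ne_zero (minpoly.aeval K (y • α))
    rw [minpoly.isIntegrallyClosed_eq_field_fractions' K hint, Polynomial.derivative_map,
      Polynomial.aeval_map_algebraMap] at this
    exact this
  · refine Con2Fr_adjoin (k := K) _ _ (fun _ _ _ _ _ _ => trivial) (fun _ _ _ _ _ => trivial) {α}
      ?_ (fun c => ?_) z (by rw [hα]; trivial)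
    · rintro _ rfl
      refine ⟨0, Polynomial.X, Polynomial.C y, trivial, trivial, ?_, ?_⟩
      · simpa using hy
      · simp [Algebra.smul_def, mul_comm]
    · obtain ⟨a, b, hb, rfl⟩ := IsFractionRing.div_surjective (A := R) c
      have hb' : algebraMap R E b ≠ 0 := by simpa using nonZeroDivisors.ne_zero hb
      refine ⟨0, Polynomial.C a, Polynomial.C b, trivial, trivial, ?_, ?_⟩
      · simpa using nonZeroDivisors.ne_zero hb
      · simp only [Polynomial.coe_eval₂RingHom, Polynomial.eval₂_C, map_div₀,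
          ← IsScalarTower.algebraMap_apply]
        rw [div_mul_cancel₀ _ hb']

theorem Con2_field (k E : Type u) [Field k] [Field E] [Algebra k E] [PerfectField k]
    [Algebra.EssFiniteType k E] :
    ∃ (n : ℕ) (u : Fin n → E) (θ : E) (f : Polynomial (MvPolynomial (Fin n) k)), f.Monic ∧
      (∀ F, Con2pe (algebraMap k E) u θ F = 0 ↔ f ∣ F) ∧
      Con2pe (algebraMap k E) u θ f.derivative ≠ 0 ∧
      ∀ z : E, Con2Fr (Con2pe (algebraMap k E) u θ) (fun _ _ => True) z := by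
  obtain ⟨s, hs, hsep⟩ := exists_isTranscendenceBasis_and_isSeparable_of_perfectField k E
  let u : Fin s.card → E := fun i => (s.equivFin.symm i : E)
  have hu : AlgebraicIndependent k u := hs.1.comp _ s.equivFin.symm.injective
  have hr : Set.range u = (s : Set E) := by
    ext x
    constructor
    · rintro ⟨i, rfl⟩
      exact (s.equivFin.symm i).2
    · intro hx
      exact ⟨s.equivFin ⟨x, hx⟩, by simp [u]⟩
  rw [← hr] at hsep
  let K := IntermediateField.adjoin k (Set.range u)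
  let R := MvPolynomial (Fin s.card) k
  let u' : Fin s.card → K := fun i => ⟨u i, IntermediateField.subset_adjoin _ _ ⟨i, rfl⟩⟩
  let : Algebra R K := (aeval u' : R →ₐ[k] K).toRingHom.toAlgebra
  let : Algebra R E := (aeval u : R →ₐ[k] E).toRingHom.toAlgebra
  have hc : ∀ p : R, ((algebraMap R K p : K) : E) = aeval u p := fun p => by
    have : K.val.comp (aeval u') = (aeval u : R →ₐ[k] E) := by
      ext i; simp [u']
    exact DFunLike.congr_fun this p
  have : IsScalarTower R K E := IsScalarTower.of_algebraMap_eq fun p => (hc p).symm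
  have : FaithfulSMul R K := (faithfulSMul_iff_algebraMap_injective R K).2 fun p q hpq => by
    apply algebraicIndependent_iff_injective_aeval.1 hu
    rw [← hc, ← hc, hpq]
  have : IsFractionRing R K := IsFractionRing.of_field R K fun z => by
    obtain ⟨r, t, h⟩ := (IntermediateField.mem_adjoin_range_iff k u z.1).1 z.2
    refine ⟨r, t, Subtype.ext ?_⟩
    rw [h, ← hc, ← hc]
    simp
  have : Algebra.EssFiniteType K E := Algebra.EssFiniteType.of_comp k K E
  have : Algebra.IsSeparable K E := hsep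
  have : FiniteDimensional K E := Algebra.finite_of_essFiniteType_of_isAlgebraic
  obtain ⟨θ, f, h1, h2, h3, h4⟩ := Con2_prim R K E
  exact ⟨s.card, u, θ, f, h1, h2, h3, h4⟩

end MLF
end

-- merged part: Pool.Agent.Work.MP_29d410_ag.Con2
section
/-!
# An etale chart

Plan for `exists_hdata`.  `𝔭` the prime ideal, `𝕃` the fraction field of `k[x] / 𝔭`, `ξ` the image of `x`,
`ξ i₀ ≠ 0` (as `o i₀ = 1` is a zero of `𝔭`), `𝔽 = k(ξ a / ξ i₀)`.  Take a separating transcendence basis `u`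
(`exists_isTranscendenceBasis_and_isSeparable_of_perfectField`), a primitive element `θ` of `𝔽`
over `k(u)`, scaled to be integral over `k[u]`, `f` its minimal polynomial over `k[u]`
(`minpoly.isIntegrallyClosed_eq_field_fractions`), so `𝒜 = k[u][T] / f` embeds in `𝔽`.  Write
`ξ a / ξ i₀ = P a (u, θ) / g (u)`, `P i₀ = g`, `a₀ = i₀`; write `u i`, `θ` as quotients of forms of one degree
with a common denominator `B₁`, and `f' (u, θ) * g (u) = Q (ξ) / B₁ (ξ) ^ N` with a form `Q`; multiply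
numerators and denominator by `Q`.  The laws with hypotheses `Z v`, `B v * w = 1` hold in the universal
case `(k[x] / 𝔭)[1 / B] ⊆ 𝕃`, those with hypothesis `f (u, θ) = 0` in the universal case `𝒜 ⊆ 𝔽`.  `B (P)` is a
nonzero element of the finitely generated domain `𝒜`, so does not vanish at some `k`-point.
-/

open MvPolynomial

namespace MLF

universe u

variable {k : Type u} [Field k] {σ : Type} [Finite σ]

theorem Con2_data [PerfectField k] {L : Type u} [Field L] [Algebra k L] (ξ : σ → L) (i₀ : σ)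
    (h0 : ξ i₀ ≠ 0) :
    ∃ (n : ℕ) (u : Fin n → L) (θ : L) (f : Polynomial (MvPolynomial (Fin n) k))
      (P : σ → Polynomial (MvPolynomial (Fin n) k)) (c : L) (d : ℕ)
      (U : Fin n → MvPolynomial σ k) (Θ B V₁ V₂ : MvPolynomial σ k), f.Monic ∧
      (∀ F, Con2pe (algebraMap k L) u θ F = 0 ↔ f ∣ F) ∧
      (∀ a, Con2pe (algebraMap k L) u θ (P a) = c * ξ a) ∧ c ≠ 0 ∧
      (∀ i, (U i).IsHomogeneous d) ∧ Θ.IsHomogeneous d ∧ B.IsHomogeneous d ∧
      eval₂ (algebraMap k L) ξ B ≠ 0 ∧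
      (∀ i, eval₂ (algebraMap k L) ξ (U i) = u i * eval₂ (algebraMap k L) ξ B) ∧
      eval₂ (algebraMap k L) ξ Θ = θ * eval₂ (algebraMap k L) ξ B ∧
      Con2pe (algebraMap k L) u θ f.derivative * eval₂ (algebraMap k L) ξ V₁ =
        eval₂ (algebraMap k L) ξ B ∧
      Con2pe (algebraMap k L) u θ (P i₀) * eval₂ (algebraMap k L) ξ V₂ =
        eval₂ (algebraMap k L) ξ B := by
  let η : σ → L := fun a => ξ a / ξ i₀
  let E := IntermediateField.adjoin k (Set.range η)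
  have : Algebra.EssFiniteType k E :=
    IntermediateField.essFiniteType_iff.2 (IntermediateField.fg_adjoin_of_finite (Set.finite_range η))
  obtain ⟨n, u, θ, f, hm, hd, hder, hfr⟩ := Con2_field k E
  let η' : σ → E := fun a => ⟨η a, IntermediateField.subset_adjoin _ _ ⟨a, rfl⟩⟩
  obtain ⟨-, s, -, hs, hP⟩ := Con2Fr_common (Con2pe (algebraMap k E) u θ) (fun _ _ => True)
    (fun _ _ _ _ _ _ => trivial) trivial (Set.range η') (Set.finite_range η') fun z _ => hfr z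
  choose P _ hP using fun a => hP (η' a) ⟨a, rfl⟩
  have hnat : ∀ F, Con2pe (algebraMap k L) (fun i => (u i : L)) (θ : L) F =
      (Con2pe (algebraMap k E) u θ F : E) := fun F =>
    (Con2pe_nat (algebraMap E L) _ u θ _ _ _ (fun _ => rfl) (fun _ => rfl) rfl F).symm
  have hE : ∀ z : E, Con2Fr (eval₂Hom (algebraMap k L) ξ) (fun G d => G.IsHomogeneous d) (z : L) :=
    fun z => by
    refine Con2Fr_adjoin (k := k) _ _ (fun _ _ _ _ ha hb => ha.mul hb) (fun _ _ _ ha hb => ha.add hb)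
      (Set.range η) ?_ (fun c => ?_) _ z.2
    · rintro _ ⟨a, rfl⟩
      refine ⟨1, X a, X i₀, isHomogeneous_X _ _, isHomogeneous_X _ _, by simpa using h0, ?_⟩
      simp [η, h0]
    · exact ⟨0, C c, 1, isHomogeneous_C _ _, isHomogeneous_one _ _, by simp, by simp⟩
  obtain ⟨d, B, hB, hB0, hU⟩ := Con2Fr_common (eval₂Hom (algebraMap k L) ξ)
    (fun G d => G.IsHomogeneous d) (fun _ _ _ _ ha hb => ha.mul hb) (isHomogeneous_one _ _)
    ((fun z : E => (z : L)) '' (Set.range u ∪ {θ, (Con2pe (algebraMap k E) u θ f.derivative)⁻¹,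
      (Con2pe (algebraMap k E) u θ (P i₀))⁻¹}))
    (((Set.finite_range u).union (Set.toFinite _)).image _) (by rintro _ ⟨z, -, rfl⟩; exact hE z)
  choose U hU1 hU2 using fun i => hU (u i) ⟨u i, Or.inl ⟨i, rfl⟩, rfl⟩
  obtain ⟨Θ, hΘ1, hΘ2⟩ := hU θ ⟨θ, Or.inr (by simp), rfl⟩
  obtain ⟨V₁, -, hV₁⟩ := hU _ ⟨(Con2pe (algebraMap k E) u θ f.derivative)⁻¹, Or.inr (by simp), rfl⟩
  obtain ⟨V₂, -, hV₂⟩ := hU _ ⟨(Con2pe (algebraMap k E) u θ (P i₀))⁻¹, Or.inr (by simp), rfl⟩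
  have hs' : ((Con2pe (algebraMap k E) u θ s : E) : L) ≠ 0 := by simpa using hs
  have hP0 : Con2pe (algebraMap k E) u θ (P i₀) ≠ 0 := by
    rw [hP]
    refine mul_ne_zero (fun h => ?_) hs
    have : η i₀ = 0 := congrArg Subtype.val h
    simp [η, h0] at this
  refine ⟨n, fun i => u i, θ, f, P, (Con2pe (algebraMap k E) u θ s : E) / ξ i₀, d, U, Θ, B, V₁, V₂,
    hm, fun F => ?_, fun a => ?_, div_ne_zero hs' h0, hU1, hΘ1, hB, hB0, hU2, hΘ2, ?_, ?_⟩
  · rw [hnat, ← hd]; simp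
  · rw [hnat, hP]
    change η a * _ = _
    simp only [η]
    ring
  · rw [hnat]
    have h1 : ((Con2pe (algebraMap k E) u θ f.derivative : E) : L) ≠ 0 := by simpa using hder
    have h2 : eval₂ (algebraMap k L) ξ V₁ = ((Con2pe (algebraMap k E) u θ f.derivative : E) : L)⁻¹ *
      eval₂ (algebraMap k L) ξ B := hV₁
    rw [h2, mul_inv_cancel_left₀ h1]
  · rw [hnat]
    have h1 : ((Con2pe (algebraMap k E) u θ (P i₀) : E) : L) ≠ 0 := by simpa using hP0
    have h2 : eval₂ (algebraMap k L) ξ V₂ = ((Con2pe (algebraMap k E) u θ (P i₀) : E) : L)⁻¹ *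
      eval₂ (algebraMap k L) ξ B := hV₂
    rw [h2, mul_inv_cancel_left₀ h1]

omit [Finite σ] in
/-- The generic point. -/
theorem Con2_generic (𝔭 : Ideal (MvPolynomial σ k)) (hp : 𝔭.IsPrime) :
    ∃ (L : Type u) (_ : Field L) (_ : Algebra k L) (ξ : σ → L),
      ∀ G, eval₂ (algebraMap k L) ξ G = 0 ↔ G ∈ 𝔭 := by
  let A := MvPolynomial σ k ⧸ 𝔭
  have : IsDomain A := Ideal.Quotient.isDomain 𝔭
  refine ⟨FractionRing A, inferInstance, inferInstance,
    fun a => algebraMap A _ (Ideal.Quotient.mk 𝔭 (X a)), fun G => ?_⟩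
  have : eval₂ (algebraMap k (FractionRing A)) (fun a => algebraMap A _ (Ideal.Quotient.mk 𝔭 (X a))) G
      = algebraMap A _ (Ideal.Quotient.mk 𝔭 G) := by
    have := Con2_eval_nat ((algebraMap A (FractionRing A)).comp (Ideal.Quotient.mk 𝔭)) C X
      (algebraMap k (FractionRing A)) (fun a => algebraMap A _ (Ideal.Quotient.mk 𝔭 (X a)))
      (fun c => by
        rw [IsScalarTower.algebraMap_apply k A (FractionRing A)]; rfl) (fun _ => rfl) G
    rw [← this, eval₂_eta]; rfl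
  rw [this, map_eq_zero_iff _ (IsFractionRing.injective A _), Ideal.Quotient.eq_zero_iff_mem]

omit [Finite σ] in
theorem Con2_Z {T : Type u} [CommRing T] (𝒢 : GData k σ) (φ : k →+* T) (v : σ → T) (h : 𝒢.Z φ v)
    (G : MvPolynomial σ k) (hG : G ∈ Ideal.span (Set.range 𝒢.eqn)) : eval₂ φ v G = 0 := by
  have : Ideal.span (Set.range 𝒢.eqn) ≤ RingHom.ker (eval₂Hom φ v) := by
    rw [Ideal.span_le]
    rintro _ ⟨i, rfl⟩
    exact h i
  exact this hG

theorem GData.exists_hdata [IsAlgClosed k] (𝒢 : GData k σ) (h : 𝒢.Z (RingHom.id k) 𝒢.o)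
    (hp : (Ideal.span (Set.range 𝒢.eqn)).IsPrime) :
    ∃ ℋ : HData k σ, ∀ (T : Type u) [CommRing T] (φ : k →+* T), ℋ.Laws φ 𝒢 := by
  obtain ⟨L, _, _, ξ, hξ⟩ := Con2_generic _ hp
  have h0 : ξ 𝒢.i₀ ≠ 0 := fun h0 => by
    have := Con2_Z 𝒢 _ _ h (X 𝒢.i₀) ((hξ _).1 (by rw [eval₂_X, h0]))
    rw [eval₂_X, 𝒢.o_i₀] at this
    exact one_ne_zero this
  obtain ⟨n, u, θ, f, P, c, d, U, Θ, B, V₁, V₂, hm, hd, hP, hc, hU1, hΘ1, hB, hB0, hU2, hΘ2, hV₁,
    hV₂⟩ := Con2_data (k := k) ξ 𝒢.i₀ h0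
  -- composition of a form with `P`
  let Q : MvPolynomial σ k → Polynomial (MvPolynomial (Fin n) k) :=
    fun G => eval₂ (Polynomial.C.comp C) P G
  have hQ : ∀ (T : Type u) [CommRing T] (φ : k →+* T) (u' : Fin n → T) (θ' : T) (G),
      Con2pe φ u' θ' (Q G) = eval₂ φ (fun a => Con2pe φ u' θ' (P a)) G := fun T _ φ u' θ' G =>
    Con2_eval_nat _ _ _ _ _ (fun c => Con2pe_C_C _ _ _ c) (fun _ => rfl) G
  have hQL : ∀ (G : MvPolynomial σ k) (e : ℕ), G.IsHomogeneous e →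
      Con2pe (algebraMap k L) u θ (Q G) = c ^ e * eval₂ (algebraMap k L) ξ G := fun G e hG => by
    rw [hQ, ← Con2_eval_hom _ _ _ hG]
    simp only [hP]
  have h2 : ∀ (T : Type u) [CommRing T] (φ : k →+* T) (u' : Fin n → T) (θ' : T),
      Con2pe φ u' θ' f = 0 → ∀ F, Con2pe (algebraMap k L) u θ F = 0 → Con2pe φ u' θ' F = 0 :=
    fun T _ φ u' θ' hf F hF => by
    obtain ⟨G, rfl⟩ := (hd F).1 hF
    rw [map_mul, hf, zero_mul]
  obtain ⟨χ, hχ1, hχ2⟩ := Con2_point (k := k) (Con2pe (algebraMap k L) u θ) (Q B)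
    (by rw [hQL B d hB]; exact mul_ne_zero (pow_ne_zero _ hc) hB0)
  have hχ : ∀ (T : Type u) [CommRing T] (φ : k →+* T) (F),
      Con2pe φ (φ ∘ fun i => χ (Polynomial.C (X i))) (φ (χ Polynomial.X)) F = φ (χ F) :=
    fun T _ φ F => by
    rw [← Con2pe_eq (φ.comp χ.toRingHom) φ (φ ∘ fun i => χ (Polynomial.C (X i)))
      (φ (χ Polynomial.X)) (fun c => congrArg φ (χ.commutes c)) (fun _ => rfl) rfl]
    rfl
  -- the universal case of the laws with hypotheses `Z v`, `B v * w = 1`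
  let W : Polynomial (MvPolynomial (Fin n) k) →+* Polynomial (MvPolynomial σ k) :=
    Con2pe (Polynomial.C.comp C) (fun i => Polynomial.C (U i) * Polynomial.X)
      (Polynomial.C Θ * Polynomial.X)
  have hW : ∀ (T : Type u) [CommRing T] (φ : k →+* T) (v : σ → T) (w : T) (F),
      Polynomial.eval₂RingHom (eval₂Hom φ v) w (W F) =
        Con2pe φ (fun i => eval₂ φ v (U i) * w) (eval₂ φ v Θ * w) F := fun T _ φ v w F =>
    Con2pe_nat _ _ _ _ _ _ _ (fun c => by simp) (fun i => by simp) (by simp) F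
  have hWL : ∀ F, Polynomial.eval₂RingHom (eval₂Hom (algebraMap k L) ξ)
      (eval₂Hom (algebraMap k L) ξ B)⁻¹ (W F) = Con2pe (algebraMap k L) u θ F := fun F => by
    rw [hW]
    simp only [hU2, hΘ2, coe_eval₂Hom, mul_inv_cancel_right₀ hB0]
  have h1 : ∀ (T : Type u) [CommRing T] (φ : k →+* T) (v : σ → T) (w : T), 𝒢.Z φ v →
      eval₂ φ v B * w = 1 → ∀ F, Polynomial.eval₂RingHom (eval₂Hom (algebraMap k L) ξ)
        (eval₂Hom (algebraMap k L) ξ B)⁻¹ F = 0 → Polynomial.eval₂RingHom (eval₂Hom φ v) w F = 0 :=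
    fun T _ φ v w hv hw F hF =>
    Con2_ker _ B hB0 _ (fun G hG => Con2_Z 𝒢 φ v hv G ((hξ G).1 hG)) w hw F hF
  have h3 : ∀ (T : Type u) [CommRing T] (φ : k →+* T) (v : σ → T) (w : T), 𝒢.Z φ v →
      eval₂ φ v B * w = 1 → ∀ F V, Con2pe (algebraMap k L) u θ F * eval₂ (algebraMap k L) ξ V =
        eval₂ (algebraMap k L) ξ B →
      Con2pe φ (fun i => eval₂ φ v (U i) * w) (eval₂ φ v Θ * w) F = 0 → (1 : T) = 0 :=
    fun T _ φ v w hv hw F V hV hF => by
    have := h1 T φ v w hv hw (W F * Polynomial.C V - Polynomial.C B) (by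
      rw [map_sub, map_mul, hWL]
      simp [hV])
    rw [map_sub, map_mul, hW, hF] at this
    have hb : eval₂ φ v B = 0 := by simpa using this
    rw [← hw, hb, zero_mul]
  refine ⟨⟨Fin n, U, Θ, B, d, hU1, hΘ1, hB, f, hm, P, 𝒢.i₀, fun i => χ (Polynomial.C (X i)),
    χ Polynomial.X⟩, fun T _ φ => ⟨fun v w hv hw => ?_, fun v w hv hw a b => ?_,
    fun v w hv hw => h3 T φ v w hv hw _ _ hV₁, fun v w hv hw => h3 T φ v w hv hw _ _ hV₂,
    fun u' θ' hf i => ?_, fun u' θ' i hf => ?_, fun u' θ' hf => ?_, ?_, fun hb => ?_⟩⟩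
  · exact (hW T φ v w f).symm.trans (h1 T φ v w hv hw _ (by rw [hWL, hd]))
  · have := h1 T φ v w hv hw (Polynomial.C (X a) * W (P b) - Polynomial.C (X b) * W (P a)) (by
      rw [map_sub, map_mul, map_mul, hWL, hWL, hP, hP]
      simp only [Polynomial.coe_eval₂RingHom, Polynomial.eval₂_C, coe_eval₂Hom, eval₂_X]
      ring)
    rw [map_sub, map_mul, map_mul, hW, hW] at this
    simp only [Polynomial.coe_eval₂RingHom, Polynomial.eval₂_C, coe_eval₂Hom, eval₂_X] at this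
    exact sub_eq_zero.1 this
  · refine (hQ T φ u' θ' _).symm.trans (h2 T φ u' θ' hf _ ?_)
    rw [hQL _ _ (𝒢.eqn_hom i), (hξ _).2 (Ideal.subset_span ⟨i, rfl⟩), mul_zero]
  · have := h2 T φ u' θ' hf (Q (U i) - Polynomial.C (X i) * Q B) (by
      rw [map_sub, map_mul, hQL _ _ (hU1 i), hQL _ _ hB, Con2pe_C_X, hU2]; ring)
    rw [map_sub, map_mul, hQ, hQ, Con2pe_C_X] at this
    exact sub_eq_zero.1 this
  · have := h2 T φ u' θ' hf (Q Θ - Polynomial.X * Q B) (by
      rw [map_sub, map_mul, hQL _ _ hΘ1, hQL _ _ hB, Con2pe_X, hΘ2]; ring)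
    rw [map_sub, map_mul, hQ, hQ, Con2pe_X] at this
    exact sub_eq_zero.1 this
  · refine (hχ T φ f).trans ?_
    rw [hχ1 f ((hd f).2 dvd_rfl), map_zero]
  · have h4 : φ (χ (Q B)) = 0 := (hχ T φ _).symm.trans ((hQ T φ _ _ B).trans hb)
    rw [← map_one φ, ← mul_inv_cancel₀ hχ2, map_mul, h4, zero_mul]

end MLF
end
end
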