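import Pool.Agent.Work.MP_29d410_ag.DM7A

/-!
# Fields with a one element p-basis and their Hasse derivation

Plan.  `pb_pow`: iterate `pb`.  `indep`: the minimal polynomial of `t` over `M ^ p` is
`T ^ p - t ^ p` (`X_pow_sub_C_irreducible_of_prime`).  `exists_D`: `M` is generated by `t` over
`M ^ (p ^ n)` with minimal polynomial `T ^ p ^ n - t ^ p ^ n`
(`X_pow_sub_C_irreducible_of_prime_pow`, or independence of `1, ..., t ^ (p ^ n - 1)` by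
induction), so `t ↦ t + ε` defines `M → M⟦ε⟧ / ε ^ p ^ n`; these are compatible (both are the
identity on `M ^ (p ^ n)` modulo `ε ^ p ^ n`); `IsAdicComplete.liftRingHom`.
`hom_uniq`: `θ₁ (c ^ p ^ n) - θ₂ (c ^ p ^ n) = (θ₁ c - θ₂ c) ^ p ^ n`.
`iter`, `Mor.D₀`: `hom_uniq`.  `DO_lev`: both sides have the same `p ^ m`-th power:
`map frob ^ m ∘ D (lev m) = D ∘ frob ^ m` by `hom_uniq`.
`cst` is algebraically closed: if `z` is a root of a polynomial over `cst`, split in `Ω`, then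
`DO z` is a root of the same polynomial in a domain, so is a constant, and `resP (DO z) = z`.
-/

open PowerSeries

namespace MLF

universe u

/-- A subfield `M` with p-basis `t`, whose perfect closure is `Ω`. -/
structure Sett (p : ℕ) (Ω : Type u) [Field Ω] where
  M : Subfield Ω
  t : Ω
  t_mem : t ∈ M
  pb : ∀ z ∈ M, ∃ c : Fin p → Ω, (∀ i, c i ∈ M) ∧ z = ∑ i, c i ^ p * t ^ (i : ℕ)
  np : ¬ ∃ w ∈ M, w ^ p = t
  ins : ∀ z : Ω, ∃ m, z ^ p ^ m ∈ M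

namespace Sett

variable {p : ℕ} [Fact p.Prime] {Ω Ω' Ω'' : Type u} [Field Ω] [CharP Ω p] [Field Ω'] [CharP Ω' p]
  [Field Ω''] [CharP Ω'' p] (𝒮 : Sett p Ω)

/-- The p-basis as an element of `M`. -/
abbrev Set1t : 𝒮.M := ⟨𝒮.t, 𝒮.t_mem⟩

omit [Fact p.Prime] [CharP Ω p] in
theorem Set1_ext {𝒮 𝒯 : Sett p Ω} (h : 𝒮.M = 𝒯.M) (h' : 𝒮.t = 𝒯.t) : 𝒮 = 𝒯 := by
  cases 𝒮
  cases 𝒯
  cases h
  cases h'
  rfl

omit [Fact p.Prime] in
theorem Set1_inj {R : Type*} [CommRing R] [IsReduced R] [ExpChar R p] (n : ℕ) {a b : R}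
    (h : a ^ p ^ n = b ^ p ^ n) : a = b := iterateFrobenius_inj R p n h

omit [Fact p.Prime] [CharP Ω p] in
theorem Set1_pb (z : 𝒮.M) : ∃ c : Fin p → 𝒮.M, z = ∑ i, c i ^ p * 𝒮.Set1t ^ (i : ℕ) := by
  obtain ⟨c, hc, h⟩ := 𝒮.pb z z.2
  exact ⟨fun i => ⟨c i, hc i⟩, Subtype.ext (by simpa using h)⟩

omit [Fact p.Prime] [CharP Ω p] in
theorem Set1_hom_ext {T : Type*} [CommRing T] {θ θ' : 𝒮.M →+* T}
    (h : ∀ c, θ (c ^ p) = θ' (c ^ p)) (ht : θ 𝒮.Set1t = θ' 𝒮.Set1t) : θ = θ' := by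
  refine RingHom.ext fun z => ?_
  obtain ⟨c, rfl⟩ := 𝒮.Set1_pb z
  simp only [map_sum, map_mul, h, map_pow θ 𝒮.Set1t, map_pow θ' 𝒮.Set1t, ht]

theorem Set1_aux : Polynomial.eval₂ (frobenius 𝒮.M p) 𝒮.Set1t
    (Polynomial.X ^ p - Polynomial.C 𝒮.Set1t) = 0 := by
  simp [frobenius_def]

theorem Set1_bij : Function.Bijective (AdjoinRoot.lift _ _ 𝒮.Set1_aux) := by
  have : Fact (Irreducible (Polynomial.X ^ p - Polynomial.C 𝒮.Set1t)) :=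
    ⟨X_pow_sub_C_irreducible_of_prime Fact.out fun b hb =>
      𝒮.np ⟨b, b.2, congrArg Subtype.val hb⟩⟩
  refine ⟨RingHom.injective _, fun z => ?_⟩
  obtain ⟨c, rfl⟩ := 𝒮.Set1_pb z
  exact ⟨∑ i, AdjoinRoot.of _ (c i) * AdjoinRoot.root _ ^ (i : ℕ), by simp [frobenius_def]⟩

/-- The universal property of a p-basis. -/
theorem Set1_univ {T : Type*} [CommRing T] (φ : 𝒮.M →+* T) {τ : T} (h : τ ^ p = φ 𝒮.Set1t) :
    ∃ θ : 𝒮.M →+* T, (∀ c, θ (c ^ p) = φ c) ∧ θ 𝒮.Set1t = τ := by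
  have h1 : Polynomial.eval₂ φ τ (Polynomial.X ^ p - Polynomial.C 𝒮.Set1t) = 0 := by simp [h]
  let e := RingEquiv.ofBijective _ 𝒮.Set1_bij
  refine ⟨(AdjoinRoot.lift φ τ h1).comp e.symm.toRingHom, fun c => ?_, ?_⟩
  · have : e.symm (c ^ p) = AdjoinRoot.of _ c := e.symm_apply_eq.2 (by simp [e, frobenius_def])
    exact (congrArg (AdjoinRoot.lift φ τ h1) this).trans (AdjoinRoot.lift_of h1)
  · have : e.symm 𝒮.Set1t = AdjoinRoot.root _ := e.symm_apply_eq.2 (by simp [e])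
    exact (congrArg (AdjoinRoot.lift φ τ h1) this).trans (AdjoinRoot.lift_root h1)

theorem Set1_lift {S : Type*} [CommRing S] [CharP S p] {I J : Ideal S} (hJI : J ≤ I)
    (h : ∀ x ∈ I, x ^ p ∈ J) (θ : 𝒮.M →+* S ⧸ I) {τ : S}
    (hτ : θ 𝒮.Set1t = Ideal.Quotient.mk I τ) : ∃ θ' : 𝒮.M →+* S ⧸ J,
      (Ideal.Quotient.factor hJI).comp θ' = θ ∧ θ' 𝒮.Set1t = Ideal.Quotient.mk J τ := by
  let F : S ⧸ I →+* S ⧸ J := Ideal.Quotient.lift I ((Ideal.Quotient.mk J).comp (frobenius S p))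
    fun x hx => Ideal.Quotient.eq_zero_iff_mem.2 (h x hx)
  have hF : ∀ x, F (Ideal.Quotient.mk I x) = Ideal.Quotient.mk J x ^ p := fun x => rfl
  obtain ⟨θ', h1, h2⟩ := 𝒮.Set1_univ (F.comp θ) (τ := Ideal.Quotient.mk J τ)
    (by rw [RingHom.comp_apply, hτ, hF])
  refine ⟨θ', 𝒮.Set1_hom_ext (fun c => ?_) ?_, h2⟩
  · obtain ⟨x, hx⟩ := Ideal.Quotient.mk_surjective (θ c)
    rw [RingHom.comp_apply, h1, RingHom.comp_apply, map_pow, ← hx, hF, map_pow,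
      Ideal.Quotient.factor_mk]
  · rw [RingHom.comp_apply, h2, hτ, Ideal.Quotient.factor_mk]

omit [Fact p.Prime] in
theorem Set1_charP (K : Type*) [Field K] [CharP K p] : CharP (PowerSeries K) p :=
  charP_of_injective_ringHom (C (R := K)).injective p

theorem pb_pow (n : ℕ) {z : Ω} (hz : z ∈ 𝒮.M) : ∃ c : Fin (p ^ n) → Ω, (∀ i, c i ∈ 𝒮.M) ∧
    z = ∑ i, c i ^ p ^ n * 𝒮.t ^ (i : ℕ) := by
  induction n with
  | zero =>
    rw [pow_zero]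
    exact ⟨fun _ => z, fun _ => hz, by simp⟩
  | succ n ih =>
    obtain ⟨c, hc, rfl⟩ := ih
    choose d hd hcd using fun i => 𝒮.pb (c i) (hc i)
    rw [pow_succ']
    refine ⟨fun k => d (finProdFinEquiv.symm k).2 (finProdFinEquiv.symm k).1, fun _ => hd _ _, ?_⟩
    rw [← finProdFinEquiv.sum_comp, Fintype.sum_prod_type, Finset.sum_comm]
    refine Finset.sum_congr rfl fun i _ => ?_
    rw [hcd i, sum_pow_char_pow, Finset.sum_mul]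
    refine Finset.sum_congr rfl fun k _ => ?_
    simp only [Equiv.symm_apply_apply, finProdFinEquiv_apply_val]
    ring

theorem indep {c : Fin p → Ω} (hc : ∀ i, c i ∈ 𝒮.M) (h : ∑ i, c i ^ p * 𝒮.t ^ (i : ℕ) = 0)
    (i : Fin p) : c i = 0 := by
  have h1 : AdjoinRoot.mk (Polynomial.X ^ p - Polynomial.C 𝒮.Set1t)
      (∑ i : Fin p, Polynomial.C (⟨c i, hc i⟩ : 𝒮.M) * Polynomial.X ^ (i : ℕ)) = 0 :=
    𝒮.Set1_bij.1 (Subtype.ext (by simpa [frobenius_def] using h))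
  have h2 : (∑ i : Fin p, Polynomial.C (⟨c i, hc i⟩ : 𝒮.M) * Polynomial.X ^ (i : ℕ)) = 0 := by
    by_contra h0
    refine (Polynomial.monic_X_pow_sub_C _ (Fact.out : p.Prime).ne_zero).not_dvd_of_degree_lt h0
      ?_ (AdjoinRoot.mk_eq_zero.1 h1)
    rw [Polynomial.degree_X_pow_sub_C (Fact.out : p.Prime).pos]
    exact Polynomial.degree_sum_fin_lt _
  have h3 := congrArg (Polynomial.coeff · i) h2
  simp only [Polynomial.finsetSum_coeff, Polynomial.coeff_C_mul_X_pow, Fin.val_inj,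
    Finset.sum_ite_eq, Finset.mem_univ, if_true, Polynomial.coeff_zero] at h3
  exact congrArg Subtype.val h3

theorem exists_D : ∃ D : 𝒮.M →+* PowerSeries 𝒮.M, (∀ z, constantCoeff (D z) = z) ∧
    D ⟨𝒮.t, 𝒮.t_mem⟩ = C ⟨𝒮.t, 𝒮.t_mem⟩ + X := by
  have := Set1_charP (p := p) 𝒮.M
  have step : ∀ (n : ℕ) (θ : {θ : 𝒮.M →+* PowerSeries 𝒮.M ⧸ mx 𝒮.M ^ (n + 1) //
      θ 𝒮.Set1t = Ideal.Quotient.mk _ (C 𝒮.Set1t + X)}),
      ∃ θ' : {θ : 𝒮.M →+* PowerSeries 𝒮.M ⧸ mx 𝒮.M ^ (n + 1 + 1) //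
        θ 𝒮.Set1t = Ideal.Quotient.mk _ (C 𝒮.Set1t + X)},
        (Ideal.Quotient.factorPow (mx 𝒮.M) (Nat.le_succ (n + 1))).comp θ'.1 = θ.1 := by
    intro n θ
    have hp := (Fact.out : p.Prime).two_le
    obtain ⟨θ', h1, h2⟩ := 𝒮.Set1_lift (Ideal.pow_le_pow_right (Nat.le_succ (n + 1)))
      (fun x hx => by
        have := Ideal.pow_mem_pow hx p
        rw [← pow_mul] at this
        exact Ideal.pow_le_pow_right (by nlinarith) this) θ.1 θ.2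
    exact ⟨⟨θ', h2⟩, h1⟩
  choose nx hnx using step
  let f : ∀ n : ℕ, {θ : 𝒮.M →+* PowerSeries 𝒮.M ⧸ mx 𝒮.M ^ (n + 1) //
      θ 𝒮.Set1t = Ideal.Quotient.mk _ (C 𝒮.Set1t + X)} := fun n =>
    Nat.rec ⟨(Ideal.Quotient.mk _).comp C, Ideal.Quotient.eq.2 (mem_mx_pow.2 fun d hd => by
      obtain rfl : d = 0 := Nat.lt_one_iff.1 hd
      simp)⟩ nx n
  have ha : StrictMono fun n : ℕ => n + 1 := fun _ _ h => Nat.succ_lt_succ h
  have key := fun n x => IsAdicComplete.StrictMono.mk_liftRingHom (mx 𝒮.M) ha (fun n => (f n).1)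
    (fun {m} => hnx m (f m)) (n := n) x
  refine ⟨IsAdicComplete.StrictMono.liftRingHom (mx 𝒮.M) ha (fun n => (f n).1)
    fun {m} => hnx m (f m), fun z => ?_, PowerSeries.ext fun n => ?_⟩
  · have := mem_mx_pow.1 (Ideal.Quotient.eq.1 (key 0 z)) 0 (by omega)
    rwa [map_sub, coeff_zero_C, coeff_zero_eq_constantCoeff_apply, sub_eq_zero] at this
  · have := mem_mx_pow.1 (Ideal.Quotient.eq.1 ((key n _).trans (f n).2)) n (by omega)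
    rwa [map_sub, sub_eq_zero] at this

/-- The Hasse derivation `t ↦ t + ε`. -/
noncomputable def D : 𝒮.M →+* PowerSeries 𝒮.M := 𝒮.exists_D.choose

/-- The same with values in `Ω⟦ε⟧`. -/
noncomputable def D₀ : 𝒮.M →+* PowerSeries Ω := (map 𝒮.M.subtype).comp 𝒮.D

theorem cc_D (z : 𝒮.M) : constantCoeff (𝒮.D z) = z := 𝒮.exists_D.choose_spec.1 z
theorem D_t : 𝒮.D ⟨𝒮.t, 𝒮.t_mem⟩ = C ⟨𝒮.t, 𝒮.t_mem⟩ + X := 𝒮.exists_D.choose_spec.2
theorem Set1_cc {R R' : Type*} [CommRing R] [CommRing R'] (j : R →+* R') (f : PowerSeries R) :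
    constantCoeff (map j f) = j (constantCoeff f) := rfl
theorem cc_D₀ (z : 𝒮.M) : constantCoeff (𝒮.D₀ z) = z := by
  rw [D₀, RingHom.comp_apply, Set1_cc, cc_D, Subfield.coe_subtype]
theorem D₀_t : 𝒮.D₀ ⟨𝒮.t, 𝒮.t_mem⟩ = C 𝒮.t + X := by
  rw [D₀, RingHom.comp_apply, D_t, map_add, map_C, map_X, Subfield.coe_subtype]
theorem coeff_D₀_mem (z : 𝒮.M) (n : ℕ) : coeff n (𝒮.D₀ z) ∈ 𝒮.M := by
  rw [D₀, RingHom.comp_apply, coeff_map]
  exact (coeff n (𝒮.D z)).2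

theorem hom_uniq {T : Type u} [CommRing T] (𝔞 : Ideal T) [IsHausdorff 𝔞 T] {θ θ' : 𝒮.M →+* T}
    (h : ∀ z, θ z - θ' z ∈ 𝔞) (ht : θ ⟨𝒮.t, 𝒮.t_mem⟩ = θ' ⟨𝒮.t, 𝒮.t_mem⟩) : θ = θ' := by
  rcases subsingleton_or_nontrivial T with _ | _
  · exact RingHom.ext fun _ => Subsingleton.elim _ _
  have : CharP T p := charP_of_injective_ringHom θ.injective p
  have hp := (Fact.out : p.Prime).two_le
  have key : ∀ n z, θ z - θ' z ∈ 𝔞 ^ (n + 1) := by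
    intro n
    induction n with
    | zero => simpa using h
    | succ n ih =>
      intro z
      obtain ⟨c, rfl⟩ := 𝒮.Set1_pb z
      simp only [map_sum, map_mul, map_pow, ht, ← Finset.sum_sub_distrib, ← sub_mul,
        ← sub_pow_char]
      refine Ideal.sum_mem _ fun i _ => Ideal.mul_mem_right _ _ ?_
      have := Ideal.pow_mem_pow (ih (c i)) p
      rw [← pow_mul] at this
      exact Ideal.pow_le_pow_right (by nlinarith) this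
  exact RingHom.ext fun z => sub_eq_zero.1 (IsHausdorff.haus' (I := 𝔞) _ fun n => Ev2_smod.2 (by
    rw [sub_zero]
    exact Ideal.pow_le_pow_right n.le_succ (key n z)))

theorem Set1_mx {R : Type u} [CommRing R] {f g : PowerSeries R}
    (h : constantCoeff f = constantCoeff g) : f - g ∈ mx R :=
  Ideal.mem_span_singleton.2 (X_dvd_iff.2 (by rw [map_sub, h, sub_self]))

/-- Iterativity. -/
theorem iter (z : 𝒮.M) : map 𝒮.D (𝒮.D z) = sh 𝒮.M (𝒮.D z) := by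
  refine RingHom.congr_fun (𝒮.hom_uniq (mx _) (θ := (map 𝒮.D).comp 𝒮.D)
    (θ' := (sh 𝒮.M).comp 𝒮.D) (fun z => Set1_mx ?_) ?_) z
  · rw [RingHom.comp_apply, RingHom.comp_apply, Set1_cc, cc_D, constantCoeff_sh]
  · rw [RingHom.comp_apply, RingHom.comp_apply, D_t, map_add, map_add, map_C, map_X, D_t, sh_C,
      sh_X, map_add, add_assoc]

theorem iter₀ (z : 𝒮.M) : map 𝒮.D₀ (𝒮.D z) = sh Ω (𝒮.D₀ z) := by
  rw [D₀, map_comp, RingHom.comp_apply, iter, map_sh, RingHom.comp_apply]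

omit [Fact p.Prime] in
theorem Set1_coeff_pow (f : PowerSeries Ω) : coeff 1 (f ^ p) = 0 := by
  rw [coeff_one_pow, CharP.cast_eq_zero, zero_mul, zero_mul]

theorem pow_of_coeff_one {z : 𝒮.M} (h : coeff 1 (𝒮.D₀ z) = 0) : ∃ w ∈ 𝒮.M, w ^ p = z := by
  obtain ⟨c, rfl⟩ := 𝒮.Set1_pb z
  have hp := (Fact.out : p.Prime).pos
  simp only [map_sum, map_mul, map_pow, coeff_one_mul, Set1_coeff_pow, D₀_t, cc_D₀, zero_mul,
    zero_add] at h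
  simp only [coeff_one_pow, map_add, coeff_one_X, constantCoeff_C, constantCoeff_X, add_zero,
    coeff_C, one_ne_zero, if_false, zero_add, mul_one] at h
  have h1 : ∑ i : Fin p, (((i : ℕ) : Ω) * c i) ^ p * 𝒮.t ^ (i : ℕ) = 0 := by
    rw [← mul_zero 𝒮.t, ← h, Finset.mul_sum]
    refine Finset.sum_congr rfl fun i _ => ?_
    rw [mul_pow, show ((i : ℕ) : Ω) ^ p = (i : ℕ) from map_natCast (frobenius Ω p) i]
    rcases (i : ℕ) with _ | k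
    · simp
    · rw [Nat.add_sub_cancel]
      ring
  refine ⟨c ⟨0, hp⟩, (c _).2, ?_⟩
  rw [Finset.sum_eq_single ⟨0, hp⟩ (fun i _ hi => ?_) (by simp)]
  · simp
  · have h2 := 𝒮.indep (fun i => mul_mem (natCast_mem _ _) (c i).2) h1 i
    have h3 : ((i : ℕ) : Ω) ≠ 0 := fun h0 => hi (Fin.ext (Nat.eq_zero_of_dvd_of_lt
      ((CharP.cast_eq_zero_iff Ω p i).1 h0) i.2))
    rw [show c i = 0 from Subtype.ext ((mul_eq_zero.1 h2).resolve_left h3), zero_pow hp.ne',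
      zero_mul]

theorem exists_root (F : Finset Ω) : ∃ m, (F : Set Ω) ⊆ root p m 𝒮.M := by
  choose f hf using 𝒮.ins
  exact ⟨F.sup f, fun z hz => root_mono p (Finset.le_sup hz) le_rfl (hf z)⟩

theorem Set1_le_root (m : ℕ) (E : Subfield Ω) : E ≤ root p m E := fun _ hz => pow_mem hz _

/-- A finite extension of a subfield of `M` has bounded level. -/
theorem le_root_of_finite {E E' : Subfield Ω} (h : E ≤ 𝒮.M) (hE : E ≤ E')
    (hf : E.relfinrank E' ≠ 0) : ∃ m, E' ≤ root p m 𝒮.M := by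
  classical
  rw [Subfield.relfinrank_eq_finrank_of_le hE] at hf
  obtain ⟨s, hs⟩ := (Module.finite_of_finrank_pos (Nat.pos_of_ne_zero hf)).fg_top
  obtain ⟨m, hm⟩ := 𝒮.exists_root (s.image Subtype.val)
  refine ⟨m, fun z hz => ?_⟩
  have h1 : (⟨z, hz⟩ : Subfield.extendScalars hE) ∈
      Submodule.span E (s : Set (Subfield.extendScalars hE)) := hs ▸ Submodule.mem_top
  refine Submodule.span_induction (p := fun x _ => x.1 ∈ root p m 𝒮.M) ?_ ?_ ?_ ?_ h1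
  · exact fun x hx => hm (Finset.mem_coe.2 (Finset.mem_image_of_mem _ hx))
  · exact zero_mem _
  · exact fun x y _ _ hx hy => add_mem hx hy
  · exact fun a x _ hx => mul_mem (Set1_le_root m _ (h a.2)) hx

/-- Morphisms. -/
structure Mor (𝒮 : Sett p Ω) (𝒮' : Sett p Ω') (j : Ω →+* Ω') : Prop where
  mem : ∀ z ∈ 𝒮.M, j z ∈ 𝒮'.M
  t : j 𝒮.t = 𝒮'.t

variable {𝒮} {𝒮' : Sett p Ω'} {𝒮'' : Sett p Ω''} {j : Ω →+* Ω'} {j' : Ω' →+* Ω''}

theorem Mor.id (𝒮 : Sett p Ω) : Mor 𝒮 𝒮 (RingHom.id Ω) := ⟨fun _ h => h, rfl⟩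
theorem Mor.comp (h' : Mor 𝒮' 𝒮'' j') (h : Mor 𝒮 𝒮' j) : Mor 𝒮 𝒮'' (j'.comp j) :=
  ⟨fun z hz => h'.mem _ (h.mem z hz), by rw [RingHom.comp_apply, h.t, h'.t]⟩
theorem Mor.D₀ (h : Mor 𝒮 𝒮' j) (z : 𝒮.M) : 𝒮'.D₀ ⟨j z, h.mem z z.2⟩ = map j (𝒮.D₀ z) := by
  refine RingHom.congr_fun (𝒮.hom_uniq (mx _)
    (θ := 𝒮'.D₀.comp ((j.comp 𝒮.M.subtype).codRestrict 𝒮'.M fun z => h.mem z z.2))
    (θ' := (map j).comp 𝒮.D₀) (fun z => Set1_mx ?_) ?_) z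
  · rw [RingHom.comp_apply, RingHom.comp_apply, Set1_cc, cc_D₀, cc_D₀]
    rfl
  · rw [RingHom.comp_apply, RingHom.comp_apply, D₀_t, map_add, map_C, map_X, h.t, ← D₀_t]
    exact congrArg _ (Subtype.ext h.t)
theorem Mor.mem_iff (h : Mor 𝒮 𝒮' j) {z : Ω} : j z ∈ 𝒮'.M ↔ z ∈ 𝒮.M := by
  refine ⟨fun hz => ?_, h.mem z⟩
  obtain ⟨m, hm⟩ := 𝒮.ins z
  induction m with
  | zero => simpa using hm
  | succ m ih =>
    refine ih ?_
    rw [pow_succ, pow_mul] at hm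
    have h1 : j (z ^ p ^ m) ∈ 𝒮'.M := by
      rw [map_pow]
      exact pow_mem hz _
    have h2 := congrArg (coeff 1) (h.D₀ ⟨_, hm⟩)
    rw [show (⟨j _, h.mem _ hm⟩ : 𝒮'.M) = ⟨_, h1⟩ ^ p from Subtype.ext (map_pow _ _ _), map_pow,
      Set1_coeff_pow, coeff_map, eq_comm, _root_.map_eq_zero] at h2
    obtain ⟨w, hw, e⟩ := 𝒮.pow_of_coeff_one h2
    exact (frobenius_inj Ω p e : w = z ^ p ^ m) ▸ hw
theorem Mor.root (h : Mor 𝒮 𝒮' j) {m : ℕ} {z : Ω} : j z ∈ root p m 𝒮'.M ↔ z ∈ root p m 𝒮.M := by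
  rw [mem_root, mem_root, ← map_pow, h.mem_iff]
omit [CharP Ω p] in
theorem Mor.Set1_ind (h : Mor 𝒮 𝒮' j) {n : ℕ} {a : Fin n → Ω'} (ha : ∀ i, a i ∈ 𝒮'.M)
    (hi : ∀ b : Fin n → Ω, (∀ i, b i ∈ 𝒮.M) → ∑ i, j (b i) * a i = 0 → ∀ i, b i = 0) (m : ℕ)
    (b : Fin n → Ω) (hb : ∀ i, b i ∈ 𝒮.M) (e : ∑ i, j (b i) * a i ^ p ^ m = 0) (i : Fin n) :
    b i = 0 := by
  induction m generalizing b i with
  | zero => exact hi b hb (by simpa using e) i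
  | succ m ih =>
    choose d hd hbd using fun i => 𝒮.pb (b i) (hb i)
    have h1 : ∑ k : Fin p, (∑ i, j (d i k) * a i ^ p ^ m) ^ p * 𝒮'.t ^ (k : ℕ) = 0 := by
      simp only [sum_pow_char, Finset.sum_mul]
      rw [Finset.sum_comm, ← e]
      refine Finset.sum_congr rfl fun i _ => ?_
      rw [hbd i, map_sum, Finset.sum_mul]
      refine Finset.sum_congr rfl fun k _ => ?_
      rw [map_mul, map_pow, map_pow, h.t]
      ring
    have h2 := fun k => ih (fun i => d i k) (fun i => hd i k) (𝒮'.indep (fun k =>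
      sum_mem fun i _ => mul_mem (h.mem _ (hd i k)) (pow_mem (ha i) _)) h1 k) i
    rw [hbd i]
    exact Finset.sum_eq_zero fun k _ => by
      rw [h2 k, zero_pow (Fact.out : p.Prime).ne_zero, zero_mul]
/-- `M'` is separable over `M`. -/
theorem Mor.ld (h : Mor 𝒮 𝒮' j) : LD (𝒮.M.map j) 𝒮'.M j.fieldRange := by
  classical
  intro n a ha hi b hb e i
  choose c hc using hb
  obtain ⟨m, hm⟩ := 𝒮.exists_root (Finset.univ.image c)
  have h1 := h.Set1_ind ha (fun b hb e i => j.injective (by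
    rw [map_zero]
    exact hi (fun i => j (b i)) (fun i => ⟨b i, hb i, rfl⟩) e i)) m (fun i => c i ^ p ^ m)
    (fun i => hm (Finset.mem_coe.2 (Finset.mem_image_of_mem _ (Finset.mem_univ i)))) (by
      have := congrArg (· ^ p ^ m) e
      simpa only [sum_pow_char_pow, mul_pow, RingHom.id_apply, ← hc, map_pow,
        zero_pow (expChar_pow_pos Ω' p m).ne'] using this) i
  rw [← hc, eq_zero_of_pow_eq_zero h1, map_zero]

variable [IsAlgClosed Ω] [IsAlgClosed Ω'] [IsAlgClosed Ω''] (𝒮)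

theorem lev_aux (m : ℕ) : ∃ 𝒯 : Sett p Ω, 𝒯.M = root p m 𝒮.M ∧ 𝒯.t ^ p ^ m = 𝒮.t := by
  choose r hr using fun z : Ω => IsAlgClosed.exists_pow_nat_eq z (expChar_pow_pos Ω p m)
  have hm : ∀ z ∈ 𝒮.M, r z ∈ root p m 𝒮.M := fun z hz => by rwa [mem_root, hr]
  refine ⟨⟨root p m 𝒮.M, r 𝒮.t, hm _ 𝒮.t_mem, fun z hz => ?_, ?_, fun z => ?_⟩, rfl, hr _⟩
  · obtain ⟨c, hc, e⟩ := 𝒮.pb _ hz
    refine ⟨fun i => r (c i), fun i => hm _ (hc i), Set1_inj (p := p) m (e.trans ?_)⟩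
    simp only [sum_pow_char_pow, mul_pow, pow_right_comm _ _ (p ^ m), hr]
  · rintro ⟨w, hw, e⟩
    exact 𝒮.np ⟨w ^ p ^ m, hw, by rw [pow_right_comm, e, hr]⟩
  · obtain ⟨k, hk⟩ := 𝒮.ins z
    exact ⟨k, Set1_le_root m _ hk⟩

/-- The level `m`. -/
noncomputable def lev (m : ℕ) : Sett p Ω := (𝒮.lev_aux m).choose

theorem lev_M (m : ℕ) : (𝒮.lev m).M = root p m 𝒮.M := (𝒮.lev_aux m).choose_spec.1
theorem lev_t (m : ℕ) : (𝒮.lev m).t ^ p ^ m = 𝒮.t := (𝒮.lev_aux m).choose_spec.2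
theorem lev_zero : 𝒮.lev 0 = 𝒮 :=
  Set1_ext (by rw [lev_M]; ext z; rw [mem_root, pow_zero, pow_one]) (by simpa using 𝒮.lev_t 0)
theorem lev_lev (m n : ℕ) : (𝒮.lev m).lev n = 𝒮.lev (m + n) :=
  Set1_ext (by rw [lev_M, lev_M, lev_M, root_root, add_comm]) (Set1_inj (p := p) (m + n) (by
    rw [lev_t, pow_add, mul_comm, pow_mul, lev_t, lev_t]))
theorem Set1_mor (m : ℕ) : Mor (𝒮.lev m) 𝒮 (iterateFrobenius Ω p m) :=
  ⟨fun _ hz => by rwa [lev_M] at hz, 𝒮.lev_t m⟩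
theorem Set1_lev (z : Ω) : ∃ m, z ∈ (𝒮.lev m).M := by
  obtain ⟨m, hm⟩ := 𝒮.ins z
  exact ⟨m, by rwa [lev_M]⟩

theorem exists_DO : ∃ θ : Ω →+* Perf p Ω, ∀ z : 𝒮.M, θ z = ιP p Ω 0 (𝒮.D₀ z) := by
  have : IsPRadical 𝒮.M.subtype p := ⟨fun z => (𝒮.ins z).imp fun _ h => ⟨⟨_, h⟩, rfl⟩, by
    rw [(RingHom.injective_iff_ker_eq_bot _).1 𝒮.M.subtype.injective]
    exact bot_le⟩
  exact ⟨PerfectRing.lift 𝒮.M.subtype ((ιP p Ω 0).comp 𝒮.D₀) p, fun z =>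
    PerfectRing.lift_comp_apply 𝒮.M.subtype _ p z⟩

/-- The Hasse derivation on `Ω`. -/
noncomputable def DO : Ω →+* Perf p Ω := 𝒮.exists_DO.choose

/-- The same with values in `Big Ω`. -/
noncomputable def DB : Ω →+* Big Ω := (Perf p Ω).subtype.comp 𝒮.DO

theorem DO_M (z : 𝒮.M) : 𝒮.DO z = ιP p Ω 0 (𝒮.D₀ z) := 𝒮.exists_DO.choose_spec z
theorem DB_M (z : 𝒮.M) : 𝒮.DB z = ιB Ω (𝒮.D₀ z) := by
  rw [DB, RingHom.comp_apply, DO_M]
  exact coe_ιP_zero _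
theorem DO_lev (m : ℕ) (z : (𝒮.lev m).M) : 𝒮.DO z = ιP p Ω m ((𝒮.lev m).D₀ z) := by
  refine Set1_inj (p := p) m ?_
  have h1 := ιP_pow 0 m ((𝒮.lev m).D₀ z)
  rw [zero_add, ← (𝒮.Set1_mor m).D₀, ← DO_M] at h1
  rw [h1, ← map_pow]
  rfl
theorem resP_DO (z : Ω) : resP p Ω (𝒮.DO z) = z := by
  obtain ⟨m, hm⟩ := 𝒮.Set1_lev z
  rw [𝒮.DO_lev m ⟨z, hm⟩, resP_ιP, cc_D₀]
theorem DO_sub_mem {m : ℕ} {z : Ω} (hz : z ∈ root p m 𝒮.M) :
    𝒮.DO z - iP p Ω z ∈ Ideal.span {eP p Ω m} := by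
  rw [← lev_M] at hz
  obtain ⟨g, hg⟩ := Ideal.mem_span_singleton.1
    (Set1_mx (g := C z) (((𝒮.lev m).cc_D₀ ⟨z, hz⟩).trans (constantCoeff_C z).symm))
  rw [𝒮.DO_lev m ⟨z, hz⟩, ← ιP_C m, ← map_sub, hg, map_mul]
  exact Ideal.mem_span_singleton.2 (dvd_mul_right _ _)

/-- The constants. -/
noncomputable def cst : Subfield Ω := RingHom.eqLocusField 𝒮.DO (iP p Ω)

theorem mem_cst {z : Ω} : z ∈ 𝒮.cst ↔ 𝒮.DO z = iP p Ω z := Iff.rfl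
theorem mem_cst_iff_DB {z : Ω} : z ∈ 𝒮.cst ↔ 𝒮.DB z = cB Ω z := by
  rw [mem_cst, ← coe_iP (p := p), Subtype.ext_iff]
  rfl
theorem mem_cst_iff_D₀ {z : 𝒮.M} : (z : Ω) ∈ 𝒮.cst ↔ 𝒮.D₀ z = C (z : Ω) := by
  rw [mem_cst, DO_M, ← ιP_C 0, (ιP_inj 0).eq_iff]
theorem Set1_cst_le {z : Ω} (hz : z ∈ 𝒮.cst) : z ∈ 𝒮.M := by
  obtain ⟨m, hm⟩ := 𝒮.ins z
  induction m with
  | zero => simpa using hm
  | succ m ih =>
    refine ih ?_
    have h1 := 𝒮.mem_cst_iff_D₀.1 (show ((⟨_, hm⟩ : 𝒮.M) : Ω) ∈ 𝒮.cst from pow_mem hz _)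
    obtain ⟨w, hw, e⟩ := 𝒮.pow_of_coeff_one (z := ⟨_, hm⟩) (by rw [h1, coeff_C, if_neg one_ne_zero])
    exact (frobenius_inj Ω p (e.trans (pow_mul z (p ^ m) p)) : w = z ^ p ^ m) ▸ hw
theorem mem_cst_iff_pow {z : Ω} : z ∈ 𝒮.cst ↔ ∀ n, ∃ w ∈ 𝒮.M, w ^ p ^ n = z := by
  refine ⟨fun hz n => ?_, fun h => ?_⟩
  · obtain ⟨w, hw⟩ := IsAlgClosed.exists_pow_nat_eq z (expChar_pow_pos Ω p n)
    refine ⟨w, 𝒮.Set1_cst_le (Set1_inj (p := p) n ?_), hw⟩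
    rw [← map_pow, ← map_pow, hw]
    exact hz
  · have := Set1_charP (p := p) Ω
    obtain ⟨w, hw, rfl⟩ := h 0
    rw [pow_zero, pow_one] at h ⊢
    refine (𝒮.mem_cst_iff_D₀ (z := ⟨w, hw⟩)).2 (PowerSeries.ext fun n => ?_)
    obtain ⟨u, hu, rfl⟩ := h n
    have h1 := Ideal.pow_mem_pow
      (Set1_mx (g := C u) ((𝒮.cc_D₀ ⟨u, hu⟩).trans (constantCoeff_C u).symm)) (p ^ n)
    have h2 := mem_mx_pow.1 h1 n (Nat.lt_pow_self (Fact.out : p.Prime).one_lt)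
    rw [sub_pow_char_pow, ← map_pow, ← map_pow, map_sub, sub_eq_zero] at h2
    exact h2
theorem cst_le : 𝒮.cst ≤ 𝒮.M := fun _ hz => 𝒮.Set1_cst_le hz
theorem cst_lev (m : ℕ) : (𝒮.lev m).cst = 𝒮.cst := by
  ext z
  rw [mem_cst_iff_pow, mem_cst_iff_pow, lev_M]
  refine ⟨fun h n => ?_, fun h n => (h n).imp fun w hw => ⟨Set1_le_root m _ hw.1, hw.2⟩⟩
  obtain ⟨w, hw, e⟩ := h (m + n)
  exact ⟨w ^ p ^ m, hw, by rw [← pow_mul, ← pow_add, e]⟩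
instance cst_algClosed : IsAlgClosed 𝒮.cst := by
  refine IsAlgClosed.of_exists_root _ fun q hq hi => ?_
  have h0 : q.map 𝒮.cst.subtype ≠ 0 := (hq.map _).ne_zero
  obtain ⟨z, hz⟩ := IsAlgClosed.exists_root (q.map 𝒮.cst.subtype)
    (by rw [Polynomial.degree_map]; exact (Polynomial.degree_pos_of_irreducible hi).ne')
  have h1 : ((q.map 𝒮.cst.subtype).map (iP p Ω)).IsRoot (𝒮.DO z) := by
    have := hz.map (f := 𝒮.DO)
    rwa [Polynomial.map_map, show 𝒮.DO.comp 𝒮.cst.subtype = (iP p Ω).comp 𝒮.cst.subtype from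
      RingHom.ext fun c => c.2, ← Polynomial.map_map] at this
  obtain ⟨r, hr⟩ := (IsAlgClosed.splits _).mem_range_of_isRoot h0 h1
  have h2 : r = z := by rw [← 𝒮.resP_DO z, ← hr, resP_iP]
  subst h2
  exact ⟨⟨r, hr.symm⟩, Polynomial.IsRoot.of_map (f := 𝒮.cst.subtype) hz 𝒮.cst.subtype.injective⟩

variable {𝒮}

theorem Mor.lev (h : Mor 𝒮 𝒮' j) (m : ℕ) : Mor (𝒮.lev m) (𝒮'.lev m) j :=
  ⟨fun z hz => by rw [lev_M] at hz ⊢; exact h.root.2 hz, Set1_inj (p := p) m (by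
    rw [← map_pow, lev_t, lev_t, h.t])⟩
theorem Mor.DO (h : Mor 𝒮 𝒮' j) (z : Ω) : 𝒮'.DO (j z) = Perf.map p j (𝒮.DO z) := by
  obtain ⟨m, hm⟩ := 𝒮.Set1_lev z
  rw [𝒮.DO_lev m ⟨z, hm⟩, Perf.map_ιP, ← (h.lev m).D₀, ← DO_lev]
theorem Mor.cst (h : Mor 𝒮 𝒮' j) {z : Ω} : j z ∈ 𝒮'.cst ↔ z ∈ 𝒮.cst := by
  rw [mem_cst, mem_cst, h.DO, ← Perf.map_iP, (Perf.map_inj j).eq_iff]

end Sett

end MLF
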