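import Pool.Agent.Work.MP_29d410_ag.Pui2
import Pool.Agent.Work.MP_29d410_ag.Set1
import Pool.Agent.Work.MP_29d410_ag.Con2
import Pool.Agent.Work.MP_29d410_ag.Geo1

-- merged part: Pool.Agent.Work.MP_29d410_ag.Pui3
section
/-! Curve selection. -/

open MvPowerSeries

namespace MLF

universe u

variable {k E : Type u} [Field k] [Field E]

theorem Pui3_rad {B : Type u} [CommRing B] [IsDomain B] [IsNoetherianRing B] [IsLocalRing B]
    {g : B} (hg : g ≠ 0) (hgm : g ∈ IsLocalRing.maximalIdeal B)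
    (h : ∀ q : Ideal B, q.IsPrime → q ≠ ⊥ → g ∈ q) :
    ∃ N : ℕ, IsLocalRing.maximalIdeal B ^ N ≤ Ideal.span {g} := by
  have hfin := Ideal.finite_minimalPrimes_of_isNoetherianRing B (Ideal.span {g})
  have key : ∀ x ∈ IsLocalRing.maximalIdeal B, x ≠ 0 →
      ∃ q ∈ (Ideal.span {g}).minimalPrimes, x ∈ q := by
    intro x hx hx0
    obtain ⟨q, hq, -⟩ := Ideal.exists_minimalPrimes_le (I := Ideal.span {x})
      ((Ideal.span_singleton_le_iff_mem _).2 hx)
    have hqp : q.IsPrime := hq.isPrime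
    have hxq : x ∈ q := hq.1.2 (Ideal.mem_span_singleton_self x)
    have hgq : g ∈ q := h q hqp (fun e => hx0 (by rwa [e, Ideal.mem_bot] at hxq))
    refine ⟨q, Ideal.mem_minimalPrimes_of_height_le ((Ideal.span_singleton_le_iff_mem _).2 hgq) ?_,
      hxq⟩
    exact (Ideal.height_le_one_of_isPrincipal_of_mem_minimalPrimes _ _ hq).trans
      (Ideal.one_le_height_span_singleton_of_mem_nonZeroDivisors (mem_nonZeroDivisors_of_ne_zero hg))
  have hsub : ((IsLocalRing.maximalIdeal B : Ideal B) : Set B) ⊆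
      ⋃ q ∈ (hfin.toFinset : Set (Ideal B)), ((id q : Ideal B) : Set B) := by
    intro x hx
    by_cases hx0 : x = 0
    · obtain ⟨q, hq, -⟩ := key g hgm hg
      exact Set.mem_biUnion (hfin.mem_toFinset.2 hq) (hx0 ▸ q.zero_mem)
    · obtain ⟨q, hq, hxq⟩ := key x hx hx0
      exact Set.mem_biUnion (hfin.mem_toFinset.2 hq) hxq
  obtain ⟨q, hq, hle⟩ := (Ideal.subset_union_prime ⊥ ⊥
    (fun q hq _ _ => (hfin.mem_toFinset.1 hq).isPrime)).1 hsub
  have hq' := hfin.mem_toFinset.1 hq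
  refine Ideal.exists_pow_le_of_le_radical_of_fg ?_ (IsNoetherian.noetherian _)
  rw [Ideal.radical_eq_sInf]
  refine le_sInf ?_
  rintro p ⟨hp1, hp2⟩
  have hpq : p ≤ q := (IsLocalRing.le_maximalIdeal hp2.ne_top).trans hle
  exact le_trans hle (hq'.2 ⟨hp2, hp1⟩ hpq)

theorem Pui3_mem_pi {A : Type u} [CommRing A] {ι : Type} [Finite ι] (J : Ideal A) (x : ι → A) :
    x ∈ (J • ⊤ : Submodule A (ι → A)) ↔ ∀ i, x i ∈ J := by
  classical
  have := Fintype.ofFinite ι
  constructor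
  · intro h
    refine Submodule.smul_induction_on h (fun r hr y _ i => J.mul_mem_right _ hr) ?_
    intro a b ha hb i
    exact J.add_mem (ha i) (hb i)
  · intro h
    rw [pi_eq_sum_univ x]
    exact Submodule.sum_mem _ (fun i _ => Submodule.smul_mem_smul (h i) Submodule.mem_top)

theorem Pui3_prec {A : Type u} [CommRing A] {ι : Type} [Finite ι] (J : Ideal A)
    [hJ : IsPrecomplete J A] : IsPrecomplete J (ι → A) := by
  refine ⟨fun f hf => ?_⟩
  have : ∀ i, ∃ L : A, ∀ n, f n i ≡ L [SMOD (J ^ n • ⊤ : Submodule A A)] := by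
    intro i
    refine hJ.prec (f := fun n => f n i) (fun {m n} hmn => ?_)
    have := (Pui3_mem_pi _ _).1 (SModEq.sub_mem.1 (hf hmn)) i
    rw [SModEq.sub_mem, smul_eq_mul, Ideal.mul_top]
    exact this
  choose L hL using this
  refine ⟨L, fun n => SModEq.sub_mem.2 ((Pui3_mem_pi _ _).2 fun i => ?_)⟩
  have := SModEq.sub_mem.1 (hL i n)
  rwa [smul_eq_mul, Ideal.mul_top] at this

theorem Pui3_span {B : Type u} [CommRing B] [IsDomain B] [IsNoetherianRing B]
    (j : PowerSeries k →+* B) (hj : ¬ IsUnit (j PowerSeries.X)) {ι : Type} [Fintype ι] (v : ι → B)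
    (h : ∀ b, ∃ c : ι → PowerSeries k, b - ∑ i, j (c i) * v i ∈ Ideal.span {j PowerSeries.X})
    (b : B) : ∃ c : ι → PowerSeries k, b = ∑ i, j (c i) * v i := by
  let _ := j.toAlgebra
  have h1 : IsPrecomplete (mx k) (ι → PowerSeries k) := Pui3_prec _
  have e : (mx k).map (algebraMap (PowerSeries k) B) = Ideal.span {j PowerSeries.X} := by
    rw [Ideal.map_span, Set.image_singleton]; rfl
  have h2 : IsHausdorff (mx k) B := by
    rw [← IsHausdorff.map_algebraMap_iff (S := B), e]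
    exact IsHausdorff.of_isDomain _ (fun ht => hj (Ideal.span_singleton_eq_top.1 ht))
  have h3 := surjective_of_mkQ_comp_surjective (I := mx k)
    (f := Fintype.linearCombination (PowerSeries k) v) (by
      intro y
      obtain ⟨b, rfl⟩ := Submodule.mkQ_surjective _ y
      obtain ⟨c, hc⟩ := h b
      refine ⟨c, ?_⟩
      rw [LinearMap.comp_apply, Submodule.mkQ_apply, Submodule.mkQ_apply, eq_comm,
        Submodule.Quotient.eq, Ideal.smul_top_eq_map, Submodule.restrictScalars_mem, e,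
        Fintype.linearCombination_apply]
      exact hc)
  obtain ⟨c, hc⟩ := h3 b
  exact ⟨c, by rw [← hc, Fintype.linearCombination_apply]; rfl⟩

theorem Pui3_inj {B : Type u} [CommRing B] [IsDomain B] (j : PowerSeries k →+* B)
    (hj : j PowerSeries.X ≠ 0) : Function.Injective j := by
  rw [injective_iff_map_eq_zero]
  intro a ha
  by_contra ha0
  obtain ⟨n, u, hu⟩ := IsDiscreteValuationRing.associated_pow_irreducible ha0
    (PowerSeries.X_irreducible (R := k))
  have := congrArg j hu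
  rw [map_mul, ha, zero_mul, map_pow] at this
  exact pow_ne_zero n hj this.symm

theorem Pui3_emb [IsAlgClosed k] {B : Type u} [CommRing B] [IsDomain B] (j : PowerSeries k →+* B)
    (hj : j PowerSeries.X ≠ 0) {ι : Type} [Fintype ι] (v : ι → B)
    (h : ∀ b, ∃ c : ι → PowerSeries k, b = ∑ i, j (c i) * v i) :
    ∃ ψ : B →+* PowerSeries k, Function.Injective ψ ∧
      (∀ a, ψ (j (PowerSeries.C a)) = PowerSeries.C a) ∧
      PowerSeries.constantCoeff (ψ (j PowerSeries.X)) = 0 := by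
  let K := FractionRing B
  let i : PowerSeries k →+* K := (algebraMap B K).comp j
  have hBK : Function.Injective (algebraMap B K) := IsFractionRing.injective B K
  have hi : Function.Injective i := hBK.comp (Pui3_inj j hj)
  have hint : ∀ b : B, j.IsIntegralElem b := by
    let _ := j.toAlgebra
    have : Module.Finite (PowerSeries k) B :=
      Module.Finite.of_surjective (Fintype.linearCombination (PowerSeries k) v) (fun b => by
        obtain ⟨c, hc⟩ := h b
        exact ⟨c, by rw [hc, Fintype.linearCombination_apply]; rfl⟩)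
    exact fun b => Algebra.IsIntegral.isIntegral (R := PowerSeries k) b
  have hint' : ∀ b : B, i.IsIntegralElem (algebraMap B K b) := by
    intro b
    obtain ⟨p, hp, hp'⟩ := hint b
    exact ⟨p, hp, by rw [← Polynomial.hom_eval₂, hp', map_zero]⟩
  set F := Subfield.closure (Set.range i) with hF
  have hfin : F.relfinrank ⊤ ≠ 0 := by
    rw [Subfield.relfinrank_top_right]
    let i' : PowerSeries k →+* F := i.codRestrict F (fun a => Subfield.subset_closure ⟨a, rfl⟩)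
    have h1 : ∀ x ∈ Set.range (fun l => algebraMap B K (v l)), IsIntegral F x := by
      rintro _ ⟨l, rfl⟩
      obtain ⟨p, hp, hp'⟩ := hint' (v l)
      exact ⟨p.map i', hp.map _, by rw [Polynomial.eval₂_map]; exact hp'⟩
    have h2 := IntermediateField.finiteDimensional_adjoin h1
    have h3 : IntermediateField.adjoin F (Set.range (fun l => algebraMap B K (v l))) = ⊤ := by
      have h4 : ∀ b : B, algebraMap B K b ∈
          IntermediateField.adjoin F (Set.range (fun l => algebraMap B K (v l))) := by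
        intro b
        obtain ⟨c, rfl⟩ := h b
        rw [map_sum]
        refine sum_mem (fun l _ => ?_)
        rw [map_mul]
        exact mul_mem (IntermediateField.algebraMap_mem _ (i' (c l)))
          (IntermediateField.subset_adjoin _ _ ⟨l, rfl⟩)
      refine eq_top_iff.2 (fun x _ => ?_)
      obtain ⟨a, b, -, rfl⟩ := IsFractionRing.div_surjective B x
      exact div_mem (h4 a) (h4 b)
    rw [h3] at h2
    have h5 : Module.Finite F K := Module.Finite.equiv IntermediateField.topEquiv.toLinearEquiv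
    exact Module.finrank_pos.ne'
  obtain ⟨η, z, hη, hC, hz, hηz, -, -, hr⟩ := puiseux i hi hfin
  let e : PowerSeries k ≃+* η.range := RingEquiv.ofBijective η.rangeRestrict
    ⟨fun a b hab => hη (congrArg Subtype.val hab), η.rangeRestrict_surjective⟩
  let ψ : B →+* PowerSeries k := e.symm.toRingHom.comp
    ((algebraMap B K).codRestrict η.range (fun b => (hr _).1 (hint' b)))
  have hψ : ∀ b, η (ψ b) = algebraMap B K b := fun b =>
    congrArg Subtype.val (e.apply_symm_apply ⟨algebraMap B K b, (hr _).1 (hint' b)⟩)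
  refine ⟨ψ, fun a b hab => hBK (by rw [← hψ, ← hψ, hab]), fun a => hη ?_, ?_⟩
  · rw [hψ, hC]; rfl
  · have : ψ (j PowerSeries.X) = z := hη (by rw [hψ, hηz]; rfl)
    rw [this, hz]

theorem curve_sel [IsAlgClosed k] {τ : Type} [Finite τ] (I : Ideal (MvPowerSeries τ k))
    {f : MvPowerSeries τ k} (hf : constantCoeff f = 0) (hI : f ∉ I.radical) :
    ∃ y : τ → PowerSeries k, (∀ l, PowerSeries.constantCoeff (y l) = 0) ∧
      (∀ h ∈ I, ev PowerSeries.C y h = 0) ∧ ev PowerSeries.C y f ≠ 0 := by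
  classical
  have hne : {p : Ideal (MvPowerSeries τ k) | (I ≤ p ∧ p.IsPrime) ∧ f ∉ p}.Nonempty := by
    rw [Ideal.radical_eq_sInf, Submodule.mem_sInf] at hI
    push Not at hI
    exact hI
  obtain ⟨p, ⟨⟨hIp, hp⟩, hfp⟩, hmax⟩ := set_has_maximal_iff_noetherian.2 inferInstance _ hne
  let π := Ideal.Quotient.mk p
  have hπ : Function.Surjective π := Ideal.Quotient.mk_surjective
  have : IsLocalRing (MvPowerSeries τ k ⧸ p) := IsLocalRing.of_surjective' π hπ
  have hm : ∀ r : MvPowerSeries τ k, constantCoeff r = 0 →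
      π r ∈ IsLocalRing.maximalIdeal (MvPowerSeries τ k ⧸ p) := by
    intro r hr
    rw [← IsLocalRing.map_maximalIdeal_of_surjective π hπ]
    refine Ideal.mem_map_of_mem _ ?_
    rw [IsLocalRing.mem_maximalIdeal, mem_nonunits_iff, isUnit_iff_constantCoeff, hr]
    exact not_isUnit_zero
  have hg : π f ≠ 0 := fun h => hfp (Ideal.Quotient.eq_zero_iff_mem.1 h)
  obtain ⟨N, hN⟩ := Pui3_rad hg (hm f hf) (by
    intro q hq hq0
    by_contra hfq
    have hle : p ≤ q.comap π := fun x hx => by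
      rw [Ideal.mem_comap, Ideal.Quotient.eq_zero_iff_mem.2 hx]; exact q.zero_mem
    have heq : q.comap π = p := by
      by_contra hne'
      exact hmax (q.comap π) ⟨⟨hIp.trans hle, Ideal.comap_isPrime π q⟩, hfq⟩
        (lt_of_le_of_ne hle (Ne.symm hne'))
    apply hq0
    refine eq_bot_iff.2 (fun x hx => ?_)
    obtain ⟨r, rfl⟩ := hπ x
    have : r ∈ p := heq ▸ hx
    exact Ideal.Quotient.eq_zero_iff_mem.2 this)
  have hpow : ∀ r ∈ mX τ k ^ N, π r ∈ Ideal.span {π f} := by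
    intro r hr
    have h1 := Ideal.mem_map_of_mem π hr
    rw [Ideal.map_pow] at h1
    refine hN (Ideal.pow_right_mono ?_ N h1)
    exact Ideal.map_le_iff_le_comap.2 (fun x hx => hm x (mem_mX.1 hx))
  have htn : TN (fun _ : Unit => f) := TN.of_cc (fun _ => hf)
  let j : PowerSeries k →+* MvPowerSeries τ k ⧸ p := π.comp (ev C (fun _ : Unit => f))
  have hjX : j PowerSeries.X = π f := congrArg π (htn.ev_X C ())
  have hjC : ∀ a, j (PowerSeries.C a) = π (C a) := fun a => congrArg π (htn.ev_C C a)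
  have hD := Finsupp.finite_of_degree_lt (σ := τ) N
  let v : hD.toFinset → MvPowerSeries τ k ⧸ p := fun d => π (monomial d.1 1)
  have hspan := Pui3_span j (by rw [hjX]; exact hm f hf) v (by
    intro b
    obtain ⟨r, rfl⟩ := hπ b
    refine ⟨fun d => PowerSeries.C (coeff d.1 r), ?_⟩
    rw [hjX]
    have e : π r - ∑ d : hD.toFinset, j (PowerSeries.C (coeff d.1 r)) * v d =
        π (r - ∑ d ∈ hD.toFinset, monomial d (coeff d r)) := by
      rw [map_sub, map_sum, ← Finset.sum_coe_sort hD.toFinset]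
      congr 1
      refine Finset.sum_congr rfl (fun d _ => ?_)
      rw [hjC, ← map_mul, ← monomial_zero_eq_C_apply, monomial_mul_monomial, zero_add, mul_one]
    rw [e]
    refine hpow _ (mem_mX_pow.2 (fun d hd => ?_))
    rw [map_sub, map_sum, Finset.sum_eq_single d, coeff_monomial_same, sub_self]
    · intro d' _ hd'
      exact coeff_monomial_ne (Ne.symm hd') _
    · intro h
      exact absurd (hD.mem_toFinset.2 hd) h)
  obtain ⟨ψ, hψ, hψC, hψX⟩ := Pui3_emb j (by rw [hjX]; exact hg) v hspan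
  rw [hjX] at hψX
  have hy : ∀ l, PowerSeries.constantCoeff (ψ (π (X l))) = 0 := by
    intro l
    have h1 := hpow (X l ^ N) (Ideal.pow_mem_pow (Ideal.subset_span (Set.mem_range_self l)) N)
    obtain ⟨b, hb⟩ := Ideal.mem_span_singleton'.1 h1
    have h2 := congrArg (fun x => PowerSeries.constantCoeff (ψ x)) hb
    simp only [map_mul, map_pow, hψX, mul_zero] at h2
    exact pow_eq_zero_iff (by rintro rfl; simp at h2) |>.1 h2.symm
  have hev : ψ.comp π = ev PowerSeries.C (fun l => ψ (π (X l))) :=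
    (TN.of_cc₁ hy).eq_ev ⟨fun c => by rw [RingHom.comp_apply, ← hjC, hψC], fun _ => rfl⟩
  refine ⟨fun l => ψ (π (X l)), hy, fun h hh => ?_, ?_⟩
  · rw [← hev, RingHom.comp_apply, Ideal.Quotient.eq_zero_iff_mem.2 (hIp hh), map_zero]
  · rw [← hev, RingHom.comp_apply]
    exact fun h => hg (hψ (by rw [h, map_zero]))

end MLF
end

-- merged part: Pool.Agent.Work.MP_29d410_ag.Set2
section
/-!
# Linear disjointness from the constants; subfields closed under the derivation; amalgams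

Plan.  `sld1`: take `a i ∈ cst'` independent over `j cst` and a relation `∑ j (b i) * a i = 0` of
minimal length, `b 0 = 1`; raising to a power `p ^ m` (the constants are perfect) we may assume
`b i ∈ M`; apply `D₀`, the coefficients of `ε ^ r` are shorter relations, so `D₀ (b i) = C (b i)`.
`sld2`: take `b i` independent over the constants and a relation `∑ a i * D (b i) = 0`,
`a i ∈ Ω`, of minimal length, `a 0 = 1`, everything in `M` after raising to a power.  Apply `D` to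
the coefficients (`iter`), then `exists_unsh`: `∑ C (D (a i)) * map C (D (b i)) = 0`; the
coefficients of the inner variable are shorter relations, so the `a i` are constants and
`D (∑ a i * b i) = 0`.
`dcl_acl`: for `τ` fixing `F` the homomorphisms `Perf.map τ ∘ DO` and `DO` from `F` to the local
domain `Perf` have the same residues and agree on `adj`; a power `z ^ p ^ m` is a simple root of a
polynomial `f` over `adj`, and two roots of `f ^ D` with the same simple residue agree.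
`Mor.factor`: `M ⊓ F`; if `z = ∑ c i ^ p * t ^ i` then the `c i ^ p` are obtained from the first
`p` coefficients of `D₀ z` by a triangular system (downward induction on `i`).
`amalg`: in the free amalgam (`exists_amalg`; replace it by the algebraic closure of the
compositum) let `M` be the separable closure of `N = M₁ ⊔ M₂`.  `N = N ^ p (t)`, and
`M = M ^ p N` for a separable extension.  If `t = w ^ p` with `w ∈ M` then `w ∈ N`, `w * q = r` with
`q, r` in the subring generated by `M₁`, `M₂`; `M₁`, `M₂` are linearly disjoint over `𝒮.M`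
(`Mor.ld`, `LD.trans`), so the two `D₀` glue (`LD.hom`); the coefficient of `ε` in
`(t + ε) * (D q) ^ p = (D r) ^ p` gives `q = 0`.
-/

open PowerSeries

namespace MLF

universe u

section field

variable {p : ℕ} [Fact p.Prime] {L : Type u} [Field L] [CharP L p]

theorem Set2_mem_acl {K : Subfield L} {z : L} {n : ℕ} (hn : n ≠ 0) (h : z ^ n ∈ K) : z ∈ acl K :=
  mem_acl.2 (IsAlgebraic.of_pow (Nat.pos_of_ne_zero hn)
    (isAlgebraic_algebraMap (⟨z ^ n, h⟩ : K)))

theorem Set2_sep_pow {K : Subfield L} {z : L} (hz : z ∈ acl K) :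
    ∃ m, IsSeparable K (z ^ p ^ m) := by
  have hi := (mem_acl.1 hz).isIntegral
  obtain ⟨g, hg, m, e⟩ := (minpoly.irreducible hi).hasSeparableContraction p
  refine ⟨m, hg.of_dvd (minpoly.dvd K _ ?_)⟩
  rw [← Polynomial.expand_aeval, e, minpoly.aeval]

theorem Set2_sep_mono {K K' : Subfield L} (h : K ≤ K') {z : L} (hz : IsSeparable K z) :
    IsSeparable K' z := by
  let _ := (Subfield.inclusion h).toAlgebra
  have : IsScalarTower K K' L := IsScalarTower.of_algebraMap_eq fun _ => rfl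
  exact hz.tower_top K'

theorem Set2_mem_of_sep {K : Subfield L} {z : L} (hz : IsSeparable K z) (hp : z ^ p ∈ K) :
    z ∈ K := by
  have h1 : z ∈ separableClosure K L ⊓ perfectClosure K L :=
    ⟨mem_separableClosure_iff.2 hz,
      (mem_perfectClosure_iff_pow_mem p).2 ⟨1, ⟨z ^ p, hp⟩, by rw [pow_one]; rfl⟩⟩
  rw [separableClosure_inf_perfectClosure, IntermediateField.mem_bot] at h1
  obtain ⟨c, rfl⟩ := h1
  exact c.2

theorem Set2_span {K : Subfield L} {t z : L} (ht : t ^ p ∈ K) (hz : z ∈ adj K {t}) :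
    ∃ c : Fin p → L, (∀ i, c i ∈ K) ∧ z = ∑ i, c i * t ^ (i : ℕ) := by
  have hp := (Fact.out : p.Prime)
  have ha : IsAlgebraic K t := mem_acl.1 (Set2_mem_acl hp.ne_zero ht)
  rw [← LD2_adj_eq] at hz
  have hz' : z ∈ (IntermediateField.adjoin K {t}).toSubalgebra := hz
  rw [IntermediateField.adjoin_simple_toSubalgebra_of_isAlgebraic ha,
    Algebra.adjoin_singleton_eq_range_aeval] at hz'
  obtain ⟨f, rfl⟩ := hz'
  let q : Polynomial K := Polynomial.X ^ p - Polynomial.C ⟨t ^ p, ht⟩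
  have hq : q.Monic := Polynomial.monic_X_pow_sub_C _ hp.ne_zero
  have hd : q.natDegree = p := Polynomial.natDegree_X_pow_sub_C
  have hq1 : q ≠ 1 := fun h => hp.ne_zero (by rw [← hd, h, Polynomial.natDegree_one])
  have h0 : Polynomial.aeval t q = 0 := by
    rw [map_sub, map_pow, Polynomial.aeval_X, Polynomial.aeval_C]
    exact sub_self _
  have h1 := Polynomial.natDegree_modByMonic_lt f hq hq1
  rw [hd] at h1
  refine ⟨fun i => ((f %ₘ q).coeff i : L), fun i => ((f %ₘ q).coeff i).2, ?_⟩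
  change Polynomial.aeval t f = _
  rw [← Polynomial.aeval_modByMonic_eq_self_of_root (p := f) h0,
    Polynomial.aeval_eq_sum_range' h1, Finset.sum_range]
  rfl

theorem Set2_coeff_pow_mul (f g : PowerSeries L) {r : ℕ} (hr : r < p) :
    coeff r (f ^ p * g) = constantCoeff f ^ p * coeff r g := by
  have : CharP (PowerSeries L) p := charP_of_injective_ringHom (C : L →+* _).injective p
  conv_lhs => rw [f.eq_X_mul_shift_add_const]
  rw [add_pow_char, add_mul, mul_pow, mul_assoc, map_add, coeff_X_pow_mul', if_neg (by omega),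
    zero_add, ← map_pow, coeff_C_mul]

omit [Fact p.Prime] [CharP L p] in
theorem Set2_coeff_binom (t : L) (i r : ℕ) :
    coeff r ((C t + X : PowerSeries L) ^ i) = t ^ (i - r) * (i.choose r : L) := by
  rw [← Polynomial.coeff_X_add_C_pow, ← Polynomial.coeff_coe, Polynomial.coe_pow,
    Polynomial.coe_add, Polynomial.coe_X, Polynomial.coe_C, add_comm]

omit [Fact p.Prime] [CharP L p] in
theorem Set2_triang {F : Subfield L} {t : L} (ht : t ∈ F) {n : ℕ} {e : Fin n → L}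
    (h : ∀ r : Fin n, ∑ i, e i * (t ^ ((i : ℕ) - r) * ((i : ℕ).choose r : L)) ∈ F) (r : Fin n) :
    e r ∈ F := by
  induction r using WellFoundedGT.induction with
  | ind r ih =>
    have h1 := h r
    rw [← Finset.add_sum_erase _ _ (Finset.mem_univ r)] at h1
    have h2 : ∑ i ∈ Finset.univ.erase r, e i * (t ^ ((i : ℕ) - r) * ((i : ℕ).choose r : L)) ∈ F := by
      refine sum_mem fun i hi => ?_
      rcases lt_or_gt_of_ne (Finset.ne_of_mem_erase hi) with hlt | hgt
      · rw [Nat.choose_eq_zero_of_lt hlt, Nat.cast_zero, mul_zero, mul_zero]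
        exact zero_mem _
      · exact mul_mem (ih i hgt) (mul_mem (pow_mem ht _) (natCast_mem F _))
    simpa using sub_mem h1 h2

/-- Two homomorphisms with the same residue which agree on `K` agree on its algebraic closure. -/
theorem Set2_hom_acl {R : Type u} [CommRing R] [IsDomain R] [CharP R p] (ρ : R →+* L)
    (α β : L →+* R) {K : Subfield L} (hK : ∀ c ∈ K, α c = β c) (hβ : ∀ c, ρ (β c) = c) {z : L}
    (hz : z ∈ acl K) (hα : ρ (α z) = z) : α z = β z := by
  obtain ⟨m, hm⟩ := Set2_sep_pow (p := p) hz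
  have key : α (z ^ p ^ m) = β (z ^ p ^ m) := by
    have hy : ρ (α (z ^ p ^ m)) = z ^ p ^ m := by rw [map_pow, map_pow, hα]
    generalize z ^ p ^ m = y at hm hy
    have h0 := minpoly.aeval K y
    have h1 := Polynomial.Separable.aeval_derivative_ne_zero hm h0
    have e : α.comp (algebraMap K L) = β.comp (algebraMap K L) := RingHom.ext fun c => hK c c.2
    have ev : ∀ (γ : L →+* R) (f : Polynomial K),
        (f.map (γ.comp (algebraMap K L))).eval (γ y) = γ (Polynomial.aeval y f) := fun γ f => by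
      rw [Polynomial.eval_map, Polynomial.aeval_def, Polynomial.hom_eval₂]
    obtain ⟨c, hc⟩ := ((minpoly K y).map (β.comp (algebraMap K L))).binomExpansion (β y)
      (α y - β y)
    rw [add_sub_cancel, ev β, Polynomial.derivative_map, ev β, ← e, ev α, h0, map_zero, map_zero,
      zero_add, sq, ← mul_assoc, ← add_mul] at hc
    rcases mul_eq_zero.1 hc.symm with h2 | h2
    · have h3 := congrArg ρ h2
      rw [map_add, map_mul, map_sub, hy, hβ, hβ, sub_self, mul_zero, add_zero, map_zero] at h3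
      exact absurd h3 h1
    · exact sub_eq_zero.1 h2
  rw [map_pow, map_pow] at key
  exact (iterateFrobenius_inj R p m) key

end field

namespace Sett

variable {p : ℕ} [Fact p.Prime] {Ω Ω' : Type u} [Field Ω] [CharP Ω p] [Field Ω'] [CharP Ω' p]
  [IsAlgClosed Ω] [IsAlgClosed Ω'] {𝒮 : Sett p Ω} {𝒮' : Sett p Ω'} {j : Ω →+* Ω'}

/-- The criterion: relations are preserved by the derivation. -/
theorem Set2_crit (𝒮 : Sett p Ω) {L : Type u} [Field L] (φ : Ω →+* L) {E : Subfield L}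
    (H : ∀ (n : ℕ) (a : Fin n → L) (b : Fin n → 𝒮.M), (∀ i, a i ∈ E) →
      ∑ i, φ (b i) * a i = 0 → ∀ r, ∑ i, φ (coeff r (𝒮.D (b i)) : 𝒮.M) * a i = 0) :
    LD (𝒮.cst.map φ) E (𝒮.M.map φ) := by
  classical
  intro n a ha hi
  have key : ∀ (N : ℕ) (b : Fin n → 𝒮.M), (Finset.univ.filter fun i => b i ≠ 0).card = N →
      ∑ i, φ (b i) * a i = 0 → ∀ i, b i = 0 := by
    intro N
    induction N using Nat.strong_induction_on with
    | _ N ih =>
      intro b hN hb i₀
      by_contra h0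
      let b' : Fin n → 𝒮.M := fun i => (b i₀)⁻¹ * b i
      have h1 : b' i₀ = 1 := inv_mul_cancel₀ h0
      have hb' : ∑ i, φ (b' i) * a i = 0 := by
        have : ∀ i, φ (b' i) * a i = φ ((b i₀)⁻¹ : 𝒮.M) * (φ (b i) * a i) := fun i => by
          rw [← mul_assoc, ← map_mul]
          rfl
        simp only [this, ← Finset.mul_sum, hb, mul_zero]
      have h2 : ∀ r i, coeff (r + 1) (𝒮.D (b' i)) = 0 := fun r => by
        refine ih _ ?_ _ rfl (H n a b' ha hb' (r + 1))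
        rw [← hN]
        refine Finset.card_lt_card ⟨fun i hi => ?_, fun hs => ?_⟩
        · simp only [Finset.mem_filter, Finset.mem_univ, true_and] at hi ⊢
          intro h
          exact hi (by simp [b', h])
        · have := hs (Finset.mem_filter.2 ⟨Finset.mem_univ i₀, h0⟩)
          simp [h1, coeff_one] at this
      have h3 : ∀ i, (b' i : Ω) ∈ 𝒮.cst := fun i => by
        rw [mem_cst_iff_D₀]
        ext r
        cases r with
        | zero => rw [coeff_zero_eq_constantCoeff, cc_D₀, constantCoeff_C]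
        | succ r =>
          rw [coeff_succ_C]
          change 𝒮.M.subtype (coeff (r + 1) (𝒮.D (b' i))) = 0
          rw [h2, map_zero]
      have h4 := hi (fun i => φ (b' i)) (fun i => ⟨_, h3 i, rfl⟩) hb' i₀
      rw [h1] at h4
      simp at h4
  intro b hb h i
  choose c hc hc' using hb
  have := key _ (fun i => ⟨c i, hc i⟩) rfl (by simpa [hc'] using h) i
  rw [← hc' i, show c i = 0 from congrArg Subtype.val this, map_zero]

omit [IsAlgClosed Ω] [CharP Ω p] in
theorem Set2_range_le (𝒮 : Sett p Ω) {L : Type u} [Field L] (φ : Ω →+* L) :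
    φ.fieldRange ≤ acl (𝒮.M.map φ) := by
  rintro _ ⟨z, rfl⟩
  obtain ⟨m, hm⟩ := 𝒮.ins z
  exact (mem_acl_map φ).2 (Set2_mem_acl (pow_ne_zero m (Fact.out : p.Prime).ne_zero) hm)

theorem Set2_cst_le (𝒮 : Sett p Ω) {L : Type u} [Field L] (φ : Ω →+* L) :
    𝒮.cst.map φ ≤ 𝒮.M.map φ := by
  rintro _ ⟨z, hz, rfl⟩
  exact ⟨z, 𝒮.cst_le hz, rfl⟩

theorem Mor.sld1 (h : Mor 𝒮 𝒮' j) : LD (𝒮.cst.map j) j.fieldRange 𝒮'.cst := by
  have h1 : LD (𝒮.cst.map j) 𝒮'.cst (𝒮.M.map j) := by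
    refine Set2_crit 𝒮 j fun n a b ha hb r => ?_
    have h2 : ∑ i, (⟨j (b i), h.mem _ (b i).2⟩ * ⟨a i, 𝒮'.cst_le (ha i)⟩ : 𝒮'.M) = 0 :=
      Subtype.ext (by simpa using hb)
    have h3 := congrArg (fun z => coeff r (𝒮'.D₀ z)) h2
    have h4 : ∀ i, 𝒮'.D₀ ⟨a i, 𝒮'.cst_le (ha i)⟩ = C (a i) := fun i =>
      (𝒮'.mem_cst_iff_D₀ (z := ⟨a i, 𝒮'.cst_le (ha i)⟩)).1 (ha i)
    simp only [map_sum, map_mul, h.D₀, h4, coeff_mul_C, coeff_map, map_zero] at h3
    exact h3
  have hk : 𝒮.cst.map j ≤ 𝒮'.cst := by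
    rintro _ ⟨z, hz, rfl⟩
    exact h.cst.2 hz
  have := algClosed_map j 𝒮.cst
  exact ((h1.symm hk (Set2_cst_le 𝒮 j)).acl (Set2_cst_le 𝒮 j) hk).mono (Set2_range_le 𝒮 j)
    (le_acl _)

omit [IsAlgClosed Ω] in
theorem Set2_rel (𝒮 : Sett p Ω) {n : ℕ} {b c : Fin n → 𝒮.M}
    (h : ∑ i, C (b i) * 𝒮.D (c i) = 0) (r : ℕ) :
    ∑ i, C (coeff r (𝒮.D (b i))) * 𝒮.D (c i) = 0 := by
  obtain ⟨θ, h1, h2⟩ := exists_unsh 𝒮.M
  have h3 := congrArg (fun f => θ (map 𝒮.D f)) h
  simp only [map_sum, map_mul, map_C, iter, h1, h2, map_zero] at h3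
  ext m
  have h4 := congrArg (fun f => coeff r (coeff m f)) h3
  simp only [map_sum, coeff_C_mul, coeff_map, coeff_mul_C, map_zero] at h4
  simp only [map_sum, coeff_C_mul, map_zero, h4]

theorem Set2_sld2 (h : Mor 𝒮 𝒮' j) : LD (𝒮.cst.map ((cB Ω').comp j)) ((cB Ω').comp j).fieldRange
    (𝒮'.DB.comp j).fieldRange := by
  let χ : PowerSeries 𝒮.M →+* Big Ω' := (ιB Ω').comp (map (j.comp 𝒮.M.subtype))
  have hχ : Function.Injective χ :=
    (ιB_inj Ω').comp (map_injective _ (j.comp 𝒮.M.subtype).injective)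
  have e1 : ∀ z : 𝒮.M, χ (C z) = (cB Ω').comp j z := fun z => by
    simp [χ, cB]
  have e2 : ∀ z : 𝒮.M, χ (𝒮.D z) = (𝒮'.DB.comp j) z := fun z => by
    have := 𝒮'.DB_M ⟨j z, h.mem z z.2⟩
    rw [h.D₀] at this
    refine Eq.trans ?_ this.symm
    simp [χ, D₀, map_comp]
  have h1 : LD (𝒮.cst.map ((cB Ω').comp j)) (𝒮.M.map (𝒮'.DB.comp j))
      (𝒮.M.map ((cB Ω').comp j)) := by
    refine Set2_crit 𝒮 _ fun n a b ha hb r => ?_
    choose c hc hc' using ha
    obtain rfl : a = fun i => χ (𝒮.D ⟨c i, hc i⟩) :=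
      funext fun i => ((e2 _).trans (hc' i)).symm
    simp only [← e1, ← map_mul, ← map_sum] at hb ⊢
    rw [Set2_rel 𝒮 (hχ (hb.trans (map_zero χ).symm)) r, map_zero]
  have hk : 𝒮.cst.map ((cB Ω').comp j) ≤ 𝒮.M.map (𝒮'.DB.comp j) := by
    rintro _ ⟨z, hz, rfl⟩
    exact ⟨z, 𝒮.cst_le hz, 𝒮'.mem_cst_iff_DB.1 (h.cst.2 hz)⟩
  have := algClosed_map ((cB Ω').comp j) 𝒮.cst
  exact ((h1.symm hk (Set2_cst_le 𝒮 _)).acl (Set2_cst_le 𝒮 _) hk).mono (Set2_range_le 𝒮 _)
    (Set2_range_le 𝒮 _)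

theorem sld2 (𝒮 : Sett p Ω) : LD (𝒮.cst.map (cB Ω)) (cB Ω).fieldRange 𝒮.DB.fieldRange := by
  simpa only [RingHom.comp_id] using Set2_sld2 (Mor.id 𝒮)

theorem Mor.sld2 (h : Mor 𝒮 𝒮' j) : LD (𝒮.cst.map ((cB Ω').comp j)) ((cB Ω').comp j).fieldRange
    (𝒮'.DB.comp j).fieldRange := Set2_sld2 h

/-- `F` is closed under the derivation. -/
def DCl (𝒮 : Sett p Ω) (F : Subfield Ω) [IsAlgClosed F] : Prop :=
  ∀ z ∈ F, 𝒮.DO z ∈ (Perf.map p F.subtype).range

theorem dcl_acl (h : Mor 𝒮 𝒮' j) {s : Set Ω'}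
    (hs : ∀ τ : Ω' ≃+* Ω', (∀ c ∈ acl (adj j.fieldRange s), τ c = c) →
      ∀ z ∈ s, Perf.map p (τ : Ω' →+* Ω') (𝒮'.DO z) = 𝒮'.DO z) :
    𝒮'.DCl (acl (adj j.fieldRange s)) := by
  intro z hz
  refine Perf.mem_range_of_fixed _ fun τ hτ => ?_
  have hK : adj j.fieldRange s ≤
      RingHom.eqLocusField ((Perf.map p (τ : Ω' →+* Ω')).comp 𝒮'.DO) 𝒮'.DO := by
    refine adj_le.2 ⟨?_, fun c hc => hs τ hτ c hc⟩
    rintro _ ⟨c, rfl⟩
    have e : (τ : Ω' →+* Ω').comp j = j :=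
      RingHom.ext fun c => hτ _ (le_acl _ (le_adj _ _ ⟨c, rfl⟩))
    change Perf.map p (τ : Ω' →+* Ω') (𝒮'.DO (j c)) = 𝒮'.DO (j c)
    rw [h.DO, Perf.map_map, e]
  refine Set2_hom_acl (p := p) (resP p Ω') ((Perf.map p (τ : Ω' →+* Ω')).comp 𝒮'.DO) 𝒮'.DO
    (fun c hc => hK hc) 𝒮'.resP_DO hz ?_
  rw [RingHom.comp_apply, Perf.resP_map, resP_DO]
  exact hτ z hz

theorem dcl_acl_cst (h : Mor 𝒮 𝒮' j) {s : Set Ω'} (hs : s ⊆ 𝒮'.cst) :
    𝒮'.DCl (acl (adj j.fieldRange s)) := by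
  refine dcl_acl h fun τ hτ z hz => ?_
  rw [𝒮'.mem_cst.1 (hs hz), Perf.map_iP]
  exact congrArg _ (hτ z (le_acl _ (subset_adj _ _ hz)))

theorem Mor.factor (h : Mor 𝒮 𝒮' j) (F : Subfield Ω') [IsAlgClosed F] (hF : ∀ z, j z ∈ F)
    (hD : 𝒮'.DCl F) : ∃ 𝒯 : Sett p F, Mor 𝒮 𝒯 (j.codRestrict F hF) ∧ Mor 𝒯 𝒮' F.subtype := by
  have ht : 𝒮'.t ∈ F := h.t ▸ hF _
  refine ⟨⟨𝒮'.M.comap F.subtype, ⟨𝒮'.t, ht⟩, 𝒮'.t_mem, fun z hz => ?_, ?_, fun z => ?_⟩,
    ⟨fun z hz => h.mem z hz, Subtype.ext h.t⟩, ⟨fun z hz => hz, rfl⟩⟩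
  · obtain ⟨c, hc, e⟩ := 𝒮'.pb z hz
    have h1 : ∀ n, coeff n (𝒮'.D₀ ⟨z, hz⟩) ∈ F := fun n => by
      have h2 := hD z z.2
      rw [𝒮'.DO_M ⟨z, hz⟩, Perf.ιP_mem_range] at h2
      simpa using h2 n
    have h3 : (⟨z, hz⟩ : 𝒮'.M) =
        ∑ i : Fin p, (⟨c i, hc i⟩ : 𝒮'.M) ^ p * (⟨𝒮'.t, 𝒮'.t_mem⟩ : 𝒮'.M) ^ (i : ℕ) :=
      Subtype.ext (by simpa using e)
    have h4 : ∀ i, c i ^ p ∈ F := Set2_triang ht fun r => by
      have h5 := h1 r
      rw [h3] at h5
      simpa only [map_sum, map_mul, map_pow, D₀_t, Set2_coeff_pow_mul _ _ r.2, cc_D₀,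
        Set2_coeff_binom] using h5
    have h6 : ∀ i, c i ∈ F := fun i =>
      acl_eq (E := F) ▸ Set2_mem_acl (Fact.out : p.Prime).ne_zero (h4 i)
    exact ⟨fun i => ⟨c i, h6 i⟩, hc, Subtype.ext (by simpa using e)⟩
  · rintro ⟨w, hw, e⟩
    exact 𝒮'.np ⟨w, hw, congrArg Subtype.val e⟩
  · obtain ⟨m, hm⟩ := 𝒮'.ins z
    exact ⟨m, hm⟩

theorem Set2_amalg {Ω₁ Ω₂ E : Type u} [Field Ω₁] [CharP Ω₁ p] [IsAlgClosed Ω₁] [Field Ω₂]
    [CharP Ω₂ p] [IsAlgClosed Ω₂] [Field E] [CharP E p] {𝒮₁ : Sett p Ω₁} {𝒮₂ : Sett p Ω₂}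
    {j₁ : Ω →+* Ω₁} {j₂ : Ω →+* Ω₂} (h₁ : Mor 𝒮 𝒮₁ j₁) (h₂ : Mor 𝒮 𝒮₂ j₂) {ψ₁ : Ω₁ →+* E}
    {ψ₂ : Ω₂ →+* E} (e : ψ₁.comp j₁ = ψ₂.comp j₂)
    (hLD : LD (ψ₁.comp j₁).fieldRange ψ₁.fieldRange ψ₂.fieldRange)
    (htop : ∀ z, z ∈ acl (ψ₁.fieldRange ⊔ ψ₂.fieldRange)) :
    ∃ 𝒯 : Sett p E, Mor 𝒮₁ 𝒯 ψ₁ ∧ Mor 𝒮₂ 𝒯 ψ₂ := by
  have hp := (Fact.out : p.Prime)
  have et : ψ₂ 𝒮₂.t = ψ₁ 𝒮₁.t := by
    rw [← h₁.t, ← h₂.t]
    exact (RingHom.congr_fun e _).symm
  obtain ⟨N, hN⟩ : ∃ N, N = 𝒮₂.M.map ψ₂ ⊔ 𝒮₁.M.map ψ₁ := ⟨_, rfl⟩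
  have hN₁ : 𝒮₁.M.map ψ₁ ≤ N := hN ▸ le_sup_right
  have hN₂ : 𝒮₂.M.map ψ₂ ≤ N := hN ▸ le_sup_left
  obtain ⟨M, hM⟩ : ∃ M : Subfield E, ∀ z, z ∈ M ↔ IsSeparable N z :=
    ⟨(separableClosure N E).toSubfield, fun z => mem_separableClosure_iff⟩
  have hNM : N ≤ M := fun z hz => (hM z).2 (isSeparable_algebraMap (⟨z, hz⟩ : N))
  have htN : ψ₁ 𝒮₁.t ∈ N := hN₁ ⟨_, 𝒮₁.t_mem, rfl⟩
  refine ⟨⟨M, ψ₁ 𝒮₁.t, hNM htN, fun z hz => ?_, ?_, fun z => ?_⟩,
    ⟨fun z hz => hNM (hN₁ ⟨z, hz, rfl⟩), rfl⟩, ⟨fun z hz => hNM (hN₂ ⟨z, hz, rfl⟩), et⟩⟩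
  · have hK : ∀ z ∈ M, z ^ p ∈ M.map (frobenius E p) := fun z hz => ⟨z, hz, rfl⟩
    have aux : ∀ {L : Type u} [Field L] (𝒯 : Sett p L) (ψ : L →+* E), ψ 𝒯.t = ψ₁ 𝒮₁.t →
        𝒯.M.map ψ ≤ N → 𝒯.M.map ψ ≤ adj (M.map (frobenius E p)) {ψ₁ 𝒮₁.t} := by
      rintro L _ 𝒯 ψ ht hle _ ⟨y, hy, rfl⟩
      obtain ⟨c, hc, rfl⟩ := 𝒯.pb y hy
      rw [map_sum]
      refine sum_mem fun i _ => ?_
      rw [map_mul, map_pow, map_pow, ht]
      exact mul_mem (le_adj _ _ (hK _ (hNM (hle ⟨_, hc i, rfl⟩))))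
        (pow_mem (subset_adj _ _ (Set.mem_singleton _)) _)
    have h3 : N ≤ adj (M.map (frobenius E p)) {ψ₁ 𝒮₁.t} :=
      hN.le.trans (sup_le (aux 𝒮₂ ψ₂ et hN₂) (aux 𝒮₁ ψ₁ rfl hN₁))
    have h4 := Set2_mem_of_sep (p := p) (Set2_sep_mono h3 ((hM z).1 hz)) (le_adj _ _ (hK z hz))
    obtain ⟨c, hc, rfl⟩ := Set2_span (hK _ (hNM htN)) h4
    choose w hw hw' using hc
    exact ⟨w, hw, Finset.sum_congr rfl fun i _ => by rw [← hw' i, frobenius_def]⟩
  · rintro ⟨w, hw, hw'⟩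
    have h3 : w ∈ N := Set2_mem_of_sep (p := p) ((hM w).1 hw) (hw' ▸ htN)
    have h4 := (ld_map_iff ψ₁).2 h₁.ld
    rw [RingHom.map_fieldRange, Subfield.map_map] at h4
    have l₁ : 𝒮₁.M.map ψ₁ ≤ ψ₁.fieldRange := by
      rintro _ ⟨y, -, rfl⟩
      exact ⟨y, rfl⟩
    have l₂ : 𝒮₂.M.map ψ₂ ≤ ψ₂.fieldRange := by
      rintro _ ⟨y, -, rfl⟩
      exact ⟨y, rfl⟩
    have k₁ : 𝒮.M.map (ψ₁.comp j₁) ≤ 𝒮₁.M.map ψ₁ := by
      rintro _ ⟨y, hy, rfl⟩
      exact ⟨j₁ y, h₁.mem y hy, rfl⟩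
    have k₂ : 𝒮.M.map (ψ₁.comp j₁) ≤ 𝒮₂.M.map ψ₂ := by
      rw [e]
      rintro _ ⟨y, hy, rfl⟩
      exact ⟨j₂ y, h₂.mem y hy, rfl⟩
    have h5 := (((h4.trans hLD l₁).symm k₁ (k₂.trans l₂)).tower k₂ l₂ k₁).inf l₂ le_sup_left
    obtain ⟨u, hu⟩ := IsAlgClosed.exists_pow_nat_eq 𝒮₂.t hp.pos
    have h6 : ψ₂ u = w := frobenius_inj E p (by
      rw [frobenius_def, frobenius_def, ← map_pow, hu, et, hw'])
    have h7 : w ∈ 𝒮₂.M.map ψ₂ := h5 ▸ ⟨⟨u, h6⟩, hN ▸ h3⟩
    obtain ⟨y, hy, hy'⟩ := h7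
    exact 𝒮₂.np ⟨y, hy, by rw [ψ₂.injective (hy'.trans h6.symm), hu]⟩
  · have h3 : ψ₁.fieldRange ⊔ ψ₂.fieldRange ≤ acl N :=
      sup_le ((Set2_range_le 𝒮₁ ψ₁).trans (acl_mono hN₁))
        ((Set2_range_le 𝒮₂ ψ₂).trans (acl_mono hN₂))
    obtain ⟨m, hm⟩ := Set2_sep_pow (p := p) (LD2_acl_le h3 (htop z))
    exact ⟨m, (hM _).2 hm⟩

theorem amalg {Ω₁ Ω₂ : Type u} [Field Ω₁] [CharP Ω₁ p] [IsAlgClosed Ω₁] [Field Ω₂] [CharP Ω₂ p]
    [IsAlgClosed Ω₂] {𝒮₁ : Sett p Ω₁} {𝒮₂ : Sett p Ω₂} {j₁ : Ω →+* Ω₁} {j₂ : Ω →+* Ω₂}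
    (h₁ : Mor 𝒮 𝒮₁ j₁) (h₂ : Mor 𝒮 𝒮₂ j₂) :
    ∃ (E : Type u) (_ : Field E) (_ : CharP E p) (_ : IsAlgClosed E) (𝒯 : Sett p E)
      (ψ₁ : Ω₁ →+* E) (ψ₂ : Ω₂ →+* E), Mor 𝒮₁ 𝒯 ψ₁ ∧ Mor 𝒮₂ 𝒯 ψ₂ ∧ ψ₁.comp j₁ = ψ₂.comp j₂ ∧
      LD (ψ₁.comp j₁).fieldRange ψ₁.fieldRange ψ₂.fieldRange := by
  obtain ⟨T, _, _, φ₁, φ₂, e, hLD⟩ := exists_amalg j₁ j₂
  have : CharP T p := charP_of_injective_ringHom φ₁.injective p
  let E : Subfield T := acl (φ₁.fieldRange ⊔ φ₂.fieldRange)
  let ψ₁ : Ω₁ →+* E := φ₁.codRestrict E fun z => le_acl _ (le_sup_left (a := φ₁.fieldRange) ⟨z, rfl⟩)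
  let ψ₂ : Ω₂ →+* E := φ₂.codRestrict E fun z => le_acl _ (le_sup_right (b := φ₂.fieldRange) ⟨z, rfl⟩)
  have e' : ψ₁.comp j₁ = ψ₂.comp j₂ := RingHom.ext fun z => Subtype.ext (RingHom.congr_fun e z)
  have hLD' : LD (ψ₁.comp j₁).fieldRange ψ₁.fieldRange ψ₂.fieldRange := by
    rw [← ld_map_iff E.subtype, RingHom.map_fieldRange, RingHom.map_fieldRange,
      RingHom.map_fieldRange]
    exact hLD
  obtain ⟨𝒯, a, b⟩ := Set2_amalg h₁ h₂ e' hLD' fun z => by
    rw [← mem_acl_map E.subtype, Subfield.map_sup, RingHom.map_fieldRange, RingHom.map_fieldRange]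
    exact z.2
  exact ⟨E, inferInstance, inferInstance, inferInstance, 𝒯, ψ₁, ψ₂, a, b, e', hLD'⟩

end Sett

end MLF
end

-- merged part: Pool.Agent.Work.MP_29d410_ag.Big1
section
/-!
# The valued field `Big k`

Plan.  `VB k` is the integral closure of `k⟦t⟧`.  Every finite set lies in a finite extension `E`
of `k((t))`, where `puiseux` identifies the integral closure with `k⟦s⟧`; so for each `z` one of
`z`, `z⁻¹` is integral.  `resB`: for `z ∈ VB k` there is a unique `a : k` with `z - a` a non-unit.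
`exists_bigMap`: `IsAlgClosed.lift`.  `coeff_mem_of_serF`: for `τ ∈ Aut (Ω / κ)`, `map τ f` is a
root of a fixed polynomial, so each coefficient has a finite orbit; or use `puiseux` over `κ`.
`ldps`: elements of `K` independent over `k` are independent over `κ`, hence over `κ⟦ε⟧`
(coefficientwise) and its fraction field; `LD.acl`.
-/

open PowerSeries

namespace MLF

universe u

variable (k : Type u) [Field k] [IsAlgClosed k]

omit [IsAlgClosed k] in
theorem Big1_acl : acl (Subfield.closure (Set.range (ιB k))) = ⊤ := by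
  refine eq_top_iff.2 fun z _ => mem_acl.2 ?_
  have hL : ∀ x : FractionRing (PowerSeries k),
      algebraMap _ (Big k) x ∈ Subfield.closure (Set.range (ιB k)) := fun x => by
    obtain ⟨a, b, -, rfl⟩ := IsFractionRing.div_surjective (A := PowerSeries k) x
    rw [map_div₀]
    exact div_mem (Subfield.subset_closure ⟨a, rfl⟩) (Subfield.subset_closure ⟨b, rfl⟩)
  have h : IsAlgebraic (FractionRing (PowerSeries k)) z := Algebra.IsAlgebraic.isAlgebraic z
  exact h.ringHom_of_comp_eq ((algebraMap _ (Big k)).codRestrict _ hL) (RingHom.id _)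
    (RingHom.injective _) rfl

/-- Every finite set lies in a field of Laurent series. -/
theorem Big1_pui (F : Set (Big k)) (hF : F.Finite) :
    ∃ (η : PowerSeries k →+* Big k) (E : Subfield (Big k)) (t : PowerSeries k),
      Function.Injective η ∧ (∀ a, η (C a) = cB k a) ∧ constantCoeff t = 0 ∧ η t = ιB k X ∧
      (∀ y ∈ E, ∃ a b, b ≠ 0 ∧ y * η b = η a) ∧
      (∀ y ∈ E, (ιB k).IsIntegralElem y ↔ y ∈ η.range) ∧ (∀ f, η f ∈ E) ∧ F ⊆ E ∧
      Subfield.closure (Set.range (ιB k)) ≤ E ∧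
      (Subfield.closure (Set.range (ιB k))).relfinrank E ≠ 0 := by
  set L := Subfield.closure (Set.range (ιB k)) with hL
  have hfin : L.relfinrank (adj L F) ≠ 0 :=
    relfinrank_adj hF (by rw [hL, Big1_acl]; exact fun _ _ => trivial)
  set E := adj L F with hE
  have hmem : ∀ f, ιB k f ∈ E := fun f => le_adj L F (Subfield.subset_closure ⟨f, rfl⟩)
  let i : PowerSeries k →+* E := (ιB k).codRestrict E hmem
  have hi : Function.Injective i := fun a b h => ιB_inj k (congrArg Subtype.val h)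
  have e1 : (Subfield.closure (Set.range i)).map E.subtype = L := by
    rw [RingHom.map_field_closure, ← Set.range_comp]
    rfl
  have e2 : (⊤ : Subfield E).map E.subtype = E := by
    rw [← RingHom.fieldRange_eq_map, Subfield.fieldRange_subtype]
  have hfin' : (Subfield.closure (Set.range i)).relfinrank ⊤ ≠ 0 := by
    rw [← Subfield.relfinrank_map_map _ _ E.subtype, e1, e2]
    exact hfin
  obtain ⟨η, t, h1, h2, h3, h4, -, h6, h7⟩ := puiseux i hi hfin'
  refine ⟨E.subtype.comp η, E, t, Subtype.val_injective.comp h1,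
    fun a => congrArg Subtype.val (h2 a), h3, congrArg Subtype.val h4, fun y hy => ?_,
    fun y hy => ?_, fun f => (η f).2, subset_adj L F, le_adj L F, hfin⟩
  · obtain ⟨a, b, hb, h⟩ := h6 ⟨y, hy⟩
    exact ⟨a, b, hb, congrArg Subtype.val h⟩
  · refine (RingHom.IsIntegralElem.map_iff (f := i) (g := E.subtype) Subtype.val_injective
      (x := ⟨y, hy⟩)).trans ((h7 _).trans ⟨?_, ?_⟩)
    · rintro ⟨f, hf⟩
      exact ⟨f, congrArg Subtype.val hf⟩
    · rintro ⟨f, hf⟩
      exact ⟨f, Subtype.ext hf⟩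

theorem exists_VB : ∃ V : ValuationSubring (Big k), ∀ z, z ∈ V ↔ (ιB k).IsIntegralElem z := by
  refine ⟨⟨(integralClosure (PowerSeries k) (Big k)).toSubring, fun z => ?_⟩, fun z => Iff.rfl⟩
  obtain ⟨η, E, t, h1, -, -, -, h5, h6, -, h8, -⟩ := Big1_pui k {z} (Set.finite_singleton z)
  have hz : z ∈ E := h8 rfl
  obtain ⟨a, b, hb, h⟩ := h5 z hz
  have hb' : η b ≠ 0 := (map_ne_zero_iff η h1).2 hb
  obtain ⟨c, hc | hc⟩ := ValuationRing.cond a b
  · refine .inr ((h6 _ (E.inv_mem hz)).2 ⟨c, ?_⟩)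
    refine eq_inv_of_mul_eq_one_right (mul_right_cancel₀ hb' ?_)
    rw [mul_right_comm, h, ← map_mul, hc, one_mul]
  · refine .inl ((h6 _ hz).2 ⟨c, mul_right_cancel₀ hb' ?_⟩)
    rw [h, ← hc, map_mul, mul_comm]

/-- The valuation ring. -/
noncomputable def VB : ValuationSubring (Big k) := (exists_VB k).choose

theorem mem_VB {z : Big k} : z ∈ VB k ↔ (ιB k).IsIntegralElem z := (exists_VB k).choose_spec z

theorem ιB_mem (f : PowerSeries k) : ιB k f ∈ VB k :=
  (mem_VB k).2 (ιB k).isIntegralElem_map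

/-- Power series in the valuation ring. -/
noncomputable def ιV : PowerSeries k →+* VB k := (ιB k).codRestrict (VB k).toSubring (ιB_mem k)

/-- Constants in the valuation ring. -/
noncomputable def cV : k →+* VB k := (ιV k).comp C

omit [IsAlgClosed k] in
theorem Big1_val {W : ValuationSubring (Big k)} {η : PowerSeries k →+* Big k}
    (hW : ∀ f, η f ∈ W) (hX : W.valuation (η X) < 1) {f : PowerSeries k}
    (hf : constantCoeff f = 0) : W.valuation (η f) < 1 := by
  obtain ⟨g, rfl⟩ := X_dvd_iff.2 hf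
  rw [map_mul, map_mul]
  exact (mul_le_of_le_one_right' ((W.valuation_le_one_iff _).2 (hW g))).trans_lt hX

omit [IsAlgClosed k] in
theorem Big1_ord {W : ValuationSubring (Big k)} {η : PowerSeries k →+* Big k}
    (hW : ∀ f, η f ∈ W) {f : PowerSeries k} (hf : f ≠ 0) :
    W.valuation (η f) = W.valuation (η X) ^ f.order.toNat := by
  conv_lhs => rw [← X_pow_order_mul_divXPowOrder (f := f)]
  rw [map_mul, map_mul, map_pow, map_pow, (W.valuation_eq_one_iff ⟨_, hW _⟩).1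
    ((isUnit_divided_by_X_pow_order hf).map (η.codRestrict W.toSubring hW)), mul_one]

/-- The same with the valuation. -/
theorem Big1_pui' (F : Set (Big k)) (hF : F.Finite) :
    ∃ (η : PowerSeries k →+* Big k) (E : Subfield (Big k)) (t : PowerSeries k),
      Function.Injective η ∧ (∀ a, η (C a) = cB k a) ∧ constantCoeff t = 0 ∧ η t = ιB k X ∧
      (∀ y ∈ E, ∃ a b, b ≠ 0 ∧ y * η b = η a) ∧
      (∀ y ∈ E, y ∈ VB k ↔ y ∈ η.range) ∧ (∀ f, η f ∈ E) ∧ F ⊆ E ∧
      Subfield.closure (Set.range (ιB k)) ≤ E ∧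
      (Subfield.closure (Set.range (ιB k))).relfinrank E ≠ 0 ∧ (∀ f, η f ∈ VB k) ∧
      (VB k).valuation (η X) < 1 := by
  obtain ⟨η, E, t, h1, h2, h3, h4, h5, h6, h7, h8, h9, h10⟩ := Big1_pui k F hF
  have h6' : ∀ y ∈ E, y ∈ VB k ↔ y ∈ η.range := fun y hy => (mem_VB k).trans (h6 y hy)
  have h11 : ∀ f, η f ∈ VB k := fun f => (h6' _ (h7 f)).2 ⟨f, rfl⟩
  refine ⟨η, E, t, h1, h2, h3, h4, h5, h6', h7, h8, h9, h10, h11,
    lt_of_le_of_ne (((VB k).valuation_le_one_iff _).2 (h11 X)) fun h => ?_⟩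
  have h0 : η X ≠ 0 := (map_ne_zero_iff η h1).2 X_ne_zero
  obtain ⟨g, hg⟩ := (h6' _ (E.inv_mem (h7 X))).1
    (((VB k).valuation_le_one_iff _).1 (by rw [map_inv₀, h, inv_one]))
  have : X * g = 1 := h1 (by rw [map_mul, hg, mul_inv_cancel₀ h0, map_one])
  simpa using congrArg constantCoeff this

theorem Big1_X : (VB k).valuation (ιB k X) < 1 := by
  obtain ⟨η, E, t, -, -, h3, h4, -, -, -, -, -, -, h11, h12⟩ := Big1_pui' k ∅ Set.finite_empty
  rw [← h4]
  exact Big1_val k h11 h12 h3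

theorem Big1_res (z : VB k) : ∃ a, (VB k).valuation ((z : Big k) - cB k a) < 1 := by
  obtain ⟨η, E, t, -, h2, -, -, -, h6, -, h8, -, -, h11, h12⟩ :=
    Big1_pui' k {(z : Big k)} (Set.finite_singleton _)
  obtain ⟨f, hf⟩ := (h6 _ (h8 rfl)).1 z.2
  refine ⟨constantCoeff f, ?_⟩
  rw [← hf, ← h2, ← map_sub]
  exact Big1_val k h11 h12 (by simp)

theorem exists_resB : ∃ r : VB k →+* k, (∀ f, r (ιV k f) = constantCoeff f) ∧
    ∀ z, r z = 0 ↔ (VB k).valuation (z : Big k) < 1 := by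
  let ρ : k →+* IsLocalRing.ResidueField (VB k) := (IsLocalRing.residue (VB k)).comp (cV k)
  have key : ∀ (z : VB k) (a : k), (VB k).valuation ((z : Big k) - cB k a) < 1 →
      ρ a = IsLocalRing.residue (VB k) z := fun z a h => by
    refine (sub_eq_zero.1 ?_).symm
    rw [RingHom.comp_apply, ← map_sub, IsLocalRing.residue_eq_zero_iff,
      ValuationSubring.valuation_lt_one_iff]
    exact h
  have hρ : Function.Surjective ρ := fun x => by
    obtain ⟨z, rfl⟩ := IsLocalRing.residue_surjective x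
    obtain ⟨a, ha⟩ := Big1_res k z
    exact ⟨a, key z a ha⟩
  let e := RingEquiv.ofBijective ρ ⟨ρ.injective, hρ⟩
  refine ⟨e.symm.toRingHom.comp (IsLocalRing.residue (VB k)), fun f => ?_, fun z => ?_⟩
  · refine e.symm_apply_eq.2 (key _ _ ?_).symm
    change (VB k).valuation (ιB k f - ιB k (C _)) < 1
    rw [← map_sub]
    exact Big1_val k (ιB_mem k) (Big1_X k) (by simp)
  · rw [RingHom.comp_apply, _root_.map_eq_zero, IsLocalRing.residue_eq_zero_iff,
      ValuationSubring.valuation_lt_one_iff]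

/-- The residue map. -/
noncomputable def resB : VB k →+* k := (exists_resB k).choose

theorem resB_ιV (f : PowerSeries k) : resB k (ιV k f) = constantCoeff f :=
  (exists_resB k).choose_spec.1 f
theorem resB_eq_zero {z : VB k} : resB k z = 0 ↔ (VB k).valuation (z : Big k) < 1 :=
  (exists_resB k).choose_spec.2 z
theorem resB_cV (a : k) : resB k (cV k a) = a := (resB_ιV k (C a)).trans (constantCoeff_C a)
theorem subtype_cV : (VB k).subtype.comp (cV k) = cB k := rfl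
theorem comm_VB : Comm (VB k) (ιB k X) ⊤ := by
  have X0 : ιB k X ≠ 0 := (map_ne_zero_iff _ (ιB_inj k)).2 X_ne_zero
  refine ⟨X0, Big1_X k, fun z _ z0 => ?_⟩
  obtain ⟨η, E, t, h1, -, -, h4, h5, -, -, h8, -, -, h11, -⟩ :=
    Big1_pui' k {z} (Set.finite_singleton _)
  obtain ⟨a, b, hb, h⟩ := h5 z (h8 rfl)
  have hb' : η b ≠ 0 := (map_ne_zero_iff η h1).2 hb
  have ha : a ≠ 0 := by
    rintro rfl
    exact mul_ne_zero z0 hb' (h.trans (map_zero η))
  have ht : t ≠ 0 := by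
    rintro rfl
    exact X0 (h4.symm.trans (map_zero η))
  have e := Big1_ord k h11 ht
  have v0 : (VB k).valuation (η X) ≠ 0 :=
    (VB k).valuation.ne_zero_iff.2 ((map_ne_zero_iff η h1).2 X_ne_zero)
  rw [h4] at e
  refine ⟨t.order.toNat, (a.order.toNat : ℤ) - b.order.toNat, Nat.pos_of_ne_zero fun h0 => ?_, ?_⟩
  · have := Big1_X k
    rw [e, h0, pow_zero] at this
    exact lt_irrefl _ this
  · rw [eq_div_of_mul_eq hb' h, map_div₀, Big1_ord k h11 ha, Big1_ord k h11 hb, e,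
      ← zpow_natCast _ a.order.toNat, ← zpow_natCast _ b.order.toNat, ← zpow_sub₀ v0,
      ← zpow_natCast, ← zpow_natCast, ← zpow_mul, ← zpow_mul, mul_comm]

theorem Big1_resB {z : VB k} {a : k} (h : (VB k).valuation ((z : Big k) - cB k a) < 1) :
    resB k z = a := by
  have := (resB_eq_zero k (z := z - cV k a)).2 h
  rwa [map_sub, resB_cV, sub_eq_zero] at this

/-- The place `ε ↦ 0`. -/
noncomputable def plB : Place (cB k) (RingHom.id k) :=
  ⟨VB k, fun a => ιB_mem k (C a), resB k, resB_cV k⟩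

theorem exists_eta (F : Finset (Big k)) (hF : ∀ z ∈ F, z ∈ VB k) :
    ∃ (η : PowerSeries k →+* VB k) (E : Subfield (Big k)), Function.Injective η ∧
      (∀ a, η (C a) = cV k a) ∧ (∀ f, resB k (η f) = constantCoeff f) ∧
      (∀ z ∈ F, ∃ f, (η f : Big k) = z) ∧ (∀ f, (η f : Big k) ∈ E) ∧
      Subfield.closure (Set.range (ιB k)) ≤ E ∧
      (Subfield.closure (Set.range (ιB k))).relfinrank E ≠ 0 := by
  obtain ⟨η, E, t, h1, h2, -, -, -, h6, h7, h8, h9, h10, h11, h12⟩ :=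
    Big1_pui' k (F : Set (Big k)) F.finite_toSet
  refine ⟨η.codRestrict (VB k).toSubring h11, E, fun a b h => h1 (congrArg Subtype.val h),
    fun a => Subtype.ext (h2 a), fun f => Big1_resB k ?_, fun z hz => (h6 z (h8 hz)).1 (hF z hz),
    h7, h9, h10⟩
  change (VB k).valuation (η f - _) < 1
  rw [← h2, ← map_sub]
  exact Big1_val k h11 h12 (by simp)

variable {k} {k' : Type u} [Field k'] [IsAlgClosed k']

omit [IsAlgClosed k] [IsAlgClosed k'] in
theorem Big1_lift (j : k →+* k') :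
    ∃ θ : Big k →+* Big k', ∀ f, θ (ιB k f) = ιB k' (map j f) := by
  have hφ : Function.Injective ((ιB k').comp (map j)) :=
    (ιB_inj k').comp (map_injective j j.injective)
  let _ : Algebra (FractionRing (PowerSeries k)) (Big k') :=
    (IsFractionRing.lift (K := FractionRing (PowerSeries k)) hφ).toAlgebra
  let θ : Big k →ₐ[FractionRing (PowerSeries k)] Big k' := IsAlgClosed.lift
  exact ⟨θ.toRingHom, fun f => (θ.commutes (algebraMap (PowerSeries k) _ f)).trans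
    (IsFractionRing.lift_algebraMap hφ f)⟩

theorem Big1_map_mem {j : k →+* k'} {θ : Big k →+* Big k'}
    (hθ : ∀ f, θ (ιB k f) = ιB k' (map j f)) {z : Big k} (hz : z ∈ VB k) : θ z ∈ VB k' := by
  have h := ((mem_VB k).1 hz).map θ
  rw [show θ.comp (ιB k) = (ιB k').comp (map j) from RingHom.ext hθ] at h
  exact (mem_VB k').2 h.of_comp

theorem Big1_map_lt {j : k →+* k'} {θ : Big k →+* Big k'}
    (hθ : ∀ f, θ (ιB k f) = ιB k' (map j f)) {z : Big k} (hz : (VB k).valuation z < 1) :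
    (VB k').valuation (θ z) < 1 := by
  by_cases z0 : z = 0
  · simp [z0]
  obtain ⟨X0, X1, h⟩ := comm_VB k
  obtain ⟨n, m, hn, e⟩ := h z trivial z0
  have v0 : 0 < (VB k).valuation (ιB k X) := (VB k).valuation.pos_iff.2 X0
  have hm : 0 < m := by
    rw [← zpow_lt_one_iff_right_of_lt_one₀ v0 X1, ← e]
    exact pow_lt_one₀ zero_le hz hn.ne'
  lift m to ℕ using hm.le
  rw [zpow_natCast] at e
  have hu : z ^ n / ιB k X ^ m ∈ VB k := by
    rw [← ValuationSubring.valuation_le_one_iff, map_div₀, map_pow, map_pow, e,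
      div_self (pow_pos v0 m).ne']
  have h1 := ((VB k').valuation_le_one_iff _).2 (Big1_map_mem hθ hu)
  rw [map_div₀, map_pow, map_pow, hθ, map_X, map_div₀, map_pow, map_pow,
    div_le_one₀ (pow_pos ((VB k').valuation.pos_iff.2 (comm_VB k').1) m)] at h1
  exact (pow_lt_one_iff_of_nonneg zero_le hn.ne').1
    (h1.trans_lt (pow_lt_one₀ zero_le (Big1_X k') (by omega)))

theorem exists_bigMap (j : k →+* k') : ∃ θ : Big k →+* Big k',
    (∀ f, θ (ιB k f) = ιB k' (map j f)) ∧ (VB k').comap θ = VB k ∧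
    (∀ (z : VB k) (h : θ z ∈ VB k'), resB k' ⟨θ z, h⟩ = j (resB k z)) ∧
    θ.fieldRange = serF j.fieldRange := by
  obtain ⟨θ, hθ⟩ := Big1_lift j
  refine ⟨θ, hθ, ?_, fun z h => Big1_resB k' ?_, ?_⟩
  · ext z
    refine ⟨fun h => ?_, fun h => Big1_map_mem hθ h⟩
    by_contra hz
    have h1 : 1 < (VB k).valuation z := not_le.1 fun h => hz (((VB k).valuation_le_one_iff _).1 h)
    have h2 := Big1_map_lt hθ (z := z⁻¹) (by rw [map_inv₀]; exact inv_lt_one_of_one_lt₀ h1)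
    have z0 : z ≠ 0 := fun h0 => hz (h0 ▸ (VB k).zero_mem)
    rw [map_inv₀, map_inv₀, inv_lt_one₀ ((VB k').valuation.pos_iff.2 ((map_ne_zero θ).2 z0))] at h2
    exact not_le.2 h2 (((VB k').valuation_le_one_iff _).2 h)
  · have h1 : (VB k).valuation ((z : Big k) - cB k (resB k z)) < 1 :=
      (resB_eq_zero k (z := z - cV k (resB k z))).1 (by rw [map_sub, resB_cV, sub_self])
    have h2 := Big1_map_lt hθ h1
    rwa [map_sub, cB, RingHom.comp_apply, hθ, map_C] at h2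
  · rw [RingHom.fieldRange_eq_map, ← Big1_acl, map_acl_eq, RingHom.map_field_closure, serF,
      ← Set.range_comp]
    congr 2
    ext z
    constructor
    · rintro ⟨f, rfl⟩
      exact ⟨map j.rangeRestrictField f, by
        rw [Function.comp_apply, hθ]; exact congrArg (ιB k') (by ext; simp)⟩
    · rintro ⟨g, rfl⟩
      obtain ⟨f, rfl⟩ := map_surjective j.rangeRestrictField
        j.rangeRestrictField_bijective.2 g
      exact ⟨f, by rw [Function.comp_apply, hθ]; exact congrArg (ιB k') (by ext; simp)⟩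

instance serF_algClosed (κ : Subfield k) : IsAlgClosed (serF κ) := acl_algClosed _

omit [IsAlgClosed k] in
theorem Big1_cB_le (κ : Subfield k) : κ.map (cB k) ≤
    Subfield.closure (Set.range fun f : PowerSeries κ => ιB k (f.map κ.subtype)) := by
  rintro _ ⟨a, ha, rfl⟩
  exact Subfield.subset_closure ⟨C ⟨a, ha⟩, congrArg (ιB k) (map_C _ _)⟩

omit [IsAlgClosed k] in
theorem map_cB_le_serF (κ : Subfield k) : κ.map (cB k) ≤ serF κ :=
  (Big1_cB_le κ).trans (le_acl _)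
omit [IsAlgClosed k] in
theorem ιB_mem_serF {κ : Subfield k} {f : PowerSeries k} (h : ∀ n, coeff n f ∈ κ) :
    ιB k f ∈ serF κ :=
  le_acl _ (Subfield.subset_closure
    ⟨PowerSeries.mk fun n => ⟨coeff n f, h n⟩, congrArg (ιB k) (by ext; simp)⟩)
omit [IsAlgClosed k] in
theorem serF_mono {κ κ' : Subfield k} (h : κ ≤ κ') : serF κ ≤ serF κ' := by
  refine acl_mono (Subfield.closure_mono ?_)
  rintro _ ⟨f, rfl⟩
  exact ⟨map (Subfield.inclusion h) f, congrArg (ιB k) (by ext; simp only [coeff_map]; rfl)⟩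
theorem resB_mem {κ : Subfield k} [IsAlgClosed κ] (z : VB k) (h : (z : Big k) ∈ serF κ) :
    resB k z ∈ κ := by
  obtain ⟨θ, -, h2, h3, h4⟩ := exists_bigMap κ.subtype
  rw [Subfield.fieldRange_subtype] at h4
  rw [← h4] at h
  obtain ⟨z, hz⟩ := z
  obtain ⟨w, rfl⟩ := h
  have hw : w ∈ VB κ := h2 ▸ (show w ∈ (VB k).comap θ from hz)
  rw [h3 ⟨w, hw⟩ hz]
  exact (resB κ ⟨w, hw⟩).2
theorem coeff_mem_of_serF {κ : Subfield k} [IsAlgClosed κ] {f : PowerSeries k}
    (h : ιB k f ∈ serF κ) (n : ℕ) : coeff n f ∈ κ := by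
  have h0 : ∀ {f : PowerSeries k}, ιB k f ∈ serF κ → constantCoeff f ∈ κ := fun {f} h => by
    rw [← resB_ιV]
    exact resB_mem _ h
  induction n generalizing f with
  | zero => simpa using h0 h
  | succ n ih =>
    obtain ⟨g, hg⟩ := X_dvd_iff.2 (show constantCoeff (f - C (constantCoeff f)) = 0 by simp)
    have hX : ιB k X ∈ serF κ := ιB_mem_serF fun n => by
      rw [coeff_X]
      split_ifs
      exacts [κ.one_mem, κ.zero_mem]
    have h1 : ιB k g ∈ serF κ := by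
      have : ιB k g = (ιB k f - cB k (constantCoeff f)) / ιB k X := by
        rw [eq_div_iff (comm_VB k).1, ← map_mul, mul_comm, ← hg, map_sub]
        rfl
      rw [this]
      exact div_mem (sub_mem h (map_cB_le_serF κ ⟨_, h0 h, rfl⟩)) hX
    have h2 := congrArg (coeff (n + 1)) hg
    rw [map_sub, coeff_succ_X_mul, coeff_C, if_neg n.succ_ne_zero, sub_zero] at h2
    rw [h2]
    exact ih h1

omit [IsAlgClosed k] in
theorem ldps {k₀ K κ : Subfield k} [IsAlgClosed k₀] (h : LD k₀ K κ) (h₁ : k₀ ≤ K) (h₂ : k₀ ≤ κ) :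
    LD (k₀.map (cB k)) (K.map (cB k)) (serF κ) := by
  have := algClosed_map (cB k) k₀
  have hm : ∀ {A B : Subfield k}, A ≤ B → A.map (cB k) ≤ B.map (cB k) := fun h => by
    rintro _ ⟨a, ha, rfl⟩
    exact ⟨a, h ha, rfl⟩
  refine (LD.acl ?_ (hm h₁) ((hm h₂).trans (Big1_cB_le κ))).mono (le_acl _) le_rfl
  intro n a ha hi b hb hs
  choose c hc hc' using ha
  obtain rfl : a = fun i => cB k (c i) := funext fun i => (hc' i).symm
  have hi' := h n c hc ((LD1b_ind_map (cB k)).1 hi)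
  obtain ⟨d, d0, hd⟩ := LD1b_denom hb
  have hle : Subring.closure (Set.range fun f : PowerSeries κ => ιB k (f.map κ.subtype)) ≤
      ((ιB k).comp (map κ.subtype)).range := Subring.closure_le.2 fun _ h => h
  choose f hf using fun i => hle (hd i)
  have h1 : ∑ i, map κ.subtype (f i) * C (c i) = 0 := by
    refine ιB_inj k ?_
    have h2 := congrArg (d * ·) hs
    simp only [Finset.mul_sum, RingHom.id_apply, mul_zero, ← mul_assoc, ← hf] at h2
    rw [map_sum, map_zero, ← h2]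
    exact Finset.sum_congr rfl fun i _ => map_mul _ _ _
  intro i
  have h3 : f i = 0 := by
    ext m
    refine hi' (fun i => (coeff m (f i) : κ)) (fun i => (coeff m (f i)).2) ?_ i
    simpa [map_sum, coeff_mul_C] using congrArg (coeff m) h1
  have h4 := hf i
  rw [h3, map_zero] at h4
  exact (mul_eq_zero.1 h4.symm).resolve_left d0

theorem Big1_pow_mem {Ω : Type u} [Field Ω] {E : Subfield Ω} [IsAlgClosed E] {z : Ω} {N : ℕ}
    (hN : 0 < N) : z ^ N ∈ E ↔ z ∈ E :=
  ⟨fun h => acl_eq.le (mem_acl.2 ((mem_acl.1 (le_acl E h)).of_pow hN)), fun h => pow_mem h N⟩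

section perf
variable {p : ℕ} [Fact p.Prime] [CharP k p]
theorem perf_mem_VB (z : Perf p k) : (z : Big k) ∈ VB k := by
  obtain ⟨m, f, hf⟩ := z.2
  have h := ((VB k).valuation_le_one_iff _).2 (ιB_mem k f)
  rw [hf, map_pow, pow_le_one_iff (expChar_pow_pos k p m).ne'] at h
  exact ((VB k).valuation_le_one_iff _).1 h
theorem resB_perf (z : Perf p k) : resB k ⟨z, perf_mem_VB z⟩ = resP p k z := by
  obtain ⟨m, f, rfl⟩ := exists_ιP z
  refine (iterateFrobenius k p m).injective ?_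
  have h : (⟨ιP p k m f, perf_mem_VB _⟩ : VB k) ^ p ^ m =
      ιV k (map (iterateFrobenius k p m) f) := Subtype.ext (ιP_spec m f)
  rw [resP_ιP, iterateFrobenius_def, ← map_pow, h, resB_ιV,
    ← coeff_zero_eq_constantCoeff_apply, coeff_map, coeff_zero_eq_constantCoeff_apply]
theorem perf_mem_serF_iff {κ : Subfield k} [IsAlgClosed κ] {z : Perf p k} :
    (z : Big k) ∈ serF κ ↔ z ∈ (Perf.map p κ.subtype).range := by
  obtain ⟨m, f, rfl⟩ := exists_ιP z
  rw [Perf.ιP_mem_range, Subfield.fieldRange_subtype,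
    ← Big1_pow_mem (expChar_pow_pos k p m), ιP_spec]
  refine ⟨fun h n => ?_, fun h => ιB_mem_serF fun n => ?_⟩
  · have := coeff_mem_of_serF h n
    rwa [coeff_map, iterateFrobenius_def, Big1_pow_mem (expChar_pow_pos k p m)] at this
  · rw [coeff_map, iterateFrobenius_def]
    exact pow_mem (h n) _
end perf

end MLF
end

-- merged part: Pool.Agent.Work.MP_29d410_ag.NBA
section
/-! Auxiliary statements for the congruence of a point to its Gauss reduction. -/

open PowerSeries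

namespace MLF

universe u

section alg

variable {O R : Type u} [CommRing O] [IsDomain O] [CommRing R] {η : O →+* R} {x : R}
  {Θ : R →+* PowerSeries O}

theorem NBA_dvd (hx : Θ x = X) (h : ∀ d, ∃ d', d = η (constantCoeff (Θ d)) + x * d') (N : ℕ) :
    ∀ d, X ^ N ∣ Θ d → x ^ N ∣ d := by
  induction N with
  | zero => simp
  | succ N ih =>
    intro d hd
    obtain ⟨d', e⟩ := h d
    have h0 : constantCoeff (Θ d) = 0 := X_dvd_iff.1 ((dvd_pow_self X N.succ_ne_zero).trans hd)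
    rw [h0, map_zero, zero_add] at e
    rw [e, map_mul, hx, pow_succ', mul_dvd_mul_iff_left X_ne_zero] at hd
    rw [e, pow_succ']
    exact mul_dvd_mul_left _ (ih _ hd)

omit [IsDomain O] in
theorem NBA_trunc (hη : ∀ f, Θ (η f) = C f) (hx : Θ x = X) (N : ℕ) :
    ∀ g : PowerSeries O, ∃ e, X ^ N ∣ g - Θ (η (constantCoeff g) + x * e) := by
  induction N with
  | zero => simp
  | succ N ih =>
    intro g
    obtain ⟨e, he⟩ := ih (mk fun n => coeff (n + 1) g)
    refine ⟨η (constantCoeff (mk fun n => coeff (n + 1) g)) + x * e, ?_⟩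
    rw [map_add, hη, map_mul, hx]
    nth_rewrite 1 [g.eq_X_mul_shift_add_const]
    rw [pow_succ', add_comm (C _), add_sub_add_right_eq_sub, ← mul_sub]
    exact mul_dvd_mul_left _ he

theorem NBA_val {E : Type u} [Field E] {W : ValuationSubring E} {μ : R →+* E}
    (hη : ∀ f, Θ (η f) = C f) (hx : Θ x = X)
    (h : ∀ d, ∃ d', d = η (constantCoeff (Θ d)) + x * d') (hμ : ∀ d, μ d ∈ W)
    (h1 : W.valuation (μ x) < 1) {a b : R} {g : PowerSeries O} (hg : Θ a = Θ b * g) {N : ℕ}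
    (hN : W.valuation (μ x) ^ N < W.valuation (μ b)) {γ : E}
    (hγ : W.valuation (μ (η (constantCoeff g)) - γ) < 1) : W.valuation (μ a / μ b - γ) < 1 := by
  have hle : ∀ d, W.valuation (μ d) ≤ 1 := fun d => (W.valuation_le_one_iff _).2 (hμ d)
  have hb : 0 < W.valuation (μ b) := zero_le.trans_lt hN
  have hb' : μ b ≠ 0 := W.valuation.pos_iff.1 hb
  obtain ⟨e, he⟩ := NBA_trunc hη hx N g
  obtain ⟨e', he'⟩ := NBA_dvd hx h N (a - b * (η (constantCoeff g) + x * e)) (by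
    rw [map_sub, map_mul, hg, ← mul_sub]
    exact he.mul_left _)
  have e1 : μ a / μ b - γ = (μ (η (constantCoeff g)) - γ) + μ x * μ e + μ x ^ N * μ e' / μ b := by
    rw [sub_eq_iff_eq_add.1 he']
    simp only [map_add, map_mul, map_pow]
    field_simp
    ring
  rw [e1]
  refine W.valuation.map_add_lt (W.valuation.map_add_lt hγ ?_) ?_
  · rw [map_mul]
    exact (mul_le_of_le_one_right' (hle e)).trans_lt h1
  · rw [map_div₀, div_lt_one₀ hb, map_mul, map_pow]
    exact (mul_le_of_le_one_right' (hle e')).trans_lt hN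

end alg

section val

variable {E : Type u} [Field E] {W : ValuationSubring E}

theorem NBA_arch {t x w : E} (h : Comm W t ⊤) (hx0 : x ≠ 0) (hx : W.valuation x < 1) (hw : w ≠ 0) :
    ∃ N : ℕ, W.valuation x ^ N < W.valuation w := by
  obtain ⟨t0, t1, h⟩ := h
  obtain ⟨n, m, hn, e⟩ := h x trivial hx0
  obtain ⟨n', m', hn', e'⟩ := h w trivial hw
  have v0 : 0 < W.valuation t := W.valuation.pos_iff.2 t0
  have hm : 0 < m := by
    rw [← zpow_lt_one_iff_right_of_lt_one₀ v0 t1, ← e]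
    exact pow_lt_one₀ zero_le hx hn.ne'
  refine ⟨n * (m'.natAbs + 1), lt_of_pow_lt_pow_left₀ n' zero_le ?_⟩
  rw [e', ← pow_mul, mul_assoc, pow_mul, e, ← zpow_natCast, ← zpow_mul]
  refine zpow_lt_zpow_right_of_lt_one₀ v0 t1 ?_
  have h1 : (1 : ℤ) ≤ n' := by exact_mod_cast hn'
  have h2 : m' < (m'.natAbs : ℤ) + 1 := by omega
  have h3 : (0 : ℤ) < (m'.natAbs : ℤ) + 1 := by omega
  push_cast
  rw [← Int.natCast_natAbs]
  calc m' < 1 * (((m'.natAbs : ℤ) + 1) * 1) := by omega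
    _ ≤ m * (((m'.natAbs : ℤ) + 1) * n') := by gcongr; omega

theorem NBA_norm (W : ValuationSubring E) {ι : Type*} [Finite ι] {f : ι → E} {i₁ : ι}
    (h : f i₁ ≠ 0) : ∃ i₀, f i₀ ≠ 0 ∧ ∀ i, f i / f i₀ ∈ W := by
  have : Nonempty ι := ⟨i₁⟩
  obtain ⟨i₀, hm⟩ := Finite.exists_max fun i => W.valuation (f i)
  refine ⟨i₀, fun h0 => h ?_, fun i => ?_⟩
  · have h5 := hm i₁
    rwa [h0, map_zero, le_zero_iff, _root_.map_eq_zero] at h5
  · rw [← W.valuation_le_one_iff, map_div₀]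
    exact div_le_one_of_le₀ (hm i) zero_le

theorem NBA_mem {z γ : E} (hγ : γ ∈ W) (h : W.valuation (z - γ) < 1) : z ∈ W := by
  have := add_mem ((W.valuation_le_one_iff _).1 h.le) hγ
  rwa [sub_add_cancel] at this

end val

section glue

variable {k E : Type u} [Field k] [Field E]

theorem NBA_hom_ext {T : Type u} [CommRing T] {R₁ R₂ : Subring E}
    {f g : (R₁ ⊔ R₂ : Subring E) →+* T}
    (h₁ : ∀ z (hz : z ∈ R₁), f ⟨z, le_sup_left (a := R₁) hz⟩ = g ⟨z, le_sup_left (a := R₁) hz⟩)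
    (h₂ : ∀ z (hz : z ∈ R₂), f ⟨z, le_sup_right (b := R₂) hz⟩ = g ⟨z, le_sup_right (b := R₂) hz⟩) :
    f = g := by
  have h : R₁ ⊔ R₂ ≤ (f.eqLocus g).map (R₁ ⊔ R₂).subtype :=
    sup_le (fun z hz => ⟨_, h₁ z hz, rfl⟩) fun z hz => ⟨_, h₂ z hz, rfl⟩
  ext z
  obtain ⟨w, hw, e⟩ := h z.2
  obtain rfl : w = z := Subtype.ext e
  exact hw

theorem NBA_glue {O T : Type u} [CommRing O] [CommRing T] {c : k →+* E} {K κ : Subfield E}
    (hLD : LD c.fieldRange K κ) (hκ : c.fieldRange ≤ κ) {φ : O →+* E}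
    (hφ : Function.Injective φ) (hK : ∀ z, φ z ∈ K) {c₁ : k →+* O} (hc : ∀ a, φ (c₁ a) = c a)
    {B : Subring E} (hB : B ≤ κ.toSubring) (hcB : ∀ a, c a ∈ B) (θ₁ : O →+* T) (θ₂ : B →+* T)
    (hθ : ∀ a, θ₁ (c₁ a) = θ₂ ⟨c a, hcB a⟩) :
    ∃ Θ : (φ.range ⊔ B : Subring E) →+* T,
      (∀ z, Θ ⟨φ z, le_sup_left (a := φ.range) ⟨z, rfl⟩⟩ = θ₁ z) ∧
      ∀ z : B, Θ ⟨z, le_sup_right (b := B) z.2⟩ = θ₂ z := by
  let e : O ≃+* φ.range := RingEquiv.ofBijective φ.rangeRestrict
    ⟨fun a b h => hφ (congrArg Subtype.val h), φ.rangeRestrict_surjective⟩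
  have he : ∀ z, e.symm ⟨φ z, z, rfl⟩ = z := fun z => e.symm_apply_apply z
  obtain ⟨Θ, h1, h2⟩ := LD.hom hLD (by rintro _ ⟨a, rfl⟩; exact hc a ▸ hK _) hκ (R₁ := φ.range)
    (R₂ := B) (by rintro _ ⟨a, rfl⟩; exact hK a) hB (by rintro _ ⟨a, rfl⟩; exact ⟨_, hc a⟩)
    (by rintro _ ⟨a, rfl⟩; exact hcB a) (θ₁.comp e.symm.toRingHom) θ₂ (by
      rintro _ ⟨a, rfl⟩
      refine Eq.trans (congrArg θ₁ ?_) (hθ a)
      exact (congrArg e.symm (Subtype.ext (hc a).symm)).trans (he _))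
  exact ⟨Θ, fun z => (h1 ⟨φ z, z, rfl⟩).trans (congrArg θ₁ (he z)), h2⟩

/-- Coordinates with respect to an independent family. -/
theorem NBA_decomp {k K κ : Subfield E} (hK : k ≤ K) {σ : Type} [Finite σ] {v : σ → E}
    (hv : ∀ i, v i ∈ K ⊔ κ) : ∃ (ι : Type u) (_ : Fintype ι) (d : E) (b : ι → E) (a : σ → ι → E),
      d ≠ 0 ∧ (∀ l, b l ∈ κ) ∧ LinearIndependent k b ∧ (∀ i l, a i l ∈ K) ∧
      ∀ i, d * v i = ∑ l, a i l * b l := by
  classical
  have := Fintype.ofFinite σ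
  obtain ⟨t, ht, hsp, hli⟩ := exists_linearIndependent k (κ : Set E)
  have hle : Submodule.span K (κ : Set E) ≤ Submodule.span K (Set.range (Subtype.val : t → E)) := by
    rw [Subtype.range_coe, Submodule.span_le]
    intro y hy
    have hy' : y ∈ Submodule.span k t := hsp ▸ Submodule.subset_span hy
    clear hy
    induction hy' using Submodule.span_induction with
    | mem x hx => exact Submodule.subset_span hx
    | zero => exact zero_mem _
    | add _ _ _ _ h h' => exact add_mem h h'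
    | smul c _ _ h => exact Submodule.smul_mem _ (⟨c.1, hK c.2⟩ : K) h
  let q := Fintype.equivFin σ
  obtain ⟨d, hd, hdb⟩ := LD1b_denom (s := (K : Set E) ∪ κ) (b := fun i => v (q.symm i)) fun i => by
    rw [Subfield.closure_union, Subfield.closure_eq, Subfield.closure_eq]
    exact hv _
  have hdb' : ∀ i, d * v i ∈ Subring.closure ((K : Set E) ∪ κ) := fun i => by
    simpa using hdb (q i)
  choose c hc using fun i => Finsupp.mem_span_range_iff_exists_finsupp.1 (hle (LD1b_span (hdb' i)))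
  let s := Finset.univ.biUnion fun i => (c i).support
  refine ⟨s, inferInstance, d, fun l => ((l : t) : E), fun i l => c i l, hd, fun l => ht l.1.2,
    hli.comp _ Subtype.val_injective, fun i l => (c i l).2, fun i => ?_⟩
  rw [← hc i, Finset.sum_coe_sort s fun l => (c i l : E) * (l : E)]
  exact Finsupp.sum_of_support_subset _
    (Finset.subset_biUnion_of_mem (fun i => (c i).support) (Finset.mem_univ i))
    (fun (j : t) (a : K) => a • (j : E)) fun _ _ => zero_smul _ _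

end glue

theorem PG.NBA_eqn {A : PG.{u}} {O R E T : Type u} [CommRing O] [CommRing R] [CommRing E]
    [CommRing T] (ψ : O →+* R) {μ : R →+* E} (hμ : Function.Injective μ) (Θ : R →+* T)
    {s₀ : A.Str O} {s' : A.Str E} {s'' : A.Str T} (h' : A.push (μ.comp ψ) s₀ = s')
    (h'' : A.push (Θ.comp ψ) s₀ = s'') {v : A.σ → R}
    (hv : ∀ i, MvPolynomial.eval (μ ∘ v) (A.eqn s' i) = 0) (i : A.ι) :
    MvPolynomial.eval (Θ ∘ v) (A.eqn s'' i) = 0 := by
  have h := hv i
  rw [← h', ← A.ax.push_comp, A.ax.eqn_push, MvPolynomial.eval_map,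
    ← MvPolynomial.eval₂_comp] at h
  rw [← h'', ← A.ax.push_comp, A.ax.eqn_push, MvPolynomial.eval_map, ← MvPolynomial.eval₂_comp,
    hμ (h.trans (map_zero μ).symm), map_zero]

end MLF
end
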