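import Pool.Agent.Work.MP_29d410_ag.Geo5
import Pool.Agent.Work.MP_29d410_ag.DM6
import Pool.Agent.Work.MP_29d410_ag.NBA

-- merged part: Pool.Agent.Work.MP_29d410_ag.Chart
section
/-!
# The formal group of a smooth projective group functor

Plan.  `c_map` from the field `formula` (with `T₀ = T`).  `exists_fgl`: over `T₀⟦X, Y⟧` take the
points `x̂`, `ŷ` with `c x̂ = X`, `c ŷ = Y` (`c_surj`), `F = c (x̂ + ŷ)`, and over `T₀⟦X⟧` put
`N = c (-x̂)`.  For points `x`, `y` over `T` the evaluation `ev φ (c x, c y)` maps `x̂`, `ŷ` to `x`,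
`y` (`c_inj` with the zero ideal; a complete ideal lies in the maximal ideal).  All laws follow by
applying this to universal points.
`cong_nsmul`: in `T / ε ^ p ^ k` the ideal generated by `ε` is nilpotent; `FGL.Pts.nsmul_mem`.
`eq_zero_of_val`: the ideal `I` generated by the `c x i` is principal, `I = (z)`; in `W / I ^ 2`
one has `c (n • x) = n * c x` (`mul_sub_mem`), so `z ∈ (z ^ 2)`, `z = 0`.
`fh`: otherwise `curve_sel` gives a nonzero arc killed by `[p]`; `TorsFin.ps`.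
-/

open MvPowerSeries IsLocalRing

namespace MLF

universe u

namespace SPG

open PG

variable {A : SPG.{u}} {T₀ T T' : Type u} [CommRing T₀] [IsLocalRing T₀] [CommRing T]
  [IsLocalRing T] [CommRing T'] [IsLocalRing T'] {s : A.Str T}

theorem c_map (φ : T →+* T') {s' : A.Str T'} (h : A.push φ s = s') {x : A.Pt s}
    (hx : Cong (maximalIdeal T) x (0 : A.Pt s))
    (hx' : Cong (maximalIdeal T') (A.map φ h x) (0 : A.Pt s')) : A.c (A.map φ h x) = φ ∘ A.c x := by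
  obtain ⟨Cn, Cd, d, -, -, H⟩ := A.ch.formula s
  obtain ⟨v, hv⟩ := A.ax.exists_rep x
  obtain ⟨-, h1⟩ := H (RingHom.id T) s (A.ax.push_id s) x v hv hx
  obtain ⟨h2, h3⟩ := H φ s' h _ _ (rep_map φ h hv) hx'
  funext i
  refine h2.mul_right_cancel ?_
  have e : ∀ P : MvPolynomial A.σ T, MvPolynomial.eval₂ φ (φ ∘ v) P =
      φ (MvPolynomial.eval₂ (RingHom.id T) v P) := fun P => by
    rw [MvPolynomial.eval₂_comp_left, RingHom.comp_id]
  rw [h3 i, e, e, ← h1 i, map_mul, Function.comp_apply]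

theorem Chart_cong_map {𝔞 : Ideal T} {𝔞' : Ideal T'} (φ : T →+* T') {s' : A.Str T'}
    (h : A.push φ s = s') (h𝔞 : ∀ z ∈ 𝔞, φ z ∈ 𝔞') {x : A.Pt s} (hx : Cong 𝔞 x (0 : A.Pt s)) :
    Cong 𝔞' (A.map φ h x) (0 : A.Pt s') := by
  have := hx.map φ h h h𝔞
  rwa [map_zero] at this

theorem Chart_local (φ : T →+* T') [IsLocalHom φ] :
    ∀ z ∈ maximalIdeal T, φ z ∈ maximalIdeal T' := fun _ hz => map_nonunit φ _ hz

theorem Chart_sub {𝔞 : Ideal T} {s' : A.Str T}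
    (hs : A.push (Ideal.Quotient.mk 𝔞) s = A.push (Ideal.Quotient.mk 𝔞) s') {x : A.Pt s}
    {y : A.Pt s'} (hx : Cong (maximalIdeal T) x (0 : A.Pt s)) (h : Cong 𝔞 x y) (h𝔞 : 𝔞 ≠ ⊤)
    (i : A.τ) : A.c x i - A.c y i ∈ 𝔞 := by
  have : Nontrivial (T ⧸ 𝔞) := Ideal.Quotient.nontrivial_iff.2 h𝔞
  have : IsLocalRing (T ⧸ 𝔞) :=
    IsLocalRing.of_surjective' (Ideal.Quotient.mk 𝔞) Ideal.Quotient.mk_surjective
  have : IsLocalHom (Ideal.Quotient.mk 𝔞) :=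
    IsLocalHom.of_surjective _ Ideal.Quotient.mk_surjective
  have e : A.map (Ideal.Quotient.mk 𝔞) hs x = A.map (Ideal.Quotient.mk 𝔞) rfl y :=
    (cong_ker_iff _ hs rfl).1 (by rwa [Ideal.mk_ker])
  have h1 := Chart_cong_map (Ideal.Quotient.mk 𝔞) hs (Chart_local _) hx
  have h2 := e ▸ h1
  have hy : Cong (maximalIdeal T) y (0 : A.Pt s') := by
    have := Cong.of_map (x := y) (y := (0 : A.Pt s')) (Ideal.Quotient.mk 𝔞) rfl rfl
      (𝔞' := maximalIdeal _) (by rwa [map_zero])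
    rwa [IsLocalRing.maximalIdeal_comap] at this
  have h3 := c_map _ hs hx h1
  rw [e, c_map _ rfl hy h2] at h3
  exact Ideal.Quotient.eq.1 (congrFun h3 i).symm

theorem c_mem {𝔞 : Ideal T} (h𝔞 : 𝔞 ≠ ⊤) {x : A.Pt s} (hx : Cong 𝔞 x (0 : A.Pt s)) (i : A.τ) :
    A.c x i ∈ 𝔞 := by
  have := Chart_sub rfl (hx.mono (le_maximalIdeal h𝔞)) hx h𝔞 i
  rwa [A.ch.c_zero, Pi.zero_apply, sub_zero] at this

theorem c_sub_mem {𝔞 : Ideal T} {s' : A.Str T}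
    (hs : A.push (Ideal.Quotient.mk 𝔞) s = A.push (Ideal.Quotient.mk 𝔞) s') {x : A.Pt s}
    {y : A.Pt s'} (hx : Cong (maximalIdeal T) x (0 : A.Pt s)) (h : Cong 𝔞 x y) (h𝔞 : 𝔞 ≠ ⊤)
    (i : A.τ) : A.c x i - A.c y i ∈ 𝔞 := Chart_sub hs hx h h𝔞 i

/-- Points for congruent structures with congruent parameters are congruent. -/
theorem cong_of_c {𝔞 : Ideal T} {s' : A.Str T}
    (hs : A.push (Ideal.Quotient.mk 𝔞) s = A.push (Ideal.Quotient.mk 𝔞) s') {x : A.Pt s}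
    {y : A.Pt s'} (hx : Cong (maximalIdeal T) x (0 : A.Pt s))
    (hy : Cong (maximalIdeal T) y (0 : A.Pt s')) (h : ∀ i, A.c x i - A.c y i ∈ 𝔞) : Cong 𝔞 x y := by
  by_cases h𝔞 : 𝔞 = ⊤
  · exact h𝔞 ▸ PB_cong_top x y
  have : Nontrivial (T ⧸ 𝔞) := Ideal.Quotient.nontrivial_iff.2 h𝔞
  have : IsLocalRing (T ⧸ 𝔞) :=
    IsLocalRing.of_surjective' (Ideal.Quotient.mk 𝔞) Ideal.Quotient.mk_surjective
  have : IsLocalHom (Ideal.Quotient.mk 𝔞) :=
    IsLocalHom.of_surjective _ Ideal.Quotient.mk_surjective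
  have h1 := Chart_cong_map (Ideal.Quotient.mk 𝔞) hs (Chart_local _) hx
  have h2 := Chart_cong_map (Ideal.Quotient.mk 𝔞) rfl (Chart_local _) hy
  have h3 := A.ch.c_inj ⊥ _ _ h1 h2 fun i => by
    rw [c_map _ hs hx h1, c_map _ rfl hy h2, Ideal.mem_bot, sub_eq_zero]
    exact Ideal.Quotient.eq.2 (h i)
  have h4 := (cong_ker_iff _ hs rfl).2 (cong_bot.1 h3)
  rwa [Ideal.mk_ker] at h4

theorem eq_of_c {x y : A.Pt s} (hx : Cong (maximalIdeal T) x (0 : A.Pt s))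
    (hy : Cong (maximalIdeal T) y (0 : A.Pt s)) (h : A.c x = A.c y) : x = y :=
  cong_bot.1 (A.ch.c_inj ⊥ x y hx hy fun i => by rw [h, sub_self]; exact Ideal.zero_mem _)

theorem exists_c (s : A.Str T) {𝔞 : Ideal T} [Adm 𝔞] {z : A.τ → T} (hz : ∀ i, z i ∈ 𝔞) :
    ∃ x : A.Pt s, Cong 𝔞 x (0 : A.Pt s) ∧ A.c x = z := by
  obtain ⟨𝔟, h1, h2, h3⟩ := Adm.ex (𝔞 := 𝔞) (Set.finite_range z).toFinset (by
    rw [Set.Finite.coe_toFinset]
    rintro _ ⟨i, rfl⟩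
    exact hz i)
  obtain ⟨x, hx, e⟩ := A.ch.c_surj s 𝔟 h2 z fun i => h3 (by simp)
  exact ⟨x, hx.mono h1, e⟩

theorem Chart_mX_ne (ρ : Type) [Finite ρ] : mX ρ T₀ ≠ ⊤ := fun h => by
  have : (1 : MvPowerSeries ρ T₀) ∈ mX ρ T₀ := h ▸ Submodule.mem_top
  simpa using mem_mX.1 this

theorem Chart_add {𝔞 : Ideal T} {x y : A.Pt s} (hx : Cong 𝔞 x (0 : A.Pt s))
    (hy : Cong 𝔞 y (0 : A.Pt s)) : Cong 𝔞 (x + y) (0 : A.Pt s) := (K1 𝔞 s).add_mem hx hy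

/-- Evaluation of a point over a power series ring. -/
theorem Chart_ev {ρ : Type} [Finite ρ] {u : ρ → T} (hu : TN u) (φ : T₀ →+* T)
    {t : A.Str (MvPowerSeries ρ T₀)} (h : A.push (ev φ u) t = s) {x : A.Pt t}
    (hx : Cong (mX ρ T₀) x (0 : A.Pt t)) :
    Cong (maximalIdeal T) (A.map (ev φ u) h x) (0 : A.Pt s) ∧
      A.c (A.map (ev φ u) h x) = ev φ u ∘ A.c x := by
  have h1 : Cong (maximalIdeal T) (A.map (ev φ u) h x) (0 : A.Pt s) := by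
    refine Chart_cong_map _ h (fun z hz => hu.ev_mem φ (mem_mX.1 hz) fun i => ?_) hx
    obtain ⟨𝔟, h𝔟, hb⟩ := hu
    exact (IsAdicComplete.le_jacobson_bot 𝔟).trans
      (jacobson_eq_maximalIdeal ⊥ bot_ne_top).le (hb i)
  exact ⟨h1, c_map _ h (hx.mono (le_maximalIdeal (Chart_mX_ne ρ))) h1⟩

theorem Chart_univ (s₀ : A.Str T₀) {ρ : Type} [Finite ρ] (e : A.τ → ρ) :
    ∃ x : A.Pt (A.push (C : T₀ →+* MvPowerSeries ρ T₀) s₀),
      Cong (mX ρ T₀) x (0 : A.Pt (A.push (C : T₀ →+* MvPowerSeries ρ T₀) s₀)) ∧ A.c x = X ∘ e :=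
  exists_c _ fun i => Ideal.subset_span ⟨e i, rfl⟩

theorem Chart_law (s₀ : A.Str T₀) : ∃ F : A.τ → MvPowerSeries (A.τ ⊕ A.τ) T₀,
    (∀ i, constantCoeff (F i) = 0) ∧
    ∀ {T : Type u} [CommRing T] [IsLocalRing T] (φ : T₀ →+* T) (s : A.Str T),
      A.push φ s₀ = s → ∀ x y : A.Pt s, Cong (maximalIdeal T) x (0 : A.Pt s) →
      Cong (maximalIdeal T) y (0 : A.Pt s) → TN (Sum.elim (A.c x) (A.c y)) →
      A.c (x + y) = fun i => ev φ (Sum.elim (A.c x) (A.c y)) (F i) := by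
  obtain ⟨a, ha, ea⟩ := Chart_univ s₀ (Sum.inl : A.τ → A.τ ⊕ A.τ)
  obtain ⟨b, hb, eb⟩ := Chart_univ s₀ (Sum.inr : A.τ → A.τ ⊕ A.τ)
  refine ⟨A.c (a + b), fun i => mem_mX.1 (c_mem (Chart_mX_ne _) (Chart_add ha hb) i), ?_⟩
  intro T _ _ φ s h x y hx hy hn
  have h' : A.push (ev φ (Sum.elim (A.c x) (A.c y))) (A.push C s₀) = s := by
    rw [A.ax.push_comp, FG3_comp_C φ hn, h]
  obtain ⟨a1, a2⟩ := Chart_ev hn φ h' ha
  obtain ⟨b1, b2⟩ := Chart_ev hn φ h' hb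
  have a3 := eq_of_c a1 hx (by rw [a2, ea]; funext i; simp [hn.ev_X])
  have b3 := eq_of_c b1 hy (by rw [b2, eb]; funext i; simp [hn.ev_X])
  have h3 := (Chart_ev hn φ h' (Chart_add ha hb)).2
  rwa [map_add, a3, b3] at h3

theorem Chart_tn {𝔞 : Ideal T} [Adm 𝔞] (h𝔞 : 𝔞 ≠ ⊤) {x y : A.Pt s}
    (hx : Cong 𝔞 x (0 : A.Pt s)) (hy : Cong 𝔞 y (0 : A.Pt s)) :
    TN (Sum.elim (A.c x) (A.c y)) :=
  Adm.tn (FGL.FG_elim_mem (c_mem h𝔞 hx) (c_mem h𝔞 hy))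

theorem exists_fgl (s₀ : A.Str T₀) : ∃ G : FGL T₀ A.τ,
    ∀ {T : Type u} [CommRing T] [IsLocalRing T] (φ : T₀ →+* T) (s : A.Str T),
      A.push φ s₀ = s → ∀ x y : A.Pt s, Cong (maximalIdeal T) x (0 : A.Pt s) →
      Cong (maximalIdeal T) y (0 : A.Pt s) → TN (Sum.elim (A.c x) (A.c y)) →
      A.c (x + y) = G.add φ (A.c x) (A.c y) := by
  obtain ⟨F, F0, H⟩ := Chart_law s₀
  have H' : ∀ {ρ : Type} [Finite ρ] (x y : A.Pt (A.push (C : T₀ →+* MvPowerSeries ρ T₀) s₀)),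
      Cong (mX ρ T₀) x (0 : A.Pt (A.push (C : T₀ →+* MvPowerSeries ρ T₀) s₀)) →
      Cong (mX ρ T₀) y (0 : A.Pt (A.push (C : T₀ →+* MvPowerSeries ρ T₀) s₀)) →
      (fun i => ev C (Sum.elim (A.c x) (A.c y)) (F i)) = A.c (x + y) := fun x y hx hy =>
    (H C _ rfl x y (hx.mono (le_maximalIdeal (Chart_mX_ne _)))
      (hy.mono (le_maximalIdeal (Chart_mX_ne _))) (Chart_tn (Chart_mX_ne _) hx hy)).symm
  obtain ⟨u, hu, eu⟩ := Chart_univ s₀ (id : A.τ → A.τ)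
  have eu' : A.c u = X := eu
  have hn := (K1 (mX A.τ T₀) _).neg_mem hu
  refine ⟨⟨F, A.c (-u), F0, fun i => mem_mX.1 (c_mem (Chart_mX_ne _) hn i), fun i => ?_,
    fun i => ?_, fun i => ?_, fun i => ?_⟩, H⟩
  · have := congrFun (H' u 0 hu (Cong.refl _ _)) i
    rwa [add_zero, A.ch.c_zero, eu'] at this
  · obtain ⟨a, ha, ea⟩ := Chart_univ s₀ (Sum.inl : A.τ → A.τ ⊕ A.τ)
    obtain ⟨b, hb, eb⟩ := Chart_univ s₀ (Sum.inr : A.τ → A.τ ⊕ A.τ)
    have h1 := congrFun (H' b a hb ha) i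
    have h2 := congrFun (H' a b ha hb) i
    rw [ea, eb] at h1 h2
    rw [Sum.elim_comp_inl_inr, FG3_ev_X] at h2
    rw [h1, add_comm, h2]
  · obtain ⟨a, ha, ea⟩ := Chart_univ s₀ (Sum.inl : A.τ → A.τ ⊕ A.τ ⊕ A.τ)
    obtain ⟨b, hb, eb⟩ := Chart_univ s₀ (Sum.inr ∘ Sum.inl : A.τ → A.τ ⊕ A.τ ⊕ A.τ)
    obtain ⟨c, hc, ec⟩ := Chart_univ s₀ (Sum.inr ∘ Sum.inr : A.τ → A.τ ⊕ A.τ ⊕ A.τ)
    have h1 := congrFun (H' (a + b) c (Chart_add ha hb) hc) i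
    have h2 := congrFun (H' a (b + c) ha (Chart_add hb hc)) i
    rw [← H' a b ha hb] at h1
    rw [← H' b c hb hc, ← add_assoc, ← h1, ea, eb, ec] at h2
    exact h2.symm
  · have := congrFun (H' (-u) u hn hu) i
    rwa [neg_add_cancel, A.ch.c_zero, eu'] at this

/-- The formal group. -/
noncomputable def fgl (s₀ : A.Str T₀) : FGL T₀ A.τ := (exists_fgl s₀).choose

theorem c_add {s₀ : A.Str T₀} (φ : T₀ →+* T) (h : A.push φ s₀ = s) {x y : A.Pt s}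
    (hx : Cong (maximalIdeal T) x (0 : A.Pt s)) (hy : Cong (maximalIdeal T) y (0 : A.Pt s))
    (hn : TN (Sum.elim (A.c x) (A.c y))) : A.c (x + y) = (fgl s₀).add φ (A.c x) (A.c y) :=
  (exists_fgl s₀).choose_spec φ s h x y hx hy hn

theorem fgl_push {s₀ : A.Str T₀} (φ : T₀ →+* T) (h : A.push φ s₀ = s) :
    fgl s = (fgl s₀).map φ := by
  obtain ⟨a, ha, ea⟩ := Chart_univ s (Sum.inl : A.τ → A.τ ⊕ A.τ)
  obtain ⟨b, hb, eb⟩ := Chart_univ s (Sum.inr : A.τ → A.τ ⊕ A.τ)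
  have ha' := ha.mono (le_maximalIdeal (Chart_mX_ne _))
  have hb' := hb.mono (le_maximalIdeal (Chart_mX_ne _))
  have hn := Chart_tn (Chart_mX_ne _) ha hb
  have h1 := c_add (s₀ := s) C rfl ha' hb' hn
  rw [c_add (C.comp φ) (push_trans h rfl) ha' hb' hn, ea, eb] at h1
  refine FGL.ext' (funext fun i => ?_)
  have h2 := congrFun h1 i
  rw [FGL.add, FGL.add, Sum.elim_comp_inl_inr, FG3_ev_X, ev_C_X] at h2
  rw [FGL.map_F, h2]

theorem cH_aux {s₀ : A.Str T₀} (φ : T₀ →+* T) (h : A.push φ s₀ = s) {𝔞 : Ideal T} [Adm 𝔞]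
    (h𝔞 : 𝔞 ≠ ⊤) (x y : K1 𝔞 s) : A.c (x + y).1 = (fgl s₀).add φ (A.c x.1) (A.c y.1) :=
  c_add φ h (Cong.mono x.2 (le_maximalIdeal h𝔞)) (Cong.mono y.2 (le_maximalIdeal h𝔞))
    (Chart_tn h𝔞 x.2 y.2)

/-- The parameters as a homomorphism to the points of the formal group. -/
noncomputable def cH {s₀ : A.Str T₀} (φ : T₀ →+* T) (h : A.push φ s₀ = s) {𝔞 : Ideal T} [Adm 𝔞]
    (h𝔞 : 𝔞 ≠ ⊤) : K1 𝔞 s →+ (fgl s₀).Pts φ 𝔞 :=
  AddMonoidHom.mk' (fun x => ⟨A.c x.1, c_mem h𝔞 x.2⟩) fun x y => FGL.Pts.ext (cH_aux φ h h𝔞 x y)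

@[simp] theorem cH_v {s₀ : A.Str T₀} (φ : T₀ →+* T) (h : A.push φ s₀ = s) {𝔞 : Ideal T} [Adm 𝔞]
    (h𝔞 : 𝔞 ≠ ⊤) (x : K1 𝔞 s) : (cH φ h h𝔞 x).v = A.c x.1 := rfl

theorem cH_bij {s₀ : A.Str T₀} (φ : T₀ →+* T) (h : A.push φ s₀ = s) {𝔞 : Ideal T} [Adm 𝔞]
    (h𝔞 : 𝔞 ≠ ⊤) : Function.Bijective (cH φ h h𝔞) := by
  refine ⟨fun x y e => Subtype.ext (eq_of_c (Cong.mono x.2 (le_maximalIdeal h𝔞))
    (Cong.mono y.2 (le_maximalIdeal h𝔞)) (congrArg FGL.Pts.v e)), fun z => ?_⟩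
  obtain ⟨x, hx, e⟩ := exists_c s z.mem
  exact ⟨⟨x, hx⟩, FGL.Pts.ext e⟩

theorem c_nsmul {s₀ : A.Str T₀} (φ : T₀ →+* T) (h : A.push φ s₀ = s) {𝔞 : Ideal T} [Adm 𝔞]
    (h𝔞 : 𝔞 ≠ ⊤) {x : A.Pt s} (hx : Cong 𝔞 x (0 : A.Pt s)) (n : ℕ) (i : A.τ) :
    A.c (n • x) i = ev φ (A.c x) ((fgl s₀).mul n i) := by
  have h1 := FGL.Pts.nsmul_v n (cH φ h h𝔞 ⟨x, hx⟩) i
  rw [← map_nsmul] at h1
  exact h1

theorem cong_nsmul (p : ℕ) [Fact p.Prime] (hp : (p : T) = 0) {ε : T} {x y : A.Pt s}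
    (h : Cong (Ideal.span {ε}) x y) (k : ℕ) :
    Cong (Ideal.span {ε ^ p ^ k}) (p ^ k • x) (p ^ k • y) := by
  by_cases h𝔞 : Ideal.span {ε ^ p ^ k} = ⊤
  · exact h𝔞 ▸ PB_cong_top _ _
  set 𝔞 := Ideal.span {ε ^ p ^ k} with e𝔞
  have : Nontrivial (T ⧸ 𝔞) := Ideal.Quotient.nontrivial_iff.2 h𝔞
  have : IsLocalRing (T ⧸ 𝔞) :=
    IsLocalRing.of_surjective' (Ideal.Quotient.mk 𝔞) Ideal.Quotient.mk_surjective
  have : IsLocalHom (Ideal.Quotient.mk 𝔞) :=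
    IsLocalHom.of_surjective _ Ideal.Quotient.mk_surjective
  have hε : Ideal.Quotient.mk 𝔞 ε ^ p ^ k = 0 := by
    rw [← map_pow, Ideal.Quotient.eq_zero_iff_mem]
    exact Ideal.mem_span_singleton_self _
  have hnil : IsNilpotent (Ideal.span {Ideal.Quotient.mk 𝔞 ε}) :=
    ⟨p ^ k, by rw [Ideal.span_singleton_pow, hε, Ideal.span_singleton_zero]; rfl⟩
  have := complete_of_nil hnil
  have hne : Ideal.span {Ideal.Quotient.mk 𝔞 ε} ≠ ⊤ := by
    rw [Ne, Ideal.span_singleton_eq_top]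
    intro hu
    have := hu.pow (p ^ k)
    rw [hε] at this
    exact not_isUnit_zero this
  have h1 : Cong (Ideal.span {Ideal.Quotient.mk 𝔞 ε})
      (A.map (Ideal.Quotient.mk 𝔞) rfl (x - y)) (0 : A.Pt (A.push (Ideal.Quotient.mk 𝔞) s)) := by
    refine Chart_cong_map _ rfl (fun z hz => ?_) (cong_iff_sub.1 h)
    obtain ⟨w, rfl⟩ := Ideal.mem_span_singleton'.1 hz
    rw [map_mul]
    exact Ideal.mul_mem_left _ _ (Ideal.mem_span_singleton_self _)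
  have h2 : cH (RingHom.id _) (A.ax.push_id _) hne (p ^ k • ⟨_, h1⟩) = 0 := by
    rw [map_nsmul]
    refine FGL.Pts.ext (funext fun i => ?_)
    have h3 := FGL.Pts.nsmul_mem p (by rw [← map_natCast (Ideal.Quotient.mk 𝔞), hp, map_zero]) k
      (cH (RingHom.id _) (A.ax.push_id _) hne ⟨_, h1⟩) i
    refine Ideal.mem_bot.1 (Ideal.span_le.2 ?_ h3)
    rintro _ ⟨j, rfl⟩
    obtain ⟨w, hw⟩ := Ideal.mem_span_singleton'.1 (c_mem hne h1 j)
    change A.c _ j ^ p ^ k ∈ (⊥ : Ideal (T ⧸ 𝔞))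
    rw [← hw, mul_pow, hε, mul_zero]
    exact Ideal.zero_mem _
  have h4 := congrArg Subtype.val
    ((injective_iff_map_eq_zero _).1 (cH_bij _ (A.ax.push_id _) hne).1 _ h2)
  have h5 : p ^ k • A.map (Ideal.Quotient.mk 𝔞) rfl (x - y) = 0 := h4
  rw [← map_nsmul, smul_sub, map_sub, sub_eq_zero] at h5
  have h6 := (cong_ker_iff _ rfl rfl).2 h5
  rwa [Ideal.mk_ker] at h6

theorem Chart_zero {x : A.Pt s} (hx : Cong (maximalIdeal T) x (0 : A.Pt s)) {n : ℕ}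
    (hn : IsUnit (n : T)) (h : n • x = 0) : x = 0 := by
  set I := Ideal.span (Set.range (A.c x)) with eI
  have hI : I ≤ maximalIdeal T :=
    Ideal.span_le.2 (Set.range_subset_iff.2 (c_mem (maximalIdeal.isMaximal T).ne_top hx))
  have h𝔞 : I ^ 2 ≠ ⊤ := fun e =>
    (maximalIdeal.isMaximal T).ne_top (top_le_iff.1 (e ▸ (Ideal.pow_le_self two_ne_zero).trans hI))
  have : Nontrivial (T ⧸ I ^ 2) := Ideal.Quotient.nontrivial_iff.2 h𝔞
  have : IsLocalRing (T ⧸ I ^ 2) :=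
    IsLocalRing.of_surjective' (Ideal.Quotient.mk (I ^ 2)) Ideal.Quotient.mk_surjective
  have : IsLocalHom (Ideal.Quotient.mk (I ^ 2)) :=
    IsLocalHom.of_surjective _ Ideal.Quotient.mk_surjective
  have h0 : I.map (Ideal.Quotient.mk (I ^ 2)) ^ 2 = ⊥ := by
    rw [← Ideal.map_pow, Ideal.map_quotient_self]
  have := complete_of_nil (𝔞 := I.map (Ideal.Quotient.mk (I ^ 2))) ⟨2, h0⟩
  have hne : I.map (Ideal.Quotient.mk (I ^ 2)) ≠ ⊤ := fun e => by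
    rw [e, Ideal.top_pow] at h0
    exact top_ne_bot h0
  have h1 : Cong I x (0 : A.Pt s) := A.ch.c_inj I x 0 hx (Cong.refl _ _) fun i => by
    rw [A.ch.c_zero, Pi.zero_apply, sub_zero]
    exact Ideal.subset_span ⟨i, rfl⟩
  have h2 := Chart_cong_map (Ideal.Quotient.mk (I ^ 2)) rfl
    (fun z hz => Ideal.mem_map_of_mem _ hz) h1
  have h3 := c_map _ rfl hx (h2.mono (le_maximalIdeal hne))
  have hb : I = ⊥ := by
    refine Submodule.eq_bot_of_le_smul_of_le_jacobson_bot I I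
      (Submodule.fg_span (Set.finite_range _)) (Ideal.span_le.2 ?_)
      (hI.trans (jacobson_eq_maximalIdeal ⊥ bot_ne_top).ge)
    rintro _ ⟨i, rfl⟩
    have h4 := c_nsmul (RingHom.id _) (A.ax.push_id _) hne h2 n i
    have ht : TN (A.c (A.map (Ideal.Quotient.mk (I ^ 2)) rfl x)) := Adm.tn (c_mem hne h2)
    have h5 := Ideal.pow_right_mono (Ideal.span_le.2 (Set.range_subset_iff.2 (c_mem hne h2))) 2
      (ht.ev_mem_pow (RingHom.id _) ((fgl (A.push (Ideal.Quotient.mk (I ^ 2)) s)).mul_sub_mem n i))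
    rw [h0, Ideal.mem_bot, map_sub, ← h4, ← map_nsmul, h, map_zero, A.ch.c_zero, Pi.zero_apply,
      zero_sub, neg_eq_zero, map_mul, ht.ev_X, map_natCast, h3] at h5
    have h6 := hn.map (Ideal.Quotient.mk (I ^ 2))
    rw [map_natCast] at h6
    have h7 := Ideal.Quotient.eq_zero_iff_mem.1 (h6.mul_right_eq_zero.1 h5)
    rwa [pow_two] at h7
  exact cong_bot.1 (hb ▸ h1)

theorem eq_zero_of_val {k : Type u} [Field k] {W : ValuationSubring k} {s : A.Str W} {x : A.Pt s}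
    (hx : Cong (maximalIdeal W) x (0 : A.Pt s)) {n : ℕ} (hn : IsUnit (n : W)) (h : n • x = 0) :
    x = 0 := Chart_zero hx hn h

theorem fh {k : Type u} [Field k] [IsAlgClosed k] (p : ℕ) [Fact p.Prime] [CharP k p] {s : A.Str k}
    (hs : A.TorsFin s) : (fgl s).FH p := by
  have key : ∀ i, X i ∈ (Ideal.span (Set.range ((fgl s).mul p))).radical := by
    intro i
    by_contra hi
    obtain ⟨y, y0, y1, y2⟩ := curve_sel _ (by simp) hi
    have hne : mx k ≠ ⊤ := by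
      rw [mx, ← PowerSeries.maximalIdeal_eq_span_X]
      exact (maximalIdeal.isMaximal _).ne_top
    obtain ⟨ω, h1, h2⟩ := exists_c (A.push PowerSeries.C s) (𝔞 := mx k) (z := y)
      fun l => Ideal.mem_span_singleton.2 (PowerSeries.X_dvd_iff.2 (y0 l))
    have h3 : p • ω = 0 := by
      refine eq_of_c (Cong.mono ((K1 (mx k) _).nsmul_mem h1 p) (le_maximalIdeal hne))
        (Cong.refl _ _) (funext fun l => ?_)
      rw [c_nsmul PowerSeries.C rfl hne h1, h2, A.ch.c_zero]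
      exact y1 _ (Ideal.subset_span ⟨l, rfl⟩)
    have h4 := TorsFin.ps hs rfl (Fact.out : p.Prime).ne_zero h1 h3
    rw [(TN.of_cc₁ y0).ev_X, ← h2, h4, A.ch.c_zero] at y2
    exact y2 rfl
  choose m hm using key
  obtain ⟨N, hN⟩ := (Set.finite_range m).bddAbove
  exact ⟨N, fun i => Ideal.pow_mem_of_pow_mem _ (hm i) (hN ⟨i, rfl⟩)⟩

/-- The Frobenius acts on the parameters by raising them to a power. -/
theorem c_frob (p : ℕ) [Fact p.Prime] [CharP T p] (n : ℕ) {s' : A.Str T}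
    (h : A.push (iterateFrobenius T p n) s = s') {x : A.Pt s}
    (hx : Cong (maximalIdeal T) x (0 : A.Pt s)) (i : A.τ) :
    A.c (A.map (iterateFrobenius T p n) h x) i = A.c x i ^ p ^ n := by
  rw [c_map _ h hx (Chart_cong_map _ h (fun z hz => ?_) hx), Function.comp_apply,
    iterateFrobenius_def]
  rw [iterateFrobenius_def]
  exact Ideal.pow_mem_of_mem _ hz _ (pow_pos (Fact.out : p.Prime).pos n)

end SPG

end MLF
end

-- merged part: Pool.Agent.Work.MP_29d410_ag.Germ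
section
/-!
# Ultrapowers of rings, of points and of fields with a derivation

Plan.  A germ is a unit iff almost all values are units; finite unions and ultrafilters
(`Ultrafilter.eventually_exists_iff`, `Ultrafilter.finite_biUnion_mem_iff`) select one coordinate,
one addition formula.  `eval₂ (gc 𝒰 T) (germ of v) g` is the germ of `eval (v i) g`.
`c_gpt`: the field `formula` with `T₀ = T`.
`exists_ultra`: the complements of the closed sets not containing `X`, intersected with `S`,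
have the finite intersection property.
`usett`: `M` is the set of germs of functions with `f i ∈ root p (m i) 𝒮.M`, `E = acl M`
(every element of `E` has a power in `M`: `M` is separably closed since a monic separable
polynomial over `M` of degree `d` has almost everywhere separable components, whose roots are
separable and purely inseparable over `root p (m i) 𝒮.M`; or: a root of a polynomial of degree
`≤ d` over `root p (m i) 𝒮.M` has its `p ^ d`-th power in that field).  The formula for `D₀`: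
the coefficientwise germ is a homomorphism `M → (Germ K)⟦ε⟧` and `hom_uniq` applies.
-/

open Filter PowerSeries IsLocalRing

namespace MLF

universe u

variable {I : Type u} (𝒰 : Ultrafilter I) {T T' : Type u} [CommRing T] [CommRing T']

/-- The ultrapower. -/
abbrev UP (T : Type u) : Type u := Germ (𝒰 : Filter I) T

variable (T) in
/-- The diagonal embedding. -/
def gc : T →+* UP 𝒰 T := (Germ.coeRingHom (𝒰 : Filter I)).comp (Pi.constRingHom I T)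

/-- The germ of a function. -/
abbrev gm (f : I → T) : UP 𝒰 T := (f : Germ (𝒰 : Filter I) T)

/-- The germ as a ring homomorphism. -/
abbrev GermH : (I → T) →+* UP 𝒰 T := Germ.coeRingHom (𝒰 : Filter I)

omit [CommRing T] in
theorem Germ_eq {f g : I → T} : gm 𝒰 f = gm 𝒰 g ↔ ∀ᶠ i in (𝒰 : Filter I), f i = g i := Germ.coe_eq

omit [CommRing T] in
theorem Germ_surj (z : UP 𝒰 T) : ∃ f, gm 𝒰 f = z := Germ.inductionOn z fun f => ⟨f, rfl⟩

theorem Germ_zero {f : I → T} : gm 𝒰 f = 0 ↔ ∀ᶠ i in (𝒰 : Filter I), f i = 0 := Germ.coe_eq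

theorem Germ_gc (c : T) : gc 𝒰 T c = gm 𝒰 fun _ => c := rfl

theorem Germ_add (f g : I → T) : gm 𝒰 (fun i => f i + g i) = gm 𝒰 f + gm 𝒰 g := rfl
theorem Germ_sub (f g : I → T) : gm 𝒰 (fun i => f i - g i) = gm 𝒰 f - gm 𝒰 g := rfl
theorem Germ_mul (f g : I → T) : gm 𝒰 (fun i => f i * g i) = gm 𝒰 f * gm 𝒰 g := rfl
theorem Germ_pow (f : I → T) (n : ℕ) : gm 𝒰 (fun i => f i ^ n) = gm 𝒰 f ^ n :=
  map_pow (GermH 𝒰) f n

theorem Germ_sum {α : Type*} (F : Finset α) (f : α → I → T) :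
    gm 𝒰 (fun i => ∑ a ∈ F, f a i) = ∑ a ∈ F, gm 𝒰 (f a) := by
  rw [← Finset.sum_fn]
  exact map_sum (GermH 𝒰) f F

theorem Germ_gc_inj : Function.Injective (gc 𝒰 T) := fun _ _ h =>
  ((Germ_eq 𝒰).1 h).exists.choose_spec

theorem Germ_liftS {A B C : Type*} [CommRing A] [CommRing B] [CommRing C] (f : A →+* B)
    (hf : Function.Surjective f) (g : A →+* C) (h : ∀ a, f a = 0 → g a = 0) :
    ∃ θ : B →+* C, ∀ a, θ (f a) = g a :=
  ⟨f.liftOfSurjective hf ⟨g, h⟩, fun a => f.liftOfRightInverse_comp_apply _ _ _ a⟩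

theorem exists_gmap (φ : T →+* T') : ∃ θ : UP 𝒰 T →+* UP 𝒰 T', ∀ f, θ (gm 𝒰 f) = gm 𝒰 (φ ∘ f) := by
  have h : Function.Surjective (GermH (T := T) 𝒰) := Germ_surj 𝒰
  refine Germ_liftS (GermH (T := T) 𝒰) h ((GermH 𝒰).comp (φ.compLeft I)) fun f hf => ?_
  refine (Germ_zero 𝒰).2 (((Germ_zero 𝒰).1 hf).mono fun i hi => ?_)
  simp [hi]

/-- Functoriality. -/
noncomputable def gmap (φ : T →+* T') : UP 𝒰 T →+* UP 𝒰 T' := (exists_gmap 𝒰 φ).choose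

theorem gmap_gm (φ : T →+* T') (f : I → T) : gmap 𝒰 φ (gm 𝒰 f) = gm 𝒰 (φ ∘ f) :=
  (exists_gmap 𝒰 φ).choose_spec f

theorem isUnit_gm {f : I → T} : IsUnit (gm 𝒰 f) ↔ ∀ᶠ i in (𝒰 : Filter I), IsUnit (f i) := by
  constructor
  · intro h
    obtain ⟨g, hg⟩ := h.exists_right_inv
    obtain ⟨g, rfl⟩ := Germ_surj 𝒰 g
    have h1 : ∀ᶠ i in (𝒰 : Filter I), f i * g i = 1 := (Germ_eq 𝒰).1 hg
    exact h1.mono fun i hi => IsUnit.of_mul_eq_one _ hi
  · intro h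
    refine IsUnit.of_mul_eq_one (gm 𝒰 fun i => Ring.inverse (f i)) ?_
    exact (Germ_eq 𝒰).2 (h.mono fun i hi => Ring.mul_inverse_cancel _ hi)

instance UP.local [IsLocalRing T] : IsLocalRing (UP 𝒰 T) := by
  refine IsLocalRing.of_isUnit_or_isUnit_one_sub_self fun a => ?_
  obtain ⟨f, rfl⟩ := Germ_surj 𝒰 a
  have h : ∀ᶠ i in (𝒰 : Filter I), IsUnit (f i) ∨ IsUnit (1 - f i) :=
    Eventually.of_forall fun i => isUnit_or_isUnit_one_sub_self (f i)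
  exact (Ultrafilter.eventually_or.1 h).imp (isUnit_gm 𝒰).2 fun h => (isUnit_gm 𝒰).2 h

instance UP.charP (p : ℕ) [CharP T p] : CharP (UP 𝒰 T) p :=
  charP_of_injective_ringHom (Germ_gc_inj 𝒰) p

theorem Germ_mem_max [IsLocalRing T] {f : I → T} :
    gm 𝒰 f ∈ maximalIdeal (UP 𝒰 T) ↔ ∀ᶠ i in (𝒰 : Filter I), f i ∈ maximalIdeal T := by
  rw [mem_maximalIdeal, mem_nonunits_iff, isUnit_gm, ← Ultrafilter.eventually_not]
  rfl

/-- The monic polynomial with given lower coefficients. -/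
noncomputable def GermPol {R : Type*} [CommRing R] (d : ℕ) (c : ℕ → R) : Polynomial R :=
  Polynomial.X ^ d + ∑ n : Fin d, Polynomial.C (c n) * Polynomial.X ^ (n : ℕ)

theorem GermPol_monic {R : Type*} [CommRing R] (d : ℕ) (c : ℕ → R) : (GermPol d c).Monic :=
  Polynomial.monic_X_pow_add (Polynomial.degree_sum_fin_lt fun n : Fin d => c n)

theorem GermPol_degree {R : Type*} [CommRing R] [Nontrivial R] (d : ℕ) (c : ℕ → R) :
    (GermPol d c).degree = d := by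
  rw [GermPol, Polynomial.degree_add_eq_left_of_degree_lt, Polynomial.degree_X_pow]
  rw [Polynomial.degree_X_pow]
  exact Polynomial.degree_sum_fin_lt fun n : Fin d => c n

theorem GermPol_eval {R S : Type*} [CommRing R] [CommRing S] (φ : R →+* S) (d : ℕ) (c : ℕ → R)
    (z : S) : (GermPol d c).eval₂ φ z = z ^ d + ∑ n : Fin d, φ (c n) * z ^ (n : ℕ) := by
  simp [GermPol, Polynomial.eval₂_finsetSum]

theorem GermPol_eq {R : Type*} [CommRing R] {P : Polynomial R} (h : P.Monic) :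
    P = GermPol P.natDegree P.coeff := by
  rw [GermPol, Fin.sum_univ_eq_sum_range fun n => Polynomial.C (P.coeff n) * Polynomial.X ^ n]
  exact h.as_sum

theorem Germ_pol (d : ℕ) (c : ℕ → I → T) (z : I → T) :
    gm 𝒰 (fun i => z i ^ d + ∑ n : Fin d, c n i * z i ^ (n : ℕ)) =
      gm 𝒰 z ^ d + ∑ n : Fin d, gm 𝒰 (c n) * gm 𝒰 z ^ (n : ℕ) := by
  rw [Germ_add, Germ_pow, Germ_sum]
  simp only [Germ_mul, Germ_pow]

instance UP.algClosed (K : Type u) [Field K] [IsAlgClosed K] : IsAlgClosed (UP 𝒰 K) := by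
  refine IsAlgClosed.of_exists_root _ fun P hP hi => ?_
  choose c hc using fun n => Germ_surj 𝒰 (P.coeff n)
  have hd : P.natDegree ≠ 0 := hi.natDegree_pos.ne'
  have h : ∀ i, ∃ z : K, z ^ P.natDegree + ∑ n : Fin P.natDegree, c n i * z ^ (n : ℕ) = 0 := by
    intro i
    obtain ⟨z, hz⟩ := IsAlgClosed.exists_root (GermPol P.natDegree fun n => c n i)
      (by rw [GermPol_degree]; exact_mod_cast hd)
    exact ⟨z, (GermPol_eval (RingHom.id K) _ _ z).symm.trans hz⟩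
  choose z hz using h
  refine ⟨gm 𝒰 z, ?_⟩
  rw [GermPol_eq hP]
  refine (GermPol_eval (RingHom.id _) _ _ _).trans ?_
  simp only [RingHom.id_apply, ← hc]
  rw [← Germ_pol]
  exact (Germ_zero 𝒰).2 (Eventually.of_forall hz)

/-- The coefficientwise germ of a family of power series. -/
noncomputable def GermPS : (I → PowerSeries T) →+* PowerSeries (UP 𝒰 T) where
  toFun f := PowerSeries.mk fun n => gm 𝒰 fun i => coeff n (f i)
  map_zero' := by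
    ext n
    rw [coeff_mk, map_zero]
    exact (Germ_zero 𝒰).2 (Eventually.of_forall fun i => rfl)
  map_one' := by
    ext n
    rw [coeff_mk, coeff_one]
    simp only [Pi.one_apply, coeff_one]
    split_ifs <;> rfl
  map_add' f g := by
    ext n
    simp only [coeff_mk, map_add, Pi.add_apply, Germ_add]
  map_mul' f g := by
    ext n
    simp only [coeff_mk, coeff_mul, Pi.mul_apply, Germ_sum, Germ_mul]

theorem GermPS_coeff (f : I → PowerSeries T) (n : ℕ) :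
    coeff n (GermPS 𝒰 f) = gm 𝒰 fun i => coeff n (f i) :=
  coeff_mk n fun n => gm 𝒰 fun i => coeff n (f i)

/-- Coefficientwise germs of truncated series. -/
theorem exists_gtrunc (K : Type u) [Field K] (P : ℕ) :
    ∃ θ : UP 𝒰 (PowerSeries K ⧸ mx K ^ P) →+* PowerSeries (UP 𝒰 K) ⧸ mx (UP 𝒰 K) ^ P,
      ∀ f : I → PowerSeries K, θ (gm 𝒰 fun i => Ideal.Quotient.mk _ (f i)) =
        Ideal.Quotient.mk _ (PowerSeries.mk fun n => gm 𝒰 fun i => coeff n (f i)) := by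
  let π : (I → PowerSeries K) →+* UP 𝒰 (PowerSeries K ⧸ mx K ^ P) :=
    (GermH 𝒰).comp ((Ideal.Quotient.mk _).compLeft I)
  have hπ : Function.Surjective π := by
    intro z
    obtain ⟨f, rfl⟩ := Germ_surj 𝒰 z
    choose g hg using fun i => Ideal.Quotient.mk_surjective (f i)
    exact ⟨g, congrArg (gm 𝒰) (funext hg)⟩
  refine ⟨π.liftOfSurjective hπ ⟨(Ideal.Quotient.mk _).comp (GermPS 𝒰), fun f hf => ?_⟩,
    fun f => π.liftOfRightInverse_comp_apply _ _ _ f⟩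
  refine Ideal.Quotient.eq_zero_iff_mem.2 (mem_mx_pow.2 fun d hd => ?_)
  rw [GermPS_coeff]
  exact (Germ_zero 𝒰).2 (((Germ_zero 𝒰).1 hf).mono fun i hi =>
    mem_mx_pow.1 (Ideal.Quotient.eq_zero_iff_mem.1 hi) d hd)

theorem Germ_eval {σ : Type} (v : I → σ → T) (g : MvPolynomial σ T) :
    MvPolynomial.eval₂ (gc 𝒰 T) (fun a => gm 𝒰 fun i => v i a) g =
      gm 𝒰 fun i => MvPolynomial.eval (v i) g := by
  induction g using MvPolynomial.induction_on with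
  | C c => simp only [MvPolynomial.eval₂_C, MvPolynomial.eval_C, Germ_gc]
  | add f g hf hg => simp only [MvPolynomial.eval₂_add, map_add, hf, hg, Germ_add]
  | mul_X f a hf =>
    simp only [MvPolynomial.eval₂_mul, MvPolynomial.eval₂_X, map_mul, MvPolynomial.eval_X, hf,
      Germ_mul]

theorem Germ_eval' {σ : Type} (v : I → σ → T) (g : MvPolynomial σ T) :
    MvPolynomial.eval (fun a => gm 𝒰 fun i => v i a) (MvPolynomial.map (gc 𝒰 T) g) =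
      gm 𝒰 fun i => MvPolynomial.eval (v i) g := by
  rw [MvPolynomial.eval_map, Germ_eval]

omit [CommRing T] in
theorem Germ_vec {σ : Type} (w : σ → UP 𝒰 T) :
    ∃ v : I → σ → T, w = fun a => gm 𝒰 fun i => v i a := by
  choose f hf using fun a => Germ_surj 𝒰 (w a)
  exact ⟨fun i a => f a i, funext fun a => (hf a).symm⟩

theorem Germ_uni {σ : Type} [Finite σ] {v : I → σ → T} :
    (Uni fun a => gm 𝒰 fun i => v i a) ↔ ∀ᶠ i in (𝒰 : Filter I), Uni (v i) := by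
  simp only [Uni, isUnit_gm, Ultrafilter.eventually_exists_iff]

namespace PG

variable {A B : PG.{u}} [IsLocalRing T] [IsLocalRing T'] {s : A.Str T}

omit [IsLocalRing T] in
theorem Germ_eqn {v : I → A.σ → T} :
    (∀ e, MvPolynomial.eval (fun a => gm 𝒰 fun i => v i a) (A.eqn (A.push (gc 𝒰 T) s) e) = 0) ↔
      ∀ᶠ i in (𝒰 : Filter I), ∀ e, MvPolynomial.eval (v i) (A.eqn s e) = 0 := by
  simp only [A.ax.eqn_push, Germ_eval', Germ_zero, eventually_all]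

theorem exists_gpt (x : I → A.Pt s) : ∃ y : A.Pt (A.push (gc 𝒰 T) s), ∀ v : I → A.σ → T,
    (∀ᶠ i in (𝒰 : Filter I), A.Rep (x i) (v i)) → A.Rep y fun a => gm 𝒰 fun i => v i a := by
  choose w hw using fun i => A.ax.exists_rep (x i)
  have h := fun i => (A.ax.rep_iff s (w i)).1 ⟨x i, hw i⟩
  obtain ⟨y, hy⟩ := (A.ax.rep_iff (A.push (gc 𝒰 T) s) fun a => gm 𝒰 fun i => w i a).2
    ⟨(Germ_uni 𝒰).2 (Eventually.of_forall fun i => (h i).1),
      (Germ_eqn 𝒰).2 (Eventually.of_forall fun i => (h i).2)⟩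
  refine ⟨y, fun v hv => ?_⟩
  obtain ⟨c, hc⟩ := (hv.mono fun i hi => A.ax.rep_uniq (hw i) hi).choice
  have e : (fun a => gm 𝒰 fun i => v i a) = gm 𝒰 c • fun a => gm 𝒰 fun i => w i a :=
    funext fun a => (Germ_eq 𝒰).2 (hc.mono fun i hi => congrFun hi.2 a)
  rw [e]
  exact A.ax.rep_smul hy ((isUnit_gm 𝒰).2 (hc.mono fun i hi => hi.1))

/-- The germ of a family of points. -/
noncomputable def gpt (x : I → A.Pt s) : A.Pt (A.push (gc 𝒰 T) s) := (exists_gpt 𝒰 x).choose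

theorem rep_gpt {x : I → A.Pt s} {v : I → A.σ → T}
    (h : ∀ᶠ i in (𝒰 : Filter I), A.Rep (x i) (v i)) :
    A.Rep (gpt 𝒰 x) fun a => gm 𝒰 fun i => v i a := (exists_gpt 𝒰 x).choose_spec v h

theorem Germ_rep {x : I → A.Pt s} {v : I → A.σ → T}
    (h : A.Rep (gpt 𝒰 x) fun a => gm 𝒰 fun i => v i a) :
    ∀ᶠ i in (𝒰 : Filter I), A.Rep (x i) (v i) := by
  choose w hw using fun i => A.ax.exists_rep (x i)
  obtain ⟨c, hc, e⟩ := A.ax.rep_uniq (rep_gpt 𝒰 (Eventually.of_forall hw)) h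
  obtain ⟨c, rfl⟩ := Germ_surj 𝒰 c
  have h1 : ∀ᶠ i in (𝒰 : Filter I), ∀ a, v i a = c i * w i a :=
    eventually_all.2 fun a => (Germ_eq 𝒰).1 (congrFun e a)
  filter_upwards [h1, (isUnit_gm 𝒰).1 hc] with i hi hi'
  rw [show v i = c i • w i from funext hi]
  exact A.ax.rep_smul (hw i) hi'

theorem gpt_eq_iff {x y : I → A.Pt s} :
    gpt 𝒰 x = gpt 𝒰 y ↔ ∀ᶠ i in (𝒰 : Filter I), x i = y i := by
  choose w hw using fun i => A.ax.exists_rep (x i)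
  have h := rep_gpt 𝒰 (Eventually.of_forall hw)
  constructor
  · intro e
    rw [e] at h
    exact (Germ_rep 𝒰 h).mono fun i hi => A.ax.rep_inj (hw i) hi
  · intro e
    exact A.ax.rep_inj h (rep_gpt 𝒰 (e.mono fun i hi => hi ▸ hw i))

theorem gpt_surj (y : A.Pt (A.push (gc 𝒰 T) s)) : ∃ x, gpt 𝒰 x = y := by
  obtain ⟨w, hw⟩ := A.ax.exists_rep y
  obtain ⟨v, rfl⟩ := Germ_vec 𝒰 w
  have h := (A.ax.rep_iff _ _).1 ⟨y, hw⟩
  obtain ⟨x, hx⟩ := ((((Germ_uni 𝒰).1 h.1).and ((Germ_eqn 𝒰).1 h.2)).mono fun i hi =>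
    (A.ax.rep_iff s (v i)).2 hi).choice
  exact ⟨x, A.ax.rep_inj (rep_gpt 𝒰 hx) hw⟩

theorem gpt_add (x y : I → A.Pt s) : gpt 𝒰 (fun i => x i + y i) = gpt 𝒰 x + gpt 𝒰 y := by
  choose v hv using fun i => A.ax.exists_rep (x i)
  choose w hw using fun i => A.ax.exists_rep (y i)
  obtain ⟨j, hj⟩ := Ultrafilter.eventually_exists_iff.1
    (Eventually.of_forall (f := (𝒰 : Filter I)) fun i => A.ax.Φ_cover (hv i) (hw i))
  have e : (fun a => MvPolynomial.eval (Sum.elim (fun a => gm 𝒰 fun i => v i a)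
      fun a => gm 𝒰 fun i => w i a) (A.Φ (A.push (gc 𝒰 T) s) j a)) =
      fun a => gm 𝒰 fun i => MvPolynomial.eval (Sum.elim (v i) (w i)) (A.Φ s j a) := by
    funext a
    rw [A.ax.Φ_push, ← Germ_eval']
    congr 2
    funext b
    cases b <;> rfl
  have h := A.ax.Φ_rep j (rep_gpt 𝒰 (Eventually.of_forall hv)) (rep_gpt 𝒰 (Eventually.of_forall hw))
  rw [e] at h
  exact A.ax.rep_inj (rep_gpt 𝒰 (hj.mono fun i hi => A.ax.Φ_rep j (hv i) (hw i) hi))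
    (h ((Germ_uni 𝒰).2 hj))

theorem gpt_const (x : A.Pt s) : gpt 𝒰 (fun _ => x) = A.map (gc 𝒰 T) rfl x := by
  obtain ⟨v, hv⟩ := A.ax.exists_rep x
  exact A.ax.rep_inj (rep_gpt 𝒰 (v := fun _ => v) (Eventually.of_forall fun _ => hv))
    (rep_map (gc 𝒰 T) rfl hv)

/-- The germ as a group homomorphism. -/
noncomputable def GermPt : (I → A.Pt s) →+ A.Pt (A.push (gc 𝒰 T) s) :=
  AddMonoidHom.mk' (gpt 𝒰) (gpt_add 𝒰)

theorem gpt_neg (x : I → A.Pt s) : gpt 𝒰 (fun i => -x i) = -gpt 𝒰 x := map_neg (GermPt 𝒰) x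

theorem gpt_nsmul (n : ℕ) (x : I → A.Pt s) : gpt 𝒰 (fun i => n • x i) = n • gpt 𝒰 x :=
  map_nsmul (GermPt 𝒰) n x

theorem gpt_prod {t : B.Str T} (x : I → A.Pt s) (y : I → B.Pt t) :
    gpt (A := A.prod B) (s := (s, t)) 𝒰 (fun i => (x i, y i)) = (gpt 𝒰 x, gpt 𝒰 y) := by
  choose v hv using fun i => A.ax.exists_rep (x i)
  choose w hw using fun i => B.ax.exists_rep (y i)
  refine (A.prod B).ax.rep_inj (rep_gpt (A := A.prod B) 𝒰 (v := fun i c => v i c.1 * w i c.2)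
    (Eventually.of_forall fun i => ⟨v i, w i, hv i, hw i, rfl⟩)) ?_
  exact ⟨_, _, rep_gpt 𝒰 (Eventually.of_forall hv), rep_gpt 𝒰 (Eventually.of_forall hw), rfl⟩

theorem gpt_cong {x y : I → A.Pt s} : Cong (maximalIdeal _) (gpt 𝒰 x) (gpt 𝒰 y) ↔
    ∀ᶠ i in (𝒰 : Filter I), Cong (maximalIdeal T) (x i) (y i) := by
  constructor
  · rintro ⟨v, w, hv, hw, h⟩
    obtain ⟨v, rfl⟩ := Germ_vec 𝒰 v
    obtain ⟨w, rfl⟩ := Germ_vec 𝒰 w
    have h1 : ∀ᶠ i in (𝒰 : Filter I), ∀ a, v i a - w i a ∈ maximalIdeal T :=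
      eventually_all.2 fun a => (Germ_mem_max 𝒰).1 (h a)
    filter_upwards [h1, Germ_rep 𝒰 hv, Germ_rep 𝒰 hw] with i h1 h2 h3
    exact ⟨_, _, h2, h3, h1⟩
  · intro h
    obtain ⟨v, hv⟩ := h.choice
    obtain ⟨w, hw⟩ := hv.choice
    exact ⟨_, _, rep_gpt 𝒰 (hw.mono fun i hi => hi.1), rep_gpt 𝒰 (hw.mono fun i hi => hi.2.1),
      fun a => (Germ_mem_max 𝒰 (f := fun i => v i a - w i a)).2 (hw.mono fun i hi => hi.2.2 a)⟩

theorem Germ_van {x : I → A.Pt s} {g : MvPolynomial A.σ T} {d : ℕ} (hg : g.IsHomogeneous d) :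
    van (gc 𝒰 T) g (gpt 𝒰 x) ↔ ∀ᶠ i in (𝒰 : Filter I), van (RingHom.id T) g (x i) := by
  choose v hv using fun i => A.ax.exists_rep (x i)
  rw [van_iff hg (rep_gpt 𝒰 (Eventually.of_forall hv)), Germ_eval, Germ_zero]
  exact eventually_congr (Eventually.of_forall fun i => (van_iff hg (hv i)).symm)

variable {K : Type u} [Field K] {s : A.Str K}

theorem gpt_mem_ext {X : Set (A.Pt s)} (hX : Cl X) {x : I → A.Pt s} :
    gpt 𝒰 x ∈ ext (gc 𝒰 K) _ X ↔ ∀ᶠ i in (𝒰 : Filter I), x i ∈ X := by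
  constructor
  · intro h
    obtain ⟨G, hG, h1, h2⟩ := exists_finite_idl X
    have h3 : ∀ᶠ i in (𝒰 : Filter I), ∀ g ∈ G, van (RingHom.id K) g (x i) :=
      (eventually_all_finite hG).2 fun g hg =>
        (Germ_van 𝒰 (h1 hg).1.choose_spec).1 (h g (h1 hg))
    refine h3.mono fun i hi => hX fun g hg v hv => ?_
    have : Ideal.span G ≤ RingHom.ker (MvPolynomial.eval₂Hom (RingHom.id K) v) :=
      Ideal.span_le.2 fun f hf => hi f hf v hv
    exact this (h2 hg)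
  · intro h g hg
    exact (Germ_van 𝒰 hg.1.choose_spec).2 (h.mono fun i hi => hg.2 _ hi)

theorem Germ_mem_loc [IsAlgClosed K] (x : I → A.Pt s) :
    ∀ᶠ i in (𝒰 : Filter I), x i ∈ loc (gc 𝒰 K) s (gpt 𝒰 x) :=
  (gpt_mem_ext 𝒰 (cl_loc _ _)).1 (mem_ext_loc rfl _)

theorem subset_cl_of_gpt [IsAlgClosed K] {x : I → A.Pt s} {S : Set (A.Pt s)}
    (h : ∀ᶠ i in (𝒰 : Filter I), x i ∈ S) :
    loc (gc 𝒰 K) s (gpt 𝒰 x) ⊆ cl (S ∩ loc (gc 𝒰 K) s (gpt 𝒰 x)) :=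
  loc_subset (cl_cl _) ((gpt_mem_ext 𝒰 (cl_cl _)).2
    ((h.and (Germ_mem_loc 𝒰 x)).mono fun _ hi => subset_cl _ hi))

theorem exists_ultra [IsAlgClosed K] {X S : Set (A.Pt s)} (hX : Var X) (hS : X ⊆ cl (S ∩ X)) :
    ∃ 𝒰 : Ultrafilter (A.Pt s), S ∩ X ∈ 𝒰 ∧ loc (gc 𝒰 K) s (gpt 𝒰 id) = X := by
  let F : Filter (A.Pt s) :=
    { sets := {Z | ∃ Y, Cl Y ∧ ¬ X ⊆ Y ∧ (S ∩ X) \ Y ⊆ Z}
      univ_sets := ⟨∅, cl_empty, hX.2.1.not_subset_empty, Set.subset_univ _⟩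
      sets_of_superset := fun ⟨Y, h1, h2, h3⟩ h => ⟨Y, h1, h2, h3.trans h⟩
      inter_sets := fun ⟨Y, h1, h2, h3⟩ ⟨Y', h1', h2', h3'⟩ =>
        ⟨Y ∪ Y', h1.union h1', fun h => (hX.2.2 Y Y' h1 h1' h).elim h2 h2', fun z hz =>
          ⟨h3 ⟨hz.1, fun e => hz.2 (Or.inl e)⟩, h3' ⟨hz.1, fun e => hz.2 (Or.inr e)⟩⟩⟩ }
  have hF : F.NeBot := by
    refine ⟨fun h => ?_⟩
    obtain ⟨Y, h1, h2, h3⟩ : ∅ ∈ F := empty_mem_iff_bot.2 h
    exact h2 (hS.trans (cl_min (Set.sdiff_eq_empty.1 (Set.subset_empty_iff.1 h3)) h1))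
  have h0 : S ∩ X ∈ Ultrafilter.of F :=
    Ultrafilter.of_le F ⟨∅, cl_empty, hX.2.1.not_subset_empty, Set.sdiff_subset⟩
  refine ⟨Ultrafilter.of F, h0, Set.Subset.antisymm (loc_subset hX.1 ((gpt_mem_ext _ hX.1).2
    (mem_of_superset h0 Set.inter_subset_right))) ?_⟩
  by_contra h
  have h1 : ∀ᶠ i in (Ultrafilter.of F : Filter (A.Pt s)),
      i ∉ loc (gc (Ultrafilter.of F) K) s (gpt (Ultrafilter.of F) id) :=
    Ultrafilter.of_le F ⟨_, cl_loc _ _, h, fun z hz => hz.2⟩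
  obtain ⟨i, h2, h3⟩ := (h1.and (Germ_mem_loc (Ultrafilter.of F) id)).exists
  exact h2 h3

end PG

theorem SPG.c_gpt {A : SPG.{u}} [IsLocalRing T] {s : A.Str T} {x : I → A.Pt s}
    (h : ∀ᶠ i in (𝒰 : Filter I), PG.Cong (maximalIdeal T) (x i) (0 : A.Pt s)) (a : A.τ) :
    A.c (PG.gpt 𝒰 x) a = gm 𝒰 fun i => A.c (x i) a := by
  obtain ⟨Cn, Cd, d, -, -, H⟩ := A.ch.formula s
  choose v hv using fun i => A.ax.exists_rep (x i)
  have h0 : PG.gpt 𝒰 (fun _ => (0 : A.Pt s)) = 0 := map_zero (PG.GermPt 𝒰)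
  obtain ⟨h1, h2⟩ := H (gc 𝒰 T) _ rfl (PG.gpt 𝒰 x) _ (PG.rep_gpt 𝒰 (Eventually.of_forall hv))
    (h0 ▸ (PG.gpt_cong 𝒰).2 h)
  refine h1.mul_right_cancel ((h2 a).trans ?_)
  rw [Germ_eval, Germ_eval, ← Germ_mul]
  exact (Germ_eq 𝒰).2 (h.mono fun i hi =>
    ((H (RingHom.id T) s (A.ax.push_id s) (x i) (v i) (hv i) hi).2 a).symm)

section sett

variable {p : ℕ} [Fact p.Prime] {K : Type u} [Field K] [CharP K p]

theorem Germ_pow_le {N : Subfield K} {z : K} {n n' : ℕ} (h : z ^ p ^ n ∈ N) (hn : n ≤ n') :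
    z ^ p ^ n' ∈ N := root_mono p hn le_rfl h

theorem Germ_pow_mem {N : Subfield K} {z : K} (h : ∃ n, z ^ p ^ n ∈ N) (d : ℕ) (c : ℕ → N)
    (hz : z ^ d + ∑ n : Fin d, (c n : K) * z ^ (n : ℕ) = 0) : z ^ p ^ d ∈ N := by
  obtain ⟨n, y, e⟩ := (minpoly.natSepDegree_eq_one_iff_eq_X_pow_sub_C (F := N) (x := z) p).1
    ((minpoly.natSepDegree_eq_one_iff_pow_mem p).2 (h.imp fun n hn => ⟨⟨_, hn⟩, rfl⟩))
  have h1 := minpoly.min N z (GermPol_monic d c) ((GermPol_eval (algebraMap N K) d c z).trans hz)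
  rw [e, GermPol_degree, Polynomial.degree_X_pow_sub_C (pow_pos (Fact.out : p.Prime).pos n),
    Nat.cast_le] at h1
  have h2 := minpoly.aeval N z
  rw [e, map_sub, map_pow, Polynomial.aeval_X, Polynomial.aeval_C, sub_eq_zero] at h2
  refine Germ_pow_le (n := n) ?_ ((Nat.lt_pow_self (Fact.out : p.Prime).one_lt).le.trans h1)
  rw [h2]
  exact y.2

omit [CharP K p] in
theorem Germ_acl {N : Subfield K} {z : K} {n : ℕ} (h : z ^ p ^ n ∈ N) : z ∈ acl N :=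
  mem_acl.2 (IsAlgebraic.of_pow (pow_pos (Fact.out : p.Prime).pos n) (mem_acl.1 (le_acl N h)))

/-- The ultraproduct of a family of subfields. -/
def GermM (N : I → Subfield K) : Subfield (UP 𝒰 K) where
  carrier := {z | ∃ f : I → K, (∀ i, f i ∈ N i) ∧ gm 𝒰 f = z}
  zero_mem' := ⟨0, fun _ => zero_mem _, rfl⟩
  one_mem' := ⟨1, fun _ => one_mem _, rfl⟩
  add_mem' := by
    rintro _ _ ⟨f, hf, rfl⟩ ⟨g, hg, rfl⟩
    exact ⟨f + g, fun i => add_mem (hf i) (hg i), rfl⟩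
  mul_mem' := by
    rintro _ _ ⟨f, hf, rfl⟩ ⟨g, hg, rfl⟩
    exact ⟨f * g, fun i => mul_mem (hf i) (hg i), rfl⟩
  neg_mem' := by
    rintro _ ⟨f, hf, rfl⟩
    exact ⟨-f, fun i => neg_mem (hf i), rfl⟩
  inv_mem' := by
    rintro _ ⟨f, hf, rfl⟩
    exact ⟨f⁻¹, fun i => inv_mem (hf i), rfl⟩

theorem GermM_mem {N : I → Subfield K} {f : I → K} (h : ∀ᶠ i in (𝒰 : Filter I), f i ∈ N i) :
    gm 𝒰 f ∈ GermM 𝒰 N := by
  classical
  refine ⟨fun i => if f i ∈ N i then f i else 0, fun i => ?_,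
    (Germ_eq 𝒰).2 (h.mono fun i hi => if_pos hi)⟩
  dsimp only
  split_ifs with hi
  exacts [hi, zero_mem _]

variable (𝒮 : I → Sett p K)

theorem GermM_ins {z : UP 𝒰 K} (hz : z ∈ acl (GermM 𝒰 fun i => (𝒮 i).M)) :
    ∃ n, z ^ p ^ n ∈ GermM 𝒰 fun i => (𝒮 i).M := by
  obtain ⟨P, hP, h⟩ := (mem_acl.1 hz).isIntegral
  obtain ⟨z, rfl⟩ := Germ_surj 𝒰 z
  choose c hc hc' using fun n => (P.coeff n).2
  rw [GermPol_eq hP, GermPol_eval] at h
  have h1 : gm 𝒰 z ^ P.natDegree + ∑ n : Fin P.natDegree, gm 𝒰 (c n) * gm 𝒰 z ^ (n : ℕ) = 0 := by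
    simp only [hc']
    exact h
  rw [← Germ_pol, Germ_zero] at h1
  refine ⟨P.natDegree, ?_⟩
  rw [← Germ_pow]
  exact GermM_mem 𝒰 (h1.mono fun i hi =>
    Germ_pow_mem ((𝒮 i).ins (z i)) _ (fun n => ⟨c n i, hc n i⟩) hi)

/-- The ultraproduct of a family of settings. -/
noncomputable def GermSett : Sett p (acl (GermM 𝒰 fun i => (𝒮 i).M)) where
  M := (GermM 𝒰 fun i => (𝒮 i).M).comap (Subfield.subtype _)
  t := ⟨gm 𝒰 fun i => (𝒮 i).t, le_acl _ ⟨_, fun i => (𝒮 i).t_mem, rfl⟩⟩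
  t_mem := ⟨_, fun i => (𝒮 i).t_mem, rfl⟩
  pb := by
    rintro z ⟨f, hf, e⟩
    choose c hc hc' using fun i => (𝒮 i).pb (f i) (hf i)
    refine ⟨fun j => ⟨gm 𝒰 fun i => c i j, le_acl _ ⟨_, fun i => hc i j, rfl⟩⟩,
      fun j => ⟨_, fun i => hc i j, rfl⟩, Subtype.ext (e.symm.trans ?_)⟩
    rw [funext hc', Germ_sum]
    simp only [Germ_mul, Germ_pow]
    push_cast
    rfl
  np := by
    rintro ⟨w, ⟨f, hf, e⟩, h⟩
    have h1 : gm 𝒰 (fun i => f i ^ p) = gm 𝒰 fun i => (𝒮 i).t := by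
      rw [Germ_pow, e]
      exact congrArg Subtype.val h
    obtain ⟨i, hi⟩ := ((Germ_eq 𝒰).1 h1).exists
    exact (𝒮 i).np ⟨f i, hf i, hi⟩
  ins z := GermM_ins 𝒰 𝒮 z.2

/-- The projection from the product. -/
noncomputable def GermPi : (∀ i, (𝒮 i).M) →+* (GermSett 𝒰 𝒮).M :=
  (((GermH 𝒰).comp (RingHom.pi fun i => (𝒮 i).M.subtype.comp (Pi.evalRingHom _ i))).codRestrict
    (acl (GermM 𝒰 fun i => (𝒮 i).M)) fun f => le_acl _ ⟨_, fun i => (f i).2, rfl⟩).codRestrict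
    (GermSett 𝒰 𝒮).M fun f => ⟨_, fun i => (f i).2, rfl⟩

theorem GermPi_surj : Function.Surjective (GermPi 𝒰 𝒮) := by
  rintro ⟨z, f, hf, e⟩
  exact ⟨fun i => ⟨f i, hf i⟩, Subtype.ext (Subtype.ext e)⟩

theorem GermSett_D₀ (f : ∀ i, (𝒮 i).M) :
    PowerSeries.map (Subfield.subtype _) ((GermSett 𝒰 𝒮).D₀ (GermPi 𝒰 𝒮 f)) =
      GermPS 𝒰 fun i => (𝒮 i).D₀ (f i) := by
  let g : (∀ i, (𝒮 i).M) →+* PowerSeries (UP 𝒰 K) :=
    (GermPS 𝒰).comp (RingHom.pi fun i => (𝒮 i).D₀.comp (Pi.evalRingHom _ i))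
  have hg : RingHom.ker (GermPi 𝒰 𝒮) ≤ RingHom.ker g := by
    intro f hf
    have h1 : gm 𝒰 (fun i => (f i : K)) = 0 := congrArg (fun z => z.1.1) hf
    refine PowerSeries.ext fun n => (GermPS_coeff 𝒰 _ n).trans ((Germ_zero 𝒰).2 ?_)
    refine ((Germ_zero 𝒰).1 h1).mono fun i hi => ?_
    have h2 : f i = 0 := Subtype.ext hi
    change coeff n ((𝒮 i).D₀ (f i)) = 0
    rw [h2, map_zero, map_zero]
  let θ := (GermPi 𝒰 𝒮).liftOfSurjective (GermPi_surj 𝒰 𝒮) ⟨g, hg⟩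
  have hθ : ∀ f, θ (GermPi 𝒰 𝒮 f) = GermPS 𝒰 fun i => (𝒮 i).D₀ (f i) := fun f =>
    (GermPi 𝒰 𝒮).liftOfRightInverse_comp_apply _ _ _ f
  have key : (PowerSeries.map (Subfield.subtype _)).comp (GermSett 𝒰 𝒮).D₀ = θ := by
    refine (GermSett 𝒰 𝒮).hom_uniq (mx (UP 𝒰 K)) (fun z => ?_) ?_
    · obtain ⟨f, rfl⟩ := GermPi_surj 𝒰 𝒮 z
      refine Ideal.mem_span_singleton.2 (X_dvd_iff.2 ?_)
      rw [map_sub, hθ, RingHom.comp_apply, ← coeff_zero_eq_constantCoeff_apply, coeff_map,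
        coeff_zero_eq_constantCoeff_apply, Sett.cc_D₀, ← coeff_zero_eq_constantCoeff_apply,
        GermPS_coeff, sub_eq_zero]
      simp only [coeff_zero_eq_constantCoeff_apply, Sett.cc_D₀]
      rfl
    · rw [RingHom.comp_apply, Sett.D₀_t, map_add, map_C, map_X]
      refine Eq.trans ?_ (hθ fun i => ⟨(𝒮 i).t, (𝒮 i).t_mem⟩).symm
      ext n
      rw [GermPS_coeff]
      simp only [Sett.D₀_t, map_add, Germ_add, coeff_C, coeff_X]
      congr 1 <;> split_ifs <;> rfl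
  rw [← hθ, ← key]
  rfl

end sett

theorem usett {p : ℕ} [Fact p.Prime] {K : Type u} [Field K] [CharP K p] [IsAlgClosed K]
    (𝒮 : Sett p K) (m : I → ℕ) :
    ∃ (E : Type u) (_ : Field E) (_ : CharP E p) (_ : IsAlgClosed E) (𝒯 : Sett p E)
      (e : E →+* UP 𝒰 K) (d ι : K →+* E), e.comp d = gc 𝒰 K ∧
      (∀ z, e (ι z) = gm 𝒰 fun i => (iterateFrobeniusEquiv K p (m i)).symm z) ∧
      (∀ z, z ∈ 𝒯.M.map e ↔ ∃ f : I → K, (∀ i, f i ∈ root p (m i) 𝒮.M) ∧ gm 𝒰 f = z) ∧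
      Sett.Mor 𝒮 𝒯 ι ∧
      (∀ (z : 𝒯.M) (f : ∀ i, (𝒮.lev (m i)).M), e z = gm 𝒰 (fun i => (f i : K)) →
        ∀ n, e (coeff n (𝒯.D₀ z)) = gm 𝒰 fun i => coeff n ((𝒮.lev (m i)).D₀ (f i))) ∧
      ((∀ n, ∀ᶠ i in (𝒰 : Filter I), n ≤ m i) → ∀ z, d z ∈ 𝒯.cst) := by
  let 𝒮' : I → Sett p K := fun i => 𝒮.lev (m i)
  let N := GermM 𝒰 fun i => (𝒮' i).M
  have hr : ∀ (n : ℕ) (z : K), (iterateFrobeniusEquiv K p n).symm z ^ p ^ n = z := fun n z =>
    (iterateFrobeniusEquiv K p n).apply_symm_apply z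
  have hm : ∀ {f : I → K}, (∀ᶠ i in (𝒰 : Filter I), f i ^ p ^ m i ∈ 𝒮.M) → gm 𝒰 f ∈ N :=
    fun h => GermM_mem 𝒰 (h.mono fun i hi => (𝒮.lev_M (m i)).symm ▸ hi)
  let ι₀ : K →+* UP 𝒰 K := (GermH 𝒰).comp
    (RingHom.pi fun i => ((iterateFrobeniusEquiv K p (m i)).symm : K →+* K))
  have h1 : ∀ z ∈ 𝒮.M, ι₀ z ∈ N := fun z hz =>
    hm (Eventually.of_forall fun i => (hr (m i) z).symm ▸ hz)
  have h2 : ∀ z, ι₀ z ∈ acl N := fun z => by
    obtain ⟨n, hn⟩ := 𝒮.ins z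
    exact Germ_acl (n := n) (map_pow ι₀ z _ ▸ h1 _ hn)
  have h3 : ∀ z, gc 𝒰 K z ∈ acl N := fun z => by
    obtain ⟨n, hn⟩ := 𝒮.ins z
    refine Germ_acl (p := p) (n := n) ?_
    rw [← map_pow]
    exact hm (Eventually.of_forall fun i => pow_mem hn _)
  refine ⟨acl N, inferInstance, inferInstance, inferInstance, GermSett 𝒰 𝒮', (acl N).subtype,
    (gc 𝒰 K).codRestrict _ h3, ι₀.codRestrict _ h2, rfl, fun z => rfl, fun z => ?_,
    ⟨h1, Subtype.ext (congrArg (gm 𝒰) (funext fun i => ?_))⟩, fun z f hz n => ?_, fun h z => ?_⟩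
  · simp only [← 𝒮.lev_M]
    exact ⟨fun ⟨_, hw, e⟩ => e ▸ hw, fun hz => ⟨⟨z, le_acl N hz⟩, hz, rfl⟩⟩
  · exact (iterateFrobeniusEquiv K p (m i)).symm_apply_eq.2 (𝒮.lev_t (m i)).symm
  · have e : z = GermPi 𝒰 𝒮' f := Subtype.ext (Subtype.ext hz)
    rw [e, ← coeff_map, GermSett_D₀, GermPS_coeff]
  · refine (Sett.mem_cst_iff_pow _).2 fun n =>
      ⟨(gc 𝒰 K).codRestrict _ h3 ((iterateFrobeniusEquiv K p n).symm z), ?_, ?_⟩
    · obtain ⟨k, hk⟩ := 𝒮.ins ((iterateFrobeniusEquiv K p n).symm z)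
      exact hm ((h k).mono fun i hi => Germ_pow_le hk hi)
    · rw [← map_pow, hr]

end MLF
end
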