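import Mathlib
import Pool.Agent.Work.MP_29d410_ag.DM6
import Pool.Agent.Work.MP_29d410_ag.DM7A
import Pool.Agent.Work.MP_29d410_ag.NBA

-- merged part: Pool.Agent.Work.MP_29d410_ag.DM7b
section
-- merged part: Pool.Agent.Work.MP_29d410_ag.DM4
section
/-!
# Rationality of the first slope (the chain argument of Zink), for lattices of subfields

`𝕂` is a perfect field, `φ` its Frobenius, `P` an automorphism.  A lattice is a subfield `M` with
`φ ^ c M₀ ≤ M` and `φ ^ c M ≤ M₀` for some `c`; all lattices have `[M : φ M] = p ^ g`, so a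
strictly monotone chain of subfields between `φ M` and `M` has at most `g` steps.
`Bdd r s`: there is `c` with `φ ^ c u ^ n M₀ ≤ M₀` for all `n`, `u = φ ^ r P ^ (-s)`.
* `Bdd b 1` holds; `Bdd r s` with `s > 0` implies `r ≥ s` (as `P M₀ ≤ φ M₀`, compare degrees,
  `g > 0`); `Bdd r s ↔ Bdd (k r) (k s)`; `Bdd r s → Bdd (r+1) s`; so `Bdd r s` and
  `r / s ≤ r' / s'` give `Bdd r' s'`.  `λ = inf {r / s | Bdd r s} ≥ 1`.
* If `Bdd r s` then the supremum of the `u ^ n M₀` is reached after finitely many steps (finite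
  degree) and is a `u`-stable lattice; conversely a `u`-stable lattice gives `Bdd r s`.
* Dirichlet (`Real.exists_nat_abs_mul_sub_round_le`): `s > 0`, `r` with `|s λ - r| < 1 / (g+1)`.
* `Bdd (r (g+1) + 1) (s (g+1))` holds, so `u ^ (g+1) φ M ≤ M` for a lattice `M`.  With
  `M' = ⨆ (i ≤ g) u ^ i M` the chain `M j = ⨆ (i ≤ j) u ^ i M'`, `j ≤ g+1`, lies between `M'` and
  `φ⁻¹ M'`, so `M j = M (j+1)` for some `j`: a `u`-stable lattice.  Hence `Bdd r s`.
* If `u ^ n M ≤ φ M` for a `u`-stable lattice `M`, the chain `u ^ k M ⊔ φ M` decreases from `M`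
  to `φ M` and is constant as soon as two consecutive terms agree, so `u ^ g M ≤ φ M`, i.e.
  `Bdd (r g - 1) (s g)`, so `r - s λ ≥ 1 / g`: absurd.
-/

namespace MLF

universe u

namespace DM4

variable {𝕂 : Type u} [Field 𝕂]

/-- The action of automorphisms on subfields. -/
def act (σ : 𝕂 ≃+* 𝕂) (M : Subfield 𝕂) : Subfield 𝕂 := M.map (σ : 𝕂 →+* 𝕂)

theorem mem_act {σ : 𝕂 ≃+* 𝕂} {M : Subfield 𝕂} {y : 𝕂} : y ∈ act σ M ↔ ∃ x ∈ M, σ x = y :=
  Subfield.mem_map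

theorem act_mul (σ τ : 𝕂 ≃+* 𝕂) (M : Subfield 𝕂) : act (σ * τ) M = act σ (act τ M) := by
  unfold act
  rw [Subfield.map_map]
  rfl

theorem act_one (M : Subfield 𝕂) : act 1 M = M := by
  ext y
  simp [mem_act]

theorem act_mono (σ : 𝕂 ≃+* 𝕂) {A B : Subfield 𝕂} (h : A ≤ B) : act σ A ≤ act σ B :=
  (Subfield.gc_map_comap (σ : 𝕂 →+* 𝕂)).monotone_l h

theorem le_of_act_le (σ : 𝕂 ≃+* 𝕂) {A B : Subfield 𝕂} (h : act σ A ≤ act σ B) : A ≤ B := by
  have := act_mono σ⁻¹ h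
  rwa [← act_mul, ← act_mul, inv_mul_cancel, act_one, act_one] at this

theorem act_sup (σ : 𝕂 ≃+* 𝕂) (A B : Subfield 𝕂) : act σ (A ⊔ B) = act σ A ⊔ act σ B :=
  Subfield.map_sup _ _ _

theorem act_iSup {ι : Sort*} (σ : 𝕂 ≃+* 𝕂) (A : ι → Subfield 𝕂) :
    act σ (⨆ i, A i) = ⨆ i, act σ (A i) := Subfield.map_iSup _ _

theorem relfinrank_act (σ : 𝕂 ≃+* 𝕂) (A B : Subfield 𝕂) :
    (act σ A).relfinrank (act σ B) = A.relfinrank B := Subfield.relfinrank_map_map _ _ _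

theorem act_comm {σ τ : 𝕂 ≃+* 𝕂} (h : Commute σ τ) (M : Subfield 𝕂) :
    act σ (act τ M) = act τ (act σ M) := by
  rw [← act_mul, ← act_mul, h.eq]

theorem act_pow_le {σ : 𝕂 ≃+* 𝕂} {M : Subfield 𝕂} (h : act σ M ≤ M) (n : ℕ) :
    act (σ ^ n) M ≤ M := by
  induction n with
  | zero => rw [pow_zero, act_one]
  | succ n ih => rw [pow_succ', act_mul]; exact (act_mono σ ih).trans h

theorem act_pow_anti {σ : 𝕂 ≃+* 𝕂} {M : Subfield 𝕂} (h : act σ M ≤ M) {m n : ℕ} (hmn : m ≤ n) :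
    act (σ ^ n) M ≤ act (σ ^ m) M := by
  obtain ⟨k, rfl⟩ := Nat.exists_eq_add_of_le hmn
  rw [pow_add, act_mul]
  exact act_mono _ (act_pow_le h k)

/-- An increasing chain inside an extension of degree dividing `p ^ k` stops. -/
theorem chain_up {p k : ℕ} (hp : p.Prime) {A B : Subfield 𝕂} (h : A.relfinrank B ∣ p ^ k)
    (f : ℕ → Subfield 𝕂) (hf : Monotone f) (h0 : A ≤ f 0) (h1 : f (k + 1) ≤ B) :
    ∃ j ≤ k, f (j + 1) ≤ f j := by
  by_contra hc
  push Not at hc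
  have hd : ∀ i j, i ≤ j → j ≤ k + 1 → (f i).relfinrank (f j) ∣ p ^ k := by
    intro i j hij hj
    have e1 := Subfield.relfinrank_mul_relfinrank (h0.trans (hf (Nat.zero_le i))) (hf hij)
    have e2 := Subfield.relfinrank_mul_relfinrank (h0.trans (hf (Nat.zero_le j)))
      ((hf hj).trans h1)
    refine Dvd.dvd.trans ?_ h
    rw [← e2, ← e1]
    exact (dvd_mul_left _ _).mul_right _
  have key : ∀ j, j ≤ k + 1 → p ^ j ∣ (f 0).relfinrank (f j) := by
    intro j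
    induction j with
    | zero => simp
    | succ j ih =>
      intro hj
      rw [← Subfield.relfinrank_mul_relfinrank (hf (Nat.zero_le j)) (hf (Nat.le_succ j)), pow_succ]
      refine mul_dvd_mul (ih (by omega)) ?_
      obtain ⟨i, -, hi⟩ := (Nat.dvd_prime_pow hp).1 (hd j (j + 1) (Nat.le_succ j) hj)
      rw [hi]
      refine dvd_pow_self p fun h0 => hc j (by omega) ?_
      rw [h0, pow_zero] at hi
      exact Subfield.relfinrank_eq_one_iff.1 hi
  have := (key (k + 1) le_rfl).trans (hd 0 (k + 1) (Nat.zero_le _) le_rfl)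
  rw [Nat.pow_dvd_pow_iff_le_right hp.one_lt] at this
  omega

/-- A decreasing chain inside an extension of degree dividing `p ^ k` stops. -/
theorem chain_down {p k : ℕ} (hp : p.Prime) {A B : Subfield 𝕂} (h : A.relfinrank B ∣ p ^ k)
    (f : ℕ → Subfield 𝕂) (hf : Antitone f) (h0 : f 0 ≤ B) (h1 : A ≤ f (k + 1)) :
    ∃ j ≤ k, f j ≤ f (j + 1) := by
  obtain ⟨j, hj, hle⟩ := chain_up hp h (fun j => f (k + 1 - j))
    (fun i j hij => hf (by omega)) (by simpa using h1) (by simpa using h0)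
  refine ⟨k - j, by omega, ?_⟩
  have e1 : k + 1 - (j + 1) = k - j := by omega
  have e2 : k + 1 - j = k - j + 1 := by omega
  simpa only [e1, e2] using hle

/-- The formal properties of the Frobenius automorphism. -/
structure IsF (F : 𝕂 ≃+* 𝕂) : Prop where
  comm : ∀ σ, Commute F σ
  le : ∀ M, act F M ≤ M

/-- Domination up to a power of `F`. -/
def Dom (F : 𝕂 ≃+* 𝕂) (A B : Subfield 𝕂) : Prop := ∃ c : ℕ, act (F ^ c) A ≤ B

/-- Commensurability. -/
def Lat (F : 𝕂 ≃+* 𝕂) (A B : Subfield 𝕂) : Prop := Dom F A B ∧ Dom F B A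

variable {F : 𝕂 ≃+* 𝕂}

theorem Dom.of_le {A B : Subfield 𝕂} (h : A ≤ B) : Dom F A B :=
  ⟨0, by rwa [pow_zero, act_one]⟩

theorem Dom.trans {A B C : Subfield 𝕂} (h : Dom F A B) (h' : Dom F B C) : Dom F A C := by
  obtain ⟨c, h⟩ := h
  obtain ⟨c', h'⟩ := h'
  exact ⟨c' + c, by rw [pow_add, act_mul]; exact (act_mono _ h).trans h'⟩

theorem Dom.act (hF : IsF F) (σ : 𝕂 ≃+* 𝕂) {A B : Subfield 𝕂} (h : Dom F A B) :
    Dom F (act σ A) (act σ B) := by
  obtain ⟨c, h⟩ := h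
  exact ⟨c, by rw [act_comm ((hF.comm σ).pow_left c)]; exact act_mono σ h⟩

theorem Dom.sup (hF : IsF F) {A B C : Subfield 𝕂} (h : Dom F A C) (h' : Dom F B C) :
    Dom F (A ⊔ B) C := by
  obtain ⟨c, h⟩ := h
  obtain ⟨c', h'⟩ := h'
  refine ⟨c + c', ?_⟩
  rw [act_sup]
  exact sup_le ((act_pow_anti (hF.le A) (by omega)).trans h)
    ((act_pow_anti (hF.le B) (by omega)).trans h')

theorem Lat.refl (A : Subfield 𝕂) : Lat F A A := ⟨.of_le le_rfl, .of_le le_rfl⟩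

theorem Lat.symm {A B : Subfield 𝕂} (h : Lat F A B) : Lat F B A := ⟨h.2, h.1⟩

theorem Lat.trans {A B C : Subfield 𝕂} (h : Lat F A B) (h' : Lat F B C) : Lat F A C :=
  ⟨h.1.trans h'.1, h'.2.trans h.2⟩

theorem Lat.act (hF : IsF F) (σ : 𝕂 ≃+* 𝕂) {A B : Subfield 𝕂} (h : Lat F A B) :
    Lat F (act σ A) (act σ B) := ⟨h.1.act hF σ, h.2.act hF σ⟩

theorem lat_one (A : Subfield 𝕂) : Lat F A (act 1 A) := by
  rw [act_one]; exact Lat.refl A

theorem lat_mul (hF : IsF F) {A : Subfield 𝕂} {σ τ : 𝕂 ≃+* 𝕂} (h : Lat F A (act σ A))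
    (h' : Lat F A (act τ A)) : Lat F A (act (σ * τ) A) := by
  rw [act_mul]; exact h.trans (h'.act hF σ)

theorem lat_inv (hF : IsF F) {A : Subfield 𝕂} {σ : 𝕂 ≃+* 𝕂} (h : Lat F A (act σ A)) :
    Lat F A (act σ⁻¹ A) := by
  have := h.act hF σ⁻¹
  rw [← act_mul, inv_mul_cancel, act_one] at this
  exact this.symm

theorem lat_pow (hF : IsF F) {A : Subfield 𝕂} {σ : 𝕂 ≃+* 𝕂} (h : Lat F A (act σ A)) (n : ℕ) :
    Lat F A (act (σ ^ n) A) := by
  induction n with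
  | zero => rw [pow_zero]; exact lat_one A
  | succ n ih => rw [pow_succ]; exact lat_mul hF ih h

theorem lat_F (hF : IsF F) (A : Subfield 𝕂) : Lat F A (act F A) :=
  ⟨⟨1, by rw [pow_one]⟩, .of_le (hF.le A)⟩

theorem lat_of_lat (hF : IsF F) {A M : Subfield 𝕂} {σ : 𝕂 ≃+* 𝕂} (h : Lat F A (act σ A))
    (hM : Lat F A M) : Lat F M (act σ M) := hM.symm.trans (h.trans (hM.act hF σ))

theorem deg_pow (hF : IsF F) {A : Subfield 𝕂} {d : ℕ} (h : (act F A).relfinrank A = d) (c : ℕ) :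
    (act (F ^ c) A).relfinrank A = d ^ c := by
  induction c with
  | zero => rw [pow_zero, act_one, pow_zero, Subfield.relfinrank_self]
  | succ c ih =>
    rw [← Subfield.relfinrank_mul_relfinrank (act_pow_anti (hF.le A) (Nat.le_succ c))
      (act_pow_le (hF.le A) c), ih, pow_succ F, act_mul, relfinrank_act, h, pow_succ']

theorem deg_lat (hF : IsF F) {A M : Subfield 𝕂} {d : ℕ} (hd : d ≠ 0)
    (h : (act F A).relfinrank A = d) (hM : Lat F A M) : (act F M).relfinrank M = d := by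
  obtain ⟨⟨c, h1⟩, c', h2⟩ := hM
  have hne : (act (F ^ c) A).relfinrank M ≠ 0 := by
    intro h0
    have e := Subfield.relfinrank_mul_relfinrank (act_mono (F ^ c') h1) h2
    rw [relfinrank_act, h0, zero_mul, ← act_mul, ← pow_add, deg_pow hF h] at e
    exact pow_ne_zero _ hd e.symm
  have e1 := Subfield.relfinrank_mul_relfinrank (hF.le (act (F ^ c) A)) h1
  have e2 := Subfield.relfinrank_mul_relfinrank (act_mono F h1) (hF.le M)
  rw [relfinrank_act, ← e1, act_comm (hF.comm (F ^ c)), relfinrank_act, h, mul_comm d] at e2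
  exact mul_left_cancel₀ hne e2

/-- The subfield generated by the first `N` translates. -/
def S (u : 𝕂 ≃+* 𝕂) (M : Subfield 𝕂) (N : ℕ) : Subfield 𝕂 := ⨆ n : Fin N, act (u ^ (n : ℕ)) M

theorem le_S (u : 𝕂 ≃+* 𝕂) (M : Subfield 𝕂) {n N : ℕ} (h : n < N) : act (u ^ n) M ≤ S u M N :=
  le_iSup (fun n : Fin N => act (u ^ (n : ℕ)) M) ⟨n, h⟩

theorem S_le {u : 𝕂 ≃+* 𝕂} {M B : Subfield 𝕂} {N : ℕ} (h : ∀ n < N, act (u ^ n) M ≤ B) :
    S u M N ≤ B := iSup_le fun n => h n n.2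

theorem act_S_le (σ : 𝕂 ≃+* 𝕂) {u : 𝕂 ≃+* 𝕂} {M B : Subfield 𝕂} {N : ℕ}
    (h : ∀ n < N, act σ (act (u ^ n) M) ≤ B) : act σ (S u M N) ≤ B := by
  unfold S
  rw [act_iSup]
  exact iSup_le fun n => h n n.2

theorem S_mono (u : 𝕂 ≃+* 𝕂) (M : Subfield 𝕂) : Monotone (S u M) := fun _ _ h =>
  S_le fun _ hn => le_S u M (hn.trans_le h)

theorem self_le_S (u : 𝕂 ≃+* 𝕂) (M : Subfield 𝕂) {N : ℕ} (h : 0 < N) : M ≤ S u M N := by
  have := le_S u M h
  rwa [pow_zero, act_one] at this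

theorem act_S (u : 𝕂 ≃+* 𝕂) (M : Subfield 𝕂) (N : ℕ) : act u (S u M N) ≤ S u M (N + 1) :=
  act_S_le u fun n hn => by
    rw [← act_mul, ← pow_succ']; exact le_S u M (by omega)

theorem lat_S (hF : IsF F) {u : 𝕂 ≃+* 𝕂} {M : Subfield 𝕂} (h : Lat F M (act u M)) {N : ℕ}
    (hN : 0 < N) : Lat F M (S u M N) := by
  refine ⟨.of_le (self_le_S u M hN), ?_⟩
  clear hN
  induction N with
  | zero => exact .of_le (S_le fun n hn => absurd hn (Nat.not_lt_zero n))
  | succ N ih =>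
    refine Dom.trans (.of_le ?_) (ih.sup hF (lat_pow hF h N).2)
    refine S_le fun n hn => ?_
    rcases Nat.lt_succ_iff_lt_or_eq.1 hn with hn | rfl
    · exact (le_S u M hn).trans le_sup_left
    · exact le_sup_right

/-- There is a stable lattice. -/
def Stab (F : 𝕂 ≃+* 𝕂) (A : Subfield 𝕂) (u : 𝕂 ≃+* 𝕂) : Prop := ∃ M, Lat F A M ∧ act u M ≤ M

theorem Stab.pow {A : Subfield 𝕂} {u : 𝕂 ≃+* 𝕂} (h : Stab F A u) (n : ℕ) : Stab F A (u ^ n) := by
  obtain ⟨M, h1, h2⟩ := h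
  exact ⟨M, h1, act_pow_le h2 n⟩

theorem Stab.F_mul (hF : IsF F) {A : Subfield 𝕂} {u : 𝕂 ≃+* 𝕂} (h : Stab F A u) (n : ℕ) :
    Stab F A (F ^ n * u) := by
  obtain ⟨M, h1, h2⟩ := h
  exact ⟨M, h1, by rw [act_mul]; exact (act_pow_le (hF.le _) n).trans h2⟩

theorem Stab.of_pow (hF : IsF F) {A : Subfield 𝕂} {u : 𝕂 ≃+* 𝕂} (hu : Lat F A (act u A)) {n : ℕ}
    (hn : 0 < n) (h : Stab F A (u ^ n)) : Stab F A u := by
  obtain ⟨M, h1, h2⟩ := h
  refine ⟨S u M n, h1.trans (lat_S hF (lat_of_lat hF hu h1) hn), (act_S u M n).trans ?_⟩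
  refine S_le fun k hk => ?_
  rcases Nat.lt_succ_iff_lt_or_eq.1 hk with hk | rfl
  · exact le_S u M hk
  · exact h2.trans (self_le_S u M hn)

/-- A stable lattice exists if and only if the translates of `A` generate one. -/
theorem Stab.exists_S (hF : IsF F) {p g : ℕ} (hp : p.Prime) {A : Subfield 𝕂}
    (hd : (act F A).relfinrank A = p ^ g) {u : 𝕂 ≃+* 𝕂} (h : Stab F A u) :
    ∃ N, 0 < N ∧ act u (S u A N) ≤ S u A N := by
  obtain ⟨M, hM, h2⟩ := h
  have hdM := deg_lat hF (pow_ne_zero g hp.ne_zero) hd hM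
  obtain ⟨⟨c, h0⟩, c', h1⟩ := hM
  have e := deg_pow hF hdM (c + c')
  rw [← pow_mul] at e
  obtain ⟨j, -, hj⟩ := chain_up hp e.dvd (fun j => act (F ^ c) (S u A (j + 1)))
    (fun i j hij => act_mono _ (S_mono u A (by omega)))
    (by
      rw [pow_add, act_mul]
      exact act_mono _ (h1.trans (self_le_S u A (by omega))))
    (act_S_le _ fun n _ => by
      rw [act_comm ((hF.comm _).pow_left c)]
      exact (act_mono _ h0).trans (act_pow_le h2 n))
  exact ⟨j + 1, by omega, (act_S u A _).trans (le_of_act_le _ hj)⟩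

/-- The increasing chain. -/
theorem stab_of_succ (hF : IsF F) {p g : ℕ} (hp : p.Prime) {A : Subfield 𝕂}
    (hd : (act F A).relfinrank A = p ^ g) {u : 𝕂 ≃+* 𝕂} (hu : Lat F A (act u A))
    (h : Stab F A (F * u ^ (g + 1))) : Stab F A u := by
  obtain ⟨M, hM, h2⟩ := h
  have huM := lat_of_lat hF hu hM
  have hdM := deg_lat hF (pow_ne_zero g hp.ne_zero) hd (hM.trans (lat_S hF huM (Nat.succ_pos g)))
  obtain ⟨j, -, hj⟩ := chain_up hp hdM.dvd (fun j => act F (S u M (g + 1 + j)))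
    (fun i j hij => act_mono _ (S_mono u M (by omega))) le_rfl
    (act_S_le _ fun n hn => by
      rcases lt_or_ge n (g + 1) with h | h
      · exact (hF.le _).trans (le_S u M h)
      · obtain ⟨k, rfl⟩ := Nat.exists_eq_add_of_le' h
        rw [pow_add, act_mul, act_comm (hF.comm _), ← act_mul F]
        exact (act_mono _ h2).trans (le_S u M (by omega)))
  exact ⟨S u M (g + 1 + j), hM.trans (lat_S hF huM (by omega)),
    (act_S u M _).trans (le_of_act_le _ hj)⟩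

/-- The decreasing chain. -/
theorem pow_le_of_pow_le (hF : IsF F) {p g : ℕ} (hp : p.Prime) {M : Subfield 𝕂}
    (hd : (act F M).relfinrank M = p ^ g) {u : 𝕂 ≃+* 𝕂} (hu : act u M ≤ M) {n : ℕ}
    (hn : act (u ^ n) M ≤ act F M) : act (u ^ g) M ≤ act F M := by
  obtain ⟨j, hj, h⟩ := chain_down hp hd.dvd (fun k => act (u ^ k) M ⊔ act F M)
    (fun i j hij => sup_le_sup_right (act_pow_anti hu hij) _)
    (sup_le (act_pow_le hu 0) (hF.le M)) le_sup_right
  have h1 : act (u ^ j) M ≤ act (u ^ (j + 1)) M ⊔ act F M := le_sup_left.trans h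
  have h2 : ∀ k, act (u ^ (j + k)) M ≤ act (u ^ (j + k + 1)) M ⊔ act F M := by
    intro k
    have := act_mono (u ^ k) h1
    rw [act_sup, ← act_mul, ← act_mul, ← pow_add, ← pow_add, ← act_comm (hF.comm _),
      add_comm k j, show k + (j + 1) = j + k + 1 by omega] at this
    exact this.trans (sup_le_sup_left (act_mono F (act_pow_le hu k)) _)
  have h3 : ∀ k, act (u ^ j) M ≤ act (u ^ (j + k)) M ⊔ act F M := by
    intro k
    induction k with
    | zero => exact le_sup_left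
    | succ k ih => exact ih.trans (sup_le (h2 k) le_sup_right)
  exact (act_pow_anti hu hj).trans ((h3 n).trans
    (sup_le ((act_pow_anti hu (by omega)).trans hn) le_rfl))

/-- The automorphism of slope `r / s`. -/
def U (F P : 𝕂 ≃+* 𝕂) (r s : ℕ) : 𝕂 ≃+* 𝕂 := F ^ r * P⁻¹ ^ s

theorem U_pow (hF : IsF F) (P : 𝕂 ≃+* 𝕂) (r s k : ℕ) : U F P r s ^ k = U F P (r * k) (s * k) := by
  unfold U
  rw [((hF.comm _).pow_left r).mul_pow, pow_mul, pow_mul]

theorem F_mul_U (P : 𝕂 ≃+* 𝕂) (r s k : ℕ) : F ^ k * U F P r s = U F P (k + r) s := by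
  unfold U
  rw [pow_add, mul_assoc]

theorem lat_U (hF : IsF F) {P : 𝕂 ≃+* 𝕂} {A : Subfield 𝕂} (hP : Lat F A (act P A)) (r s : ℕ) :
    Lat F A (act (U F P r s) A) :=
  lat_mul hF (lat_pow hF (lat_F hF A) r) (lat_pow hF (lat_inv hF hP) s)

theorem stab_mono (hF : IsF F) {P : 𝕂 ≃+* 𝕂} {A : Subfield 𝕂} (hP : Lat F A (act P A))
    {r s r' s' : ℕ} (hs : 0 < s) (h : r * s' ≤ r' * s) (hb : Stab F A (U F P r s)) :
    Stab F A (U F P r' s') := by
  refine Stab.of_pow hF (lat_U hF hP r' s') hs ?_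
  obtain ⟨k, hk⟩ := Nat.exists_eq_add_of_le' h
  rw [U_pow hF, hk, ← F_mul_U, mul_comm s' s, ← U_pow hF]
  exact (hb.pow s').F_mul hF k

theorem pos_of_stab (hF : IsF F) {P : 𝕂 ≃+* 𝕂} {A : Subfield 𝕂} (hP : act P A ≤ act F A)
    (hA : ¬ A ≤ act F A) {r s : ℕ} (hs : 0 < s) (hb : Stab F A (U F P r s)) : 0 < r := by
  rcases Nat.eq_zero_or_pos r with rfl | hr
  swap
  · exact hr
  exfalso
  obtain ⟨M, ⟨⟨c, h0⟩, c', h1⟩, h2⟩ := hb
  have h3 : ∀ k, act (P ^ k) A ≤ act (F ^ k) A := by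
    intro k
    induction k with
    | zero => simp
    | succ k ih =>
      rw [pow_succ, act_mul, pow_succ', act_mul]
      refine (act_mono _ hP).trans ?_
      rw [← act_comm (hF.comm _)]
      exact act_mono F ih
  have h4 : M ≤ act (P ^ (s * (c' + c + 1))) M := by
    have := act_mono (P ^ (s * (c' + c + 1))) (act_pow_le h2 (c' + c + 1))
    rwa [U_pow hF, ← act_mul, U, zero_mul, pow_zero, one_mul, inv_pow, mul_inv_cancel,
      act_one] at this
  apply hA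
  apply le_of_act_le (F ^ (c' + c))
  calc act (F ^ (c' + c)) A ≤ act (F ^ c') M := by rw [pow_add, act_mul]; exact act_mono _ h0
    _ ≤ act (F ^ c') (act (P ^ (s * (c' + c + 1))) M) := act_mono _ h4
    _ ≤ act (P ^ (s * (c' + c + 1))) A := by
        rw [act_comm ((hF.comm _).pow_left c')]; exact act_mono _ h1
    _ ≤ act (F ^ (s * (c' + c + 1))) A := h3 _
    _ ≤ act (F ^ (c' + c + 1)) A := act_pow_anti (hF.le A) (Nat.le_mul_of_pos_left _ hs)
    _ = act (F ^ (c' + c)) (act F A) := by rw [pow_succ, act_mul]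

theorem main (hF : IsF F) {p g b : ℕ} (hp : p.Prime) (hg : 0 < g) {A : Subfield 𝕂}
    (hd : (act F A).relfinrank A = p ^ g) {P : 𝕂 ≃+* 𝕂} (hP : act P A ≤ act F A)
    (hb : act (F ^ b) A ≤ act P A) : ∃ r s : ℕ, 0 < r ∧ 0 < s ∧ Stab F A (U F P r s) ∧
      ∀ M, Lat F A M → act (U F P r s) M ≤ M → ∀ n, ¬ act (U F P r s ^ n) M ≤ act F M := by
  have hPA : Lat F A (act P A) := ⟨⟨b, hb⟩, .of_le (hP.trans (hF.le A))⟩
  have hA : ¬ A ≤ act F A := fun h => by
    rw [Subfield.relfinrank_eq_one_iff.2 h] at hd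
    exact (Nat.one_lt_pow hg.ne' hp.one_lt).ne hd
  let X : Set ℝ := {x | ∃ r s : ℕ, 0 < s ∧ Stab F A (U F P r s) ∧ x = (r : ℝ) / s}
  have hne : X.Nonempty := by
    refine ⟨_, b, 1, one_pos, ⟨A, Lat.refl A, ?_⟩, rfl⟩
    have := act_mono P⁻¹ hb
    rw [← act_mul P⁻¹ P, inv_mul_cancel, act_one, ← act_comm ((hF.comm _).pow_left b),
      ← act_mul] at this
    rwa [U, pow_one]
  have h0 : ∀ x ∈ X, 0 ≤ x := by
    rintro _ ⟨r, s, -, -, rfl⟩
    positivity
  have hbd : BddBelow X := ⟨0, h0⟩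
  have hl0 : 0 ≤ sInf X := le_csInf hne h0
  have hup : ∀ r s : ℕ, 0 < s → sInf X * s < r → Stab F A (U F P r s) := by
    intro r s hs h
    have hs' : (0 : ℝ) < s := Nat.cast_pos.2 hs
    obtain ⟨_, ⟨r', s', hs0, hst, rfl⟩, hlt⟩ := exists_lt_of_csInf_lt hne ((lt_div_iff₀ hs').2 h)
    refine stab_mono hF hPA hs0 ?_ hst
    rw [div_lt_div_iff₀ (Nat.cast_pos.2 hs0) hs'] at hlt
    exact_mod_cast hlt.le
  have hlo : ∀ r s : ℕ, 0 < s → Stab F A (U F P r s) → sInf X * s ≤ r := fun r s hs h =>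
    (le_div_iff₀ (Nat.cast_pos.2 hs)).1 (csInf_le hbd ⟨r, s, hs, h, rfl⟩)
  obtain ⟨s, hs, -, hr⟩ := Real.exists_nat_abs_mul_sub_round_le (sInf X) (Nat.succ_pos g)
  have hr0 : 0 ≤ round ((s : ℝ) * sInf X) := by
    rw [round_eq]
    exact Int.floor_nonneg.2 (by positivity)
  obtain ⟨r, hrr⟩ := Int.eq_ofNat_of_zero_le hr0
  rw [hrr, Int.cast_natCast, abs_le] at hr
  have hg' : (0 : ℝ) < g := Nat.cast_pos.2 hg
  have hq : (1 : ℝ) / ((g.succ : ℕ) + 1) * (g + 1) < 1 := by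
    rw [div_mul_eq_mul_div, div_lt_one (by positivity)]
    push_cast
    linarith
  have hq0 : (0 : ℝ) < 1 / ((g.succ : ℕ) + 1) := by positivity
  generalize (1 : ℝ) / ((g.succ : ℕ) + 1) = q at hr hq hq0
  have hst : Stab F A (U F P r s) := by
    refine stab_of_succ hF hp hd (lat_U hF hPA r s) ?_
    have e := F_mul_U (F := F) P (r * (g + 1)) (s * (g + 1)) 1
    rw [pow_one] at e
    rw [U_pow hF, e]
    refine hup _ _ (by positivity) ?_
    push_cast
    nlinarith [mul_le_mul_of_nonneg_right hr.2 (show (0 : ℝ) ≤ g + 1 by positivity)]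
  have hrpos := pos_of_stab hF hP hA hs hst
  refine ⟨r, s, hrpos, hs, hst, fun M hM hu n hn => ?_⟩
  have h1 := pow_le_of_pow_le hF hp (deg_lat hF (pow_ne_zero g hp.ne_zero) hd hM) hu hn
  obtain ⟨k, hk⟩ : ∃ k, r * g = 1 + k := Nat.exists_eq_add_of_le (Nat.mul_pos hrpos hg)
  rw [U_pow hF, hk, ← F_mul_U, pow_one, act_mul] at h1
  have h2 := hlo k (s * g) (by positivity) ⟨M, hM, le_of_act_le F h1⟩
  have hk' : (r : ℝ) * g = 1 + k := by exact_mod_cast hk
  push_cast at h2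
  nlinarith [mul_le_mul_of_nonneg_right hr.1 hg'.le]

theorem frob_pow (p : ℕ) [Fact p.Prime] [CharP 𝕂 p] [PerfectRing 𝕂 p] (n : ℕ) (z : 𝕂) :
    (frobeniusEquiv 𝕂 p ^ n) z = z ^ p ^ n := by
  rw [← iterateFrobeniusEquiv_eq_pow]
  rfl

theorem isF_frob (p : ℕ) [Fact p.Prime] [CharP 𝕂 p] [PerfectRing 𝕂 p] :
    IsF (frobeniusEquiv 𝕂 p) where
  comm σ := RingEquiv.ext fun z => (map_pow σ z p).symm
  le M := fun y hy => by
    obtain ⟨x, hx, rfl⟩ := mem_act.1 hy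
    exact pow_mem hx p

end DM4

open DM4 in
theorem zink {𝕂 : Type u} [Field 𝕂] (p : ℕ) [Fact p.Prime] [CharP 𝕂 p] [PerfectRing 𝕂 p]
    (P : 𝕂 ≃+* 𝕂) (M₀ : Subfield 𝕂) (g b : ℕ) (hg : 0 < g)
    (hdeg : (M₀.map (frobenius 𝕂 p)).relfinrank M₀ = p ^ g)
    (hP : ∀ z ∈ M₀, ∃ y ∈ M₀, P z = y ^ p) (hb : ∀ z ∈ M₀, ∃ y ∈ M₀, z ^ p ^ b = P y) :
    ∃ (r s N : ℕ) (u : 𝕂 ≃+* 𝕂), 0 < r ∧ 0 < s ∧ 0 < N ∧ (∀ z, (P ^ s) (u z) = z ^ p ^ r) ∧
      ∀ M' : Subfield 𝕂, M' = ⨆ n : Fin N, M₀.map ((u ^ (n : ℕ) : 𝕂 ≃+* 𝕂) : 𝕂 →+* 𝕂) →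
        (∀ z ∈ M', u z ∈ M') ∧ ∀ n : ℕ, ¬ ∀ z ∈ M', ∃ y ∈ M', (u ^ n) z = y ^ p := by
  have hp : p.Prime := Fact.out
  have hF := isF_frob (𝕂 := 𝕂) p
  have hd : (act (frobeniusEquiv 𝕂 p) M₀).relfinrank M₀ = p ^ g := hdeg
  have hP' : act P M₀ ≤ act (frobeniusEquiv 𝕂 p) M₀ := fun y hy => by
    obtain ⟨x, hx, rfl⟩ := mem_act.1 hy
    obtain ⟨w, hw, e⟩ := hP x hx
    exact mem_act.2 ⟨w, hw, e.symm⟩
  have hb' : act (frobeniusEquiv 𝕂 p ^ b) M₀ ≤ act P M₀ := fun y hy => by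
    obtain ⟨x, hx, rfl⟩ := mem_act.1 hy
    obtain ⟨w, hw, e⟩ := hb x hx
    exact mem_act.2 ⟨w, hw, by rw [frob_pow, e]⟩
  obtain ⟨r, s, hr, hs, hst, hno⟩ := main hF hp hg hd hP' hb'
  obtain ⟨N, hN, hS⟩ := hst.exists_S hF hp hd
  have hPA : Lat (frobeniusEquiv 𝕂 p) M₀ (act P M₀) := ⟨⟨b, hb'⟩, .of_le (hP'.trans (hF.le M₀))⟩
  refine ⟨r, s, N, U (frobeniusEquiv 𝕂 p) P r s, hr, hs, hN, fun z => ?_, ?_⟩
  · rw [← RingAut.mul_apply, U, ((hF.comm _).pow_left r).eq, ← mul_assoc, inv_pow,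
      mul_inv_cancel, one_mul, frob_pow]
  · rintro M' rfl
    refine ⟨fun z hz => hS (mem_act.2 ⟨z, hz, rfl⟩), fun n hn => ?_⟩
    refine hno _ (lat_S hF (lat_U hF hPA r s) hN) hS n fun y hy => ?_
    obtain ⟨x, hx, rfl⟩ := mem_act.1 hy
    obtain ⟨w, hw, e⟩ := hn x hx
    exact mem_act.2 ⟨w, hw, e.symm⟩

end MLF
end

-- merged part: Pool.Agent.Work.MP_29d410_ag.DM5
section
/-!
# Realising the first slope

Plan.  `𝒜 = K⟦Z⟧ ⊆ M₀ = Frac 𝒜 ⊆ 𝕂` a perfect closure (for instance `PerfectClosure`, or the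
perfect closure inside `AlgebraicClosure`).  `P = ev C [p]` is injective (`mul_inj`), extends to
`𝕂` (`PerfectRing.lift`) and is bijective there (`frob_eq`).  Apply `zink` (`relfinrank_frob`,
`FGL.mul_p`).  With `c = b s N`, let `f n = Ξ` from `frob_eq` for `(s n, c + r n)`: `f n i` is
`φ ^ c u ^ n (Z i)`, and `f : G → ∏ n < N, G^(p ^ (c + r n))` (`FGL.pi_aux`).  `IsHom.image` gives
`w : G → G'` with `𝒜' = ` image of `ev C w` = image of `ev C f`; `f 0 = Z ^ p ^ c`;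
`exists_pow_decomp` shows that `𝒜'` is generated by the `f n i` over `φ ^ c 𝒜`, so
`Frac 𝒜' = φ ^ c M'`.  `card_eq` gives the number of variables.  `u (w j)` lies in `Frac 𝒜'` and
has a `p`-power in `𝒜'`, so lies in `𝒜'` (`dvd_of_pow_dvd`): `u (w j) = ψ j (w)`.  Then
`ψ ∘ [p ^ s] = F ^ r` on `G'`.  The semilinear endomorphism `Ψ = ev (C ∘ σ ^ r) ψ` corresponds to
`u`.  If `Ψ ^ n (W j) ∈ 𝔪 ^ 2` for all `j`, then (`Ψ ^ n W` is a homomorphism
`G' → G'^(p ^ (r n))`; `IsHom.pderiv_eq_zero`, `exists_expand`) `u ^ n 𝒜' ⊆ φ 𝒜'`, contradicting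
`zink`.  Finally `[p ^ c] = ξ ∘ w` since `P ^ c 𝒜 ⊆ φ ^ c 𝒜 ⊆ 𝒜'`, `IsHom.of_cmp`.
-/

open MvPowerSeries

namespace MLF

universe u

variable {K : Type u} [Field K] (p : ℕ) [Fact p.Prime] [CharP K p] [PerfectField K]
  {τ : Type} [Finite τ]

theorem FGL.FH.step {G : FGL K τ} (hG : G.FH p) [Nonempty τ] :
    ∃ (ρ : Type) (_ : Finite ρ) (G' : FGL K ρ) (w : ρ → MvPowerSeries τ K)
      (ξ : τ → MvPowerSeries ρ K) (c r s : ℕ) (ψ : ρ → MvPowerSeries ρ K),
      Nat.card ρ = Nat.card τ ∧ IsHom G G' w ∧ IsHom G' G ξ ∧ cmp ξ w = G.mul (p ^ c) ∧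
      cmp w ξ = G'.mul (p ^ c) ∧ G'.FH p ∧ 0 < r ∧ 0 < s ∧
      IsHom G' (G'.map (iterateFrobenius K p r)) ψ ∧
      cmp ψ (G'.mul (p ^ s)) = (fun i => X i ^ p ^ r) ∧
      ∀ n : ℕ, ¬ ∀ j, (ev (C.comp (iterateFrobenius K p r)) ψ :
        MvPowerSeries ρ K →+* MvPowerSeries ρ K)^[n] (X j) ∈ mX ρ K ^ 2 := by
  have hp : p.Prime := Fact.out
  have : CharP (MvPowerSeries τ K) p :=
    charP_of_injective_ringHom (f := (C : K →+* MvPowerSeries τ K)) C_injective p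
  have : IsDomain (MvPowerSeries τ K) := NoZeroDivisors.to_isDomain _
  obtain ⟨b, hb⟩ := hG.frob_eq p
  have hinj : Function.Injective (ev C (G.mul p) : MvPowerSeries τ K →+* _) := by
    have := hG.mul_inj p 1
    rwa [pow_one] at this
  have hb1 : ∀ a : MvPowerSeries τ K, ∃ y, a ^ p ^ b = ev C (G.mul p) y := by
    obtain ⟨Ξ, h1, h2⟩ := hb 1 b (by omega)
    intro a
    have := DM5_pow_eq p h1.cc h2 a
    rw [pow_one] at this
    exact ⟨_, this⟩
  obtain ⟨𝕂, _, _, _, ι, P, hι, hP, hdeg⟩ := DM5_setup p _ hinj hb1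
    (fun M _ _ _ _ => relfinrank_frob (K := K) (τ := τ) p M)
  have hPn : ∀ n a, (P ^ n) (ι a) = ι (ev C (G.mul (p ^ n)) a) := by
    intro n a
    induction n with
    | zero => rw [pow_zero, pow_zero, DM5_mul_one, DM5_ev_X]; rfl
    | succ n ih => rw [pow_succ', RingAut.mul_apply, ih, hP, pow_succ, DM5_ev_mul]
  have hι0 : ∀ a, ι a ∈ Subfield.closure (Set.range ι) := fun a => Subfield.subset_closure ⟨a, rfl⟩
  obtain ⟨r, s, N, u, hr, hs, hN, hu, hz⟩ := zink p P _ _ b Nat.card_pos hdeg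
    (fun z hz => by
      obtain ⟨a, a', rfl⟩ := DM5_mem_closure ι hz
      obtain ⟨y, hy⟩ := DM5_mul_pow p G 1 a
      obtain ⟨y', hy'⟩ := DM5_mul_pow p G 1 a'
      rw [pow_one] at hy hy'
      exact ⟨ι y / ι y', div_mem (hι0 _) (hι0 _), by
        rw [map_div₀, hP, hP, hy, hy', map_pow, map_pow, div_pow]⟩)
    (fun z hz => by
      obtain ⟨a, a', rfl⟩ := DM5_mem_closure ι hz
      obtain ⟨y, hy⟩ := hb1 a
      obtain ⟨y', hy'⟩ := hb1 a'
      exact ⟨ι y / ι y', div_mem (hι0 _) (hι0 _), by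
        rw [map_div₀, hP, hP, ← hy, ← hy', map_pow, map_pow, div_pow]⟩)
  obtain ⟨M', hM'⟩ : ∃ M' : Subfield 𝕂, M' = ⨆ n : Fin N,
    (Subfield.closure (Set.range ι)).map ((u ^ (n : ℕ) : 𝕂 ≃+* 𝕂) : 𝕂 →+* 𝕂) := ⟨_, rfl⟩
  obtain ⟨hz1, hz2⟩ := hz M' hM'
  have hun := DM5_pow_pow hu
  have key : ∀ (n c : ℕ) (Ξ : τ → MvPowerSeries τ K), (∀ i, constantCoeff (Ξ i) = 0) →
      (cmp Ξ (G.mul (p ^ (s * n))) = fun i => X i ^ p ^ (c + r * n)) → ∀ a,
      (u ^ n) (ι a) ^ p ^ c = ι (ev C Ξ (MvPowerSeries.map (iterateFrobenius K p (c + r * n)) a)) := by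
    intro n c Ξ h1 h2 a
    refine (P ^ (s * n)).injective ?_
    rw [hPn, ← DM5_pow_eq p h1 h2, map_pow, hun, map_pow, ← pow_mul, ← pow_add, add_comm]
  obtain ⟨c, hc⟩ : ∃ c, c = b * (s * N) := ⟨_, rfl⟩
  choose f hf1 hf2 using fun n : Fin N => hb (s * n) (c + r * n) (by
    rw [hc]
    exact (Nat.mul_le_mul_left _ (Nat.mul_le_mul_left _ n.2.le)).trans (Nat.le_add_right _ _))
  obtain ⟨H, hH⟩ := DM5_pi hf1
  obtain ⟨ρ, G', R, hw, hR, hRw, hwi⟩ := hH.image p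
  obtain ⟨w, hwd⟩ : ∃ w : ρ → MvPowerSeries τ K, w = fun j : ρ => f j.1.1 j.1.2 := ⟨_, rfl⟩
  rw [← hwd] at hw hRw hwi
  obtain ⟨κ, hκ⟩ : ∃ κ : MvPowerSeries ρ K →+* 𝕂, ∀ h, κ h = ι (ev C w h) :=
    ⟨ι.comp (ev C w), fun _ => rfl⟩
  have hκi : Function.Injective κ := fun x y e => hwi (hι (by rwa [← hκ, ← hκ]))
  have hκ0 : ∀ a, κ a ∈ Subfield.closure (Set.range κ) := fun a => Subfield.subset_closure ⟨a, rfl⟩
  have hfX : ∀ n i, ι (f n i) = (u ^ (n : ℕ)) (ι (X i)) ^ p ^ c := fun n i => by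
    rw [key _ _ _ (hf1 n).cc (hf2 n), map_X, (TN.of_cc (hf1 n).cc).ev_X]
  have hA : ∀ (n : Fin N) a, ∃ e, (u ^ (n : ℕ)) (ι a) ^ p ^ c = κ e := by
    intro n a
    refine ⟨ev C (fun i => R (n, i)) (MvPowerSeries.map (iterateFrobenius K p (c + r * n)) a), ?_⟩
    rw [key _ _ _ (hf1 n).cc (hf2 n), hκ, ← DM5_ev_cmp (fun i => hR.cc (n, i)) hw.cc]
    congr 3
    exact funext fun i => (congrFun hRw (n, i)).symm
  have hA0 : ∀ a, ∃ e, ι a ^ p ^ c = κ e := hA ⟨0, hN⟩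
  have hM0 : ∀ (n : Fin N) a, (u ^ (n : ℕ)) (ι a) ∈ M' := fun n a => by
    rw [hM']
    exact le_iSup (fun n : Fin N => (Subfield.closure (Set.range ι)).map
      ((u ^ (n : ℕ) : 𝕂 ≃+* 𝕂) : 𝕂 →+* 𝕂)) n ⟨ι a, hι0 a, rfl⟩
  have hML : ∀ z ∈ M', z ^ p ^ c ∈ Subfield.closure (Set.range κ) := by
    have : M' ≤ (Subfield.closure (Set.range κ)).comap (iterateFrobenius 𝕂 p c) := by
      rw [hM']
      refine iSup_le fun n => Subfield.map_le_iff_le_comap.2 (Subfield.closure_le.2 ?_)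
      rintro _ ⟨a, rfl⟩
      obtain ⟨e, he⟩ := hA n a
      change (u ^ (n : ℕ)) (ι a) ^ p ^ c ∈ Subfield.closure (Set.range κ)
      rw [he]
      exact hκ0 e
    exact this
  have hLM : ∀ z ∈ Subfield.closure (Set.range κ), ∃ y ∈ M', y ^ p ^ c = z :=
    DM5_le p κ (M'.map (iterateFrobenius 𝕂 p c)) c
      (fun j => ⟨_, hM0 j.1.1 (X j.1.2), by
        rw [hκ, (TN.of_cc hw.cc).ev_X, hwd]
        exact (hfX _ _).symm⟩)
      (fun g => ⟨_, hM0 ⟨0, hN⟩ (ev C w g), by rw [hκ]; rfl⟩)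
  have hU : ∀ h, ∃ y, κ y = u (κ h) := by
    intro h
    obtain ⟨y, hy, e⟩ := hLM _ (hκ0 h)
    have h1 : u (κ h) ∈ Subfield.closure (Set.range κ) := by
      rw [← e, map_pow]
      exact hML _ (hz1 y hy)
    obtain ⟨Ξ, h2, h3⟩ := hb (s * 1) (b * s + r * 1) (by rw [mul_one]; omega)
    have h4 := key 1 _ Ξ h2.cc h3 (ev C w h)
    obtain ⟨e', he'⟩ := hA0 (ev C Ξ (MvPowerSeries.map (iterateFrobenius K p (b * s + r * 1)) (ev C w h)))
    rw [← h4, pow_one, ← hκ, ← pow_mul, ← pow_add] at he'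
    exact DM5_norm p hκi h1 he'
  choose U₀ hU using hU
  obtain ⟨U, hU⟩ : ∃ U : MvPowerSeries ρ K →+* MvPowerSeries ρ K, ∀ h, κ (U h) = u (κ h) :=
    ⟨{ toFun := U₀
       map_one' := hκi (by rw [hU, map_one, map_one])
       map_mul' := fun x y => hκi (by simp only [_root_.map_mul, hU])
       map_zero' := hκi (by rw [hU, map_zero, map_zero])
       map_add' := fun x y => hκi (by simp only [_root_.map_add, hU]) }, hU⟩
  have hUn : ∀ n h, κ (U^[n] h) = (u ^ n) (κ h) := by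
    intro n h
    induction n with
    | zero => rfl
    | succ n ih => rw [Function.iterate_succ_apply', hU, ih, pow_succ', RingAut.mul_apply]
  have hPκ : ∀ n h, (P ^ n) (κ h) = κ (ev C (G'.mul (p ^ n)) h) := by
    intro n h
    rw [hκ, hκ, hPn, ← DM5_ev_cmp hw.cc (G.mul0 _), hw.cmp_mul, DM5_ev_cmp (G'.mul0 _) hw.cc]
  have hψ : ∀ n, cmp (fun j => U^[n] (X j)) (G'.mul (p ^ (s * n))) =
      fun j => X j ^ p ^ (r * n) := fun n => funext fun j => hκi (by
    rw [map_pow, ← hun, ← hUn, hPκ]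
    rfl)
  have hψ1 : cmp (fun j => U (X j)) (G'.mul (p ^ s)) = fun j => X j ^ p ^ r := by
    simpa using hψ 1
  have hcc : ∀ j, constantCoeff (U (X j)) = 0 := fun j => by
    rw [← DM5_cc (G'.mul0 (p ^ s))]
    exact (congrArg constantCoeff (congrFun hψ1 j)).trans (by simp [hp.ne_zero])
  have hG' : G'.FH p := by
    refine ⟨p ^ r, fun j => ?_⟩
    rw [← congrFun hψ1 j]
    refine (TN.of_cc (G'.mul0 _)).ev_mem C (hcc j) fun i => ?_
    obtain ⟨s, rfl⟩ : ∃ t, s = t + 1 := ⟨s - 1, by omega⟩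
    rw [pow_succ, G'.mul_mul]
    exact (TN.of_cc (G'.mul0 _)).ev_mem C (G'.mul0 _ i) fun i => Ideal.subset_span ⟨i, rfl⟩
  have hhom : ∀ n, IsHom G' (G'.map (iterateFrobenius K p (r * n))) fun j => U^[n] (X j) :=
    fun n => IsHom.of_cmp (IsHom.mul G' _) (hG'.mul_inj p (s * n))
      (by rw [hψ]; exact IsHom.frob G' p _)
  have hUe : U = ev (C.comp (iterateFrobenius K p r)) fun j => U (X j) := by
    refine (TN.of_cc hcc).eq_ev ⟨fun a => hκi ((P ^ s).injective ?_), fun _ => rfl⟩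
    rw [hU, hu, hPκ, RingHom.comp_apply, (TN.of_cc (G'.mul0 _)).ev_C, iterateFrobenius_def,
      map_pow, map_pow]
  have hξ : ∀ i, ∃ e, ev C w e = G.mul (p ^ c) i := by
    intro i
    obtain ⟨y, hy⟩ := DM5_mul_pow p G c (X i)
    obtain ⟨e, he⟩ := hA0 y
    rw [(TN.of_cc (G.mul0 _)).ev_X] at hy
    exact ⟨e, hι (by rw [← hκ, ← he, hy, map_pow])⟩
  choose ξ hξ using hξ
  have hξw : cmp ξ w = G.mul (p ^ c) := funext hξ
  have hξh : IsHom G' G ξ := IsHom.of_cmp hw hwi (by rw [hξw]; exact IsHom.mul G _)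
  refine ⟨ρ, inferInstance, G', w, ξ, c, r, s, fun j => U (X j), ?_, hw, hξh, hξw, ?_, hG', hr, hs,
    by simpa using hhom 1, hψ1, fun n hn => hz2 n fun z hz => ?_⟩
  · refine card_eq p hwi (finite_of_primary hw.cc (N := p ^ c) fun i => ?_)
    obtain ⟨e, he⟩ := hA0 (X i)
    have h1 : X i ^ p ^ c = ev C w e := hι (by rw [map_pow, he, hκ])
    rw [h1]
    refine (TN.of_cc hw.cc).ev_mem C ?_ fun j => Ideal.subset_span ⟨j, rfl⟩
    rw [← DM5_cc hw.cc, ← h1]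
    simp [hp.ne_zero]
  · refine funext fun j => hwi ?_
    have h1 : cmp (cmp w ξ) w = cmp (G'.mul (p ^ c)) w := by
      rw [cmp_assoc hξh.cc hw.cc, hξw, hw.cmp_mul]
    exact congrFun h1 j
  · rw [← hUe] at hn
    have h1 : Subfield.closure (Set.range κ) ≤ ((Subfield.closure (Set.range κ)).map
        (frobenius 𝕂 p)).comap ((u ^ n : 𝕂 ≃+* 𝕂) : 𝕂 →+* 𝕂) := by
      refine (Subfield.map_le_iff_le_comap.1 ?_)
      rw [RingHom.map_field_closure, ← RingHom.coe_coe, ← Set.range_comp, ← RingHom.coe_comp]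
      refine DM5_le p _ _ 1 (fun j => ?_) fun g => ⟨_, hκ0 (U^[n] g), by
        rw [hUn, pow_one]; rfl⟩
      obtain ⟨g, hg⟩ := exists_expand p (CharP.cast_eq_zero K p)
        ((hhom n).pderiv_eq_zero hn j)
      obtain ⟨y, hy⟩ := DM5_root p 1 g
      rw [pow_one, ← hg] at hy
      exact ⟨_, hκ0 y, by rw [frobenius_def, ← map_pow, ← hy, hUn]; rfl⟩
    obtain ⟨l, hl, e⟩ := h1 (hML z hz)
    obtain ⟨y, hy, rfl⟩ := hLM l hl
    refine ⟨y, hy, (iterateFrobeniusEquiv 𝕂 p c).injective ?_⟩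
    rw [iterateFrobeniusEquiv_def, iterateFrobeniusEquiv_def, ← map_pow, ← pow_mul, mul_comm,
      pow_mul]
    exact e.symm

end MLF
end

-- merged part: Pool.Agent.Work.MP_29d410_ag.DM6b
section
/-!
# Theorem of Lang and Fitting decomposition for semilinear maps

Plan.  `lang_surj`: `f - 1` is onto.  On the nilpotent Fitting part it is bijective; on the
bijective part use a basis of fixed vectors (for `v ≠ 0` with a minimal relation
`∑ a i • f ^ i v = 0`, solving `f x = x` in the span of the `f ^ i v` amounts to a separable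
additive polynomial equation; or: the fixed points of `x ↦ A x^(q)`, `A` invertible).  Any
proof is fine; induction on the dimension through an `f`-stable line and the quotient is the
shortest: a nonzero fixed vector exists, pass to the quotient, `x ^ q - x = c` is solvable.
`fitting`: decompose `V = 𝔪 / 𝔪 ^ 2`; lift the fixed basis to fixed series `u i` by successive
approximation (`lang_surj` on `𝔪 ^ n / 𝔪 ^ (n+1)`), lift a basis of the nilpotent part to series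
`w j` whose class in every `𝔪 / 𝔪 ^ n` lies in the nilpotent Fitting part (Fitting decomposition
is compatible with the surjections `𝔪 / 𝔪 ^ (n+1) → 𝔪 / 𝔪 ^ n`).  Bijectivity: `ev_surj`, and
injectivity because a surjective endomorphism of a Noetherian ring is injective (reindex).
-/

open MvPowerSeries

namespace MLF

universe u

theorem DM6b_hopf {A : Type u} [CommRing A] [IsNoetherianRing A] (θ : A →+* A)
    (h : Function.Surjective θ) : Function.Injective θ := by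
  obtain ⟨n, hn⟩ := monotone_stabilizes_iff_noetherian.2 (inferInstance : IsNoetherian A A)
    ⟨fun n => RingHom.ker (θ ^ n), monotone_nat_of_le_succ fun n x hx => by
      rw [RingHom.mem_ker, RingHom.coe_pow] at hx ⊢
      rw [Function.iterate_succ_apply', hx, map_zero]⟩
  rw [injective_iff_map_eq_zero]
  intro x hx
  obtain ⟨y, rfl⟩ := h.iterate n x
  have h1 : y ∈ RingHom.ker (θ ^ (n + 1)) := by
    rw [RingHom.mem_ker, RingHom.coe_pow, Function.iterate_succ_apply', hx]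
  have h2 : RingHom.ker (θ ^ n) = RingHom.ker (θ ^ (n + 1)) := hn (n + 1) (Nat.le_succ n)
  rwa [← h2, RingHom.mem_ker, RingHom.coe_pow] at h1

theorem DM6b_lim {A : Type u} [CommRing A] (I : Ideal A) [IsAdicComplete I A] (R : ℕ → A → Prop)
    (hR : ∀ n x y, R n x → y - x ∈ I ^ n → R n y)
    (hs : ∀ n x, R n x → ∃ y, y - x ∈ I ^ n ∧ R (n + 1) y) {a : ℕ} {x : A} (hx : R a x) :
    ∃ y, y - x ∈ I ^ a ∧ ∀ k, R (a + k) y := by
  choose! g hg hg' using hs
  let s : ℕ → A := fun k => Nat.rec x (fun k z => g (a + k) z) k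
  have s1 : ∀ k, s (k + 1) = g (a + k) (s k) := fun k => rfl
  have h1 : ∀ k, R (a + k) (s k) := fun k => by
    induction k with
    | zero => exact hx
    | succ k ih => exact hg' _ _ ih
  have h2 : ∀ m n, m ≤ n → s n - s m ∈ I ^ (a + m) := fun m n h => by
    induction n, h using Nat.le_induction with
    | base => simp
    | succ n h ih =>
      have := Ideal.pow_le_pow_right (I := I) (Nat.add_le_add_left h a) (hg _ _ (h1 n))
      rw [← s1] at this
      simpa using add_mem this ih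
  obtain ⟨L, hL⟩ := IsPrecomplete.prec (inferInstance : IsPrecomplete I A) (f := s)
    fun {m n} h => by
      rw [SModEq.sub_mem, smul_eq_mul, Ideal.mul_top, ← neg_mem_iff, neg_sub]
      exact Ideal.pow_le_pow_right (Nat.le_add_left m a) (h2 m n h)
  have h3 : ∀ k, L - s k ∈ I ^ (a + k) := fun k => by
    have := hL (a + k)
    rw [SModEq.sub_mem, smul_eq_mul, Ideal.mul_top] at this
    simpa using sub_mem (h2 k (a + k) (Nat.le_add_left k a)) this
  exact ⟨L, h3 0, fun k => hR _ _ _ (h1 k) (h3 k)⟩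

theorem DM6b_smul {K V : Type u} [Field K] [AddCommGroup V] [Module K V] {q : ℕ} {f : V →+ V}
    (hf : ∀ (c : K) v, f (c • v) = c ^ q • f v) (k : ℕ) (c : K) (v : V) :
    f^[k] (c • v) = c ^ q ^ k • f^[k] v := by
  induction k with
  | zero => simp
  | succ k ih => rw [Function.iterate_succ_apply', Function.iterate_succ_apply', ih, hf, ← pow_mul,
      ← pow_succ]

theorem DM6b_pow {K : Type u} [Field K] {ρ : Type} [Finite ρ]
    {Ψ : MvPowerSeries ρ K →+* MvPowerSeries ρ K} (hX : ∀ j, constantCoeff (Ψ (X j)) = 0)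
    (k : ℕ) {n : ℕ} {x : MvPowerSeries ρ K} (hx : x ∈ mX ρ K ^ n) : Ψ^[k] x ∈ mX ρ K ^ n := by
  have h : (mX ρ K).map Ψ ≤ mX ρ K := by
    rw [Ideal.map_span, Ideal.span_le]
    rintro _ ⟨_, ⟨j, rfl⟩, rfl⟩
    exact mem_mX.2 (hX j)
  induction k with
  | zero => exact hx
  | succ k ih =>
    rw [Function.iterate_succ_apply']
    refine Ideal.pow_right_mono h n ?_
    rw [← Ideal.map_pow]
    exact Ideal.mem_map_of_mem _ ih

theorem DM6b_split {K : Type u} [Field K] {ρ D : Type} [Finite ρ] {n q : ℕ} {e : D → ρ →₀ ℕ}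
    (he : Function.Injective e) (hr : Set.range e = {d | d.degree = n})
    {Ψ : MvPowerSeries ρ K →+* MvPowerSeries ρ K} (hC : ∀ c, Ψ (C c) = C (c ^ q))
    (hX : ∀ j, constantCoeff (Ψ (X j)) = 0) :
    ∃ (π : MvPowerSeries ρ K →ₗ[K] D → K) (f : (D → K) →+ D → K),
      (∀ x ∈ mX ρ K ^ n, π x = 0 ↔ x ∈ mX ρ K ^ (n + 1)) ∧ (∀ v, ∃ x ∈ mX ρ K ^ n, π x = v) ∧
      (∀ (c : K) v, f (c • v) = c ^ q • f v) ∧
      ∀ k, ∀ x ∈ mX ρ K ^ n, f^[k] (π x) = π (Ψ^[k] x) := by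
  let π : MvPowerSeries ρ K →ₗ[K] D → K := LinearMap.pi fun j => coeff (e j)
  have h1 : ∀ x ∈ mX ρ K ^ n, π x = 0 ↔ x ∈ mX ρ K ^ (n + 1) := fun x hx => by
    rw [mem_mX_pow] at hx ⊢
    refine ⟨fun h d hd => ?_, fun h => funext fun j => h _ ?_⟩
    · rcases (Nat.lt_succ_iff.1 hd).lt_or_eq with hd | hd
      · exact hx d hd
      · obtain ⟨j, rfl⟩ : d ∈ Set.range e := hr ▸ hd
        exact congrFun h j
    · have : e j ∈ {d : ρ →₀ ℕ | d.degree = n} := hr ▸ Set.mem_range_self j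
      exact Nat.lt_succ_of_le this.le
  have h2 : ∀ v, ∃ x ∈ mX ρ K ^ n, π x = v := fun v => by
    refine ⟨Function.extend e v 0, mem_mX_pow.2 fun d hd => ?_,
      funext fun j => he.extend_apply v 0 j⟩
    refine Function.extend_apply' v (0 : (ρ →₀ ℕ) → K) d fun h => ?_
    have : d ∈ {d : ρ →₀ ℕ | d.degree = n} := hr ▸ h
    exact hd.ne this
  choose s hs hs' using id h2
  have h3 : ∀ x ∈ mX ρ K ^ n, π (Ψ (s (π x))) = π (Ψ x) := fun x hx => by
    have h4 := sub_mem (hs (π x)) hx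
    have h5 := (h1 _ h4).1 (by rw [map_sub, hs', sub_self])
    have h6 := (h1 _ (DM6b_pow hX 1 h4)).2 (DM6b_pow hX 1 h5)
    rwa [Function.iterate_one, map_sub, map_sub, sub_eq_zero] at h6
  refine ⟨π, AddMonoidHom.mk' (fun v => π (Ψ (s v))) fun v w => ?_, h1, h2, fun c v => ?_,
    fun k x hx => ?_⟩
  · have := h3 _ (add_mem (hs v) (hs w))
    rwa [map_add, hs', hs', map_add, map_add] at this
  · have := h3 (c • s v) (by rw [smul_eq_C_mul]; exact Ideal.mul_mem_left _ _ (hs v))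
    rw [map_smul, hs', smul_eq_C_mul, map_mul, hC, ← smul_eq_C_mul, map_smul] at this
    exact this
  · induction k with
    | zero => rfl
    | succ k ih =>
      rw [Function.iterate_succ_apply', Function.iterate_succ_apply', ih]
      exact h3 _ (DM6b_pow hX k hx)

variable {K : Type u} [Field K] [IsAlgClosed K] (p : ℕ) [Fact p.Prime] [CharP K p]

theorem DM6b_fit {V : Type u} [AddCommGroup V] [Module K V] [FiniteDimensional K V] {r : ℕ}
    (hr : 0 < r) (f : V →+ V) (hf : ∀ (c : K) v, f (c • v) = c ^ p ^ r • f v) (k : ℕ) (y : V) :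
    ∃ x N, f^[N] (y - f^[k] x) = 0 := by
  obtain ⟨m, n, b, h1, N, h2⟩ := lang_fitting p hr f hf
  induction b.mem_span y using Submodule.span_induction with
  | mem y hy =>
    obtain ⟨i | j, rfl⟩ := hy
    · exact ⟨b (.inl i), 0, by simp [Function.iterate_fixed (h1 i)]⟩
    · exact ⟨0, N, by simp [h2]⟩
  | zero => exact ⟨0, 0, by simp⟩
  | add y z _ _ hy hz =>
    obtain ⟨x, M, hy⟩ := hy
    obtain ⟨x', M', hz⟩ := hz
    refine ⟨x + x', M + M', ?_⟩
    rw [iterate_map_add, add_sub_add_comm, iterate_map_add, Function.iterate_add_apply f M M' (z - _),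
      hz, add_comm M, Function.iterate_add_apply, hy]
    simp
  | smul c y _ hy =>
    obtain ⟨x, M, hy⟩ := hy
    obtain ⟨d, rfl⟩ := IsAlgClosed.exists_pow_nat_eq c (n := (p ^ r) ^ k)
      (by have := (Fact.out : p.Prime).pos; positivity)
    exact ⟨d • x, M, by rw [DM6b_smul hf, ← smul_sub, DM6b_smul hf, hy, smul_zero]⟩

theorem fitting {ρ : Type} [Finite ρ] {r : ℕ} (hr : 0 < r)
    (Ψ : MvPowerSeries ρ K →+* MvPowerSeries ρ K) (hC : ∀ c, Ψ (C c) = C (c ^ p ^ r))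
    (hX : ∀ j, constantCoeff (Ψ (X j)) = 0) :
    ∃ (m n : ℕ) (u : Fin m ⊕ Fin n → MvPowerSeries ρ K), m + n = Nat.card ρ ∧
      (∀ i, constantCoeff (u i) = 0) ∧
      Function.Bijective (ev C u : MvPowerSeries (Fin m ⊕ Fin n) K →+* _) ∧
      (∀ i, Ψ (u (.inl i)) = u (.inl i)) ∧
      (∀ N, ∃ k, ∀ j, Ψ^[k] (u (.inr j)) ∈ mX ρ K ^ N) ∧
      (m = 0 → ∃ k, ∀ j, Ψ^[k] (X j) ∈ mX ρ K ^ 2) := by
  have hP := fun n => DM6b_split (n := n) (e := fun d : {d : ρ →₀ ℕ | d.degree = n} => d.1)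
    Subtype.val_injective Subtype.range_coe hC hX
  have hfin : ∀ n, Finite {d : ρ →₀ ℕ | d.degree = n} := fun n => Finsupp.finite_of_degree_eq n
  have ha : ∀ x, Ψ x - x ∈ mX ρ K ^ 2 → ∃ y, y - x ∈ mX ρ K ^ 2 ∧ Ψ y = y := fun x hx => by
    obtain ⟨y, h1, h2⟩ := DM6b_lim (mX ρ K) (fun n x => Ψ x - x ∈ mX ρ K ^ n)
      (fun n x y h1 h2 => by
        have := add_mem (sub_mem (DM6b_pow hX 1 h2) h2) h1
        rw [Function.iterate_one, map_sub] at this
        convert this using 1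
        ring)
      (fun n x h => by
        obtain ⟨π, f, h1, h2, h3, h4⟩ := hP n
        obtain ⟨v, hv⟩ := lang_surj p hr f h3 (π (Ψ x - x))
        obtain ⟨z, hz, rfl⟩ := h2 v
        have h5 : f (π z) = π (Ψ z) := h4 1 z hz
        have h6 := (h1 _ (sub_mem h (sub_mem (DM6b_pow hX 1 hz) hz))).1 (by
          rw [Function.iterate_one, map_sub π (Ψ x - x), ← hv, map_sub, h5, sub_self])
        refine ⟨x - z, by simpa using hz, ?_⟩
        rw [Function.iterate_one] at h6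
        convert h6 using 1
        rw [map_sub]
        ring) hx
    refine ⟨y, h1, sub_eq_zero.1 (IsHausdorff.haus (inferInstance : IsHausdorff (mX ρ K) _) _
      fun k => ?_)⟩
    rw [SModEq.sub_mem, smul_eq_mul, Ideal.mul_top, sub_zero]
    exact Ideal.pow_le_pow_right (Nat.le_add_left k 2) (h2 k)
  have hb : ∀ x, (∃ k, Ψ^[k] x ∈ mX ρ K ^ 2) →
      ∃ y, y - x ∈ mX ρ K ^ 2 ∧ ∀ N, ∃ k, Ψ^[k] y ∈ mX ρ K ^ N := fun x hx => by
    obtain ⟨y, h1, h2⟩ := DM6b_lim (mX ρ K) (fun n x => ∃ k, Ψ^[k] x ∈ mX ρ K ^ n)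
      (fun n x y ⟨k, h1⟩ h2 => ⟨k, by
        simpa [iterate_map_sub] using add_mem (DM6b_pow hX k h2) h1⟩)
      (fun n x ⟨k, h⟩ => by
        obtain ⟨π, f, h1, h2, h3, h4⟩ := hP n
        obtain ⟨v, N, hv⟩ := DM6b_fit p hr f h3 k (π (Ψ^[k] x))
        obtain ⟨z, hz, rfl⟩ := h2 v
        have h5 := sub_mem h (DM6b_pow hX k hz)
        rw [h4 k z hz, ← map_sub, h4 N _ h5, h1 _ (DM6b_pow hX N h5)] at hv
        exact ⟨x - z, by simpa using hz, N + k, by
          rwa [Function.iterate_add_apply, iterate_map_sub]⟩) hx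
    exact ⟨y, h1, fun N => (h2 N).imp fun k hk =>
      Ideal.pow_le_pow_right (Nat.le_add_left N 2) hk⟩
  obtain ⟨π, f, h1, h2, h3, h4⟩ := DM6b_split (n := 1) (e := fun j : ρ => Finsupp.single j 1)
    (Finsupp.single_left_injective one_ne_zero) Finsupp.range_single_one hC hX
  obtain ⟨m, n, b, b1, N, b2⟩ := lang_fitting p hr f h3
  choose s hs hs' using h2
  have hle : mX ρ K ^ 2 ≤ mX ρ K ^ 1 := Ideal.pow_le_pow_right one_le_two
  choose u u1 u2 using fun i => ha (s (b (.inl i))) ((h1 _ (sub_mem (DM6b_pow hX 1 (hs _))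
    (hs _))).1 (by rw [map_sub, ← h4 1 _ (hs _), hs', Function.iterate_one, b1, sub_self]))
  choose w w1 w2 using fun j => hb (s (b (.inr j))) ⟨N, (h1 _ (DM6b_pow hX N (hs _))).1 (by
    rw [← h4 N _ (hs _), hs', b2])⟩
  have c1 : ∀ i, Sum.elim u w i - s (b i) ∈ mX ρ K ^ 2 := by
    rintro (i | j)
    exacts [u1 i, w1 j]
  have c2 : ∀ i, Sum.elim u w i ∈ mX ρ K ^ 1 := fun i => by
    simpa using add_mem (hle (c1 i)) (hs (b i))
  have c3 : ∀ i, π (Sum.elim u w i) = b i := fun i => by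
    have := (h1 _ (hle (c1 i))).2 (c1 i)
    rwa [map_sub, hs', sub_eq_zero] at this
  have c4 : ∀ i, constantCoeff (Sum.elim u w i) = 0 := fun i =>
    mem_mX.1 (by simpa using c2 i)
  have c5 : ∀ j, (X j : MvPowerSeries ρ K) ∈ mX ρ K ^ 1 := fun j => by
    rw [pow_one]
    exact Ideal.subset_span (Set.mem_range_self j)
  have c6 : Function.Surjective
      (ev C (Sum.elim u w) : MvPowerSeries (Fin m ⊕ Fin n) K →+* MvPowerSeries ρ K) := by
    refine ev_surj c4 fun j => ?_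
    set z := ∑ i, C (b.repr (π (X j)) i) * Sum.elim u w i with hz
    have h5 := (h1 (X j - z) (sub_mem (c5 j) (Ideal.sum_mem _ fun i _ =>
      Ideal.mul_mem_left _ _ (c2 i)))).1 (by
        simp only [hz, ← smul_eq_C_mul, map_sub, map_sum, map_smul, c3, b.sum_repr, sub_self])
    have h6 : z ∈ Ideal.span (Set.range (Sum.elim u w)) := Ideal.sum_mem _ fun i _ =>
      Ideal.mul_mem_left _ _ (Ideal.subset_span (Set.mem_range_self i))
    simpa using add_mem (Ideal.mem_sup_left h6) (Ideal.mem_sup_right h5)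
  let E := b.indexEquiv (Pi.basisFun K ρ)
  refine ⟨m, n, Sum.elim u w, by simpa using Nat.card_congr E, c4, ⟨?_, c6⟩, u2, fun M => ?_,
    fun hm => ⟨N, fun j => (h1 _ (DM6b_pow hX N (c5 j))).1 ?_⟩⟩
  · have := DM6b_hopf ((ev C (Sum.elim u w) : MvPowerSeries (Fin m ⊕ Fin n) K →+* _).comp
      (renameEquiv K E).symm.toRingEquiv.toRingHom) (c6.comp (renameEquiv K E).symm.surjective)
    exact Function.Injective.of_comp_right this (renameEquiv K E).symm.surjective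
  · choose k hk using fun j => w2 j M
    refine ⟨∑ j, k j, fun j => ?_⟩
    obtain ⟨l, hl⟩ := Nat.exists_eq_add_of_le'
      (Finset.single_le_sum (f := k) (fun _ _ => Nat.zero_le _) (Finset.mem_univ j))
    rw [hl, Function.iterate_add_apply]
    exact DM6b_pow hX l (hk j)
  · subst hm
    rw [← h4 N _ (c5 j)]
    generalize π (X j) = v
    induction b.mem_span v using Submodule.span_induction with
    | mem y hy =>
      obtain ⟨i | j, rfl⟩ := hy
      exacts [i.elim0, b2 j]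
    | zero => simp
    | add y z _ _ hy hz => rw [iterate_map_add, hy, hz, add_zero]
    | smul c y _ hy => rw [DM6b_smul h3, hy, smul_zero]

end MLF
end

-- merged part: Pool.Agent.Work.MP_29d410_ag.DM7
section
/-!
# Splitting off the first slope; the theorem of Dieudonne and Manin up to isogeny

Plan.  `fixed_nil`: in `K⟦U, W⟧` with `Ψ U = U` and `Ψ ^ k W → 0`, write `h = h₀ (U) + h₁`,
`h₁ ∈ (W)`; `Ψ ^ k h₁ → 0`, while `Ψ` raises the coefficients of `h₀` to the power `p ^ r`.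
`split`: transport `G` along the coordinate change `u` of `fitting` (a new law `G₁` on
`Fin m ⊕ Fin n`, isomorphic to `G`).  `Ψ` extends to two sets of variables, commuting with the
comultiplication (this is `IsHom G (G.map σ ^ r) ψ`).  So `F (inl i)` is fixed, hence a series in
the `U, U'` only: a law `H₁` with a homomorphism `π₁ : G₁ → H₁`; `F (inr j)` tends to zero under
`Ψ`, so lies in `(W, W')`: the inclusion `i₁ : H₁ → G₁`, `(U, 0)`, is a homomorphism.  The law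
`N` is `F (inr j)` at `U = U' = 0`, `i₂ = (0, W)`; `π₂ z` is the `W`-part of `z - i₁ π₁ z`.
`[p ^ s] = F ^ r` on `H₁` because `ψ` is the identity on the `U`.
`dm`: induction on the number of variables; combine with `FGL.prod_aux`; the common `R` is the
product (`[p ^ (s t)] = X ^ p ^ (r t)`, `FGL.mul_mul`), and multiply `e'` by a power of `p`.
-/

open MvPowerSeries

namespace MLF

universe u

variable {K : Type u} [Field K] [IsAlgClosed K] (p : ℕ) [Fact p.Prime] [CharP K p]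

omit [IsAlgClosed K] in
theorem fixed_nil {α β : Type} [Finite α] [Finite β] {r : ℕ}
    (Ψ : MvPowerSeries (α ⊕ β) K →+* MvPowerSeries (α ⊕ β) K) (hC : ∀ c, Ψ (C c) = C (c ^ p ^ r))
    (h₁ : ∀ i, Ψ (X (.inl i)) = X (.inl i))
    (h₂ : ∀ N, ∃ k, ∀ j, Ψ^[k] (X (.inr j)) ∈ mX (α ⊕ β) K ^ N)
    (h₃ : ∀ j, constantCoeff (Ψ (X (.inr j))) = 0) (h : MvPowerSeries (α ⊕ β) K) :
    (Ψ h = h → h = ev C (Sum.elim (X ∘ Sum.inl) 0) h) ∧
    ((∀ N, ∃ k, Ψ^[k] h ∈ mX (α ⊕ β) K ^ N) → ev C (Sum.elim (X ∘ Sum.inl) 0 :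
      α ⊕ β → MvPowerSeries (α ⊕ β) K) h = 0) := by
  have c0 : DM7cc (Sum.elim (X ∘ Sum.inl) 0 : α ⊕ β → MvPowerSeries (α ⊕ β) K) :=
    (DM7cc.X' _).elim .zero
  obtain ⟨κ, hκ⟩ : ∃ κ, κ =
    ev C (Sum.elim (X ∘ Sum.inl) 0 : α ⊕ β → MvPowerSeries (α ⊕ β) K) := ⟨_, rfl⟩
  have kC : ∀ c, κ (C c) = C c := hκ ▸ c0.tn.ev_C C
  have k1 : ∀ i, κ (X (.inl i)) = X (.inl i) := fun i => hκ ▸ c0.tn.ev_X C (.inl i)
  have k2 : ∀ j, κ (X (.inr j)) = 0 := fun j => hκ ▸ c0.tn.ev_X C (.inr j)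
  have kN : ∀ {N : ℕ} {f}, f ∈ mX (α ⊕ β) K ^ N → κ f ∈ mX (α ⊕ β) K ^ N := hκ ▸ c0.ev_pow C
  have kW : h - κ h ∈ Ideal.span (Set.range (X ∘ Sum.inr : β → MvPowerSeries (α ⊕ β) K)) := by
    have := ev_sub_mem (DM7cc.X.elim c0).tn (C : K →+* _) h
      (𝔠 := Ideal.span (Set.range (X ∘ Sum.inr : β → MvPowerSeries (α ⊕ β) K))) (by
        rintro (i | j)
        · simp
        · exact Ideal.subset_span ⟨j, (sub_zero _).symm⟩)
    rwa [DM7_ev_X, ← hκ] at this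
  rw [← hκ]
  set φ := MvPowerSeries.map (σ := α ⊕ β) (iterateFrobenius K p r) with hφ
  have mx : ∀ i, X i ∈ mX (α ⊕ β) K := fun i => Ideal.subset_span ⟨i, rfl⟩
  have e1 : Ψ.comp κ = κ.comp φ := hom_ext (𝔟 := mX (α ⊕ β) K)
    (fun c => by simp [hφ, kC, hC, iterateFrobenius_def])
    (by rintro (i | j) <;> simp [hφ, k1, k2, h₁])
    (by rintro (i | j) <;> simp [k1, k2, h₁, mx])
  have e2 : φ.comp κ = κ.comp φ := hom_ext (𝔟 := mX (α ⊕ β) K)
    (fun c => by simp [hφ, kC]) (by rintro (i | j) <;> simp [hφ, k1, k2])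
    (by rintro (i | j) <;> simp [hφ, k1, k2, mx])
  have e3 : κ.comp κ = κ := hom_ext (𝔟 := mX (α ⊕ β) K) (fun c => by simp [kC])
    (by rintro (i | j) <;> simp [k1, k2]) (by rintro (i | j) <;> simp [k1, k2, mx])
  have i1 : ∀ k, Ψ^[k] (κ h) = κ (φ^[k] h) := fun k =>
    ((Function.Semiconj.iterate_right (f := κ) (ga := φ) (gb := Ψ)
      (fun x => (DFunLike.congr_fun e1 x).symm) k) h).symm
  have i2 : ∀ k, φ^[k] (κ h) = κ (φ^[k] h) := fun k =>
    ((Function.Semiconj.iterate_right (f := κ) (ga := φ) (gb := φ)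
      (fun x => (DFunLike.congr_fun e2 x).symm) k) h).symm
  have st : ∀ N k f, f ∈ mX (α ⊕ β) K ^ N → Ψ^[k] f ∈ mX (α ⊕ β) K ^ N := fun N k f hf => by
    induction k with
    | zero => exact hf
    | succ k ih =>
      rw [Function.iterate_succ_apply']
      have := Ideal.mem_map_of_mem Ψ ih
      rw [Ideal.map_pow] at this
      refine Ideal.pow_right_mono ?_ N this
      rw [Ideal.map_span, Ideal.span_le]
      rintro _ ⟨_, ⟨i | j, rfl⟩, rfl⟩
      · rw [h₁]; exact mx _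
      · exact mem_mX.2 (h₃ j)
  have nil : ∀ N, ∃ k, Ψ^[k] h - Ψ^[k] (κ h) ∈ mX (α ⊕ β) K ^ N := fun N => by
    obtain ⟨k, hk⟩ := h₂ N
    refine ⟨k, ?_⟩
    rw [← RingHom.coe_pow] at hk ⊢
    rw [← map_sub, ← Ideal.mem_comap]
    exact Ideal.span_le.2 (Set.range_subset_iff.2 fun j => Ideal.mem_comap.2 (hk j)) kW
  refine ⟨fun H => sub_eq_zero.1 (MvPowerSeries.ext fun d => ?_), fun H =>
    MvPowerSeries.ext fun d => ?_⟩
  · obtain ⟨k, hk⟩ := nil (d.degree + 1)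
    rw [Function.iterate_fixed H, i1] at hk
    have := sub_mem hk (kN hk)
    rw [map_sub, ← RingHom.comp_apply κ κ, e3, sub_sub_sub_cancel_right] at this
    exact mem_mX_pow.1 this d (Nat.lt_add_one _)
  · obtain ⟨k, hk⟩ := nil (d.degree + 1)
    obtain ⟨l, hl⟩ := H (d.degree + 1)
    have a1 := st _ k _ hl
    have a2 := st _ l _ hk
    rw [← RingHom.coe_pow Ψ l, map_sub, RingHom.coe_pow, ← Function.iterate_add_apply,
      ← Function.iterate_add_apply, add_comm l] at a2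
    rw [← Function.iterate_add_apply] at a1
    have a3 := sub_mem a1 a2
    rw [sub_sub_cancel, i1, ← i2] at a3
    have a4 := mem_mX_pow.1 a3 d (Nat.lt_add_one _)
    have a5 : ∀ (n : ℕ) g, coeff d (φ^[n] g) = 0 → coeff d g = 0 := fun n => by
      induction n with
      | zero => exact fun _ => id
      | succ n ih =>
        intro g hg
        simpa [hφ] using ih _ hg
    exact a5 _ _ a4

omit [IsAlgClosed K] [Fact p.Prime] [CharP K p] in
/-- A semilinear endomorphism which is compatible with a point is compatible with evaluation. -/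
theorem DM7_semi {ρ σ : Type} [Finite ρ] [Finite σ] {φ : K →+* K} {ψ : ρ → MvPowerSeries ρ K}
    (hψ : DM7cc ψ) {Φ : MvPowerSeries σ K →+* MvPowerSeries σ K} (hC : ∀ c, Φ (C c) = C (φ c))
    {x : ρ → MvPowerSeries σ K} (hx : DM7cc x) (h : Φ ∘ x = cmp ψ x) (f : MvPowerSeries ρ K) :
    Φ (ev C x f) = ev C x (ev (C.comp φ) ψ f) := by
  have t : TN (cmp ψ x) := (hψ.cmp hx).tn
  rw [hx.tn.map_ev Φ (h ▸ t), hψ.tn.map_ev (ev C x) t, ← RingHom.comp_assoc, hx.comp_C, h,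
    show Φ.comp C = C.comp φ from RingHom.ext hC]
  rfl

omit [IsAlgClosed K] in
/-- The fixed coordinates of a sum depend only on the fixed coordinates of the summands, and the
locus where the nilpotent coordinates vanish is closed under addition. -/
theorem DM7_two {ρ α β : Type} [Finite ρ] [Finite α] [Finite β] {G : FGL K ρ} {r : ℕ}
    {ψ : ρ → MvPowerSeries ρ K} (hψ : IsHom G (G.map (iterateFrobenius K p r)) ψ)
    {u : α ⊕ β → MvPowerSeries ρ K} {v : ρ → MvPowerSeries (α ⊕ β) K} (hu : DM7cc u)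
    (hv : DM7cc v) (uv : cmp u v = X) (vu : cmp v u = X)
    (h₁ : ∀ i, ev (C.comp (iterateFrobenius K p r)) ψ (u (.inl i)) = u (.inl i))
    (h₂ : ∀ N, ∃ k, ∀ j, (ev (C.comp (iterateFrobenius K p r)) ψ :
      MvPowerSeries ρ K →+* MvPowerSeries ρ K)^[k] (u (.inr j)) ∈ mX ρ K ^ N)
    {σ : Type} [Finite σ] {x y : α ⊕ β → MvPowerSeries σ K} (hx : DM7cc x) (hy : DM7cc y) :
    cmp (u ∘ Sum.inl) (G.add C (cmp v x) (cmp v y)) = cmp (u ∘ Sum.inl)
      (G.add C (cmp v (Sum.elim (x ∘ Sum.inl) 0)) (cmp v (Sum.elim (y ∘ Sum.inl) 0))) ∧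
    cmp (u ∘ Sum.inr)
      (G.add C (cmp v (Sum.elim (x ∘ Sum.inl) 0)) (cmp v (Sum.elim (y ∘ Sum.inl) 0))) = 0 := by
  have c : DM7cc ψ := hψ.cc
  set Ψ : MvPowerSeries ρ K →+* MvPowerSeries ρ K := ev (C.comp (iterateFrobenius K p r)) ψ
    with hΨ
  set a : ρ → MvPowerSeries ((α ⊕ α) ⊕ β ⊕ β) K := cmp v (X ∘ Sum.map Sum.inl Sum.inl) with ha
  set b : ρ → MvPowerSeries ((α ⊕ α) ⊕ β ⊕ β) K := cmp v (X ∘ Sum.map Sum.inr Sum.inr) with hb
  have ca : DM7cc a := hv.cmp (.X' _)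
  have cb : DM7cc b := hv.cmp (.X' _)
  have uf : ∀ f : α ⊕ β → (α ⊕ α) ⊕ β ⊕ β, cmp u (cmp v (X ∘ f)) = X ∘ f := fun f => by
    rw [← cmp_assoc hv (DM7cc.X' f), uv, (DM7cc.X' f).X_cmp]
  have ua : ∀ i, ev C a (u i) = X (Sum.map Sum.inl Sum.inl i) := congrFun (uf _)
  have ub : ∀ i, ev C b (u i) = X (Sum.map Sum.inr Sum.inr i) := congrFun (uf _)
  have cu : DM7cc (Ψ ∘ u) := fun i => c.ev0 _ (hu i)
  set w : (α ⊕ α) ⊕ β ⊕ β → MvPowerSeries ((α ⊕ α) ⊕ β ⊕ β) K := Sum.elim (X ∘ Sum.inl)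
    (Sum.elim (fun j => ev C a (Ψ (u (.inr j)))) fun j => ev C b (Ψ (u (.inr j)))) with hw
  have cw : DM7cc w := (DM7cc.X' _).elim (DM7cc.elim (fun j => ca.ev0 _ (cu _))
    fun j => cb.ev0 _ (cu _))
  set Φ := ev (C.comp (iterateFrobenius K p r)) w
  have ΦC : ∀ c, Φ (C c) = C (iterateFrobenius K p r c) := cw.tn.ev_C _
  have ΦX : ∀ i, Φ (X i) = w i := cw.tn.ev_X _
  have pt : ∀ (f : α ⊕ β → (α ⊕ α) ⊕ β ⊕ β), (∀ i, w (f i) = ev C (cmp v (X ∘ f)) (Ψ (u i))) →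
      Φ ∘ cmp v (X ∘ f) = cmp ψ (cmp v (X ∘ f)) := fun f hf => funext fun i => by
    have cf : DM7cc (cmp v (X ∘ f : _ → MvPowerSeries _ K)) := hv.cmp (.X' _)
    have e : Φ ∘ X ∘ f = cmp (Ψ ∘ u) (cmp v (X ∘ f)) := funext fun i => (ΦX _).trans (hf i)
    have t := (cu.cmp cf).tn
    have e' : ψ i = ev (C.comp (iterateFrobenius K p r)) (Ψ ∘ u) (v i) := by
      rw [← c.tn.ev_X (C.comp (iterateFrobenius K p r)) i, ← congrFun vu i, cmp,
        hu.tn.map_ev _ cu.tn]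
      congr 2
      exact RingHom.ext (c.tn.ev_C _)
    change Φ (ev C _ (v i)) = ev C _ (ψ i)
    rw [(DM7cc.X' f).tn.map_ev Φ (e ▸ t), e, e', cu.tn.map_ev (ev C _) t, ← RingHom.comp_assoc,
      cf.comp_C, show Φ.comp C = C.comp _ from RingHom.ext ΦC]
    rfl
  have pa : Φ ∘ a = cmp ψ a := pt _ (by
    rintro (i | j)
    · rw [h₁, ua]; rfl
    · rfl)
  have pb : Φ ∘ b = cmp ψ b := pt _ (by
    rintro (i | j)
    · rw [h₁, ub]; rfl
    · rfl)
  have pab : Φ ∘ G.add C a b = cmp ψ (G.add C a b) := by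
    have t : TN (Sum.elim (cmp ψ a) (cmp ψ b)) := ((c.cmp ca).elim (c.cmp cb)).tn
    rw [FGL.map_add (ca.elim cb).tn Φ (by rwa [Sum.comp_elim, pa, pb]), pa, pb,
      hψ.DM7_add ca cb, FGL.map_add_eq _ _ _ t, show Φ.comp C = C.comp _ from RingHom.ext ΦC]
  have it : ∀ {z : ρ → MvPowerSeries ((α ⊕ α) ⊕ β ⊕ β) K}, DM7cc z → Φ ∘ z = cmp ψ z →
      ∀ k f, Φ^[k] (ev C z f) = ev C z (Ψ^[k] f) := fun hz e k f =>
    ((Function.Semiconj.iterate_right (fun f => (DM7_semi c ΦC hz e f).symm) k) f).symm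
  have key := fixed_nil p Φ ΦC (fun i => ΦX _) (fun N => (h₂ N).imp fun k hk => by
    rintro (j | j)
    · exact (congrArg Φ^[k] (ua (.inr j))).symm.trans (it ca pa k _) ▸ ca.ev_pow C (hk j)
    · exact (congrArg Φ^[k] (ub (.inr j))).symm.trans (it cb pb k _) ▸ cb.ev_pow C (hk j))
    fun j => (ΦX _).symm ▸ cw _
  have cab := ca.add G cb
  have c0 : DM7cc (Sum.elim (X ∘ Sum.inl) 0 :
    (α ⊕ α) ⊕ β ⊕ β → MvPowerSeries ((α ⊕ α) ⊕ β ⊕ β) K) := (DM7cc.X' _).elim .zero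
  have k1 : cmp (u ∘ Sum.inl) (G.add C a b) =
      cmp (cmp (u ∘ Sum.inl) (G.add C a b)) (Sum.elim (X ∘ Sum.inl) 0) := funext fun i =>
    (key _).1 ((it cab pab 1 _).trans (congrArg _ (h₁ i)))
  have k2 : cmp (cmp (u ∘ Sum.inr) (G.add C a b)) (Sum.elim (X ∘ Sum.inl) 0) = 0 :=
    funext fun j => (key _).2 fun N => (h₂ N).imp fun k hk =>
      (it cab pab k _).symm ▸ cab.ev_pow C (hk j)
  have sub : ∀ {τ : Type} [Finite τ] {z : (α ⊕ α) ⊕ β ⊕ β → MvPowerSeries τ K}, DM7cc z →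
      cmp (G.add C a b) z = G.add C (cmp v (z ∘ Sum.map Sum.inl Sum.inl))
        (cmp v (z ∘ Sum.map Sum.inr Sum.inr)) := fun hz => by
    rw [ca.add_cmp G cb hz, ha, hb, cmp_assoc (DM7cc.X' _) hz, cmp_assoc (DM7cc.X' _) hz,
      hz.X_cmp', hz.X_cmp']
  set z : (α ⊕ α) ⊕ β ⊕ β → MvPowerSeries σ K :=
    Sum.elim (Sum.elim (x ∘ Sum.inl) (y ∘ Sum.inl)) (Sum.elim (x ∘ Sum.inr) (y ∘ Sum.inr))
  have cz : DM7cc z := DM7cc.elim (DM7cc.elim (fun _ => hx _) fun _ => hy _)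
    (DM7cc.elim (fun _ => hx _) fun _ => hy _)
  have z1 : z ∘ Sum.map Sum.inl Sum.inl = x := funext (Sum.rec (fun _ => rfl) fun _ => rfl)
  have z2 : z ∘ Sum.map Sum.inr Sum.inr = y := funext (Sum.rec (fun _ => rfl) fun _ => rfl)
  have z3 : cmp (Sum.elim (X ∘ Sum.inl) (0 : β ⊕ β → _)) z ∘ Sum.map Sum.inl Sum.inl =
      Sum.elim (x ∘ Sum.inl) 0 :=
    funext (Sum.rec (fun _ => cz.tn.ev_X _ _) fun _ => map_zero _)
  have z4 : cmp (Sum.elim (X ∘ Sum.inl) (0 : β ⊕ β → _)) z ∘ Sum.map Sum.inr Sum.inr =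
      Sum.elim (y ∘ Sum.inl) 0 :=
    funext (Sum.rec (fun _ => cz.tn.ev_X _ _) fun _ => map_zero _)
  have l1 := congrArg (cmp · z) k1
  have l2 := congrArg (cmp · z) k2
  simp only [cmp_assoc cab cz, cmp_assoc c0 cz, cmp_assoc cab (c0.cmp cz), sub cz,
    sub (c0.cmp cz), z1, z2, z3, z4] at l1 l2
  exact ⟨l1, l2.trans (funext fun _ => map_zero _)⟩

theorem FGL.split {ρ : Type} [Finite ρ] {G : FGL K ρ} (hG : G.FH p) {r s : ℕ} (hr : 0 < r)
    {ψ : ρ → MvPowerSeries ρ K} (hψ : IsHom G (G.map (iterateFrobenius K p r)) ψ)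
    (hm : cmp ψ (G.mul (p ^ s)) = fun i => X i ^ p ^ r)
    (hn : ∀ n : ℕ, ¬ ∀ j, (ev (C.comp (iterateFrobenius K p r)) ψ :
        MvPowerSeries ρ K →+* MvPowerSeries ρ K)^[n] (X j) ∈ mX ρ K ^ 2) :
    ∃ (m n : ℕ) (H₁ : FGL K (Fin m)) (N : FGL K (Fin n)) (i₁ : ρ → MvPowerSeries (Fin m) K)
      (i₂ : ρ → MvPowerSeries (Fin n) K) (π₁ : Fin m → MvPowerSeries ρ K)
      (π₂ : Fin n → MvPowerSeries ρ K), n < Nat.card ρ ∧ N.FH p ∧
      (∀ l, H₁.mul (p ^ s) l = X l ^ p ^ r) ∧ IsHom H₁ G i₁ ∧ IsHom N G i₂ ∧ IsHom G H₁ π₁ ∧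
      IsHom G N π₂ ∧ cmp π₁ i₁ = X ∧ cmp π₂ i₂ = X ∧ cmp π₁ i₂ = 0 ∧ cmp π₂ i₁ = 0 ∧
      G.add C (cmp i₁ π₁) (cmp i₂ π₂) = X := by
  have c : DM7cc ψ := hψ.cc
  obtain ⟨m, n, u, hc, hu, hb, h₁, h₂, h₃⟩ := fitting p hr
    (ev (C.comp (iterateFrobenius K p r)) ψ) (c.tn.ev_C _) fun j => by rw [c.tn.ev_X, c j]
  replace hu : DM7cc u := hu
  choose v hv' using fun i => hb.2 (X i)
  have vu : cmp v u = X := funext hv'
  have hv : DM7cc v := fun i => by
    have e := hu.tn.map_ev (constantCoeff : MvPowerSeries ρ K →+* K)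
      (TN.of_nil fun j => by rw [Function.comp_apply, hu j]; exact IsNilpotent.zero) C (v i)
    rw [hv', constantCoeff_X, show constantCoeff ∘ u = 0 from funext hu, ev_zero] at e
    simpa using e.symm
  have uv : cmp u v = X := funext fun i => hb.1 (by
    rw [hu.tn.ev_X]
    exact congrFun ((cmp_assoc hv hu).trans (by rw [vu, DM7_cmp_X])) i)
  have uv' : ∀ {σ : Type} [Finite σ] {x : Fin m ⊕ Fin n → MvPowerSeries σ K}, DM7cc x →
      cmp u (cmp v x) = x := fun hx => by rw [← cmp_assoc hv hx, uv, hx.X_cmp]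
  have vu' : ∀ {σ : Type} [Finite σ] {x : ρ → MvPowerSeries σ K}, DM7cc x →
      cmp v (cmp u x) = x := fun hx => by rw [← cmp_assoc hu hx, vu, hx.X_cmp]
  have d1 : DM7cc (Sum.elim X 0 : Fin m ⊕ Fin n → MvPowerSeries (Fin m) K) := DM7cc.X.elim .zero
  have d2 : DM7cc (Sum.elim 0 X : Fin m ⊕ Fin n → MvPowerSeries (Fin n) K) := DM7cc.zero.elim .X
  have c1 := hv.cmp d1
  have c2 := hv.cmp d2
  have s1 : ∀ {σ : Type} [Finite σ] {x : Fin m → MvPowerSeries σ K}, DM7cc x →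
      cmp (cmp v (Sum.elim X 0)) x = cmp v (Sum.elim x 0) := fun hx => by
    rw [cmp_assoc d1 hx]
    congr 1
    exact funext (Sum.rec (hx.tn.ev_X _) fun _ => map_zero _)
  have s2 : ∀ {σ : Type} [Finite σ] {x : Fin n → MvPowerSeries σ K}, DM7cc x →
      cmp (cmp v (Sum.elim 0 X)) x = cmp v (Sum.elim 0 x) := fun hx => by
    rw [cmp_assoc d2 hx]
    congr 1
    exact funext (Sum.rec (fun _ => map_zero _) (hx.tn.ev_X _))
  have q1 : cmp (u ∘ Sum.inl) (cmp v (Sum.elim X 0)) = X :=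
    funext fun i => congrFun (uv' d1) (.inl i)
  have q3 : cmp (u ∘ Sum.inl) (cmp v (Sum.elim 0 (X : Fin n → _))) = 0 :=
    funext fun i => congrFun (uv' d2) (.inl i)
  have q4 : cmp (u ∘ Sum.inr) (cmp v (Sum.elim 0 X)) = X :=
    funext fun i => congrFun (uv' d2) (.inr i)
  have cU : DM7cc (u ∘ Sum.inl) := fun _ => hu _
  have cW : DM7cc (u ∘ Sum.inr) := fun _ => hu _
  have el : ∀ {σ : Type} [Finite σ] (x : ρ → MvPowerSeries σ K),
      cmp u x = Sum.elim (cmp (u ∘ Sum.inl) x) (cmp (u ∘ Sum.inr) x) := fun x =>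
    funext (Sum.rec (fun _ => rfl) fun _ => rfl)
  obtain ⟨H₁, hπ₁⟩ := DM7_retract G cU c1 q1 fun x y hx hy => by
    have := (DM7_two p hψ hu hv uv vu h₁ h₂ (hu.cmp hx) (hu.cmp hy)).1
    rwa [vu' hx, vu' hy, ← s1 (x := cmp u x ∘ Sum.inl) (cU.cmp hx),
      ← s1 (x := cmp u y ∘ Sum.inl) (cU.cmp hy)] at this
  have hi₁ := DM7_section hπ₁ c1 q1 fun x y hx hy => by
    have := (DM7_two p hψ hu hv uv vu h₁ h₂ (hx.elim .zero) (hy.elim .zero)).2
    have e := ((c1.cmp hx).add G (c1.cmp hy))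
    rw [Sum.elim_comp_inl, Sum.elim_comp_inl, ← s1 hx, ← s1 hy] at this
    rw [s1 (cU.cmp e), ← this, ← el, vu' e]
  generalize cmp v (Sum.elim X 0) = i₁ at *
  generalize cmp v (Sum.elim 0 X) = i₂ at *
  have he := hi₁.comp hπ₁
  have hd := (IsHom.id G).add he.neg
  have ce : DM7cc (cmp i₁ (u ∘ Sum.inl)) := he.cc
  have cN : DM7cc G.N := G.N0
  have dx : ∀ {σ : Type} [Finite σ] {x : ρ → MvPowerSeries σ K}, DM7cc x →
      cmp (G.add C X (cmp G.N (cmp i₁ (u ∘ Sum.inl)))) x =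
        G.add C x (cmp G.N (cmp i₁ (cmp (u ∘ Sum.inl) x))) := fun hx => by
    rw [DM7cc.X.add_cmp G (cN.cmp ce) hx, hx.X_cmp, cmp_assoc ce hx, cmp_assoc cU hx]
  have ed := ce.add_add_neg G .X
  have πd : cmp (u ∘ Sum.inl) (G.add C X (cmp G.N (cmp i₁ (u ∘ Sum.inl)))) = 0 := by
    rw [hπ₁.DM7_add .X (cN.cmp ce), hπ₁.DM7_neg ce, ← cmp_assoc c1 cU, q1, cU.X_cmp, DM7_cmp_X,
      cU.add_neg]
  generalize G.add C X (cmp G.N (cmp i₁ (u ∘ Sum.inl))) = d at *
  have cd : DM7cc d := hd.cc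
  have c3 := cW.cmp cd
  have id : cmp i₂ (cmp (u ∘ Sum.inr) d) = d := by rw [s2 c3, ← πd, ← el, vu' cd]
  have d₂ : cmp d i₂ = i₂ := by rw [dx c2, q3, c1.cmp_zero, cN.cmp_zero, c2.add_zero]
  have d₁ : cmp d i₁ = 0 := by rw [dx c1, q1, DM7_cmp_X, c1.add_neg]
  have q5 : cmp (cmp (u ∘ Sum.inr) d) i₂ = X := by rw [cmp_assoc cd c2, d₂, q4]
  have id' : ∀ {σ : Type} [Finite σ] {x : ρ → MvPowerSeries σ K}, DM7cc x →
      cmp i₂ (cmp (cmp (u ∘ Sum.inr) d) x) = cmp d x := fun hx => by rw [← cmp_assoc c3 hx, id]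
  obtain ⟨N, hπ₂⟩ := DM7_retract G c3 c2 q5 fun x y hx hy => by
    have e := hx.add G hy
    rw [id' hx, id' hy, ← hd.DM7_add hx hy, ← id' e, ← cmp_assoc c2 (c3.cmp e), q5,
      (c3.cmp e).X_cmp]
  have hi₂ := DM7_section hπ₂ c2 q5 fun x y hx hy => by
    rw [id' ((c2.cmp hx).add G (c2.cmp hy)), hd.DM7_add (c2.cmp hx) (c2.cmp hy),
      ← cmp_assoc c2 hx, ← cmp_assoc c2 hy, d₂]
  refine ⟨m, n, H₁, N, i₁, i₂, u ∘ Sum.inl, cmp (u ∘ Sum.inr) d, ?_, ?_, fun l => ?_, hi₁, hi₂,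
    hπ₁, hπ₂, q1, q5, q3, by rw [cmp_assoc cd c1, d₁, cW.cmp_zero], by rw [id, ed]⟩
  · have : m ≠ 0 := fun h => (h₃ h).elim hn
    omega
  · obtain ⟨M, hM⟩ := hG
    obtain ⟨M', hM'⟩ := Ideal.exists_pow_le_of_le_radical_of_fg
      (I := mX ρ K) (J := Ideal.span (Set.range (G.mul p)))
      (Ideal.span_le.2 (Set.range_subset_iff.2 fun i => ⟨M, hM i⟩))
      (Submodule.fg_span (Set.finite_range _))
    refine ⟨M', fun j => ?_⟩
    rw [← congrFun q5 j, cmp, ← map_pow, ← Ideal.mem_comap]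
    refine Ideal.span_le.2 (Set.range_subset_iff.2 fun i => ?_)
      (hM' (Ideal.pow_mem_pow (mem_mX.2 (c3 j)) M'))
    have e : ev C i₂ (G.mul p i) = _ := (congrFun (hi₂.cmp_mul p) i).symm
    rw [SetLike.mem_coe, Ideal.mem_comap, e]
    exact (TN.of_cc (N.mul0 p)).ev_mem C (c2 i) fun j => Ideal.subset_span ⟨j, rfl⟩
  · have cm : DM7cc (G.mul (p ^ s)) := G.mul0 _
    have cq : DM7cc (cmp ψ (G.mul (p ^ s))) := c.cmp cm
    have e : ev C (G.mul (p ^ s)) (u (.inl l)) = u (.inl l) ^ p ^ r := by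
      rw [pow_eq_ev, ← hm, cq.tn.ev_map]
      conv_lhs => rw [← h₁ l]
      rw [c.tn.map_ev _ cq.tn, ← RingHom.comp_assoc, cm.comp_C]
      rfl
    rw [← DM7_cmp_X (H₁.mul (p ^ s)), ← q1, ← cmp_assoc cU c1, ← hπ₁.cmp_mul]
    change ev C i₁ (ev C _ (u (.inl l))) = _
    rw [e, map_pow]
    rfl

end MLF
end

-- merged part: Pool.Agent.Work.MP_29d410_ag.DM7b
section
/-!
# Splitting off the first slope; the theorem of Dieudonne and Manin up to isogeny

Plan.  `fixed_nil`: in `K⟦U, W⟧` with `Ψ U = U` and `Ψ ^ k W → 0`, write `h = h₀ (U) + h₁`,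
`h₁ ∈ (W)`; `Ψ ^ k h₁ → 0`, while `Ψ` raises the coefficients of `h₀` to the power `p ^ r`.
`split`: transport `G` along the coordinate change `u` of `fitting` (a new law `G₁` on
`Fin m ⊕ Fin n`, isomorphic to `G`).  `Ψ` extends to two sets of variables, commuting with the
comultiplication (this is `IsHom G (G.map σ ^ r) ψ`).  So `F (inl i)` is fixed, hence a series in
the `U, U'` only: a law `H₁` with a homomorphism `π₁ : G₁ → H₁`; `F (inr j)` tends to zero under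
`Ψ`, so lies in `(W, W')`: the inclusion `i₁ : H₁ → G₁`, `(U, 0)`, is a homomorphism.  The law
`N` is `F (inr j)` at `U = U' = 0`, `i₂ = (0, W)`; `π₂ z` is the `W`-part of `z - i₁ π₁ z`.
`[p ^ s] = F ^ r` on `H₁` because `ψ` is the identity on the `U`.
`dm`: induction on the number of variables; combine with `FGL.prod_aux`; the common `R` is the
product (`[p ^ (s t)] = X ^ p ^ (r t)`, `FGL.mul_mul`), and multiply `e'` by a power of `p`.
-/

open MvPowerSeries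

namespace MLF

universe u

namespace DM7b

section Pts

variable {S T : Type u} [CommRing S] [CommRing T] {τ τ' τ'' : Type} [Finite τ] [Finite τ']
  [Finite τ''] {G : FGL S τ} {H : FGL S τ'} {H' : FGL S τ''} {φ : S →+* T} {𝔞 : Ideal T} [Adm 𝔞]

theorem ev_X_self (f : MvPowerSeries τ S) : ev C (X : τ → MvPowerSeries τ S) f = f := by
  simpa using ev_C_X (RingHom.id S) f

theorem act_univ {f : τ' → MvPowerSeries τ S} (hf : IsHom G H f) :
    (hf.act C (mX τ S) G.univ).v = f := funext fun i => ev_X_self (f i)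

theorem act_act {f : τ' → MvPowerSeries τ S} {g : τ'' → MvPowerSeries τ' S} (hg : IsHom H H' g)
    (hf : IsHom G H f) (x : G.Pts φ 𝔞) (i : τ'') :
    (hg.act φ 𝔞 (hf.act φ 𝔞 x)).v i = ev φ x.v (cmp g f i) := (ev_cmp hf.cc φ x.tn i).symm

theorem act_comp {f : τ' → MvPowerSeries τ S} {g : τ'' → MvPowerSeries τ' S} (hg : IsHom H H' g)
    (hf : IsHom G H f) (x : G.Pts φ 𝔞) :
    (hg.comp hf).act φ 𝔞 x = hg.act φ 𝔞 (hf.act φ 𝔞 x) :=
  FGL.Pts.ext (funext fun i => (act_act hg hf x i).symm)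

theorem act_mul (G : FGL S τ) (n : ℕ) (x : G.Pts φ 𝔞) : (IsHom.mul G n).act φ 𝔞 x = n • x :=
  FGL.Pts.ext (funext fun i => (FGL.Pts.nsmul_v n x i).symm)

theorem act_of_mul {f : τ' → MvPowerSeries τ S} {g : τ → MvPowerSeries τ' S} (hg : IsHom H G g)
    (hf : IsHom G H f) {n : ℕ} (h : cmp g f = G.mul n) (x : G.Pts φ 𝔞) :
    hg.act φ 𝔞 (hf.act φ 𝔞 x) = n • x :=
  FGL.Pts.ext (funext fun i => by rw [act_act, h, FGL.Pts.nsmul_v])

theorem act_of_X {f : τ' → MvPowerSeries τ S} {g : τ → MvPowerSeries τ' S} (hg : IsHom H G g)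
    (hf : IsHom G H f) (h : cmp g f = X) (x : G.Pts φ 𝔞) : hg.act φ 𝔞 (hf.act φ 𝔞 x) = x :=
  FGL.Pts.ext (funext fun i => by rw [act_act, h, x.tn.ev_X])

theorem act_of_zero {f : τ' → MvPowerSeries τ S} {g : τ'' → MvPowerSeries τ' S}
    (hg : IsHom H H' g) (hf : IsHom G H f) (h : cmp g f = 0) (x : G.Pts φ 𝔞) :
    hg.act φ 𝔞 (hf.act φ 𝔞 x) = 0 :=
  FGL.Pts.ext (funext fun i => by rw [act_act, h]; exact map_zero _)

theorem act_add {f f' : τ' → MvPowerSeries τ S} (hf : IsHom G H f) (hf' : IsHom G H f')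
    (x : G.Pts φ 𝔞) : (hf.add hf').act φ 𝔞 x = hf.act φ 𝔞 x + hf'.act φ 𝔞 x := by
  refine FGL.Pts.ext ?_
  have h1 : TN (Sum.elim f f') := TN.of_cc (Sum.rec hf.cc hf'.cc)
  have h2 : TN (ev φ x.v ∘ Sum.elim f f') :=
    Adm.tn (𝔞 := 𝔞) (Sum.rec (hf.act φ 𝔞 x).mem (hf'.act φ 𝔞 x).mem)
  have h3 := FGL.map_add (G := H) (φ := C) h1 (ev φ x.v) h2
  have h4 : (ev φ x.v).comp C = φ := RingHom.ext fun c => x.tn.ev_C φ c
  rw [h4] at h3
  exact h3

theorem cmp_eq_mul {f : τ' → MvPowerSeries τ S} {g : τ → MvPowerSeries τ' S} (hg : IsHom H G g)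
    (hf : IsHom G H f) {n : ℕ}
    (h : hg.act C (mX τ S) (hf.act C (mX τ S) G.univ) = n • G.univ) : cmp g f = G.mul n := by
  rw [← act_comp] at h
  rw [← act_univ (hg.comp hf), h]
  rfl

theorem mul_one_eq (G : FGL S τ) : G.mul 1 = X := by
  rw [FGL.mul, one_nsmul]
  rfl

/-- `P` is the product of `G` and `H`. -/
def IsProd (G : FGL S τ) (H : FGL S τ') (P : FGL S (τ ⊕ τ')) : Prop :=
  (∀ i, P.F (.inl i) = ev C (X ∘ Sum.map Sum.inl Sum.inl) (G.F i)) ∧
    ∀ i, P.F (.inr i) = ev C (X ∘ Sum.map Sum.inr Sum.inr) (H.F i)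

omit [Adm 𝔞] in
theorem ev_rename {α β : Type} [Finite α] [Finite β] {x : β → T} (hx : TN x) (e : α → β)
    (f : MvPowerSeries α S) : ev φ x (ev C (X ∘ e) f) = ev φ (x ∘ e) f := by
  have h := ev_cmp (g := fun _ : Unit => f) (f := (X ∘ e : α → MvPowerSeries β S))
    (fun i => by simp) φ hx ()
  refine h.trans ?_
  congr 2
  exact funext fun j => hx.ev_X φ _

variable {P : FGL S (τ ⊕ τ')}

omit [Adm 𝔞] in
theorem IsProd.add_inl (h : IsProd G H P) {x y : τ ⊕ τ' → T} (hxy : TN (Sum.elim x y)) (i : τ) :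
    P.add φ x y (.inl i) = G.add φ (x ∘ Sum.inl) (y ∘ Sum.inl) i := by
  rw [FGL.add, h.1, ev_rename hxy, FGL.add]
  congr 2
  exact funext (Sum.rec (fun _ => rfl) fun _ => rfl)

omit [Adm 𝔞] in
theorem IsProd.add_inr (h : IsProd G H P) {x y : τ ⊕ τ' → T} (hxy : TN (Sum.elim x y)) (i : τ') :
    P.add φ x y (.inr i) = H.add φ (x ∘ Sum.inr) (y ∘ Sum.inr) i := by
  rw [FGL.add, h.2, ev_rename hxy, FGL.add]
  congr 2
  exact funext (Sum.rec (fun _ => rfl) fun _ => rfl)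

theorem tn_X {α β : Type} [Finite α] [Finite β] (e : α → β) :
    TN (X ∘ e : α → MvPowerSeries β S) := TN.of_cc fun i => by simp

theorem IsProd.fst (h : IsProd G H P) : IsHom P G (X ∘ Sum.inl) where
  cc i := by simp
  hom i := by
    rw [Function.comp, (TN.of_cc P.F0).ev_X, h.1, FGL.add]
    congr 2
    refine funext (Sum.rec (fun j => ?_) fun j => ?_)
    · exact ((tn_X (S := S) (Sum.inl : τ ⊕ τ' → _)).ev_X C (.inl j)).symm
    · exact ((tn_X (S := S) (Sum.inr : τ ⊕ τ' → _)).ev_X C (.inl j)).symm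

theorem IsProd.snd (h : IsProd G H P) : IsHom P H (X ∘ Sum.inr) where
  cc i := by simp
  hom i := by
    rw [Function.comp, (TN.of_cc P.F0).ev_X, h.2, FGL.add]
    congr 2
    refine funext (Sum.rec (fun j => ?_) fun j => ?_)
    · exact ((tn_X (S := S) (Sum.inl : τ ⊕ τ' → _)).ev_X C (.inr j)).symm
    · exact ((tn_X (S := S) (Sum.inr : τ ⊕ τ' → _)).ev_X C (.inr j)).symm

theorem IsProd.lift (h : IsProd G H P) {f : τ → MvPowerSeries τ'' S} {g : τ' → MvPowerSeries τ'' S}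
    (hf : IsHom H' G f) (hg : IsHom H' H g) : IsHom H' P (Sum.elim f g) := by
  have hc : ∀ i, constantCoeff (Sum.elim f g i) = 0 := Sum.rec hf.cc hg.cc
  have hm : ∀ (e : τ'' → τ'' ⊕ τ'') j, constantCoeff
      (ev C (X ∘ e : τ'' → MvPowerSeries (τ'' ⊕ τ'') S) (Sum.elim f g j)) = 0 := fun e j =>
    mem_mX.1 ((tn_X e).ev_mem C (hc j) fun i => mem_mX.2 (by simp))
  have ht : TN (Sum.elim
      (fun j => ev C (X ∘ Sum.inl : τ'' → MvPowerSeries (τ'' ⊕ τ'') S) (Sum.elim f g j))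
      fun j => ev C (X ∘ Sum.inr : τ'' → MvPowerSeries (τ'' ⊕ τ'') S) (Sum.elim f g j)) :=
    TN.of_cc (Sum.rec (hm _) (hm _))
  refine ⟨hc, Sum.rec (fun i => ?_) fun i => ?_⟩
  · rw [h.add_inl ht]
    exact hf.hom i
  · rw [h.add_inr ht]
    exact hg.hom i

theorem IsProd.fst_lift (h : IsProd G H P) {f : τ → MvPowerSeries τ'' S}
    {g : τ' → MvPowerSeries τ'' S} (hf : IsHom H' G f) (hg : IsHom H' H g) (x : H'.Pts φ 𝔞) :
    h.fst.act φ 𝔞 ((h.lift hf hg).act φ 𝔞 x) = hf.act φ 𝔞 x :=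
  FGL.Pts.ext (funext fun i => ((h.lift hf hg).act φ 𝔞 x).tn.ev_X φ (.inl i))

theorem IsProd.snd_lift (h : IsProd G H P) {f : τ → MvPowerSeries τ'' S}
    {g : τ' → MvPowerSeries τ'' S} (hf : IsHom H' G f) (hg : IsHom H' H g) (x : H'.Pts φ 𝔞) :
    h.snd.act φ 𝔞 ((h.lift hf hg).act φ 𝔞 x) = hg.act φ 𝔞 x :=
  FGL.Pts.ext (funext fun i => ((h.lift hf hg).act φ 𝔞 x).tn.ev_X φ (.inr i))

theorem IsProd.ext (h : IsProd G H P) {x y : P.Pts φ 𝔞} (h1 : h.fst.act φ 𝔞 x = h.fst.act φ 𝔞 y)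
    (h2 : h.snd.act φ 𝔞 x = h.snd.act φ 𝔞 y) : x = y := by
  refine FGL.Pts.ext (funext (Sum.rec (fun i => ?_) fun i => ?_))
  · exact (x.tn.ev_X φ (.inl i)).symm.trans
      ((congrArg (fun z => z.v i) h1).trans (y.tn.ev_X φ (.inl i)))
  · exact (x.tn.ev_X φ (.inr i)).symm.trans
      ((congrArg (fun z => z.v i) h2).trans (y.tn.ev_X φ (.inr i)))

variable (p : ℕ)

/-- Isogenous laws. -/
def Isog (G : FGL S τ) (H : FGL S τ') : Prop :=
  ∃ (c : ℕ) (e : τ → MvPowerSeries τ' S) (e' : τ' → MvPowerSeries τ S), IsHom H G e ∧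
    IsHom G H e' ∧ cmp e e' = G.mul (p ^ c) ∧ cmp e' e = H.mul (p ^ c)

/-- A power of `[p]` is diagonal. -/
def Diag (G : FGL S τ) : Prop :=
  ∃ (R : ℕ) (a : τ → ℕ), 0 < R ∧ ∀ l, G.mul (p ^ R) l = X l ^ p ^ a l

variable {p}

theorem Isog.refl (G : FGL S τ) : Isog p G G := by
  have h : cmp (X : τ → MvPowerSeries τ S) X = G.mul (p ^ 0) := by
    rw [pow_zero, mul_one_eq]
    exact funext fun i => ev_X_self _
  exact ⟨0, X, X, IsHom.id G, IsHom.id G, h, h⟩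

theorem Isog.trans (h : Isog p G H) (h' : Isog p H H') : Isog p G H' := by
  obtain ⟨c, e, e', he, he', h1, h2⟩ := h
  obtain ⟨d, f, f', hf, hf', h3, h4⟩ := h'
  refine ⟨d + c, _, _, he.comp hf, hf'.comp he', cmp_eq_mul (he.comp hf) (hf'.comp he') ?_,
    cmp_eq_mul (hf'.comp he') (he.comp hf) ?_⟩
  · rw [act_comp he hf, act_comp hf' he', act_of_mul hf hf' h3, map_nsmul, act_of_mul he he' h1,
      ← mul_nsmul', pow_add]
  · rw [act_comp hf' he', act_comp he hf, act_of_mul he' he h2, map_nsmul, act_of_mul hf' hf h4,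
      ← mul_nsmul', pow_add, mul_comm]

theorem diag_pow {R : ℕ} {a : τ → ℕ} (h : ∀ l, G.mul (p ^ R) l = X l ^ p ^ a l) (t : ℕ) (l : τ) :
    G.mul (p ^ (R * t)) l = X l ^ p ^ (a l * t) := by
  induction t with
  | zero => simp [mul_one_eq]
  | succ t ih =>
    rw [Nat.mul_succ, pow_add, FGL.mul_mul, cmp, ih, map_pow, (TN.of_cc (G.mul0 _)).ev_X, h,
      ← pow_mul, ← pow_add, Nat.mul_succ, add_comm]

theorem IsProd.diag (h : IsProd G H P) (hG : Diag p G) (hH : Diag p H) : Diag p P := by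
  obtain ⟨R, a, hR, ha⟩ := hG
  obtain ⟨R', a', hR', ha'⟩ := hH
  refine ⟨R * R', Sum.elim (fun l => a l * R') fun l => a' l * R, Nat.mul_pos hR hR',
    Sum.rec (fun l => ?_) fun l => ?_⟩
  · have h1 := congrFun (h.fst.cmp_mul (p ^ (R * R'))) l
    rw [cmp, cmp, diag_pow ha, map_pow, (tn_X _).ev_X, Function.comp,
      (TN.of_cc (P.mul0 _)).ev_X] at h1
    exact h1
  · have h1 := congrFun (h.snd.cmp_mul (p ^ (R * R'))) l
    rw [cmp, cmp, mul_comm R R', diag_pow ha', map_pow, (tn_X _).ev_X, Function.comp,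
      (TN.of_cc (P.mul0 _)).ev_X, mul_comm R' R] at h1
    exact h1

theorem Isog.dmd (h : Isog p G H) (hH : Diag p H) : Nonempty (DMD p G) := by
  obtain ⟨c, e, e', he, he', h1, h2⟩ := h
  obtain ⟨R, a, hR, ha⟩ := hH
  obtain ⟨t, ht⟩ : ∃ t, R * c = t + c := ⟨R * c - c, by
    have := Nat.le_mul_of_pos_left c hR
    omega⟩
  have hm := (IsHom.mul H (p ^ t)).comp he'
  refine ⟨⟨τ', H, R, c, a, e, _, hR, ha, he, hm, cmp_eq_mul he hm ?_, cmp_eq_mul hm he ?_⟩⟩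
  · rw [act_comp (IsHom.mul H _) he', act_mul, map_nsmul, act_of_mul he he' h1, ← mul_nsmul', ht,
      pow_add]
  · rw [act_comp (IsHom.mul H _) he', act_mul, act_of_mul he' he h2, ← mul_nsmul', ht, pow_add]

theorem isog_split {σ σ' : Type} [Finite σ] [Finite σ'] {Γ : FGL S σ} {N : FGL S σ'}
    (h : IsProd G H P) (hN : Isog p N H) {i₁ : σ → MvPowerSeries τ S} {i₂ : σ → MvPowerSeries σ' S}
    {π₁ : τ → MvPowerSeries σ S} {π₂ : σ' → MvPowerSeries σ S} (hi₁ : IsHom G Γ i₁)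
    (hi₂ : IsHom N Γ i₂) (hπ₁ : IsHom Γ G π₁) (hπ₂ : IsHom Γ N π₂) (h11 : cmp π₁ i₁ = X)
    (h22 : cmp π₂ i₂ = X) (h12 : cmp π₁ i₂ = 0) (h21 : cmp π₂ i₁ = 0)
    (hs : Γ.add C (cmp i₁ π₁) (cmp i₂ π₂) = X) : Isog p Γ P := by
  obtain ⟨c, e, e', he, he', h1, h2⟩ := hN
  have hA := hi₁.comp h.fst
  have hB := hi₂.comp (he.comp h.snd)
  have hC := (IsHom.mul G (p ^ c)).comp hπ₁
  have hD := he'.comp hπ₂
  refine ⟨c, _, _, hA.add hB, h.lift hC hD, cmp_eq_mul (hA.add hB) (h.lift hC hD) ?_,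
    cmp_eq_mul (h.lift hC hD) (hA.add hB) ?_⟩
  · have h3 : hi₁.act C (mX σ S) (hπ₁.act C (mX σ S) Γ.univ) +
        hi₂.act C (mX σ S) (hπ₂.act C (mX σ S) Γ.univ) = Γ.univ := by
      rw [← act_comp, ← act_comp, ← act_add]
      exact FGL.Pts.ext ((act_univ _).trans hs)
    rw [act_add hA hB, act_comp hi₁ h.fst, act_comp hi₂ (he.comp h.snd), act_comp he h.snd,
      h.fst_lift hC hD, h.snd_lift hC hD, act_comp (IsHom.mul G _) hπ₁, act_comp he' hπ₂,
      act_mul, act_of_mul he he' h1, map_nsmul, map_nsmul, ← nsmul_add, h3]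
  · refine h.ext ?_ ?_
    · rw [h.fst_lift hC hD, act_comp (IsHom.mul G _) hπ₁, act_mul, act_add hA hB,
        act_comp hi₁ h.fst, act_comp hi₂ (he.comp h.snd), map_add,
        act_of_X hπ₁ hi₁ h11, act_of_zero hπ₁ hi₂ h12, add_zero, map_nsmul]
    · rw [h.snd_lift hC hD, act_comp he' hπ₂, act_add hA hB, act_comp hi₁ h.fst,
        act_comp hi₂ (he.comp h.snd), map_add, act_of_X hπ₂ hi₂ h22, act_of_zero hπ₂ hi₁ h21,
        zero_add, act_comp he h.snd, act_of_mul he' he h2, map_nsmul]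

end Pts

theorem main {K : Type u} [Field K] [IsAlgClosed K] (p : ℕ) [Fact p.Prime] [CharP K p] (g : ℕ) :
    ∀ (τ : Type) [Finite τ] (G : FGL K τ), Nat.card τ = g → G.FH p →
      ∃ (ρ : Type) (_ : Finite ρ) (H : FGL K ρ), Isog p G H ∧ Diag p H := by
  induction g using Nat.strong_induction_on with
  | _ g ih =>
    intro τ _ G hg hG
    rcases isEmpty_or_nonempty τ with hτ | hτ
    · exact ⟨τ, inferInstance, G, Isog.refl G, 1, fun _ => 0, one_pos, fun l => hτ.elim l⟩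
    obtain ⟨ρ, _, G', w, ξ, c, r, s, ψ, hc, hw, hξ, h1, h2, hG', hr, hs, hψ, hm, hn⟩ :=
      hG.step p
    obtain ⟨m, n, H₁, N, i₁, i₂, π₁, π₂, hlt, hN, hd, hi₁, hi₂, hπ₁, hπ₂, h11, h22, h12, h21,
      hsum⟩ := FGL.split p hG' hr hψ hm hn
    obtain ⟨ρ', _, H₂, h3, h4⟩ := ih n (by omega) (Fin n) N (by simp) hN
    obtain ⟨P, hP⟩ := FGL.prod_aux H₁ H₂
    have hP' : IsProd H₁ H₂ P := hP
    exact ⟨_, inferInstance, P, Isog.trans ⟨c, ξ, w, hξ, hw, h1, h2⟩
      (isog_split hP' h3 hi₁ hi₂ hπ₁ hπ₂ h11 h22 h12 h21 hsum),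
      hP'.diag ⟨s, fun _ => r, hs, hd⟩ h4⟩

end DM7b

variable {K : Type u} [Field K] [IsAlgClosed K] (p : ℕ) [Fact p.Prime] [CharP K p]

theorem dm {τ : Type} [Finite τ] {G : FGL K τ} (hG : G.FH p) : Nonempty (DMD p G) := by
  obtain ⟨ρ, _, H, h1, h2⟩ := DM7b.main p _ τ G rfl hG
  exact h1.dmd h2

end MLF
end
end

-- merged part: Pool.Agent.Work.MP_29d410_ag.HullB
section
-- merged part: Pool.Agent.Work.MP_29d410_ag.DM8
section
/-!
# Consequences of the diagonal form of `[p ^ R]`; endomorphisms over a finite field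

Plan.  `diag_coeff`: `f l (Z j ^ Q j) = (f l Z) ^ Q l` reads `c α = (c β) ^ Q l` when
`α j * Q j = β j * Q l` for all `j`, and `c α = 0` if there is no such `β`
(`coeff_ev_pow`, `pow_eq_ev`).  If `α j ≠ 0` and `Q j < Q l`, iterate: the exponent of `p` in
`α j` drops each time.  If `Q j > Q l` and the ring is reduced iterate in the other direction.
Apply this to `H.F l` (two sets of variables), which commutes with `[p ^ R]` (`IsHom.mul`).
`endo_finite`: two endomorphisms congruent modulo `𝔪 ^ (p ^ m)` differ by a homomorphism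
vanishing to that order (`FGL.Pts.sub_mem_iff` for the points of `G` in `C⟦Z⟧`), which factors
through `F ^ m` (`IsHom.factor_frob`), `F ^ m = Ξ ∘ [p]` (`frob_eq`) with `s ∣ m`; the factor
`ξ` with `h = ξ ∘ [p] = [p] ∘ ξ` is unique (`mul_inj`), so is fixed by `σ ^ s`.
-/

set_option linter.unusedSectionVars false

open MvPowerSeries

namespace MLF

universe u

variable (p : ℕ) [Fact p.Prime] {τ : Type} [Finite τ]

theorem DM8_coeff {T : Type u} [CommRing T] (q : τ → ℕ) (hq : ∀ i, 0 < q i)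
    (g : MvPowerSeries τ T) {γ d : τ →₀ ℕ} (e : ∀ i, γ i = q i * d i) :
    coeff γ (ev C (fun i => X i ^ q i) g : MvPowerSeries τ T) = coeff d g := by
  rw [← coeff_ev_pow q hq g d]
  congr 2
  ext i
  simp [e]

open Classical in
/-- A series is unchanged when variables that do not occur in it are killed. -/
theorem DM8_kill {T : Type u} [CommRing T] (S : Set τ) {f : MvPowerSeries τ T}
    (h : ∀ α, coeff α f ≠ 0 → ∀ k, α k ≠ 0 → k ∈ S) :
    ev C (fun k => if k ∈ S then (X k : MvPowerSeries τ T) else 0) f = f := by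
  have tn : TN fun k => if k ∈ S then (X k : MvPowerSeries τ T) else 0 :=
    TN.of_cc fun k => by split_ifs <;> simp
  rw [← tn.eq_ev (θ := rescale fun k => if k ∈ S then (1 : T) else 0) ⟨fun c => ?_, fun k => ?_⟩]
  · ext α
    rw [coeff_rescale]
    by_cases c : coeff α f = 0
    · rw [c, mul_zero]
    · rw [Finsupp.prod, Finset.prod_eq_one, one_mul]
      intro k hk
      rw [if_pos (h α c k (Finsupp.mem_support_iff.1 hk)), one_pow]
  · ext α
    rw [coeff_rescale, coeff_C]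
    split_ifs with e
    · simp [e]
    · simp
  · ext α
    rw [coeff_rescale, coeff_X]
    by_cases e' : k ∈ S <;> by_cases e : α = Finsupp.single k 1 <;> simp [e, e', coeff_X]

theorem DM8_congr {T T' : Type u} [CommRing T] [CommRing T'] (S : Set τ) {f : MvPowerSeries τ T}
    (h : ∀ α, coeff α f ≠ 0 → ∀ k, α k ≠ 0 → k ∈ S) (φ : T →+* T') {x y : τ → T'} (hx : TN x)
    (hy : TN y) (e : ∀ k ∈ S, x k = y k) : ev φ x f = ev φ y f := by
  classical
  have c : ∀ k, constantCoeff (if k ∈ S then (X k : MvPowerSeries τ T) else 0) = 0 := fun k => by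
    split_ifs <;> simp
  have a := ev_cmp (g := fun _ : Unit => f) c φ hx ()
  have b := ev_cmp (g := fun _ : Unit => f) c φ hy ()
  simp only [cmp, DM8_kill S h] at a b
  rw [a, b]
  congr 2
  funext k
  split_ifs with m
  · rw [hx.ev_X, hy.ev_X, e k m]
  · rw [map_zero, map_zero]

theorem diag_coeff {T : Type u} [CommRing T] [CharP T p] {a : τ → ℕ} {b : ℕ}
    {f : MvPowerSeries τ T} (h : ev C (fun j => X j ^ p ^ a j) f = f ^ p ^ b) (α : τ →₀ ℕ) :
    (∀ j, α j ≠ 0 → a j < b → coeff α f = 0) ∧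
    ((∀ j, α j ≠ 0 → a j = b) → coeff α f ^ p ^ b = coeff α f) ∧
    (IsReduced T → ∀ j, α j ≠ 0 → b < a j → coeff α f = 0) := by
  have p1 : 1 < p := (Fact.out : p.Prime).one_lt
  have pp : ∀ n, 0 < p ^ n := fun n => by positivity
  rw [pow_eq_ev p b f] at h
  let m : (τ → ℕ) → τ →₀ ℕ := Finsupp.equivFunOnFinite.symm
  have hm : ∀ u i, m u i = u i := fun _ _ => rfl
  have K : ∀ α β : τ →₀ ℕ, (∀ j, p ^ a j * α j = p ^ b * β j) →
      coeff α f = coeff β f ^ p ^ b := fun α β e => by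
    have := congrArg (coeff (m fun j => p ^ a j * α j)) h
    rwa [DM8_coeff _ (fun _ => pp _) _ (d := α) fun _ => rfl,
      DM8_coeff (fun _ => p ^ b) (fun _ => pp _) _ (d := β) e, coeff_map,
      iterateFrobenius_def] at this
  have K0 : ∀ (α : τ →₀ ℕ) i, ¬ p ^ b ∣ p ^ a i * α i → coeff α f = 0 := fun α i e => by
    have := congrArg (coeff (m fun j => p ^ a j * α j)) h
    rwa [DM8_coeff _ (fun _ => pp _) _ (d := α) fun _ => rfl,
      coeff_ev_pow_of_not_dvd (fun _ => p ^ b) (fun _ => pp _) _ (i := i) e] at this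
  have K1 : ∀ (β : τ →₀ ℕ) i, ¬ p ^ a i ∣ p ^ b * β i → coeff β f ^ p ^ b = 0 := fun β i e => by
    have := congrArg (coeff (m fun j => p ^ b * β j)) h
    rw [DM8_coeff (fun _ => p ^ b) (fun _ => pp _) _ (d := β) fun _ => rfl,
      coeff_ev_pow_of_not_dvd (fun j => p ^ a j) (fun _ => pp _) _ (i := i) e, coeff_map,
      iterateFrobenius_def] at this
    exact this.symm
  refine ⟨fun j h0 hj => ?_, fun e => (K α α fun j => ?_).symm, fun r j h0 hj => ?_⟩
  · induction hn : α j using Nat.strong_induction_on generalizing α with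
    | _ n ih =>
      by_cases c : ∀ i, p ^ b ∣ p ^ a i * α i
      · choose β hβ using c
        have e := hβ j
        have l : p ^ a j * α j < p ^ b * α j :=
          Nat.mul_lt_mul_of_pos_right (Nat.pow_lt_pow_right p1 hj) (Nat.pos_of_ne_zero h0)
        have l' : β j < α j := Nat.lt_of_mul_lt_mul_left (e ▸ l)
        have n0 : β j ≠ 0 := fun z => by
          rw [z, mul_zero] at e
          exact mul_ne_zero (pp _).ne' h0 e
        rw [K α (m β) hβ, ih (β j) (hn ▸ l') (m β) n0 rfl, zero_pow (pp b).ne']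
      · push Not at c
        obtain ⟨i, c⟩ := c
        exact K0 α i c
  · by_cases c : α j = 0
    · simp [c]
    · rw [e j c]
  · induction hn : α j using Nat.strong_induction_on generalizing α with
    | _ n ih =>
      refine IsNilpotent.eq_zero ⟨p ^ b, ?_⟩
      by_cases c : ∀ i, p ^ a i ∣ p ^ b * α i
      · choose β hβ using c
        have e := hβ j
        have l : p ^ b * α j < p ^ a j * α j :=
          Nat.mul_lt_mul_of_pos_right (Nat.pow_lt_pow_right p1 hj) (Nat.pos_of_ne_zero h0)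
        have l' : β j < α j := Nat.lt_of_mul_lt_mul_left (e ▸ l)
        have n0 : β j ≠ 0 := fun z => by
          rw [z, mul_zero] at e
          exact mul_ne_zero (pp _).ne' h0 e
        rw [← K (m β) α fun i => (hβ i).symm]
        exact ih (β j) (hn ▸ l') (m β) n0 rfl
      · push Not at c
        obtain ⟨i, c⟩ := c
        exact K1 α i c

variable {K : Type u} [Field K] [CharP K p] {G : FGL K τ}

theorem DMD.a_pos (d : DMD p G) (l : d.ρ) : 0 < d.a l := by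
  classical
  refine Nat.pos_of_ne_zero fun e => ?_
  have h := d.H.mul_sub_mem (p ^ d.R) l
  have z : ((p ^ d.R : ℕ) : MvPowerSeries d.ρ K) = 0 := by
    rw [← map_natCast C, Nat.cast_pow, CharP.cast_eq_zero, zero_pow d.R_pos.ne', map_zero]
  rw [d.mulH, e, z, zero_mul, sub_zero, pow_zero, pow_one] at h
  have := mem_mX_pow.1 h (Finsupp.single l 1) (by simp)
  simp [coeff_X] at this

theorem DM8_diag (d : DMD p G) (l : d.ρ) :
    ev C (fun j => X j ^ p ^ Sum.elim d.a d.a j) (d.H.F l) = d.H.F l ^ p ^ d.a l := by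
  have h := (IsHom.mul d.H (p ^ d.R)).hom l
  have t : TN d.H.F := TN.of_cc d.H.F0
  have t₁ : TN (X ∘ Sum.inl : d.ρ → MvPowerSeries (d.ρ ⊕ d.ρ) K) := TN.of_cc fun _ => by simp
  have t₂ : TN (X ∘ Sum.inr : d.ρ → MvPowerSeries (d.ρ ⊕ d.ρ) K) := TN.of_cc fun _ => by simp
  simp only [d.mulH, map_pow, t.ev_X, t₁.ev_X, t₂.ev_X, FGL.add] at h
  rw [h]
  congr 2
  funext j
  cases j <;> rfl

theorem DM8_supp (d : DMD p G) (l : d.ρ) (α : d.ρ ⊕ d.ρ →₀ ℕ) (h : coeff α (d.H.F l) ≠ 0)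
    (k : d.ρ ⊕ d.ρ) (hk : α k ≠ 0) : k ∈ {k | Sum.elim d.a d.a k = d.a l} := by
  obtain ⟨a, -, b⟩ := diag_coeff p (DM8_diag p d l) α
  rcases lt_trichotomy (Sum.elim d.a d.a k) (d.a l) with c | c | c
  · exact absurd (a k hk c) h
  · exact c
  · exact absurd (b inferInstance k hk c) h

/-- The coefficients of `H` lie in a finite field. -/
theorem DMD.coeff_fix (d : DMD p G) : ∃ s, 0 < s ∧ ∀ l α,
    coeff α (d.H.F l) ^ p ^ s = coeff α (d.H.F l) := by
  have := Fintype.ofFinite d.ρ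
  refine ⟨∏ l, d.a l, Finset.prod_pos fun l _ => d.a_pos p l, fun l α => ?_⟩
  by_cases c : coeff α (d.H.F l) = 0
  · rw [c, zero_pow (pow_pos (Fact.out : p.Prime).pos _).ne']
  have e := (diag_coeff p (DM8_diag p d l) α).2.1 (DM8_supp p d l α c)
  obtain ⟨k, hk⟩ := Finset.dvd_prod_of_mem d.a (Finset.mem_univ l)
  rw [hk]
  clear hk
  induction k with
  | zero => simp
  | succ k ih => rw [mul_add, mul_one, pow_add, pow_mul, ih, e]

open Classical in
/-- The projection on a set of blocks is an endomorphism. -/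
theorem DMD.proj (d : DMD p G) (B : Set ℕ) :
    IsHom d.H d.H fun l => if d.a l ∈ B then X l else 0 := by
  have t : TN d.H.F := TN.of_cc d.H.F0
  have t₁ : TN (X ∘ Sum.inl : d.ρ → MvPowerSeries (d.ρ ⊕ d.ρ) K) := TN.of_cc fun _ => by simp
  have t₂ : TN (X ∘ Sum.inr : d.ρ → MvPowerSeries (d.ρ ⊕ d.ρ) K) := TN.of_cc fun _ => by simp
  refine ⟨fun l => by split_ifs <;> simp, fun l => ?_⟩
  have e : (Sum.elim (fun j => ev C (X ∘ Sum.inl) (if d.a j ∈ B then X j else 0))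
      (fun j => ev C (X ∘ Sum.inr) (if d.a j ∈ B then X j else 0)) :
        d.ρ ⊕ d.ρ → MvPowerSeries (d.ρ ⊕ d.ρ) K) =
      fun k => if Sum.elim d.a d.a k ∈ B then X k else 0 := by
    funext k
    cases k <;> simp only [Sum.elim_inl, Sum.elim_inr] <;> split_ifs <;>
      simp [t₁.ev_X, t₂.ev_X]
  have s : TN fun k => if Sum.elim d.a d.a k ∈ B then (X k : MvPowerSeries (d.ρ ⊕ d.ρ) K) else 0 :=
    TN.of_cc fun k => by split_ifs <;> simp
  rw [FGL.add, e]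
  split_ifs with c
  · rw [t.ev_X, DM8_congr _ (DM8_supp p d l) C s (y := X) (TN.of_cc fun _ => by simp)
      fun k (hk : _ = _) => if_pos (hk ▸ c)]
    simpa using (ev_C_X (RingHom.id K) (d.H.F l)).symm
  · rw [map_zero, DM8_congr _ (DM8_supp p d l) C s (y := 0) (TN.of_cc fun _ => by simp)
      fun k (hk : _ = _) => if_neg (hk ▸ c), ev_zero, d.H.F0, map_zero]

open Classical in
theorem DMD.add_proj (d : DMD p G) (B : Set ℕ) :
    d.H.add C (fun l => if d.a l ∈ B then (X l : MvPowerSeries d.ρ K) else 0)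
      (fun l => if d.a l ∈ B then 0 else X l) = X := by
  funext l
  have s : TN (Sum.elim (fun l => if d.a l ∈ B then (X l : MvPowerSeries d.ρ K) else 0)
      fun l => if d.a l ∈ B then 0 else X l) :=
    TN.of_cc fun k => by
      cases k <;> simp only [Sum.elim_inl, Sum.elim_inr] <;> split_ifs <;> simp
  rw [FGL.add]
  by_cases c : d.a l ∈ B
  · rw [DM8_congr _ (DM8_supp p d l) C s (y := Sum.elim X 0)
      (TN.of_cc fun k => by cases k <;> simp) fun k (hk : _ = _) => ?_, d.H.zero]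
    cases k <;> exact if_pos (by rw [← hk] at c; exact c)
  · rw [DM8_congr _ (DM8_supp p d l) C s (y := Sum.elim 0 X)
      (TN.of_cc fun k => by cases k <;> simp) fun k (hk : _ = _) => ?_]
    · exact congrArg (fun x => FGL.Pts.v x l) (zero_add d.H.univ)
    · cases k <;> exact if_neg (by rw [← hk] at c; exact c)

theorem DMD.fh (d : DMD p G) : d.H.FH p := by
  obtain ⟨N, hN⟩ := (Set.finite_range fun l => p ^ d.a l).bddAbove
  refine ⟨N, fun l => Ideal.pow_mem_of_pow_mem _ ?_ (hN ⟨l, rfl⟩)⟩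
  obtain ⟨r, e⟩ := Nat.exists_eq_succ_of_ne_zero d.R_pos.ne'
  rw [← d.mulH, e, pow_succ, FGL.mul_mul]
  exact (TN.of_cc (d.H.mul0 p)).ev_mem C (d.H.mul0 _ l) fun i => Ideal.subset_span ⟨i, rfl⟩

end MLF
end

-- merged part: Pool.Agent.Work.MP_29d410_ag.DM8b
section
/-!
# Consequences of the diagonal form of `[p ^ R]`; endomorphisms over a finite field

Plan.  `diag_coeff`: `f l (Z j ^ Q j) = (f l Z) ^ Q l` reads `c α = (c β) ^ Q l` when
`α j * Q j = β j * Q l` for all `j`, and `c α = 0` if there is no such `β`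
(`coeff_ev_pow`, `pow_eq_ev`).  If `α j ≠ 0` and `Q j < Q l`, iterate: the exponent of `p` in
`α j` drops each time.  If `Q j > Q l` and the ring is reduced iterate in the other direction.
Apply this to `H.F l` (two sets of variables), which commutes with `[p ^ R]` (`IsHom.mul`).
`endo_finite`: two endomorphisms congruent modulo `𝔪 ^ (p ^ m)` differ by a homomorphism
vanishing to that order (`FGL.Pts.sub_mem_iff` for the points of `G` in `C⟦Z⟧`), which factors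
through `F ^ m` (`IsHom.factor_frob`), `F ^ m = Ξ ∘ [p]` (`frob_eq`) with `s ∣ m`; the factor
`ξ` with `h = ξ ∘ [p] = [p] ∘ ξ` is unique (`mul_inj`), so is fixed by `σ ^ s`.
-/

open MvPowerSeries

namespace MLF

universe u

variable (p : ℕ) [Fact p.Prime] {τ : Type} [Finite τ]

variable {K : Type u} [Field K] [CharP K p] {G : FGL K τ}

/-- Endomorphisms defined over the field with `p ^ s` elements. -/
def FGL.IsEnd (G : FGL K τ) (s : ℕ) (f : τ → MvPowerSeries τ K) : Prop :=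
  IsHom G G f ∧ ∀ i α, coeff α (f i) ^ p ^ s = coeff α (f i)

section DM8bAux

variable {S S' : Type u} [CommRing S] [CommRing S'] {τ₁ τ₂ : Type} [Finite τ₁] [Finite τ₂]

theorem DM8b_map_ev (σ : S →+* S') {x : τ₁ → MvPowerSeries τ₂ S}
    (hx : ∀ i, constantCoeff (x i) = 0) (f : MvPowerSeries τ₁ S) :
    map σ (ev C x f) = ev C (fun i => map σ (x i)) (map σ f) := by
  have hx' : ∀ i, constantCoeff (map σ (x i)) = 0 := fun i => by
    rw [constantCoeff_map, hx, map_zero]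
  have h1 := (TN.of_cc hx).map_ev (map σ) (TN.of_cc hx') C f
  rw [h1, (TN.of_cc hx').ev_map]
  have h2 : (map σ : MvPowerSeries τ₂ S →+* _).comp C = C.comp σ := by
    ext1 c
    simp
  rw [h2]
  rfl

end DM8bAux

omit [Finite τ] in
theorem DM8b_fix {τ₁ : Type} {n : ℕ} {f : MvPowerSeries τ₁ K} :
    (∀ α, coeff α f ^ p ^ n = coeff α f) ↔ map (iterateFrobenius K p n) f = f := by
  refine ⟨fun h => MvPowerSeries.ext fun α => ?_, fun h α => ?_⟩
  · rw [coeff_map, iterateFrobenius_def, h]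
  · have := congrArg (coeff α) h
    rwa [coeff_map, iterateFrobenius_def] at this

theorem DM8b_map_eq {n : ℕ} (hs : ∀ i α, coeff α (G.F i) ^ p ^ n = coeff α (G.F i)) :
    G.map (iterateFrobenius K p n) = G :=
  FGL.ext' (funext fun i => by rw [FGL.map_F, (DM8b_fix p).1 (hs i)])

theorem DM8b_pow_mul {x : K} {n : ℕ} (h : x ^ p ^ n = x) (b : ℕ) : x ^ p ^ (b * n) = x := by
  induction b with
  | zero => simp
  | succ b ih => rw [add_mul, one_mul, pow_add, pow_mul, ih, h]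

theorem DM8b_cancel {n : ℕ} {ξ w : τ → MvPowerSeries τ K} (hw0 : ∀ i, constantCoeff (w i) = 0)
    (hw : ∀ i α, coeff α (w i) ^ p ^ n = coeff α (w i))
    (hi : Function.Injective (ev C w : MvPowerSeries τ K →+* _))
    (h : ∀ i α, coeff α (cmp ξ w i) ^ p ^ n = coeff α (cmp ξ w i)) (i : τ) (α : τ →₀ ℕ) :
    coeff α (ξ i) ^ p ^ n = coeff α (ξ i) := by
  refine (DM8b_fix p).2 (hi ?_) α
  have h1 := (DM8b_fix p).1 (h i)
  unfold cmp at h1
  rw [DM8b_map_ev _ hw0] at h1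
  simp only [(DM8b_fix p).1 (hw _)] at h1
  exact h1

variable [PerfectField K] {s : ℕ}

theorem FGL.isEnd_frob (hs : ∀ i α, coeff α (G.F i) ^ p ^ s = coeff α (G.F i)) :
    G.IsEnd p s fun i => X i ^ p ^ s := by
  refine ⟨?_, fun i => (DM8b_fix p).2 (by rw [map_pow, map_X])⟩
  have h := IsHom.frob G p s
  rwa [DM8b_map_eq p hs] at h

theorem FGL.IsEnd.cmp {f g : τ → MvPowerSeries τ K} (hf : G.IsEnd p s f) (hg : G.IsEnd p s g) :
    G.IsEnd p s (cmp f g) := by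
  refine ⟨hf.1.comp hg.1, fun i => (DM8b_fix p).2 ?_⟩
  unfold MLF.cmp
  rw [DM8b_map_ev _ hg.1.cc, (DM8b_fix p).1 (hf.2 i)]
  simp only [(DM8b_fix p).1 (hg.2 _)]

theorem FGL.IsEnd.add (hs : ∀ i α, coeff α (G.F i) ^ p ^ s = coeff α (G.F i))
    {f g : τ → MvPowerSeries τ K} (hf : G.IsEnd p s f) (hg : G.IsEnd p s g) :
    G.IsEnd p s (G.add C f g) := by
  refine ⟨hf.1.add hg.1, fun i => (DM8b_fix p).2 ?_⟩
  unfold FGL.add
  rw [DM8b_map_ev _ (x := Sum.elim f g) (Sum.rec hf.1.cc hg.1.cc), (DM8b_fix p).1 (hs i)]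
  have h : (fun j => MvPowerSeries.map (iterateFrobenius K p s) (Sum.elim f g j)) = Sum.elim f g := by
    funext j
    rcases j with j | j
    · exact (DM8b_fix p).1 (hf.2 j)
    · exact (DM8b_fix p).1 (hg.2 j)
  rw [h]

theorem FGL.IsEnd.neg (hs : ∀ i α, coeff α (G.F i) ^ p ^ s = coeff α (G.F i))
    {f : τ → MvPowerSeries τ K} (hf : G.IsEnd p s f) : G.IsEnd p s (MLF.cmp G.N f) := by
  refine ⟨hf.1.neg, fun i => (DM8b_fix p).2 ?_⟩
  have h1 : (G.map (iterateFrobenius K p s)).N i = MvPowerSeries.map (iterateFrobenius K p s) (G.N i) :=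
    (G.map_aux (iterateFrobenius K p s)).choose_spec.2 i
  rw [DM8b_map_eq p hs] at h1
  unfold MLF.cmp
  rw [DM8b_map_ev _ hf.1.cc, ← h1]
  simp only [(DM8b_fix p).1 (hf.2 _)]

theorem FGL.isEnd_mul (hs : ∀ i α, coeff α (G.F i) ^ p ^ s = coeff α (G.F i)) (n : ℕ) :
    G.IsEnd p s (G.mul n) := by
  refine ⟨IsHom.mul G n, fun i => (DM8b_fix p).2 ?_⟩
  rw [← FGL.map_mul, DM8b_map_eq p hs]

/-- Verschiebung. -/
theorem FGL.exists_ver (hs : ∀ i α, coeff α (G.F i) ^ p ^ s = coeff α (G.F i)) :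
    ∃ V, G.IsEnd p s V ∧ cmp V (fun i => X i ^ p ^ s) = G.mul (p ^ s) := by
  have h1 : ∀ i, G.mul (p ^ s) i ∈ mX τ K ^ p ^ s := fun i => by
    refine (?_ : Ideal.span (Set.range fun j => G.univ.v j ^ p ^ s) ≤ mX τ K ^ p ^ s)
      (FGL.Pts.nsmul_mem p (CharP.cast_eq_zero K p) s G.univ i)
    rw [Ideal.span_le]
    rintro _ ⟨j, rfl⟩
    exact Ideal.pow_mem_pow (G.univ.mem j) _
  obtain ⟨V, hV, e⟩ := IsHom.factor_frob p (IsHom.mul G (p ^ s)) s h1
  rw [DM8b_map_eq p hs] at hV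
  refine ⟨V, ⟨hV, ?_⟩, e.symm⟩
  have hF := G.isEnd_frob p hs
  refine DM8b_cancel p hF.1.cc hF.2
    (ev_pow_inj (fun _ => p ^ s) fun _ => pow_pos (Fact.out : p.Prime).pos _) ?_
  rw [← e]
  exact (G.isEnd_mul p hs _).2

theorem FGL.endo_finite (hG : G.FH p) (hs0 : 0 < s)
    (hs : ∀ i α, coeff α (G.F i) ^ p ^ s = coeff α (G.F i)) :
    ∃ F : Set (τ → MvPowerSeries τ K), F.Finite ∧ (∀ f ∈ F, G.IsEnd p s f) ∧
      ∀ f, G.IsEnd p s f → ∃ f₀ ∈ F, ∃ ξ, G.IsEnd p s ξ ∧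
        f = G.add C f₀ (cmp (G.mul p) ξ) := by
  classical
  obtain ⟨b, hb⟩ := hG.frob_eq p
  obtain ⟨Ξ, hΞ, eΞ⟩ := hb 1 (b * s) (Nat.mul_le_mul_left b hs0)
  have hm : G.map (iterateFrobenius K p (b * s)) = G :=
    DM8b_map_eq p fun i α => DM8b_pow_mul p (hs i α) b
  rw [hm] at hΞ
  rw [pow_one] at eΞ
  have hfix : {x : K | x ^ p ^ s = x}.Finite := by
    refine (Polynomial.roots (Polynomial.X ^ p ^ s - Polynomial.X : Polynomial K)).toFinset.finite_toSet.subset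
      fun x hx => ?_
    have h0 := FiniteField.X_pow_card_pow_sub_X_ne_zero K hs0.ne' (Fact.out : p.Prime).one_lt
    simp only [Finset.mem_coe, Multiset.mem_toFinset, Polynomial.mem_roots h0, Polynomial.IsRoot,
      Polynomial.eval_sub, Polynomial.eval_pow, Polynomial.eval_X]
    exact sub_eq_zero.2 hx
  have := (Finsupp.finite_of_degree_lt (σ := τ) (p ^ (b * s))).to_subtype
  let t : (τ → MvPowerSeries τ K) → τ × {d : τ →₀ ℕ | d.degree < p ^ (b * s)} → K :=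
    fun f z => coeff z.2.1 (f z.1)
  have hfin : (t '' {f | G.IsEnd p s f}).Finite := by
    refine (Set.Finite.pi' fun _ : τ × {d : τ →₀ ℕ | d.degree < p ^ (b * s)} => hfix).subset ?_
    rintro _ ⟨f, hf, rfl⟩ z
    exact hf.2 z.1 z.2.1
  obtain ⟨F, hF1, hF2, hF3⟩ := hfin.exists_subset_finite_image_eq subset_rfl
  refine ⟨F, hF2, hF1, fun f hf => ?_⟩
  have h1 : t f ∈ t '' F := by rw [hF3]; exact ⟨f, hf, rfl⟩
  obtain ⟨f₀, hf₀, e⟩ := h1
  have hE : G.IsEnd p s f₀ := hF1 hf₀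
  let x : G.Pts C (mX τ K) := ⟨f, fun i => mem_mX.2 (hf.1.cc i)⟩
  let y : G.Pts C (mX τ K) := ⟨f₀, fun i => mem_mX.2 (hE.1.cc i)⟩
  have h2 : ∀ i, (x - y).v i ∈ mX τ K ^ p ^ (b * s) := by
    refine (FGL.Pts.sub_mem_iff x y _).2 fun i => mem_mX_pow.2 fun d hd => ?_
    have h3 : coeff d (f₀ i) = coeff d (f i) := congrFun e (i, ⟨d, hd⟩)
    rw [map_sub]
    exact sub_eq_zero.2 h3.symm
  have h3 : G.IsEnd p s (x - y).v := by
    rw [sub_eq_add_neg]
    exact hf.add p hs (hE.neg p hs)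
  obtain ⟨h', hh', e'⟩ := IsHom.factor_frob p h3.1 (b * s) h2
  rw [hm] at hh'
  rw [← eΞ, ← cmp_assoc hΞ.cc (G.mul0 p)] at e'
  have h4 := hh'.comp hΞ
  have hi := hG.mul_inj p 1
  rw [pow_one] at hi
  refine ⟨f₀, hf₀, cmp h' Ξ, ⟨h4, ?_⟩, ?_⟩
  · refine DM8b_cancel p (G.mul0 p) (G.isEnd_mul p hs p).2 hi ?_
    rw [← e']
    exact h3.2
  · rw [← h4.cmp_mul, ← e']
    have h5 : x = y + (x - y) := by abel
    exact congrArg FGL.Pts.v h5

end MLF
end

-- merged part: Pool.Agent.Work.MP_29d410_ag.FL0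
section
/-!
# Arcs; multiplication by `p ^ n` improves congruences; twisting by Frobenius

Plan.  `cmp_mul_congr`: work with the points of `G` in `(O / ε ^ p ^ n)⟦Z⟧` with coordinates in the
ideal of the origin; `FGL.Pts.sub_mem_iff`, `FGL.Pts.nsmul_mem`.  `isHom_cmp_mul`: in two sets of
variables, `e (F_H) = G₁ (e X, e Y) ≡ G₂ (e X, e Y)` modulo `ε`.
`sigma_span`: the span `U` of the vectors `σ⁻ⁿ v`, `n ≥ n₀`, satisfies `σ⁻¹ U ⊆ U`; a semilinear
bijection preserves dimensions, so `σ⁻¹ U = U` and `v ∈ U`.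
`ev_eq_zero_of_twist`: the coefficient of `δ ^ m` in `ev C y f` is
`∑ (deg α ≤ m), coeff α f * coeff m (y ^ α)`.
`hom_blocks`: `Λ` commutes with `[p ^ R]` (`IsHom.cmp_mul`), `diag_coeff`; an element `c` with
`c ^ p ^ b = c` whose image under `res` vanishes is nilpotent, so zero.
-/

open MvPowerSeries

namespace MLF

universe u

/-- An arc: series without constant terms. -/
def Arc {R : Type u} [CommRing R] {ρ : Type} (y : ρ → PowerSeries R) : Prop :=
  ∀ l, PowerSeries.constantCoeff (y l) = 0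

/-- The arc lies on the zero set of `I`. -/
def Kills {R : Type u} [CommRing R] {ρ : Type} (I : Set (MvPowerSeries ρ R))
    (y : ρ → PowerSeries R) : Prop := ∀ h ∈ I, ev PowerSeries.C y h = 0

variable (p : ℕ) [Fact p.Prime] {τ ρ : Type} [Finite τ] [Finite ρ]

omit [Finite ρ] in
theorem FL0_ker {O : Type u} [CommRing O] (ε : O) (g g' : MvPowerSeries ρ O) :
    map (Ideal.Quotient.mk (Ideal.span {ε})) g = map (Ideal.Quotient.mk (Ideal.span {ε})) g' ↔
      g - g' ∈ Ideal.span {(C ε : MvPowerSeries ρ O)} := by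
  constructor
  · intro h
    have h1 : ∀ d, ∃ w, w * ε = coeff d (g - g') := fun d => by
      have := congrArg (coeff d) h
      rw [coeff_map, coeff_map, Ideal.Quotient.eq] at this
      rw [map_sub]
      exact Ideal.mem_span_singleton'.1 this
    choose w hw using h1
    refine Ideal.mem_span_singleton'.2 ⟨w, MvPowerSeries.ext fun d => ?_⟩
    rw [coeff_mul_C, ← hw]
    rfl
  · intro h
    obtain ⟨w, hw⟩ := Ideal.mem_span_singleton'.1 h
    rw [← sub_eq_zero, ← map_sub, ← hw, map_mul, map_C,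
      Ideal.Quotient.eq_zero_iff_mem.2 (Ideal.mem_span_singleton_self ε), map_zero, mul_zero]

theorem FL0_map_add {S S' : Type u} [CommRing S] [CommRing S'] (ψ : S →+* S') (G : FGL S τ)
    {a b : τ → MvPowerSeries ρ S} (ha : ∀ i, constantCoeff (a i) = 0)
    (hb : ∀ i, constantCoeff (b i) = 0) (i : τ) : map ψ (G.add C a b i) =
      (G.map ψ).add C (fun j => map ψ (a j)) (fun j => map ψ (b j)) i := by
  rw [FGL.add, FGL.add, FGL.map_F]
  exact (FG2_map_ev ψ (Sum.rec ha hb) (by rintro (j | j) <;> rfl) _).symm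

theorem FL0_map_ren {S S' : Type u} [CommRing S] [CommRing S'] (ψ : S →+* S') (e : τ → ρ)
    (g : MvPowerSeries τ S) :
    ev C (X ∘ e : τ → MvPowerSeries ρ S') (map ψ g) = map ψ (ev C (X ∘ e) g) :=
  FG2_map_ev ψ (FG3_X e) (fun j => by simp) g

section cong

variable {O : Type u} [CommRing O] (hp : (p : O) = 0) {ε : O}
include hp

theorem cmp_mul_congr (G : FGL O τ) (n : ℕ) {f f' : τ → MvPowerSeries ρ O}
    (hf : ∀ i, constantCoeff (f i) = 0) (hf' : ∀ i, constantCoeff (f' i) = 0)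
    (h : ∀ i, map (Ideal.Quotient.mk (Ideal.span {ε})) (f i) =
      map (Ideal.Quotient.mk (Ideal.span {ε})) (f' i)) (i : τ) :
    map (Ideal.Quotient.mk (Ideal.span {ε ^ p ^ n})) (cmp (G.mul (p ^ n)) f i) =
      map (Ideal.Quotient.mk (Ideal.span {ε ^ p ^ n})) (cmp (G.mul (p ^ n)) f' i) := by
  let x : G.Pts C (mX ρ O) := ⟨f, fun j => mem_mX.2 (hf j)⟩
  let y : G.Pts C (mX ρ O) := ⟨f', fun j => mem_mX.2 (hf' j)⟩
  have h1 := (FGL.Pts.sub_mem_iff x y _).2 fun j => (FL0_ker ε _ _).1 (h j)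
  have h2 : ∀ j, (p ^ n • x - p ^ n • y).v j ∈
      Ideal.span {(C (ε ^ p ^ n) : MvPowerSeries ρ O)} := fun j => by
    rw [← smul_sub]
    refine (Ideal.span_le.2 ?_ : _ ≤ _) (FGL.Pts.nsmul_mem p hp n (x - y) j)
    rintro _ ⟨k, rfl⟩
    obtain ⟨w, hw⟩ := Ideal.mem_span_singleton'.1 (h1 k)
    refine Ideal.mem_span_singleton'.2 ⟨w ^ p ^ n, ?_⟩
    simp only [← hw, mul_pow, map_pow]
  have h3 := (FGL.Pts.sub_mem_iff _ _ _).1 h2 i
  rw [FGL.Pts.nsmul_v, FGL.Pts.nsmul_v] at h3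
  exact (FL0_ker _ _ _).2 h3

theorem isHom_cmp_mul {G₁ G₂ : FGL O τ} {H : FGL O ρ} {e : τ → MvPowerSeries ρ O}
    (he : IsHom H G₁ e) (hG : G₁.map (Ideal.Quotient.mk (Ideal.span {ε})) =
      G₂.map (Ideal.Quotient.mk (Ideal.span {ε}))) (n : ℕ) :
    IsHom (H.map (Ideal.Quotient.mk (Ideal.span {ε ^ p ^ n})))
      (G₂.map (Ideal.Quotient.mk (Ideal.span {ε ^ p ^ n})))
      fun i => map (Ideal.Quotient.mk (Ideal.span {ε ^ p ^ n})) (cmp (G₂.mul (p ^ n)) e i) := by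
  have c0 : ∀ i, constantCoeff (cmp (G₂.mul (p ^ n)) e i) = 0 := fun i =>
    FG2_cc he.cc (G₂.mul0 _ i)
  refine ⟨fun i => by rw [constantCoeff_map, c0, map_zero], fun i => ?_⟩
  have c1 : ∀ j, constantCoeff (ev C (X ∘ Sum.inl : ρ → MvPowerSeries (ρ ⊕ ρ) O) (e j)) = 0 :=
    fun j => FG2_cc (FG3_X _) (he.cc j)
  have c2 : ∀ j, constantCoeff (ev C (X ∘ Sum.inr : ρ → MvPowerSeries (ρ ⊕ ρ) O) (e j)) = 0 :=
    fun j => FG2_cc (FG3_X _) (he.cc j)
  rw [FG2_map_ev _ H.F0 (H.map_F _)]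
  simp only [FL0_map_ren]
  rw [← FL0_map_add _ G₂ (fun j => FG2_cc (FG3_X _) (c0 j)) (fun j => FG2_cc (FG3_X _) (c0 j)),
    ev_cmp he.cc C (TN.of_cc H.F0), funext he.hom]
  simp only [ev_cmp he.cc C (TN.of_cc (FG3_X _))]
  rw [← (IsHom.mul G₂ (p ^ n)).ev_add (TN.of_cc (Sum.rec c1 c2))]
  refine cmp_mul_congr p hp G₂ n (fun j => FG2_cc (Sum.rec c1 c2) (G₁.F0 j))
    (fun j => FG2_cc (Sum.rec c1 c2) (G₂.F0 j)) (fun j => ?_) i
  exact (FL0_map_add _ G₁ c1 c2 j).trans (hG ▸ (FL0_map_add _ G₂ c1 c2 j).symm)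

end cong

theorem map_cmp {S S' : Type u} [CommRing S] [CommRing S'] (ψ : S →+* S') {τ' : Type}
    (g : τ' → MvPowerSeries τ S) {f : τ → MvPowerSeries ρ S} (hf : ∀ i, constantCoeff (f i) = 0)
    (i : τ') : map ψ (cmp g f i) = cmp (fun i => map ψ (g i)) (fun i => map ψ (f i)) i :=
  (FG2_map_ev ψ hf (fun _ => rfl) _).symm

/-- Extension of scalars of the Dieudonne-Manin data. -/
@[reducible] noncomputable def DMD.map {K K' : Type u} [CommRing K] [CommRing K'] {p : ℕ} {G : FGL K τ}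
    (d : DMD p G) (j : K →+* K') : DMD p (G.map j) where
  ρ := d.ρ
  H := d.H.map j
  R := d.R
  c := d.c
  a := d.a
  e i := MvPowerSeries.map j (d.e i)
  e' i := MvPowerSeries.map j (d.e' i)
  R_pos := d.R_pos
  mulH l := by rw [FGL.map_mul, d.mulH, map_pow, map_X]
  he := d.he.map j
  he' := d.he'.map j
  ee' := by funext i; rw [← map_cmp j d.e d.he'.cc, d.ee', FGL.map_mul]
  e'e := by funext i; rw [← map_cmp j d.e' d.he.cc, d.e'e, FGL.map_mul]

variable {Ω T : Type u} [Field Ω] [CharP Ω p] [PerfectRing Ω p] [CommRing T]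

theorem sigma_span (i : Ω →+* T) {α : Type} [Fintype α] (c : α → T) (v : α → Ω) (a n₀ : ℕ)
    (h : ∀ n, n₀ ≤ n → ∑ x, c x * i ((iterateFrobeniusEquiv Ω p (a * n)).symm (v x)) = 0) :
    ∑ x, c x * i (v x) = 0 := by
  let V : ℕ → Submodule Ω (α → Ω) := fun k =>
    { carrier := {w | ∀ n, k ≤ n →
        ∑ x, c x * i ((iterateFrobeniusEquiv Ω p (a * n)).symm (w x)) = 0}
      add_mem' := fun {u w} hu hw n hn => by
        simp only [Pi.add_apply, map_add, mul_add, Finset.sum_add_distrib, hu n hn, hw n hn,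
          add_zero]
      zero_mem' := fun n _ => by simp
      smul_mem' := fun r w hw n hn => by
        have := congrArg (fun z => i ((iterateFrobeniusEquiv Ω p (a * n)).symm r) * z) (hw n hn)
        simp only [mul_zero, Finset.mul_sum] at this
        rw [← this]
        refine Finset.sum_congr rfl fun x _ => ?_
        simp only [Pi.smul_apply, smul_eq_mul, map_mul]
        ring }
  have hV : ∀ k w, w ∈ V k ↔ ∀ n, k ≤ n →
      ∑ x, c x * i ((iterateFrobeniusEquiv Ω p (a * n)).symm (w x)) = 0 := fun _ _ => Iff.rfl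
  have mono : Monotone V := fun k l hkl w hw n hn => hw n (hkl.trans hn)
  have sh : ∀ k (w : α → Ω), w ∈ V (k + 1) ↔
      (fun x => (iterateFrobeniusEquiv Ω p a).symm (w x)) ∈ V k := fun k w => by
    rw [hV, hV]
    constructor
    · intro hw n hn
      have := hw (n + 1) (by omega)
      simpa only [mul_add, mul_one, iterateFrobeniusEquiv_symm_add_apply] using this
    · intro hw n hn
      obtain ⟨m, rfl⟩ : ∃ m, n = m + 1 := ⟨n - 1, by omega⟩
      have := hw m (by omega)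
      simpa only [mul_add, mul_one, iterateFrobeniusEquiv_symm_add_apply] using this
  have down : ∀ k, V (k + 1) = V (k + 1 + 1) → V k = V (k + 1) := fun k hk => by
    refine le_antisymm (mono (Nat.le_succ k)) fun w hw => ?_
    have h1 : (fun x => iterateFrobeniusEquiv Ω p a (w x)) ∈ V (k + 1 + 1) := by
      rw [sh]
      simpa only [RingEquiv.symm_apply_apply] using hw
    rw [← hk, sh] at h1
    simpa only [RingEquiv.symm_apply_apply] using h1
  obtain ⟨m, hm⟩ := monotone_stabilizes_iff_noetherian.2 (inferInstance : IsNoetherian Ω (α → Ω))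
    ⟨V, mono⟩
  have d2 : ∀ j k, V (k + j) = V (k + j + 1) → V k = V (k + 1) := fun j => by
    induction j with
    | zero => exact fun _ h => h
    | succ j ih => exact fun k h => ih k (down _ h)
  have d3 : ∀ k, V k = V (k + 1) := fun k => d2 m k
    ((hm (k + m) (by omega)).symm.trans (hm (k + m + 1) (by omega)))
  have d4 : ∀ k, V k = V 0 := fun k => by
    induction k with
    | zero => rfl
    | succ k ih => rw [← d3, ih]
  have h0 : v ∈ V 0 := d4 n₀ ▸ (hV n₀ v).2 h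
  simpa using (hV 0 v).1 h0 0 le_rfl

theorem ev_eq_zero_of_twist (i : Ω →+* T) (f : MvPowerSeries ρ T) {y : ρ → PowerSeries Ω}
    (hy : Arc y) (a : ℕ) (h : ∀ M, ∃ n₀, ∀ n, n₀ ≤ n → ev PowerSeries.C (fun l => PowerSeries.map
      (i.comp ((iterateFrobeniusEquiv Ω p (a * n)).symm : Ω →+* Ω)) (y l)) f ∈ mx T ^ M) :
    ev PowerSeries.C (fun l => PowerSeries.map i (y l)) f = 0 := by
  have key : ∀ (ψ : Ω →+* T) (m : ℕ),
      PowerSeries.coeff m (ev PowerSeries.C (fun l => PowerSeries.map ψ (y l)) f) =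
        ∑ d : (Finsupp.finite_of_degree_lt (σ := ρ) (m + 1)).toFinset,
          coeff d.1 f * ψ (PowerSeries.coeff m (d.1.prod fun l k => y l ^ k)) := fun ψ m => by
    rw [Ev3_coeff (fun l => by
      rw [← PowerSeries.coeff_zero_eq_constantCoeff_apply, PowerSeries.coeff_map,
        PowerSeries.coeff_zero_eq_constantCoeff_apply, hy, map_zero]), ← Finset.sum_coe_sort]
    refine Finset.sum_congr rfl fun d _ => ?_
    have : (d.1.prod fun l k => (y l).map ψ ^ k) = (d.1.prod fun l k => y l ^ k).map ψ := by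
      simp only [Finsupp.prod, map_prod, map_pow]
    rw [this, PowerSeries.coeff_map]
  ext m
  obtain ⟨n₀, hn⟩ := h (m + 1)
  rw [key, map_zero]
  refine sigma_span p i _ _ a n₀ fun n hn' => ?_
  have := mem_mx_pow.1 (hn n hn') m m.lt_succ_self
  rw [key] at this
  exact this

omit [PerfectRing Ω p] in
/-- The triangular shape of an endomorphism over a ring `T` with nil radical of residue field `Ω`. -/
theorem hom_blocks [Nontrivial T] (i : Ω →+* T) (res : T →+* Ω) (hi : ∀ z, res (i z) = z)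
    (hn : ∀ z, res z = 0 → IsNilpotent z) {H : FGL Ω ρ} {R : ℕ} {a : ρ → ℕ} (ha : ∀ l, 0 < a l)
    (hH : ∀ l, H.mul (p ^ R) l = X l ^ p ^ a l) {Λ : ρ → MvPowerSeries ρ T}
    (hΛ : IsHom (H.map i) (H.map i) Λ) (l : ρ) (α : ρ →₀ ℕ) :
    (∀ j, α j ≠ 0 → a j < a l → coeff α (Λ l) = 0) ∧
    ((∀ j, α j ≠ 0 → a j = a l) → coeff α (Λ l) = i (res (coeff α (Λ l)))) := by
  have : CharP T p := charP_of_injective_ringHom i.injective p
  have e : (H.map i).mul (p ^ R) = fun l => X l ^ p ^ a l := funext fun l => by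
    rw [FGL.map_mul, hH, map_pow, map_X]
  have h1 := congrFun (hΛ.cmp_mul (p ^ R)) l
  rw [e, cmp, cmp, map_pow, (TN.of_cc hΛ.cc).ev_X] at h1
  obtain ⟨h2, h3, -⟩ := diag_coeff p h1 α
  refine ⟨h2, fun hα => ?_⟩
  have h4 := h3 hα
  set z := coeff α (Λ l)
  have h5 : (z - i (res z)) ^ p ^ a l = z - i (res z) := by
    rw [sub_pow_char_pow, ← map_pow i, ← map_pow res, h4]
  obtain ⟨k, hk⟩ := hn (z - i (res z)) (by rw [map_sub, hi, sub_self])
  have h6 : ∀ j, (z - i (res z)) ^ (p ^ a l) ^ j = z - i (res z) := fun j => by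
    induction j with
    | zero => simp
    | succ j ih => rw [pow_succ, pow_mul, ih, h5]
  have h7 : 1 < p ^ a l := Nat.one_lt_pow (ha l).ne' (Fact.out : p.Prime).one_lt
  rw [← sub_eq_zero, ← h6 k]
  exact pow_eq_zero_of_le (Nat.lt_pow_self h7).le hk

end MLF
end

-- merged part: Pool.Agent.Work.MP_29d410_ag.FL1
section
/-!
# An ideal stable under a derivation has an arc over the constants

Plan.  `J` is the ideal of the series vanishing on all arcs killing `I`.  By `curve_sel`,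
`J` is the radical of the span of `I` (elements of `J` have no constant term since there is an
arc), so for `h ∈ J` and an arc `y` killing `I`, `ev (C ∘ D) (map i y) h = 0` (`O⟦δ⟧` is reduced).
For an `Ω`-linear functional `θ : O → Ω` the series `θ (D h)` (coefficientwise) lies in `J`
(`coeff_ev_linear`, `TN.ev_map`).  Fix `N` and let `J N` be the image of `J` in the finite
dimensional space of coefficients of degree `< N`.  A subspace `U` of `Ω ^ n` with `θ (D U) ⊆ U` for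
all `θ` is spanned by vectors over `κ`: for a vector `h ∈ U` of minimal support, normalised to have
one coordinate `1`, and `θ` with `θ 1 = 0`, `θ (D h)` has smaller support, so vanishes; hence
`D (h α) ∈ i Ω`, `D (h α) = i (h α)` (apply `res`); such vectors span `U`.  So for `κ`-linear
`θ' : Ω → κ` and `h ∈ J`, `θ' h ∈ J + 𝔪 ^ N` for all `N`, so `θ' h ∈ J` (test on arcs: the value lies
in all powers of `δ`).  Let `J₀` be the preimage of `J` in `κ⟦Z⟧`; some `Z l` is not in its radical;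
`curve_sel` over `κ` gives `y`, and `coeff_ev_linear` shows that `y` kills `J`.
-/

open MvPowerSeries

namespace MLF

universe u

theorem FL1_dual {Ω O : Type u} [Field Ω] [CommRing O] (i : Ω →+* O) {z : O}
    (hz : ∀ c, i c ≠ z) : ∃ θ : O →+ Ω, (∀ c x, θ (i c * x) = c * θ x) ∧ θ 1 = 0 ∧ θ z ≠ 0 := by
  let _ : Algebra Ω O := i.toAlgebra
  have h1 : z ∉ Submodule.span Ω ({1} : Set O) := by
    rw [Submodule.mem_span_singleton]
    rintro ⟨c, hc⟩
    exact hz c (by rw [← hc, Algebra.smul_def, mul_one]; rfl)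
  obtain ⟨f, hf, hf'⟩ := Submodule.exists_dual_map_eq_bot_of_notMem h1 inferInstance
  refine ⟨f.toAddMonoidHom, fun c x => ?_, ?_, hf⟩
  · exact f.map_smul c x
  · have : f 1 ∈ (Submodule.span Ω ({1} : Set O)).map f :=
      Submodule.mem_map_of_mem (Submodule.subset_span rfl)
    rwa [hf', Submodule.mem_bot] at this

theorem FL1_span {Ω O : Type u} [Field Ω] [CommRing O] (i D : Ω →+* O)
    (res : O →+* Ω) (hi : ∀ z, res (i z) = z) (hD : ∀ z, res (D z) = z) (κ : Subfield Ω)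
    (hκ : ∀ z, D z = i z → z ∈ κ) {α : Type} [Finite α] (U : Submodule Ω (α → Ω))
    (hU : ∀ θ : O →+ Ω, (∀ c x, θ (i c * x) = c * θ x) → ∀ v ∈ U, (fun a => θ (D (v a))) ∈ U)
    (n : ℕ) : ∀ v ∈ U, (Function.support v).ncard = n →
      v ∈ Submodule.span Ω {w | w ∈ U ∧ ∀ a, w a ∈ κ} := by
  induction n using Nat.strong_induction_on with
  | _ n ih =>
  have key : ∀ v ∈ U, (Function.support v).ncard = n → ∀ a₀, v a₀ = 1 →
      v ∈ Submodule.span Ω {w | w ∈ U ∧ ∀ a, w a ∈ κ} := by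
    intro v hv hn a₀ ha₀
    by_cases hk : ∀ a, v a ∈ κ
    · exact Submodule.subset_span ⟨hv, hk⟩
    obtain ⟨a, ha⟩ := not_forall.1 hk
    obtain ⟨θ, hθ, hθ1, hθa⟩ := FL1_dual i (z := D (v a)) fun c hc => ha (hκ _ (by
      have := congrArg res hc
      rw [hi, hD] at this
      rw [← hc, this]))
    set w : α → Ω := fun a => θ (D (v a)) with hw
    have hwU : w ∈ U := hU θ hθ v hv
    have hsub : ∀ b, v b = 0 → w b = 0 := fun b hb => by simp [hw, hb]
    have hlt : ∀ x : α → Ω, (∀ b, v b = 0 → x b = 0) → ∀ b, v b ≠ 0 → x b = 0 →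
        (Function.support x).ncard < n := by
      intro x hx b hb hxb
      rw [← hn]
      refine Set.ncard_lt_ncard ⟨fun c hc hc' => hc (hx c hc'), fun h => ?_⟩ (Set.toFinite _)
      exact h hb hxb
    have h1 := ih _ (hlt w hsub a₀ (by rw [ha₀]; exact one_ne_zero)
      (by simp only [hw]; rw [ha₀, map_one, hθ1])) w hwU rfl
    have hva : v a ≠ 0 := fun h => hθa (hsub a h)
    have hwa : w a ≠ 0 := hθa
    have h2 := ih _ (hlt (v - (v a / w a) • w) (fun b hb => by simp [hb, hsub b hb]) a hva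
      (by simp [hwa])) _ (U.sub_mem hv (U.smul_mem _ hwU)) rfl
    have h3 := Submodule.add_mem _ h2 (Submodule.smul_mem _ (v a / w a) h1)
    rwa [sub_add_cancel] at h3
  intro v hv hn
  by_cases h0 : v = 0
  · rw [h0]; exact Submodule.zero_mem _
  obtain ⟨a₀, ha₀⟩ := Function.ne_iff.1 h0
  have ha₀' : v a₀ ≠ 0 := ha₀
  have h1 := key ((v a₀)⁻¹ • v) (U.smul_mem _ hv) (by
    rw [← hn]
    congr 1
    ext b
    simp [ha₀']) a₀ (by simp [ha₀'])
  have h2 := Submodule.smul_mem _ (v a₀) h1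
  rwa [smul_smul, mul_inv_cancel₀ ha₀', one_smul] at h2

theorem FL1_lin {Ω O : Type u} [Field Ω] [CommRing O] (i D : Ω →+* O)
    (res : O →+* Ω) (hi : ∀ z, res (i z) = z) (hD : ∀ z, res (D z) = z) (κ : Subfield Ω)
    (hκ : ∀ z, D z = i z → z ∈ κ) {α : Type} [Finite α] (U : Submodule Ω (α → Ω))
    (hU : ∀ θ : O →+ Ω, (∀ c x, θ (i c * x) = c * θ x) → ∀ v ∈ U, (fun a => θ (D (v a))) ∈ U)
    (θ : Ω →+ κ) (hθ : ∀ (c : κ) z, θ (c * z) = c * θ z) {v : α → Ω} (hv : v ∈ U) :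
    (fun a => (θ (v a) : Ω)) ∈ U := by
  have h1 := FL1_span i D res hi hD κ hκ U hU _ v hv rfl
  have h2 : ∀ c : Ω, (fun a => (θ (c * v a) : Ω)) ∈ U := by
    clear hv
    induction h1 using Submodule.span_induction with
    | mem w hw =>
      intro c
      have : (fun a => (θ (c * w a) : Ω)) = (θ c : Ω) • w := by
        funext a
        have := hθ ⟨w a, hw.2 a⟩ c
        rw [mul_comm c, this, Pi.smul_apply, smul_eq_mul, mul_comm]
        rfl
      rw [this]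
      exact U.smul_mem _ hw.1
    | zero =>
      intro c
      simp only [Pi.zero_apply, mul_zero, map_zero, ZeroMemClass.coe_zero]
      exact U.zero_mem
    | add x y _ _ hx hy =>
      intro c
      simp only [Pi.add_apply, mul_add, map_add, AddMemClass.coe_add]
      exact U.add_mem (hx c) (hy c)
    | smul b x _ hx =>
      intro c
      simpa [mul_assoc] using hx (c * b)
  simpa using h2 1

theorem FL1_cc {R : Type u} [CommRing R] {ρ : Type} [Finite ρ] {y : ρ → PowerSeries R}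
    (hy : Arc y) (h : MvPowerSeries ρ R) :
    PowerSeries.constantCoeff (ev PowerSeries.C y h) = constantCoeff h := by
  have h0 : (PowerSeries.constantCoeff (R := R)) ∘ y = 0 := funext hy
  rw [(TN.of_cc₁ hy).map_ev PowerSeries.constantCoeff
    (h0 ▸ ⟨⊥, inferInstance, fun _ => Ideal.zero_mem _⟩), h0, ev_zero]
  simp

theorem FL1_arc_map {R R' : Type u} [CommRing R] [CommRing R'] (i : R →+* R') {ρ : Type}
    {y : ρ → PowerSeries R} (hy : Arc y) : Arc fun l => PowerSeries.map i (y l) := fun l => by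
  rw [← PowerSeries.coeff_zero_eq_constantCoeff_apply, PowerSeries.coeff_map,
    PowerSeries.coeff_zero_eq_constantCoeff_apply, hy, map_zero]

/-- The series vanishing on all arcs which kill `I`. -/
def FL1J {R : Type u} [CommRing R] {ρ : Type} (I : Set (MvPowerSeries ρ R)) :
    Ideal (MvPowerSeries ρ R) where
  carrier := {h | ∀ y, Arc y → Kills I y → ev PowerSeries.C y h = 0}
  zero_mem' _ _ _ := map_zero _
  add_mem' ha hb y h1 h2 := by rw [map_add, ha y h1 h2, hb y h1 h2, add_zero]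
  smul_mem' c x hx y h1 h2 := by rw [smul_eq_mul, map_mul, hx y h1 h2, mul_zero]

/-- Its image in the space of coefficients of degree `< N`. -/
def FL1U {R : Type u} [CommRing R] {ρ : Type} (I : Set (MvPowerSeries ρ R)) (N : ℕ) :
    Submodule R ({d : ρ →₀ ℕ // d.degree < N} → R) where
  carrier := {v | ∃ h ∈ FL1J I, ∀ a, v a = coeff a.1 h}
  zero_mem' := ⟨0, zero_mem _, fun _ => rfl⟩
  add_mem' := by
    rintro v w ⟨h, hh, e⟩ ⟨g, hg, e'⟩
    exact ⟨h + g, add_mem hh hg, fun a => by rw [Pi.add_apply, e, e', map_add]⟩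
  smul_mem' := by
    rintro c v ⟨h, hh, e⟩
    exact ⟨C c * h, Ideal.mul_mem_left _ _ hh, fun a => by
      rw [Pi.smul_apply, e, coeff_C_mul, smul_eq_mul]⟩

theorem FL1_closed {R : Type u} [CommRing R] {ρ : Type} [Finite ρ] (I : Set (MvPowerSeries ρ R))
    {g : MvPowerSeries ρ R} (hg : ∀ N, (fun a => coeff a.1 g) ∈ FL1U I N) : g ∈ FL1J I := by
  intro y hy hk
  ext n
  obtain ⟨h, hh, e⟩ := hg (n + 1)
  have h1 : g - h ∈ mX ρ R ^ (n + 1) := mem_mX_pow.2 fun d hd => by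
    rw [map_sub, sub_eq_zero]
    exact e ⟨d, hd⟩
  have h2 : ev PowerSeries.C y (g - h) ∈ mx R ^ (n + 1) := Ev_map_pow (fun l => by
    rw [(TN.of_cc₁ hy).ev_X]
    exact Ideal.mem_span_singleton.2 (PowerSeries.X_dvd_iff.2 (hy l))) h1
  rw [map_sub, hh y hy hk, sub_zero] at h2
  rw [mem_mx_pow.1 h2 n n.lt_succ_self, map_zero]

theorem flc2 {Ω O : Type u} [Field Ω] [IsAlgClosed Ω] [CommRing O] [IsDomain O] (i D : Ω →+* O)
    (res : O →+* Ω) (hi : ∀ z, res (i z) = z) (hD : ∀ z, res (D z) = z) (κ : Subfield Ω)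
    [IsAlgClosed κ] (hκ : ∀ z, D z = i z → z ∈ κ) {ρ : Type} [Finite ρ]
    (I : Set (MvPowerSeries ρ Ω)) (h : ∀ y, Arc y → Kills I y → ∀ g ∈ I,
      ev (PowerSeries.C.comp D) (fun l => PowerSeries.map i (y l)) g = 0)
    (h0 : ∃ y, Arc y ∧ Kills I y ∧ y ≠ 0) :
    ∃ y, Arc y ∧ Kills I y ∧ y ≠ 0 ∧ ∀ l n, PowerSeries.coeff n (y l) ∈ κ := by
  obtain ⟨y₀, hy₀, hk₀, hne₀⟩ := h0
  have hrad : ∀ g ∈ FL1J I, g ∈ (Ideal.span I).radical := by
    intro g hg
    by_contra hn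
    have hc : constantCoeff g = 0 := by rw [← FL1_cc hy₀, hg y₀ hy₀ hk₀, map_zero]
    obtain ⟨y, hy, h1, h2⟩ := curve_sel (Ideal.span I) hc hn
    exact h2 (hg y hy fun f hf => h1 f (Ideal.subset_span hf))
  have hE : ∀ g ∈ FL1J I, ∀ y, Arc y → Kills I y →
      ev (PowerSeries.C.comp D) (fun l => PowerSeries.map i (y l)) g = 0 := by
    intro g hg y hy hk
    obtain ⟨n, hn⟩ := hrad g hg
    have h1 : Ideal.span I ≤
        RingHom.ker (ev (PowerSeries.C.comp D) (fun l => PowerSeries.map i (y l))) :=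
      Ideal.span_le.2 fun f hf => h y hy hk f hf
    have h2 := h1 hn
    rw [RingHom.mem_ker, map_pow] at h2
    exact eq_zero_of_pow_eq_zero h2
  have hθD : ∀ θ : O →+ Ω, (∀ c x, θ (i c * x) = c * θ x) → ∀ g ∈ FL1J I,
      (fun d => θ (coeff d (map D g)) : MvPowerSeries ρ Ω) ∈ FL1J I := by
    intro θ hθ g hg y hy hk
    ext n
    rw [← coeff_ev_linear i θ hθ hy, (TN.of_cc₁ (FL1_arc_map i hy)).ev_map, hE g hg y hy hk]
    simp
  have hθκ : ∀ θ : Ω →+ κ, (∀ (c : κ) z, θ (c * z) = c * θ z) → ∀ g ∈ FL1J I,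
      map κ.subtype (fun d => θ (coeff d g) : MvPowerSeries ρ κ) ∈ FL1J I := by
    intro θ hθ g hg
    refine FL1_closed I fun N => ?_
    have : Finite {d : ρ →₀ ℕ // d.degree < N} := Finsupp.finite_of_degree_lt (σ := ρ) N
    refine FL1_lin i D res hi hD κ hκ (FL1U I N) ?_ θ hθ (v := fun a => coeff a.1 g)
      ⟨g, hg, fun _ => rfl⟩
    rintro θ₁ hθ₁ v ⟨f, hf, e⟩
    exact ⟨_, hθD θ₁ hθ₁ f hf, fun a => congrArg (fun z => θ₁ (D z)) (e a)⟩
  obtain ⟨l, hl⟩ := Function.ne_iff.1 hne₀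
  have hX : (X l : MvPowerSeries ρ κ) ∉ ((FL1J I).comap (map κ.subtype)).radical := by
    rintro ⟨n, hn⟩
    rw [Ideal.mem_comap, map_pow, map_X] at hn
    have h1 := hn y₀ hy₀ hk₀
    rw [map_pow, (TN.of_cc₁ hy₀).ev_X] at h1
    exact hl (eq_zero_of_pow_eq_zero h1)
  obtain ⟨y, hy, h1, h2⟩ := curve_sel _ (constantCoeff_X l) hX
  rw [(TN.of_cc₁ hy).ev_X] at h2
  refine ⟨fun l => PowerSeries.map κ.subtype (y l), FL1_arc_map _ hy, fun g hg => ?_,
    fun h3 => h2 ?_, fun l n => ?_⟩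
  · ext n
    rw [map_zero, ← Module.forall_dual_apply_eq_zero_iff κ]
    intro θ
    have hθ : ∀ (c : κ) z, θ.toAddMonoidHom (c * z) = c * θ.toAddMonoidHom z :=
      fun c z => θ.map_smul c z
    have h4 := coeff_ev_linear κ.subtype θ.toAddMonoidHom hθ hy g n
    rw [h1 _ (hθκ θ.toAddMonoidHom hθ g fun y _ hk => hk g hg), map_zero] at h4
    exact h4
  · have h4 := congrFun h3 l
    ext n
    have h5 := congrArg (PowerSeries.coeff n) h4
    simpa using h5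
  · rw [PowerSeries.coeff_map]
    exact (PowerSeries.coeff n (y l)).2

end MLF
end

-- merged part: Pool.Agent.Work.MP_29d410_ag.FL4A
section
/-!
# The series `Λ k` of the first leaf lemma
-/

open MvPowerSeries

namespace MLF

universe u

variable {p : ℕ} {K O : Type u} [CommRing K] [CommRing O] {τ : Type} [Finite τ] {G : FGL K τ}

theorem FL4_cmp_cc {S : Type u} [CommRing S] {τ₁ τ₂ τ₃ : Type} [Finite τ₁] [Finite τ₂]
    {g : τ₃ → MvPowerSeries τ₂ S} {f : τ₂ → MvPowerSeries τ₁ S}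
    (hg : ∀ i, constantCoeff (g i) = 0) (hf : ∀ i, constantCoeff (f i) = 0) (i : τ₃) :
    constantCoeff (cmp g f i) = 0 := FG2_cc hf (hg i)

theorem FL4_map_cc {S S' : Type u} [CommRing S] [CommRing S'] {τ₁ τ₂ : Type} (φ : S →+* S')
    {f : τ₂ → MvPowerSeries τ₁ S} (hf : ∀ i, constantCoeff (f i) = 0) (i : τ₂) :
    constantCoeff (map φ (f i)) = 0 := by
  rw [constantCoeff_map, hf, map_zero]

theorem FL4_map_mul (G : FGL K τ) (φ : K →+* O) (n : ℕ) :
    (G.map φ).mul n = fun i => map φ (G.mul n i) := funext (G.map_mul φ n)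

theorem FL4_fh_map (h : G.FH p) (φ : K →+* O) : (G.map φ).FH p := by
  obtain ⟨N, hN⟩ := h
  refine ⟨N, fun i => ?_⟩
  have h1 := Ideal.mem_map_of_mem (MvPowerSeries.map (σ := τ) φ) (hN i)
  rw [map_pow, map_X, Ideal.map_span, ← Set.range_comp] at h1
  rw [FL4_map_mul]
  exact h1

/-- The series `Λ k`. -/
noncomputable def FL4_Lam (d : DMD p G) (φ₁ φ₂ : K →+* O) (k : ℕ) : d.ρ → MvPowerSeries d.ρ O :=
  cmp (fun l => map φ₂ (d.e' l)) (cmp ((G.map φ₂).mul (p ^ (d.R * k))) fun a => map φ₁ (d.e a))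

variable (d : DMD p G) (φ₁ φ₂ : K →+* O)

theorem FL4_inner_cc (n : ℕ) (a : τ) :
    constantCoeff (cmp ((G.map φ₂).mul n) (fun a => map φ₁ (d.e a)) a) = 0 :=
  FL4_cmp_cc (FGL.mul0 _ n) (FL4_map_cc φ₁ d.he.cc) a

theorem FL4_Lam_cc (k : ℕ) (l : d.ρ) : constantCoeff (FL4_Lam d φ₁ φ₂ k l) = 0 :=
  FL4_cmp_cc (FL4_map_cc φ₂ d.he'.cc) (FL4_inner_cc d φ₁ φ₂ _) l

theorem FL4_mul_e (t : ℕ) :
    cmp (G.mul (p ^ (d.R * t))) d.e = cmp d.e fun l => X l ^ p ^ (d.a l * t) := by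
  rw [← d.he.cmp_mul]
  congr 1
  exact funext (DM7b.diag_pow d.mulH t)

theorem FL4_diag (k : ℕ) (l : d.ρ) :
    cmp d.e' (cmp (G.mul (p ^ (d.R * k))) d.e) l = X l ^ p ^ (d.a l * (k + d.c)) := by
  rw [← d.he.cmp_mul, ← cmp_assoc d.he.cc (FGL.mul0 _ _), d.e'e, ← FGL.mul_mul, ← pow_add,
    ← mul_add, add_comm d.c k]
  exact DM7b.diag_pow d.mulH _ l

theorem FL4_Lam_res {Ω : Type u} [CommRing Ω] (res : O →+* Ω) (h : res.comp φ₁ = res.comp φ₂)
    (k : ℕ) (l : d.ρ) : map res (FL4_Lam d φ₁ φ₂ k l) = X l ^ p ^ (d.a l * (k + d.c)) := by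
  have h1 := congrArg (map (σ := d.ρ) (res.comp φ₂)) (FL4_diag d k l)
  rw [map_pow, map_X, map_cmp _ _ (FL4_cmp_cc (FGL.mul0 _ _) d.he.cc)] at h1
  have e₁ : (fun i => map res (map φ₂ (d.e' i))) = fun i => map (res.comp φ₂) (d.e' i) := rfl
  have e₂ : (fun a => map res (cmp ((G.map φ₂).mul (p ^ (d.R * k))) (fun a => map φ₁ (d.e a)) a)) =
      fun a => map (res.comp φ₂) (cmp (G.mul (p ^ (d.R * k))) d.e a) := by
    funext a
    have e₃ : (fun b => map res ((G.map φ₂).mul (p ^ (d.R * k)) b)) =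
        fun b => map (res.comp φ₂) (G.mul (p ^ (d.R * k)) b) :=
      funext fun b => by rw [FGL.map_mul]; rfl
    have e₄ : (fun b => map res (map φ₁ (d.e b))) = fun b => map (res.comp φ₂) (d.e b) :=
      funext fun b => by rw [← h]; rfl
    rw [map_cmp _ _ (FL4_map_cc φ₁ d.he.cc), map_cmp _ _ d.he.cc, e₃, e₄]
  rw [← h1, FL4_Lam, map_cmp _ _ (FL4_inner_cc d φ₁ φ₂ _), e₁, e₂]

theorem FL4_e_Lam (k : ℕ) :
    cmp (fun a => map φ₂ (d.e a)) (FL4_Lam d φ₁ φ₂ k) =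
      cmp ((G.map φ₂).mul (p ^ (d.R * (k + d.c)))) fun a => map φ₁ (d.e a) := by
  have h1 : cmp (fun a => map φ₂ (d.e a)) (fun l => map φ₂ (d.e' l)) =
      (G.map φ₂).mul (p ^ (d.R * d.c)) := (d.map φ₂).ee'
  rw [FL4_Lam, ← cmp_assoc (FL4_map_cc φ₂ d.he'.cc) (FL4_inner_cc d φ₁ φ₂ _), h1,
    ← cmp_assoc (FGL.mul0 _ _) (FL4_map_cc φ₁ d.he.cc), ← FGL.mul_mul, ← pow_add, ← mul_add,
    add_comm d.c k]

variable [Fact p.Prime] (hp : (p : O) = 0) {ε : O}
  (hG : (G.map φ₁).map (Ideal.Quotient.mk (Ideal.span {ε})) =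
    (G.map φ₂).map (Ideal.Quotient.mk (Ideal.span {ε})))
include hp hG

theorem FL4_Lam_hom (hH : d.H.map φ₁ = d.H.map φ₂) (k : ℕ) :
    IsHom ((d.H.map φ₁).map (Ideal.Quotient.mk (Ideal.span {ε ^ p ^ (d.R * k)})))
      ((d.H.map φ₁).map (Ideal.Quotient.mk (Ideal.span {ε ^ p ^ (d.R * k)})))
      fun l => map (Ideal.Quotient.mk (Ideal.span {ε ^ p ^ (d.R * k)})) (FL4_Lam d φ₁ φ₂ k l) := by
  have h1 := isHom_cmp_mul p hp (d.he.map φ₁) hG (d.R * k)
  have h2 := (d.he'.map φ₂).map (Ideal.Quotient.mk (Ideal.span {ε ^ p ^ (d.R * k)}))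
  rw [← hH] at h2
  have h3 := h2.comp h1
  have e : (fun l => map (Ideal.Quotient.mk (Ideal.span {ε ^ p ^ (d.R * k)}))
      (FL4_Lam d φ₁ φ₂ k l)) = cmp (fun i => map (Ideal.Quotient.mk
        (Ideal.span {ε ^ p ^ (d.R * k)})) (map φ₂ (d.e' i))) fun i => map (Ideal.Quotient.mk
        (Ideal.span {ε ^ p ^ (d.R * k)})) (cmp ((G.map φ₂).mul (p ^ (d.R * k)))
          (fun i => map φ₁ (d.e i)) i) :=
    funext fun l => map_cmp _ _ (FL4_inner_cc d φ₁ φ₂ _) l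
  rw [e]
  exact h3

theorem FL4_Lam_succ (k : ℕ) (l : d.ρ) :
    map (Ideal.Quotient.mk (Ideal.span {ε ^ p ^ (d.R * k)})) (FL4_Lam d φ₁ φ₂ (k + 1) l) =
      map (Ideal.Quotient.mk (Ideal.span {ε ^ p ^ (d.R * k)}))
        (cmp (FL4_Lam d φ₁ φ₂ k) (fun j => X j ^ p ^ d.a j) l) := by
  have hX : ∀ j : d.ρ, constantCoeff (X j ^ p ^ d.a j : MvPowerSeries d.ρ O) = 0 := fun j => by
    rw [map_pow, constantCoeff_X, zero_pow (pow_ne_zero _ (Fact.out : p.Prime).ne_zero)]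
  have he := FL4_map_cc φ₁ d.he.cc
  have h1 : cmp (fun a => map φ₁ (d.e a)) (fun j => X j ^ p ^ d.a j) =
      cmp ((G.map φ₁).mul (p ^ d.R)) fun a => map φ₁ (d.e a) := by
    have := FL4_mul_e (d.map φ₁) 1
    simp only [mul_one] at this
    exact this.symm
  have c₁ := FL4_inner_cc d φ₁ φ₁ (p ^ d.R)
  have c₂ := FL4_inner_cc d φ₁ φ₂ (p ^ d.R)
  rw [FL4_Lam, FL4_Lam, cmp_assoc (FL4_inner_cc d φ₁ φ₂ _) hX, cmp_assoc he hX, h1, mul_add,
    mul_one, pow_add, FGL.mul_mul, cmp_assoc (FGL.mul0 _ _) he,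
    map_cmp _ _ (FL4_cmp_cc (FGL.mul0 _ _) c₂), map_cmp _ _ (FL4_cmp_cc (FGL.mul0 _ _) c₁)]
  congr 1
  funext a
  refine cmp_mul_congr p hp _ _ c₂ c₁ (fun b => ?_) a
  rw [map_cmp _ _ he, map_cmp _ _ he, ← FL4_map_mul, ← FL4_map_mul, hG]

end MLF
end

-- merged part: Pool.Agent.Work.MP_29d410_ag.HullB
section
/-!
# The orbit of a point of a formal group under the endomorphisms over a finite field

The orbit is a subgroup which is finite modulo `p`, and it contains the Frobenius roots of the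
multiples `p ^ (r n) • x`.
-/

open MvPowerSeries

namespace MLF

universe u

variable {p : ℕ} [Fact p.Prime] {τ : Type} [Finite τ] {K T : Type u} [Field K] [CharP K p]
  [CommRing T] [CharP T p] {G : FGL K τ} {φ : K →+* T} {𝔞 : Ideal T} [Adm 𝔞]

theorem Hull_pow_ev {s : ℕ} {f : MvPowerSeries τ K} (hf : ∀ α, coeff α f ^ p ^ s = coeff α f)
    {x : τ → T} (hx : ∀ i, x i ∈ 𝔞) :
    ev φ x f ^ p ^ s = ev φ (fun i => x i ^ p ^ s) f := by
  have hx' : TN (iterateFrobenius T p s ∘ x) := Adm.tn (𝔞 := 𝔞) fun i =>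
    Ideal.pow_mem_of_mem _ (hx i) _ (pow_pos (Fact.out : p.Prime).pos s)
  have h1 := (Adm.tn hx).map_ev (iterateFrobenius T p s) hx' φ f
  have h2 : (iterateFrobenius T p s).comp φ = φ.comp (iterateFrobenius K p s) := by
    ext c
    simp [iterateFrobenius_def]
  rw [h2, ← hx'.ev_map, (DM8b_fix p).1 hf, iterateFrobenius_def] at h1
  exact h1

variable [PerfectField K] {r : ℕ}

/-- The orbit under the endomorphisms. -/
noncomputable def Hull_orb (hs : ∀ i α, coeff α (G.F i) ^ p ^ r = coeff α (G.F i))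
    (x : G.Pts φ 𝔞) : AddSubgroup (G.Pts φ 𝔞) where
  carrier := {y | ∃ f, G.IsEnd p r f ∧ ∀ i, y.v i = ev φ x.v (f i)}
  zero_mem' := ⟨G.mul 0, FGL.isEnd_mul p hs 0, fun i => by rw [← FGL.Pts.nsmul_v, zero_smul]⟩
  add_mem' := by
    rintro y z ⟨f, hf, e⟩ ⟨g, hg, e'⟩
    refine ⟨_, hf.add p hs hg, fun i => ?_⟩
    rw [FG3_ev_add G hf.1.cc hg.1.cc φ x.tn, FGL.Pts.add_v, funext e, funext e']
  neg_mem' := by
    rintro y ⟨f, hf, e⟩
    refine ⟨_, hf.neg p hs, fun i => ?_⟩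
    rw [ev_cmp hf.1.cc φ x.tn, ← funext e]
    rfl

theorem Hull_formal (hG : G.FH p) (hr : 0 < r)
    (hs : ∀ i α, coeff α (G.F i) ^ p ^ r = coeff α (G.F i)) (x : G.Pts φ 𝔞) :
    ∃ N : AddSubgroup (G.Pts φ 𝔞),
      (∃ F : Set (G.Pts φ 𝔞), F.Finite ∧ ∀ w ∈ N, ∃ γ ∈ F, ∃ w' ∈ N, w = γ + p • w') ∧
      ∀ n, ∃ y ∈ N, ∀ i, y.v i ^ p ^ (r * n) = (p ^ (r * n) • x).v i := by
  refine ⟨Hull_orb hs x, ?_, fun n => ?_⟩
  · obtain ⟨F, hF, hF', H⟩ := FGL.endo_finite p hG hr hs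
    have := hF.to_subtype
    refine ⟨Set.range fun f : F => (hF' f f.2).1.act φ 𝔞 x, Set.finite_range _, ?_⟩
    rintro w ⟨f, hf, e⟩
    obtain ⟨f₀, h₀, ξ, hξ, rfl⟩ := H f hf
    refine ⟨_, ⟨⟨f₀, h₀⟩, rfl⟩, hξ.1.act φ 𝔞 x, ⟨ξ, hξ, fun i => rfl⟩, FGL.Pts.ext (funext fun i => ?_)⟩
    rw [e, FG3_ev_add G (hF' f₀ h₀).1.cc ((IsHom.mul G p).comp hξ.1).cc φ x.tn, FGL.Pts.add_v]
    congr 1
    funext j
    rw [ev_cmp hξ.1.cc φ x.tn, FGL.Pts.nsmul_v]
    rfl
  · obtain ⟨V, hV, e⟩ := FGL.exists_ver p hs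
    have hs' : ∀ n i α, coeff α (G.F i) ^ p ^ (r * n) = coeff α (G.F i) := fun n i α => by
      rw [mul_comm]
      exact DM8b_pow_mul p (hs i α) n
    have hFr : ∀ n (y : G.Pts φ 𝔞) i,
        ((FGL.isEnd_frob p (hs' n)).1.act φ 𝔞 y).v i = y.v i ^ p ^ (r * n) := fun n y i => by
      rw [IsHom.act_v, map_pow, y.tn.ev_X]
    have hW : ∀ (y : G.Pts φ 𝔞) i, (hV.1.act φ 𝔞 y).v i ^ p ^ r = (p ^ r • y).v i := fun y i => by
      rw [IsHom.act_v, Hull_pow_ev (hV.2 i) y.mem, FGL.Pts.nsmul_v, ← e,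
        ev_cmp (FGL.isEnd_frob p hs).1.cc φ y.tn]
      simp only [map_pow, y.tn.ev_X]
    induction n with
    | zero =>
      refine ⟨x, ⟨G.mul 1, FGL.isEnd_mul p hs 1, fun i => ?_⟩, fun i => by simp⟩
      rw [← FGL.Pts.nsmul_v, one_smul]
    | succ n ih =>
      obtain ⟨y, ⟨f, hf, hy⟩, H⟩ := ih
      refine ⟨hV.1.act φ 𝔞 y, ⟨cmp V f, hV.cmp p hf, fun i => ?_⟩, fun i => ?_⟩
      · rw [IsHom.act_v, ev_cmp hf.1.cc φ x.tn, ← funext hy]
      · have h1 : (FGL.isEnd_frob p (hs' n)).1.act φ 𝔞 y = p ^ (r * n) • x :=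
          FGL.Pts.ext (funext fun j => (hFr n y j).trans (H j))
        rw [mul_add, mul_one, add_comm, pow_add, pow_mul, hW, ← hFr, map_nsmul, h1, mul_smul]

end MLF
end
end
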