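import Pool.Agent.Work.MP_29d410_ag.Tor3
import Pool.Agent.Work.MP_29d410_ag.Germ
import Pool.Agent.Work.MP_29d410_ag.HullB

-- merged part: Pool.Agent.Work.MP_29d410_ag.Good
section
/-!
# Good points: infinitely `p`-divisible modulo the ground field

Plan.  `Good.img`: `QH.level`, `Sett.exists_root`, `root_root`; for `γ ∈ D` and `y ∈ ext D` pick
their images under the graph (`dom_ext`), uniqueness (`QH.ext_inj`).
`rat_cst`: the structures `push DO s` and `push iP s` agree; if `y` is rational over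
`root p m M` then `map DO y ≡ map iP y` modulo `eP m` (`cong_map_map`, `DO_sub_mem`), so
`map DO z ≡ map iP z` modulo `eP m ^ p ^ k` (`SPG.cong_nsmul`); `eq_of_cong_pow`, `map_eq_map_iff`.
`Good.dcl`: use `dcl_acl`.  For `τ` fixing `F = acl K(x)`, `τ' = Perf.map τ` fixes `DO (j c)`
(`Mor.DO`); `y` is rational over `F` (`TorsFin.rat'`), so `τ y = y`, and both `map DO y` and its image
under `τ'` are congruent to `map iP y` modulo `eP m`; multiply by `p ^ k` and add `map DO γ`.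
-/

namespace MLF

universe u

open PG Sett

variable {p : ℕ} [Fact p.Prime] {K Ω Ω' : Type u} [Field K] [CharP K p] [IsAlgClosed K] [Field Ω]
  [CharP Ω p] [IsAlgClosed Ω] [Field Ω'] [CharP Ω' p] [IsAlgClosed Ω']

/-- The restriction of a morphism. -/
def Sett.Mor.toM {𝒮 : Sett p K} {𝒯 : Sett p Ω} {j : K →+* Ω} (h : Mor 𝒮 𝒯 j) : 𝒮.M →+* 𝒯.M :=
  (j.comp 𝒮.M.subtype).codRestrict 𝒯.M fun z => h.mem z z.2

namespace PG

variable {A B : PG.{u}} {s : A.Str K} {t : B.Str K} {s' : A.Str Ω} {t' : B.Str Ω}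

/-- Good points of the subgroup `D`. -/
def Good (𝒮 : Sett p K) (𝒯 : Sett p Ω) {j : K →+* Ω} (h : A.push j s = s')
    (D : AddSubgroup (A.Pt s)) (x : A.Pt s') : Prop :=
  ∃ m, ∀ k : ℕ, ∃ γ ∈ D, ∃ y ∈ extS h D, Rat (root p m 𝒮.M) γ ∧ Rat (root p m 𝒯.M) y ∧
    x = A.map j h γ + p ^ k • y

variable {𝒮 : Sett p K} {𝒯 : Sett p Ω} {𝒯' : Sett p Ω'} {j : K →+* Ω} {h : A.push j s = s'}
  {D D' : AddSubgroup (A.Pt s)} {x : A.Pt s'}

theorem Good.mem (hx : Good 𝒮 𝒯 h D x) : x ∈ extS h D := by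
  obtain ⟨m, hm⟩ := hx
  obtain ⟨γ, hγ, y, hy, -, -, rfl⟩ := hm 0
  exact (extS h D).add_mem (map_mem_ext j h hγ) ((extS h D).nsmul_mem hy _)
theorem Good.mono (hx : Good 𝒮 𝒯 h D x) (hD : D ≤ D') : Good 𝒮 𝒯 h D' x := by
  obtain ⟨m, hm⟩ := hx
  refine ⟨m, fun k => ?_⟩
  obtain ⟨γ, hγ, y, hy, h1, h2, h3⟩ := hm k
  exact ⟨γ, hD hγ, y, ext_mono j s' hD hy, h1, h2, h3⟩
theorem Good.lev_iff (m : ℕ) : Good (𝒮.lev m) (𝒯.lev m) h D x ↔ Good 𝒮 𝒯 h D x := by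
  constructor
  · rintro ⟨n, hn⟩
    refine ⟨n + m, fun k => ?_⟩
    obtain ⟨γ, hγ, y, hy, h1, h2, h3⟩ := hn k
    rw [lev_M, root_root] at h1 h2
    exact ⟨γ, hγ, y, hy, h1, h2, h3⟩
  · rintro ⟨n, hn⟩
    refine ⟨n, fun k => ?_⟩
    obtain ⟨γ, hγ, y, hy, h1, h2, h3⟩ := hn k
    refine ⟨γ, hγ, y, hy, ?_, ?_, h3⟩
    · rw [lev_M, root_root]
      exact h1.mono (root_mono p (Nat.le_add_right _ _) le_rfl)
    · rw [lev_M, root_root]
      exact h2.mono (root_mono p (Nat.le_add_right _ _) le_rfl)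
theorem Good_rat_map {ψ : Ω →+* Ω'} (hψ : Mor 𝒯 𝒯' ψ) {s'' : A.Str Ω'} (e : A.push ψ s' = s'')
    {m : ℕ} {y : A.Pt s'} (hy : Rat (root p m 𝒯.M) y) : Rat (root p m 𝒯'.M) (A.map ψ e y) :=
  (rat_map_iff ψ e).2 (hy.mono fun _ hz => hψ.root.2 hz)
theorem Good.map (hx : Good 𝒮 𝒯 h D x) {ψ : Ω →+* Ω'} (hψ : Mor 𝒯 𝒯' ψ) {s'' : A.Str Ω'}
    (e : A.push ψ s' = s'') : Good 𝒮 𝒯' (push_trans h e) D (A.map ψ e x) := by
  obtain ⟨m, hm⟩ := hx
  refine ⟨m, fun k => ?_⟩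
  obtain ⟨γ, hγ, y, hy, h1, h2, rfl⟩ := hm k
  refine ⟨γ, hγ, A.map ψ e y, mem_ext_map ψ e hy, h1, Good_rat_map hψ e h2, ?_⟩
  rw [map_add, map_nsmul, map_map]
theorem Good.prod (hx : Good 𝒮 𝒯 h D x) {e : B.push j t = t'} {E : AddSubgroup (B.Pt t)}
    {y : B.Pt t'} (hy : Good 𝒮 𝒯 e E y) (hD : Cl (D : Set (A.Pt s))) (hE : Cl (E : Set (B.Pt t))) :
    Good (A := A.prod B) (s := (s, t)) (s' := (s', t')) 𝒮 𝒯 (prod_push h e) (D.prod E) (x, y) := by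
  obtain ⟨m, hm⟩ := hx
  obtain ⟨n, hn⟩ := hy
  refine ⟨m + n, fun k => ?_⟩
  obtain ⟨γ, hγ, a, ha, h1, h2, h3⟩ := hm k
  obtain ⟨δ, hδ, b, hb, g1, g2, g3⟩ := hn k
  refine ⟨(γ, δ), ⟨hγ, hδ⟩, (a, b), ?_, ?_, ?_, Prod.ext h3 g3⟩
  · have e1 := ext_sprod h e hD hE
    have e2 : ((a, b) : (A.prod B).Pt (s', t')) ∈ sprod (ext j s' (D : Set (A.Pt s)))
      (ext j t' (E : Set (B.Pt t))) := ⟨ha, hb⟩
    rw [← e1] at e2
    exact e2
  · exact (prod_rat _ _).2 ⟨h1.mono (root_mono p (Nat.le_add_right _ _) le_rfl),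
      g1.mono (root_mono p (Nat.le_add_left _ _) le_rfl)⟩
  · exact (prod_rat _ _).2 ⟨h2.mono (root_mono p (Nat.le_add_right _ _) le_rfl),
      g2.mono (root_mono p (Nat.le_add_left _ _) le_rfl)⟩
theorem Good_aux (hj : Mor 𝒮 𝒯 j) (hx : Good 𝒮 𝒯 h D x)
    {Γ : AddSubgroup ((A.prod B).Pt (s, t))} (hΓ : QH Γ) (hd : D ≤ dom Γ) (e : B.push j t = t')
    {y : B.Pt t'} (hxy : ((x, y) : (A.prod B).Pt (s', t')) ∈ extG h e Γ) :
    ∃ m, ∀ k : ℕ, ∃ γ ∈ D, ∃ (δ : B.Pt t) (a : A.Pt s') (b : B.Pt t'), a ∈ extS h D ∧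
      ((γ, δ) : (A.prod B).Pt (s, t)) ∈ Γ ∧ ((a, b) : (A.prod B).Pt (s', t')) ∈ extG h e Γ ∧
      Rat (root p m 𝒮.M) γ ∧ Rat (root p m 𝒮.M) δ ∧ Rat (root p m 𝒯.M) a ∧
      Rat (root p m 𝒯.M) b ∧ x = A.map j h γ + p ^ k • a ∧ y = B.map j e δ + p ^ k • b := by
  obtain ⟨m, hm⟩ := hx
  obtain ⟨F, m₀, hF⟩ := hΓ.level p
  obtain ⟨m₁, hm₁⟩ := 𝒮.exists_root F
  have hF₁ : ∀ c ∈ F, c ∈ root p (m + m₁) 𝒮.M := fun c hc =>
    root_mono p (Nat.le_add_left _ _) le_rfl (hm₁ hc)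
  refine ⟨m₀ + (m + m₁), fun k => ?_⟩
  obtain ⟨γ, hγ, a, ha, h1, h2, h3⟩ := hm k
  obtain ⟨δ, hδ⟩ := mem_dom.1 (hd hγ)
  have ha' : a ∈ dom (extG h e Γ) := by
    rw [dom_ext]
    exact ext_mono j s' hd ha
  obtain ⟨b, hb⟩ := mem_dom.1 ha'
  refine ⟨γ, hγ, δ, a, b, ha, hδ, hb, h1.mono (root_mono p (by omega) le_rfl), ?_,
    h2.mono (root_mono p (by omega) le_rfl), ?_, h3, ?_⟩
  · rw [← root_root]
    exact hF K (RingHom.id K) s t (A.ax.push_id s) (B.ax.push_id t) _ hF₁ γ δ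
      (subset_cl (A := A.prod B) (s := (s, t)) _ hδ)
      (h1.mono (root_mono p (Nat.le_add_right _ _) le_rfl))
  · rw [← root_root]
    exact hF Ω j s' t' h e _ (fun c hc => hj.root.2 (hF₁ c hc)) a b hb
      (h2.mono (root_mono p (Nat.le_add_right _ _) le_rfl))
  · have h4 := (extG h e Γ).add_mem (map_mem_ext (A := A.prod B) j (prod_push h e) hδ)
      ((extG h e Γ).nsmul_mem hb (p ^ k))
    have h5 : (A.prod B).map j (prod_push h e) ((γ, δ) : (A.prod B).Pt (s, t)) +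
        p ^ k • ((a, b) : (A.prod B).Pt (s', t')) = (x, B.map j e δ + p ^ k • b) :=
      Prod.ext h3.symm rfl
    rw [h5] at h4
    exact hΓ.ext_uniq h e hxy h4
theorem Good.img (hj : Mor 𝒮 𝒯 j) (hx : Good 𝒮 𝒯 h D x) (hD : Cl (D : Set (A.Pt s)))
    {Γ : AddSubgroup ((A.prod B).Pt (s, t))} (hΓ : QH Γ) (hd : D ≤ dom Γ) (e : B.push j t = t')
    {y : B.Pt t'} (hxy : ((x, y) : (A.prod B).Pt (s', t')) ∈ extG h e Γ) :
    Good 𝒮 𝒯 e (imgS Γ D) y := by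
  obtain ⟨m, hm⟩ := Good_aux hj hx hΓ hd e hxy
  refine ⟨m, fun k => ?_⟩
  obtain ⟨γ, hγ, δ, a, b, ha, hδ, hb, -, h2, -, h4, -, h6⟩ := hm k
  refine ⟨δ, ?_, b, ?_, h2, h4, h6⟩
  · rw [← SetLike.mem_coe, coe_imgS]
    exact ⟨γ, hγ, hδ⟩
  · rw [mem_extS, coe_imgS, ← img_ext hΓ.var.1 h e hD]
    exact ⟨a, ha, hb⟩
theorem Good.proj (hj : Mor 𝒮 𝒯 j) (hx : Good 𝒮 𝒯 h D x) {S : AddSubgroup (A.Pt s)} {N : ℕ}
    {Γ : AddSubgroup ((A.prod A).Pt (s, s))} (hΓ : IsProj D S N Γ) {y : A.Pt s'}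
    (hxy : ((x, y) : (A.prod A).Pt (s', s')) ∈ extG h h Γ) : Good 𝒮 𝒯 h S (N • x - y) := by
  obtain ⟨m, hm⟩ := Good_aux hj hx hΓ.qh hΓ.dom.ge h hxy
  obtain ⟨F, hF⟩ := exists_def (A := A) s
  obtain ⟨m₁, hm₁⟩ := 𝒮.exists_root F
  have d1 : A.Def (root p (m + m₁) 𝒮.M) s :=
    hF _ fun c hc => root_mono p (Nat.le_add_left _ _) le_rfl (hm₁ hc)
  have d2 : A.Def (root p (m + m₁) 𝒯.M) s' := (d1.map j h).mono (by
    rintro _ ⟨c, hc, rfl⟩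
    exact hj.root.2 hc)
  refine ⟨m + m₁, fun k => ?_⟩
  obtain ⟨γ, -, δ, a, b, -, hδ, hb, h1, h2, h3, h4, h5, h6⟩ := hm k
  have l1 : root p m 𝒮.M ≤ root p (m + m₁) 𝒮.M := root_mono p (Nat.le_add_right _ _) le_rfl
  have l2 : root p m 𝒯.M ≤ root p (m + m₁) 𝒯.M := root_mono p (Nat.le_add_right _ _) le_rfl
  refine ⟨N • γ - δ, hΓ.sub _ hδ, N • a - b, (hΓ.ext h).sub _ hb,
    (RatS d1).sub_mem ((RatS d1).nsmul_mem (h1.mono l1) N) (h2.mono l1),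
    (RatS d2).sub_mem ((RatS d2).nsmul_mem (h3.mono l2) N) (h4.mono l2), ?_⟩
  rw [h5, h6, map_sub, map_nsmul]
  module

end PG

namespace SPG

variable {A : SPG.{u}} {s : A.Str K} {s' : A.Str Ω} {𝒮 : Sett p K} {𝒯 : Sett p Ω}

/-- Two homomorphisms to the perfection which are congruent on a point which is infinitely
divisible up to a fixed part. -/
theorem Good_eq {φ φ' : Ω →+* Perf p Ω} {t : A.Str (Perf p Ω)} (h₁ : A.push φ s' = t)
    (h₂ : A.push φ' s' = t) {z : A.Pt s'} {m : ℕ}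
    (hz : ∀ k : ℕ, ∃ (γ y : A.Pt s') (v : A.σ → Ω), A.map φ h₁ γ = A.map φ' h₂ γ ∧ A.Rep y v ∧
      (∀ i, φ (v i) - φ' (v i) ∈ Ideal.span {eP p Ω m}) ∧ z = γ + p ^ k • y) :
    ∀ c ∈ rat z, φ c = φ' c := by
  refine (map_eq_map_iff h₁ h₂).1 (eq_of_cong_pow (𝔞 := Ideal.span {eP p Ω m}) fun n => ?_)
  obtain ⟨γ, y, v, hγ, hv, hc, rfl⟩ := hz n
  have h1 := cong_nsmul p (CharP.cast_eq_zero _ p) (cong_map_map h₁ h₂ hv hc) n
  rw [map_add, map_add, map_nsmul, map_nsmul, hγ]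
  refine Cong.add rfl (Cong.refl _ _) (h1.mono ?_)
  rw [Ideal.span_singleton_pow, Ideal.span_singleton_le_span_singleton]
  exact pow_dvd_pow _ (Nat.lt_pow_self (Fact.out : p.Prime).one_lt).le

theorem rat_cst (hs : A.Def 𝒯.cst s') {z : A.Pt s'} {m : ℕ}
    (hz : ∀ k : ℕ, ∃ y, Rat (root p m 𝒯.M) y ∧ z = p ^ k • y) : Rat 𝒯.cst z := by
  have e : A.push (iP p Ω) s' = A.push 𝒯.DO s' := hs.push_eq fun c hc => (𝒯.mem_cst.1 hc).symm
  intro c hc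
  refine 𝒯.mem_cst.2 (Good_eq (m := m) rfl e (fun k => ?_) c hc)
  obtain ⟨y, hy, rfl⟩ := hz k
  obtain ⟨v, hv, hv'⟩ := rat_iff.1 hy
  exact ⟨0, y, v, by rw [map_zero, map_zero], hv, fun i => 𝒯.DO_sub_mem (hv' i), (zero_add _).symm⟩

/-- The difference of two conjugates of a good point is constant. -/
theorem good_sub {j : K →+* Ω} {h : A.push j s = s'} {D : AddSubgroup (A.Pt s)} {x : A.Pt s'}
    (hx : Good 𝒮 𝒯 h D x) {𝒯' : Sett p Ω'} {ψ₁ ψ₂ : Ω →+* Ω'} (h₁ : Mor 𝒯 𝒯' ψ₁)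
    (h₂ : Mor 𝒯 𝒯' ψ₂) (hψ : ψ₁.comp j = ψ₂.comp j) {s'' : A.Str Ω'} (e₁ : A.push ψ₁ s' = s'')
    (e₂ : A.push ψ₂ s' = s'') (hs : A.Def 𝒯'.cst s'') :
    Rat 𝒯'.cst (A.map ψ₁ e₁ x - A.map ψ₂ e₂ x) := by
  obtain ⟨m, hm⟩ := hx
  refine rat_cst (m := m) hs fun k => ?_
  obtain ⟨γ, -, y, -, -, hy, rfl⟩ := hm k
  have d : A.Def (root p m 𝒯'.M) s'' :=
    hs.mono (𝒯'.cst_le.trans fun c hc => pow_mem hc _)
  refine ⟨A.map ψ₁ e₁ y - A.map ψ₂ e₂ y,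
    (RatS d).sub_mem (Good_rat_map h₁ e₁ hy) (Good_rat_map h₂ e₂ hy), ?_⟩
  rw [map_add, map_add, map_nsmul, map_nsmul, map_map, map_map,
    map_congr hψ (push_trans h e₁) (push_trans h e₂)]
  module

theorem good_dcl {j : K →+* Ω} (hj : Mor 𝒮 𝒯 j) (ht : A.TorsFin s) {h : A.push j s = s'}
    {D : AddSubgroup (A.Pt s)} {x : A.Pt s'} (hx : Good 𝒮 𝒯 h D x) :
    𝒯.DCl (acl (adj j.fieldRange (rat x))) := by
  refine dcl_acl hj fun τ hτ => ?_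
  obtain ⟨m, hm⟩ := hx
  have hjF : j.fieldRange ≤ acl (adj j.fieldRange (rat x)) := (le_adj _ _).trans (le_acl _)
  have hτj : (τ : Ω →+* Ω).comp j = j := RingHom.ext fun c => hτ _ (hjF ⟨c, rfl⟩)
  have hc : ∀ c ∈ j.fieldRange, (Perf.map p (τ : Ω →+* Ω)).comp 𝒯.DO c = 𝒯.DO c := by
    rintro _ ⟨c, rfl⟩
    rw [RingHom.comp_apply, hj.DO, Perf.map_map, hτj]
  have e : A.push ((Perf.map p (τ : Ω →+* Ω)).comp 𝒯.DO) s' = A.push 𝒯.DO s' :=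
    (def_range j s h le_rfl).push_eq hc
  have d : A.Def (acl (adj j.fieldRange (rat x))) s' := def_range j s h hjF
  refine Good_eq (m := m) e rfl fun k => ?_
  obtain ⟨γ, -, y, -, -, hy, hk⟩ := hm k
  have r1 : Rat j.fieldRange (A.map j h γ) := (rat_range_iff j h).2 ⟨γ, rfl⟩
  have r2 : Rat (acl (adj j.fieldRange (rat x))) y := by
    refine (ht.ext h).rat' d (pow_ne_zero k (Fact.out : p.Prime).ne_zero) ?_
    have e1 : p ^ k • y = x - A.map j h γ := by rw [hk, add_sub_cancel_left]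
    rw [e1]
    exact (RatS d).sub_mem ((rat_adj _ x).mono (le_acl _)) (r1.mono hjF)
  obtain ⟨v, hv, hv'⟩ := rat_iff.1 (rat_inf.2 ⟨hy, r2⟩)
  refine ⟨A.map j h γ, y, v, (map_eq_map_iff _ _).2 fun c hc' => hc c (r1 hc'), hv, fun i => ?_, hk⟩
  have h1 := 𝒯.DO_sub_mem (hv' i).1
  have h2 : Perf.map p (τ : Ω →+* Ω) (𝒯.DO (v i) - iP p Ω (v i)) ∈ Ideal.span {eP p Ω m} := by
    obtain ⟨w, hw⟩ := Ideal.mem_span_singleton'.1 h1
    rw [← hw, map_mul, Perf.map_eP]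
    exact Ideal.mul_mem_left _ _ (Ideal.mem_span_singleton_self _)
  have h3 : (τ : Ω →+* Ω) (v i) = v i := hτ _ (hv' i).2
  rw [map_sub, Perf.map_iP, h3] at h2
  have h4 := Ideal.sub_mem _ h2 h1
  rw [sub_sub_sub_cancel_right] at h4
  exact h4

end SPG

end MLF
end

-- merged part: Pool.Agent.Work.MP_29d410_ag.Hull
section
-- merged part: Pool.Agent.Work.MP_29d410_ag.Hyp
section
/-!
# The finiteness hypothesis on the group

`SmallQ p Λ₀ Λ` says that every subgroup of `(Λ + Λ₀) / Λ₀` is finite modulo `p`.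
Plan.  This property passes to subgroups, quotients and extensions.  `smallQ_of_rank`: let `Λ` have
rank `r` and `S ≤ Λ`; if `x₁, ..., x_n ∈ S` are independent modulo `p S` then the subgroup `T` they
generate has `card (T / p T) ≥ p ^ n`, while `card (T / p T) = p ^ (rank T) * card T[p]` for a finitely
generated group.  `SmallQ.finite_tors`: for `N = 1` let `S` be the set of `x ∈ Λ` with
`p • f x = 0`; induction on `N`.  `smallQ_sat`: `Λ / Λ₀` embeds in `N' / N`, `N'` the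
`p`-saturation of `N` in the torsion free group; it is a `p`-group whose `p`-torsion embeds in
`N / p N`; for a finite subgroup `T`, `card (T / p T) = card T[p]`.
`Hyp.img`: `QH.level`, as in `Good.img`; `Λ₀` is replaced by its image.
-/

namespace MLF

universe u

section group

variable (p : ℕ) {G G' : Type u} [AddCommGroup G] [AddCommGroup G']

/-- Subgroups of `Λ` are finite modulo `p` and `Λ₀`. -/
def SmallQ (Λ₀ Λ : AddSubgroup G) : Prop :=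
  ∀ S ≤ Λ, ∃ F : Set G, F.Finite ∧ ∀ x ∈ S, ∃ γ ∈ F, ∃ y ∈ S, ∃ z ∈ Λ₀, x = γ + p • y + z

/-- Finite rank. -/
def FR (Λ : AddSubgroup G) : Prop :=
  ∃ B : Set G, B.Finite ∧ B ⊆ Λ ∧ ∀ x ∈ Λ, ∃ n : ℕ, n ≠ 0 ∧ n • x ∈ AddSubgroup.closure B

variable {p} {Λ₀ Λ Λ₀' Λ' : AddSubgroup G}

/-- Representatives of finitely many classes. -/
theorem Hyp_choose {α β : Type*} {X : Set α} {F : Set β} (hF : F.Finite) (R : β → α → Prop)
    (h : ∀ x ∈ X, ∃ γ ∈ F, R γ x) :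
    ∃ F' : Set α, F'.Finite ∧ F' ⊆ X ∧ ∀ x ∈ X, ∃ x' ∈ F', ∃ γ, R γ x ∧ R γ x' := by
  have H : ∀ γ : {γ // γ ∈ F ∧ ∃ x ∈ X, R γ x}, ∃ x ∈ X, R γ x := fun γ => γ.2.2
  choose g g1 g2 using H
  have : Finite {γ // γ ∈ F ∧ ∃ x ∈ X, R γ x} := (hF.subset fun _ h => h.1).to_subtype
  refine ⟨Set.range g, Set.finite_range g, Set.range_subset_iff.2 g1, fun x hx => ?_⟩
  obtain ⟨γ, h1, h2⟩ := h x hx
  exact ⟨_, ⟨⟨γ, h1, x, hx, h2⟩, rfl⟩, γ, h2, g2 ⟨γ, h1, x, hx, h2⟩⟩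

theorem Hyp_of_finite (h : Finite (G ⧸ (nsmulAddMonoidHom (α := G) p).range)) :
    ∃ F : Set G, F.Finite ∧ ∀ x, ∃ γ ∈ F, ∃ y, x = γ + p • y := by
  refine ⟨Set.range fun q : G ⧸ (nsmulAddMonoidHom (α := G) p).range => q.out,
    Set.finite_range _, fun x => ⟨_, ⟨(x : G ⧸ _), rfl⟩, ?_⟩⟩
  obtain ⟨y, hy⟩ := QuotientAddGroup.eq.1 (QuotientAddGroup.out_eq' (x : G ⧸
    (nsmulAddMonoidHom (α := G) p).range))
  exact ⟨y, by rw [nsmulAddMonoidHom_apply] at hy; rw [hy, add_neg_cancel_left]⟩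

/-- A torsion group with finite `p`-torsion is finite modulo `p`. -/
theorem Hyp_tors (ht : ∀ x : G, ∃ n : ℕ, n ≠ 0 ∧ n • x = 0) (hf : {x : G | p • x = 0}.Finite) :
    ∃ F : Set G, F.Finite ∧ ∀ x, ∃ γ ∈ F, ∃ y, x = γ + p • y := by
  refine Hyp_of_finite ?_
  by_contra hi
  rw [not_finite_iff_infinite] at hi
  obtain ⟨t, ht'⟩ := Infinite.exists_subset_card_eq
    (G ⧸ (nsmulAddMonoidHom (α := G) p).range) ({x : G | p • x = 0}.ncard + 1)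
  have : Finite (Quotient.out '' (t : Set (G ⧸ (nsmulAddMonoidHom (α := G) p).range))) :=
    (t.finite_toSet.image _).to_subtype
  let T := AddSubgroup.closure
    (Quotient.out '' (t : Set (G ⧸ (nsmulAddMonoidHom (α := G) p).range)))
  have : Finite T := AddCommGroup.finite_of_fg_isAddTorsion T fun x => by
    obtain ⟨n, hn, hx⟩ := ht x
    exact isOfFinAddOrder_iff_nsmul_eq_zero.2 ⟨n, Nat.pos_of_ne_zero hn, Subtype.ext hx⟩
  have h1 : Nat.card (T ⧸ (nsmulAddMonoidHom (α := T) p).range) ≤ {x : G | p • x = 0}.ncard := by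
    rw [← AddSubgroup.index_eq_card, AddSubgroup.index_range, ← Nat.card_coe_set_eq]
    have := hf.to_subtype
    refine Nat.card_le_card_of_injective (fun x => ⟨x.1.1, congrArg Subtype.val x.2⟩) ?_
    intro x y e
    exact Subtype.ext (Subtype.ext (Subtype.mk.inj e))
  have h2 : Nat.card t ≤ Nat.card (T ⧸ (nsmulAddMonoidHom (α := T) p).range) := by
    refine Nat.card_le_card_of_injective (fun q => QuotientAddGroup.mk
      (⟨q.1.out, AddSubgroup.subset_closure ⟨q.1, q.2, rfl⟩⟩ : T)) ?_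
    intro q q' e
    obtain ⟨y, hy⟩ := QuotientAddGroup.eq.1 e
    refine Subtype.ext ?_
    rw [← QuotientAddGroup.out_eq' q.1, ← QuotientAddGroup.out_eq' q'.1]
    exact QuotientAddGroup.eq.2 ⟨y.1, congrArg Subtype.val hy⟩
  rw [Nat.card_eq_fintype_card, Fintype.card_coe, ht'] at h2
  omega

theorem Hyp_rel {S L : AddSubgroup G} (h1 : ∀ x ∈ S, ∃ n : ℕ, n ≠ 0 ∧ n • x ∈ L) {F : Set G}
    (hF : F.Finite) (h2 : ∀ x ∈ S, p • x ∈ L → ∃ γ ∈ F, x - γ ∈ L) :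
    ∃ F : Set G, F.Finite ∧ ∀ x ∈ S, ∃ γ ∈ F, ∃ y ∈ S, ∃ z ∈ L, x = γ + p • y + z := by
  obtain ⟨F', h3, h4⟩ := Hyp_tors (p := p) (G := S.map (QuotientAddGroup.mk' L)) (by
    rintro ⟨_, x, hx, rfl⟩
    obtain ⟨n, hn, h⟩ := h1 x hx
    exact ⟨n, hn, Subtype.ext ((QuotientAddGroup.eq_zero_iff _).2 h)⟩) (by
    refine ((hF.image (QuotientAddGroup.mk' L)).preimage Subtype.val_injective.injOn).subset ?_
    rintro ⟨_, x, hx, rfl⟩ h
    obtain ⟨γ, h3, h4⟩ := h2 x hx ((QuotientAddGroup.eq_zero_iff _).1 (congrArg Subtype.val h))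
    exact ⟨γ, h3, (QuotientAddGroup.eq_iff_sub_mem.2 h4).symm⟩)
  refine ⟨(fun q => q.1.out) '' F', h3.image _, fun x hx => ?_⟩
  obtain ⟨γ, h5, ⟨_, y, hy, rfl⟩, h6⟩ := h4 ⟨_, x, hx, rfl⟩
  refine ⟨_, ⟨γ, h5, rfl⟩, y, hy, x - (γ.1.out + p • y), ?_, (add_sub_cancel _ _).symm⟩
  refine QuotientAddGroup.eq_iff_sub_mem.1 ?_
  rw [QuotientAddGroup.mk_add, QuotientAddGroup.out_eq']
  exact congrArg Subtype.val h6

theorem fr_of_finiteDimensional (h : FiniteDimensional ℚ (TensorProduct ℤ ℚ Λ)) : FR Λ := by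
  let f := TensorProduct.mk ℤ ℚ Λ 1
  have h1 : Submodule.span ℚ (f '' Set.univ) = ⊤ :=
    span_eq_top_of_isLocalizedModule ℚ (nonZeroDivisors ℤ) f Submodule.span_univ
  obtain ⟨t, ht, h2⟩ := (Submodule.fg_span_iff_fg_span_finset_subset (R := ℚ) (f '' Set.univ)).1
    (h1 ▸ h.fg_top)
  obtain ⟨B, -, h3, h4⟩ := Set.Finite.exists_subset_finite_image_eq t.finite_toSet ht
  refine ⟨Λ.subtype '' B, h3.image _, ?_, fun x hx => ?_⟩
  · rintro _ ⟨x, -, rfl⟩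
    exact x.2
  obtain ⟨n, hn⟩ := multiple_mem_span_of_mem_localization_span (nonZeroDivisors ℤ) ℚ (t : Set _)
    (f ⟨x, hx⟩) (by rw [← h2, h1]; trivial)
  obtain ⟨b, hb, e⟩ : n • f ⟨x, hx⟩ ∈ (Submodule.span ℤ B).map f := by
    rw [Submodule.map_span, h4]
    exact hn
  obtain ⟨c, hc⟩ := IsLocalizedModule.exists_of_eq (S := nonZeroDivisors ℤ) (f := f)
    (e.trans (f.map_smul n.1 ⟨x, hx⟩).symm)
  have h5 : ((c * n : nonZeroDivisors ℤ) : ℤ) • x ∈ AddSubgroup.closure (Λ.subtype '' B) := by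
    rw [← AddMonoidHom.map_closure, ← Submodule.span_int_eq_addSubgroupClosure]
    exact ⟨c.1 • b, Submodule.smul_mem _ _ hb, (congrArg Subtype.val hc).trans (smul_smul _ _ _)⟩
  refine ⟨((c * n : nonZeroDivisors ℤ) : ℤ).natAbs,
    Int.natAbs_ne_zero.2 (nonZeroDivisors.coe_ne_zero _), ?_⟩
  rcases Int.natAbs_eq_iff.1 (rfl : ((c * n : nonZeroDivisors ℤ) : ℤ).natAbs = _) with h6 | h6
  · rwa [h6, natCast_zsmul] at h5
  · rwa [h6, neg_smul, neg_mem_iff, natCast_zsmul] at h5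

theorem FR.map (h : FR Λ) (f : G →+ G') : FR (Λ.map f) := by
  obtain ⟨B, h1, h2, h3⟩ := h
  refine ⟨f '' B, h1.image _, Set.image_mono h2, ?_⟩
  rintro _ ⟨x, hx, rfl⟩
  obtain ⟨n, hn, h⟩ := h3 x hx
  exact ⟨n, hn, by rw [← f.map_closure, ← map_nsmul]; exact ⟨_, h, rfl⟩⟩

theorem FR.Hyp_sub (h : FR Λ) {f : G' →+ G} (hf : Function.Injective f) {S : AddSubgroup G'}
    (hS : S ≤ Λ.comap f) : FR S := by
  obtain ⟨B, h1, -, h3⟩ := h
  have := h1.to_subtype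
  have : Module.Finite ℤ (AddSubgroup.closure B) := Module.Finite.iff_addGroup_fg.2 inferInstance
  let T := S ⊓ (AddSubgroup.closure B).comap f
  let g : T →+ AddSubgroup.closure B := (f.comp T.subtype).codRestrict _ fun x => x.2.2
  have : Module.Finite ℤ T := Module.Finite.of_injective g.toIntLinearMap fun x y e =>
    Subtype.ext (hf (congrArg Subtype.val e))
  obtain ⟨B', h4, h5⟩ := T.fg_iff.1 ((AddGroup.fg_iff_addSubgroup_fg T).1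
    (Module.Finite.iff_addGroup_fg.1 this))
  refine ⟨B', h5, fun x hx => (h4.le (AddSubgroup.subset_closure hx)).1, fun x hx => ?_⟩
  obtain ⟨n, hn, h⟩ := h3 _ (hS hx)
  exact ⟨n, hn, h4.ge ⟨S.nsmul_mem hx n, by rwa [← map_nsmul] at h⟩⟩

theorem FR.comap (h : FR Λ) {f : G' →+ G} (hf : Function.Injective f) : FR (Λ.comap f) :=
  h.Hyp_sub hf le_rfl

theorem smallQ_of_rank [Fact p.Prime] (h : FR Λ) (ht : {x : G | p • x = 0}.Finite) :
    SmallQ p ⊥ Λ := by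
  intro S hS
  obtain ⟨B, h1, h2, h3⟩ := h.Hyp_sub (f := AddMonoidHom.id G) Function.injective_id hS
  have := h1.to_subtype
  have hL : AddSubgroup.closure B ≤ S := (AddSubgroup.closure_le _).2 h2
  obtain ⟨F, hF, h4⟩ := Hyp_of_finite (p := p) (G := AddSubgroup.closure B)
    (AddSubgroup.finiteIndex_iff_finite_quotient.1
      (AddSubgroup.finiteIndex_range_nsmulAddMonoidHom_of_fg _ (Fact.out : p.Prime).ne_zero))
  have h5 : ∀ z ∈ AddSubgroup.closure B, ∃ γ ∈ Subtype.val '' F, ∃ y ∈ AddSubgroup.closure B,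
      z = γ + p • y := fun z hz => by
    obtain ⟨γ, h6, y, h7⟩ := h4 ⟨z, hz⟩
    exact ⟨γ, ⟨γ, h6, rfl⟩, y, y.2, congrArg Subtype.val h7⟩
  obtain ⟨F₁, h6, -, h7⟩ := Hyp_choose (X := {x | p • x ∈ AddSubgroup.closure B}) (hF.image _)
    (fun γ x => ∃ y ∈ AddSubgroup.closure B, p • x = γ + p • y) fun x hx => h5 _ hx
  obtain ⟨F₂, h8, h9⟩ := Hyp_rel h3 (h6.image2 (· + ·) ht) fun x _ hx => by
    obtain ⟨x', h8, γ, ⟨y, hy, e⟩, y', hy', e'⟩ := h7 x hx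
    refine ⟨_, ⟨x', h8, x - x' - (y - y'), ?_, rfl⟩, ?_⟩
    · change p • (x - x' - (y - y')) = 0
      rw [smul_sub, smul_sub, smul_sub, e, e']
      abel
    · have : x - (x' + (x - x' - (y - y'))) = y - y' := by abel
      rw [this]
      exact sub_mem hy hy'
  refine ⟨_, h8.image2 (· + ·) (hF.image Subtype.val), fun x hx => ?_⟩
  obtain ⟨γ, h10, y, hy, z, hz, rfl⟩ := h9 x hx
  obtain ⟨γ', h11, y', hy', rfl⟩ := h5 z hz
  refine ⟨γ + γ', ⟨γ, h10, γ', h11, rfl⟩, y + y', add_mem hy (hL hy'), 0, zero_mem _, ?_⟩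
  rw [smul_add]
  abel

theorem SmallQ.mono (h : SmallQ p Λ₀ Λ) (h₀ : Λ₀ ≤ Λ₀') (h₁ : Λ' ≤ Λ) : SmallQ p Λ₀' Λ' := by
  intro S hS
  obtain ⟨F, hF, h2⟩ := h S (hS.trans h₁)
  refine ⟨F, hF, fun x hx => ?_⟩
  obtain ⟨γ, h3, y, hy, z, hz, e⟩ := h2 x hx
  exact ⟨γ, h3, y, hy, z, h₀ hz, e⟩

theorem SmallQ.sup (h : SmallQ p Λ₀ Λ) (h' : SmallQ p Λ₀' Λ') :
    SmallQ p (Λ₀ ⊔ Λ₀') (Λ ⊔ Λ') := by
  intro S hS
  obtain ⟨F, hF, h1⟩ := h (Λ ⊓ (S ⊔ Λ₀')) inf_le_left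
  obtain ⟨F', hF', h2⟩ := h' (Λ' ⊓ (S ⊔ Λ)) inf_le_left
  obtain ⟨F₁, h3, h4, h5⟩ := Hyp_choose (X := S) hF'
    (fun γ x => ∃ y ∈ S, ∃ a ∈ Λ, ∃ z ∈ Λ₀', x = γ + p • y + a + z) fun x hx => by
    obtain ⟨a, ha, b, hb, rfl⟩ := AddSubgroup.mem_sup.1 (hS hx)
    obtain ⟨γ, h3, b', hb', z, hz, rfl⟩ := h2 b ⟨hb, AddSubgroup.mem_sup.2
      ⟨_, hx, -a, neg_mem ha, by abel⟩⟩
    obtain ⟨y, hy, a', ha', rfl⟩ := AddSubgroup.mem_sup.1 hb'.2
    refine ⟨γ, h3, y, hy, a + p • a', add_mem ha (Λ.nsmul_mem ha' p), z, hz, ?_⟩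
    rw [smul_add]
    abel
  refine ⟨_, h3.image2 (· + ·) hF, fun x hx => ?_⟩
  obtain ⟨x', h6, γ, ⟨y, hy, a, ha, z, hz, e⟩, y', hy', a', ha', z', hz', e'⟩ := h5 x hx
  obtain ⟨δ, h7, c, hc, w, hw, e₂⟩ := h1 (a - a') ⟨Λ.sub_mem ha ha', AddSubgroup.mem_sup.2
    ⟨x - x' - p • (y - y'), S.sub_mem (S.sub_mem hx (h4 h6)) (S.nsmul_mem (sub_mem hy hy') p),
      z' - z, Λ₀'.sub_mem hz' hz, by rw [e, e', smul_sub]; abel⟩⟩
  obtain ⟨v, hv, c', hc', rfl⟩ := AddSubgroup.mem_sup.1 hc.2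
  refine ⟨x' + δ, ⟨x', h6, δ, h7, rfl⟩, y - y' + v, add_mem (sub_mem hy hy') hv,
    w + (z - z' + p • c'), AddSubgroup.add_mem_sup hw (add_mem (sub_mem hz hz') (Λ₀'.nsmul_mem hc' p)), ?_⟩
  rw [e, e', sub_eq_iff_eq_add.1 e₂, smul_add, smul_add, smul_sub]
  abel

theorem SmallQ.map (h : SmallQ p Λ₀ Λ) (f : G →+ G') : SmallQ p (Λ₀.map f) (Λ.map f) := by
  intro S hS
  obtain ⟨F, hF, h1⟩ := h (Λ ⊓ S.comap f) inf_le_left
  refine ⟨f '' F, hF.image _, fun w hw => ?_⟩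
  obtain ⟨x, hx, rfl⟩ := hS hw
  obtain ⟨γ, h2, y, hy, z, hz, rfl⟩ := h1 x ⟨hx, hw⟩
  exact ⟨_, ⟨γ, h2, rfl⟩, f y, hy.2, _, ⟨z, hz, rfl⟩, by rw [map_add, map_add, map_nsmul]⟩

theorem SmallQ.Hyp_pow (h : SmallQ p Λ₀ Λ) {S : AddSubgroup G} (hS : S ≤ Λ) (k : ℕ) :
    ∃ F : Set G, F.Finite ∧ ∀ x ∈ S, ∃ γ ∈ F, ∃ y ∈ S, ∃ z ∈ Λ₀, x = γ + p ^ k • y + z := by
  obtain ⟨F, hF, h1⟩ := h S hS
  induction k with
  | zero => exact ⟨{0}, Set.finite_singleton _, fun x hx => ⟨0, rfl, x, hx, 0, zero_mem _, by simp⟩⟩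
  | succ k ih =>
    obtain ⟨F', hF', h2⟩ := ih
    refine ⟨_, hF'.image2 (fun a b => a + p ^ k • b) hF, fun x hx => ?_⟩
    obtain ⟨γ, h3, y, hy, z, hz, rfl⟩ := h2 x hx
    obtain ⟨γ', h4, y', hy', z', hz', rfl⟩ := h1 y hy
    refine ⟨γ + p ^ k • γ', ⟨γ, h3, γ', h4, rfl⟩, y', hy', p ^ k • z' + z,
      add_mem (Λ₀.nsmul_mem hz' _) hz, ?_⟩
    rw [smul_add, smul_add, pow_succ, mul_smul]
    abel

theorem SmallQ.pow (h : SmallQ p Λ₀ Λ) (h₀ : Λ₀ ≤ Λ) {S : AddSubgroup G} (hS : S ≤ Λ)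
    (hS₀ : Λ₀ ≤ S) (k : ℕ) : ∃ F : Set G, F.Finite ∧ F ⊆ S ∧
      ∀ x ∈ S, ∃ γ ∈ F, ∃ y ∈ S, ∃ z ∈ Λ₀, x = γ + p ^ k • y + z := by
  have _ := h₀
  obtain ⟨F, hF, h1⟩ := h.Hyp_pow hS k
  refine ⟨F ∩ S, hF.inter_of_left _, Set.inter_subset_right, fun x hx => ?_⟩
  obtain ⟨γ, h2, y, hy, z, hz, e⟩ := h1 x hx
  refine ⟨γ, ⟨h2, ?_⟩, y, hy, z, hz, e⟩
  rw [e, add_assoc] at hx
  exact (S.add_mem_cancel_right (add_mem (S.nsmul_mem hy _) (hS₀ hz))).1 hx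

theorem SmallQ.finite_tors (h : SmallQ p Λ₀ Λ) (f : G →+ G') (hf : ∀ z ∈ Λ₀, f z = 0) (N : ℕ) :
    {w | (∃ x ∈ Λ, f x = w) ∧ p ^ N • w = 0}.Finite := by
  obtain ⟨F, hF, h1⟩ := h.Hyp_pow (S := Λ ⊓ ((nsmulAddMonoidHom (p ^ N)).comp f).ker) inf_le_left N
  refine (hF.image f).subset ?_
  rintro _ ⟨⟨x, hx, rfl⟩, h2⟩
  obtain ⟨γ, h3, y, hy, z, hz, rfl⟩ := h1 x ⟨hx, h2⟩
  have h4 : p ^ N • f y = 0 := hy.2
  exact ⟨γ, h3, by rw [map_add, map_add, map_nsmul, h4, hf z hz, add_zero, add_zero]⟩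

theorem smallQ_sat [Fact p.Prime] (f : G →+ G') (N : AddSubgroup G')
    (htf : ∀ x, p • f x = 0 → f x = 0) (hN : N ≤ f.range)
    (hfin : ∃ F : Set G', F.Finite ∧ ∀ w ∈ N, ∃ γ ∈ F, ∃ w' ∈ N, w = γ + p • w')
    (hΛ : ∀ x ∈ Λ, ∃ k : ℕ, p ^ k • f x ∈ N) : SmallQ p (N.comap f) Λ := by
  intro S hS
  obtain ⟨F, hF, h1⟩ := hfin
  obtain ⟨F₁, h2, -, h3⟩ := Hyp_choose (X := {x | p • f x ∈ N}) hF
    (fun γ x => ∃ w ∈ N, p • f x = γ + p • w) fun x hx => h1 _ hx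
  refine Hyp_rel (fun x hx => ?_) h2 fun x _ hx => ?_
  · obtain ⟨k, hk⟩ := hΛ x (hS hx)
    exact ⟨p ^ k, pow_ne_zero _ (Fact.out : p.Prime).ne_zero, by rwa [← map_nsmul] at hk⟩
  · obtain ⟨x', h4, γ, ⟨w, hw, e⟩, w', hw', e'⟩ := h3 x (by
      rwa [AddSubgroup.mem_comap, map_nsmul] at hx)
    obtain ⟨v, hv⟩ := hN (sub_mem hw hw')
    have h5 := htf (x - x' - v) (by
      rw [map_sub, map_sub, hv, smul_sub, smul_sub, smul_sub, e, e']
      abel)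
    rw [map_sub, sub_eq_zero, hv] at h5
    exact ⟨x', h4, AddSubgroup.mem_comap.2 (h5 ▸ sub_mem hw hw')⟩

end group

namespace PG

variable {p : ℕ} [Fact p.Prime] {K : Type u} [Field K] [CharP K p] [IsAlgClosed K] {A B : PG.{u}}
  {s : A.Str K} {t : B.Str K}

/-- The finiteness hypothesis for a subgroup `Λ` of `D`. -/
def Hyp (𝒮 : Sett p K) (D Λ : AddSubgroup (A.Pt s)) : Prop :=
  Λ ≤ D ∧ ∃ (m : ℕ) (Λ₀ : AddSubgroup (A.Pt s)), Λ₀ ≤ D ∧ (∀ z ∈ Λ₀, Rat (root p m 𝒮.M) z) ∧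
    SmallQ p Λ₀ Λ ∧ ∀ k : ℕ, ∃ F : Set (A.Pt s), F.Finite ∧
      ∀ z ∈ Λ₀, ∃ γ ∈ F, ∃ y ∈ D, Rat (root p m 𝒮.M) y ∧ z = γ + p ^ k • y

variable {𝒮 : Sett p K} {D D' Λ Λ' : AddSubgroup (A.Pt s)}

theorem Hyp_def (𝒮 : Sett p K) (s : A.Str K) : ∃ m, ∀ m', m ≤ m' → A.Def (root p m' 𝒮.M) s := by
  obtain ⟨F, hF⟩ := exists_def s
  obtain ⟨m, hm⟩ := 𝒮.exists_root F
  exact ⟨m, fun m' h => (hF _ hm).mono (root_mono p h le_rfl)⟩

theorem hyp_of_rank (𝒮 : Sett p K) (ht : A.TorsFin s) (h : FR Λ) : Hyp 𝒮 ⊤ Λ := by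
  obtain ⟨m, hm⟩ := Hyp_def 𝒮 s
  refine ⟨le_top, m, ⊥, le_top, ?_, smallQ_of_rank h (ht p (Fact.out : p.Prime).ne_zero),
    fun k => ⟨{0}, Set.finite_singleton _, ?_⟩⟩
  · rintro z rfl
    exact Rat.zero (hm m le_rfl)
  · rintro z rfl
    exact ⟨0, rfl, 0, trivial, Rat.zero (hm m le_rfl), by rw [smul_zero, add_zero]⟩

theorem Hyp.mono (h : Hyp 𝒮 D Λ) (hD : D ≤ D') (hΛ : Λ' ≤ Λ) : Hyp 𝒮 D' Λ' := by
  obtain ⟨h1, m, Λ₀, h2, h3, h4, h5⟩ := h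
  refine ⟨(hΛ.trans h1).trans hD, m, Λ₀, h2.trans hD, h3, h4.mono le_rfl hΛ, fun k => ?_⟩
  obtain ⟨F, hF, h6⟩ := h5 k
  refine ⟨F, hF, fun z hz => ?_⟩
  obtain ⟨γ, h7, y, hy, h8⟩ := h6 z hz
  exact ⟨γ, h7, y, hD hy, h8⟩

theorem Hyp.sup (h : Hyp 𝒮 D Λ) (h' : Hyp 𝒮 D Λ') : Hyp 𝒮 D (Λ ⊔ Λ') := by
  obtain ⟨h1, m, Λ₀, h2, h3, h4, h5⟩ := h
  obtain ⟨g1, m', Λ₁, g2, g3, g4, g5⟩ := h'
  obtain ⟨n, hn⟩ := Hyp_def 𝒮 s
  have d := hn (m + m' + n) (by omega)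
  have r := root_mono (E := 𝒮.M) p (show m ≤ m + m' + n by omega) le_rfl
  have r' := root_mono (E := 𝒮.M) p (show m' ≤ m + m' + n by omega) le_rfl
  refine ⟨sup_le h1 g1, m + m' + n, Λ₀ ⊔ Λ₁, sup_le h2 g2, fun z hz => ?_, h4.sup g4, fun k => ?_⟩
  · obtain ⟨a, ha, b, hb, rfl⟩ := AddSubgroup.mem_sup.1 hz
    exact ((h3 a ha).mono r).add d ((g3 b hb).mono r')
  obtain ⟨F, hF, h6⟩ := h5 k
  obtain ⟨F', hF', g6⟩ := g5 k
  refine ⟨_, hF.image2 (· + ·) hF', fun z hz => ?_⟩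
  obtain ⟨a, ha, b, hb, rfl⟩ := AddSubgroup.mem_sup.1 hz
  obtain ⟨γ, h7, y, hy, h8, rfl⟩ := h6 a ha
  obtain ⟨γ', g7, y', hy', g8, rfl⟩ := g6 b hb
  refine ⟨γ + γ', ⟨γ, h7, γ', g7, rfl⟩, y + y', D.add_mem hy hy',
    (h8.mono r).add d (g8.mono r'), ?_⟩
  rw [smul_add, add_add_add_comm]

theorem Hyp.lev (h : Hyp 𝒮 D Λ) (m : ℕ) : Hyp (𝒮.lev m) D Λ := by
  obtain ⟨h1, n, Λ₀, h2, h3, h4, h5⟩ := h
  have r : root p n 𝒮.M ≤ root p n (𝒮.lev m).M :=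
    root_mono p le_rfl (by rw [Sett.lev_M]; exact Sett.Set1_le_root m _)
  refine ⟨h1, n, Λ₀, h2, fun z hz => (h3 z hz).mono r, h4, fun k => ?_⟩
  obtain ⟨F, hF, h6⟩ := h5 k
  refine ⟨F, hF, fun z hz => ?_⟩
  obtain ⟨γ, h7, y, hy, h8, e⟩ := h6 z hz
  exact ⟨γ, h7, y, hy, h8.mono r, e⟩

omit [Fact p.Prime] [CharP K p] [IsAlgClosed K] in
theorem Hyp_mem_imgS {Γ : AddSubgroup ((A.prod B).Pt (s, t))} {y : B.Pt t} :
    y ∈ imgS Γ D ↔ ∃ x ∈ D, ((x, y) : (A.prod B).Pt (s, t)) ∈ Γ :=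
  Set.ext_iff.1 (coe_imgS (Γ := Γ) D) y

theorem Hyp.img (h : Hyp 𝒮 D Λ) {Γ : AddSubgroup ((A.prod B).Pt (s, t))} (hΓ : QH Γ)
    (hd : D ≤ dom Γ) : Hyp 𝒮 (imgS Γ D) (imgS Γ Λ) := by
  obtain ⟨h1, m, Λ₀, h2, h3, h4, h5⟩ := h
  have H : ∀ x ∈ D, ∃ y, ((x, y) : (A.prod B).Pt (s, t)) ∈ Γ := fun x hx => mem_dom.1 (hd hx)
  choose! g hg using H
  have mo : ∀ {X : AddSubgroup (A.Pt s)}, X ≤ D → imgS Γ X ≤ imgS Γ D := fun hX y hy => by
    obtain ⟨x, hx, e⟩ := Hyp_mem_imgS.1 hy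
    exact Hyp_mem_imgS.2 ⟨x, hX hx, e⟩
  obtain ⟨C, n, hC⟩ := hΓ.level p
  obtain ⟨m', hm'⟩ := 𝒮.exists_root C
  have R : ∀ x y, ((x, y) : (A.prod B).Pt (s, t)) ∈ Γ → Rat (root p m 𝒮.M) x →
      Rat (root p (n + (m + m')) 𝒮.M) y := fun x y e hx => by
    rw [← root_root]
    refine hC K (RingHom.id K) s t (A.ax.push_id s) (B.ax.push_id t) _
      (fun c hc => root_mono p (Nat.le_add_left _ _) le_rfl (hm' hc)) x y ?_
      (hx.mono (root_mono p (Nat.le_add_right _ _) le_rfl))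
    have := map_mem_ext (A := A.prod B) (RingHom.id K)
      (prod_push (A.ax.push_id s) (B.ax.push_id t)) e
    rwa [map_id' (fun _ => rfl)] at this
  refine ⟨mo h1, n + (m + m'), imgS Γ Λ₀, mo h2, fun w hw => ?_, fun S hS => ?_, fun k => ?_⟩
  · obtain ⟨z, hz, e⟩ := Hyp_mem_imgS.1 hw
    exact R z w e (h3 z hz)
  · obtain ⟨F, hF, h6⟩ := h4 (Λ ⊓ dom (Γ ⊓ S.comap (AddMonoidHom.snd (A.Pt s) (B.Pt t))))
      inf_le_left
    refine ⟨g '' F, hF.image _, fun w hw => ?_⟩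
    obtain ⟨x, hx, e⟩ := Hyp_mem_imgS.1 (hS hw)
    obtain ⟨γ, h7, y, hy, z, hz, rfl⟩ := h6 x ⟨hx, mem_dom.2 ⟨w, e, hw⟩⟩
    obtain ⟨w', e', hw'⟩ := mem_dom.1 hy.2
    have hγ : γ ∈ D := by
      have := h1 hx
      rw [add_assoc] at this
      exact (D.add_mem_cancel_right (D.add_mem (D.nsmul_mem (h1 hy.1) p) (h2 hz))).1 this
    exact ⟨_, ⟨γ, h7, rfl⟩, w', hw', g z, Hyp_mem_imgS.2 ⟨z, hz, hg z (h2 hz)⟩, uniq_of_inj hΓ.inj e
      (Γ.add_mem (Γ.add_mem (hg γ hγ) (Γ.nsmul_mem e' p)) (hg z (h2 hz)))⟩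
  · obtain ⟨F, hF, h6⟩ := h5 k
    refine ⟨g '' F, hF.image _, fun w hw => ?_⟩
    obtain ⟨z, hz, e⟩ := Hyp_mem_imgS.1 hw
    obtain ⟨γ, h7, y, hy, h8, rfl⟩ := h6 z hz
    have hγ : γ ∈ D := (D.add_mem_cancel_right (D.nsmul_mem hy _)).1 (h2 hz)
    exact ⟨_, ⟨γ, h7, rfl⟩, g y, Hyp_mem_imgS.2 ⟨y, hy, hg y hy⟩, R y _ (hg y hy) h8,
      uniq_of_inj hΓ.inj e (Γ.add_mem (hg γ hγ) (Γ.nsmul_mem (hg y hy) _))⟩

/-- The points of bounded level are finite modulo all `p ^ k`. -/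
theorem Hyp.level (h : Hyp 𝒮 D Λ) (m₁ : ℕ) : ∃ m, m₁ ≤ m ∧ ∀ k : ℕ, ∃ F : Set (A.Pt s), F.Finite ∧
    (∀ γ ∈ F, γ ∈ D ∧ Rat (root p m 𝒮.M) γ) ∧ ∀ x ∈ Λ, Rat (root p m₁ 𝒮.M) x →
      ∃ γ ∈ F, ∃ y ∈ D, Rat (root p m 𝒮.M) y ∧ x = γ + p ^ k • y := by
  obtain ⟨h1, m, Λ₀, h2, h3, h4, h5⟩ := h
  obtain ⟨n, hn⟩ := Hyp_def 𝒮 s
  have d := hn (m₁ + m + n) (by omega)
  have r := root_mono (E := 𝒮.M) p (show m ≤ m₁ + m + n by omega) le_rfl
  have r' := root_mono (E := 𝒮.M) p (show m₁ ≤ m₁ + m + n by omega) le_rfl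
  refine ⟨m₁ + m + n, by omega, fun k => ?_⟩
  obtain ⟨F, hF, h6⟩ := h4.Hyp_pow (S := Λ ⊓ RatS d) inf_le_left k
  obtain ⟨F', hF', h7⟩ := h5 k
  refine ⟨_, (hF.image2 (· + ·) hF').inter_of_left (D ⊓ RatS d : AddSubgroup _),
    fun γ hγ => hγ.2, fun x hx hr => ?_⟩
  obtain ⟨γ, g1, y, hy, z, hz, e⟩ := h6 x ⟨hx, hr.mono r'⟩
  obtain ⟨γ', g2, y', hy', g3, rfl⟩ := h7 z hz
  have g4 : y + y' ∈ D ⊓ RatS d := add_mem ⟨h1 hy.1, hy.2⟩ ⟨hy', g3.mono r⟩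
  have g5 : x = γ + γ' + p ^ k • (y + y') := by rw [e, smul_add, add_add_add_comm]
  refine ⟨γ + γ', ⟨⟨γ, g1, γ', g2, rfl⟩, ?_⟩, y + y', g4.1, g4.2, g5⟩
  have g6 : x ∈ D ⊓ RatS d := ⟨h1 hx, hr.mono r'⟩
  rw [g5] at g6
  exact ((D ⊓ RatS d).add_mem_cancel_right ((D ⊓ RatS d).nsmul_mem g4 _)).1 g6

end PG

end MLF
end

-- merged part: Pool.Agent.Work.MP_29d410_ag.HullA
section
/-!
# The group theory behind the hull

`G` splits as the sum of the image of `ι` and the kernel of `red`, which has no `p`-torsion.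
-/

namespace MLF

universe u

theorem Hull_pow {p : ℕ} {G : Type u} [AddCommGroup G] {N : AddSubgroup G}
    (h : ∃ F : Set G, F.Finite ∧ ∀ w ∈ N, ∃ γ ∈ F, ∃ w' ∈ N, w = γ + p • w') (k : ℕ) :
    ∃ F : Set G, F.Finite ∧ ∀ w ∈ N, ∃ γ ∈ F, ∃ w' ∈ N, w = γ + p ^ k • w' := by
  obtain ⟨F, hF, H⟩ := h
  induction k with
  | zero => exact ⟨{0}, Set.finite_singleton 0, fun w hw => ⟨0, rfl, w, hw, by simp⟩⟩
  | succ k ih =>
    obtain ⟨F', hF', H'⟩ := ih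
    refine ⟨Set.image2 (fun a b => a + p • b) F F', hF.image2 _ hF', fun w hw => ?_⟩
    obtain ⟨γ, hγ, w', hw', rfl⟩ := H w hw
    obtain ⟨γ', hγ', w'', hw'', rfl⟩ := H' w' hw'
    refine ⟨_, Set.mem_image2_of_mem hγ hγ', w'', hw'', ?_⟩
    rw [smul_add, pow_succ', mul_smul, add_assoc]

theorem Hull_inf {p : ℕ} {G : Type u} [AddCommGroup G] {N D : AddSubgroup G}
    (h : ∃ F : Set G, F.Finite ∧ ∀ w ∈ N, ∃ γ ∈ F, ∃ w' ∈ N, w = γ + p • w')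
    (hD : ∀ w : G, p • w ∈ D → w ∈ N → w ∈ D) :
    ∃ F : Set G, F.Finite ∧ ∀ w ∈ N ⊓ D, ∃ γ ∈ F, ∃ w' ∈ N ⊓ D, w = γ + p • w' := by
  classical
  obtain ⟨F, hF, H⟩ := h
  have h1 : ∀ γ : G, ∃ δ : G, (∃ w' ∈ N, γ + p • w' ∈ D) → δ ∈ D ∧ ∃ w' ∈ N, δ = γ + p • w' := by
    intro γ
    by_cases h : ∃ w' ∈ N, γ + p • w' ∈ D
    · obtain ⟨w', hw', h⟩ := h
      exact ⟨γ + p • w', fun _ => ⟨h, w', hw', rfl⟩⟩
    · exact ⟨0, fun h' => absurd h' h⟩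
  choose δ hδ using h1
  refine ⟨δ '' F, hF.image δ, fun w hw => ?_⟩
  obtain ⟨γ, hγ, w', hw', rfl⟩ := H w hw.1
  obtain ⟨h2, w'', hw'', h3⟩ := hδ γ ⟨w', hw', hw.2⟩
  have h4 : p • (w' - w'') = γ + p • w' - δ γ := by
    rw [h3, smul_sub]
    abel
  refine ⟨δ γ, ⟨γ, hγ, rfl⟩, w' - w'', ⟨N.sub_mem hw' hw'', hD _ ?_ (N.sub_mem hw' hw'')⟩, ?_⟩
  · rw [h4]
    exact D.sub_mem hw.2 h2
  · rw [h4]
    abel

theorem Hull_group {p : ℕ} [Fact p.Prime] {G G₀ : Type u} [AddCommGroup G] [AddCommGroup G₀]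
    (ι : G₀ →+ G) (red : G →+ G₀) (hri : ∀ c, red (ι c) = c) (D R N : AddSubgroup G)
    (A₀ : AddSubgroup G₀) (hD : ∀ x ∈ D, red x ∈ A₀) (hA : ∀ c ∈ A₀, ι c ∈ D)
    (htor : ∀ x : G, p • x = 0 → ∃ c, ι c = x) (hDdiv : ∀ x ∈ D, ∃ y ∈ D, p • y = x)
    (hAdiv : ∀ k : ℕ, ∀ c ∈ A₀, ∃ c' ∈ A₀, p ^ k • c' = c) (hN : ∀ w ∈ N, red w = 0) (hNR : N ≤ R)
    (hιR : ∀ c, ι c ∈ R)
    (hfin : ∃ F : Set G, F.Finite ∧ ∀ w ∈ N, ∃ γ ∈ F, ∃ w' ∈ N, w = γ + p • w') :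
    ∃ Γ Λ₀ : AddSubgroup G, Γ ≤ D ∧ Λ₀ ≤ D ∧ Λ₀ ≤ R ∧ SmallQ p Λ₀ Γ ∧
      (∀ k : ℕ, ∃ F : Set G, F.Finite ∧ ∀ z ∈ Λ₀, ∃ γ ∈ F, ∃ y ∈ D, y ∈ R ∧ z = γ + p ^ k • y) ∧
      ∀ b ∈ D, (∃ k : ℕ, p ^ k • (b - ι (red b)) ∈ N) → b ∈ Γ := by
  have hsat : ∀ w : G, p • w ∈ D → w ∈ N → w ∈ D := by
    intro w hw hw'
    obtain ⟨y, hy, e⟩ := hDdiv _ hw
    obtain ⟨c, hc⟩ := htor (w - y) (by rw [smul_sub, e, sub_self])
    have h1 : c = -red y := by rw [← hri c, hc, map_sub, hN w hw', zero_sub]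
    have h2 : w = y + ι c := by rw [hc, add_sub_cancel]
    rw [h2]
    exact D.add_mem hy (hA c (h1 ▸ A₀.neg_mem (hD y hy)))
  have hfin' := Hull_inf hfin hsat
  let f : D →+ G := (AddMonoidHom.id G - ι.comp red).comp D.subtype
  have hf : ∀ x : D, f x = x - ι (red x) := fun x => rfl
  have hfD : ∀ x : D, f x ∈ D := fun x => D.sub_mem x.2 (hA _ (hD _ x.2))
  let Γ : AddSubgroup D :=
    { carrier := {b | ∃ k : ℕ, p ^ k • f b ∈ N ⊓ D}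
      zero_mem' := ⟨0, by rw [map_zero, smul_zero]; exact zero_mem _⟩
      add_mem' := by
        rintro a b ⟨k, hk⟩ ⟨l, hl⟩
        refine ⟨k + l, ?_⟩
        rw [map_add, smul_add]
        refine add_mem ?_ ?_
        · rw [add_comm, pow_add, mul_smul]
          exact nsmul_mem hk _
        · rw [pow_add, mul_smul]
          exact nsmul_mem hl _
      neg_mem' := by
        rintro a ⟨k, hk⟩
        exact ⟨k, by rw [map_neg, smul_neg]; exact neg_mem hk⟩ }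
  have hS : SmallQ p ((N ⊓ D).comap f) Γ := by
    refine smallQ_sat f (N ⊓ D) (fun x hx => ?_) (fun w hw => ⟨⟨w, hw.2⟩, ?_⟩) hfin' fun x hx => hx
    · obtain ⟨c, hc⟩ := htor _ hx
      have h1 : c = 0 := by rw [← hri c, hc, hf, map_sub, hri, sub_self]
      rw [← hc, h1, map_zero]
    · rw [hf, hN w hw.1, map_zero, sub_zero]
  refine ⟨Γ.map D.subtype, ((N ⊓ D).comap f).map D.subtype, D.map_subtype_le _,
    D.map_subtype_le _, ?_, hS.map _, fun k => ?_, fun b hb ⟨k, hk⟩ => ?_⟩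
  · rintro _ ⟨z, hz, rfl⟩
    have h1 : D.subtype z = f z + ι (red z) := by rw [hf, sub_add_cancel]; rfl
    rw [h1]
    exact R.add_mem (hNR hz.1) (hιR _)
  · obtain ⟨F, hF, H⟩ := Hull_pow hfin' k
    refine ⟨F, hF, ?_⟩
    rintro _ ⟨z, hz, rfl⟩
    obtain ⟨γ, hγ, w, hw, e⟩ := H _ hz
    obtain ⟨c, hc, e'⟩ := hAdiv k _ (hD _ z.2)
    refine ⟨γ, hγ, w + ι c, D.add_mem hw.2 (hA c hc), R.add_mem (hNR hw.1) (hιR c), ?_⟩
    rw [smul_add, ← add_assoc, ← e, ← map_nsmul, e', hf, sub_add_cancel]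
    rfl
  · exact ⟨⟨b, hb⟩, ⟨k, hk, nsmul_mem (hfD ⟨b, hb⟩) _⟩, rfl⟩

end MLF
end

-- merged part: Pool.Agent.Work.MP_29d410_ag.Hull
section
/-!
# The Frobenius roots of a point of a constant group

Plan.  `K = Big C`, `red : A(K) → A(C)` the place `plB`, `ℓ b = b - map cB (red b)`, an additive map
with values in the kernel of `red`, which is torsion free (torsion points come from `C`,
`TorsFin.rat`).  By `exists_eta` the point `ℓ a` is the image under `η : C⟦u⟧ → V ⊆ K` of a point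
`a₁ ∈ K1 (u)` over `T = C⟦u⟧`, and the image of `η` lies in `root p m 𝒮.M`
(`le_root_of_finite`).  `G = fgl sC` is of finite height (`fh`), and its coefficients are fixed by
`frob ^ r` (`fgl_push`).  `N` is the image in `A(K)` of the points `w ∈ K1 (u)` with
`c w = f (c a₁)`, `f` an endomorphism with `IsEnd p r`; it is a subgroup, finite modulo `p ^ k N` for
all `k` (`endo_finite`, iterate).  `Γ = {b ∈ ext A₀ | ∃ k, p ^ k • ℓ b ∈ N}`,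
`Λ₀ = {b ∈ ext A₀ | ℓ b ∈ N}`; `smallQ_sat` (for `ℓ` restricted to `ext A₀`, or `SmallQ.mono`).
If `π ^ n b = a` then `π ^ n (ℓ b) = ℓ a` (`π` commutes with `red`, `NM.frob_aux`), and
`p ^ (r n) • ℓ b ∈ N`: let `w ∈ N` correspond to `V ^ n`, `V` from `exists_ver`; choose `η'` with `ℓ b`
and ... simpler: `π ^ n w = p ^ (r n) • ℓ a` (since `F ∘ V = [p ^ r]` as well: `V` commutes with
`F` because its coefficients are fixed; `c_frob`), so `π ^ n (w - p ^ (r n) • ℓ b) = 0` and `π` is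
injective.  `Λ₀` is finite modulo `p ^ k ext A₀ (root p m 𝒮.M)`: if `ℓ b - ℓ b' = p ^ k • w`, `w ∈ N`, then
`w ∈ ext A₀` (choose `w' ∈ ext A₀` with the same multiple, `τ = w - w'` is torsion so comes from `C`,
`τ = red τ = -red w' ∈ A₀`), and `red (b - b') ∈ A₀` is divisible in `A₀` (`TorsFin.div`).
-/

namespace MLF

universe u

open PG

section aux

variable {A : PG.{u}} {C : Type u} [Field C] [IsAlgClosed C] {sC : A.Str C} {sb : A.Str (Big C)}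

omit [IsAlgClosed C] in
theorem Hull_push_cc (sC : A.Str C) :
    A.push PowerSeries.constantCoeff (A.push (PowerSeries.C : C →+* PowerSeries C) sC) = sC := by
  rw [A.ax.push_comp, PowerSeries.constantCoeff_comp_C, A.ax.push_id]

omit [IsAlgClosed C] in
theorem Hull_cong_iff {x : A.Pt (A.push (PowerSeries.C : C →+* PowerSeries C) sC)} :
    Cong (mx C) x (0 : A.Pt (A.push (PowerSeries.C : C →+* PowerSeries C) sC)) ↔
      A.map PowerSeries.constantCoeff (Hull_push_cc sC) x = 0 := by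
  have : IsLocalHom (PowerSeries.constantCoeff : PowerSeries C →+* C) :=
    ⟨fun f hf => PowerSeries.isUnit_iff_constantCoeff.2 hf⟩
  have h1 : mx C = RingHom.ker (PowerSeries.constantCoeff : PowerSeries C →+* C) := by
    ext f
    rw [Ideal.mem_span_singleton, PowerSeries.X_dvd_iff, RingHom.mem_ker]
  rw [h1, cong_ker_iff _ (Hull_push_cc sC) (Hull_push_cc sC), map_zero]

/-- A point with reduction zero comes from a power series ring. -/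
theorem Hull_lift (hb : A.push (cB C) sC = sb) (a : A.Pt sb) :
    ∃ (j : PowerSeries C →+* Big C) (E : Subfield (Big C))
      (hj : A.push j (A.push (PowerSeries.C : C →+* PowerSeries C) sC) = sb),
      (∀ f, j f ∈ E) ∧ Subfield.closure (Set.range (ιB C)) ≤ E ∧
      (Subfield.closure (Set.range (ιB C))).relfinrank E ≠ 0 ∧
      (∀ x, (plB C).red hb (A.ax.push_id sC) (A.map j hj x) =
        A.map PowerSeries.constantCoeff (Hull_push_cc sC) x) ∧ ∃ x, A.map j hj x = a := by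
  classical
  obtain ⟨v, hv, i₀, hi₀⟩ := PB2_lift (VB C) a
  obtain ⟨η, E, hη, hC, hres, hF, hE, hle, hfin⟩ :=
    exists_eta C (Finset.univ.image fun i => (v i : Big C)) (by
      intro z hz
      obtain ⟨i, -, rfl⟩ := Finset.mem_image.1 hz
      exact (v i).2)
  have hj : A.push ((VB C).subtype.comp η) (A.push (PowerSeries.C : C →+* PowerSeries C) sC) =
      sb := by
    rw [A.ax.push_comp, ← hb]
    congr 1
    ext c
    rw [RingHom.comp_apply, RingHom.comp_apply, hC]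
    rfl
  refine ⟨(VB C).subtype.comp η, E, hj, hE, hle, hfin, fun x => ?_, ?_⟩
  · obtain ⟨w, hw⟩ := A.ax.exists_rep x
    refine ((plB C).red_eq_iff _ _).2 ⟨η ∘ w, rep_map _ hj hw, PB2_uni_map (A.ax.rep_uni hw) η, ?_⟩
    have h1 := rep_map _ (Hull_push_cc sC) hw
    have h2 : (plB C).r ∘ η ∘ w = PowerSeries.constantCoeff ∘ w := funext fun i => hres (w i)
    rw [h2]
    exact h1
  · have h1 : ∀ i, ∃ f, η f = v i := fun i => by
      obtain ⟨f, hf⟩ := hF (v i) (Finset.mem_image_of_mem _ (Finset.mem_univ i))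
      exact ⟨f, Subtype.ext hf⟩
    choose f hf using h1
    have h2 : Uni f := by
      refine ⟨i₀, PowerSeries.isUnit_iff_constantCoeff.2 ?_⟩
      rw [← hres, hf]
      exact hi₀.map _
    have h3 : ((VB C).subtype.comp η) ∘ f = fun i => (v i : Big C) := funext fun i => by
      rw [← hf]
      rfl
    obtain ⟨x, -, hx⟩ := exists_map_eq (φ := (VB C).subtype.comp η)
      ((VB C).subtype_injective.comp hη) hj h2 (h3 ▸ hv)
    exact ⟨x, hx⟩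

omit [IsAlgClosed C] in
theorem Hull_push_frob {p : ℕ} [Fact p.Prime] [CharP C p] {r : ℕ}
    (hs : A.push (iterateFrobenius C p r) sC = sC) (n : ℕ) :
    A.push (iterateFrobenius C p (r * n)) sC = sC := by
  induction n with
  | zero => rw [mul_zero, iterateFrobenius_zero, A.ax.push_id]
  | succ n ih => rw [mul_add, mul_one, iterateFrobenius_add, ← A.ax.push_comp, hs, ih]

end aux

/-- Frobenius commutes with change of rings. -/
theorem Hull_map_frob {A : PG.{u}} {T T' : Type u} [CommRing T] [IsLocalRing T] [CommRing T']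
    [IsLocalRing T'] {p : ℕ} [Fact p.Prime] [CharP T p] [CharP T' p] (n : ℕ) {j : T →+* T'}
    {s : A.Str T} {s' : A.Str T'} (h : A.push j s = s')
    (e : A.push (iterateFrobenius T p n) s = s) (e' : A.push (iterateFrobenius T' p n) s' = s')
    (x : A.Pt s) : A.map (iterateFrobenius T' p n) e' (A.map j h x) =
      A.map j h (A.map (iterateFrobenius T p n) e x) := by
  rw [map_map, map_map]
  refine map_congr ?_ _ _ x
  ext c
  simp [iterateFrobenius_def]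

theorem SPG.hull (A : SPG.{u}) {p : ℕ} [Fact p.Prime] {C : Type u} [Field C] [IsAlgClosed C]
    [CharP C p] {𝒮 : Sett p (Big C)} (h𝒮 : ∀ f, ιB C f ∈ 𝒮.M) {sC : A.Str C} {sb : A.Str (Big C)}
    (hb : A.push (cB C) sC = sb) (ht : A.TorsFin sC) {A₀ : AddSubgroup (A.Pt sC)}
    (hA : Var (A₀ : Set (A.Pt sC))) {r : ℕ} (hr : 0 < r)
    (hs : A.push (iterateFrobenius C p r) sC = sC) {a : A.Pt sb} :
    ∃ Γ : AddSubgroup (A.Pt sb), Hyp 𝒮 (extS hb A₀) Γ ∧ ∀ (n : ℕ)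
      (e : A.push (iterateFrobenius (Big C) p (r * n)) sb = sb) (b : A.Pt sb), b ∈ extS hb A₀ →
      A.map (iterateFrobenius (Big C) p (r * n)) e b = a → b ∈ Γ := by
  have hp : p ≠ 0 := (Fact.out : p.Prime).ne_zero
  have hcp : CharP (PowerSeries C) p := Sett.Set1_charP C
  let ι := A.map (cB C) hb
  let red := (plB C).red hb (A.ax.push_id sC)
  have hri : ∀ c, red (ι c) = c := fun c =>
    ((plB C).red_map hb (A.ax.push_id sC) c).trans (map_id' (fun _ => rfl) _ c)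
  obtain ⟨j, E, hj, hE, hle, hfin, hred, a₁, ha₁⟩ := Hull_lift hb (a - ι (red a))
  have hM : Subfield.closure (Set.range (ιB C)) ≤ 𝒮.M := by
    rw [Subfield.closure_le]
    rintro _ ⟨f, rfl⟩
    exact h𝒮 f
  obtain ⟨m, hm⟩ := 𝒮.le_root_of_finite hM hle hfin
  have hCm : (cB C).fieldRange ≤ root p m 𝒮.M := by
    rintro _ ⟨c, rfl⟩
    exact Sett.Set1_le_root m _ (h𝒮 _)
  have ha0 : Cong (mx C) a₁ (0 : A.Pt (A.push (PowerSeries.C : C →+* PowerSeries C) sC)) := by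
    rw [Hull_cong_iff, ← hred, ha₁, map_sub]
    exact sub_eq_zero.2 (hri _).symm
  have hmx : mx C = IsLocalRing.maximalIdeal (PowerSeries C) :=
    PowerSeries.maximalIdeal_eq_span_X.symm
  have hne : mx C ≠ ⊤ := hmx ▸ (IsLocalRing.maximalIdeal.isMaximal _).ne_top
  have hG : ∀ i α, MvPowerSeries.coeff α ((SPG.fgl sC).F i) ^ p ^ r =
      MvPowerSeries.coeff α ((SPG.fgl sC).F i) := fun i => by
    refine (DM8b_fix p).2 ?_
    rw [← FGL.map_F, ← SPG.fgl_push _ hs]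
  let Φ := AddEquiv.ofBijective _ (SPG.cH_bij (s₀ := sC) PowerSeries.C rfl hne)
  have hΦ : ∀ x, (Φ x).v = A.c x.1 := fun x => rfl
  obtain ⟨N₀, ⟨F, hF, hF'⟩, hN₀⟩ := Hull_formal (SPG.fh p ht) hr hG (Φ ⟨a₁, ha0⟩)
  let ψ := (A.map j hj).comp ((K1 (mx C) _).subtype.comp Φ.symm.toAddMonoidHom)
  have hψ : ∀ y, ψ y = A.map j hj (Φ.symm y).1 := fun y => rfl
  obtain ⟨Γ, Λ₀, h1, h2, h3, h4, h5, h6⟩ := Hull_group (p := p) ι red hri (extS hb A₀)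
    (RatS (def_range (cB C) sC hb hCm)) (N₀.map ψ) A₀
    (fun x hx => (mem_ext_iff hb hA.1).1 hx (plB C)) (fun c hc => map_mem_ext _ hb hc)
    (fun x hx => (rat_range_iff _ hb).1 (ht.rat hb hp (by
      rw [hx]
      exact Rat.zero (def_range (cB C) sC hb le_rfl))))
    (fun x hx => (ht.ext hb).div (G := extS hb A₀) (var_ext hA _ hb) hp hx)
    (fun k c hc => ht.div hA (pow_ne_zero k hp) hc)
    (by
      rintro _ ⟨y, -, rfl⟩
      rw [hψ]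
      exact (hred _).trans (Hull_cong_iff.1 (Φ.symm y).2))
    (by
      rintro _ ⟨y, -, rfl⟩
      obtain ⟨w, hw⟩ := A.ax.exists_rep (Φ.symm y).1
      exact PB_rat_of (rep_map j hj hw) fun i => hm (hE _))
    (fun c => Rat.mono ((rat_range_iff _ hb).2 ⟨c, rfl⟩) hCm)
    ⟨ψ '' F, hF.image _, by
      rintro _ ⟨y, hy, rfl⟩
      obtain ⟨γ, hγ, w, hw, rfl⟩ := hF' y hy
      exact ⟨_, ⟨γ, hγ, rfl⟩, _, ⟨w, hw, rfl⟩, by rw [map_add, map_nsmul]⟩⟩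
  refine ⟨Γ, ⟨h1, m, Λ₀, h2, fun z hz => h3 hz, h4, h5⟩, fun n e b hbD hba => h6 b hbD ⟨r * n, ?_⟩⟩
  have eC := Hull_push_frob hs n
  have eT : A.push (iterateFrobenius (PowerSeries C) p (r * n))
      (A.push (PowerSeries.C : C →+* PowerSeries C) sC) = A.push PowerSeries.C sC := by
    conv_rhs => rw [← eC]
    rw [A.ax.push_comp, A.ax.push_comp]
    congr 1
    ext1 c
    simp [iterateFrobenius_def]
  have hπ : A.map (iterateFrobenius (Big C) p (r * n)) e (b - ι (red b)) = a - ι (red a) := by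
    have h7 : red a = A.map (iterateFrobenius C p (r * n)) eC (red b) := by
      rw [← hba]
      exact ((plB C).red_eq_iff _ _).2
        (NM.geo3_frob_red p (r * n) e eC (((plB C).red_eq_iff _ _).1 rfl))
    rw [map_sub, hba, h7, Hull_map_frob _ hb eC e]
  obtain ⟨y, hy, hy'⟩ := hN₀ n
  refine ⟨y, hy, map_inj (iterateFrobenius_inj (Big C) p (r * n)) e ?_⟩
  rw [map_nsmul, hπ, hψ, Hull_map_frob _ hj eT e, ← ha₁, ← map_nsmul]
  congr 1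
  have h8 : Cong (IsLocalRing.maximalIdeal (PowerSeries C)) (Φ.symm y).1
      (0 : A.Pt (A.push (PowerSeries.C : C →+* PowerSeries C) sC)) := hmx ▸ (Φ.symm y).2
  refine SPG.eq_of_c (SPG.Chart_cong_map _ eT (fun z hz => ?_) h8)
    (hmx ▸ (K1 (mx C) _).nsmul_mem ha0 _) (funext fun i => ?_)
  · rw [iterateFrobenius_def]
    exact Ideal.pow_mem_of_mem _ hz _ (pow_pos (Nat.pos_of_ne_zero hp) _)
  · rw [SPG.c_frob p _ eT h8, ← hΦ, Φ.apply_symm_apply, hy', ← map_nsmul, hΦ]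
    rfl

end MLF
end
end

-- merged part: Pool.Agent.Work.MP_29d410_ag.FL3
section
/-!
# The derivative of a good point along arcs; existence of arcs

`R = Ω⟦δ⟧`, and `R⟦ε⟧`.  Plan for `fl_star`.  Let `Y₀ = loc y₀` over `K'`, `y₁ = C y₀ + ζ`.  The closed
set `{y | γ + p ^ n y ∈ X'}` is the union of the `τ + Y₀`, `τ` of order `p ^ n` (`loc_vadd`,
`loc_nsmul`), so `y₁ ∈ ext (τ + Y₀)` for some `τ` (`ext_biUnion`); reducing modulo `δ`,
`Y₀ ⊆ τ + Y₀`, with equality; and `Y₀ ⊆ loc y₁` (`loc_map_subset`).  So `loc y₁ = Y₀`.  Let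
`Ω₀ = acl K'(y₀)`; `conj_emb` gives `ψ : Ω₀ → Big Ω` over `K'` with `ψ y₀ = ιB y₁`.  By `Lifts` there is
`z` over `Ω₀⟦ε⟧`, for the structure pushed along `map (K → Ω₀) ∘ D₀`, reducing to `y₀`.  Over `Ω⟦ε⟧`:
`z ≡ D y₀` modulo `ε`, so `D γ + p ^ n z ≡ D x` modulo `ε ^ p ^ n` (`cong_nsmul`); `g ^ D` vanishes at
`D x`; hence `g ^ D (D γ + p ^ n z) ∈ (ε ^ p ^ n)` in `Ω₀⟦ε⟧`, the coefficients of `g ^ D` being in
`K'⟦ε⟧` (`Mor.D₀`).  Apply `map ψ`; over `(Big Ω)⟦ε⟧` the point `ψ z` is congruent modulo `ε` to the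
image of `D y₀ + ζ'`; `cong_nsmul` again, and `map (ιB Ω)` reflects membership in `(ε ^ p ^ n)`.
`exists_arc`: let `x̂ = x + û` over `Ω⟦Z⟧`, `c û = Z`, and `I` the ideal generated by the values at
`x̂` of the forms in `idl Y`.  If some `Z i` is not in the radical, `curve_sel` gives the arc.
Otherwise take a generic point `ξ ≠ x` of `Y` and a place with `ξ ↦ x`; `c (ξ - x)` generates a
principal ideal `(z)`, `z ≠ 0` not a unit; the evaluation `Ω⟦Z⟧ → W / z ^ (N + 1)` at `c (ξ - x)` maps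
`x̂` to the image of `ξ`, so kills `I`, so `z ^ N ∈ (z ^ (N + 1))`: absurd.
`arc_lift`: put `y' = e' (w)`, `y l = (σ ^ (-a l * c) y' l) (δ ^ (Q / p ^ (a l * c)))`; then
`[p ^ (R c)] (e y) = e (y' (δ ^ Q)) = [p ^ (R c)] (w (δ ^ Q))`; `FGL.Pts.torsion_free`.
-/

open PowerSeries

namespace MLF

universe u

open PG Sett

variable {p : ℕ} [Fact p.Prime] {K K' Ω : Type u} [Field K] [CharP K p] [IsAlgClosed K] [Field K']
  [CharP K' p] [IsAlgClosed K'] [Field Ω] [CharP Ω p] [IsAlgClosed Ω]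

theorem FL3_mul {S : Type u} [CommRing S] {ρ : Type} [Finite ρ] {H : FGL S ρ} {q R : ℕ}
    {a : ρ → ℕ} (h : ∀ l, H.mul (q ^ R) l = MvPowerSeries.X l ^ q ^ a l) (c : ℕ) (l : ρ) :
    H.mul (q ^ (R * c)) l = MvPowerSeries.X l ^ q ^ (a l * c) := by
  induction c with
  | zero =>
    rw [mul_zero, mul_zero, pow_zero, pow_one]
    show ((1 : ℕ) • H.univ).v l = _
    rw [one_nsmul]
    rfl
  | succ c ih =>
    rw [Nat.mul_succ, pow_add, mul_comm, FGL.mul_mul]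
    show ev MvPowerSeries.C (H.mul (q ^ (R * c))) (H.mul (q ^ R) l) = _
    rw [h, map_pow, (TN.of_cc (H.mul0 _)).ev_X, ih, ← pow_mul, ← pow_add, Nat.mul_succ]

theorem FL3_frob (k : ℕ) (f : PowerSeries Ω) :
    (map ((iterateFrobeniusEquiv Ω p k).symm : Ω →+* Ω) f) ^ p ^ k =
      PowerSeries.expand (p ^ k) (pow_ne_zero k (Fact.out : p.Prime).ne_zero) f := by
  have h := MvPowerSeries.map_iterateFrobenius_expand p (Fact.out : p.Prime).ne_zero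
    (map ((iterateFrobeniusEquiv Ω p k).symm : Ω →+* Ω) f) k
  refine h.symm.trans ?_
  refine (PowerSeries.map_expand (p ^ k) (pow_ne_zero k (Fact.out : p.Prime).ne_zero)
    (iterateFrobenius Ω p k) _).trans (congrArg _ ?_)
  ext n
  rw [coeff_map, coeff_map]
  exact (iterateFrobeniusEquiv Ω p k).apply_symm_apply _

theorem FL3_mx {R : Type u} [CommRing R] {f : PowerSeries R} :
    f ∈ mx R ↔ constantCoeff f = 0 := by
  rw [Ideal.mem_span_singleton, X_dvd_iff]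

theorem DMD.arc_lift {τ : Type} [Finite τ] {G : FGL Ω τ} (hG : G.FH p) (d : DMD p G)
    {w : τ → PowerSeries Ω} (hw : Arc w) (h0 : w ≠ 0) : ∃ (Q : ℕ) (hQ : Q ≠ 0)
      (y : d.ρ → PowerSeries Ω), Arc y ∧ y ≠ 0 ∧
      ∀ i, ev C y (d.e i) = PowerSeries.expand Q hQ (w i) := by
  have hp := (Fact.out : p.Prime).ne_zero
  obtain ⟨S, hS⟩ : ∃ S, ∀ l, d.a l * d.c ≤ S := by
    obtain ⟨S, hS⟩ := (Set.finite_range fun l => d.a l * d.c).bddAbove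
    exact ⟨S, fun l => hS ⟨l, rfl⟩⟩
  have hQ : p ^ S ≠ 0 := pow_ne_zero _ hp
  have htw : TN w := TN.of_cc₁ hw
  let y' : d.ρ → PowerSeries Ω := fun l => ev C w (d.e' l)
  have hy' : ∀ l, constantCoeff (y' l) = 0 := fun l =>
    FL3_mx.1 (htw.ev_mem C (d.he'.cc l) fun i => FL3_mx.2 (hw i))
  let y : d.ρ → PowerSeries Ω := fun l =>
    PowerSeries.expand (p ^ (S - d.a l * d.c)) (pow_ne_zero _ hp)
      (PowerSeries.map ((iterateFrobeniusEquiv Ω p (d.a l * d.c)).symm : Ω →+* Ω) (y' l))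
  have hy : Arc y := fun l => by
    rw [constantCoeff_expand, Set1_cc, hy', map_zero]
  have hpow : ∀ l, y l ^ p ^ (d.a l * d.c) = PowerSeries.expand (p ^ S) hQ (y' l) := by
    intro l
    rw [← map_pow, FL3_frob, ← expand_mul]
    congr 2
    rw [← pow_add, Nat.sub_add_cancel (hS l)]
  let ψ : PowerSeries Ω →+* PowerSeries Ω := (PowerSeries.expand (p ^ S) hQ (R := Ω) :)
  have hψC : ψ.comp C = C := RingHom.ext fun c => expand_C _ hQ c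
  have hψw : ∀ i, constantCoeff ((ψ ∘ w) i) = 0 := fun i =>
    (constantCoeff_expand _ hQ (w i)).trans (hw i)
  let Y : d.H.Pts C (mx Ω) := ⟨y, fun l => FL3_mx.2 (hy l)⟩
  let W : G.Pts C (mx Ω) := ⟨ψ ∘ w, fun i => FL3_mx.2 (hψw i)⟩
  have h1 : p ^ (d.R * d.c) • Y = d.he'.act C (mx Ω) W := by
    refine FGL.Pts.ext (funext fun l => ?_)
    rw [FGL.Pts.nsmul_v, FL3_mul d.mulH, map_pow, Y.tn.ev_X, IsHom.act_v]
    refine (hpow l).trans ?_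
    have := htw.map_ev ψ (TN.of_cc₁ hψw) C (d.e' l)
    rw [hψC] at this
    exact this
  have h2 : d.he.act C (mx Ω) (d.he'.act C (mx Ω) W) = p ^ (d.R * d.c) • W := by
    refine FGL.Pts.ext (funext fun i => ?_)
    rw [FGL.Pts.nsmul_v, ← d.ee', ev_cmp d.he'.cc C W.tn]
    rfl
  have h3 : d.he.act C (mx Ω) Y = W := by
    refine sub_eq_zero.1 (FGL.Pts.torsion_free p hG (pow_ne_zero (d.R * d.c) hp) ?_)
    rw [smul_sub, ← map_nsmul, h1, h2, sub_self]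
  refine ⟨p ^ S, hQ, y, hy, fun e => h0 (funext fun i => ?_), fun i => ?_⟩
  · have h4 : Y = 0 := FGL.Pts.ext e
    rw [h4, map_zero] at h3
    have h5 : ψ (w i) = 0 := (congrFun (congrArg FGL.Pts.v h3) i).symm
    ext n
    have h6 := coeff_expand_mul _ hQ (w i) n
    rw [← h6]
    exact (congrArg (coeff (p ^ S * n)) h5).trans (by simp)
  · exact congrFun (congrArg FGL.Pts.v h3) i

theorem FL3_max {T : Type u} [CommRing T] [IsLocalRing T] {A : PG.{u}} {s : A.Str T}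
    {𝔞 : Ideal T} (h : 𝔞 ≠ ⊤) {x : A.Pt s} (hx : Cong 𝔞 x (0 : A.Pt s)) :
    Cong (IsLocalRing.maximalIdeal T) x (0 : A.Pt s) := hx.mono (IsLocalRing.le_maximalIdeal h)

theorem FL3_mX_ne {τ : Type} [Finite τ] {k : Type u} [Field k] : mX τ k ≠ ⊤ := fun h => by
  have h1 : (1 : MvPowerSeries τ k) ∈ mX τ k := h ▸ Submodule.mem_top
  rw [mem_mX, map_one] at h1
  exact one_ne_zero h1

theorem FL3_mx_ne {R : Type u} [CommRing R] [Nontrivial R] : mx R ≠ ⊤ := fun h => by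
  have h1 : (1 : PowerSeries R) ∈ mx R := h ▸ Submodule.mem_top
  rw [FL3_mx, map_one] at h1
  exact one_ne_zero h1

/-- Specialisation of the universal point of the formal neighbourhood of the origin. -/
theorem FL3_spec (A : SPG.{u}) {k T : Type u} [Field k] [CommRing T] [IsLocalRing T]
    {s : A.Str k} {sP : A.Str (MvPowerSeries A.τ k)} (hP : A.push MvPowerSeries.C s = sP)
    {û : A.Pt sP} (hû : Cong (mX A.τ k) û (0 : A.Pt sP)) (hc : A.c û = MvPowerSeries.X)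
    (φ : k →+* T) {t : A.Str T} (ht : A.push φ s = t) {y : A.τ → T} (hy : TN y) {𝔞 : Ideal T}
    (h𝔞 : 𝔞 ≠ ⊤) (hy𝔞 : ∀ i, y i ∈ 𝔞) : ∃ e : A.push (ev φ y) sP = t,
      Cong 𝔞 (A.map _ e û) (0 : A.Pt t) ∧ A.c (A.map _ e û) = y ∧
      ∀ x, A.map _ e (A.map _ hP x) = A.map φ ht x := by
  have h1 : (ev φ y).comp MvPowerSeries.C = φ := FG3_comp_C φ hy
  have e : A.push (ev φ y) sP = t := by rw [← hP, A.ax.push_comp, h1, ht]
  have h2 : Cong 𝔞 (A.map _ e û) (0 : A.Pt t) := by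
    have := hû.map (ev φ y) e e (𝔞' := 𝔞) fun z hz => hy.ev_mem φ (mem_mX.1 hz) hy𝔞
    rwa [map_zero] at this
  refine ⟨e, h2, ?_, fun x => ?_⟩
  · rw [SPG.c_map _ e (FL3_max FL3_mX_ne hû) (FL3_max h𝔞 h2), hc]
    exact funext fun i => hy.ev_X φ i
  · rw [PG.map_map, map_congr h1]

omit [CharP Ω p] in
theorem SPG.exists_arc (A : SPG.{u}) {s : A.Str Ω} {Y : Set (A.Pt s)} (hY : Var Y)
    (hi : Y.Infinite) {x : A.Pt s} (hx : x ∈ Y) {sR : A.Str (PowerSeries Ω)}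
    (hR : A.push C s = sR) : ∃ ω : A.Pt sR, Cong (mx Ω) ω (0 : A.Pt sR) ∧ ω ≠ 0 ∧
      A.map C hR x + ω ∈ ext C sR Y := by
  obtain ⟨û, hû, hc⟩ := SPG.exists_c (A.push (MvPowerSeries.C : Ω →+* MvPowerSeries A.τ Ω) s)
    (𝔞 := mX A.τ Ω) (z := MvPowerSeries.X) fun i => Ideal.subset_span ⟨i, rfl⟩
  obtain ⟨v, hv⟩ := A.ax.exists_rep (A.map MvPowerSeries.C rfl x + û)
  let I : Ideal (MvPowerSeries A.τ Ω) :=
    Ideal.span ((MvPolynomial.eval₂ MvPowerSeries.C v) '' idl Y)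
  by_cases hI : ∃ i, MvPowerSeries.X i ∉ I.radical
  · obtain ⟨i, hi⟩ := hI
    obtain ⟨y, hy, hyI, hne⟩ := curve_sel I (MvPowerSeries.constantCoeff_X i) hi
    have hty : TN y := TN.of_cc₁ hy
    obtain ⟨e, h1, h2, h3⟩ := FL3_spec A rfl hû hc C hR hty FL3_mx_ne fun i => FL3_mx.2 (hy i)
    refine ⟨_, h1, fun h0 => hne ?_, fun g hg => ?_⟩
    · rw [h0, A.ch.c_zero] at h2
      rw [hty.ev_X, ← h2]
      rfl
    · obtain ⟨d, hd⟩ := hg.1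
      have h4 := hyI _ (Ideal.subset_span ⟨g, hg, rfl⟩)
      rw [MvPolynomial.eval₂_comp_left, FG3_comp_C C hty] at h4
      rw [← h3, ← map_add, van_iff hd (rep_map _ e hv)]
      exact h4
  exfalso
  push Not at hI
  obtain ⟨T, _, _, j, ξ, hξ, hξ'⟩ := hY.exists_gen
  obtain ⟨P, hP, h0⟩ := place_ex (j' := RingHom.id Ω) rfl (A.ax.push_id s) (y := ξ) (y' := x)
    (by rw [hξ]; exact subset_cl Y hx)
  obtain ⟨ξW, hW⟩ := (map_val_bij P.W (P.push₁ (A := A.toPG) (s := s) rfl)).2 ξ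
  have hr : A.map P.r (P.push₂ (A.ax.push_id s)) ξW = x := by
    rw [← hP, ← hW]
    exact (redW_map P.W P.r _ _ ξW).symm
  let η := ξW - A.map P.jW rfl x
  have hη : Cong (IsLocalRing.maximalIdeal P.W) η (0 : A.Pt (A.push P.jW s)) := by
    have : IsLocalHom P.r := ⟨fun a ha => by
      by_contra hn
      exact ha.ne_zero ((h0 a).2 ((P.W.valuation_lt_one_iff a).1 hn))⟩
    have h1 := (cong_ker_iff (x := η) (y := (0 : A.Pt (A.push P.jW s))) P.r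
      (P.push₂ (A.ax.push_id s)) (P.push₂ (A.ax.push_id s))).2 (by
        rw [map_zero, map_sub, hr, PG.map_map, map_id' (fun z => P.r_j z), sub_self])
    exact h1.mono fun z hz => (P.W.valuation_lt_one_iff z).2 ((h0 z).1 hz)
  have hne : η ≠ 0 := by
    intro h
    refine hi ?_
    rw [← hξ, ← hW, sub_eq_zero.1 h, PG.map_map]
    exact (loc_map_self _ _ x).trans_subset (fun _ h => h) |> (Set.finite_singleton x).subset
  obtain ⟨i₁, hi₁⟩ : ∃ i, A.c η i ≠ 0 := by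
    by_contra h
    push Not at h
    exact hne (SPG.eq_of_c hη (Cong.refl _ _) (by rw [A.ch.c_zero]; exact funext h))
  have : Nonempty A.τ := ⟨i₁⟩
  obtain ⟨i₀, hi₀⟩ := Finite.exists_max fun i : A.τ => P.W.valuation ((A.c η i : P.W) : T)
  have hdvd : ∀ i, A.c η i₀ ∣ A.c η i := fun i => by
    obtain ⟨a, ha⟩ := (P.W.valuation_le_iff _ _).1 (hi₀ i)
    exact ⟨a, Subtype.ext (by rw [← ha, mul_comm]; rfl)⟩
  have hz0 : A.c η i₀ ≠ 0 := fun h => hi₁ (zero_dvd_iff.1 (h ▸ hdvd i₁))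
  have hzm : A.c η i₀ ∈ IsLocalRing.maximalIdeal P.W :=
    SPG.c_mem (IsLocalRing.maximalIdeal.isMaximal _).ne_top hη i₀
  obtain ⟨N, hN⟩ := hI i₀
  let J : Ideal P.W := Ideal.span {A.c η i₀ ^ (N + 1)}
  have hJ : J ≠ ⊤ := fun h => by
    rw [Ideal.span_singleton_eq_top, isUnit_pow_iff N.succ_ne_zero] at h
    exact hzm h
  have : Nontrivial (P.W ⧸ J) := Ideal.Quotient.nontrivial_iff.2 hJ
  have : IsLocalRing (P.W ⧸ J) := .of_surjective' _ Ideal.Quotient.mk_surjective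
  let π := Ideal.Quotient.mk J
  have hnil : ∀ i, IsNilpotent ((π ∘ A.c η) i) := fun i => ⟨N + 1, by
    rw [Function.comp_apply, ← map_pow, Ideal.Quotient.eq_zero_iff_mem, Ideal.mem_span_singleton]
    exact pow_dvd_pow_of_dvd (hdvd i) _⟩
  have hty : TN (π ∘ A.c η) := TN.of_nil hnil
  have hmax := (IsLocalRing.maximalIdeal.isMaximal (P.W ⧸ J)).ne_top
  obtain ⟨e, h1, h2, h3⟩ := FL3_spec A rfl hû hc (π.comp P.jW) (push_trans rfl rfl) hty hmax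
    fun i => (hnil i).not_isUnit
  have h4 : Cong (IsLocalRing.maximalIdeal _) (A.map π rfl η)
      (0 : A.Pt (A.push π (A.push P.jW s))) := by
    have : IsLocalHom π := IsLocalHom.of_surjective π Ideal.Quotient.mk_surjective
    have := hη.map π rfl rfl (𝔞' := IsLocalRing.maximalIdeal _) fun z hz => map_nonunit π z hz
    rwa [map_zero] at this
  have h5 : A.map _ e û = A.map π rfl η := SPG.eq_of_c h1 h4 (by rw [h2, SPG.c_map π rfl hη h4])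
  have h6 : A.map _ e (A.map MvPowerSeries.C rfl x + û) = A.map π rfl ξW := by
    rw [map_add, h3, h5, map_sub, PG.map_map, add_sub_cancel]
  have h7 : ξW ∈ ext P.jW _ Y :=
    (mem_ext_map_iff P.W.subtype_injective (P.push₁ (A := A.toPG) (s := s) rfl)).1 (hW ▸ hξ')
  have h8 : I ≤ RingHom.ker (ev (π.comp P.jW) (π ∘ A.c η)) := by
    refine Ideal.span_le.2 ?_
    rintro _ ⟨g, hg, rfl⟩
    have := mem_ext_map π rfl h7 g hg _ (h6 ▸ rep_map _ e hv)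
    rw [SetLike.mem_coe, RingHom.mem_ker, MvPolynomial.eval₂_comp_left, FG3_comp_C _ hty]
    exact this
  have h9 := h8 hN
  rw [RingHom.mem_ker, map_pow, hty.ev_X, Function.comp_apply, ← map_pow,
    Ideal.Quotient.eq_zero_iff_mem, Ideal.mem_span_singleton] at h9
  obtain ⟨b, hb⟩ := h9
  rw [pow_succ, mul_assoc, ← sub_eq_zero, ← mul_one_sub, mul_eq_zero] at hb
  rcases hb with hb | hb
  · exact pow_ne_zero N hz0 hb
  · exact hzm (IsUnit.of_mul_eq_one b (sub_eq_zero.1 hb).symm)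

section vm

variable {A : PG.{u}} {k T T' : Type u} [CommRing k] [CommRing T] [IsLocalRing T] [CommRing T']
  [IsLocalRing T'] {φ : k →+* T} {g : MvPolynomial A.σ k} {𝔞 : Ideal T} {𝔞' : Ideal T'}
  {s s' : A.Str T} {t : A.Str T'}

/-- Vanishing modulo an ideal. -/
def FL3VM (φ : k →+* T) (g : MvPolynomial A.σ k) (𝔞 : Ideal T) (x : A.Pt s) : Prop :=
  ∀ v, A.Rep x v → MvPolynomial.eval₂ φ v g ∈ 𝔞

theorem FL3VM.cong {x : A.Pt s} {y : A.Pt s'} (h : FL3VM φ g 𝔞 x) (e : Cong 𝔞 y x) :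
    FL3VM φ g 𝔞 y := fun w hw => by
  obtain ⟨v, hv, hvw⟩ := e.exists_rep hw
  have := 𝔞.add_mem (Ev2_eval_sub φ g hvw) (h v hv)
  rwa [sub_add_cancel] at this

theorem FL3VM.map {x : A.Pt s} (h : FL3VM φ g 𝔞 x) {d : ℕ} (hg : g.IsHomogeneous d)
    (θ : T →+* T') (e : A.push θ s = t) (h𝔞 : ∀ z ∈ 𝔞, θ z ∈ 𝔞') :
    FL3VM (θ.comp φ) g 𝔞' (A.map θ e x) := fun w hw => by
  obtain ⟨v, hv⟩ := A.ax.exists_rep x
  obtain ⟨c, -, rfl⟩ := A.ax.rep_uniq (rep_map θ e hv) hw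
  rw [← MvPolynomial.eval_map, Prod_hom (hg.map _), MvPolynomial.eval_map,
    ← MvPolynomial.eval₂_comp_left]
  exact 𝔞'.mul_mem_left _ (h𝔞 _ (h v hv))

theorem FL3VM.of_map {x : A.Pt s} (θ : T →+* T') (e : A.push θ s = t)
    (h : FL3VM (θ.comp φ) g 𝔞' (A.map θ e x)) (h𝔞 : ∀ z, θ z ∈ 𝔞' → z ∈ 𝔞) :
    FL3VM φ g 𝔞 x := fun v hv => h𝔞 _ (by
  rw [MvPolynomial.eval₂_comp_left]
  exact h _ (rep_map θ e hv))

end vm

theorem FL3_map_mem {R R' : Type u} [CommRing R] [CommRing R'] (θ : R →+* R') (N : ℕ)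
    (z : PowerSeries R) (hz : z ∈ mx R ^ N) : map θ z ∈ mx R' ^ N :=
  mem_mx_pow.2 fun d hd => by rw [coeff_map, mem_mx_pow.1 hz d hd, map_zero]

theorem FL3_of_map_mem {R R' : Type u} [CommRing R] [CommRing R'] {θ : R →+* R'}
    (hθ : Function.Injective θ) (N : ℕ) (z : PowerSeries R) (hz : map θ z ∈ mx R' ^ N) :
    z ∈ mx R ^ N :=
  mem_mx_pow.2 fun d hd => hθ (by rw [← coeff_map, mem_mx_pow.1 hz d hd, map_zero])

theorem FL3_ker (R : Type u) [CommRing R] :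
    RingHom.ker (constantCoeff : PowerSeries R →+* R) = mx R :=
  Ideal.ext fun _ => FL3_mx.symm

theorem FL3_cong_iff {A : PG.{u}} {R : Type u} [CommRing R] [IsLocalRing R]
    {s s' : A.Str (PowerSeries R)} {t : A.Str R} (h : A.push constantCoeff s = t)
    (h' : A.push constantCoeff s' = t) {x : A.Pt s} {y : A.Pt s'} :
    Cong (mx R) x y ↔ A.map _ h x = A.map _ h' y := by
  have : IsLocalHom (constantCoeff : PowerSeries R →+* R) :=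
    ⟨fun _ ha => isUnit_iff_constantCoeff.2 ha⟩
  rw [← FL3_ker, cong_ker_iff]

theorem FL3_nsmul {A : SPG.{u}} {R : Type u} [CommRing R] [IsLocalRing R] (hp : (p : R) = 0)
    {s : A.Str (PowerSeries R)} {t : A.Str R} (h : A.push constantCoeff s = t) {x y : A.Pt s}
    (e : A.map _ h x = A.map _ h y) (a : A.Pt s) (n : ℕ) :
    Cong (mx R ^ p ^ n) (a + p ^ n • x) (a + p ^ n • y) := by
  have h1 := SPG.cong_nsmul p (T := PowerSeries R) (by rw [← map_natCast C, hp, map_zero])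
    ((FL3_cong_iff h h).2 e) n
  rw [Ideal.span_singleton_pow]
  exact Cong.add rfl (Cong.refl _ a) h1

/-- The deformed point has the same locus. -/
theorem FL3_loc {A : PG.{u}} {k R : Type u} [Field k] [IsAlgClosed k] [Field R] {j : k →+* R}
    {s : A.Str k} {s' : A.Str R} (h : A.push j s = s') (ht : A.TorsFin s) {m : ℕ} (hm : m ≠ 0)
    (γ : A.Pt s) (y : A.Pt s') {sR : A.Str (PowerSeries R)} (hR : A.push C s' = sR) {ζ : A.Pt sR}
    (hζ : Cong (mx R) ζ (0 : A.Pt sR))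
    (hX : A.map C hR (A.map j h γ + m • y) + m • ζ ∈
      ext ((C : R →+* _).comp j) sR (loc j s (A.map j h γ + m • y))) :
    loc ((C : R →+* _).comp j) s (A.map C hR y + ζ) = loc j s y := by
  have hR' := push_trans h hR
  have e : A.push constantCoeff sR = s' := by
    rw [← hR, A.ax.push_comp, constantCoeff_comp_C, A.ax.push_id]
  have h1 : A.map _ e (A.map C hR y + ζ) = y := by
    rw [map_add, (FL3_cong_iff e e).1 hζ, map_zero, add_zero, PG.map_map,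
      map_id' fun z => constantCoeff_C z]
  have h2 : loc j s y ⊆ loc ((C : R →+* _).comp j) s (A.map C hR y + ζ) := by
    have := loc_map_subset (s := s) (j := (C : R →+* _).comp j) constantCoeff e
      (A.map C hR y + ζ)
    rwa [h1, ← RingHom.comp_assoc, constantCoeff_comp_C, RingHom.id_comp] at this
  have hv₀ := var_loc h y
  have hv₁ := var_loc hR' (A.map C hR y + ζ)
  rw [loc_vadd h, loc_nsmul h, ext_vadd hR', map_add, map_nsmul, PG.map_map, add_assoc,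
    ← smul_add] at hX
  have h3 := loc_subset (hv₀.1.nsmul m) (Set.vadd_mem_vadd_set_iff.1 hX)
  rw [loc_nsmul hR'] at h3
  refine (eq_of_dim hv₁ hv₀ h2 ?_).symm
  rw [← ht.dim_nsmul hm hv₁, ← ht.dim_nsmul hm hv₀]
  exact dim_mono (hv₀.nsmul m) (hv₁.nsmul m) h3

set_option linter.unusedSectionVars false in
theorem SPG.fl_star (A : SPG.{u}) {𝒮 : Sett p K} {𝒮' : Sett p K'} {𝒯 : Sett p Ω} {i : K →+* K'}
    {j : K' →+* Ω} (hi : Mor 𝒮 𝒮' i) (hj : Mor 𝒮' 𝒯 j) {sL : A.Str 𝒮.M} {s : A.Str K}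
    {s' : A.Str K'} {sM : A.Str 𝒯.M} {sΩ : A.Str Ω} (hL : A.push 𝒮.M.subtype sL = s)
    (h' : A.push i s = s') (hΩ : A.push j s' = sΩ) (hLM : A.push (hj.comp hi).toM sL = sM)
    (hM : A.push 𝒯.M.subtype sM = sΩ) (ht : A.TorsFin s) (hl : A.Lifts s) {n : ℕ} {γ : A.Pt sL}
    {y₀ x : A.Pt sM} (hx : x = A.map _ hLM γ + p ^ n • y₀) {sR : A.Str (PowerSeries Ω)}
    (hR : A.push C sΩ = sR) {ζ : A.Pt sR} (hζ : Cong (mx Ω) ζ (0 : A.Pt sR))
    (hX : A.map C hR (A.map _ hM x) + p ^ n • ζ ∈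
      ext ((C : Ω →+* _).comp j) sR (loc j s' (A.map _ hM x)))
    {t t₀ : A.Str (PowerSeries (PowerSeries Ω))}
    (hD : A.push ((map (C : Ω →+* PowerSeries Ω)).comp 𝒯.D₀) sM = t) (h₀ : A.push C sR = t₀)
    {ζ' : A.Pt t} (hζ' : Cong (mx (PowerSeries Ω)) ζ' (A.map C h₀ ζ))
    {g : MvPolynomial A.σ 𝒮'.M}
    (hg : MvPolynomial.map 𝒮'.M.subtype g ∈ idl (loc j s' (A.map _ hM x)))
    {v : A.σ → PowerSeries (PowerSeries Ω)} (hv : A.Rep (A.map _ hD x + p ^ n • ζ') v) :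
    MvPolynomial.eval₂ (((map (C : Ω →+* PowerSeries Ω)).comp 𝒯.D₀).comp hj.toM) v g ∈
      mx (PowerSeries Ω) ^ p ^ n := by
  have hp := (Fact.out : p.Prime).ne_zero
  obtain ⟨d, hd⟩ := hg.1
  replace hd : g.IsHomogeneous d := hd.of_map 𝒮'.M.subtype.injective
  -- the loci
  have hxΩ : A.map _ hM x = A.map j hΩ (A.map i h' (A.map _ hL γ)) + p ^ n • A.map _ hM y₀ := by
    rw [hx, map_add, map_nsmul, PG.map_map, PG.map_map, PG.map_map]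
    rfl
  have hloc := FL3_loc hΩ (ht.ext h') (pow_ne_zero n hp) _ _ hR hζ (hxΩ ▸ hX)
  -- the field generated by `y₀`
  let Ω₀ : Subfield Ω := acl (adj j.fieldRange (rat (A.map _ hM y₀)))
  let j₀ : K' →+* Ω₀ := j.codRestrict Ω₀ fun z => le_acl _ (le_adj _ _ ⟨z, rfl⟩)
  have e₀ : A.push j₀ s' = A.push (j₀.comp i) s := by rw [← h', A.ax.push_comp]
  have e₁ : A.push Ω₀.subtype (A.push (j₀.comp i) s) = sΩ := by
    rw [← e₀, A.ax.push_comp]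
    exact hΩ
  obtain ⟨y₁, hy₁⟩ := (rat_subtype_iff e₁).1
    ((rat_adj j.fieldRange (A.map _ hM y₀)).mono (le_acl _))
  have htop : acl (adj j₀.fieldRange (rat y₁)) = ⊤ := by
    refine eq_top_iff.2 fun z _ => (mem_acl_map Ω₀.subtype).1 ?_
    rw [map_adj, RingHom.map_fieldRange, ← rat_map _ e₁, hy₁]
    exact z.2
  have eB := push_trans (push_trans hΩ hR) (rfl : A.push (ιB Ω) sR = _)
  obtain ⟨ψ, eψ, hψ, hψy⟩ := conj_emb e₀ eB (y := y₁)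
    (y' := A.map (ιB Ω) rfl (A.map C hR (A.map _ hM y₀) + ζ)) (by
      rw [loc_map (ιB_inj Ω), hloc, ← hy₁]
      exact (loc_map (j := j₀) Ω₀.subtype.injective e₁ y₁).symm) htop
  -- lifting
  have c₁ : A.push constantCoeff (A.push ((PowerSeries.map (j₀.comp i)).comp 𝒮.D₀) sL) =
      A.push (j₀.comp i) s := by
    rw [A.ax.push_comp, ← hL, A.ax.push_comp]
    congr 1
    exact RingHom.ext fun z => congrArg (j₀.comp i) (𝒮.cc_D₀ z)
  obtain ⟨z, hz⟩ := hl _ _ constantCoeff (j₀.comp i) _ c₁ constantCoeff_surj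
    (by rw [FL3_ker]; infer_instance) y₁
  -- over `Ω⟦ε⟧`
  have r₁ : (PowerSeries.map Ω₀.subtype).comp ((PowerSeries.map (j₀.comp i)).comp 𝒮.D₀) =
      𝒯.D₀.comp (hj.comp hi).toM := RingHom.ext fun z => by
    refine Eq.trans ?_ ((hj.comp hi).D₀ z).symm
    rfl
  have r₂ : (PowerSeries.map Ω₀.subtype).comp ((PowerSeries.map j₀).comp 𝒮'.D₀) = 𝒯.D₀.comp hj.toM :=
    RingHom.ext fun z => by
      refine Eq.trans ?_ (hj.D₀ z).symm
      rfl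
  have e₂ : A.push (PowerSeries.map Ω₀.subtype) (A.push ((PowerSeries.map (j₀.comp i)).comp 𝒮.D₀) sL) =
      A.push 𝒯.D₀ sM := by rw [A.ax.push_comp, r₁, ← hLM, A.ax.push_comp]
  have r₃ : (constantCoeff : PowerSeries Ω →+* Ω).comp 𝒯.D₀ = 𝒯.M.subtype :=
    RingHom.ext 𝒯.cc_D₀
  have c₂ : A.push constantCoeff (A.push 𝒯.D₀ sM) = sΩ := by rw [A.ax.push_comp, r₃, hM]
  have k₁ : A.map _ c₂ (A.map _ e₂ z) = A.map _ c₂ (A.map 𝒯.D₀ rfl y₀) := by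
    rw [PG.map_map, PG.map_map, map_congr r₃ _ hM, ← hy₁, ← hz, PG.map_map]
    rfl
  have k₂ : van hj.toM g x := by
    have h1 := mem_ext_loc hΩ (A.map _ hM x) _ hg
    rw [van_comp_Geo1] at h1
    exact (van_map_iff_Geo1 (j := hj.toM) 𝒯.M.subtype.injective hM hd).1 h1
  have k₃ : FL3VM (𝒯.D₀.comp hj.toM) g (mx Ω ^ p ^ n) (A.map 𝒯.D₀ rfl x) := fun w hw => by
    rw [van_map_Geo1 𝒯.D₀ rfl hd k₂ w hw]
    exact zero_mem _
  have k₄ : FL3VM ((PowerSeries.map j₀).comp 𝒮'.D₀) g (mx Ω₀ ^ p ^ n)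
      (A.map ((PowerSeries.map (j₀.comp i)).comp 𝒮.D₀) rfl γ + p ^ n • z) := by
    refine FL3VM.of_map _ e₂ ?_ (FL3_of_map_mem Ω₀.subtype.injective _)
    rw [r₂]
    refine k₃.cong ?_
    rw [hx, map_add, map_add, map_nsmul, map_nsmul, PG.map_map, PG.map_map, map_congr r₁]
    exact FL3_nsmul (CharP.cast_eq_zero Ω p) c₂ k₁ _ n
  -- over `(Big Ω)⟦ε⟧`
  have r₄ : (PowerSeries.map ψ).comp ((PowerSeries.map (j₀.comp i)).comp 𝒮.D₀) = (PowerSeries.map (ιB Ω)).comp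
      (((PowerSeries.map (C : Ω →+* PowerSeries Ω)).comp 𝒯.D₀).comp (hj.comp hi).toM) := by
    rw [RingHom.comp_assoc, ← r₁]
    simp only [← RingHom.comp_assoc, ← map_comp]
    rw [hψ]
    rfl
  have r₅ : (PowerSeries.map ψ).comp ((PowerSeries.map j₀).comp 𝒮'.D₀) = (PowerSeries.map (ιB Ω)).comp
      (((PowerSeries.map (C : Ω →+* PowerSeries Ω)).comp 𝒯.D₀).comp hj.toM) := by
    rw [RingHom.comp_assoc, ← r₂]
    simp only [← RingHom.comp_assoc, ← map_comp]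
    rw [hψ]
    rfl
  have e₃ : A.push (PowerSeries.map ψ) (A.push ((PowerSeries.map (j₀.comp i)).comp 𝒮.D₀) sL) =
      A.push (PowerSeries.map (ιB Ω)) t := by
    rw [A.ax.push_comp, r₄, ← hD, ← hLM, A.ax.push_comp, A.ax.push_comp]
    rfl
  have r₆ : (constantCoeff : PowerSeries (PowerSeries Ω) →+* _).comp
      ((PowerSeries.map (C : Ω →+* PowerSeries Ω)).comp 𝒯.D₀) = C.comp 𝒯.M.subtype :=
    RingHom.ext fun z => congrArg C (𝒯.cc_D₀ z)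
  have c₃ : A.push constantCoeff t = sR := by
    rw [← hD, A.ax.push_comp, r₆, ← hR, ← hM, A.ax.push_comp]
  have c₄ : A.push constantCoeff t₀ = sR := by
    rw [← h₀, A.ax.push_comp, constantCoeff_comp_C, A.ax.push_id]
  have c₅ : A.push constantCoeff (A.push (PowerSeries.map (ιB Ω)) t) = A.push (ιB Ω) sR := by
    rw [← c₃, A.ax.push_comp, A.ax.push_comp]
    rfl
  have k₅ : A.map _ c₃ (A.map _ hD y₀ + ζ') = A.map C hR (A.map _ hM y₀) + ζ := by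
    rw [map_add, (FL3_cong_iff c₃ c₄).1 hζ', PG.map_map, PG.map_map, PG.map_map,
      map_id' fun z => constantCoeff_C z, map_congr r₆]
  have k₆ : A.map _ c₅ (A.map (PowerSeries.map (ιB Ω)) rfl (A.map _ hD y₀ + ζ')) =
      A.map _ c₅ (A.map _ e₃ z) := by
    have h1 : A.map _ c₅ (A.map _ e₃ z) = A.map ψ eψ y₁ := by
      rw [← hz, PG.map_map, PG.map_map]
      rfl
    rw [h1, hψy, ← k₅, PG.map_map, PG.map_map]
    rfl
  have k₇ := k₄.map hd (PowerSeries.map ψ) e₃ (FL3_map_mem ψ _)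
  rw [r₅] at k₇
  refine FL3VM.of_map (PowerSeries.map (ιB Ω)) rfl (k₇.cong ?_) (FL3_of_map_mem (ιB_inj Ω) _) v hv
  rw [hx, map_add (A.map _ hD), map_nsmul, add_assoc, ← smul_add, map_add, map_add, map_nsmul,
    map_nsmul, PG.map_map, PG.map_map, PG.map_map, map_congr r₄]
  exact FL3_nsmul (CharP.cast_eq_zero (Big Ω) p) c₅ k₆ _ n

end MLF
end
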