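import Pool.Agent.Work.MP_29d410_ag.Germ
import Pool.Agent.Work.MP_29d410_ag.DM7A
import Pool.Agent.Work.MP_29d410_ag.NBA

-- merged part: Pool.Agent.Work.MP_29d410_ag.WE
section
/-!
# The extension theorem of Weil over `O⟦x⟧`

Plan.  `T = O⟦x⟧` is a unique factorisation domain, `𝕂` its fraction field, `τ = sh O : T → T⟦η⟧`
composed with the exchange of variables, i.e. `x ↦ x + η` (`sh O f` has inner variable `x` and
outer variable `η`).  Dividing by powers of `x` assume that not all `v i` are divisible by `x`.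
For a local ring `P` with `T ⊆ P ⊆ 𝕂` (`P = 𝕂`, or the localisation at a prime element `π`, where
`v / π ^ a` is unimodular) `τ` extends to `P → P⟦η⟧` (a series is a unit iff its constant
coefficient is), compatible with the structure since `τ` fixes `O`; `F_P = τ ω - ω ∈ K1 (η)`.  By
`c_map` the series `c (F_𝕂)` has its coefficients in every such `P`, hence in `T`.  So
`F_𝕂` is the image of `F₀` over `T⟦η⟧` (`exists_c`, `eq_of_c`).  Let `ψ : T⟦η⟧ → T`, `η ↦ -x`
(`ev`), `ψ (τ f) = C (f 0)`, `ψ (C f) = f`; `Q` the localisation of `T⟦η⟧` at the prime `ker ψ`,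
with `ψ : Q → 𝕂`.  The vectors `τ v` and `C v` are unimodular in `Q`, and `[τ v] - [C v] = F₀`
holds over `Q` because it holds in the fraction field of `𝕂⟦η⟧`.  Apply `ψ`:
`ω = [v 0] - ψ F₀`, and `[v 0]` is defined over the valuation ring `O`.
-/

open PowerSeries MvPolynomial

namespace MLF

universe u

theorem WE_prim_aux {R : Type u} [CommRing R] [IsDomain R] [WfDvdMonoid R] {σ : Type} (i : σ)
    (a : R) : ∀ v : σ → R, v i = a → a ≠ 0 →
      ∃ (g : R) (w : σ → R), g ≠ 0 ∧ v = g • w ∧ ∀ π, Prime π → ∃ i, ¬ π ∣ w i := by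
  induction a using (wellFounded_dvdNotUnit (α := R)).induction with
  | _ a ih =>
  intro v e ha
  by_cases h : ∀ π, Prime π → ∃ i, ¬ π ∣ v i
  · exact ⟨1, v, one_ne_zero, (one_smul _ _).symm, h⟩
  push Not at h
  obtain ⟨π, hπ, hd⟩ := h
  choose w hw using hd
  have hw0 : w i ≠ 0 := fun h0 => ha (by rw [← e, hw, h0, mul_zero])
  obtain ⟨g, w', hg, e', H⟩ :=
    ih (w i) ⟨hw0, π, hπ.not_isUnit, by rw [← e, hw, mul_comm]⟩ w rfl hw0
  exact ⟨π * g, w', mul_ne_zero hπ.ne_zero hg, funext fun l => by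
    rw [hw l, e', Pi.smul_apply, Pi.smul_apply, smul_eq_mul, smul_eq_mul, mul_assoc], H⟩

/-- A nonzero vector is a multiple of a primitive one. -/
theorem WE_prim {R : Type u} [CommRing R] [IsDomain R] [WfDvdMonoid R] {σ : Type} {v : σ → R}
    (hv : v ≠ 0) : ∃ (g : R) (w : σ → R), g ≠ 0 ∧ v = g • w ∧ ∀ π, Prime π → ∃ i, ¬ π ∣ w i := by
  obtain ⟨i, hi⟩ := Function.ne_iff.1 hv
  exact WE_prim_aux i _ v rfl hi

theorem WE_uni {O : Type u} [CommRing O] [IsDomain O] [IsLocalRing O] [IsPrincipalIdealRing O]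
    {σ : Type} {v : σ → O} (hv : v ≠ 0) : ∃ (g : O) (w : σ → O), g ≠ 0 ∧ v = g • w ∧ Uni w := by
  obtain ⟨g, w, hg, rfl, H⟩ := WE_prim hv
  refine ⟨g, w, hg, rfl, ?_⟩
  by_contra hn
  obtain ⟨π, hπ⟩ := (IsPrincipalIdealRing.principal (IsLocalRing.maximalIdeal O)).principal
  have h1 : ∀ i, π ∣ w i := fun i => by
    have h2 : w i ∈ IsLocalRing.maximalIdeal O := fun h => hn ⟨i, h⟩
    rw [hπ] at h2
    exact Ideal.mem_span_singleton.1 h2
  have h0 : π ≠ 0 := by
    rintro rfl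
    exact hv (funext fun i => by simp [zero_dvd_iff.1 (h1 i)])
  obtain ⟨i, hi⟩ := H π ((Ideal.span_singleton_prime h0).1
    (by rw [← Ideal.submodule_span_eq, ← hπ]; infer_instance))
  exact hi (h1 i)

/-- A factorial ring is the intersection of its localisations at the prime elements. -/
theorem WE_int {R K : Type u} [CommRing R] [IsDomain R] [UniqueFactorizationMonoid R] [Field K]
    [Algebra R K] [IsFractionRing R K] {z : K}
    (h : ∀ π : R, Prime π → ∃ a b, ¬ π ∣ b ∧ z * algebraMap R K b = algebraMap R K a) :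
    ∃ a, algebraMap R K a = z := by
  obtain ⟨a, b, hab, rfl⟩ := IsFractionRing.exists_reduced_fraction R z
  by_cases hb : IsUnit (b : R)
  · obtain ⟨c, hc⟩ := hb.exists_right_inv
    refine ⟨a * c, ?_⟩
    rw [IsLocalization.eq_mk'_iff_mul_eq, ← map_mul, mul_assoc, mul_comm c, hc, mul_one]
  · obtain ⟨π, hπ, hd⟩ :=
      WfDvdMonoid.exists_irreducible_factor hb (nonZeroDivisors.coe_ne_zero b)
    obtain ⟨a', b', h1, h2⟩ := h π hπ.prime
    have h3 : a * b' = a' * b := IsFractionRing.injective R K (by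
      rw [map_mul, map_mul, ← h2, mul_right_comm, IsLocalization.mk'_spec])
    have h4 : π ∣ a * b' := h3 ▸ hd.mul_left _
    exact absurd (hab ((hπ.prime.dvd_or_dvd h4).resolve_right h1) hd) hπ.not_isUnit

/-- Localisation at a prime ideal. -/
theorem WE_loc {R : Type u} [CommRing R] (𝔭 : Ideal R) [𝔭.IsPrime] :
    ∃ (Q : Type u) (_ : CommRing Q) (_ : IsLocalRing Q) (j : R →+* Q),
      (∀ y, y ∉ 𝔭 → IsUnit (j y)) ∧ (∀ z : Q, ∃ a b, b ∉ 𝔭 ∧ z * j b = j a) ∧
      ∀ {K : Type u} [CommRing K] (g : R →+* K), (∀ y, y ∉ 𝔭 → IsUnit (g y)) →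
        ∃ g' : Q →+* K, g'.comp j = g := by
  refine ⟨Localization.AtPrime 𝔭, inferInstance, inferInstance, algebraMap _ _,
    fun y hy => IsLocalization.map_units _ (⟨y, hy⟩ : 𝔭.primeCompl), fun z => ?_,
    fun g hg => ⟨IsLocalization.lift (M := 𝔭.primeCompl) fun y => hg y y.2,
      IsLocalization.lift_comp _⟩⟩
  obtain ⟨⟨a, b⟩, h⟩ := IsLocalization.surj 𝔭.primeCompl z
  exact ⟨a, b, b.2, h⟩

theorem WE_mx_ne (R : Type u) [CommRing R] [Nontrivial R] : mx R ≠ ⊤ := fun h => by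
  have h1 : (1 : PowerSeries R) ∈ mx R := h ▸ Submodule.mem_top
  simpa using PowerSeries.X_dvd_iff.1 (Ideal.mem_span_singleton.1 h1)

theorem WE_cc_map {R R' : Type u} [CommRing R] [CommRing R'] (φ : R →+* R') (f : PowerSeries R) :
    PowerSeries.constantCoeff (PowerSeries.map φ f) = φ (PowerSeries.constantCoeff f) := by
  rw [← coeff_zero_eq_constantCoeff_apply, PowerSeries.coeff_map,
    coeff_zero_eq_constantCoeff_apply]

theorem WE_mx_map {R R' : Type u} [CommRing R] [CommRing R'] (φ : R →+* R') :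
    ∀ z ∈ mx R, PowerSeries.map φ z ∈ mx R' := fun z hz => by
  rw [Ideal.mem_span_singleton, PowerSeries.X_dvd_iff] at hz ⊢
  rw [WE_cc_map, hz, map_zero]

namespace PG

variable {A : PG.{u}} {T R R' : Type u} [CommRing T] [CommRing R] [IsLocalRing R] [CommRing R']
  [IsLocalRing R']

omit [IsLocalRing R] in
theorem WE_eqn {s : A.Str T} {v : A.σ → T} (he : ∀ i, eval v (A.eqn s i) = 0) (φ : T →+* R)
    {t : A.Str R} (h : A.push φ s = t) (i : A.ι) : eval (φ ∘ v) (A.eqn t i) = 0 := by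
  rw [← h, A.ax.eqn_push, eval_map]
  exact (eval₂_comp_left φ (RingHom.id T) v _).symm.trans
    ((congrArg φ (he i)).trans (map_zero φ))

theorem WE_eqn_div [IsDomain T] {s : A.Str T} {v : A.σ → T} {g : T} (hg : g ≠ 0)
    (he : ∀ i, eval (g • v) (A.eqn s i) = 0) (i : A.ι) : eval v (A.eqn s i) = 0 := by
  obtain ⟨d, hd⟩ := A.ax.eqn_hom i
  have h1 := he i
  rw [Prod_hom (hd s)] at h1
  exact (mul_eq_zero.1 h1).resolve_left (pow_ne_zero _ hg)

/-- `x` is the difference of the points with coordinates `v` and `w`. -/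
def WE_Dif {t : A.Str R} (v w : A.σ → R) (x : A.Pt t) : Prop :=
  ∃ a b : A.Pt t, A.Rep a v ∧ A.Rep b w ∧ x = a - b

theorem WE_Dif.map {t : A.Str R} {v w : A.σ → R} {x : A.Pt t} (h : WE_Dif v w x) (φ : R →+* R')
    {t' : A.Str R'} (e : A.push φ t = t') : WE_Dif (φ ∘ v) (φ ∘ w) (A.map φ e x) := by
  obtain ⟨a, b, ha, hb, rfl⟩ := h
  exact ⟨_, _, rep_map φ e ha, rep_map φ e hb, map_sub _ _ _⟩

theorem WE_Dif.uniq {t : A.Str R} {v w : A.σ → R} {x y : A.Pt t} (h : WE_Dif v w x)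
    (h' : WE_Dif v w y) : x = y := by
  obtain ⟨a, b, ha, hb, rfl⟩ := h
  obtain ⟨a', b', ha', hb', rfl⟩ := h'
  rw [A.ax.rep_inj ha ha', A.ax.rep_inj hb hb']

theorem WE_dif {s : A.Str T} {v w : A.σ → T} (hv : ∀ i, eval v (A.eqn s i) = 0)
    (hw : ∀ i, eval w (A.eqn s i) = 0) (φ : T →+* R) {t : A.Str R} (h : A.push φ s = t)
    (uv : Uni (φ ∘ v)) (uw : Uni (φ ∘ w)) : ∃ x : A.Pt t, WE_Dif (φ ∘ v) (φ ∘ w) x := by
  obtain ⟨a, ha⟩ := (A.ax.rep_iff t _).2 ⟨uv, WE_eqn hv φ h⟩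
  obtain ⟨b, hb⟩ := (A.ax.rep_iff t _).2 ⟨uw, WE_eqn hw φ h⟩
  exact ⟨_, a, b, ha, hb, rfl⟩

/-- The difference over `R⟦η⟧` of two points with the same constant terms. -/
theorem WE_ser {t : A.Str (PowerSeries T)} {v w : A.σ → PowerSeries T}
    (hv : ∀ i, eval v (A.eqn t i) = 0) (hw : ∀ i, eval w (A.eqn t i) = 0)
    (e : ∀ i, PowerSeries.constantCoeff (v i) = PowerSeries.constantCoeff (w i)) (φ : T →+* R)
    (u : ∃ i, IsUnit (φ (PowerSeries.constantCoeff (w i)))) :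
    ∃ x : A.Pt (A.push (PowerSeries.map φ) t),
      WE_Dif (PowerSeries.map φ ∘ v) (PowerSeries.map φ ∘ w) x ∧
        Cong (mx R) x (0 : A.Pt (A.push (PowerSeries.map φ) t)) := by
  obtain ⟨i, hi⟩ := u
  obtain ⟨x, a, b, ha, hb, rfl⟩ := WE_dif hv hw (PowerSeries.map φ) rfl
    ⟨i, PowerSeries.isUnit_iff_constantCoeff.2 (by rwa [Function.comp_apply, WE_cc_map, e])⟩
    ⟨i, PowerSeries.isUnit_iff_constantCoeff.2 (by rwa [Function.comp_apply, WE_cc_map])⟩
  refine ⟨_, ⟨a, b, ha, hb, rfl⟩, cong_iff_sub.1 ⟨_, _, ha, hb, fun l => ?_⟩⟩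
  rw [Ideal.mem_span_singleton, PowerSeries.X_dvd_iff, map_sub, Function.comp_apply,
    Function.comp_apply, WE_cc_map, WE_cc_map, e, sub_self]

end PG

open PG IsLocalRing in
/-- The difference is defined over `T⟦η⟧`. -/
theorem SPG.WE_desc {A : SPG.{u}} {T K : Type u} [CommRing T] [IsDomain T] [IsLocalRing T]
    [UniqueFactorizationMonoid T] [Field K] [Algebra T K] [IsFractionRing T K]
    {t : A.Str (PowerSeries T)} {v w : A.σ → PowerSeries T}
    (hv : ∀ i, eval v (A.eqn t i) = 0) (hw : ∀ i, eval w (A.eqn t i) = 0)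
    (e : ∀ i, PowerSeries.constantCoeff (v i) = PowerSeries.constantCoeff (w i))
    (u₀ : ∃ i, PowerSeries.constantCoeff (w i) ≠ 0)
    (u : ∀ π, Prime π → ∃ i, ¬ π ∣ PowerSeries.constantCoeff (w i)) :
    ∃ F : A.Pt t, WE_Dif (PowerSeries.map (algebraMap T K) ∘ v)
      (PowerSeries.map (algebraMap T K) ∘ w) (A.map (PowerSeries.map (algebraMap T K)) rfl F) := by
  have inj := IsFractionRing.injective T K
  obtain ⟨F, hF, cF⟩ := WE_ser hv hw e (algebraMap T K)
    (u₀.imp fun i hi => ((map_ne_zero_iff _ inj).2 hi).isUnit)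
  have cF' := cF.mono (le_maximalIdeal (WE_mx_ne K))
  have key : ∀ i n, ∃ a, algebraMap T K a = PowerSeries.coeff n (A.c F i) := fun i n => by
    refine WE_int fun π hπ => ?_
    have : (Ideal.span {π}).IsPrime := (Ideal.span_singleton_prime hπ.ne_zero).2 hπ
    obtain ⟨Q, _, _, j, j1, j2, j3⟩ := WE_loc (Ideal.span {π})
    obtain ⟨g, hg⟩ := j3 (algebraMap T K) fun y hy =>
      ((map_ne_zero_iff _ inj).2 fun h0 : y = 0 => hy (h0 ▸ zero_mem _)).isUnit
    obtain ⟨G, hG, cG⟩ := WE_ser hv hw e j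
      ((u π hπ).imp fun i hi => j1 _ fun h => hi (Ideal.mem_span_singleton.1 h))
    have e1 : (PowerSeries.map g).comp (PowerSeries.map j) = PowerSeries.map (algebraMap T K) := by
      rw [← PowerSeries.map_comp, hg]
    have e2 : A.push (PowerSeries.map g) (A.push (PowerSeries.map j) t) =
        A.push (PowerSeries.map (algebraMap T K)) t := by rw [A.ax.push_comp, e1]
    have h1 := hG.map (PowerSeries.map g) e2
    rw [← Function.comp_assoc, ← Function.comp_assoc, ← RingHom.coe_comp, e1] at h1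
    have h2 := h1.uniq hF
    have h3 := c_map (PowerSeries.map g) e2 (cG.mono (le_maximalIdeal (WE_mx_ne Q))) (h2 ▸ cF')
    rw [h2] at h3
    obtain ⟨a, b, hb, h4⟩ := j2 (PowerSeries.coeff n (A.c G i))
    refine ⟨a, b, fun h => hb (Ideal.mem_span_singleton.2 h), ?_⟩
    rw [h3, Function.comp_apply, PowerSeries.coeff_map, ← hg, RingHom.comp_apply,
      RingHom.comp_apply, ← map_mul, h4]
  choose z hz using key
  have e3 : ∀ i, PowerSeries.map (algebraMap T K) (PowerSeries.mk (z i)) = A.c F i := fun i =>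
    PowerSeries.ext fun n => by rw [PowerSeries.coeff_map, PowerSeries.coeff_mk, hz]
  obtain ⟨F₀, c0, e0⟩ := exists_c t (𝔞 := mx T) (z := fun i => PowerSeries.mk (z i)) fun i => by
    have h1 := c_mem (WE_mx_ne K) cF i
    rw [Ideal.mem_span_singleton, PowerSeries.X_dvd_iff] at h1 ⊢
    rw [← e3, WE_cc_map] at h1
    exact (map_eq_zero_iff _ inj).1 h1
  have c1 := (Chart_cong_map (PowerSeries.map (algebraMap T K)) rfl (WE_mx_map _) c0).mono
    (le_maximalIdeal (WE_mx_ne K))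
  have h5 : A.map (PowerSeries.map (algebraMap T K)) rfl F₀ = F := by
    refine eq_of_c c1 cF' ?_
    rw [c_map _ rfl (c0.mono (le_maximalIdeal (WE_mx_ne T))) c1, e0]
    exact funext e3
  exact ⟨F₀, h5 ▸ hF⟩

open PG in
/-- Specialisation of the difference along a homomorphism `ψ : S → T`. -/
theorem PG.WE_spec {A : PG.{u}} {S S' T K : Type u} [CommRing S] [IsLocalRing S] [CommRing S']
    [IsDomain S'] [IsLocalRing S'] [CommRing T] [IsDomain T] [IsLocalRing T] [Field K]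
    {ι : T →+* K} (hι : Function.Injective ι) {μ : S →+* S'} (hμ : Function.Injective μ)
    (ψ : S →+* T) {t : A.Str S} {v w : A.σ → S}
    (hv : ∀ i, eval v (A.eqn t i) = 0) (hw : ∀ i, eval w (A.eqn t i) = 0)
    (uv : ∃ i, ψ (v i) ≠ 0) (uw : ∃ i, ψ (w i) ≠ 0) {F : A.Pt t}
    (hF : WE_Dif (μ ∘ v) (μ ∘ w) (A.map μ rfl F)) :
    WE_Dif (ι ∘ ψ ∘ v) (ι ∘ ψ ∘ w) (A.map ι rfl (A.map ψ rfl F)) := by
  have : (RingHom.ker ψ).IsPrime := RingHom.ker_isPrime ψ
  obtain ⟨Q, _, _, j, j1, j2, j3⟩ := WE_loc (RingHom.ker ψ)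
  obtain ⟨G, hG⟩ := WE_dif hv hw j rfl (uv.imp fun i hi => j1 _ hi) (uw.imp fun i hi => j1 _ hi)
  let ν : S' →+* FractionRing S' := algebraMap _ _
  have hν : Function.Injective (ν.comp μ) := (IsFractionRing.injective S' _).comp hμ
  obtain ⟨g, hg⟩ := j3 (ν.comp μ) fun y hy =>
    ((map_ne_zero_iff _ hν).2 fun h0 : y = 0 => hy (h0 ▸ zero_mem _)).isUnit
  have ginj : Function.Injective g := (injective_iff_map_eq_zero g).2 fun z hz => by
    obtain ⟨a, b, hb, h⟩ := j2 z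
    have h1 := congrArg g h
    rw [map_mul, hz, zero_mul, ← RingHom.comp_apply, hg, eq_comm, map_eq_zero_iff _ hν] at h1
    rw [h1, map_zero] at h
    exact (j1 b hb).mul_left_eq_zero.1 h
  have e2 : A.push g (A.push j t) = A.push ν (A.push μ t) := by
    rw [A.ax.push_comp, A.ax.push_comp, hg]
  have h1 := hG.map g e2
  rw [← Function.comp_assoc, ← Function.comp_assoc, ← RingHom.coe_comp, hg] at h1
  have h2 : G = A.map j rfl F := map_inj ginj e2 ((h1.uniq (hF.map ν rfl)).trans (by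
    rw [map_map, map_map]
    exact map_congr hg.symm _ _ F))
  obtain ⟨r, hr⟩ := j3 (ι.comp ψ) fun y hy => ((map_ne_zero_iff _ hι).2 hy).isUnit
  have e3 : A.push r (A.push j t) = A.push ι (A.push ψ t) := by
    rw [A.ax.push_comp, A.ax.push_comp, hr]
  have h3 := hG.map r e3
  rw [← Function.comp_assoc, ← Function.comp_assoc, ← RingHom.coe_comp, hr, h2, map_map,
    map_congr hr _ (push_trans rfl rfl), ← map_map rfl rfl] at h3
  exact h3

/-- The substitution `η ↦ -x`. -/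
theorem WE_psi (O : Type u) [CommRing O] : ∃ ψ : PowerSeries (PowerSeries O) →+* PowerSeries O,
    (∀ f, ψ (PowerSeries.C f) = f) ∧
      ∀ f, ψ (sh O f) = PowerSeries.C (PowerSeries.constantCoeff f) := by
  have tn : TN fun _ : Unit => -(PowerSeries.X : PowerSeries O) := TN.of_cc₁ fun _ => by simp
  let ψ : PowerSeries (PowerSeries O) →+* PowerSeries O :=
    ev (τ := Unit) (RingHom.id _) fun _ => -PowerSeries.X
  have h1 : ∀ f, ψ (PowerSeries.C f) = f := fun f => tn.ev_C _ f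
  have h2 : ψ PowerSeries.X = -PowerSeries.X := tn.ev_X _ ()
  refine ⟨ψ, h1, fun f => RingHom.congr_fun (ps_hom_ext (𝔟 := mx O) (θ := ψ.comp (sh O))
    (θ' := (PowerSeries.C : O →+* _).comp PowerSeries.constantCoeff) (fun c => ?_) ?_ ?_) f⟩
  · simp [sh_C, h1]
  · simp [sh_X, h1, h2]
  · simp [sh_X, h1, h2]

open PG in
theorem SPG.we (A : SPG.{u}) {O : Type u} [CommRing O] [IsDomain O] [IsLocalRing O]
    [IsPrincipalIdealRing O] (s₀ : A.Str O) {s : A.Str (PowerSeries O)}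
    (h : A.push PowerSeries.C s₀ = s) {v : A.σ → PowerSeries O} (hv : v ≠ 0)
    (he : ∀ i, eval v (A.eqn s i) = 0) : ∃ i₀, v i₀ ≠ 0 ∧ ∀ i, v i₀ ∣ v i := by
  obtain ⟨g, v, hg, rfl, hp⟩ := WE_prim hv
  replace he := WE_eqn_div hg he
  suffices H : Uni v by
    obtain ⟨i, hi⟩ := H
    exact ⟨i, mul_ne_zero hg hi.ne_zero, fun l => mul_dvd_mul_left g hi.dvd⟩
  let K := FractionRing (PowerSeries O)
  let ι : PowerSeries O →+* K := algebraMap _ _
  have inj : Function.Injective ι := IsFractionRing.injective _ _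
  obtain ⟨ψ, ψ1, ψ2⟩ := WE_psi O
  obtain ⟨i₁, h₁⟩ := hp _ PowerSeries.X_prime
  rw [PowerSeries.X_dvd_iff] at h₁
  have h₂ : v i₁ ≠ 0 := fun h0 => h₁ (by rw [h0, map_zero])
  have e1 : A.push (sh O) s = A.push PowerSeries.C s := by
    rw [← h, A.ax.push_comp, A.ax.push_comp]
    congr 1
    exact RingHom.ext sh_C
  have ev1 := WE_eqn he (sh O) e1
  have ev2 := WE_eqn he (PowerSeries.C : PowerSeries O →+* _) rfl
  obtain ⟨F, hF⟩ := SPG.WE_desc (K := K) ev1 ev2 (fun i => by simp [constantCoeff_sh])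
    ⟨i₁, by simpa using h₂⟩ fun π hπ => by simpa using hp π hπ
  have h3 := WE_spec inj (PowerSeries.map_injective _ inj) ψ ev1 ev2
    ⟨i₁, by
      rw [Function.comp_apply, ψ2]
      exact fun h0 => h₁ (by simpa using congrArg PowerSeries.constantCoeff h0)⟩
    ⟨i₁, by rwa [Function.comp_apply, ψ1]⟩ hF
  have e2 : A.push ψ (A.push PowerSeries.C s) = s := by
    rw [A.ax.push_comp, show ψ.comp PowerSeries.C = RingHom.id _ from RingHom.ext ψ1, A.ax.push_id]
  generalize A.map ψ rfl F = y at h3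
  generalize A.push ψ (A.push PowerSeries.C s) = s' at e2 y h3
  subst e2
  obtain ⟨a, b, ha, hb, e3⟩ := h3
  obtain ⟨c, w, hc, e4, uw⟩ := WE_uni (v := PowerSeries.constantCoeff ∘ v)
    (Function.ne_iff.2 ⟨i₁, h₁⟩)
  have hc' : IsUnit (ι (PowerSeries.C c)) := ((map_ne_zero_iff _ inj).2 fun h0 => hc (by
    simpa using congrArg PowerSeries.constantCoeff h0)).isUnit
  obtain ⟨d, hd⟩ := hc'.exists_left_inv
  have ha' : A.Rep a (ι ∘ PowerSeries.C ∘ w) := by
    convert A.ax.rep_smul ha (IsUnit.of_mul_eq_one _ hd) using 1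
    funext l
    have h4 : PowerSeries.constantCoeff (v l) = c * w l := congrFun e4 l
    simp only [Function.comp_apply, Pi.smul_apply, smul_eq_mul, ψ2, h4, map_mul, ← mul_assoc, hd,
      one_mul]
  obtain ⟨x, -, hx⟩ := exists_map_eq inj rfl (PB2_uni_map uw PowerSeries.C) ha'
  have e5 : b = A.map ι rfl (x - y) := by rw [map_sub, hx, e3, sub_sub_cancel]
  obtain ⟨z, i₀, hz, z1⟩ := exists_rep_one (x - y)
  obtain ⟨k, -, hk⟩ := A.ax.rep_uniq (rep_map ι rfl hz) (e5 ▸ hb)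
  have h5 : ∀ l, ι (v l) = k * ι (z l) := fun l => by simpa [ψ1] using congrFun hk l
  have h6 : ∀ l, v i₀ ∣ v l := fun l => ⟨z l, inj (by rw [map_mul, h5, h5, z1, map_one, mul_one])⟩
  refine ⟨i₀, by_contra fun hn => ?_⟩
  obtain ⟨π, hπ, hd⟩ := WfDvdMonoid.exists_irreducible_factor hn fun h0 =>
    h₂ (zero_dvd_iff.1 (h0 ▸ h6 i₁))
  obtain ⟨l, hl⟩ := hp π hπ.prime
  exact hl (hd.trans (h6 l))

end MLF
end

-- merged part: Pool.Agent.Work.MP_29d410_ag.NB
section
/-!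
# A point over a constant curve is congruent to its Gauss reduction

Plan.  Write `K` for the image of `j`, `C` for the constants.  `ω` has a coordinate vector
`v i = ∑ l, a i l * b l` with `b l ∈ κ` independent over `C`, `a i l ∈ K`; scale so that all
`a i l ∈ V` and one of them is a unit.  Put `v' i = ∑ l, res (a i l) * b l`; it is not zero and
satisfies the equations (`LD.hom` for the subrings `V` and `κ`, with `res` and the identity).
Let `κ₀ = C(b l)`.  If `κ₀ ⊆ W` then nonzero elements of `κ₀` are units and `v ≡ v'`.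
Otherwise (`disc_curve`, `expans`) `W ⊓ κ₀` has a uniformiser `x` and embeds by `θ` in `C⟦x⟧`;
scale the `b l` (and `v`, `v'`) into `W`.  By `exists_eta` the `a i l` and the structure
(`ax.fg`) come from `η : C⟦s⟧ → V`.  `LD.hom` glues `η⁻¹` (followed by `C`) and `θ` (followed by
`map C`) to `Θ : R → C⟦s⟧⟦x⟧` on the subring `R` generated by both.  `Θ v ≠ 0` because its reduction
modulo `s` is `θ v'`.  `SPG.we` gives `i₀` with `Θ (v i) = g i * Θ (v i₀)`; let `γ i ∈ C` be the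
constant term of `g i`.  Approximation: if `d ∈ R` and `Θ d ∈ (s, x) ^ N` then
`|d| ≤ max (|s|, |x|) ^ N` (approximate both factors by polynomials in `s`, resp. `x`).  Applied to
`v i - g_N (s, x) * v i₀` and with `Comm` (some power of `max (|s|, |x|)` is less than `|v i₀|`)
this gives `v i / v i₀ ≡ γ i`.  Reducing modulo `s`: `θ (v' i) = (g i mod s) * θ (v' i₀)`, so
`v' i₀ ≠ 0` and `v' i / v' i₀ ≡ γ i` in the same way.
-/

open PowerSeries

namespace MLF

universe u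

section aux

variable {k E : Type u} [Field k] [IsAlgClosed k] [Field E]

theorem NB_cc {R S : Type u} [CommRing R] [CommRing S] (φ : R →+* S) (f : PowerSeries R) :
    constantCoeff (map φ f) = φ (constantCoeff f) := by
  rw [← coeff_zero_eq_constantCoeff_apply, coeff_map, coeff_zero_eq_constantCoeff_apply]

theorem NB_lt {j : Big k →+* E} {W : ValuationSubring E} (hW : W.comap j = VB k) (z : VB k) :
    W.valuation (j z - j (cB k (resB k z))) < 1 := by
  have h1 : resB k (z - cV k (resB k z)) = 0 := by rw [map_sub, resB_cV, sub_self]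
  have h2 := (resB_eq_zero k).1 h1
  rw [← map_sub]
  have h3 := (LD2c_isEquiv j W).lt_one_iff_lt_one (x := (z : Big k) - cB k (resB k z))
  rw [hW] at h3
  exact h3.1 h2

theorem NB_mem {j : Big k →+* E} {W : ValuationSubring E} (hW : W.comap j = VB k) (z : VB k) :
    j z ∈ W := by
  have h : (z : Big k) ∈ W.comap j := by
    rw [hW]
    exact z.2
  exact h

/-- The structure and finitely many elements come from a ring of power series. -/
theorem NB_eta (A : PG.{u}) (sV : A.Str (VB k)) {ι : Type*} [Finite ι] (α : ι → VB k) :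
    ∃ (η : PowerSeries k →+* VB k) (s₀ : A.Str (PowerSeries k)) (f : ι → PowerSeries k),
      Function.Injective η ∧ (∀ a, η (C a) = cV k a) ∧ (∀ f, resB k (η f) = constantCoeff f) ∧
      A.push η s₀ = sV ∧ ∀ i, η (f i) = α i := by
  classical
  have := Fintype.ofFinite ι
  obtain ⟨F, hF⟩ := A.ax.fg sV
  obtain ⟨η, -, h1, h2, h3, h4, -⟩ := exists_eta k
    ((F ∪ Finset.univ.image α).image Subtype.val) (by
      intro z hz
      obtain ⟨w, -, rfl⟩ := Finset.mem_image.1 hz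
      exact w.2)
  have h5 : ∀ z ∈ F ∪ Finset.univ.image α, ∃ f, η f = z := fun z hz => by
    obtain ⟨f, hf⟩ := h4 _ (Finset.mem_image_of_mem _ hz)
    exact ⟨f, Subtype.ext hf⟩
  obtain ⟨s₁, hs₁⟩ := hF η.range fun z hz => h5 z (Finset.mem_union_left _ hz)
  choose f hf using fun i => h5 (α i)
    (Finset.mem_union_right _ (Finset.mem_image_of_mem _ (Finset.mem_univ i)))
  let e : PowerSeries k ≃+* η.range := RingEquiv.ofBijective η.rangeRestrict
    ⟨fun a b h => h1 (congrArg Subtype.val h), η.rangeRestrict_surjective⟩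
  refine ⟨η, A.push e.symm.toRingHom s₁, f, h1, h2, h3, ?_, hf⟩
  rw [A.ax.push_comp, ← hs₁]
  congr 1
  ext z : 1
  exact congrArg Subtype.val (e.apply_symm_apply z)

theorem NB_core (A : SPG.{u}) {sV : A.Str (VB k)} (j : Big k →+* E) {κ F : Subfield E}
    (hκ : (j.comp (cB k)).fieldRange ≤ κ)
    (hLD : LD (j.comp (cB k)).fieldRange j.fieldRange κ) {s' : A.Str E}
    (h' : A.push (j.comp (VB k).subtype) sV = s') {W : ValuationSubring E}
    (hW : W.comap j = VB k) {t : E} (hc : Comm W t ⊤) (hF : F ≤ κ)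
    (hkF : ∀ a, j.comp (cB k) a ∈ F) {x : E} (hx : Unif W F x) (hr : ResIn W (j.comp (cB k)) F)
    {ι : Type u} [Fintype ι] {b : ι → E} (hbW : ∀ l, b l ∈ W) (hbF : ∀ l, b l ∈ F)
    (α : A.σ → ι → VB k) {v v' : A.σ → E} (hv : ∀ i, v i = ∑ l, j (α i l) * b l)
    (hv' : ∀ i, v' i = ∑ l, j.comp (cB k) (resB k (α i l)) * b l) (h0 : v' ≠ 0)
    (he : ∀ i, MvPolynomial.eval v (A.eqn s' i) = 0) :
    ∃ i₀, v i₀ ≠ 0 ∧ v' i₀ ≠ 0 ∧ ∀ i, ∃ γ ∈ W, W.valuation (v i / v i₀ - γ) < 1 ∧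
      W.valuation (v' i / v' i₀ - γ) < 1 := by
  have hcW : ∀ a, j.comp (cB k) a ∈ W := fun a => NB_mem hW (cV k a)
  obtain ⟨θ, t1, t2, t3, t4⟩ := expans (j.comp (cB k)) W hcW hkF hx hr
  obtain ⟨η, s₀, f, e1, e2, e3, e4, e5⟩ := NB_eta A.toPG sV fun i : A.σ × ι => α i.1 i.2
  have hxW : x ∈ W := (W.valuation_le_one_iff _).1 hx.2.2.1.le
  let B : Subring E := W.toSubring ⊓ F.toSubring
  let c : k →+* B := (j.comp (cB k)).codRestrict B fun a => ⟨hcW a, hkF a⟩
  let x₀ : B := ⟨x, hxW, hx.1⟩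
  have hθ : ∀ d : B, ∃ d', d = c (constantCoeff (θ d)) + x₀ * d' := fun d => by
    have h1 : θ (d - c (constantCoeff (θ d))) ∈ mx k ^ 1 := by
      rw [pow_one, Ideal.mem_span_singleton, X_dvd_iff, map_sub, map_sub]
      exact sub_eq_zero.2 (congrArg constantCoeff (t2 _ _)).symm
    rw [t4, pow_one] at h1
    refine ⟨⟨((d - c (constantCoeff (θ d)) : B) : E) / x, ?_,
      F.div_mem (d - c (constantCoeff (θ d))).2.2 hx.1⟩, Subtype.ext ?_⟩
    · change _ ∈ W
      rw [← W.valuation_le_one_iff, map_div₀]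
      exact div_le_one_of_le₀ h1 zero_le
    · change (d : E) = (c _ : B) + x * (((d : E) - (c _ : B)) / x)
      rw [mul_div_cancel₀ _ hx.2.1, add_sub_cancel]
  let φ : PowerSeries k →+* E := (j.comp (VB k).subtype).comp η
  obtain ⟨Θ, g1, g2⟩ := NBA_glue hLD hκ (φ := φ)
    (j.injective.comp (Subtype.val_injective.comp e1)) (fun z => ⟨_, rfl⟩) (c₁ := C)
    (fun a => congrArg (j.comp (VB k).subtype) (e2 a)) (B := B) (fun z hz => hF hz.2)
    (fun a => (c a).2) (C : PowerSeries k →+* _) ((map C).comp θ)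
    (fun a => by rw [RingHom.comp_apply, t2, map_C])
  let ψ : PowerSeries k →+* (φ.range ⊔ B : Subring E) :=
    φ.codRestrict _ fun z => le_sup_left (a := φ.range) ⟨z, rfl⟩
  let ι₂ : B →+* (φ.range ⊔ B : Subring E) := Subring.inclusion le_sup_right
  have g1' : ∀ z, Θ (ψ z) = C z := g1
  have g2' : ∀ z, Θ (ι₂ z) = map C (θ z) := g2
  have hψc : ∀ a, ψ (C a) = ι₂ (c a) := fun a =>
    Subtype.ext (congrArg (j.comp (VB k).subtype) (e2 a))
  have hX : Θ (ι₂ x₀) = X := by rw [g2', t3, map_X]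
  have hΘ : ∀ d, ∃ d', d = ψ (constantCoeff (Θ d)) + ι₂ x₀ * d' := fun d => by
    have h1 : Ideal.Quotient.mk (Ideal.span {ι₂ x₀}) =
        (Ideal.Quotient.mk (Ideal.span {ι₂ x₀})).comp (ψ.comp (constantCoeff.comp Θ)) := by
      refine NBA_hom_ext ?_ fun z hz => ?_
      · rintro _ ⟨z, rfl⟩
        change Ideal.Quotient.mk _ (ψ z) = Ideal.Quotient.mk _ (ψ (constantCoeff (Θ (ψ z))))
        rw [g1', constantCoeff_C]
      · change Ideal.Quotient.mk _ (ι₂ ⟨z, hz⟩) =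
          Ideal.Quotient.mk _ (ψ (constantCoeff (Θ (ι₂ ⟨z, hz⟩))))
        obtain ⟨d', hd'⟩ := hθ ⟨z, hz⟩
        rw [g2', NB_cc, hψc, Ideal.Quotient.eq, ← map_sub, sub_eq_iff_eq_add'.2 hd',
          map_mul]
        exact Ideal.mul_mem_right _ _ (Ideal.mem_span_singleton_self _)
    obtain ⟨d', hd'⟩ := Ideal.mem_span_singleton.1 (Ideal.Quotient.eq.1 (RingHom.congr_fun h1 d))
    exact ⟨d', sub_eq_iff_eq_add'.1 hd'⟩
  have hRW : φ.range ⊔ B ≤ W.toSubring :=
    sup_le (by rintro _ ⟨z, rfl⟩; exact NB_mem hW (η z)) inf_le_left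
  let w : A.σ → (φ.range ⊔ B : Subring E) := fun i => ∑ l, ψ (f (i, l)) * ι₂ ⟨b l, hbW l, hbF l⟩
  let w' : A.σ → B := fun i => ∑ l, c (resB k (α i l)) * ⟨b l, hbW l, hbF l⟩
  have hw : ∀ i, (φ.range ⊔ B).subtype (w i) = v i := fun i => by
    rw [hv, map_sum]
    refine Finset.sum_congr rfl fun l _ => ?_
    rw [map_mul, ← e5 (i, l)]
    rfl
  have hw' : ∀ i, B.subtype (w' i) = v' i := fun i => by
    rw [hv', map_sum]
    rfl
  have hπ : ∀ i, map constantCoeff (Θ (w i)) = θ (w' i) := fun i => by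
    simp only [w, w', map_sum, map_mul, g1', g2', map_C]
    refine Finset.sum_congr rfl fun l _ => ?_
    rw [← e3, e5]
    refine congrArg₂ (· * ·) (t2 _ _).symm ?_
    ext n
    simp
  have hne : ∀ i, v' i ≠ 0 → Θ (w i) ≠ 0 := fun i hi h => hi (by
    have h1 := hπ i
    rw [h, map_zero] at h1
    rw [← hw', t1 (h1.symm.trans (map_zero θ).symm), map_zero])
  obtain ⟨i₁, hi₁⟩ := Function.ne_iff.1 h0
  obtain ⟨i₀, n0, hd⟩ := A.we s₀ rfl (v := Θ ∘ w) (Function.ne_iff.2 ⟨i₁, hne i₁ hi₁⟩)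
    (PG.NBA_eqn ψ (μ := (φ.range ⊔ B).subtype) Subtype.val_injective Θ (s' := s')
      (by rw [← h', ← e4, A.ax.push_comp]; rfl) (congrArg (A.push · s₀) (RingHom.ext g1'))
      (by rw [show (φ.range ⊔ B).subtype ∘ w = v from funext hw]; exact he))
  choose g hg using hd
  have hg' : ∀ i, θ (w' i) = θ (w' i₀) * map constantCoeff (g i) := fun i => by
    rw [← hπ, ← hπ, ← map_mul]
    exact congrArg _ (hg i)
  have n1 : v i₀ ≠ 0 := fun h => n0 (by
    rw [Function.comp_apply, show w i₀ = 0 from Subtype.ext ((hw i₀).trans h), map_zero])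
  have n2 : v' i₀ ≠ 0 := fun h => hi₁ (by
    have h1 := hg' i₁
    rw [show w' i₀ = 0 from Subtype.ext ((hw' i₀).trans h), map_zero, zero_mul] at h1
    rw [← hw', t1 (h1.trans (map_zero θ).symm), map_zero]
    rfl)
  obtain ⟨N, hN⟩ := NBA_arch hc hx.2.1 hx.2.2.1 n1
  obtain ⟨N', hN'⟩ := NBA_arch hc hx.2.1 hx.2.2.1 n2
  refine ⟨i₀, n1, n2, fun i => ⟨j.comp (cB k) (constantCoeff (constantCoeff (g i))), hcW _, ?_, ?_⟩⟩
  · rw [← hw, ← hw]
    refine NBA_val (μ := (φ.range ⊔ B).subtype) g1' hX hΘ (fun d => hRW d.2) hx.2.2.1 (hg i)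
      (N := N) (by rw [hw]; exact hN) ?_
    rw [← e3]
    exact NB_lt hW (η _)
  · rw [← hw', ← hw']
    refine NBA_val (μ := B.subtype) (η := c) (x := x₀) (fun a => t2 a _) (t3 _) hθ
      (fun d => d.2.1) hx.2.2.1 (hg' i) (N := N') (by rw [hw']; exact hN') ?_
    rw [NB_cc]
    change W.valuation (j.comp (cB k) _ - _) < 1
    rw [sub_self, map_zero]
    exact zero_lt_one

end aux

theorem SPG.nb (A : SPG.{u}) {C E : Type u} [Field C] [IsAlgClosed C] [Field E]
    {sV : A.Str (VB C)} {s : A.Str (Big C)} {sC : A.Str C} (hs : A.push (VB C).subtype sV = s)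
    (hC : A.push (resB C) sV = sC) (j : Big C →+* E) {κ : Subfield E}
    (hκ : (j.comp (cB C)).fieldRange ≤ κ) (hr : rk (j.comp (cB C)).fieldRange (κ : Set E) ≤ 1)
    (hLD : LD (j.comp (cB C)).fieldRange j.fieldRange κ) {s' sb : A.Str E} (h' : A.push j s = s')
    (hb : A.push (j.comp (cB C)) sC = sb) {ω : A.Pt s'} (hω : PG.Rat (j.fieldRange ⊔ κ) ω) :
    ∃ ω' : A.Pt sb, PG.Rat κ ω' ∧ ∀ W : ValuationSubring E, W.comap j = VB C →
      Comm W (j (ιB C X)) ⊤ → PG.CongW W ω' ω := by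
  classical
  have hK : (j.comp (cB C)).fieldRange ≤ j.fieldRange := by
    rintro _ ⟨a, rfl⟩
    exact ⟨_, rfl⟩
  obtain ⟨v₀, hv₀, hv₁⟩ := PG.rat_iff.1 hω
  obtain ⟨ι, _, d, b, a, hd, hbκ, hbi, ha, hda⟩ := NBA_decomp hK hv₁
  choose a' ha' using ha
  obtain ⟨i₁, hi₁⟩ := A.ax.rep_uni hv₀
  obtain ⟨l₁, hl₁⟩ : ∃ l, a' i₁ l ≠ 0 := by
    by_contra hn
    push Not at hn
    refine mul_ne_zero hd hi₁.ne_zero ((hda i₁).trans (Finset.sum_eq_zero fun l _ => ?_))
    rw [← ha', hn, map_zero, zero_mul]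
  obtain ⟨q, hq, hq'⟩ := NBA_norm (VB C) (f := fun i : A.σ × ι => a' i.1 i.2) (i₁ := (i₁, l₁)) hl₁
  let α : A.σ → ι → VB C := fun i l => ⟨_, hq' (i, l)⟩
  obtain ⟨v, hv⟩ : ∃ v : A.σ → E, ∀ i, v i = ∑ l, j (α i l) * b l := ⟨_, fun _ => rfl⟩
  obtain ⟨v', hv'⟩ : ∃ v' : A.σ → E, ∀ i, v' i = ∑ l, j.comp (cB C) (resB C (α i l)) * b l :=
    ⟨_, fun _ => rfl⟩
  have hjq : j (a' q.1 q.2) ≠ 0 := (map_ne_zero j).2 hq
  have hrep : A.Rep ω v := by
    have e : v = (d / j (a' q.1 q.2)) • v₀ := funext fun i => by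
      rw [hv, Pi.smul_apply, smul_eq_mul, div_mul_eq_mul_div, hda, Finset.sum_div]
      refine Finset.sum_congr rfl fun l _ => ?_
      rw [← ha', div_eq_mul_inv, mul_right_comm, ← div_eq_mul_inv, ← map_div₀]
    rw [e]
    exact A.ax.rep_smul hv₀ (div_ne_zero hd hjq).isUnit
  have hq0 : v' q.1 ≠ 0 := fun h => by
    have h1 := Fintype.linearIndependent_iff.1 hbi
      (fun l => ⟨j.comp (cB C) (resB C (α q.1 l)), _, rfl⟩) ((hv' q.1).symm.trans h) q.2
    have h2 : α q.1 q.2 = 1 := Subtype.ext (div_self hq)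
    have h3 : j.comp (cB C) (resB C (α q.1 q.2)) = 0 := congrArg Subtype.val h1
    rw [h2, map_one, map_one] at h3
    exact one_ne_zero h3
  have hs' : A.push (j.comp (VB C).subtype) sV = s' := PG.push_trans hs h'
  have he' : ∀ i, MvPolynomial.eval v' (A.eqn sb i) = 0 := by
    let φ : VB C →+* E := j.comp (VB C).subtype
    obtain ⟨Θ, g1, g2⟩ := NBA_glue hLD hκ (φ := φ) (j.injective.comp Subtype.val_injective)
      (fun z => ⟨_, rfl⟩) (c₁ := cV C) (fun a => rfl) (B := κ.toSubring) le_rfl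
      (fun a => hκ ⟨a, rfl⟩) ((j.comp (cB C)).comp (resB C)) κ.toSubring.subtype
      (fun a => by rw [RingHom.comp_apply, resB_cV]; rfl)
    let ψ : VB C →+* (φ.range ⊔ κ.toSubring : Subring E) :=
      φ.codRestrict _ fun z => le_sup_left (a := φ.range) ⟨z, rfl⟩
    let w : A.σ → (φ.range ⊔ κ.toSubring : Subring E) := fun i =>
      ∑ l, ψ (α i l) * ⟨b l, le_sup_right (b := κ.toSubring) (hbκ l)⟩
    have hw : (φ.range ⊔ κ.toSubring).subtype ∘ w = v := funext fun i => by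
      rw [hv, Function.comp_apply, map_sum]
      rfl
    have hw' : Θ ∘ w = v' := funext fun i => by
      rw [hv', Function.comp_apply, map_sum]
      refine Finset.sum_congr rfl fun l _ => ?_
      rw [map_mul]
      exact congrArg₂ (· * ·) (g1 _) (g2 ⟨b l, hbκ l⟩)
    rw [← hw']
    exact PG.NBA_eqn ψ (μ := (φ.range ⊔ κ.toSubring).subtype) Subtype.val_injective Θ (s' := s')
      hs' ((congrArg (A.push · sV) (RingHom.ext g1)).trans (PG.push_trans hC hb))
      (by rw [hw]; exact ((A.ax.rep_iff s' v).1 ⟨ω, hrep⟩).2)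
  obtain ⟨ω', hω'⟩ := (A.ax.rep_iff sb v').2 ⟨⟨q.1, hq0.isUnit⟩, he'⟩
  refine ⟨ω', PG.rat_iff.2 ⟨v', hω', fun i => ?_⟩, fun W hW hc => ?_⟩
  · rw [hv']
    exact sum_mem fun l _ => mul_mem (hκ ⟨_, rfl⟩) (hbκ l)
  have hcW : ∀ a, j.comp (cB C) a ∈ W := fun a => NB_mem hW (cV C a)
  obtain ⟨F, hF⟩ : ∃ F, F = adj (j.comp (cB C)).fieldRange (Finset.univ.image b : Finset E) :=
    ⟨_, rfl⟩
  have hbs : ((Finset.univ.image b : Finset E) : Set E) ⊆ κ := by
    intro z hz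
    obtain ⟨l, -, rfl⟩ := Finset.mem_image.1 hz
    exact hbκ l
  have hFκ : F ≤ κ := hF ▸ adj_le.2 ⟨hκ, hbs⟩
  have hkF : ∀ a, j.comp (cB C) a ∈ F := fun a => hF ▸ le_adj _ _ ⟨a, rfl⟩
  have hbF : ∀ l, b l ∈ F := fun l =>
    hF ▸ subset_adj _ _ (Finset.mem_coe.2 (Finset.mem_image_of_mem b (Finset.mem_univ l)))
  by_cases hFW : ∀ y ∈ F, y ∈ W
  · have h1 : ∀ i, v' i ∈ F := fun i => by
      rw [hv']
      exact sum_mem fun l _ => mul_mem (hkF _) (hbF l)
    have h2 : ∀ i, v i ∈ W := fun i => by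
      rw [hv]
      exact sum_mem fun l _ => mul_mem (NB_mem hW _) (hFW _ (hbF l))
    refine ⟨fun i => ⟨v' i, hFW _ (h1 i)⟩, fun i => ⟨v i, h2 i⟩, hω', hrep,
      ⟨q.1, IsUnit.of_mul_eq_one ⟨_, hFW _ (inv_mem (h1 q.1))⟩
        (Subtype.ext (mul_inv_cancel₀ hq0))⟩, fun i => ?_⟩
    change W.valuation (v' i - v i) < 1
    rw [Valuation.map_sub_swap, hv, hv', ← Finset.sum_sub_distrib]
    refine W.valuation.map_sum_lt one_ne_zero fun l _ => ?_
    rw [← sub_mul, map_mul]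
    exact (mul_le_of_le_one_right' ((W.valuation_le_one_iff _).2 (hFW _ (hbF l)))).trans_lt
      (NB_lt hW _)
  · obtain ⟨⟨x, hx⟩, hres⟩ := disc_curve (j.comp (cB C)) W hcW (Finset.univ.image b)
      ((rk_mono hbs).trans hr) (hF ▸ hFW)
    rw [← hF] at hx hres
    obtain ⟨l₀, hl₀, hl⟩ := NBA_norm W (f := b) (i₁ := q.2) (hbi.ne_zero q.2)
    obtain ⟨i₀, n1, n2, hγ⟩ := NB_core A j hκ hLD hs' hW hc hFκ hkF hx hres hl
      (fun l => div_mem (hbF l) (hbF l₀)) α (v := (b l₀)⁻¹ • v) (v' := (b l₀)⁻¹ • v')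
      (fun i => by
        rw [Pi.smul_apply, smul_eq_mul, hv, Finset.mul_sum]
        exact Finset.sum_congr rfl fun l _ => by ring)
      (fun i => by
        rw [Pi.smul_apply, smul_eq_mul, hv', Finset.mul_sum]
        exact Finset.sum_congr rfl fun l _ => by ring)
      (Function.ne_iff.2 ⟨q.1, mul_ne_zero (inv_ne_zero hl₀) hq0⟩)
      ((A.ax.rep_iff s' _).1 ⟨ω, A.ax.rep_smul hrep (inv_ne_zero hl₀).isUnit⟩).2
    choose γ hγ h1 h2 using hγ
    have r1 := A.ax.rep_smul (A.ax.rep_smul hrep (inv_ne_zero hl₀).isUnit) (inv_ne_zero n1).isUnit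
    have r2 := A.ax.rep_smul (A.ax.rep_smul hω' (inv_ne_zero hl₀).isUnit) (inv_ne_zero n2).isUnit
    refine ⟨fun i => ⟨_, NBA_mem (hγ i) (h2 i)⟩, fun i => ⟨_, NBA_mem (hγ i) (h1 i)⟩, ?_, ?_,
      ⟨i₀, ?_⟩, fun i => ?_⟩
    · convert r2 using 2 with i
      exact div_eq_inv_mul _ _
    · convert r1 using 2 with i
      exact div_eq_inv_mul _ _
    · convert isUnit_one
      exact Subtype.ext (div_self n2)
    · have := W.valuation.map_sub_lt (h2 i) (h1 i)
      rwa [sub_sub_sub_cancel_right] at this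

end MLF
end
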