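import Pool.Agent.Work.MP_29d410_ag.FL3
import Pool.Agent.Work.MP_29d410_ag.HullB
import Pool.Agent.Work.MP_29d410_ag.Arc
import Pool.Agent.Work.MP_29d410_ag.Chow4
import Pool.Agent.Work.MP_29d410_ag.Tor3
import Pool.Agent.Work.MP_29d410_ag.Geo6

-- merged part: Pool.Agent.Work.MP_29d410_ag.FL4B
section
/-!
# The ideal of the first leaf lemma
-/

open PowerSeries

namespace MLF

universe u

open PG Sett IsLocalRing

variable {p : ℕ} [Fact p.Prime] {K K' Ω : Type u} [Field K] [CharP K p] [IsAlgClosed K] [Field K']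
  [CharP K' p] [IsAlgClosed K'] [Field Ω] [CharP Ω p] [IsAlgClosed Ω]

omit [IsAlgClosed K'] in
theorem FL4_pow (𝒮' : Sett p K') {σ : Type} (g : MvPolynomial σ K') :
    ∃ (m : ℕ) (g₀ : MvPolynomial σ 𝒮'.M), MvPolynomial.map 𝒮'.M.subtype g₀ = g ^ p ^ m := by
  induction g using MvPolynomial.induction_on with
  | C c =>
    obtain ⟨m, hm⟩ := 𝒮'.ins c
    exact ⟨m, MvPolynomial.C ⟨_, hm⟩, by simp⟩
  | add a b ha hb =>
    obtain ⟨m, a₀, ha⟩ := ha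
    obtain ⟨n, b₀, hb⟩ := hb
    refine ⟨m + n, a₀ ^ p ^ n + b₀ ^ p ^ m, ?_⟩
    rw [map_add, map_pow, map_pow, ha, hb, add_pow_char_pow, ← pow_mul, ← pow_mul, ← pow_add,
      ← pow_add, add_comm n m]
  | mul_X a i ha =>
    obtain ⟨m, a₀, ha⟩ := ha
    exact ⟨m, a₀ * MvPolynomial.X i ^ p ^ m, by simp [ha, mul_pow]⟩

theorem FL4_mx_le (F : Type u) [Field F] : mx F ≤ maximalIdeal (PowerSeries F) :=
  (PowerSeries.maximalIdeal_eq_span_X (k := F)).ge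

theorem FL4_mx_ne (R : Type u) [CommRing R] [Nontrivial R] : mx R ≠ ⊤ := fun h => by
  have h1 : (1 : PowerSeries R) ∈ mx R := h ▸ Submodule.mem_top
  rw [Ideal.mem_span_singleton, X_dvd_iff] at h1
  simp at h1

section I

variable {A : SPG.{u}} {ρ : Type} [Finite ρ] {sΩ : A.Str Ω} {sS : A.Str (MvPowerSeries ρ Ω)}
  (hS : A.push MvPowerSeries.C sΩ = sS) {x : A.Pt sΩ} {uh : A.Pt sS}
  (huh : Cong (mX ρ Ω) uh (0 : A.Pt sS)) {vh : A.σ → MvPowerSeries ρ Ω}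
  (hvh : A.Rep (A.map MvPowerSeries.C hS x + uh) vh)

omit [CharP Ω p] [IsAlgClosed Ω] in
include huh hvh in
theorem FL4_rep {T : Type u} [CommRing T] [IsLocalRing T] {w : ρ → T} (hw : TN w) (φ : Ω →+* T)
    {sT : A.Str T} (h : A.push φ sΩ = sT) {ω : A.Pt sT}
    (hω : Cong (maximalIdeal T) ω (0 : A.Pt sT)) (hc : ∀ a, A.c ω a = ev φ w (A.c uh a)) :
    A.Rep (A.map φ h x + ω) (ev φ w ∘ vh) := by
  have e := FG3_comp_C φ hw
  have h' : A.push (ev φ w) sS = sT := by rw [← hS, A.ax.push_comp, e, h]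
  obtain ⟨h1, h2⟩ := SPG.Chart_ev hw φ h' huh
  have h3 : A.map (ev φ w) h' uh = ω := SPG.eq_of_c h1 hω (by rw [h2]; exact (funext hc).symm)
  have h4 := rep_map (ev φ w) h' hvh
  rwa [map_add, map_map, h3, map_congr e _ h] at h4

/-- The values at `vh` of the forms with coefficients in `M` which vanish on `X'`. -/
def FL4_I (M : Subfield K') (j : K' →+* Ω) {s' : A.Str K'} (X' : Set (A.Pt s'))
    (vh : A.σ → MvPowerSeries ρ Ω) : Set (MvPowerSeries ρ Ω) :=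
  {h | ∃ g : MvPolynomial A.σ M, MvPolynomial.map M.subtype g ∈ idl X' ∧
    h = MvPolynomial.eval₂ (MvPowerSeries.C.comp (j.comp M.subtype)) vh g}

omit [CharP Ω p] [IsAlgClosed Ω] [IsAlgClosed K'] [CharP K' p] in
theorem FL4_ev {T : Type u} [CommRing T] {w : ρ → T} (hw : TN w) (φ : Ω →+* T) {M : Type u}
    [CommRing M] (ψ : M →+* Ω) (g : MvPolynomial A.σ M) :
    ev φ w (MvPolynomial.eval₂ (MvPowerSeries.C.comp ψ) vh g) =
      MvPolynomial.eval₂ (φ.comp ψ) (ev φ w ∘ vh) g := by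
  rw [MvPolynomial.eval₂_comp_left, ← RingHom.comp_assoc, FG3_comp_C φ hw]

omit [CharP Ω p] [IsAlgClosed Ω] [IsAlgClosed K'] in
include huh hvh in
theorem FL4_kills (𝒮' : Sett p K') (j : K' →+* Ω) {s' : A.Str K'} (X' : Set (A.Pt s'))
    {sR : A.Str (PowerSeries Ω)} (hR : A.push C sΩ = sR) {y : ρ → PowerSeries Ω} (hy : Arc y)
    {ω : A.Pt sR} (hω : Cong (mx Ω) ω (0 : A.Pt sR)) (hc : ∀ a, A.c ω a = ev C y (A.c uh a)) :
    Kills (FL4_I 𝒮'.M j X' vh) y ↔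
      A.map C hR x + ω ∈ ext ((C : Ω →+* _).comp j) sR X' := by
  have hw := TN.of_cc₁ hy
  have hv := FL4_rep hS huh hvh hw C hR (hω.mono (FL4_mx_le Ω)) hc
  constructor
  · rintro H g ⟨⟨d, hd⟩, hg⟩
    obtain ⟨m, g₀, e⟩ := FL4_pow 𝒮' g
    have h0 : p ^ m ≠ 0 := pow_ne_zero _ (Fact.out : p.Prime).ne_zero
    have h1 := H _ ⟨g₀, ⟨⟨_, e ▸ hd.pow _⟩, fun z hz v hzv => by
      rw [e, MvPolynomial.eval₂_pow, hg z hz v hzv, zero_pow h0]⟩, rfl⟩
    rw [FL4_ev hw, ← RingHom.comp_assoc, ← MvPolynomial.eval₂_map, e, MvPolynomial.eval₂_pow] at h1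
    exact (van_iff hd hv).2 (pow_eq_zero_iff h0 |>.1 h1)
  · rintro H _ ⟨g, hg, rfl⟩
    rw [FL4_ev hw, ← RingHom.comp_assoc, ← MvPolynomial.eval₂_map]
    exact H _ hg _ hv

end I

theorem FL4_arc {A : SPG.{u}} (𝒮' : Sett p K') {j : K' →+* Ω} {s' : A.Str K'} {sΩ : A.Str Ω}
    (hΩ : A.push j s' = sΩ) {x : A.Pt sΩ} (hn : ¬ Rat j.fieldRange x) {G : FGL Ω A.τ}
    (hG : G.FH p) (d : DMD p G) {sS : A.Str (MvPowerSeries d.ρ Ω)}
    (hS : A.push MvPowerSeries.C sΩ = sS) {uh : A.Pt sS}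
    (huh : Cong (mX d.ρ Ω) uh (0 : A.Pt sS)) (hc : A.c uh = d.e)
    {vh : A.σ → MvPowerSeries d.ρ Ω} (hvh : A.Rep (A.map MvPowerSeries.C hS x + uh) vh)
    {sR : A.Str (PowerSeries Ω)} (hR : A.push C sΩ = sR) :
    ∃ y, Arc y ∧ Kills (FL4_I 𝒮'.M j (loc j s' x) vh) y ∧ y ≠ 0 := by
  have hx := mem_ext_loc hΩ x
  have hinf : (ext j sΩ (loc j s' x)).Infinite := fun hf => by
    have h1 : (loc j s' x).Finite :=
      Set.Finite.of_finite_image (hf.subset (by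
        rintro _ ⟨z, hz, rfl⟩
        exact map_mem_ext j hΩ hz)) (map_inj j.injective hΩ).injOn
    rw [ext_finite hΩ h1] at hx
    obtain ⟨z, -, hz⟩ := hx
    exact hn ((rat_range_iff j hΩ).2 ⟨z, hz⟩)
  obtain ⟨ω, hω, h0, hm⟩ := A.exists_arc (var_ext (var_loc hΩ x) j hΩ) hinf hx hR
  rw [ext_ext j C hΩ] at hm
  have hω' := hω.mono (FL4_mx_le Ω)
  have hw : Arc (A.c ω) := fun a => by
    simpa [Ideal.mem_span_singleton, X_dvd_iff] using SPG.c_mem (FL4_mx_ne Ω) hω a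
  have hw0 : A.c ω ≠ 0 := fun e =>
    h0 (SPG.eq_of_c hω' (Cong.refl _ _) (e.trans (A.ch.c_zero sR).symm))
  obtain ⟨Q, hQ, y, hy, hy0, e⟩ := d.arc_lift hG hw hw0
  let E : PowerSeries Ω →+* PowerSeries Ω := (PowerSeries.expand Q hQ : _ →ₐ[Ω] _)
  have hE : E.comp C = C := RingHom.ext fun c => PowerSeries.expand_C Q hQ c
  have hE' : A.push E sR = sR := by rw [← hR, A.ax.push_comp, hE]
  have h1 : Cong (mx Ω) (A.map E hE' ω) (0 : A.Pt sR) :=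
    SPG.Chart_cong_map E hE' (fun z hz => by
      rw [Ideal.mem_span_singleton, X_dvd_iff] at hz ⊢
      exact (PowerSeries.constantCoeff_expand Q hQ z).trans hz) hω
  refine ⟨y, hy, (FL4_kills hS huh hvh 𝒮' j _ hR hy h1 fun a => ?_).2 ?_, hy0⟩
  · rw [SPG.c_map E hE' hω' (h1.mono (FL4_mx_le Ω)), hc, e]
    rfl
  · have h2 := mem_ext_map E hE' hm
    rwa [map_add, map_map, map_congr hE _ hR, ← RingHom.comp_assoc, hE] at h2

theorem FL4_star (A : SPG.{u}) {𝒮 : Sett p K} {𝒮' : Sett p K'} {𝒯 : Sett p Ω} {i : K →+* K'}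
    {j : K' →+* Ω} (hi : Mor 𝒮 𝒮' i) (hj : Mor 𝒮' 𝒯 j) {sL : A.Str 𝒮.M} {s : A.Str K}
    {s' : A.Str K'} {sM : A.Str 𝒯.M} {sΩ : A.Str Ω} (hL : A.push 𝒮.M.subtype sL = s)
    (h' : A.push i s = s') (hΩ : A.push j s' = sΩ) (hLM : A.push (hj.comp hi).toM sL = sM)
    (hM : A.push 𝒯.M.subtype sM = sΩ) (ht : A.TorsFin s) (hl : A.Lifts s) {n : ℕ} {γ : A.Pt sL}
    {y₀ x : A.Pt sM} (hx : x = A.map _ hLM γ + p ^ n • y₀) {sR : A.Str (PowerSeries Ω)}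
    (hR : A.push C sΩ = sR) {ζ : A.Pt sR} (hζ : Cong (mx Ω) ζ (0 : A.Pt sR))
    (hX : A.map C hR (A.map _ hM x) + p ^ n • ζ ∈
      ext ((C : Ω →+* _).comp j) sR (loc j s' (A.map _ hM x)))
    {T : Type u} [CommRing T] [IsLocalRing T] (π : PowerSeries Ω →+* T) (D : Ω →+* T)
    (hD : ∀ z : 𝒯.M, D z = π (𝒯.D₀ z)) (hπ : π X ^ p ^ n = 0) {sT : A.Str (PowerSeries T)}
    (hT : A.push ((C : T →+* _).comp D) sΩ = sT) {ω : A.Pt sT}
    (hω : Cong (maximalIdeal (PowerSeries T)) ω (0 : A.Pt sT))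
    (hc : ∀ a, A.c ω a = ev (((C : T →+* _).comp D).comp (j.comp i))
      (fun b => map (π.comp C) (A.c ζ b)) ((SPG.fgl s).mul (p ^ n) a))
    {g : MvPolynomial A.σ 𝒮'.M}
    (hg : MvPolynomial.map 𝒮'.M.subtype g ∈ idl (loc j s' (A.map _ hM x)))
    {v : A.σ → PowerSeries T} (hv : A.Rep (A.map _ hT (A.map _ hM x) + ω) v) :
    MvPolynomial.eval₂ (((C : T →+* _).comp D).comp (j.comp 𝒮'.M.subtype)) v g = 0 := by
  obtain ⟨t, hDt⟩ : ∃ t, A.push ((map (C : Ω →+* PowerSeries Ω)).comp 𝒯.D₀) sM = t := ⟨_, rfl⟩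
  obtain ⟨t₀, h₀⟩ : ∃ t₀, A.push (C : PowerSeries Ω →+* _) sR = t₀ := ⟨_, rfl⟩
  have hcζ := SPG.c_mem (FL4_mx_ne Ω) hζ
  have hm2 : Perf_m2 Ω ≠ ⊤ := Ideal.comap_ne_top _ (FL4_mx_ne Ω)
  obtain ⟨ζ', hζ', hc'⟩ := SPG.exists_c t (𝔞 := Perf_m2 Ω) (z := fun a => C (A.c ζ a)) fun a => by
    simpa [Ideal.mem_comap] using hcζ a
  have hζm := hζ'.mono (le_maximalIdeal hm2)
  have hζ₀ : Cong (maximalIdeal _) (A.map C h₀ ζ) (0 : A.Pt t₀) :=
    (SPG.Chart_cong_map (𝔞' := Perf_m2 Ω) C h₀ (fun z hz => by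
      simpa [Ideal.mem_comap] using hz) hζ).mono (le_maximalIdeal hm2)
  have hcong : Cong (mx (PowerSeries Ω)) ζ' (A.map C h₀ ζ) := by
    refine SPG.cong_of_c ?_ hζm hζ₀ fun a => ?_
    · rw [← hDt, ← h₀, ← hR, ← hM]
      simp only [A.ax.push_comp]
      congr 1
      refine RingHom.ext fun z => Ideal.Quotient.eq.2 (Set1_mx ?_)
      simp [Set1_cc, cc_D₀]
    · rw [SPG.c_map C h₀ (hζ.mono (FL4_mx_le Ω)) hζ₀, hc']
      simp
  obtain ⟨v', hv'⟩ := A.ax.exists_rep (A.map _ hDt x + p ^ n • ζ')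
  have key := A.fl_star hi hj hL h' hΩ hLM hM ht hl hx hR hζ hX hDt h₀ hcong hg hv'
  have hnil : (C (π X) : PowerSeries T) ^ p ^ n = 0 := by rw [← map_pow, hπ, map_zero]
  have htn : TN fun _ : Unit => (C (π X) : PowerSeries T) := TN.of_nil fun _ => ⟨_, hnil⟩
  obtain ⟨sw, swC, swX⟩ : ∃ sw : PowerSeries (PowerSeries Ω) →+* PowerSeries T,
      (∀ f, sw (C f) = map (π.comp C) f) ∧ sw X = C (π X) :=
    ⟨ev (τ := Unit) (map (π.comp C)) fun _ => C (π X), fun f => htn.ev_C _ f, htn.ev_X _ ()⟩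
  have e₁ : sw.comp (map (C : Ω →+* PowerSeries Ω)) = (C : T →+* _).comp π := by
    have hN : IsNilpotent (Ideal.span {(C (π X) : PowerSeries T)}) :=
      ⟨p ^ n, by rw [Ideal.span_singleton_pow, hnil]; simp⟩
    have := complete_of_nil hN
    refine ps_hom_ext (𝔟 := Ideal.span {(C (π X) : PowerSeries T)}) (fun c => ?_) ?_ ?_
    · simp [swC]
    · simp [swX]
    · simp [swX]
  have e₂ : sw.comp ((map (C : Ω →+* PowerSeries Ω)).comp 𝒯.D₀) =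
      ((C : T →+* _).comp D).comp 𝒯.M.subtype := by
    rw [← RingHom.comp_assoc, e₁]
    exact RingHom.ext fun z => congrArg C (hD z).symm
  have hsw : A.push sw t = sT := by
    rw [← hDt, A.ax.push_comp, e₂, ← A.ax.push_comp, hM, hT]
  have hN : IsNilpotent (Ideal.span {π X}) :=
    ⟨p ^ n, by rw [Ideal.span_singleton_pow, hπ]; simp⟩
  have := complete_of_nil hN
  have := complete_comap (Ideal.span {π X})
  have hne : (Ideal.span {π X}).comap (constantCoeff (R := T)) ≠ ⊤ :=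
    Ideal.comap_ne_top _ fun e => by
      rw [Ideal.span_singleton_eq_top] at e
      exact (IsNilpotent.not_isUnit ⟨_, hπ⟩) e
  have h1 : Cong ((Ideal.span {π X}).comap (constantCoeff (R := T))) (A.map sw hsw ζ')
      (0 : A.Pt sT) := by
    refine SPG.Chart_cong_map sw hsw (fun z hz => ?_) hζ'
    rw [Ideal.mem_comap, Ideal.mem_span_singleton, X_dvd_iff] at hz
    rw [Ideal.mem_comap, eq_X_mul_shift_add_const z, map_add, map_mul, swC, swX]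
    simp [Set1_cc, hz, Ideal.mul_mem_right]
  have h2 : A.c (A.map sw hsw ζ') = fun b => map (π.comp C) (A.c ζ b) := by
    rw [SPG.c_map sw hsw hζm (h1.mono (le_maximalIdeal hne)), hc']
    exact funext fun b => swC _
  have h3 : p ^ n • A.map sw hsw ζ' = ω := by
    refine SPG.eq_of_c (((K1 _ sT).nsmul_mem h1 _).mono (le_maximalIdeal hne)) hω
      (funext fun a => ?_)
    rw [SPG.c_nsmul _ (push_trans (push_trans h' hΩ) hT) hne h1, h2, hc]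
  have h4 := rep_map sw hsw hv'
  rw [map_add, map_nsmul, h3, map_map, map_congr e₂ _ (push_trans hM hT), ← map_map hM hT] at h4
  obtain ⟨⟨dg, hdg⟩, -⟩ := hg
  have hdg' : g.IsHomogeneous dg := hdg.of_map Subtype.val_injective
  refine (van_iff hdg' h4).2 ?_ v hv
  have e₃ : ((C : T →+* _).comp D).comp (j.comp 𝒮'.M.subtype) =
      sw.comp (((map (C : Ω →+* PowerSeries Ω)).comp 𝒯.D₀).comp hj.toM) := by
    rw [← RingHom.comp_assoc _ _ sw, e₂]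
    rfl
  rw [e₃, ← MvPolynomial.eval₂_comp_left]
  rw [Ideal.span_singleton_pow, Ideal.mem_span_singleton] at key
  obtain ⟨q, hq⟩ := key
  rw [hq, map_mul, map_pow, swX, hnil, zero_mul]

end MLF
end

-- merged part: Pool.Agent.Work.MP_29d410_ag.CaseB
section
-- merged part: Pool.Agent.Work.MP_29d410_ag.FL2A
section
/-!
# Auxiliary results for the first leaf: twisted arcs, blocks of points, peeling off the blocks
-/

open MvPowerSeries

namespace MLF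

universe u

section series

variable {S T T' : Type u} [CommRing S] [CommRing T] [CommRing T'] {ρ : Type} [Finite ρ]

omit [Finite ρ] in
theorem FL2_arc_map {x : ρ → PowerSeries T} (hx : Arc x) (ψ : T →+* T') :
    Arc fun j => PowerSeries.map ψ (x j) := fun j => by
  rw [← PowerSeries.coeff_zero_eq_constantCoeff_apply, PowerSeries.coeff_map,
    PowerSeries.coeff_zero_eq_constantCoeff_apply, hx j, map_zero]

theorem FL2_mem_mx {f : PowerSeries T} : f ∈ mx T ↔ PowerSeries.constantCoeff f = 0 := by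
  rw [Ideal.mem_span_singleton, PowerSeries.X_dvd_iff]

theorem FL2_map_ev (ψ : T →+* T') (χ : S →+* T) {x : ρ → PowerSeries T} (hx : Arc x)
    (f : MvPowerSeries ρ S) :
    PowerSeries.map ψ (ev (PowerSeries.C.comp χ) x f) =
      ev (PowerSeries.C.comp (ψ.comp χ)) (fun j => PowerSeries.map ψ (x j)) f := by
  have h := (TN.of_cc₁ hx).map_ev (PowerSeries.map ψ) (TN.of_cc₁ (FL2_arc_map hx ψ))
    (PowerSeries.C.comp χ) f
  have e : (PowerSeries.map ψ).comp (PowerSeries.C.comp χ) = PowerSeries.C.comp (ψ.comp χ) :=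
    RingHom.ext fun c => PowerSeries.map_C ψ (χ c)
  rw [e] at h
  exact h

theorem FL2_map_ev' (ψ : T →+* T') {x : ρ → PowerSeries T} (hx : Arc x)
    (f : MvPowerSeries ρ T) :
    PowerSeries.map ψ (ev PowerSeries.C x f) =
      ev PowerSeries.C (fun j => PowerSeries.map ψ (x j)) (map ψ f) := by
  rw [(TN.of_cc₁ (FL2_arc_map hx ψ)).ev_map]
  exact FL2_map_ev ψ (RingHom.id T) hx f

variable (p : ℕ) [Fact p.Prime]

theorem FL2_ne (n : ℕ) : p ^ n ≠ 0 := pow_ne_zero n (Fact.out : p.Prime).ne_zero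

/-- The substitution of `δ ^ p ^ t` for `δ`. -/
noncomputable def FL2x (t : ℕ) : PowerSeries T →+* PowerSeries T :=
  (PowerSeries.expand (p ^ t) (FL2_ne p t)).toRingHom

theorem FL2x_def (t : ℕ) (f : PowerSeries T) :
    FL2x p t f = PowerSeries.expand (p ^ t) (FL2_ne p t) f := rfl

theorem FL2x_coeff (t n : ℕ) (f : PowerSeries T) :
    PowerSeries.coeff (p ^ t * n) (FL2x p t f) = PowerSeries.coeff n f :=
  PowerSeries.coeff_expand_mul _ _ f n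

theorem FL2x_map (t : ℕ) (ψ : T →+* T') (f : PowerSeries T) :
    PowerSeries.map ψ (FL2x p t f) = FL2x p t (PowerSeries.map ψ f) :=
  PowerSeries.map_expand _ _ ψ f

theorem FL2x_add (s t : ℕ) (f : PowerSeries T) : FL2x p s (FL2x p t f) = FL2x p (s + t) f := by
  rw [FL2x_def, FL2x_def, FL2x_def, ← PowerSeries.expand_mul]
  congr 2
  rw [pow_add]

omit [Finite ρ] in
theorem FL2x_arc {x : ρ → PowerSeries T} (hx : Arc x) (t : ℕ) :
    Arc fun j => FL2x p t (x j) := fun j =>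
  (PowerSeries.constantCoeff_expand _ (FL2_ne p t) (x j)).trans (hx j)

theorem FL2x_ev (t : ℕ) (χ : S →+* T) {x : ρ → PowerSeries T} (hx : Arc x)
    (f : MvPowerSeries ρ S) :
    FL2x p t (ev (PowerSeries.C.comp χ) x f) =
      ev (PowerSeries.C.comp χ) (fun j => FL2x p t (x j)) f := by
  have h := (TN.of_cc₁ hx).map_ev (FL2x p t) (TN.of_cc₁ (FL2x_arc p hx t))
    (PowerSeries.C.comp χ) f
  have e : (FL2x p t).comp (PowerSeries.C.comp χ) = PowerSeries.C.comp χ :=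
    RingHom.ext fun c => PowerSeries.expand_C _ (FL2_ne p t) (χ c)
  rw [e] at h
  exact h

theorem FL2x_ev' (t : ℕ) {x : ρ → PowerSeries T} (hx : Arc x) (f : MvPowerSeries ρ T) :
    FL2x p t (ev PowerSeries.C x f) = ev PowerSeries.C (fun j => FL2x p t (x j)) f :=
  FL2x_ev p t (RingHom.id T) hx f

theorem FL2x_mem (t : ℕ) {f : PowerSeries T} (hf : PowerSeries.constantCoeff f = 0) :
    FL2x p t f ∈ mx T ^ p ^ t := by
  rw [mem_mx_pow]
  intro n hn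
  rw [FL2x_def, PowerSeries.coeff_expand]
  split_ifs with h
  · rw [Nat.div_eq_of_lt hn, PowerSeries.coeff_zero_eq_constantCoeff_apply, hf]
  · rfl

theorem FL2x_of_mem {t M : ℕ} {f : PowerSeries T} (hf : FL2x p t f ∈ mx T ^ (p ^ t * M)) :
    f ∈ mx T ^ M := by
  rw [mem_mx_pow] at hf ⊢
  intro n hn
  rw [← FL2x_coeff p t n f]
  exact hf _ (Nat.mul_lt_mul_of_pos_left hn (Nat.pos_of_ne_zero (FL2_ne p t)))

theorem FL2x_inj {t : ℕ} {f : PowerSeries T} (hf : FL2x p t f = 0) : f = 0 := by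
  ext n
  rw [← FL2x_coeff p t n f, hf, map_zero, map_zero]

theorem FL2_pow [CharP T p] (f : PowerSeries T) (n : ℕ) :
    f ^ p ^ n = PowerSeries.map (iterateFrobenius T p n) (FL2x p n f) :=
  (MvPowerSeries.map_iterateFrobenius_expand p (Fact.out : p.Prime).ne_zero f n).symm

/-- Extraction of roots of a congruence in a perfect ring. -/
theorem FL2_root {O : Type u} [CommRing O] [CharP O p] [PerfectRing O p] {ε : O}
    {f : PowerSeries O} {s P P' Q M : ℕ} (hP : p ^ s * P' ≤ P) (hQ : p ^ s * M ≤ Q)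
    (h : PowerSeries.map (Ideal.Quotient.mk (Ideal.span {ε ^ P})) (f ^ p ^ s) ∈ mx _ ^ Q) :
    PowerSeries.map (Ideal.Quotient.mk (Ideal.span {ε ^ P'})) f ∈ mx _ ^ M := by
  rw [mem_mx_pow] at h ⊢
  intro n hn
  have h1 := h (p ^ s * n) (lt_of_lt_of_le
    (Nat.mul_lt_mul_of_pos_left hn (Nat.pos_of_ne_zero (FL2_ne p s))) hQ)
  rw [PowerSeries.coeff_map, FL2_pow p, PowerSeries.coeff_map, FL2x_coeff,
    Ideal.Quotient.eq_zero_iff_mem, Ideal.mem_span_singleton] at h1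
  rw [PowerSeries.coeff_map, Ideal.Quotient.eq_zero_iff_mem, Ideal.mem_span_singleton]
  obtain ⟨r, hr⟩ := (pow_dvd_pow ε hP).trans h1
  obtain ⟨r', rfl⟩ := (iterateFrobeniusEquiv O p s).surjective r
  refine ⟨r', (iterateFrobeniusEquiv O p s).injective ?_⟩
  rw [map_mul, iterateFrobeniusEquiv_apply, hr, iterateFrobeniusEquiv_def O p s (ε ^ P'),
    ← pow_mul, mul_comm P']

variable {Ω : Type u} [Field Ω] [CharP Ω p] [PerfectRing Ω p]

/-- The inverse of a power of Frobenius. -/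
noncomputable def FL2s (Ω : Type u) [Field Ω] [CharP Ω p] [PerfectRing Ω p] (n : ℕ) : Ω →+* Ω :=
  ((iterateFrobeniusEquiv Ω p n).symm : Ω →+* Ω)

theorem FL2s_add (m n : ℕ) : (FL2s p Ω n).comp (FL2s p Ω m) = FL2s p Ω (m + n) := by
  ext z
  change (iterateFrobeniusEquiv Ω p n).symm ((iterateFrobeniusEquiv Ω p m).symm z) =
    (iterateFrobeniusEquiv Ω p (m + n)).symm z
  rw [add_comm, iterateFrobeniusEquiv_symm_add_apply]

theorem FL2s_frob (m n : ℕ) :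
    (iterateFrobenius Ω p n).comp (FL2s p Ω (m + n)) = FL2s p Ω m := by
  rw [← FL2s_add]
  ext z
  exact (iterateFrobeniusEquiv Ω p n).apply_symm_apply _

theorem FL2s_zero : FL2s p Ω 0 = RingHom.id Ω := by
  ext z
  change (iterateFrobeniusEquiv Ω p 0).symm z = z
  rw [RingEquiv.symm_apply_eq, iterateFrobeniusEquiv_def, pow_zero, pow_one]

/-- The twisted arcs. -/
noncomputable def FL2u (a : ρ → ℕ) (y : ρ → PowerSeries Ω) (m E : ℕ) : ρ → PowerSeries Ω :=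
  fun l => FL2x p (E - a l * m) (PowerSeries.map (FL2s p Ω (a l * m)) (y l))

omit [Finite ρ] in
theorem FL2u_arc (a : ρ → ℕ) {y : ρ → PowerSeries Ω} (hy : Arc y) (m E : ℕ) :
    Arc (FL2u p a y m E) := fun l => by
  rw [FL2u, FL2x_def, PowerSeries.constantCoeff_expand,
    ← PowerSeries.coeff_zero_eq_constantCoeff_apply,
    PowerSeries.coeff_map, PowerSeries.coeff_zero_eq_constantCoeff_apply, hy l, map_zero]

omit [Finite ρ] in
theorem FL2u_pow (a : ρ → ℕ) (y : ρ → PowerSeries Ω) {m n E : ℕ} {l : ρ}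
    (h : a l * (m + n) ≤ E) : FL2u p a y (m + n) E l ^ p ^ (a l * n) = FL2u p a y m E l := by
  rw [FL2u, FL2u, FL2_pow p, FL2x_add, FL2x_map,
    ← RingHom.comp_apply (PowerSeries.map _) (PowerSeries.map _), ← PowerSeries.map_comp, mul_add,
    FL2s_frob]
  rw [mul_add] at h
  congr 2
  omega

omit [Finite ρ] in
theorem FL2u_zero (a : ρ → ℕ) (y : ρ → PowerSeries Ω) (E : ℕ) (l : ρ) :
    FL2u p a y 0 E l = FL2x p E (y l) := by
  simp only [FL2u, mul_zero, Nat.sub_zero, FL2s_zero, PowerSeries.map_id, id]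

end series

section grp

variable {p : ℕ} [Fact p.Prime] {Ω T : Type u} [Field Ω] [CharP Ω p] [CommRing T] {τ : Type}
  [Finite τ] {G : FGL Ω τ} (d : DMD p G) (i : Ω →+* T)

/-- The arcs over `T` as points of `H`. -/
abbrev FL2G : Type u := (d.H.map i).Pts (PowerSeries.C : T →+* PowerSeries T) (mx T)

variable {d i}

theorem FL2_blk {x y x' y' : FL2G d i} {l : d.ρ} (hx : ∀ j, d.a j = d.a l → x.v j = x'.v j)
    (hy : ∀ j, d.a j = d.a l → y.v j = y'.v j) : (x + y).v l = (x' + y').v l := by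
  have t : TN (Sum.elim x.v y.v) := Adm.tn (𝔞 := mx T) (Sum.rec x.mem y.mem)
  have t' : TN (Sum.elim x'.v y'.v) := Adm.tn (𝔞 := mx T) (Sum.rec x'.mem y'.mem)
  rw [FGL.Pts.add_v, FGL.Pts.add_v, FGL.map_add_eq _ _ _ t, FGL.map_add_eq _ _ _ t']
  refine DM8_congr _ (DM8_supp p d l) _ t t' ?_
  rintro (j | j) hj
  exacts [hx j hj, hy j hj]

theorem FL2_dec {x x₁ x₂ : FL2G d i} (B : ℕ → Prop)
    (h₁ : ∀ l, B (d.a l) → x₁.v l = x.v l ∧ x₂.v l = 0)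
    (h₂ : ∀ l, ¬ B (d.a l) → x₁.v l = 0 ∧ x₂.v l = x.v l) : x₁ + x₂ = x := by
  refine FGL.Pts.ext (funext fun l => ?_)
  by_cases h : B (d.a l)
  · rw [FL2_blk (x' := x) (y' := 0) (fun j hj => (h₁ j (hj ▸ h)).1)
      (fun j hj => (h₁ j (hj ▸ h)).2), add_zero]
  · rw [FL2_blk (x' := 0) (y' := x) (fun j hj => (h₂ j (hj ▸ h)).1)
      (fun j hj => (h₂ j (hj ▸ h)).2), zero_add]

variable (d i)

/-- The projection on a block. -/
noncomputable def FL2prj (b : ℕ) : FL2G d i →+ FL2G d i :=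
  AddMonoidHom.mk' (fun x => ⟨fun l => if d.a l = b then x.v l else 0, fun l => by
      split_ifs
      exacts [x.mem l, Ideal.zero_mem _]⟩) fun x y => by
    refine FGL.Pts.ext (funext fun l => ?_)
    change (if d.a l = b then (x + y).v l else 0) = _
    split_ifs with h
    · exact FL2_blk (fun j hj => (if_pos (hj.trans h)).symm) fun j hj => (if_pos (hj.trans h)).symm
    · rw [FL2_blk (x' := 0) (y' := 0) (fun j hj => if_neg (hj ▸ h)) (fun j hj => if_neg (hj ▸ h)),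
        add_zero]
      rfl

theorem FL2prj_v (b : ℕ) (x : FL2G d i) (l : d.ρ) :
    (FL2prj d i b x).v l = if d.a l = b then x.v l else 0 := rfl

/-- The points with coordinates in an ideal. -/
def FL2K₀ (𝔠 : Ideal (PowerSeries T)) : AddSubgroup (FL2G d i) where
  carrier := {x | ∀ l, x.v l ∈ 𝔠}
  zero_mem' _ := 𝔠.zero_mem
  add_mem' {x y} hx hy l :=
    TN.ev_mem (Adm.tn (𝔞 := mx T) (Sum.rec x.mem y.mem)) _ ((d.H.map i).F0 l) (Sum.rec hx hy)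
  neg_mem' {x} hx l := x.tn.ev_mem _ ((d.H.map i).N0 l) hx

/-- The points whose coordinates in the block `b` lie in an ideal. -/
noncomputable def FL2K (b : ℕ) (𝔠 : Ideal (PowerSeries T)) : AddSubgroup (FL2G d i) :=
  (FL2K₀ d i 𝔠).comap (FL2prj d i b)

variable {d i}

theorem FL2K_mem {b : ℕ} {𝔠 : Ideal (PowerSeries T)} {x : FL2G d i} :
    x ∈ FL2K d i b 𝔠 ↔ ∀ l, d.a l = b → x.v l ∈ 𝔠 := by
  change (∀ l, (FL2prj d i b x).v l ∈ 𝔠) ↔ _
  refine forall_congr' fun l => ?_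
  rw [FL2prj_v]
  split_ifs with h <;> simp [h]

theorem FL2K_sub {b : ℕ} {𝔠 : Ideal (PowerSeries T)} {x y : FL2G d i} :
    x - y ∈ FL2K d i b 𝔠 ↔ ∀ l, d.a l = b → x.v l - y.v l ∈ 𝔠 := by
  change (∀ l, (FL2prj d i b (x - y)).v l ∈ 𝔠) ↔ _
  rw [map_sub, FGL.Pts.sub_mem_iff]
  refine forall_congr' fun l => ?_
  rw [FL2prj_v, FL2prj_v]
  split_ifs with h <;> simp [h]

theorem FL2K_mono {b : ℕ} {𝔠 𝔠' : Ideal (PowerSeries T)} (h : 𝔠 ≤ 𝔠') {x : FL2G d i}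
    (hx : x ∈ FL2K d i b 𝔠) : x ∈ FL2K d i b 𝔠' :=
  FL2K_mem.2 fun l hl => h (FL2K_mem.1 hx l hl)

variable (d i)

/-- The point defined by the blocks in `B` of an arc over `Ω`. -/
noncomputable def FL2pt (B : ℕ → Prop) [DecidablePred B] {z : d.ρ → PowerSeries Ω} (hz : Arc z) :
    FL2G d i :=
  ⟨fun l => if B (d.a l) then PowerSeries.map i (z l) else 0, fun l => by
    split_ifs
    exacts [FL2_mem_mx.2 (FL2_arc_map hz i l), Ideal.zero_mem _]⟩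

omit [Fact p.Prime] [CharP Ω p] in
theorem FL2pt_v (B : ℕ → Prop) [DecidablePred B] {z : d.ρ → PowerSeries Ω} (hz : Arc z)
    (l : d.ρ) : (FL2pt d i B hz).v l = if B (d.a l) then PowerSeries.map i (z l) else 0 := rfl

omit [Fact p.Prime] [CharP Ω p] in
/-- An endomorphism commutes with the diagonal power of Frobenius. -/
theorem FL2_comm {Λ : d.ρ → MvPowerSeries d.ρ T} (hΛ : IsHom (d.H.map i) (d.H.map i) Λ)
    {x : d.ρ → PowerSeries T} (hx : Arc x) (n : ℕ) (l : d.ρ) :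
    ev PowerSeries.C (fun j => x j ^ p ^ (d.a j * n)) (Λ l) =
      ev PowerSeries.C x (Λ l) ^ p ^ (d.a l * n) := by
  have t : TN x := TN.of_cc₁ hx
  have hm : ∀ j, (d.H.map i).mul (p ^ (d.R * n)) j = X j ^ p ^ (d.a j * n) := fun j => by
    rw [FGL.map_mul, DM7b.diag_pow d.mulH, map_pow, map_X]
  have h := congrArg (fun f => ev PowerSeries.C x (f l)) (hΛ.cmp_mul (p ^ (d.R * n)))
  rw [ev_cmp ((d.H.map i).mul0 _) _ t, ev_cmp hΛ.cc _ t, hm, map_pow,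
    (FG3_tn hΛ.cc _ t).ev_X] at h
  simp only [hm, map_pow, t.ev_X] at h
  exact h

/-- The value of the endomorphism when the higher blocks vanish. -/
theorem FL2_top [Nontrivial T] (res : T →+* Ω) (hi : ∀ z, res (i z) = z)
    (hn : ∀ z, res z = 0 → IsNilpotent z) {Λ : d.ρ → MvPowerSeries d.ρ T}
    (hΛ : IsHom (d.H.map i) (d.H.map i) Λ) {q : ℕ} {l : d.ρ} (h2 : map res (Λ l) = X l ^ q)
    {x : d.ρ → PowerSeries T} (hx : Arc x) (h : ∀ j, d.a l < d.a j → x j = 0) :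
    ev PowerSeries.C x (Λ l) = x l ^ q := by
  classical
  have t : TN x := TN.of_cc₁ hx
  have hg : Λ l - X l ^ q ∈ Ideal.span (Set.range fun j : {j // d.a l < d.a j} =>
      (X j.1 : MvPowerSeries d.ρ T)) := by
    refine Ev2_mem_span (fun j : {j // d.a l < d.a j} => j.1) fun α hα => ?_
    have hb := hom_blocks p i res hi hn (DMD.a_pos p d) d.mulH hΛ l α
    rw [map_sub, sub_eq_zero]
    by_cases hc : ∀ j, α j ≠ 0 → d.a j = d.a l
    · rw [hb.2 hc, ← coeff_map, h2, ← coeff_map, map_pow, map_X]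
    · push Not at hc
      obtain ⟨j, hj, hj'⟩ := hc
      have hlt : d.a j < d.a l :=
        lt_of_le_of_ne (not_lt.1 fun hlt => hj (hα ⟨j, hlt⟩)) hj'
      rw [hb.1 j hj hlt, coeff_X_pow, if_neg]
      rintro rfl
      rw [Finsupp.single_apply, if_neg (fun e : l = j => hj' (by rw [e]))] at hj
      exact hj rfl
  have h0 : ev PowerSeries.C x (Λ l - X l ^ q) = 0 := by
    refine (Ideal.span_le (I := RingHom.ker (ev PowerSeries.C x))).2 ?_ hg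
    rintro _ ⟨j, rfl⟩
    exact (t.ev_X _ _).trans (h j.1 j.2)
  rwa [map_sub, map_pow, t.ev_X, sub_eq_zero] at h0

variable [PerfectRing Ω p]

/-- Peeling off the blocks from the top. -/
theorem FL2_core {Λ : d.ρ → MvPowerSeries d.ρ T} (hΛ : IsHom (d.H.map i) (d.H.map i) Λ)
    {y : d.ρ → PowerSeries Ω} (hy : Arc y) {A : ℕ} (hA : ∀ l, d.a l ≤ A) {e s : ℕ}
    (hS : ∀ m, s ≤ m → ∃ E, A * m ≤ E ∧ ∀ l, ev PowerSeries.C
      (fun j => PowerSeries.map i (FL2u p d.a y m E j)) (Λ l) ∈ mx T ^ p ^ (E - (d.a l * m + e)))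
    (b t : ℕ) : ∀ a, a + t = A + 1 → b < a → ∀ m E, A * m ≤ E →
      hΛ.act _ _ (FL2pt d i (fun _ => True) (FL2u_arc p d.a hy m E)) -
        hΛ.act _ _ (FL2pt d i (· < a) (FL2u_arc p d.a hy m E)) ∈ FL2K d i b ⊥ := by
  induction t with
  | zero =>
    intro a ha _ m E _
    have : FL2pt d i (fun _ => True) (FL2u_arc p d.a hy m E) =
        FL2pt d i (· < a) (FL2u_arc p d.a hy m E) := by
      refine FGL.Pts.ext (funext fun l => ?_)
      have := hA l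
      rw [FL2pt_v, FL2pt_v, if_pos trivial, if_pos (by omega)]
    rw [this, sub_self]
    exact zero_mem _
  | succ t ih =>
    intro a ha hb
    have ih' := ih (a + 1) (by omega) (by omega)
    have haA : a ≤ A := by omega
    have dec : ∀ m E, FL2pt d i (· = a) (FL2u_arc p d.a hy m E) +
        FL2pt d i (· < a) (FL2u_arc p d.a hy m E) =
        FL2pt d i (· < a + 1) (FL2u_arc p d.a hy m E) := fun m E =>
      FL2_dec (· = a)
        (fun l h => by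
          rw [FL2pt_v, FL2pt_v, FL2pt_v, if_pos h, if_pos (by omega), if_neg (by omega)]
          exact ⟨rfl, rfl⟩)
        (fun l h => by
          rw [FL2pt_v, FL2pt_v, FL2pt_v, if_neg h]
          refine ⟨rfl, if_congr ?_ rfl rfl⟩
          omega)
    obtain ⟨y', hy'd⟩ : ∃ y' : d.ρ → PowerSeries Ω, y' = fun j => if d.a j = a then y j else 0 :=
      ⟨_, rfl⟩
    have hy' : Arc y' := fun j => by
      rw [hy'd]
      dsimp only
      split_ifs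
      exacts [hy j, map_zero _]
    have hv : ∀ m E l, (hΛ.act _ _ (FL2pt d i (· = a) (FL2u_arc p d.a hy m E))).v l =
        FL2x p (E - a * m) (ev PowerSeries.C
          (fun j => PowerSeries.map (i.comp (FL2s p Ω (a * m))) (y' j)) (Λ l)) := fun m E l => by
      rw [IsHom.act_v, FL2x_ev' p _ (FL2_arc_map hy' _)]
      congr 2
      funext j
      rw [FL2pt_v, hy'd]
      dsimp only
      split_ifs with h
      · rw [FL2u, h, FL2x_map, PowerSeries.map_comp, RingHom.comp_apply]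
      · rw [map_zero, map_zero]
    have small : ∀ M m, s ≤ m → M + e ≤ m → ∀ l, d.a l = b → ev PowerSeries.C
        (fun j => PowerSeries.map (i.comp (FL2s p Ω (a * m))) (y' j)) (Λ l) ∈ mx T ^ M := by
      intro M m hs hM l hl
      obtain ⟨E, hE, hS'⟩ := hS m hs
      have ham : a * m ≤ A * m := Nat.mul_le_mul_right m haA
      have hbm : b * m + m ≤ a * m := by
        rw [← Nat.succ_mul]
        exact Nat.mul_le_mul_right m hb
      have hp : ∀ {r}, E - a * m + M ≤ r → mx T ^ p ^ r ≤ mx T ^ (p ^ (E - a * m) * M) := by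
        intro r hr
        refine Ideal.pow_le_pow_right ?_
        calc p ^ (E - a * m) * M ≤ p ^ (E - a * m) * p ^ M :=
              Nat.mul_le_mul_left _ (Nat.lt_pow_self (Fact.out : p.Prime).one_lt).le
          _ = p ^ (E - a * m + M) := (pow_add _ _ _).symm
          _ ≤ p ^ r := Nat.pow_le_pow_right (Fact.out : p.Prime).pos hr
      refine FL2x_of_mem p (t := E - a * m) ?_
      rw [← hv m E l]
      refine FL2K_mem.1 ?_ l hl
      have e1 : hΛ.act _ _ (FL2pt d i (· = a) (FL2u_arc p d.a hy m E)) =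
          hΛ.act _ _ (FL2pt d i (fun _ => True) (FL2u_arc p d.a hy m E)) -
          (hΛ.act _ _ (FL2pt d i (fun _ => True) (FL2u_arc p d.a hy m E)) -
            hΛ.act _ _ (FL2pt d i (· < a + 1) (FL2u_arc p d.a hy m E))) -
          hΛ.act _ _ (FL2pt d i (· < a) (FL2u_arc p d.a hy m E)) := by
        rw [← dec, map_add]
        abel
      rw [e1]
      refine sub_mem (sub_mem (FL2K_mem.2 fun l' hl' => hp ?_ (hS' l'))
        (FL2K_mono bot_le (ih' m E hE))) (FL2K_mem.2 fun l' _ => ?_)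
      · rw [hl']
        omega
      · refine (FL2pt d i (· < a) (FL2u_arc p d.a hy m E)).tn.ev_mem _ (hΛ.cc l') fun j => ?_
        rw [FL2pt_v]
        split_ifs with h
        · rw [FL2u, FL2x_map]
          refine hp ?_ (FL2x_mem p _ (FL2_arc_map (FL2_arc_map hy _) i j))
          have : d.a j * m + m ≤ a * m := by
            rw [← Nat.succ_mul]
            exact Nat.mul_le_mul_right m h
          omega
        · exact zero_mem _
    have zero : ∀ m l, d.a l = b → ev PowerSeries.C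
        (fun j => PowerSeries.map (i.comp (FL2s p Ω (a * m))) (y' j)) (Λ l) = 0 := by
      intro m l hl
      have := ev_eq_zero_of_twist p i (Λ l) (FL2_arc_map hy' (FL2s p Ω (a * m))) a fun M =>
        ⟨s + M + e, fun n hn => by
          have := small M (m + n) (by omega) (by omega) l hl
          rw [mul_add, ← FL2s_add, ← RingHom.comp_assoc, PowerSeries.map_comp] at this
          exact this⟩
      rw [PowerSeries.map_comp]
      exact this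
    intro m E hE
    have e2 : hΛ.act _ _ (FL2pt d i (fun _ => True) (FL2u_arc p d.a hy m E)) -
        hΛ.act _ _ (FL2pt d i (· < a) (FL2u_arc p d.a hy m E)) =
        (hΛ.act _ _ (FL2pt d i (fun _ => True) (FL2u_arc p d.a hy m E)) -
          hΛ.act _ _ (FL2pt d i (· < a + 1) (FL2u_arc p d.a hy m E))) +
        hΛ.act _ _ (FL2pt d i (· = a) (FL2u_arc p d.a hy m E)) := by
      rw [← dec, map_add]
      abel
    rw [e2]
    refine add_mem (ih' m E hE) (FL2K_mem.2 fun l hl => ?_)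
    rw [hv, zero m l hl, map_zero]
    exact zero_mem _

/-- On the twisted arcs the endomorphism acts as a diagonal power of Frobenius. -/
theorem FL2_core' [Nontrivial T] (res : T →+* Ω) (hi : ∀ z, res (i z) = z)
    (hn : ∀ z, res z = 0 → IsNilpotent z) {Λ : d.ρ → MvPowerSeries d.ρ T}
    (hΛ : IsHom (d.H.map i) (d.H.map i) Λ) {q : d.ρ → ℕ} (h2 : ∀ l, map res (Λ l) = X l ^ q l)
    {y : d.ρ → PowerSeries Ω} (hy : Arc y) {A : ℕ} (hA : ∀ l, d.a l ≤ A) {e s : ℕ}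
    (hS : ∀ m, s ≤ m → ∃ E, A * m ≤ E ∧ ∀ l, ev PowerSeries.C
      (fun j => PowerSeries.map i (FL2u p d.a y m E j)) (Λ l) ∈ mx T ^ p ^ (E - (d.a l * m + e)))
    {m E : ℕ} (hE : A * m ≤ E) (l : d.ρ) :
    ev PowerSeries.C (fun j => PowerSeries.map i (FL2u p d.a y m E j)) (Λ l) =
      PowerSeries.map i (FL2u p d.a y m E l) ^ q l := by
  have h := FL2K_sub.1 (FL2_core d i hΛ hy hA hS (d.a l) (A - d.a l) (d.a l + 1)
    (by have := hA l; omega) (Nat.lt_succ_self _) m E hE) l rfl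
  rw [Ideal.mem_bot, sub_eq_zero, IsHom.act_v, IsHom.act_v,
    FL2_top d i res hi hn hΛ (h2 l)
      (x := (FL2pt d i (· < d.a l + 1) (FL2u_arc p d.a hy m E)).v)
      (fun j => FL2_mem_mx.1 ((FL2pt d i (· < d.a l + 1) (FL2u_arc p d.a hy m E)).mem j))
      (fun j hj => if_neg (by omega)), FL2pt_v, if_pos (Nat.lt_succ_self _)] at h
  exact h

end grp

end MLF
end

-- merged part: Pool.Agent.Work.MP_29d410_ag.FL2
section
/-!
# The first leaf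

Write `T k = O / ε ^ P k`, `σ` for the Frobenius of `Ω`, `π b` for the projection on the block
`{l | a l = b}` (`DMD.proj`), and work in the groups `H.Pts` over `(T k)⟦δ⟧` with coordinates in
`(δ)`; the points with coordinates in an ideal form a subgroup (`FGL.Pts.sub_mem_iff`).
Plan.  Let `a*` be minimal such that a nonzero arc supported on `{a l ≤ a*}` kills `I`;
`I' = I ∪ {Z l | a* < a l}`.  By `curve_sel` and minimality there is `N = p ^ e` with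
`Z l ^ N ∈ span (I ∪ {Z j | a* ≤ a j})` for all `l`.  Let `y` be an arc killing `I'`.  For a large
power `Q` of `p` put `z k l = (σ ^ (-a l * (k + c)) y l) (δ ^ (Q / p ^ (a l * (k + c))))`, so that
`[p ^ (R (k + c))] (z k) = y (δ ^ Q)`, which kills `I`, and `[p ^ R] (z (k+1)) = z k`.
By `hom_blocks`, `φ k b a z := π b (Λ k (π a z))` vanishes for `a < b` and is `π a [p ^ (R (k+c))] z`
for `a = b`.  Claim: `φ k b a (z k) = 0` for `b < a`.  Then `Λ k (z k) = y (δ ^ Q)`, so by `h4`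
`ev (C ∘ D) (y (δ ^ Q)) h` vanishes modulo `ε ^ P k` for all `k`; conclude by `IsHausdorff` and
injectivity of `δ ↦ δ ^ Q`.
Proof of the claim, fixed `b`, downward induction on `a ≤ a*`.  (R1) `φ (k+1) z ≡ φ k ([p ^ R] z)`
modulo `ε ^ P k` (`h3`); (R2) `φ k b a ([p ^ (R n)] z)` is the `p ^ (b n)`-th power, coordinatewise,
of `φ k b a z`.  (R3) in the perfect domain `O`, `c ^ p ^ m ∈ (ε ^ (p ^ m * P))` implies `c ∈ (ε ^ P)`.
For `w = Λ k (z k)`: `w l = 0` if `a* < a l`, `w l ∈ (δ ^ Q)` if `a l = a*`; by `h4`,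
`w l ^ N ∈ (δ ^ Q)`.  So `∑ (b < a), φ k b a (z k)` vanishes modulo `(δ ^ (Q / N), ε ^ (P k / N))`.
It is the `p ^ (b n)`-th power of `∑ φ k b a (z (k + n))`; by (R3) and (R1), for `k` large,
`∑ (b < a), φ k₀ b a (z (k₀ + n))` vanishes modulo `δ ^ (Q / (N p ^ (b n)))` over `T k₀`.  The terms
with `a > a₁` vanish (induction, (R2), (R3), (R1)), those with `a < a₁` have order at least
`Q / p ^ ((a₁ - 1) (k₀ + n + c))`.  Undo the substitution `δ ^ (Q / p ^ (a₁ (k₀ + n + c)))` and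
apply `ev_eq_zero_of_twist` to `σ ^ (-a₁ (k₀ + c)) (π a₁ y)`.
-/

open MvPowerSeries

namespace MLF

universe u

theorem FL2_down {O : Type u} [CommRing O] {ε : O} {P P' : ℕ} (h : P' ≤ P) {f g : PowerSeries O}
    (e : PowerSeries.map (Ideal.Quotient.mk (Ideal.span {ε ^ P})) f =
      PowerSeries.map (Ideal.Quotient.mk (Ideal.span {ε ^ P})) g) :
    PowerSeries.map (Ideal.Quotient.mk (Ideal.span {ε ^ P'})) f =
      PowerSeries.map (Ideal.Quotient.mk (Ideal.span {ε ^ P'})) g := by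
  ext n
  have := congrArg (PowerSeries.coeff n) e
  rw [PowerSeries.coeff_map, PowerSeries.coeff_map, Ideal.Quotient.eq,
    Ideal.mem_span_singleton] at this ⊢
  exact (pow_dvd_pow ε h).trans this

/-- The lowest level carrying a nonzero arc. -/
theorem FL2_level (p : ℕ) [Fact p.Prime] {Ω : Type u} [Field Ω] [IsAlgClosed Ω] {ρ : Type}
    [Finite ρ] (a : ρ → ℕ) (I : Set (MvPowerSeries ρ Ω)) (h5 : ∃ y, Arc y ∧ Kills I y ∧ y ≠ 0) :
    ∃ A e : ℕ, (∃ y, Arc y ∧ Kills I y ∧ y ≠ 0 ∧ ∀ l, A < a l → y l = 0) ∧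
      ∀ l, X l ^ p ^ e ∈ Ideal.span (I ∪ {g | ∃ j, A ≤ a j ∧ g = X j}) := by
  classical
  have hex : ∃ A : ℕ, ∃ y, Arc y ∧ Kills I y ∧ y ≠ 0 ∧ ∀ l, A < a l → y l = 0 := by
    obtain ⟨y, h1, h2, h3⟩ := h5
    obtain ⟨A, hA⟩ := (Set.finite_range a).bddAbove
    exact ⟨A, y, h1, h2, h3, fun l hl => absurd (hA ⟨l, rfl⟩) (not_le.2 hl)⟩
  have hrad : ∀ l, X l ∈ (Ideal.span (I ∪ {g | ∃ j, Nat.find hex ≤ a j ∧ g = X j})).radical := by
    intro l
    by_contra hc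
    obtain ⟨y, h1, h2, h3⟩ := curve_sel _ (constantCoeff_X l) hc
    have t : TN y := TN.of_cc₁ h1
    rw [t.ev_X] at h3
    have h4 : ∀ j, Nat.find hex ≤ a j → y j = 0 := fun j hj => by
      rw [← t.ev_X PowerSeries.C j]
      exact h2 _ (Ideal.subset_span (Or.inr ⟨j, hj, rfl⟩))
    have h0 : 0 < Nat.find hex := Nat.pos_of_ne_zero fun h0 => h3 (h4 l (by omega))
    exact Nat.find_min hex (Nat.sub_one_lt h0.ne') ⟨y, h1,
      fun h hh => h2 h (Ideal.subset_span (Or.inl hh)), fun e => h3 (congrFun e l),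
      fun j hj => h4 j (by omega)⟩
  choose n hn using hrad
  obtain ⟨e, he⟩ := (Set.finite_range n).bddAbove
  refine ⟨Nat.find hex, e, Nat.find_spec hex, fun l => Ideal.pow_mem_of_pow_mem _ (hn l) ?_⟩
  exact (he ⟨l, rfl⟩).trans (Nat.lt_pow_self (Fact.out : p.Prime).one_lt).le

theorem flc1 (p : ℕ) [Fact p.Prime] {Ω O : Type u} [Field Ω] [IsAlgClosed Ω] [CharP Ω p]
    [CommRing O] [IsDomain O] [CharP O p] [PerfectRing O p] (i D : Ω →+* O) (res : O →+* Ω)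
    (hi : ∀ z, res (i z) = z) {ε : O} (hε : res ε = 0)
    (hn : ∀ z, res z = 0 → ∃ n, z ^ n ∈ Ideal.span {ε}) [IsHausdorff (Ideal.span {ε}) O]
    {τ : Type} [Finite τ] {G : FGL Ω τ} (d : DMD p G) (P : ℕ → ℕ) (hP : StrictMono P)
    (hP0 : 0 < P 0) (Λ : ℕ → d.ρ → MvPowerSeries d.ρ O)
    (h0 : ∀ k l, constantCoeff (Λ k l) = 0)
    (h1 : ∀ k, IsHom (d.H.map ((Ideal.Quotient.mk (Ideal.span {ε ^ P k})).comp i))
      (d.H.map ((Ideal.Quotient.mk (Ideal.span {ε ^ P k})).comp i))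
      fun l => map (Ideal.Quotient.mk (Ideal.span {ε ^ P k})) (Λ k l))
    (h2 : ∀ k l, map res (Λ k l) = X l ^ p ^ (d.a l * (k + d.c)))
    (h3 : ∀ k l, map (Ideal.Quotient.mk (Ideal.span {ε ^ P k})) (Λ (k + 1) l) =
      map (Ideal.Quotient.mk (Ideal.span {ε ^ P k})) (cmp (Λ k) (fun j => X j ^ p ^ d.a j) l))
    (I : Set (MvPowerSeries d.ρ Ω))
    (h4 : ∀ k z, Arc z → Kills I (fun l => z l ^ p ^ (d.a l * (k + d.c))) → ∀ h ∈ I,
      ev (PowerSeries.C.comp ((Ideal.Quotient.mk (Ideal.span {ε ^ P k})).comp D))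
        (fun l => ev (PowerSeries.C.comp (Ideal.Quotient.mk (Ideal.span {ε ^ P k})))
          (fun j => PowerSeries.map ((Ideal.Quotient.mk (Ideal.span {ε ^ P k})).comp i) (z j))
          (Λ k l)) h = 0)
    (h5 : ∃ y, Arc y ∧ Kills I y ∧ y ≠ 0) :
    ∃ I' : Set (MvPowerSeries d.ρ Ω), I ⊆ I' ∧ (∃ y, Arc y ∧ Kills I' y ∧ y ≠ 0) ∧
      ∀ y, Arc y → Kills I' y → ∀ g ∈ I',
        ev (PowerSeries.C.comp D) (fun l => PowerSeries.map i (y l)) g = 0 := by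
  obtain ⟨A, e, ⟨y₀, hy₀, hk₀, hne₀, hz₀⟩, hN⟩ := FL2_level p d.a I h5
  refine ⟨I ∪ {g | ∃ l, A < d.a l ∧ g = X l}, Set.subset_union_left, ⟨y₀, hy₀, ?_, hne₀⟩, ?_⟩
  · rintro g (hg | ⟨l, hl, rfl⟩)
    exacts [hk₀ g hg, ((TN.of_cc₁ hy₀).ev_X _ l).trans (hz₀ l hl)]
  intro y hy hk
  have hz : ∀ l, A < d.a l → y l = 0 := fun l hl =>
    ((TN.of_cc₁ hy).ev_X PowerSeries.C l).symm.trans (hk _ (Or.inr ⟨l, hl, rfl⟩))
  suffices H : ∀ g ∈ I, ev (PowerSeries.C.comp D) (fun l => PowerSeries.map i (y l)) g = 0 by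
    rintro g (hg | ⟨l, hl, rfl⟩)
    · exact H g hg
    · rw [(TN.of_cc₁ (FL2_arc_map hy i)).ev_X, hz l hl, map_zero]
  obtain ⟨B, hB'⟩ := (Set.finite_range d.a).bddAbove
  have hB : ∀ l, d.a l ≤ B := fun l => hB' ⟨l, rfl⟩
  have hPk : ∀ k, P k ≠ 0 := fun k => (hP0.trans_le (hP.monotone (Nat.zero_le k))).ne'
  -- the residue maps of the quotient rings
  obtain ⟨r, hr⟩ : ∃ r : ∀ k, O ⧸ Ideal.span {ε ^ P k} →+* Ω,
      ∀ k z, r k (Ideal.Quotient.mk _ z) = res z :=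
    ⟨fun k => Ideal.Quotient.lift _ res fun z hz => by
      obtain ⟨c, rfl⟩ := Ideal.mem_span_singleton.1 hz
      rw [map_mul, map_pow, hε, zero_pow (hPk k), zero_mul], fun k z => rfl⟩
  have hnt : ∀ k, Nontrivial (O ⧸ Ideal.span {ε ^ P k}) := fun k => (r k).domain_nontrivial
  have hri : ∀ k z, r k (((Ideal.Quotient.mk (Ideal.span {ε ^ P k})).comp i) z) = z :=
    fun k z => (hr k _).trans (hi z)
  have hrn : ∀ k z, r k z = 0 → IsNilpotent z := fun k z hz => by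
    obtain ⟨z, rfl⟩ := Ideal.Quotient.mk_surjective z
    obtain ⟨n, hn'⟩ := hn z ((hr k z).symm.trans hz)
    refine ⟨n * P k, ?_⟩
    rw [← map_pow, Ideal.Quotient.eq_zero_iff_mem, Ideal.mem_span_singleton, pow_mul]
    exact pow_dvd_pow_of_dvd (Ideal.mem_span_singleton.1 hn') _
  have hr2 : ∀ k l, map (r k) (map (Ideal.Quotient.mk (Ideal.span {ε ^ P k})) (Λ k l)) =
      X l ^ p ^ (d.a l * (k + d.c)) := fun k l => by
    rw [← h2 k l]
    ext α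
    rw [coeff_map, coeff_map, coeff_map, hr]
  -- the values over `O` and over the quotients
  obtain ⟨V, hV⟩ : ∃ V : ℕ → ℕ → ℕ → d.ρ → PowerSeries O, ∀ k m E l, V k m E l =
      ev PowerSeries.C (fun j => PowerSeries.map i (FL2u p d.a y m E j)) (Λ k l) :=
    ⟨_, fun _ _ _ _ => rfl⟩
  have hua : ∀ m E, Arc (FL2u p d.a y m E) := FL2u_arc p d.a hy
  have hW : ∀ Q k m E l, PowerSeries.map (Ideal.Quotient.mk (Ideal.span {ε ^ Q})) (V k m E l) =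
      ev PowerSeries.C (fun j => PowerSeries.map
        ((Ideal.Quotient.mk (Ideal.span {ε ^ Q})).comp i) (FL2u p d.a y m E j))
        (map (Ideal.Quotient.mk (Ideal.span {ε ^ Q})) (Λ k l)) := fun Q k m E l => by
    rw [hV, FL2_map_ev' _ (FL2_arc_map (hua m E) i), PowerSeries.map_comp]
    rfl
  have hpow : ∀ m E, B * m ≤ E → ∀ l, FL2u p d.a y m E l ^ p ^ (d.a l * m) = FL2x p E (y l) :=
    fun m E hE l => by
      have := FL2u_pow p d.a y (m := 0) (n := m) (E := E) (l := l)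
        (by rw [zero_add]; exact (Nat.mul_le_mul_right m (hB l)).trans hE)
      rwa [zero_add, FL2u_zero] at this
  have hVa : ∀ Q k m E, Arc fun l =>
      PowerSeries.map (Ideal.Quotient.mk (Ideal.span {ε ^ Q})) (V k m E l) := fun Q k m E =>
    FL2_arc_map (fun l => FL2_mem_mx.1 (by
      rw [hV]
      exact (TN.of_cc₁ (FL2_arc_map (hua m E) i)).ev_mem _ (h0 k l)
        fun j => FL2_mem_mx.2 (FL2_arc_map (hua m E) i j))) _
  have h4' : ∀ k E, B * (k + d.c) ≤ E → ∀ h ∈ I,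
      ev (PowerSeries.C.comp ((Ideal.Quotient.mk (Ideal.span {ε ^ P k})).comp D))
        (fun l => PowerSeries.map (Ideal.Quotient.mk (Ideal.span {ε ^ P k}))
          (V k (k + d.c) E l)) h = 0 := fun k E hE h hh => by
    have := h4 k _ (hua (k + d.c) E) (fun g hg => by
      simp only [hpow _ _ hE]
      rw [← FL2x_ev' p E hy, hk g (Or.inl hg), map_zero]) h hh
    simp only [hW, (TN.of_cc₁ (FL2_arc_map (hua (k + d.c) E) _)).ev_map]
    exact this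
  have hw : ∀ k E, B * (k + d.c) ≤ E → ∀ l,
      PowerSeries.map (Ideal.Quotient.mk (Ideal.span {ε ^ P k})) (V k (k + d.c) E l) ^ p ^ e ∈
        mx _ ^ p ^ E := fun k E hE l => by
    have t := TN.of_cc₁ (hVa (P k) k (k + d.c) E)
    have hle : Ideal.span (I ∪ {g | ∃ j, A ≤ d.a j ∧ g = X j}) ≤ (mx _ ^ p ^ E).comap
        (ev (PowerSeries.C.comp ((Ideal.Quotient.mk (Ideal.span {ε ^ P k})).comp D))
          (fun l => PowerSeries.map (Ideal.Quotient.mk (Ideal.span {ε ^ P k}))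
            (V k (k + d.c) E l))) := by
      refine Ideal.span_le.2 ?_
      rintro g (hg | ⟨j, hj, rfl⟩)
      · rw [SetLike.mem_coe, Ideal.mem_comap, h4' k E hE g hg]
        exact zero_mem _
      · have := hnt k
        rw [SetLike.mem_coe, Ideal.mem_comap, t.ev_X, hW, FL2_top d _ (r k) (hri k) (hrn k) (h1 k) (hr2 k j)
          (FL2_arc_map (hua _ E) _) (fun j' hj' => by
            rw [FL2u, hz j' (by omega), map_zero, map_zero, map_zero]),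
          ← map_pow, hpow _ _ hE, FL2x_map]
        exact FL2x_mem p E (FL2_arc_map hy _ j)
    have := hle (hN l)
    rwa [Ideal.mem_comap, map_pow, t.ev_X] at this
  have R1 : ∀ k m E, B * (m + 1) ≤ E → ∀ l,
      PowerSeries.map (Ideal.Quotient.mk (Ideal.span {ε ^ P k})) (V (k + 1) (m + 1) E l) =
      PowerSeries.map (Ideal.Quotient.mk (Ideal.span {ε ^ P k})) (V k m E l) :=
    fun k m E hE l => by
      have t := TN.of_cc₁ (FL2_arc_map (hua (m + 1) E) i)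
      rw [hV, FL2_map_ev' _ (FL2_arc_map (hua (m + 1) E) i), h3,
        ← FL2_map_ev' _ (FL2_arc_map (hua (m + 1) E) i), ev_cmp (fun j => by
        rw [map_pow, constantCoeff_X, zero_pow (FL2_ne p _)]) _ t, hV]
      congr 3
      funext j
      have := FL2u_pow p d.a y (m := m) (n := 1) (E := E) (l := j)
        ((Nat.mul_le_mul_right _ (hB j)).trans hE)
      rw [map_pow, t.ev_X, ← map_pow, ← this, mul_one]
  have R1' : ∀ k m j E, B * (m + j) ≤ E → ∀ l,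
      PowerSeries.map (Ideal.Quotient.mk (Ideal.span {ε ^ P k})) (V (k + j) (m + j) E l) =
      PowerSeries.map (Ideal.Quotient.mk (Ideal.span {ε ^ P k})) (V k m E l) := by
    intro k m j E
    induction j with
    | zero => exact fun _ _ => rfl
    | succ j ih =>
      intro hE l
      rw [← ih ((Nat.mul_le_mul_left B (by omega)).trans hE) l]
      exact FL2_down (hP.monotone (Nat.le_add_right k j)) (R1 (k + j) (m + j) E hE l)
  have R2 : ∀ k m n E, B * (m + n) ≤ E → ∀ l,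
      PowerSeries.map (Ideal.Quotient.mk (Ideal.span {ε ^ P k})) (V k (m + n) E l) ^
        p ^ (d.a l * n) =
      PowerSeries.map (Ideal.Quotient.mk (Ideal.span {ε ^ P k})) (V k m E l) :=
    fun k m n E hE l => by
      rw [hW, hW, ← FL2_comm d _ (h1 k) (FL2_arc_map (hua (m + n) E) _) n l]
      congr 2
      funext j
      rw [← map_pow, FL2u_pow p d.a y ((Nat.mul_le_mul_right _ (hB j)).trans hE)]
  have hS : ∀ k m, k + d.c ≤ m → ∃ E, B * m ≤ E ∧ ∀ l,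
      PowerSeries.map (Ideal.Quotient.mk (Ideal.span {ε ^ P k})) (V k m E l) ∈
        mx _ ^ p ^ (E - (d.a l * m + e)) := by
    intro k m hm
    obtain ⟨n, rfl⟩ := Nat.exists_eq_add_of_le hm
    obtain ⟨j, hj⟩ : ∃ j, j = p ^ (B * n + e) * P k := ⟨_, rfl⟩
    have hp : 0 < p := (Fact.out : p.Prime).pos
    refine ⟨B * (k + d.c + n + j) + e,
      (Nat.mul_le_mul_left B (by omega)).trans (Nat.le_add_right _ _), fun l => ?_⟩
    have e1 : k + d.c + n + j = k + j + d.c + n := by omega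
    have b1 : d.a l * n ≤ B * n := Nat.mul_le_mul_right n (hB l)
    have b2 : B * n ≤ B * (k + d.c + n + j) := Nat.mul_le_mul_left B (by omega)
    have b3 : d.a l * n ≤ d.a l * (k + d.c + n) := Nat.mul_le_mul_left _ (by omega)
    rw [← R1' k _ j _ (Nat.le_add_right _ _) l]
    refine FL2_root p (s := d.a l * n + e) (P := P (k + j))
      (Q := p ^ (B * (k + d.c + n + j) + e)) ?_ ?_ ?_
    · calc p ^ (d.a l * n + e) * P k ≤ j := by
            rw [hj]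
            exact Nat.mul_le_mul_right _ (Nat.pow_le_pow_right hp (by omega))
        _ ≤ k + j := Nat.le_add_left _ _
        _ ≤ P (k + j) := hP.id_le _
    · rw [← pow_add]
      exact Nat.pow_le_pow_right hp (by omega)
    · rw [map_pow, pow_add p (d.a l * n), pow_mul, e1, R2 _ _ _ _ (Nat.le_add_right _ _)]
      exact hw _ _ ((Nat.mul_le_mul_left B (by omega)).trans (Nat.le_add_right _ _)) l
  intro g hg
  ext n
  rw [map_zero]
  refine IsHausdorff.haus' (I := Ideal.span {ε}) _ fun k => ?_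
  have := hnt k
  have hc := fun l => FL2_core' d _ (r k) (hri k) (hrn k) (h1 k) (hr2 k) hy hB (e := e)
    (s := k + d.c) (fun m hm => by simpa only [hW] using hS k m hm) (le_refl (B * (k + d.c))) l
  have h6 := h4' k _ le_rfl g hg
  simp only [hW, hc, ← map_pow, hpow _ _ le_rfl, FL2x_map] at h6
  rw [← FL2x_ev p _ _ (FL2_arc_map hy _), PowerSeries.map_comp] at h6
  have h7 := FL2x_inj p h6
  erw [← FL2_map_ev _ D (FL2_arc_map hy i)] at h7
  have h8 := congrArg (PowerSeries.coeff n) h7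
  rw [PowerSeries.coeff_map, map_zero, Ideal.Quotient.eq_zero_iff_mem,
    Ideal.mem_span_singleton] at h8
  rw [SModEq.zero, smul_eq_mul, Ideal.mul_top, Ideal.span_singleton_pow, Ideal.mem_span_singleton]
  exact (pow_dvd_pow ε (hP.id_le k)).trans h8

end MLF
end

-- merged part: Pool.Agent.Work.MP_29d410_ag.FL4
section
/-!
# The first leaf lemma

Plan.  Passing to a level `m` (`Mor.lev`, `cst_lev`, `Good.lev_iff`, `exists_def`, `exists_root`)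
assume that `s` comes from `sL` over `𝒮.M` and that the `γ`, `y` are rational over `𝒮.M`, `𝒯.M`.
`O = Perf p Ω`, `ε = eP 0`, `i = iP`, `D = DO`, `f = j ∘ i : K → Ω`, `d' = d.map f` (`fgl_push`).
Let `x̂ = x + û` over `Ω⟦Z⟧`, `Z` indexed by `d.ρ`, `c û = e (Z)` (`exists_c`), `v̂` a coordinate
vector, `I = {g (v̂)}` for the forms `g ∈ idl X'` with coefficients in `𝒮'.M`.  An arc `y` kills `I`
iff `x + ω ∈ ext X'` where `ω`, the image of `û` under `ev C y`, has `c ω = e (y)` (a power of any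
form has its coefficients in `𝒮'.M`).  `h5`: `exists_arc` for `Y = ext X'` over `Ω` (infinite, as
`x` is not rational over `K'`), `arc_lift`.
`G₁ = (fgl s).map (iP ∘ f)`, `G₂ = (fgl s).map (DO ∘ f)` agree modulo `ε` (they come from `fgl sL`);
the coefficients of `H` lie in a finite field (`coeff_fix`), so are constants.  Put
`P k = p ^ (R k)`, `Λ k = cmp (e' ^ D) (cmp (G₂.mul (P k)) (e))`; `h1` by `isHom_cmp_mul`, `h2` by
`e'e`, `h3` by `cmp_mul_congr`.  `h4`: let `T = (O / ε ^ P k)⟦δ⟧`, `Ψ` the evaluation in `h4`, `n = R (k + c)`;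
`Ψ x̂ = D x + Ψ û` and `c (Ψ û) = e ^ D (Λ k z) = G₂.mul (p ^ n) (e z)` (`ee'`).  Let `ζ` over `Ω⟦δ⟧` have
`c ζ = e z`, and `ζ'` over `Ω⟦δ⟧⟦ε⟧`, for the structure `t` of `fl_star`, have `c ζ' = C (e z)`
(`complete_comap`, `cong_of_c`).  The homomorphism `sw : Ω⟦δ⟧⟦ε⟧ → T` (`ev` at the nilpotent
element `C ε`) satisfies `sw ∘ map C ∘ D₀ = C ∘ mk ∘ DO` on `𝒯.M` (`ps_hom_ext`) and maps
`D x + p ^ n ζ'` to `Ψ x̂` (`c_nsmul`, `eq_of_c`); conclude with `fl_star`.  Then `flc1`, `flc2`.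
-/

open PowerSeries

namespace MLF

universe u

open PG Sett IsLocalRing

variable {p : ℕ} [Fact p.Prime] {K K' Ω : Type u} [Field K] [CharP K p] [IsAlgClosed K] [Field K']
  [CharP K' p] [IsAlgClosed K'] [Field Ω] [CharP Ω p] [IsAlgClosed Ω]

theorem FL4_cst (𝒯 : Sett p Ω) {z : Ω} {s : ℕ} (hs : 0 < s) (h : z ^ p ^ s = z) : z ∈ 𝒯.cst := by
  have h1 : ∀ n, z ^ p ^ (n * s) = z := DM8b_pow_mul p h
  obtain ⟨m, hm⟩ := 𝒯.ins z
  have h2 : z ∈ 𝒯.M := by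
    obtain ⟨r, hr⟩ := Nat.exists_eq_add_of_le (Nat.le_mul_of_pos_right m hs)
    rw [← h1 m, hr, pow_add, pow_mul]
    exact pow_mem hm _
  refine 𝒯.mem_cst_iff_pow.2 fun n => ?_
  obtain ⟨r, hr⟩ := Nat.exists_eq_add_of_le' (Nat.le_mul_of_pos_right n hs)
  exact ⟨z ^ p ^ r, pow_mem h2 _, by rw [← pow_mul, ← pow_add, ← hr, h1]⟩

theorem FL4_core (A : SPG.{u}) {𝒮 : Sett p K} {𝒮' : Sett p K'} {𝒯 : Sett p Ω} {i : K →+* K'}
    {j : K' →+* Ω} (hi : Mor 𝒮 𝒮' i) (hj : Mor 𝒮' 𝒯 j) {sL : A.Str 𝒮.M} {s : A.Str K}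
    {s' : A.Str K'} {sM : A.Str 𝒯.M} {sΩ : A.Str Ω} (hL : A.push 𝒮.M.subtype sL = s)
    (h' : A.push i s = s') (hΩ : A.push j s' = sΩ) (hLM : A.push (hj.comp hi).toM sL = sM)
    (hM : A.push 𝒯.M.subtype sM = sΩ) (ht : A.TorsFin s) (hl : A.Lifts s)
    (d : DMD p (SPG.fgl s)) {x : A.Pt sM}
    (hx : ∀ n : ℕ, ∃ (γ : A.Pt sL) (y : A.Pt sM), x = A.map _ hLM γ + p ^ n • y)
    (hn : ¬ Rat j.fieldRange (A.map _ hM x)) {sR : A.Str (PowerSeries Ω)}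
    (hR : A.push C sΩ = sR) :
    ∃ (y : d.ρ → PowerSeries Ω) (ω : A.Pt sR), Arc y ∧ y ≠ 0 ∧ (∀ l n, coeff n (y l) ∈ 𝒯.cst) ∧
      Cong (mx Ω) ω (0 : A.Pt sR) ∧
      (∀ a, A.c ω a = ev ((C : Ω →+* _).comp (j.comp i)) y (d.e a)) ∧
      A.map C hR (A.map _ hM x) + ω ∈
        ext ((C : Ω →+* _).comp j) sR (loc j s' (A.map _ hM x)) := by
  obtain ⟨sS, hS⟩ : ∃ sS, A.push (MvPowerSeries.C : Ω →+* MvPowerSeries d.ρ Ω) sΩ = sS := ⟨_, rfl⟩
  have he := FL4_map_cc (j.comp i) d.he.cc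
  obtain ⟨uh, huh, hc⟩ := SPG.exists_c sS (𝔞 := mX d.ρ Ω)
    (z := fun a => MvPowerSeries.map (j.comp i) (d.e a)) fun a => mem_mX.2 (he a)
  obtain ⟨vh, hvh⟩ := A.ax.exists_rep (A.map MvPowerSeries.C hS (A.map _ hM x) + uh)
  have pt : ∀ y : d.ρ → PowerSeries Ω, Arc y → ∃ ω : A.Pt sR, Cong (mx Ω) ω (0 : A.Pt sR) ∧
      ∀ a, A.c ω a = ev ((C : Ω →+* _).comp (j.comp i)) y (d.e a) := fun y hy => by
    obtain ⟨ω, h1, h2⟩ := SPG.exists_c sR (𝔞 := mx Ω)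
      (z := fun a => ev ((C : Ω →+* _).comp (j.comp i)) y (d.e a)) fun a =>
        (TN.of_cc₁ hy).ev_mem _ (d.he.cc a) fun l => by
          rw [Ideal.mem_span_singleton, X_dvd_iff]; exact hy l
    exact ⟨ω, h1, congrFun h2⟩
  have kills : ∀ y : d.ρ → PowerSeries Ω, Arc y → ∀ ω : A.Pt sR, Cong (mx Ω) ω (0 : A.Pt sR) →
      (∀ a, A.c ω a = ev ((C : Ω →+* _).comp (j.comp i)) y (d.e a)) →
      (Kills (FL4_I 𝒮'.M j (loc j s' (A.map _ hM x)) vh) y ↔ A.map C hR (A.map _ hM x) + ω ∈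
        ext ((C : Ω →+* _).comp j) sR (loc j s' (A.map _ hM x))) := fun y hy ω h1 h2 =>
    FL4_kills hS huh hvh 𝒮' j _ hR hy h1 fun a => by rw [hc, (TN.of_cc₁ hy).ev_map, h2]
  have h5 := FL4_arc 𝒮' hΩ hn (FL4_fh_map (SPG.fh p ht) (j.comp i)) (d.map (j.comp i)) hS huh hc
    hvh hR
  have hp : ((p : ℕ) : Perf p Ω) = 0 := CharP.cast_eq_zero _ p
  have hε : resP p Ω (eP p Ω 0) = 0 := by rw [eP, resP_ιP, constantCoeff_X]
  have hG : ((SPG.fgl s).map ((iP p Ω).comp (j.comp i))).map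
      (Ideal.Quotient.mk (Ideal.span {eP p Ω 0})) = ((SPG.fgl s).map (𝒯.DO.comp (j.comp i))).map
      (Ideal.Quotient.mk (Ideal.span {eP p Ω 0})) := by
    rw [SPG.fgl_push _ hL]
    simp only [FGL.map_map]
    congr 1
    refine RingHom.ext fun z => (Ideal.Quotient.eq.2 (𝒯.DO_sub_mem (m := 0) ?_)).symm
    exact Set1_le_root 0 _ ((hj.comp hi).mem z z.2)
  have hH : d.H.map ((iP p Ω).comp (j.comp i)) = d.H.map (𝒯.DO.comp (j.comp i)) := by
    obtain ⟨r, hr, h⟩ := d.coeff_fix p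
    refine FGL.ext' (funext fun l => ?_)
    rw [FGL.map_F, FGL.map_F]
    ext α : 1
    rw [MvPowerSeries.coeff_map, MvPowerSeries.coeff_map]
    refine (𝒯.mem_cst.1 (FL4_cst 𝒯 hr ?_)).symm
    rw [← map_pow, h]
  have hres : (resP p Ω).comp ((iP p Ω).comp (j.comp i)) =
      (resP p Ω).comp (𝒯.DO.comp (j.comp i)) :=
    RingHom.ext fun z => (resP_iP _).trans (𝒯.resP_DO _).symm
  obtain ⟨I', hI, hex, hD⟩ := flc1 p (iP p Ω) 𝒯.DO (resP p Ω) resP_iP hε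
    (fun z hz => pow_mem_of_resP hz 0) (d.map (j.comp i)) (fun k => p ^ (d.R * k))
    (fun a b hab => Nat.pow_lt_pow_right (Fact.out : p.Prime).one_lt
      (Nat.mul_lt_mul_of_pos_left hab d.R_pos))
    (pow_pos (Fact.out : p.Prime).pos _)
    (FL4_Lam d ((iP p Ω).comp (j.comp i)) (𝒯.DO.comp (j.comp i))) (FL4_Lam_cc d _ _)
    (fun k => by
      have h1 := FL4_Lam_hom d _ _ hp hG hH k
      rw [FGL.map_map] at h1
      have e : (d.map (j.comp i)).H = d.H.map (j.comp i) := rfl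
      rw [e, FGL.map_map]
      exact h1)
    (FL4_Lam_res d _ _ _ hres) (FL4_Lam_succ d _ _ hp hG) _ (fun k z hz hk => by
      rintro _ ⟨g, hg, rfl⟩
      obtain ⟨ζ, hζ, hcζ⟩ := pt z hz
      have hq : ∀ m : ℕ, p ^ m ≠ 0 := fun m => pow_ne_zero _ (Fact.out : p.Prime).ne_zero
      have hzq : Arc fun l => z l ^ p ^ (d.a l * (k + d.c)) := fun l => by
        rw [map_pow, hz l, zero_pow (hq _)]
      have hX := (kills _ hzq (p ^ (d.R * (k + d.c)) • ζ) ((K1 _ sR).nsmul_mem hζ _) fun a => by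
        rw [SPG.c_nsmul _ (push_trans (push_trans h' hΩ) hR) (FL4_mx_ne Ω) hζ, funext hcζ,
          ← ev_cmp d.he.cc _ (TN.of_cc₁ hz), FL4_mul_e, ev_cmp (fun l => by
            rw [map_pow, MvPowerSeries.constantCoeff_X, zero_pow (hq _)]) _ (TN.of_cc₁ hz)]
        simp only [map_pow, (TN.of_cc₁ hz).ev_X]).1 hk
      obtain ⟨γ, y₀, hx'⟩ := hx (d.R * (k + d.c))
      have hnt : Nontrivial (Perf p Ω ⧸ Ideal.span {eP p Ω 0 ^ p ^ (d.R * k)}) :=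
        Ideal.Quotient.nontrivial_iff.2 fun e => by
          rw [Ideal.span_singleton_eq_top] at e
          have := e.map (resP p Ω)
          rw [map_pow, hε, zero_pow (hq _)] at this
          exact not_isUnit_zero this
      have hloc : IsLocalRing (Perf p Ω ⧸ Ideal.span {eP p Ω 0 ^ p ^ (d.R * k)}) :=
        .of_surjective' _ Ideal.Quotient.mk_surjective
      generalize hmk : Ideal.Quotient.mk (Ideal.span {eP p Ω 0 ^ p ^ (d.R * k)}) = mk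
      have hπ : (mk.comp (ιP p Ω 0)) X ^ p ^ (d.R * (k + d.c)) = 0 := by
        have h0 : mk (eP p Ω 0) ^ p ^ (d.R * k) = 0 := by
          rw [← map_pow, ← hmk]
          exact Ideal.Quotient.eq_zero_iff_mem.2 (Ideal.mem_span_singleton_self _)
        change mk (eP p Ω 0) ^ _ = 0
        rw [mul_add, pow_add, pow_mul (mk _), h0, zero_pow (hq _)]
      have hzT : Arc fun l => PowerSeries.map (mk.comp (iP p Ω)) (z l) := fun l => by
        rw [Set1_cc, hz l, map_zero]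
      have tz := TN.of_cc₁ hzT
      have hmem : ∀ {α : Type} (f : α → MvPowerSeries d.ρ (Perf p Ω)),
          (∀ a, MvPowerSeries.constantCoeff (f a) = 0) → ∀ a, ev ((C : _ →+* PowerSeries _).comp mk)
            (fun l => PowerSeries.map (mk.comp (iP p Ω)) (z l)) (f a) ∈ mx _ := fun f hf a =>
        tz.ev_mem _ (hf a) fun l => by rw [Ideal.mem_span_singleton, X_dvd_iff]; exact hzT l
      have hΛ := FL4_Lam_cc d ((iP p Ω).comp (j.comp i)) (𝒯.DO.comp (j.comp i)) k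
      have tw := Adm.tn (hmem _ hΛ)
      obtain ⟨sT, hT⟩ : ∃ sT, A.push ((C : _ →+* PowerSeries _).comp (mk.comp 𝒯.DO)) sΩ = sT :=
        ⟨_, rfl⟩
      obtain ⟨ω, hω, hcω⟩ := SPG.exists_c sT (𝔞 := mx _) (z := fun a =>
        ev ((C : _ →+* PowerSeries _).comp (mk.comp 𝒯.DO)) _ (A.c uh a)) fun a =>
          tw.ev_mem _ (by rw [hc]; exact he a) (hmem _ hΛ)
      have hω' := hω.mono (le_maximalIdeal (FL4_mx_ne _))
      refine (FL4_ev tw _ _ g).trans (FL4_star A hi hj hL h' hΩ hLM hM ht hl hx' hR hζ hX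
        (mk.comp (ιP p Ω 0)) (mk.comp 𝒯.DO) (fun z => congrArg mk (𝒯.DO_M z)) hπ hT hω'
        (fun a => ?_) hg (FL4_rep hS huh hvh tw _ hT hω' (congrFun hcω)))
      have e₁ : (fun b => PowerSeries.map ((mk.comp (ιP p Ω 0)).comp C) (A.c ζ b)) = fun b =>
          ev ((C : _ →+* PowerSeries _).comp mk) (fun l => PowerSeries.map (mk.comp (iP p Ω)) (z l))
            (MvPowerSeries.map ((iP p Ω).comp (j.comp i)) (d.e b)) := funext fun b => by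
        rw [hcζ, tz.ev_map]
        refine ((TN.of_cc₁ hz).map_ev (PowerSeries.map (mk.comp (iP p Ω))) tz _ _).trans ?_
        congr 2
        exact RingHom.ext fun c => map_C (mk.comp (iP p Ω)) (j (i c))
      have he₁ := FL4_map_cc ((iP p Ω).comp (j.comp i)) d.he.cc
      have e₂ := congrArg (ev ((C : _ →+* PowerSeries _).comp mk)
        fun l => PowerSeries.map (mk.comp (iP p Ω)) (z l)) (congrFun
          (FL4_e_Lam d ((iP p Ω).comp (j.comp i)) (𝒯.DO.comp (j.comp i)) k) a)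
      rw [ev_cmp hΛ _ tz, ev_cmp he₁ _ tz, tw.ev_map, FGL.map_mul,
        (Adm.tn (hmem _ he₁)).ev_map] at e₂
      rw [hcω, hc, e₁]
      exact (tw.ev_map _ _ _).trans e₂) h5
  obtain ⟨y, hy, hk, hy0, hcst⟩ := flc2 (iP p Ω) 𝒯.DO (resP p Ω) resP_iP 𝒯.resP_DO 𝒯.cst
    (fun z hz => 𝒯.mem_cst.2 hz) I' hD hex
  obtain ⟨ω, h1, h2⟩ := pt y hy
  exact ⟨y, ω, hy, hy0, hcst, h1, h2, (kills y hy ω h1 h2).1 fun h hh => hk h (hI hh)⟩

theorem SPG.fl (A : SPG.{u}) {𝒮 : Sett p K} {𝒮' : Sett p K'} {𝒯 : Sett p Ω} {i : K →+* K'}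
    {j : K' →+* Ω} (hi : Mor 𝒮 𝒮' i) (hj : Mor 𝒮' 𝒯 j) {s : A.Str K} {s' : A.Str K'}
    {sΩ : A.Str Ω} (h' : A.push i s = s') (hΩ : A.push j s' = sΩ) (ht : A.TorsFin s)
    (hl : A.Lifts s) (d : DMD p (SPG.fgl s)) {x : A.Pt sΩ} {D : AddSubgroup (A.Pt s)}
    (hx : Good 𝒮 𝒯 (push_trans h' hΩ) D x) (hn : ¬ Rat j.fieldRange x)
    {sR : A.Str (PowerSeries Ω)} (hR : A.push C sΩ = sR) :
    ∃ (y : d.ρ → PowerSeries Ω) (ω : A.Pt sR), Arc y ∧ y ≠ 0 ∧ (∀ l n, coeff n (y l) ∈ 𝒯.cst) ∧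
      Cong (mx Ω) ω (0 : A.Pt sR) ∧
      (∀ a, A.c ω a = ev ((C : Ω →+* _).comp (j.comp i)) y (d.e a)) ∧
      A.map C hR x + ω ∈ ext ((C : Ω →+* _).comp j) sR (loc j s' x) := by
  obtain ⟨m₀, hx⟩ := hx
  obtain ⟨F, hF⟩ := exists_def s
  obtain ⟨m₁, hm₁⟩ := 𝒮.exists_root F
  obtain ⟨sL, hL⟩ := hF (𝒮.lev (m₀ + m₁)).M (by
    rw [lev_M]
    exact hm₁.trans (root_mono p (Nat.le_add_left _ _) le_rfl))
  have hi' := hi.lev (m₀ + m₁)
  have hj' := hj.lev (m₀ + m₁)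
  obtain ⟨sM, hLM⟩ : ∃ sM, A.push (hj'.comp hi').toM sL = sM := ⟨_, rfl⟩
  have hM : A.push (𝒯.lev (m₀ + m₁)).M.subtype sM = sΩ := by
    rw [← hLM, ← hΩ, ← h', ← hL]
    simp only [A.ax.push_comp]
    rfl
  have key : ∀ n : ℕ, ∃ (γ : A.Pt sL) (y : A.Pt sM),
      x = A.map _ hM (A.map _ hLM γ + p ^ n • y) := fun n => by
    obtain ⟨γ, -, y, -, hγ, hy, e⟩ := hx n
    obtain ⟨γ, rfl⟩ := (rat_subtype_iff hL).1 (hγ.mono (by
      rw [lev_M]; exact root_mono p (Nat.le_add_right _ _) le_rfl))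
    obtain ⟨y, rfl⟩ := (rat_subtype_iff hM).1 (hy.mono (by
      rw [lev_M]; exact root_mono p (Nat.le_add_right _ _) le_rfl))
    refine ⟨γ, y, ?_⟩
    rw [e, map_add, map_nsmul, map_map, map_map]
    rfl
  obtain ⟨γ₀, y₀, e₀⟩ := key 0
  generalize A.map _ hLM γ₀ + p ^ 0 • y₀ = xM at e₀
  subst e₀
  rw [← 𝒯.cst_lev (m₀ + m₁)]
  exact FL4_core A hi' hj' hL h' hΩ hLM hM ht hl d (fun n => by
    obtain ⟨γ, y, e⟩ := key n
    exact ⟨γ, y, map_inj Subtype.val_injective hM e⟩) hn hR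

end MLF
end

-- merged part: Pool.Agent.Work.MP_29d410_ag.CO
section
/-!
# Trace free subgroups: loci of good points are cosets; orthogonality to the constants

Plan.  `tf_ran`: if `ω = a + ω'` with `(b, ω') ∈ ext H` then `ω' ∈ ext (ran H)` is killed by the
projector, `(ω, N ω) ∈ ext Γ` (`IsProj.idem` for `IsProj.ext`), so `N ω = u a` is rational over `K`.
`co`: `Y = loc b` over `K'`, `S'` the identity component of its stabiliser, `S' = ext S` (`rig`),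
`Γ` a projector for `S ≤ ⊤`, `(b, b') ∈ ext Γ`; `b'` is good (`Good.img`) and lies in `ext B`
(`S' ⊆ Y - Y ⊆ ext B`).  `Y' = loc b' = img (ext Γ) Y` has finite stabiliser.  If `b'` is rational over
`K'`, `IsProj.coset`.  Otherwise `fl` (with `dm`, `fh`) and `arc_alg` give `ω ∈ ext B` over `Ω⟦ε⟧`
with `n • ιB ω` rational over `K ⊔ serF cst`, so over `K` (`Mor.sld1`, `ldps`); then `n • ω` is
a constant point congruent to `0`, so `n • ω = 0`, `ω = 0` (`TorsFin.ps`), `e (y) = 0`,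
`y l ^ p ^ (a l * c) = 0` (`e'e`): absurd.
`line`: `1, c₁` are independent over `K'`; the relation `c₂ = c₃ * c₁ + l₀` shows that `1, c₁, c₂` are
dependent over `K'`, hence over `K₁`; compare the two relations.
`orth`: let `l` be a constant, algebraic over `K(b)`, not in `j C`, so not in `j K` (`Mor.cst`).
Amalgamate three copies `ψ₁, ψ₂, ψ₃` of `Ω` over `K` (`amalg` twice), `c i = ψ i l`,
`K' = acl K(c₃, c₂ - c₃ c₁)` (`dcl_acl_cst`, `Mor.factor`), `z = (ψ₁ b, ψ₂ b)`; `co` for the product gives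
`S`; `w = u_S z` is rational over `K'`; `K₁ = acl K(w)`.  `rk_le_of_ker` and `ld_of_rk` give
`LD K₁ K' (acl K₁(z))`, so `c₃, l₀ ∈ K₁` by `line`.  But `rk (w / K) ≤ 1`, because
`rk (z / K) = rk (w / K) + rk (z / K(w)) ≥ rk (w / K) + rk (z / K')` and
`rk (z / K) = rk (z / K(c₃)) ≤ 1 + rk (z / K')`; while `rk (c₃, l₀ / K) = 2`.
-/

open Pointwise

namespace MLF

universe u

open PG Sett

/-- Trace free: points over a free compositum `K ⊔ κ` come from `K`. -/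
def PG.TF {A : PG.{u}} {K : Type u} [Field K] [IsAlgClosed K] (C₀ : Subfield K) {s : A.Str K}
    (B : AddSubgroup (A.Pt s)) : Prop :=
  ∀ (E : Type u) [Field E] [IsAlgClosed E] (j : K →+* E) (κ : Subfield E) [IsAlgClosed κ]
    (s' : A.Str E) (h : A.push j s = s'), C₀.map j ≤ κ → LD (C₀.map j) j.fieldRange κ →
    ∀ ω ∈ extS h B, Rat (j.fieldRange ⊔ κ) ω → Rat j.fieldRange ω

theorem PG.tf_ran {A : PG.{u}} {C K : Type u} [Field C] [Field K] [IsAlgClosed K] {c : C →+* K}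
    {sb s : A.Str K} (ht : A.TorsFin s) {H : AddSubgroup ((A.prod A).Pt (sb, s))} (hH : DL c H)
    {N : ℕ} {Γ : AddSubgroup ((A.prod A).Pt (s, s))} (hΓ : IsProj ⊤ (ran H) N Γ) :
    TF c.fieldRange (ran Γ) := by
  intro E _ _ j κ _ s' h h1 h2 ω hω hr
  rw [RingHom.map_fieldRange] at h1 h2
  obtain ⟨a, b, -, hab⟩ := hH E j κ _ s' rfl h h1 h2 ω hr
  have hΓ' := hΓ.ext h
  have k1 : ω - A.map j h a ∈ extS h (ran H) := by
    rw [← ran_ext rfl h]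
    exact mem_ran.2 ⟨b, hab⟩
  have k2 := hΓ'.kill _ k1
  have k3 := hΓ'.idem (y := ω) (by rwa [ran_ext h h])
  have k4 : ((A.map j h a, N • ω) : (A.prod A).Pt (s', s')) ∈ extG h h Γ := by
    have := (extG h h Γ).sub_mem k3 k2
    rwa [Prod.mk_sub_mk, sub_sub_cancel, sub_zero] at this
  exact ht.rat h hΓ.ne (hΓ.qh.rat_acl h h le_rfl k4 ((rat_range_iff j h).2 ⟨a, rfl⟩))

theorem PG.TF.prod {A A' : PG.{u}} {K : Type u} [Field K] [IsAlgClosed K] {C₀ : Subfield K}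
    {s : A.Str K} {t : A'.Str K} {B : AddSubgroup (A.Pt s)} {B' : AddSubgroup (A'.Pt t)}
    (h : TF C₀ B) (h' : TF C₀ B') : TF (A := A.prod A') (s := (s, t)) C₀ (B.prod B') := by
  rintro E _ _ j κ _ ⟨s', t'⟩ e h1 h2 ω hω hr
  have e1 : A.push j s = s' := congrArg Prod.fst e
  have e2 : A'.push j t = t' := congrArg Prod.snd e
  rw [prod_rat] at hr ⊢
  refine ⟨h E j κ s' e1 h1 h2 ω.1 (ext_mono j s' ?_ (fst_mem_ext e1 e2 hω)) hr.1,
    h' E j κ t' e2 h1 h2 ω.2 (ext_mono j t' ?_ (snd_mem_ext e1 e2 hω)) hr.2⟩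
  · rintro _ ⟨z, hz, rfl⟩
    exact hz.1
  · rintro _ ⟨z, hz, rfl⟩
    exact hz.2

theorem line {Ω : Type u} [Field Ω] {K₁ K' F : Subfield Ω} (h : LD K₁ K' F) (h₁ : K₁ ≤ K')
    (h₂ : K₁ ≤ F) {c₁ c₂ c₃ l₀ : Ω} (e : c₂ = c₃ * c₁ + l₀) (m₁ : c₁ ∈ F) (m₂ : c₂ ∈ F)
    (m₃ : c₃ ∈ K') (m₀ : l₀ ∈ K') (hn : c₁ ∉ K') : c₃ ∈ K₁ ∧ l₀ ∈ K₁ := by
  have h' := h.symm h₁ h₂ 3 ![1, c₁, c₂] (by
    intro i
    fin_cases i
    exacts [F.one_mem, m₁, m₂])
  have h1 : ¬ Ind K' (RingHom.id Ω) ![1, c₁, c₂] := by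
    intro hI
    have := hI ![l₀, c₃, -1] (by
      intro i
      fin_cases i
      exacts [m₀, m₃, K'.neg_mem K'.one_mem]) (by
      simp [Fin.sum_univ_three, e]
      ring) 2
    simp at this
  have h2 : ¬ Ind K₁ (RingHom.id Ω) ![1, c₁, c₂] := fun hI => h1 (h' hI)
  unfold Ind at h2
  push Not at h2
  obtain ⟨b, hb, hs, i, hi⟩ := h2
  simp only [Fin.sum_univ_three, RingHom.id_apply, Matrix.cons_val_zero, Matrix.cons_val_one,
    Matrix.cons_val_two, Matrix.tail_cons, Matrix.head_cons, mul_one] at hs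
  have k1 : b 1 + b 2 * c₃ = 0 := by
    by_contra hne
    refine hn ?_
    have : c₁ = -(b 0 + b 2 * l₀) / (b 1 + b 2 * c₃) := by
      rw [eq_div_iff hne]
      rw [e] at hs
      linear_combination hs
    rw [this]
    exact K'.div_mem (K'.neg_mem (K'.add_mem (h₁ (hb 0)) (K'.mul_mem (h₁ (hb 2)) m₀)))
      (K'.add_mem (h₁ (hb 1)) (K'.mul_mem (h₁ (hb 2)) m₃))
  have k2 : b 0 + b 2 * l₀ = 0 := by
    rw [e] at hs
    linear_combination hs - c₁ * k1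
  have k3 : b 2 ≠ 0 := by
    intro h0
    rw [h0, zero_mul, add_zero] at k1 k2
    fin_cases i
    exacts [hi k2, hi k1, hi h0]
  constructor
  · have : c₃ = -b 1 / b 2 := by
      rw [eq_div_iff k3]
      linear_combination k1
    rw [this]
    exact K₁.div_mem (K₁.neg_mem (hb 1)) (hb 2)
  · have : l₀ = -b 0 / b 2 := by
      rw [eq_div_iff k3]
      linear_combination k2
    rw [this]
    exact K₁.div_mem (K₁.neg_mem (hb 0)) (hb 2)

theorem CO_free {Ω : Type u} [Field Ω] {k E₁ E₂ : Subfield Ω} (h : LD k E₁ E₂) (h₁ : k ≤ E₁)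
    (h₂ : k ≤ E₂) {s t : Set Ω} (hs : s ⊆ E₁) (ht : t ⊆ E₂) : rk (adj k s) t = rk k t :=
  le_antisymm (rk_anti (le_adj k s)) ((h.rk_eq h₁ h₂ ht).symm.le.trans
    (rk_anti (adj_le.2 ⟨h₁, hs⟩)))

theorem CO_one {Ω : Type u} [Field Ω] {k : Subfield Ω} [IsAlgClosed k] {c : Ω} (h : c ∉ k) :
    rk k {c} = 1 := by
  refine le_antisymm (rk_singleton_le c) (Order.one_le_iff_ne_zero.2 fun h0 => h ?_)
  have := rk_eq_zero.1 h0 rfl
  rwa [acl_eq] at this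

theorem CO_field {Ω : Type u} [Field Ω] [IsAlgClosed Ω] {k E₁ E₂ E₃ G K' : Subfield Ω}
    [IsAlgClosed k] (h12 : LD k E₁ E₂) (h3 : LD k E₃ G) (k₁ : k ≤ E₁) (k₂ : k ≤ E₂) (k₃ : k ≤ E₃)
    (g₁ : E₁ ≤ G) (g₂ : E₂ ≤ G) {c₁ c₂ c₃ : Ω} (m₁ : c₁ ∈ E₁) (m₂ : c₂ ∈ E₂) (m₃ : c₃ ∈ E₃)
    (n₁ : c₁ ∉ k) (n₂ : c₂ ∉ k) (n₃ : c₃ ∉ k) (hK : K' = acl (adj k {c₃, c₂ - c₃ * c₁}))
    {Z W : Set Ω} (hZ : Z.Finite) (hG : Z ⊆ G) (a₁ : c₁ ∈ acl (adj k Z))
    (a₂ : c₂ ∈ acl (adj k Z)) (hW : W ⊆ K') (hW' : W ⊆ acl (adj k Z))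
    (hr : rk (adj k W) Z ≤ rk K' Z) : False := by
  have kG : k ≤ G := k₁.trans g₁
  generalize hl : c₂ - c₃ * c₁ = l₀ at hK
  have e : c₂ = c₃ * c₁ + l₀ := by rw [← hl]; ring
  have kK : k ≤ K' := hK ▸ (le_adj _ _).trans (le_acl _)
  have q₃ : c₃ ∈ adj k {c₃, l₀} := subset_adj _ _ (Or.inl rfl)
  have q₀ : l₀ ∈ adj k {c₃, l₀} := subset_adj _ _ (Or.inr rfl)
  have r3 : rk k ({c₃} ∪ ({c₁} ∪ {c₂})) = 3 := by
    rw [rk_union, CO_free h3 k₃ kG (Set.singleton_subset_iff.2 m₃) (Set.union_subset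
      (Set.singleton_subset_iff.2 (g₁ m₁)) (Set.singleton_subset_iff.2 (g₂ m₂))), rk_union,
      CO_free h12 k₁ k₂ (Set.singleton_subset_iff.2 m₁) (Set.singleton_subset_iff.2 m₂),
      CO_one n₁, CO_one n₂, CO_one n₃]
    rfl
  have r4 : (3 : ℕ∞) ≤ rk k {c₃, l₀} + rk (adj k {c₃, l₀}) {c₁} := by
    rw [← rk_union, ← r3]
    refine rk_le_of_acl (Set.Subset.trans ?_ (le_acl _))
    have u₃ : c₃ ∈ adj k ({c₃, l₀} ∪ {c₁}) := subset_adj _ _ (Or.inl (Or.inl rfl))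
    have u₀ : l₀ ∈ adj k ({c₃, l₀} ∪ {c₁}) := subset_adj _ _ (Or.inl (Or.inr rfl))
    have u₁ : c₁ ∈ adj k ({c₃, l₀} ∪ {c₁}) := subset_adj _ _ (Or.inr rfl)
    rintro _ (rfl | rfl | rfl)
    · exact u₃
    · exact u₁
    · rw [e]
      exact add_mem (mul_mem u₃ u₁) u₀
  have r5 : rk k {c₃, l₀} ≤ 2 := by
    rw [Set.insert_eq, rk_union]
    exact add_le_add (rk_singleton_le _) (rk_singleton_le _)
  have hn : c₁ ∉ K' := by
    intro h
    rw [rk_eq_zero.2 (Set.singleton_subset_iff.2 (hK ▸ h)), add_zero] at r4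
    exact absurd (r4.trans r5) (by decide)
  have wK : adj k W ≤ K' := adj_le.2 ⟨kK, hW⟩
  have w₁ : acl (adj k W) ≤ K' := by
    have := acl_mono wK
    rwa [hK, acl_acl, ← hK] at this
  have hLD : LD (acl (adj k W)) K' (acl (adj (acl (adj k W)) Z)) :=
    ld_of_rk w₁ (rk_ne_top hZ) (by rwa [rk_acl])
  have w₂ : acl (adj k Z) ≤ acl (adj (acl (adj k W)) Z) :=
    acl_mono (adj_le.2 ⟨((le_adj _ _).trans (le_acl _)).trans (le_adj _ _), subset_adj _ _⟩)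
  obtain ⟨t₃, t₀⟩ := line hLD w₁ ((le_adj _ _).trans (le_acl _)) e (w₂ a₁) (w₂ a₂)
    (hK ▸ le_acl _ q₃) (hK ▸ le_acl _ q₀) hn
  have r6 : rk k {c₃, l₀} ≤ rk k W := by
    refine rk_le_of_acl ?_
    rintro _ (rfl | rfl)
    exacts [t₃, t₀]
  have r7 : rk k W + rk K' Z ≤ rk k Z := by
    refine le_trans (add_le_add le_rfl (rk_anti wK)) ?_
    rw [← rk_union]
    exact rk_le_of_acl (Set.union_subset hW' ((subset_adj k Z).trans (le_acl _)))
  have r8 : rk k Z ≤ 1 + rk K' Z := by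
    rw [← CO_free h3 k₃ kG (Set.singleton_subset_iff.2 m₃) hG]
    refine (rk_mono (Set.subset_union_right (s := {l₀}))).trans ?_
    rw [rk_union]
    refine add_le_add (rk_singleton_le _) ?_
    rw [← rk_acl]
    refine rk_anti (hK ▸ acl_mono (adj_le.2 ⟨(le_adj _ _).trans (le_adj _ _), ?_⟩))
    rintro _ (rfl | rfl)
    · exact le_adj _ _ (subset_adj _ _ rfl)
    · exact subset_adj _ _ rfl
  have r9 : rk k W ≤ 1 := (ENat.add_le_add_iff_right (rk_ne_top hZ)).1 (r7.trans r8)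
  exact absurd (r4.trans (add_le_add (r6.trans r9) (rk_singleton_le _))) (by decide)

variable {p : ℕ} [Fact p.Prime] {K K' Ω : Type u} [Field K] [CharP K p] [IsAlgClosed K] [Field K']
  [CharP K' p] [IsAlgClosed K'] [Field Ω] [CharP Ω p] [IsAlgClosed Ω]

omit [CharP K p] [IsAlgClosed K] [CharP Ω p] [IsAlgClosed Ω] [Fact p.Prime] in
theorem CO_dmd {τ : Type} [Finite τ] {G : FGL K τ} (d : DMD p G) (φ : K →+* PowerSeries Ω)
    {y : d.ρ → PowerSeries Ω} (hy : Arc y) (h : ∀ a, ev φ y (d.e a) = 0) : y = 0 := by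
  funext l
  have hT : TN y := TN.of_cc₁ hy
  have h1 := ev_cmp (g := d.e') d.he.cc φ hT l
  rw [d.e'e, DM7b.diag_pow d.mulH, map_pow, hT.ev_X, funext h] at h1
  have h2 : ev φ (0 : τ → PowerSeries Ω) (d.e' l) = 0 := by rw [ev_zero, d.he'.cc, map_zero]
  exact eq_zero_of_pow_eq_zero (h1.trans h2)

/-- A good point of a trace free subgroup whose locus has finite stabiliser is rational. -/
theorem CO_rat (A : SPG.{u}) {𝒮 : Sett p K} {𝒮' : Sett p K'} {𝒯 : Sett p Ω} {i : K →+* K'}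
    {j : K' →+* Ω} (hi : Mor 𝒮 𝒮' i) (hj : Mor 𝒮' 𝒯 j) {s : A.Str K} {s' : A.Str K'}
    {sΩ : A.Str Ω} (h' : A.push i s = s') (hΩ : A.push j s' = sΩ) (ht : A.TorsFin s)
    (hl : A.Lifts s) {B D : AddSubgroup (A.Pt s)} (hB : TF 𝒮.cst B) {b : A.Pt sΩ}
    (hb : Good 𝒮 𝒯 (push_trans h' hΩ) D b) (hm : b ∈ extS (push_trans h' hΩ) B)
    (hS : (Stab (loc j s' b) : Set (A.Pt s')).Finite) : Rat j.fieldRange b := by
  by_contra hn
  have hh := push_trans h' hΩ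
  obtain ⟨d⟩ := dm p (SPG.fh p ht)
  generalize hR : A.push (PowerSeries.C : Ω →+* PowerSeries Ω) sΩ = sR
  generalize hE : A.push (ιB Ω) sR = sB
  obtain ⟨y, ω, h1, h2, h3, h4, h5, h6⟩ := A.fl hi hj h' hΩ ht hl d hb hn hR
  obtain ⟨n, hn0, h7⟩ := A.arc_alg h' hΩ ht d hS h1 h3 hR h4 h5 h6 hE
  have hRR := push_trans hh hR
  have hJ : A.push ((cB Ω).comp (j.comp i)) s = sB := (push_trans hRR hE :)
  have k1 : loc j s' b ⊆ ext i s' (B : Set (A.Pt s)) :=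
    loc_subset (cl_ext _ _ _) (by rw [ext_ext i j h']; exact hm)
  have k2 : A.map PowerSeries.C hR b + ω ∈ extS hRR B := by
    have := ext_mono _ _ k1 h6
    rw [ext_ext i _ h'] at this
    exact this
  have k3 : A.map PowerSeries.C hR b ∈ extS hRR B := mem_ext_map _ hR hm
  have k4 : ω ∈ extS hRR B := by
    have := (extS hRR B).sub_mem k2 k3
    rwa [add_sub_cancel_left] at this
  have k5 : A.map (ιB Ω) hE ω ∈ extS hJ B := by
    have := mem_ext_map (ιB Ω) hE ((mem_extS hRR).1 k4)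
    rw [← RingHom.comp_assoc] at this
    exact (mem_extS hJ).2 this
  have hc : 𝒮.cst.map (j.comp i) ≤ 𝒯.cst := by
    rintro _ ⟨z, hz, rfl⟩
    exact (hj.comp hi).cst.2 hz
  have hf : 𝒮.cst.map (j.comp i) ≤ (j.comp i).fieldRange := by
    rintro _ ⟨z, -, rfl⟩
    exact ⟨z, rfl⟩
  have := algClosed_map (j.comp i) 𝒮.cst
  have k6 := ldps (hj.comp hi).sld1 hf hc
  rw [Subfield.map_map, RingHom.map_fieldRange] at k6
  have k7 : 𝒮.cst.map ((cB Ω).comp (j.comp i)) ≤ serF 𝒯.cst := by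
    refine le_trans ?_ (map_cB_le_serF _)
    rintro _ ⟨z, hz, rfl⟩
    exact ⟨_, hc ⟨z, hz, rfl⟩, rfl⟩
  obtain ⟨x, hx⟩ := (rat_range_iff _ hJ).1
    (hB _ _ (serF 𝒯.cst) sB hJ k7 k6 _ ((extS hJ B).nsmul_mem k5 n) h7)
  have k8 : A.map PowerSeries.C hR (A.map _ hh x) = n • ω := by
    refine map_inj (ιB_inj Ω) hE ?_
    rw [map_nsmul, ← hx, map_map, map_map]
    rfl
  have hcc : A.push (PowerSeries.constantCoeff (R := Ω)) sR = sΩ := by
    rw [← hR, A.ax.push_comp, PowerSeries.constantCoeff_comp_C, A.ax.push_id]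
  have k9 : Cong (mx Ω) (n • ω) (0 : A.Pt sR) := (K1 (mx Ω) sR).nsmul_mem h4 n
  have k10 := cong_bot.1 (k9.map PowerSeries.constantCoeff hcc hcc (𝔞' := ⊥) fun z hz =>
    PowerSeries.X_dvd_iff.1 (Ideal.mem_span_singleton.1 hz))
  rw [← k8, map_map, map_id' (fun z => PowerSeries.constantCoeff_C z), map_zero] at k10
  rw [k10, map_zero] at k8
  have k11 : ω = 0 := (ht.ext hh).ps hR hn0 h4 k8.symm
  refine h2 (CO_dmd d _ h1 fun a => (h5 a).symm.trans ?_)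
  rw [k11]
  exact congrFun (A.ch.c_zero sR) a

theorem SPG.co (A : SPG.{u}) {𝒮 : Sett p K} {𝒮' : Sett p K'} {𝒯 : Sett p Ω} {i : K →+* K'}
    {j : K' →+* Ω} (hi : Mor 𝒮 𝒮' i) (hj : Mor 𝒮' 𝒯 j) {s : A.Str K} {s' : A.Str K'}
    {sΩ : A.Str Ω} (h' : A.push i s = s') (hΩ : A.push j s' = sΩ)
    (hv : Var (Set.univ : Set (A.Pt s))) (ht : A.TorsFin s) (hl : A.Lifts s)
    {B : AddSubgroup (A.Pt s)} (hB : TF 𝒮.cst B) {b : A.Pt sΩ}
    (hb : Good 𝒮 𝒯 (push_trans h' hΩ) B b) : ∃ (S : AddSubgroup (A.Pt s)) (b₀ : A.Pt s'),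
      Var (S : Set (A.Pt s)) ∧ loc j s' b = b₀ +ᵥ (extS h' S : Set (A.Pt s')) := by
  have hh := push_trans h' hΩ
  have hY : Var (loc j s' b) := var_loc hΩ b
  obtain ⟨S', hS'⟩ := exists_idc (cl_stab hY.1)
  obtain ⟨S, hS, rfl⟩ := A.rig ht h' hS'.var
  obtain ⟨N, Γ, hΓ⟩ := A.exists_proj (D := ⊤) hv hS le_top
  have hΓ' := hΓ.ext h'
  have hΓΩ := hΓ.ext hh
  obtain ⟨b', hb'⟩ : ∃ b', ((b, b') : (A.toPG.prod A.toPG).Pt (sΩ, sΩ)) ∈ extG hh hh Γ := by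
    rw [← mem_dom, hΓΩ.dom]
    change b ∈ ext _ sΩ Set.univ
    rw [ext_univ hh]
    trivial
  have hYT : loc j s' b ⊆ extS h' ⊤ := fun x _ => by
    change x ∈ ext _ s' Set.univ
    rw [ext_univ h']
    trivial
  have k1 : loc j s' b ⊆ extS h' B :=
    loc_subset (cl_ext _ _ _) (by rw [coe_extS, ext_ext i j h']; exact hb.mem)
  have k2 : extS h' S ≤ extS h' B := fun σ hσ => by
    obtain ⟨x, hx⟩ := hY.2.1
    have := (extS h' B).sub_mem (k1 ((hS'.le hσ x).1 hx)) (k1 hx)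
    rwa [add_sub_cancel_right] at this
  have k3 : extS hh S ≤ extS hh B := by
    rw [← extS_extS h' hΩ, ← extS_extS h' hΩ]
    exact ext_mono _ _ k2
  have k4 : b' ∈ extS hh B := by
    have := (extS hh B).sub_mem ((extS hh B).nsmul_mem hb.mem N) (k3 (hΓΩ.sub _ hb'))
    rwa [sub_sub_cancel] at this
  have k5 : loc j s' b' = img (extG h' h' Γ) (loc j s' b) :=
    hΓ'.qh.loc hΩ hΩ (by rw [extG, extG, extS_extS]; exact hb')
  have k6 := CO_rat A hi hj h' hΩ ht hl hB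
    ((hb.mono le_top).img (hj.comp hi) cl_univ hΓ.qh hΓ.dom.ge hh hb') k4
    (k5 ▸ hΓ'.stab_finite (ht.ext h') hY hYT hS')
  obtain ⟨x, rfl⟩ := (rat_range_iff j hΩ).1 k6
  rw [loc_map_self] at k5
  obtain ⟨a, ha⟩ := hΓ'.coset (ht.ext h') hY hYT hS'.le (k5 ▸ Set.finite_singleton x)
  exact ⟨S, a, hS, ha⟩

omit [CharP K p] [CharP K' p] [CharP Ω p] in
theorem CO_w (A : SPG.{u}) {i : K →+* K'} {j : K' →+* Ω} {s : A.Str K} {s' : A.Str K'}
    {sΩ : A.Str Ω} (h' : A.push i s = s') (hΩ : A.push j s' = sΩ)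
    (hv : Var (Set.univ : Set (A.Pt s))) (ht : A.TorsFin s) {z : A.Pt sΩ}
    {S : AddSubgroup (A.Pt s)} {b₀ : A.Pt s'} (hS : Var (S : Set (A.Pt s)))
    (hz : loc j s' z = b₀ +ᵥ (extS h' S : Set (A.Pt s'))) : ∃ W : Set Ω, W ⊆ j.fieldRange ∧
      W ⊆ acl (adj (j.comp i).fieldRange (rat z)) ∧
      rk (adj (j.comp i).fieldRange W) (rat z) ≤ rk j.fieldRange (rat z) := by
  have hh := push_trans h' hΩ
  obtain ⟨N, Γ, hΓ⟩ := A.exists_proj (D := ⊤) hv hS le_top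
  have hΓΩ := hΓ.ext hh
  obtain ⟨w, hw⟩ : ∃ w, ((z, w) : (A.toPG.prod A.toPG).Pt (sΩ, sΩ)) ∈ extG hh hh Γ := by
    rw [← mem_dom, hΓΩ.dom]
    change z ∈ ext _ sΩ Set.univ
    rw [ext_univ hh]
    trivial
  have k1 : -A.map j hΩ b₀ + z ∈ extS hh S := by
    have := mem_ext_loc hΩ z
    rw [hz, ext_vadd hΩ, coe_extS, ext_ext i j h', Set.mem_vadd_set_iff_neg_vadd_mem] at this
    exact this
  have k2 : ((A.map j hΩ b₀, w) : (A.toPG.prod A.toPG).Pt (sΩ, sΩ)) ∈ extG hh hh Γ := by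
    have := (extG hh hh Γ).sub_mem hw (hΓΩ.kill _ k1)
    rwa [Prod.mk_sub_mk, sub_zero, add_comm, ← sub_eq_add_neg, sub_sub_cancel] at this
  refine ⟨rat w, hΓ.qh.rat_acl hh hh ?_ k2 ((rat_range_iff j hΩ).2 ⟨b₀, rfl⟩),
    hΓ.qh.rat_acl hh hh ((le_adj _ _).trans (le_acl _)) hw ((rat_adj _ z).mono (le_acl _)), ?_⟩
  · rintro _ ⟨x, rfl⟩
    exact ⟨i x, rfl⟩
  · refine (rk_le_of_ker hΓ.qh.var.1 (hΓ.idc ht) hh hh hw).trans (le_of_eq ?_)
    rw [← dim_loc hΩ, hz, coe_extS, dim_vadd (var_ext hS i h'), dim_ext hS i h']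

omit [IsAlgClosed Ω] in
theorem CO_good {A : PG.{u}} {𝒮 : Sett p K} {𝒯 : Sett p Ω} {j j' : K →+* Ω} (e : j = j')
    {s : A.Str K} {s' : A.Str Ω} {h : A.push j s = s'} (h' : A.push j' s = s')
    {D : AddSubgroup (A.Pt s)} {x : A.Pt s'} (hx : Good 𝒮 𝒯 h D x) : Good 𝒮 𝒯 h' D x := by
  subst e
  exact hx

theorem SPG.orth (A : SPG.{u}) {𝒮 : Sett p K} {𝒯 : Sett p Ω} {j : K →+* Ω} (hj : Mor 𝒮 𝒯 j)
    {s : A.Str K} {sΩ : A.Str Ω} (h : A.push j s = sΩ) (hv : Var (Set.univ : Set (A.Pt s)))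
    (ht : A.TorsFin s) (hl : A.Lifts s) {B : AddSubgroup (A.Pt s)} (hB : TF 𝒮.cst B)
    (hc : Cl (B : Set (A.Pt s))) {b : A.Pt sΩ} (hb : Good 𝒮 𝒯 h B b) :
    acl (adj j.fieldRange (rat b)) ⊓ 𝒯.cst ≤ 𝒮.cst.map j := by
  rintro l ⟨hl1, hl2⟩
  by_contra hn
  have hn' : l ∉ j.fieldRange := by
    rintro ⟨z, rfl⟩
    exact hn ⟨z, hj.cst.1 hl2, rfl⟩
  obtain ⟨E', _, _, _, 𝒯', φ₁, φ₂, m₁, m₂, e₁₂, l₁₂⟩ := amalg hj hj
  obtain ⟨E, _, _, _, 𝒰, χ, ψ₃, mχ, m₃, e₃, l₃⟩ := amalg (m₁.comp hj) hj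
  generalize hJ : χ.comp (φ₁.comp j) = J at e₃ l₃
  have j₁ : (χ.comp φ₁).comp j = J := hJ
  have j₂ : (χ.comp φ₂).comp j = J := by rw [RingHom.comp_assoc, ← e₁₂, hJ]
  have l₁₂' := (ld_map_iff χ).2 l₁₂
  simp only [RingHom.map_fieldRange] at l₁₂'
  rw [hJ] at l₁₂'
  have g₁ : (χ.comp φ₁).fieldRange ≤ χ.fieldRange := by
    rintro _ ⟨x, rfl⟩
    exact ⟨φ₁ x, rfl⟩
  have g₂ : (χ.comp φ₂).fieldRange ≤ χ.fieldRange := by
    rintro _ ⟨x, rfl⟩
    exact ⟨φ₂ x, rfl⟩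
  have n₁ := mχ.comp m₁
  have n₂ := mχ.comp m₂
  generalize χ.comp φ₁ = ψ₁ at *
  generalize χ.comp φ₂ = ψ₂ at *
  have kk : ∀ ψ : Ω →+* E, ψ.comp j = J → J.fieldRange ≤ ψ.fieldRange := by
    rintro ψ rfl _ ⟨x, rfl⟩
    exact ⟨j x, rfl⟩
  have nn : ∀ ψ : Ω →+* E, ψ.comp j = J → ψ l ∉ J.fieldRange := by
    rintro ψ rfl ⟨x, hx⟩
    exact hn' ⟨x, ψ.injective hx⟩
  have mJ : Mor 𝒮 𝒰 J := j₁ ▸ n₁.comp hj
  generalize hE : A.push J s = sE
  have pp : ∀ ψ : Ω →+* E, ψ.comp j = J → A.push ψ sΩ = sE := by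
    rintro ψ rfl
    rw [← h, A.ax.push_comp, hE]
  have aa : ∀ (ψ : Ω →+* E) (e : ψ.comp j = J),
      ψ l ∈ acl (adj J.fieldRange (rat (A.map ψ (pp ψ e) b))) := by
    intro ψ e
    have := (mem_acl_map ψ).2 hl1
    rwa [map_adj, RingHom.map_fieldRange, e, ← rat_map ψ (pp ψ e)] at this
  have rr : ∀ (ψ : Ω →+* E) (e : ψ.comp j = J), Rat ψ.fieldRange (A.map ψ (pp ψ e) b) :=
    fun ψ e => (rat_range_iff ψ (pp ψ e)).2 ⟨b, rfl⟩
  have hD : 𝒰.DCl (acl (adj J.fieldRange {ψ₃ l, ψ₂ l - ψ₃ l * ψ₁ l})) := by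
    refine dcl_acl_cst mJ ?_
    rintro _ (rfl | rfl)
    · exact m₃.cst.2 hl2
    · exact sub_mem (n₂.cst.2 hl2) (mul_mem (m₃.cst.2 hl2) (n₁.cst.2 hl2))
  have hF : ∀ x, J x ∈ acl (adj J.fieldRange {ψ₃ l, ψ₂ l - ψ₃ l * ψ₁ l}) := fun x =>
    le_acl _ (le_adj _ _ ⟨x, rfl⟩)
  obtain ⟨𝒮', mi, mF⟩ := mJ.factor _ hF hD
  have eJ : (Subfield.subtype _).comp (J.codRestrict _ hF) = J := RingHom.ext fun _ => rfl
  generalize J.codRestrict _ hF = i at mi eJ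
  generalize hs' : A.push i s = s'
  have hΩ : A.push (Subfield.subtype _) s' = sE := by rw [← hs', A.ax.push_comp, eJ, hE]
  have h2' : (A.prod A).push i (s, s) = (s', s') := prod_push hs' hs'
  have h2Ω : (A.prod A).push (Subfield.subtype _) (s', s') = (sE, sE) := prod_push hΩ hΩ
  have hv2 : Var (A := (A.prod A).toPG) (s := (s, s)) Set.univ := by
    have := hv.sprod hv
    rwa [show sprod (Set.univ : Set (A.Pt s)) (Set.univ : Set (A.Pt s)) = Set.univ from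
      Set.eq_univ_of_forall fun _ => ⟨trivial, trivial⟩] at this
  have hg := (CO_good j₁ hE (hb.map n₁ (pp ψ₁ j₁))).prod (CO_good j₂ hE (hb.map n₂ (pp ψ₂ j₂)))
    hc hc
  obtain ⟨S, b₀, hS, hz⟩ := (A.prod A).co mi mF h2' h2Ω hv2 (ht.prod ht) (hl.prod hl)
    (hB.prod hB) (CO_good eJ.symm _ hg)
  obtain ⟨W, w₁, w₂, w₃⟩ := CO_w (A.prod A) h2' h2Ω hv2 (ht.prod ht) hS hz
  rw [eJ] at w₂ w₃
  rw [Subfield.fieldRange_subtype] at w₁ w₃
  refine CO_field l₁₂' (l₃.symm (by rw [← hJ]; rintro _ ⟨x, rfl⟩; exact ⟨_, rfl⟩) (kk ψ₃ e₃.symm))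
    (kk ψ₁ j₁) (kk ψ₂ j₂) (kk ψ₃ e₃.symm) g₁ g₂ ⟨l, rfl⟩ ⟨l, rfl⟩ ⟨l, rfl⟩ (nn ψ₁ j₁) (nn ψ₂ j₂)
    (nn ψ₃ e₃.symm) rfl (rat_finite _) ?_ ?_ ?_ w₁ w₂ w₃
  · exact (prod_rat (A := A.toPG) (B := A.toPG) (s := (sE, sE)) χ.fieldRange _).2
      ⟨(rr ψ₁ j₁).mono g₁, (rr ψ₂ j₂).mono g₂⟩
  · rw [adj_rat_prod]
    exact acl_mono (adj_le.2 ⟨le_adj _ _, Set.subset_union_left.trans (subset_adj _ _)⟩) (aa ψ₁ j₁)
  · rw [adj_rat_prod]
    exact acl_mono (adj_le.2 ⟨le_adj _ _, Set.subset_union_right.trans (subset_adj _ _)⟩)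
      (aa ψ₂ j₂)

end MLF
end

-- merged part: Pool.Agent.Work.MP_29d410_ag.Ctx
section
/-!
# The context of the main induction; special subvarieties in terms of the trace

Write `ι V = img H (ext V)` for `V ⊆ A₀`; `ι (V + V') = ι V + ι V'`, `ι (n V) = n ι V`, and `ι V` is a
variety when `V` is (`QH.var_img`, `var_ext`).
Plan.  `Sp.of_nsmul`: choose `g'` with `n g' = g` (`TorsFin.div` for `⊤`), `V' ⊆ A₀` with `n V' = V`
(`TorsFin.exists_div`); `n B = B`; `TorsFin.eq_vadd`.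
`stab_loc_finite`: the identity component of the stabiliser of `loc a` over `F` is `ext T₀`, `T₀`
over `C` (`rig`), `T₀ ≤ A₀`.  For `σ ∈ T₀` there is a place of `Ω` over `F` with values in `Ω` mapping `a` to
`a + σ` (`place_ex`); it maps `z` to `z + w` where `(σ, w) ∈ H` (`QH.ext_inj`); so `w` stabilises
`loc z` (`vadd_loc_subset`, `mem_stab_of_subset`); `σ ↦ w` is injective.
`loc_eq_add`: `loc (v, b) = loc v × loc b` (`loc_prod_ld`); compare the two sets with places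
(`mem_loc_iff` for the pair; the reduction of `w` is determined by that of `v`).
-/

open Pointwise

namespace MLF

universe u

open PG Sett

/-- The data and properties used in the main induction. -/
structure Ctx (p : ℕ) [Fact p.Prime] (A : SPG.{u}) (C K : Type u) [Field C] [IsAlgClosed C]
    [CharP C p] [Field K] [IsAlgClosed K] [CharP K p] where
  c : C →+* K
  sC : A.Str C
  s : A.Str K
  sb : A.Str K
  hb : A.push c sC = sb
  H : AddSubgroup ((A.toPG.prod A.toPG).Pt (sb, s))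
  A₀ : AddSubgroup (A.Pt sC)
  𝒮 : Sett p K
  var : Var (Set.univ : Set (A.Pt s))
  tf : A.TorsFin s
  tfC : A.TorsFin sC
  lifts : A.Lifts s
  qh : QH H
  qh' : QH (swap H)
  varA : Var (A₀ : Set (A.Pt sC))
  dom_eq : dom H = extS hb A₀
  dl : DL c H
  alg : ∀ z : C, ∃ n, 0 < n ∧ z ^ p ^ n = z
  cst_eq : 𝒮.cst = c.fieldRange
  hull : ∀ r : ℕ, 0 < r → A.push (iterateFrobenius C p r) sC = sC → ∀ a : A.Pt sb,
    ∃ Γ : AddSubgroup (A.Pt sb), Hyp 𝒮 (extS hb A₀) Γ ∧ ∀ (n : ℕ)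
      (e : A.push (iterateFrobenius K p (r * n)) sb = sb) (b : A.Pt sb), b ∈ extS hb A₀ →
      A.map (iterateFrobenius K p (r * n)) e b = a → b ∈ Γ

namespace Ctx

variable {p : ℕ} [Fact p.Prime] {A : SPG.{u}} {C K Ω : Type u} [Field C] [IsAlgClosed C] [CharP C p]
  [Field K] [IsAlgClosed K] [CharP K p] [Field Ω] [IsAlgClosed Ω] (𝒞 : Ctx p A C K)

/-- The image in `A` of a subset of the constant group. -/
def ι (V : Set (A.Pt 𝒞.sC)) : Set (A.Pt 𝒞.s) := img 𝒞.H (ext 𝒞.c 𝒞.sb V)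

/-- Special subvarieties. -/
def Sp (X : Set (A.Pt 𝒞.s)) : Prop :=
  ∃ (g : A.Pt 𝒞.s) (B : AddSubgroup (A.Pt 𝒞.s)) (V : Set (A.Pt 𝒞.sC)), Var (B : Set (A.Pt 𝒞.s)) ∧
    Var V ∧ V ⊆ 𝒞.A₀ ∧ X = g +ᵥ ((B : Set (A.Pt 𝒞.s)) + 𝒞.ι V)

variable {𝒞} {X : Set (A.Pt 𝒞.s)} {V V' : Set (A.Pt 𝒞.sC)}

section aux

variable {k : Type u} [Field k] {B B' : PG.{u}} {t : B.Str k} {t' : B'.Str k}
  {Γ : AddSubgroup ((B.prod B').Pt (t, t'))} {Y Y' : Set (B.Pt t)}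

theorem Ctx_img_add (h : Y ⊆ dom Γ) : img Γ (Y + Y') = img Γ Y + img Γ Y' := by
  ext y
  constructor
  · rintro ⟨_, ⟨x, hx, x', hx', rfl⟩, hy⟩
    obtain ⟨y₁, h1⟩ := mem_dom.1 (h hx)
    refine ⟨y₁, ⟨x, hx, h1⟩, y - y₁, ⟨x', hx', ?_⟩, add_sub_cancel _ _⟩
    have h2 := Γ.sub_mem hy h1
    have h3 : ((x + x', y) : (B.prod B').Pt (t, t')) - (x, y₁) = (x', y - y₁) :=
      Prod.ext (add_sub_cancel_left x x') rfl
    exact h3 ▸ h2
  · rintro ⟨y₁, ⟨x, hx, h1⟩, y₂, ⟨x', hx', h2⟩, rfl⟩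
    exact ⟨x + x', ⟨x, hx, x', hx', rfl⟩, Γ.add_mem h1 h2⟩

theorem Ctx_img_nsmul (hi : ∀ y : B'.Pt t', ((0, y) : (B.prod B').Pt (t, t')) ∈ Γ → y = 0)
    (h : Y ⊆ dom Γ) (n : ℕ) : img Γ ((n • ·) '' Y) = (n • ·) '' img Γ Y := by
  ext y
  constructor
  · rintro ⟨_, ⟨x, hx, rfl⟩, hy⟩
    obtain ⟨y₁, h1⟩ := mem_dom.1 (h hx)
    exact ⟨y₁, ⟨x, hx, h1⟩, uniq_of_inj hi (Γ.nsmul_mem h1 n) hy⟩
  · rintro ⟨y₁, ⟨x, hx, h1⟩, rfl⟩
    exact ⟨n • x, ⟨x, hx, rfl⟩, Γ.nsmul_mem h1 n⟩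

theorem Ctx_vadd {G : Type u} [AddCommGroup G] (g : G) (Z : Set G) : g +ᵥ Z = {g} + Z := by
  rw [Set.singleton_add]
  rfl

theorem Ctx_nsmul_add {G : Type u} [AddCommGroup G] (n : ℕ) (Z Z' : Set G) :
    (n • ·) '' (Z + Z') = (n • ·) '' Z + (n • ·) '' Z' :=
  Set.image_add (nsmulAddMonoidHom n : G →+ G)

end aux

theorem Ctx_dom (h : V ⊆ 𝒞.A₀) : ext 𝒞.c 𝒞.sb V ⊆ dom 𝒞.H := by
  rw [𝒞.dom_eq, coe_extS]
  exact ext_mono _ _ h

/-- The first coordinate of a point of `H` is determined by the second. -/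
theorem Ctx_uniq {x x' : A.Pt 𝒞.sb} {y : A.Pt 𝒞.s}
    (h : ((x, y) : (A.toPG.prod A.toPG).Pt (𝒞.sb, 𝒞.s)) ∈ 𝒞.H)
    (h' : ((x', y) : (A.toPG.prod A.toPG).Pt (𝒞.sb, 𝒞.s)) ∈ 𝒞.H) : x = x' :=
  uniq_of_inj 𝒞.qh'.inj (mem_swap.2 h) (mem_swap.2 h')

theorem Ctx_finite {Z : Set (A.Pt 𝒞.s)} (hZ : Z.Finite)
    (h : ∀ x ∈ V, ∃ y ∈ Z,
      ((A.map 𝒞.c 𝒞.hb x, y) : (A.toPG.prod A.toPG).Pt (𝒞.sb, 𝒞.s)) ∈ 𝒞.H) : V.Finite := by
  choose! f hf hf' using h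
  refine Set.Finite.of_injOn (f := f) hf (fun x hx x' hx' e => ?_) hZ
  exact map_inj 𝒞.c.injective 𝒞.hb (Ctx_uniq (hf' x hx) (e ▸ hf' x' hx'))

theorem var_ι (hV : Var V) (h : V ⊆ 𝒞.A₀) : Var (𝒞.ι V) :=
  𝒞.qh.var_img (var_ext hV 𝒞.c 𝒞.hb) (Ctx_dom h)
set_option linter.unusedVariables false in
theorem ι_add (h : V ⊆ 𝒞.A₀) (h' : V' ⊆ 𝒞.A₀) : 𝒞.ι (V + V') = 𝒞.ι V + 𝒞.ι V' := by
  rw [ι, ext_add 𝒞.hb, Ctx_img_add (Ctx_dom h)]
  rfl
theorem ι_nsmul (h : V ⊆ 𝒞.A₀) (n : ℕ) : 𝒞.ι ((n • ·) '' V) = (n • ·) '' 𝒞.ι V := by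
  rw [ι, ext_nsmul 𝒞.hb, Ctx_img_nsmul 𝒞.qh.inj (Ctx_dom h)]
  rfl
set_option linter.unusedVariables false in
theorem ι_infinite (hV : Var V) (h : V ⊆ 𝒞.A₀) (hi : V.Infinite) : (𝒞.ι V).Infinite := by
  refine fun hf => hi (Ctx_finite hf fun x hx => ?_)
  have h1 := map_mem_ext 𝒞.c 𝒞.hb hx
  obtain ⟨y, hy⟩ := mem_dom.1 (Ctx_dom h h1)
  exact ⟨y, ⟨_, h1, hy⟩, hy⟩
theorem sp_singleton (g : A.Pt 𝒞.s) : 𝒞.Sp {g} := by
  refine ⟨g, ⊥, {0}, var_singleton 0, var_singleton 0, Set.singleton_subset_iff.2 (zero_mem _), ?_⟩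
  have h1 : 𝒞.ι {0} = {0} := by
    rw [ι, ext_finite 𝒞.hb (Set.finite_singleton _), Set.image_singleton, map_zero]
    ext y
    constructor
    · rintro ⟨_, rfl, hy⟩
      exact 𝒞.qh.inj y hy
    · rintro rfl
      exact ⟨0, rfl, zero_mem 𝒞.H⟩
  rw [h1, AddSubgroup.coe_bot, Ctx_vadd, Set.singleton_add_singleton, Set.singleton_add_singleton,
    add_zero, add_zero]
theorem Sp.vadd (h : 𝒞.Sp X) (g : A.Pt 𝒞.s) : 𝒞.Sp (g +ᵥ X) := by
  obtain ⟨g₀, B, V, hB, hV, hA, rfl⟩ := h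
  exact ⟨g + g₀, B, V, hB, hV, hA, vadd_vadd _ _ _⟩
theorem Sp.add_ι (h : 𝒞.Sp X) (hV : Var V) (h' : V ⊆ 𝒞.A₀) : 𝒞.Sp (X + 𝒞.ι V) := by
  obtain ⟨g, B, V₀, hB, hV₀, hA, rfl⟩ := h
  refine ⟨g, B, V₀ + V, hB, hV₀.add hV, ?_, ?_⟩
  · rintro _ ⟨x, hx, y, hy, rfl⟩
    exact 𝒞.A₀.add_mem (hA hx) (h' hy)
  · rw [ι_add hA h', Ctx_vadd, Ctx_vadd, add_assoc, add_assoc]
theorem Sp.add_sub (h : 𝒞.Sp X) {S : AddSubgroup (A.Pt 𝒞.s)} (hS : Var (S : Set (A.Pt 𝒞.s))) :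
    𝒞.Sp (X + (S : Set (A.Pt 𝒞.s))) := by
  obtain ⟨g, B, V, hB, hV, hA, rfl⟩ := h
  refine ⟨g, B ⊔ S, V, hB.sup hS, hV, hA, ?_⟩
  rw [Geo5_sup, Ctx_vadd, Ctx_vadd, add_assoc, add_right_comm]
theorem Sp.of_nsmul (hX : Var X) {n : ℕ} (hn : n ≠ 0) (h : 𝒞.Sp ((n • ·) '' X)) : 𝒞.Sp X := by
  obtain ⟨g, B, V, hB, hV, hA, e⟩ := h
  obtain ⟨g', -, hg⟩ := 𝒞.tf.div (G := ⊤) 𝒞.var hn (AddSubgroup.mem_top g)
  obtain ⟨V', hV', hA', hn'⟩ := 𝒞.tfC.exists_div 𝒞.varA hn hV hA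
  have h1 : (n • ·) '' (B : Set (A.Pt 𝒞.s)) = B := by
    refine Set.Subset.antisymm ?_ fun x hx => 𝒞.tf.div hB hn hx
    rintro _ ⟨x, hx, rfl⟩
    exact B.nsmul_mem hx n
  obtain ⟨τ, -, rfl⟩ := 𝒞.tf.eq_vadd hn hX ((hB.add (var_ι hV' hA')).vadd g') (by
    rw [e, Ctx_vadd, Ctx_vadd, Ctx_nsmul_add, Ctx_nsmul_add, h1, ← ι_nsmul hA', hn',
      Set.image_singleton, hg])
  exact Sp.vadd ⟨g', B, V', hB, hV', hA', rfl⟩ τ

theorem stab_loc_finite {F : Type u} [Field F] [IsAlgClosed F] {i : K →+* F} {j : F →+* Ω}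
    {s' sb' : A.Str Ω} {sF : A.Str F} (h : A.push (j.comp i) 𝒞.s = s')
    (hb : A.push (j.comp i) 𝒞.sb = sb') (hF : A.push i 𝒞.sb = sF) {z b : A.Pt s'} {a : A.Pt sb'}
    (hz : (Stab (loc (j.comp i) 𝒞.s z) : Set (A.Pt 𝒞.s)).Finite) (hr : Rat j.fieldRange b)
    (ha : ((a, z - b) : (A.toPG.prod A.toPG).Pt (sb', s')) ∈ extG hb h 𝒞.H) :
    (Stab (loc j sF a) : Set (A.Pt sF)).Finite := by
  have hj : A.push j sF = sb' := by rw [← hF, A.ax.push_comp, hb]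
  have hj' : A.push j (A.push i 𝒞.s) = s' := by rw [A.ax.push_comp, h]
  have hC := push_trans 𝒞.hb hF
  have hX := var_loc hj a
  obtain ⟨S₀, hS₀⟩ := exists_idc (cl_stab hX.1)
  obtain ⟨T₀, -, rfl⟩ := A.rig 𝒞.tfC hC hS₀.var
  refine hS₀.finite ?_
  suffices hT : (T₀ : Set (A.Pt 𝒞.sC)).Finite by
    rw [coe_extS, ext_finite hC hT]
    exact hT.image _
  -- the locus of `a` lies in the constant group
  have hA : loc j sF a ⊆ extS hC 𝒞.A₀ := by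
    have h1 : a ∈ dom (extG hb h 𝒞.H) := mem_dom.2 ⟨_, ha⟩
    rw [dom_ext, 𝒞.dom_eq, extS_extS, mem_extS] at h1
    rw [coe_extS]
    refine loc_subset (cl_ext _ _ _) ?_
    rw [ext_ext _ _ hC]
    exact h1
  obtain ⟨b₀, rfl⟩ := (rat_range_iff j hj').1 hr
  refine Ctx_finite hz fun σ hσ => ?_
  have h1 : A.map _ hC σ ∈ Stab (loc j sF a) := hS₀.le (map_mem_ext _ hC hσ)
  have h2 : σ ∈ 𝒞.A₀ := by
    obtain ⟨x, hx⟩ := hX.2.1
    have h3 := (extS hC 𝒞.A₀).sub_mem (hA ((h1 x).1 hx)) (hA hx)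
    rw [add_sub_cancel_right] at h3
    exact (map_mem_ext_iff _ hC 𝒞.varA.1).1 h3
  obtain ⟨w, hw⟩ := mem_dom.1 (Ctx_dom (V := 𝒞.A₀) subset_rfl (map_mem_ext 𝒞.c 𝒞.hb h2))
  refine ⟨w, mem_stab_of_subset (cl_loc _ _) (vadd_loc_subset h (cl_loc _ _) ?_), hw⟩
  have h3 : A.map j hj (A.map _ hC σ) + a ∈ ext j sb' (loc j sF a) := by
    rw [← mem_stab.1 h1, ext_vadd hj]
    exact Set.vadd_mem_vadd_set (mem_ext_loc hj a)
  obtain ⟨P, hP, -⟩ := place_ex hj hj h3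
  have h4 := red_mem_ext (P.restrict i) (((P.restrict i).red_eq_iff (A := A.toPG.prod A.toPG)
    (prod_push hb h) (prod_push hb h)).1 rfl) ha
  rw [Place.red_prod] at h4
  have h5 : (P.restrict i).red hb hb a = A.map j hj (A.map _ hC σ) + a :=
    (P.red_restrict i hF hj hj a).trans hP
  have h6 : (P.restrict i).red h h (z - A.map j hj' b₀) =
      (P.restrict i).red h h z - A.map j hj' b₀ := by
    rw [map_sub]
    exact congrArg _ ((P.red_restrict i rfl hj' hj' _).trans (P.red_map hj' hj' b₀))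
  have h7 : ((A.map j hj (A.map _ hC σ) + a, (P.restrict i).red h h z - A.map j hj' b₀) :
      (A.toPG.prod A.toPG).Pt (sb', s')) ∈ extG hb h 𝒞.H := by
    rw [← h5, ← h6]
    exact h4
  have h8 : ((A.map _ hb (A.map _ 𝒞.hb σ), A.map _ h w) : (A.toPG.prod A.toPG).Pt (sb', s')) ∈
      extG hb h 𝒞.H := map_mem_ext (A := A.toPG.prod A.toPG) _ (prod_push hb h) hw
  have h9 : A.map j hj (A.map _ hC σ) = A.map _ hb (A.map _ 𝒞.hb σ) := by
    rw [PG.map_map, PG.map_map]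
    rfl
  rw [h9] at h7
  have h10 := 𝒞.qh.ext_uniq hb h h7 ((extG hb h 𝒞.H).add_mem h8 ha)
  have h11 : A.map _ h w + z = (P.restrict i).red h h z := by
    rw [← add_sub_assoc] at h10
    exact (sub_left_inj.1 h10).symm
  rw [h11]
  exact red_mem_ext (P.restrict i) (((P.restrict i).red_eq_iff h h).1 rfl) (mem_ext_loc h z)

theorem loc_eq_add {j : K →+* Ω} {s' sb' : A.Str Ω} (h : A.push j 𝒞.s = s')
    (hb : A.push j 𝒞.sb = sb') {E F : Subfield Ω} (hE : j.fieldRange ≤ E) (hF : j.fieldRange ≤ F)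
    (hLD : LD j.fieldRange E F) {v : A.Pt sb'} {w b : A.Pt s'} (hv : Rat E v) (hr : Rat F b)
    (hw : ((v, w) : (A.toPG.prod A.toPG).Pt (sb', s')) ∈ extG hb h 𝒞.H) :
    loc j 𝒞.s (b + w) = loc j 𝒞.s b + img 𝒞.H (loc j 𝒞.sb v) := by
  have hE' := hE.trans (le_acl E)
  have hF' := hF.trans (le_acl F)
  rw [loc_add_ld h hF' hE' ((hLD.acl hE hF).symm hE' hF') (hr.mono (le_acl F))
    (𝒞.qh.rat_acl hb h hE' hw (hv.mono (le_acl E))), 𝒞.qh.loc hb h hw]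

end Ctx

end MLF
end

-- merged part: Pool.Agent.Work.MP_29d410_ag.Out1
section
/-!
# Special subvarieties in terms of graphs

Plan.  `QH.comp`: if `(ξ, η)` is generic in `Γ` and `(η, ζ) ∈ extG Γ'` (`dom_ext`) then the composite is
`loc (ξ, ζ)` (places, `mem_loc_iff`, `QH.ext_inj`).
`exists_ext_sub`: the identity component of `G'` is `extS S` (`SPG.rig`); if `f ∈ G'` then `n f = n a` with
`a ∈ extS S` (`IdC.nsmul_mem`, `TorsFin.div`), and `f - a` is rational over `k` (`TorsFin.rat`); so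
`G'` is a finite union of translates of `extS S` by points over `k` (`ext_vadd`, `ext_biUnion`).
`out_of_sp`: `X = g + B + ι V`.  `imgS (swap H) B = extS G₁` with `G₁ ≤ A₀` closed; take `Φ` from
`exists_quot`, `Γ = comp (swap H) (extG Φ) ⊔ B × 0`, `X₀ = img Φ V` (`img_ext`, `ker_ext`, `ran_ext`).
-/

open Pointwise

namespace MLF

universe u

open PG

section comp

variable {A B D : PG.{u}} {k : Type u} [Field k] {s : A.Str k} {t : B.Str k} {r : D.Str k}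

/-- Composition of graphs. -/
def PG.comp (Γ : AddSubgroup ((A.prod B).Pt (s, t))) (Γ' : AddSubgroup ((B.prod D).Pt (t, r))) :
    AddSubgroup ((A.prod D).Pt (s, r)) where
  carrier := {z | ∃ y : B.Pt t, ((z.1, y) : (A.prod B).Pt (s, t)) ∈ Γ ∧
    ((y, z.2) : (B.prod D).Pt (t, r)) ∈ Γ'}
  zero_mem' := ⟨0, Γ.zero_mem, Γ'.zero_mem⟩
  add_mem' := fun ⟨y, h, h'⟩ ⟨y', e, e'⟩ => ⟨y + y', Γ.add_mem h e, Γ'.add_mem h' e'⟩
  neg_mem' := fun ⟨y, h, h'⟩ => ⟨-y, Γ.neg_mem h, Γ'.neg_mem h'⟩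

theorem PG.QH.comp [IsAlgClosed k] {Γ : AddSubgroup ((A.prod B).Pt (s, t))}
    {Γ' : AddSubgroup ((B.prod D).Pt (t, r))} (h : QH Γ) (h' : QH Γ') (e : ran Γ ≤ dom Γ') :
    QH (PG.comp Γ Γ') := by
  refine ⟨?_, fun z ⟨y, h1, h2⟩ => h'.inj z (h.inj y h1 ▸ h2)⟩
  obtain ⟨T, _, _, j, ⟨ξ, η⟩, hl, hm⟩ := h.var.exists_gen
  have h1 : η ∈ dom (extG (rfl : B.push j t = _) (rfl : D.push j r = _) Γ') := by
    rw [dom_ext]
    exact ext_mono j _ e (snd_mem_ext rfl rfl hm)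
  obtain ⟨ζ, hζ⟩ := mem_dom.1 h1
  have h2 : PG.loc (A := A.prod D) j (s, r) (s' := (A.push j s, D.push j r)) (ξ, ζ) =
      PG.comp Γ Γ' := by
    ext z
    rw [mem_loc_iff (A := A.prod D) (prod_push rfl rfl)]
    constructor
    · rintro ⟨P, rfl⟩
      have a1 := (mem_ext_iff (A := A.prod B) (prod_push rfl rfl) h.var.1).1 hm P
      have a2 := (mem_ext_iff (A := B.prod D) (prod_push rfl rfl) h'.var.1).1 hζ P
      rw [Place.red_prod] at a1 a2 ⊢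
      exact ⟨_, a1, a2⟩
    · rintro ⟨y, h3, h4⟩
      have h5 : ((z.1, y) : (A.prod B).Pt (s, t)) ∈
          PG.loc (A := A.prod B) j (s, t) (s' := (A.push j s, B.push j t)) (ξ, η) := hl.ge h3
      obtain ⟨P, hP⟩ := (mem_loc_iff (A := A.prod B) (prod_push rfl rfl)).1 h5
      have a2 := (mem_ext_iff (A := B.prod D) (prod_push rfl rfl) h'.var.1).1 hζ P
      rw [Place.red_prod] at a2 hP
      refine ⟨P, ?_⟩
      rw [Place.red_prod]
      refine Prod.ext (congrArg Prod.fst hP :) (uniq_of_inj h'.inj ?_ h4)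
      rw [← show _ = y from congrArg Prod.snd hP]
      exact a2
  rw [← h2]
  exact var_loc (A := A.prod D) (prod_push rfl rfl) _

end comp

theorem SPG.exists_ext_sub (A : SPG.{u}) {k k' : Type u} [Field k] [IsAlgClosed k] [Field k']
    [IsAlgClosed k'] {s : A.Str k} (hs : A.TorsFin s) {j : k →+* k'} {s' : A.Str k'}
    (h : A.push j s = s') {G' : AddSubgroup (A.Pt s')} (hG : Cl (G' : Set (A.Pt s'))) :
    ∃ G : AddSubgroup (A.Pt s), Cl (G : Set (A.Pt s)) ∧ extS h G = G' := by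
  obtain ⟨G₀, h₀⟩ := exists_idc hG
  obtain ⟨S, hS, rfl⟩ := A.rig hs h h₀.var
  obtain ⟨n, hn, hm⟩ := h₀.nsmul_mem
  have hT : {τ : A.Pt s | n • τ = 0 ∧ A.map j h τ ∈ G'}.Finite := (hs n hn).subset fun _ h => h.1
  have hY := cl_biUnion hT (X := fun τ => τ +ᵥ (S : Set (A.Pt s))) fun τ _ => hS.1.vadd τ
  obtain ⟨G, h1, h2⟩ := exists_sub_of_ext h hY (G := G') (by
    rw [ext_biUnion hT]
    ext f
    simp only [Set.mem_iUnion, ext_vadd h, Geo5_vadd]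
    constructor
    · rintro ⟨τ, hτ, hf⟩
      have := G'.add_mem (h₀.le hf) hτ.2
      rwa [sub_add_cancel] at this
    · intro hf
      obtain ⟨a, ha, e⟩ := (hs.ext h).div h₀.var hn (hm f hf)
      have e' : n • (f - a) = 0 := by rw [smul_sub, e, sub_self]
      obtain ⟨τ, hτ⟩ := (rat_range_iff j h).1 (hs.rat h hn (y := f - a)
        (e' ▸ PG.Rat.zero (def_range j s h le_rfl)))
      refine ⟨τ, ⟨map_inj j.injective h ?_, hτ ▸ G'.sub_mem hf (h₀.le ha)⟩, ?_⟩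
      · rw [map_nsmul, hτ, e', map_zero]
      · rw [hτ, sub_sub_cancel]
        exact ha)
  exact ⟨G, h1 ▸ hY, h2⟩

/-- `X` is a translate of the preimage of a variety over the small field. -/
def Out {G : PG.{u}} {C K : Type u} [Field C] [Field K] [IsAlgClosed K] (c : C →+* K) {s : G.Str K}
    (X : Set (G.Pt s)) : Prop :=
  ∃ (B : SPG.{u}) (tB : B.Str C) (t : B.Str K) (_ : B.push c tB = t)
    (Γ : AddSubgroup ((G.prod B.toPG).Pt (s, t))) (g : G.Pt s) (X₀ : Set (B.Pt tB)),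
    Var (Set.univ : Set (B.Pt tB)) ∧ QH Γ ∧ ran Γ = ⊤ ∧ Var X₀ ∧
      X = g +ᵥ img (swap Γ) (ext c t X₀)

theorem Ctx.out_of_sp {p : ℕ} [Fact p.Prime] {A : SPG.{u}} {C K : Type u} [Field C] [IsAlgClosed C]
    [CharP C p] [Field K] [IsAlgClosed K] [CharP K p] (𝒞 : Ctx p A C K) {X : Set (A.Pt 𝒞.s)}
    (h : 𝒞.Sp X) : Out 𝒞.c X := by
  obtain ⟨g, B, V, hB, hV, hVA, rfl⟩ := h
  obtain ⟨G₁, hG₁, hG⟩ := A.exists_ext_sub 𝒞.tfC 𝒞.hb (G' := imgS (swap 𝒞.H) B)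
    (coe_imgS (Γ := swap 𝒞.H) B ▸ cl_img_swap 𝒞.qh.var.1 hB.1)
  have hle : G₁ ≤ 𝒞.A₀ := by
    refine (ext_subset_ext_iff 𝒞.c 𝒞.hb 𝒞.varA.1).1 ?_
    rw [← coe_extS 𝒞.hb, ← coe_extS 𝒞.hb, hG, ← 𝒞.dom_eq]
    intro a ha
    obtain ⟨b, -, hb⟩ := Hyp_mem_imgS.1 ha
    exact mem_dom.2 ⟨b, mem_swap.1 hb⟩
  obtain ⟨B', tB, Φ, hv, hΦ, hd, hr, hk⟩ := A.exists_quot 𝒞.tfC 𝒞.varA hle hG₁
  obtain ⟨t, ht⟩ : ∃ t, B'.push 𝒞.c tB = t := ⟨_, rfl⟩
  have hΦ' := hΦ.ext 𝒞.hb ht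
  have hd' : dom (extG 𝒞.hb ht Φ) = dom 𝒞.H := by rw [dom_ext, hd, 𝒞.dom_eq]
  have hk' : ker (extG 𝒞.hb ht Φ) = imgS (swap 𝒞.H) B := by rw [ker_ext hΦ.var.1, hk, hG]
  have h₀ := 𝒞.qh'.comp hΦ' fun a ha => by
    obtain ⟨b, hb⟩ := mem_ran.1 ha
    exact hd'.ge (mem_dom.2 ⟨b, mem_swap.1 hb⟩)
  obtain ⟨Γ, hΓv, hΓ⟩ : ∃ Γ : AddSubgroup ((A.toPG.prod B'.toPG).Pt (𝒞.s, t)),
      Var (A := A.toPG.prod B'.toPG) (s := (𝒞.s, t)) Γ ∧ ∀ x y,
      ((x, y) : (A.toPG.prod B'.toPG).Pt (𝒞.s, t)) ∈ Γ ↔ ∃ b ∈ B, ∃ a,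
        ((a, x - b) : (A.toPG.prod A.toPG).Pt (𝒞.sb, 𝒞.s)) ∈ 𝒞.H ∧
        ((a, y) : (A.toPG.prod B'.toPG).Pt (𝒞.sb, t)) ∈ extG 𝒞.hb ht Φ := by
    refine ⟨PG.comp (swap 𝒞.H) (extG 𝒞.hb ht Φ) ⊔ B.prod ⊥,
      Var.sup h₀.var (hB.sprod (var_singleton (0 : B'.Pt t))), fun x y => ?_⟩
    rw [AddSubgroup.mem_sup]
    constructor
    · rintro ⟨z, ⟨a, h1, h2⟩, w, ⟨h3, h4⟩, e⟩
      have e1 : z.1 + w.1 = x := congrArg Prod.fst e
      have e2 : z.2 + w.2 = y := congrArg Prod.snd e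
      have e3 : w.2 = 0 := h4
      rw [e3, add_zero] at e2
      refine ⟨w.1, h3, a, ?_, e2 ▸ h2⟩
      rw [← e1, add_sub_cancel_right]
      exact mem_swap.1 h1
    · rintro ⟨b, hb, a, h1, h2⟩
      exact ⟨(x - b, y), ⟨a, mem_swap.2 h1, h2⟩, (b, 0), ⟨hb, rfl⟩,
        Prod.ext (sub_add_cancel x b) (add_zero y)⟩
  refine ⟨B', tB, t, ht, Γ, g, img Φ V, hv, ⟨hΓv, fun y hy => ?_⟩, eq_top_iff.2 fun y _ => ?_,
    hΦ.var_img hV (hd ▸ hVA), ?_⟩
  · obtain ⟨b, hb, a, h1, h2⟩ := (hΓ _ _).1 hy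
    have h3 : a ∈ ker (extG 𝒞.hb ht Φ) :=
      hk'.ge (Hyp_mem_imgS.2 ⟨0 - b, B.sub_mem B.zero_mem hb, mem_swap.2 h1⟩)
    exact uniq_of_inj hΦ'.inj h2 (mem_ker.1 h3)
  · have h1 : y ∈ ran (extG 𝒞.hb ht Φ) := by
      rw [ran_ext, hr, mem_extS, AddSubgroup.coe_top, ext_univ ht]
      trivial
    obtain ⟨a, ha⟩ := mem_ran.1 h1
    obtain ⟨x, hx⟩ := mem_dom.1 (hd'.le (mem_dom.2 ⟨y, ha⟩))
    exact mem_ran.2 ⟨x, (hΓ _ _).2 ⟨0, B.zero_mem, a, (sub_zero x).symm ▸ hx, ha⟩⟩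
  · rw [← img_ext hΦ.var.1 𝒞.hb ht hV.1]
    congr 1
    ext x
    constructor
    · rintro ⟨b, hb, x, ⟨a, ha, hx⟩, rfl⟩
      obtain ⟨y, hy⟩ := mem_dom.1 (hd'.ge (mem_dom.2 ⟨x, hx⟩))
      refine ⟨y, ⟨a, ha, hy⟩, mem_swap.2 ((hΓ _ _).2 ⟨b, hb, a, ?_, hy⟩)⟩
      rw [add_sub_cancel_left]
      exact hx
    · rintro ⟨y, ⟨a, ha, hy⟩, hx⟩
      obtain ⟨b, hb, a₁, h1, h2⟩ := (hΓ _ _).1 (mem_swap.1 hx)
      have h3 : a₁ - a ∈ ker (extG 𝒞.hb ht Φ) := by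
        have := (extG 𝒞.hb ht Φ).sub_mem h2 hy
        rw [mem_ker, ← sub_self y]
        exact this
      obtain ⟨b', hb', h4⟩ := Hyp_mem_imgS.1 (hk'.le h3)
      refine ⟨b + b', B.add_mem hb hb', x - b - b', ⟨a, ha, ?_⟩,
        show b + b' + (x - b - b') = x by abel⟩
      have := 𝒞.H.sub_mem h1 (mem_swap.1 h4)
      rw [← sub_sub_cancel a₁ a]
      exact this

end MLF
end

-- merged part: Pool.Agent.Work.MP_29d410_ag.Out2
section
/-!
# Change of fields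

Plan.  `Out.descend`: the graph is `extG Γ₁` by `SPG.rig` for the product (`TorsFin.prod`,
`TorsFin.ext`, `hB`); `QH.of_ext`, `ran_ext`, `swap_ext`, `img_ext`, `ext_ext`.  With
`Y₁ = img (swap Γ₁) (ext X₀)` one has `ext X₁ = g + ext Y₁`; reduce along a place of `K` over `K₁`
(`exists_place_self`, `red_mem_ext`, `Place.red_map`).  `Out.ascend`, `Out.base`: extension of scalars
(`var_ext`, `ext_univ`, `ext_ext`, `ext_vadd`).
-/

open Pointwise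

namespace MLF

universe u

open PG

variable {C K₁ K : Type u} [Field C] [IsAlgClosed C] [Field K₁] [IsAlgClosed K₁] [Field K]
  [IsAlgClosed K]

theorem Out2_img {G B : PG.{u}} {c : C →+* K₁} {i : K₁ →+* K} {s₁ : G.Str K₁} {s : G.Str K}
    (h : G.push i s₁ = s) {tB : B.Str C} {t₁ : B.Str K₁} {t : B.Str K} (e₀ : B.push c tB = t₁)
    (e : B.push i t₁ = t) {Γ : AddSubgroup ((G.prod B).Pt (s₁, t₁))}
    (hΓ : Cl (A := G.prod B) (s := (s₁, t₁)) Γ) (X₀ : Set (B.Pt tB)) :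
    img (swap (extG h e Γ)) (ext (i.comp c) t X₀) = ext i s (img (swap Γ) (ext c t₁ X₀)) := by
  rw [swap_ext hΓ h e, ← ext_ext c i e₀ t X₀]
  exact img_ext (Γ := swap Γ) hΓ.swap e h (cl_ext c t₁ X₀)

theorem Out.descend {G : SPG.{u}} {c : C →+* K₁} {i : K₁ →+* K} {s₁ : G.Str K₁} {s : G.Str K}
    (h : G.push i s₁ = s) (hs : G.TorsFin s₁) (hB : ∀ (B : SPG.{u}) (t : B.Str C), B.TorsFin t)
    {X₁ : Set (G.Pt s₁)} (hX : Cl X₁) (ho : Out (i.comp c) (ext i s X₁)) : Out c X₁ := by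
  obtain ⟨B, tB, t, e, Γ, g, X₀, hU, hΓ, hr, hX₀, hE⟩ := ho
  have e₁ : B.push i (B.push c tB) = t := (B.ax.push_comp c i tB).trans e
  obtain ⟨Γ₁, hV, rfl⟩ := SPG.rig (G.prod B) (s := (s₁, B.push c tB))
    (TorsFin.prod hs (TorsFin.ext (hB B tB) rfl)) (s' := (s, t)) (prod_push h e₁) hΓ.var
  have hY : Cl (img (swap Γ₁) (ext c (B.push c tB) X₀)) := cl_img_swap hV.1 (cl_ext _ _ _)
  have hE' : ext i s X₁ = g +ᵥ ext i s (img (swap Γ₁) (ext c (B.push c tB) X₀)) := by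
    rw [← Out2_img h rfl e₁ hV.1]
    exact hE
  obtain ⟨P, -⟩ := exists_place_self i
  have hP : ∀ x, P.red h (G.ax.push_id s₁) (G.map i h x) = x := fun x => by
    rw [P.red_map, map_id' (fun _ => rfl)]
  refine ⟨B, tB, _, rfl, Γ₁, P.red h (G.ax.push_id s₁) g, X₀, hU, QH.of_ext hV.1 h e₁ hΓ, ?_, hX₀,
    Set.Subset.antisymm (fun x hx => ?_) ?_⟩
  · refine top_le_iff.1 fun y _ => (map_mem_ext_iff i e₁ (var_ran hV).1).1 ?_
    have h1 : B.map i e₁ y ∈ ran (extG h e₁ Γ₁) := by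
      have h2 : ran (extG h e₁ Γ₁) = ⊤ := hr
      rw [h2]
      trivial
    rwa [ran_ext] at h1
  · have h1 := map_mem_ext i h hx
    rw [hE'] at h1
    obtain ⟨y, hy, h2⟩ := h1
    refine ⟨P.red h (G.ax.push_id s₁) y, hY (red_mem_ext P ((P.red_eq_iff _ _).1 rfl) hy), ?_⟩
    have h3 : g + y = G.map i h x := h2
    change P.red h (G.ax.push_id s₁) g + P.red h (G.ax.push_id s₁) y = x
    rw [← map_add, h3, hP]
  · rintro _ ⟨y, hy, rfl⟩
    have h1 : g + G.map i h y ∈ ext i s X₁ := by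
      rw [hE']
      exact ⟨_, map_mem_ext i h hy, rfl⟩
    have h2 := hX (red_mem_ext P ((P.red_eq_iff h (G.ax.push_id s₁)).1 rfl) h1)
    rwa [map_add, hP] at h2

theorem Out.ascend {G : PG.{u}} {c : C →+* K₁} {i : K₁ →+* K} {s₁ : G.Str K₁} {s : G.Str K}
    (h : G.push i s₁ = s) {X₁ : Set (G.Pt s₁)} (ho : Out c X₁) :
    Out (i.comp c) (ext i s X₁) := by
  obtain ⟨B, tB, t, e, Γ, g, X₀, hU, hΓ, hr, hX₀, rfl⟩ := ho
  refine ⟨B, tB, B.push i t, push_trans e rfl, extG h rfl Γ, G.map i h g, X₀, hU, hΓ.ext h rfl, ?_,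
    hX₀, ?_⟩
  · rw [ran_ext, hr]
    exact SetLike.coe_injective (ext_univ rfl)
  · rw [ext_vadd h, Out2_img h e rfl hΓ.var.1]

theorem Out.base {G : PG.{u}} {c : C →+* K₁} {i : K₁ →+* K} {s : G.Str K} {X : Set (G.Pt s)}
    (ho : Out (i.comp c) X) : Out i X := by
  obtain ⟨B, tB, t, e, Γ, g, X₀, hU, hΓ, hr, hX₀, rfl⟩ := ho
  refine ⟨B, B.push c tB, t, (B.ax.push_comp c i tB).trans e, Γ, g, ext c _ X₀, ?_, hΓ, hr,
    var_ext hX₀ c rfl, ?_⟩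
  · rw [← ext_univ (j := c) (s := tB) rfl]
    exact var_ext hU c rfl
  · rw [ext_ext c i rfl]

end MLF
end

-- merged part: Pool.Agent.Work.MP_29d410_ag.CaseB
section
/-!
# The case of bounded level

Plan for `const_part`.  Amalgamate two copies `ψ₁`, `ψ₂` of `Ω` over `F` (`amalg`);
`c = ψ₂ a - ψ₁ a` is constant (`good_sub`; the structure comes from `C ⊆ cst`).  Over `Ω` (embedded by
`ψ₁`): `loc (ψ₂ a) = ext V` (`genLD`), so `loc c = ext V - a`, and `loc c = ext W`, `W` its locus over the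
constants of `Ω` (`genLD`, `Mor.sld1` for `ψ₁`).  `F` and `𝒯.cst` are disjoint over `C` (`Mor.sld1`).
`tc` gives `V₁`, `a₁`, and `tu` (over `𝒯.cst`, `stab_vadd`, `stab_ext_finite`) the last claim.
Plan for `caseB`.  `Γ` a projector for `ran H ≤ ⊤`, `(x, b) ∈ ext Γ`, `B = ran Γ` is trace free
(`tf_ran`), `b` is good for `B` (`Good.img`), `N x - b` is good for `ran H` (`Good.proj`),
`(a, N x - b) ∈ ext H`, `a` is good for `dom H` (`Good.img` for `swap H`).  `F = acl K(b)` carries a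
setting (`good_dcl`, `Mor.factor`) with constants `C` (`orth`).  `loc a` over `F` has finite stabiliser
(`stab_loc_finite`, `TorsFin.stab_nsmul`).  `const_part`: `loc a = a₁ + ext V₁`, `a - a₁` constant.
Amalgamate two copies `φ₁`, `φ₂` of `Ω` over `K`: `φ₁ a₁ - φ₂ a₁` is constant (`good_sub` for `a`) and
rational over `acl K(φ₁ b, φ₂ b)`, so rational over `C` (`orth` for the product, `Good.prod`,
`adj_rat_prod`); hence `φ₁ a₁` is rational over `φ₁ Ω ⊓ φ₂ Ω = K`.  So `a₁` comes from `a₂ ∈ dom H`,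
`(a₂, g) ∈ H`, `v = a - a₁` has locus `ext V₁` over `F`, hence over `K`, and is free from `F` over `K`
(`ld_of_rk`); `V₁ ⊆ A₀`; `loc b = b₀ + S` over `K` (`co` with `i = id`); `loc_eq_add` gives
`N X = g + b₀ + S + ι V₁`; `Sp.of_nsmul`.
-/

open Pointwise

namespace MLF

universe u

open PG Sett

variable {p : ℕ} [Fact p.Prime] {A : SPG.{u}} {C K Ω : Type u} [Field C] [IsAlgClosed C] [CharP C p]
  [Field K] [IsAlgClosed K] [CharP K p] [Field Ω] [IsAlgClosed Ω] [CharP Ω p]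

theorem SPG.const_part {F : Type u} [Field F] [IsAlgClosed F] [CharP F p] {c : C →+* K}
    {i : K →+* F} {j : F →+* Ω} {𝒮 : Sett p K} {𝒮F : Sett p F} {𝒯 : Sett p Ω} (hj : Mor 𝒮F 𝒯 j)
    (hc : 𝒮F.cst = (i.comp c).fieldRange) {sC : A.Str C} {sb : A.Str K} {sF : A.Str F}
    {s' : A.Str Ω} (hb : A.push c sC = sb) (hF : A.push i sb = sF) (h : A.push j sF = s')
    {D : AddSubgroup (A.Pt sb)} {a : A.Pt s'} (ha : Good 𝒮 𝒯 (push_trans hF h) D a)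
    (hS : (Stab (loc j sF a) : Set (A.Pt sF)).Finite) {D₀ : Set (A.Pt sC)}
    (hD : a ∈ ext (j.comp (i.comp c)) s' D₀) :
    ∃ (V₁ : Set (A.Pt sC)) (a₁ : A.Pt sF), Var V₁ ∧ a₁ ∈ ext (i.comp c) sF D₀ ∧
      loc j sF a = a₁ +ᵥ ext (i.comp c) sF V₁ ∧ Rat 𝒯.cst (a - A.map j h a₁) := by
  obtain ⟨E, _, _, _, 𝒯', ψ₁, ψ₂, h₁, h₂, hψ, hLD⟩ := amalg hj hj
  have hcF : A.push (i.comp c) sC = sF := push_trans hb hF
  have hcΩ : ∀ z, (j.comp (i.comp c)) z ∈ 𝒯.cst := fun z => hj.cst.2 (hc ▸ ⟨z, rfl⟩)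
  obtain ⟨s'', e₁⟩ : ∃ s'', A.push ψ₁ s' = s'' := ⟨_, rfl⟩
  have e₂ : A.push ψ₂ s' = s'' := by
    rw [← e₁, ← h, A.ax.push_comp, A.ax.push_comp, hψ]
  have hs : A.Def 𝒯'.cst s'' :=
    def_range _ sC (push_trans (push_trans hcF h) e₁) (by
      rintro _ ⟨z, rfl⟩
      exact h₁.cst.2 (hcΩ z))
  have hcc := good_sub ha h₂ h₁ (by rw [← RingHom.comp_assoc, ← hψ, RingHom.comp_assoc]) e₂ e₁ hs
  obtain ⟨i₂, hi₂⟩ : ∃ i₂ : C →+* 𝒯.cst, 𝒯.cst.subtype.comp i₂ = j.comp (i.comp c) :=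
    ⟨(j.comp (i.comp c)).codRestrict _ hcΩ, rfl⟩
  obtain ⟨sκ, hκ⟩ : ∃ sκ, A.push i₂ sC = sκ := ⟨_, rfl⟩
  have hκ' : A.push 𝒯.cst.subtype sκ = s' := by
    rw [← hκ, A.ax.push_comp, hi₂]
    exact push_trans hcF h
  have r1 : (ψ₁.comp 𝒯.cst.subtype).fieldRange = 𝒯.cst.map ψ₁ := by
    rw [← Rig_map_range, Subfield.fieldRange_subtype]
  have l1 : loc ψ₁ s' (A.map ψ₂ e₂ a) = ext j s' (loc j sF a) := by
    rw [genLD j ψ₁ h e₁ (F := ψ₂.fieldRange) (by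
      rw [hψ]
      rintro _ ⟨z, rfl⟩
      exact ⟨j z, rfl⟩) ((rat_range_iff ψ₂ e₂).2 ⟨a, rfl⟩) hLD, hψ, loc_map ψ₂.injective]
  have l2 := genLD 𝒯.cst.subtype ψ₁ hκ' e₁ (F := 𝒯'.cst) (by
      rw [r1]
      rintro _ ⟨z, hz, rfl⟩
      exact h₁.cst.2 hz) hcc (r1 ▸ h₁.sld1)
  obtain ⟨W, hW⟩ : ∃ W, loc (ψ₁.comp 𝒯.cst.subtype) sκ (A.map ψ₂ e₂ a - A.map ψ₁ e₁ a) = W :=
    ⟨_, rfl⟩
  have vW : Var W := hW ▸ var_loc (push_trans hκ' e₁) _
  have l3 : ext j s' (loc j sF a) = a +ᵥ ext 𝒯.cst.subtype s' W := by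
    rw [← hW, ← l2, ← l1, ← loc_vadd e₁, add_sub_cancel]
  have hLD' : LD (j.comp (i.comp c)).fieldRange j.fieldRange 𝒯.cst.subtype.fieldRange := by
    rw [Subfield.fieldRange_subtype, ← Rig_map_range, ← hc]
    exact hj.sld1
  obtain ⟨V₁, a₁, hV₁, ha₁, hV⟩ := tc hi₂.symm hLD' hcF hκ h hκ' (var_loc h a) vW l3 hD
  refine ⟨V₁, a₁, hV₁, ha₁, hV, ?_⟩
  have f1 : (Stab W : Set (A.Pt sκ)).Finite := by
    rw [← stab_ext_finite hκ' vW.1, ← stab_vadd _ a, ← l3, stab_ext_finite h (var_loc h a).1]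
    exact hS
  have := tu hκ' vW (var_ext hV₁ i₂ hκ) f1 (d := a - A.map j h a₁) (by
    rw [ext_ext _ _ hκ, hi₂, ← ext_ext _ _ hcF, sub_eq_neg_add, add_vadd, ← l3, hV, ext_vadd h,
      neg_vadd_vadd])
  rwa [Subfield.fieldRange_subtype] at this

omit [IsAlgClosed Ω] in
theorem CaseB_congr {A : PG.{u}} {𝒮 : Sett p K} {𝒯 : Sett p Ω} {j j' : K →+* Ω} (e : j = j')
    {s : A.Str K} {s' : A.Str Ω} {h : A.push j s = s'} (h' : A.push j' s = s')
    {D : AddSubgroup (A.Pt s)} {x : A.Pt s'} (hx : Good 𝒮 𝒯 h D x) : Good 𝒮 𝒯 h' D x := by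
  subst e
  exact hx

omit [IsAlgClosed C] [CharP C p] in
/-- The non constant part of a good point of the constant group comes from the ground field. -/
theorem CaseB_rat {c : C →+* K} {𝒮 : Sett p K} (h𝒮 : 𝒮.cst = c.fieldRange) {𝒯 : Sett p Ω}
    {j : K →+* Ω} (hj : Mor 𝒮 𝒯 j) {sC : A.Str C} {s sb : A.Str K} {s' sb' : A.Str Ω}
    (hC : A.push c sC = sb) (h : A.push j s = s') (h' : A.push j sb = sb')
    (hv : Var (Set.univ : Set (A.Pt s))) (ht : A.TorsFin s) (hl : A.Lifts s)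
    {B : AddSubgroup (A.Pt s)} (hB : TF 𝒮.cst B) (hc : Cl (B : Set (A.Pt s))) {b : A.Pt s'}
    (hb : Good 𝒮 𝒯 h B b) {D : AddSubgroup (A.Pt sb)} {a a₁ : A.Pt sb'} (ha : Good 𝒮 𝒯 h' D a)
    (r₁ : Rat (acl (adj j.fieldRange (rat b))) a₁) (r₂ : Rat 𝒯.cst (a - a₁)) :
    Rat j.fieldRange a₁ := by
  obtain ⟨E, _, _, _, 𝒯', φ₁, φ₂, h₁, h₂, hφ, hLD⟩ := amalg hj hj
  obtain ⟨t, e₁⟩ : ∃ t, A.push φ₁ s' = t := ⟨_, rfl⟩
  have e₂ : A.push φ₂ s' = t := by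
    rw [← e₁, ← h, A.ax.push_comp, A.ax.push_comp, hφ]
  obtain ⟨tb, f₁⟩ : ∃ t, A.push φ₁ sb' = t := ⟨_, rfl⟩
  have f₂ : A.push φ₂ sb' = tb := by
    rw [← f₁, ← h', A.ax.push_comp, A.ax.push_comp, hφ]
  have d₁ : A.Def 𝒯'.cst tb :=
    def_range _ sC (push_trans hC (push_trans h' f₁)) (by
      rintro _ ⟨z, rfl⟩
      exact h₁.cst.2 (hj.cst.2 (h𝒮 ▸ ⟨z, rfl⟩)))
  have c₀ := SPG.good_sub ha h₁ h₂ hφ f₁ f₂ d₁
  have c₁ : Rat 𝒯'.cst (A.map φ₁ f₁ (a - a₁)) :=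
    (rat_map_iff φ₁ f₁).2 (r₂.mono fun _ hz => h₁.cst.2 hz)
  have c₂ : Rat 𝒯'.cst (A.map φ₂ f₂ (a - a₁)) :=
    (rat_map_iff φ₂ f₂).2 (r₂.mono fun _ hz => h₂.cst.2 hz)
  have c₃ : Rat 𝒯'.cst (A.map φ₁ f₁ a₁ - A.map φ₂ f₂ a₁) := by
    have := (RatS d₁).add_mem ((RatS d₁).sub_mem c₀ c₁) c₂
    rw [map_sub, map_sub, mem_RatS] at this
    convert this using 1
    abel
  have g := (hb.map h₁ e₁).prod (CaseB_congr hφ.symm (push_trans h e₁) (hb.map h₂ e₂)) hc hc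
  have o := SPG.orth (A.prod A) (h₁.comp hj) (prod_push (push_trans h e₁) (push_trans h e₁))
    (by
      have := hv.sprod hv
      rwa [show sprod (Set.univ : Set (A.Pt s)) (Set.univ : Set (A.Pt s)) = Set.univ from
        Set.eq_univ_of_forall fun _ => ⟨trivial, trivial⟩] at this)
    (ht.prod ht) (hl.prod hl) (hB.prod hB) (hc.sprod hc) g
  have o' : acl (adj (φ₁.comp j).fieldRange (rat (A.map φ₁ e₁ b) ∪ rat (A.map φ₂ e₂ b))) ⊓ 𝒯'.cst ≤
      𝒮.cst.map (φ₁.comp j) := by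
    rw [← adj_rat_prod]
    exact o
  have m₁ : Rat (acl (adj (φ₁.comp j).fieldRange (rat (A.map φ₁ e₁ b) ∪ rat (A.map φ₂ e₂ b))))
      (A.map φ₁ f₁ a₁) := (r₁.map φ₁ f₁).mono ((map_acl _ _).trans (acl_mono (by
    rw [map_adj, Rig_map_range, ← rat_map φ₁ e₁]
    exact LD2_adj_mono le_rfl Set.subset_union_left)))
  have m₂ : Rat (acl (adj (φ₁.comp j).fieldRange (rat (A.map φ₁ e₁ b) ∪ rat (A.map φ₂ e₂ b))))
      (A.map φ₂ f₂ a₁) := (r₁.map φ₂ f₂).mono ((map_acl _ _).trans (acl_mono (by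
    rw [map_adj, Rig_map_range, ← rat_map φ₂ e₂, ← hφ]
    exact LD2_adj_mono le_rfl Set.subset_union_right)))
  have d₂ := def_range _ sb (push_trans h' f₁) ((le_adj _
    (rat (A.map φ₁ e₁ b) ∪ rat (A.map φ₂ e₂ b))).trans (le_acl _))
  have k₁ : (φ₁.comp j).fieldRange ≤ φ₁.fieldRange := by
    rintro _ ⟨z, rfl⟩
    exact ⟨j z, rfl⟩
  have k₂ : (φ₁.comp j).fieldRange ≤ φ₂.fieldRange := by
    rw [hφ]
    rintro _ ⟨z, rfl⟩
    exact ⟨j z, rfl⟩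
  have c₄ : Rat φ₂.fieldRange (A.map φ₁ f₁ a₁ - A.map φ₂ f₂ a₁) :=
    (rat_inf.2 ⟨(RatS d₂).sub_mem m₁ m₂, c₃⟩).mono (o'.trans (le_trans (by
      rintro _ ⟨z, -, rfl⟩
      exact ⟨z, rfl⟩) k₂))
  have c₅ : Rat φ₂.fieldRange (A.map φ₁ f₁ a₁) := by
    have := PG.Rat.add (def_range φ₂ sb' f₂ le_rfl) c₄ ((rat_range_iff φ₂ f₂).2 ⟨a₁, rfl⟩)
    rwa [sub_add_cancel] at this
  have c₆ := rat_inf.2 ⟨(rat_range_iff φ₁ f₁).2 ⟨a₁, rfl⟩, c₅⟩
  rw [hLD.inf k₁ k₂] at c₆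
  obtain ⟨a₂, ha₂⟩ := (rat_range_iff _ (push_trans h' f₁)).1 c₆
  rw [← map_map h' f₁] at ha₂
  exact (rat_range_iff j h').2 ⟨a₂, map_inj φ₁.injective f₁ ha₂⟩

/-- The main step, over an intermediate field `F`. -/
theorem CaseB_core (𝒞 : Ctx p A C K) {F : Type u} [Field F] [IsAlgClosed F] [CharP F p]
    {𝒮 : Sett p K} (h𝒮 : 𝒮.cst = 𝒞.c.fieldRange) {𝒮F : Sett p F} {𝒯 : Sett p Ω} {i : K →+* F}
    {j : F →+* Ω} (hi : Mor 𝒮 𝒮F i) (hj : Mor 𝒮F 𝒯 j) {s' sb' : A.Str Ω}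
    (h : A.push (j.comp i) 𝒞.s = s') (h' : A.push (j.comp i) 𝒞.sb = sb') {z b : A.Pt s'}
    {a : A.Pt sb'} (hz : (Stab (loc (j.comp i) 𝒞.s z) : Set (A.Pt 𝒞.s)).Finite)
    {B : AddSubgroup (A.Pt 𝒞.s)} (hB : TF 𝒮.cst B) (hc : Cl (B : Set (A.Pt 𝒞.s)))
    (hb : Good 𝒮 𝒯 h B b) (ha : Good 𝒮 𝒯 h' (dom 𝒞.H) a)
    (hab : ((a, z - b) : (A.toPG.prod A.toPG).Pt (sb', s')) ∈ extG h' h 𝒞.H)
    (hF : j.fieldRange = acl (adj (j.comp i).fieldRange (rat b))) :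
    𝒞.Sp (loc (j.comp i) 𝒞.s z) := by
  have hji := hj.comp hi
  have o := SPG.orth A hji h 𝒞.var 𝒞.tf 𝒞.lifts hB hc hb
  have hcst : 𝒮F.cst = (i.comp 𝒞.c).fieldRange := by
    ext w
    constructor
    · intro hw
      obtain ⟨y, hy, e⟩ := o (x := j w) ⟨hF ▸ ⟨w, rfl⟩, hj.cst.2 hw⟩
      rw [h𝒮] at hy
      obtain ⟨y', rfl⟩ := hy
      exact ⟨y', j.injective e⟩
    · rintro ⟨y, rfl⟩
      exact hi.cst.2 (h𝒮 ▸ ⟨y, rfl⟩)
  obtain ⟨sF, eF⟩ : ∃ sF, A.push i 𝒞.sb = sF := ⟨_, rfl⟩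
  have eF' : A.push j sF = sb' := by rw [← eF, A.ax.push_comp, h']
  have rb : Rat j.fieldRange b := hF ▸ (rat_adj _ b).mono (le_acl _)
  have ha' : a ∈ ext (j.comp (i.comp 𝒞.c)) sb' (𝒞.A₀ : Set (A.Pt 𝒞.sC)) := by
    have := ha.mem
    rw [𝒞.dom_eq, extS_extS] at this
    exact this
  obtain ⟨V₁, a₁, hV₁, ha₁, hV, r⟩ := SPG.const_part hj hcst 𝒞.hb eF eF' ha
    (Ctx.stab_loc_finite h h' eF hz rb hab) ha'
  obtain ⟨a₂, ha₂⟩ := (rat_range_iff _ h').1 (CaseB_rat h𝒮 hji 𝒞.hb h h' 𝒞.var 𝒞.tf 𝒞.lifts hB hc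
    hb ha (hF ▸ (rat_range_iff j eF').2 ⟨a₁, rfl⟩) r)
  have ha₂' : A.map i eF a₂ = a₁ := map_inj j.injective eF' (by rw [map_map, ha₂])
  have hd : a₂ ∈ dom 𝒞.H := by
    rw [𝒞.dom_eq, mem_extS, ← mem_ext_map_iff i.injective eF, ha₂']
    exact ha₁
  obtain ⟨g, hg⟩ := mem_dom.1 hd
  obtain ⟨v, hv⟩ : ∃ v, a = A.map (j.comp i) h' a₂ + v := ⟨_, (add_sub_cancel _ _).symm⟩
  have l1 : loc j sF v = ext (i.comp 𝒞.c) sF V₁ := by
    rw [hv, ha₂, loc_vadd] at hV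
    exact (vadd_left_cancel_iff a₁).1 hV
  have vU : Var (ext 𝒞.c 𝒞.sb V₁) := var_ext hV₁ _ 𝒞.hb
  have k₁ : (j.comp i).fieldRange ≤ j.fieldRange := by
    rintro _ ⟨y, rfl⟩
    exact ⟨i y, rfl⟩
  have d1 : (dim (ext 𝒞.c 𝒞.sb V₁) : ℕ∞) = rk j.fieldRange (rat v) := by
    rw [← dim_loc eF', l1, dim_ext hV₁ _ 𝒞.hb, dim_ext hV₁ _ (push_trans 𝒞.hb eF)]
  have l2 : loc (j.comp i) 𝒞.sb v = ext 𝒞.c 𝒞.sb V₁ := by
    refine loc_eq_of_rk h' vU ?_ (d1.le.trans (rk_anti k₁))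
    have := mem_ext_loc eF' v
    rw [l1, ext_ext _ _ (push_trans 𝒞.hb eF)] at this
    rw [ext_ext _ _ 𝒞.hb]
    exact this
  have hLD : LD (j.comp i).fieldRange j.fieldRange (acl (adj (j.comp i).fieldRange (rat v))) :=
    ld_of_rk k₁ (rk_ne_top (rat_finite v)) (by rw [← dim_loc h', l2, d1])
  have k₂ : (j.comp i).fieldRange ≤ acl (adj (j.comp i).fieldRange (rat v)) :=
    (le_adj _ _).trans (le_acl _)
  have hVA : V₁ ⊆ 𝒞.A₀ := by
    rw [← ext_subset_ext_iff 𝒞.c 𝒞.hb 𝒞.varA.1, ← l2, ← coe_extS 𝒞.hb, ← 𝒞.dom_eq]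
    refine loc_subset (var_dom 𝒞.qh.var).1 ?_
    have := (extS h' (dom 𝒞.H)).sub_mem ha.mem (map_mem_ext _ h' hd)
    rwa [hv, add_sub_cancel_left] at this
  obtain ⟨S, b₀, hS, l3⟩ := SPG.co A (Mor.id 𝒮) hji (A.ax.push_id _) h 𝒞.var 𝒞.tf 𝒞.lifts hB
    (CaseB_congr (RingHom.comp_id _).symm _ hb)
  have l4 : (extS (A.ax.push_id 𝒞.s) S : Set (A.Pt 𝒞.s)) = S := hS.1.cl_eq
  have hw : ((v, z - b - A.map (j.comp i) h g) : (A.toPG.prod A.toPG).Pt (sb', s')) ∈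
      extG h' h 𝒞.H := by
    have := (extG h' h 𝒞.H).sub_mem hab
      (map_mem_ext (A := A.toPG.prod A.toPG) _ (prod_push h' h) hg)
    convert this using 1
    refine Prod.ext ?_ rfl
    change v = a - A.map (j.comp i) h' a₂
    rw [hv, add_sub_cancel_left]
  have l5 := Ctx.loc_eq_add h h' k₂ k₁ (hLD.symm k₁ k₂) ((rat_adj _ v).mono (le_acl _)) rb hw
  refine ⟨g + b₀, S, V₁, hS, hV₁, hVA, ?_⟩
  rw [show z = A.map (j.comp i) h g + (b + (z - b - A.map (j.comp i) h g)) by abel, loc_vadd, l5,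
    l3, l4, l2, add_vadd, vadd_add_assoc]
  rfl

theorem Ctx.caseB (𝒞 : Ctx p A C K) {𝒮 : Sett p K} (h𝒮 : 𝒮.cst = 𝒞.c.fieldRange) {𝒯 : Sett p Ω}
    {j : K →+* Ω} (hj : Mor 𝒮 𝒯 j) {s' : A.Str Ω} (h : A.push j 𝒞.s = s') {x : A.Pt s'}
    (hx : Good 𝒮 𝒯 h ⊤ x) (hS : (Stab (loc j 𝒞.s x) : Set (A.Pt 𝒞.s)).Finite) :
    𝒞.Sp (loc j 𝒞.s x) := by
  obtain ⟨sb', h'⟩ : ∃ t, A.push j 𝒞.sb = t := ⟨_, rfl⟩
  obtain ⟨N, Γ, hΓ⟩ := A.exists_proj (D := ⊤) 𝒞.var (var_ran 𝒞.qh.var) le_top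
  have h1 : x ∈ dom (extG h h Γ) := by
    rw [dom_ext, hΓ.dom]
    exact hx.mem
  obtain ⟨b, hxb⟩ := mem_dom.1 h1
  have hB : TF 𝒮.cst (ran Γ) := h𝒮 ▸ tf_ran 𝒞.tf 𝒞.dl hΓ
  have hb : Good 𝒮 𝒯 h (ran Γ) b :=
    (hx.img hj cl_univ hΓ.qh hΓ.dom.ge h hxb).mono fun y hy => by
      obtain ⟨w, -, hw⟩ := Hyp_mem_imgS.1 hy
      exact mem_ran.2 ⟨w, hw⟩
  have hp := hx.proj hj hΓ hxb
  have h2 : N • x - b ∈ ran (extG h' h 𝒞.H) := by
    rw [ran_ext]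
    exact hp.mem
  obtain ⟨a, hab⟩ := mem_ran.1 h2
  have ha : Good 𝒮 𝒯 h' (dom 𝒞.H) a :=
    (hp.img hj (var_ran 𝒞.qh.var).1 𝒞.qh' (fun y hy => by
      obtain ⟨w, hw⟩ := mem_ran.1 hy
      exact mem_dom.2 ⟨w, mem_swap.2 hw⟩) h' (by
      rw [← swap_ext 𝒞.qh.var.1]
      exact mem_swap.2 hab)).mono fun y hy => by
      obtain ⟨w, -, hw⟩ := Hyp_mem_imgS.1 hy
      exact mem_dom.2 ⟨w, mem_swap.1 hw⟩
  obtain ⟨𝒮F, hi, hj'⟩ := hj.factor (acl (adj j.fieldRange (rat b)))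
    (fun z => le_acl _ (le_adj _ _ ⟨z, rfl⟩)) (SPG.good_dcl hj 𝒞.tf hb)
  refine Ctx.Sp.of_nsmul (var_loc h x) hΓ.ne ?_
  rw [← loc_nsmul h]
  refine CaseB_core 𝒞 h𝒮 hi hj' h h' ?_ hB (var_ran hΓ.qh.var).1 hb ha hab
    (Subfield.fieldRange_subtype _)
  have := 𝒞.tf.stab_nsmul hΓ.ne (var_loc h x) hS
  rwa [← loc_nsmul h] at this

omit [IsAlgClosed K] in
/-- The germ of a family of points over `N` descends to the ultraproduct of `N`. -/
theorem CaseB_gpt {A : PG.{u}} {I E : Type u} [Field E] (𝒰 : Ultrafilter I) {s : A.Str K}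
    {N : Subfield K} {M : Subfield E} {e : E →+* UP 𝒰 K} {t : A.Str E}
    (he : A.push e t = A.push (gc 𝒰 K) s)
    (hM : ∀ f : I → K, (∀ i, f i ∈ N) → gm 𝒰 f ∈ M.map e) {y : I → A.Pt s}
    (hy : ∀ᶠ i in (𝒰 : Filter I), Rat N (y i)) :
    ∃ y' : A.Pt t, Rat M y' ∧ A.map e he y' = gpt 𝒰 y := by
  classical
  have h1 : ∀ i, ∃ v : A.σ → K, (∀ a, v a ∈ N) ∧ (Rat N (y i) → A.Rep (y i) v) := fun i => by
    by_cases hi : Rat N (y i)
    · obtain ⟨v, hv, hv'⟩ := rat_iff.1 hi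
      exact ⟨v, hv', fun _ => hv⟩
    · exact ⟨0, fun _ => N.zero_mem, fun h => absurd h hi⟩
  choose v hv hv' using h1
  have h2 : Rat (M.map e) (gpt 𝒰 y) :=
    rat_iff.2 ⟨_, rep_gpt 𝒰 (hy.mono hv'), fun a => hM _ fun i => hv i a⟩
  obtain ⟨y', hy'⟩ := (rat_range_iff e he).1 (h2.mono (by
    rintro _ ⟨z, -, rfl⟩
    exact ⟨z, rfl⟩))
  refine ⟨y', ?_, hy'⟩
  rw [← hy', rat_map_iff] at h2
  refine h2.mono fun z hz => ?_
  obtain ⟨w, hw, hwz⟩ := hz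
  exact e.injective hwz ▸ hw

/-- A dense set of points of bounded level gives a good generic point (`exists_ultra`, `usett` for
`𝒮.lev m` and the zero function, `Hyp.level`). -/
theorem PG.exists_good {A : PG.{u}} {𝒮 : Sett p K} {s : A.Str K} {Λ : AddSubgroup (A.Pt s)}
    (hΛ : Hyp 𝒮 ⊤ Λ) {X : Set (A.Pt s)} (hX : Var X) {m₁ : ℕ}
    (hd : X ⊆ cl ({x | x ∈ Λ ∧ Rat (root p m₁ 𝒮.M) x} ∩ X)) :
    ∃ (m : ℕ) (E : Type u) (_ : Field E) (_ : CharP E p) (_ : IsAlgClosed E) (𝒯 : Sett p E)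
      (j : K →+* E) (x : A.Pt (A.push j s)), Mor (𝒮.lev m) 𝒯 j ∧ Good (𝒮.lev m) 𝒯 rfl ⊤ x ∧
      loc j s x = X := by
  obtain ⟨𝒰, hU, hloc⟩ := exists_ultra hX hd
  obtain ⟨m, hm, hF⟩ := hΛ.level m₁
  obtain ⟨E, _, _, _, 𝒯, e, -, ι, -, hι, hM, hmor, -⟩ := usett 𝒰 (𝒮.lev m) fun _ => 0
  have h1 : e.comp ι = gc 𝒰 K := RingHom.ext fun z => by
    rw [RingHom.comp_apply, hι, Germ_gc]
    congr 1
    funext _
    exact (iterateFrobeniusEquiv K p 0).symm_apply_eq.2 (by simp)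
  have he : A.push e (A.push ι s) = A.push (gc 𝒰 K) s := by rw [A.ax.push_comp, h1]
  have hM' : ∀ f : A.Pt s → K, (∀ i, f i ∈ root p m 𝒮.M) → gm 𝒰 f ∈ 𝒯.M.map e := fun f hf =>
    (hM _).2 ⟨f, fun i => by
      rw [lev_M, root_root, zero_add]
      exact hf i, rfl⟩
  have hU' : ∀ᶠ i in (𝒰 : Filter (A.Pt s)), i ∈ Λ ∧ Rat (root p m₁ 𝒮.M) i :=
    Filter.mem_of_superset hU fun _ hx => hx.1
  obtain ⟨x, -, hx⟩ := CaseB_gpt 𝒰 he hM' (y := id)
    (hU'.mono fun i hi => hi.2.mono (root_mono p hm le_rfl))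
  refine ⟨m, E, inferInstance, inferInstance, inferInstance, 𝒯, ι, x, hmor, ⟨0, fun k => ?_⟩, ?_⟩
  · obtain ⟨F, hFf, hF₁, hF₂⟩ := hF k
    have h2 : ∀ᶠ i in (𝒰 : Filter (A.Pt s)), ∃ γ ∈ F, ∃ y, Rat (root p m 𝒮.M) y ∧
        i = γ + p ^ k • y := hU'.mono fun i hi => by
      obtain ⟨γ, hγ, y, -, hy⟩ := hF₂ i hi.1 hi.2
      exact ⟨γ, hγ, y, hy⟩
    obtain ⟨γ, hγ, h3⟩ := (Ultrafilter.eventually_exists_mem_iff hFf).1 h2
    obtain ⟨y, hy⟩ := h3.choice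
    obtain ⟨y', hy', hy''⟩ := CaseB_gpt 𝒰 he hM' (y := y) (hy.mono fun i hi => hi.1)
    refine ⟨γ, trivial, y', ?_, ?_, hy'.mono (Set1_le_root 0 _), map_inj e.injective he ?_⟩
    · rw [mem_extS, AddSubgroup.coe_top, ext_univ rfl]
      trivial
    · rw [lev_M, root_root, zero_add]
      exact (hF₁ γ hγ).2
    · rw [map_add, map_nsmul, hx, hy'', map_map, map_congr h1 _ rfl, ← gpt_const, ← gpt_nsmul,
        ← gpt_add, gpt_eq_iff]
      exact hy.mono fun i hi => hi.2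
  · rw [← hloc, ← hx, ← loc_map e.injective he, h1]

end MLF
end
end

-- merged part: Pool.Agent.Work.MP_29d410_ag.Out3
section
-- merged part: Pool.Agent.Work.MP_29d410_ag.Reg2
section
/-!
# A graph composed with a Frobenius is regular

Plan.  `QH.regOn_frob`: let `(ξ, η)` be generic in `Γ`.  By `QH.rat` some Frobenius image `Fr η` is rational over
`adj j.fieldRange (rat ξ)`, so has a vector `w (ξ)` with forms `w` of one degree over `k`.  Reducing along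
places, for `(x, y) ∈ Γ` the vector `w (x)` is zero or a vector of `Fr y`; it is nonzero at some point `x₁` of
`dom Γ`.  Given `x₀ ∈ dom Γ` let `(a, b) ∈ Γ` with `x₀ + a = x₁`.  Then `Fr y = Fr (y + b) - Fr b` is given near
`x₀` by `Φ j' (w (Φ j (X, a)), - Fr b)`; multiply it by a component of `Φ j (X, a)` and a component of
`w (Φ j (X, a))` which do not vanish at `x₀`.
-/

open MvPolynomial

namespace MLF

universe u

section Aux

variable {k T : Type u} [Field k] [Field T]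

/-- Substitution of forms and constants in a bihomogeneous polynomial. -/
theorem Reg2_bihom {σ σ' τ : Type} {g : MvPolynomial (σ ⊕ σ') k} {d : ℕ × ℕ} (hg : Bihom g d)
    {F : σ → MvPolynomial τ k} {n : ℕ} (hF : ∀ i, (F i).IsHomogeneous n) (c : σ' → k) :
    (eval₂ C (Sum.elim F fun i => C (c i)) g).IsHomogeneous (n * d.1) := by
  rw [eval₂_eq]
  refine IsHomogeneous.sum _ _ _ fun m hm => ?_
  have h1 : (∏ i ∈ m.support, Sum.elim F (fun i => C (c i)) i ^ m i).IsHomogeneous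
      (∑ i ∈ m.support, Sum.elim (fun _ => n) (fun _ => 0) i * m i) := by
    refine IsHomogeneous.prod _ _ _ fun i _ => IsHomogeneous.pow ?_ _
    cases i with
    | inl i => exact hF i
    | inr i => exact isHomogeneous_C _ _
  have h2 : ∑ i ∈ m.support, Sum.elim (fun _ => n) (fun _ => 0) i * m i = n * d.1 := by
    rw [← hg (mem_support_iff.1 hm), Finsupp.weight_apply, Finsupp.sum, Prod.fst_sum,
      Finset.mul_sum]
    refine Finset.sum_congr rfl fun i _ => ?_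
    cases i <;> simp
  rw [← h2]
  exact h1.C_mul _

theorem Reg2_eval {σ τ : Type} (g : MvPolynomial σ k) (F : σ → MvPolynomial τ k) (v : τ → k) :
    eval v (eval₂ C F g) = eval (fun i => eval v (F i)) g := by
  induction g using MvPolynomial.induction_on with
  | C a => simp
  | add p q hp hq => simp [hp, hq]
  | mul_X p i hp => simp [hp]

theorem Reg2_eval₂ {σ σ' τ : Type} (g : MvPolynomial (σ ⊕ σ') k) (F : σ → MvPolynomial τ k)
    (c : σ' → k) (v : τ → k) :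
    eval v (eval₂ C (Sum.elim F fun i => C (c i)) g) =
      eval (Sum.elim (fun i => eval v (F i)) c) g := by
  rw [Reg2_eval]
  congr 2
  funext i
  cases i <;> simp

/-- The quotients of two forms of the same degree. -/
def Reg2_quot {σ : Type} (j : k →+* T) (v : σ → T) : Subfield T where
  carrier := {z | ∃ (f g : MvPolynomial σ k) (d : ℕ), f.IsHomogeneous d ∧ g.IsHomogeneous d ∧
    eval₂ j v g ≠ 0 ∧ z * eval₂ j v g = eval₂ j v f}
  one_mem' := ⟨1, 1, 0, isHomogeneous_one _ _, isHomogeneous_one _ _, by simp, by simp⟩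
  zero_mem' := ⟨0, 1, 0, isHomogeneous_zero _ _ _, isHomogeneous_one _ _, by simp, by simp⟩
  mul_mem' := by
    rintro a b ⟨f, g, d, hf, hg, h0, e⟩ ⟨f', g', d', hf', hg', h0', e'⟩
    refine ⟨f * f', g * g', d + d', hf.mul hf', hg.mul hg', ?_, ?_⟩
    · rw [eval₂_mul]
      exact mul_ne_zero h0 h0'
    · rw [eval₂_mul, eval₂_mul, ← e, ← e']
      ring
  add_mem' := by
    rintro a b ⟨f, g, d, hf, hg, h0, e⟩ ⟨f', g', d', hf', hg', h0', e'⟩
    refine ⟨f * g' + g * f', g * g', d + d', (hf.mul hg').add (hg.mul hf'), hg.mul hg', ?_, ?_⟩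
    · rw [eval₂_mul]
      exact mul_ne_zero h0 h0'
    · rw [eval₂_add, eval₂_mul, eval₂_mul, eval₂_mul, ← e, ← e']
      ring
  neg_mem' := by
    rintro a ⟨f, g, d, hf, hg, h0, e⟩
    refine ⟨-f, g, d, hf.neg, hg, h0, ?_⟩
    rw [eval₂_neg, ← e]
    ring
  inv_mem' := by
    rintro a ⟨f, g, d, hf, hg, h0, e⟩
    by_cases ha : a = 0
    · exact ⟨0, 1, 0, isHomogeneous_zero _ _ _, isHomogeneous_one _ _, by simp, by simp [ha]⟩
    refine ⟨g, f, d, hg, hf, e ▸ mul_ne_zero ha h0, ?_⟩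
    rw [← e, inv_mul_cancel_left₀ ha]

/-- A common denominator. -/
theorem Reg2_common {σ ρ : Type} [Fintype ρ] (j : k →+* T) (v : σ → T) (z : ρ → T)
    (hz : ∀ b, z b ∈ Reg2_quot j v) : ∃ (w : ρ → MvPolynomial σ k) (d : ℕ) (c : T), c ≠ 0 ∧
      (∀ b, (w b).IsHomogeneous d) ∧ ∀ b, eval₂ j v (w b) = c * z b := by
  classical
  choose f g d hf hg h0 e using hz
  refine ⟨fun b => f b * ∏ b' ∈ Finset.univ.erase b, g b', ∑ b, d b, ∏ b, eval₂ j v (g b),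
    Finset.prod_ne_zero_iff.2 fun b _ => h0 b, fun b => ?_, fun b => ?_⟩
  · rw [← Finset.add_sum_erase _ _ (Finset.mem_univ b)]
    exact (hf b).mul (IsHomogeneous.prod _ _ _ fun b' _ => hg b')
  · rw [eval₂_mul, eval₂_prod, ← e, ← Finset.mul_prod_erase _ _ (Finset.mem_univ b)]
    ring

end Aux

namespace PG

variable {A B : PG.{u}} {k : Type u} [Field k] [IsAlgClosed k] {s : A.Str k} {t : B.Str k}

omit [IsAlgClosed k] in
/-- Translation by a point is locally given by forms. -/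
theorem Reg2_trans {τ : Type} {F : A.σ → MvPolynomial τ k} {n : ℕ}
    (hF : ∀ i, (F i).IsHomogeneous n) (a : A.Pt s) {v₀ : τ → k} {x₀ : A.Pt s}
    (h₀ : A.Rep x₀ fun i => eval v₀ (F i)) :
    ∃ (F' : A.σ → MvPolynomial τ k) (n' : ℕ), (∀ i, (F' i).IsHomogeneous n') ∧
      (Uni fun i => eval v₀ (F' i)) ∧ ∀ (v : τ → k) (x : A.Pt s),
        (A.Rep x fun i => eval v (F i)) → (Uni fun i => eval v (F' i)) →
        A.Rep (x + a) fun i => eval v (F' i) := by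
  obtain ⟨c, hc⟩ := A.ax.exists_rep a
  obtain ⟨l, hl⟩ := A.ax.Φ_cover h₀ hc
  obtain ⟨d, hd⟩ := A.ax.Φ_hom l
  refine ⟨fun i => eval₂ C (Sum.elim F fun i => C (c i)) (A.Φ s l i), n * d.1,
    fun i => Reg2_bihom (hd s i) hF c, ?_, fun v x hx hu => ?_⟩
  · simpa only [Reg2_eval₂] using hl
  · simp only [Reg2_eval₂] at hu ⊢
    exact A.ax.Φ_rep l hx hc hu

omit [IsAlgClosed k] in
theorem Reg2_adj {T : Type u} [Field T] (j : k →+* T) {s' : A.Str T} {ξ : A.Pt s'} {v : A.σ → T}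
    (hv : A.Rep ξ v) : adj j.fieldRange (rat ξ) ≤ Reg2_quot j v := by
  refine adj_le.2 ⟨?_, ?_⟩
  · rintro _ ⟨c, rfl⟩
    exact ⟨C c, 1, 0, isHomogeneous_C _ _, isHomogeneous_one _ _, by simp, by simp⟩
  · rw [PB_rat_eq hv]
    rintro _ ⟨i, rfl⟩
    by_cases h : v i.2 = 0
    · simp only [h, div_zero]
      exact zero_mem _
    · exact ⟨X i.1, X i.2, 1, isHomogeneous_X _ _, isHomogeneous_X _ _, by simpa using h,
        by simp [h]⟩

omit [IsAlgClosed k] in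
/-- A relation between the coordinates of a pair passes to the locus. -/
theorem Reg2_rel {T : Type u} [Field T] {j : k →+* T} {s' : A.Str T} {t' : B.Str T}
    {ξ : A.Pt s'} {η : B.Pt t'} {v : A.σ → T} {u : B.σ → T} (hv : A.Rep ξ v) (hu : B.Rep η u)
    {f g : MvPolynomial A.σ k} {d : ℕ} (hf : f.IsHomogeneous d) (hg : g.IsHomogeneous d)
    {b b' : B.σ} {q : ℕ} (h : eval₂ j v f * u b ^ q = eval₂ j v g * u b' ^ q)
    {x : A.Pt s} {y : B.Pt t}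
    (hxy : ((x, y) : (A.prod B).Pt (s, t)) ∈ loc (A := A.prod B) j (s, t) (s' := (s', t')) (ξ, η))
    {v' : A.σ → k} {u' : B.σ → k} (hv' : A.Rep x v') (hu' : B.Rep y u') :
    eval v' f * u' b ^ q = eval v' g * u' b' ^ q := by
  obtain ⟨a₀, ha₀⟩ := A.ax.rep_uni hv'
  obtain ⟨b₀, hb₀⟩ := B.ax.rep_uni hu'
  have hH : (rename (fun a => (a, b₀)) f * X (a₀, b) ^ q -
      rename (fun a => (a, b₀)) g * X (a₀, b') ^ q :
      MvPolynomial (A.σ × B.σ) k).IsHomogeneous (d + 1 * q) :=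
    (hf.rename_isHomogeneous.mul ((isHomogeneous_X _ _).pow q)).sub
      (hg.rename_isHomogeneous.mul ((isHomogeneous_X _ _).pow q))
  have key : ∀ {R : Type u} [Field R] (i : k →+* R) (v : A.σ → R) (u : B.σ → R),
      eval₂ i (fun l : A.σ × B.σ => v l.1 * u l.2) (rename (fun a => (a, b₀)) f * X (a₀, b) ^ q -
        rename (fun a => (a, b₀)) g * X (a₀, b') ^ q) =
      u b₀ ^ d * v a₀ ^ q * (eval₂ i v f * u b ^ q - eval₂ i v g * u b' ^ q) := by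
    intro R _ i v u
    simp only [eval₂_sub, eval₂_mul, eval₂_pow, eval₂_X, eval₂_rename, Prod_left]
    simp only [← eval_map]
    rw [Prod_hom (hf.map i), Prod_hom (hg.map i)]
    ring
  have h1 := hxy _ _ hH ((van_iff (A := A.prod B) hH ⟨v, u, hv, hu, rfl⟩).2 (by
    rw [key, h, sub_self, mul_zero])) _ ⟨v', u', hv', hu', rfl⟩
  rw [key, eval₂_id, eval₂_id] at h1
  exact sub_eq_zero.1 ((mul_eq_zero.1 h1).resolve_left
    (mul_ne_zero (pow_ne_zero _ hb₀.ne_zero) (pow_ne_zero _ ha₀.ne_zero)))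

/-- The generic formula. -/
theorem QH.Reg2_gen {Γ : AddSubgroup ((A.prod B).Pt (s, t))} (hΓ : QH Γ) (p : ℕ)
    [ExpChar k p] : ∃ (n : ℕ) (w : B.σ → MvPolynomial A.σ k) (d : ℕ), (∀ b, (w b).IsHomogeneous d) ∧
      (∃ x₁ ∈ dom Γ, ∃ b, ¬ van (RingHom.id k) (w b) x₁) ∧
      ∀ (t' : B.Str k) (e : B.push (iterateFrobenius k p n) t = t') (x : A.Pt s) (y : B.Pt t),
        ((x, y) : (A.prod B).Pt (s, t)) ∈ Γ → ∀ v, A.Rep x v → (Uni fun b => eval v (w b)) →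
        B.Rep (B.map (iterateFrobenius k p n) e y) fun b => eval v (w b) := by
  obtain ⟨T, _, _, j, ⟨ξ, η⟩, hl, hz⟩ := hΓ.var.exists_gen
  have : ExpChar T p := expChar_of_injective_ringHom j.injective p
  obtain ⟨n, hn⟩ := hΓ.rat p (j := j) rfl rfl (le_adj _ (PG.rat ξ)) hz (rat_adj _ ξ)
  obtain ⟨v, hv⟩ := A.ax.exists_rep ξ
  obtain ⟨u, b₁, hu, hb₁⟩ := exists_rep_one η
  obtain ⟨w, d, c, hc, hw, hwc⟩ := Reg2_common j v (fun b => u b ^ p ^ n) fun b =>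
    Reg2_adj j hv ((rat_iff_of_rep hu hb₁).1 hn b)
  refine ⟨n, w, d, hw, ?_, fun t' e x y hxy v' hv' hU => ?_⟩
  · by_contra h0
    push Not at h0
    have h1 : PG.loc j s ξ = dom Γ := by
      have := loc_fst (j := j) (s := s) (t := t) rfl rfl (ξ, η)
      rw [this, Geo6_coe_dom]
      exact congrArg _ hl
    have h2 := mem_ext_loc (s := s) (j := j) rfl ξ (w b₁)
      ⟨⟨d, hw b₁⟩, fun x hx => h0 x (h1 ▸ hx :) b₁⟩ v hv
    rw [hwc, hb₁, one_pow, mul_one] at h2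
    exact hc h2
  · obtain ⟨u', b₀, hu', hb₀⟩ := exists_rep_one y
    have h1 : ∀ b, eval v' (w b) = eval v' (w b₀) * u' b ^ p ^ n := fun b => by
      have := Reg2_rel (b := b₀) (b' := b) (q := p ^ n) hv hu (hw b) (hw b₀)
        (by rw [hwc, hwc]; ring) (x := x) (y := y) (hl.ge hxy) hv' hu'
      rwa [hb₀, one_pow, mul_one] at this
    obtain ⟨b, hb⟩ := hU
    replace hb : IsUnit (eval v' (w b₀) * u' b ^ p ^ n) := h1 b ▸ hb
    have h2 := B.ax.rep_smul (rep_map _ e hu') (isUnit_of_mul_isUnit_left hb)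
    convert h2 using 1
    funext b
    rw [h1 b]
    simp [iterateFrobenius_def]

theorem QH.regOn_frob {Γ : AddSubgroup ((A.prod B).Pt (s, t))} (hΓ : QH Γ) (p : ℕ)
    [ExpChar k p] : ∃ n, ∀ (t' : B.Str k) (e : B.push (iterateFrobenius k p n) t = t'),
      ∃ ψ : A.Pt s → B.Pt t', RegOn (dom Γ : Set (A.Pt s)) ψ ∧
        ∀ x y, ((x, y) : (A.prod B).Pt (s, t)) ∈ Γ →
          ψ x = B.map (iterateFrobenius k p n) e y := by
  classical
  obtain ⟨n, w, d, hw, ⟨x₁, hx₁, b₁, hb₁⟩, H⟩ := hΓ.Reg2_gen p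
  refine ⟨n, fun t' e => ?_⟩
  obtain ⟨ψ, hψ⟩ : ∃ ψ : A.Pt s → B.Pt t', ∀ x y, ((x, y) : (A.prod B).Pt (s, t)) ∈ Γ →
      ψ x = B.map (iterateFrobenius k p n) e y := by
    refine ⟨fun x => if h : x ∈ dom Γ then B.map _ e (mem_dom.1 h).choose else 0,
      fun x y hxy => ?_⟩
    have h : x ∈ dom Γ := mem_dom.2 ⟨y, hxy⟩
    simp only [dif_pos h]
    rw [uniq_of_inj hΓ.inj (mem_dom.1 h).choose_spec hxy]
  refine ⟨ψ, fun x₀ hx₀ => ?_, hψ⟩
  obtain ⟨y₀, hy₀⟩ := mem_dom.1 hx₀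
  obtain ⟨b, hb⟩ := mem_dom.1 ((dom Γ).sub_mem hx₁ hx₀)
  obtain ⟨v₀, hv₀⟩ := A.ax.exists_rep x₀
  obtain ⟨P, n₁, hP, ⟨i₀, hi₀⟩, HP⟩ := Reg2_trans (F := X) (isHomogeneous_X k) (x₁ - x₀)
    (v₀ := v₀) (x₀ := x₀) (by simpa using hv₀)
  simp only [eval_X] at HP
  have hW : ∀ l, (eval₂ C P (w l)).IsHomogeneous (n₁ * d) := fun l =>
    (hw l).eval₂ C P (fun r => isHomogeneous_C _ _) hP
  have HW : ∀ x y, ((x, y) : (A.prod B).Pt (s, t)) ∈ Γ → ∀ v, A.Rep x v →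
      (Uni fun i => eval v (P i)) → (Uni fun l => eval v (eval₂ C P (w l))) →
      B.Rep (B.map (iterateFrobenius k p n) e (y + b)) fun l => eval v (eval₂ C P (w l)) := by
    intro x y hxy v hv h1 h2
    simp only [Reg2_eval] at h2 ⊢
    exact H t' e (x + (x₁ - x₀)) (y + b) (Γ.add_mem hxy hb) _ (HP v x hv h1) h2
  have h₁ : IsUnit (eval v₀ (eval₂ C P (w b₁))) := by
    have h1 := HP v₀ x₀ hv₀ ⟨i₀, hi₀⟩
    rw [add_sub_cancel] at h1
    rw [van_iff (hw b₁) h1, eval₂_id] at hb₁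
    rw [Reg2_eval]
    exact isUnit_iff_ne_zero.2 hb₁
  obtain ⟨Q, n₂, hQ, ⟨b₂, hb₂⟩, HQ⟩ := Reg2_trans hW (-B.map (iterateFrobenius k p n) e b)
    (HW x₀ y₀ hy₀ v₀ hv₀ ⟨i₀, hi₀⟩ ⟨b₁, h₁⟩)
  have hR : ∀ l, (P i₀ * eval₂ C P (w b₁) * Q l).IsHomogeneous (n₁ + n₁ * d + n₂) := fun l =>
    ((hP i₀).mul (hW b₁)).mul (hQ l)
  refine ⟨fun l => P i₀ * eval₂ C P (w b₁) * Q l, _, hR, fun v hv => ?_, fun x hx v hv hU => ?_⟩
  · obtain ⟨c, hc, rfl⟩ := A.ax.rep_uniq hv₀ hv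
    refine ⟨b₂, ?_⟩
    simp only [Prod_hom (hR b₂), map_mul]
    exact (hc.pow _).mul ((hi₀.mul h₁).mul hb₂)
  · obtain ⟨y, hy⟩ := mem_dom.1 hx
    obtain ⟨l, hl⟩ := hU
    simp only [map_mul] at hl ⊢
    have h1 := isUnit_of_mul_isUnit_left hl
    have h2 := HQ v _ (HW x y hy v hv ⟨i₀, isUnit_of_mul_isUnit_left h1⟩
      ⟨b₁, isUnit_of_mul_isUnit_right h1⟩) ⟨l, isUnit_of_mul_isUnit_right hl⟩
    rw [map_add, add_neg_cancel_right, ← hψ x y hy] at h2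
    exact B.ax.rep_smul h2 h1

end PG

end MLF
end

-- merged part: Pool.Agent.Work.MP_29d410_ag.Out3
section
/-!
# Translation to the classical language

Plan.  `Out.isSpecial`: take `n`, `ψ` from `QH.regOn_frob`, `F` the `n`-th iterated Frobenius (`NM.geo3_frob_push`),
`B₀`, `B` from `exists_av` for `push F tB` and its extension to `K`, `X₀` replaced by `ext F X₀`,
`A' = comap e (dom Γ)`, `h a = e'.symm (ψ (e a))`; `Link.isBC`, `Link.mem_bc`, `Link.reg`, `Link.subvar_iff`,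
`map_surj`, `ext_ext`, `mem_ext_map_iff`.
-/

open Pointwise

namespace MLF

universe u

open PG

variable {C K : Type u} [Field C] [IsAlgClosed C] [Field K] [IsAlgClosed K]

theorem Out.isSpecial (p : ℕ) [ExpChar K p] {j : C →+* K} {n : ℕ} {A : AV K n}
    {G : PG.{u}} {ε : Fin (n + 1) ≃ G.σ} {s : G.Str K} {e : A.pts ≃+ G.Pt s} (h : Link A ε e)
    {X : Set A.pts} (ho : Out j (e '' X)) : IsSpecial j A X := by
  obtain ⟨B, tB, t, hB, Γ, g, X₀, hU, hΓ, hr, hX₀, hX⟩ := ho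
  have : ExpChar C p := j.expChar j.injective p
  obtain ⟨m, hm⟩ := hΓ.regOn_frob p
  obtain ⟨tB', e₀⟩ : ∃ tB', B.push (iterateFrobenius C p m) tB = tB' := ⟨_, rfl⟩
  obtain ⟨t', hB'⟩ : ∃ t', B.push j tB' = t' := ⟨_, rfl⟩
  have e₁ : B.push (iterateFrobenius K p m) t = t' := NM.geo3_frob_push p m e₀ hB hB'
  obtain ⟨ψ, hψ, hψ'⟩ := hm t' e₁
  obtain ⟨m', ⟨ε'⟩⟩ := PG.exists_eps (G := B.toPG) tB
  have hU' : Var (Set.univ : Set (B.Pt tB')) := by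
    rw [← ext_univ e₀]
    exact var_ext hU _ e₀
  have hU'' : Var (Set.univ : Set (B.Pt t')) := by
    rw [← ext_univ hB']
    exact var_ext hU' _ hB'
  obtain ⟨B₀, f₀, h₀⟩ := PG.exists_av hU' ε'
  obtain ⟨B₁, f₁, h₁⟩ := PG.exists_av hU'' ε'
  have hF : (iterateFrobenius K p m).comp j = j.comp (iterateFrobenius C p m) := by
    ext c
    simp [iterateFrobenius_def]
  have hA' : e '' ((dom Γ).comap e.toAddMonoidHom : AddSubgroup A.pts) = (dom Γ : Set (G.Pt s)) :=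
    Set.image_preimage_eq (dom Γ : Set (G.Pt s)) e.surjective
  have hadd : ∀ a b : (dom Γ).comap e.toAddMonoidHom,
      f₁.symm (ψ (e (a + b).1)) = f₁.symm (ψ (e a.1)) + f₁.symm (ψ (e b.1)) := by
    intro a b
    obtain ⟨y, hy⟩ := mem_dom.1 a.2
    obtain ⟨z, hz⟩ := mem_dom.1 b.2
    have hyz : ((e (a + b).1, y + z) : (G.prod B.toPG).Pt (s, t)) ∈ Γ := by
      rw [AddSubgroup.coe_add, map_add]
      exact Γ.add_mem hy hz
    rw [hψ' _ _ hyz, hψ' (e a.1) _ hy, hψ' (e b.1) _ hz, map_add, map_add]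
  have hX₀' : f₀ '' (f₀ ⁻¹' ext (iterateFrobenius C p m) tB' X₀) =
      ext (iterateFrobenius C p m) tB' X₀ := Set.image_preimage_eq _ f₀.surjective
  have key : ∀ (x : G.Pt s) (y : B.Pt t), ((x, y) : (G.prod B.toPG).Pt (s, t)) ∈ Γ →
      ((f₁.symm (ψ x)).1 ∈ bc j (Subtype.val '' (f₀ ⁻¹' ext (iterateFrobenius C p m) tB' X₀)) ↔
        y ∈ ext j t X₀) := by
    intro x y hxy
    rw [h₀.mem_bc h₁, f₁.apply_symm_apply, hX₀', ext_ext _ _ e₀, ← hF, hψ' _ _ hxy,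
      mem_ext_map_iff (iterateFrobenius K p m).injective]
  refine ⟨e.symm g, (dom Γ).comap e.toAddMonoidHom, m', B₀, B₁,
    AddMonoidHom.mk' (fun a => f₁.symm (ψ (e a.1))) hadd,
    f₀ ⁻¹' ext (iterateFrobenius C p m) tB' X₀, ?_, h₀.isBC h₁ hB', ⟨?_, ?_⟩, ?_, ?_⟩
  · rw [h.subvar_iff, hA']
    exact var_dom hΓ.var
  · intro b
    obtain ⟨y, hy⟩ := map_surj (bijective_iterateFrobenius K p m) e₁ (f₁ b)
    obtain ⟨x, hx⟩ := mem_ran.1 (hr ▸ AddSubgroup.mem_top y : y ∈ ran Γ)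
    have hx' : e.symm x ∈ (dom Γ).comap e.toAddMonoidHom := by
      change e (e.symm x) ∈ dom Γ
      rw [e.apply_symm_apply]
      exact mem_dom.2 ⟨y, hx⟩
    refine ⟨⟨e.symm x, hx'⟩, ?_⟩
    change f₁.symm (ψ (e (e.symm x))) = b
    rw [e.apply_symm_apply, hψ' _ _ hx, hy, f₁.symm_apply_apply]
  · exact h.reg h₁ (hA'.symm ▸ hψ)
  · rw [h₀.subvar_iff, hX₀']
    exact var_ext hX₀ _ e₀
  · ext x
    have hx : x ∈ X ↔ e x ∈ e '' X := (e.injective.mem_set_image).symm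
    rw [hx, hX]
    constructor
    · rintro ⟨x', ⟨y, hy, hxy⟩, hx'⟩
      have hxy' : ((x', y) : (G.prod B.toPG).Pt (s, t)) ∈ Γ := hxy
      have hm' : e.symm x' ∈ (dom Γ).comap e.toAddMonoidHom := by
        change e (e.symm x') ∈ dom Γ
        rw [e.apply_symm_apply]
        exact mem_dom.2 ⟨y, hxy'⟩
      refine ⟨⟨e.symm x', hm'⟩, ?_, ?_⟩
      · change (f₁.symm (ψ (e (e.symm x')))).1 ∈ _
        rw [e.apply_symm_apply]
        exact (key _ _ hxy').2 hy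
      · apply e.injective
        rw [map_add, e.apply_symm_apply, e.apply_symm_apply]
        exact hx'.symm
    · rintro ⟨a, ha, rfl⟩
      obtain ⟨y, hy⟩ := mem_dom.1 a.2
      refine ⟨e a.1, ⟨y, (key _ _ hy).1 ha, hy⟩, ?_⟩
      rw [map_add, e.apply_symm_apply]
      rfl

end MLF
end
end
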