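import Mathlib
import Pool.Agent.Work.MP_29d410_ag.DM7A

-- merged part: Pool.Agent.Work.MP_29d410_ag.PuiA
section
/-! Values and residues in algebraic extensions of valued fields. -/

namespace MLF.PuiA

open Polynomial

variable {F L Γ : Type*} [Field F] [Field L] [Algebra F L] [LinearOrderedCommGroupWithZero Γ]
  (w : Valuation L Γ)

/-- A bounded power of every value is a value of the base field. -/
theorem pow_mem [FiniteDimensional F L] (y : L) (hy : y ≠ 0) :
    ∃ x : F, x ≠ 0 ∧ w (algebraMap F L x) = w y ^ (Module.finrank F L).factorial := by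
  classical
  have hint : IsIntegral F y := Algebra.IsIntegral.isIntegral y
  set p := minpoly F y with hp
  have key : ∃ i ∈ p.support, ∃ j ∈ p.support, i < j ∧
      w (algebraMap F L (p.coeff i) * y ^ i) = w (algebraMap F L (p.coeff j) * y ^ j) := by
    by_contra hn
    push Not at hn
    obtain ⟨j, hj, hmax⟩ := p.support.exists_max_image
      (fun i => w (algebraMap F L (p.coeff i) * y ^ i)) (support_nonempty.2 (minpoly.ne_zero hint))
    have h1 := w.map_sum_eq_of_lt (f := fun i => algebraMap F L (p.coeff i) * y ^ i) hj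
      fun i hi => by
        rw [Finset.mem_sdiff, Finset.mem_singleton] at hi
        refine (hmax i hi.1).lt_of_ne ?_
        rcases (Ne.lt_or_gt hi.2) with h | h
        · exact hn i hi.1 j hj h
        · exact (hn j hj i hi.1 h).symm
    have h2 : ∑ i ∈ p.support, algebraMap F L (p.coeff i) * y ^ i = 0 := by
      rw [← minpoly.aeval F y, aeval_def, eval₂_eq_sum, sum_def]
    rw [h2, map_zero, eq_comm, w.zero_iff] at h1
    exact mul_ne_zero ((_root_.map_ne_zero _).2 (mem_support_iff.1 hj)) (pow_ne_zero _ hy) h1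
  obtain ⟨i, hi, j, hj, hij, h⟩ := key
  have hjn : j ≤ Module.finrank F L :=
    (le_natDegree_of_mem_supp j hj).trans (minpoly.natDegree_le y)
  obtain ⟨m, hm⟩ := Nat.dvd_factorial (Nat.sub_pos_of_lt hij) ((Nat.sub_le j i).trans hjn)
  have hi0 := mem_support_iff.1 hi
  have hj0 := mem_support_iff.1 hj
  refine ⟨(p.coeff i / p.coeff j) ^ m, pow_ne_zero _ (div_ne_zero hi0 hj0), ?_⟩
  rw [hm, pow_mul, map_pow, map_pow]
  congr 1
  have a1 : w (algebraMap F L (p.coeff j)) ≠ 0 := w.ne_zero_iff.2 ((_root_.map_ne_zero _).2 hj0)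
  have a2 : w y ^ i ≠ 0 := pow_ne_zero _ (w.ne_zero_iff.2 hy)
  obtain ⟨d, rfl⟩ := Nat.exists_eq_add_of_le hij.le
  rw [map_mul, map_mul, map_pow, map_pow, pow_add, mul_comm (w y ^ i), ← mul_assoc] at h
  rw [map_div₀, map_div₀, mul_right_cancel₀ a2 h, Nat.add_sub_cancel_left,
    mul_div_cancel_left₀ _ a1]

/-- The residue field does not grow. -/
theorem residue {k : Type*} [Field k] [IsAlgClosed k] [Algebra k L]
    (hk : ∀ c : k, c ≠ 0 → w (algebraMap k L c) = 1)
    (hF : ∀ x : F, w (algebraMap F L x) ≤ 1 →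
      ∃ c : k, w (algebraMap F L x - algebraMap k L c) < 1) (y : L)
    (ha : IsAlgebraic F y) (hy : w y ≤ 1) :
    ∃ c : k, w (y - algebraMap k L c) < 1 := by
  classical
  by_contra hn
  push Not at hn
  have h1 : ∀ A : k[X], A ≠ 0 → 1 ≤ w (aeval y A) := fun A => by
    have hA : A ∈ Submonoid.closure ({C a | a : k} ∪ {X + C a | a : k}) := IsAlgClosed.splits A
    induction hA using Submonoid.closure_induction with
    | mem f hf =>
      rcases hf with ⟨a, rfl⟩ | ⟨a, rfl⟩
      · exact fun h => by rw [aeval_C, hk a fun h' => h (by simp [h'])]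
      · exact fun _ => by simpa using hn (-a)
    | one => simp
    | mul f g _ _ hf hg =>
      intro h
      rw [map_mul, map_mul]
      exact Left.one_le_mul (hf (left_ne_zero_of_mul h)) (hg (right_ne_zero_of_mul h))
  obtain ⟨p, hp0, hp⟩ := ha
  obtain ⟨j, hj, hmax⟩ := p.support.exists_max_image
    (fun i => w (algebraMap F L (p.coeff i))) (support_nonempty.2 hp0)
  have hj0 := mem_support_iff.1 hj
  have a1 : 0 < w (algebraMap F L (p.coeff j)) := w.pos_iff.2 ((_root_.map_ne_zero _).2 hj0)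
  choose! a ha using fun i (hi : i ∈ p.support) => hF (p.coeff i / p.coeff j) (by
    rw [map_div₀, map_div₀, div_le_one₀ a1]; exact hmax i hi)
  have h2 : ∑ i ∈ p.support, algebraMap F L (p.coeff i / p.coeff j) * y ^ i = 0 := by
    have : ∑ i ∈ p.support, algebraMap F L (p.coeff i) * y ^ i = 0 := by
      rw [← hp, aeval_def, eval₂_eq_sum, sum_def]
    simp only [map_div₀, div_mul_eq_mul_div, ← Finset.sum_div, this, zero_div]
  have h3 := h1 (∑ i ∈ p.support, monomial i (a i)) fun h => by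
    have h4 := congrArg (coeff · j) h
    simp only [finsetSum_coeff, coeff_monomial, Finset.sum_ite_eq', if_pos hj, coeff_zero] at h4
    have := ha j hj
    rw [h4, div_self hj0] at this
    simp at this
  have h5 : aeval y (∑ i ∈ p.support, monomial i (a i)) = -∑ i ∈ p.support,
      (algebraMap F L (p.coeff i / p.coeff j) - algebraMap k L (a i)) * y ^ i := by
    simp only [map_sum, aeval_monomial, sub_mul, Finset.sum_sub_distrib, h2, zero_sub, neg_neg]
  rw [h5, w.map_neg] at h3
  refine absurd (w.map_sum_lt one_ne_zero fun i hi => ?_) (not_lt.2 h3)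
  rw [map_mul, map_pow]
  exact (mul_le_of_le_one_right' (pow_le_one' hy i)).trans_lt (ha i hi)

end MLF.PuiA
end

-- merged part: Pool.Agent.Work.MP_29d410_ag.Pui
section
/-!
# Expansions in a uniformiser, finite extensions of Laurent series fields, curve selection

Plan.
* `disc`: in a relation `∑ a i * y ^ i = 0` two terms have the same value, so the values of `E`
  have a power (`(finrank)!`) in the cyclic group generated by the value of `z`; a subgroup of
  `(1 / N) ℤ` is cyclic.  A residue is a root of the reduction of a polynomial, so lies in `k`.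
  (Compare `Pool/Agent/Work/MP_ffcd14_ag/Cyc/VAL.lean`, `pow_mem` and `residue`.)
* `expans`: define the coefficients recursively.
* `puiseux`: take a valuation subring `W` of `E` dominating `k⟦z⟧`
  (`IsLocalRing.exists_factor_valuationRing`), `disc`, `expans`; `θ : W → k⟦s⟧` is onto since
  `k⟦s⟧` is generated by `1, s, ..., s ^ (e-1)` over `k⟦z⟧`, where `θ z = s ^ e * unit` (`θ ∘ i` is
  the evaluation at `θ z` by `hom_ext`).  `η` is the inverse of `θ`.
* `curve_sel`: choose a prime `𝔭 ⊇ I` maximal among those avoiding the powers of `f`.  In the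
  Noetherian local domain `B = k⟦Z⟧ / 𝔭` every nonzero prime contains `f`, so the height one
  primes are minimal over `f`, finitely many; every non-unit lies in one (principal ideal
  theorem), so by prime avoidance the maximal ideal is the only nonzero prime.  Then
  `𝔪 ^ N ⊆ (f)` in `B`, `B` is finite over `k⟦z⟧`, `z ↦ f` (successive approximation), and
  `puiseux` for `Frac B` embeds `B` in `k⟦s⟧`; the composite `k⟦Z⟧ → k⟦s⟧` is an evaluation by
  `TN.eq_ev` (elements of the maximal ideal have a power in `(f)`, so map into `(s)`).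
-/

open MvPowerSeries

namespace MLF

universe u

variable {k E : Type u} [Field k] [Field E]

/-- `s` is a uniformiser of `W`. -/
def Unif (W : ValuationSubring E) (F : Subfield E) (s : E) : Prop :=
  s ∈ F ∧ s ≠ 0 ∧ W.valuation s < 1 ∧ ∀ y ∈ F, y ≠ 0 → ∃ n : ℤ, W.valuation y = W.valuation s ^ n

/-- The residues of the elements of `F` lie in `k`. -/
def ResIn (W : ValuationSubring E) (c : k →+* E) (F : Subfield E) : Prop :=
  ∀ y ∈ F, y ∈ W → ∃ a : k, W.valuation (y - c a) < 1

section aux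
variable {c : k →+* E} {W : ValuationSubring E} {F : Subfield E} {s : E}

theorem Pui_const (hc : ∀ a, c a ∈ W) {a : k} (ha : a ≠ 0) : W.valuation (c a) = 1 := by
  refine le_antisymm ((W.valuation_le_one_iff _).2 (hc a)) ?_
  have := (W.valuation_le_one_iff _).2 (hc a⁻¹)
  rwa [map_inv₀, map_inv₀, inv_le_one₀ (W.valuation.pos_iff.2 ((map_ne_zero c).2 ha))] at this

theorem Pui_unif {z : E} (hF : z ∈ F) (h0 : z ≠ 0) (h1 : W.valuation z < 1) {N : ℕ} (hN : N ≠ 0)
    (h : ∀ y ∈ F, y ≠ 0 → ∃ m : ℤ, W.valuation y ^ N = W.valuation z ^ m) : ∃ s, Unif W F s := by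
  classical
  have ex : ∃ m : ℕ, 0 < m ∧ ∃ y ∈ F, y ≠ 0 ∧ W.valuation y ^ N = W.valuation z ^ m :=
    ⟨N, Nat.pos_of_ne_zero hN, z, hF, h0, rfl⟩
  obtain ⟨m0, s, hs, s0, e⟩ := Nat.find_spec ex
  have z0 : W.valuation z ≠ 0 := W.valuation.ne_zero_iff.2 h0
  have v0 : W.valuation s ≠ 0 := W.valuation.ne_zero_iff.2 s0
  refine ⟨s, hs, s0, ?_, fun y hy y0 => ?_⟩
  · rw [← pow_lt_one_iff_of_nonneg zero_le hN, e]
    exact pow_lt_one₀ zero_le h1 m0.ne'
  obtain ⟨m, hm⟩ := h y hy y0
  set n := Nat.find ex with hn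
  have n0 : (n : ℤ) ≠ 0 := by exact_mod_cast m0.ne'
  have r0 := Int.emod_nonneg m n0
  have r1 := Int.emod_lt_of_pos m (by exact_mod_cast m0 : (0 : ℤ) < n)
  have e1 : W.valuation (y / s ^ (m / n)) ^ N = W.valuation z ^ (m % n).toNat := by
    rw [map_div₀, map_zpow₀, div_pow, hm, ← zpow_natCast, ← zpow_mul, mul_comm, zpow_mul,
      zpow_natCast, e, ← zpow_natCast, ← zpow_mul, ← zpow_sub₀ z0, ← zpow_natCast,
      Int.toNat_of_nonneg r0, Int.emod_def]
  have e2 : (m % n).toNat = 0 := by
    by_contra hr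
    exact Nat.find_min ex (m := (m % n).toNat) (by omega) ⟨Nat.pos_of_ne_zero hr, _,
      F.div_mem hy (F.zpow_mem hs _), div_ne_zero y0 (zpow_ne_zero _ s0), e1⟩
  rw [e2, pow_zero, pow_eq_one_iff_of_nonneg zero_le hN, map_div₀, map_zpow₀,
    div_eq_one_iff_eq (zpow_ne_zero _ v0)] at e1
  exact ⟨_, e1⟩

theorem Pui_ev_mem {A : Subring E} (hc : ∀ a, c a ∈ A) (hs : s ∈ A) (p : Polynomial k) :
    p.eval₂ c s ∈ A := by
  rw [Polynomial.eval₂_eq_sum, Polynomial.sum_def]
  exact A.sum_mem fun i _ => A.mul_mem (hc _) (A.pow_mem hs i)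

theorem Pui_ev_le (hc : ∀ a, c a ∈ W) (h1 : W.valuation s < 1) (p : Polynomial k) :
    W.valuation (p.eval₂ c s) ≤ 1 :=
  (W.valuation_le_one_iff _).2
    (Pui_ev_mem (A := W.toSubring) hc ((W.valuation_le_one_iff _).1 h1.le) p)

theorem Pui_ev_sub (hc : ∀ a, c a ∈ W) (h1 : W.valuation s < 1) (p : Polynomial k) :
    W.valuation (p.eval₂ c s - c (p.coeff 0)) < 1 := by
  have : p.eval₂ c s - c (p.coeff 0) = s * p.divX.eval₂ c s := by
    rw [sub_eq_iff_eq_add]
    have := congrArg (Polynomial.eval₂ c s) p.X_mul_divX_add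
    rw [Polynomial.eval₂_add, Polynomial.eval₂_mul, Polynomial.eval₂_X, Polynomial.eval₂_C] at this
    exact this.symm
  rw [this, map_mul]
  exact (mul_le_of_le_one_right' (Pui_ev_le hc h1 _)).trans_lt h1

theorem Pui_ev_iff (hc : ∀ a, c a ∈ W) (h0 : s ≠ 0) (h1 : W.valuation s < 1) (N : ℕ)
    (p : Polynomial k) :
    W.valuation (p.eval₂ c s) ≤ W.valuation s ^ N ↔ Polynomial.X ^ N ∣ p := by
  have v0 : 0 < W.valuation s := W.valuation.pos_iff.2 h0
  constructor
  · induction N generalizing p with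
    | zero => simp
    | succ N ih =>
      intro h
      have a0 : p.coeff 0 = 0 := by
        by_contra ha
        have a1 := W.valuation.map_sub_lt (h.trans_lt (pow_lt_one₀ zero_le h1 N.succ_ne_zero))
          (Pui_ev_sub hc h1 p)
        rw [sub_sub_cancel, Pui_const hc ha] at a1
        exact lt_irrefl _ a1
      obtain ⟨q, rfl⟩ := Polynomial.X_dvd_iff.2 a0
      rw [Polynomial.eval₂_mul, Polynomial.eval₂_X, map_mul, pow_succ',
        mul_le_mul_iff_right₀ v0] at h
      rw [pow_succ']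
      exact mul_dvd_mul_left _ (ih q h)
  · rintro ⟨q, rfl⟩
    rw [Polynomial.eval₂_mul, Polynomial.eval₂_X_pow, map_mul, map_pow]
    exact mul_le_of_le_one_right' (Pui_ev_le hc h1 q)

theorem Pui_approx (hk : ∀ a, c a ∈ F) (hs : Unif W F s) (hr : ResIn W c F) (N : ℕ) :
    ∀ y ∈ F, y ∈ W → ∃ p : Polynomial k, W.valuation (y - p.eval₂ c s) ≤ W.valuation s ^ N := by
  have v0 : 0 < W.valuation s := W.valuation.pos_iff.2 hs.2.1
  induction N with
  | zero => exact fun y _ h => ⟨0, by simpa using h⟩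
  | succ N ih =>
    intro y hy hW
    obtain ⟨a, ha⟩ := hr y hy hW
    have h1 : y - c a ∈ F := F.sub_mem hy (hk a)
    have h2 : W.valuation (y - c a) ≤ W.valuation s := by
      by_cases h : y - c a = 0
      · rw [h, map_zero]; exact zero_le
      obtain ⟨n, hn⟩ := hs.2.2.2 _ h1 h
      rw [hn] at ha ⊢
      rw [zpow_lt_one_iff_right_of_lt_one₀ v0 hs.2.2.1] at ha
      exact (zpow_le_zpow_right_of_le_one₀ v0 hs.2.2.1.le ha).trans_eq (zpow_one _)
    obtain ⟨p, hp⟩ := ih ((y - c a) / s) (F.div_mem h1 hs.1)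
      ((W.valuation_le_one_iff _).1 (by rwa [map_div₀, div_le_one₀ v0]))
    refine ⟨Polynomial.C a + Polynomial.X * p, ?_⟩
    have : y - (Polynomial.C a + Polynomial.X * p).eval₂ c s =
        s * ((y - c a) / s - p.eval₂ c s) := by
      rw [mul_sub, mul_div_cancel₀ _ hs.2.1]
      simp [sub_sub]
    rw [this, map_mul, pow_succ']
    exact mul_le_mul_right hp _

/-- `y` has a leading term. -/
def PuiLead (c : k →+* E) (W : ValuationSubring E) (z y : E) : Prop :=
  ∃ (n : ℤ) (a : k), a ≠ 0 ∧ W.valuation (y / z ^ n - c a) < 1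

theorem Pui_one (hc : ∀ a, c a ∈ W) {u : E} {a : k} (ha : a ≠ 0) (h : W.valuation (u - c a) < 1) :
    W.valuation u = 1 := by
  rw [← Pui_const hc ha] at h ⊢
  exact W.valuation.map_eq_of_sub_lt h

theorem Pui_lead_ev (hc : ∀ a, c a ∈ W) (h0 : s ≠ 0) (h1 : W.valuation s < 1) {p : Polynomial k}
    (hp : p ≠ 0) : PuiLead c W s (p.eval₂ c s) := by
  obtain ⟨q, hq, h⟩ := Polynomial.exists_eq_pow_rootMultiplicity_mul_and_not_dvd p hp 0
  rw [map_zero, sub_zero] at hq h
  refine ⟨p.rootMultiplicity 0, q.coeff 0, fun h' => h (Polynomial.X_dvd_iff.2 h'), ?_⟩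
  generalize p.rootMultiplicity 0 = n at hq
  rw [hq, Polynomial.eval₂_mul, Polynomial.eval₂_X_pow, zpow_natCast,
    mul_div_cancel_left₀ _ (pow_ne_zero _ h0)]
  exact Pui_ev_sub hc h1 q

theorem Pui_lead_div (hc : ∀ a, c a ∈ W) (h0 : s ≠ 0) {x y : E} (hx : PuiLead c W s x)
    (hy : PuiLead c W s y) : PuiLead c W s (x / y) := by
  obtain ⟨n, a, ha, h1⟩ := hx
  obtain ⟨m, b, hb, h2⟩ := hy
  have h3 := Pui_one hc hb h2
  have h4 : y / s ^ m ≠ 0 := W.valuation.ne_zero_iff.1 (h3 ▸ one_ne_zero)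
  have h5 : c b ≠ 0 := (map_ne_zero c).2 hb
  refine ⟨n - m, a / b, div_ne_zero ha hb, ?_⟩
  have e : x / y / s ^ (n - m) = x / s ^ n / (y / s ^ m) := by
    rw [zpow_sub₀ h0]
    have := zpow_ne_zero n h0
    have := zpow_ne_zero m h0
    have : y ≠ 0 := fun h => h4 (by rw [h, zero_div])
    field_simp
  rw [e]
  generalize x / s ^ n = u at *
  generalize y / s ^ m = v at *
  have : u / v - c (a / b) = ((u - c a) * c b - (v - c b) * c a) / (v * c b) := by
    rw [map_div₀]
    field_simp
    ring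
  rw [this, map_div₀, map_mul, h3, Pui_const hc hb, one_mul, div_one]
  refine W.valuation.map_sub_lt ?_ ?_
  · rwa [map_mul, Pui_const hc hb, mul_one]
  · rwa [map_mul, Pui_const hc ha, mul_one]

theorem Pui_lead (hc : ∀ a, c a ∈ W) (h0 : s ≠ 0) (h1 : W.valuation s < 1) {y : E}
    (hy : y ∈ adj c.fieldRange {s}) (y0 : y ≠ 0) : PuiLead c W s y := by
  obtain ⟨a, ha, b, hb, rfl⟩ := Subfield.mem_closure_iff.1 hy
  have : Subring.closure ((c.fieldRange : Set E) ∪ {s}) ≤ (Polynomial.eval₂RingHom c s).range := by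
    rw [Subring.closure_le]
    rintro _ (⟨a, rfl⟩ | rfl)
    · exact ⟨Polynomial.C a, by simp⟩
    · exact ⟨Polynomial.X, by simp⟩
  obtain ⟨p, rfl⟩ := this ha
  obtain ⟨q, rfl⟩ := this hb
  refine Pui_lead_div hc h0 (Pui_lead_ev hc h0 h1 ?_) (Pui_lead_ev hc h0 h1 ?_) <;>
    rintro rfl <;> simp at y0

end aux

set_option linter.unusedVariables false in
theorem disc [IsAlgClosed k] (c : k →+* E) (W : ValuationSubring E) (hc : ∀ a, c a ∈ W)
    {F F' : Subfield E} (hk : ∀ a, c a ∈ F) (h : F ≤ F') (hfin : F.relfinrank F' ≠ 0) {z : E}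
    (hz : Unif W F z) (hr : ResIn W c F) : (∃ s, Unif W F' s) ∧ ResIn W c F' := by
  rw [Subfield.relfinrank_eq_finrank_of_le h] at hfin
  have := Module.finite_of_finrank_pos (Nat.pos_of_ne_zero hfin)
  refine ⟨Pui_unif (h hz.1) hz.2.1 hz.2.2.1
    (Module.finrank F (Subfield.extendScalars h)).factorial_ne_zero fun y hy y0 => ?_,
    fun y hy hW => ?_⟩
  · obtain ⟨x, x0, e⟩ := PuiA.pow_mem (F := F) (L := Subfield.extendScalars h)
      (W.valuation.comap (algebraMap _ E)) ⟨y, hy⟩ fun h' => y0 (congrArg Subtype.val h')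
    obtain ⟨m, hm⟩ := hz.2.2.2 x x.2 fun h' => x0 (Subtype.ext h')
    exact ⟨m, e.symm.trans hm⟩
  · let := c.toAlgebra
    exact PuiA.residue (F := F) W.valuation (fun a ha => Pui_const hc ha)
      (fun x hx => hr x x.2 ((W.valuation_le_one_iff _).1 hx)) y
      (IntermediateField.isAlgebraic_iff.1
        (Algebra.IsAlgebraic.isAlgebraic (⟨y, hy⟩ : Subfield.extendScalars h)))
      ((W.valuation_le_one_iff _).2 hW)

theorem expans (c : k →+* E) (W : ValuationSubring E) (hc : ∀ a, c a ∈ W) {F : Subfield E}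
    (hk : ∀ a, c a ∈ F) {s : E} (hs : Unif W F s) (hr : ResIn W c F) :
    ∃ θ : (W.toSubring ⊓ F.toSubring : Subring E) →+* PowerSeries k, Function.Injective θ ∧
      (∀ a h, θ ⟨c a, h⟩ = PowerSeries.C a) ∧ (∀ h, θ ⟨s, h⟩ = PowerSeries.X) ∧
      ∀ y (N : ℕ), θ y ∈ mx k ^ N ↔ W.valuation (y : E) ≤ W.valuation s ^ N := by
  have ⟨_, s0, s1, sv⟩ := hs
  have v0 : 0 < W.valuation s := W.valuation.pos_iff.2 s0
  choose P hP using fun (y : (W.toSubring ⊓ F.toSubring : Subring E)) N =>
    Pui_approx hk hs hr N y y.2.2 y.2.1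
  let θ : (W.toSubring ⊓ F.toSubring : Subring E) → PowerSeries k :=
    fun y => PowerSeries.mk fun n => (P y (n + 1)).coeff n
  have d1 : ∀ (y : (W.toSubring ⊓ F.toSubring : Subring E)) N (p : Polynomial k),
      W.valuation ((y : E) - p.eval₂ c s) ≤ W.valuation s ^ N →
      PowerSeries.X ^ N ∣ θ y - (p : PowerSeries k) := fun y N p h => by
    refine PowerSeries.X_pow_dvd_iff.2 fun n hn => ?_
    have h1 := W.valuation.map_sub_le (h.trans (pow_le_pow_of_le_one zero_le s1.le hn))
      (hP y (n + 1))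
    rw [sub_sub_sub_cancel_left, ← Polynomial.eval₂_sub, Pui_ev_iff hc s0 s1,
      Polynomial.X_pow_dvd_iff] at h1
    simpa [θ] using h1 n n.lt_succ_self
  have d2 : ∀ y N (p : Polynomial k), PowerSeries.X ^ N ∣ θ y - (p : PowerSeries k) →
      W.valuation ((y : E) - p.eval₂ c s) ≤ W.valuation s ^ N := fun y N p h => by
    have h1 := dvd_sub h (d1 y N _ (hP y N))
    rw [sub_sub_sub_cancel_left, PowerSeries.X_pow_dvd_iff] at h1
    have h2 := (Pui_ev_iff hc s0 s1 N (P y N - p)).2
      (Polynomial.X_pow_dvd_iff.2 fun n hn => by simpa using h1 n hn)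
    have := W.valuation.map_add_le (hP y N) h2
    rwa [Polynomial.eval₂_sub, sub_add_sub_cancel] at this
  have ext : ∀ f g : PowerSeries k, (∀ N, PowerSeries.X ^ N ∣ f - g) → f = g := fun f g h =>
    PowerSeries.ext fun n => by
      simpa [sub_eq_zero] using PowerSeries.X_pow_dvd_iff.1 (h (n + 1)) n n.lt_succ_self
  have d3 : ∀ (y : (W.toSubring ⊓ F.toSubring : Subring E)) (p : Polynomial k),
      (y : E) = p.eval₂ c s → θ y = (p : PowerSeries k) := fun y p h =>
    ext _ _ fun N => d1 y N p (by rw [h, sub_self, map_zero]; exact zero_le)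
  let Θ : (W.toSubring ⊓ F.toSubring : Subring E) →+* PowerSeries k :=
    { toFun := θ
      map_one' := by simpa using d3 1 1 (by simp)
      map_zero' := by simpa using d3 0 0 (by simp)
      map_add' := fun x y => ext _ _ fun N => by
        have h1 := d1 (x + y) N (P x N + P y N) (by
          rw [Polynomial.eval₂_add, Subring.coe_add, add_sub_add_comm]
          exact W.valuation.map_add_le (hP x N) (hP y N))
        have h2 := dvd_sub h1 (dvd_add (d1 x N _ (hP x N)) (d1 y N _ (hP y N)))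
        convert h2 using 1
        rw [Polynomial.coe_add]
        ring
      map_mul' := fun x y => ext _ _ fun N => by
        have h1 := d1 (x * y) N (P x N * P y N) (by
          have : ((x * y : (W.toSubring ⊓ F.toSubring : Subring E)) : E) -
              (P x N * P y N).eval₂ c s = (y - (P y N).eval₂ c s) * x +
                (x - (P x N).eval₂ c s) * (P y N).eval₂ c s := by
            rw [Polynomial.eval₂_mul, Subring.coe_mul]
            ring
          rw [this]
          refine W.valuation.map_add_le ?_ ?_ <;> rw [map_mul]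
          · exact (mul_le_of_le_one_right' ((W.valuation_le_one_iff _).2 x.2.1)).trans (hP y N)
          · exact (mul_le_of_le_one_right' (Pui_ev_le hc s1 _)).trans (hP x N))
        have h2 := dvd_sub h1 (dvd_add ((d1 y N _ (hP y N)).mul_left (θ x))
          ((d1 x N _ (hP x N)).mul_right (P y N)))
        convert h2 using 1
        rw [Polynomial.coe_mul]
        ring }
  have hm : ∀ y (N : ℕ), Θ y ∈ mx k ^ N ↔ W.valuation (y : E) ≤ W.valuation s ^ N := fun y N => by
    rw [Ideal.span_singleton_pow, Ideal.mem_span_singleton, show Θ y = θ y from rfl]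
    exact ⟨fun h => by simpa using d2 y N 0 (by simpa using h),
      fun h => by simpa using d1 y N 0 (by simpa using h)⟩
  refine ⟨Θ, (injective_iff_map_eq_zero Θ).2 fun y hy => ?_,
    fun a h => (d3 ⟨c a, h⟩ (Polynomial.C a) (by simp)).trans (by simp),
    fun h => (d3 ⟨s, h⟩ Polynomial.X (by simp)).trans (by simp), hm⟩
  by_contra y0
  obtain ⟨n, hn⟩ := sv y y.2.2 fun h => y0 (Subtype.ext h)
  have := (hm y (n.toNat + 1)).1 (hy ▸ Ideal.zero_mem _)
  rw [hn, ← zpow_natCast, zpow_le_zpow_iff_right_of_lt_one₀ v0 s1] at this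
  omega

/-- A valuation ring of a function field of one variable is discrete with residue field `k`. -/
theorem disc_curve [IsAlgClosed k] (c : k →+* E) (W : ValuationSubring E) (hc : ∀ a, c a ∈ W)
    (s : Finset E) (hs : rk c.fieldRange (s : Set E) ≤ 1)
    (hW : ¬ ∀ y ∈ adj c.fieldRange (s : Set E), y ∈ W) :
    (∃ x, Unif W (adj c.fieldRange (s : Set E)) x) ∧ ResIn W c (adj c.fieldRange (s : Set E)) := by
  push Not at hW
  obtain ⟨y, hy, yW⟩ := hW
  have y1 : 1 < W.valuation y := not_le.1 fun h => yW ((W.valuation_le_one_iff _).1 h)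
  have z0 : y⁻¹ ≠ 0 := inv_ne_zero fun h => yW (h ▸ W.zero_mem)
  have z1 : W.valuation y⁻¹ < 1 := by
    rw [map_inv₀]
    exact inv_lt_one_of_one_lt₀ y1
  have hz : y⁻¹ ∈ adj c.fieldRange (s : Set E) := inv_mem hy
  generalize y⁻¹ = z at z0 z1 hz
  have v0 : 0 < W.valuation z := W.valuation.pos_iff.2 z0
  have le : adj c.fieldRange {z} ≤ adj c.fieldRange (s : Set E) :=
    adj_le.2 ⟨le_adj _ _, Set.singleton_subset_iff.2 hz⟩
  have val : ∀ {x : E} {n : ℤ} {a : k}, a ≠ 0 → W.valuation (x / z ^ n - c a) < 1 →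
      W.valuation x = W.valuation z ^ n := fun ha h => by
    have := Pui_one hc ha h
    rwa [map_div₀, map_zpow₀, div_eq_one_iff_eq (zpow_ne_zero _ v0.ne')] at this
  refine disc c W hc (fun a => le_adj _ _ (c.mem_fieldRange_self a)) le ?_
    ⟨subset_adj _ _ rfl, z0, z1, fun x hx x0 => ?_⟩ fun x hx xW => ?_
  · have e : adj c.fieldRange (s : Set E) = adj (adj c.fieldRange {z}) s :=
      le_antisymm (adj_le.2 ⟨(le_adj _ _).trans (le_adj _ _), subset_adj _ _⟩)
        (adj_le.2 ⟨le, subset_adj _ _⟩)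
    rw [e]
    refine relfinrank_adj s.finite_toSet (rk_eq_zero.1 ?_)
    have h1 : rk c.fieldRange ({z} ∪ (s : Set E)) ≤ 1 :=
      ((rk_mono (Set.union_subset (Set.singleton_subset_iff.2 hz) (subset_adj _ _))).trans_eq
        rk_adj).trans hs
    have h2 : rk c.fieldRange {z} ≠ 0 := fun h => by
      have := rk_eq_zero.1 h rfl
      rw [acl_eq] at this
      obtain ⟨a, rfl⟩ := this
      exact z1.ne (Pui_const hc fun h => z0 (by rw [h, map_zero]))
    rw [rk_union] at h1
    by_contra h3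
    have := (add_le_add (Order.one_le_iff_ne_zero.2 h2) (Order.one_le_iff_ne_zero.2 h3)).trans h1
    exact absurd this (by decide)
  · obtain ⟨n, a, ha, h⟩ := Pui_lead hc z0 z1 hx x0
    exact ⟨n, val ha h⟩
  · by_cases x0 : x = 0
    · exact ⟨0, by simp [x0]⟩
    obtain ⟨n, a, ha, h⟩ := Pui_lead hc z0 z1 hx x0
    have h1 := (W.valuation_le_one_iff _).2 xW
    rw [val ha h, zpow_le_one_iff_right_of_lt_one₀ v0 z1] at h1
    rcases h1.eq_or_lt with rfl | h1
    · exact ⟨a, by simpa using h⟩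
    · exact ⟨0, by rwa [map_zero, sub_zero, val ha h, zpow_lt_one_iff_right_of_lt_one₀ v0 z1]⟩

end MLF
end

-- merged part: Pool.Agent.Work.MP_29d410_ag.Pui2
section
/-!
# Expansions in a uniformiser, finite extensions of Laurent series fields, curve selection

Plan.
* `disc`: in a relation `∑ a i * y ^ i = 0` two terms have the same value, so the values of `E`
  have a power (`(finrank)!`) in the cyclic group generated by the value of `z`; a subgroup of
  `(1 / N) ℤ` is cyclic.  A residue is a root of the reduction of a polynomial, so lies in `k`.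
  (Compare `Pool/Agent/Work/MP_ffcd14_ag/Cyc/VAL.lean`, `pow_mem` and `residue`.)
* `expans`: define the coefficients recursively.
* `puiseux`: take a valuation subring `W` of `E` dominating `k⟦z⟧`
  (`IsLocalRing.exists_factor_valuationRing`), `disc`, `expans`; `θ : W → k⟦s⟧` is onto since
  `k⟦s⟧` is generated by `1, s, ..., s ^ (e-1)` over `k⟦z⟧`, where `θ z = s ^ e * unit` (`θ ∘ i` is
  the evaluation at `θ z` by `hom_ext`).  `η` is the inverse of `θ`.
* `curve_sel`: choose a prime `𝔭 ⊇ I` maximal among those avoiding the powers of `f`.  In the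
  Noetherian local domain `B = k⟦Z⟧ / 𝔭` every nonzero prime contains `f`, so the height one
  primes are minimal over `f`, finitely many; every non-unit lies in one (principal ideal
  theorem), so by prime avoidance the maximal ideal is the only nonzero prime.  Then
  `𝔪 ^ N ⊆ (f)` in `B`, `B` is finite over `k⟦z⟧`, `z ↦ f` (successive approximation), and
  `puiseux` for `Frac B` embeds `B` in `k⟦s⟧`; the composite `k⟦Z⟧ → k⟦s⟧` is an evaluation by
  `TN.eq_ev` (elements of the maximal ideal have a power in `(f)`, so map into `(s)`).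
-/

open MvPowerSeries

namespace MLF

universe u

variable {k E : Type u} [Field k] [Field E]

theorem Pui2_split {R : Type*} [CommRing R] (g : PowerSeries R) (N : ℕ) :
    ∃ h, g = ∑ n ∈ Finset.range N, PowerSeries.C (PowerSeries.coeff n g) * PowerSeries.X ^ n +
      PowerSeries.X ^ N * h := by
  have : (PowerSeries.X : PowerSeries R) ^ N ∣ g -
      ∑ n ∈ Finset.range N, PowerSeries.C (PowerSeries.coeff n g) * PowerSeries.X ^ n := by
    rw [PowerSeries.X_pow_dvd_iff]
    intro m hm
    simp [map_sum, PowerSeries.coeff_C_mul, PowerSeries.coeff_X_pow, hm]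
  obtain ⟨h, hh⟩ := this
  exact ⟨h, by rw [← hh]; ring⟩

/-- The ring of power series is generated by finitely many powers of the variable over the image
of a nontrivial substitution. -/
theorem Pui2_gen (φ : PowerSeries k →+* PowerSeries k)
    (hC : ∀ a, φ (PowerSeries.C a) = PowerSeries.C a)
    (h0 : PowerSeries.constantCoeff (φ PowerSeries.X) = 0) (hne : φ PowerSeries.X ≠ 0) :
    ∃ e : ℕ, ∀ g, ∃ f : ℕ → PowerSeries k,
      g = ∑ j ∈ Finset.range e, φ (f j) * PowerSeries.X ^ j := by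
  set z := φ PowerSeries.X with hz
  obtain ⟨u, hu⟩ := PowerSeries.isUnit_divided_by_X_pow_order hne
  have hzu := PowerSeries.X_pow_order_mul_divXPowOrder (f := z)
  set e := z.order.toNat
  rw [← hu] at hzu
  have hT : ∀ g : PowerSeries k, ∃ h, g = ∑ j ∈ Finset.range e,
      PowerSeries.C (PowerSeries.coeff j g) * PowerSeries.X ^ j + z * h := by
    intro g
    obtain ⟨h, hh⟩ := Pui2_split g e
    refine ⟨(u⁻¹ : (PowerSeries k)ˣ) * h, ?_⟩
    rw [← hzu, mul_assoc, Units.mul_inv_cancel_left]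
    exact hh
  choose T hT using hT
  refine ⟨e, fun g => ⟨fun j => PowerSeries.mk fun n => PowerSeries.coeff j (T^[n] g), ?_⟩⟩
  have h1 : ∀ N : ℕ, g = ∑ j ∈ Finset.range e, (∑ n ∈ Finset.range N,
      PowerSeries.C (PowerSeries.coeff j (T^[n] g)) * z ^ n) * PowerSeries.X ^ j +
        z ^ N * T^[N] g := by
    intro N
    induction N with
    | zero => simp
    | succ N ih =>
      have h2 := hT (T^[N] g)
      rw [← Function.iterate_succ_apply' T N g] at h2
      simp only [Finset.sum_range_succ, add_mul, Finset.sum_add_distrib]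
      rw [add_assoc]
      refine ih.trans ?_
      congr 1
      conv_lhs => rw [h2]
      rw [mul_add, Finset.mul_sum, pow_succ, mul_assoc]
      congr 1
      exact Finset.sum_congr rfl fun j _ => by ring
  have h2 : ∀ (N j : ℕ), z ^ N ∣
      φ (PowerSeries.mk fun n => PowerSeries.coeff j (T^[n] g)) - ∑ n ∈ Finset.range N,
        PowerSeries.C (PowerSeries.coeff j (T^[n] g)) * z ^ n := by
    intro N j
    obtain ⟨h, hh⟩ := Pui2_split (PowerSeries.mk fun n => PowerSeries.coeff j (T^[n] g)) N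
    refine ⟨φ h, ?_⟩
    rw [hh]
    simp [map_sum, hC, ← hz]
  have h3 : ∀ N : ℕ, (PowerSeries.X : PowerSeries k) ^ N ∣ g - ∑ j ∈ Finset.range e,
      φ (PowerSeries.mk fun n => PowerSeries.coeff j (T^[n] g)) * PowerSeries.X ^ j := by
    intro N
    refine (pow_dvd_pow_of_dvd (PowerSeries.X_dvd_iff.2 h0) N).trans ?_
    have h4 : z ^ N ∣ ∑ j ∈ Finset.range e,
        (φ (PowerSeries.mk fun n => PowerSeries.coeff j (T^[n] g)) - ∑ n ∈ Finset.range N,
          PowerSeries.C (PowerSeries.coeff j (T^[n] g)) * z ^ n) * PowerSeries.X ^ j :=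
      Finset.dvd_sum fun j _ => (h2 N j).mul_right _
    have h5 := (dvd_mul_right (z ^ N) (T^[N] g)).sub h4
    convert h5 using 1
    simp only [sub_mul, Finset.sum_sub_distrib]
    linear_combination h1 N
  ext n
  have := (PowerSeries.X_pow_dvd_iff.1 (h3 (n + 1))) n (Nat.lt_succ_self n)
  rwa [map_sub, sub_eq_zero] at this

theorem Pui2_finite {R S : Type*} [CommRing R] [CommRing S] (φ : R →+* S) (x : S) (e : ℕ)
    (h : ∀ g, ∃ f : ℕ → R, g = ∑ j ∈ Finset.range e, φ (f j) * x ^ j) : φ.Finite := by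
  classical
  let _ := φ.toAlgebra
  refine ⟨⟨(Finset.range e).image (x ^ ·), eq_top_iff.2 fun g _ => ?_⟩⟩
  obtain ⟨f, rfl⟩ := h g
  refine Submodule.sum_mem _ fun j hj => ?_
  exact Submodule.smul_mem _ (f j) (Submodule.subset_span (by simpa using ⟨j, by simpa using hj, rfl⟩))

theorem Pui2_frac {R : Type*} [CommRing R] (i : R →+* E) {y : E}
    (hy : y ∈ Subfield.closure (Set.range i)) : ∃ a b, i a / i b = y := by
  obtain ⟨a, ha, b, hb, rfl⟩ := Subfield.mem_closure_iff.1 hy
  have h : Subring.closure (Set.range i) ≤ i.range := Subring.closure_le.2 fun _ h => h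
  obtain ⟨a, rfl⟩ := h ha
  obtain ⟨b, rfl⟩ := h hb
  exact ⟨a, b, rfl⟩

theorem Pui2_val (i : PowerSeries k →+* E) (hi : Function.Injective i) :
    ∃ W : ValuationSubring E, (∀ f, i f ∈ W) ∧
      Unif W (Subfield.closure (Set.range i)) (i PowerSeries.X) ∧
      ResIn W (i.comp PowerSeries.C) (Subfield.closure (Set.range i)) := by
  obtain ⟨W, hW, hloc⟩ := IsLocalRing.exists_factor_valuationRing i
  have hu : ∀ f, W.valuation (i f) = 1 ↔ IsUnit f := by
    intro f
    rw [← W.valuation_eq_one_iff ⟨i f, hW f⟩]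
    exact ⟨fun h => hloc.map_nonunit f h, fun h => h.map (i.codRestrict W.toSubring hW)⟩
  have hle : ∀ f, W.valuation (i f) ≤ 1 := fun f => (W.valuation_le_one_iff _).2 (hW f)
  have hX : W.valuation (i PowerSeries.X) < 1 := by
    refine lt_of_le_of_ne (hle _) fun h => ?_
    have := PowerSeries.isUnit_iff_constantCoeff.1 ((hu _).1 h)
    simp at this
  have hX0 : i PowerSeries.X ≠ 0 := (map_ne_zero_iff i hi).2 PowerSeries.X_ne_zero
  have hord : ∀ f, f ≠ 0 → ∃ n : ℕ, W.valuation (i f) = W.valuation (i PowerSeries.X) ^ n := by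
    intro f hf
    refine ⟨f.order.toNat, ?_⟩
    conv_lhs => rw [← PowerSeries.X_pow_order_mul_divXPowOrder (f := f)]
    rw [map_mul, map_mul, (hu _).2 (PowerSeries.isUnit_divided_by_X_pow_order hf), mul_one,
      map_pow, map_pow]
  refine ⟨W, hW, ⟨Subfield.subset_closure ⟨_, rfl⟩, hX0, hX, fun y hy hy0 => ?_⟩,
    fun y hy hyW => ?_⟩
  · obtain ⟨a, b, rfl⟩ := Pui2_frac i hy
    obtain ⟨n, hn⟩ := hord a (by rintro rfl; simp at hy0)
    obtain ⟨m, hm⟩ := hord b (by rintro rfl; simp at hy0)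
    refine ⟨n - m, ?_⟩
    rw [map_div₀, hn, hm, zpow_sub₀ ((map_ne_zero _).2 hX0), zpow_natCast, zpow_natCast]
  · have : ∃ g, i g = y := by
      obtain ⟨a, b, rfl⟩ := Pui2_frac i hy
      by_cases hb : b = 0
      · exact ⟨0, by simp [hb]⟩
      have hb' : i b ≠ 0 := (map_ne_zero_iff i hi).2 hb
      obtain ⟨c, hc | hc⟩ := ValuationRing.cond a b
      · have hc' : i a * i c = i b := by rw [← map_mul, hc]
        have h1 : i a / i b * i c = 1 := by rw [div_mul_eq_mul_div, hc', div_self hb']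
        have h2 : W.valuation (i c) = 1 := by
          have h3 := congrArg W.valuation h1
          rw [map_mul, map_one] at h3
          refine le_antisymm (hle c) ?_
          rw [← h3]
          exact mul_le_of_le_one_left' ((W.valuation_le_one_iff _).2 hyW)
        obtain ⟨v, rfl⟩ := (hu c).1 h2
        refine ⟨(v⁻¹ : (PowerSeries k)ˣ), ?_⟩
        rw [eq_div_iff hb', ← hc, ← map_mul, mul_comm a, Units.inv_mul_cancel_left]
      · exact ⟨c, by rw [eq_div_iff hb', ← hc, map_mul, mul_comm]⟩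
    obtain ⟨g, rfl⟩ := this
    obtain ⟨h, hh⟩ := Pui2_split g 1
    refine ⟨PowerSeries.coeff 0 g, ?_⟩
    have h1 : i g - (i.comp PowerSeries.C) (PowerSeries.coeff 0 g) = i PowerSeries.X * i h := by
      rw [RingHom.comp_apply, ← map_sub, ← map_mul]
      congr 1
      simp only [Finset.sum_range_one, pow_zero, mul_one, pow_one] at hh
      linear_combination hh
    rw [h1, map_mul]
    exact lt_of_le_of_lt (mul_le_of_le_one_right' (hle h)) hX

theorem puiseux [IsAlgClosed k] (i : PowerSeries k →+* E) (hi : Function.Injective i)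
    (hfin : (Subfield.closure (Set.range i)).relfinrank ⊤ ≠ 0) :
    ∃ (η : PowerSeries k →+* E) (z : PowerSeries k), Function.Injective η ∧
      (∀ a, η (PowerSeries.C a) = i (PowerSeries.C a)) ∧ PowerSeries.constantCoeff z = 0 ∧
      η z = i PowerSeries.X ∧ (∀ f, i f ∈ η.range) ∧
      (∀ y, ∃ a b, b ≠ 0 ∧ y * η b = η a) ∧
      (∀ y, i.IsIntegralElem y ↔ y ∈ η.range) := by
  obtain ⟨W, hW, hU, hR⟩ := Pui2_val i hi
  obtain ⟨⟨s, hs⟩, hR'⟩ := disc (i.comp PowerSeries.C) W (fun a => hW _)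
    (F := Subfield.closure (Set.range i))
    (fun a => Subfield.subset_closure ⟨PowerSeries.C a, rfl⟩) le_top hfin hU hR
  obtain ⟨θ, hθ, hθc, hθs, hθv⟩ := expans (i.comp PowerSeries.C) W (fun a => hW _)
    (F := ⊤) (fun a => trivial) hs hR'
  let D : Subring E := W.toSubring ⊓ (⊤ : Subfield E).toSubring
  have hmem : ∀ y, y ∈ W → y ∈ D := fun y hy => ⟨hy, trivial⟩
  let j : PowerSeries k →+* D := i.codRestrict D fun f => hmem _ (hW f)
  let φ : PowerSeries k →+* PowerSeries k := θ.comp j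
  have hsW : s ∈ W := (W.valuation_le_one_iff _).1 hs.2.2.1.le
  have h0 : PowerSeries.constantCoeff (φ PowerSeries.X) = 0 := by
    rw [← PowerSeries.X_dvd_iff, ← Ideal.mem_span_singleton, ← pow_one (Ideal.span _)]
    refine (hθv (j PowerSeries.X) 1).2 ?_
    obtain ⟨n, hn⟩ := hs.2.2.2 (i PowerSeries.X) trivial hU.2.1
    have hpos : 0 < W.valuation s := zero_lt_iff.2 ((map_ne_zero _).2 hs.2.1)
    have h1 := hU.2.2.1
    rw [hn, zpow_lt_one_iff_right_of_lt_one₀ hpos hs.2.2.1] at h1
    change W.valuation (i PowerSeries.X) ≤ _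
    rw [hn, ← zpow_natCast]
    exact zpow_le_zpow_right_of_le_one₀ hpos hs.2.2.1.le (by push_cast; omega)
  have hne : φ PowerSeries.X ≠ 0 := by
    intro h
    have h1 : j PowerSeries.X = 0 := hθ (h.trans (map_zero θ).symm)
    exact hU.2.1 (congrArg Subtype.val h1)
  obtain ⟨e, he⟩ := Pui2_gen φ (fun a => hθc a (hmem _ (hW _))) h0 hne
  have hsurj : Function.Surjective θ := by
    intro g
    obtain ⟨f, rfl⟩ := he g
    refine ⟨∑ n ∈ Finset.range e, j (f n) * ⟨s, hmem s hsW⟩ ^ n, ?_⟩
    rw [map_sum]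
    exact Finset.sum_congr rfl fun n _ => by rw [map_mul, map_pow, hθs]; rfl
  let Θ := RingEquiv.ofBijective θ ⟨hθ, hsurj⟩
  let η : PowerSeries k →+* E := D.subtype.comp Θ.symm.toRingHom
  have hη : ∀ y : D, η (θ y) = y := fun y => congrArg Subtype.val (Θ.symm_apply_apply y)
  have hrange : ∀ y, y ∈ η.range ↔ y ∈ W := fun y =>
    ⟨by rintro ⟨g, rfl⟩; exact (Θ.symm g).2.1, fun hy => ⟨θ ⟨y, hmem y hy⟩, hη _⟩⟩
  have hφ : η.comp φ = i := RingHom.ext fun f => hη (j f)
  refine ⟨η, φ PowerSeries.X, Subtype.val_injective.comp Θ.symm.injective, fun a => ?_, h0,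
    hη (j _), fun f => (hrange _).2 (hW f), fun y => ?_, fun y => ⟨fun hy => ?_, ?_⟩⟩
  · exact (congrArg η (hθc a (hmem _ (hW _)))).symm.trans (hη _)
  · by_cases hy : y ∈ W
    · exact ⟨θ ⟨y, hmem y hy⟩, 1, one_ne_zero, by rw [hη, map_one, mul_one]⟩
    · have hy0 : y ≠ 0 := by rintro rfl; exact hy W.zero_mem
      have hy' : y⁻¹ ∈ W := (W.mem_or_inv_mem y).resolve_left hy
      refine ⟨1, θ ⟨y⁻¹, hmem _ hy'⟩, fun h => ?_, by rw [hη, map_one, mul_inv_cancel₀ hy0]⟩
      have := hη ⟨y⁻¹, hmem _ hy'⟩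
      rw [h, map_zero] at this
      exact inv_ne_zero hy0 this.symm
  · rw [hrange]
    obtain ⟨p, hp, hpy⟩ := hy
    let j' : PowerSeries k →+* W := i.codRestrict W.toSubring hW
    have hint : IsIntegral W y := ⟨p.map j', hp.map j', by rw [Polynomial.eval₂_map]; exact hpy⟩
    obtain ⟨w, rfl⟩ := IsIntegrallyClosed.algebraMap_eq_of_integral hint
    exact w.2
  · rintro ⟨g, rfl⟩
    obtain ⟨p, hp, hpg⟩ := (Pui2_finite φ _ e he).to_isIntegral g
    exact ⟨p, hp, by rw [← hφ, ← Polynomial.hom_eval₂, hpg, map_zero]⟩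

end MLF
end
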