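import Pool.Agent.Work.MP_29d410_ag.DM7A
import Pool.Agent.Work.MP_29d410_ag.Germ
import Pool.Agent.Work.MP_29d410_ag.NBA
import Pool.Agent.Work.MP_29d410_ag.Geo6
import Pool.Agent.Work.MP_29d410_ag.Geo5

-- merged part: Pool.Agent.Work.MP_29d410_ag.ZL
section
/-!
# The logarithm of a formal group law in characteristic zero

Plan.  Let `m = G.mul 2`, `m i - 2 X i ∈ mX ^ 2` (`mul_sub_mem`).  The operator `f ↦ ev C m f - 2 f` maps
`mX ^ d` to itself and induces multiplication by `2 ^ d - 2` on `mX ^ d / mX ^ (d + 1)`; so it is bijective on `mX ^ 2`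
(successive approximation, completeness).  This gives `Lg i ≡ X i` with `ev C m (Lg i) = 2 * Lg i`.
The series `h = Lg (F (x, y)) - Lg x - Lg y` lies in `mX ^ 2` (`add_sub_mem`) and satisfies
`h (m x, m y) = 2 h (x, y)` (`IsHom.mul`), so vanishes by the same argument in the variables `τ ⊕ τ`.
`Ex` comes from `ev_surj`; `ev C Ex` is surjective too, which gives the other identity.
-/

open MvPowerSeries

namespace MLF

universe u

theorem ZL_cc {K : Type u} [CommRing K] {σ : Type} [Finite σ] {m : σ → MvPowerSeries σ K}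
    (hm : ∀ i, m i - 2 * X i ∈ mX σ K ^ 2) (i : σ) : constantCoeff (m i) = 0 := by
  have h1 : m i - 2 * X i ∈ mX σ K := Ideal.pow_le_self two_ne_zero (hm i)
  have h2 := mem_mX.1 h1
  rwa [map_sub, map_mul, constantCoeff_X, mul_zero, sub_zero] at h2

theorem ZL_map {K : Type u} [CommRing K] {σ ρ : Type} [Finite σ] [Finite ρ]
    {m : σ → MvPowerSeries ρ K} (hm : ∀ i, constantCoeff (m i) = 0) {d : ℕ}
    {f : MvPowerSeries σ K} (hf : f ∈ mX σ K ^ d) : ev C m f ∈ mX ρ K ^ d :=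
  Ev_map_pow (fun i => by rw [(TN.of_cc hm).ev_X]; exact mem_mX.2 (hm i)) hf

theorem ZL_zero {K : Type u} [CommRing K] {σ : Type} [Finite σ] {m : σ → MvPowerSeries σ K}
    (hm : ∀ i, constantCoeff (m i) = 0) (f : MvPowerSeries σ K) : ev C m f - f ∈ mX σ K := by
  rw [mem_mX, map_sub, FG3_cc hm, sub_self]

/-- The linear part of a substitution whose linear part is `a` times the identity. -/
theorem ZL_one {K : Type u} [CommRing K] {σ : Type} [Finite σ] {m : σ → MvPowerSeries σ K}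
    (hc : ∀ i, constantCoeff (m i) = 0) {a : MvPowerSeries σ K}
    (hm : ∀ i, m i - a * X i ∈ mX σ K ^ 2) {f : MvPowerSeries σ K} (hf : f ∈ mX σ K) :
    ev C m f - a * f ∈ mX σ K ^ 2 := by
  have key : ∀ f ∈ mX σ K, ev C m f - a * f ∈ mX σ K ^ 2 := by
    intro f hf
    induction hf using Submodule.span_induction with
    | mem x hx =>
      obtain ⟨i, rfl⟩ := hx
      rw [(TN.of_cc hc).ev_X]
      exact hm i
    | zero => simp
    | add x y _ _ hx hy =>
      have := Ideal.add_mem _ hx hy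
      rw [map_add]
      convert this using 1
      ring
    | smul c x hx ih =>
      have h1 : (ev C m c - c) * (a * x) ∈ mX σ K ^ 2 := by
        rw [pow_two]
        exact Ideal.mul_mem_mul (ZL_zero hc c) (Ideal.mul_mem_left _ _ hx)
      have := Ideal.add_mem _ (Ideal.mul_mem_left _ (ev C m c) ih) h1
      rw [smul_eq_mul, map_mul]
      convert this using 1
      ring
  exact key f hf

theorem ZL_key {K : Type u} [CommRing K] {σ : Type} [Finite σ] {m : σ → MvPowerSeries σ K}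
    (hm : ∀ i, m i - 2 * X i ∈ mX σ K ^ 2) (d : ℕ) {f : MvPowerSeries σ K}
    (hf : f ∈ mX σ K ^ d) : ev C m f - 2 ^ d * f ∈ mX σ K ^ (d + 1) := by
  have hc := ZL_cc hm
  induction d generalizing f with
  | zero => simpa using ZL_zero hc f
  | succ d ih =>
    rw [pow_succ (mX σ K) d] at hf
    refine Submodule.mul_induction_on hf (fun a ha b hb => ?_) fun x y hx hy => ?_
    · have h1 : (ev C m a - 2 ^ d * a) * ev C m b ∈ mX σ K ^ (d + 1 + 1) := by
        rw [pow_succ (mX σ K) (d + 1)]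
        refine Ideal.mul_mem_mul (ih ha) ?_
        rw [mem_mX, FG3_cc hc]
        exact mem_mX.1 hb
      have h2 : (2 ^ d * a) * (ev C m b - 2 * b) ∈ mX σ K ^ (d + 1 + 1) := by
        rw [add_assoc, pow_add (mX σ K) d]
        exact Ideal.mul_mem_mul (Ideal.mul_mem_left _ _ ha) (ZL_one hc hm hb)
      have := Ideal.add_mem _ h1 h2
      rw [map_mul]
      convert this using 1
      ring
    · have := Ideal.add_mem _ hx hy
      rw [map_add]
      convert this using 1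
      ring

theorem ZL_unit (K : Type u) [Field K] [CharZero K] (σ : Type) (n : ℕ) :
    ∃ c : K, (C c : MvPowerSeries σ K) * (2 ^ (n + 2) - 2) = 1 := by
  have h1 : (2 : K) ^ (n + 2) - 2 ≠ 0 := by
    have h2 : (2 : ℕ) ^ (n + 2) ≠ 2 := by
      have := Nat.one_le_two_pow (n := n)
      rw [pow_add]
      omega
    rw [sub_ne_zero]
    exact_mod_cast h2
  refine ⟨((2 : K) ^ (n + 2) - 2)⁻¹, ?_⟩
  have e : (2 ^ (n + 2) - 2 : MvPowerSeries σ K) = C ((2 : K) ^ (n + 2) - 2) := by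
    rw [map_sub, map_pow, map_ofNat]
  rw [e, ← map_mul, inv_mul_cancel₀ h1, map_one]

theorem ZL_inj {K : Type u} [Field K] [CharZero K] {σ : Type} [Finite σ]
    {m : σ → MvPowerSeries σ K} (hm : ∀ i, m i - 2 * X i ∈ mX σ K ^ 2) {f : MvPowerSeries σ K}
    (hf : f ∈ mX σ K ^ 2) (h : ev C m f = 2 * f) : f = 0 := by
  have key : ∀ n, f ∈ mX σ K ^ (n + 2) := by
    intro n
    induction n with
    | zero => exact hf
    | succ n ih =>
      obtain ⟨c, hc⟩ := ZL_unit K σ n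
      have h1 := Ideal.mul_mem_left _ (-C c) (ZL_key hm (n + 2) ih)
      rw [h] at h1
      have e : -C c * (2 * f - 2 ^ (n + 2) * f) = f := by
        calc -C c * (2 * f - 2 ^ (n + 2) * f) = C c * (2 ^ (n + 2) - 2) * f := by ring
          _ = f := by rw [hc, one_mul]
      rwa [e] at h1
  exact Ev2_haus (mX σ K) fun n => Ideal.pow_le_pow_right (Nat.le_add_right n 2) (key n)

theorem ZL_surj {K : Type u} [Field K] [CharZero K] {σ : Type} [Finite σ]
    {m : σ → MvPowerSeries σ K} (hm : ∀ i, m i - 2 * X i ∈ mX σ K ^ 2) {u : MvPowerSeries σ K}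
    (hu : u ∈ mX σ K ^ 2) : ∃ g ∈ mX σ K ^ 2, ev C m g - 2 * g = u := by
  have hc := ZL_cc hm
  choose c hcc using ZL_unit K σ
  obtain ⟨g, g0, gs⟩ : ∃ g : ℕ → MvPowerSeries σ K, g 0 = 0 ∧
      ∀ n, g (n + 1) = g n + C (c n) * (u - (ev C m (g n) - 2 * g n)) :=
    ⟨fun n => Nat.rec 0 (fun n a => a + C (c n) * (u - (ev C m a - 2 * a))) n, rfl, fun _ => rfl⟩
  have h1 : ∀ n, u - (ev C m (g n) - 2 * g n) ∈ mX σ K ^ (n + 2) := by
    intro n
    induction n with
    | zero => simpa [g0] using hu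
    | succ n ih =>
      have h2 := Ideal.mul_mem_left _ (-C (c n)) (ZL_key hm (n + 2) ih)
      obtain ⟨v, hv⟩ : ∃ v, v = u - (ev C m (g n) - 2 * g n) := ⟨_, rfl⟩
      rw [← hv] at h2
      rw [gs, ← hv, map_add, map_mul, (TN.of_cc hc).ev_C]
      have e : u - (ev C m (g n) + C (c n) * ev C m v - 2 * (g n + C (c n) * v)) =
          -C (c n) * (ev C m v - 2 ^ (n + 2) * v) := by
        have e1 : u = v + (ev C m (g n) - 2 * g n) := by rw [hv, sub_add_cancel]
        have e2 := hcc n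
        rw [e1]
        linear_combination (-v) * e2
      rw [e]
      exact h2
  have h2 : ∀ k n, g k - g (k + n) ∈ mX σ K ^ (k + 2) := by
    intro k n
    induction n with
    | zero => simp
    | succ n ih =>
      rw [← add_assoc, gs, ← sub_sub]
      exact Ideal.sub_mem _ ih (Ideal.mul_mem_left _ _
        (Ideal.pow_le_pow_right (by omega) (h1 (k + n))))
  obtain ⟨L, hL⟩ := Ev2_prec (mX σ K) g fun k n e => by
    obtain ⟨n, rfl⟩ := Nat.exists_eq_add_of_le e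
    exact Ideal.pow_le_pow_right (Nat.le_add_right k 2) (h2 k n)
  refine ⟨L, ?_, ?_⟩
  · have h3 := Ideal.add_mem _ (h2 0 2) (hL 2)
    rw [g0, zero_add, zero_sub, ← sub_eq_neg_add, sub_sub_cancel_left] at h3
    exact neg_mem_iff.1 h3
  · rw [← sub_eq_zero]
    refine Ev2_haus (mX σ K) fun n => ?_
    have h3 := Ideal.sub_mem _ (Ideal.sub_mem _ (Ideal.mul_mem_left _ 2 (hL n)) (ZL_map hc (hL n)))
      (Ideal.pow_le_pow_right (Nat.le_add_right n 2) (h1 n))
    rw [map_sub] at h3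
    convert h3 using 1
    ring

theorem ZL_inv {K : Type u} [CommRing K] {τ : Type} [Finite τ] {L : τ → MvPowerSeries τ K}
    (hL : ∀ i, L i - X i ∈ mX τ K ^ 2) : ∃ E : τ → MvPowerSeries τ K,
      (∀ i, E i - X i ∈ mX τ K ^ 2) ∧ cmp E L = X := by
  have hc : ∀ i, constantCoeff (L i) = 0 := fun i => by
    have h2 := mem_mX.1 (Ideal.pow_le_self two_ne_zero (hL i))
    rwa [map_sub, constantCoeff_X, sub_zero] at h2
  have hs := ev_surj hc fun j => by
    have := Ideal.sub_mem (Ideal.span (Set.range L) ⊔ mX τ K ^ 2)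
      (Ideal.mem_sup_left (Ideal.subset_span ⟨j, rfl⟩)) (Ideal.mem_sup_right (hL j))
    rwa [sub_sub_cancel] at this
  choose E hE using fun i => hs (X i)
  refine ⟨E, fun i => ?_, funext hE⟩
  have h1 : E i ∈ mX τ K := by
    rw [mem_mX, ← FG3_cc hc, hE, constantCoeff_X]
  have h2 := ZL_one hc (a := 1) (fun j => by rw [one_mul]; exact hL j) h1
  rw [hE, one_mul] at h2
  rw [← neg_sub]
  exact neg_mem h2

theorem FGL.exists_log {K : Type u} [Field K] [CharZero K] {τ : Type} [Finite τ] (G : FGL K τ) :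
    ∃ Lg Ex : τ → MvPowerSeries τ K, (∀ i, Lg i - X i ∈ mX τ K ^ 2) ∧
      (∀ i, constantCoeff (Ex i) = 0) ∧ cmp Ex Lg = X ∧ cmp Lg Ex = X ∧
      ∀ i, ev C G.F (Lg i) = ev C (X ∘ Sum.inl) (Lg i) + ev C (X ∘ Sum.inr) (Lg i) := by
  have hm : ∀ i, G.mul 2 i - 2 * X i ∈ mX τ K ^ 2 := fun i => by
    simpa using G.mul_sub_mem 2 i
  have hc := G.mul0 2
  have cc : ∀ {L : τ → MvPowerSeries τ K}, (∀ i, L i - X i ∈ mX τ K ^ 2) →
      ∀ i, constantCoeff (L i) = 0 := fun hL i => by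
    have h2 := mem_mX.1 (Ideal.pow_le_self two_ne_zero (hL i))
    rwa [map_sub, constantCoeff_X, sub_zero] at h2
  choose g hg1 hg2 using fun i => ZL_surj hm (Submodule.neg_mem _ (hm i))
  obtain ⟨Lg, hL1, hL2⟩ : ∃ Lg : τ → MvPowerSeries τ K, (∀ i, Lg i - X i ∈ mX τ K ^ 2) ∧
      ∀ i, ev C (G.mul 2) (Lg i) = 2 * Lg i := by
    refine ⟨fun i => X i + g i, fun i => by simpa using hg1 i, fun i => ?_⟩
    beta_reduce
    rw [_root_.map_add, (TN.of_cc hc).ev_X]
    linear_combination hg2 i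
  obtain ⟨Ex, hE1, hE2⟩ := ZL_inv hL1
  obtain ⟨L', hL'1, hL'2⟩ := ZL_inv hE1
  have hLc := cc hL1
  have hEc := cc hE1
  have e : L' = Lg := by
    have h1 := cmp_assoc (h := L') hEc hLc
    rw [hL'2, hE2] at h1
    funext i
    have h2 := congrFun h1 i
    rw [cmp, cmp, FG3_ev_X, (TN.of_cc hLc).ev_X] at h2
    exact h2.symm
  refine ⟨Lg, Ex, hL1, hEc, hE2, e ▸ hL'2, fun i => ?_⟩
  have tl : TN (X ∘ Sum.inl : τ → MvPowerSeries (τ ⊕ τ) K) := TN.of_cc (FG3_X _)
  have tr : TN (X ∘ Sum.inr : τ → MvPowerSeries (τ ⊕ τ) K) := TN.of_cc (FG3_X _)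
  have tF : TN G.F := TN.of_cc G.F0
  obtain ⟨M, hM⟩ : ∃ M : τ ⊕ τ → MvPowerSeries (τ ⊕ τ) K,
      M = Sum.elim (fun j => ev C (X ∘ Sum.inl) (G.mul 2 j))
        fun j => ev C (X ∘ Sum.inr) (G.mul 2 j) := ⟨_, rfl⟩
  have hM1 : ∀ j, M j - 2 * X j ∈ mX (τ ⊕ τ) K ^ 2 := by
    rintro (j | j)
    · have := ZL_map (FG3_X (Sum.inl : τ → τ ⊕ τ)) (hm j)
      rwa [map_sub, _root_.map_mul, map_ofNat, tl.ev_X, ← Sum.elim_inl
        (fun j => ev C (X ∘ Sum.inl) (G.mul 2 j)) (fun j => ev C (X ∘ Sum.inr) (G.mul 2 j)) j,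
        ← hM] at this
    · have := ZL_map (FG3_X (Sum.inr : τ → τ ⊕ τ)) (hm j)
      rwa [map_sub, _root_.map_mul, map_ofNat, tr.ev_X, ← Sum.elim_inr
        (fun j => ev C (X ∘ Sum.inl) (G.mul 2 j)) (fun j => ev C (X ∘ Sum.inr) (G.mul 2 j)) j,
        ← hM] at this
  have tM : TN M := TN.of_cc (ZL_cc hM1)
  have hF : ∀ j, G.F j - X (Sum.inl j) - X (Sum.inr j) ∈ mX (τ ⊕ τ) K ^ 2 := fun j => by
    have h1 := FGL.add_sub_mem (G := G) (φ := (C : K →+* MvPowerSeries (τ ⊕ τ) K))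
      (x := X ∘ Sum.inl) (y := X ∘ Sum.inr) (TN.of_cc (Sum.rec (FG3_X _) (FG3_X _))) j
    rw [FGL.add, Sum.elim_comp_inl_inr, FG3_ev_X] at h1
    have h2 : ∀ e : τ → τ ⊕ τ, Ideal.span (Set.range (X ∘ e : τ → MvPowerSeries (τ ⊕ τ) K)) ≤
        mX (τ ⊕ τ) K := fun e => Ideal.span_mono (Set.range_comp_subset_range _ _)
    rw [pow_two]
    exact Ideal.mul_mono (h2 _) (h2 _) h1
  rw [← sub_eq_zero]
  refine ZL_inj hM1 ?_ ?_
  · have h1 := Ideal.add_mem _ (Ideal.sub_mem _ (Ideal.sub_mem _ (ZL_map G.F0 (hL1 i))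
      (ZL_map (FG3_X (Sum.inl : τ → τ ⊕ τ)) (hL1 i)))
      (ZL_map (FG3_X (Sum.inr : τ → τ ⊕ τ)) (hL1 i))) (hF i)
    rw [map_sub, map_sub, map_sub, tF.ev_X, tl.ev_X, tr.ev_X] at h1
    convert h1 using 1
    simp only [Function.comp]
    ring
  · have a : ∀ {x : τ → MvPowerSeries (τ ⊕ τ) K}, TN x →
        ev C (fun j => ev C x (G.mul 2 j)) (Lg i) = 2 * ev C x (Lg i) := fun hx => by
      rw [← FG3_ev_ev hc C hx, hL2, _root_.map_mul, map_ofNat]
    have b : (fun j => ev C M (G.F j)) = fun j => ev C G.F (G.mul 2 j) := funext fun j => by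
      rw [(IsHom.mul G 2).hom, hM]
      rfl
    rw [map_sub, _root_.map_add, FG3_ev_ev G.F0 C tM, FG3_ren tM, FG3_ren tM, b, a tF, hM,
      Sum.elim_comp_inl, Sum.elim_comp_inr, a tl, a tr]
    ring

end MLF
end

-- merged part: Pool.Agent.Work.MP_29d410_ag.ZD1
section
/-!
# Derivations in characteristic zero

Plan.  A derivation along `j` is the same as a ring homomorphism to the dual numbers `DN` lifting `j`.
`extend`: the homomorphism `dn` extends to the fraction field (`x` is a unit iff `x.fst` is), then use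
a transcendence basis and `Algebra.FormallySmooth.of_algebraicIndependent_of_isSeparable`.
`eq_on_acl`: the set where two derivations agree is a subfield; if `P (z) = 0` with `P` the minimal
polynomial over it, then `j (P' (z)) * (δ₁ z - δ₂ z) = 0`.  `mem_acl`: same computation.
`amalg`: `LD.hom` with target `DN Ω`, then `extend`.
`sld`: take a minimal relation with constant coefficients between elements of the range of `i` which are
independent over the small constants, normalised so that one of the elements is `1` (or use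
`LD.symm`: a minimal relation `∑ i (a l) * c l = 0` with `c l` constants independent over the small constants,
`a 0 = 1`; differentiate).  `inv_span`: a reduced echelon basis of `J` consists of constant vectors.
-/

namespace MLF

universe u

variable {R R' S S' : Type u} [CommRing R] [CommRing R'] [CommRing S] [CommRing S']

/-- `δ` is a derivation along `j`. -/
structure IsDer (j : R →+* S) (δ : R → S) : Prop where
  add : ∀ a b, δ (a + b) = δ a + δ b
  mul : ∀ a b, δ (a * b) = j a * δ b + δ a * j b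

/-- A derivation of a ring. -/
abbrev Der (δ : R → R) : Prop := IsDer (RingHom.id R) δ

/-- Dual numbers. -/
abbrev DN (R : Type u) [CommRing R] : Type u := TrivSqZeroExt R R

/-- The inclusion in the dual numbers. -/
def inD (R : Type u) [CommRing R] : R →+* DN R := TrivSqZeroExt.inlHom R R

instance DN.local [IsLocalRing R] : IsLocalRing (DN R) :=
  haveI : Nontrivial (DN R) := (TrivSqZeroExt.inl_injective (R := R) (M := R)).nontrivial
  IsLocalRing.of_isUnit_or_isUnit_one_sub_self fun a => by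
    simpa [TrivSqZeroExt.isUnit_iff_isUnit_fst] using
      IsLocalRing.isUnit_or_isUnit_one_sub_self a.fst

theorem ZD1_smooth (K F : Type u) [Field K] [Field F] [CharZero F] [Algebra K F] :
    Algebra.FormallySmooth K F := by
  obtain ⟨s, hs⟩ := exists_isTranscendenceBasis K F
  have := hs.isAlgebraic_field
  have : CharZero (IntermediateField.adjoin K (Set.range ((↑) : s → F))) :=
    (algebraMap _ F).charZero
  exact .of_algebraicIndependent_of_isSeparable hs.1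

theorem ZD1_lift {F : Type u} [Field F] [CharZero F] {j : R →+* F} (hj : Function.Injective j)
    (θ : R →+* S) (π : S →+* F) (hπ : Function.Surjective π) (hn : IsNilpotent (RingHom.ker π))
    (e : ∀ r, π (θ r) = j r) : ∃ σ : F →+* S, (∀ z, π (σ z) = z) ∧ ∀ r, σ (j r) = θ r := by
  have := hj.isDomain j
  let _ := j.toAlgebra
  let _ := θ.toAlgebra
  have : FaithfulSMul R F := (faithfulSMul_iff_algebraMap_injective R F).2 hj
  let _ := FractionRing.liftAlgebra R F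
  have := FractionRing.isScalarTower_liftAlgebra R F
  have := ZD1_smooth (FractionRing R) F
  have : Algebra.FormallySmooth R (FractionRing R) := .of_isLocalization (nonZeroDivisors R)
  have : Algebra.FormallySmooth R F := .comp R (FractionRing R) F
  let g : S →ₐ[R] F := ⟨π, e⟩
  let σ := Algebra.FormallySmooth.liftOfSurjective (AlgHom.id R F) g hπ hn
  exact ⟨σ, Algebra.FormallySmooth.liftOfSurjective_apply (AlgHom.id R F) g hπ hn, σ.commutes⟩

/-- The projection from the dual numbers. -/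
def ZD1_fst (R : Type u) [CommRing R] : DN R →+* R := TrivSqZeroExt.fstHom R R R

theorem ZD1_nil (R : Type u) [CommRing R] : IsNilpotent (RingHom.ker (ZD1_fst R)) :=
  ⟨2, TrivSqZeroExt.kerIdeal_sq R R⟩

theorem ZD1_zero {j : R →+* S} {δ : R → S} (h : IsDer j δ) : δ 0 = 0 := by
  simpa using h.add 0 0

theorem ZD1_one {j : R →+* S} {δ : R → S} (h : IsDer j δ) : δ 1 = 0 := by
  simpa using h.mul 1 1

namespace IsDer

variable {j : R →+* S} {δ δ' : R → S}

theorem exists_dn (h : IsDer j δ) : ∃ θ : R →+* DN S, ∀ z, (θ z).fst = j z ∧ (θ z).snd = δ z :=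
  ⟨{ toFun := fun z => TrivSqZeroExt.inl (j z) + TrivSqZeroExt.inr (δ z)
     map_one' := by ext <;> simp [ZD1_one h]
     map_mul' := fun a b => by ext <;> simp [h.mul]
     map_zero' := by ext <;> simp [ZD1_zero h]
     map_add' := fun a b => by ext <;> simp [h.add] }, fun z => by simp⟩

/-- The homomorphism to the dual numbers. -/
noncomputable def dn (h : IsDer j δ) : R →+* DN S := h.exists_dn.choose

theorem fst_dn (h : IsDer j δ) (z : R) : (h.dn z).fst = j z := (h.exists_dn.choose_spec z).1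
theorem snd_dn (h : IsDer j δ) (z : R) : (h.dn z).snd = δ z := (h.exists_dn.choose_spec z).2
theorem of_hom (θ : R →+* DN S) (h : ∀ z, (θ z).fst = j z) : IsDer j fun z => (θ z).snd :=
  ⟨fun a b => by simp, fun a b => by simp [h]⟩
theorem zero (j : R →+* S) : IsDer j fun _ => 0 := ⟨fun _ _ => by simp, fun _ _ => by simp⟩
theorem add' (h : IsDer j δ) (h' : IsDer j δ') : IsDer j fun z => δ z + δ' z :=
  ⟨fun a b => by rw [h.add, h'.add]; ring, fun a b => by rw [h.mul, h'.mul]; ring⟩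
theorem sub' (h : IsDer j δ) (h' : IsDer j δ') : IsDer j fun z => δ z - δ' z :=
  ⟨fun a b => by rw [h.add, h'.add]; ring, fun a b => by rw [h.mul, h'.mul]; ring⟩
theorem sum' {ι : Type} [Fintype ι] {δ : ι → R → S} (h : ∀ i, IsDer j (δ i)) (a : ι → S) :
    IsDer j fun z => ∑ i, a i * δ i z :=
  ⟨fun x y => by
    rw [← Finset.sum_add_distrib]
    exact Finset.sum_congr rfl fun i _ => by rw [(h i).add, mul_add], fun x y => by
    rw [Finset.mul_sum, Finset.sum_mul, ← Finset.sum_add_distrib]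
    exact Finset.sum_congr rfl fun i _ => by rw [(h i).mul]; ring⟩
theorem comp (h : IsDer j δ) (ψ : S →+* S') : IsDer (ψ.comp j) fun z => ψ (δ z) :=
  ⟨fun a b => by simp [h.add], fun a b => by simp [h.mul]⟩
theorem precomp (h : IsDer j δ) (i : R' →+* R) : IsDer (j.comp i) fun z => δ (i z) :=
  ⟨fun a b => by simp [h.add], fun a b => by simp [h.mul]⟩
theorem map_zero (h : IsDer j δ) : δ 0 = 0 := ZD1_zero h
theorem map_one (h : IsDer j δ) : δ 1 = 0 := ZD1_one h
theorem map_neg (h : IsDer j δ) (a : R) : δ (-a) = -δ a :=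
  _root_.map_neg (AddMonoidHom.mk' δ h.add) a
theorem map_sub (h : IsDer j δ) (a b : R) : δ (a - b) = δ a - δ b :=
  _root_.map_sub (AddMonoidHom.mk' δ h.add) a b
theorem map_sum (h : IsDer j δ) {ι : Type*} (t : Finset ι) (f : ι → R) :
    δ (∑ i ∈ t, f i) = ∑ i ∈ t, δ (f i) :=
  _root_.map_sum (AddMonoidHom.mk' δ h.add) f t
theorem map_natCast (h : IsDer j δ) (n : ℕ) : δ n = 0 := by
  induction n with
  | zero => rw [Nat.cast_zero, h.map_zero]
  | succ n ih => rw [Nat.cast_succ, h.add, ih, h.map_one, add_zero]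
theorem map_pow (h : IsDer j δ) (a : R) (n : ℕ) : δ (a ^ (n + 1)) = (n + 1) * j a ^ n * δ a := by
  induction n with
  | zero => simp
  | succ n ih =>
    rw [pow_succ, h.mul, ih, _root_.map_pow, Nat.cast_succ]
    ring

theorem extend {F : Type u} [Field F] [CharZero F] {j : R →+* F} (hj : Function.Injective j)
    {δ : R → F} (h : IsDer j δ) : ∃ δ' : F → F, Der δ' ∧ ∀ z, δ' (j z) = δ z := by
  obtain ⟨σ, h1, h2⟩ := ZD1_lift hj h.dn (ZD1_fst F) (fun z => ⟨TrivSqZeroExt.inl z, rfl⟩)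
    (ZD1_nil F) h.fst_dn
  exact ⟨_, of_hom σ h1, fun z => by rw [h2, snd_dn]⟩

/-- The constants. -/
def ZD1_cst {F : Type u} [Field F] [IsDomain S] {j : F →+* S} {δ : F → S} (h : IsDer j δ) :
    Subfield F where
  carrier := {z | δ z = 0}
  zero_mem' := h.map_zero
  one_mem' := h.map_one
  add_mem' := fun {a b} (ha : δ a = 0) (hb : δ b = 0) => show δ _ = 0 by
    rw [h.add, ha, hb, add_zero]
  mul_mem' := fun {a b} (ha : δ a = 0) (hb : δ b = 0) => show δ _ = 0 by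
    rw [h.mul, ha, hb, mul_zero, zero_mul, add_zero]
  neg_mem' := fun {a} (ha : δ a = 0) => show δ _ = 0 by rw [h.map_neg, ha, neg_zero]
  inv_mem' := fun a (ha : δ a = 0) => show δ _ = 0 by
    rcases eq_or_ne a 0 with rfl | h0
    · rw [inv_zero, ha]
    · have := h.mul a a⁻¹
      rw [mul_inv_cancel₀ h0, h.map_one, ha, zero_mul, add_zero] at this
      exact (mul_eq_zero.1 this.symm).resolve_left ((_root_.map_ne_zero j).2 h0)

theorem ZD1_aeval {F : Type u} [Field F] {j : F →+* S} {δ : F → S} (h : IsDer j δ)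
    {E : Subfield F} (hE : ∀ z ∈ E, δ z = 0) (z : F) (P : Polynomial E) :
    δ (Polynomial.aeval z P) = j (Polynomial.aeval z P.derivative) * δ z := by
  induction P using Polynomial.induction_on with
  | C a => simpa [Subfield.algebraMap_ofSubfield] using hE a a.2
  | add P Q hP hQ => simp only [map_add, h.add, hP, hQ, add_mul]
  | monomial n a _ =>
    have : δ (algebraMap E F a) = 0 := hE a a.2
    simp only [Polynomial.derivative_C_mul, Polynomial.derivative_X_pow_succ, map_mul,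
      Polynomial.aeval_C, _root_.map_pow, Polynomial.aeval_X, h.mul, h.map_pow, this, map_add,
      _root_.map_natCast, _root_.map_one]
    ring

theorem ZD1_acl {F : Type u} [Field F] [CharZero F] [IsDomain S] {j : F →+* S} {δ : F → S}
    (h : IsDer j δ) {E : Subfield F} (hE : ∀ z ∈ E, δ z = 0) {z : F} (hz : z ∈ acl E) :
    δ z = 0 := by
  have hi := (mem_acl.1 hz).isIntegral
  have := ZD1_aeval h hE z (minpoly E z)
  rw [minpoly.aeval, h.map_zero] at this
  exact (mul_eq_zero.1 this.symm).resolve_left ((_root_.map_ne_zero j).2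
    ((minpoly.irreducible hi).separable.aeval_derivative_ne_zero (minpoly.aeval E z)))

theorem eq_on_acl {F : Type u} [Field F] [CharZero F] [IsDomain S] {j : F →+* S} {δ δ' : F → S}
    (h : IsDer j δ) (h' : IsDer j δ') {E : Subfield F} {s : Set F} (hE : ∀ z ∈ E, δ z = δ' z)
    (hs : ∀ z ∈ s, δ z = δ' z) : ∀ z ∈ acl (adj E s), δ z = δ' z := fun _ hz =>
  sub_eq_zero.1 (ZD1_acl (h.sub' h') (fun _ hw => (adj_le (F := ZD1_cst (h.sub' h'))).2
    ⟨fun w hw => sub_eq_zero.2 (hE w hw), fun w hw => sub_eq_zero.2 (hs w hw)⟩ hw) hz)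

theorem amalg {k T₁ T₂ Ω : Type u} [Field k] [Field T₁] [Field T₂] [Field Ω] [CharZero Ω]
    {i₁ : k →+* T₁} {i₂ : k →+* T₂} {ψ₁ : T₁ →+* Ω} {ψ₂ : T₂ →+* Ω} (e : ψ₁.comp i₁ = ψ₂.comp i₂)
    (hLD : LD (ψ₁.comp i₁).fieldRange ψ₁.fieldRange ψ₂.fieldRange) {δ₁ : T₁ → Ω} {δ₂ : T₂ → Ω}
    (h₁ : IsDer ψ₁ δ₁) (h₂ : IsDer ψ₂ δ₂) (h : ∀ c, δ₁ (i₁ c) = δ₂ (i₂ c)) :
    ∃ δ : Ω → Ω, Der δ ∧ (∀ z, δ (ψ₁ z) = δ₁ z) ∧ ∀ z, δ (ψ₂ z) = δ₂ z := by
  have l₁ : (ψ₁.comp i₁).fieldRange ≤ ψ₁.fieldRange := by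
    rintro _ ⟨c, rfl⟩
    exact ⟨i₁ c, rfl⟩
  have l₂ : (ψ₁.comp i₁).fieldRange ≤ ψ₂.fieldRange := by
    rintro _ ⟨c, rfl⟩
    exact ⟨i₂ c, (RingHom.congr_fun e c).symm⟩
  let θ₁ : ψ₁.fieldRange.toSubring →+* DN Ω :=
    h₁.dn.comp (ψ₁.rangeRestrictFieldEquiv.symm : ψ₁.fieldRange →+* T₁)
  let θ₂ : ψ₂.fieldRange.toSubring →+* DN Ω :=
    h₂.dn.comp (ψ₂.rangeRestrictFieldEquiv.symm : ψ₂.fieldRange →+* T₂)
  have e₁ : ∀ z hz, θ₁ ⟨ψ₁ z, hz⟩ = h₁.dn z := fun z _ =>
    congrArg h₁.dn (ψ₁.rangeRestrictFieldEquiv.symm_apply_apply z)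
  have e₂ : ∀ z hz, θ₂ ⟨ψ₂ z, hz⟩ = h₂.dn z := fun z _ =>
    congrArg h₂.dn (ψ₂.rangeRestrictFieldEquiv.symm_apply_apply z)
  obtain ⟨θ, t₁, t₂⟩ := hLD.hom l₁ l₂ le_rfl le_rfl l₁ l₂ θ₁ θ₂ (by
    rintro _ ⟨c, rfl⟩
    have e' : ψ₁ (i₁ c) = ψ₂ (i₂ c) := RingHom.congr_fun e c
    refine (e₁ (i₁ c) _).trans (Eq.trans ?_ ((e₂ (i₂ c) ⟨_, rfl⟩).symm.trans
      (congrArg θ₂ (Subtype.ext e'.symm))))
    ext
    · rw [fst_dn, fst_dn, e']
    · rw [snd_dn, snd_dn, h])
  have s₁ : ∀ z hz, θ ⟨ψ₁ z, hz⟩ = h₁.dn z := fun z _ => (t₁ ⟨_, z, rfl⟩).trans (e₁ z _)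
  have s₂ : ∀ z hz, θ ⟨ψ₂ z, hz⟩ = h₂.dn z := fun z _ => (t₂ ⟨_, z, rfl⟩).trans (e₂ z _)
  have hθ : ∀ z, (θ z).fst = Subring.subtype _ z := fun z => by
    have : ψ₁.fieldRange.toSubring ⊔ ψ₂.fieldRange.toSubring ≤
        (RingHom.eqLocus ((ZD1_fst Ω).comp θ) (Subring.subtype _)).map (Subring.subtype _) := by
      refine sup_le ?_ ?_
      · rintro _ ⟨w, rfl⟩
        exact ⟨⟨ψ₁ w, le_sup_left (a := ψ₁.fieldRange.toSubring) ⟨w, rfl⟩⟩,
          (congrArg TrivSqZeroExt.fst (s₁ w _)).trans (h₁.fst_dn w), rfl⟩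
      · rintro _ ⟨w, rfl⟩
        exact ⟨⟨ψ₂ w, le_sup_right (b := ψ₂.fieldRange.toSubring) ⟨w, rfl⟩⟩,
          (congrArg TrivSqZeroExt.fst (s₂ w _)).trans (h₂.fst_dn w), rfl⟩
    obtain ⟨w, hw, e'⟩ := this z.2
    obtain rfl : w = z := Subtype.ext e'
    exact hw
  obtain ⟨δ, hδ, e'⟩ := (of_hom θ hθ).extend Subtype.val_injective
  refine ⟨δ, hδ, fun z => ?_, fun z => ?_⟩
  · exact (e' ⟨ψ₁ z, le_sup_left (a := ψ₁.fieldRange.toSubring) ⟨z, rfl⟩⟩).trans
      ((congrArg TrivSqZeroExt.snd (s₁ z _)).trans (h₁.snd_dn z))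
  · exact (e' ⟨ψ₂ z, le_sup_right (b := ψ₂.fieldRange.toSubring) ⟨z, rfl⟩⟩).trans
      ((congrArg TrivSqZeroExt.snd (s₂ z _)).trans (h₂.snd_dn z))

end IsDer

end MLF
end

-- merged part: Pool.Agent.Work.MP_29d410_ag.ZD1b
section
/-!
# Derivations in characteristic zero

Plan.  A derivation along `j` is the same as a ring homomorphism to the dual numbers `DN` lifting `j`.
`extend`: the homomorphism `dn` extends to the fraction field (`x` is a unit iff `x.fst` is), then use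
a transcendence basis and `Algebra.FormallySmooth.of_algebraicIndependent_of_isSeparable`.
`eq_on_acl`: the set where two derivations agree is a subfield; if `P (z) = 0` with `P` the minimal
polynomial over it, then `j (P' (z)) * (δ₁ z - δ₂ z) = 0`.  `mem_acl`: same computation.
`amalg`: `LD.hom` with target `DN Ω`, then `extend`.
`sld`: take a minimal relation with constant coefficients between elements of the range of `i` which are
independent over the small constants, normalised so that one of the elements is `1` (or use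
`LD.symm`: a minimal relation `∑ i (a l) * c l = 0` with `c l` constants independent over the small constants,
`a 0 = 1`; differentiate).  `inv_span`: a reduced echelon basis of `J` consists of constant vectors.
-/

namespace MLF

universe u

namespace Der

variable {F L : Type u} [Field F] [CharZero F] [Field L] [CharZero L] {δ : F → F} {δ' : L → L}

/-- The elements of a subfield whose derivative is in the subfield. -/
def ZD1b_stab (h : Der δ) (K : Subfield F) : Subfield F where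
  carrier := {z | z ∈ K ∧ δ z ∈ K}
  zero_mem' := ⟨K.zero_mem, by rw [h.map_zero]; exact K.zero_mem⟩
  one_mem' := ⟨K.one_mem, by rw [h.map_one]; exact K.zero_mem⟩
  add_mem' := fun {a b} ha hb => ⟨K.add_mem ha.1 hb.1, by rw [h.add]; exact K.add_mem ha.2 hb.2⟩
  mul_mem' := fun {a b} ha hb => ⟨K.mul_mem ha.1 hb.1, by
    rw [h.mul]
    exact K.add_mem (K.mul_mem ha.1 hb.2) (K.mul_mem ha.2 hb.1)⟩
  neg_mem' := fun {a} ha => ⟨K.neg_mem ha.1, by rw [h.map_neg]; exact K.neg_mem ha.2⟩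
  inv_mem' := fun a ha => ⟨K.inv_mem ha.1, by
    rcases eq_or_ne a 0 with rfl | h0
    · rw [inv_zero]
      exact ha.2
    · have h1 := h.mul a a⁻¹
      rw [mul_inv_cancel₀ h0, h.map_one] at h1
      have h2 : δ a⁻¹ = -(a⁻¹ * (δ a * a⁻¹)) := by
        simp only [RingHom.id_apply] at h1
        have h3 : a * δ a⁻¹ = -(δ a * a⁻¹) := eq_neg_of_add_eq_zero_left h1.symm
        rw [← mul_neg, ← h3, ← mul_assoc, inv_mul_cancel₀ h0, one_mul]
      rw [h2]
      exact K.neg_mem (K.mul_mem (K.inv_mem ha.1) (K.mul_mem ha.2 (K.inv_mem ha.1)))⟩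

omit [CharZero F] in
theorem ZD1b_aeval_mem {M K : Subfield F} (hM : M ≤ K) {z : F} (hz : z ∈ K) (P : Polynomial M) :
    Polynomial.aeval z P ∈ K := by
  induction P using Polynomial.induction_on with
  | C a => simpa [Subfield.algebraMap_ofSubfield] using hM a.2
  | add P Q hP hQ =>
    rw [map_add]
    exact K.add_mem hP hQ
  | monomial n a _ =>
    have : algebraMap M F a ∈ K := hM a.2
    simp only [map_mul, Polynomial.aeval_C, _root_.map_pow, Polynomial.aeval_X]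
    exact K.mul_mem this (K.pow_mem hz _)

omit [CharZero F] in
theorem ZD1b_aeval (h : Der δ) {M K : Subfield F} (hM : ∀ z ∈ M, δ z ∈ K) {z : F} (hz : z ∈ K)
    (P : Polynomial M) :
    δ (Polynomial.aeval z P) - Polynomial.aeval z P.derivative * δ z ∈ K := by
  induction P using Polynomial.induction_on with
  | C a => simpa [Subfield.algebraMap_ofSubfield] using hM a a.2
  | add P Q hP hQ =>
    have := K.add_mem hP hQ
    simp only [map_add, h.add]
    convert this using 1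
    ring
  | monomial n a _ =>
    have h1 : δ (algebraMap M F a) ∈ K := hM a a.2
    have h2 := K.mul_mem h1 (K.pow_mem hz (n + 1))
    simp only [Polynomial.derivative_C_mul, Polynomial.derivative_X_pow_succ, map_mul,
      Polynomial.aeval_C, _root_.map_pow, Polynomial.aeval_X, h.mul, h.map_pow, map_add,
      _root_.map_natCast, _root_.map_one, RingHom.id_apply]
    convert h2 using 1
    ring

theorem mem_acl (h : Der δ) {E : Subfield F} {s : Set F} (hE : ∀ z ∈ E, δ z ∈ acl (adj E s))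
    (hs : ∀ z ∈ s, δ z ∈ acl (adj E s)) : ∀ z ∈ acl (adj E s), δ z ∈ acl (adj E s) := by
  intro z hz
  have hM : adj E s ≤ h.ZD1b_stab (acl (adj E s)) :=
    adj_le.2 ⟨fun w hw => ⟨le_acl _ (le_adj E s hw), hE w hw⟩,
      fun w hw => ⟨le_acl _ (subset_adj E s hw), hs w hw⟩⟩
  have hi := (MLF.mem_acl.1 hz).isIntegral
  have h1 := h.ZD1b_aeval (fun w hw => (hM hw).2) hz (minpoly (adj E s) z)
  rw [minpoly.aeval, h.map_zero, zero_sub] at h1
  have h2 := (minpoly.irreducible hi).separable.aeval_derivative_ne_zero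
    (minpoly.aeval (adj E s) z)
  have h3 := ZD1b_aeval_mem (le_acl (adj E s)) hz (minpoly (adj E s) z).derivative
  have h4 := (acl (adj E s)).mul_mem ((acl (adj E s)).inv_mem h3) ((acl (adj E s)).neg_mem h1)
  rwa [neg_neg, ← mul_assoc, inv_mul_cancel₀ h2, one_mul] at h4

theorem exists_cst (h : Der δ) : ∃ E : Subfield F, ∀ z, z ∈ E ↔ δ z = 0 :=
  ⟨h.ZD1_cst, fun _ => Iff.rfl⟩

/-- The constants. -/
noncomputable def cst (h : Der δ) : Subfield F := h.exists_cst.choose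

theorem mem_cst (h : Der δ) {z : F} : z ∈ h.cst ↔ δ z = 0 := h.exists_cst.choose_spec z

instance cst_algClosed [IsAlgClosed F] (h : Der δ) : IsAlgClosed h.cst := by
  have e : acl h.cst = h.cst :=
    le_antisymm (fun z hz => h.mem_cst.2 (h.ZD1_acl (fun w hw => h.mem_cst.1 hw) hz)) (le_acl _)
  rw [← e]
  exact acl_algClosed _

omit [CharZero F] in
/-- A nonzero vector of an invariant subspace dominates a nonzero constant vector. -/
theorem ZD1b_min (h : Der δ) {ι : Type} [Finite ι] (J : Submodule F (ι → F))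
    (hJ : ∀ v ∈ J, δ ∘ v ∈ J) (n : ℕ) : ∀ v ∈ J, (Function.support v).ncard = n → v ≠ 0 →
      ∃ w ∈ J, w ≠ 0 ∧ Function.support w ⊆ Function.support v ∧ ∀ l, δ (w l) = 0 := by
  induction n using Nat.strong_induction_on with
  | _ n ih =>
    intro v hv hn h0
    obtain ⟨l₀, hl₀⟩ := Function.ne_iff.1 h0
    have hl : v l₀ ≠ 0 := hl₀
    have hu : (v l₀)⁻¹ • v ∈ J := J.smul_mem _ hv
    have hu1 : ((v l₀)⁻¹ • v) l₀ = 1 := by simp [hl]
    have hsub : Function.support ((v l₀)⁻¹ • v) ⊆ Function.support v := fun l hl' hv' =>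
      hl' (by simp [hv'])
    by_cases hd : δ ∘ ((v l₀)⁻¹ • v) = 0
    · refine ⟨_, hu, fun e => ?_, hsub, fun l => congrFun hd l⟩
      rw [e] at hu1
      exact zero_ne_one hu1
    · have hsub' : Function.support (δ ∘ ((v l₀)⁻¹ • v)) ⊆ Function.support v := fun l hl' hv' =>
        hl' (by simp [hv', h.map_zero])
      have hlt : (Function.support (δ ∘ ((v l₀)⁻¹ • v))).ncard < n := by
        rw [← hn]
        refine Set.ncard_lt_ncard ⟨hsub', fun hh => hh hl ?_⟩ (Set.toFinite _)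
        rw [Function.comp_apply, hu1, h.map_one]
      obtain ⟨w, hw, hw0, hws, hwc⟩ := ih _ hlt _ (hJ _ hu) rfl hd
      exact ⟨w, hw, hw0, hws.trans hsub', hwc⟩

theorem sld (h : Der δ) (h' : Der δ') (i : F →+* L) (e : ∀ z, δ' (i z) = i (δ z)) :
    LD (h.cst.map i) i.fieldRange h'.cst := by
  refine LD.symm ?_ ?_ ?_
  · intro n c hc hind b hb hrel
    choose a ha using hb
    let J : Submodule F (Fin n → F) :=
      { carrier := {v | ∑ l, i (v l) * c l = 0}
        zero_mem' := by simp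
        add_mem' := fun {v w} (hv : ∑ l, i (v l) * c l = 0) (hw : ∑ l, i (w l) * c l = 0) => by
          change ∑ l, i ((v + w) l) * c l = 0
          simp only [Pi.add_apply, map_add, add_mul, Finset.sum_add_distrib, hv, hw, add_zero]
        smul_mem' := fun r v (hv : ∑ l, i (v l) * c l = 0) => by
          change ∑ l, i ((r • v) l) * c l = 0
          simp only [Pi.smul_apply, smul_eq_mul, map_mul, mul_assoc, ← Finset.mul_sum, hv,
            mul_zero] }
    have hJ : ∀ v ∈ J, δ ∘ v ∈ J := fun v (hv : ∑ l, i (v l) * c l = 0) => by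
      change ∑ l, i (δ (v l)) * c l = 0
      have := congrArg δ' hv
      rw [h'.map_sum, h'.map_zero] at this
      rw [← this]
      refine Finset.sum_congr rfl fun l _ => ?_
      rw [h'.mul, h'.mem_cst.1 (hc l), e, mul_zero, zero_add, RingHom.id_apply]
    have haJ : a ∈ J := by
      change ∑ l, i (a l) * c l = 0
      simpa only [ha, RingHom.id_apply] using hrel
    by_cases h0 : a = 0
    · intro l
      rw [← ha, h0, Pi.zero_apply, _root_.map_zero]
    · obtain ⟨w, hw, hw0, -, hwc⟩ := h.ZD1b_min J hJ _ a haJ rfl h0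
      refine absurd (funext fun l => ?_) hw0
      exact (_root_.map_eq_zero i).1
        (hind (fun l => i (w l)) (fun l => ⟨w l, h.mem_cst.2 (hwc l), rfl⟩) hw l)
  · rintro _ ⟨z, hz, rfl⟩
    exact h'.mem_cst.2 (by rw [e, h.mem_cst.1 hz, _root_.map_zero])
  · rintro _ ⟨z, _, rfl⟩
    exact ⟨z, rfl⟩

theorem inv_span (h : Der δ) {ι : Type} [Finite ι] (J : Submodule F (ι → F))
    (hJ : ∀ v ∈ J, δ ∘ v ∈ J) (τ : F →+* F) (hτ : ∀ z, δ z = 0 → τ z = z) :
    ∀ v ∈ J, τ ∘ v ∈ J := by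
  intro v hv
  generalize hn : (Function.support v).ncard = n
  induction n using Nat.strong_induction_on generalizing v with
  | _ n ih =>
    by_cases h0 : v = 0
    · have : τ ∘ v = 0 := funext fun l => by simp [h0]
      rw [this]
      exact J.zero_mem
    · obtain ⟨w, hw, hw0, hws, hwc⟩ := h.ZD1b_min J hJ _ v hv rfl h0
      obtain ⟨l₀, hl₀⟩ := Function.ne_iff.1 hw0
      have hl : w l₀ ≠ 0 := hl₀
      have hu : v - (v l₀ / w l₀) • w ∈ J := J.sub_mem hv (J.smul_mem _ hw)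
      have hsub : Function.support (v - (v l₀ / w l₀) • w) ⊆ Function.support v := by
        intro l hl' hv'
        have hw' : w l = 0 := by
          by_contra hh
          exact hws hh hv'
        exact hl' (by simp [hv', hw'])
      have hlt : (Function.support (v - (v l₀ / w l₀) • w)).ncard < n := by
        rw [← hn]
        refine Set.ncard_lt_ncard ⟨hsub, fun hh => hh (hws hl) ?_⟩ (Set.toFinite _)
        simp [hl]
      have h1 := J.add_mem (ih _ hlt _ hu rfl) (J.smul_mem (τ (v l₀ / w l₀)) hw)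
      convert h1 using 1
      funext l
      simp only [Function.comp_apply, Pi.add_apply, Pi.sub_apply, Pi.smul_apply, smul_eq_mul,
        map_sub, map_mul, hτ _ (hwc l), sub_add_cancel]

end Der

end MLF
end

-- merged part: Pool.Agent.Work.MP_29d410_ag.ZD2
section
/-!
# Derivations and power series

Plan.  `taylor`: `D z = ∑ δ^n z / n! * X ^ n` (Leibniz formula by induction).  `tn_dn`: `DN R` is complete for
the ideal of the elements with first component in `𝔟`.  `ev_der`: the homomorphisms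
`h ↦ dn (ev C w h)` and `h ↦ (ev C w h, ev C w (mpsd δ₀ h))` agree on constants and variables (`hom_ext`).
`ker_inv`: apply `inv_span` to the truncations below degree `N` of the kernel (`ev_der` shows that the
kernel is stable under `mpsd δ₀`), then `TN.ev_mem_pow`.
`exists_big`: extend `d/dX` (`IsDer.extend`); a constant `z` is algebraic over the Laurent series, the
coefficients of its minimal polynomial are constants, and a constant quotient of power series lies in `C`.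
-/

open PowerSeries

namespace MLF

universe u

variable {R S : Type u} [CommRing R] [CommRing S] {F L : Type u} [Field F] [CharZero F] [Field L]
  [CharZero L] {ρ : Type} [Finite ρ]

/-- A map applied to the coefficients. -/
noncomputable def psd (d : R → R) (f : PowerSeries R) : PowerSeries R := mk fun n => d (coeff n f)

/-- A map applied to the coefficients. -/
def mpsd (d : R → R) (f : MvPowerSeries ρ R) : MvPowerSeries ρ R := fun n => d (f n)

theorem Der.psd {d : R → R} (h : Der d) : Der (psd d) := by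
  constructor
  · intro a b
    ext n
    simp only [MLF.psd, coeff_mk, map_add, h.add]
  · intro a b
    ext n
    simp only [MLF.psd, coeff_mk, map_add, RingHom.id_apply, coeff_mul, h.map_sum, h.mul,
      Finset.sum_add_distrib]
omit [Finite ρ] in
theorem Der.mpsd {d : R → R} (h : Der d) : Der (mpsd (ρ := ρ) d) := by
  classical
  have hc : ∀ (f : MvPowerSeries ρ R) n,
      MvPowerSeries.coeff n (MLF.mpsd d f) = d (MvPowerSeries.coeff n f) := fun _ _ => rfl
  constructor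
  · intro a b
    ext n
    simp only [hc, map_add, h.add]
  · intro a b
    ext n
    simp only [hc, map_add, RingHom.id_apply, MvPowerSeries.coeff_mul, h.map_sum, h.mul,
      Finset.sum_add_distrib]
theorem der_deriv (R : Type u) [CommRing R] : Der fun f : PowerSeries R => derivative R f := by
  constructor
  · intro a b
    exact map_add _ a b
  · intro a b
    rw [Derivation.leibniz, RingHom.id_apply, RingHom.id_apply, smul_eq_mul, smul_eq_mul,
      mul_comm b]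
omit [Finite ρ] in
theorem der_pderiv (R : Type u) [CommRing R] (i : ρ) :
    Der fun f : MvPowerSeries ρ R => MvPowerSeries.pderiv R i f := by
  constructor
  · intro a b
    exact map_add _ a b
  · intro a b
    rw [Derivation.leibniz, RingHom.id_apply, RingHom.id_apply, smul_eq_mul, smul_eq_mul,
      mul_comm b]

/-- The Taylor series of an element. -/
noncomputable def ZD2_T (δ : F → F) (z : F) : PowerSeries F :=
  mk fun n => δ^[n] z / (n.factorial : F)

omit [CharZero F] in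
theorem ZD2_add {δ : F → F} (h : Der δ) (a b : F) : ZD2_T δ (a + b) = ZD2_T δ a + ZD2_T δ b := by
  have e : ∀ n : ℕ, δ^[n] (a + b) = δ^[n] a + δ^[n] b := by
    intro n
    induction n with
    | zero => rfl
    | succ n ih => simp only [Function.iterate_succ_apply', ih, h.add]
  ext n
  simp only [ZD2_T, coeff_mk, map_add, e, add_div]

theorem ZD2_deriv (δ : F → F) (z : F) : derivative F (ZD2_T δ z) = ZD2_T δ (δ z) := by
  ext n
  have h1 : (n.factorial : F) ≠ 0 := Nat.cast_ne_zero.2 n.factorial_ne_zero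
  have h2 : (n : F) + 1 ≠ 0 := Nat.cast_add_one_ne_zero n
  rw [coeff_derivative]
  simp only [ZD2_T, coeff_mk, Function.iterate_succ_apply, Nat.factorial_succ, Nat.cast_mul,
    Nat.cast_add, Nat.cast_one]
  field_simp

theorem ZD2_mul {δ : F → F} (h : Der δ) (a b : F) : ZD2_T δ (a * b) = ZD2_T δ a * ZD2_T δ b := by
  ext n
  induction n generalizing a b with
  | zero => simp [ZD2_T]
  | succ n ih =>
    have h2 : (n : F) + 1 ≠ 0 := Nat.cast_add_one_ne_zero n
    refine mul_right_cancel₀ h2 ?_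
    rw [← coeff_derivative, ← coeff_derivative, ZD2_deriv, (der_deriv F).mul, h.mul, ZD2_add h,
      map_add, map_add, ih, ih, ZD2_deriv, ZD2_deriv]
    rfl

omit [CharZero F] in
theorem ZD2_iter_zero {δ : F → F} (h : Der δ) (n : ℕ) : δ^[n] 0 = 0 :=
  Function.iterate_fixed h.map_zero n

theorem Der.exists_taylor {δ : F → F} (h : Der δ) : ∃ D : F →+* PowerSeries F,
    ∀ z n, coeff n (D z) = δ^[n] z / (n.factorial : F) := by
  refine ⟨⟨⟨⟨ZD2_T δ, ?_⟩, ZD2_mul h⟩, ?_, ZD2_add h⟩, fun z n => coeff_mk n fun m => δ^[m] z / (m.factorial : F)⟩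
  · ext n
    cases n with
    | zero => simp [ZD2_T]
    | succ n =>
      simp [ZD2_T, Function.iterate_succ_apply, h.map_one, ZD2_iter_zero h, coeff_one]
  · ext n
    simp [ZD2_T, ZD2_iter_zero h]

/-- The Taylor homomorphism. -/
noncomputable def Der.taylor {δ : F → F} (h : Der δ) : F →+* PowerSeries F := h.exists_taylor.choose

theorem Der.coeff_taylor {δ : F → F} (h : Der δ) (z : F) (n : ℕ) :
    coeff n (h.taylor z) = δ^[n] z / (n.factorial : F) := h.exists_taylor.choose_spec z n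
theorem Der.cc_taylor {δ : F → F} (h : Der δ) (z : F) : constantCoeff (h.taylor z) = z := by
  rw [← coeff_zero_eq_constantCoeff_apply, h.coeff_taylor]
  simp
theorem Der.psd_taylor {δ : F → F} (h : Der δ) (z : F) :
    MLF.psd δ (h.taylor z) = derivative F (h.taylor z) := by
  ext n
  have h1 : (n.factorial : F) ≠ 0 := Nat.cast_ne_zero.2 n.factorial_ne_zero
  have h2 : (n : F) + 1 ≠ 0 := Nat.cast_add_one_ne_zero n
  have h3 := h.mul (n.factorial : F) (δ^[n] z / (n.factorial : F))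
  rw [h.map_natCast, zero_mul, add_zero, RingHom.id_apply, mul_div_cancel₀ _ h1] at h3
  rw [coeff_derivative, MLF.psd, coeff_mk, h.coeff_taylor, h.coeff_taylor,
    Function.iterate_succ_apply', h3, Nat.factorial_succ]
  push_cast
  field_simp
theorem Der.map_taylor {δ : F → F} {δ' : L → L} (h : Der δ) (h' : Der δ') (i : F →+* L)
    (e : ∀ z, δ' (i z) = i (δ z)) : h'.taylor.comp i = (map i).comp h.taylor := by
  have e' : ∀ (n : ℕ) z, δ'^[n] (i z) = i (δ^[n] z) := by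
    intro n z
    induction n with
    | zero => rfl
    | succ n ih => rw [Function.iterate_succ_apply', Function.iterate_succ_apply', ih, e]
  ext z n
  simp only [RingHom.comp_apply, coeff_map, Der.coeff_taylor, e', map_div₀, map_natCast]

end MLF
end

-- merged part: Pool.Agent.Work.MP_29d410_ag.ZD2b
section
/-!
# Derivations and power series

Plan.  `taylor`: `D z = ∑ δ^n z / n! * X ^ n` (Leibniz formula by induction).  `tn_dn`: `DN R` is complete for
the ideal of the elements with first component in `𝔟`.  `ev_der`: the homomorphisms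
`h ↦ dn (ev C w h)` and `h ↦ (ev C w h, ev C w (mpsd δ₀ h))` agree on constants and variables (`hom_ext`).
`ker_inv`: apply `inv_span` to the truncations below degree `N` of the kernel (`ev_der` shows that the
kernel is stable under `mpsd δ₀`), then `TN.ev_mem_pow`.
`exists_big`: extend `d/dX` (`IsDer.extend`); a constant `z` is algebraic over the Laurent series, the
coefficients of its minimal polynomial are constants, and a constant quotient of power series lies in `C`.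
-/

open PowerSeries

namespace MLF

universe u

variable {R S : Type u} [CommRing R] [CommRing S] {F L : Type u} [Field F] [CharZero F] [Field L]
  [CharZero L] {ρ : Type} [Finite ρ]

theorem ZD2b_mem (I : Ideal R) (z : DN R) : z ∈ I.map (inD R) ↔ z.fst ∈ I ∧ z.snd ∈ I := by
  constructor
  · intro hz
    induction hz using Submodule.span_induction with
    | mem y hy =>
      obtain ⟨a, ha, rfl⟩ := hy
      exact ⟨ha, I.zero_mem⟩
    | zero => exact ⟨I.zero_mem, I.zero_mem⟩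
    | add a b _ _ ha hb => exact ⟨I.add_mem ha.1 hb.1, I.add_mem ha.2 hb.2⟩
    | smul a b _ hb =>
      rw [smul_eq_mul, TrivSqZeroExt.fst_mul, TrivSqZeroExt.snd_mul]
      exact ⟨I.mul_mem_left _ hb.1, I.add_mem (I.mul_mem_left _ hb.2) (I.mul_mem_left _ hb.1)⟩
  · rintro ⟨h1, h2⟩
    have e : z = inD R z.fst + TrivSqZeroExt.inr 1 * inD R z.snd := by
      ext <;> simp [inD]
    rw [e]
    exact Ideal.add_mem _ (Ideal.mem_map_of_mem _ h1)
      (Ideal.mul_mem_left _ _ (Ideal.mem_map_of_mem _ h2))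

theorem ZD2b_complete (I : Ideal R) [IsAdicComplete I R] :
    IsAdicComplete (I.map (inD R)) (DN R) := by
  refine Ev2_complete (fun a ha => ?_) fun f hf => ?_
  · simp only [← Ideal.map_pow, ZD2b_mem] at ha
    exact TrivSqZeroExt.ext (Ev2_haus I fun n => (ha n).1) (Ev2_haus I fun n => (ha n).2)
  · simp only [← Ideal.map_pow, ZD2b_mem] at hf ⊢
    obtain ⟨a, ha⟩ := Ev2_prec I (fun n => (f n).fst) fun m n e => (hf m n e).1
    obtain ⟨b, hb⟩ := Ev2_prec I (fun n => (f n).snd) fun m n e => (hf m n e).2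
    exact ⟨⟨a, b⟩, fun n => ⟨ha n, hb n⟩⟩

theorem tn_dn {α : Type} {x : α → DN R} (h : TN fun i => (x i).fst) : TN x := by
  obtain ⟨I, hI, hx⟩ := h
  have := ZD2b_complete I
  refine ⟨I.comap (TrivSqZeroExt.fstHom R R R).toRingHom,
    Ev2_cofinal (𝔠 := I.map (inD R)) (k := 1) (fun z hz => ((ZD2b_mem I z).1 hz).1) ?_, hx⟩
  rw [pow_two, Ideal.mul_le]
  intro a ha b hb
  rw [ZD2b_mem, TrivSqZeroExt.fst_mul, TrivSqZeroExt.snd_mul]
  exact ⟨I.mul_mem_left _ hb, I.add_mem (I.mul_mem_right _ ha) (I.mul_mem_left _ hb)⟩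

omit [Finite ρ] in
theorem ZD2b_coeff (d : S → S) (f : MvPowerSeries ρ S) (n : ρ →₀ ℕ) :
    MvPowerSeries.coeff n (mpsd d f) = d (MvPowerSeries.coeff n f) := rfl

omit [Finite ρ] in
theorem ZD2b_C {δ₀ : S → S} (h₀ : Der δ₀) (c : S) :
    mpsd (ρ := ρ) δ₀ (MvPowerSeries.C c) = MvPowerSeries.C (δ₀ c) := by
  classical
  ext n
  rw [ZD2b_coeff, MvPowerSeries.coeff_C, MvPowerSeries.coeff_C]
  split_ifs
  exacts [rfl, h₀.map_zero]

omit [Finite ρ] in
theorem ZD2b_X {δ₀ : S → S} (h₀ : Der δ₀) (i : ρ) : mpsd δ₀ (MvPowerSeries.X i) = 0 := by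
  classical
  ext n
  rw [ZD2b_coeff, MvPowerSeries.coeff_X, map_zero]
  split_ifs
  exacts [h₀.map_one, h₀.map_zero]

theorem ev_der {δ₀ : S → S} (h₀ : Der δ₀) {δ : R → R} (h : Der δ) (φ : S →+* R)
    (e : ∀ c, δ (φ c) = φ (δ₀ c)) {w : ρ → R} (hw : TN w) (h0 : ∀ i, δ (w i) = 0)
    (f : MvPowerSeries ρ S) : δ (ev φ w f) = ev φ w (mpsd δ₀ f) := by
  have h1 := h.precomp (ev φ w)
  have h2 := (h₀.mpsd (ρ := ρ)).comp (ev φ w)
  have t : TN fun i => h1.dn (MvPowerSeries.X i) := tn_dn (by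
    simpa only [h1.fst_dn, RingHom.comp_apply, RingHom.id_apply, hw.ev_X] using hw)
  have e1 := t.eq_ev (φ := h1.dn.comp MvPowerSeries.C) (θ := h1.dn) ⟨fun _ => rfl, fun _ => rfl⟩
  have e2 := t.eq_ev (φ := h1.dn.comp MvPowerSeries.C) (θ := h2.dn)
    ⟨fun c => TrivSqZeroExt.ext (by rw [RingHom.comp_apply, h1.fst_dn, h2.fst_dn]; rfl) (by
      rw [RingHom.comp_apply, h1.snd_dn, h2.snd_dn, ZD2b_C h₀, hw.ev_C, hw.ev_C, e]),
    fun i => TrivSqZeroExt.ext (by rw [h1.fst_dn, h2.fst_dn]; rfl) (by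
      rw [h1.snd_dn, h2.snd_dn, ZD2b_X h₀, hw.ev_X, h0, map_zero])⟩
  rw [← h1.snd_dn f, e1, ← e2, h2.snd_dn]

theorem ker_inv {δ₀ : F → F} (h₀ : Der δ₀) {ρ' : Type} [Finite ρ']
    {δ : MvPowerSeries ρ' F → MvPowerSeries ρ' F} (h : Der δ)
    (e : ∀ c, δ (MvPowerSeries.C c) = MvPowerSeries.C (δ₀ c)) {w : ρ → MvPowerSeries ρ' F}
    (hw : ∀ i, MvPowerSeries.constantCoeff (w i) = 0) (h0 : ∀ i, δ (w i) = 0) (τ : F →+* F)
    (hτ : ∀ z, δ₀ z = 0 → τ z = z) {f : MvPowerSeries ρ F} (hf : ev MvPowerSeries.C w f = 0) :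
    ev MvPowerSeries.C w (MvPowerSeries.map τ f) = 0 := by
  have t := TN.of_cc hw
  have hle : Ideal.span (Set.range w) ≤ mX ρ' F := by
    rw [Ideal.span_le]
    rintro _ ⟨i, rfl⟩
    exact mem_mX.2 (hw i)
  refine Ev2_haus (mX ρ' F) fun N => Ideal.pow_right_mono hle N ?_
  have : Finite {d : ρ →₀ ℕ // d.degree < N} := (Finsupp.finite_of_degree_lt N).to_subtype
  let J : Submodule F ({d : ρ →₀ ℕ // d.degree < N} → F) :=
    { carrier := {v | ∃ g, ev MvPowerSeries.C w g = 0 ∧ ∀ d, v d = MvPowerSeries.coeff d.1 g}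
      zero_mem' := ⟨0, map_zero _, fun d => (map_zero _).symm⟩
      add_mem' := by
        rintro a b ⟨g, hg, ha⟩ ⟨g', hg', hb⟩
        exact ⟨g + g', by rw [map_add, hg, hg', add_zero], fun d => by
          rw [Pi.add_apply, ha, hb, map_add]⟩
      smul_mem' := by
        rintro c a ⟨g, hg, ha⟩
        exact ⟨MvPowerSeries.C c * g, by rw [map_mul, hg, mul_zero], fun d => by
          rw [Pi.smul_apply, ha, MvPowerSeries.coeff_C_mul, smul_eq_mul]⟩ }
  obtain ⟨g, hg, e1⟩ := h₀.inv_span J (by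
    rintro v ⟨g, hg, hv⟩
    exact ⟨mpsd δ₀ g, by rw [← ev_der h₀ h _ e t h0, hg, h.map_zero], fun d =>
      congrArg δ₀ (hv d)⟩) τ hτ (fun d => MvPowerSeries.coeff d.1 f) ⟨f, hf, fun _ => rfl⟩
  have h1 := t.ev_mem_pow MvPowerSeries.C (f := MvPowerSeries.map τ f - g) (N := N)
    (mem_mX_pow.2 fun d hd => by
      rw [map_sub, MvPowerSeries.coeff_map, sub_eq_zero]
      exact e1 ⟨d, hd⟩)
  rwa [map_sub, hg, sub_zero] at h1

end MLF
end

-- merged part: Pool.Agent.Work.MP_29d410_ag.ZE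
section
/-!
# Logarithm and logarithmic derivative of points

Plan.  `lg`: `c_add`, `ev_cmp`, `TN.map_ev`, `c_map`, `exists_c`, `eq_of_c`.
`dlog`: the point `map dn y - map inD y` is congruent to `0` modulo the square zero ideal `ker fst`, on which
`c` is additive (`FGL.add_sub_mem`) and equal to `lg`.  `dlog_lg`: in `DN R` take the admissible ideal of the
elements with first component in `𝔞` (`tn_dn`); `lg (map dn u) = dn (lg u)`.  `dlog_eq_zero_iff`: `eq_of_c`.
`dlog_lin`: use the ring `TrivSqZeroExt R (ι → R)`, the homomorphism `z ↦ (z, fun k => δ k z)` and the maps to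
`DN R` induced by linear forms on `ι → R` (`c_map`).
-/

open MvPowerSeries

namespace MLF

universe u

open PG

namespace SPG

variable {A : SPG.{u}} {K R R' : Type u} [Field K] [CharZero K] [CommRing R] [IsLocalRing R]
  [CommRing R'] [IsLocalRing R'] {s : A.Str K} {φ : K →+* R} {φ' : K →+* R'} {t : A.Str R}
  {t' : A.Str R'}

/-- The logarithm of the formal group. -/
noncomputable def Lg (s : A.Str K) : A.τ → MvPowerSeries A.τ K := (fgl s).exists_log.choose

/-- The logarithm of a point. -/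
noncomputable def lg (s : A.Str K) (φ : K →+* R) {t : A.Str R} (u : A.Pt t) : A.τ → R :=
  fun i => ev φ (A.c u) (Lg s i)

theorem ZE_cc (s : A.Str K) (i : A.τ) : constantCoeff (Lg s i) = 0 := by
  obtain ⟨Ex, h, -⟩ := (fgl s).exists_log.choose_spec
  have h1 := mem_mX.1 (Ideal.pow_le_self two_ne_zero (h i))
  rwa [map_sub, constantCoeff_X, sub_zero] at h1

theorem ZE_ex (s : A.Str K) : ∃ Ex : A.τ → MvPowerSeries A.τ K,
    (∀ i, constantCoeff (Ex i) = 0) ∧ cmp Ex (Lg s) = X ∧ cmp (Lg s) Ex = X :=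
  let ⟨Ex, _, h1, h2, h3, _⟩ := (fgl s).exists_log.choose_spec
  ⟨Ex, h1, h2, h3⟩

theorem ZE_add (s : A.Str K) (i : A.τ) : ev C (fgl s).F (Lg s i) =
    ev C (X ∘ Sum.inl) (Lg s i) + ev C (X ∘ Sum.inr) (Lg s i) :=
  let ⟨_, _, _, _, _, h⟩ := (fgl s).exists_log.choose_spec
  h i

theorem ZE_max {𝔞 : Ideal R} (h𝔞 : 𝔞 ≠ ⊤) {u : A.Pt t} (hu : u ∈ K1 𝔞 t) :
    Cong (IsLocalRing.maximalIdeal R) u (0 : A.Pt t) :=
  let ⟨v, w, h1, h2, h3⟩ := hu
  ⟨v, w, h1, h2, fun i => IsLocalRing.le_maximalIdeal h𝔞 (h3 i)⟩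

theorem ZE_tn {𝔞 : Ideal R} [Adm 𝔞] (h𝔞 : 𝔞 ≠ ⊤) {u : A.Pt t} (hu : u ∈ K1 𝔞 t) : TN (A.c u) :=
  Adm.tn (c_mem h𝔞 hu)

section lg

variable (h : A.push φ s = t) {𝔞 : Ideal R} [Adm 𝔞] (h𝔞 : 𝔞 ≠ ⊤) {u u' : A.Pt t}
include h h𝔞

theorem lg_mem (hu : u ∈ K1 𝔞 t) (i : A.τ) : lg s φ u i ∈ 𝔞 :=
  (ZE_tn h𝔞 hu).ev_mem φ (ZE_cc s i) (c_mem h𝔞 hu)

theorem lg_add (hu : u ∈ K1 𝔞 t) (hu' : u' ∈ K1 𝔞 t) :
    lg s φ (u + u') = lg s φ u + lg s φ u' := by
  have hn := Chart_tn h𝔞 hu hu'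
  funext i
  have e := congrArg (ev φ (Sum.elim (A.c u) (A.c u'))) (ZE_add s i)
  rw [map_add, FG3_ren hn, FG3_ren hn, FG3_ev_ev (fgl s).F0 φ hn] at e
  rw [lg, c_add φ h (ZE_max h𝔞 hu) (ZE_max h𝔞 hu') hn]
  exact e

theorem lg_sub (hu : u ∈ K1 𝔞 t) (hu' : u' ∈ K1 𝔞 t) :
    lg s φ (u - u') = lg s φ u - lg s φ u' := by
  rw [eq_sub_iff_add_eq, ← lg_add h h𝔞 (sub_mem hu hu') hu', sub_add_cancel]

theorem lg_inj (hu : u ∈ K1 𝔞 t) (hu' : u' ∈ K1 𝔞 t) (e : lg s φ u = lg s φ u') : u = u' := by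
  obtain ⟨Ex, -, h2, -⟩ := ZE_ex s
  have key : ∀ {w : A.Pt t}, w ∈ K1 𝔞 t → ∀ i, A.c w i = ev φ (lg s φ w) (Ex i) := by
    intro w hw i
    have h3 := ev_cmp (g := Ex) (ZE_cc s) φ (ZE_tn h𝔞 hw) i
    rw [h2, (ZE_tn h𝔞 hw).ev_X] at h3
    exact h3
  refine eq_of_c (ZE_max h𝔞 hu) (ZE_max h𝔞 hu') (funext fun i => ?_)
  rw [key hu, key hu', e]

theorem exists_lg {z : A.τ → R} (hz : ∀ i, z i ∈ 𝔞) : ∃ u ∈ K1 𝔞 t, lg s φ u = z := by
  obtain ⟨Ex, h1, -, h2⟩ := ZE_ex s
  have hn : TN z := Adm.tn hz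
  obtain ⟨x, hx, e⟩ := exists_c t (𝔞 := 𝔞) (z := fun i => ev φ z (Ex i))
    fun i => hn.ev_mem φ (h1 i) hz
  refine ⟨x, hx, funext fun i => ?_⟩
  rw [lg, e, ← ev_cmp h1 φ hn, h2, hn.ev_X]

theorem lg_map (ψ : R →+* R') (e : A.push ψ t = t') (hφ : ψ.comp φ = φ') {𝔞' : Ideal R'} [Adm 𝔞']
    (h𝔞' : 𝔞' ≠ ⊤) (hψ : ∀ z ∈ 𝔞, ψ z ∈ 𝔞') (hu : u ∈ K1 𝔞 t) :
    lg s φ' (A.map ψ e u) = ψ ∘ lg s φ u := by
  have h1 : A.map ψ e u ∈ K1 𝔞' t' := Chart_cong_map ψ e hψ hu
  have h2 := c_map ψ e (ZE_max h𝔞 hu) (ZE_max h𝔞' h1)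
  funext i
  rw [Function.comp_apply, lg, lg, (ZE_tn h𝔞 hu).map_ev ψ (h2 ▸ ZE_tn h𝔞' h1), h2, hφ]

end lg

end SPG

end MLF
end

-- merged part: Pool.Agent.Work.MP_29d410_ag.ZEb
section
/-!
# Logarithm and logarithmic derivative of points

Plan.  `lg`: `c_add`, `ev_cmp`, `TN.map_ev`, `c_map`, `exists_c`, `eq_of_c`.
`dlog`: the point `map dn y - map inD y` is congruent to `0` modulo the square zero ideal `ker fst`, on which
`c` is additive (`FGL.add_sub_mem`) and equal to `lg`.  `dlog_lg`: in `DN R` take the admissible ideal of the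
elements with first component in `𝔞` (`tn_dn`); `lg (map dn u) = dn (lg u)`.  `dlog_eq_zero_iff`: `eq_of_c`.
`dlog_lin`: use the ring `TrivSqZeroExt R (ι → R)`, the homomorphism `z ↦ (z, fun k => δ k z)` and the maps to
`DN R` induced by linear forms on `ι → R` (`c_map`).
-/

open MvPowerSeries

namespace MLF

universe u

open PG

section ZEbTsze

variable {R : Type u} [CommRing R] {M : Type u} [AddCommGroup M] [Module R M] [Module Rᵐᵒᵖ M]
  [IsCentralScalar R M]

/-- The first projection of a square zero extension. -/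
def ZEb_fst (R : Type u) [CommRing R] (M : Type u) [AddCommGroup M] [Module R M] [Module Rᵐᵒᵖ M]
    [IsCentralScalar R M] : TrivSqZeroExt R M →+* R := (TrivSqZeroExt.fstHom R R M).toRingHom

theorem ZEb_fst_apply (z : TrivSqZeroExt R M) : ZEb_fst R M z = z.fst := rfl

theorem ZEb_local [IsLocalRing R] : IsLocalRing (TrivSqZeroExt R M) := by
  have : Nontrivial (TrivSqZeroExt R M) := (ZEb_fst R M).domain_nontrivial
  refine IsLocalRing.of_isUnit_or_isUnit_one_sub_self fun z => ?_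
  rw [TrivSqZeroExt.isUnit_iff_isUnit_fst, TrivSqZeroExt.isUnit_iff_isUnit_fst,
    TrivSqZeroExt.fst_sub, TrivSqZeroExt.fst_one]
  exact IsLocalRing.isUnit_or_isUnit_one_sub_self _

theorem ZEb_ker_sq : RingHom.ker (ZEb_fst R M) ^ 2 = ⊥ := by
  rw [pow_two, eq_bot_iff, Ideal.mul_le]
  intro a ha b hb
  have ha' : a.fst = 0 := ha
  have hb' : b.fst = 0 := hb
  rw [Ideal.mem_bot]
  ext
  · rw [TrivSqZeroExt.fst_mul, ha', zero_mul, TrivSqZeroExt.fst_zero]
  · rw [TrivSqZeroExt.snd_mul, ha', hb', zero_smul, MulOpposite.op_zero, zero_smul, add_zero,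
      TrivSqZeroExt.snd_zero]

theorem ZEb_comap_ne {𝔞 : Ideal R} (h : 𝔞 ≠ ⊤) : 𝔞.comap (ZEb_fst R M) ≠ ⊤ :=
  Ideal.comap_ne_top _ h

theorem ZEb_ker_ne [Nontrivial R] : RingHom.ker (ZEb_fst R M) ≠ ⊤ := RingHom.ker_ne_top _

theorem ZEb_ker_adm : Adm (RingHom.ker (ZEb_fst R M)) :=
  have := complete_of_nil (𝔞 := RingHom.ker (ZEb_fst R M)) ⟨2, ZEb_ker_sq⟩
  inferInstance

theorem ZEb_snd_mul (a b : DN R) : (a * b).snd = a.fst * b.snd + a.snd * b.fst := by
  rw [TrivSqZeroExt.snd_mul, smul_eq_mul, op_smul_eq_mul]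

theorem ZEb_mem_map (𝔟 : Ideal R) (z : DN R) :
    z ∈ 𝔟.map (inD R) ↔ z.fst ∈ 𝔟 ∧ z.snd ∈ 𝔟 := by
  constructor
  · intro hz
    induction hz using Submodule.span_induction with
    | mem x hx =>
      obtain ⟨y, hy, rfl⟩ := hx
      exact ⟨hy, 𝔟.zero_mem⟩
    | zero => exact ⟨𝔟.zero_mem, 𝔟.zero_mem⟩
    | add x y _ _ hx hy => exact ⟨𝔟.add_mem hx.1 hy.1, 𝔟.add_mem hx.2 hy.2⟩
    | smul a x _ hx =>
      rw [smul_eq_mul, ZEb_snd_mul, TrivSqZeroExt.fst_mul]
      exact ⟨𝔟.mul_mem_left _ hx.1, 𝔟.add_mem (𝔟.mul_mem_left _ hx.2) (𝔟.mul_mem_left _ hx.1)⟩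
  · rintro ⟨h1, h2⟩
    have e : z = inD R z.fst + TrivSqZeroExt.inr 1 * inD R z.snd := by
      ext
      · simp [inD]
      · rw [TrivSqZeroExt.snd_add, ZEb_snd_mul]
        simp [inD]
    rw [e]
    exact add_mem (Ideal.mem_map_of_mem _ h1) (Ideal.mul_mem_left _ _ (Ideal.mem_map_of_mem _ h2))

theorem ZEb_complete (𝔟 : Ideal R) [IsAdicComplete 𝔟 R] :
    IsAdicComplete (𝔟.comap (ZEb_fst R R)) (DN R) := by
  have h1 : IsAdicComplete (𝔟.map (inD R)) (DN R) := by
    refine Ev2_complete (fun a ha => ?_) fun f hf => ?_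
    · simp only [← Ideal.map_pow, ZEb_mem_map] at ha
      ext
      · exact Ev2_haus 𝔟 fun n => (ha n).1
      · exact Ev2_haus 𝔟 fun n => (ha n).2
    · simp only [← Ideal.map_pow, ZEb_mem_map] at hf ⊢
      obtain ⟨L₁, h₁⟩ := Ev2_prec 𝔟 (fun n => (f n).fst) fun m n h => (hf m n h).1
      obtain ⟨L₂, h₂⟩ := Ev2_prec 𝔟 (fun n => (f n).snd) fun m n h => (hf m n h).2
      exact ⟨(L₁, L₂), fun n => ⟨h₁ n, h₂ n⟩⟩
  refine Ev2_cofinal (𝔠 := 𝔟.map (inD R)) (fun z hz => ((ZEb_mem_map 𝔟 z).1 hz).1) (k := 1) ?_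
  rw [one_add_one_eq_two, pow_two, Ideal.mul_le]
  intro a ha b hb
  have ha' : a.fst ∈ 𝔟 := ha
  have hb' : b.fst ∈ 𝔟 := hb
  rw [ZEb_mem_map, ZEb_snd_mul, TrivSqZeroExt.fst_mul]
  exact ⟨𝔟.mul_mem_left _ hb', 𝔟.add_mem (𝔟.mul_mem_right _ ha') (𝔟.mul_mem_left _ hb')⟩

theorem ZEb_adm (𝔞 : Ideal R) [Adm 𝔞] : Adm (𝔞.comap (ZEb_fst R R)) := by
  classical
  refine ⟨fun F hF => ?_⟩
  obtain ⟨𝔟, h1, h2, h3⟩ := Adm.ex (𝔞 := 𝔞) (F.image (ZEb_fst R R)) (by
    rw [Finset.coe_image]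
    rintro _ ⟨z, hz, rfl⟩
    exact hF hz)
  refine ⟨𝔟.comap (ZEb_fst R R), Ideal.comap_mono h1, ZEb_complete 𝔟, fun z hz => ?_⟩
  exact h3 (Finset.mem_coe.2 (Finset.mem_image_of_mem _ hz))

theorem ZEb_fst_inD (z : R) : (inD R z).fst = z := rfl
theorem ZEb_snd_inD (z : R) : (inD R z).snd = 0 := rfl

theorem ZEb_der_lin (l : M →ₗ[R] R) : IsDer (ZEb_fst R M) fun z => l z.snd where
  add a b := by rw [TrivSqZeroExt.snd_add, map_add]
  mul a b := by
    rw [TrivSqZeroExt.snd_mul, op_smul_eq_smul, map_add, map_smul, map_smul, smul_eq_mul,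
      smul_eq_mul, ZEb_fst_apply, ZEb_fst_apply, mul_comm b.fst]

/-- The homomorphism attached to a family of derivations. -/
def ZEb_fam {ι : Type} {d : ι → R → R} (hd : ∀ k, Der (d k)) : R →+* TrivSqZeroExt R (ι → R) where
  toFun z := (z, fun k => d k z)
  map_one' := TrivSqZeroExt.ext rfl (funext fun k => (hd k).map_one)
  map_zero' := TrivSqZeroExt.ext rfl (funext fun k => (hd k).map_zero)
  map_add' a b := TrivSqZeroExt.ext rfl (funext fun k => (hd k).add a b)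
  map_mul' a b := TrivSqZeroExt.ext rfl (funext fun k => by
    change d k (a * b) = a * d k b + d k a * b
    exact (hd k).mul a b)

end ZEbTsze

namespace SPG

variable {A : SPG.{u}} {K R R' : Type u} [Field K] [CharZero K] [CommRing R] [IsLocalRing R]
  [CommRing R'] [IsLocalRing R'] {s : A.Str K} {φ : K →+* R} {φ' : K →+* R'} {t : A.Str R}
  {t' : A.Str R'}

section ZEbGen

variable {T T' : Type u} [CommRing T] [IsLocalRing T] [CommRing T'] [IsLocalRing T']

theorem ZEb_cong {θ j : R →+* T} (e : A.push θ t = A.push j t) {𝔫 : Ideal T}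
    (hm : ∀ z, θ z - j z ∈ 𝔫) (y : A.Pt t) :
    A.map θ e y - A.map j rfl y ∈ K1 𝔫 (A.push j t) := by
  obtain ⟨v, hv⟩ := A.ax.exists_rep y
  exact cong_iff_sub.1 (cong_map_map e rfl hv fun i => hm _)

theorem ZEb_nat {θ j : R →+* T} {θ' j' : R' →+* T'} (e : A.push θ t = A.push j t)
    (e' : A.push θ' t' = A.push j' t') (ψ : R →+* R') (hψ : A.push ψ t = t') (Ψ : T →+* T')
    (h1 : Ψ.comp θ = θ'.comp ψ) (h2 : Ψ.comp j = j'.comp ψ) {𝔫 : Ideal T} {𝔫' : Ideal T'}
    (hn : 𝔫 ≠ ⊤) (hn' : 𝔫' ≠ ⊤) (hm : ∀ z, θ z - j z ∈ 𝔫) (hm' : ∀ z, θ' z - j' z ∈ 𝔫')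
    (y : A.Pt t) :
    A.c (A.map θ' e' (A.map ψ hψ y) - A.map j' rfl (A.map ψ hψ y)) =
      Ψ ∘ A.c (A.map θ e y - A.map j rfl y) := by
  have E : A.push Ψ (A.push j t) = A.push j' t' := by
    rw [A.ax.push_comp, h2, ← A.ax.push_comp, hψ]
  have e1 : A.map Ψ E (A.map θ e y - A.map j rfl y) =
      A.map θ' e' (A.map ψ hψ y) - A.map j' rfl (A.map ψ hψ y) := by
    rw [map_sub, PG.map_map, PG.map_map, PG.map_map, PG.map_map, PG.map_congr h1, PG.map_congr h2]
  have c1 := Cong.mono (ZEb_cong e hm y) (IsLocalRing.le_maximalIdeal hn)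
  have c2 := Cong.mono (ZEb_cong e' hm' (A.map ψ hψ y)) (IsLocalRing.le_maximalIdeal hn')
  rw [← e1] at c2 ⊢
  exact c_map Ψ E c1 c2

theorem ZEb_lg_eq {𝔫 : Ideal R} (hn : 𝔫 ≠ ⊤) (h2 : 𝔫 ^ 2 = ⊥) {u : A.Pt t} (hu : u ∈ K1 𝔫 t) :
    lg s φ u = A.c u := by
  have := complete_of_nil (𝔞 := 𝔫) ⟨2, h2⟩
  have ht : TN (A.c u) := Adm.tn (c_mem hn hu)
  funext i
  obtain ⟨Ex, h3, -⟩ := (fgl s).exists_log.choose_spec
  have h5 := Ideal.pow_right_mono (Ideal.span_le.2 (Set.range_subset_iff.2 (c_mem hn hu))) 2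
    (ht.ev_mem_pow φ (h3 i))
  rw [h2, Ideal.mem_bot, map_sub, ht.ev_X, sub_eq_zero] at h5
  exact h5

end ZEbGen

section dlog

variable {δ : R → R} {δ' : R' → R'}

omit [CharZero K] [IsLocalRing R] in
theorem ZEb_comp (hδ : Der δ) (h0 : ∀ c, δ (φ c) = 0) : hδ.dn.comp φ = (inD R).comp φ :=
  RingHom.ext fun c => TrivSqZeroExt.ext (hδ.fst_dn _) ((hδ.snd_dn _).trans (h0 c))

omit [IsLocalRing R] in
theorem ZEb_dn_sub (hδ : Der δ) (z : R) : hδ.dn z - inD R z ∈ RingHom.ker (ZEb_fst R R) := by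
  rw [RingHom.mem_ker, ZEb_fst_apply, TrivSqZeroExt.fst_sub, hδ.fst_dn]
  exact sub_self _

omit [CharZero K] [IsLocalRing R] in
theorem push_dn (h : A.push φ s = t) (hδ : Der δ) (h0 : ∀ c, δ (φ c) = 0) :
    A.push hδ.dn t = A.push (inD R) t := by
  rw [← h, A.ax.push_comp, A.ax.push_comp, ZEb_comp hδ h0]

/-- The logarithmic derivative of a point. -/
noncomputable def dlog (h : A.push φ s = t) (hδ : Der δ) (h0 : ∀ c, δ (φ c) = 0) (y : A.Pt t) :
    A.τ → R := fun i => (A.c (A.map hδ.dn (push_dn h hδ h0) y - A.map (inD R) rfl y) i).snd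

variable (h : A.push φ s = t) (hδ : Der δ) (h0 : ∀ c, δ (φ c) = 0)

theorem ZEb_dlog (y : A.Pt t) (i : A.τ) : dlog h hδ h0 y i =
    (lg s ((inD R).comp φ) (A.map hδ.dn (push_dn h hδ h0) y - A.map (inD R) rfl y) i).snd := by
  have e := ZEb_lg_eq (s := s) (φ := (inD R).comp φ) (ZEb_ker_ne (R := R) (M := R))
    (ZEb_ker_sq (R := R) (M := R)) (ZEb_cong (push_dn h hδ h0) (ZEb_dn_sub hδ) y)
  rw [e]
  rfl

theorem dlog_add (y y' : A.Pt t) : dlog h hδ h0 (y + y') = dlog h hδ h0 y + dlog h hδ h0 y' := by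
  have := ZEb_ker_adm (R := R) (M := R)
  funext i
  rw [Pi.add_apply, ZEb_dlog, ZEb_dlog, ZEb_dlog, map_add, map_add, add_sub_add_comm,
    lg_add (push_trans h rfl) ZEb_ker_ne (ZEb_cong (push_dn h hδ h0) (ZEb_dn_sub hδ) y)
      (ZEb_cong (push_dn h hδ h0) (ZEb_dn_sub hδ) y')]
  rfl

theorem dlog_sub (y y' : A.Pt t) : dlog h hδ h0 (y - y') = dlog h hδ h0 y - dlog h hδ h0 y' := by
  rw [eq_sub_iff_add_eq, ← dlog_add, sub_add_cancel]

theorem dlog_lg {𝔞 : Ideal R} [Adm 𝔞] (h𝔞 : 𝔞 ≠ ⊤) {u : A.Pt t} (hu : u ∈ K1 𝔞 t) :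
    dlog h hδ h0 u = δ ∘ lg s φ u := by
  have := ZEb_adm 𝔞
  have m1 : ∀ z ∈ 𝔞, hδ.dn z ∈ 𝔞.comap (ZEb_fst R R) := fun z hz => by
    rw [Ideal.mem_comap, ZEb_fst_apply, hδ.fst_dn]
    exact hz
  have m2 : ∀ z ∈ 𝔞, inD R z ∈ 𝔞.comap (ZEb_fst R R) := fun z hz => hz
  funext i
  rw [ZEb_dlog, lg_sub (push_trans h rfl) (ZEb_comap_ne h𝔞)
      (Chart_cong_map _ (push_dn h hδ h0) m1 hu) (Chart_cong_map _ rfl m2 hu),
    lg_map h h𝔞 _ (push_dn h hδ h0) (ZEb_comp hδ h0) (ZEb_comap_ne h𝔞) m1 hu,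
    lg_map h h𝔞 _ rfl rfl (ZEb_comap_ne h𝔞) m2 hu, Pi.sub_apply, TrivSqZeroExt.snd_sub,
    Function.comp_apply, Function.comp_apply, hδ.snd_dn, ZEb_snd_inD, sub_zero,
    Function.comp_apply]

theorem dlog_eq_zero_iff {y : A.Pt t} {v : A.σ → R} {a : A.σ} (hv : A.Rep y v) (ha : v a = 1) :
    dlog h hδ h0 y = 0 ↔ ∀ i, δ (v i) = 0 := by
  have c1 := ZEb_cong (push_dn h hδ h0) (ZEb_dn_sub hδ) y
  constructor
  · intro e i
    have e1 : A.map hδ.dn (push_dn h hδ h0) y - A.map (inD R) rfl y = 0 := by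
      refine eq_of_c (Cong.mono c1 (IsLocalRing.le_maximalIdeal ZEb_ker_ne)) (Cong.refl _ _) ?_
      rw [A.ch.c_zero]
      funext l
      exact TrivSqZeroExt.ext (c_mem ZEb_ker_ne c1 l) (congrFun e l)
    have r1 := rep_map hδ.dn (push_dn h hδ h0) hv
    rw [sub_eq_zero.1 e1] at r1
    obtain ⟨c, -, hc⟩ := A.ax.rep_uniq (rep_map (inD R) rfl hv) r1
    have c2 := congrFun hc a
    simp only [Function.comp_apply, Pi.smul_apply, ha, map_one, smul_eq_mul, mul_one] at c2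
    have c3 := congrFun hc i
    rw [← c2, one_smul, Function.comp_apply, Function.comp_apply] at c3
    rw [← hδ.snd_dn, c3, ZEb_snd_inD]
  · intro e
    have e1 : A.map hδ.dn (push_dn h hδ h0) y = A.map (inD R) rfl y :=
      map_congr' _ _ hv fun i => TrivSqZeroExt.ext (hδ.fst_dn _) ((hδ.snd_dn _).trans (e i))
    funext l
    rw [dlog, e1, sub_self, A.ch.c_zero]
    rfl

theorem dlog_map (h' : A.push φ' s = t') (hδ' : Der δ') (h0' : ∀ c, δ' (φ' c) = 0) (ψ : R →+* R')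
    (e : A.push ψ t = t') (hψ : ∀ z, δ' (ψ z) = ψ (δ z)) (y : A.Pt t) :
    dlog h' hδ' h0' (A.map ψ e y) = ψ ∘ dlog h hδ h0 y := by
  have hD := (ZEb_der_lin (LinearMap.id : R →ₗ[R] R)).comp ψ
  have h1 : hD.dn.comp hδ.dn = hδ'.dn.comp ψ := RingHom.ext fun z => TrivSqZeroExt.ext
    (by rw [RingHom.comp_apply, RingHom.comp_apply, hD.fst_dn, hδ'.fst_dn, RingHom.comp_apply,
      ZEb_fst_apply, hδ.fst_dn]; rfl)
    (by rw [RingHom.comp_apply, RingHom.comp_apply, hD.snd_dn, hδ'.snd_dn, hδ.snd_dn, hψ]; rfl)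
  have h2 : hD.dn.comp (inD R) = (inD R').comp ψ := RingHom.ext fun z => TrivSqZeroExt.ext
    (by rw [RingHom.comp_apply, hD.fst_dn]; rfl)
    (by rw [RingHom.comp_apply, hD.snd_dn]; exact map_zero ψ)
  funext i
  rw [dlog, ZEb_nat (push_dn h hδ h0) (push_dn h' hδ' h0') ψ e hD.dn h1 h2 ZEb_ker_ne ZEb_ker_ne
    (ZEb_dn_sub hδ) (ZEb_dn_sub hδ') y, Function.comp_apply, hD.snd_dn]
  rfl

theorem dlog_lin {ι : Type} [Fintype ι] {d : ι → R → R} (hd : ∀ k, Der (d k))
    (hd0 : ∀ k c, d k (φ c) = 0) (a : ι → R) (e : ∀ z, δ z = ∑ k, a k * d k z) (y : A.Pt t) :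
    dlog h hδ h0 y = ∑ k, a k • dlog h (hd k) (hd0 k) y := by
  have := ZEb_local (R := R) (M := ι → R)
  have e0 : (ZEb_fam hd).comp φ = (TrivSqZeroExt.inlHom R (ι → R)).comp φ :=
    RingHom.ext fun c => TrivSqZeroExt.ext rfl (funext fun k => hd0 k c)
  have E : A.push (ZEb_fam hd) t = A.push (TrivSqZeroExt.inlHom R (ι → R)) t := by
    rw [← h, A.ax.push_comp, A.ax.push_comp, e0]
  have hm : ∀ z, ZEb_fam hd z - TrivSqZeroExt.inlHom R (ι → R) z ∈
      RingHom.ker (ZEb_fst R (ι → R)) := fun z => sub_self z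
  have key : ∀ (l : (ι → R) →ₗ[R] R) {δ : R → R} (hδ : Der δ) (h0 : ∀ c, δ (φ c) = 0),
      (∀ z, δ z = l fun k => d k z) → ∀ i, dlog h hδ h0 y i =
        l (A.c (A.map (ZEb_fam hd) E y - A.map (TrivSqZeroExt.inlHom R (ι → R)) rfl y) i).snd := by
    intro l δ hδ h0 e i
    have hD := ZEb_der_lin l
    have h1 : hD.dn.comp (ZEb_fam hd) = hδ.dn.comp (RingHom.id R) :=
      RingHom.ext fun z => TrivSqZeroExt.ext
        (by rw [RingHom.comp_apply, RingHom.comp_apply, hD.fst_dn, hδ.fst_dn]; rfl)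
        (by rw [RingHom.comp_apply, RingHom.comp_apply, hD.snd_dn, hδ.snd_dn]; exact (e z).symm)
    have h2 : hD.dn.comp (TrivSqZeroExt.inlHom R (ι → R)) = (inD R).comp (RingHom.id R) :=
      RingHom.ext fun z => TrivSqZeroExt.ext
        (by rw [RingHom.comp_apply, hD.fst_dn]; rfl)
        (by rw [RingHom.comp_apply, hD.snd_dn]; exact map_zero l)
    have h3 := ZEb_nat E (push_dn h hδ h0) (RingHom.id R) (A.ax.push_id t) hD.dn h1 h2 ZEb_ker_ne
      ZEb_ker_ne hm (ZEb_dn_sub hδ) y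
    rw [map_id' (fun _ => rfl)] at h3
    rw [dlog, h3, Function.comp_apply, hD.snd_dn]
  funext i
  rw [key (∑ k, a k • LinearMap.proj k) hδ h0 (fun z => by simp [e]), Finset.sum_apply,
    LinearMap.sum_apply]
  refine Finset.sum_congr rfl fun k _ => ?_
  rw [Pi.smul_apply, key (LinearMap.proj k) (hd k) (hd0 k) fun _ => rfl]
  rfl

end dlog

end SPG

end MLF
end

-- merged part: Pool.Agent.Work.MP_29d410_ag.ZA
section
/-!
# Extension of scalars for spaces of sequences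

Plan.  `exists_pr`: induction on the dimension (reduced echelon form), or: the coordinate functionals
span the dual of `W`.
`lin_ode`: take the basis of `exists_pr` and `M k l = c (pos k) * b l (sh (pos k))`.
-/

namespace MLF

universe u

variable {K T T' : Type u} [Field K] [CommRing T] [CommRing T'] {I : Type}

/-- The span over `T` of a space of sequences over `K`. -/
def Wsp (W : Submodule K (I → K)) (j : K →+* T) : Submodule T (I → T) :=
  Submodule.span T ((fun w => j ∘ w) '' (W : Set (I → K)))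

variable {W W' : Submodule K (I → K)} {j : K →+* T}

theorem mem_Wsp (j : K →+* T) {w : I → K} (h : w ∈ W) : j ∘ w ∈ Wsp W j :=
  Submodule.subset_span ⟨w, h, rfl⟩

theorem Wsp_mono (h : W ≤ W') (j : K →+* T) : Wsp W j ≤ Wsp W' j :=
  Submodule.span_mono (Set.image_mono h)

theorem Wsp_id (W : Submodule K (I → K)) : Wsp W (RingHom.id K) = W := by
  have : (fun w : I → K => (RingHom.id K) ∘ w) = id := by
    funext w
    rfl
  unfold Wsp
  rw [this, Set.image_id, Submodule.span_eq]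

theorem Wsp_map (ψ : T →+* T') {j' : K →+* T'} (e : ψ.comp j = j') {v : I → T} (h : v ∈ Wsp W j) :
    ψ ∘ v ∈ Wsp W j' := by
  subst e
  induction h using Submodule.span_induction with
  | mem x hx =>
    obtain ⟨w, hw, rfl⟩ := hx
    exact mem_Wsp (ψ.comp j) hw
  | zero =>
    have : ψ ∘ (0 : I → T) = 0 := by
      funext i
      simp
    rw [this]
    exact Submodule.zero_mem _
  | add x y _ _ hx hy =>
    have : ψ ∘ (x + y) = ψ ∘ x + ψ ∘ y := by
      funext i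
      simp
    rw [this]
    exact Submodule.add_mem _ hx hy
  | smul a x _ hx =>
    have : ψ ∘ (a • x) = ψ a • (ψ ∘ x) := by
      funext i
      simp
    rw [this]
    exact Submodule.smul_mem _ _ hx

theorem Wsp_der {d : T → T} (hd : Der d) (h0 : ∀ c, d (j c) = 0) {v : I → T} (h : v ∈ Wsp W j) :
    d ∘ v ∈ Wsp W j := by
  induction h using Submodule.span_induction with
  | mem x hx =>
    obtain ⟨w, _, rfl⟩ := hx
    have : d ∘ (j ∘ w) = 0 := by
      funext i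
      exact h0 _
    rw [this]
    exact Submodule.zero_mem _
  | zero =>
    have : d ∘ (0 : I → T) = 0 := by
      funext i
      exact hd.map_zero
    rw [this]
    exact Submodule.zero_mem _
  | add x y _ _ hx hy =>
    have : d ∘ (x + y) = d ∘ x + d ∘ y := by
      funext i
      exact hd.add _ _
    rw [this]
    exact Submodule.add_mem _ hx hy
  | smul a x hx0 hx =>
    have : d ∘ (a • x) = a • (d ∘ x) + d a • x := by
      funext i
      exact hd.mul _ _
    rw [this]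
    exact Submodule.add_mem _ (Submodule.smul_mem _ _ hx) (Submodule.smul_mem _ _ hx0)

theorem ZA_echelon (m : ℕ) : ∀ (W : Submodule K (I → K)) [FiniteDimensional K W],
    Module.finrank K W ≤ m →
    ∃ (n : ℕ) (pos : Fin n → I) (b : Fin n → I → K), (∀ k, b k ∈ W) ∧
      (∀ k l, b k (pos l) = if k = l then 1 else 0) ∧
      ∀ w ∈ W, ∀ i, w i = ∑ k, w (pos k) * b k i := by
  have base : ∀ W : Submodule K (I → K), W = ⊥ →
      ∃ (n : ℕ) (pos : Fin n → I) (b : Fin n → I → K), (∀ k, b k ∈ W) ∧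
      (∀ k l, b k (pos l) = if k = l then 1 else 0) ∧
      ∀ w ∈ W, ∀ i, w i = ∑ k, w (pos k) * b k i := by
    rintro W rfl
    refine ⟨0, Fin.elim0, Fin.elim0, fun k => k.elim0, fun k => k.elim0, fun w hw i => ?_⟩
    rw [(Submodule.mem_bot K).1 hw]
    simp
  induction m with
  | zero =>
    intro W _ hW
    exact base W (Submodule.finrank_eq_zero.1 (Nat.le_zero.1 hW))
  | succ m ih =>
    intro W _ hW
    by_cases hb : W = ⊥
    · exact base W hb
    obtain ⟨w0, hw0, hne⟩ := Submodule.exists_mem_ne_zero_of_ne_bot hb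
    obtain ⟨i0, hi0⟩ := Function.ne_iff.1 hne
    have hi0' : w0 i0 ≠ 0 := hi0
    set b0 : I → K := (w0 i0)⁻¹ • w0 with hb0
    have hb0W : b0 ∈ W := W.smul_mem _ hw0
    have hb0i : b0 i0 = 1 := by
      rw [hb0, Pi.smul_apply, smul_eq_mul, inv_mul_cancel₀ hi0']
    set W1 : Submodule K (I → K) :=
      W ⊓ LinearMap.ker (LinearMap.proj (R := K) (φ := fun _ : I => K) i0) with hW1
    have hmem : ∀ w, w ∈ W1 ↔ w ∈ W ∧ w i0 = 0 := fun w => by
      simp [hW1]
    have hlt : W1 < W := by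
      refine lt_of_le_of_ne inf_le_left fun h => ?_
      have : w0 ∈ W1 := h ▸ hw0
      exact hi0' ((hmem _).1 this).2
    have : FiniteDimensional K W1 := Submodule.finiteDimensional_of_le hlt.le
    have hfr : Module.finrank K W1 ≤ m := by
      have := Submodule.finrank_lt_finrank_of_lt hlt
      omega
    obtain ⟨n, pos, b, hbW, hbp, hrep⟩ := ih W1 hfr
    have hbi : ∀ k, b k i0 = 0 := fun k => ((hmem _).1 (hbW k)).2
    refine ⟨n + 1, Fin.cons i0 pos, Fin.cons (b0 - ∑ k, b0 (pos k) • b k) b, ?_, ?_, ?_⟩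
    · refine Fin.cases ?_ fun k => ?_
      · exact W.sub_mem hb0W (W.sum_mem fun k _ => W.smul_mem _ ((hmem _).1 (hbW k)).1)
      · exact ((hmem _).1 (hbW k)).1
    · refine Fin.cases ?_ fun k => ?_
      · refine Fin.cases ?_ fun l => ?_
        · simp [hb0i, hbi]
        · simp [hbp, (Fin.succ_ne_zero l).symm]
      · refine Fin.cases ?_ fun l => ?_
        · simp [hbi]
        · simp [hbp]
    · intro w hw i
      have h1 : w - w i0 • b0 ∈ W1 :=
        (hmem _).2 ⟨W.sub_mem hw (W.smul_mem _ hb0W), by simp [hb0i]⟩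
      have h2 := hrep _ h1 i
      simp only [Pi.sub_apply, Pi.smul_apply, smul_eq_mul, sub_mul, Finset.sum_sub_distrib] at h2
      rw [Fin.sum_univ_succ]
      simp only [Fin.cons_zero, Fin.cons_succ, Pi.sub_apply, Finset.sum_apply, Pi.smul_apply,
        smul_eq_mul, mul_sub, Finset.mul_sum]
      simp only [mul_assoc] at h2
      linear_combination h2


theorem exists_pr (W : Submodule K (I → K)) [FiniteDimensional K W] :
    ∃ (n : ℕ) (pos : Fin n → I) (b : Fin n → I → K), (∀ k, b k ∈ W) ∧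
      (∀ k l, b k (pos l) = if k = l then 1 else 0) ∧
      ∀ (T : Type u) [CommRing T] (j : K →+* T) (v : I → T),
        v ∈ Wsp W j ↔ ∀ i, v i = ∑ k, v (pos k) * j (b k i) := by
  obtain ⟨n, pos, b, hbW, hbp, hrep⟩ := ZA_echelon _ W le_rfl
  refine ⟨n, pos, b, hbW, hbp, fun T _ j v => ⟨fun h => ?_, fun h => ?_⟩⟩
  · induction h using Submodule.span_induction with
    | mem x hx =>
      obtain ⟨w, hw, rfl⟩ := hx
      intro i
      show j (w i) = ∑ k, j (w (pos k)) * j (b k i)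
      rw [hrep w hw i, map_sum]
      simp only [map_mul]
    | zero => intro i; simp
    | add x y _ _ hx hy =>
      intro i
      simp only [Pi.add_apply, add_mul, Finset.sum_add_distrib]
      rw [← hx i, ← hy i]
    | smul a x _ hx =>
      intro i
      simp only [Pi.smul_apply, smul_eq_mul, mul_assoc, ← Finset.mul_sum]
      rw [← hx i]
  · have : v = ∑ k, v (pos k) • (j ∘ b k) := by
      funext i
      rw [h i, Finset.sum_apply]
      rfl
    rw [this]
    exact Submodule.sum_mem _ fun k _ => Submodule.smul_mem _ _ (mem_Wsp j (hbW k))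

theorem Wsp_desc [FiniteDimensional K W] {ψ : T →+* T'} (hψ : Function.Injective ψ)
    {j' : K →+* T'} (e : ψ.comp j = j') {v : I → T} (h : ψ ∘ v ∈ Wsp W j') : v ∈ Wsp W j := by
  subst e
  obtain ⟨n, pos, b, _, _, hrep⟩ := exists_pr W
  rw [hrep] at h ⊢
  intro i
  apply hψ
  rw [map_sum]
  simp only [map_mul]
  exact h i

theorem lin_ode [FiniteDimensional K W] (δ : T → T) {w : I → T} (hw : w ∈ Wsp W j) (sh : I → I)
    (c : I → K)
    (hs : ∀ i, δ (w i) = j (c i) * w (sh i)) :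
    ∃ (r : ℕ) (pos : Fin r → I) (b : Fin r → I → K) (M : Matrix (Fin r) (Fin r) K),
      (∀ i, w i = ∑ k, w (pos k) * j (b k i)) ∧
      ∀ k, δ (w (pos k)) = ∑ l, j (M k l) * w (pos l) := by
  obtain ⟨n, pos, b, _, _, hrep⟩ := exists_pr W
  have h := (hrep T j w).1 hw
  refine ⟨n, pos, b, fun k l => c (pos k) * b l (sh (pos k)), h, fun k => ?_⟩
  rw [hs, h (sh (pos k)), Finset.mul_sum]
  refine Finset.sum_congr rfl fun l _ => ?_
  simp only [map_mul]
  ring

end MLF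
end

-- merged part: Pool.Agent.Work.MP_29d410_ag.ZS1
section
/-!
# A deformation; complete lifts

`E j` is the group of points over `T⟦ε⟧` of the deformation, an extension of `P j = A (T)` by the vector
group with coordinates `lv`.  `S W j` consists of the points which are integral modulo `W` at every place.
Plan.  `res_eq_zero`: `cong_ker_iff`.  The `lv` lemmas: the `lg` lemmas for the ideal `mx T`.
`S`: a point which is integral at `𝒲`, with trivial `res`, has `lv` in `𝒲`, and conversely.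
`S_emap`: restrict the valuation ring.  `S_desc`: extend `𝒲` to `𝒲'` (`exists_place`), lift `res y` to
`y₁` over `𝒲` (`map_val_bij`, `res_surj`), `v = lv (y - y₁)`; with the projection `pr` of `exists_pr`,
`pr v` has entries in `𝒲' ∩ T`, and `v - pr v ∈ Wsp`.  `S_red`: given `𝒲'` in `T'`, the elements `a / b` with
`a, b ∈ P.W`, `P.r b ≠ 0`, `P.r a / P.r b ∈ 𝒲'` form a valuation ring `𝒲''` of `T`; all rings lie in the
localisation of `P.W` at the kernel of `P.r`.  `S_inter`: the entries of `pr (lv u)` lie in all valuation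
rings containing `K`, so in `K` (`Tor1_int_iff`).
-/

open PowerSeries

namespace MLF

universe u

open PG

/-- A deformation of `s` over the power series. -/
structure Df (A : SPG.{u}) (K : Type u) [Field K] where
  s : A.Str K
  D : K →+* PowerSeries K
  cc : ∀ z, constantCoeff (D z) = z
  var : Var (Set.univ : Set (A.Pt s))
  lifts : A.LiftsL s

/-- Finite dimensional, without constant terms. -/
structure Fin0 {K : Type u} [Field K] {τ : Type} (W : Submodule K (τ × ℕ → K)) : Prop where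
  fin : FiniteDimensional K W
  zero : ∀ w ∈ W, ∀ a, w (a, 0) = 0

/-- The map to a valuation ring. -/
def vW {K T : Type u} [Field K] [Field T] (j : K →+* T) (𝒲 : ValuationSubring T)
    (h : ∀ c, j c ∈ 𝒲) : K →+* 𝒲 := j.codRestrict 𝒲.toSubring h

namespace Df

variable {A : SPG.{u}} {K T T' T'' : Type u} [Field K] [IsAlgClosed K] [CharZero K] (𝒟 : Df A K)

section loc

variable [CommRing T] [IsLocalRing T] [CommRing T'] [IsLocalRing T'] [CommRing T'']
  [IsLocalRing T'']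

/-- The structure map of the deformation. -/
noncomputable def φ (j : K →+* T) : K →+* PowerSeries T := (map j).comp 𝒟.D

/-- Points. -/
abbrev P (j : K →+* T) : Type u := A.Pt (A.push j 𝒟.s)

/-- Points of the deformation. -/
abbrev E (j : K →+* T) : Type u := A.Pt (A.push (𝒟.φ j) 𝒟.s)

theorem ZS1_map_φ {j : K →+* T} {j' : K →+* T'} {ψ : T →+* T'} (h : ψ.comp j = j') :
    (map ψ).comp (𝒟.φ j) = 𝒟.φ j' := by
  rw [φ, φ, ← RingHom.comp_assoc, ← map_comp, h]

theorem ZS1_cc_map (ψ : T →+* T') : (constantCoeff : PowerSeries T' →+* T').comp (map ψ) =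
    ψ.comp constantCoeff := RingHom.ext fun f => by
  rw [RingHom.comp_apply, RingHom.comp_apply, ← coeff_zero_eq_constantCoeff_apply, coeff_map,
    coeff_zero_eq_constantCoeff_apply]

theorem ZS1_mx {f : PowerSeries T} : f ∈ mx T ↔ constantCoeff f = 0 := by
  rw [Ideal.mem_span_singleton, X_dvd_iff]

theorem ZS1_ker : RingHom.ker (constantCoeff : PowerSeries T →+* T) = mx T :=
  Ideal.ext fun _ => ZS1_mx.symm

theorem ZS1_mx_ne : mx T ≠ ⊤ := fun h => by
  have h1 : (1 : PowerSeries T) ∈ mx T := h ▸ Submodule.mem_top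
  rw [ZS1_mx, map_one] at h1
  exact one_ne_zero h1

theorem push_res (j : K →+* T) :
    A.push constantCoeff (A.push (𝒟.φ j) 𝒟.s) = A.push j 𝒟.s := by
  rw [A.ax.push_comp]
  congr 1
  refine RingHom.ext fun z => ?_
  rw [φ, ← RingHom.comp_assoc, ZS1_cc_map, RingHom.comp_apply, RingHom.comp_apply, 𝒟.cc]
theorem push_emap {j : K →+* T} {j' : K →+* T'} {ψ : T →+* T'} (h : ψ.comp j = j') :
    A.push (map ψ) (A.push (𝒟.φ j) 𝒟.s) = A.push (𝒟.φ j') 𝒟.s := by
  rw [A.ax.push_comp, 𝒟.ZS1_map_φ h]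
theorem push_pmap {j : K →+* T} {j' : K →+* T'} {ψ : T →+* T'} (h : ψ.comp j = j') :
    A.push ψ (A.push j 𝒟.s) = A.push j' 𝒟.s := by
  rw [A.ax.push_comp, h]

/-- Put `ε = 0`. -/
noncomputable def res (j : K →+* T) : 𝒟.E j →+ 𝒟.P j := A.map constantCoeff (𝒟.push_res j)

/-- Functoriality. -/
noncomputable def emap {j : K →+* T} {j' : K →+* T'} (ψ : T →+* T') (h : ψ.comp j = j') :
    𝒟.E j →+ 𝒟.E j' := A.map (map ψ) (𝒟.push_emap h)

/-- Functoriality. -/
noncomputable def pmap {j : K →+* T} {j' : K →+* T'} (ψ : T →+* T') (h : ψ.comp j = j') :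
    𝒟.P j →+ 𝒟.P j' := A.map ψ (𝒟.push_pmap h)

/-- The coefficients of the logarithm. -/
noncomputable def lv (j : K →+* T) (u : 𝒟.E j) : A.τ × ℕ → T :=
  fun i => coeff i.2 (SPG.lg 𝒟.s (𝒟.φ j) u i.1)

theorem psd_φ {j : K →+* T} {d : T → T} (hd : Der d) (h0 : ∀ c, d (j c) = 0) (c : K) :
    psd d (𝒟.φ j c) = 0 := by
  ext n
  rw [psd, coeff_mk, φ, RingHom.comp_apply, coeff_map, h0, map_zero]

/-- The coefficients of the logarithmic derivative. -/
noncomputable def dv {j : K →+* T} {d : T → T} (hd : Der d) (h0 : ∀ c, d (j c) = 0) (y : 𝒟.E j) :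
    A.τ × ℕ → T := fun i => coeff i.2 (SPG.dlog rfl hd.psd (𝒟.psd_φ hd h0) y i.1)

variable {𝒟} {j : K →+* T} {j' : K →+* T'} {j'' : K →+* T''} {u u' y : 𝒟.E j}

theorem res_surj (j : K →+* T) : Function.Surjective (𝒟.res j) :=
  𝒟.lifts _ _ constantCoeff j _ (𝒟.push_res j) (fun z => ⟨C z, constantCoeff_C z⟩)
    (by rw [ZS1_ker]; infer_instance)
theorem res_eq_zero : 𝒟.res j u = 0 ↔ u ∈ K1 (mx T) _ := by
  have : IsLocalHom (constantCoeff : PowerSeries T →+* T) :=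
    ⟨fun _ ha => isUnit_iff_constantCoeff.2 ha⟩
  rw [mem_K1, ← ZS1_ker, cong_ker_iff _ (𝒟.push_res j) (𝒟.push_res j), map_zero]
  rfl
theorem res_emap (ψ : T →+* T') (h : ψ.comp j = j') (y : 𝒟.E j) :
    𝒟.res j' (𝒟.emap ψ h y) = 𝒟.pmap ψ h (𝒟.res j y) := by
  rw [res, res, emap, pmap, PG.map_map, PG.map_map]
  exact map_congr (ZS1_cc_map ψ) _ _ y
theorem emap_emap {ψ : T →+* T'} {ψ' : T' →+* T''} {χ : T →+* T''} (h : ψ.comp j = j')
    (h' : ψ'.comp j' = j'') (h'' : χ.comp j = j'') (e : ψ'.comp ψ = χ) (y : 𝒟.E j) :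
    𝒟.emap ψ' h' (𝒟.emap ψ h y) = 𝒟.emap χ h'' y := by
  rw [emap, emap, emap, PG.map_map]
  exact map_congr (by rw [← map_comp, e]) _ _ y
theorem emap_inj {ψ : T →+* T'} (hψ : Function.Injective ψ) (h : ψ.comp j = j') :
    Function.Injective (𝒟.emap ψ h) :=
  map_inj (PowerSeries.map_injective ψ hψ) _
theorem lv_zero (hu : 𝒟.res j u = 0) (a : A.τ) : 𝒟.lv j u (a, 0) = 0 :=
  (coeff_zero_eq_constantCoeff_apply _).trans
    (ZS1_mx.1 (SPG.lg_mem rfl ZS1_mx_ne (res_eq_zero.1 hu) a))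
theorem lv_add (hu : 𝒟.res j u = 0) (hu' : 𝒟.res j u' = 0) :
    𝒟.lv j (u + u') = 𝒟.lv j u + 𝒟.lv j u' := by
  funext i
  rw [lv, SPG.lg_add rfl ZS1_mx_ne (res_eq_zero.1 hu) (res_eq_zero.1 hu'), Pi.add_apply, map_add]
  rfl
theorem lv_sub (hu : 𝒟.res j u = 0) (hu' : 𝒟.res j u' = 0) :
    𝒟.lv j (u - u') = 𝒟.lv j u - 𝒟.lv j u' := by
  funext i
  rw [lv, SPG.lg_sub rfl ZS1_mx_ne (res_eq_zero.1 hu) (res_eq_zero.1 hu'), Pi.sub_apply, map_sub]
  rfl
theorem lv_nsmul (hu : 𝒟.res j u = 0) (n : ℕ) : 𝒟.lv j (n • u) = n • 𝒟.lv j u := by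
  induction n with
  | zero =>
    have := lv_sub hu hu
    rw [sub_self, sub_self] at this
    rw [zero_nsmul, zero_nsmul, this]
  | succ n ih => rw [succ_nsmul, succ_nsmul, lv_add (by rw [map_nsmul, hu, nsmul_zero]) hu, ih]
theorem lv_inj (hu : 𝒟.res j u = 0) (hu' : 𝒟.res j u' = 0) (e : 𝒟.lv j u = 𝒟.lv j u') : u = u' :=
  SPG.lg_inj rfl ZS1_mx_ne (res_eq_zero.1 hu) (res_eq_zero.1 hu')
    (funext fun a => PowerSeries.ext fun n => congrFun e (a, n))
theorem exists_lv (j : K →+* T) {v : A.τ × ℕ → T} (hv : ∀ a, v (a, 0) = 0) :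
    ∃ u, 𝒟.res j u = 0 ∧ 𝒟.lv j u = v := by
  obtain ⟨u, hu, e⟩ := SPG.exists_lg (s := 𝒟.s) (φ := 𝒟.φ j) rfl ZS1_mx_ne
    (z := fun a => PowerSeries.mk fun n => v (a, n)) fun a => ZS1_mx.2 (by
      rw [← coeff_zero_eq_constantCoeff_apply, coeff_mk, hv])
  refine ⟨u, res_eq_zero.2 hu, funext fun i => ?_⟩
  rw [lv, e, coeff_mk]
theorem lv_emap (ψ : T →+* T') (h : ψ.comp j = j') (hu : 𝒟.res j u = 0) :
    𝒟.lv j' (𝒟.emap ψ h u) = ψ ∘ 𝒟.lv j u := by
  funext i
  rw [lv, emap, SPG.lg_map rfl ZS1_mx_ne (map ψ) _ (𝒟.ZS1_map_φ h) ZS1_mx_ne (fun z hz => ZS1_mx.2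
    ((RingHom.congr_fun (ZS1_cc_map ψ) z).trans (by
      rw [RingHom.comp_apply, ZS1_mx.1 hz, map_zero]))) (res_eq_zero.1 hu), Function.comp_apply,
    coeff_map]
  rfl

end loc

end Df

end MLF
end

-- merged part: Pool.Agent.Work.MP_29d410_ag.ZS1b
section
/-!
# A deformation; complete lifts

`E j` is the group of points over `T⟦ε⟧` of the deformation, an extension of `P j = A (T)` by the vector
group with coordinates `lv`.  `S W j` consists of the points which are integral modulo `W` at every place.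
Plan.  `res_eq_zero`: `cong_ker_iff`.  The `lv` lemmas: the `lg` lemmas for the ideal `mx T`.
`S`: a point which is integral at `𝒲`, with trivial `res`, has `lv` in `𝒲`, and conversely.
`S_emap`: restrict the valuation ring.  `S_desc`: extend `𝒲` to `𝒲'` (`exists_place`), lift `res y` to
`y₁` over `𝒲` (`map_val_bij`, `res_surj`), `v = lv (y - y₁)`; with the projection `pr` of `exists_pr`,
`pr v` has entries in `𝒲' ∩ T`, and `v - pr v ∈ Wsp`.  `S_red`: given `𝒲'` in `T'`, the elements `a / b` with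
`a, b ∈ P.W`, `P.r b ≠ 0`, `P.r a / P.r b ∈ 𝒲'` form a valuation ring `𝒲''` of `T`; all rings lie in the
localisation of `P.W` at the kernel of `P.r`.  `S_inter`: the entries of `pr (lv u)` lie in all valuation
rings containing `K`, so in `K` (`Tor1_int_iff`).
-/

open PowerSeries

namespace MLF

universe u

open PG

namespace Df

variable {A : SPG.{u}} {K T T' : Type u} [Field K] [IsAlgClosed K] [CharZero K] (𝒟 : Df A K)
  [Field T] [Field T']

/-- Integral points. -/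
noncomputable def Int (j : K →+* T) (𝒲 : ValuationSubring T) (h : ∀ c, j c ∈ 𝒲) :
    AddSubgroup (𝒟.E j) := (𝒟.emap (j := vW j 𝒲 h) 𝒲.subtype rfl).range

theorem ZS1b_lv0 (j : K →+* T) : 𝒟.lv j 0 = 0 := by
  have h := lv_sub (𝒟 := 𝒟) (j := j) (map_zero _) (map_zero _)
  rwa [sub_self, sub_self] at h

theorem exists_S (W : Submodule K (A.τ × ℕ → K)) (j : K →+* T) : ∃ S : AddSubgroup (𝒟.E j),
    ∀ y, y ∈ S ↔ ∀ (𝒲 : ValuationSubring T) (h : ∀ c, j c ∈ 𝒲), ∃ u, 𝒟.res j u = 0 ∧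
      𝒟.lv j u ∈ Wsp W j ∧ y - u ∈ 𝒟.Int j 𝒲 h := by
  refine ⟨⟨⟨⟨{y | ∀ (𝒲 : ValuationSubring T) (h : ∀ c, j c ∈ 𝒲), ∃ u, 𝒟.res j u = 0 ∧
    𝒟.lv j u ∈ Wsp W j ∧ y - u ∈ 𝒟.Int j 𝒲 h}, fun {a b} ha hb 𝒲 h => ?_⟩, fun 𝒲 h => ?_⟩,
    fun {a} ha 𝒲 h => ?_⟩, fun _ => Iff.rfl⟩
  · obtain ⟨u, a1, a2, a3⟩ := ha 𝒲 h
    obtain ⟨v, b1, b2, b3⟩ := hb 𝒲 h
    refine ⟨u + v, by rw [map_add, a1, b1, add_zero], ?_, ?_⟩
    · rw [lv_add a1 b1]
      exact add_mem a2 b2
    · rw [add_sub_add_comm]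
      exact add_mem a3 b3
  · refine ⟨0, map_zero _, ?_, ?_⟩
    · rw [ZS1b_lv0]
      exact zero_mem _
    · rw [sub_self]
      exact zero_mem _
  · obtain ⟨u, a1, a2, a3⟩ := ha 𝒲 h
    refine ⟨0 - u, by rw [map_sub, a1, map_zero, sub_self], ?_, ?_⟩
    · rw [lv_sub (map_zero _) a1, ZS1b_lv0]
      exact sub_mem (zero_mem _) a2
    · rw [zero_sub, ← neg_sub']
      exact neg_mem a3

/-- Complete lifts. -/
noncomputable def S (W : Submodule K (A.τ × ℕ → K)) (j : K →+* T) : AddSubgroup (𝒟.E j) :=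
  (𝒟.exists_S W j).choose

/-- All points have complete lifts. -/
def All (W : Submodule K (A.τ × ℕ → K)) : Prop :=
  ∀ (T : Type u) [Field T] [IsAlgClosed T] (j : K →+* T) (x : 𝒟.P j), ∃ y ∈ 𝒟.S W j, 𝒟.res j y = x

theorem ZS1b_int {j : K →+* T} {𝒲 : ValuationSubring T} {h : ∀ c, j c ∈ 𝒲} {u : 𝒟.E j} :
    u ∈ 𝒟.Int j 𝒲 h ↔ ∃ e, 𝒟.emap (j := vW j 𝒲 h) (j' := j) 𝒲.subtype rfl e = u := Iff.rfl

variable {𝒟} {W W' : Submodule K (A.τ × ℕ → K)} {j : K →+* T} {j' : K →+* T'} {u y : 𝒟.E j}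

theorem mem_S : y ∈ 𝒟.S W j ↔ ∀ (𝒲 : ValuationSubring T) (h : ∀ c, j c ∈ 𝒲), ∃ u,
    𝒟.res j u = 0 ∧ 𝒟.lv j u ∈ Wsp W j ∧ y - u ∈ 𝒟.Int j 𝒲 h := (𝒟.exists_S W j).choose_spec y
theorem int_iff {𝒲 : ValuationSubring T} {h : ∀ c, j c ∈ 𝒲} (hu : 𝒟.res j u = 0) :
    u ∈ 𝒟.Int j 𝒲 h ↔ ∀ i, 𝒟.lv j u i ∈ 𝒲 := by
  rw [ZS1b_int]
  constructor
  · rintro ⟨e, rfl⟩ i
    rw [res_emap] at hu
    have h1 : 𝒟.res (vW j 𝒲 h) e = 0 :=
      PG.map_inj 𝒲.subtype_injective _ (hu.trans (map_zero _).symm)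
    rw [lv_emap _ _ h1]
    exact (𝒟.lv (vW j 𝒲 h) e i).2
  · intro H
    obtain ⟨e, h1, h2⟩ := exists_lv (𝒟 := 𝒟) (vW j 𝒲 h) (v := fun i => ⟨_, H i⟩)
      fun a => Subtype.ext (lv_zero hu a)
    refine ⟨e, lv_inj (by rw [res_emap, h1, map_zero]) hu ?_⟩
    rw [lv_emap _ _ h1, h2]
    rfl
theorem S_mono (h : W ≤ W') : 𝒟.S W j ≤ 𝒟.S W' j := fun _ hy => mem_S.2 fun 𝒲 h' =>
  (mem_S.1 hy 𝒲 h').imp fun _ a => ⟨a.1, Wsp_mono h j a.2.1, a.2.2⟩
theorem All.mono (h : 𝒟.All W) (h' : W ≤ W') : 𝒟.All W' := fun T _ _ j x =>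
  (h T j x).imp fun _ a => ⟨S_mono h' a.1, a.2⟩
theorem S_const (j : K →+* T) (e : 𝒟.E (RingHom.id K)) :
    𝒟.emap j (RingHom.comp_id j) e ∈ 𝒟.S W j := mem_S.2 fun 𝒲 h => by
  refine ⟨0, map_zero _, ?_, ?_⟩
  · rw [ZS1b_lv0]
    exact zero_mem _
  · rw [sub_zero]
    exact ⟨𝒟.emap (vW j 𝒲 h) (RingHom.comp_id _) e, emap_emap _ _ _ rfl e⟩
theorem S_of_lv (hu : 𝒟.res j u = 0) (h : 𝒟.lv j u ∈ Wsp W j) : u ∈ 𝒟.S W j :=
  mem_S.2 fun _ _ => ⟨u, hu, h, by rw [sub_self]; exact zero_mem _⟩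
theorem S_emap (ψ : T →+* T') (h : ψ.comp j = j') (hy : y ∈ 𝒟.S W j) :
    𝒟.emap ψ h y ∈ 𝒟.S W j' := mem_S.2 fun 𝒲 h' => by
  subst h
  obtain ⟨u, a1, a2, a3⟩ := mem_S.1 hy (𝒲.comap ψ) h'
  obtain ⟨e, a3⟩ := 𝒟.ZS1b_int.1 a3
  refine ⟨𝒟.emap ψ rfl u, by rw [res_emap, a1, map_zero], ?_, ?_⟩
  · rw [lv_emap _ _ a1]
    exact Wsp_map ψ rfl a2
  · let χ : 𝒲.comap ψ →+* 𝒲 := (ψ.comp (𝒲.comap ψ).subtype).codRestrict 𝒲.toSubring fun x => x.2
    refine 𝒟.ZS1b_int.2 ⟨𝒟.emap χ rfl e, ?_⟩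
    rw [← map_sub, ← a3]
    exact (emap_emap (ψ := χ) (ψ' := 𝒲.subtype) (j' := vW (ψ.comp j) 𝒲 h') (j'' := ψ.comp j)
      (χ := ψ.comp (𝒲.comap ψ).subtype) rfl rfl rfl rfl e).trans
      (emap_emap (ψ := (𝒲.comap ψ).subtype) (j' := j) (j'' := ψ.comp j) rfl rfl rfl rfl e).symm

end Df

end MLF
end

-- merged part: Pool.Agent.Work.MP_29d410_ag.ZF3
section
/-!
# Loci of formal points with constant logarithm

Plan.  `loc_fix`: let `v` be the point over `Ω⟦Y⟧` (variables `ρ`) with `lg v i = ∑ C (a i l) * Y l` (`exists_lg`).  Then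
`map (ev C w) v = u` and `map (MvPowerSeries.map τ⁻¹) v = v` (`lg_map`, `lg_inj`).  Let `g` be a form over `Ω` which
vanishes at `u`, `z` a coordinate vector of `v`, `f = g (z)`; `ev C w f = 0`, so by `ker_inv`
`ev C w (map τ⁻¹ f) = 0`, that is, `τ⁻¹ g` vanishes at `u` (`van_iff`); so it vanishes at `x`, and `g` vanishes at `τ x`.
`rat_of_stab`: if `τ` fixes `E` then `map τ` is a bijection of `X` (apply `h₁` to `τ⁻¹`), so `x - τ x + X ⊆ X`;
`mem_stab_of_subset`; the order `n` of the stabiliser kills it; `rat_of_fixed` with exponential characteristic `1`.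
`loc_shift`: `loc_vadd`; pass to the fraction field `Φ` (`loc_map`), `genLD` with `F` the image of `L`.
-/

open MvPowerSeries Pointwise

namespace MLF

universe u

open PG

variable {K L Ω : Type u} [Field K] [Field L] [Field Ω] {ρ ρ' : Type} [Finite ρ] [Finite ρ']

theorem SPG.loc_fix {A : SPG.{u}} [CharZero K] [CharZero Ω] [Fintype ρ] {s : A.Str K} {j : K →+* Ω}
    {sΩ : A.Str Ω} (h : A.push j s = sΩ) {sR : A.Str (MvPowerSeries ρ' Ω)} (hR : A.push C sΩ = sR)
    {δ₀ : Ω → Ω} (h₀ : Der δ₀) {δ : MvPowerSeries ρ' Ω → MvPowerSeries ρ' Ω} (hδ : Der δ)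
    (e : ∀ c, δ (C c) = C (δ₀ c)) {w : ρ → MvPowerSeries ρ' Ω} (hw : ∀ l, constantCoeff (w l) = 0)
    (hw' : ∀ l, δ (w l) = 0) {a : A.τ → ρ → Ω} {u : A.Pt sR} (hu : u ∈ K1 (mX ρ' Ω) sR)
    (hl : ∀ i, SPG.lg s (C.comp j) u i = ∑ l, C (a i l) * w l) (τ : Ω ≃+* Ω)
    (hτ : ∀ z, δ₀ z = 0 → τ z = z) (hj : ∀ c, τ (j c) = j c) (ha : ∀ i l, τ (a i l) = a i l)
    (e' : A.push (τ : Ω →+* Ω) sΩ = sΩ) {x : A.Pt sΩ} (hx : x ∈ loc C sΩ u) :
    A.map (τ : Ω →+* Ω) e' x ∈ loc C sΩ u := by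
  have hs : ∀ z, τ z = z → τ.symm z = z := fun z hz => by rw [τ.symm_apply_eq, hz]
  let τ' : Ω →+* Ω := τ.symm
  have hτ' : ∀ z, τ' z = τ.symm z := fun _ => rfl
  have e'' : A.push τ' sΩ = sΩ := by
    conv_lhs => rw [← e', A.ax.push_comp]
    rw [show τ'.comp (τ : Ω →+* Ω) = RingHom.id Ω from RingHom.ext fun z => by simp [hτ'],
      A.ax.push_id]
  have k₀ : A.push (C.comp j) s = A.push (C : Ω →+* MvPowerSeries ρ Ω) sΩ := push_trans h rfl
  have n₀ : mX ρ Ω ≠ ⊤ := SPG.Chart_mX_ne ρ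
  have n₁ : mX ρ' Ω ≠ ⊤ := SPG.Chart_mX_ne ρ'
  obtain ⟨v, hv, hlv⟩ := SPG.exists_lg k₀ n₀ (z := fun i => ∑ l, C (a i l) * X l) fun i =>
    Ideal.sum_mem _ fun l _ => Ideal.mul_mem_left _ _ (Ideal.subset_span ⟨l, rfl⟩)
  have tw : TN w := TN.of_cc hw
  let ψ : MvPowerSeries ρ Ω →+* MvPowerSeries ρ' Ω := ev C w
  have hψC : ψ.comp C = C := RingHom.ext fun c => tw.ev_C C c
  have e₁ : A.push ψ (A.push C sΩ) = sR := by rw [A.ax.push_comp, hψC, hR]
  have hψ : ∀ z ∈ mX ρ Ω, ψ z ∈ mX ρ' Ω := fun z hz =>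
    tw.ev_mem C (mem_mX.1 hz) fun l => mem_mX.2 (hw l)
  have E₁ : A.map ψ e₁ v = u := by
    refine SPG.lg_inj (push_trans h hR) n₁ (SPG.Chart_cong_map ψ e₁ hψ hv) hu ?_
    rw [SPG.lg_map k₀ n₀ ψ e₁ (by rw [← RingHom.comp_assoc, hψC]) n₁ hψ hv, hlv]
    funext i
    simp only [Function.comp, hl, map_sum, map_mul, ψ, tw.ev_C, tw.ev_X]
  let m : MvPowerSeries ρ Ω →+* MvPowerSeries ρ Ω := MvPowerSeries.map τ'
  have hmC : m.comp C = C.comp τ' := RingHom.ext fun c => by simp [m]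
  have e₂ : A.push m (A.push C sΩ) = A.push C sΩ := by
    rw [A.ax.push_comp, hmC, ← A.ax.push_comp, e'']
  have hm : ∀ z ∈ mX ρ Ω, m z ∈ mX ρ Ω := fun z hz => by
    rw [mem_mX] at hz ⊢
    simp [m, hz]
  have E₂ : A.map m e₂ v = v := by
    refine SPG.lg_inj k₀ n₀ (SPG.Chart_cong_map m e₂ hm hv) hv ?_
    rw [SPG.lg_map k₀ n₀ m e₂ (φ' := C.comp j) (RingHom.ext fun c => by simp [m, hτ', hs _ (hj c)])
      n₀ hm hv, hlv]
    funext i
    simp [m, hτ', hs _ (ha i _)]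
  intro g d hg hgu
  obtain ⟨z, hz⟩ := A.ax.exists_rep v
  have r₁ : A.Rep u (ψ ∘ z) := E₁ ▸ rep_map ψ e₁ hz
  have r₂ : A.Rep v (m ∘ z) := by
    have := rep_map m e₂ hz
    rwa [E₂] at this
  have r₃ : A.Rep u (ψ ∘ m ∘ z) := E₁ ▸ rep_map ψ e₁ r₂
  have f0 : ψ (MvPolynomial.eval₂ C z g) = 0 := by
    rw [MvPolynomial.eval₂_comp_left, hψC]
    exact hgu _ r₁
  have f1 : ψ (m (MvPolynomial.eval₂ C z g)) = 0 :=
    ker_inv h₀ hδ e hw hw' τ' (fun z hz => hs z (hτ z hz)) f0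
  have f2 : van C (MvPolynomial.map τ' g) u := by
    rw [van_iff (hg.map τ') r₃, MvPolynomial.eval₂_map]
    rwa [MvPolynomial.eval₂_comp_left, MvPolynomial.eval₂_comp_left, hmC, ← RingHom.comp_assoc,
      hψC] at f1
  have f3 := (van_id_map_Geo1 τ' g x).1 (hx _ d (hg.map τ') f2)
  have f4 := van_map_Geo1 (τ : Ω →+* Ω) e' hg f3
  rwa [show (τ : Ω →+* Ω).comp τ' = RingHom.id Ω from RingHom.ext fun z => by simp [hτ']] at f4

theorem PG.rat_of_stab {A : PG.{u}} [IsAlgClosed Ω] [CharZero Ω] {s : A.Str Ω} {E : Subfield Ω}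
    (hE : A.Def E s) {X : Set (A.Pt s)} (hX : Cl X) (hS : (Stab X : Set (A.Pt s)).Finite)
    {x : A.Pt s} (h₁ : ∀ (τ : Ω ≃+* Ω) (_ : ∀ c ∈ E, τ c = c) (e : A.push (τ : Ω →+* Ω) s = s),
      ∀ y ∈ X, A.map (τ : Ω →+* Ω) e y ∈ X)
    (h₂ : ∀ (τ : Ω ≃+* Ω) (_ : ∀ c ∈ E, τ c = c) (e : A.push (τ : Ω →+* Ω) s = s),
      ∀ y ∈ -x +ᵥ X, A.map (τ : Ω →+* Ω) e y ∈ -x +ᵥ X) : ∃ n : ℕ, n ≠ 0 ∧ Rat E (n • x) := by
  have : Finite (Stab X) := hS
  have : ExpChar Ω 1 := ExpChar.zero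
  refine ⟨Nat.card (Stab X), Nat.card_pos.ne', ?_⟩
  obtain ⟨m, hm⟩ := rat_of_fixed 1 (x := Nat.card (Stab X) • x) hE fun τ hτ e => by
    have hτ' : ∀ c ∈ E, τ.symm c = c := fun c hc => by rw [τ.symm_apply_eq, hτ c hc]
    have e' : A.push (τ.symm : Ω →+* Ω) s = s :=
      (hE.push_eq (φ' := RingHom.id Ω) hτ').trans (A.ax.push_id s)
    have hb : x - A.map (τ : Ω →+* Ω) e x ∈ Stab X := Geo5_stab hX fun y hy => by
      have h3 := h₂ τ hτ e (-x + A.map (τ.symm : Ω →+* Ω) e' y) ⟨_, h₁ τ.symm hτ' e' y hy, rfl⟩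
      rw [Geo5_vadd, map_add, map_neg, map_map,
        map_id' (φ := (τ : Ω →+* Ω).comp (τ.symm : Ω →+* Ω)) (by simp)] at h3
      convert h3 using 1
      abel
    have h4 : Nat.card (Stab X) • (⟨_, hb⟩ : Stab X) = 0 := card_nsmul_eq_zero'
    have h5 : Nat.card (Stab X) • (x - A.map (τ : Ω →+* Ω) e x) = 0 := congrArg Subtype.val h4
    rw [smul_sub, sub_eq_zero] at h5
    rw [map_nsmul, ← h5]
  intro z hz
  have := (mem_root 1).1 (hm hz)
  simpa using this

theorem PG.loc_shift {A : PG.{u}} [IsAlgClosed K] [IsAlgClosed Ω] {s : A.Str K} {j : K →+* L}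
    {ψ : L →+* Ω} {χ : L →+* MvPowerSeries ρ Ω} (hχ : χ.comp j = C.comp (ψ.comp j))
    (hLD : ∀ (Φ : Type u) [Field Φ] (ι : MvPowerSeries ρ Ω →+* Φ), Function.Injective ι →
      LD ((ι.comp C).comp (ψ.comp j)).fieldRange (ι.comp C).fieldRange (ι.comp χ).fieldRange)
    {sL : A.Str L} {sΩ : A.Str Ω} {sR : A.Str (MvPowerSeries ρ Ω)} (h : A.push j s = sL)
    (h₁ : A.push ψ sL = sΩ) (h₂ : A.push C sΩ = sR) (h₃ : A.push χ sL = sR) (x : A.Pt sL) :
    loc C sΩ (A.map χ h₃ x - A.map C h₂ (A.map ψ h₁ x)) =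
      -A.map ψ h₁ x +ᵥ ext (ψ.comp j) sΩ (loc j s x) := by
  have : IsDomain (MvPowerSeries ρ Ω) := NoZeroDivisors.to_isDomain _
  rw [sub_eq_neg_add, ← map_neg, loc_vadd h₂]
  congr 1
  let Φ := FractionRing (MvPowerSeries ρ Ω)
  let ι : MvPowerSeries ρ Ω →+* Φ := algebraMap _ _
  have hι : Function.Injective ι := IsFractionRing.injective _ _
  have e : (ι.comp C).comp (ψ.comp j) = (ι.comp χ).comp j := by
    rw [RingHom.comp_assoc, RingHom.comp_assoc, hχ]
  rw [← loc_map hι rfl, map_map,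
    genLD (ψ.comp j) (ι.comp C) (push_trans h h₁) (push_trans h₂ rfl)
      (F := (ι.comp χ).fieldRange) (by rw [e]; rintro _ ⟨c, rfl⟩; exact ⟨j c, rfl⟩)
      ((rat_range_iff _ _).2 ⟨x, rfl⟩) (hLD Φ ι hι), e, loc_map (ι.comp χ).injective]

end MLF
end
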