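import Pool.Agent.Work.MP_29d410_ag.ZS4c
import Pool.Agent.Work.MP_29d410_ag.FL3
import Pool.Agent.Work.MP_29d410_ag.ZF3

-- merged part: Pool.Agent.Work.MP_29d410_ag.ZS5
section
/-!
# A generic point whose Taylor expansion is a complete lift

Plan.  `exists_ult`: `GermPS` induces `gps : UP 𝒰 T⟦ε⟧ →+* (UP 𝒰 T)⟦ε⟧`; `ult y = map gps (gpt y)`.  For `lv` use
`c_gpt`, `c_map` and `TN.map_ev` in the ring `(I → T)⟦ε⟧` (see `CaseU2_ev`), or `Ev2_ev_trunc`.
`ult_mem`: the classes of the `f` with `f i ∈ (Q i).W` for most `i` form a valuation ring of `UP 𝒰 T`, with a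
homomorphism to `UP 𝒰 K`, that is a place `Q`; the vectors of the points `y' i` define a point over `Q.W`, whose
image in `UP 𝒰 T` is `emap gc y - ult u ∈ S` (`S_emap`, `S_of_lv`, `exists_pr`) and whose reduction is
`ult e`; `S_red`.
`exists_gen`: `exists_all`, `exists_sec`; enlarge `W` by the vectors `lv (D b - g b)` for `b` in the finite set of
`FR Λ`, `g b ∈ G` over `b`; then `lv (D x - g) ∈ W` for `x ∈ Λ`, `g ∈ G` over `x` (`lv_nsmul`).  `exists_ultra`,
`Der.exists_up`; the Taylor expansion of `gpt id` is `ult (fun x => D x) = ult (g + e₀) - e₀ + ult (D x - g)`.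
`exists_gen'`: `L₀ = acl K(rat x, finitely many entries of lv)` contains the coefficients of normalised
coordinates of `y = y₀ + u₁ + u₂` (`All` over `acl K(rat x)`, `S_inter`, `exists_pr`); these are the
`δ^n v / n!`; `L = acl K(δ^n v)` is stable under `δ` (`Der.mem_acl`); `S_desc`, `Der.map_taylor`.
-/

namespace MLF

universe u

open PG

theorem ZS5_liftS {A B C : Type*} [CommRing A] [CommRing B] [CommRing C] (f : A →+* B)
    (hf : Function.Surjective f) (g : A →+* C) (h : ∀ a, f a = 0 → g a = 0) :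
    ∃ θ : B →+* C, ∀ a, θ (f a) = g a :=
  ⟨f.liftOfSurjective hf ⟨g, h⟩, fun a => f.liftOfRightInverse_comp_apply _ _ _ a⟩

theorem ZS5_gps {T I : Type u} [CommRing T] (𝒰 : Ultrafilter I) :
    ∃ θ : UP 𝒰 (PowerSeries T) →+* PowerSeries (UP 𝒰 T), ∀ f, θ (gm 𝒰 f) = GermPS 𝒰 f := by
  have h : Function.Surjective (GermH (T := PowerSeries T) 𝒰) := Germ_surj 𝒰
  refine ZS5_liftS (GermH (T := PowerSeries T) 𝒰) h (GermPS 𝒰) fun f hf => ?_
  refine PowerSeries.ext fun n => ?_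
  rw [GermPS_coeff, map_zero]
  exact (Germ_zero 𝒰).2 (((Germ_zero 𝒰).1 hf).mono fun i hi => by rw [hi, map_zero])

theorem ZS5_congr {T I : Type u} [CommRing T] (𝒰 : Ultrafilter I) {f g : I → PowerSeries T}
    (h : ∀ᶠ i in (𝒰 : Filter I), f i = g i) : GermPS 𝒰 f = GermPS 𝒰 g := by
  refine PowerSeries.ext fun n => ?_
  rw [GermPS_coeff, GermPS_coeff]
  exact (Germ_eq 𝒰).2 (h.mono fun i hi => by rw [hi])

theorem ZS5_cc {T I : Type u} [CommRing T] (𝒰 : Ultrafilter I) {f : I → PowerSeries T}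
    (h : ∀ᶠ i in (𝒰 : Filter I), PowerSeries.constantCoeff (f i) = 0) :
    PowerSeries.constantCoeff (GermPS 𝒰 f) = 0 := by
  rw [← PowerSeries.coeff_zero_eq_constantCoeff_apply, GermPS_coeff]
  exact (Germ_zero 𝒰).2 (h.mono fun i hi => by
    rw [PowerSeries.coeff_zero_eq_constantCoeff_apply, hi])

theorem ZS5_mem_mx {T : Type u} [CommRing T] {f : PowerSeries T} :
    f ∈ mx T ↔ PowerSeries.constantCoeff f = 0 :=
  Ideal.mem_span_singleton.trans PowerSeries.X_dvd_iff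

theorem ZS5_ne_top {T : Type u} [CommRing T] [Nontrivial T] : mx T ≠ ⊤ := fun h => by
  have h1 : (1 : PowerSeries T) ∈ mx T := h ▸ Submodule.mem_top
  rw [ZS5_mem_mx, map_one] at h1
  exact one_ne_zero h1

theorem ZS5_map {S R R' : Type u} [CommRing S] [CommRing R] [CommRing R'] {τ : Type} [Finite τ]
    {z : τ → R} (hz : TN z) (ψ : R →+* R') {y : τ → R'} (hy : TN y) (e : ∀ a, ψ (z a) = y a)
    {χ : S →+* R} {χ' : S →+* R'} (c : ∀ s, ψ (χ s) = χ' s) (f : MvPowerSeries τ S) :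
    ψ (ev χ z f) = ev χ' y f := by
  obtain rfl : ψ ∘ z = y := funext e
  obtain rfl : ψ.comp χ = χ' := RingHom.ext c
  exact hz.map_ev ψ hy χ f

theorem ZS5_ev₀ {S T I : Type u} [CommRing S] [CommRing T] (𝒰 : Ultrafilter I) {τ : Type} [Finite τ]
    (φ : S →+* PowerSeries T) (x : I → τ → PowerSeries T)
    (h : ∀ i a, PowerSeries.constantCoeff (x i a) = 0) (f : MvPowerSeries τ S) :
    ev ((PowerSeries.map (gc 𝒰 T)).comp φ) (fun a => GermPS 𝒰 fun i => x i a) f =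
      GermPS 𝒰 fun i => ev φ (x i) f := by
  obtain ⟨z, hzc⟩ : ∃ z : τ → PowerSeries (I → T),
      ∀ a n, PowerSeries.coeff n (z a) = fun i => PowerSeries.coeff n (x i a) :=
    ⟨fun a => PowerSeries.mk fun n i => PowerSeries.coeff n (x i a),
      fun a n => PowerSeries.coeff_mk _ _⟩
  obtain ⟨χ, hχ⟩ : ∃ χ : S →+* PowerSeries (I → T),
      ∀ s n, PowerSeries.coeff n (χ s) = fun _ => PowerSeries.coeff n (φ s) :=
    ⟨(PowerSeries.map (Pi.constRingHom I T)).comp φ, fun s n => by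
      rw [RingHom.comp_apply, PowerSeries.coeff_map]
      rfl⟩
  have hz : TN z := TN.of_cc₁ fun a => by
    rw [← PowerSeries.coeff_zero_eq_constantCoeff_apply, hzc]
    funext i
    rw [PowerSeries.coeff_zero_eq_constantCoeff_apply, h]
    rfl
  have h1 := ZS5_map hz (PowerSeries.map (GermH 𝒰)) (y := fun a => GermPS 𝒰 fun i => x i a)
    (TN.of_cc₁ fun a => ZS5_cc 𝒰 (Filter.Eventually.of_forall fun i => h i a))
    (fun a => PowerSeries.ext fun n => by
      rw [PowerSeries.coeff_map, hzc, GermPS_coeff]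
      rfl)
    (χ := χ) (χ' := (PowerSeries.map (gc 𝒰 T)).comp φ)
    (fun s => PowerSeries.ext fun n => by
      rw [PowerSeries.coeff_map, hχ, RingHom.comp_apply, PowerSeries.coeff_map, Germ_gc]
      rfl) f
  have h2 : ∀ i, PowerSeries.map (Pi.evalRingHom (fun _ => T) i) (ev χ z f) = ev φ (x i) f :=
    fun i => ZS5_map hz _ (TN.of_cc₁ (h i))
      (fun a => PowerSeries.ext fun n => by
        rw [PowerSeries.coeff_map, hzc]
        rfl)
      (fun s => PowerSeries.ext fun n => by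
        rw [PowerSeries.coeff_map, hχ]
        rfl) f
  rw [← h1]
  refine PowerSeries.ext fun n => ?_
  rw [PowerSeries.coeff_map, GermPS_coeff]
  simp only [← h2, PowerSeries.coeff_map]
  rfl

theorem ZS5_ev {S T I : Type u} [CommRing S] [CommRing T] (𝒰 : Ultrafilter I) {τ : Type} [Finite τ]
    (φ : S →+* PowerSeries T) (x : I → τ → PowerSeries T)
    (h : ∀ᶠ i in (𝒰 : Filter I), ∀ a, PowerSeries.constantCoeff (x i a) = 0)
    (f : MvPowerSeries τ S) :
    ev ((PowerSeries.map (gc 𝒰 T)).comp φ) (fun a => GermPS 𝒰 fun i => x i a) f =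
      GermPS 𝒰 fun i => ev φ (x i) f := by
  classical
  let x' : I → τ → PowerSeries T := fun i =>
    if ∀ a, PowerSeries.constantCoeff (x i a) = 0 then x i else 0
  have e : ∀ᶠ i in (𝒰 : Filter I), x i = x' i := h.mono fun i hi => (if_pos hi).symm
  have h' : ∀ i a, PowerSeries.constantCoeff (x' i a) = 0 := by
    intro i a
    by_cases hi : ∀ a, PowerSeries.constantCoeff (x i a) = 0
    · simp only [x', if_pos hi, hi a]
    · simp only [x', if_neg hi, Pi.zero_apply, map_zero]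
  have e1 : (fun a => GermPS 𝒰 fun i => x i a) = fun a => GermPS 𝒰 fun i => x' i a :=
    funext fun a => ZS5_congr 𝒰 (e.mono fun i hi => by rw [hi])
  rw [e1, ZS5_ev₀ 𝒰 φ x' h' f]
  exact ZS5_congr 𝒰 (e.mono fun i hi => by rw [hi])

namespace Df

variable {A : SPG.{u}} {K T : Type u} [Field K] [IsAlgClosed K] [CharZero K] [Field T] {𝒟 : Df A K}
  {W : Submodule K (A.τ × ℕ → K)} {I : Type u} (𝒰 : Ultrafilter I)

theorem exists_ult (j : K →+* T) {j' : K →+* UP 𝒰 T} (h : (gc 𝒰 T).comp j = j') :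
    ∃ Ψ : (I → 𝒟.E j) →+ 𝒟.E j',
      (∀ (y : I → 𝒟.E j) (v : I → A.σ → PowerSeries T), (∀ᶠ i in (𝒰 : Filter I), A.Rep (y i) (v i)) →
        A.Rep (Ψ y) fun a => GermPS 𝒰 fun i => v i a) ∧
      (∀ y, Ψ (fun _ => y) = 𝒟.emap (gc 𝒰 T) h y) ∧
      ∀ u, (∀ᶠ i in (𝒰 : Filter I), 𝒟.res j (u i) = 0) → 𝒟.res j' (Ψ u) = 0 ∧
        𝒟.lv j' (Ψ u) = fun a => gm 𝒰 fun i => 𝒟.lv j (u i) a := by
  obtain ⟨θ, hθ⟩ := ZS5_gps (T := T) 𝒰
  have hc : θ.comp (gc 𝒰 (PowerSeries T)) = PowerSeries.map (gc 𝒰 T) :=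
    RingHom.ext fun c => PowerSeries.ext fun n => by
      rw [RingHom.comp_apply, Germ_gc, hθ, GermPS_coeff, PowerSeries.coeff_map, Germ_gc]
  have hp : A.push θ (A.push (gc 𝒰 (PowerSeries T)) (A.push (𝒟.φ j) 𝒟.s)) =
      A.push (𝒟.φ j') 𝒟.s := by
    rw [A.ax.push_comp, hc]
    exact 𝒟.push_emap h
  have hrep : ∀ (y : I → 𝒟.E j) (v : I → A.σ → PowerSeries T),
      (∀ᶠ i in (𝒰 : Filter I), A.Rep (y i) (v i)) →
        A.Rep (A.map θ hp (gpt 𝒰 y)) fun a => GermPS 𝒰 fun i => v i a := by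
    intro y v hv
    have h1 := rep_map θ hp (rep_gpt 𝒰 hv)
    have e : (θ ∘ fun a => gm 𝒰 fun i => v i a) = fun a => GermPS 𝒰 fun i => v i a :=
      funext fun a => hθ _
    rwa [e] at h1
  refine ⟨(A.map θ hp).comp (GermPt 𝒰), hrep, fun y => ?_, fun u hu => ?_⟩
  · change A.map θ hp (gpt 𝒰 fun _ => y) = _
    rw [gpt_const, map_map]
    exact map_congr hc _ _ y
  · have hu' : ∀ᶠ i in (𝒰 : Filter I), Cong (mx T) (u i) (0 : 𝒟.E j) :=
      hu.mono fun i hi => mem_K1.1 (res_eq_zero.1 hi)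
    have h0 : A.map θ hp (gpt 𝒰 fun _ => (0 : 𝒟.E j)) = 0 :=
      map_zero ((A.map θ hp).comp (GermPt 𝒰))
    have h1 : Cong (mx (UP 𝒰 T)) (A.map θ hp (gpt 𝒰 u)) (0 : 𝒟.E j') := by
      have h2 : ∀ᶠ i in (𝒰 : Filter I), ∃ q : (A.σ → PowerSeries T) × (A.σ → PowerSeries T),
          A.Rep (u i) q.1 ∧ A.Rep (0 : 𝒟.E j) q.2 ∧ ∀ a, q.1 a - q.2 a ∈ mx T :=
        hu'.mono fun i ⟨v, w, hv⟩ => ⟨(v, w), hv⟩
      obtain ⟨q, hq⟩ := h2.choice
      refine ⟨_, _, hrep u (fun i => (q i).1) (hq.mono fun i hi => hi.1),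
        h0 ▸ hrep (fun _ => 0) (fun i => (q i).2) (hq.mono fun i hi => hi.2.1), fun a => ?_⟩
      rw [← map_sub, ZS5_mem_mx]
      exact ZS5_cc 𝒰 (hq.mono fun i hi => ZS5_mem_mx.1 (hi.2.2 a))
    refine ⟨res_eq_zero.2 (mem_K1.2 h1), funext fun a => ?_⟩
    have hm : ∀ᶠ i in (𝒰 : Filter I),
        Cong (IsLocalRing.maximalIdeal (PowerSeries T)) (u i) (0 : 𝒟.E j) :=
      hu'.mono fun i hi => hi.mono (IsLocalRing.le_maximalIdeal ZS5_ne_top)
    have h3 : Cong (IsLocalRing.maximalIdeal _) (gpt 𝒰 u)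
        (0 : A.Pt (A.push (gc 𝒰 (PowerSeries T)) (A.push (𝒟.φ j) 𝒟.s))) := by
      have h4 := (gpt_cong 𝒰 (y := fun _ => (0 : 𝒟.E j))).2 hm
      have h5 : gpt 𝒰 (fun _ => (0 : 𝒟.E j)) = 0 := map_zero (GermPt 𝒰)
      rwa [h5] at h4
    have h6 : A.c (A.map θ hp (gpt 𝒰 u)) = fun b => GermPS 𝒰 fun i => A.c (u i) b := by
      rw [SPG.c_map θ hp h3 (h1.mono (IsLocalRing.le_maximalIdeal ZS5_ne_top))]
      funext b
      rw [Function.comp_apply, SPG.c_gpt 𝒰 hm, hθ]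
    have h7 : 𝒟.φ j' = (PowerSeries.map (gc 𝒰 T)).comp (𝒟.φ j) := by
      rw [← h, φ, φ, PowerSeries.map_comp, RingHom.comp_assoc]
    change PowerSeries.coeff a.2 (ev (𝒟.φ j') (A.c (A.map θ hp (gpt 𝒰 u))) (SPG.Lg 𝒟.s a.1)) = _
    rw [h6, h7, ZS5_ev 𝒰 _ _
      (hu'.mono fun i hi b => ZS5_mem_mx.1 (SPG.c_mem ZS5_ne_top hi b)), GermPS_coeff]
    rfl

theorem push_taylor {δ : K → K} (hδ : Der δ) (hD : 𝒟.D = hδ.taylor) [CharZero T] {j : K →+* T}
    {d : T → T} (hd : Der d) (e : ∀ z, d (j z) = j (δ z)) :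
    A.push hd.taylor (A.push j 𝒟.s) = A.push (𝒟.φ j) 𝒟.s := by
  rw [A.ax.push_comp, hδ.map_taylor hd j e, φ, hD]

end Df

end MLF
end

-- merged part: Pool.Agent.Work.MP_29d410_ag.ZF4
section
-- merged part: Pool.Agent.Work.MP_29d410_ag.ZS3
section
/-!
# Logarithmic derivatives of complete lifts

Plan.  `dv_zero`: `dlog_map` for `constantCoeff`.  `dv_mem`: `d` kills `rat (res y)` (`dlog_eq_zero_iff`), so the
algebraically closed subfield `T₀ = acl (adj j.fieldRange (rat (res y)))` (`eq_on_acl`).  Let `y₀` be a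
complete lift over `T₀`; `dv (emap y₀) = 0` (`dlog_map` with the zero derivation); for `u = y - emap y₀` use
`S_inter`, `dlog_lg`, `Wsp_der`.
`exists_N`: let `u₀` over `K⟦Y⟧` be the point with `lg u₀ = Y`, `Φ` an algebraic closure of the fraction field,
`d a` an extension of `pderiv a`, so that `dlog (d a) u₀` is the `a`-th basis vector; `y₀` a complete lift,
`γ a = dv (d a) y₀`.  Given `(T, d, y)` take an amalgam `Ω` of `T` and `Φ` over `K` (`exists_amalg`), the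
derivations `δ₁` (extending `d` and `0`), `δ₂ a` (extending `0` and `d a`) (`IsDer.amalg`) and
`δ = δ₁ - ∑ b a * δ₂ a` with `b = dlog d (res y)`.  By `dv_mem` for `y + y₀`, `dv y - ∑ b a • γ a ∈ Wsp W`.  For
`(T, d, y) = (Φ, d a, y₀)` this shows that `pr (γ a)` has entries in `K` (`exists_pr`, `LD.inf`).
`N` is spanned by `W` and these vectors; `Wsp_desc`.
-/

namespace MLF

universe u

open PG

namespace Df

variable {A : SPG.{u}} {K T : Type u} [Field K] [IsAlgClosed K] [CharZero K] [Field T] {𝒟 : Df A K}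
  {W : Submodule K (A.τ × ℕ → K)} {j : K →+* T} {d : T → T}

theorem dv_zero (hd : Der d) (h0 : ∀ c, d (j c) = 0) (y : 𝒟.E j) (a : A.τ) :
    𝒟.dv hd h0 y (a, 0) = SPG.dlog rfl hd h0 (𝒟.res j y) a := by
  have e := SPG.dlog_map rfl hd.psd (𝒟.psd_φ hd h0) rfl hd h0 PowerSeries.constantCoeff (𝒟.push_res j)
    (fun z => by
      rw [← PowerSeries.coeff_zero_eq_constantCoeff_apply,
        ← PowerSeries.coeff_zero_eq_constantCoeff_apply, psd, PowerSeries.coeff_mk]) y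
  have e' := congrFun e a
  rw [Function.comp_apply, ← PowerSeries.coeff_zero_eq_constantCoeff_apply] at e'
  exact e'.symm

/-- The logarithmic derivative of a point defined over the constants vanishes. -/
theorem ZS3_const {T₀ : Type u} [Field T₀] {j₀ : K →+* T₀} (ψ : T₀ →+* T) (e : ψ.comp j₀ = j)
    (hd : Der d) (h0 : ∀ c, d (j c) = 0) (hψ : ∀ z, d (ψ z) = 0) (y : 𝒟.E j₀) :
    SPG.dlog rfl hd.psd (𝒟.psd_φ hd h0) (𝒟.emap ψ e y) = 0 := by
  have hz : Der (fun _ : PowerSeries T₀ => (0 : PowerSeries T₀)) := IsDer.zero _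
  have e1 := SPG.dlog_map (φ := 𝒟.φ j₀) rfl hz (fun _ => rfl) rfl hd.psd (𝒟.psd_φ hd h0)
    (PowerSeries.map ψ) (𝒟.push_emap e) (fun z => by
      ext n
      rw [psd, PowerSeries.coeff_mk, PowerSeries.coeff_map, hψ, map_zero, map_zero]) y
  obtain ⟨v, i, hv, hi⟩ := exists_rep_one y
  have e2 := (SPG.dlog_eq_zero_iff (φ := 𝒟.φ j₀) rfl hz (fun _ => rfl) hv hi).2 fun _ => rfl
  rw [e2] at e1
  refine e1.trans ?_
  funext a
  exact map_zero _

/-- The logarithmic derivative of a point of the formal group. -/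
theorem ZS3_lv (hd : Der d) (h0 : ∀ c, d (j c) = 0) {u : 𝒟.E j} (hu : 𝒟.res j u = 0) :
    𝒟.dv hd h0 u = d ∘ 𝒟.lv j u := by
  have e := SPG.dlog_lg rfl hd.psd (𝒟.psd_φ hd h0) (𝔞 := mx T) ZS1_mx_ne (res_eq_zero.1 hu)
  funext i
  rw [dv, e, Function.comp_apply, Function.comp_apply, psd, PowerSeries.coeff_mk]
  rfl

theorem dv_mem [IsAlgClosed T] (hW : Fin0 W) (hA : 𝒟.All W) (hd : Der d) (h0 : ∀ c, d (j c) = 0)
    {y : 𝒟.E j} (hy : y ∈ 𝒟.S W j) (h : SPG.dlog rfl hd h0 (𝒟.res j y) = 0) :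
    𝒟.dv hd h0 y ∈ Wsp W j := by
  have : CharZero T := (RingHom.charZero_iff j.injective).1 inferInstance
  obtain ⟨j₀, e⟩ : ∃ j₀ : K →+* hd.cst, hd.cst.subtype.comp j₀ = j :=
    ⟨j.codRestrict hd.cst fun c => hd.mem_cst.2 (h0 c), rfl⟩
  obtain ⟨v, i, hv, hi⟩ := exists_rep_one (𝒟.res j y)
  have hr : Rat hd.cst (𝒟.res j y) := rat_iff.2 ⟨v, hv, fun l =>
    hd.mem_cst.2 ((SPG.dlog_eq_zero_iff rfl hd h0 hv hi).1 h l)⟩
  obtain ⟨x₀, hx₀⟩ := (rat_subtype_iff (𝒟.push_pmap e)).1 hr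
  obtain ⟨y₀, hy₀, hy₀'⟩ := hA hd.cst j₀ x₀
  have h1 : 𝒟.res j (y - 𝒟.emap hd.cst.subtype e y₀) = 0 := by
    rw [map_sub, res_emap, hy₀']
    exact sub_eq_zero.2 hx₀.symm
  obtain ⟨m, -, hm⟩ := S_inter hW h1 (sub_mem hy (S_emap _ e hy₀))
  have h2 : 𝒟.dv hd h0 (y - 𝒟.emap hd.cst.subtype e y₀) = 𝒟.dv hd h0 y := by
    funext l
    rw [dv, SPG.dlog_sub, ZS3_const hd.cst.subtype e hd h0 (fun z => hd.mem_cst.1 z.2), sub_zero, dv]
  rw [← h2, ZS3_lv hd h0 h1]
  convert Wsp_der hd h0 hm using 1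
  funext l
  simp only [Function.comp_apply, Pi.sub_apply]
  rw [hd.map_sub, h0, sub_zero]

end Df

end MLF
end

-- merged part: Pool.Agent.Work.MP_29d410_ag.ZS3b
section
/-!
# Logarithmic derivatives of complete lifts

Plan.  `dv_zero`: `dlog_map` for `constantCoeff`.  `dv_mem`: `d` kills `rat (res y)` (`dlog_eq_zero_iff`), so the
algebraically closed subfield `T₀ = acl (adj j.fieldRange (rat (res y)))` (`eq_on_acl`).  Let `y₀` be a
complete lift over `T₀`; `dv (emap y₀) = 0` (`dlog_map` with the zero derivation); for `u = y - emap y₀` use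
`S_inter`, `dlog_lg`, `Wsp_der`.
`exists_N`: let `u₀` over `K⟦Y⟧` be the point with `lg u₀ = Y`, `Φ` an algebraic closure of the fraction field,
`d a` an extension of `pderiv a`, so that `dlog (d a) u₀` is the `a`-th basis vector; `y₀` a complete lift,
`γ a = dv (d a) y₀`.  Given `(T, d, y)` take an amalgam `Ω` of `T` and `Φ` over `K` (`exists_amalg`), the
derivations `δ₁` (extending `d` and `0`), `δ₂ a` (extending `0` and `d a`) (`IsDer.amalg`) and
`δ = δ₁ - ∑ b a * δ₂ a` with `b = dlog d (res y)`.  By `dv_mem` for `y + y₀`, `dv y - ∑ b a • γ a ∈ Wsp W`.  For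
`(T, d, y) = (Φ, d a, y₀)` this shows that `pr (γ a)` has entries in `K` (`exists_pr`, `LD.inf`).
`N` is spanned by `W` and these vectors; `Wsp_desc`.
-/

namespace MLF

universe u

open PG

namespace Df

variable {A : SPG.{u}} {K T : Type u} [Field K] [IsAlgClosed K] [CharZero K] [Field T] {𝒟 : Df A K}
  {W : Submodule K (A.τ × ℕ → K)} {j : K →+* T} {d : T → T}

theorem ZS3b_add (hd : Der d) (h0 : ∀ c, d (j c) = 0) (y y' : 𝒟.E j) :
    𝒟.dv hd h0 (y + y') = 𝒟.dv hd h0 y + 𝒟.dv hd h0 y' := by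
  funext i
  simp only [dv, SPG.dlog_add, Pi.add_apply, map_add]

theorem ZS3b_map {T' : Type u} [Field T'] {j' : K →+* T'} {d' : T' → T'} (hd : Der d)
    (h0 : ∀ c, d (j c) = 0) (hd' : Der d') (h0' : ∀ c, d' (j' c) = 0) (ψ : T →+* T')
    (h : ψ.comp j = j') (e : ∀ z, d' (ψ z) = ψ (d z)) (y : 𝒟.E j) :
    𝒟.dv hd' h0' (𝒟.emap ψ h y) = ψ ∘ 𝒟.dv hd h0 y := by
  funext i
  have h1 := SPG.dlog_map (s := 𝒟.s) rfl hd.psd (𝒟.psd_φ hd h0) rfl hd'.psd (𝒟.psd_φ hd' h0')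
    (PowerSeries.map ψ) (𝒟.push_emap h) (fun f => by
      ext n
      simp only [psd, PowerSeries.coeff_mk, PowerSeries.coeff_map, e]) y
  have h2 := congrArg (fun v => PowerSeries.coeff i.2 (v i.1)) h1
  simp only [Function.comp_apply, PowerSeries.coeff_map] at h2
  exact h2

theorem ZS3b_lin {ι : Type} [Fintype ι] (hd : Der d) (h0 : ∀ c, d (j c) = 0) {dd : ι → T → T}
    (hdd : ∀ k, Der (dd k)) (hdd0 : ∀ k c, dd k (j c) = 0) (a : ι → T)
    (e : ∀ z, d z = ∑ k, a k * dd k z) (y : 𝒟.E j) :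
    𝒟.dv hd h0 y = ∑ k, a k • 𝒟.dv (hdd k) (hdd0 k) y := by
  funext i
  have h1 := SPG.dlog_lin (s := 𝒟.s) rfl hd.psd (𝒟.psd_φ hd h0) (fun k => (hdd k).psd)
    (fun k => 𝒟.psd_φ (hdd k) (hdd0 k)) (fun k => PowerSeries.C (a k)) (fun f => by
      ext n
      simp only [psd, PowerSeries.coeff_mk, map_sum, PowerSeries.coeff_C_mul, e]) y
  have h2 := congrArg (fun v => PowerSeries.coeff i.2 (v i.1)) h1
  simp only [Finset.sum_apply, Pi.smul_apply, smul_eq_mul, map_sum, PowerSeries.coeff_C_mul] at h2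
  simp only [Finset.sum_apply, Pi.smul_apply, smul_eq_mul]
  exact h2

theorem ZS3b_kill {T' : Type u} [Field T'] {j' : K →+* T'} {d' : T' → T'} (hd' : Der d')
    (h0' : ∀ c, d' (j' c) = 0) (ψ : T →+* T') (h : ψ.comp j = j') (e : ∀ z, d' (ψ z) = 0)
    (y : 𝒟.E j) : 𝒟.dv hd' h0' (𝒟.emap ψ h y) = 0 := by
  have hz : Der fun _ : T => (0 : T) := IsDer.zero _
  rw [ZS3b_map hz (fun _ => rfl) hd' h0' ψ h (fun z => by rw [e, map_zero]) y,
    ZS3b_lin (ι := Empty) hz (fun _ => rfl) (dd := fun _ _ => 0) (fun _ => hz) (fun _ _ => rfl)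
      (fun _ => 0) (fun _ => by simp) y]
  funext i
  simp

open Classical in
/-- A complete lift of a point whose logarithmic derivatives are the basis vectors. -/
theorem ZS3b_gen (hA : 𝒟.All W) : ∃ (Φ : Type u) (_ : Field Φ) (j₀ : K →+* Φ)
    (dd : A.τ → Φ → Φ) (hdd : ∀ a, Der (dd a)) (hdd0 : ∀ a c, dd a (j₀ c) = 0),
      ∃ y₀ ∈ 𝒟.S W j₀, ∀ a a', 𝒟.dv (hdd a) (hdd0 a) y₀ (a', 0) = if a' = a then 1 else 0 := by
  let R := MvPowerSeries A.τ K
  let Φ := AlgebraicClosure (FractionRing R)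
  let ι : R →+* Φ := (algebraMap (FractionRing R) Φ).comp (algebraMap R _)
  have hι : Function.Injective ι :=
    (algebraMap (FractionRing R) Φ).injective.comp (IsFractionRing.injective R _)
  let jR : K →+* R := MvPowerSeries.C
  have : CharZero Φ := charZero_of_injective_ringHom (ι.comp jR).injective
  have hne : mX A.τ K ≠ ⊤ := fun h => by
    have h1 : (1 : R) ∈ mX A.τ K := h ▸ Submodule.mem_top
    rw [mem_mX, map_one] at h1
    exact one_ne_zero h1
  obtain ⟨u₀, hu₀, hl⟩ := SPG.exists_lg (s := 𝒟.s) (φ := jR) rfl hne (z := MvPowerSeries.X)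
    fun i => Ideal.subset_span ⟨i, rfl⟩
  have hp0 : ∀ a c, MvPowerSeries.pderiv K a (jR c) = 0 := fun a c => MvPowerSeries.pderiv_C
  have hex : ∀ a, ∃ δ : Φ → Φ, Der δ ∧ ∀ z, δ (ι z) = ι (MvPowerSeries.pderiv K a z) := fun a =>
    IsDer.extend hι (δ := fun z => ι (MvPowerSeries.pderiv K a z)) ((der_pderiv K a).comp ι)
  choose dd hdd hddι using hex
  have hdd0 : ∀ a c, dd a ((ι.comp jR) c) = 0 := fun a c => by
    rw [RingHom.comp_apply, hddι, hp0, map_zero]
  obtain ⟨y₀, hy₀, hr⟩ := hA Φ (ι.comp jR) (𝒟.pmap ι rfl u₀)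
  refine ⟨Φ, inferInstance, ι.comp jR, dd, hdd, hdd0, y₀, hy₀, fun a a' => ?_⟩
  rw [dv_zero, hr]
  have h1 := SPG.dlog_map (s := 𝒟.s) rfl (der_pderiv K a) (hp0 a) rfl (hdd a) (hdd0 a) ι
    (𝒟.push_pmap rfl) (hddι a) u₀
  rw [SPG.dlog_lg rfl (der_pderiv K a) (hp0 a) hne hu₀, hl] at h1
  refine (congrFun h1 a').trans ?_
  simp only [Function.comp_apply]
  split_ifs with h
  · rw [h, MvPowerSeries.pderiv_X_self, map_one]
  · rw [MvPowerSeries.pderiv_X_of_ne h, map_zero]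

open Classical in
/-- Comparison of a complete lift with the generic one in an amalgam. -/
theorem ZS3b_key [Fintype A.τ] (hW : Fin0 W) (hA : 𝒟.All W) {Φ : Type u} [Field Φ] {j₀ : K →+* Φ}
    {dd : A.τ → Φ → Φ} (hdd : ∀ a, Der (dd a)) (hdd0 : ∀ a c, dd a (j₀ c) = 0) {y₀ : 𝒟.E j₀}
    (hy₀ : y₀ ∈ 𝒟.S W j₀)
    (hb : ∀ a a', 𝒟.dv (hdd a) (hdd0 a) y₀ (a', 0) = if a' = a then 1 else 0)
    (hd : Der d) (h0 : ∀ c, d (j c) = 0) {y : 𝒟.E j} (hy : y ∈ 𝒟.S W j) :
    ∃ (Ω : Type u) (_ : Field Ω) (ψ₁ : T →+* Ω) (ψ₂ : Φ →+* Ω), ψ₁.comp j = ψ₂.comp j₀ ∧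
      LD (ψ₁.comp j).fieldRange ψ₁.fieldRange ψ₂.fieldRange ∧
      ψ₁ ∘ 𝒟.dv hd h0 y - ∑ a, ψ₁ (𝒟.dv hd h0 y (a, 0)) • (ψ₂ ∘ 𝒟.dv (hdd a) (hdd0 a) y₀) ∈
        Wsp W (ψ₁.comp j) := by
  obtain ⟨Ω, _, _, ψ₁, ψ₂, e, hLD⟩ := exists_amalg j j₀
  have : CharZero Ω := charZero_of_injective_ringHom (ψ₁.comp j).injective
  refine ⟨Ω, inferInstance, ψ₁, ψ₂, e, hLD, ?_⟩
  obtain ⟨δ₁, hδ₁, a1, a2⟩ := IsDer.amalg e hLD (δ₁ := fun z => ψ₁ (d z)) (δ₂ := fun _ => 0)
    (hd.comp ψ₁) (IsDer.zero ψ₂) fun c => by rw [h0, map_zero]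
  have hex : ∀ a, ∃ δ : Ω → Ω, Der δ ∧ (∀ z, δ (ψ₁ z) = 0) ∧ ∀ z, δ (ψ₂ z) = ψ₂ (dd a z) :=
    fun a => IsDer.amalg e hLD (δ₁ := fun _ => 0) (δ₂ := fun z => ψ₂ (dd a z)) (IsDer.zero ψ₁)
      ((hdd a).comp ψ₂) fun c => by rw [hdd0, map_zero]
  choose δ₂ hδ₂ b1 b2 using hex
  let D : Option A.τ → Ω → Ω := fun k => k.elim δ₁ δ₂
  let cf : Option A.τ → Ω := fun k => k.elim 1 fun a => -ψ₁ (𝒟.dv hd h0 y (a, 0))
  have hD : ∀ k, Der (D k) := by
    rintro (_ | a)
    exacts [hδ₁, hδ₂ a]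
  have c1 : ∀ c, δ₁ ((ψ₁.comp j) c) = 0 := fun c => by
    rw [RingHom.comp_apply, a1, h0, map_zero]
  have c2 : ∀ a c, δ₂ a ((ψ₁.comp j) c) = 0 := fun a c => b1 a _
  have hD0 : ∀ k c, D k ((ψ₁.comp j) c) = 0 := by
    rintro (_ | a)
    exacts [c1, c2 a]
  have hδ : Der fun z => ∑ k, cf k * D k z := IsDer.sum' hD cf
  have hδ0 : ∀ c, (fun z => ∑ k, cf k * D k z) ((ψ₁.comp j) c) = 0 := fun c =>
    Finset.sum_eq_zero fun k _ => by rw [hD0, mul_zero]
  have hY : 𝒟.emap ψ₁ rfl y + 𝒟.emap ψ₂ e.symm y₀ ∈ 𝒟.S W (ψ₁.comp j) :=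
    add_mem (S_emap ψ₁ rfl hy) (S_emap ψ₂ e.symm hy₀)
  have hv : 𝒟.dv hδ hδ0 (𝒟.emap ψ₁ rfl y + 𝒟.emap ψ₂ e.symm y₀) =
      ψ₁ ∘ 𝒟.dv hd h0 y - ∑ a, ψ₁ (𝒟.dv hd h0 y (a, 0)) • (ψ₂ ∘ 𝒟.dv (hdd a) (hdd0 a) y₀) := by
    have e1 : 𝒟.dv (hD none) (hD0 none) (𝒟.emap ψ₁ rfl y + 𝒟.emap ψ₂ e.symm y₀) =
        ψ₁ ∘ 𝒟.dv hd h0 y := by
      rw [ZS3b_add, ZS3b_map hd h0 (hD none) (hD0 none) ψ₁ rfl a1,
        ZS3b_kill (hD none) (hD0 none) ψ₂ e.symm a2, add_zero]
    have e2 : ∀ a, 𝒟.dv (hD (some a)) (hD0 (some a)) (𝒟.emap ψ₁ rfl y + 𝒟.emap ψ₂ e.symm y₀) =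
        ψ₂ ∘ 𝒟.dv (hdd a) (hdd0 a) y₀ := fun a => by
      rw [ZS3b_add, ZS3b_map (hdd a) (hdd0 a) (hD (some a)) (hD0 (some a)) ψ₂ e.symm (b2 a),
        ZS3b_kill (hD (some a)) (hD0 (some a)) ψ₁ rfl (b1 a), zero_add]
    rw [ZS3b_lin hδ hδ0 hD hD0 cf (fun _ => rfl), Fintype.sum_option, e1]
    simp only [e2, cf, Option.elim_none, Option.elim_some, one_smul, neg_smul,
      Finset.sum_neg_distrib, sub_eq_add_neg]
  rw [← hv]
  refine dv_mem hW hA hδ hδ0 hY (funext fun a' => ?_)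
  rw [← dv_zero, hv]
  simp only [Pi.sub_apply, Finset.sum_apply, Pi.smul_apply, Function.comp_apply, hb, smul_eq_mul,
    apply_ite ψ₂, map_one, map_zero, mul_ite, mul_one, mul_zero, Finset.sum_ite_eq,
    Finset.mem_univ, if_true, sub_self, Pi.zero_apply]

theorem exists_N (hW : Fin0 W) (hA : 𝒟.All W) : ∃ N : Submodule K (A.τ × ℕ → K),
    FiniteDimensional K N ∧ ∀ (T : Type u) [Field T] (j : K →+* T) (d : T → T) (hd : Der d)
      (h0 : ∀ c, d (j c) = 0), ∀ y ∈ 𝒟.S W j, 𝒟.dv hd h0 y ∈ Wsp N j := by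
  classical
  have := hW.fin
  have := Fintype.ofFinite A.τ
  obtain ⟨Φ, _, j₀, dd, hdd, hdd0, y₀, hy₀, hb⟩ := ZS3b_gen hA
  obtain ⟨n, pos, b, hbW, -, hpr⟩ := exists_pr W
  have hn : ∀ a i, ∃ c : K, j₀ c = 𝒟.dv (hdd a) (hdd0 a) y₀ i -
      ∑ k, 𝒟.dv (hdd a) (hdd0 a) y₀ (pos k) * j₀ (b k i) := by
    intro a i
    obtain ⟨Ω, _, ψ₁, ψ₂, e, hLD, hm⟩ := ZS3b_key hW hA hdd hdd0 hy₀ hb (hdd a) (hdd0 a) hy₀
    have h1 : ∑ a', ψ₁ (𝒟.dv (hdd a) (hdd0 a) y₀ (a', 0)) •
        (ψ₂ ∘ 𝒟.dv (hdd a') (hdd0 a') y₀) = ψ₂ ∘ 𝒟.dv (hdd a) (hdd0 a) y₀ := by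
      rw [Finset.sum_eq_single a (fun a' _ h => by rw [hb, if_neg h, map_zero, zero_smul])
        (fun h => absurd (Finset.mem_univ a) h), hb, if_pos rfl, map_one, one_smul]
    rw [h1] at hm
    have h2 := (hpr Ω _ _).1 hm i
    have h3 : ∀ c, ψ₂ (j₀ c) = ψ₁ (j₀ c) := fun c => (DFunLike.congr_fun e c).symm
    generalize 𝒟.dv (hdd a) (hdd0 a) y₀ = γ at h2 ⊢
    have h4 : ψ₁ (γ i - ∑ k, γ (pos k) * j₀ (b k i)) = ψ₂ (γ i - ∑ k, γ (pos k) * j₀ (b k i)) := by
      simp only [Pi.sub_apply, Function.comp_apply, RingHom.comp_apply, sub_mul,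
        Finset.sum_sub_distrib] at h2
      simp only [map_sub, map_sum, map_mul, h3]
      linear_combination h2
    have h5 : ψ₁ (γ i - ∑ k, γ (pos k) * j₀ (b k i)) ∈ ψ₁.fieldRange ⊓ ψ₂.fieldRange :=
      ⟨⟨_, rfl⟩, ⟨_, h4.symm⟩⟩
    rw [hLD.inf (by rintro _ ⟨c, rfl⟩; exact ⟨j₀ c, rfl⟩)
      (by rintro _ ⟨c, rfl⟩; exact ⟨j₀ c, h3 c⟩)] at h5
    obtain ⟨c, hc⟩ := h5
    exact ⟨c, ψ₁.injective hc⟩
  choose m hm using hn
  have : FiniteDimensional K (Submodule.span K (Set.range m)) :=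
    FiniteDimensional.span_of_finite K (Set.finite_range m)
  refine ⟨W ⊔ Submodule.span K (Set.range m), inferInstance, fun T _ j d hd h0 y hy => ?_⟩
  have hγ : ∀ a, 𝒟.dv (hdd a) (hdd0 a) y₀ ∈ Wsp (W ⊔ Submodule.span K (Set.range m)) j₀ := by
    intro a
    have h1 : 𝒟.dv (hdd a) (hdd0 a) y₀ =
        j₀ ∘ m a + ∑ k, 𝒟.dv (hdd a) (hdd0 a) y₀ (pos k) • (j₀ ∘ b k) := by
      funext i
      simp only [Pi.add_apply, Finset.sum_apply, Pi.smul_apply, Function.comp_apply, smul_eq_mul,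
        hm, sub_add_cancel]
    rw [h1]
    exact add_mem (mem_Wsp j₀ (Submodule.mem_sup_right (Submodule.subset_span ⟨a, rfl⟩)))
      (Submodule.sum_mem _ fun k _ => Submodule.smul_mem _ _
        (mem_Wsp j₀ (Submodule.mem_sup_left (hbW k))))
  obtain ⟨Ω, _, ψ₁, ψ₂, e, -, hmem⟩ := ZS3b_key hW hA hdd hdd0 hy₀ hb hd h0 hy
  refine Wsp_desc ψ₁.injective rfl ?_
  have h1 := add_mem (Wsp_mono (le_sup_left : W ≤ W ⊔ Submodule.span K (Set.range m)) _ hmem)
    (Submodule.sum_mem _ fun a (_ : a ∈ Finset.univ) => Submodule.smul_mem _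
      (ψ₁ (𝒟.dv hd h0 y (a, 0))) (Wsp_map ψ₂ e.symm (hγ a)))
  rwa [sub_add_cancel] at h1

end Df

end MLF
end

-- merged part: Pool.Agent.Work.MP_29d410_ag.ZF1
section
/-!
# The difference of a complete lift and its formal shift

Put `R = L⟦Z⟧`, `u = emap θ y - emap C y`.  The ideal `𝔞 = (mX _ L).comap constantCoeff` of `R⟦ε⟧` is admissible
(`complete_comap`, `Adm.of_complete`) and it is the kernel of the local homomorphism `R⟦ε⟧ → R → L`.
Plan.  `shift_K1`: `cong_ker_iff`; both points have the same image `res y` over `L`.  `shift_cc`: `lg_map` along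
`PowerSeries.map constantCoeff`, which maps `u` to `y - y = 0` (`emap_emap`).  `shift_zero`: `lg_map` along
`constantCoeff : R⟦ε⟧ → R`, `res_emap`.
`shift_mem`: take `N` from `exists_N`.  Let `Φ` be the fraction field of `R`, `ι : R → Φ`, `d i` an extension of
`pderiv i` (`IsDer.extend`).  Then `dv (d i) (emap (ι ∘ θ) y) ∈ Wsp N` and `dv (d i) (emap (ι ∘ C) y) ∈ Wsp N` (`S_emap`),
and the difference is `ι ∘ pderiv i ∘ lv u` (`dlog_sub`, `dlog_map` along `PowerSeries.map ι`, `dlog_lg` in `R⟦ε⟧` for the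
derivation `psd (pderiv i)`).  `Wsp_desc`.  With the basis of `exists_pr`, the series
`lv u i - ∑ lv u (pos k) * C (j (b k i))` has vanishing constant coefficient and vanishing derivatives, so is zero
(characteristic zero).
-/

open MvPowerSeries

namespace MLF

universe u

open PG

namespace Df

variable {A : SPG.{u}} {K L : Type u} [Field K] [IsAlgClosed K] [CharZero K] [Field L] {𝒟 : Df A K}
  {W : Submodule K (A.τ × ℕ → K)} {j : K →+* L} {ρ : Type} [Finite ρ]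
  {θ : L →+* MvPowerSeries ρ L}

/-- The difference of a point and its shift. -/
noncomputable def shift (θ : L →+* MvPowerSeries ρ L) (h₁ : θ.comp j = C.comp j) (y : 𝒟.E j) :
    𝒟.E ((C : L →+* MvPowerSeries ρ L).comp j) := 𝒟.emap θ h₁ y - 𝒟.emap C rfl y

omit [IsAlgClosed K] [CharZero K] in
theorem ZF1_φ {T T' : Type u} [CommRing T] [CommRing T'] {j : K →+* T} {j' : K →+* T'}
    {ψ : T →+* T'} (h : ψ.comp j = j') : (PowerSeries.map ψ).comp (𝒟.φ j) = 𝒟.φ j' := by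
  subst h
  rw [φ, φ, PowerSeries.map_comp, RingHom.comp_assoc]

theorem ZF1_cc {T T' : Type u} [CommRing T] [CommRing T'] (ψ : T →+* T') (f : PowerSeries T) :
    PowerSeries.constantCoeff (PowerSeries.map ψ f) = ψ (PowerSeries.constantCoeff f) := by
  rw [← PowerSeries.coeff_zero_eq_constantCoeff_apply, PowerSeries.coeff_map,
    PowerSeries.coeff_zero_eq_constantCoeff_apply]

omit [IsAlgClosed K] [CharZero K] in
theorem ZF1_φ0 {T : Type u} [CommRing T] (j : K →+* T) :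
    PowerSeries.constantCoeff.comp (𝒟.φ j) = j := by
  ext c
  rw [RingHom.comp_apply, φ, RingHom.comp_apply, ZF1_cc, 𝒟.cc]

instance ZF1_adm : Adm ((mX ρ L).comap (PowerSeries.constantCoeff (R := MvPowerSeries ρ L))) :=
  have := complete_comap (mX ρ L)
  inferInstance

theorem ZF1_ne : (mX ρ L).comap (PowerSeries.constantCoeff (R := MvPowerSeries ρ L)) ≠ ⊤ :=
  Ideal.comap_ne_top _ (SPG.Chart_mX_ne ρ)

theorem ZF1_mem (h₂ : ∀ z, constantCoeff (θ z) = z) (z : L) : θ z - C z ∈ mX ρ L := by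
  rw [mem_mX, map_sub, h₂, constantCoeff_C, sub_self]

theorem shift_K1 (h₁ : θ.comp j = C.comp j) (h₂ : ∀ z, constantCoeff (θ z) = z) (y : 𝒟.E j) :
    shift θ h₁ y ∈ K1 ((mX ρ L).comap (PowerSeries.constantCoeff (R := MvPowerSeries ρ L))) _ := by
  obtain ⟨v, hv⟩ := A.ax.exists_rep y
  refine cong_iff_sub.1 (cong_map_map _ _ hv fun i => ?_)
  rw [Ideal.mem_comap, map_sub, ZF1_cc, ZF1_cc]
  exact ZF1_mem h₂ _

theorem shift_K1' (h₁ : θ.comp j = C.comp j) (h₂ : ∀ z, constantCoeff (θ z) = z) (x : 𝒟.P j) :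
    𝒟.pmap θ h₁ x - 𝒟.pmap C rfl x ∈ K1 (mX ρ L) _ := by
  obtain ⟨v, hv⟩ := A.ax.exists_rep x
  exact cong_iff_sub.1 (cong_map_map _ _ hv fun i => ZF1_mem h₂ _)

theorem shift_cc (h₁ : θ.comp j = C.comp j) (h₂ : ∀ z, constantCoeff (θ z) = z) (y : 𝒟.E j)
    (i : A.τ × ℕ) : constantCoeff (𝒟.lv _ (shift θ h₁ y) i) = 0 := by
  have e₀ : (constantCoeff : MvPowerSeries ρ L →+* L).comp (C.comp j) = j := by
    ext c
    simp
  have e₁ : 𝒟.emap constantCoeff e₀ (shift θ h₁ y) = 0 := by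
    rw [shift, map_sub, emap_emap h₁ e₀ (RingHom.id_comp j) (RingHom.ext h₂),
      emap_emap rfl e₀ (RingHom.id_comp j) (RingHom.ext fun z => by simp), sub_self]
  have e₂ := SPG.lg_map (s := 𝒟.s) rfl ZF1_ne (PowerSeries.map constantCoeff) (𝒟.push_emap e₀)
    (ZF1_φ e₀) (𝔞' := mx L)
    (by rw [Ne, Ideal.span_singleton_eq_top]; exact PowerSeries.X_prime.not_isUnit)
    (fun z hz => by
      rw [Ideal.mem_span_singleton, PowerSeries.X_dvd_iff, ZF1_cc]
      exact mem_mX.1 hz) (shift_K1 h₁ h₂ y)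
  have e₃ : 𝒟.lv j 0 = 0 := by
    have := lv_sub (𝒟 := 𝒟) (j := j) (map_zero _) (map_zero _)
    rwa [sub_self, sub_self] at this
  have e₄ := congrFun e₃ i
  rw [← e₁] at e₄
  rw [lv, ← PowerSeries.coeff_map, ← Function.comp_apply (f := PowerSeries.map _), ← e₂]
  exact e₄

theorem shift_zero (h₁ : θ.comp j = C.comp j) (h₂ : ∀ z, constantCoeff (θ z) = z) (y : 𝒟.E j)
    (a : A.τ) : 𝒟.lv _ (shift θ h₁ y) (a, 0) =
      SPG.lg 𝒟.s (C.comp j) (𝒟.pmap θ h₁ (𝒟.res j y) - 𝒟.pmap C rfl (𝒟.res j y)) a := by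
  have e := SPG.lg_map (s := 𝒟.s) rfl ZF1_ne PowerSeries.constantCoeff (𝒟.push_res _)
    (ZF1_φ0 _) (SPG.Chart_mX_ne ρ) (fun z hz => hz) (shift_K1 h₁ h₂ y)
  rw [← res_emap, ← res_emap, ← map_sub]
  exact (PowerSeries.coeff_zero_eq_constantCoeff_apply _).trans (congrFun e a).symm

theorem shift_mem (hW : Fin0 W) (hA : 𝒟.All W) (h₁ : θ.comp j = C.comp j)
    (h₂ : ∀ z, constantCoeff (θ z) = z) {y : 𝒟.E j} (hy : y ∈ 𝒟.S W j) :
    ∃ N : Submodule K (A.τ × ℕ → K), FiniteDimensional K N ∧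
      𝒟.lv _ (shift θ h₁ y) ∈ Wsp N (C.comp j) := by
  obtain ⟨N, hN, h⟩ := exists_N hW hA
  refine ⟨N, hN, ?_⟩
  have : IsDomain (MvPowerSeries ρ L) := NoZeroDivisors.to_isDomain _
  have : CharZero L := charZero_of_injective_ringHom j.injective
  obtain ⟨ι, hι⟩ : ∃ ι : MvPowerSeries ρ L →+* FractionRing (MvPowerSeries ρ L),
    Function.Injective ι := ⟨algebraMap _ _, IsFractionRing.injective _ _⟩
  have : CharZero (FractionRing (MvPowerSeries ρ L)) :=
    charZero_of_injective_ringHom (ι.comp C).injective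
  have key : ∀ k, (fun f => pderiv L k f) ∘ 𝒟.lv _ (shift θ h₁ y) ∈ Wsp N (C.comp j) := by
    intro k
    have hp := der_pderiv L k
    obtain ⟨d, hd, hd'⟩ := IsDer.extend hι (δ := fun z => ι (pderiv L k z))
      ⟨(hp.comp ι).add, (hp.comp ι).mul⟩
    have p0 : ∀ c, pderiv L k ((C.comp j) c) = 0 := fun c => pderiv_C
    have h0 : ∀ c, d ((ι.comp (C.comp j)) c) = 0 := fun c => by
      rw [RingHom.comp_apply, hd', p0, map_zero]
    have c₁ : (ι.comp θ).comp j = ι.comp (C.comp j) := by rw [RingHom.comp_assoc, h₁]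
    have c₂ : (ι.comp C).comp j = ι.comp (C.comp j) := rfl
    have m := Submodule.sub_mem _ (h _ _ d hd h0 _ (S_emap _ c₁ hy))
      (h _ _ d hd h0 _ (S_emap _ c₂ hy))
    refine Wsp_desc hι rfl ?_
    convert m using 1
    have e₁ : 𝒟.emap _ c₁ y - 𝒟.emap _ c₂ y = 𝒟.emap ι rfl (shift θ h₁ y) := by
      rw [shift, map_sub, emap_emap h₁ rfl c₁ rfl, emap_emap rfl rfl c₂ rfl]
    have e₂ := SPG.dlog_map (s := 𝒟.s) rfl hp.psd (𝒟.psd_φ hp p0) rfl hd.psd (𝒟.psd_φ hd h0)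
      (PowerSeries.map ι) (𝒟.push_emap rfl) (fun z => by
        ext n
        simp only [psd, PowerSeries.coeff_mk, PowerSeries.coeff_map, hd']) (shift θ h₁ y)
    rw [SPG.dlog_lg _ _ _ ZF1_ne (shift_K1 h₁ h₂ y)] at e₂
    funext i
    rw [Pi.sub_apply, dv, dv, ← map_sub, ← Pi.sub_apply (SPG.dlog _ _ _ _), ← SPG.dlog_sub, e₁]
    erw [e₂]
    simp only [Function.comp_apply, psd, PowerSeries.coeff_mk, PowerSeries.coeff_map, lv]
  obtain ⟨n, pos, b, -, -, hrep⟩ := exists_pr N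
  simp only [hrep] at key ⊢
  intro i
  refine pderiv.ext (fun k => ?_) ?_
  · refine (key k i).trans ?_
    rw [map_sum]
    refine Finset.sum_congr rfl fun l _ => ?_
    rw [(der_pderiv L k).mul, RingHom.comp_apply, pderiv_C, mul_zero, zero_add]
    rfl
  · simp only [map_sum, map_mul, shift_cc h₁ h₂, zero_mul, Finset.sum_const_zero]

end Df

end MLF
end

-- merged part: Pool.Agent.Work.MP_29d410_ag.ZF2
section
/-!
# The linear differential equation

Plan.  `shift_der`: the derivation `∇ = psd D₁ - derivative` of `R⟦ε⟧` kills `PowerSeries.map χ (taylor z)` whenever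
`D₁ ∘ χ = χ ∘ d` (`Der.psd_taylor`); this applies to `χ = θ` and `χ = C`, and `φ (C ∘ j) = map C ∘ taylor ∘ j`
(`Der.map_taylor`).  By `dlog_map` for the homomorphism `map χ ∘ taylor : L → R⟦ε⟧` and the zero derivation of `L`
(or `dlog_eq_zero_iff`), `dlog ∇` vanishes at both points; `dlog_sub`, `dlog_lg`, `shift_K1`; compare coefficients
(`PowerSeries.coeff_derivative`).
`exists_ode`: `shift_mem`, `lin_ode` with `sh (a, n) = (a, n + 1)`, `c (a, n) = n + 1`; `shift_cc`, `shift_zero`; `res` of the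
Taylor expansion of `x` is `x` (`Der.cc_taylor`).
-/

open MvPowerSeries

namespace MLF

universe u

open PG

namespace Df

variable {A : SPG.{u}} {K L : Type u} [Field K] [IsAlgClosed K] [CharZero K] [Field L] [CharZero L]
  {𝒟 : Df A K} {W : Submodule K (A.τ × ℕ → K)} {j : K →+* L} {ρ : Type} [Finite ρ]
  {θ : L →+* MvPowerSeries ρ L} {δ : K → K} {d : L → L}
  {D₁ : MvPowerSeries ρ L → MvPowerSeries ρ L}

omit [Finite ρ] in
theorem ZF2_kill (hd : Der d) (χ : L →+* MvPowerSeries ρ L) (h : ∀ z, D₁ (χ z) = χ (d z)) (z : L) :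
    psd D₁ (PowerSeries.map χ (hd.taylor z)) -
      PowerSeries.derivative _ (PowerSeries.map χ (hd.taylor z)) = 0 := by
  refine PowerSeries.ext fun n => ?_
  have h1 := congrArg (PowerSeries.coeff n) (hd.psd_taylor z)
  rw [psd, PowerSeries.coeff_mk, PowerSeries.coeff_derivative] at h1
  rw [map_sub, psd, PowerSeries.coeff_mk, PowerSeries.coeff_derivative, PowerSeries.coeff_map,
    PowerSeries.coeff_map, h, h1, map_mul, map_add, map_natCast, map_one, sub_self, map_zero]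

theorem shift_der (hδ : Der δ) (hD : 𝒟.D = hδ.taylor) (hd : Der d) (e : ∀ z, d (j z) = j (δ z))
    (h₁ : θ.comp j = C.comp j) (h₂ : ∀ z, constantCoeff (θ z) = z) (hD₁ : Der D₁)
    (h₃ : ∀ z, D₁ (θ z) = θ (d z)) (h₄ : ∀ z, D₁ (C z) = C (d z)) (x : 𝒟.P j) (a : A.τ) (n : ℕ) :
    D₁ (𝒟.lv _ (shift θ h₁ (A.map hd.taylor (push_taylor hδ hD hd e) x)) (a, n)) =
      (n + 1) * 𝒟.lv _ (shift θ h₁ (A.map hd.taylor (push_taylor hδ hD hd e) x)) (a, n + 1) := by
  have hN := hD₁.psd.sub' (der_deriv (MvPowerSeries ρ L))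
  have h0 : ∀ c, psd D₁ (𝒟.φ (C.comp j) c) -
      PowerSeries.derivative (MvPowerSeries ρ L) (𝒟.φ (C.comp j) c) = 0 := fun c => by
    have h1 := RingHom.congr_fun (hδ.map_taylor hd j e) c
    rw [RingHom.comp_apply, RingHom.comp_apply] at h1
    rw [φ, hD, PowerSeries.map_comp, RingHom.comp_apply, RingHom.comp_apply, ← h1]
    exact ZF2_kill hd C h₄ _
  have key : ∀ (χ : L →+* MvPowerSeries ρ L) (h : χ.comp j = C.comp j),
      (∀ z, D₁ (χ z) = χ (d z)) →
      SPG.dlog rfl hN h0 (𝒟.emap χ h (A.map hd.taylor (push_taylor hδ hD hd e) x)) = 0 := by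
    intro χ h hχ
    rw [emap, PG.map_map, SPG.dlog_map rfl (IsDer.zero (RingHom.id L)) (fun _ => rfl) rfl hN h0 _ _
      (fun z => (ZF2_kill hd χ hχ z).trans (map_zero _).symm) x,
      SPG.dlog_lin rfl (IsDer.zero (RingHom.id L)) (fun _ => rfl) (ι := Empty)
        (d := fun _ _ => 0) (fun _ => IsDer.zero _) (fun _ _ => rfl) (fun _ => 0)
        (fun _ => (Finset.sum_of_isEmpty _).symm) x, Finset.sum_of_isEmpty]
    funext i
    exact map_zero _
  have := complete_comap (mX ρ L)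
  have h1 := SPG.dlog_lg rfl hN h0 (Ideal.comap_ne_top _ (SPG.Chart_mX_ne ρ))
    (shift_K1 h₁ h₂ (A.map hd.taylor (push_taylor hδ hD hd e) x))
  conv_lhs at h1 => rw [shift, SPG.dlog_sub, key θ h₁ h₃, key C rfl h₄, sub_self]
  have h2 := congrArg (PowerSeries.coeff n) (sub_eq_zero.1 (congrFun h1 a).symm)
  rw [psd, PowerSeries.coeff_mk, PowerSeries.coeff_derivative, mul_comm] at h2
  exact h2

theorem exists_ode (hδ : Der δ) (hD : 𝒟.D = hδ.taylor) (hW : Fin0 W) (hA : 𝒟.All W) (hd : Der d)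
    (e : ∀ z, d (j z) = j (δ z)) (h₁ : θ.comp j = C.comp j) (h₂ : ∀ z, constantCoeff (θ z) = z)
    (hD₁ : Der D₁) (h₃ : ∀ z, D₁ (θ z) = θ (d z)) (h₄ : ∀ z, D₁ (C z) = C (d z)) {x : 𝒟.P j}
    (hx : A.map hd.taylor (push_taylor hδ hD hd e) x ∈ 𝒟.S W j) :
    ∃ (r : ℕ) (w : Fin r → MvPowerSeries ρ L) (b : Fin r → A.τ → K) (M : Matrix (Fin r) (Fin r) K),
      (∀ k, constantCoeff (w k) = 0) ∧ (∀ k, D₁ (w k) = ∑ l, C (j (M k l)) * w l) ∧
      ∀ a, SPG.lg 𝒟.s (C.comp j) (𝒟.pmap θ h₁ x - 𝒟.pmap C rfl x) a =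
        ∑ k, w k * C (j (b k a)) := by
  obtain ⟨N, hN, h1⟩ := shift_mem hW hA h₁ h₂ hx
  obtain ⟨r, pos, b, M, h2, h3⟩ := lin_ode D₁ h1 (fun i => (i.1, i.2 + 1)) (fun i => i.2 + 1)
    fun i => by
      rw [map_add, map_natCast, map_one]
      exact shift_der hδ hD hd e h₁ h₂ hD₁ h₃ h₄ x i.1 i.2
  have h4 : 𝒟.res j (A.map hd.taylor (push_taylor hδ hD hd e) x) = x := by
    rw [res, PG.map_map]
    exact map_id' hd.cc_taylor _ x
  refine ⟨r, _, fun k a => b k (a, 0), M, fun k => shift_cc h₁ h₂ _ (pos k), h3, fun a => ?_⟩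
  have h5 := shift_zero h₁ h₂ (A.map hd.taylor (push_taylor hδ hD hd e) x) a
  rw [h4] at h5
  exact h5.symm.trans (h2 (a, 0))

end Df

end MLF
end

-- merged part: Pool.Agent.Work.MP_29d410_ag.ZD3
section
/-!
# Picard-Vessiot extensions

Plan.  On `R₀ = K[U, V]` (two matrices of variables) define the derivation extending `δ` with `δ U = M U`,
`δ V = - V M`.  The ideal generated by the entries of `U V - 1` is stable and proper; let `𝔪` be a maximal
proper stable ideal containing it (Zorn), `R = R₀ / 𝔪`.  `R` is reduced (if `a ^ n = 0` then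
`(δ a) ^ (2 n - 1) = 0`, so the nilradical is stable), and a domain (if `a b = 0` then `(δ a * b) ^ 2 = 0`, so the
annihilator of `b` is stable).  A constant `c` of the fraction field lies in `R` (the ideal of its denominators
is stable) and `c - a` is zero or a unit for every constant `a` of `K`.  If `c` were transcendental over `K`: a
maximal ideal of `R ⊗ K(c)` has residue field finite over `K(c)` (Zariski), so the image of `R` is integral
over `K[c, 1 / f]`, which cannot contain `1 / (c - a)` for infinitely many `a`.  So `c ∈ K`.  Finally extend to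
the algebraic closure (`IsDer.extend`); a constant is algebraic over the fraction field and the
coefficients of its minimal polynomial are constants.
-/

namespace MLF

universe u

section aux

variable {R R₀ : Type u} [CommRing R] [CommRing R₀]

theorem ZD3_constr [IsDomain R] {S : Set (PrimeSpectrum R)} (hS : Topology.IsConstructible S) :
    ∃ f : R, f ≠ 0 ∧ ((∀ q : PrimeSpectrum R, f ∉ q.asIdeal → q ∈ S) ∨
      ∀ q : PrimeSpectrum R, f ∉ q.asIdeal → q ∉ S) := by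
  induction hS using Topology.IsConstructible.empty_union_induction with
  | open_retrocompact U hU _ =>
    rcases U.eq_empty_or_nonempty with rfl | ⟨p, hp⟩
    · exact ⟨1, one_ne_zero, Or.inr fun _ _ h => h⟩
    · obtain ⟨_, ⟨f, rfl⟩, h1, h2⟩ :=
        PrimeSpectrum.isTopologicalBasis_basic_opens.exists_subset_of_mem_open hp hU
      refine ⟨f, ?_, Or.inl fun q hq => h2 hq⟩
      rintro rfl
      exact h1 p.asIdeal.zero_mem
  | union s _ t _ hs ht =>
    obtain ⟨f, hf, hs | hs⟩ := hs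
    · exact ⟨f, hf, Or.inl fun q hq => Or.inl (hs q hq)⟩
    obtain ⟨g, hg, ht | ht⟩ := ht
    · exact ⟨g, hg, Or.inl fun q hq => Or.inr (ht q hq)⟩
    refine ⟨f * g, mul_ne_zero hf hg, Or.inr fun q hq h => h.elim (hs q fun h' => hq ?_)
      (ht q fun h' => hq ?_)⟩
    · exact q.asIdeal.mul_mem_right _ h'
    · exact q.asIdeal.mul_mem_left _ h'
  | compl s _ hs =>
    obtain ⟨f, hf, hs | hs⟩ := hs
    · exact ⟨f, hf, Or.inr fun q hq h => h (hs q hq)⟩
    · exact ⟨f, hf, Or.inl hs⟩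

theorem ZD3_range {K : Type u} [Field K] [IsAlgClosed K] [IsDomain R] (i : K →+* R) {z : R}
    {P : Polynomial K} (hP : P ≠ 0) (h : P.eval₂ i z = 0) : z ∈ i.range := by
  let _ := i.toAlgebra
  have hz : IsIntegral K z := IsAlgebraic.isIntegral ⟨P, hP, h⟩
  exact minpoly.mem_range_of_degree_eq_one K z
    (IsAlgClosed.degree_eq_one_of_irreducible K (minpoly.irreducible hz))

theorem ZD3_chev {K : Type u} [Field K] [IsAlgClosed K] [CharZero K] [IsDomain R] (i : K →+* R)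
    (hi : i.FiniteType) {c : R} (h : ∀ n : ℕ, IsUnit (c - n)) : c ∈ i.range := by
  classical
  by_contra hc
  let φ : Polynomial K →+* R := Polynomial.eval₂RingHom i c
  have hφ : φ.FiniteType := by
    refine RingHom.FiniteType.of_comp_finiteType (f := Polynomial.C) ?_
    convert hi
    ext a
    simp [φ]
  obtain ⟨f, hf, hS⟩ := ZD3_constr
    (PrimeSpectrum.isConstructible_range_comap (RingHom.FinitePresentation.of_finiteType.1 hφ))
  rcases hS with hS | hS
  · obtain ⟨_, ⟨n, rfl⟩, hn⟩ := (Set.infinite_range_of_injective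
      (Nat.cast_injective (R := K))).exists_notMem_finset f.roots.toFinset
    rw [Multiset.mem_toFinset, Polynomial.mem_roots hf] at hn
    obtain ⟨Q, hQ⟩ := hS ⟨RingHom.ker (Polynomial.evalRingHom (n : K)), RingHom.ker_isPrime _⟩ hn
    have h1 : Polynomial.X - Polynomial.C (n : K) ∈ (PrimeSpectrum.comap φ Q).asIdeal := by
      rw [hQ]
      simp [RingHom.mem_ker]
    have h2 : c - n ∈ Q.asIdeal := by simpa [φ] using h1
    exact Q.isPrime.ne_top (Ideal.eq_top_of_isUnit_mem _ h2 (h n))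
  · refine hS (PrimeSpectrum.comap φ ⟨⊥, Ideal.isPrime_bot⟩) (fun h' => hc ?_) ⟨_, rfl⟩
    exact ZD3_range i hf h'

theorem ZD3_mv {σ : Type} {δ : R → R} (h : Der δ) (w : σ → MvPolynomial σ R) :
    ∃ D : MvPolynomial σ R → MvPolynomial σ R, Der D ∧
      (∀ z, D (MvPolynomial.C z) = MvPolynomial.C (δ z)) ∧ ∀ s, D (MvPolynomial.X s) = w s := by
  have h' := h.comp (MvPolynomial.C : R →+* MvPolynomial σ R)
  let θ : MvPolynomial σ R →+* DN (MvPolynomial σ R) := MvPolynomial.eval₂Hom h'.dn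
    fun s => TrivSqZeroExt.inl (MvPolynomial.X s) + TrivSqZeroExt.inr (w s)
  have e : (TrivSqZeroExt.fstHom ℤ _ _).toRingHom.comp θ = RingHom.id _ := by
    refine MvPolynomial.ringHom_ext (fun a => ?_) fun s => ?_
    · simp [θ, h'.fst_dn]
    · simp [θ]
  refine ⟨fun z => (θ z).snd, IsDer.of_hom θ fun z => DFunLike.congr_fun e z, fun z => ?_,
    fun s => ?_⟩
  · simp [θ, h'.snd_dn]
  · simp [θ]

theorem ZD3_quot (π : R₀ →+* R) (hπ : Function.Surjective π) {D : R₀ → R₀} (h : Der D)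
    (hk : ∀ x, π x = 0 → π (D x) = 0) : ∃ d : R → R, Der d ∧ ∀ x, d (π x) = π (D x) := by
  have e : ∀ x, π (D (Function.surjInv hπ (π x))) = π (D x) := fun x => by
    rw [← sub_eq_zero, ← map_sub, ← h.map_sub]
    refine hk _ ?_
    rw [map_sub, Function.surjInv_eq hπ, sub_self]
  refine ⟨fun y => π (D (Function.surjInv hπ y)), ⟨fun a b => ?_, fun a b => ?_⟩, e⟩
  · obtain ⟨a, rfl⟩ := hπ a
    obtain ⟨b, rfl⟩ := hπ b
    rw [← map_add, e, e, e, h.add, map_add]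
  · obtain ⟨a, rfl⟩ := hπ a
    obtain ⟨b, rfl⟩ := hπ b
    rw [← map_mul, e, e, e, h.mul, map_add, map_mul, map_mul]
    rfl

theorem ZD3_span {D : R → R} (h : Der D) {s : Set R} (hs : ∀ x ∈ s, D x ∈ Ideal.span s) :
    ∀ x ∈ Ideal.span s, D x ∈ Ideal.span s := by
  intro x hx
  induction hx using Submodule.span_induction with
  | mem x hx => exact hs x hx
  | zero => rw [h.map_zero]; exact zero_mem _
  | add x y _ _ hx hy => rw [h.add]; exact add_mem hx hy
  | smul a x hx' hx =>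
    rw [smul_eq_mul, h.mul]
    exact add_mem (Ideal.mul_mem_left _ _ hx) (Ideal.mul_mem_left _ _ hx')

theorem ZD3_max (D : R → R) {I : Ideal R} (hI : ∀ x ∈ I, D x ∈ I) (h1 : (1 : R) ∉ I) :
    ∃ 𝔪 : Ideal R, I ≤ 𝔪 ∧ (∀ x ∈ 𝔪, D x ∈ 𝔪) ∧ (1 : R) ∉ 𝔪 ∧
      ∀ J : Ideal R, (∀ x ∈ J, D x ∈ J) → 𝔪 ≤ J → (1 : R) ∉ J → J ≤ 𝔪 := by
  obtain ⟨𝔪, hm, hmax⟩ := zorn_le_nonempty₀ {J : Ideal R | (∀ x ∈ J, D x ∈ J) ∧ (1 : R) ∉ J}
    (fun c hc hch y hy => ⟨sSup c, ⟨fun x hx => by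
      obtain ⟨J, hJ, hx⟩ := (Submodule.mem_sSup_of_directed ⟨y, hy⟩ hch.directedOn).1 hx
      exact le_sSup hJ ((hc hJ).1 x hx), fun hx => by
      obtain ⟨J, hJ, hx⟩ := (Submodule.mem_sSup_of_directed ⟨y, hy⟩ hch.directedOn).1 hx
      exact (hc hJ).2 hx⟩, fun z hz => le_sSup hz⟩) I ⟨hI, h1⟩
  exact ⟨𝔪, hm, hmax.prop.1, hmax.prop.2, fun J hJ hle hJ1 => hmax.le_of_ge ⟨hJ, hJ1⟩ hle⟩

theorem ZD3_sq {d : R → R} (h : Der d) {x y : R} (e : x * y = 0) : d x * y ^ 2 = 0 := by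
  have h1 := h.mul x y
  rw [e, h.map_zero] at h1
  simp only [RingHom.id_apply] at h1
  linear_combination (-y) * h1 - d y * e

theorem ZD3_nil {d : R → R} (h : Der d) (hu : ∀ n : ℕ, IsUnit ((n : R) + 1)) {a : R}
    (ha : IsNilpotent a) : IsNilpotent (d a) := by
  have key : ∀ m : ℕ, (∃ k : ℕ, a ^ m * d a ^ k = 0) → IsNilpotent (d a) := by
    intro m
    induction m with
    | zero => exact fun ⟨k, hk⟩ => ⟨k, by simpa using hk⟩
    | succ m ih =>
      rintro ⟨k, hk⟩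
      have h1 := ZD3_sq h hk
      rw [h.map_pow] at h1
      simp only [RingHom.id_apply] at h1
      refine ih ⟨2 * k + 1, (hu m).mul_right_eq_zero.1 ?_⟩
      rw [← h1]
      ring
  obtain ⟨m, hm⟩ := ha
  exact key m ⟨0, by simp [hm]⟩

theorem ZD3_domain [Nontrivial R] {d : R → R} (h : Der d) (hu : ∀ n : ℕ, IsUnit ((n : R) + 1))
    (hs : ∀ J : Ideal R, (∀ x ∈ J, d x ∈ J) → J = ⊥ ∨ J = ⊤) : IsDomain R := by
  have hred : ∀ a : R, IsNilpotent a → a = 0 := fun a ha => by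
    rcases hs (nilradical R) fun x hx => ZD3_nil h hu hx with e | e
    · have : a ∈ nilradical R := ha
      rwa [e] at this
    · have : (1 : R) ∈ nilradical R := e ▸ Submodule.mem_top
      exact absurd this not_isNilpotent_one
  have : NoZeroDivisors R := ⟨fun {a b} hab => by
    rcases hs (LinearMap.ker (LinearMap.toSpanSingleton R R b)) fun x hx => hred _ ⟨2, by
      have h1 := ZD3_sq h (show x * b = 0 from hx)
      change (d x * b) ^ 2 = 0
      linear_combination d x * h1⟩ with e | e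
    · left
      have : a ∈ LinearMap.ker (LinearMap.toSpanSingleton R R b) := hab
      rwa [e] at this
    · right
      have : (1 : R) ∈ LinearMap.ker (LinearMap.toSpanSingleton R R b) := e ▸ Submodule.mem_top
      simpa using this⟩
  exact NoZeroDivisors.to_isDomain R

/-- Constants of a simple differential ring are zero or units. -/
theorem ZD3_unit {d : R → R} (h : Der d)
    (hs : ∀ J : Ideal R, (∀ x ∈ J, d x ∈ J) → J = ⊥ ∨ J = ⊤) {c : R} (hc : d c = 0) :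
    c = 0 ∨ IsUnit c := by
  refine (hs (Ideal.span {c}) (ZD3_span h ?_)).imp Ideal.span_singleton_eq_bot.1
    Ideal.span_singleton_eq_top.1
  rintro _ rfl
  rw [hc]
  exact zero_mem _

/-- Constants of the fraction field lie in the ring. -/
theorem ZD3_frac [IsDomain R] {d : R → R}
    (hs : ∀ J : Ideal R, (∀ x ∈ J, d x ∈ J) → J = ⊥ ∨ J = ⊤) {F : Type u} [Field F] [Algebra R F]
    [IsFractionRing R F] {δ : F → F} (h : Der δ)
    (e : ∀ x, δ (algebraMap R F x) = algebraMap R F (d x)) {c : F} (hc : δ c = 0) :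
    ∃ a, algebraMap R F a = c := by
  let J : Ideal R := (1 : Submodule R F).comap (LinearMap.toSpanSingleton R F c)
  have hJ : ∀ x, x ∈ J ↔ ∃ a, algebraMap R F a = algebraMap R F x * c := fun x => by
    simp [J, Submodule.mem_one, Algebra.smul_def]
  rcases hs J fun x hx => by
    obtain ⟨a, ha⟩ := (hJ x).1 hx
    refine (hJ _).2 ⟨d a, ?_⟩
    rw [← e, ha, h.mul, hc, mul_zero, zero_add, e]
    rfl with e' | e'
  · obtain ⟨a, b, hb, rfl⟩ := IsFractionRing.div_surjective (A := R) c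
    have hb0 : b ≠ 0 := nonZeroDivisors.ne_zero hb
    have : b ∈ J := (hJ b).2 ⟨a, by
      rw [mul_div_cancel₀ _ ((map_ne_zero_iff _ (IsFractionRing.injective R F)).2 hb0)]⟩
    rw [e'] at this
    exact absurd this hb0
  · have : (1 : R) ∈ J := e' ▸ Submodule.mem_top
    simpa using (hJ 1).1 this

/-- The minimal polynomial of a constant has constant coefficients. -/
theorem ZD3_minpoly {F L : Type u} [Field F] [Field L] [Algebra F L] {δ : F → F} {δ' : L → L}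
    (h : Der δ) (h' : Der δ') (e : ∀ x, δ' (algebraMap F L x) = algebraMap F L (δ x)) {z : L}
    (hz : IsIntegral F z) (hc : δ' z = 0) (n : ℕ) : δ ((minpoly F z).coeff n) = 0 := by
  have hp : ∀ m : ℕ, δ' (z ^ m) = 0 := fun m => by
    rcases m with _ | m
    · rw [pow_zero, h'.map_one]
    · rw [h'.map_pow, hc, mul_zero]
  have h1 := congrArg δ' (minpoly.aeval F z)
  rw [Polynomial.aeval_eq_sum_range, h'.map_zero, h'.map_sum, Finset.sum_range_succ,
    Polynomial.coeff_natDegree, (minpoly.monic hz).leadingCoeff, one_smul, hp, add_zero,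
    Finset.sum_range] at h1
  have h2 : ∑ i : Fin (minpoly F z).natDegree, δ ((minpoly F z).coeff i) • z ^ (i : ℕ) = 0 := by
    rw [← h1]
    refine Finset.sum_congr rfl fun i _ => ?_
    rw [Algebra.smul_def, Algebra.smul_def, h'.mul, hp, mul_zero, zero_add, e]
    rfl
  rcases lt_trichotomy n (minpoly F z).natDegree with hn | rfl | hn
  · exact Fintype.linearIndependent_iff.1 (linearIndependent_pow z) _ h2 ⟨n, hn⟩
  · rw [Polynomial.coeff_natDegree, (minpoly.monic hz).leadingCoeff, h.map_one]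
  · rw [Polynomial.coeff_eq_zero_of_natDegree_lt hn, h.map_zero]

/-- The Picard-Vessiot ring. -/
theorem ZD3_ring {K : Type u} [Field K] {δ : K → K} (h : Der δ) {r : ℕ}
    (M : Matrix (Fin r) (Fin r) K) :
    ∃ (R : Type u) (_ : CommRing R) (_ : Nontrivial R) (i : K →+* R) (d : R → R), Der d ∧
      i.FiniteType ∧ (∀ z, d (i z) = i (δ z)) ∧
      (∀ J : Ideal R, (∀ x ∈ J, d x ∈ J) → J = ⊥ ∨ J = ⊤) ∧
      ∃ U V : Matrix (Fin r) (Fin r) R, U * V = 1 ∧
        ∀ k l, d (U k l) = ∑ m, i (M k m) * U m l := by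
  let σ := (Fin r × Fin r) ⊕ (Fin r × Fin r)
  let U : Matrix (Fin r) (Fin r) (MvPolynomial σ K) := fun k l => MvPolynomial.X (Sum.inl (k, l))
  let V : Matrix (Fin r) (Fin r) (MvPolynomial σ K) := fun k l => MvPolynomial.X (Sum.inr (k, l))
  let N : Matrix (Fin r) (Fin r) (MvPolynomial σ K) := M.map MvPolynomial.C
  obtain ⟨D, hD, hC, hX⟩ := ZD3_mv (σ := σ) h
    (Sum.elim (fun p => (N * U) p.1 p.2) fun p => (-(V * N)) p.1 p.2)
  have hU : ∀ k l, D (U k l) = (N * U) k l := fun k l => hX _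
  have hV : ∀ k l, D (V k l) = (-(V * N)) k l := fun k l => hX _
  have hW : ∀ k l, D ((U * V - 1) k l) = (N * (U * V - 1) - (U * V - 1) * N) k l := fun k l => by
    have e1 : D ((1 : Matrix (Fin r) (Fin r) (MvPolynomial σ K)) k l) = 0 := by
      rw [Matrix.one_apply]
      split_ifs
      · exact hD.map_one
      · exact hD.map_zero
    have e2 : N * (U * V - 1) - (U * V - 1) * N = U * (-(V * N)) + N * U * V := by
      noncomm_ring
    rw [e2, Matrix.sub_apply, hD.map_sub, e1, sub_zero, Matrix.mul_apply, hD.map_sum,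
      Matrix.add_apply, Matrix.mul_apply, Matrix.mul_apply, ← Finset.sum_add_distrib]
    refine Finset.sum_congr rfl fun m _ => ?_
    rw [hD.mul, hU, hV]
    rfl
  obtain ⟨𝔪, hm, hm1, hm2, hm3⟩ := ZD3_max D
    (I := Ideal.span (Set.range fun p : Fin r × Fin r => (U * V - 1) p.1 p.2))
    (ZD3_span hD (by
      rintro _ ⟨p, rfl⟩
      simp only
      rw [hW, Matrix.sub_apply, Matrix.mul_apply, Matrix.mul_apply]
      exact sub_mem
        (sum_mem fun m _ => Ideal.mul_mem_left _ _ (Ideal.subset_span ⟨(m, p.2), rfl⟩))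
        (sum_mem fun m _ => Ideal.mul_mem_right _ _ (Ideal.subset_span ⟨(p.1, m), rfl⟩))))
    (fun h1 => by
      let ev : MvPolynomial σ K →+* K := MvPolynomial.eval
        (Sum.elim (fun p => (1 : Matrix (Fin r) (Fin r) K) p.1 p.2)
          fun p => (1 : Matrix (Fin r) (Fin r) K) p.1 p.2)
      have eU : ev.mapMatrix U = 1 := Matrix.ext fun k l => MvPolynomial.eval_X _
      have eV : ev.mapMatrix V = 1 := Matrix.ext fun k l => MvPolynomial.eval_X _
      have e0 : ev.mapMatrix (U * V - 1) = 0 := by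
        rw [map_sub, map_mul, eU, eV, map_one, mul_one, sub_self]
      have hle : Ideal.span (Set.range fun p : Fin r × Fin r => (U * V - 1) p.1 p.2) ≤
          RingHom.ker ev := Ideal.span_le.2 (by
        rintro _ ⟨p, rfl⟩
        exact congrFun (congrFun e0 p.1) p.2)
      exact one_ne_zero ((map_one ev).symm.trans (hle h1)))
  let π := Ideal.Quotient.mk 𝔪
  have hπ : Function.Surjective π := Ideal.Quotient.mk_surjective
  obtain ⟨d, hd, hdπ⟩ := ZD3_quot π hπ hD fun x hx =>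
    Ideal.Quotient.eq_zero_iff_mem.2 (hm1 x (Ideal.Quotient.eq_zero_iff_mem.1 hx))
  refine ⟨MvPolynomial σ K ⧸ 𝔪, inferInstance,
    Ideal.Quotient.nontrivial_iff.2 ((Ideal.ne_top_iff_one _).2 hm2), π.comp MvPolynomial.C, d, hd,
    (RingHom.FiniteType.of_surjective π hπ).comp ?_, fun z => ?_, fun J hJ => ?_,
    π.mapMatrix U, π.mapMatrix V, ?_, fun k l => ?_⟩
  · exact RingHom.finiteType_algebraMap.2 inferInstance
  · rw [RingHom.comp_apply, hdπ, hC]
    rfl
  · by_cases h1 : (1 : MvPolynomial σ K ⧸ 𝔪) ∈ J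
    · exact Or.inr ((Ideal.eq_top_iff_one _).2 h1)
    · refine Or.inl (eq_bot_iff.2 fun y hy => ?_)
      obtain ⟨x, rfl⟩ := hπ y
      refine Ideal.Quotient.eq_zero_iff_mem.2 (hm3 (J.comap π) (fun x hx => ?_) (fun x hx => ?_)
        (fun h' => h1 (by simpa using h')) hy)
      · rw [Ideal.mem_comap, ← hdπ]
        exact hJ _ hx
      · rw [Ideal.mem_comap, Ideal.Quotient.eq_zero_iff_mem.2 hx]
        exact zero_mem _
  · rw [← map_mul, ← sub_eq_zero, ← map_one π.mapMatrix, ← map_sub]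
    exact Matrix.ext fun k l =>
      Ideal.Quotient.eq_zero_iff_mem.2 (hm (Ideal.subset_span ⟨(k, l), rfl⟩))
  · change d (π (U k l)) = _
    rw [hdπ, hU, Matrix.mul_apply, map_sum]
    refine Finset.sum_congr rfl fun m _ => ?_
    rw [map_mul]
    rfl

end aux

theorem exists_pv {K : Type u} [Field K] [IsAlgClosed K] [CharZero K] {δ : K → K} (h : Der δ)
    {r : ℕ} (M : Matrix (Fin r) (Fin r) K) :
    ∃ (K' : Type u) (_ : Field K') (_ : IsAlgClosed K') (i : K →+* K') (δ' : K' → K'), Der δ' ∧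
      (∀ z, δ' (i z) = i (δ z)) ∧ (∀ z, δ' z = 0 → ∃ c, δ c = 0 ∧ i c = z) ∧
      ∃ U V : Matrix (Fin r) (Fin r) K', U * V = 1 ∧
        ∀ k l, δ' (U k l) = ∑ m, i (M k m) * U m l := by
  obtain ⟨R, _, _, i, d, hd, hi, hid, hs, U, V, hUV, hU⟩ := ZD3_ring h M
  have hu : ∀ n : ℕ, IsUnit ((n : R) + 1) := fun n => by
    simpa using (Ne.isUnit (Nat.cast_add_one_ne_zero (R := K) n)).map i
  have := ZD3_domain hd hu hs
  have hR : ∀ c, d c = 0 → c ∈ i.range := fun c hc => by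
    by_cases h0 : ∃ n : ℕ, c - n = 0
    · obtain ⟨n, hn⟩ := h0
      exact ⟨n, by rw [map_natCast, sub_eq_zero.1 hn]⟩
    · refine ZD3_chev i hi fun n => (ZD3_unit hd hs ?_).resolve_left fun h' => h0 ⟨n, h'⟩
      rw [hd.map_sub, hc, hd.map_natCast, sub_zero]
  let F := FractionRing R
  let L := AlgebraicClosure F
  have : CharZero F := charZero_of_injective_ringHom ((algebraMap R F).comp i).injective
  have : CharZero L := charZero_of_injective_ringHom (algebraMap F L).injective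
  obtain ⟨δ₁, h₁, e₁⟩ := (hd.comp (algebraMap R F)).extend (IsFractionRing.injective R F)
  obtain ⟨δ₂, h₂, e₂⟩ := (h₁.comp (algebraMap F L)).extend (algebraMap F L).injective
  let ψ : R →+* L := (algebraMap F L).comp (algebraMap R F)
  have eψ : ∀ x, δ₂ (ψ x) = ψ (d x) := fun x => (e₂ _).trans (congrArg _ (e₁ x))
  have ei : ∀ z, δ₂ (ψ.comp i z) = ψ.comp i (δ z) := fun z => (eψ _).trans (congrArg _ (hid z))
  refine ⟨L, inferInstance, inferInstance, ψ.comp i, δ₂, h₂, ei, fun z hz => ?_,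
    ψ.mapMatrix U, ψ.mapMatrix V, by rw [← map_mul, hUV, map_one], fun k l => ?_⟩
  · have hint : IsIntegral F z := Algebra.IsIntegral.isIntegral z
    have hl : minpoly F z ∈ Polynomial.lifts ((algebraMap R F).comp i) := by
      refine (Polynomial.lifts_iff_coeff_lifts _).2 fun n => ?_
      obtain ⟨a, ha⟩ := ZD3_frac hs h₁ e₁ (ZD3_minpoly h₁ h₂ e₂ hint hz n)
      have ha' : d a = 0 := IsFractionRing.injective R F (by
        rw [map_zero, ← ZD3_minpoly h₁ h₂ e₂ hint hz n, ← ha]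
        exact (e₁ a).symm)
      obtain ⟨c, rfl⟩ := hR a ha'
      exact ⟨c, ha⟩
    obtain ⟨P, hP⟩ := (Polynomial.mem_lifts _).1 hl
    have hP0 : P ≠ 0 := by
      rintro rfl
      exact minpoly.ne_zero hint (by rw [← hP, Polynomial.map_zero])
    obtain ⟨c, rfl⟩ := ZD3_range (ψ.comp i) hP0 (z := z) (by
      have := minpoly.aeval F z
      rwa [← hP, Polynomial.aeval_def, Polynomial.eval₂_map] at this)
    exact ⟨c, (ψ.comp i).injective (by rw [← ei, hz, map_zero]), rfl⟩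
  · change δ₂ (ψ (U k l)) = _
    rw [eψ, hU, map_sum]
    refine Finset.sum_congr rfl fun m _ => ?_
    rw [map_mul]
    rfl

end MLF
end

-- merged part: Pool.Agent.Work.MP_29d410_ag.ZD4
section
/-!
# The generic formal shift

Plan.  `exists_shift`: let `t` be a transcendence basis of `L` over `K`; `t i ↦ C (t i) + X i` defines a
homomorphism on `K[t]`, which extends to `K(t)` and lifts uniquely to `L` (formally etale,
`Algebra.FormallySmooth.exists_mkₐ_comp_eq_of_isAdicComplete`).  `g i = θ (δ (t i)) - C (δ (t i))`;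
`IsDer.eq_on_acl`.  The elements `C (ψ (t i)) + X i` are algebraically independent over `L'`; `ld_of_rk`,
`LD.mono`.
-/

open MvPowerSeries

namespace MLF

universe u

/-- Lifting along a complete ideal. -/
theorem ZD4_lift {R A S : Type u} [CommRing R] [CommRing A] [CommRing S] [Algebra R A]
    [Algebra.FormallySmooth R A] (φ : R →+* S) (I : Ideal S) [IsAdicComplete I S] (c : A →+* S)
    (h : ∀ r, φ r - c (algebraMap R A r) ∈ I) :
    ∃ θ : A →+* S, (∀ r, θ (algebraMap R A r) = φ r) ∧ ∀ z, θ z - c z ∈ I := by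
  let := φ.toAlgebra
  let f : A →ₐ[R] S ⧸ I :=
    { (Ideal.Quotient.mk I).comp c with
      commutes' := fun r => by
        change Ideal.Quotient.mk I (c (algebraMap R A r)) = Ideal.Quotient.mk I (φ r)
        exact (Ideal.Quotient.eq.2 (h r)).symm }
  obtain ⟨g, hg⟩ := Algebra.FormallySmooth.exists_mkₐ_comp_eq_of_isAdicComplete f
  refine ⟨g.toRingHom, fun r => g.commutes r, fun z => ?_⟩
  exact Ideal.Quotient.eq.1 (congr($hg z))

open scoped IntermediateField.algebraAdjoinAdjoin in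
theorem ZD4_smooth {K L ι : Type*} [Field K] [Field L] [CharZero L] [Algebra K L] {t : ι → L}
    (ht : Algebra.IsAlgebraic (IntermediateField.adjoin K (Set.range t)) L) :
    Algebra.FormallySmooth (Algebra.adjoin K (Set.range t)) L := by
  have : Algebra.FormallySmooth (Algebra.adjoin K (Set.range t))
      (IntermediateField.adjoin K (Set.range t)) :=
    .of_isLocalization (nonZeroDivisors _)
  have : CharZero (IntermediateField.adjoin K (Set.range t)) :=
    (algebraMap (IntermediateField.adjoin K (Set.range t)) L).charZero_iff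
      (algebraMap (IntermediateField.adjoin K (Set.range t)) L).injective |>.2 inferInstance
  have : Algebra.FormallyEtale (IntermediateField.adjoin K (Set.range t)) L :=
    Algebra.FormallyEtale.of_isSeparable _ L
  exact .comp _ (IntermediateField.adjoin K (Set.range t)) _

/-- The shift homomorphism. -/
theorem ZD4_theta {K L : Type u} [Field K] [Field L] [CharZero L] [Algebra K L] {m : ℕ}
    {t : Fin m → L} (hi : AlgebraicIndependent K t)
    (ht : Algebra.IsAlgebraic (IntermediateField.adjoin K (Set.range t)) L) :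
    ∃ θ : L →+* MvPowerSeries (Fin m) L, (∀ c, θ (algebraMap K L c) = C (algebraMap K L c)) ∧
      (∀ z, constantCoeff (θ z) = z) ∧ ∀ i, θ (t i) = C (t i) + X i := by
  have := ZD4_smooth ht
  let φ₀ : MvPolynomial (Fin m) K →+* MvPowerSeries (Fin m) L :=
    MvPolynomial.eval₂Hom (C.comp (algebraMap K L)) fun i => C (t i) + X i
  let φ : Algebra.adjoin K (Set.range t) →+* MvPowerSeries (Fin m) L :=
    φ₀.comp hi.aevalEquiv.symm.toRingEquiv.toRingHom
  have hφ : ∀ p, φ (hi.aevalEquiv p) = φ₀ p := fun p => by simp [φ]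
  have hv : ∀ p, algebraMap _ L (hi.aevalEquiv p) = MvPolynomial.aeval t p := fun p =>
    hi.algebraMap_aevalEquiv p
  obtain ⟨θ, h1, h2⟩ := ZD4_lift φ (Ideal.span (Set.range X)) C (fun r => by
    obtain ⟨p, rfl⟩ := hi.aevalEquiv.surjective r
    rw [hφ, hv, ← Ideal.Quotient.eq]
    have e : (Ideal.Quotient.mk (Ideal.span (Set.range X))).comp φ₀ =
        (Ideal.Quotient.mk (Ideal.span (Set.range X))).comp
          (C.comp (MvPolynomial.aeval t : MvPolynomial (Fin m) K →ₐ[K] L).toRingHom) := by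
      refine MvPolynomial.ringHom_ext (fun c => by simp [φ₀]) fun i => ?_
      have : Ideal.Quotient.mk (Ideal.span (Set.range X)) (X i : MvPowerSeries (Fin m) L) = 0 :=
        Ideal.Quotient.eq_zero_iff_mem.2 (Ideal.subset_span ⟨i, rfl⟩)
      simp [φ₀, this]
    exact congr($e p))
  refine ⟨θ, fun c => ?_, fun z => ?_, fun i => ?_⟩
  · have := h1 (hi.aevalEquiv (MvPolynomial.C c))
    rw [hφ, hv] at this
    simpa [φ₀] using this
  · have hle : Ideal.span (Set.range X) ≤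
        RingHom.ker (constantCoeff : MvPowerSeries (Fin m) L →+* L) :=
      Ideal.span_le.2 (by rintro _ ⟨i, rfl⟩; simp)
    have := hle (h2 z)
    rw [RingHom.mem_ker, map_sub, constantCoeff_C] at this
    exact sub_eq_zero.1 this
  · have := h1 (hi.aevalEquiv (MvPolynomial.X i))
    rw [hφ, hv] at this
    simpa [φ₀] using this

/-- Shifted variables are algebraically independent. -/
theorem ZD4_indep {L : Type u} [Field L] {m : ℕ} (a : Fin m → L) :
    AlgebraicIndependent L fun i => (C (a i) + X i : MvPowerSeries (Fin m) L) := by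
  let σ : MvPolynomial (Fin m) L ≃ₐ[L] MvPolynomial (Fin m) L :=
    AlgEquiv.ofAlgHom (MvPolynomial.aeval fun i => MvPolynomial.C (a i) + MvPolynomial.X i)
      (MvPolynomial.aeval fun i => MvPolynomial.X i - MvPolynomial.C (a i)) (by ext; simp)
      (by ext; simp)
  have e : (MvPolynomial.aeval fun i => (C (a i) + X i : MvPowerSeries (Fin m) L)) =
      (MvPolynomial.coeToMvPowerSeries.algHom L).comp σ.toAlgHom := by
    refine MvPolynomial.algHom_ext fun i => ?_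
    simp [σ]
  rw [AlgebraicIndependent, e]
  refine Function.Injective.comp (g := MvPolynomial.coeToMvPowerSeries.algHom L) ?_ σ.injective
  intro p q hpq
  apply MvPolynomial.coe_injective
  simpa using hpq

theorem ZD4_mpsd_C {L : Type u} [Field L] {m : ℕ} {δ : L → L} (hδ : Der δ) (a : L) :
    mpsd δ (C a : MvPowerSeries (Fin m) L) = C (δ a) := by
  ext n
  change δ (coeff n (C a)) = _
  rw [coeff_C, coeff_C]
  split_ifs
  · rfl
  · exact hδ.map_zero

theorem ZD4_mpsd_X {L : Type u} [Field L] {m : ℕ} {δ : L → L} (hδ : Der δ) (i : Fin m) :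
    mpsd δ (X i : MvPowerSeries (Fin m) L) = 0 := by
  ext n
  change δ (coeff n (X i)) = 0
  rw [coeff_X]
  split_ifs
  · exact hδ.map_one
  · exact hδ.map_zero

theorem ZD4_basis {L : Type u} [Field L] (E : Subfield L) (h : rk E (Set.univ : Set L) ≠ ⊤) :
    ∃ (m : ℕ) (t : Fin m → L), AlgebraicIndependent E t ∧ ∀ z, z ∈ acl (adj E (Set.range t)) := by
  obtain ⟨I, hI⟩ := (AlgebraicIndependent.matroid E L).exists_isBasis Set.univ (Set.subset_univ _)
  have fin : I.Finite := Set.encard_ne_top_iff.1 (by rwa [rk, hI.eRk_eq_encard] at h)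
  have := fin.fintype
  let e := (Fintype.equivFin I).symm
  have hr : Set.range (fun i => (e i : L)) = I := by
    ext x
    exact ⟨by rintro ⟨i, rfl⟩; exact (e i).2, fun hx => ⟨e.symm ⟨x, hx⟩, by simp⟩⟩
  refine ⟨_, fun i => (e i : L), ?_, fun z => ?_⟩
  · exact (show AlgebraicIndependent E (fun x : I => (x : L)) from hI.indep).comp e e.injective
  · rw [hr]
    have := hI.subset_closure (Set.mem_univ z)
    rwa [LD2_closure] at this

theorem exists_shift {K L : Type u} [Field K] [IsAlgClosed K] [Field L] [CharZero L] (j : K →+* L)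
    (h : rk j.fieldRange (Set.univ : Set L) ≠ ⊤) {δ : L → L} (hδ : Der δ)
    (hK : ∀ c, δ (j c) ∈ j.fieldRange) :
    ∃ (m : ℕ) (θ : L →+* MvPowerSeries (Fin m) L) (g : Fin m → MvPowerSeries (Fin m) L),
      (∀ c, θ (j c) = C (j c)) ∧ (∀ z, constantCoeff (θ z) = z) ∧
      (∀ z, θ (δ z) = mpsd δ (θ z) + ∑ i, g i * pderiv L i (θ z)) ∧
      ∀ (L' Φ : Type u) [Field L'] [Field Φ] (ψ : L →+* L') (ι : MvPowerSeries (Fin m) L' →+* Φ),
        Function.Injective ι → LD ((ι.comp C).comp (ψ.comp j)).fieldRange (ι.comp C).fieldRange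
          (ι.comp ((map ψ).comp θ)).fieldRange := by
  obtain ⟨m, t, hi, hacl⟩ := ZD4_basis j.fieldRange h
  have halg : Algebra.IsAlgebraic (IntermediateField.adjoin j.fieldRange (Set.range t)) L := by
    refine ⟨fun z => ?_⟩
    have := hacl z
    rw [← LD2_adj_eq, mem_acl] at this
    exact this
  obtain ⟨θ, h1, h2, h3⟩ := ZD4_theta hi halg
  have h1' : ∀ z ∈ j.fieldRange, θ z = C z := fun z hz => h1 ⟨z, hz⟩
  refine ⟨m, θ, fun i => θ (δ (t i)) - C (δ (t i)), fun c => h1' _ ⟨c, rfl⟩, h2, fun z => ?_, ?_⟩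
  · have : IsDomain (MvPowerSeries (Fin m) L) := NoZeroDivisors.to_isDomain _
    have d1 : IsDer θ fun z => θ (δ z) := hδ.comp θ
    have d2 : IsDer θ fun z => mpsd δ (θ z) := (hδ.mpsd (ρ := Fin m)).precomp θ
    have d3 : IsDer θ fun z => ∑ i, (θ (δ (t i)) - C (δ (t i))) * pderiv L i (θ z) :=
      IsDer.sum' (δ := fun i z => pderiv L i (θ z)) (fun i => (der_pderiv L i).precomp θ) _
    refine d1.eq_on_acl (d2.add' d3) (E := j.fieldRange) (s := Set.range t) ?_ ?_ z (hacl z)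
    · rintro _ ⟨c, rfl⟩
      simp only [h1' _ (hK c), h1' _ ⟨c, rfl⟩, ZD4_mpsd_C hδ, pderiv_C, mul_zero,
        Finset.sum_const_zero, add_zero]
    · rintro _ ⟨i, rfl⟩
      have e : mpsd δ (C (t i) + X i : MvPowerSeries (Fin m) L) = C (δ (t i)) := by
        rw [(hδ.mpsd (ρ := Fin m)).add, ZD4_mpsd_C hδ, ZD4_mpsd_X hδ, add_zero]
      simp only [h3, e, map_add, pderiv_C, zero_add]
      rw [Finset.sum_eq_single i (fun k _ hk => by rw [pderiv_X_of_ne hk.symm, mul_zero])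
        (by simp), pderiv_X_self]
      ring
  · intro L' Φ _ _ ψ ι hι
    set θ' : L →+* Φ := ι.comp ((map ψ).comp θ) with hθ'
    have hk : ((ι.comp C).comp (ψ.comp j)).fieldRange = j.fieldRange.map θ' := by
      rw [RingHom.map_fieldRange]
      congr 1
      ext c
      simp [hθ', h1' _ ⟨c, rfl⟩]
    have hle : ((ι.comp C).comp (ψ.comp j)).fieldRange ≤ (ι.comp C).fieldRange := by
      rintro _ ⟨c, rfl⟩
      exact ⟨ψ (j c), rfl⟩
    have hind : AlgebraicIndependent (ι.comp C).fieldRange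
        (ι ∘ fun i => (C (ψ (t i)) + X i : MvPowerSeries (Fin m) L')) :=
      (ZD4_indep fun i => ψ (t i)).ringHom_of_comp_eq (ι.comp C).rangeRestrictField ι
        (fun ⟨_, c, rfl⟩ => ⟨c, rfl⟩) hι (by ext c; rfl)
    have hs : θ' '' Set.range t =
        Set.range (ι ∘ fun i => (C (ψ (t i)) + X i : MvPowerSeries (Fin m) L')) := by
      rw [← Set.range_comp]
      congr 1
      ext i
      simp [hθ', h3]
    have hI : (AlgebraicIndependent.matroid (ι.comp C).fieldRange Φ).Indep (θ' '' Set.range t) := by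
      rw [hs]
      exact hind.to_subtype_range
    refine ((LD2_ld_adj hle hI).acl hle (le_adj _ _)).mono (le_acl _) ?_
    rintro _ ⟨z, rfl⟩
    rw [hk, ← map_adj]
    exact map_acl θ' _ ⟨z, hacl z, rfl⟩

end MLF
end

-- merged part: Pool.Agent.Work.MP_29d410_ag.ZF4
section
/-!
# The key step in characteristic zero

Plan.  `exists_shift` (with `d (j c) = j (δ c)`) gives `θ`, `g`; `D₁ = mpsd d + ∑ g i * pderiv i` (`IsDer.add'`,
`IsDer.sum'`); `exists_ode` gives `w`, `b`, `M`; `exists_pv` gives `K'`, `U`, `V` with `δ' U = M U`, so `δ' V = - V M`.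
`exists_amalg`, `IsDer.amalg` give `Ω` with a derivation `dΩ` extending `d` and `δ'`; `κ = cst dΩ`; `Der.sld` for `j'`
(the constants of `K'` come from `K`).  On `Ω⟦Z⟧` let `D₂ = mpsd dΩ + ∑ map ψ (g i) * pderiv i`, so
`D₂ ∘ map ψ = map ψ ∘ D₁`; `w' l = ∑ C (j' (V l k)) * map ψ (w k)` is killed by `D₂`.  The point
`u = map (map ψ) (pmap θ x - pmap C x)` has `lg u a = ∑ C (j' (∑ k, i (b k a) * U k l)) * w' l` (`lg_map`, `shift_K1'`).
`loc_shift` with `χ = map ψ ∘ θ`, `loc_fix`, `rat_of_stab` with `X = ext (loc x)` (`stab_ext_finite`, `mem_ext_map`).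
-/

open MvPowerSeries

namespace MLF

universe u

open PG

theorem ZF4_lin {R S : Type u} [CommRing R] [CommRing S] (f : R →+* S) {r : ℕ}
    {U V : Matrix (Fin r) (Fin r) R} (h : U * V = 1) (β : Fin r → R) (ω : Fin r → S) :
    ∑ l, f (∑ k, β k * U k l) * ∑ k, f (V l k) * ω k = ∑ k, f (β k) * ω k := by
  have h1 : ∀ k, ∑ l, (∑ m, β m * U m l) * V l k = β k := fun k => by
    have h2 := congrFun (Matrix.vecMul_vecMul β U V) k
    rw [h, Matrix.vecMul_one] at h2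
    exact h2
  simp only [Finset.mul_sum, ← mul_assoc, ← map_mul]
  rw [Finset.sum_comm]
  refine Finset.sum_congr rfl fun k _ => ?_
  rw [← Finset.sum_mul, ← map_sum, h1]

theorem ZF4_inv {R : Type u} [CommRing R] {δ : R → R} (hδ : Der δ) {r : ℕ}
    {M U V : Matrix (Fin r) (Fin r) R} (h : U * V = 1)
    (hU : ∀ k l, δ (U k l) = ∑ m, M k m * U m l) (k l : Fin r) :
    ∑ m, V k m * M m l + δ (V k l) = 0 := by
  have h0 : U * V.map δ + U.map δ * V = 0 := by
    ext a c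
    have h1 := congrArg δ (congrFun (congrFun h a) c)
    rw [Matrix.mul_apply, hδ.map_sum] at h1
    have h2 : δ ((1 : Matrix (Fin r) (Fin r) R) a c) = 0 := by
      rw [Matrix.one_apply]
      split_ifs
      · exact hδ.map_one
      · exact hδ.map_zero
    rw [Matrix.add_apply, Matrix.mul_apply, Matrix.mul_apply, ← Finset.sum_add_distrib,
      Matrix.zero_apply, ← h2, ← h1]
    exact Finset.sum_congr rfl fun m _ => (hδ.mul _ _).symm
  have h1 : U.map δ = M * U := by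
    ext a c
    exact hU a c
  have h2 : V * M + V.map δ = 0 := by
    have h3 := congrArg (V * ·) h0
    simp only [h1, mul_add, ← mul_assoc, mul_eq_one_comm.1 h, one_mul, mul_zero] at h3
    rw [mul_assoc _ U V, h, mul_one, add_comm] at h3
    exact h3
  exact congrFun (congrFun h2 k) l

theorem ZF4_pderiv {R S : Type u} [CommRing R] [CommRing S] (ψ : R →+* S) {ρ : Type} (i : ρ)
    (f : MvPowerSeries ρ R) : pderiv S i (map ψ f) = map ψ (pderiv R i f) := by
  ext n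
  simp [coeff_pderiv]

theorem ZF4_der {R : Type u} [CommRing R] {d : R → R} (hd : Der d) {m : ℕ}
    (g : Fin m → MvPowerSeries (Fin m) R) :
    Der fun f : MvPowerSeries (Fin m) R => mpsd d f + ∑ i, g i * pderiv R i f :=
  hd.mpsd.add' (IsDer.sum' (δ := fun i f => pderiv R i f) (fun i => der_pderiv R i) g)

theorem Df.key {A : SPG.{u}} {K L : Type u} [Field K] [IsAlgClosed K] [CharZero K] [Field L]
    [CharZero L] {𝒟 : Df A K} {W : Submodule K (A.τ × ℕ → K)} {j : K →+* L} {δ : K → K} {d : L → L}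
    (hδ : Der δ) (hD : 𝒟.D = hδ.taylor) (hW : Fin0 W) (hA : 𝒟.All W) (hd : Der d)
    (e : ∀ z, d (j z) = j (δ z)) (hr : rk j.fieldRange (Set.univ : Set L) ≠ ⊤) {x : 𝒟.P j}
    (hx : A.map hd.taylor (Df.push_taylor hδ hD hd e) x ∈ 𝒟.S W j)
    (hS : (Stab (loc j 𝒟.s x) : Set (A.Pt 𝒟.s)).Finite) :
    ∃ (K' Ω : Type u) (_ : Field K') (_ : IsAlgClosed K') (_ : Field Ω) (_ : IsAlgClosed Ω)
      (i : K →+* K') (ψ : L →+* Ω) (j' : K' →+* Ω) (κ : Subfield Ω) (_ : IsAlgClosed κ) (n : ℕ),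
      ψ.comp j = j'.comp i ∧ LD (ψ.comp j).fieldRange ψ.fieldRange j'.fieldRange ∧
      hδ.cst.map (j'.comp i) ≤ κ ∧ LD (hδ.cst.map (j'.comp i)) j'.fieldRange κ ∧ n ≠ 0 ∧
      Rat (j'.fieldRange ⊔ κ) (A.map ψ rfl (n • x)) := by
  obtain ⟨m, θ, g, t1, t2, t3, t4⟩ := exists_shift j hr hd fun c => ⟨δ c, (e c).symm⟩
  have h₁ : θ.comp j = C.comp j := RingHom.ext t1
  obtain ⟨r, w, b, M, w0, wD, wl⟩ := Df.exists_ode hδ hD hW hA hd e h₁ t2 (ZF4_der hd g)
    (fun z => (t3 z).symm) (fun z => by simp [ZD4_mpsd_C hd]) hx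
  obtain ⟨K', _, _, i, δ', hδ', ei, ec, U, V, UV, hU⟩ := exists_pv hδ M
  obtain ⟨Ω, _, _, ψ, j', eψ, hLD⟩ := exists_amalg j i
  have : CharZero Ω := (RingHom.charZero_iff ψ.injective).1 inferInstance
  have : CharZero K' := (RingHom.charZero_iff i.injective).1 inferInstance
  have eψ' : ∀ c, ψ (j c) = j' (i c) := RingHom.congr_fun eψ
  obtain ⟨dΩ, hΩ, e₁, e₂⟩ := IsDer.amalg eψ hLD (δ₁ := fun z => ψ (d z)) (δ₂ := fun z => j' (δ' z))
    (hd.comp ψ) (hδ'.comp j') fun c => by rw [e, ei, eψ']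
  have hc : hδ'.cst.map j' = hδ.cst.map (j'.comp i) := by
    ext z
    constructor
    · rintro ⟨y, hy, rfl⟩
      obtain ⟨c, h1, rfl⟩ := ec y (hδ'.mem_cst.1 hy)
      exact ⟨c, hδ.mem_cst.2 h1, rfl⟩
    · rintro ⟨c, h1, rfl⟩
      exact ⟨i c, hδ'.mem_cst.2 (by rw [ei, hδ.mem_cst.1 h1, map_zero]), rfl⟩
  have hm : ∀ f : MvPowerSeries (Fin m) L,
      mpsd dΩ (MvPowerSeries.map ψ f) + ∑ i, MvPowerSeries.map ψ (g i) * pderiv Ω i (MvPowerSeries.map ψ f) =
        MvPowerSeries.map ψ (mpsd d f + ∑ i, g i * pderiv L i f) := fun f => by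
    rw [map_add, map_sum]
    congr 1
    · ext n
      exact e₁ _
    · exact Finset.sum_congr rfl fun i _ => by rw [map_mul, ZF4_pderiv]
  have hD₂ := ZF4_der hΩ fun i => MvPowerSeries.map ψ (g i)
  generalize hD₂' : (fun f : MvPowerSeries (Fin m) Ω =>
    mpsd dΩ f + ∑ i, MvPowerSeries.map ψ (g i) * pderiv Ω i f) = D₂ at hD₂
  have hC : ∀ c, D₂ (C c) = C (dΩ c) := fun c => by simp [← hD₂', ZD4_mpsd_C hΩ]
  have hw : ∀ k, D₂ (MvPowerSeries.map ψ (w k)) = ∑ l, C (j' (i (M k l))) * MvPowerSeries.map ψ (w l) := fun k => by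
    rw [← hD₂']
    exact (hm _).trans (by simp [wD k, eψ'])
  have hw' : ∀ l, D₂ (∑ k, C (j' (V l k)) * MvPowerSeries.map ψ (w k)) = 0 := fun l => by
    simp only [hD₂.map_sum, hD₂.mul, RingHom.id_apply, hC, hw, e₂, Finset.mul_sum,
      Finset.sum_add_distrib, ← mul_assoc, ← map_mul]
    rw [Finset.sum_comm, ← Finset.sum_add_distrib]
    refine Finset.sum_eq_zero fun k _ => ?_
    rw [← Finset.sum_mul, ← add_mul, ← map_sum, ← map_sum, ← map_add, ← map_add]
    rw [show ∑ a, V l a * i (M a k) + δ' (V l k) = 0 from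
      ZF4_inv hδ' (M := M.map i) UV hU l k, map_zero, map_zero, zero_mul]
  have hχ : ((MvPowerSeries.map ψ).comp θ).comp j = C.comp (ψ.comp j) := RingHom.ext fun c => by simp [t1]
  have hχ' : (MvPowerSeries.map (σ := Fin m) ψ).comp C = C.comp ψ := RingHom.ext fun c => by simp
  have p₁ : A.push (ψ.comp j) 𝒟.s = A.push ψ (A.push j 𝒟.s) := (A.ax.push_comp _ _ _).symm
  have p₂ : A.push ((MvPowerSeries.map ψ).comp θ) (A.push j 𝒟.s) = A.push C (A.push ψ (A.push j 𝒟.s)) := by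
    rw [A.ax.push_comp, hχ, ← p₁, A.ax.push_comp]
  have p₃ : A.push (MvPowerSeries.map ψ) (A.push ((C : L →+* MvPowerSeries (Fin m) L).comp j) 𝒟.s) =
      A.push C (A.push ψ (A.push j 𝒟.s)) := by
    rw [A.ax.push_comp, ← RingHom.comp_assoc, hχ', ← p₁, A.ax.push_comp, RingHom.comp_assoc]
  have hu : A.map _ p₂ x - A.map C rfl (A.map ψ rfl x) =
      A.map _ p₃ (𝒟.pmap θ h₁ x - 𝒟.pmap C rfl x) := by
    rw [map_sub, Df.pmap, Df.pmap, PG.map_map, PG.map_map, PG.map_map]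
    congr 1
    exact map_congr hχ'.symm _ _ x
  have hψ : ∀ z ∈ mX (Fin m) L, MvPowerSeries.map ψ z ∈ mX (Fin m) Ω := fun z hz => by
    rw [mem_mX] at hz ⊢
    rw [constantCoeff_map, hz, map_zero]
  have hK := Df.shift_K1' h₁ t2 x
  have hl := SPG.lg_map (φ' := C.comp (ψ.comp j)) rfl (SPG.Chart_mX_ne _) (MvPowerSeries.map ψ) p₃
    (by rw [← RingHom.comp_assoc, hχ', RingHom.comp_assoc]) (SPG.Chart_mX_ne _) hψ hK
  obtain ⟨n, hn, hrat⟩ := PG.rat_of_stab (E := j'.fieldRange ⊔ hΩ.cst) (x := A.map ψ rfl x)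
    (def_range (ψ.comp j) 𝒟.s p₁ (le_sup_of_le_left (by
      rintro _ ⟨c, rfl⟩
      exact ⟨i c, (eψ' c).symm⟩))) (cl_ext (ψ.comp j) _ (loc j 𝒟.s x))
    ((stab_ext_finite p₁ (cl_loc j x)).2 hS) (fun τ hτ e' y hy => by
      have h1 := mem_ext_map (τ : Ω →+* Ω) e' hy
      rwa [show (τ : Ω →+* Ω).comp (ψ.comp j) = ψ.comp j from RingHom.ext fun c =>
        hτ _ (le_sup_left (a := j'.fieldRange) ⟨i c, (eψ' c).symm⟩)] at h1)
    fun τ hτ e' y hy => by
      rw [← PG.loc_shift hχ (t4 Ω · ψ) rfl rfl rfl p₂ x, hu] at hy ⊢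
      refine SPG.loc_fix p₁ rfl hΩ hD₂ hC (w := fun l => ∑ k, C (j' (V l k)) * MvPowerSeries.map ψ (w k))
        (fun l => by simp [w0]) hw' (a := fun a l => j' (∑ k, i (b k a) * U k l))
        (SPG.Chart_cong_map _ p₃ hψ hK) (fun a => ?_) τ
        (fun z hz => hτ z (le_sup_right (a := j'.fieldRange) (hΩ.mem_cst.2 hz)))
        (fun c => hτ _ (le_sup_left (a := j'.fieldRange) ⟨i c, (eψ' c).symm⟩))
        (fun a l => hτ _ (le_sup_left (a := j'.fieldRange) ⟨_, rfl⟩)) e' hy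
      rw [hl, Function.comp_apply, wl]
      refine Eq.trans ?_ (ZF4_lin (C.comp j') UV (fun k => i (b k a)) fun k => MvPowerSeries.map ψ (w k)).symm
      simp [eψ', mul_comm]
  refine ⟨K', Ω, _, inferInstance, _, inferInstance, i, ψ, j', hΩ.cst, inferInstance, n, eψ, hLD,
    ?_, hc ▸ hδ'.sld hΩ j' e₂, hn, by rwa [map_nsmul]⟩
  rintro _ ⟨c, h1, rfl⟩
  exact hΩ.mem_cst.2 (by rw [RingHom.comp_apply, e₂, ei, hδ.mem_cst.1 h1, map_zero, map_zero])

end MLF
end
end

-- merged part: Pool.Agent.Work.MP_29d410_ag.ZS5c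
section
-- merged part: Pool.Agent.Work.MP_29d410_ag.ZS5b
section
/-!
# A generic point whose Taylor expansion is a complete lift

Plan.  `exists_ult`: `GermPS` induces `gps : UP 𝒰 T⟦ε⟧ →+* (UP 𝒰 T)⟦ε⟧`; `ult y = map gps (gpt y)`.  For `lv` use
`c_gpt`, `c_map` and `TN.map_ev` in the ring `(I → T)⟦ε⟧` (see `CaseU2_ev`), or `Ev2_ev_trunc`.
`ult_mem`: the classes of the `f` with `f i ∈ (Q i).W` for most `i` form a valuation ring of `UP 𝒰 T`, with a
homomorphism to `UP 𝒰 K`, that is a place `Q`; the vectors of the points `y' i` define a point over `Q.W`, whose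
image in `UP 𝒰 T` is `emap gc y - ult u ∈ S` (`S_emap`, `S_of_lv`, `exists_pr`) and whose reduction is
`ult e`; `S_red`.
`exists_gen`: `exists_all`, `exists_sec`; enlarge `W` by the vectors `lv (D b - g b)` for `b` in the finite set of
`FR Λ`, `g b ∈ G` over `b`; then `lv (D x - g) ∈ W` for `x ∈ Λ`, `g ∈ G` over `x` (`lv_nsmul`).  `exists_ultra`,
`Der.exists_up`; the Taylor expansion of `gpt id` is `ult (fun x => D x) = ult (g + e₀) - e₀ + ult (D x - g)`.
`exists_gen'`: `L₀ = acl K(rat x, finitely many entries of lv)` contains the coefficients of normalised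
coordinates of `y = y₀ + u₁ + u₂` (`All` over `acl K(rat x)`, `S_inter`, `exists_pr`); these are the
`δ^n v / n!`; `L = acl K(δ^n v)` is stable under `δ` (`Der.mem_acl`); `S_desc`, `Der.map_taylor`.
-/

namespace MLF

universe u

open PG

/-- The ultraproduct of a family of places is a place. -/
theorem ZS5b_place {K T : Type u} [Field K] [Field T] {I : Type u} (𝒰 : Ultrafilter I)
    {j : K →+* T} (Q : I → Place j (RingHom.id K)) :
    ∃ (P : Place ((gc 𝒰 T).comp j) (gc 𝒰 K)) (π : (∀ i, (Q i).W) →+* P.W),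
      (∀ f, (π f : UP 𝒰 T) = gm 𝒰 fun i => (f i : T)) ∧
      ∀ f, P.r (π f) = gm 𝒰 fun i => (Q i).r (f i) := by
  classical
  let π₀ : (∀ i, (Q i).W) →+* UP 𝒰 T :=
    (GermH 𝒰).comp (RingHom.pi fun i => (Q i).W.subtype.comp (Pi.evalRingHom _ i))
  let ρ : (∀ i, (Q i).W) →+* UP 𝒰 K :=
    (GermH 𝒰).comp (RingHom.pi fun i => (Q i).r.comp (Pi.evalRingHom _ i))
  have hm : ∀ f : I → T, (∀ᶠ i in (𝒰 : Filter I), f i ∈ (Q i).W) → gm 𝒰 f ∈ π₀.range := by
    intro f hf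
    refine ⟨fun i => if h : f i ∈ (Q i).W then ⟨f i, h⟩ else 0, ?_⟩
    refine (Germ_eq 𝒰).2 (hf.mono fun i hi => ?_)
    change ((if h : f i ∈ (Q i).W then (⟨f i, h⟩ : (Q i).W) else 0 : (Q i).W) : T) = f i
    rw [dif_pos hi]
  let 𝒲 : ValuationSubring (UP 𝒰 T) := ValuationSubring.ofSubring π₀.range (by
    intro z
    obtain ⟨f, rfl⟩ := Germ_surj 𝒰 z
    have h : ∀ᶠ i in (𝒰 : Filter I), f i ∈ (Q i).W ∨ (f i)⁻¹ ∈ (Q i).W :=
      Filter.Eventually.of_forall fun i => (Q i).W.mem_or_inv_mem (f i)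
    exact (Ultrafilter.eventually_or.1 h).imp (hm f) (hm fun i => (f i)⁻¹))
  let π : (∀ i, (Q i).W) →+* 𝒲 := π₀.codRestrict 𝒲.toSubring fun f => ⟨f, rfl⟩
  have hs : Function.Surjective π := by
    rintro ⟨z, f, rfl⟩
    exact ⟨f, rfl⟩
  have hk : RingHom.ker π ≤ RingHom.ker ρ := by
    intro f hf
    have h1 : gm 𝒰 (fun i => (f i : T)) = 0 := congrArg Subtype.val hf
    refine (Germ_zero 𝒰).2 (((Germ_zero 𝒰).1 h1).mono fun i hi => ?_)
    have h2 : f i = 0 := Subtype.ext hi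
    change (Q i).r (f i) = 0
    rw [h2, map_zero]
  have hr : ∀ f, π.liftOfSurjective hs ⟨ρ, hk⟩ (π f) = ρ f := fun f =>
    π.liftOfRightInverse_comp_apply _ _ _ f
  refine ⟨⟨𝒲, fun c => ⟨fun i => (Q i).jW c, rfl⟩, π.liftOfSurjective hs ⟨ρ, hk⟩, fun c => ?_⟩,
    π, fun f => rfl, hr⟩
  refine (hr fun i => (Q i).jW c).trans ?_
  exact congrArg (gm 𝒰) (funext fun i => (Q i).r_j c)

namespace Df

variable {A : SPG.{u}} {K T : Type u} [Field K] [IsAlgClosed K] [CharZero K] [Field T] {𝒟 : Df A K}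
  {W : Submodule K (A.τ × ℕ → K)} {I : Type u} (𝒰 : Ultrafilter I)

theorem ult_mem (hW : Fin0 W) {j : K →+* T} {y : 𝒟.E j} (hy : y ∈ 𝒟.S W j)
    {e : I → 𝒟.E (RingHom.id K)} (he : ∀ i, Sg W y (e i)) {z : 𝒟.E (gc 𝒰 K)}
    {v : I → A.σ → PowerSeries K} (hv : ∀ i, A.Rep (e i) (v i))
    (hz : A.Rep z fun a => GermPS 𝒰 fun i => v i a) : z ∈ 𝒟.S W (gc 𝒰 K) := by
  choose Q y' u hu0 huW hy1 hy2 using he
  choose w hw using fun i => A.ax.exists_rep (y' i)
  obtain ⟨P, π, hπ, hr⟩ := ZS5b_place 𝒰 Q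
  obtain ⟨Ψ, Ψ1, Ψ2, Ψ3⟩ := exists_ult (𝒟 := 𝒟) 𝒰 j rfl
  obtain ⟨Θ, Θ1, -, -⟩ := exists_ult (𝒟 := 𝒟) 𝒰 (RingHom.id K) (RingHom.comp_id (gc 𝒰 K))
  let V : A.σ → PowerSeries P.W := fun a =>
    PowerSeries.mk fun n => π fun i => PowerSeries.coeff n (w i a)
  have hV1 : PowerSeries.map P.W.subtype ∘ V =
      fun a => GermPS 𝒰 fun i => (PowerSeries.map (Q i).W.subtype ∘ w i) a := by
    funext a
    ext n
    rw [Function.comp_apply, PowerSeries.coeff_map, GermPS_coeff, PowerSeries.coeff_mk]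
    exact hπ _
  have hV2 : PowerSeries.map P.r ∘ V =
      fun a => GermPS 𝒰 fun i => (PowerSeries.map (Q i).r ∘ w i) a := by
    funext a
    ext n
    rw [Function.comp_apply, PowerSeries.coeff_map, GermPS_coeff, PowerSeries.coeff_mk]
    exact hr _
  have hU : Uni V := by
    obtain ⟨a, ha⟩ := Ultrafilter.eventually_exists_iff.1
      (Filter.Eventually.of_forall (f := (𝒰 : Filter I)) fun i => A.ax.rep_uni (hw i))
    refine ⟨a, PowerSeries.isUnit_iff_constantCoeff.2 ?_⟩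
    rw [← PowerSeries.coeff_zero_eq_constantCoeff_apply, PowerSeries.coeff_mk]
    refine IsUnit.of_mul_eq_one (π fun i => Ring.inverse (PowerSeries.coeff 0 (w i a))) ?_
    rw [← map_mul]
    refine Subtype.ext ((hπ _).trans ((Germ_eq 𝒰).2 (ha.mono fun i hi => ?_)))
    have h1 : IsUnit (PowerSeries.coeff 0 (w i a)) := by
      rw [PowerSeries.coeff_zero_eq_constantCoeff_apply]
      exact PowerSeries.isUnit_iff_constantCoeff.1 hi
    exact congrArg Subtype.val (Ring.mul_inverse_cancel _ h1)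
  have h1 : A.Rep (Ψ fun i => y - u i) (PowerSeries.map P.W.subtype ∘ V) := by
    rw [hV1]
    refine Ψ1 _ _ (Filter.Eventually.of_forall fun i => ?_)
    rw [← hy1 i]
    exact rep_map _ _ (hw i)
  have hinj : Function.Injective (PowerSeries.map P.W.subtype) :=
    PowerSeries.map_injective _ Subtype.val_injective
  obtain ⟨Y, hY, hY'⟩ := PB_exists_map_eq hinj
    (𝒟.push_emap (j := P.jW) (j' := (gc 𝒰 T).comp j) (ψ := P.W.subtype) rfl) hU h1
  have h2 : (Ψ fun i => y - u i) ∈ 𝒟.S W ((gc 𝒰 T).comp j) := by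
    have e1 : (fun i => y - u i) = (fun _ => y) - u := rfl
    obtain ⟨h3, h4⟩ := Ψ3 u (Filter.Eventually.of_forall hu0)
    rw [e1, map_sub, Ψ2]
    refine sub_mem (S_emap _ _ hy) (S_of_lv h3 ?_)
    have := hW.fin
    obtain ⟨n, pos, b, -, -, hrep⟩ := exists_pr W
    rw [h4, hrep]
    intro a
    simp only [RingHom.comp_apply, Germ_gc, ← Germ_mul, ← Germ_sum]
    exact congrArg (gm 𝒰) (funext fun i => (hrep T j _).1 (huW i) a)
  have h5 := S_red hW P (y := Y) (by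
    rw [← hY'] at h2
    exact h2)
  have h6 : 𝒟.emap (j' := gc 𝒰 K) P.r (RingHom.ext P.r_j) Y = Θ e := by
    refine map_eq_of_rep _ _ hY ?_
    rw [hV2]
    refine Θ1 _ _ (Filter.Eventually.of_forall fun i => ?_)
    rw [← hy2 i]
    exact rep_map _ _ (hw i)
  rw [A.ax.rep_inj hz (Θ1 _ _ (Filter.Eventually.of_forall hv)), ← h6]
  exact h5

end Df

end MLF
end

-- merged part: Pool.Agent.Work.MP_29d410_ag.ZD2c
section
/-!
# Derivations and power series

Plan.  `taylor`: `D z = ∑ δ^n z / n! * X ^ n` (Leibniz formula by induction).  `tn_dn`: `DN R` is complete for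
the ideal of the elements with first component in `𝔟`.  `ev_der`: the homomorphisms
`h ↦ dn (ev C w h)` and `h ↦ (ev C w h, ev C w (mpsd δ₀ h))` agree on constants and variables (`hom_ext`).
`ker_inv`: apply `inv_span` to the truncations below degree `N` of the kernel (`ev_der` shows that the
kernel is stable under `mpsd δ₀`), then `TN.ev_mem_pow`.
`exists_big`: extend `d/dX` (`IsDer.extend`); a constant `z` is algebraic over the Laurent series, the
coefficients of its minimal polynomial are constants, and a constant quotient of power series lies in `C`.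
-/

open PowerSeries

namespace MLF

universe u

variable {R S : Type u} [CommRing R] [CommRing S] {F L : Type u} [Field F] [CharZero F] [Field L]
  [CharZero L] {ρ : Type} [Finite ρ]

theorem ZD2c_alg {K Ω : Type u} [Field K] [Field Ω] [Algebra K Ω] {δ : Ω → Ω} (h : Der δ)
    (hK : ∀ a : K, ∃ a' : K, δ (algebraMap K Ω a) = algebraMap K Ω a') {z : Ω}
    (hz : IsIntegral K z) (h0 : δ z = 0) (i : ℕ) :
    δ (algebraMap K Ω ((minpoly K z).coeff i)) = 0 := by
  choose d hd using hK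
  have hm := minpoly.monic hz
  have hp : ∀ n : ℕ, δ (z ^ n) = 0 := fun n => by
    cases n with
    | zero => rw [pow_zero, h.map_one]
    | succ n => rw [h.map_pow, h0, mul_zero]
  rcases lt_trichotomy i (minpoly K z).natDegree with hi | rfl | hi
  · have e := minpoly.aeval K z
    rw [Polynomial.aeval_eq_sum_range, Finset.sum_range_succ, hm.coeff_natDegree, one_smul,
      ← Fin.sum_univ_eq_sum_range (fun i => (minpoly K z).coeff i • z ^ i)] at e
    have e' := congrArg δ e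
    rw [h.add, hp, add_zero, h.map_zero, h.map_sum] at e'
    have := Fintype.linearIndependent_iff.1 (linearIndependent_pow (K := K) z)
      (fun i => d ((minpoly K z).coeff i)) (by
        refine Eq.trans (Finset.sum_congr rfl fun i _ => ?_) e'
        rw [Algebra.smul_def, Algebra.smul_def, h.mul, hp, mul_zero, zero_add, hd]
        rfl) ⟨i, hi⟩
    rw [hd, this, map_zero]
  · rw [hm.coeff_natDegree, map_one, h.map_one]
  · rw [Polynomial.coeff_eq_zero_of_natDegree_lt hi, map_zero, h.map_zero]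

theorem exists_big (C : Type u) [Field C] [IsAlgClosed C] [CharZero C] :
    ∃ δ : Big C → Big C, Der δ ∧ ∀ z, δ z = 0 ↔ z ∈ (cB C).fieldRange := by
  have hι : ∀ f, ιB C f = algebraMap (FractionRing (PowerSeries C)) (Big C)
      (algebraMap (PowerSeries C) (FractionRing (PowerSeries C)) f) := fun f =>
    IsScalarTower.algebraMap_apply _ _ _ f
  have hj : Function.Injective (ιB C) := fun f g e => by
    rw [hι, hι] at e
    exact IsFractionRing.injective (PowerSeries C) (FractionRing (PowerSeries C))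
      ((algebraMap (FractionRing (PowerSeries C)) (Big C)).injective e)
  have : CharZero (Big C) := ((cB C).charZero_iff (cB C).injective).1 inferInstance
  obtain ⟨δ, hδ, e⟩ := IsDer.extend (j := ιB C) hj ((der_deriv C).comp (ιB C))
  have hc : ∀ f, δ (ιB C f) = 0 → ιB C f ∈ (cB C).fieldRange := fun f hf => by
    rw [e, map_eq_zero_iff _ hj] at hf
    refine ⟨constantCoeff f, congrArg (ιB C) (derivative.ext ?_ ?_)⟩
    · rw [hf, derivative_C]
    · rw [constantCoeff_C]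
  have hK : ∀ a : FractionRing (PowerSeries C), ∃ a',
      δ (algebraMap _ (Big C) a) = algebraMap (FractionRing (PowerSeries C)) (Big C) a' := by
    intro a
    obtain ⟨f, g, hg, rfl⟩ := IsFractionRing.div_surjective (A := PowerSeries C) a
    have g0 : ιB C g ≠ 0 := (map_ne_zero_iff _ hj).2 (nonZeroDivisors.ne_zero hg)
    refine ⟨(algebraMap _ _ (derivative C f) - algebraMap _ _ f / algebraMap _ _ g *
      algebraMap _ _ (derivative C g)) / algebraMap _ _ g, ?_⟩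
    simp only [map_div₀, map_sub, map_mul, ← hι]
    have h1 := hδ.mul (ιB C f / ιB C g) (ιB C g)
    rw [div_mul_cancel₀ _ g0, e, e] at h1
    simp only [RingHom.id_apply] at h1
    rw [eq_div_iff g0, h1]
    ring
  have hB : ∀ a : FractionRing (PowerSeries C), δ (algebraMap _ (Big C) a) = 0 →
      algebraMap _ (Big C) a ∈ (cB C).fieldRange := by
    intro a ha
    rcases ValuationRing.isInteger_or_isInteger (PowerSeries C) a with ⟨f, hf⟩ | ⟨f, hf⟩
    · rw [← hf, ← hι] at ha ⊢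
      exact hc f ha
    · have h1 : ιB C f = (algebraMap _ (Big C) a)⁻¹ := by rw [hι, hf, map_inv₀]
      have h2 := hc f (by rw [h1]; exact hδ.mem_cst.1 (hδ.cst.inv_mem (hδ.mem_cst.2 ha)))
      rw [h1] at h2
      exact inv_mem_iff.1 h2
  refine ⟨δ, hδ, fun z => ⟨fun hz => ?_, ?_⟩⟩
  · have hi : IsIntegral (FractionRing (PowerSeries C)) z := Algebra.IsIntegral.isIntegral z
    have hl : (minpoly (FractionRing (PowerSeries C)) z).map (algebraMap _ (Big C)) ∈
        Polynomial.lifts (cB C) := by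
      rw [Polynomial.lifts_iff_coeff_lifts]
      intro n
      rw [Polynomial.coeff_map]
      exact hB _ (ZD2c_alg hδ hK hi hz n)
    obtain ⟨p, hp⟩ := (Polynomial.mem_lifts _).1 hl
    have p0 : p ≠ 0 := by
      rintro rfl
      rw [Polynomial.map_zero] at hp
      exact ((minpoly.monic hi).map _).ne_zero hp.symm
    refine (IsAlgClosed.splits p).mem_range_of_isRoot p0 ?_
    rw [hp, Polynomial.IsRoot, Polynomial.eval_map_algebraMap]
    exact minpoly.aeval _ z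
  · rintro ⟨c, rfl⟩
    have := e (PowerSeries.C c)
    rw [derivative_C, map_zero] at this
    exact this

theorem Der.exists_up {δ : F → F} (h : Der δ) {I : Type u} (𝒰 : Ultrafilter I) :
    ∃ δ' : UP 𝒰 F → UP 𝒰 F, Der δ' ∧ ∀ f, δ' (gm 𝒰 f) = gm 𝒰 (δ ∘ f) := by
  refine ⟨Filter.Germ.map δ, ⟨fun a b => ?_, fun a b => ?_⟩, fun f => rfl⟩
  · obtain ⟨f, rfl⟩ := Germ_surj 𝒰 a
    obtain ⟨g, rfl⟩ := Germ_surj 𝒰 b
    exact congrArg (gm 𝒰) (funext fun i => h.add (f i) (g i))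
  · obtain ⟨f, rfl⟩ := Germ_surj 𝒰 a
    obtain ⟨g, rfl⟩ := Germ_surj 𝒰 b
    exact congrArg (gm 𝒰) (funext fun i => h.mul (f i) (g i))

end MLF
end

-- merged part: Pool.Agent.Work.MP_29d410_ag.ZS5c
section
/-!
# A generic point whose Taylor expansion is a complete lift

Plan.  `exists_ult`: `GermPS` induces `gps : UP 𝒰 T⟦ε⟧ →+* (UP 𝒰 T)⟦ε⟧`; `ult y = map gps (gpt y)`.  For `lv` use
`c_gpt`, `c_map` and `TN.map_ev` in the ring `(I → T)⟦ε⟧` (see `CaseU2_ev`), or `Ev2_ev_trunc`.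
`ult_mem`: the classes of the `f` with `f i ∈ (Q i).W` for most `i` form a valuation ring of `UP 𝒰 T`, with a
homomorphism to `UP 𝒰 K`, that is a place `Q`; the vectors of the points `y' i` define a point over `Q.W`, whose
image in `UP 𝒰 T` is `emap gc y - ult u ∈ S` (`S_emap`, `S_of_lv`, `exists_pr`) and whose reduction is
`ult e`; `S_red`.
`exists_gen`: `exists_all`, `exists_sec`; enlarge `W` by the vectors `lv (D b - g b)` for `b` in the finite set of
`FR Λ`, `g b ∈ G` over `b`; then `lv (D x - g) ∈ W` for `x ∈ Λ`, `g ∈ G` over `x` (`lv_nsmul`).  `exists_ultra`,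
`Der.exists_up`; the Taylor expansion of `gpt id` is `ult (fun x => D x) = ult (g + e₀) - e₀ + ult (D x - g)`.
`exists_gen'`: `L₀ = acl K(rat x, finitely many entries of lv)` contains the coefficients of normalised
coordinates of `y = y₀ + u₁ + u₂` (`All` over `acl K(rat x)`, `S_inter`, `exists_pr`); these are the
`δ^n v / n!`; `L = acl K(δ^n v)` is stable under `δ` (`Der.mem_acl`); `S_desc`, `Der.map_taylor`.
-/

namespace MLF

universe u

open PG

namespace Df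

variable {A : SPG.{u}} {K T : Type u} [Field K] [IsAlgClosed K] [CharZero K] [Field T] {𝒟 : Df A K}
  {W : Submodule K (A.τ × ℕ → K)} {I : Type u} (𝒰 : Ultrafilter I)

omit [IsAlgClosed K] [CharZero K] in
theorem ZS5c_push (𝒟 : Df A K) :
    A.push 𝒟.D 𝒟.s = A.push (𝒟.φ (RingHom.id K)) 𝒟.s := by
  have : 𝒟.φ (RingHom.id K) = 𝒟.D := by
    ext1 z
    show PowerSeries.map (RingHom.id K) (𝒟.D z) = _
    rw [PowerSeries.map_id]
    rfl
  rw [this]

/-- The point given by the expansion of the coordinates. -/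
noncomputable def ZS5c_D (𝒟 : Df A K) : A.Pt 𝒟.s →+ 𝒟.E (RingHom.id K) :=
  A.map 𝒟.D (ZS5c_push 𝒟)

/-- The identification of the points. -/
noncomputable def ZS5c_i (𝒟 : Df A K) : A.Pt 𝒟.s →+ 𝒟.P (RingHom.id K) :=
  A.map (RingHom.id K) rfl

theorem ZS5c_res (x : A.Pt 𝒟.s) : 𝒟.res _ (ZS5c_D 𝒟 x) = ZS5c_i 𝒟 x := by
  obtain ⟨v, hv⟩ := A.ax.exists_rep x
  refine map_eq_of_rep _ _ (rep_map 𝒟.D (ZS5c_push 𝒟) hv) ?_
  have e : (PowerSeries.constantCoeff : PowerSeries K →+* K) ∘ (𝒟.D ∘ v) = RingHom.id K ∘ v :=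
    funext fun a => 𝒟.cc (v a)
  rw [e]
  exact rep_map (RingHom.id K) rfl hv

theorem ZS5c_enl (hW : Fin0 W) {G : AddSubgroup (𝒟.E (RingHom.id K))}
    (hker : ∀ g ∈ G, 𝒟.res _ g = 0 → 𝒟.lv _ g ∈ W) {g : A.Pt 𝒟.s → 𝒟.E (RingHom.id K)}
    (hg : ∀ x, g x ∈ G) (hr : ∀ x, 𝒟.res _ (g x) = ZS5c_i 𝒟 x) {Λ : AddSubgroup (A.Pt 𝒟.s)}
    (hΛ : FR Λ) :
    ∃ W₁, Fin0 W₁ ∧ W ≤ W₁ ∧ ∀ x ∈ Λ, 𝒟.lv _ (ZS5c_D 𝒟 x - g x) ∈ W₁ := by
  obtain ⟨B, hB, -, hcl⟩ := hΛ
  have h0 : ∀ (x : A.Pt 𝒟.s) (g' : 𝒟.E (RingHom.id K)), 𝒟.res _ g' = ZS5c_i 𝒟 x →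
      𝒟.res _ (ZS5c_D 𝒟 x - g') = 0 := fun x g' h => by
    rw [map_sub, ZS5c_res, h, sub_self]
  set V : Submodule K (A.τ × ℕ → K) :=
    Submodule.span K ((fun b => 𝒟.lv _ (ZS5c_D 𝒟 b - g b)) '' B) with hV
  have hfin : Fin0 (W ⊔ V) := by
    refine ⟨?_, fun w hw a => ?_⟩
    · have := hW.fin
      have : FiniteDimensional K V := FiniteDimensional.span_of_finite K (hB.image _)
      infer_instance
    · have hle : W ⊔ V ≤
          LinearMap.ker (LinearMap.proj (R := K) (φ := fun _ : A.τ × ℕ => K) (a, 0)) := by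
        refine sup_le (fun w hw => hW.zero w hw a) (Submodule.span_le.2 ?_)
        rintro _ ⟨b, -, rfl⟩
        exact lv_zero (h0 b _ (hr b)) a
      exact hle hw
  refine ⟨W ⊔ V, hfin, le_sup_left, fun x hx => ?_⟩
  have key : ∀ z ∈ AddSubgroup.closure B, ∃ g' ∈ G, 𝒟.res _ g' = ZS5c_i 𝒟 z ∧
      𝒟.lv _ (ZS5c_D 𝒟 z - g') ∈ W ⊔ V := by
    intro z hz
    have hz0 : 𝒟.lv (RingHom.id K) 0 = 0 := by
      have := lv_sub (𝒟 := 𝒟) (j := RingHom.id K) (u := 0) (u' := 0) (map_zero _) (map_zero _)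
      rwa [sub_self, sub_self] at this
    induction hz using AddSubgroup.closure_induction with
    | mem b hb =>
      exact ⟨g b, hg b, hr b, Submodule.mem_sup_right (Submodule.subset_span ⟨b, hb, rfl⟩)⟩
    | zero =>
      refine ⟨0, G.zero_mem, by rw [map_zero, map_zero], ?_⟩
      rw [map_zero, sub_self, hz0]
      exact Submodule.zero_mem _
    | add a b _ _ ha hb =>
      obtain ⟨ga, ha1, ha2, ha3⟩ := ha
      obtain ⟨gb, hb1, hb2, hb3⟩ := hb
      refine ⟨ga + gb, G.add_mem ha1 hb1, by rw [map_add, map_add, ha2, hb2], ?_⟩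
      have e : ZS5c_D 𝒟 (a + b) - (ga + gb) = (ZS5c_D 𝒟 a - ga) + (ZS5c_D 𝒟 b - gb) := by
        rw [map_add]
        abel
      rw [e, lv_add (h0 a ga ha2) (h0 b gb hb2)]
      exact Submodule.add_mem _ ha3 hb3
    | neg a _ ha =>
      obtain ⟨ga, ha1, ha2, ha3⟩ := ha
      refine ⟨-ga, G.neg_mem ha1, by rw [map_neg, map_neg, ha2], ?_⟩
      have e : ZS5c_D 𝒟 (-a) - -ga = 0 - (ZS5c_D 𝒟 a - ga) := by
        rw [map_neg]
        abel
      rw [e, lv_sub (map_zero _) (h0 a ga ha2), hz0]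
      exact Submodule.sub_mem _ (Submodule.zero_mem _) ha3
  obtain ⟨n, hn, hnx⟩ := hcl x hx
  obtain ⟨g', h1, h2, h3⟩ := key _ hnx
  have h4 : 𝒟.res _ (n • g x - g') = 0 := by
    rw [map_sub, map_nsmul, hr, h2, map_nsmul, sub_self]
  have h5 := hker _ (G.sub_mem (G.nsmul_mem (hg x) n) h1) h4
  have e : n • (ZS5c_D 𝒟 x - g x) = (ZS5c_D 𝒟 (n • x) - g') - (n • g x - g') := by
    rw [map_nsmul, smul_sub]
    abel
  have h6 : n • 𝒟.lv _ (ZS5c_D 𝒟 x - g x) ∈ W ⊔ V := by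
    rw [← lv_nsmul (h0 x _ (hr x)), e, lv_sub (h0 _ _ h2) h4]
    exact Submodule.sub_mem _ h3 (Submodule.mem_sup_left h5)
  rw [← Nat.cast_smul_eq_nsmul K] at h6
  exact (Submodule.smul_mem_iff _ (Nat.cast_ne_zero.2 hn)).1 h6

omit [IsAlgClosed K] in
theorem ZS5c_taylor {δ : K → K} (hδ : Der δ) [CharZero (UP 𝒰 K)] {d : UP 𝒰 K → UP 𝒰 K}
    (hd : Der d) (h : ∀ f, d (gm 𝒰 f) = gm 𝒰 (δ ∘ f)) (f : I → K) :
    hd.taylor (gm 𝒰 f) = GermPS 𝒰 fun i => hδ.taylor (f i) := by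
  have it : ∀ (n : ℕ) (f : I → K), d^[n] (gm 𝒰 f) = gm 𝒰 fun i => δ^[n] (f i) := by
    intro n
    induction n with
    | zero => intro f; rfl
    | succ n ih =>
      intro f
      rw [Function.iterate_succ_apply, h, ih]
      rfl
  ext n
  rw [GermPS_coeff, hd.coeff_taylor, it,
    div_eq_iff (Nat.cast_ne_zero.2 (Nat.factorial_ne_zero n))]
  have e : ((n.factorial : ℕ) : UP 𝒰 K) = gm 𝒰 fun _ => ((n.factorial : ℕ) : K) := by
    rw [← Germ_gc, map_natCast]
  rw [e, ← Germ_mul]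
  congr 1
  funext i
  rw [hδ.coeff_taylor, div_mul_cancel₀ _ (Nat.cast_ne_zero.2 (Nat.factorial_ne_zero n))]

omit [IsAlgClosed K] [CharZero K] in
theorem ZS5c_wsp {J : Type} {V : Submodule K (J → K)} [FiniteDimensional K V] {w : I → J → K}
    (h : ∀ᶠ i in (𝒰 : Filter I), w i ∈ V) :
    (fun a => gm 𝒰 fun i => w i a) ∈ Wsp V (gc 𝒰 K) := by
  obtain ⟨n, pos, b, -, -, hrep⟩ := exists_pr V
  rw [hrep]
  intro a
  have e : ∀ k, (gm 𝒰 fun i => w i (pos k)) * gc 𝒰 K (b k a) =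
      gm 𝒰 fun i => w i (pos k) * b k a := fun k => by
    rw [Germ_gc, ← Germ_mul]
  simp only [e]
  rw [← Germ_sum, Germ_eq]
  refine h.mono fun i hi => ?_
  rw [← Wsp_id V] at hi
  exact (hrep K (RingHom.id K) (w i)).1 hi a

theorem exists_gen {δ : K → K} (hδ : Der δ) (hD : 𝒟.D = hδ.taylor) {X : Set (A.Pt 𝒟.s)} (hX : Var X)
    {Λ : AddSubgroup (A.Pt 𝒟.s)} (hΛ : FR Λ) (hd : X ⊆ cl ((Λ : Set (A.Pt 𝒟.s)) ∩ X)) :
    ∃ (W : Submodule K (A.τ × ℕ → K)) (L : Type u) (_ : Field L) (_ : IsAlgClosed L)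
      (_ : CharZero L) (j : K →+* L) (d : L → L) (hd : Der d) (e : ∀ z, d (j z) = j (δ z))
      (x : 𝒟.P j), Fin0 W ∧ 𝒟.All W ∧ loc j 𝒟.s x = X ∧
      A.map hd.taylor (push_taylor hδ hD hd e) x ∈ 𝒟.S W j := by
  obtain ⟨W₀, hW₀, hA₀⟩ := 𝒟.exists_all
  obtain ⟨T, _, j, y, e₀, G, hy, hsurj, hker, hSg⟩ := exists_sec hW₀ hA₀
  choose g hg hr using fun x : A.Pt 𝒟.s => hsurj (ZS5c_i 𝒟 x)
  obtain ⟨W₁, hW₁, hle, hΛ₁⟩ := ZS5c_enl hW₀ hker hg hr hΛ
  obtain ⟨𝒰, hU, hloc⟩ := exists_ultra hX hd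
  obtain ⟨d, hdd, hdg⟩ := hδ.exists_up 𝒰
  have hc : CharZero (UP 𝒰 K) := (gc 𝒰 K).charZero_iff (Germ_gc_inj 𝒰) |>.1 inferInstance
  have e : ∀ z, d (gc 𝒰 K z) = gc 𝒰 K (δ z) := fun z => by
    rw [Germ_gc, hdg, Germ_gc]
    rfl
  refine ⟨W₁, UP 𝒰 K, inferInstance, inferInstance, hc, gc 𝒰 K, d, hdd, e, gpt 𝒰 id, hW₁,
    hA₀.mono hle, hloc, ?_⟩
  obtain ⟨Ψ, hΨ1, hΨ2, hΨ3⟩ :=
    exists_ult (𝒟 := 𝒟) 𝒰 (RingHom.id K) (j' := gc 𝒰 K) (RingHom.comp_id _)
  have e1 : A.map hdd.taylor (push_taylor hδ hD hdd e) (gpt 𝒰 id) = Ψ fun i => ZS5c_D 𝒟 i := by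
    choose v hv using fun x : A.Pt 𝒟.s => A.ax.exists_rep x
    refine map_eq_of_rep _ _ (rep_gpt 𝒰 (x := id) (Filter.Eventually.of_forall hv)) ?_
    have h1 := hΨ1 (fun i => ZS5c_D 𝒟 i) (fun i => 𝒟.D ∘ v i)
      (Filter.Eventually.of_forall fun i => rep_map 𝒟.D (ZS5c_push 𝒟) (hv i))
    have e2 : (hdd.taylor ∘ fun a => gm 𝒰 fun i => v i a) =
        fun a => GermPS 𝒰 fun i => (𝒟.D ∘ v i) a := by
      funext a
      rw [hD]
      exact ZS5c_taylor 𝒰 hδ hdd hdg _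
    rw [e2]
    exact h1
  have e2 : (Ψ fun i => ZS5c_D 𝒟 i) =
      (Ψ fun i => g i + e₀) - (Ψ fun _ => e₀) + Ψ fun i => ZS5c_D 𝒟 i - g i := by
    rw [← map_sub, ← map_add]
    congr 1
    funext i
    simp only [Pi.add_apply, Pi.sub_apply]
    abel
  rw [e1, e2]
  refine AddSubgroup.add_mem _ (AddSubgroup.sub_mem _ (S_mono hle ?_) ?_) ?_
  · choose v hv using fun i : A.Pt 𝒟.s => A.ax.exists_rep (g i + e₀)
    exact ult_mem 𝒰 hW₀ hy (fun i => hSg _ (hg i)) hv
      (hΨ1 _ v (Filter.Eventually.of_forall hv))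
  · rw [hΨ2]
    exact S_const _ _
  · obtain ⟨h1, h2⟩ := hΨ3 (fun i => ZS5c_D 𝒟 i - g i) (Filter.Eventually.of_forall fun i => by
      rw [map_sub, ZS5c_res, hr, sub_self])
    refine S_of_lv h1 ?_
    rw [h2]
    have := hW₁.fin
    refine ZS5c_wsp 𝒰 (w := fun i => 𝒟.lv _ (ZS5c_D 𝒟 i - g i)) ?_
    exact Filter.mem_of_superset hU fun i hi => hΛ₁ i hi.1

end Df

end MLF
end
end
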