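import Pool.Agent.Work.MP_29d410_ag.CaseU2
import Pool.Agent.Work.MP_29d410_ag.Out3
import Pool.Agent.Work.MP_29d410_ag.ZS5c
import Pool.Agent.Work.MP_29d410_ag.Tor3

-- merged part: Pool.Agent.Work.MP_29d410_ag.CaseU3
section
/-!
# Unbounded level: splitting off a constant variety

Plan for `caseU_split`.  `δ = N₁ • (DB x - cB x)` over `Big E`.  `ι K` and `𝒯.cst ⊇ d K` are disjoint
over `C` (`Mor.sld1`), so `cB (d K)` and `serF (ι K)` are (`ldps`).  `dl` gives `γ`, `β₁` with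
`(β₁, δ - γ) ∈ ext H`.  The place `plB E` (restricted to `K` along `d`) maps `δ` to `0` (it comes from a
point over `Perf`, `resB_perf`, `resP_DO`) and `β₁` to `β₀`, rational over `ι K` (`resB_mem`); so
`(β, δ) ∈ ext H` with `β = β₁ - cB β₀` rational over `serF (ι K)`.  `Γ` a projector for `ran H ≤ ⊤`,
`z = N₁ • x`, `(z, b) ∈ ext Γ`; `(DB z, DB b)` and `(cB z, cB b)` are in `ext Γ` and `(δ, 0)` is, so
`DB b = cB b`: `b` is constant (`map_eq_map_iff`).  `(a, N z - b) ∈ ext H`, and `DB a - cB a = N β`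
(`qh'`).  Let `Y = loc a` over the constants `κ₂ = 𝒯.cst`; it has finite stabiliser
(`stab_loc_finite`).  Over `E` (embedded by `cB`): `loc (DB a) = ext Y` (`genLD`, `sld2`, `loc_map`), so
`loc (N β) = ext Y - a`, and `loc (N β) = ext V`, `V` its locus over `K` embedded by `ι` (`genLD`, `ldps`
with `k₀ = κ = ι K`).  `tc` (`i₁ = c'`, `j₁ = ι`, `d = -a`) and `tu` give `ā` with `a + ι ā` constant.
`(ι ā, w) ∈ ext H`; `N z - b + w` is constant by `QH.rat_acl`.  If `ι ā` were rational over `C` then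
`a`, `z`, `x` would be constant.
Plan for `caseU`.  `caseU_jet`.  `ι ∘ c = d ∘ c ∘ θ` for an automorphism `θ` of `C`: if
`z ^ p ^ n = z` then `m i` is almost everywhere constant modulo `n`; put `c' = c ∘ θ⁻¹` (`ι` and `d` map `c C` onto the
same subfield, the elements algebraic over the prime field).  `caseU_split`.  `z'' = N₂ x + w`,
`W = loc z''`, `v = -ι ā`, `V₁ = loc v` over `C`, infinite; `loc v` over `K` is `ext V₁` (`genLD`); `K(v)` and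
`𝒯.cst` are disjoint over `K` (`LD.tower` from `LD C (ι K) cst`); `loc_eq_add`: `N₂ X = W + ι V₁`.  If
`dim W = dim X` then `W + ι v₀ = N₂ X` for all `v₀`, so `ι V₁ - ι V₁` lies in the finite stabiliser.
Density: let `r > 0` with `push frob ^ r sC = sC`.  For almost all `i` the point
`ā i = map (frob ^ m i)⁻¹ ā` is a point for `sb` (`push_congr`; put `ā i = 0` otherwise), its germ is
`e (ι ā)`, `ā i ∈ dom H` almost everywhere, `(ā i, w i) ∈ H`, the germ of `w i` is `e w`.  Fix the class of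
`m i` modulo `r` and `i₀` in this large set with `m i₀` minimal; `Γ` from `hull` for `ā i₀`;
`Λ' = Λ ⊔ imgS H Γ` (`Hyp.img`, `Hyp.mono`, `Hyp.sup`); `subset_cl_of_gpt`.
-/

open PowerSeries Pointwise

namespace MLF

universe u

open PG Sett

variable {p : ℕ} [Fact p.Prime] {A : SPG.{u}} {C K E : Type u} [Field C] [IsAlgClosed C] [CharP C p]
  [Field K] [IsAlgClosed K] [CharP K p] [Field E] [IsAlgClosed E] [CharP E p]

section aux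

variable {B B' : PG.{u}} {k T T' : Type u} [Field k] [IsAlgClosed k] [Field T] [Field T']
  {s : B.Str k} {t : B'.Str k} {Γ : AddSubgroup ((B.prod B').Pt (s, t))}

theorem CaseU3_map {j : k →+* T} {j' : k →+* T'} (φ : T →+* T') (e : φ.comp j = j')
    {s₁ : B.Str T} {t₁ : B'.Str T} {s₂ : B.Str T'} {t₂ : B'.Str T'} {h₁ : B.push j s = s₁}
    {e₁ : B'.push j t = t₁} (h₂ : B.push j' s = s₂) (e₂ : B'.push j' t = t₂)
    (f : B.push φ s₁ = s₂) (f' : B'.push φ t₁ = t₂) {x : B.Pt s₁} {y : B'.Pt t₁}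
    (h : ((x, y) : (B.prod B').Pt (s₁, t₁)) ∈ extG h₁ e₁ Γ) :
    ((B.map φ f x, B'.map φ f' y) : (B.prod B').Pt (s₂, t₂)) ∈ extG h₂ e₂ Γ := by
  subst e
  exact mem_ext_map (A := B.prod B') φ (prod_push f f') h

theorem CaseU3_uniq (hc : Cl (A := B.prod B') (s := (s, t)) Γ) (hq : QH (swap Γ)) {j : k →+* T}
    {s₁ : B.Str T} {t₁ : B'.Str T} {h₁ : B.push j s = s₁} {e₁ : B'.push j t = t₁}
    {x x' : B.Pt s₁} {y : B'.Pt t₁} (h : ((x, y) : (B.prod B').Pt (s₁, t₁)) ∈ extG h₁ e₁ Γ)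
    (h' : ((x', y) : (B.prod B').Pt (s₁, t₁)) ∈ extG h₁ e₁ Γ) : x = x' := by
  have h2 := mem_swap.2 h
  have h3 := mem_swap.2 h'
  rw [swap_ext hc] at h2 h3
  exact hq.ext_uniq e₁ h₁ h2 h3

theorem CaseU3_range {p : ℕ} [Fact p.Prime] (alg : ∀ z : k, ∃ n, 0 < n ∧ z ^ p ^ n = z)
    (c₁ c₂ : k →+* T) : c₁.fieldRange ≤ c₂.fieldRange := by
  rintro _ ⟨z, rfl⟩
  obtain ⟨n, hn, hz⟩ := alg z
  refine Geo4A_mem_range c₂ (p := Polynomial.X ^ p ^ n - Polynomial.X)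
    (FiniteField.X_pow_card_sub_X_ne_zero k (Nat.one_lt_pow hn.ne' (Fact.out : p.Prime).one_lt)) ?_
  rw [Polynomial.eval₂_sub, Polynomial.eval₂_X_pow, Polynomial.eval₂_X, ← map_pow, hz, sub_self]

omit [IsAlgClosed k] in
theorem CaseU3_vadd {G : Type u} [AddCommGroup G] {a b : G} {Y V W : Set G} (h : Y = a +ᵥ V)
    (h' : V = b +ᵥ W) : -(a + b) +ᵥ Y = W := by
  rw [h, h', vadd_vadd, vadd_vadd, add_assoc, neg_add_cancel, zero_vadd]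

end aux

/-- The derivative of `x` is the image of a point with coefficients in `κ`. -/
theorem Ctx.CaseU3_beta (𝒞 : Ctx p A C K) {𝒯 : Sett p E} {d : K →+* E} {κ : Subfield E}
    [IsAlgClosed κ] (hκ : (d.comp 𝒞.c).fieldRange ≤ κ)
    (hLD : LD (d.comp 𝒞.c).fieldRange d.fieldRange κ) {s' sb' : A.Str E} (h : A.push d 𝒞.s = s')
    (hb : A.push d 𝒞.sb = sb') {x : A.Pt s'} {sB sbB : A.Str (Big E)}
    (hD : A.push 𝒯.DB s' = sB) (hB : A.push (cB E) s' = sB) (hbB : A.push (cB E) sb' = sbB)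
    (hr : Rat (((cB E).comp d).fieldRange ⊔ serF κ) (A.map 𝒯.DB hD x - A.map (cB E) hB x)) :
    ∃ β : A.Pt sbB, Rat (serF κ) β ∧
      ((β, A.map 𝒯.DB hD x - A.map (cB E) hB x) : (A.toPG.prod A.toPG).Pt (sbB, sB)) ∈
        extG (push_trans hb hbB) (push_trans h hB) 𝒞.H := by
  have hk : (((cB E).comp d).comp 𝒞.c).fieldRange ≤ serF κ := by
    rintro _ ⟨z, rfl⟩
    exact map_cB_le_serF κ ⟨_, hκ ⟨z, rfl⟩, rfl⟩
  have hL := ldps hLD (by rintro _ ⟨z, rfl⟩; exact ⟨_, rfl⟩) hκ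
  rw [RingHom.map_fieldRange, RingHom.map_fieldRange] at hL
  obtain ⟨γ, β₁, hβ₁, hm⟩ := 𝒞.dl (Big E) ((cB E).comp d) (serF κ) sbB sB (push_trans hb hbB)
    (push_trans h hB) hk hL _ hr
  obtain ⟨β₀, hβ₀⟩ : ∃ β₀ : A.Pt sb', Red (VB E) (resB E) β₁ β₀ :=
    ⟨_, ((plB E).red_eq_iff hbB (A.ax.push_id sb')).1 rfl⟩
  have r1 : (plB E).red hB (A.ax.push_id s') (A.map 𝒯.DB hD x) = x := by
    rw [Place.red_eq_iff]
    have := red_of_rat (W := VB E) (r := resB E) 𝒯.DB (RingHom.id E)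
      (fun z => ⟨perf_mem_VB (𝒯.DO z), (resB_perf (𝒯.DO z)).trans (𝒯.resP_DO z)⟩) hD
      (A.ax.push_id s') x
    rwa [map_id' (φ := RingHom.id E) fun _ => rfl] at this
  have r2 : ∀ y, (plB E).red hB (A.ax.push_id s') (A.map (cB E) hB y) = y := fun y => by
    rw [Place.red_map, map_id' fun _ => rfl]
  have r3 : Red (VB E) (resB E) (A.map 𝒯.DB hD x - A.map (cB E) hB x -
      A.map ((cB E).comp d) (push_trans h hB) γ) (-A.map d h γ) := by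
    refine ((plB E).red_eq_iff hB (A.ax.push_id s')).1 ?_
    rw [map_sub, map_sub, r1, r2, ← PG.map_map h hB, r2, sub_self, zero_sub]
  have h4 : ((β₀, -A.map d h γ) : (A.toPG.prod A.toPG).Pt (sb', s')) ∈ extG hb h 𝒞.H :=
    red_mem_ext (A := A.toPG.prod A.toPG) ((plB E).restrict d)
      ((prod_red (A := A.toPG) (B := A.toPG) (s := (sbB, sB)) (s' := (sb', s')) (VB E) (resB E)
        (_, _) (_, _)).2 ⟨hβ₀, r3⟩) hm
  have h5 := CaseU3_map (cB E) rfl (push_trans hb hbB) (push_trans h hB) hbB hB h4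
  refine ⟨β₁ - A.map (cB E) hbB β₀, ?_, ?_⟩
  · have hdef : A.Def (serF κ) sbB :=
      def_range _ 𝒞.sC (push_trans 𝒞.hb (push_trans hb hbB)) hk
    exact (RatS hdef).sub_mem hβ₁ (((hβ₀.ratl (fun z hz => resB_mem z hz) hβ₁).map (cB E) hbB).mono
      (map_cB_le_serF κ))
  · have h6 := (extG (push_trans hb hbB) (push_trans h hB) 𝒞.H).sub_mem hm h5
    rw [map_neg, PG.map_map h hB] at h6
    convert h6 using 1
    exact Prod.ext rfl (by simp)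

/-- A point of a constant group whose derivative has coefficients in `ι K`. -/
theorem SPG.CaseU3_const {F : Type u} [Field F] [IsAlgClosed F] {𝒯 : Sett p E} {ι : K →+* E}
    {j : F →+* E} (hj : j.fieldRange = 𝒯.cst) {c' : C →+* K} {i : C →+* F}
    (hc : ι.comp c' = j.comp i) (hLD : LD (ι.comp c').fieldRange ι.fieldRange j.fieldRange)
    {sC : A.Str C} {t : A.Str K} {sF : A.Str F} {s' : A.Str E} (ht : A.push c' sC = t)
    (hF : A.push i sC = sF) (ht' : A.push ι t = s') (hF' : A.push j sF = s') {sB : A.Str (Big E)}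
    (hD : A.push 𝒯.DB s' = sB) (hB : A.push (cB E) s' = sB) {a : A.Pt s'}
    (hS : (Stab (loc j sF a) : Set (A.Pt sF)).Finite)
    (hr : Rat (serF ι.fieldRange) (A.map 𝒯.DB hD a - A.map (cB E) hB a)) {D : Set (A.Pt sC)}
    (ha : -a ∈ ext (ι.comp c') s' D) :
    ∃ a₁ : A.Pt t, a₁ ∈ ext c' t D ∧ Rat 𝒯.cst (a + A.map ι ht' a₁) := by
  have hjD : (cB E).comp j = 𝒯.DB.comp j :=
    RingHom.ext fun z => ((𝒯.mem_cst_iff_DB).1 (hj ▸ ⟨z, rfl⟩)).symm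
  have h1 : loc (cB E) s' (A.map 𝒯.DB hD a) = ext j s' (loc j sF a) := by
    have hL := 𝒯.sld2
    rw [← hj, RingHom.map_fieldRange] at hL
    rw [genLD j (cB E) hF' hB (F := 𝒯.DB.fieldRange) ?_ ((rat_range_iff _ hD).2 ⟨a, rfl⟩) hL, hjD,
      loc_map 𝒯.DB.injective]
    rw [hjD]
    rintro _ ⟨z, rfl⟩
    exact ⟨_, rfl⟩
  have h2 : loc (cB E) s' (A.map 𝒯.DB hD a - A.map (cB E) hB a) = ext ι s'
      (loc ((cB E).comp ι) t (A.map 𝒯.DB hD a - A.map (cB E) hB a)) := by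
    have hL := ldps ((ld_self (k := ι.fieldRange) le_top).symm le_rfl le_top) le_top le_rfl
    rw [RingHom.map_fieldRange, ← RingHom.fieldRange_eq_map] at hL
    refine genLD ι (cB E) ht' hB ?_ hr hL
    rw [← RingHom.map_fieldRange]
    exact map_cB_le_serF _
  have h3 := loc_vadd hB a (A.map 𝒯.DB hD a - A.map (cB E) hB a)
  rw [add_sub_cancel, h1, h2] at h3
  have hY := var_loc hF' a
  obtain ⟨V₁, a₁, hV₁, ha₁, e⟩ := tc hc hLD ht hF ht' hF' (var_loc (push_trans ht' hB) _) hY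
    (d := -a) (by rw [h3, neg_vadd_vadd]) ha
  refine ⟨a₁, ha₁, ?_⟩
  rw [e, ext_vadd ht', ext_ext _ _ ht, hc, ← ext_ext _ _ hF] at h3
  have h4 := tu hF' hY (var_ext hV₁ i hF) hS (CaseU3_vadd h3 rfl)
  rw [← hj]
  simpa only [neg_neg] using PG.Rat.neg (def_range j sF hF' le_rfl) h4

theorem Ctx.caseU_split (𝒞 : Ctx p A C K) {𝒮 : Sett p K} {𝒯 : Sett p E} {d ι : K →+* E}
    (hι : Mor 𝒮 𝒯 ι) (hd : ∀ z, d z ∈ 𝒯.cst) {c' : C →+* K} (hc : ι.comp c' = d.comp 𝒞.c)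
    (h𝒮 : 𝒮.cst = c'.fieldRange) {s' sb' : A.Str E} (h : A.push d 𝒞.s = s')
    (hb : A.push d 𝒞.sb = sb') {t : A.Str K} (ht : A.push c' 𝒞.sC = t) (ht' : A.push ι t = sb')
    {x : A.Pt s'} (hS : (Stab (loc d 𝒞.s x) : Set (A.Pt 𝒞.s)).Finite) (hx : ¬ Rat 𝒯.cst x)
    {sB : A.Str (Big E)} (hD : A.push 𝒯.DB s' = sB) (hB : A.push (cB E) s' = sB) {N₁ : ℕ}
    (hN : N₁ ≠ 0) (hr : Rat (((cB E).comp d).fieldRange ⊔ serF ι.fieldRange)
      (N₁ • (A.map 𝒯.DB hD x - A.map (cB E) hB x))) :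
    ∃ (N₂ : ℕ) (a : A.Pt t) (w : A.Pt s'), N₂ ≠ 0 ∧
      ((A.map ι ht' a, w) : (A.toPG.prod A.toPG).Pt (sb', s')) ∈ extG hb h 𝒞.H ∧
      Rat 𝒯.cst (N₂ • x + w) ∧ ¬ Rat (d.comp 𝒞.c).fieldRange (A.map ι ht' a) := by
  obtain ⟨F, _, _, i, j, rfl, hj⟩ : ∃ (F : Type u) (_ : Field F) (_ : IsAlgClosed F) (i : K →+* F)
      (j : F →+* E), d = j.comp i ∧ j.fieldRange = 𝒯.cst :=
    ⟨𝒯.cst, inferInstance, inferInstance, d.codRestrict 𝒯.cst hd, 𝒯.cst.subtype,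
      RingHom.ext fun _ => rfl, Subfield.fieldRange_subtype _⟩
  have hdc : (j.comp i).fieldRange ≤ 𝒯.cst := by
    rintro _ ⟨z, rfl⟩
    exact hd z
  have hDd : 𝒯.DB.comp (j.comp i) = (cB E).comp (j.comp i) :=
    RingHom.ext fun z => (𝒯.mem_cst_iff_DB).1 (hd z)
  have hL : LD (ι.comp c').fieldRange ι.fieldRange 𝒯.cst := by
    have := hι.sld1
    rwa [h𝒮, RingHom.map_fieldRange] at this
  have hk₁ : (ι.comp c').fieldRange ≤ ι.fieldRange := by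
    rintro _ ⟨z, rfl⟩
    exact ⟨_, rfl⟩
  have hk₂ : (ι.comp c').fieldRange ≤ (j.comp i).fieldRange := by
    rw [hc]
    rintro _ ⟨z, rfl⟩
    exact ⟨_, rfl⟩
  obtain ⟨sbB, hbB⟩ : ∃ sbB, A.push (cB E) sb' = sbB := ⟨_, rfl⟩
  have hbD : A.push 𝒯.DB sb' = sbB := by
    rw [← hbB, ← hb, A.ax.push_comp, A.ax.push_comp, hDd]
  have h1 := push_trans h hB
  have hb1 := push_trans hb hbB
  rw [nsmul_sub, ← map_nsmul, ← map_nsmul] at hr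
  have hS' : ∀ N : ℕ, N ≠ 0 →
      (Stab (loc (j.comp i) 𝒞.s (N • N₁ • x)) : Set (A.Pt 𝒞.s)).Finite := fun N hN' => by
    rw [smul_smul, loc_nsmul h]
    exact 𝒞.tf.stab_nsmul (mul_ne_zero hN' hN) (var_loc h x) hS
  have hx' : ∀ N : ℕ, N ≠ 0 → ¬ Rat 𝒯.cst (N • N₁ • x) := fun N hN' h' => by
    rw [smul_smul] at h'
    exact hx ((𝒞.tf.ext h).rat' (def_range _ _ h hdc) (mul_ne_zero hN' hN) h')
  generalize hz : N₁ • x = z at hr hS' hx'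
  obtain ⟨β, hβ, hβH⟩ := 𝒞.CaseU3_beta (hc ▸ hk₁) (hc ▸ (hL.mono le_rfl hdc).symm hk₁ hk₂) h hb hD
    hB hbB hr
  obtain ⟨N, Γ, hΓ⟩ := A.exists_proj (D := ⊤) (S := ran 𝒞.H) 𝒞.var (var_ran 𝒞.qh.var) le_top
  obtain ⟨b, hzb⟩ : ∃ b, ((z, b) : (A.toPG.prod A.toPG).Pt (s', s')) ∈ extG h h Γ := by
    rw [← mem_dom, (hΓ.ext h).dom, mem_extS, AddSubgroup.coe_top, ext_univ h]
    trivial
  have hDb : A.map 𝒯.DB hD b = A.map (cB E) hB b := by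
    have h2 := (extG h1 h1 Γ).sub_mem (CaseU3_map 𝒯.DB hDd h1 h1 hD hD hzb)
      (CaseU3_map (cB E) rfl h1 h1 hB hB hzb)
    have h3 := (hΓ.ext h1).kill (A.map 𝒯.DB hD z - A.map (cB E) hB z) (by
      rw [← ran_ext hb1]
      exact mem_ran.2 ⟨β, hβH⟩)
    exact sub_eq_zero.1 (uniq_of_inj (hΓ.ext h1).qh.inj h2 h3)
  have hbc : Rat 𝒯.cst b := fun y hy =>
    (𝒯.mem_cst_iff_DB).2 ((map_eq_map_iff hD hB).1 hDb y hy)
  obtain ⟨a, ha⟩ : ∃ a, ((a, N • z - b) : (A.toPG.prod A.toPG).Pt (sb', s')) ∈ extG hb h 𝒞.H := by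
    rw [← mem_ran, ran_ext]
    exact (hΓ.ext h).sub _ hzb
  have hDa : A.map 𝒯.DB hbD a - A.map (cB E) hbB a = N • β := by
    have h2 := (extG hb1 h1 𝒞.H).sub_mem (CaseU3_map 𝒯.DB hDd hb1 h1 hbD hD ha)
      (CaseU3_map (cB E) rfl hb1 h1 hbB hB ha)
    refine CaseU3_uniq 𝒞.qh.var.1 𝒞.qh' h2 ?_
    convert (extG hb1 h1 𝒞.H).nsmul_mem hβH N using 1
    refine Prod.ext rfl ?_
    change A.map 𝒯.DB hD (N • z - b) - A.map (cB E) hB (N • z - b) =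
      N • (A.map 𝒯.DB hD z - A.map (cB E) hB z)
    rw [map_sub, map_sub, hDb, sub_sub_sub_cancel_right, map_nsmul, map_nsmul, nsmul_sub]
  have hj' : A.push j (A.push i 𝒞.sb) = sb' := by rw [A.ax.push_comp, hb]
  have hdom : dom (extG hb h 𝒞.H) = extS (push_trans 𝒞.hb hb) 𝒞.A₀ := by
    rw [dom_ext, 𝒞.dom_eq, extS_extS]
  obtain ⟨a₁, ha₁, hac⟩ := A.CaseU3_const hj (i := i.comp 𝒞.c) hc (hj ▸ hL) ht
    (push_trans 𝒞.hb rfl) ht' hj' hbD hbB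
    (Ctx.stab_loc_finite h hb rfl (hS' N hΓ.ne) (hj ▸ hbc) ha) (D := 𝒞.A₀) (by
      rw [hDa]
      refine (RatS (def_range _ t (push_trans ht' hbB) ?_)).nsmul_mem hβ N
      rw [← RingHom.map_fieldRange]
      exact map_cB_le_serF _) (by
      rw [hc, ← mem_extS (push_trans 𝒞.hb hb), ← hdom]
      exact neg_mem (mem_dom.2 ⟨_, ha⟩))
  obtain ⟨w, hw⟩ : ∃ w, ((A.map ι ht' a₁, w) : (A.toPG.prod A.toPG).Pt (sb', s')) ∈
      extG hb h 𝒞.H := by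
    rw [← mem_dom, hdom, mem_extS, ← hc]
    exact mem_ext_map ι ht' ha₁
  have hdef := def_range _ _ h hdc
  have hc1 : Rat 𝒯.cst (N • z + w) := by
    have h2 := 𝒞.qh.rat_acl hb h hdc ((extG hb h 𝒞.H).add_mem ha hw) hac
    have h3 := PG.Rat.add hdef h2 hbc
    rwa [show N • z - b + w + b = N • z + w by abel] at h3
  refine ⟨N * N₁, a₁, w, mul_ne_zero hΓ.ne hN, hw, by rwa [← smul_smul, hz], fun h2 => ?_⟩
  have h3 := 𝒞.qh.rat_acl hb h hdc hw (h2.mono (hc ▸ hk₂.trans hdc))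
  exact hx' N hΓ.ne (by simpa only [add_sub_cancel_right, mem_RatS] using (RatS hdef).sub_mem hc1 h3)

theorem Ctx.caseU (𝒞 : Ctx p A C K) {Λ : AddSubgroup (A.Pt 𝒞.s)} (hΛ : Hyp 𝒞.𝒮 ⊤ Λ)
    {X : Set (A.Pt 𝒞.s)} (hX : Var X) (hd : X ⊆ cl ((Λ : Set (A.Pt 𝒞.s)) ∩ X))
    (hn : ∀ m, ¬ X ⊆ cl ({x | x ∈ Λ ∧ Rat (root p m 𝒞.𝒮.M) x} ∩ X))
    (hS : (Stab X : Set (A.Pt 𝒞.s)).Finite) :
    ∃ (N : ℕ) (W : Set (A.Pt 𝒞.s)) (V : Set (A.Pt 𝒞.sC)) (Λ' : AddSubgroup (A.Pt 𝒞.s)), N ≠ 0 ∧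
      Var W ∧ Var V ∧ V ⊆ 𝒞.A₀ ∧ Hyp 𝒞.𝒮 ⊤ Λ' ∧ W ⊆ cl ((Λ' : Set (A.Pt 𝒞.s)) ∩ W) ∧
      dim W < dim X ∧ (N • ·) '' X = W + 𝒞.ι V := by
  obtain ⟨𝒰, m₀, m, E, _, _, _, 𝒯, e, d, ι, x, he, hD, N₁, hed, hι, hM, hdc, hΛ𝒰, hx, rfl, hxc,
    hN₁, hr⟩ := A.caseU_jet 𝒞.tf hΛ hX hd hn hS
  obtain ⟨c', hc⟩ : ∃ c' : C →+* K, ι.comp c' = d.comp 𝒞.c := by
    have h1 : ∀ z, d.comp 𝒞.c z ∈ ι.fieldRange := fun z => by
      obtain ⟨y, hy⟩ := CaseU3_range 𝒞.alg (d.comp 𝒞.c) (ι.comp 𝒞.c) ⟨z, rfl⟩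
      exact ⟨_, hy⟩
    exact ⟨(ι.rangeRestrictFieldEquiv.symm : ι.fieldRange →+* K).comp
      ((d.comp 𝒞.c).codRestrict ι.fieldRange h1),
      RingHom.ext fun z => ι.rangeRestrictFieldEquiv_apply_symm_apply _⟩
  have h𝒮 : (𝒞.𝒮.lev m₀).cst = c'.fieldRange := by
    rw [cst_lev, 𝒞.cst_eq]
    exact le_antisymm (CaseU3_range 𝒞.alg _ _) (CaseU3_range 𝒞.alg _ _)
  obtain ⟨t, ht⟩ : ∃ t, A.push c' 𝒞.sC = t := ⟨_, rfl⟩
  obtain ⟨sb', hb⟩ : ∃ sb', A.push d 𝒞.sb = sb' := ⟨_, rfl⟩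
  have ht' : A.push ι t = sb' := by
    rw [← ht, A.ax.push_comp, hc, push_trans 𝒞.hb hb]
  obtain ⟨N, a, w, hN, haw, hzc, hna⟩ :=
    𝒞.caseU_split hM hdc hc h𝒮 rfl hb ht ht' hS hxc hD rfl hN₁ hr
  have hdc' : d.fieldRange ≤ 𝒯.cst := by
    rintro _ ⟨z, rfl⟩
    exact hdc z
  have hL : LD (d.comp 𝒞.c).fieldRange ι.fieldRange 𝒯.cst := by
    have := hM.sld1
    rwa [h𝒮, RingHom.map_fieldRange, hc] at this
  have hk₁ : (d.comp 𝒞.c).fieldRange ≤ ι.fieldRange := by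
    rw [← hc]
    rintro _ ⟨z, rfl⟩
    exact ⟨_, rfl⟩
  have hk₂ : (d.comp 𝒞.c).fieldRange ≤ d.fieldRange := by
    rintro _ ⟨z, rfl⟩
    exact ⟨_, rfl⟩
  have hC := push_trans 𝒞.hb hb
  have hv : Rat ι.fieldRange (-A.map ι ht' a) := by
    rw [← map_neg]
    exact (rat_range_iff ι ht').2 ⟨_, rfl⟩
  have hvw : ((-A.map ι ht' a, -w) : (A.toPG.prod A.toPG).Pt (sb', A.push d 𝒞.s)) ∈
      extG hb rfl 𝒞.H := neg_mem haw
  have hV := var_loc hC (-A.map ι ht' a)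
  have hW := var_loc (j := d) (s := 𝒞.s) rfl (N • x + w)
  have hVA : loc (d.comp 𝒞.c) 𝒞.sC (-A.map ι ht' a) ⊆ 𝒞.A₀ := by
    refine loc_subset 𝒞.varA.1 ?_
    have h1 := mem_dom.2 ⟨_, hvw⟩
    rwa [dom_ext, 𝒞.dom_eq, extS_extS] at h1
  have hsum : (N • ·) '' loc d 𝒞.s x =
      loc d 𝒞.s (N • x + w) + 𝒞.ι (loc (d.comp 𝒞.c) 𝒞.sC (-A.map ι ht' a)) := by
    have h1 := Ctx.loc_eq_add rfl hb le_sup_left hdc'
      (((hL.symm hk₁ (hk₂.trans hdc')).tower hk₂ hdc' hk₁).symm hdc' le_sup_left)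
      (hv.mono le_sup_right) hzc hvw
    rw [add_neg_cancel_right, loc_nsmul rfl,
      genLD 𝒞.c d 𝒞.hb hb hk₁ hv ((hL.mono le_rfl hdc').symm hk₁ hk₂)] at h1
    exact h1
  have hinf : (loc (d.comp 𝒞.c) 𝒞.sC (-A.map ι ht' a)).Infinite := fun hf => hna (by
    simpa only [neg_neg] using PG.Rat.neg (def_range _ _ hC le_rfl)
      (rat_of_mem_finite hC hf (mem_ext_loc hC _)))
  have hdim : dim (loc d 𝒞.s (N • x + w)) < dim (loc d 𝒞.s x) := by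
    by_contra hle
    rw [not_lt, ← 𝒞.tf.dim_nsmul hN hX, hsum] at hle
    have hf := 𝒞.tf.stab_nsmul hN hX hS
    rw [hsum] at hf
    have hι := Ctx.var_ι hV hVA
    obtain ⟨y₀, hy₀⟩ := hι.2.1
    exact Ctx.ι_infinite hV hVA hinf (Set.Finite.of_injOn (f := fun y => y - y₀)
      (fun y hy => Proj_stab hW hι hle hy hy₀) (fun y _ y' _ e => sub_left_inj.1 e) hf)
  -- density
  obtain ⟨F, hF⟩ := push_congr 𝒞.sC
  obtain ⟨r, hr0, hrF⟩ := exists_frob_fix p 𝒞.alg F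
  have hfr : A.push (iterateFrobenius C p r) 𝒞.sC = 𝒞.sC :=
    (hF _ (RingHom.id C) fun z hz => by simpa [iterateFrobenius_def] using hrF z hz 1).trans
      (A.ax.push_id _)
  obtain ⟨φ, hφ⟩ : ∃ φ : A.Pt 𝒞.s → K →+* K,
      ∀ i z, φ i z = (iterateFrobeniusEquiv K p (m i)).symm z :=
    ⟨fun i => ((iterateFrobeniusEquiv K p (m i)).symm : K →+* K), fun _ _ => rfl⟩
  have hpush : ∀ᶠ i in (𝒰 : Filter (A.Pt 𝒞.s)), A.push (φ i) t = 𝒞.sb := by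
    have h1 : ∀ z ∈ F, ∀ᶠ i in (𝒰 : Filter (A.Pt 𝒞.s)), φ i (c' z) = 𝒞.c z := fun z _ => by
      simp only [hφ]
      rw [← Germ_eq, ← hι, ← Germ_gc, ← hed]
      exact congrArg e (RingHom.congr_fun hc z)
    filter_upwards [(Filter.eventually_all_finset F).2 h1] with i hi
    rw [← ht, A.ax.push_comp, ← 𝒞.hb]
    exact hF _ _ hi
  classical
  obtain ⟨b, hbφ⟩ : ∃ b : A.Pt 𝒞.s → A.Pt 𝒞.sb, ∀ i (h : A.push (φ i) t = 𝒞.sb),
      b i = A.map (φ i) h a :=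
    ⟨fun i => if h : A.push (φ i) t = 𝒞.sb then A.map (φ i) h a else 0, fun i h => dif_pos h⟩
  have he' : A.push e sb' = A.push (gc 𝒰 K) 𝒞.sb := by rw [← hb, A.ax.push_comp, hed]
  have hgb : A.map e he' (A.map ι ht' a) = gpt 𝒰 b := by
    obtain ⟨v, hv⟩ := A.ax.exists_rep a
    refine map_eq_of_rep e he' (rep_map ι ht' hv) ?_
    have h1 : ∀ᶠ i in (𝒰 : Filter (A.Pt 𝒞.s)), A.Rep (b i) (φ i ∘ v) := by
      filter_upwards [hpush] with i hi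
      rw [hbφ i hi]
      exact rep_map _ hi hv
    convert rep_gpt 𝒰 h1 using 1
    funext y
    simp only [Function.comp_apply, hι, hφ]
  obtain ⟨w', hw'⟩ := gpt_surj 𝒰 (A.map e he w)
  have hH : ∀ᶠ i in (𝒰 : Filter (A.Pt 𝒞.s)),
      ((b i, w' i) : (A.toPG.prod A.toPG).Pt (𝒞.sb, 𝒞.s)) ∈ 𝒞.H := by
    refine (gpt_mem_ext (A := A.toPG.prod A.toPG) (s := (𝒞.sb, 𝒞.s)) 𝒰 𝒞.qh.var.1).1 ?_
    rw [gpt_prod, hw', ← hgb]
    exact CaseU3_map e hed rfl rfl he' he haw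
  obtain ⟨ρ, hρ⟩ : ∃ ρ : Fin r, ∀ᶠ i in (𝒰 : Filter (A.Pt 𝒞.s)), m i % r = ρ :=
    Ultrafilter.eventually_exists_iff.1
      (Filter.Eventually.of_forall fun i => ⟨⟨_, Nat.mod_lt _ hr0⟩, rfl⟩)
  obtain ⟨i₀, ⟨hi₀, hi₀'⟩, hmin⟩ := wellFounded_lt.onFun (f := m) |>.has_min
    {i | A.push (φ i) t = 𝒞.sb ∧ m i % r = ρ} (hpush.and hρ).exists
  obtain ⟨Γ, hΓ, hΓ'⟩ := 𝒞.hull r hr0 hfr (b i₀)
  have hgz : A.map e he (N • x + w) = gpt 𝒰 fun i => N • i + w' i := by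
    rw [map_add, map_nsmul, hx, ← hw', gpt_add, ← gpt_nsmul]
    rfl
  have hloc : loc (gc 𝒰 K) 𝒞.s (gpt 𝒰 fun i => N • i + w' i) = loc d 𝒞.s (N • x + w) := by
    rw [← hgz, ← loc_map e.injective he, hed]
  refine ⟨N, _, _, Λ ⊔ imgS 𝒞.H Γ, hN, hW, hV, hVA,
    hΛ.sup ((hΓ.img 𝒞.qh 𝒞.dom_eq.ge).mono le_top le_rfl), ?_, hdim, hsum⟩
  rw [← hloc]
  refine subset_cl_of_gpt 𝒰 ?_
  filter_upwards [hΛ𝒰, hpush, hρ, hH] with i h1 h2 h3 h4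
  refine AddSubgroup.add_mem_sup (Λ.nsmul_mem h1 N) (Hyp_mem_imgS.2 ⟨b i, ?_, h4⟩)
  have h5 : m i₀ ≤ m i := not_lt.1 (hmin i ⟨h2, h3⟩)
  obtain ⟨n, hn⟩ := (Nat.modEq_iff_dvd' h5).1 (hi₀'.trans h3.symm)
  have h6 : (iterateFrobenius K p (r * n)).comp (φ i) = φ i₀ := by
    ext z
    rw [RingHom.comp_apply, hφ, hφ, show m i = r * n + m i₀ by omega,
      iterateFrobeniusEquiv_symm_add_apply]
    exact (iterateFrobeniusEquiv K p (r * n)).apply_symm_apply _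
  have h7 : A.push (iterateFrobenius K p (r * n)) 𝒞.sb = 𝒞.sb := by
    have := push_trans h2 (rfl : A.push (iterateFrobenius K p (r * n)) 𝒞.sb = _)
    rw [h6, hi₀] at this
    exact this.symm
  refine hΓ' n h7 _ (𝒞.dom_eq ▸ mem_dom.2 ⟨_, h4⟩) ?_
  rw [hbφ i h2, hbφ i₀ hi₀, PG.map_map]
  exact map_congr h6 _ _ a

end MLF
end

-- merged part: Pool.Agent.Work.MP_29d410_ag.ZT2
section
-- merged part: Pool.Agent.Work.MP_29d410_ag.ZT1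
section
/-!
# The trace; special subvarieties (any characteristic)
-/

open Pointwise

namespace MLF

universe u

open PG

/-- The trace data. -/
structure Tr (A : SPG.{u}) (C K : Type u) [Field C] [Field K] [IsAlgClosed C] [IsAlgClosed K] where
  c : C →+* K
  sC : A.Str C
  s : A.Str K
  sb : A.Str K
  hb : A.push c sC = sb
  H : AddSubgroup ((A.toPG.prod A.toPG).Pt (sb, s))
  A₀ : AddSubgroup (A.Pt sC)
  var : Var (Set.univ : Set (A.Pt s))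
  tf : A.TorsFin s
  tfC : A.TorsFin sC
  qh : QH H
  qh' : QH (swap H)
  varA : Var (A₀ : Set (A.Pt sC))
  dom_eq : dom H = extS hb A₀
  dl : DL c H

namespace Tr

variable {A : SPG.{u}} {C K : Type u} [Field C] [IsAlgClosed C] [Field K] [IsAlgClosed K]
  (𝒞 : Tr A C K)

/-- The image in `A` of a subset of the constant group. -/
def ι (V : Set (A.Pt 𝒞.sC)) : Set (A.Pt 𝒞.s) := img 𝒞.H (ext 𝒞.c 𝒞.sb V)

/-- Special subvarieties. -/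
def Sp (X : Set (A.Pt 𝒞.s)) : Prop :=
  ∃ (g : A.Pt 𝒞.s) (B : AddSubgroup (A.Pt 𝒞.s)) (V : Set (A.Pt 𝒞.sC)), Var (B : Set (A.Pt 𝒞.s)) ∧
    Var V ∧ V ⊆ 𝒞.A₀ ∧ X = g +ᵥ ((B : Set (A.Pt 𝒞.s)) + 𝒞.ι V)

variable {𝒞} {X : Set (A.Pt 𝒞.s)} {V V' : Set (A.Pt 𝒞.sC)}

theorem Tr_dom (h : V ⊆ 𝒞.A₀) : ext 𝒞.c 𝒞.sb V ⊆ dom 𝒞.H := by
  rw [𝒞.dom_eq, coe_extS]
  exact ext_mono _ _ h

theorem var_ι (hV : Var V) (h : V ⊆ 𝒞.A₀) : Var (𝒞.ι V) :=
  𝒞.qh.var_img (var_ext hV 𝒞.c 𝒞.hb) (Tr_dom h)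
theorem ι_nsmul (h : V ⊆ 𝒞.A₀) (n : ℕ) : 𝒞.ι ((n • ·) '' V) = (n • ·) '' 𝒞.ι V := by
  rw [ι, ext_nsmul 𝒞.hb, Ctx.Ctx_img_nsmul 𝒞.qh.inj (Tr_dom h)]
  rfl
theorem Sp.vadd (h : 𝒞.Sp X) (g : A.Pt 𝒞.s) : 𝒞.Sp (g +ᵥ X) := by
  obtain ⟨g₀, B, V, hB, hV, hA, rfl⟩ := h
  exact ⟨g + g₀, B, V, hB, hV, hA, vadd_vadd _ _ _⟩
theorem Sp.add_sub (h : 𝒞.Sp X) {S : AddSubgroup (A.Pt 𝒞.s)} (hS : Var (S : Set (A.Pt 𝒞.s))) :
    𝒞.Sp (X + (S : Set (A.Pt 𝒞.s))) := by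
  obtain ⟨g, B, V, hB, hV, hA, rfl⟩ := h
  refine ⟨g, B ⊔ S, V, hB.sup hS, hV, hA, ?_⟩
  rw [Geo5_sup, Ctx.Ctx_vadd, Ctx.Ctx_vadd, add_assoc, add_right_comm]
theorem Sp.of_nsmul (hX : Var X) {n : ℕ} (hn : n ≠ 0) (h : 𝒞.Sp ((n • ·) '' X)) : 𝒞.Sp X := by
  obtain ⟨g, B, V, hB, hV, hA, e⟩ := h
  obtain ⟨g', -, hg⟩ := 𝒞.tf.div (G := ⊤) 𝒞.var hn (AddSubgroup.mem_top g)
  obtain ⟨V', hV', hA', hn'⟩ := 𝒞.tfC.exists_div 𝒞.varA hn hV hA
  have h1 : (n • ·) '' (B : Set (A.Pt 𝒞.s)) = B := by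
    refine Set.Subset.antisymm ?_ fun x hx => 𝒞.tf.div hB hn hx
    rintro _ ⟨x, hx, rfl⟩
    exact B.nsmul_mem hx n
  obtain ⟨τ, -, rfl⟩ := 𝒞.tf.eq_vadd hn hX ((hB.add (var_ι hV' hA')).vadd g') (by
    rw [e, Ctx.Ctx_vadd, Ctx.Ctx_vadd, Ctx.Ctx_nsmul_add, Ctx.Ctx_nsmul_add, h1, ← ι_nsmul hA', hn',
      Set.image_singleton, hg])
  exact Sp.vadd ⟨g', B, V', hB, hV', hA', rfl⟩ τ

theorem out_of_sp (h : 𝒞.Sp X) : Out 𝒞.c X := by
  obtain ⟨g, B, V, hB, hV, hVA, rfl⟩ := h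
  obtain ⟨G₁, hG₁, hG⟩ := A.exists_ext_sub 𝒞.tfC 𝒞.hb (G' := imgS (swap 𝒞.H) B)
    (coe_imgS (Γ := swap 𝒞.H) B ▸ cl_img_swap 𝒞.qh.var.1 hB.1)
  have hle : G₁ ≤ 𝒞.A₀ := by
    refine (ext_subset_ext_iff 𝒞.c 𝒞.hb 𝒞.varA.1).1 ?_
    rw [← coe_extS 𝒞.hb, ← coe_extS 𝒞.hb, hG, ← 𝒞.dom_eq]
    intro a ha
    obtain ⟨b, -, hb⟩ := Hyp_mem_imgS.1 ha
    exact mem_dom.2 ⟨b, mem_swap.1 hb⟩
  obtain ⟨B', tB, Φ, hv, hΦ, hd, hr, hk⟩ := A.exists_quot 𝒞.tfC 𝒞.varA hle hG₁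
  obtain ⟨t, ht⟩ : ∃ t, B'.push 𝒞.c tB = t := ⟨_, rfl⟩
  have hΦ' := hΦ.ext 𝒞.hb ht
  have hd' : dom (extG 𝒞.hb ht Φ) = dom 𝒞.H := by rw [dom_ext, hd, 𝒞.dom_eq]
  have hk' : ker (extG 𝒞.hb ht Φ) = imgS (swap 𝒞.H) B := by rw [ker_ext hΦ.var.1, hk, hG]
  have h₀ := 𝒞.qh'.comp hΦ' fun a ha => by
    obtain ⟨b, hb⟩ := mem_ran.1 ha
    exact hd'.ge (mem_dom.2 ⟨b, mem_swap.1 hb⟩)
  obtain ⟨Γ, hΓv, hΓ⟩ : ∃ Γ : AddSubgroup ((A.toPG.prod B'.toPG).Pt (𝒞.s, t)),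
      Var (A := A.toPG.prod B'.toPG) (s := (𝒞.s, t)) Γ ∧ ∀ x y,
      ((x, y) : (A.toPG.prod B'.toPG).Pt (𝒞.s, t)) ∈ Γ ↔ ∃ b ∈ B, ∃ a,
        ((a, x - b) : (A.toPG.prod A.toPG).Pt (𝒞.sb, 𝒞.s)) ∈ 𝒞.H ∧
        ((a, y) : (A.toPG.prod B'.toPG).Pt (𝒞.sb, t)) ∈ extG 𝒞.hb ht Φ := by
    refine ⟨PG.comp (swap 𝒞.H) (extG 𝒞.hb ht Φ) ⊔ B.prod ⊥,
      Var.sup h₀.var (hB.sprod (var_singleton (0 : B'.Pt t))), fun x y => ?_⟩
    rw [AddSubgroup.mem_sup]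
    constructor
    · rintro ⟨z, ⟨a, h1, h2⟩, w, ⟨h3, h4⟩, e⟩
      have e1 : z.1 + w.1 = x := congrArg Prod.fst e
      have e2 : z.2 + w.2 = y := congrArg Prod.snd e
      have e3 : w.2 = 0 := h4
      rw [e3, add_zero] at e2
      refine ⟨w.1, h3, a, ?_, e2 ▸ h2⟩
      rw [← e1, add_sub_cancel_right]
      exact mem_swap.1 h1
    · rintro ⟨b, hb, a, h1, h2⟩
      exact ⟨(x - b, y), ⟨a, mem_swap.2 h1, h2⟩, (b, 0), ⟨hb, rfl⟩,
        Prod.ext (sub_add_cancel x b) (add_zero y)⟩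
  refine ⟨B', tB, t, ht, Γ, g, img Φ V, hv, ⟨hΓv, fun y hy => ?_⟩, eq_top_iff.2 fun y _ => ?_,
    hΦ.var_img hV (hd ▸ hVA), ?_⟩
  · obtain ⟨b, hb, a, h1, h2⟩ := (hΓ _ _).1 hy
    have h3 : a ∈ ker (extG 𝒞.hb ht Φ) :=
      hk'.ge (Hyp_mem_imgS.2 ⟨0 - b, B.sub_mem B.zero_mem hb, mem_swap.2 h1⟩)
    exact uniq_of_inj hΦ'.inj h2 (mem_ker.1 h3)
  · have h1 : y ∈ ran (extG 𝒞.hb ht Φ) := by
      rw [ran_ext, hr, mem_extS, AddSubgroup.coe_top, ext_univ ht]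
      trivial
    obtain ⟨a, ha⟩ := mem_ran.1 h1
    obtain ⟨x, hx⟩ := mem_dom.1 (hd'.le (mem_dom.2 ⟨y, ha⟩))
    exact mem_ran.2 ⟨x, (hΓ _ _).2 ⟨0, B.zero_mem, a, (sub_zero x).symm ▸ hx, ha⟩⟩
  · rw [← img_ext hΦ.var.1 𝒞.hb ht hV.1]
    congr 1
    ext x
    constructor
    · rintro ⟨b, hb, x, ⟨a, ha, hx⟩, rfl⟩
      obtain ⟨y, hy⟩ := mem_dom.1 (hd'.ge (mem_dom.2 ⟨x, hx⟩))
      refine ⟨y, ⟨a, ha, hy⟩, mem_swap.2 ((hΓ _ _).2 ⟨b, hb, a, ?_, hy⟩)⟩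
      rw [add_sub_cancel_left]
      exact hx
    · rintro ⟨y, ⟨a, ha, hy⟩, hx⟩
      obtain ⟨b, hb, a₁, h1, h2⟩ := (hΓ _ _).1 (mem_swap.1 hx)
      have h3 : a₁ - a ∈ ker (extG 𝒞.hb ht Φ) := by
        have := (extG 𝒞.hb ht Φ).sub_mem h2 hy
        rw [mem_ker, ← sub_self y]
        exact this
      obtain ⟨b', hb', h4⟩ := Hyp_mem_imgS.1 (hk'.le h3)
      refine ⟨b + b', B.add_mem hb hb', x - b - b', ⟨a, ha, ?_⟩,
        show b + b' + (x - b - b') = x by abel⟩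
      have := 𝒞.H.sub_mem h1 (mem_swap.1 h4)
      rw [← sub_sub_cancel a₁ a]
      exact this

end Tr

theorem SPG.torsFin_zero (A : SPG.{u}) {k : Type u} [Field k] [IsAlgClosed k] [CharZero k]
    (s : A.Str k) : A.TorsFin s := fun _ hn => A.finite_torsion_of_ne s (Nat.cast_ne_zero.2 hn)

theorem exists_tr {A : SPG.{u}} {C : Type u} [Field C] [IsAlgClosed C] [CharZero C]
    {sV : A.Str (VB C)} {s : A.Str (Big C)} (hs : A.push (VB C).subtype sV = s)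
    (hv : Var (Set.univ : Set (A.Pt s))) : ∃ 𝒞 : Tr A C (Big C), 𝒞.c = cB C ∧ 𝒞.s = s := by
  have htC : A.TorsFin (A.push (resB C) sV) := A.torsFin_zero _
  have hC : A.push (resB C) sV = A.push (resB C) sV := rfl
  have hb : A.push (cB C) (A.push (resB C) sV) = _ := rfl
  have hS := strW_big hs hC hb
  obtain ⟨H, hH, hmax⟩ := exists_max_lift hS
  obtain ⟨A₀, hA, e⟩ := A.rig htC hb (var_dom hH.var)
  refine ⟨⟨cB C, _, s, _, hb, H, A₀, hv, A.torsFin_big hs hC htC, htC,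
    hH.qh fun n x hn hx h => SPG.Tor3_val A hs ((congW_zero hS).symm.trans h)
      (map_natCast (cV C) n ▸ (Ne.isUnit (Nat.cast_ne_zero.2 hn)).map _) hx,
    hH.qh_swap fun n x hn hx h => ?_, hA, e.symm,
    A.dl hs hC hb (A.torsFin_big hs hC htC) htC hH hmax⟩, rfl, rfl⟩
  obtain ⟨z, -, rfl⟩ := htC.Geo5_range hb hn (x := 0) (hx.trans (map_zero _).symm)
  have h4 := ((plB C).red_eq_iff hb (A.ax.push_id _)).2 ((congW_iff (fun _ => resB_eq_zero C)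
    (((plB C).red_eq_iff hb (A.ax.push_id _)).1 ((plB C).red_map _ _ z))).1
      (h.trans (congW_zero hS).symm))
  rw [map_zero, map_id' (fun _ => rfl)] at h4
  rw [← h4, map_zero]

end MLF
end

-- merged part: Pool.Agent.Work.MP_29d410_ag.ZT2
section
/-!
# The descent lemma over an extension

Plan.  `dl_ext`: write `K` for the image of `K` in `E`, `E₂ = acl (K ⊔ κ)`; `K'` and `E₂` are disjoint over `K`
(`LD.tower`, `LD.acl`, `acl_eq`).  `SPG.split` gives `ω = α + β` with `α` over `K'`, `β` over `E₂`.  Take a place of `E`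
with values in `E` which is the identity on `E₂` and maps `K'` to `K` (`exists_place_self`, `LD.place`, as in
`SplitP.ind`): `β = red ω - red α`, `red α` is rational over `K`, and `red ω` over `K ⊔ κ` (`gauss` with
`k` the image of `C`, `E₁ = κ`, `E₂ = K'`, `Red.ratl`).  Apply `DL` to `β`.
`vadd_desc`: reduce `a` at a place of `K'` with values in `K` (`red_mem_ext`, `map_mem_ext_iff`).
`sp_of_rat`: `dl_ext` gives a pair `b, ψ x - a` in `extG H`.  `V = loc b` over `C` lies in `A₀` (`dom_ext`, `extS_extS`,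
`loc_subset`), `loc b` over `K'` is `ext V` (`genLD`), so `loc (ψ x - a)` over `K'` is `ext (ι V)` (`QH.ext`,
`extS_extS`, `QH.loc`, `img_ext`, `ext_ext`); `loc (ψ x)` over `K'` is `ext (loc x)` (`genLD`, `LD.symm`, `loc_map`);
`loc_vadd`, `vadd_desc`; `B = ⊥`.
-/

open Pointwise

namespace MLF

universe u

open PG

set_option linter.unusedSectionVars false

variable {C K K' L Ω : Type u} [Field C] [IsAlgClosed C] [Field K] [IsAlgClosed K] [Field K']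
  [IsAlgClosed K'] [Field L] [Field Ω] [IsAlgClosed Ω]

theorem SPG.dl_ext (A : SPG.{u}) {c : C →+* K} {sb s : A.Str K}
    {H : AddSubgroup ((A.toPG.prod A.toPG).Pt (sb, s))} (hH : DL c H) (i : K →+* K')
    (j : K' →+* Ω) (κ : Subfield Ω) [IsAlgClosed κ] {s₁ : A.Str K'} {sb' s' : A.Str Ω}
    (h₁ : A.push i s = s₁) (h : A.push j s₁ = s') (hb : A.push (j.comp i) sb = sb')
    (hκ : ((j.comp i).comp c).fieldRange ≤ κ)
    (hLD : LD ((j.comp i).comp c).fieldRange j.fieldRange κ) {ω : A.Pt s'}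
    (hω : Rat (j.fieldRange ⊔ κ) ω) : ∃ (a : A.Pt s₁) (b : A.Pt sb'), Rat κ b ∧
      ((b, ω - A.map j h a) : (A.toPG.prod A.toPG).Pt (sb', s')) ∈
        extG hb (push_trans h₁ h) H := by
  have hJ : A.push (j.comp i) s = s' := push_trans h₁ h
  have l₀ : ((j.comp i).comp c).fieldRange ≤ (j.comp i).fieldRange := by
    rintro _ ⟨z, rfl⟩
    exact ⟨c z, rfl⟩
  have l₁ : (j.comp i).fieldRange ≤ j.fieldRange := by
    rintro _ ⟨z, rfl⟩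
    exact ⟨i z, rfl⟩
  have l₂ : (j.comp i).fieldRange ≤ acl ((j.comp i).fieldRange ⊔ κ) :=
    le_sup_left.trans (le_acl _)
  have l₃ : κ ≤ acl ((j.comp i).fieldRange ⊔ κ) := le_sup_right.trans (le_acl _)
  have hL : LD (j.comp i).fieldRange j.fieldRange (acl ((j.comp i).fieldRange ⊔ κ)) :=
    ((hLD.tower l₀ l₁ hκ).acl l₁ le_sup_left).mono (le_acl _) le_rfl
  obtain ⟨α, β, hα, hβ, rfl⟩ := A.split hJ l₁ l₂ hL (hω.mono (sup_le_sup_left l₃ _))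
  obtain ⟨P, hP⟩ := exists_place_self i
  obtain ⟨W, r, -, a2, a3, a4⟩ := Geo7_glue l₂ (hL.symm l₁ l₂)
    (acl ((j.comp i).fieldRange ⊔ κ)).subtype
    (Geo7_post P (j.comp i) (j'' := j.comp i) fun _ => rfl)
    (fun z => ((map_eq_zero (j.comp i)).trans (hP z))) fun _ => rfl
  let Q : Place (j.comp i) (j.comp i) := ⟨W, fun z => (a2 ⟨_, l₂ ⟨z, rfl⟩⟩).1, r,
    fun z => (a2 ⟨_, l₂ ⟨z, rfl⟩⟩).2⟩
  have hres : ∀ z : W, (z : Ω) ∈ j.fieldRange → r z ∈ (j.comp i).fieldRange := by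
    rintro ⟨_, hz⟩ ⟨z, rfl⟩
    obtain ⟨_, e⟩ := a3 ⟨z, a4 z hz⟩
    exact ⟨_, e.symm⟩
  have b1 : Rat (j.comp i).fieldRange (Q.red hJ hJ α) :=
    ((Q.red_eq_iff _ _).1 rfl).ratl hres hα
  have b2 : Q.red hJ hJ β = β := by
    obtain ⟨s₀, h₀⟩ := def_range (j.comp i) s hJ l₂
    obtain ⟨x, rfl⟩ := (rat_subtype_iff h₀).1 hβ
    exact (Q.red_eq_iff _ _).2 (red_of_rat _ _ a2 h₀ h₀ x)
  have b3 : Rat ((j.comp i).fieldRange ⊔ κ) (Q.red hJ hJ (α + β)) := by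
    refine ((Q.red_eq_iff _ _).1 rfl).ratl (fun z hz => ?_) hω
    have c1 : (κ.subtype.comp (Subfield.inclusion hκ)).fieldRange =
        ((j.comp i).comp c).fieldRange := Subfield.fieldRange_subtype _
    have := gauss hκ (l₀.trans l₁) W r κ.subtype (fun z hz => (a2 ⟨z, l₃ hz⟩).1)
      (fun z => (a2 ⟨z, l₃ z.2⟩).2) hres (by
        rw [c1, Subfield.fieldRange_subtype]
        exact (hLD.mono l₁ le_rfl).symm l₀ hκ) z (by rwa [sup_comm])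
    rwa [Subfield.fieldRange_subtype, sup_comm] at this
  have b4 : Rat ((j.comp i).fieldRange ⊔ κ) β := by
    rw [map_add, b2] at b3
    have := (RatS (def_range (j.comp i) s hJ le_sup_left)).sub_mem b3 (b1.mono le_sup_left)
    rwa [add_sub_cancel_left] at this
  obtain ⟨a₀, b, hb₁, hab⟩ := hH Ω (j.comp i) κ sb' s' hb hJ hκ (hLD.mono l₁ le_rfl) β b4
  obtain ⟨a₁, rfl⟩ := (rat_range_iff j h).1 hα
  refine ⟨a₁ + A.map i h₁ a₀, b, hb₁, ?_⟩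
  rwa [map_add, PG.map_map, add_sub_add_left_eq_sub]

theorem PG.vadd_desc {A : PG.{u}} {s : A.Str K} {i : K →+* K'} {s₁ : A.Str K'}
    (h : A.push i s = s₁) {Y Z : Set (A.Pt s)} (hY : Cl Y) (hZ : Cl Z) {a : A.Pt s₁}
    (e : ext i s₁ Y = a +ᵥ ext i s₁ Z) : ∃ a₀ : A.Pt s, Y = a₀ +ᵥ Z := by
  obtain ⟨P, -⟩ := exists_place_self i
  have hr : ∀ x, P.red h (A.ax.push_id s) (A.map i h x) = x := fun x => by
    rw [P.red_map, map_id' (fun _ => rfl)]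
  have hm : ∀ {X : Set (A.Pt s)}, Cl X → ∀ y ∈ ext i s₁ X, P.red h (A.ax.push_id s) y ∈ X :=
    fun hX y hy => hX (red_mem_ext P ((P.red_eq_iff _ _).1 rfl) hy)
  refine ⟨P.red h (A.ax.push_id s) a, Set.Subset.antisymm (fun y hy => ?_) ?_⟩
  · obtain ⟨z, hz, e'⟩ := e.le (map_mem_ext i h hy)
    refine ⟨_, hm hZ z hz, ?_⟩
    have e'' : a + z = A.map i h y := e'
    exact (map_add _ a z).symm.trans (by rw [e'', hr])
  · rintro _ ⟨z, hz, rfl⟩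
    have := hm hY _ (e.ge ⟨_, map_mem_ext i h hz, rfl⟩)
    change P.red h _ (a + _) ∈ Y at this
    rwa [map_add, hr] at this

theorem Tr.sp_of_rat {A : SPG.{u}} (𝒞 : Tr A C K) {j : K →+* L} {i : K →+* K'} {ψ : L →+* Ω}
    {j' : K' →+* Ω} (e : ψ.comp j = j'.comp i)
    (hLD : LD (ψ.comp j).fieldRange ψ.fieldRange j'.fieldRange) {κ : Subfield Ω} [IsAlgClosed κ]
    (hκ : ((j'.comp i).comp 𝒞.c).fieldRange ≤ κ)
    (hLD' : LD ((j'.comp i).comp 𝒞.c).fieldRange j'.fieldRange κ) {sL : A.Str L} {sΩ : A.Str Ω}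
    (h : A.push j 𝒞.s = sL) (h' : A.push ψ sL = sΩ) {x : A.Pt sL}
    (hx : Rat (j'.fieldRange ⊔ κ) (A.map ψ h' x)) : 𝒞.Sp (loc j 𝒞.s x) := by
  obtain ⟨s₁, h₁⟩ : ∃ s₁, A.push i 𝒞.s = s₁ := ⟨_, rfl⟩
  obtain ⟨sb₁, g₁⟩ : ∃ sb₁, A.push i 𝒞.sb = sb₁ := ⟨_, rfl⟩
  obtain ⟨sb', g₂⟩ : ∃ sb', A.push j' sb₁ = sb' := ⟨_, rfl⟩
  have h₂ : A.push j' s₁ = sΩ := by
    rw [← h₁, A.ax.push_comp, ← e]
    exact push_trans h h'
  obtain ⟨a, b, hb, hab⟩ := A.dl_ext 𝒞.dl i j' κ h₁ h₂ (push_trans g₁ g₂) hκ hLD' hx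
  have gC : A.push (i.comp 𝒞.c) 𝒞.sC = sb₁ := push_trans 𝒞.hb g₁
  obtain ⟨V, hV⟩ : ∃ V, loc (j'.comp (i.comp 𝒞.c)) 𝒞.sC b = V := ⟨_, rfl⟩
  have vV : Var V := hV ▸ var_loc (push_trans gC g₂) b
  have hVA : V ⊆ 𝒞.A₀ := by
    have h3 := mem_dom.2 ⟨_, hab⟩
    rw [dom_ext, 𝒞.dom_eq, extS_extS] at h3
    rw [← hV]
    exact loc_subset 𝒞.varA.1 h3
  have l1 : loc j' sb₁ b = ext i sb₁ (ext 𝒞.c 𝒞.sb V) := by
    rw [genLD (i.comp 𝒞.c) j' gC g₂ hκ hb hLD', hV, ext_ext _ _ 𝒞.hb]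
  have l2 : loc j' s₁ (A.map ψ h' x - A.map j' h₂ a) = ext i s₁ (𝒞.ι V) := by
    rw [(𝒞.qh.ext g₁ h₁).loc g₂ h₂ (x := b) (by rw [extG, extG, extS_extS]; exact hab), l1,
      img_ext 𝒞.qh.var.1 g₁ h₁ (cl_ext _ _ _)]
    rfl
  have k₁ : (ψ.comp j).fieldRange ≤ ψ.fieldRange := by
    rintro _ ⟨z, rfl⟩
    exact ⟨j z, rfl⟩
  have k₂ : (ψ.comp j).fieldRange ≤ j'.fieldRange := by
    rw [e]
    rintro _ ⟨z, rfl⟩
    exact ⟨i z, rfl⟩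
  have l3 : loc j' s₁ (A.map ψ h' x) = ext i s₁ (loc j 𝒞.s x) := by
    rw [genLD i j' h₁ h₂ (e ▸ k₁) ((rat_range_iff ψ h').2 ⟨x, rfl⟩) (e ▸ hLD.symm k₁ k₂), ← e,
      loc_map ψ.injective]
  obtain ⟨a₀, ha₀⟩ := vadd_desc h₁ (cl_loc j x) (Tr.var_ι vV hVA).1 (a := a) (by
    rw [← l3, ← l2, ← loc_vadd h₂, add_sub_cancel])
  refine ⟨a₀, ⊥, V, var_singleton 0, vV, hVA, ?_⟩
  rw [ha₀, AddSubgroup.coe_bot, Set.singleton_zero, zero_add]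

end MLF
end
end

-- merged part: Pool.Agent.Work.MP_29d410_ag.ZM
section
-- merged part: Pool.Agent.Work.MP_29d410_ag.ZS5d
section
/-!
# A generic point whose Taylor expansion is a complete lift

Plan.  `exists_ult`: `GermPS` induces `gps : UP 𝒰 T⟦ε⟧ →+* (UP 𝒰 T)⟦ε⟧`; `ult y = map gps (gpt y)`.  For `lv` use
`c_gpt`, `c_map` and `TN.map_ev` in the ring `(I → T)⟦ε⟧` (see `CaseU2_ev`), or `Ev2_ev_trunc`.
`ult_mem`: the classes of the `f` with `f i ∈ (Q i).W` for most `i` form a valuation ring of `UP 𝒰 T`, with a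
homomorphism to `UP 𝒰 K`, that is a place `Q`; the vectors of the points `y' i` define a point over `Q.W`, whose
image in `UP 𝒰 T` is `emap gc y - ult u ∈ S` (`S_emap`, `S_of_lv`, `exists_pr`) and whose reduction is
`ult e`; `S_red`.
`exists_gen`: `exists_all`, `exists_sec`; enlarge `W` by the vectors `lv (D b - g b)` for `b` in the finite set of
`FR Λ`, `g b ∈ G` over `b`; then `lv (D x - g) ∈ W` for `x ∈ Λ`, `g ∈ G` over `x` (`lv_nsmul`).  `exists_ultra`,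
`Der.exists_up`; the Taylor expansion of `gpt id` is `ult (fun x => D x) = ult (g + e₀) - e₀ + ult (D x - g)`.
`exists_gen'`: `L₀ = acl K(rat x, finitely many entries of lv)` contains the coefficients of normalised
coordinates of `y = y₀ + u₁ + u₂` (`All` over `acl K(rat x)`, `S_inter`, `exists_pr`); these are the
`δ^n v / n!`; `L = acl K(δ^n v)` is stable under `δ` (`Der.mem_acl`); `S_desc`, `Der.map_taylor`.
-/

namespace MLF

universe u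

open PG

namespace Df

variable {A : SPG.{u}} {K T : Type u} [Field K] [IsAlgClosed K] [CharZero K] [Field T] {𝒟 : Df A K}
  {W : Submodule K (A.τ × ℕ → K)} {I : Type u} (𝒰 : Ultrafilter I)

/-- The structure map to a subfield. -/
def ZS5d_j (j : K →+* T) (F : Subfield T) (h : j.fieldRange ≤ F) : K →+* F :=
  j.codRestrict F.toSubring fun c => h ⟨c, rfl⟩

omit [IsAlgClosed K] [CharZero K] in
theorem ZS5d_comp (j : K →+* T) (F : Subfield T) (h : j.fieldRange ≤ F) :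
    F.subtype.comp (ZS5d_j j F h) = j := rfl

omit [IsAlgClosed K] [CharZero K] in
theorem ZS5d_incl (j : K →+* T) {F F' : Subfield T} (h : j.fieldRange ≤ F) (h' : j.fieldRange ≤ F')
    (hF : F ≤ F') : (Subfield.inclusion hF).comp (ZS5d_j j F h) = ZS5d_j j F' h' :=
  RingHom.ext fun _ => Subtype.ext rfl

theorem ZS5d_sub {F F' : Subfield T} (hF : F ≤ F') :
    F'.subtype.comp (Subfield.inclusion hF) = F.subtype := RingHom.ext fun _ => rfl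

/-- A complete lift comes from a subfield of finite transcendence degree. -/
theorem ZS5d_desc (hW : Fin0 W) (hA : 𝒟.All W) [IsAlgClosed T] {j : K →+* T} {y : 𝒟.E j}
    (hy : y ∈ 𝒟.S W j) : ∃ (t : Set T), t.Finite ∧
      ∃ (h : j.fieldRange ≤ acl (adj j.fieldRange t)) (z : 𝒟.E (ZS5d_j j _ h)),
        𝒟.emap (acl (adj j.fieldRange t)).subtype (ZS5d_comp j _ h) z = y := by
  have := hW.fin
  obtain ⟨n, pos, b, -, -, hb⟩ := exists_pr W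
  set x := 𝒟.res j y with hx
  set T₀ := acl (adj j.fieldRange (rat x)) with hT₀
  have h₀ : j.fieldRange ≤ T₀ := (le_adj _ _).trans (le_acl _)
  have hr : Rat T₀ x := (rat_adj j.fieldRange x).mono (le_acl _)
  obtain ⟨x₀, hx₀⟩ := (rat_subtype_iff (𝒟.push_pmap (ZS5d_comp j T₀ h₀))).1 hr
  obtain ⟨y₀, hy₀, e₀⟩ := hA T₀ (ZS5d_j j T₀ h₀) x₀
  set u := y - 𝒟.emap T₀.subtype (ZS5d_comp j T₀ h₀) y₀ with hu
  have hu0 : 𝒟.res j u = 0 := by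
    rw [hu, map_sub, res_emap, e₀, ← hx]
    exact sub_eq_zero.2 hx₀.symm
  have huS : u ∈ 𝒟.S W j := sub_mem hy (S_emap _ _ hy₀)
  obtain ⟨m, -, hm⟩ := S_inter hW hu0 huS
  have hm' := (hb T j _).1 hm
  set t : Set T := rat x ∪ Set.range fun k => (𝒟.lv j u - j ∘ m) (pos k) with ht
  set L₀ := acl (adj j.fieldRange t) with hL₀
  have h₁ : j.fieldRange ≤ L₀ := (le_adj _ _).trans (le_acl _)
  have ht₁ : t ⊆ L₀ := (subset_adj _ _).trans (le_acl _)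
  have h₀₁ : T₀ ≤ L₀ := acl_mono (LD2_adj_mono le_rfl Set.subset_union_left)
  have hlv : ∀ i, 𝒟.lv j u i ∈ L₀ := by
    intro i
    have e1 : 𝒟.lv j u i = j (m i) + ∑ k, (𝒟.lv j u - j ∘ m) (pos k) * j (b k i) := by
      rw [← hm' i]
      simp
    rw [e1]
    refine add_mem (h₁ ⟨_, rfl⟩) (sum_mem fun k _ => mul_mem (ht₁ (Or.inr ⟨k, rfl⟩)) (h₁ ⟨_, rfl⟩))
  obtain ⟨u₀, hu₀, e₁⟩ := 𝒟.exists_lv (ZS5d_j j L₀ h₁) (v := fun i => ⟨𝒟.lv j u i, hlv i⟩)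
    fun a => Subtype.ext (lv_zero hu0 a)
  have e₂ : 𝒟.emap L₀.subtype (ZS5d_comp j L₀ h₁) u₀ = u := by
    refine lv_inj ?_ hu0 ?_
    · rw [res_emap, hu₀, map_zero]
    · rw [lv_emap _ _ hu₀, e₁]
      rfl
  refine ⟨t, (rat_finite x).union (Set.finite_range _), h₁,
    𝒟.emap (Subfield.inclusion h₀₁) (ZS5d_incl j h₀ h₁ h₀₁) y₀ + u₀, ?_⟩
  rw [map_add, e₂, emap_emap _ _ (ZS5d_comp j T₀ h₀) (ZS5d_sub h₀₁), hu, add_sub_cancel]

/-- The coefficients of normalised coordinates of a point defined over a subfield. -/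
theorem ZS5d_coeff {j : K →+* T} {F : Subfield T} (h : j.fieldRange ≤ F) (z : 𝒟.E (ZS5d_j j F h))
    {v : A.σ → PowerSeries T} {i : A.σ}
    (hv : A.Rep (𝒟.emap F.subtype (ZS5d_comp j F h) z) v) (hi : v i = 1) (a : A.σ) (n : ℕ) :
    PowerSeries.coeff n (v a) ∈ F := by
  obtain ⟨w, hw⟩ := A.ax.exists_rep z
  have h1 := rep_map (PowerSeries.map F.subtype) (𝒟.push_emap (ZS5d_comp j F h)) hw
  obtain ⟨c, hc, e⟩ := A.ax.rep_uniq h1 hv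
  have hwi : IsUnit (w i) := by
    have e1 : c * PowerSeries.map F.subtype (w i) = 1 := by
      rw [← hi, e]
      rfl
    rw [PowerSeries.isUnit_iff_constantCoeff, isUnit_iff_ne_zero]
    intro h0
    have e2 := congrArg PowerSeries.constantCoeff e1
    rw [map_mul, map_one, ← PowerSeries.coeff_zero_eq_constantCoeff_apply (PowerSeries.map _ _),
      PowerSeries.coeff_map, PowerSeries.coeff_zero_eq_constantCoeff_apply, h0, map_zero,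
      mul_zero] at e2
    exact zero_ne_one e2
  obtain ⟨w', hw', hw1⟩ := PB_norm hw hwi
  have h2 := rep_map (PowerSeries.map F.subtype) (𝒟.push_emap (ZS5d_comp j F h)) hw'
  obtain ⟨c', -, e'⟩ := A.ax.rep_uniq h2 hv
  have hc' : c' = 1 := by
    have e1 : c' * PowerSeries.map F.subtype (w' i) = 1 := by
      rw [← hi, e']
      rfl
    rwa [hw1, map_one, mul_one] at e1
  rw [e', hc', one_smul, Function.comp_apply, PowerSeries.coeff_map]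
  exact (PowerSeries.coeff n (w' a)).2

theorem exists_gen' {δ : K → K} (hδ : Der δ) (hD : 𝒟.D = hδ.taylor) (hW : Fin0 W) (hA : 𝒟.All W)
    [IsAlgClosed T] [CharZero T] {j : K →+* T} {d : T → T} (hd : Der d)
    (e : ∀ z, d (j z) = j (δ z)) {x : 𝒟.P j}
    (hx : A.map hd.taylor (push_taylor hδ hD hd e) x ∈ 𝒟.S W j) :
    ∃ (L : Type u) (_ : Field L) (_ : IsAlgClosed L) (_ : CharZero L) (j' : K →+* L) (d' : L → L)
      (hd' : Der d') (e' : ∀ z, d' (j' z) = j' (δ z)) (x' : 𝒟.P j'),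
      rk j'.fieldRange (Set.univ : Set L) ≠ ⊤ ∧ loc j' 𝒟.s x' = loc j 𝒟.s x ∧
      A.map hd'.taylor (push_taylor hδ hD hd' e') x' ∈ 𝒟.S W j' := by
  obtain ⟨t, htf, h₁, z, hz⟩ := ZS5d_desc hW hA hx
  obtain ⟨v, i, hv, hi⟩ := exists_rep_one x
  have hv' := rep_map hd.taylor (push_taylor hδ hD hd e) hv
  rw [← hz] at hv'
  have hco := ZS5d_coeff h₁ z hv' (i := i) (by rw [Function.comp_apply, hi, map_one])
  set r : Set T := Set.range fun p : A.σ × ℕ => d^[p.2] (v p.1) with hr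
  have hrt : r ⊆ acl (adj j.fieldRange t) := by
    rintro _ ⟨⟨a, n⟩, rfl⟩
    have h2 := hco a n
    rw [Function.comp_apply, hd.coeff_taylor] at h2
    have h3 : d^[n] (v a) = d^[n] (v a) / (n.factorial : T) * (n.factorial : T) := by
      rw [div_mul_cancel₀]
      exact Nat.cast_ne_zero.2 n.factorial_ne_zero
    show d^[n] (v a) ∈ _
    rw [h3]
    exact mul_mem h2 (natCast_mem _ _)
  set L := acl (adj j.fieldRange r) with hL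
  have hjL : j.fieldRange ≤ L := (le_adj _ _).trans (le_acl _)
  have hrL : r ⊆ L := (subset_adj _ _).trans (le_acl _)
  have hst : ∀ w ∈ L, d w ∈ L := by
    refine hd.mem_acl ?_ ?_
    · rintro _ ⟨c, rfl⟩
      rw [e]
      exact hjL ⟨_, rfl⟩
    · rintro _ ⟨⟨a, n⟩, rfl⟩
      exact hrL ⟨(a, n + 1), Function.iterate_succ_apply' d n (v a)⟩
  let d' : L → L := fun w => ⟨d w, hst w w.2⟩
  have hd' : Der d' := ⟨fun a b => Subtype.ext (hd.add a b), fun a b => Subtype.ext (hd.mul a b)⟩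
  have e' : ∀ z, d' (ZS5d_j j L hjL z) = ZS5d_j j L hjL (δ z) := fun z => Subtype.ext (e z)
  have hrat : Rat L x := PB_rat_of hv fun a => hrL ⟨(a, 0), rfl⟩
  obtain ⟨x', hx'⟩ := (rat_subtype_iff (𝒟.push_pmap (ZS5d_comp j L hjL))).1 hrat
  refine ⟨L, inferInstance, inferInstance, inferInstance, ZS5d_j j L hjL, d', hd', e', x', ?_, ?_, ?_⟩
  · rw [← rk_map L.subtype, RingHom.map_fieldRange, ZS5d_comp]
    refine ne_top_of_le_ne_top (rk_ne_top (E := j.fieldRange) htf) (rk_le_of_acl ?_)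
    rintro _ ⟨w, -, rfl⟩
    exact LD2_acl_le (adj_le.2 ⟨h₁, hrt⟩) w.2
  · rw [← hx']
    exact (loc_map L.subtype.injective _ x').symm
  · refine S_desc hW L.subtype (ZS5d_comp j L hjL) ?_
    have e3 : 𝒟.emap L.subtype (ZS5d_comp j L hjL)
        (A.map hd'.taylor (push_taylor hδ hD hd' e') x') =
        A.map hd.taylor (push_taylor hδ hD hd e) x := by
      rw [← hx']
      unfold emap
      rw [map_map, map_map]
      exact map_congr (hd'.map_taylor hd L.subtype fun _ => rfl).symm _ _ _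
    rw [e3]
    exact hx

end Df

end MLF
end

-- merged part: Pool.Agent.Work.MP_29d410_ag.Main
section
/-!
# The main induction; the context over `Big C`

Plan.  `main_sp`: strong induction on `dim X`.  First treat finite stabilisers: `exists_good` and
`caseB` (`cst_lev`), or `caseU`, the induction hypothesis, `Sp.add_ι`, `Sp.of_nsmul`.  In general let
`S` be the identity component of `Stab X`, `Γ` a projector for `S ≤ ⊤`, `X' = img Γ X`,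
`Λ' = imgS Γ Λ`; `dim X' ≤ dim X`, `Stab X'` is finite, `Λ' ∩ X'` is dense (`QH.img_cl`),
`N X = X' + S` (`IsProj.nsmul_eq`).
`exists_ctx`: `exists_trace`, `exists_std`, `hull`, `torsFin_alg`, `torsFin_big`.
-/

namespace MLF

universe u

open PG Sett

variable {p : ℕ} [Fact p.Prime] {A : SPG.{u}} {C K : Type u} [Field C] [IsAlgClosed C] [CharP C p]
  [Field K] [IsAlgClosed K] [CharP K p]

/-- The case of a finite stabiliser, given the statement in smaller dimension. -/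
theorem Ctx.Main_fin (𝒞 : Ctx p A C K) {X : Set (A.Pt 𝒞.s)} (hX : Var X)
    {Λ : AddSubgroup (A.Pt 𝒞.s)} (hΛ : Hyp 𝒞.𝒮 ⊤ Λ) (hd : X ⊆ cl ((Λ : Set (A.Pt 𝒞.s)) ∩ X))
    (hS : (Stab X : Set (A.Pt 𝒞.s)).Finite)
    (ih : ∀ W : Set (A.Pt 𝒞.s), dim W < dim X → Var W → ∀ Λ' : AddSubgroup (A.Pt 𝒞.s),
      Hyp 𝒞.𝒮 ⊤ Λ' → W ⊆ cl ((Λ' : Set (A.Pt 𝒞.s)) ∩ W) → 𝒞.Sp W) : 𝒞.Sp X := by
  by_cases hn : ∃ m, X ⊆ cl ({x | x ∈ Λ ∧ Rat (root p m 𝒞.𝒮.M) x} ∩ X)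
  · obtain ⟨m₁, hm₁⟩ := hn
    obtain ⟨m, E, _, _, _, 𝒯, j, x, hj, hx, rfl⟩ := exists_good hΛ hX hm₁
    exact 𝒞.caseB ((𝒞.𝒮.cst_lev m).trans 𝒞.cst_eq) hj rfl hx hS
  · obtain ⟨N, W, V, Λ', hN, hW, hV, hVA, hΛ', hd', hlt, e⟩ :=
      𝒞.caseU hΛ hX hd (fun m hm => hn ⟨m, hm⟩) hS
    exact Sp.of_nsmul hX hN (e ▸ (ih W hlt hW Λ' hΛ' hd').add_ι hV hVA)

theorem Ctx.Main_ind (𝒞 : Ctx p A C K) (n : ℕ) : ∀ X : Set (A.Pt 𝒞.s), dim X = n → Var X →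
    ∀ Λ : AddSubgroup (A.Pt 𝒞.s), Hyp 𝒞.𝒮 ⊤ Λ → X ⊆ cl ((Λ : Set (A.Pt 𝒞.s)) ∩ X) → 𝒞.Sp X := by
  induction n using Nat.strong_induction_on with
  | _ n ih =>
    intro X hn hX Λ hΛ hd
    obtain ⟨S, hS⟩ := exists_idc (cl_stab hX.1)
    obtain ⟨N, Γ, hΓ⟩ := A.exists_proj (D := ⊤) (S := S) 𝒞.var hS.var le_top
    have hdom : ∀ Y : Set (A.Pt 𝒞.s), Y ⊆ dom Γ := fun Y => by
      rw [hΓ.dom]; exact Set.subset_univ _
    have hX' : Var (img Γ X) := hΓ.qh.var_img hX (hdom X)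
    have hdim : dim (img Γ X) ≤ dim X := hΓ.qh.dim_img_le hX (hdom X)
    have hΛ' : Hyp 𝒞.𝒮 ⊤ (imgS Γ Λ) := (hΛ.img hΓ.qh hΓ.dom.ge).mono le_top le_rfl
    have hd' : img Γ X ⊆ cl ((imgS Γ Λ : Set (A.Pt 𝒞.s)) ∩ img Γ X) := by
      rintro y ⟨x, hx, hxy⟩
      have h1 : y ∈ img Γ (cl ((Λ : Set (A.Pt 𝒞.s)) ∩ X)) := ⟨x, hd hx, hxy⟩
      rw [hΓ.qh.img_cl (hdom _)] at h1
      refine cl_mono ?_ h1
      rintro b ⟨a, ⟨ha, ha'⟩, hab⟩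
      rw [coe_imgS]
      exact ⟨⟨a, ha, hab⟩, ⟨a, ha', hab⟩⟩
    have h2 : 𝒞.Sp (img Γ X) :=
      𝒞.Main_fin hX' hΛ' hd' (hΓ.stab_finite 𝒞.tf hX (Set.subset_univ _) hS)
        fun W hW => ih (dim W) (hn ▸ hW.trans_le hdim) W rfl
    refine Sp.of_nsmul hX hΓ.ne ?_
    rw [hΓ.nsmul_eq 𝒞.tf (Set.subset_univ _) hS.le]
    exact h2.add_sub hS.var

theorem Ctx.main_sp (𝒞 : Ctx p A C K) {X : Set (A.Pt 𝒞.s)} (hX : Var X)
    {Λ : AddSubgroup (A.Pt 𝒞.s)} (hΛ : Hyp 𝒞.𝒮 ⊤ Λ) (hd : X ⊆ cl ((Λ : Set (A.Pt 𝒞.s)) ∩ X)) :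
    𝒞.Sp X := 𝒞.Main_ind _ X rfl hX Λ hΛ hd

theorem exists_ctx (halg : ∀ z : C, ∃ n, 0 < n ∧ z ^ p ^ n = z) {sV : A.Str (VB C)}
    {s : A.Str (Big C)} (hs : A.push (VB C).subtype sV = s) (hv : Var (Set.univ : Set (A.Pt s)))
    (hl : A.Lifts s) (hp : ∀ x : A.Pt s, p • x = 0 → CongW (VB C) (0 : A.Pt s) x → x = 0) :
    ∃ 𝒞 : Ctx p A C (Big C), 𝒞.c = cB C ∧ 𝒞.s = s := by
  have htC : A.TorsFin (A.push (resB C) sV) := A.torsFin_alg p halg _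
  obtain ⟨H, A₀, h1, h2, h3, h4, h5⟩ := A.exists_trace p hs rfl rfl htC hp
  obtain ⟨𝒮, h6, h7⟩ := exists_std p C
  exact ⟨⟨cB C, A.push (resB C) sV, s, _, rfl, H, A₀, 𝒮, hv, A.torsFin_big hs rfl htC, htC, hl,
    h1, h2, h3, h4, h5, halg, h6, fun r hr e a => A.hull h7 rfl htC h3 hr e⟩, rfl, rfl⟩

end MLF
end

-- merged part: Pool.Agent.Work.MP_29d410_ag.Spread
section
/-!
# The theorem in positive characteristic

Plan.  `main_out`: let `F` be the union of the finite sets of `exists_strV`, `Cl.exists_def`, `exists_not_congW` for the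
pairs `(0, x)` with `x ≠ 0`, `p x = 0`, and of the sets `rat b` for `b` in the finite set of `FR Λ`.  Put
`X₁ = map i ⁻¹' X`, `Λ₁ = comap (map i) Λ`; all points of `Λ` come from `K₁` (`TorsFin.rat`,
`rat_range_iff`), so `Λ₁ ∩ X₁` is dense in `X₁` (`cl_image_map`, `ext_subset_ext_iff`); extend along `φ` to
`Big C`; the `p`-torsion points there come from `K₁` (`congW_map_iff`); `exists_ctx`, `hyp_of_rank`,
`main_sp`, `out_of_sp`, `Out.descend`, `Out.ascend`.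
`mordell_lang`: `AV.exists_link`, `main_out` for `C = acl ⊥` in `K₀`, `Out.base`, `Out.isSpecial`.
-/

open Pointwise

namespace MLF

universe u

open PG

variable {C K : Type u} [Field C] [IsAlgClosed C] [Field K] [IsAlgClosed K]

theorem main_out (p : ℕ) [Fact p.Prime] [CharP K p] (halg : ∀ z : C, ∃ n, 0 < n ∧ z ^ p ^ n = z)
    (c : C →+* K) {G : SPG.{u}} (hG : G.GL) {s : G.Str K} (hv : Var (Set.univ : Set (G.Pt s)))
    {X : Set (G.Pt s)} (hX : Var X) {Λ : AddSubgroup (G.Pt s)} (hΛ : FR Λ)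
    (hd : X ⊆ cl ((Λ : Set (G.Pt s)) ∩ X)) : Out c X := by
  have : CharP C p := c.charP c.injective p
  have : Countable C := countable_of_alg p halg
  have : CharP (Big C) p := charP_of_injective_ringHom (cB C).injective p
  have hp0 : p ≠ 0 := (Fact.out : p.Prime).ne_zero
  have tf : G.TorsFin s := G.torsFin_all p s
  obtain ⟨F₁, hF₁⟩ := PG.exists_strV s
  obtain ⟨F₂, hF₂⟩ := hX.1.exists_def
  choose F₃ hF₃ using fun x : {x : G.Pt s // 0 ≠ x} => PG.exists_not_congW x.2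
  obtain ⟨B, hBf, -, hB⟩ := id hΛ
  have hfin : ((F₁ : Set K) ∪ F₂ ∪ (⋃ x ∈ Subtype.val ⁻¹' {x : G.Pt s | p • x = 0}, F₃ x) ∪
      ⋃ b ∈ B, rat b).Finite :=
    ((F₁.finite_toSet.union F₂.finite_toSet).union
      (((tf p hp0).preimage Subtype.val_injective.injOn).biUnion
        fun x _ => (F₃ x).finite_toSet)).union (hBf.biUnion fun b _ => rat_finite b)
  obtain ⟨K₁, _, _, c₁, i, φ, rfl, hφ, hF⟩ := exists_sub c hfin.toFinset
  simp only [Set.Finite.mem_toFinset] at hF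
  obtain ⟨s₁, sV, h, hV⟩ := hF₁ K₁ (Big C) i φ (VB C)
    fun z hz => hF z (Or.inl (Or.inl (Or.inl hz)))
  obtain ⟨s₂, h₂⟩ : ∃ s₂, G.push φ s₁ = s₂ := ⟨_, rfl⟩
  rw [h₂] at hV
  have tf₁ : G.TorsFin s₁ := TorsFin.of_ext h tf
  obtain ⟨hX₁, hc₁⟩ := hF₂ i s₁ h fun z hz =>
    (hF z (Or.inl (Or.inl (Or.inr hz)))).imp fun _ h => h.1
  have hv₁ : Var (Set.univ : Set (G.Pt s₁)) :=
    var_of_ext cl_univ i h ((ext_univ h).symm ▸ hv)
  have hv₂ : Var (Set.univ : Set (G.Pt s₂)) := ext_univ h₂ ▸ var_ext hv₁ φ h₂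
  have hXv : Var (G.map i h ⁻¹' X) := var_of_ext hc₁ i h (hX₁.symm ▸ hX)
  have hrat : ∀ x ∈ Λ, ∃ x₁, G.map i h x₁ = x := fun x hx => by
    obtain ⟨n, hn, hnx⟩ := hB x hx
    refine (rat_range_iff i h).1 (tf₁.rat h hn ?_)
    refine (mem_RatS (def_range i s₁ h le_rfl)).1 ((AddSubgroup.closure_le _).2 ?_ hnx)
    intro b hb z hz
    exact (hF z (Or.inr (Set.mem_biUnion hb hz))).imp fun _ h => h.1
  have hd₁ : G.map i h ⁻¹' X ⊆ cl ((Λ.comap (G.map i h) : Set (G.Pt s₁)) ∩ G.map i h ⁻¹' X) := by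
    rw [← ext_subset_ext_iff i h (cl_cl _), ext_cl, hX₁, ← cl_image_map i h]
    refine hd.trans (cl_mono ?_)
    rintro x ⟨h1, h2⟩
    obtain ⟨x₁, rfl⟩ := hrat x h1
    exact ⟨x₁, ⟨h1, h2⟩, rfl⟩
  obtain ⟨𝒞, hc, rfl⟩ := exists_ctx (p := p) halg hV hv₂ (hG _ _ hv₂).lifts fun x hx hw => by
    obtain ⟨x₁, rfl⟩ := (rat_range_iff φ h₂).1 (tf₁.rat h₂ hp0 (y := x)
      ((rat_range_iff φ h₂).2 ⟨0, by rw [hx, map_zero]⟩))
    have h1 : p • x₁ = 0 := map_inj φ.injective h₂ (by rw [map_nsmul, hx, map_zero])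
    rw [← (G.map φ h₂).map_zero, congW_map_iff] at hw
    by_contra h0
    have h3 : 0 ≠ G.map i h x₁ := fun e => h0 (by
      rw [map_inj i.injective h ((G.map i h).map_zero.trans e).symm, map_zero])
    refine hF₃ ⟨_, h3⟩ K₁ i s₁ h _ (fun z hz => hF z (Or.inl (Or.inr (Set.mem_biUnion
      (x := ⟨_, h3⟩) ?_ hz)))) 0 x₁ (map_zero _) rfl hw
    change p • G.map i h x₁ = 0
    rw [← map_nsmul, h1, map_zero]
  have ho := 𝒞.out_of_sp (𝒞.main_sp (var_ext hXv φ h₂)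
    (hyp_of_rank 𝒞.𝒮 𝒞.tf ((hΛ.comap (map_inj i.injective h)).map (G.map φ h₂))) (by
      refine (ext_mono φ _ hd₁).trans ?_
      rw [ext_cl, ← cl_image_map φ h₂]
      refine cl_mono ?_
      rintro _ ⟨x, hx, rfl⟩
      exact ⟨⟨x, hx.1, rfl⟩, map_mem_ext φ h₂ hx.2⟩))
  rw [hc, ← hφ] at ho
  exact hX₁ ▸ (Out.descend h₂ tf₁ (fun B t => B.torsFin_alg p halg t) hc₁ ho).ascend h

theorem mordell_lang (p : ℕ) [Fact p.Prime] {K₀ K : Type u} [Field K₀] [IsAlgClosed K₀] [Field K]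
    [IsAlgClosed K] [CharP K p] (j : K₀ →+* K) {n : ℕ} (A : AV K n) {X : Set A.pts}
    (hX : IsSubvar X) {Λ : AddSubgroup A.pts} (hΛ : FiniteDimensional ℚ (TensorProduct ℤ ℚ Λ))
    (hd : X ⊆ closure ((Λ : Set A.pts) ∩ X)) : IsSpecial j A X := by
  have : CharP K₀ p := j.charP j.injective p
  obtain ⟨G, ε, s, e, hG, hL⟩ := A.exists_link
  refine Out.isSpecial p hL (Out.base (c := (acl (⊥ : Subfield K₀)).subtype)
    (main_out p (acl_bot_alg p) _ hG hL.var_univ (hL.subvar_iff.1 hX)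
      ((fr_of_finiteDimensional hΛ).map e.toAddMonoidHom) ?_))
  refine (Set.image_mono hd).trans ?_
  rw [hL.image_closure]
  refine cl_mono ?_
  rintro _ ⟨x, hx, rfl⟩
  exact ⟨⟨x, hx.1, rfl⟩, x, hx.2, rfl⟩

end MLF
end

-- merged part: Pool.Agent.Work.MP_29d410_ag.ZM
section
/-!
# The theorem in characteristic zero, and in every characteristic
-/

open Pointwise

namespace MLF

universe u

open PG

variable {C K : Type u} [Field C] [IsAlgClosed C] [Field K] [IsAlgClosed K]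

theorem Tr.sp_fin [CharZero K] {A : SPG.{u}} (𝒞 : Tr A C K) {δ : K → K} (hδ : Der δ)
    (hc : ∀ z, δ z = 0 ↔ z ∈ 𝒞.c.fieldRange) (hl : A.LiftsL 𝒞.s) {X : Set (A.Pt 𝒞.s)} (hX : Var X)
    {Λ : AddSubgroup (A.Pt 𝒞.s)} (hΛ : FR Λ) (hd : X ⊆ cl ((Λ : Set (A.Pt 𝒞.s)) ∩ X))
    (hS : (Stab X : Set (A.Pt 𝒞.s)).Finite) : 𝒞.Sp X := by
  let 𝒟 : Df A K := ⟨𝒞.s, hδ.taylor, hδ.cc_taylor, 𝒞.var, hl⟩
  obtain ⟨W, T, _, _, _, j₀, d₀, hd₀, e₀, x₀, hW, hA, h₀, hx₀⟩ :=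
    Df.exists_gen (𝒟 := 𝒟) hδ rfl hX hΛ hd
  obtain ⟨L, _, _, _, j, d, hd, e, x, hr, h₁, hx⟩ := Df.exists_gen' hδ rfl hW hA hd₀ e₀ hx₀
  have h₂ : loc j 𝒞.s x = X := h₁.trans h₀
  obtain ⟨K', Ω, _, _, _, _, i, ψ, j', κ, _, n, e', hLD, hκ, hLD', hn, hR⟩ :=
    Df.key hδ rfl hW hA hd e hr hx (h₂ ▸ hS)
  have h₃ : hδ.cst.map (j'.comp i) = ((j'.comp i).comp 𝒞.c).fieldRange := by
    rw [← RingHom.map_fieldRange]
    congr 1
    ext z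
    rw [hδ.mem_cst, hc]
  rw [h₃] at hκ hLD'
  have h₄ := 𝒞.sp_of_rat e' hLD hκ hLD' rfl rfl hR
  rw [loc_nsmul rfl, h₂] at h₄
  exact Tr.Sp.of_nsmul hX hn h₄

theorem FR.img {A B : PG.{u}} {s : A.Str K} {t : B.Str K} {Λ : AddSubgroup (A.Pt s)} (h : FR Λ)
    {Γ : AddSubgroup ((A.prod B).Pt (s, t))} (hΓ : QH Γ) : FR (imgS Γ Λ) := by
  have h1 := (h.comap (f := (AddMonoidHom.fst (A.Pt s) (B.Pt t)).comp Γ.subtype) fun z w e =>
    Subtype.ext (Prod.ext e (uniq_of_inj hΓ.inj (x := z.1.1) z.2 (by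
      have e' : z.1.1 = w.1.1 := e
      rw [e']
      exact w.2)))).map ((AddMonoidHom.snd (A.Pt s) (B.Pt t)).comp Γ.subtype)
  convert h1 using 1
  ext y
  constructor
  · rintro ⟨z, ⟨h2, h3⟩, rfl⟩
    exact ⟨⟨z, h2⟩, h3, rfl⟩
  · rintro ⟨z, h2, rfl⟩
    exact ⟨z.1, ⟨z.2, h2⟩, rfl⟩

theorem Tr.main_sp [CharZero K] {A : SPG.{u}} (𝒞 : Tr A C K) {δ : K → K} (hδ : Der δ)
    (hc : ∀ z, δ z = 0 ↔ z ∈ 𝒞.c.fieldRange) (hl : A.LiftsL 𝒞.s) {X : Set (A.Pt 𝒞.s)} (hX : Var X)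
    {Λ : AddSubgroup (A.Pt 𝒞.s)} (hΛ : FR Λ) (hd : X ⊆ cl ((Λ : Set (A.Pt 𝒞.s)) ∩ X)) :
    𝒞.Sp X := by
  obtain ⟨S, hS⟩ := exists_idc (cl_stab hX.1)
  obtain ⟨N, Γ, hΓ⟩ := A.exists_proj (D := ⊤) (S := S) 𝒞.var hS.var le_top
  have hdom : ∀ Y : Set (A.Pt 𝒞.s), Y ⊆ dom Γ := fun Y => by
    rw [hΓ.dom]; exact Set.subset_univ _
  have hX' : Var (img Γ X) := hΓ.qh.var_img hX (hdom X)
  have hd' : img Γ X ⊆ cl ((imgS Γ Λ : Set (A.Pt 𝒞.s)) ∩ img Γ X) := by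
    rintro y ⟨x, hx, hxy⟩
    have h1 : y ∈ img Γ (cl ((Λ : Set (A.Pt 𝒞.s)) ∩ X)) := ⟨x, hd hx, hxy⟩
    rw [hΓ.qh.img_cl (hdom _)] at h1
    refine cl_mono ?_ h1
    rintro b ⟨a, ⟨ha, ha'⟩, hab⟩
    rw [coe_imgS]
    exact ⟨⟨a, ha, hab⟩, ⟨a, ha', hab⟩⟩
  have h2 : 𝒞.Sp (img Γ X) := 𝒞.sp_fin hδ hc hl hX' (hΛ.img hΓ.qh) hd'
    (hΓ.stab_finite 𝒞.tf hX (Set.subset_univ _) hS)
  refine Tr.Sp.of_nsmul hX hΓ.ne ?_
  rw [hΓ.nsmul_eq 𝒞.tf (Set.subset_univ _) hS.le]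
  exact h2.add_sub hS.var

theorem main_out0 [CharZero K] [Countable C] (c : C →+* K) {G : SPG.{u}} (hG : G.GL) {s : G.Str K}
    (hv : Var (Set.univ : Set (G.Pt s))) {X : Set (G.Pt s)} (hX : Var X) {Λ : AddSubgroup (G.Pt s)}
    (hΛ : FR Λ) (hd : X ⊆ cl ((Λ : Set (G.Pt s)) ∩ X)) : Out c X := by
  have : CharZero C := c.charZero
  have : CharZero (Big C) := charZero_of_injective_ringHom (cB C).injective
  have tf : G.TorsFin s := G.torsFin_zero s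
  obtain ⟨F₁, hF₁⟩ := PG.exists_strV s
  obtain ⟨F₂, hF₂⟩ := hX.1.exists_def
  obtain ⟨B, hBf, -, hB⟩ := id hΛ
  have hfin : ((F₁ : Set K) ∪ F₂ ∪ ⋃ b ∈ B, rat b).Finite :=
    (F₁.finite_toSet.union F₂.finite_toSet).union (hBf.biUnion fun b _ => rat_finite b)
  obtain ⟨K₁, _, _, c₁, i, φ, rfl, hφ, hF⟩ := exists_sub c hfin.toFinset
  simp only [Set.Finite.mem_toFinset] at hF
  obtain ⟨s₁, sV, h, hV⟩ := hF₁ K₁ (Big C) i φ (VB C) fun z hz => hF z (Or.inl (Or.inl hz))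
  obtain ⟨s₂, h₂⟩ : ∃ s₂, G.push φ s₁ = s₂ := ⟨_, rfl⟩
  rw [h₂] at hV
  have tf₁ : G.TorsFin s₁ := TorsFin.of_ext h tf
  obtain ⟨hX₁, hc₁⟩ := hF₂ i s₁ h fun z hz => (hF z (Or.inl (Or.inr hz))).imp fun _ h => h.1
  have hv₁ : Var (Set.univ : Set (G.Pt s₁)) :=
    var_of_ext cl_univ i h ((ext_univ h).symm ▸ hv)
  have hv₂ : Var (Set.univ : Set (G.Pt s₂)) := ext_univ h₂ ▸ var_ext hv₁ φ h₂
  have hXv : Var (G.map i h ⁻¹' X) := var_of_ext hc₁ i h (hX₁.symm ▸ hX)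
  have hrat : ∀ x ∈ Λ, ∃ x₁, G.map i h x₁ = x := fun x hx => by
    obtain ⟨n, hn, hnx⟩ := hB x hx
    refine (rat_range_iff i h).1 (tf₁.rat h hn ?_)
    refine (mem_RatS (def_range i s₁ h le_rfl)).1 ((AddSubgroup.closure_le _).2 ?_ hnx)
    intro b hb z hz
    exact (hF z (Or.inr (Set.mem_biUnion hb hz))).imp fun _ h => h.1
  have hd₁ : G.map i h ⁻¹' X ⊆ cl ((Λ.comap (G.map i h) : Set (G.Pt s₁)) ∩ G.map i h ⁻¹' X) := by
    rw [← ext_subset_ext_iff i h (cl_cl _), ext_cl, hX₁, ← cl_image_map i h]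
    refine hd.trans (cl_mono ?_)
    rintro x ⟨h1, h2⟩
    obtain ⟨x₁, rfl⟩ := hrat x h1
    exact ⟨x₁, ⟨h1, h2⟩, rfl⟩
  obtain ⟨𝒞, hc, rfl⟩ := exists_tr hV hv₂
  obtain ⟨δ, hδ, hδ'⟩ := exists_big C
  have ho := Tr.out_of_sp (𝒞.main_sp hδ (hc ▸ hδ') (hG _ _ hv₂) (var_ext hXv φ h₂)
    ((hΛ.comap (map_inj i.injective h)).map (G.map φ h₂)) (by
      refine (ext_mono φ _ hd₁).trans ?_
      rw [ext_cl, ← cl_image_map φ h₂]
      refine cl_mono ?_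
      rintro _ ⟨x, hx, rfl⟩
      exact ⟨⟨x, hx.1, rfl⟩, map_mem_ext φ h₂ hx.2⟩))
  rw [hc, ← hφ] at ho
  exact hX₁ ▸ (Out.descend h₂ tf₁ (fun B t => B.torsFin_zero t) hc₁ ho).ascend h

theorem countable_acl_bot (F : Type u) [Field F] [CharZero F] :
    Countable (acl (⊥ : Subfield F)) := by
  have h1 : Countable (⊥ : Subfield F) := by
    refine Function.Surjective.countable (f := fun q : ℚ => (q : (⊥ : Subfield F))) fun z => ?_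
    have h2 : z.1 ∈ (Rat.castHom F).fieldRange := (bot_le : ⊥ ≤ (Rat.castHom F).fieldRange) z.2
    obtain ⟨q, hq⟩ := h2
    exact ⟨q, Subtype.ext (by simpa using hq)⟩
  exact (Algebraic.countable (⊥ : Subfield F) F).mono (fun z hz => mem_acl.1 hz) |>.to_subtype

theorem mordell_lang0 {K₀ K : Type u} [Field K₀] [IsAlgClosed K₀] [Field K] [IsAlgClosed K]
    [CharZero K] (j : K₀ →+* K) {n : ℕ} (A : AV K n) {X : Set A.pts} (hX : IsSubvar X)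
    {Λ : AddSubgroup A.pts} (hΛ : FiniteDimensional ℚ (TensorProduct ℤ ℚ Λ))
    (hd : X ⊆ closure ((Λ : Set A.pts) ∩ X)) : IsSpecial j A X := by
  have : CharZero K₀ := j.charZero
  have := countable_acl_bot K₀
  obtain ⟨G, ε, s, e, hG, hL⟩ := A.exists_link
  refine Out.isSpecial 1 hL (Out.base (c := (acl (⊥ : Subfield K₀)).subtype)
    (main_out0 _ hG hL.var_univ (hL.subvar_iff.1 hX)
      ((fr_of_finiteDimensional hΛ).map e.toAddMonoidHom) ?_))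
  refine (Set.image_mono hd).trans ?_
  rw [hL.image_closure]
  refine cl_mono ?_
  rintro _ ⟨x, hx, rfl⟩
  exact ⟨⟨x, hx.1, rfl⟩, x, hx.2, rfl⟩

theorem mordell_lang_all {K₀ K : Type u} [Field K₀] [IsAlgClosed K₀] [Field K] [IsAlgClosed K]
    (j : K₀ →+* K) {n : ℕ} (A : AV K n) {X : Set A.pts} (hX : IsSubvar X)
    {Λ : AddSubgroup A.pts} (hΛ : FinRank Λ) (hd : X ⊆ closure ((Λ : Set A.pts) ∩ X)) :
    IsSpecial j A X := by
  obtain ⟨p, hp⟩ := CharP.exists K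
  rcases CharP.char_is_prime_or_zero K p with h | rfl
  · have : Fact p.Prime := ⟨h⟩
    exact mordell_lang p j A hX hΛ hd
  · have := CharP.charP_to_charZero K
    exact mordell_lang0 j A hX hΛ hd

end MLF
end
end
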