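import Pool.Agent.Work.MP_29d410_ag.ZHb
import Pool.Agent.Work.MP_29d410_ag.Geo1
import Pool.Agent.Work.MP_29d410_ag.DM7A
import Pool.Agent.Work.MP_29d410_ag.ZF3
import Pool.Agent.Work.MP_29d410_ag.Tor3

-- merged part: Pool.Agent.Work.MP_29d410_ag.ZH
section
/-!
# Repartitions of a function field of one variable; finiteness of values

Plan for `h1`.  If the rank is zero then `F = K`.  Otherwise let `x` be transcendental, `F` is finite over
`K(x)`; `R = Tor1_S K x`, `R' = Tor1_S K x⁻¹` are Dedekind domains with fraction field `F`, and the valuation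
rings containing `K` and `x` are the localisations of `R`.  An element of `F` has finitely many poles.  By
the Chinese remainder theorem there are `f`, `f'` with `a W - f ∈ W` whenever `x ∈ W`, `a W - f' ∈ W` whenever
`x⁻¹ ∈ W`.  Then `x ^ n * (f - f') ∈ R` for large `n`, so `f - f' = u + r + r'` with `u` in the space `U` of
`Tor1_fin`.  Take `u l W = 0` if `x ∈ W`, and `- u l` otherwise, for generators `u l` of `U`.
`fin_vals`: if the set is infinite, every relation `f (v, z) = 0` over `K` gives `f (a, Z) = 0` identically; so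
every relation of `(v, z⁻¹)` is satisfied by `(a, 0)`; `Geo2A_place` gives a place with `z ∉ P.W`.
-/

open Polynomial IntermediateField

namespace MLF

universe u

section aux

variable {C E : Type u} [Field C] [Field E] [Algebra C E] {x : E}

theorem ZH_den (hK : Tor1_Alg C x) (z : E) :
    ∃ d : C[X], d ≠ 0 ∧ aeval x d * z ∈ Tor1_S C x := by
  let _ := (aeval x : C[X] →ₐ[C] E).toRingHom.toAlgebra
  obtain ⟨d, hd, h⟩ := IsAlgebraic.exists_integral_multiple (R := C[X]) (z := z) (hK z)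
  exact ⟨d, hd, Tor1_mem_iff.2 h⟩

theorem ZH_root [IsAlgClosed C] {W : ValuationSubring E} (h : ∀ a : C, algebraMap C E a ∈ W)
    {d : C[X]} (hd : d ≠ 0) (hW : (aeval x d)⁻¹ ∉ W) :
    ∃ l ∈ d.roots, x - algebraMap C E l ∈ W.nonunits := by
  have h1 : aeval x d ∈ W.nonunits := W.mem_nonunits_iff_or.2 (Or.inr hW)
  obtain ⟨l, hl⟩ := Tor1_res h hd h1
  refine ⟨l, (mem_roots hd).2 (Tor1_unit h ?_), hl⟩
  have h2 := sub_mem h1 ((Tor1_ev h hl).2 d)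
  rwa [sub_sub_cancel] at h2

theorem ZH_idem [IsAlgClosed C] (hx : Transcendental C x) (hK : Tor1_Alg C x)
    (T : Finset (ValuationSubring E)) (hT : ∀ W ∈ T, (∀ a : C, algebraMap C E a ∈ W) ∧
      ∃ l : C, x - algebraMap C E l ∈ W.nonunits) {W : ValuationSubring E} (hW : W ∈ T) :
    ∃ s ∈ Tor1_S C x, s - 1 ∈ W.nonunits ∧ ∀ W' ∈ T, W' ≠ W → s ∈ W'.nonunits := by
  classical
  obtain ⟨h, l, hl⟩ := hT W hW
  have step : ∀ W' ∈ T.erase W, ∃ s ∈ Tor1_S C x, s - 1 ∈ W.nonunits ∧ s ∈ W'.nonunits := by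
    intro W' hW'
    obtain ⟨hne, hW'⟩ := Finset.mem_erase.1 hW'
    obtain ⟨h', l', hl'⟩ := hT W' hW'
    by_cases hle : W ≤ W'
    · refine absurd (le_antisymm (fun z hz => ?_) hle) hne
      obtain ⟨μ, hμ⟩ := Tor1_res2 hx hK h' hl' hz
      have h1 := ValuationSubring.nonunits_subset
        (ValuationSubring.nonunits_le_nonunits.2 hle hμ)
      simpa using W.add_mem _ _ h1 (h μ)
    · obtain ⟨z, hz, hz'⟩ := SetLike.not_le_iff_exists.1 hle
      exact Tor1_sep hx hK h hl h' (Tor1_ev h' hl').1 hz hz'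
  choose! s hs using step
  refine ⟨∏ W' ∈ T.erase W, s W', prod_mem fun W' hW' => (hs W' hW').1,
    Tor1_prod_one _ fun W' hW' => (hs W' hW').2.1, fun W' hW' hne => ?_⟩
  obtain ⟨h', l', hl'⟩ := hT W' hW'
  have hm := Finset.mem_erase.2 ⟨hne, hW'⟩
  exact Tor1_prod_zero _ (fun V hV => (hs V hV).1 W' h' (Tor1_ev h' hl').1) hm (hs W' hm).2.2

theorem ZH_fib [IsAlgClosed C] (hx : Transcendental C x) [FiniteDimensional C⟮x⟯ E] (l : C) :
    {W : ValuationSubring E | (∀ a : C, algebraMap C E a ∈ W) ∧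
      x - algebraMap C E l ∈ W.nonunits}.Finite := by
  classical
  have hK : Tor1_Alg C x := Tor1_alg hx
  by_contra hinf
  obtain ⟨T, hT, hc⟩ := Set.Infinite.exists_subset_card_eq hinf (Module.finrank C⟮x⟯ E + 1)
  have hT' : ∀ W ∈ T, (∀ a : C, algebraMap C E a ∈ W) ∧ x - algebraMap C E l ∈ W.nonunits :=
    fun W hW => hT hW
  choose! e he using fun W (hW : W ∈ T) =>
    ZH_idem hx hK T (fun W hW => ⟨(hT' W hW).1, l, (hT' W hW).2⟩) hW
  let _ := (aeval (AdjoinSimple.gen C x) : C[X] →ₐ[C] C⟮x⟯).toRingHom.toAlgebra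
  let _ := (aeval x : C[X] →ₐ[C] E).toRingHom.toAlgebra
  have := Tor1_frac hx
  have : IsScalarTower C[X] C⟮x⟯ E := IsScalarTower.of_algebraMap_eq fun f =>
    aeval_algebraMap_apply E (AdjoinSimple.gen C x) f
  have hy : aeval x (X - Polynomial.C l) ≠ 0 := fun h => hx ⟨_, X_sub_C_ne_zero l, h⟩
  have hli : LinearIndependent C[X] (fun W : T => e W) := by
    rw [Fintype.linearIndependent_iff]
    intro g hg
    have key : ∀ n : ℕ, ∀ W, (X - Polynomial.C l) ^ n ∣ g W := by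
      intro n
      induction n with
      | zero => simp
      | succ n ih =>
        choose q hq using ih
        have h0 : ∑ W : T, aeval x (q W) * e W = 0 := by
          refine mul_left_cancel₀ (pow_ne_zero n hy) ?_
          rw [mul_zero, ← hg, Finset.mul_sum]
          refine Finset.sum_congr rfl fun W _ => ?_
          change _ = aeval x (g W) * e W
          rw [hq W, map_mul, map_pow, mul_assoc]
        intro W
        obtain ⟨h, hl⟩ := hT' W W.2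
        have hxW := (Tor1_ev h hl).1
        have h1 : ∑ V ∈ Finset.univ.erase W, aeval x (q V) * e V ∈ W.1.nonunits :=
          sum_mem fun V hV => Tor1_mul_nu (Tor1_aeval x _ W h hxW)
            ((he V V.2).2.2 W W.2 fun c => (Finset.mem_erase.1 hV).1 (Subtype.ext c.symm))
        rw [← Finset.add_sum_erase _ _ (Finset.mem_univ W)] at h0
        have h2 : algebraMap C E ((q W).eval l) ∈ W.1.nonunits := by
          have e1 : algebraMap C E ((q W).eval l) =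
              -(∑ V ∈ Finset.univ.erase W, aeval x (q V) * e V) - aeval x (q W) * (e W - 1) -
                (aeval x (q W) - algebraMap C E ((q W).eval l)) := by
            linear_combination h0
          rw [e1]
          exact sub_mem (sub_mem (neg_mem h1) (Tor1_mul_nu (Tor1_aeval x _ W h hxW) (he W W.2).2.1))
            ((Tor1_ev h hl).2 _)
        rw [hq W, pow_succ]
        exact mul_dvd_mul_left _ (dvd_iff_isRoot.2 (Tor1_unit h h2))
    intro W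
    refine eq_zero_of_dvd_of_natDegree_lt (key ((g W).natDegree + 1) W) ?_
    rw [natDegree_pow, natDegree_X_sub_C]
    omega
  have h3 := ((LinearIndependent.iff_fractionRing C[X] C⟮x⟯).1 hli).fintype_card_le_finrank
  rw [Fintype.card_coe, hc] at h3
  omega

theorem ZH_arch (hx : Transcendental C x) (hK : Tor1_Alg C x) {W : ValuationSubring E}
    (h : ∀ a : C, algebraMap C E a ∈ W) {l : C} (hl : x - algebraMap C E l ∈ W.nonunits) {t : E}
    (ht : t ∈ W.nonunits) {d : C[X]} (hd : d ≠ 0) :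
    ∃ N : ℕ, ∀ n ≥ N, t ^ n * (aeval x d)⁻¹ ∈ W := by
  classical
  have hxW := (Tor1_ev h hl).1
  have hun : ∀ q : C[X], q.eval l ≠ 0 → W.valuation (aeval x q) = 1 := fun q hq => by
    refine le_antisymm ((W.valuation_le_one_iff _).2 (Tor1_aeval x q W h hxW)) (not_lt.1 fun c => ?_)
    have h2 := sub_mem (W.mem_nonunits_iff.2 c) ((Tor1_ev h hl).2 q)
    rw [sub_sub_cancel] at h2
    exact hq (Tor1_unit h h2)
  have hy0 : x - algebraMap C E l ≠ 0 := fun c => hx ⟨_, X_sub_C_ne_zero l, by simpa using c⟩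
  have ht1 : W.valuation t < 1 := W.mem_nonunits_iff.1 ht
  obtain ⟨k, hk⟩ : ∃ k : ℕ, W.valuation t ^ k ≤ W.valuation (x - algebraMap C E l) := by
    obtain ⟨P, e, hk⟩ := Tor1_prim hx hK t l
    refine ⟨Nat.find hk, not_lt.1 fun c => ?_⟩
    have hk1 := Nat.find_spec hk
    have hk2 : ∀ i < Nat.find hk, (P.coeff i).eval l = 0 := fun i hi => by
      simpa using Nat.find_min hk hi
    generalize Nat.find hk = k at c hk1 hk2
    have hle : k ≤ P.natDegree := le_natDegree_of_ne_zero fun h0 => hk1 (by rw [h0, eval_zero])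
    have hne : W.valuation t ^ k ≠ 0 := (zero_le.trans_lt c).ne'
    rw [eval₂_eq_sum_range, ← Finset.add_sum_erase _ _
      (Finset.mem_range.2 (Nat.lt_succ_of_le hle))] at e
    have h2 : W.valuation (∑ i ∈ (Finset.range (P.natDegree + 1)).erase k,
        (aeval x : C[X] →ₐ[C] E).toRingHom (P.coeff i) * t ^ i) < W.valuation t ^ k := by
      refine W.valuation.map_sum_lt hne fun i hi => ?_
      rw [map_mul, map_pow]
      change W.valuation (aeval x (P.coeff i)) * _ < _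
      rcases lt_or_gt_of_ne (Finset.mem_erase.1 hi).1 with h3 | h3
      · obtain ⟨q, hq⟩ := dvd_iff_isRoot.2 (hk2 i h3)
        rw [hq, map_mul, map_sub, aeval_X, aeval_C, map_mul]
        refine lt_of_le_of_lt ?_ c
        exact (mul_le_of_le_one_right' (pow_le_one' ht1.le _)).trans
          (mul_le_of_le_one_right' ((W.valuation_le_one_iff _).2 (Tor1_aeval x q W h hxW)))
      · refine (mul_le_of_le_one_left'
          ((W.valuation_le_one_iff _).2 (Tor1_aeval x _ W h hxW))).trans_lt ?_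
        obtain ⟨m, rfl⟩ := Nat.exists_eq_add_of_lt h3
        rw [add_assoc, pow_add]
        exact mul_lt_of_lt_one_right (zero_lt_iff.2 hne) (pow_lt_one' ht1 (by omega))
    rw [eq_neg_of_add_eq_zero_right e, Valuation.map_neg, map_mul, map_pow] at h2
    change W.valuation (aeval x (P.coeff k)) * _ < _ at h2
    rw [hun _ hk1, one_mul] at h2
    exact lt_irrefl _ h2
  obtain ⟨m, q, hq, rfl⟩ := WfDvdMonoid.max_power_factor' hd (not_isUnit_X_sub_C l)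
  refine ⟨k * m, fun n hn => (W.valuation_le_one_iff _).1 ?_⟩
  rw [map_mul, map_inv₀, map_mul, map_mul, hun q fun c => hq (dvd_iff_isRoot.2 c), mul_one, map_pow,
    map_pow, map_pow, map_sub, aeval_X, aeval_C,
    mul_inv_le_iff₀ (pow_pos (zero_lt_iff.2 ((_root_.map_ne_zero _).2 hy0)) m), one_mul]
  refine (pow_le_pow_right_of_le_one' ht1.le hn).trans ?_
  rw [pow_mul]
  exact pow_le_pow_left' hk m

theorem ZH_poles [IsAlgClosed C] (hx : Transcendental C x) [FiniteDimensional C⟮x⟯ E] (z : E) :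
    {W : ValuationSubring E | (∀ a : C, algebraMap C E a ∈ W) ∧ x ∈ W ∧ z ∉ W}.Finite := by
  classical
  obtain ⟨d, hd, hz⟩ := ZH_den (Tor1_alg hx) z
  have hd0 : aeval x d ≠ 0 := fun c => hx ⟨d, hd, c⟩
  refine (d.roots.toFinset.finite_toSet.biUnion fun l _ => ZH_fib hx l).subset ?_
  rintro W ⟨h, h1, h2⟩
  obtain ⟨l, hl, hl'⟩ := ZH_root (x := x) h hd fun c => h2 (by
    have := W.mul_mem _ _ c (hz W h h1)
    rwa [inv_mul_cancel_left₀ hd0] at this)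
  exact Set.mem_biUnion (Finset.mem_coe.2 (Multiset.mem_toFinset.2 hl)) ⟨h, hl'⟩

theorem ZH_approx [IsAlgClosed C] (hx : Transcendental C x) [FiniteDimensional C⟮x⟯ E]
    (a : ValuationSubring E → E)
    (ha : {W : ValuationSubring E | (∀ c, algebraMap C E c ∈ W) ∧ a W ∉ W}.Finite) :
    ∃ f : E, ∀ W : ValuationSubring E, (∀ c, algebraMap C E c ∈ W) → x ∈ W → a W - f ∈ W := by
  classical
  have hK : Tor1_Alg C x := Tor1_alg hx
  choose dd hdd hdS using fun W => ZH_den hK (a W)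
  obtain ⟨d, hd, hda⟩ : ∃ d : C[X], d ≠ 0 ∧ ∀ W : ValuationSubring E,
      (∀ c, algebraMap C E c ∈ W) → a W ∉ W → aeval x d * a W ∈ Tor1_S C x := by
    refine ⟨∏ W ∈ ha.toFinset, dd W, Finset.prod_ne_zero_iff.2 fun W _ => hdd W, fun W h1 h2 => ?_⟩
    rw [← Finset.prod_erase_mul _ _ (ha.mem_toFinset.2 ⟨h1, h2⟩), map_mul, mul_assoc]
    exact mul_mem (Tor1_aeval x _) (hdS W)
  have hd0 : aeval x d ≠ 0 := fun c => hx ⟨d, hd, c⟩
  have hfin := ZH_poles hx (aeval x d)⁻¹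
  set T := hfin.toFinset with hTdef
  have hT : ∀ W ∈ T, (∀ a : C, algebraMap C E a ∈ W) ∧
      ∃ l : C, x - algebraMap C E l ∈ W.nonunits := fun W hW => by
    obtain ⟨h, -, h2⟩ := hfin.mem_toFinset.1 hW
    obtain ⟨l, -, hl⟩ := ZH_root h hd h2
    exact ⟨h, l, hl⟩
  have step : ∀ W ∈ T, ∃ e ∈ Tor1_S C x, (e - 1) * (aeval x d)⁻¹ ∈ W ∧
      ∀ W' ∈ T, W' ≠ W → e * (aeval x d)⁻¹ ∈ W' := by
    intro W hW
    obtain ⟨s, hs, h1, h2⟩ := ZH_idem hx hK T hT hW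
    have h3 : ∀ W' ∈ T, W' ≠ W → ∃ N : ℕ, ∀ n ≥ N, s ^ n * (aeval x d)⁻¹ ∈ W' := fun W' hW' hne => by
      obtain ⟨h', l', hl'⟩ := hT W' hW'
      exact ZH_arch hx hK h' hl' (h2 W' hW' hne) hd
    choose! N hN using h3
    obtain ⟨h, l, hl⟩ := hT W hW
    have h4 : 1 - s ^ T.sup N ∈ W.nonunits := by
      rw [← neg_sub, ← Finset.card_range (T.sup N), ← Finset.prod_const]
      exact neg_mem (Tor1_prod_one (ι := ULift ℕ) (f := fun _ => s)
        ((Finset.range (T.sup N)).map ⟨ULift.up, ULift.up_injective⟩) (fun _ _ => h1) |>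
          fun c => by simpa using c)
    obtain ⟨M, hM⟩ := ZH_arch hx hK h hl h4 hd
    have h5 : 1 - s ^ T.sup N ∈ Tor1_S C x := sub_mem (one_mem _) (pow_mem hs _)
    refine ⟨1 - (1 - s ^ T.sup N) ^ M, sub_mem (one_mem _) (pow_mem h5 _), ?_, fun W' hW' hne => ?_⟩
    · rw [sub_sub_cancel_left, neg_mul]
      exact neg_mem (hM M le_rfl)
    · obtain ⟨h', l', hl'⟩ := hT W' hW'
      rw [← mul_neg_geom_sum, sub_sub_cancel, mul_right_comm]
      exact W'.mul_mem _ _ (hN W' hW' hne _ (Finset.le_sup hW'))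
        (sum_mem fun i _ => pow_mem (h5 W' h' (Tor1_ev h' hl').1) _)
  choose! e he using step
  let b : ValuationSubring E → E := fun W => if a W ∈ W then 0 else a W
  have hb : ∀ W ∈ T, aeval x d * b W ∈ Tor1_S C x := fun W hW => by
    simp only [b]
    split_ifs with c
    · rw [mul_zero]
      exact zero_mem _
    · exact hda W (hT W hW).1 c
  have hmul : ∀ y w : E, y * w = aeval x d * y * (w * (aeval x d)⁻¹) := fun y w => by
    field_simp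
  refine ⟨∑ W ∈ T, b W * e W, fun W h hxW => ?_⟩
  by_cases hW : W ∈ T
  · have h1 : a W - b W ∈ W := by
      simp only [b]
      split_ifs with c
      · rwa [sub_zero]
      · rw [sub_self]
        exact W.zero_mem
    have e1 : a W - ∑ V ∈ T, b V * e V =
        a W - b W - b W * (e W - 1) - ∑ V ∈ T.erase W, b V * e V := by
      rw [← Finset.add_sum_erase _ _ hW]
      ring
    rw [e1]
    refine sub_mem (sub_mem h1 ?_) (sum_mem fun V hV => ?_)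
    · rw [hmul]
      exact W.mul_mem _ _ (hb W hW W h hxW) (he W hW).2.1
    · obtain ⟨hne, hV⟩ := Finset.mem_erase.1 hV
      rw [hmul]
      exact W.mul_mem _ _ (hb V hV W h hxW) ((he V hV).2.2 W hW hne.symm)
  · have h1 : (aeval x d)⁻¹ ∈ W := by_contra fun c => hW (hfin.mem_toFinset.2 ⟨h, hxW, c⟩)
    refine sub_mem (by_contra fun c => c ?_) (sum_mem fun V hV => ?_)
    · have := W.mul_mem _ _ h1 (hda W h c W h hxW)
      rwa [inv_mul_cancel_left₀ hd0] at this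
    · rw [hmul]
      exact W.mul_mem _ _ (hb V hV W h hxW) (W.mul_mem _ _ ((he V hV).1 W h hxW) h1)

theorem ZH_scale [IsAlgClosed C] (hx : Transcendental C x) [FiniteDimensional C⟮x⟯ E] {z : E}
    (hz : ∀ W : ValuationSubring E, (∀ c, algebraMap C E c ∈ W) → x ∈ W → x⁻¹ ∈ W → z ∈ W) :
    ∃ n : ℕ, x ^ n * z ∈ Tor1_S C x := by
  classical
  have hK : Tor1_Alg C x := Tor1_alg hx
  obtain ⟨d, hd, hdz⟩ := ZH_den hK z
  have hd0 : aeval x d ≠ 0 := fun c => hx ⟨d, hd, c⟩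
  have hfin := ZH_fib hx (0 : C)
  have h1 : ∀ W ∈ hfin.toFinset, ∃ N : ℕ, ∀ n ≥ N, x ^ n * (aeval x d)⁻¹ ∈ W := fun W hW => by
    obtain ⟨h, hl⟩ := hfin.mem_toFinset.1 hW
    exact ZH_arch hx hK h hl (by simpa using hl) hd
  choose! N hN using h1
  refine ⟨hfin.toFinset.sup N, fun W h hxW => ?_⟩
  by_cases hi : x⁻¹ ∈ W
  · exact W.mul_mem _ _ (pow_mem hxW _) (hz W h hxW hi)
  · have hW : W ∈ hfin.toFinset := hfin.mem_toFinset.2
      ⟨h, by simpa using W.mem_nonunits_iff_or.2 (Or.inr hi)⟩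
    have := W.mul_mem _ _ (hN W hW _ (Finset.le_sup hW)) (hdz W h hxW)
    rwa [mul_assoc, inv_mul_cancel_left₀ hd0] at this

theorem ZH_core [IsAlgClosed C] (hx : Transcendental C x) [hfd : FiniteDimensional C⟮x⟯ E]
    [Algebra.IsSeparable C⟮x⟯ E] :
    (∀ z : E, {W : ValuationSubring E | (∀ c, algebraMap C E c ∈ W) ∧ z ∉ W}.Finite) ∧
    ∃ (g : ℕ) (u : Fin g → ValuationSubring E → E), ∀ a : ValuationSubring E → E,
      {W : ValuationSubring E | (∀ c, algebraMap C E c ∈ W) ∧ a W ∉ W}.Finite →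
      ∃ (f : E) (c : Fin g → C), ∀ W : ValuationSubring E, (∀ c, algebraMap C E c ∈ W) →
        a W - f - ∑ l, algebraMap C E (c l) * u l W ∈ W := by
  classical
  have hx' : Transcendental C x⁻¹ := fun h => hx (by simpa using h.inv)
  have e : C⟮x⟯ = C⟮x⁻¹⟯ := le_antisymm
    (adjoin_simple_le_iff.2 (by simpa using inv_mem (mem_adjoin_simple_self C x⁻¹)))
    (adjoin_simple_le_iff.2 (inv_mem (mem_adjoin_simple_self C x)))
  have : FiniteDimensional C⟮x⁻¹⟯ E := e ▸ hfd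
  refine ⟨fun z => ((ZH_poles hx z).union (ZH_poles hx' z)).subset fun W hW =>
    (W.mem_or_inv_mem x).imp (fun h => ⟨hW.1, h, hW.2⟩) fun h => ⟨hW.1, h, hW.2⟩, ?_⟩
  obtain ⟨U, hU, hU'⟩ := Tor1_fin hx
  obtain ⟨g, v, rfl⟩ := Submodule.fg_iff_exists_fin_generating_family.1 hU
  refine ⟨g, fun l W => if x ∈ W then 0 else -v l, fun a ha => ?_⟩
  obtain ⟨f, hf⟩ := ZH_approx hx a ha
  obtain ⟨f', hf'⟩ := ZH_approx hx' a ha
  obtain ⟨n, hn⟩ := ZH_scale hx (z := f - f') fun W h h1 h2 => by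
    have := sub_mem (hf' W h h2) (hf W h h1)
    rwa [sub_sub_sub_cancel_left] at this
  obtain ⟨w, hw, r0, hr0, e1⟩ := Submodule.mem_sup.1 (hU' _ n hn)
  obtain ⟨r, hr, r', hr', rfl⟩ := Submodule.mem_sup.1 hr0
  obtain ⟨c, rfl⟩ := (Submodule.mem_span_range_iff_exists_fun C).1 hw
  refine ⟨f - r, c, fun W h => ?_⟩
  by_cases h1 : x ∈ W
  · simp only [if_pos h1, mul_zero, Finset.sum_const_zero, sub_zero]
    rw [← sub_add]
    exact W.add_mem _ _ (hf W h h1) (hr W h h1)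
  · have h2 := (W.mem_or_inv_mem x).resolve_left h1
    have e2 : a W - (f - r) - ∑ l, algebraMap C E (c l) * -v l = a W - f' - r' := by
      simp only [mul_neg, Finset.sum_neg_distrib, ← Algebra.smul_def]
      linear_combination e1
    simp only [if_neg h1]
    rw [e2]
    exact sub_mem (hf' W h h2) (hr' W h h2)

end aux

theorem h1 {K F : Type u} [Field K] [IsAlgClosed K] [CharZero K] [Field F] (j : K →+* F)
    (s : Finset F) (hs : adj j.fieldRange (s : Set F) = ⊤) (hr : rk j.fieldRange (s : Set F) ≤ 1) :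
    (∀ z : F, {W : ValuationSubring F | (∀ c, j c ∈ W) ∧ z ∉ W}.Finite) ∧
    ∃ (g : ℕ) (u : Fin g → ValuationSubring F → F), ∀ a : ValuationSubring F → F,
      {W : ValuationSubring F | (∀ c, j c ∈ W) ∧ a W ∉ W}.Finite →
      ∃ (f : F) (c : Fin g → K), ∀ W : ValuationSubring F, (∀ c, j c ∈ W) →
        a W - f - ∑ l, j (c l) * u l W ∈ W := by
  let _ := j.toAlgebra
  have : Algebra.EssFiniteType K F := IntermediateField.fg_top_iff.1 ⟨s,
    IntermediateField.toSubfield_injective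
      ((IntermediateField.adjoin_toSubfield K (s : Set F)).trans hs)⟩
  obtain ⟨t, ht, hsep⟩ := exists_isTranscendenceBasis_and_isSeparable_of_perfectField K F
  have h1 : (AlgebraicIndependent.matroid j.fieldRange F).Indep (t : Set F) :=
    ht.1.ringHom_of_comp_eq j.rangeRestrictField (RingHom.id F)
      j.rangeRestrictFieldEquiv.surjective Function.injective_id rfl
  have h2 : (t : Set F).encard ≤ 1 := by
    refine (h1.encard_le_eRk_of_subset (Set.subset_univ _)).trans ?_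
    rw [← rk_adj, hs] at hr
    exact hr
  rw [Set.encard_coe_eq_coe_finsetCard, Nat.cast_le_one, Finset.card_le_one_iff_subset_singleton]
    at h2
  obtain ⟨x, hx⟩ := h2
  rcases Finset.subset_singleton_iff.1 hx with rfl | rfl
  · have : Algebra.IsAlgebraic K F := ht.isEmpty_iff_isAlgebraic.1 inferInstance
    have e : ∀ W : ValuationSubring F, (∀ c, j c ∈ W) → ∀ z, z ∈ W := fun W h z => by
      obtain ⟨a, rfl⟩ := (IsAlgClosed.algebraMap_bijective_of_isIntegral (k := K) (K := F)).2 z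
      exact h a
    exact ⟨fun z => Set.finite_empty.subset fun W hW => hW.2 (e W hW.1 z), 0, Fin.elim0,
      fun a _ => ⟨0, Fin.elim0, fun W h => e W h _⟩⟩
  · rw [Finset.coe_singleton] at hsep
    have : Algebra.EssFiniteType (IntermediateField.adjoin K {x}) F := .of_comp K _ _
    have : FiniteDimensional (IntermediateField.adjoin K {x}) F :=
      Algebra.finite_of_essFiniteType_of_isAlgebraic
    exact ZH_core (ht.1.transcendental ⟨x, Finset.mem_singleton_self x⟩)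

end MLF
end

-- merged part: Pool.Agent.Work.MP_29d410_ag.ZS4c
section
-- merged part: Pool.Agent.Work.MP_29d410_ag.ZS1c
section
/-!
# A deformation; complete lifts

`E j` is the group of points over `T⟦ε⟧` of the deformation, an extension of `P j = A (T)` by the vector
group with coordinates `lv`.  `S W j` consists of the points which are integral modulo `W` at every place.
Plan.  `res_eq_zero`: `cong_ker_iff`.  The `lv` lemmas: the `lg` lemmas for the ideal `mx T`.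
`S`: a point which is integral at `𝒲`, with trivial `res`, has `lv` in `𝒲`, and conversely.
`S_emap`: restrict the valuation ring.  `S_desc`: extend `𝒲` to `𝒲'` (`exists_place`), lift `res y` to
`y₁` over `𝒲` (`map_val_bij`, `res_surj`), `v = lv (y - y₁)`; with the projection `pr` of `exists_pr`,
`pr v` has entries in `𝒲' ∩ T`, and `v - pr v ∈ Wsp`.  `S_red`: given `𝒲'` in `T'`, the elements `a / b` with
`a, b ∈ P.W`, `P.r b ≠ 0`, `P.r a / P.r b ∈ 𝒲'` form a valuation ring `𝒲''` of `T`; all rings lie in the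
localisation of `P.W` at the kernel of `P.r`.  `S_inter`: the entries of `pr (lv u)` lie in all valuation
rings containing `K`, so in `K` (`Tor1_int_iff`).
-/

open PowerSeries

namespace MLF

universe u

open PG

/-- A projection with kernel the span of `W`, functorial in the ring. -/
structure ZS1cPr {K : Type u} [Field K] {τ : Type} (W : Submodule K (τ × ℕ → K)) :
    Type (u + 1) where
  pr : ∀ {T : Type u} [CommRing T], (K →+* T) → (τ × ℕ → T) → τ × ℕ → T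
  ker : ∀ {T : Type u} [CommRing T] (j : K →+* T) (v : τ × ℕ → T), v ∈ Wsp W j → pr j v = 0
  sub : ∀ {T : Type u} [CommRing T] (j : K →+* T) (v : τ × ℕ → T), v - pr j v ∈ Wsp W j
  add : ∀ {T : Type u} [CommRing T] (j : K →+* T) (v w : τ × ℕ → T),
    pr j (v + w) = pr j v + pr j w
  nat : ∀ {T T' : Type u} [CommRing T] [CommRing T'] (ψ : T →+* T') {j : K →+* T} {j' : K →+* T'},
    ψ.comp j = j' → ∀ v : τ × ℕ → T, pr j' (ψ ∘ v) = ψ ∘ pr j v
  zero : ∀ {T : Type u} [CommRing T] (j : K →+* T) (v : τ × ℕ → T) (a : τ),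
    pr j v (a, 0) = v (a, 0)

theorem ZS1c_pr {K : Type u} [Field K] {τ : Type} {W : Submodule K (τ × ℕ → K)} (hW : Fin0 W) :
    Nonempty (ZS1cPr W) := by
  have := hW.fin
  obtain ⟨n, pos, b, hb, -, h⟩ := exists_pr W
  refine ⟨⟨fun j v i => v i - ∑ k, v (pos k) * j (b k i), fun j v hv => ?_, fun j v => ?_,
    fun j v w => ?_, fun ψ j j' e v => ?_, fun j v a => ?_⟩⟩
  · funext i
    exact sub_eq_zero.2 ((h _ j v).1 hv i)
  · have e : (v - fun i => v i - ∑ k, v (pos k) * j (b k i)) = ∑ k, v (pos k) • (j ∘ b k) := by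
      funext i
      simp
    rw [e]
    exact Submodule.sum_mem _ fun k _ => Submodule.smul_mem _ _ (mem_Wsp j (hb k))
  · funext i
    simp only [Pi.add_apply, add_mul, Finset.sum_add_distrib]
    ring
  · funext i
    subst e
    simp
  · simp [hW.zero _ (hb _)]

theorem ZS1cPr.mem {K T : Type u} [Field K] [Field T] {τ : Type} {W : Submodule K (τ × ℕ → K)}
    (P : ZS1cPr W) {j : K →+* T} {𝒲 : ValuationSubring T} (h : ∀ c, j c ∈ 𝒲) {v : τ × ℕ → T}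
    (hv : ∀ i, v i ∈ 𝒲) (i : τ × ℕ) : P.pr j v i ∈ 𝒲 := by
  have e := P.nat 𝒲.subtype (j := vW j 𝒲 h) (j' := j) rfl fun i => ⟨v i, hv i⟩
  have e' : P.pr j v i = _ := congrFun e i
  rw [e']
  exact Subtype.prop _

/-- Valuation rings extend to larger fields. -/
theorem ZS1c_ext {T T' : Type u} [Field T] [Field T'] (ψ : T →+* T') (𝒲 : ValuationSubring T) :
    ∃ 𝒲' : ValuationSubring T', ∀ x, ψ x ∈ 𝒲' ↔ x ∈ 𝒲 := by
  let e : 𝒲.toSubring ≃+* 𝒲.toSubring.map ψ := 𝒲.toSubring.equivMapOfInjective ψ ψ.injective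
  let f : 𝒲.toSubring.map ψ →+* 𝒲 := e.symm.toRingHom
  obtain ⟨B, hB, hI⟩ := Ideal.image_subset_nonunits_valuationSubring
    ((IsLocalRing.maximalIdeal 𝒲).comap f)
    (Ideal.comap_ne_top f (IsLocalRing.maximalIdeal.isMaximal 𝒲).ne_top)
  refine ⟨B, fun x => ⟨fun hx => ?_, fun hx => hB ⟨x, hx, rfl⟩⟩⟩
  by_contra hn
  have x0 : x ≠ 0 := fun h => hn (h ▸ zero_mem _)
  have hi := (𝒲.mem_or_inv_mem x).resolve_left hn
  have h1 : (⟨x⁻¹, hi⟩ : 𝒲) ∈ IsLocalRing.maximalIdeal 𝒲 := by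
    rw [𝒲.valuation_lt_one_iff]
    change 𝒲.valuation x⁻¹ < 1
    rw [map_inv₀]
    exact inv_lt_one_of_one_lt₀ (lt_of_not_ge fun h => hn ((𝒲.valuation_le_one_iff _).1 h))
  have h2 : ψ x⁻¹ ∈ B.nonunits := by
    refine hI ⟨e ⟨x⁻¹, hi⟩, ?_, rfl⟩
    change e.symm (e ⟨x⁻¹, hi⟩) ∈ IsLocalRing.maximalIdeal 𝒲
    rw [e.symm_apply_apply]
    exact h1
  rw [B.mem_nonunits_iff, map_inv₀, map_inv₀] at h2
  have h3 := (B.valuation_le_one_iff _).2 hx
  have h4 : B.valuation (ψ x) ≠ 0 := by simpa using x0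
  exact absurd ((inv_lt_one₀ (zero_lt_iff.2 h4)).1 h2) (not_lt.2 h3)

/-- A homomorphism of a valuation ring to a field extends to the localisation at its kernel. -/
theorem ZS1c_loc {T T' : Type u} [Field T] [Field T'] (V : ValuationSubring T) (r : V →+* T') :
    ∃ (O : ValuationSubring T) (h : V ≤ O) (ρ : O →+* T'), ρ.comp (V.inclusion O h) = r ∧
      ∀ z : O, ρ z ≠ 0 → (z : T)⁻¹ ∈ O := by
  have := RingHom.ker_isPrime r
  have hu : ∀ y : (RingHom.ker r).primeCompl, IsUnit (r y) := fun y => Ne.isUnit y.2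
  refine ⟨V.ofPrime (RingHom.ker r), V.le_ofPrime _,
    IsLocalization.lift (M := (RingHom.ker r).primeCompl) hu, ?_, fun z hz => ?_⟩
  · exact IsLocalization.lift_comp (M := (RingHom.ker r).primeCompl) hu
  · obtain ⟨⟨a, b⟩, rfl⟩ := IsLocalization.mk'_surjective (RingHom.ker r).primeCompl z
    have ha : a ∈ (RingHom.ker r).primeCompl := by
      intro h0
      refine hz ?_
      rw [IsLocalization.lift_mk', show r a = 0 from h0, zero_mul]
    obtain ⟨w, hw⟩ := ((IsLocalization.AtPrime.isUnit_mk'_iff (V.ofPrime (RingHom.ker r))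
      (RingHom.ker r) a b).2 ha).exists_right_inv
    rw [inv_eq_of_mul_eq_one_right (congrArg Subtype.val hw)]
    exact w.2

/-- The composite valuation ring. -/
theorem ZS1c_comp {T T' : Type u} [Field T] [Field T'] (O : ValuationSubring T) (ρ : O →+* T')
    (hρ : ∀ z : O, ρ z ≠ 0 → (z : T)⁻¹ ∈ O) (𝒲' : ValuationSubring T') :
    ∃ 𝒲 : ValuationSubring T, 𝒲 ≤ O ∧ ∀ z : O, (z : T) ∈ 𝒲 ↔ ρ z ∈ 𝒲' := by
  refine ⟨⟨(𝒲'.toSubring.comap ρ).map O.subtype, fun x => ?_⟩, ?_, fun z => ⟨?_, fun h => ⟨z, h, rfl⟩⟩⟩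
  · have key : ∀ y : T, y ∈ O → y⁻¹ ∈ O →
        y ∈ (𝒲'.toSubring.comap ρ).map O.subtype ∨ y⁻¹ ∈ (𝒲'.toSubring.comap ρ).map O.subtype := by
      intro y h1 h2
      by_cases y0 : y = 0
      · exact Or.inl (y0 ▸ zero_mem _)
      have e : (⟨y, h1⟩ : O) * ⟨y⁻¹, h2⟩ = 1 := Subtype.ext (mul_inv_cancel₀ y0)
      have e' := congrArg ρ e
      rw [map_mul, map_one] at e'
      refine (𝒲'.mem_or_inv_mem (ρ ⟨y, h1⟩)).imp (fun h => ⟨⟨y, h1⟩, h, rfl⟩) fun h => ⟨⟨_, h2⟩, ?_, rfl⟩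
      rw [inv_eq_of_mul_eq_one_right e'] at h
      exact h
    have key' : ∀ y : T, y ∈ O → y⁻¹ ∉ O → y ∈ (𝒲'.toSubring.comap ρ).map O.subtype := by
      intro y h1 h2
      refine ⟨⟨y, h1⟩, ?_, rfl⟩
      have : ρ ⟨y, h1⟩ = 0 := by
        by_contra h0
        exact h2 (hρ _ h0)
      change ρ ⟨y, h1⟩ ∈ 𝒲'
      rw [this]
      exact zero_mem _
    by_cases h1 : x ∈ O
    · by_cases h2 : x⁻¹ ∈ O
      · exact key x h1 h2
      · exact Or.inl (key' x h1 h2)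
    · exact Or.inr (key' _ ((O.mem_or_inv_mem x).resolve_left h1) (by rwa [inv_inv]))
  · rintro _ ⟨z, -, rfl⟩
    exact z.2
  · rintro ⟨w, hw, e⟩
    rw [← show w = z from Subtype.ext e]
    exact hw

theorem ZS1c_sub {K T : Type u} [Field K] [Field T] (j : K →+* T) (𝒲 : ValuationSubring T)
    (h : ∀ c, j c ∈ 𝒲) : 𝒲.subtype.comp (vW j 𝒲 h) = j := rfl

namespace Df

variable {A : SPG.{u}} {K T T' : Type u} [Field K] [IsAlgClosed K] [CharZero K] {𝒟 : Df A K}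
  [Field T] [Field T'] {W W' : Submodule K (A.τ × ℕ → K)} {j : K →+* T} {j' : K →+* T'} {u y : 𝒟.E j}

theorem ZS1c_int (y : 𝒟.E j) (𝒲 : ValuationSubring T) (h : ∀ c, j c ∈ 𝒲) :
    ∃ y₁ : 𝒟.E (vW j 𝒲 h), 𝒟.res j (y - 𝒟.emap 𝒲.subtype (ZS1c_sub j 𝒲 h) y₁) = 0 := by
  obtain ⟨x, hx⟩ := (map_val_bij 𝒲 (𝒟.push_pmap (ZS1c_sub j 𝒲 h))).2 (𝒟.res j y)
  obtain ⟨y₁, rfl⟩ := res_surj (𝒟 := 𝒟) _ x
  refine ⟨y₁, ?_⟩
  rw [map_sub, res_emap, sub_eq_zero]
  exact hx.symm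

theorem ZS1c_crit (P : ZS1cPr W) {𝒲 : ValuationSubring T} {h : ∀ c, j c ∈ 𝒲}
    {y₁ : 𝒟.E j} (h₁ : y₁ ∈ 𝒟.Int j 𝒲 h) (h₂ : 𝒟.res j (y - y₁) = 0) :
    (∃ u, 𝒟.res j u = 0 ∧ 𝒟.lv j u ∈ Wsp W j ∧ y - u ∈ 𝒟.Int j 𝒲 h) ↔
      ∀ i, P.pr j (𝒟.lv j (y - y₁)) i ∈ 𝒲 := by
  constructor
  · rintro ⟨u, hu, hl, hi⟩ i
    have r0 : 𝒟.res j (y - y₁ - u) = 0 := by rw [map_sub, h₂, hu, sub_zero]
    have m : y - y₁ - u ∈ 𝒟.Int j 𝒲 h := by
      rw [sub_right_comm]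
      exact sub_mem hi h₁
    have e : 𝒟.lv j (y - y₁) = 𝒟.lv j u + 𝒟.lv j (y - y₁ - u) := by
      rw [lv_sub h₂ hu, add_sub_cancel]
    rw [e, P.add, P.ker j _ hl, zero_add]
    exact P.mem h ((int_iff r0).1 m) i
  · intro H
    obtain ⟨u, hu, hl⟩ := exists_lv (𝒟 := 𝒟) j
      (v := 𝒟.lv j (y - y₁) - P.pr j (𝒟.lv j (y - y₁))) fun a => by
        rw [Pi.sub_apply, P.zero, sub_self]
    refine ⟨u, hu, hl ▸ P.sub j _, ?_⟩
    have r0 : 𝒟.res j (y - y₁ - u) = 0 := by rw [map_sub, h₂, hu, sub_zero]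
    have m : y - y₁ - u ∈ 𝒟.Int j 𝒲 h := by
      rw [int_iff r0, lv_sub h₂ hu, hl, sub_sub_cancel]
      exact H
    have e : y - u = y - y₁ - u + y₁ := by abel
    rw [e]
    exact add_mem m h₁

/-- The image of a point with values in a ring which maps into `𝒲` is integral. -/
theorem ZS1c_mem {R : Type u} [CommRing R] [IsLocalRing R] {i : K →+* R} (θ : R →+* T)
    (e : θ.comp i = j) {𝒲 : ValuationSubring T} (h : ∀ c, j c ∈ 𝒲) (hθ : ∀ z, θ z ∈ 𝒲)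
    (x : 𝒟.E i) : 𝒟.emap θ e x ∈ 𝒟.Int j 𝒲 h := by
  let χ : R →+* 𝒲 := θ.codRestrict 𝒲.toSubring hθ
  have hχ : χ.comp i = vW j 𝒲 h := RingHom.ext fun c => Subtype.ext (RingHom.congr_fun e c)
  exact ⟨𝒟.emap χ hχ x, emap_emap hχ (ZS1c_sub j 𝒲 h) e rfl x⟩

theorem S_desc (hW : Fin0 W) (ψ : T →+* T') (h : ψ.comp j = j') (hy : 𝒟.emap ψ h y ∈ 𝒟.S W j') :
    y ∈ 𝒟.S W j := by
  obtain ⟨P⟩ := ZS1c_pr hW
  refine mem_S.2 fun 𝒲 hj => ?_
  obtain ⟨𝒲', h'⟩ := ZS1c_ext ψ 𝒲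
  have hj' : ∀ c, j' c ∈ 𝒲' := fun c => h ▸ (h' (j c)).2 (hj c)
  obtain ⟨y₁, h₁⟩ := ZS1c_int y 𝒲 hj
  have e : (ψ.comp 𝒲.subtype).comp (vW j 𝒲 hj) = j' := h
  have m := ZS1c_mem (ψ.comp 𝒲.subtype) e hj' (fun z => (h' z).2 z.2) y₁
  rw [← emap_emap (ZS1c_sub j 𝒲 hj) h e rfl] at m
  have r0 : 𝒟.res j' (𝒟.emap ψ h y - 𝒟.emap ψ h (𝒟.emap 𝒲.subtype (ZS1c_sub j 𝒲 hj) y₁)) = 0 := by
    rw [← map_sub, res_emap, h₁, map_zero]
  have H := (ZS1c_crit P m r0).1 (mem_S.1 hy 𝒲' hj')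
  rw [← map_sub, lv_emap ψ h h₁, P.nat ψ h] at H
  exact (ZS1c_crit P ⟨y₁, rfl⟩ h₁).2 fun i => (h' _).1 (H i)

theorem S_red (hW : Fin0 W) (Q : Place j j') {y : 𝒟.E Q.jW}
    (hy : 𝒟.emap (j' := j) Q.W.subtype rfl y ∈ 𝒟.S W j) :
    𝒟.emap (j' := j') Q.r (RingHom.ext Q.r_j) y ∈ 𝒟.S W j' := by
  obtain ⟨P⟩ := ZS1c_pr hW
  obtain ⟨O, hO, ρ, hρ, hρ'⟩ := ZS1c_loc Q.W Q.r
  have hjO : ∀ c, j c ∈ O := fun c => hO (Q.mem c)
  have e1 : (Q.W.inclusion O hO).comp Q.jW = vW j O hjO := rfl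
  have e2 : ρ.comp (vW j O hjO) = j' := by
    rw [← e1, ← RingHom.comp_assoc, hρ]
    exact RingHom.ext Q.r_j
  have eO := ZS1c_sub j O hjO
  have hy' : 𝒟.emap O.subtype eO (𝒟.emap (Q.W.inclusion O hO) e1 y) ∈ 𝒟.S W j :=
    (emap_emap (χ := Q.W.subtype) e1 eO rfl rfl y).symm ▸ hy
  rw [← emap_emap e1 e2 _ hρ]
  generalize 𝒟.emap (Q.W.inclusion O hO) e1 y = y' at hy' ⊢
  refine mem_S.2 fun 𝒲' hj' => ?_
  obtain ⟨𝒲, hle, h'⟩ := ZS1c_comp O ρ hρ' 𝒲'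
  have hj : ∀ c, j c ∈ 𝒲 := fun c => (h' (vW j O hjO c)).2 (by
    have := hj' c
    rwa [← e2] at this)
  obtain ⟨y₁, h₁⟩ := ZS1c_int (𝒟.emap O.subtype eO y') 𝒲 hj
  have e3 : (𝒲.inclusion O hle).comp (vW j 𝒲 hj) = vW j O hjO := rfl
  have H := (ZS1c_crit P ⟨y₁, rfl⟩ h₁).1 (mem_S.1 hy' 𝒲 hj)
  have e5 : 𝒟.emap O.subtype eO y' - 𝒟.emap 𝒲.subtype (ZS1c_sub j 𝒲 hj) y₁ =
      𝒟.emap O.subtype eO (y' - 𝒟.emap (𝒲.inclusion O hle) e3 y₁) := by
    rw [map_sub, emap_emap e3 eO (ZS1c_sub j 𝒲 hj) rfl]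
  have H' : ∀ i, P.pr j (𝒟.lv j (𝒟.emap O.subtype eO
      (y' - 𝒟.emap (𝒲.inclusion O hle) e3 y₁))) i ∈ 𝒲 := e5 ▸ H
  rw [e5] at h₁
  have r0 : 𝒟.res (vW j O hjO) (y' - 𝒟.emap (𝒲.inclusion O hle) e3 y₁) = 0 := by
    rw [res_emap] at h₁
    exact map_inj (φ := O.subtype) Subtype.val_injective _ (h₁.trans (map_zero _).symm)
  rw [lv_emap _ _ r0, P.nat O.subtype eO] at H'
  have e4 : (ρ.comp (𝒲.inclusion O hle)).comp (vW j 𝒲 hj) = j' := e2
  have m := ZS1c_mem (ρ.comp (𝒲.inclusion O hle)) e4 hj'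
    (fun z => (h' (𝒲.inclusion O hle z)).1 z.2) y₁
  rw [← emap_emap e3 e2 e4 rfl] at m
  have r1 : 𝒟.res j' (𝒟.emap ρ e2 y' - 𝒟.emap ρ e2 (𝒟.emap (𝒲.inclusion O hle) e3 y₁)) = 0 := by
    rw [← map_sub, res_emap, r0, map_zero]
  refine (ZS1c_crit P m r1).2 fun i => ?_
  rw [← map_sub, lv_emap ρ e2 r0, P.nat ρ e2]
  exact (h' _).1 (H' i)

theorem S_inter (hW : Fin0 W) (hu : 𝒟.res j u = 0) (h : u ∈ 𝒟.S W j) :
    ∃ m : A.τ × ℕ → K, (∀ a, m (a, 0) = 0) ∧ 𝒟.lv j u - j ∘ m ∈ Wsp W j := by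
  obtain ⟨P⟩ := ZS1c_pr hW
  have H : ∀ i, ∃ c, j c = P.pr j (𝒟.lv j u) i := by
    intro i
    let _ := j.toAlgebra
    have hz : IsIntegral K (P.pr j (𝒟.lv j u) i) := (Tor1_int_iff j).2 fun 𝒲 hj => by
      have := (ZS1c_crit (y := u) P (zero_mem (𝒟.Int j 𝒲 hj)) (by rwa [sub_zero])).1
        (mem_S.1 h 𝒲 hj) i
      rwa [sub_zero] at this
    exact minpoly.mem_range_of_degree_eq_one K _
      (IsAlgClosed.degree_eq_one_of_irreducible K (minpoly.irreducible hz))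
  choose m hm using H
  refine ⟨m, fun a => j.injective ?_, ?_⟩
  · rw [hm, P.zero, lv_zero hu, map_zero]
  · rw [show j ∘ m = P.pr j (𝒟.lv j u) from funext hm]
    exact P.sub j _

end Df

end MLF
end

-- merged part: Pool.Agent.Work.MP_29d410_ag.ZS2
section
/-!
# Existence of complete lifts

Plan.  `curve`: descend to `F = adj j.fieldRange (rat η)` (`S_emap`).  Let `y` be a lift of `η`, and for every
valuation ring `𝒲 ⊇ K` of `F` let `y 𝒲` be an integral lift (`map_val_bij`, `res_surj`), `a 𝒲 = lv (y - y 𝒲)`.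
For fixed `(i, n)`, `a 𝒲 (i, n) ∈ 𝒲` as soon as `𝒲` contains the coefficients of order `≤ n` of normalised
coordinates of `y`: the series whose coefficients of order `≤ n` lie in `𝒲` form a local subring `R` of
`F⟦ε⟧`, both points come from `R` (`exists_map_eq`, `c_map`), and `Ev2_ev_trunc`.  Apply `h1` to each `(i, n)` with
`n > 0`: `W` is spanned by the vectors `(i, n) ↦ c (i, n) l`; subtract from `y` the point with `lv = f`.
`exists_all`: call a subgroup `G` (a variety) good if for some `W` all points of `extS G` over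
algebraically closed fields have complete lifts.  A point which is a specialisation of a point with a
complete lift has one (`place_ex`, `S_red`).  Good subgroups are closed under sums (`Var.sup`,
`extS_sup`), and the subgroup generated by a curve is good (`exists_gen_sub`, `exists_indepFam`).
Take `G` good of maximal dimension (`dim_bound`, `eq_of_dim`) and a projector `Γ` for `G ≤ ⊤`; `ran Γ ⊓ G` is finite
(`IsProj.idem`); if `ran Γ` is infinite it contains a curve (`Var.exists_curve`), which generates an infinite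
good subgroup; otherwise `ran Γ = ⊥` and `G = ⊤` (`TorsFin.div`, `finite_torsion_of_ne`).
-/

namespace MLF

universe u

open PG

/-- The series which are congruent to a series with coefficients in `𝒲` modulo `ε ^ N`. -/
noncomputable def ZS2_R {F : Type u} [Field F] (𝒲 : ValuationSubring F) (N : ℕ) :
    Subring (PowerSeries F) :=
  ((Ideal.Quotient.mk (mx F ^ N)).comp (PowerSeries.map 𝒲.subtype)).range.comap
    (Ideal.Quotient.mk (mx F ^ N))

theorem ZS2_mem {F : Type u} [Field F] {𝒲 : ValuationSubring F} {N : ℕ} {f : PowerSeries F} :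
    f ∈ ZS2_R 𝒲 N ↔ ∃ g : PowerSeries 𝒲, PowerSeries.map 𝒲.subtype g - f ∈ mx F ^ N :=
  exists_congr fun _ => Ideal.Quotient.eq

theorem ZS2_mem' {F : Type u} [Field F] {𝒲 : ValuationSubring F} {N : ℕ} {f : PowerSeries F} :
    f ∈ ZS2_R 𝒲 N ↔ ∀ m < N, PowerSeries.coeff m f ∈ 𝒲 := by
  classical
  rw [ZS2_mem]
  constructor
  · rintro ⟨g, hg⟩ m hm
    have h := mem_mx_pow.1 hg m hm
    rw [map_sub, PowerSeries.coeff_map, sub_eq_zero] at h
    exact h ▸ (PowerSeries.coeff m g).2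
  · intro h
    refine ⟨PowerSeries.mk fun m => if hm : m < N then ⟨_, h m hm⟩ else 0,
      mem_mx_pow.2 fun m hm => ?_⟩
    rw [map_sub, PowerSeries.coeff_map, PowerSeries.coeff_mk, dif_pos hm]
    exact sub_self _

theorem ZS2_cc {F : Type u} [Field F] (𝒲 : ValuationSubring F) (n : ℕ) (f : ZS2_R 𝒲 (n + 1)) :
    PowerSeries.constantCoeff (f : PowerSeries F) ∈ 𝒲 := by
  rw [← PowerSeries.coeff_zero_eq_constantCoeff_apply]
  exact ZS2_mem'.1 f.2 0 n.succ_pos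

/-- The constant coefficient. -/
noncomputable def ZS2_ρ {F : Type u} [Field F] (𝒲 : ValuationSubring F) (n : ℕ) :
    ZS2_R 𝒲 (n + 1) →+* 𝒲 :=
  (PowerSeries.constantCoeff.comp (ZS2_R 𝒲 (n + 1)).subtype).codRestrict 𝒲.toSubring (ZS2_cc 𝒲 n)

theorem ZS2_loc {F : Type u} [Field F] (𝒲 : ValuationSubring F) (n : ℕ) :
    IsLocalHom (ZS2_ρ 𝒲 n) := by
  refine ⟨fun f hf => ?_⟩
  obtain ⟨g, hg⟩ := ZS2_mem.1 f.2
  have e : PowerSeries.constantCoeff g = ZS2_ρ 𝒲 n f := by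
    have h := mem_mx_pow.1 hg 0 n.succ_pos
    rw [map_sub, PowerSeries.coeff_map, sub_eq_zero, PowerSeries.coeff_zero_eq_constantCoeff_apply,
      PowerSeries.coeff_zero_eq_constantCoeff_apply] at h
    exact Subtype.ext h
  obtain ⟨g', hg'⟩ := (PowerSeries.isUnit_iff_constantCoeff.2 (e ▸ hf)).exists_right_inv
  have h1 : IsUnit (f : PowerSeries F) :=
    PowerSeries.isUnit_iff_constantCoeff.2 (hf.map 𝒲.subtype)
  obtain ⟨f', hf'⟩ := h1.exists_right_inv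
  have h2 : PowerSeries.map 𝒲.subtype g * PowerSeries.map 𝒲.subtype g' = 1 := by
    rw [← map_mul, hg', map_one]
  have h3 : f' ∈ ZS2_R 𝒲 (n + 1) := by
    refine ZS2_mem.2 ⟨g', ?_⟩
    have h4 : PowerSeries.map 𝒲.subtype g' - f' =
        -(f' * PowerSeries.map 𝒲.subtype g') * (PowerSeries.map 𝒲.subtype g - f) := by
      linear_combination (-PowerSeries.map 𝒲.subtype g') * hf' + f' * h2
    rw [h4]
    exact Ideal.mul_mem_left _ _ hg
  exact IsUnit.of_mul_eq_one (⟨f', h3⟩ : ZS2_R 𝒲 (n + 1)) (Subtype.ext hf')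

theorem ZS2_map {F : Type u} [Field F] (𝒲 : ValuationSubring F) (N : ℕ) (g : PowerSeries 𝒲) :
    PowerSeries.map 𝒲.subtype g ∈ ZS2_R 𝒲 N :=
  ZS2_mem.2 ⟨g, by rw [sub_self]; exact zero_mem _⟩

namespace Df

variable {A : SPG.{u}} {K T : Type u} [Field K] [IsAlgClosed K] [CharZero K] [Field T] (𝒟 : Df A K)

theorem ZS2_key {j : K →+* T} {y : 𝒟.E j} {v : A.σ → PowerSeries T} {i₀ : A.σ} (hv : A.Rep y v)
    (hi : v i₀ = 1) {𝒲 : ValuationSubring T} (h : ∀ c, j c ∈ 𝒲) {n : ℕ}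
    (hn : ∀ i, ∀ m < n + 1, PowerSeries.coeff m (v i) ∈ 𝒲) {y₁ : 𝒟.E (vW j 𝒲 h)}
    (h₁ : 𝒟.res j (y - 𝒟.emap 𝒲.subtype (ZS1c_sub j 𝒲 h) y₁) = 0) (a : A.τ) :
    𝒟.lv j (y - 𝒟.emap 𝒲.subtype (ZS1c_sub j 𝒲 h) y₁) (a, n) ∈ 𝒲 := by
  have := ZS2_loc 𝒲 n
  have : IsLocalRing (ZS2_R 𝒲 (n + 1)) := (ZS2_ρ 𝒲 n).domain_isLocalRing
  let θ := (ZS2_R 𝒲 (n + 1)).subtype
  let χ : PowerSeries 𝒲 →+* ZS2_R 𝒲 (n + 1) :=
    (PowerSeries.map 𝒲.subtype).codRestrict _ (ZS2_map 𝒲 (n + 1))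
  have e1 : θ.comp χ = PowerSeries.map 𝒲.subtype := rfl
  have p1 : A.push θ (A.push χ (A.push (𝒟.φ (vW j 𝒲 h)) 𝒟.s)) = A.push (𝒟.φ j) 𝒟.s := by
    rw [A.ax.push_comp, e1]
    exact 𝒟.push_emap (ZS1c_sub j 𝒲 h)
  let v' : A.σ → ZS2_R 𝒲 (n + 1) := fun i => ⟨v i, ZS2_mem'.2 (hn i)⟩
  have u' : Uni v' := ⟨i₀, by rw [show v' i₀ = 1 from Subtype.ext hi]; exact isUnit_one⟩
  obtain ⟨x, -, hx⟩ := exists_map_eq (φ := θ) Subtype.val_injective p1 u' hv
  have e2 : y - 𝒟.emap 𝒲.subtype (ZS1c_sub j 𝒲 h) y₁ = A.map θ p1 (x - A.map χ rfl y₁) := by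
    rw [map_sub, hx, PG.map_map]
    rfl
  rw [e2] at h₁ ⊢
  generalize x - A.map χ rfl y₁ = w at h₁ ⊢
  have p2 : A.push 𝒲.subtype (A.push (ZS2_ρ 𝒲 n) (A.push χ (A.push (𝒟.φ (vW j 𝒲 h)) 𝒟.s))) =
      A.push j 𝒟.s := by
    have p3 := push_trans p1 (𝒟.push_res j)
    rw [A.ax.push_comp (ZS2_ρ 𝒲 n)]
    exact p3
  have c1 : Cong (RingHom.ker (ZS2_ρ 𝒲 n)) w (0 : A.Pt (A.push χ (A.push (𝒟.φ (vW j 𝒲 h)) 𝒟.s))) := by
    rw [cong_ker_iff (ZS2_ρ 𝒲 n) rfl rfl, map_zero]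
    refine map_inj (φ := 𝒲.subtype) Subtype.val_injective p2 ?_
    rw [map_zero, PG.map_map]
    rw [res, PG.map_map] at h₁
    exact h₁
  have k1 := res_eq_zero.1 h₁
  have c2 := SPG.c_map θ p1 (c1.mono (IsLocalRing.le_maximalIdeal (RingHom.ker_ne_top _)))
    (SPG.ZE_max ZS1_mx_ne k1)
  have m1 : ∀ i, A.c (A.map θ p1 w) i ∈ mx T := SPG.c_mem ZS1_mx_ne k1
  have m2 := Ev2_ev_trunc (SPG.ZE_tn ZS1_mx_ne k1) (𝒟.φ j) (SPG.Lg 𝒟.s a) (n + 1)
  have m3 : Ideal.span (Set.range (A.c (A.map θ p1 w))) ≤ mx T :=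
    Ideal.span_le.2 (Set.range_subset_iff.2 m1)
  have m4 := mem_mx_pow.1 (Ideal.pow_right_mono m3 _ m2) n n.lt_succ_self
  rw [map_sub, sub_eq_zero] at m4
  have m5 : MvPolynomial.eval₂ (𝒟.φ j) (A.c (A.map θ p1 w))
      (MvPowerSeries.truncTotal (n + 1) (SPG.Lg 𝒟.s a)) ∈ ZS2_R 𝒲 (n + 1) := by
    refine MvPolynomial.eval₂_mem (fun d _ => ?_) fun i => ?_
    · rw [← 𝒟.ZS1_map_φ (ZS1c_sub j 𝒲 h)]
      exact ZS2_map 𝒲 _ _
    · rw [c2]
      exact Subtype.prop _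
  have m6 := ZS2_mem'.1 m5 n n.lt_succ_self
  rw [← m4] at m6
  exact m6

theorem ZS2_fld (j : K →+* T) (s : Finset T) (hs : adj j.fieldRange (s : Set T) = ⊤)
    (hr : rk j.fieldRange (s : Set T) ≤ 1) (η : 𝒟.P j) :
    ∃ W, Fin0 W ∧ ∃ y ∈ 𝒟.S W j, 𝒟.res j y = η := by
  classical
  obtain ⟨H0, g, u, H⟩ := h1 j s hs hr
  obtain ⟨y, rfl⟩ := res_surj j η
  obtain ⟨v, i₀, hv, hi⟩ := exists_rep_one y
  choose y₁ h₁ using ZS1c_int y
  let a : A.τ × ℕ → ValuationSubring T → T := fun i 𝒲 =>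
    if h : ∀ c, j c ∈ 𝒲 then 𝒟.lv j (y - 𝒟.emap 𝒲.subtype (ZS1c_sub j 𝒲 h) (y₁ 𝒲 h)) i else 0
  have ha : ∀ i, {W : ValuationSubring T | (∀ c, j c ∈ W) ∧ a i W ∉ W}.Finite := by
    rintro ⟨i, n⟩
    refine (Set.finite_iUnion fun l : A.σ × Fin (n + 1) =>
      H0 (PowerSeries.coeff l.2 (v l.1))).subset ?_
    rintro 𝒲 ⟨h, h'⟩
    by_contra hc
    refine h' ?_
    simp only [a, dif_pos h]
    refine 𝒟.ZS2_key hv hi h (fun l m hm => ?_) (h₁ 𝒲 h) i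
    by_contra hc'
    exact hc (Set.mem_iUnion.2 ⟨(l, ⟨m, hm⟩), h, hc'⟩)
  have H' : ∀ i : A.τ × ℕ, ∃ (f : T) (c : Fin g → K), (i.2 = 0 → f = 0 ∧ c = 0) ∧
      ∀ W : ValuationSubring T, (∀ c, j c ∈ W) → a i W - f - ∑ l, j (c l) * u l W ∈ W := by
    rintro ⟨i, n⟩
    by_cases hn : n = 0
    · subst hn
      refine ⟨0, 0, fun _ => ⟨rfl, rfl⟩, fun 𝒲 h => ?_⟩
      simp only [a, dif_pos h, lv_zero (h₁ 𝒲 h), Pi.zero_apply, map_zero, zero_mul,
        Finset.sum_const_zero, sub_zero]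
      exact zero_mem _
    · obtain ⟨f, c, hc⟩ := H _ (ha (i, n))
      exact ⟨f, c, fun h => (hn h).elim, hc⟩
  choose f c h0 hc using H'
  let w : Fin g → A.τ × ℕ → K := fun l i => c i l
  have hw : ∀ l b, w l (b, 0) = 0 := fun l b => congrFun (h0 (b, 0) rfl).2 l
  obtain ⟨u₀, r₀, l₀⟩ := exists_lv (𝒟 := 𝒟) j (v := f) fun b => (h0 (b, 0) rfl).1
  refine ⟨Submodule.span K (Set.range w), ⟨FiniteDimensional.span_of_finite K (Set.finite_range w),
    fun z hz b => ?_⟩, y - u₀, mem_S.2 fun 𝒲 h => ?_, by rw [map_sub, r₀, sub_zero]⟩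
  · obtain ⟨d, rfl⟩ := (Submodule.mem_span_range_iff_exists_fun K).1 hz
    simp only [Finset.sum_apply, Pi.smul_apply, hw, smul_zero, Finset.sum_const_zero]
  · obtain ⟨u₁, r₁, l₁⟩ := exists_lv (𝒟 := 𝒟) j (v := ∑ l, u l 𝒲 • (j ∘ w l)) fun b => by
      simp only [Finset.sum_apply, Pi.smul_apply, Function.comp_apply, hw, map_zero, smul_zero,
        Finset.sum_const_zero]
    refine ⟨u₁, r₁, l₁ ▸ Submodule.sum_mem _ fun l _ => Submodule.smul_mem _ _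
      (mem_Wsp j (Submodule.subset_span ⟨l, rfl⟩)), ?_⟩
    have r₂ : 𝒟.res j (y - 𝒟.emap 𝒲.subtype (ZS1c_sub j 𝒲 h) (y₁ 𝒲 h) - u₀) = 0 := by
      rw [map_sub, h₁, r₀, sub_zero]
    have r₃ : 𝒟.res j (y - 𝒟.emap 𝒲.subtype (ZS1c_sub j 𝒲 h) (y₁ 𝒲 h) - u₀ - u₁) = 0 := by
      rw [map_sub, r₂, r₁, sub_zero]
    have i₁ : y - 𝒟.emap 𝒲.subtype (ZS1c_sub j 𝒲 h) (y₁ 𝒲 h) - u₀ - u₁ ∈ 𝒟.Int j 𝒲 h := by
      refine (int_iff r₃).2 fun i => ?_
      have e := hc i 𝒲 h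
      simp only [a, dif_pos h] at e
      rw [lv_sub r₂ r₁, lv_sub (h₁ 𝒲 h) r₀, l₀, l₁]
      simpa only [Pi.sub_apply, Finset.sum_apply, Pi.smul_apply, Function.comp_apply, smul_eq_mul,
        mul_comm] using e
    have i₂ : 𝒟.emap 𝒲.subtype (ZS1c_sub j 𝒲 h) (y₁ 𝒲 h) ∈ 𝒟.Int j 𝒲 h := ⟨_, rfl⟩
    convert add_mem i₁ i₂ using 1
    abel

theorem curve (j : K →+* T) (η : 𝒟.P j) (h : rk j.fieldRange (rat η) ≤ 1) :
    ∃ W, Fin0 W ∧ ∃ y ∈ 𝒟.S W j, 𝒟.res j y = η := by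
  let F := adj j.fieldRange (rat η)
  let j₀ : K →+* F := j.codRestrict F fun c => le_adj _ _ ⟨c, rfl⟩
  have e : F.subtype.comp j₀ = j := rfl
  obtain ⟨η₀, h₀⟩ := (rat_subtype_iff (𝒟.push_pmap e)).1 (rat_adj j.fieldRange η)
  have r1 : F.subtype '' rat η₀ = rat η := by rw [← h₀, rat_map]
  have r2 : j₀.fieldRange.map F.subtype = j.fieldRange := by rw [RingHom.map_fieldRange, e]
  have r3 : adj j₀.fieldRange (rat η₀) = ⊤ := by
    have r4 : (adj j₀.fieldRange (rat η₀)).map F.subtype = F := by rw [map_adj, r1, r2]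
    refine eq_top_iff.2 fun z _ => ?_
    obtain ⟨z', hz, ez⟩ := r4.ge z.2
    exact Subtype.ext ez ▸ hz
  obtain ⟨W, hW, y, hy, ey⟩ := 𝒟.ZS2_fld j₀ (rat_finite η₀).toFinset
    (by rwa [Set.Finite.coe_toFinset]) (by rwa [Set.Finite.coe_toFinset, ← rk_map F.subtype, r1, r2])
    η₀
  exact ⟨W, hW, 𝒟.emap F.subtype e y, S_emap _ _ hy, by rw [res_emap, ey]; exact h₀⟩

end Df

end MLF
end

-- merged part: Pool.Agent.Work.MP_29d410_ag.ZS2b
section
/-!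
# Existence of complete lifts

Plan.  `curve`: descend to `F = adj j.fieldRange (rat η)` (`S_emap`).  Let `y` be a lift of `η`, and for every
valuation ring `𝒲 ⊇ K` of `F` let `y 𝒲` be an integral lift (`map_val_bij`, `res_surj`), `a 𝒲 = lv (y - y 𝒲)`.
For fixed `(i, n)`, `a 𝒲 (i, n) ∈ 𝒲` as soon as `𝒲` contains the coefficients of order `≤ n` of normalised
coordinates of `y`: the series whose coefficients of order `≤ n` lie in `𝒲` form a local subring `R` of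
`F⟦ε⟧`, both points come from `R` (`exists_map_eq`, `c_map`), and `Ev2_ev_trunc`.  Apply `h1` to each `(i, n)` with
`n > 0`: `W` is spanned by the vectors `(i, n) ↦ c (i, n) l`; subtract from `y` the point with `lv = f`.
`exists_all`: call a subgroup `G` (a variety) good if for some `W` all points of `extS G` over
algebraically closed fields have complete lifts.  A point which is a specialisation of a point with a
complete lift has one (`place_ex`, `S_red`).  Good subgroups are closed under sums (`Var.sup`,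
`extS_sup`), and the subgroup generated by a curve is good (`exists_gen_sub`, `exists_indepFam`).
Take `G` good of maximal dimension (`dim_bound`, `eq_of_dim`) and a projector `Γ` for `G ≤ ⊤`; `ran Γ ⊓ G` is finite
(`IsProj.idem`); if `ran Γ` is infinite it contains a curve (`Var.exists_curve`), which generates an infinite
good subgroup; otherwise `ran Γ = ⊥` and `G = ⊤` (`TorsFin.div`, `finite_torsion_of_ne`).
-/

namespace MLF

universe u

open PG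

namespace Df

variable {A : SPG.{u}} {K T : Type u} [Field K] [IsAlgClosed K] [CharZero K] [Field T] (𝒟 : Df A K)

/-- The points which have a complete lift. -/
noncomputable def ZS2bL (W : Submodule K (A.τ × ℕ → K)) (j : K →+* T) : AddSubgroup (𝒟.P j) :=
  (𝒟.S W j).map (𝒟.res j)

/-- All points of the subgroup have complete lifts. -/
def ZS2bGood (G : AddSubgroup (A.Pt 𝒟.s)) : Prop :=
  Var (G : Set (A.Pt 𝒟.s)) ∧ ∃ W, Fin0 W ∧ ∀ (T : Type u) [Field T] [IsAlgClosed T] (j : K →+* T),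
    extS (j := j) rfl G ≤ 𝒟.ZS2bL W j

section aux

variable {𝒟} {T' : Type u} [Field T'] {W W' : Submodule K (A.τ × ℕ → K)} {j : K →+* T}
  {j' : K →+* T'} {G G' : AddSubgroup (A.Pt 𝒟.s)}

theorem ZS2b_pmap (ψ : T →+* T') (h : ψ.comp j = j') {x : 𝒟.P j} (hx : x ∈ 𝒟.ZS2bL W j) :
    𝒟.pmap ψ h x ∈ 𝒟.ZS2bL W j' := by
  obtain ⟨y, hy, rfl⟩ := hx
  exact ⟨_, S_emap ψ h hy, res_emap ψ h y⟩

theorem ZS2b_spec [IsAlgClosed T'] (hW : Fin0 W) {x : 𝒟.P j} {x' : 𝒟.P j'}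
    (hx : x ∈ 𝒟.ZS2bL W j) (h : x' ∈ ext j' _ (loc j 𝒟.s x)) : x' ∈ 𝒟.ZS2bL W j' := by
  obtain ⟨Q, rfl, -⟩ := place_ex rfl rfl h
  obtain ⟨y, hy, rfl⟩ := hx
  obtain ⟨v, hv, hvW, y₀, hy₀⟩ := mem_S.1 hy Q.W Q.mem
  have h1 : 𝒟.emap (j := Q.jW) (j' := j) Q.W.subtype rfl y₀ ∈ 𝒟.S W j :=
    (congrArg (· ∈ 𝒟.S W j) hy₀).mpr (sub_mem hy (S_of_lv hv hvW))
  refine ⟨_, S_red hW Q h1, ?_⟩
  have h2 : 𝒟.res j y = 𝒟.pmap (j := Q.jW) Q.W.subtype rfl (𝒟.res Q.jW y₀) := by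
    rw [← res_emap, ← sub_zero (𝒟.res j y), ← hv, ← map_sub]
    exact congrArg _ hy₀.symm
  rw [res_emap, h2]
  exact (redW_map Q.W Q.r _ _ _).symm

theorem ZS2b_bot : 𝒟.ZS2bGood ⊥ := by
  refine ⟨var_singleton 0, ⊥, ⟨inferInstance, fun w hw a => ?_⟩, fun T _ _ j x hx => ?_⟩
  · rw [(Submodule.mem_bot K).1 hw, Pi.zero_apply]
  · rw [mem_extS, AddSubgroup.coe_bot, ext_finite rfl (Set.finite_singleton _),
      Set.image_singleton, map_zero] at hx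
    exact (Set.mem_singleton_iff.1 hx) ▸ zero_mem _

theorem ZS2b_sup (h : 𝒟.ZS2bGood G) (h' : 𝒟.ZS2bGood G') : 𝒟.ZS2bGood (G ⊔ G') := by
  obtain ⟨hG, W, hW, h⟩ := h
  obtain ⟨hG', W', hW', h'⟩ := h'
  have := hW.fin
  have := hW'.fin
  refine ⟨hG.sup hG', W ⊔ W', ⟨inferInstance, fun w hw a => ?_⟩, fun T _ _ j => ?_⟩
  · obtain ⟨x, hx, y, hy, rfl⟩ := Submodule.mem_sup.1 hw
    rw [Pi.add_apply, hW.zero x hx, hW'.zero y hy, add_zero]
  · rw [extS_sup]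
    exact sup_le ((h T j).trans (AddSubgroup.map_mono (S_mono le_sup_left)))
      ((h' T j).trans (AddSubgroup.map_mono (S_mono le_sup_right)))

theorem ZS2b_curve (ξ : 𝒟.P j) (h : rk j.fieldRange (rat ξ) ≤ 1) : ∃ G, 𝒟.ZS2bGood G ∧
    (∀ x ∈ loc j 𝒟.s ξ, ∀ y ∈ loc j 𝒟.s ξ, x - y ∈ G) ∧
    ∀ G' : AddSubgroup (A.Pt 𝒟.s), (∀ x ∈ loc j 𝒟.s ξ, ∀ y ∈ loc j 𝒟.s ξ, x - y ∈ G') →
      G ≤ G' := by
  obtain ⟨W, hW, hξ⟩ := 𝒟.curve j ξ h
  obtain ⟨G, n, hG, h1, h2, h3⟩ := exists_gen_sub rfl ξ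
  obtain ⟨E, _, _, i, ψ, hψ, hI⟩ := exists_indepFam j (n + n)
  refine ⟨G, ⟨hG, W, hW, fun T'' _ _ j'' x hx => ?_⟩, h1, h2⟩
  rw [mem_extS, ← h3 E i ψ _ (fun l => 𝒟.push_pmap (hψ l)) hψ hI] at hx
  exact ZS2b_spec hW (sum_mem fun l _ =>
    sub_mem (ZS2b_pmap _ (hψ _) hξ) (ZS2b_pmap _ (hψ _) hξ)) hx

end aux

theorem exists_all : ∃ W, Fin0 W ∧ 𝒟.All W := by
  have ht : A.TorsFin 𝒟.s := fun n hn => A.finite_torsion_of_ne _ (Nat.cast_ne_zero.2 hn)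
  obtain ⟨d, hd⟩ := Geo5_bdd 𝒟.s
  obtain ⟨G, hG, hmax⟩ : ∃ G, 𝒟.ZS2bGood G ∧ ∀ G', 𝒟.ZS2bGood G' →
      dim (G' : Set (A.Pt 𝒟.s)) ≤ dim (G : Set (A.Pt 𝒟.s)) := by
    have hb : BddAbove ((fun G : AddSubgroup (A.Pt 𝒟.s) => dim (G : Set (A.Pt 𝒟.s))) ''
        {G | 𝒟.ZS2bGood G}) := ⟨d, by rintro _ ⟨G, hG, rfl⟩; exact hd _ hG.1⟩
    obtain ⟨G, hG, e⟩ := Nat.sSup_mem (Set.Nonempty.image _ ⟨⊥, ZS2b_bot⟩) hb
    exact ⟨G, hG, fun G' hG' => (le_csSup hb ⟨G', hG', rfl⟩).trans e.ge⟩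
  have htop : Var ((⊤ : AddSubgroup (A.Pt 𝒟.s)) : Set (A.Pt 𝒟.s)) := 𝒟.var
  obtain ⟨N, Γ, hΓ⟩ := A.exists_proj htop hG.1 le_top
  have hfin : (ran Γ : Set (A.Pt 𝒟.s)).Finite := by
    by_contra hi
    obtain ⟨T, _, _, j, ξ, hξ, hr⟩ := (var_ran hΓ.qh.var).exists_curve hi
    obtain ⟨G', hG', h1, h2⟩ := ZS2b_curve (𝒟 := 𝒟) ξ hr.le
    have h3 := loc_subset (var_ran hΓ.qh.var).1 hξ
    have h4 : G' ≤ ran Γ := h2 _ fun x hx y hy => sub_mem (h3 hx) (h3 hy)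
    have h5 := ZS2b_sup hG hG'
    have h6 := eq_of_dim h5.1 hG.1 (le_sup_left : G ≤ G ⊔ G') (hmax _ h5)
    have h7 : G' = ⊥ := hG'.1.eq_bot ((ht N hΓ.ne).subset fun y hy =>
      uniq_of_inj hΓ.qh.inj (hΓ.idem (h4 hy))
        (hΓ.kill y (h6.ge ((le_sup_right : G' ≤ G ⊔ G') hy))))
    have h8 := var_loc (s := 𝒟.s) rfl ξ
    obtain ⟨x, hx⟩ := h8.2.1
    have h9 := dim_loc (s := 𝒟.s) rfl ξ
    rw [hr, (dim_eq_zero h8).2 ⟨x, Set.eq_singleton_iff_unique_mem.2 ⟨hx, fun y hy =>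
      sub_eq_zero.1 (AddSubgroup.mem_bot.1 (h7 ▸ h1 y hy x hx))⟩⟩] at h9
    exact zero_ne_one h9
  have hbot := (var_ran hΓ.qh.var).eq_bot hfin
  have hall : (G : Set (A.Pt 𝒟.s)) = Set.univ := Set.eq_univ_of_forall fun x => by
    obtain ⟨x', hx', rfl⟩ := ht.div htop hΓ.ne (AddSubgroup.mem_top x)
    obtain ⟨y, hy⟩ := mem_dom.1 (hΓ.dom.ge hx')
    have h1 := hΓ.sub _ hy
    rwa [AddSubgroup.mem_bot.1 (hbot.le (mem_ran.2 ⟨x', hy⟩)), sub_zero] at h1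
  obtain ⟨-, W, hW, h⟩ := hG
  refine ⟨W, hW, fun T _ _ j x => h T j ?_⟩
  rw [mem_extS, hall, ext_univ rfl]
  trivial

end Df

end MLF
end

-- merged part: Pool.Agent.Work.MP_29d410_ag.ZS4
section
/-!
# The section over the ground field

`Sg y e` says that `e` is a reduction of `y` modulo `W` at a place with values in `K`.
Plan.  Let `ξ` be generic over `T`, with `acl (adj j.fieldRange (rat ξ)) = ⊤`, `y` a complete lift.
`sg_three`: take three independent copies (`exists_indepFam`); `ξ₁ - ξ₂ + ξ₃` is generic (`loc_add_ld`,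
`loc_neg`), so is the image of `ξ` under an embedding `ψ` (`conj_emb`); `S_inter` for
`y₁ - y₂ + y₃ - ψ y` gives `m`; `joint_place`, and restrict the joint place along `ψ`.
`sg_fin`: let `v` be coordinates of `ξ` normalised at an index where `a = res e₀` does not vanish, `O ⊆ T` the
localisation of `K[v]` at `a` (if there is a place centred at `a`), `y₁` a lift of `ξ` over `O` (`res_surj`).  At
a place centred at `a` the point `y₁` is integral with a reduction which does not depend on the place;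
apply `fin_vals` to `z = f (lv (y - y₁))`.
`exists_sec`: by `sg_three` with three equal arguments `e - n u₀` satisfies `Sg` for all `n`, so
`lv u₀ ∈ W` by `sg_fin` (`exists_pr`); likewise two points over the same `a` differ by `W`.
`G = {e - e₀ | Sg y e}` where `Sg y e₀`, `res e₀ = 0`.
-/

namespace MLF

universe u

open PG

namespace Df

variable {A : SPG.{u}} {K T : Type u} [Field K] [IsAlgClosed K] [CharZero K] [Field T] {𝒟 : Df A K}
  {W : Submodule K (A.τ × ℕ → K)} {j : K →+* T}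

/-- Reductions modulo `W`. -/
def Sg (W : Submodule K (A.τ × ℕ → K)) (y : 𝒟.E j) (e : 𝒟.E (RingHom.id K)) : Prop :=
  ∃ (Q : Place j (RingHom.id K)) (y' : 𝒟.E Q.jW) (u : 𝒟.E j), 𝒟.res j u = 0 ∧ 𝒟.lv j u ∈ Wsp W j ∧
    𝒟.emap (j' := j) Q.W.subtype rfl y' = y - u ∧ 𝒟.emap Q.r (RingHom.ext Q.r_j) y' = e

section aux

variable {R R' : Type u} [CommRing R] [IsLocalRing R] [CommRing R'] [IsLocalRing R']
  {i : K →+* R} {i' : K →+* R'}

theorem ZS4_lv0 (i : K →+* R) : 𝒟.lv i 0 = 0 := by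
  have := 𝒟.lv_sub (j := i) (u := 0) (u' := 0) (map_zero _) (map_zero _)
  rwa [sub_self, sub_self] at this

variable (𝒟 W) in
/-- The points with trivial `res` and logarithm in `W`. -/
def ZS4_N (i : K →+* R) : AddSubgroup (𝒟.E i) where
  carrier := {u | 𝒟.res i u = 0 ∧ 𝒟.lv i u ∈ Wsp W i}
  zero_mem' := ⟨map_zero _, by rw [ZS4_lv0]; exact zero_mem _⟩
  add_mem' {a b} ha hb := ⟨by rw [map_add, ha.1, hb.1, add_zero], by
    rw [lv_add ha.1 hb.1]; exact add_mem ha.2 hb.2⟩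
  neg_mem' {a} ha := ⟨by rw [map_neg, ha.1, neg_zero], by
    rw [← zero_sub, lv_sub (map_zero _) ha.1, ZS4_lv0]; exact sub_mem (zero_mem _) ha.2⟩

theorem ZS4_map (ψ : R →+* R') (h : ψ.comp i = i') {u : 𝒟.E i} (hu : u ∈ 𝒟.ZS4_N W i) :
    𝒟.emap ψ h u ∈ 𝒟.ZS4_N W i' :=
  ⟨by rw [res_emap, hu.1, map_zero], by rw [lv_emap ψ h hu.1]; exact Wsp_map ψ h hu.2⟩

theorem ZS4_desc (hW : Fin0 W) {ψ : R →+* R'} (hψ : Function.Injective ψ) (h : ψ.comp i = i')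
    {u : 𝒟.E i} (hu : 𝒟.emap ψ h u ∈ 𝒟.ZS4_N W i') : u ∈ 𝒟.ZS4_N W i := by
  have := hW.fin
  have h1 : 𝒟.res i u = 0 := by
    refine map_inj hψ (𝒟.push_pmap h) ?_
    rw [map_zero]
    exact (res_emap ψ h u).symm.trans hu.1
  exact ⟨h1, Wsp_desc hψ h (lv_emap ψ h h1 ▸ hu.2)⟩

theorem ZS4_id (h : (RingHom.id R).comp i = i) (u : 𝒟.E i) : 𝒟.emap (RingHom.id R) h u = u :=
  emap_inj (ψ := RingHom.id R) Function.injective_id h (emap_emap h h h rfl u)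

end aux

omit [IsAlgClosed K] [CharZero K] in
theorem ZS4_place (Q : Place j (RingHom.id K)) (z : Q.W) :
    Q.r z = 0 ↔ Q.W.valuation (z : T) < 1 := by
  rw [← Q.W.valuation_lt_one_iff, ← RingHom.mem_ker, IsLocalRing.eq_maximalIdeal
    (RingHom.ker_isMaximal_of_surjective Q.r fun c => ⟨_, Q.r_j c⟩)]

/-- Constants are fixed by places. -/
theorem ZS4_const (Q : Place j (RingHom.id K)) (d : 𝒟.E (RingHom.id K)) :
    𝒟.emap Q.r (RingHom.ext Q.r_j) (𝒟.emap (j' := Q.jW) Q.jW rfl d) = d :=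
  (emap_emap _ _ rfl (RingHom.ext Q.r_j) d).trans (ZS4_id _ d)

theorem ZS4_const' (Q : Place j (RingHom.id K)) (d : 𝒟.E (RingHom.id K)) :
    𝒟.emap (j' := j) Q.W.subtype rfl (𝒟.emap (j' := Q.jW) Q.jW rfl d) =
      𝒟.emap j (RingHom.comp_id j) d :=
  emap_emap _ _ _ rfl d

/-- Restriction of a place along an embedding. -/
theorem ZS4_comap {T' : Type u} [Field T'] {j' : K →+* T'} (hW : Fin0 W) {y : 𝒟.E j}
    (hy : y ∈ 𝒟.S W j) (χ : T →+* T') (h : χ.comp j = j') (Q : Place j' (RingHom.id K))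
    (Z : 𝒟.E Q.jW) (hZ : 𝒟.emap χ h y - 𝒟.emap (j' := j') Q.W.subtype rfl Z ∈ 𝒟.ZS4_N W j') :
    Sg W y (𝒟.emap Q.r (RingHom.ext Q.r_j) Z) := by
  have hj : ∀ c, χ (j c) = j' c := DFunLike.congr_fun h
  let θ : Q.W.comap χ →+* Q.W :=
    (χ.comp (Q.W.comap χ).subtype).codRestrict Q.W.toSubring fun z => z.2
  let Q' : Place j (RingHom.id K) :=
    { W := Q.W.comap χ
      mem := fun c => by
        change χ (j c) ∈ Q.W
        rw [hj]
        exact Q.mem c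
      r := Q.r.comp θ
      r_j := fun c => (congrArg Q.r (Subtype.ext (hj c))).trans (Q.r_j c) }
  have hθ : θ.comp Q'.jW = Q.jW := RingHom.ext fun c => Subtype.ext (hj c)
  obtain ⟨u, u1, u2, y', hy'⟩ := mem_S.1 hy Q'.W Q'.mem
  change 𝒟.E Q'.jW at y'
  change 𝒟.emap (j := Q'.jW) (j' := j) Q'.W.subtype rfl y' = _ at hy'
  have h1 : Z - 𝒟.emap θ hθ y' ∈ 𝒟.ZS4_N W Q.jW := by
    refine ZS4_desc hW (i' := j') Q.W.subtype_injective rfl ?_
    have e : 𝒟.emap (j' := j') Q.W.subtype rfl (𝒟.emap θ hθ y') =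
        𝒟.emap χ h (𝒟.emap (j' := j) Q'.W.subtype rfl y') :=
      (emap_emap (ψ' := Q.W.subtype) (χ := χ.comp Q'.W.subtype) hθ _ h rfl y').trans
        (emap_emap _ _ _ rfl y').symm
    rw [map_sub, e, hy', map_sub]
    convert sub_mem (ZS4_map χ h ⟨u1, u2⟩) hZ using 1
    abel
  have h2 := ZS4_map Q.r (RingHom.ext Q.r_j) h1
  obtain ⟨d, hd⟩ : ∃ d, d = 𝒟.emap Q.r (RingHom.ext Q.r_j) (Z - 𝒟.emap θ hθ y') := ⟨_, rfl⟩
  rw [← hd] at h2
  have h3 := sub_mem (S := AddSubgroup _) (show u ∈ 𝒟.ZS4_N W j from ⟨u1, u2⟩)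
    (ZS4_map j (RingHom.comp_id j) h2)
  refine ⟨Q', y' + 𝒟.emap (j' := Q'.jW) Q'.jW rfl d, _, h3.1, h3.2, ?_, ?_⟩
  · rw [map_add, hy', ZS4_const']
    abel
  · rw [map_add, ZS4_const, hd, map_sub, emap_emap hθ _ (RingHom.ext Q'.r_j) rfl, add_sub_cancel]

/-- The alternating sum of three independent generic points is generic. -/
theorem ZS4_gen {T' : Type u} [Field T'] [IsAlgClosed T'] {j' : K →+* T'} {ξ : 𝒟.P j}
    (hg : loc j 𝒟.s ξ = Set.univ) (hT : acl (adj j.fieldRange (rat ξ)) = ⊤)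
    {ψ : Fin 3 → (T →+* T')} (hψ : ∀ l, (ψ l).comp j = j') (hI : IndepFam j'.fieldRange ψ) :
    ∃ (χ : T →+* T') (h : χ.comp j = j'), 𝒟.pmap χ h ξ =
      𝒟.pmap (ψ 0) (hψ 0) ξ - 𝒟.pmap (ψ 1) (hψ 1) ξ + 𝒟.pmap (ψ 2) (hψ 2) ξ := by
  have h1 := Geo5_sum (s := 𝒟.s) rfl
    (fun l => by rintro _ ⟨c, rfl⟩; exact ⟨j c, by rw [← hψ l]; rfl⟩) hI
    (fun l => 𝒟.pmap (ψ l) (hψ l) (![ξ, -ξ, ξ] l))
    (fun l => (rat_range_iff _ (𝒟.push_pmap (hψ l))).2 ⟨_, rfl⟩) Finset.univ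
  have h2 : ∀ l (y : 𝒟.P j), loc j' 𝒟.s (𝒟.pmap (ψ l) (hψ l) y) = loc j 𝒟.s y := fun l y =>
    (congrArg (fun i => loc i 𝒟.s (𝒟.pmap (ψ l) (hψ l) y)) (hψ l).symm).trans
      (loc_map (ψ l).injective _ y)
  simp only [h2, Fin.sum_univ_three, Matrix.cons_val, loc_neg rfl, hg, map_neg, Set.neg_univ,
    Set.univ_add_univ, ← sub_eq_add_neg] at h1
  obtain ⟨χ, e, h, h3⟩ := conj_emb rfl rfl (hg.trans h1.symm) hT
  exact ⟨χ, h, h3⟩

theorem sg_three [IsAlgClosed T] (hW : Fin0 W) {y : 𝒟.E j} (hy : y ∈ 𝒟.S W j)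
    (hg : loc j 𝒟.s (𝒟.res j y) = Set.univ)
    (hT : acl (adj j.fieldRange (rat (𝒟.res j y))) = ⊤) :
    ∃ u₀, 𝒟.res (RingHom.id K) u₀ = 0 ∧
      ∀ e₁ e₂ e₃, Sg W y e₁ → Sg W y e₂ → Sg W y e₃ → Sg W y (e₁ - e₂ + e₃ - u₀) := by
  obtain ⟨T', _, _, j', ψ, hψ, hI⟩ := exists_indepFam j 3
  obtain ⟨χ, hχ, h1⟩ := ZS4_gen hg hT hψ hI
  obtain ⟨Y, hY⟩ : ∃ Y, Y = 𝒟.emap (ψ 0) (hψ 0) y - 𝒟.emap (ψ 1) (hψ 1) y +
    𝒟.emap (ψ 2) (hψ 2) y - 𝒟.emap χ hχ y := ⟨_, rfl⟩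
  have h2 : 𝒟.res j' Y = 0 := by
    rw [hY, map_sub, map_add, map_sub, res_emap, res_emap, res_emap, res_emap, h1, sub_self]
  obtain ⟨m, m1, m2⟩ := S_inter hW h2 (hY ▸ sub_mem (add_mem (sub_mem (S_emap _ _ hy)
    (S_emap _ _ hy)) (S_emap _ _ hy)) (S_emap _ _ hy))
  obtain ⟨u₀, h3, h4⟩ := 𝒟.exists_lv (RingHom.id K) m1
  have h5 : 𝒟.res j' (𝒟.emap j' (RingHom.comp_id j') u₀) = 0 := by rw [res_emap, h3, map_zero]
  have h6 : Y - 𝒟.emap j' (RingHom.comp_id j') u₀ ∈ 𝒟.ZS4_N W j' :=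
    ⟨by rw [map_sub, h2, h5, sub_self], by rwa [lv_sub h2 h5, lv_emap _ _ h3, h4]⟩
  refine ⟨u₀, h3, fun e₁ e₂ e₃ s₁ s₂ s₃ => ?_⟩
  have hs : ∀ l : Fin 3, Sg W y (![e₁, e₂, e₃] l) := by
    intro l
    fin_cases l
    exacts [s₁, s₂, s₃]
  choose Q y' u u1 u2 u3 u4 using hs
  obtain ⟨Q', hQ⟩ := joint_place hψ hI Q fun l => ZS4_place (Q l)
  let θ : ∀ l, (Q l).W →+* Q'.W := fun l =>
    ((ψ l).comp (Q l).W.subtype).codRestrict Q'.W.toSubring fun z => (hQ l z).1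
  have hθ : ∀ l, (θ l).comp (Q l).jW = Q'.jW := fun l =>
    RingHom.ext fun c => Subtype.ext (DFunLike.congr_fun (hψ l) c)
  have a1 : ∀ l, 𝒟.emap (j' := j') Q'.W.subtype rfl (𝒟.emap (θ l) (hθ l) (y' l)) =
      𝒟.emap (ψ l) (hψ l) y - 𝒟.emap (ψ l) (hψ l) (u l) := fun l => by
    rw [← map_sub, ← u3 l]
    exact (emap_emap (ψ' := Q'.W.subtype) (χ := (ψ l).comp (Q l).W.subtype) (hθ l) _ (hψ l) rfl
      _).trans (emap_emap _ _ _ rfl _).symm
  have a2 : ∀ l, 𝒟.emap Q'.r (RingHom.ext Q'.r_j) (𝒟.emap (θ l) (hθ l) (y' l)) =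
      ![e₁, e₂, e₃] l := fun l =>
    (emap_emap _ _ _ (RingHom.ext fun z => (hQ l z).2) _).trans (u4 l)
  have a3 : ∀ l, 𝒟.emap (ψ l) (hψ l) (u l) ∈ 𝒟.ZS4_N W j' := fun l =>
    ZS4_map _ _ ⟨u1 l, u2 l⟩
  have := ZS4_comap hW hy χ hχ Q' (𝒟.emap (θ 0) (hθ 0) (y' 0) - 𝒟.emap (θ 1) (hθ 1) (y' 1) +
    𝒟.emap (θ 2) (hθ 2) (y' 2) - 𝒟.emap (j' := Q'.jW) Q'.jW rfl u₀) (by
      rw [map_sub, map_add, map_sub, a1, a1, a1, ZS4_const']
      convert sub_mem (add_mem (sub_mem (a3 0) (a3 1)) (a3 2)) h6 using 1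
      rw [hY]
      abel)
  rwa [map_sub, map_add, map_sub, a2, a2, a2, ZS4_const] at this

end Df

end MLF
end

-- merged part: Pool.Agent.Work.MP_29d410_ag.ZS4b
section
/-!
# The section over the ground field

`Sg y e` says that `e` is a reduction of `y` modulo `W` at a place with values in `K`.
Plan.  Let `ξ` be generic over `T`, with `acl (adj j.fieldRange (rat ξ)) = ⊤`, `y` a complete lift.
`sg_three`: take three independent copies (`exists_indepFam`); `ξ₁ - ξ₂ + ξ₃` is generic (`loc_add_ld`,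
`loc_neg`), so is the image of `ξ` under an embedding `ψ` (`conj_emb`); `S_inter` for
`y₁ - y₂ + y₃ - ψ y` gives `m`; `joint_place`, and restrict the joint place along `ψ`.
`sg_fin`: let `v` be coordinates of `ξ` normalised at an index where `a = res e₀` does not vanish, `O ⊆ T` the
localisation of `K[v]` at `a` (if there is a place centred at `a`), `y₁` a lift of `ξ` over `O` (`res_surj`).  At
a place centred at `a` the point `y₁` is integral with a reduction which does not depend on the place;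
apply `fin_vals` to `z = f (lv (y - y₁))`.
`exists_sec`: by `sg_three` with three equal arguments `e - n u₀` satisfies `Sg` for all `n`, so
`lv u₀ ∈ W` by `sg_fin` (`exists_pr`); likewise two points over the same `a` differ by `W`.
`G = {e - e₀ | Sg y e}` where `Sg y e₀`, `res e₀ = 0`.
-/

namespace MLF

universe u

open PG

section ZS4b

variable {K T : Type u} [Field K] [Field T] {j : K →+* T} {σ : Type}

/-- A place with values in the ground field is local. -/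
theorem ZS4b_unit (P : Place j (RingHom.id K)) {z : P.W} (h : P.r z ≠ 0) : IsUnit z := by
  have hm := RingHom.ker_isMaximal_of_surjective P.r fun c => ⟨_, P.r_j c⟩
  by_contra e
  apply h
  rw [← RingHom.mem_ker, IsLocalRing.eq_maximalIdeal hm]
  exact e

/-- The place is centred at `a`. -/
def ZS4bC (v : σ → T) (a : σ → K) (P : Place j (RingHom.id K)) : Prop :=
  ∀ i, ∃ hm : v i ∈ P.W, P.r ⟨_, hm⟩ = a i

/-- The elements with the same finite value at all places centred at `a`. -/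
def ZS4bO (j : K →+* T) (v : σ → T) (a : σ → K) : Subring T where
  carrier := {z | ∃ b : K, ∀ P : Place j (RingHom.id K), ZS4bC v a P →
    ∃ hz : z ∈ P.W, P.r ⟨z, hz⟩ = b}
  zero_mem' := ⟨0, fun P _ => ⟨zero_mem _, map_zero P.r⟩⟩
  one_mem' := ⟨1, fun P _ => ⟨one_mem _, map_one P.r⟩⟩
  add_mem' := fun ⟨b, hb⟩ ⟨c, hc⟩ => ⟨b + c, fun P hP => by
    obtain ⟨h, rfl⟩ := hb P hP
    obtain ⟨h', rfl⟩ := hc P hP
    exact ⟨add_mem h h', map_add P.r ⟨_, h⟩ ⟨_, h'⟩⟩⟩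
  mul_mem' := fun ⟨b, hb⟩ ⟨c, hc⟩ => ⟨b * c, fun P hP => by
    obtain ⟨h, rfl⟩ := hb P hP
    obtain ⟨h', rfl⟩ := hc P hP
    exact ⟨mul_mem h h', map_mul P.r ⟨_, h⟩ ⟨_, h'⟩⟩⟩
  neg_mem' := fun ⟨b, hb⟩ => ⟨-b, fun P hP => by
    obtain ⟨h, rfl⟩ := hb P hP
    exact ⟨neg_mem h, map_neg P.r ⟨_, h⟩⟩⟩

variable {v : σ → T} {a : σ → K}

theorem ZS4b_isUnit {z : ZS4bO j v a} {b : K} (hb : b ≠ 0) (h0 : (z : T) ≠ 0)
    (h : ∀ P : Place j (RingHom.id K), ZS4bC v a P → ∃ hz : (z : T) ∈ P.W, P.r ⟨z, hz⟩ = b) :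
    IsUnit z := by
  refine IsUnit.of_mul_eq_one (⟨(z : T)⁻¹, b⁻¹, fun P hP => ?_⟩ : ZS4bO j v a)
    (Subtype.ext (mul_inv_cancel₀ h0))
  obtain ⟨hz, rfl⟩ := h P hP
  obtain ⟨w, hw⟩ := (ZS4b_unit P hb).exists_right_inv
  have e : (z : T)⁻¹ = w := inv_eq_of_mul_eq_one_right (congrArg Subtype.val hw)
  refine ⟨e ▸ w.2, eq_inv_of_mul_eq_one_right ?_⟩
  rw [← map_mul, ← map_one P.r]
  exact congrArg P.r (Subtype.ext (mul_inv_cancel₀ h0))

instance ZS4b_local : IsLocalRing (ZS4bO j v a) := by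
  refine IsLocalRing.of_isUnit_or_isUnit_one_sub_self fun z => ?_
  obtain ⟨b, hb⟩ := z.2
  by_cases h0 : (z : T) = 0
  · right
    rw [show z = 0 from Subtype.ext h0, sub_zero]
    exact isUnit_one
  by_cases h1 : (z : T) = 1
  · left
    rw [show z = 1 from Subtype.ext h1]
    exact isUnit_one
  by_cases e : b = 0
  · refine Or.inr (ZS4b_isUnit (b := 1) one_ne_zero (sub_ne_zero.2 (Ne.symm h1)) fun P hP => ?_)
    obtain ⟨hz, hz'⟩ := hb P hP
    refine ⟨sub_mem (one_mem _) hz, (map_sub P.r 1 ⟨_, hz⟩).trans ?_⟩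
    rw [hz', e, map_one, sub_zero]
  · exact Or.inl (ZS4b_isUnit e h0 hb)

/-- The structure map. -/
def ZS4bj (j : K →+* T) (v : σ → T) (a : σ → K) : K →+* ZS4bO j v a :=
  j.codRestrict _ fun c => ⟨c, fun P _ => ⟨P.mem c, P.r_j c⟩⟩

/-- The inclusion in a valuation ring. -/
def ZS4bi {P : Place j (RingHom.id K)} (hP : ZS4bC v a P) : ZS4bO j v a →+* P.W :=
  (ZS4bO j v a).subtype.codRestrict P.W.toSubring fun z => by
    obtain ⟨b, hb⟩ := z.2
    exact (hb P hP).1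

theorem ZS4b_indep {P P' : Place j (RingHom.id K)} (hP : ZS4bC v a P) (hP' : ZS4bC v a P') :
    P.r.comp (ZS4bi hP) = P'.r.comp (ZS4bi hP') := by
  ext z
  obtain ⟨b, hb⟩ := z.2
  exact (hb P hP).2.trans (hb P' hP').2.symm

end ZS4b

namespace Df

variable {A : SPG.{u}} {K T : Type u} [Field K] [IsAlgClosed K] [CharZero K] [Field T] {𝒟 : Df A K}
  {W : Submodule K (A.τ × ℕ → K)} {j : K →+* T}

theorem ZS4b_cen (Q : Place j (RingHom.id K)) (x : 𝒟.P Q.jW) {a : A.σ → K} {i₀ : A.σ}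
    (ha : A.Rep (𝒟.pmap (j' := RingHom.id K) Q.r (RingHom.ext Q.r_j) x) a) (h1 : a i₀ = 1) :
    ∃ v, A.Rep (𝒟.pmap (j' := j) Q.W.subtype rfl x) v ∧ v i₀ = 1 ∧ ZS4bC v a Q := by
  obtain ⟨w', hw'⟩ := A.ax.exists_rep x
  obtain ⟨c, hc, e⟩ := A.ax.rep_uniq ha (rep_map Q.r _ hw')
  have h2 : Q.r (w' i₀) ≠ 0 := by
    have := congrFun e i₀
    simp only [Function.comp_apply, Pi.smul_apply, h1, smul_eq_mul, mul_one] at this
    rw [this]
    exact hc.ne_zero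
  obtain ⟨w, hw, hw1⟩ := PB_norm hw' (ZS4b_unit Q h2)
  obtain ⟨c, -, e⟩ := A.ax.rep_uniq ha (rep_map Q.r _ hw)
  have h3 := congrFun e i₀
  simp only [Function.comp_apply, Pi.smul_apply, h1, hw1, map_one, smul_eq_mul, mul_one] at h3
  refine ⟨_, rep_map Q.W.subtype _ hw, congrArg Subtype.val hw1, fun i => ⟨(w i).2, ?_⟩⟩
  have := congrFun e i
  rwa [← h3, one_smul] at this

theorem ZS4b_val {n : ℕ} {pos : Fin n → A.τ × ℕ} {b : Fin n → A.τ × ℕ → K} {i : A.τ × ℕ}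
    {O : Type u} [CommRing O] [IsLocalRing O] {jO : K →+* O} (Q : Place j (RingHom.id K))
    {ι : O →+* Q.W} {ψ : O →+* T} {ρ : O →+* K} (hι : ι.comp jO = Q.jW) (hψ : ψ.comp jO = j)
    (hρ : ρ.comp jO = RingHom.id K) (e₁ : Q.W.subtype.comp ι = ψ) (e₂ : Q.r.comp ι = ρ)
    {y u : 𝒟.E j} {y₁ : 𝒟.E jO} {y' : 𝒟.E Q.jW} (h₁ : 𝒟.res j (𝒟.emap ψ hψ y₁) = 𝒟.res j y)
    (hu : 𝒟.res j u = 0) (hu' : 𝒟.lv j u i = ∑ k, 𝒟.lv j u (pos k) * j (b k i))
    (hy : 𝒟.emap (j' := j) Q.W.subtype rfl y' = y - u) :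
    ∃ hz : 𝒟.lv j (y - 𝒟.emap ψ hψ y₁) i -
        ∑ k, 𝒟.lv j (y - 𝒟.emap ψ hψ y₁) (pos k) * j (b k i) ∈ Q.W,
      Q.r ⟨_, hz⟩ = 𝒟.lv _ (𝒟.emap Q.r (RingHom.ext Q.r_j) y' - 𝒟.emap ρ hρ y₁) i -
        ∑ k, 𝒟.lv _ (𝒟.emap Q.r (RingHom.ext Q.r_j) y' - 𝒟.emap ρ hρ y₁) (pos k) * b k i := by
  set d := y' - 𝒟.emap ι hι y₁ with hd
  have k1 : y - 𝒟.emap ψ hψ y₁ = 𝒟.emap (j' := j) Q.W.subtype rfl d + u := by
    rw [hd, map_sub, hy, emap_emap hι _ hψ e₁]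
    abel
  have k2 : 𝒟.res j (𝒟.emap (j' := j) Q.W.subtype rfl d) = 0 := by
    rw [eq_sub_of_add_eq k1.symm, map_sub, map_sub, h₁, hu, sub_self, sub_self]
  have k3 : 𝒟.res _ d = 0 := by
    rw [res_emap] at k2
    exact map_inj Q.W.subtype_injective _ (k2.trans (map_zero _).symm)
  have k4 : 𝒟.emap (j' := RingHom.id K) Q.r (RingHom.ext Q.r_j) y' - 𝒟.emap ρ hρ y₁ =
      𝒟.emap Q.r (RingHom.ext Q.r_j) d := by
    rw [hd, map_sub, emap_emap hι _ hρ e₂]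
  have k5 : 𝒟.lv j (y - 𝒟.emap ψ hψ y₁) i -
      ∑ k, 𝒟.lv j (y - 𝒟.emap ψ hψ y₁) (pos k) * j (b k i) =
      Q.W.subtype (𝒟.lv _ d i - ∑ k, 𝒟.lv _ d (pos k) * Q.jW (b k i)) := by
    rw [k1, lv_add k2 hu, lv_emap _ _ k3, map_sub, map_sum]
    simp only [Pi.add_apply, Function.comp_apply, hu', add_mul, Finset.sum_add_distrib, map_mul]
    exact add_sub_add_right_eq_sub _ _ _
  refine ⟨k5 ▸ (𝒟.lv _ d i - ∑ k, 𝒟.lv _ d (pos k) * Q.jW (b k i)).2, ?_⟩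
  rw [k4, lv_emap _ _ k3, show (⟨_, _⟩ : Q.W) =
    𝒟.lv _ d i - ∑ k, 𝒟.lv _ d (pos k) * Q.jW (b k i) from Subtype.ext k5, map_sub, map_sum]
  simp only [Function.comp_apply, map_mul]
  congr 1
  exact Finset.sum_congr rfl fun k _ => congrArg _ (Q.r_j _)

theorem sg_fin (hW : Fin0 W) {y : 𝒟.E j} (hy : y ∈ 𝒟.S W j) (e₀ : 𝒟.E (RingHom.id K)) {n : ℕ}
    {pos : Fin n → A.τ × ℕ} {b : Fin n → A.τ × ℕ → K}
    (hb : ∀ (T : Type u) [CommRing T] (j : K →+* T) (v : A.τ × ℕ → T),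
      v ∈ Wsp W j ↔ ∀ i, v i = ∑ k, v (pos k) * j (b k i)) (i : A.τ × ℕ) :
    {z : K | ∃ e, Sg W y e ∧ 𝒟.res _ e = 𝒟.res _ e₀ ∧
      z = 𝒟.lv _ (e - e₀) i - ∑ k, 𝒟.lv _ (e - e₀) (pos k) * b k i}.Finite := by
  by_contra hinf
  obtain ⟨-, -, ⟨Q₀, y₀, u₀, hu₀, -, hy₀, rfl⟩, he₀, -⟩ := Set.Infinite.nonempty hinf
  apply hinf
  obtain ⟨a, i₀, ha, h1⟩ := exists_rep_one (𝒟.res _ e₀)
  have cen : ∀ (Q : Place j (RingHom.id K)) (y' : 𝒟.E Q.jW) (u : 𝒟.E j), 𝒟.res j u = 0 →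
      𝒟.emap (j' := j) Q.W.subtype rfl y' = y - u →
      𝒟.res _ (𝒟.emap Q.r (RingHom.ext Q.r_j) y') = 𝒟.res _ e₀ →
      ∃ v, A.Rep (𝒟.res j y) v ∧ v i₀ = 1 ∧ ZS4bC v a Q := fun Q y' u hu hy' he => by
    have := ZS4b_cen Q (𝒟.res _ y') (by rwa [← res_emap, he]) h1
    rwa [← res_emap, hy', map_sub, hu, sub_zero] at this
  obtain ⟨v, hv, hv1, hQ₀⟩ := cen Q₀ y₀ u₀ hu₀ hy₀ he₀
  have hψ : (ZS4bO j v a).subtype.comp (ZS4bj j v a) = j := rfl
  have hρ : (Q₀.r.comp (ZS4bi hQ₀)).comp (ZS4bj j v a) = RingHom.id K := RingHom.ext Q₀.r_j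
  let vO : A.σ → ZS4bO j v a := fun l => ⟨v l, a l, fun P hP => hP l⟩
  obtain ⟨ξ, hξ, hξ'⟩ := exists_map_eq (ZS4bO j v a).subtype_injective (𝒟.push_pmap hψ)
    (v := vO) ⟨i₀, by rw [show vO i₀ = 1 from Subtype.ext hv1]; exact isUnit_one⟩ hv
  obtain ⟨y₁, rfl⟩ := res_surj (ZS4bj j v a) ξ
  have h₁ : 𝒟.res j (𝒟.emap _ hψ y₁) = 𝒟.res j y := by rwa [res_emap]
  have h₂ : 𝒟.res _ (𝒟.emap _ hρ y₁) = 𝒟.res _ e₀ := by
    rw [res_emap]
    refine map_eq_of_rep _ _ hξ ?_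
    rwa [show ⇑(Q₀.r.comp (ZS4bi hQ₀)) ∘ vO = a from funext fun l => (hQ₀ l).2]
  refine ((fin_vals j v a (𝒟.lv j (y - 𝒟.emap _ hψ y₁) i -
    ∑ k, 𝒟.lv j (y - 𝒟.emap _ hψ y₁) (pos k) * j (b k i)) fun P hP => ?_).image
    (· + (𝒟.lv _ (𝒟.emap _ hρ y₁ - e₀) i -
      ∑ k, 𝒟.lv _ (𝒟.emap _ hρ y₁ - e₀) (pos k) * b k i))).subset ?_
  · obtain ⟨u, hu, hu', y', hy'⟩ := mem_S.1 hy P.W P.mem
    exact (ZS4b_val P (ι := ZS4bi hP) rfl hψ hρ rfl (ZS4b_indep hP hQ₀) h₁ hu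
      ((hb T j _).1 hu' i) hy').1
  · rintro _ ⟨_, ⟨Q, y', u, hu, hu', hy', rfl⟩, he, rfl⟩
    obtain ⟨v', hv', hv1', hQ⟩ := cen Q y' u hu hy' he
    obtain ⟨c, -, rfl⟩ := A.ax.rep_uniq hv hv'
    rw [Pi.smul_apply, hv1, smul_eq_mul, mul_one] at hv1'
    rw [hv1', one_smul] at hQ
    refine ⟨_, ⟨Q, hQ, ZS4b_val Q (ι := ZS4bi hQ) rfl hψ hρ rfl (ZS4b_indep hQ hQ₀) h₁ hu
      ((hb T j _).1 hu' i) hy'⟩, ?_⟩
    rw [← sub_add_sub_cancel (𝒟.emap Q.r (RingHom.ext Q.r_j) y') (𝒟.emap _ hρ y₁) e₀,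
      lv_add (by rw [map_sub, he, h₂, sub_self]) (by rw [map_sub, h₂, sub_self])]
    simp only [Pi.add_apply, add_mul, Finset.sum_add_distrib]
    ring

end Df

end MLF
end

-- merged part: Pool.Agent.Work.MP_29d410_ag.ZS4c
section
/-!
# The section over the ground field

`Sg y e` says that `e` is a reduction of `y` modulo `W` at a place with values in `K`.
Plan.  Let `ξ` be generic over `T`, with `acl (adj j.fieldRange (rat ξ)) = ⊤`, `y` a complete lift.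
`sg_three`: take three independent copies (`exists_indepFam`); `ξ₁ - ξ₂ + ξ₃` is generic (`loc_add_ld`,
`loc_neg`), so is the image of `ξ` under an embedding `ψ` (`conj_emb`); `S_inter` for
`y₁ - y₂ + y₃ - ψ y` gives `m`; `joint_place`, and restrict the joint place along `ψ`.
`sg_fin`: let `v` be coordinates of `ξ` normalised at an index where `a = res e₀` does not vanish, `O ⊆ T` the
localisation of `K[v]` at `a` (if there is a place centred at `a`), `y₁` a lift of `ξ` over `O` (`res_surj`).  At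
a place centred at `a` the point `y₁` is integral with a reduction which does not depend on the place;
apply `fin_vals` to `z = f (lv (y - y₁))`.
`exists_sec`: by `sg_three` with three equal arguments `e - n u₀` satisfies `Sg` for all `n`, so
`lv u₀ ∈ W` by `sg_fin` (`exists_pr`); likewise two points over the same `a` differ by `W`.
`G = {e - e₀ | Sg y e}` where `Sg y e₀`, `res e₀ = 0`.
-/

namespace MLF

universe u

open PG

namespace Df

variable {A : SPG.{u}} {K T : Type u} [Field K] [IsAlgClosed K] [CharZero K] [Field T] {𝒟 : Df A K}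
  {W : Submodule K (A.τ × ℕ → K)} {j : K →+* T}

omit [IsAlgClosed K] [CharZero K] in
theorem ZS4c_gen (𝒟 : Df A K) : ∃ (T : Type u) (_ : Field T) (_ : IsAlgClosed T) (j : K →+* T)
    (ξ : 𝒟.P j), loc j 𝒟.s ξ = Set.univ ∧ acl (adj j.fieldRange (rat ξ)) = ⊤ := by
  obtain ⟨Ω, _, _, j, ξ, hξ, -⟩ := 𝒟.var.exists_gen
  let Ω₀ : Subfield Ω := acl (adj j.fieldRange (rat ξ))
  let j₀ : K →+* Ω₀ := j.codRestrict Ω₀ fun z => le_acl _ (le_adj _ _ ⟨z, rfl⟩)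
  have e₁ : A.push Ω₀.subtype (A.push j₀ 𝒟.s) = A.push j 𝒟.s := A.ax.push_comp _ _ _
  obtain ⟨y₁, hy₁⟩ := (rat_subtype_iff e₁).1 ((rat_adj j.fieldRange ξ).mono (le_acl _))
  refine ⟨Ω₀, inferInstance, inferInstance, j₀, y₁, ?_, ?_⟩
  · rw [← hξ, ← hy₁]
    exact (loc_map (j := j₀) Ω₀.subtype.injective e₁ y₁).symm
  · refine eq_top_iff.2 fun z _ => (mem_acl_map Ω₀.subtype).1 ?_
    rw [map_adj, RingHom.map_fieldRange, ← rat_map _ e₁, hy₁]
    exact z.2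

theorem ZS4c_ex {y : 𝒟.E j} (hy : y ∈ 𝒟.S W j) (hg : loc j 𝒟.s (𝒟.res j y) = Set.univ)
    (a : 𝒟.P (RingHom.id K)) : ∃ e, Sg W y e ∧ 𝒟.res _ e = a := by
  obtain ⟨Q, hQ, -⟩ := place_ex (s := 𝒟.s) (j := j) (j' := RingHom.id K) rfl rfl
    (y := 𝒟.res j y) (y' := a) (by rw [hg, ext_univ rfl]; trivial)
  obtain ⟨u, hu, hl, y', hy'⟩ := mem_S.1 hy Q.W Q.mem
  refine ⟨_, ⟨Q, y', u, hu, hl, hy', rfl⟩, ?_⟩
  have h1 : 𝒟.res j y = 𝒟.pmap (j := Q.jW) (j' := j) Q.W.subtype rfl (𝒟.res Q.jW y') := by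
    rw [← res_emap]
    have h2 : 𝒟.emap (j := Q.jW) (j' := j) Q.W.subtype rfl y' = y - u := hy'
    rw [h2, map_sub, hu, sub_zero]
  rw [res_emap, ← hQ, h1]
  exact (redW_map Q.W Q.r _ _ _).symm

theorem ZS4c_emap_id (w : 𝒟.E (RingHom.id K)) :
    𝒟.emap (RingHom.id K) (RingHom.comp_id _) w = w :=
  map_id' (fun z => by rw [PowerSeries.map_id]; rfl) _ w

theorem ZS4c_add {y : 𝒟.E j} {e w : 𝒟.E (RingHom.id K)} (he : Sg W y e) (hw : 𝒟.res _ w = 0)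
    (hl : 𝒟.lv _ w ∈ W) : Sg W y (e + w) := by
  obtain ⟨Q, y', u, hu, hu', h1, h2⟩ := he
  have h0 : 𝒟.res j (𝒟.emap j (RingHom.comp_id j) w) = 0 := by rw [res_emap, hw, map_zero]
  refine ⟨Q, y' + 𝒟.emap Q.jW (RingHom.comp_id _) w, u - 𝒟.emap j (RingHom.comp_id j) w, ?_, ?_,
    ?_, ?_⟩
  · rw [map_sub, hu, h0, sub_zero]
  · rw [lv_sub hu h0, lv_emap _ _ hw]
    exact sub_mem hu' (mem_Wsp j hl)
  · rw [map_add, h1, emap_emap (χ := j) _ _ (RingHom.comp_id j) rfl]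
    abel
  · rw [map_add, h2, emap_emap (χ := RingHom.id K) _ _ (RingHom.comp_id _) (RingHom.ext Q.r_j),
      ZS4c_emap_id]

theorem ZS4c_mem (hW : Fin0 W) {y : 𝒟.E j} (hy : y ∈ 𝒟.S W j) {e₀ w : 𝒟.E (RingHom.id K)}
    (hw : 𝒟.res _ w = 0) (h : ∀ n : ℕ, Sg W y (n • w + e₀)) : 𝒟.lv _ w ∈ W := by
  have := hW.fin
  obtain ⟨n, pos, b, -, -, hb⟩ := exists_pr W
  rw [← Wsp_id W, hb]
  intro i
  rw [← sub_eq_zero]
  by_contra h0
  refine (sg_fin hW hy e₀ hb i).not_infinite (Set.infinite_of_injective_forall_mem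
    (f := fun m : ℕ => (m : K) * (𝒟.lv _ w i - ∑ k, 𝒟.lv _ w (pos k) * b k i)) ?_ fun m => ?_)
  · intro m m' e
    exact Nat.cast_injective (mul_right_cancel₀ h0 e)
  · refine ⟨_, h m, by rw [map_add, map_nsmul, hw, smul_zero, zero_add], ?_⟩
    rw [add_sub_cancel_right, lv_nsmul hw]
    simp only [Pi.smul_apply, nsmul_eq_mul, mul_sub, Finset.mul_sum, mul_assoc]

theorem exists_sec (hW : Fin0 W) (hA : 𝒟.All W) :
    ∃ (T : Type u) (_ : Field T) (j : K →+* T) (y : 𝒟.E j) (e₀ : 𝒟.E (RingHom.id K))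
      (G : AddSubgroup (𝒟.E (RingHom.id K))), y ∈ 𝒟.S W j ∧ (∀ a, ∃ g ∈ G, 𝒟.res _ g = a) ∧
      (∀ g ∈ G, 𝒟.res _ g = 0 → 𝒟.lv _ g ∈ W) ∧ ∀ g ∈ G, Sg W y (g + e₀) := by
  obtain ⟨T, _, _, j, ξ, hξ, hT⟩ := ZS4c_gen 𝒟
  obtain ⟨y, hy, rfl⟩ := hA T j ξ
  obtain ⟨u₀, hu₀, h3⟩ := sg_three hW hy hξ hT
  obtain ⟨e₀, he₀, hr₀⟩ := ZS4c_ex hy hξ 0
  have hn : 𝒟.res _ (-u₀) = 0 := by rw [map_neg, hu₀, neg_zero]
  have h4 : 𝒟.lv _ (-u₀) ∈ W := ZS4c_mem hW hy hn (e₀ := e₀) fun n => by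
    induction n with
    | zero => simpa using he₀
    | succ n ih =>
      convert h3 _ _ _ ih ih ih using 1
      rw [succ_nsmul]
      abel
  have h5 : 𝒟.lv _ u₀ ∈ W := by
    have h6 := lv_sub hn hn
    have h7 := lv_sub (u := -u₀ - -u₀) (by rw [sub_self, map_zero]) hn
    rw [h6, sub_self (-u₀), zero_sub, neg_neg] at h7
    rw [h7]
    exact sub_mem (sub_mem h4 h4) h4
  have h8 : ∀ e₁ e₂ e₃, Sg W y e₁ → Sg W y e₂ → Sg W y e₃ → Sg W y (e₁ - e₂ + e₃) :=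
    fun e₁ e₂ e₃ a₁ a₂ a₃ => by simpa using ZS4c_add (h3 _ _ _ a₁ a₂ a₃) hu₀ h5
  let G : AddSubgroup (𝒟.E (RingHom.id K)) :=
    { carrier := {g | Sg W y (g + e₀)}
      zero_mem' := by simpa using he₀
      add_mem' := fun {a b} ha hb => by
        have := h8 _ _ _ ha he₀ hb
        rwa [add_sub_cancel_right, ← add_assoc] at this
      neg_mem' := fun {a} ha => by
        have := h8 _ _ _ he₀ ha he₀
        rwa [sub_add_cancel_right] at this }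
  refine ⟨T, inferInstance, j, y, e₀, G, hy, fun a => ?_, fun g hg h0 => ?_, fun g hg => hg⟩
  · obtain ⟨e, he, hr⟩ := ZS4c_ex hy hξ a
    refine ⟨e - e₀, ?_, by rw [map_sub, hr, hr₀, sub_zero]⟩
    change Sg W y (e - e₀ + e₀)
    rwa [sub_add_cancel]
  · exact ZS4c_mem hW hy h0 (e₀ := e₀) fun n => G.nsmul_mem hg n

end Df

end MLF
end
end
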